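import Pool.Agent.LibH11.BraidKnots

/-!
# Certificate for the braid model of knots (`LibH11.BraidKnots`)

The number of Fox 3-colourings of a closed braid is well defined on `Knot`, it is `3` for the
unknot and `9` for the trefoil, so `Knot` is not degenerate; and it is not of finite type, so
`IsFiniteType` is a real restriction.
-/

set_option autoImplicit false

namespace Pool.Agent.VAC2.BraidColour

open Pool.Agent.LibH11

/-- Colours of the `n + 1` strands. -/
abbrev Col (n : ℕ) : Type := Fin (n + 1) → ZMod 3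

theorem three : (3 : ZMod 3) = 0 := rfl

/-- The effect of a crossing at the positions `p, q`: `(a, b) ↦ (b, -a-b)`. -/
def act {n : ℕ} (p q : Fin (n + 1)) (x : Col n) : Col n :=
  fun k => if k = p then x q else if k = q then -x p - x q else x k

theorem act3 {n : ℕ} {p q : Fin (n + 1)} (h : p ≠ q) (x : Col n) :
    act p q (act p q (act p q x)) = x := by
  funext k
  by_cases hp : k = p
  · subst hp
    simp [act, h.symm]
    ring
  · by_cases hq : k = q
    · subst hq
      simp [act, h.symm]
      ring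
    · simp [act, hp, hq]

/-- The same as a permutation of the colourings. -/
def actE {n : ℕ} (p q : Fin (n + 1)) (h : p ≠ q) : Equiv.Perm (Col n) where
  toFun := act p q
  invFun x := act p q (act p q x)
  left_inv x := act3 h x
  right_inv x := act3 h x

theorem actE_apply {n : ℕ} (p q : Fin (n + 1)) (h : p ≠ q) (x : Col n) :
    actE p q h x = act p q x := rfl

theorem actE_three {n : ℕ} (p q : Fin (n + 1)) (h : p ≠ q) : actE p q h ^ 3 = 1 := by
  ext x : 1
  exact act3 h x

theorem act_comm {n : ℕ} {p q r s : Fin (n + 1)} (h1 : p ≠ r) (h2 : p ≠ s) (h3 : q ≠ r)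
    (h4 : q ≠ s) (x : Col n) : act p q (act r s x) = act r s (act p q x) := by
  funext k
  simp only [act]
  by_cases hp : k = p
  · subst hp
    simp [h1, h2, h3, h4]
  by_cases hq : k = q
  · subst hq
    simp [h1, h2, h3, h4, hp]
  by_cases hr : k = r
  · subst hr
    simp [h1.symm, h2.symm, h3.symm, h4.symm, hp, hq]
  by_cases hs : k = s
  · subst hs
    simp [h1.symm, h2.symm, h3.symm, h4.symm, hp, hq, hr]
  simp [hp, hq, hr, hs]

theorem act_braid {n : ℕ} {p q r : Fin (n + 1)} (h1 : p ≠ q) (h2 : q ≠ r) (h3 : p ≠ r)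
    (x : Col n) : act p q (act q r (act p q x)) = act q r (act p q (act q r x)) := by
  have e := three
  funext k
  simp only [act]
  by_cases hp : k = p
  · subst hp
    simp [h1, h2, h3, h1.symm, h2.symm, h3.symm]
  by_cases hq : k = q
  · subst hq
    simp [h1, h2, h3, h1.symm, h2.symm, h3.symm]
  by_cases hr : k = r
  · subst hr
    simp only [h1, h2, h3, h1.symm, h2.symm, h3.symm, if_true, if_false]
    linear_combination (-x k) * e
  simp [hp, hq, hr]

/-- The action of braids on colourings. -/
def colAct (n : ℕ) : Br n →* Equiv.Perm (Col n) :=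
  liftBr (fun i => actE i.castSucc i.succ (by simp [Fin.ext_iff]))
    (by
      intro i j hij
      ext x : 1
      exact act_comm (by simp [Fin.ext_iff]; omega) (by simp [Fin.ext_iff]; omega)
        (by simp [Fin.ext_iff]; omega) (by simp [Fin.ext_iff]; omega) x)
    (by
      intro i j hij
      have e : j.castSucc = i.succ := by
        simp only [Fin.ext_iff, Fin.val_castSucc, Fin.val_succ]; omega
      ext x : 1
      show act i.castSucc i.succ (act j.castSucc j.succ (act i.castSucc i.succ x)) =
        act j.castSucc j.succ (act i.castSucc i.succ (act j.castSucc j.succ x))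
      rw [e]
      exact act_braid (by simp [Fin.ext_iff]) (by simp [Fin.ext_iff]; omega)
        (by simp [Fin.ext_iff]; omega) x)

theorem colAct_sg {n : ℕ} (i : Fin n) (x : Col n) :
    colAct n (sg i) x = act i.castSucc i.succ x := by
  unfold colAct
  rw [liftBr_sg]
  rfl

/-- The number of 3-colourings of the closed braid. -/
noncomputable def N (n : ℕ) (b : Br n) : ℕ := Nat.card {x : Col n // colAct n b x = x}

theorem N_conj (n : ℕ) (a b : Br n) : N n b = N n (a * b * a⁻¹) := by
  refine Nat.card_congr ?_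
  refine (colAct n a).subtypeEquiv fun x => ?_
  rw [map_mul, map_mul, map_inv, Equiv.Perm.mul_apply, Equiv.Perm.mul_apply,
    show (colAct n a)⁻¹ (colAct n a x) = x from (colAct n a).symm_apply_apply x]
  exact (colAct n a).injective.eq_iff.symm

/-- Permutations of the colourings of `n + 1` strands act on those of `n + 2` strands. -/
def ext (n : ℕ) : Equiv.Perm (Col n) →* Equiv.Perm (Col (n + 1)) where
  toFun σ :=
    { toFun := fun x => Fin.snoc (α := fun _ => ZMod 3) (σ (Fin.init x)) (x (Fin.last (n + 1)))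
      invFun := fun x =>
        Fin.snoc (α := fun _ => ZMod 3) (σ⁻¹ (Fin.init x)) (x (Fin.last (n + 1)))
      left_inv := fun x => by simp
      right_inv := fun x => by simp }
  map_one' := by
    ext x : 1
    simp
  map_mul' σ τ := by
    ext x : 1
    simp

theorem ext_apply {n : ℕ} (σ : Equiv.Perm (Col n)) (x : Col (n + 1)) : ext n σ x =
    Fin.snoc (α := fun _ => ZMod 3) (σ (Fin.init x)) (x (Fin.last (n + 1))) := rfl

theorem colAct_incl (n : ℕ) : (colAct (n + 1)).comp incl = (ext n).comp (colAct n) := by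
  refine PresentedGroup.ext fun i => ?_
  show colAct (n + 1) (incl (sg i)) = ext n (colAct n (sg i))
  have e : (incl (sg i) : Br (n + 1)) = sg i.castSucc := by
    unfold incl
    rw [liftBr_sg]
  rw [e]
  ext x : 1
  rw [colAct_sg, ext_apply]
  funext k
  refine Fin.lastCases ?_ (fun k => ?_) k
  · rw [Fin.snoc_last]
    simp only [act]
    rw [if_neg (by simp [Fin.ext_iff]; omega), if_neg (by simp [Fin.ext_iff]; omega)]
  · rw [Fin.snoc_castSucc, colAct_sg]
    simp only [act, Fin.init]
    have h1 : (k.castSucc = i.castSucc.castSucc) ↔ k = i.castSucc := by simp [Fin.ext_iff]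
    have h2 : (k.castSucc = i.castSucc.succ) ↔ k = i.succ := by simp [Fin.ext_iff]
    have h3 : (i.castSucc.succ : Fin (n + 2)) = i.succ.castSucc := by simp [Fin.ext_iff]
    simp only [h1, h3, Fin.castSucc_inj]

theorem colAct_incl_apply {n : ℕ} (b : Br n) : colAct (n + 1) (incl b) = ext n (colAct n b) :=
  DFunLike.congr_fun (colAct_incl n) b

theorem N_stab {n : ℕ} (b : Br n) (T : Br (n + 1))
    (h1 : ∀ x : Col (n + 1), x (Fin.last n).castSucc = x (Fin.last (n + 1)) →
      colAct (n + 1) T x = x)
    (h2 : ∀ x : Col (n + 1), colAct (n + 1) T x (Fin.last (n + 1)) = x (Fin.last (n + 1)) →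
      x (Fin.last n).castSucc = x (Fin.last (n + 1))) :
    N n b = N (n + 1) (incl b * T) := by
  refine Nat.card_congr ?_
  refine ⟨fun y => ⟨Fin.snoc (α := fun _ => ZMod 3) y.1 (y.1 (Fin.last n)), ?_⟩,
    fun x => ⟨Fin.init x.1, ?_⟩, ?_, ?_⟩
  · rw [map_mul, Equiv.Perm.mul_apply, h1 _ (by simp), colAct_incl_apply, ext_apply]
    simp [y.2]
  · obtain ⟨x, hx⟩ := x
    show colAct n b (Fin.init x) = Fin.init x
    rw [map_mul, Equiv.Perm.mul_apply, colAct_incl_apply, ext_apply] at hx
    have e1 := congrFun hx (Fin.last (n + 1))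
    rw [Fin.snoc_last] at e1
    have e2 := h1 _ (h2 _ e1)
    rw [e2] at hx
    have e3 := congrArg (Fin.init (α := fun _ => ZMod 3)) hx
    rwa [Fin.init_snoc] at e3
  · intro y
    ext1
    simp
  · rintro ⟨x, hx⟩
    apply Subtype.ext
    show Fin.snoc (α := fun _ => ZMod 3) (Fin.init x) ((Fin.init x : Col n) (Fin.last n)) = x
    rw [map_mul, Equiv.Perm.mul_apply, colAct_incl_apply, ext_apply] at hx
    have e1 := congrFun hx (Fin.last (n + 1))
    rw [Fin.snoc_last] at e1
    have e2 := h2 _ e1
    have e3 : (Fin.init x : Col n) (Fin.last n) = x (Fin.last (n + 1)) := e2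
    rw [e3]
    exact Fin.snoc_init_self x

theorem act_last {n : ℕ} (x : Col (n + 1))
    (h : x (Fin.last n).castSucc = x (Fin.last (n + 1))) :
    act (Fin.last n).castSucc (Fin.last n).succ x = x := by
  have e := three
  funext k
  simp only [act, Fin.succ_last]
  split_ifs with h1 h2
  · rw [h1, h]
  · rw [h2, h]
    linear_combination (-x (Fin.last (n + 1))) * e
  · rfl

theorem N_stabPos {n : ℕ} (b : Br n) : N n b = N (n + 1) (incl b * sg (Fin.last n)) := by
  have e := three
  refine N_stab b _ (fun x hx => ?_) (fun x hx => ?_)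
  · rw [colAct_sg]
    exact act_last x hx
  · rw [colAct_sg] at hx
    simp only [act, Fin.succ_last] at hx
    rw [if_neg (by simp [Fin.ext_iff]), if_pos trivial] at hx
    linear_combination -hx - x (Fin.last (n + 1)) * e

theorem N_stabNeg {n : ℕ} (b : Br n) : N n b = N (n + 1) (incl b * (sg (Fin.last n))⁻¹) := by
  have e := three
  refine N_stab b _ (fun x hx => ?_) (fun x hx => ?_)
  · rw [map_inv, Equiv.Perm.inv_eq_iff_eq, colAct_sg]
    exact (act_last x hx).symm
  · rw [map_inv] at hx
    set y := (colAct (n + 1) (sg (Fin.last n)))⁻¹ x with hy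
    have hxy : x = act (Fin.last n).castSucc (Fin.last n).succ y := by
      rw [← colAct_sg, hy]
      exact ((colAct (n + 1) (sg (Fin.last n))).apply_symm_apply x).symm
    have e1 : x (Fin.last n).castSucc = y (Fin.last (n + 1)) := by
      rw [hxy]
      simp [act]
    rw [e1, hx]

/-- The number of Fox 3-colourings of a knot. -/
noncomputable def cols : Knot → ℕ :=
  Quot.lift (fun x => N x.1.1 x.1.2) (by
    rintro ⟨x, hx⟩ ⟨y, hy⟩ h
    have key : ∀ u v : (Σ n : ℕ, Br n), MarkovMove u v → N u.1 u.2 = N v.1 v.2 := by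
      intro u v huv
      cases huv with
      | conj n a b => exact N_conj n a b
      | stabPos n b => exact N_stabPos b
      | stabNeg n b => exact N_stabNeg b
    exact key x y h)

theorem cols_closure {n : ℕ} (b : Br n) (h : IsKnot b) : cols (closure b h) = N n b := rfl

/-! ### Two strands -/

/-- The generator of the braid group on two strands. -/
def s : Br 1 := sg 0

theorem s_three : colAct 1 s ^ 3 = 1 := by
  have : colAct 1 s = actE (0 : Fin 1).castSucc (0 : Fin 1).succ (by simp [Fin.ext_iff]) := by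
    unfold colAct s
    rw [liftBr_sg]
  rw [this]
  exact actE_three _ _ _

theorem isKnot_odd (j : ℤ) : IsKnot (s ^ (2 * j + 1)) := by
  have h1 : perm (s ^ (2 * j + 1)) = Equiv.swap (0 : Fin 2) 1 := by
    have h2 : perm s = Equiv.swap (0 : Fin 2) 1 := by
      unfold perm s
      rw [liftBr_sg]
      rfl
    rw [map_zpow, h2, zpow_add, zpow_mul, zpow_one]
    have h3 : Equiv.swap (0 : Fin 2) 1 ^ (2 : ℤ) = 1 := by
      rw [zpow_ofNat, pow_two, Equiv.swap_mul_self]
    rw [h3, one_zpow, one_mul]
  intro x y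
  by_cases hxy : x = y
  · rw [hxy]
  · refine ⟨1, ?_⟩
    rw [h1, zpow_one]
    fin_cases x <;> fin_cases y <;> simp_all

theorem isKnot_one : IsKnot (1 : Br 0) := by
  intro x y
  have : x = y := Subsingleton.elim (α := Fin 1) x y
  rw [this]

theorem cols_unknot : cols (closure (1 : Br 0) isKnot_one) = 3 := by
  rw [cols_closure, N, map_one]
  have : Nat.card {x : Col 0 // (1 : Equiv.Perm (Col 0)) x = x} = Nat.card (Col 0) :=
    Nat.card_congr (Equiv.subtypeUnivEquiv fun x => rfl)
  rw [this, Nat.card_eq_fintype_card]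
  simp

theorem N_three (j : ℤ) (h : (3 : ℤ) ∣ j) : N 1 (s ^ j) = 9 := by
  obtain ⟨k, rfl⟩ := h
  have h1 : colAct 1 (s ^ (3 * k)) = 1 := by
    rw [map_zpow, zpow_mul]
    have : colAct 1 s ^ (3 : ℤ) = 1 := by
      rw [zpow_ofNat, s_three]
    rw [this, one_zpow]
  rw [N, h1]
  have : Nat.card {x : Col 1 // (1 : Equiv.Perm (Col 1)) x = x} = Nat.card (Col 1) :=
    Nat.card_congr (Equiv.subtypeUnivEquiv fun x => rfl)
  rw [this, Nat.card_eq_fintype_card]
  simp

theorem N_one : N 1 s = 3 := by
  have h := N_stabPos (1 : Br 0)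
  have e : (incl (1 : Br 0) * sg (Fin.last 0) : Br 1) = s := by
    rw [map_one, one_mul]
    rfl
  rw [e] at h
  rw [← h]
  have := cols_unknot
  rwa [cols_closure] at this

theorem N_period (j : ℤ) : N 1 (s ^ (j + 6)) = N 1 (s ^ j) := by
  have h1 : colAct 1 (s ^ (j + 6)) = colAct 1 (s ^ j) := by
    rw [map_zpow, map_zpow, zpow_add]
    have : colAct 1 s ^ (6 : ℤ) = 1 := by
      rw [show (6 : ℤ) = 3 * 2 by norm_num, zpow_mul]
      have h3 : colAct 1 s ^ (3 : ℤ) = 1 := by
        rw [zpow_ofNat, s_three]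
      rw [h3, one_zpow]
    rw [this, mul_one]
  rw [N, N, h1]

/-- The trefoil. -/
def trefoil : Knot := closure (s ^ (2 * 1 + 1 : ℤ)) (isKnot_odd 1)

theorem cols_trefoil : cols trefoil = 9 := by
  rw [trefoil, cols_closure]
  exact N_three _ (by norm_num)

/-- The unknot and the trefoil are different. -/
theorem unknot_ne_trefoil : closure (1 : Br 0) isKnot_one ≠ trefoil := by
  intro h
  have h1 := congrArg cols h
  rw [cols_unknot, cols_trefoil] at h1
  omega

/-! ### The number of colourings is not of finite type -/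

/-- Differences. -/
def D (g : ℤ → ℤ) : ℤ → ℤ := fun j => g (j + 1) - g j

theorem iter_vanishes : ∀ (k : ℕ) (f : Br 1 → ℤ), Vanishes k f →
    ∀ j, D^[k] (fun j => f (s ^ (2 * j + 1))) j = 0 := by
  intro k
  induction k with
  | zero => intro f hf j; exact hf _
  | succ k ih =>
    intro f hf j
    have h1 := ih _ (hf s 0) j
    rw [Function.iterate_succ_apply]
    have e : D (fun j => f (s ^ (2 * j + 1))) =
        fun j => f (s * sg 0 * s ^ (2 * j + 1)) - f (s * (sg 0)⁻¹ * s ^ (2 * j + 1)) := by
      funext i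
      show f (s ^ (2 * (i + 1) + 1)) - f (s ^ (2 * i + 1)) = _
      have e1 : s * sg 0 * s ^ (2 * i + 1) = s ^ (2 * (i + 1) + 1) := by
        show s * s * s ^ (2 * i + 1) = _
        rw [mul_assoc, ← zpow_one_add, ← zpow_one_add]
        congr 1
        ring
      have e2 : s * (sg 0)⁻¹ * s ^ (2 * i + 1) = s ^ (2 * i + 1) := by
        show s * s⁻¹ * s ^ (2 * i + 1) = _
        rw [mul_inv_cancel, one_mul]
      rw [e1, e2]
    rw [e]
    exact h1

theorem periodic : ∀ (k : ℕ) (g : ℤ → ℤ), (∀ j, g (j + 3) = g j) → (∀ j, D^[k + 1] g j = 0) →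
    ∀ j, D g j = 0 := by
  intro k
  induction k with
  | zero => intro g _ h j; exact h j
  | succ k ih =>
    intro g hg h j
    have h1 : ∀ j, D g (j + 3) = D g j := by
      intro j
      show g (j + 3 + 1) - g (j + 3) = g (j + 1) - g j
      rw [show j + 3 + 1 = (j + 1) + 3 by ring, hg, hg]
    have h2 := ih (D g) h1 (fun j => by
      have := h j
      rwa [Function.iterate_succ_apply] at this)
    have h3 : ∀ j, D g (j + 1) = D g j := fun j => by
      have : D g (j + 1) - D g j = 0 := h2 j
      omega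
    have a1 := h3 j
    have a2 := h3 (j + 1)
    have a3 : D g j + D g (j + 1) + D g (j + 1 + 1) = g (j + 3) - g j := by
      simp only [D]
      rw [show j + 1 + 1 + 1 = j + 3 by ring]
      ring
    rw [hg] at a3
    omega

/-- The number of Fox 3-colourings is not of finite type. -/
theorem not_finiteType : ¬ IsFiniteType fun K : Knot => (cols K : ℤ) := by
  rintro ⟨k, hk⟩
  have h1 := iter_vanishes (k + 1) _ (hk 1)
  have e : (fun j : ℤ => onBraids (fun K : Knot => (cols K : ℤ)) 1 (s ^ (2 * j + 1))) =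
      fun j => (N 1 (s ^ (2 * j + 1)) : ℤ) := by
    funext j
    rw [onBraids, dif_pos (isKnot_odd j), cols_closure]
  rw [e] at h1
  have h2 := periodic k _ (fun j => by
    show (N 1 (s ^ (2 * (j + 3) + 1)) : ℤ) = N 1 (s ^ (2 * j + 1))
    rw [show 2 * (j + 3) + 1 = (2 * j + 1) + 6 by ring, N_period]) h1 0
  have h3 : (N 1 (s ^ (2 * (0 + 1) + 1 : ℤ)) : ℤ) - N 1 (s ^ (2 * 0 + 1 : ℤ)) = 0 := h2
  rw [N_three _ (by norm_num)] at h3
  have h4 : N 1 (s ^ (2 * 0 + 1 : ℤ)) = 3 := by
    rw [show (2 * 0 + 1 : ℤ) = 1 by norm_num, zpow_one, N_one]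
  rw [h4] at h3
  norm_num at h3

end Pool.Agent.VAC2.BraidColour
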