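import Mathlib

/-!
# A model of the axioms `CHS.ChowTheory`, `CHS.Cohomology`: the category

Objects: products of projective lines (indexed by `J`) times a finite nonempty `G`-set `S`.
A morphism is an equivariant map of the `G`-sets and, for each coordinate of the target, a
coordinate of the source and a power of the Frobenius.
-/

set_option autoImplicit false

open CategoryTheory MonoidalCategory CartesianMonoidalCategory Limits

namespace Pool.Agent.VAC2

/-- the objects -/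
structure Ob (G : Type) [Group G] : Type 1 where
  S : Type
  [fS : Fintype S]
  [nS : Nonempty S]
  [aS : MulAction G S]
  J : Type
  [fJ : Fintype J]

attribute [instance] Ob.fS Ob.nS Ob.aS Ob.fJ

variable {G : Type} [Group G]

/-- the morphisms -/
@[ext]
structure Mor (X Y : Ob G) where
  σ : X.S → Y.S
  eq : ∀ (g : G) (s : X.S), σ (g • s) = g • σ s
  φ : Y.J → X.J
  k : Y.J → ℕ

instance : Category.{0} (Ob G) where
  Hom X Y := Mor X Y
  id X := ⟨id, fun _ _ => rfl, id, fun _ => 0⟩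
  comp f g := ⟨g.σ ∘ f.σ, fun a s => by simp [f.eq, g.eq], f.φ ∘ g.φ, fun j => g.k j + f.k (g.φ j)⟩
  id_comp f := by
    apply Mor.ext <;> simp
  comp_id f := by
    apply Mor.ext <;> simp
  assoc f g h := by
    apply Mor.ext <;> simp [Function.comp_assoc, add_assoc]

@[ext]
theorem hom_ext {X Y : Ob G} {f g : X ⟶ Y} (h1 : f.σ = g.σ) (h2 : f.φ = g.φ) (h3 : f.k = g.k) :
    f = g := Mor.ext h1 h2 h3

@[simp] theorem id_σ (X : Ob G) : (𝟙 X : X ⟶ X).σ = id := rfl
@[simp] theorem id_φ (X : Ob G) : (𝟙 X : X ⟶ X).φ = id := rfl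
@[simp] theorem id_k (X : Ob G) : (𝟙 X : X ⟶ X).k = fun _ => 0 := rfl
@[simp] theorem comp_σ {X Y Z : Ob G} (f : X ⟶ Y) (g : Y ⟶ Z) : (f ≫ g).σ = g.σ ∘ f.σ := rfl
@[simp] theorem comp_φ {X Y Z : Ob G} (f : X ⟶ Y) (g : Y ⟶ Z) : (f ≫ g).φ = f.φ ∘ g.φ := rfl
@[simp] theorem comp_k {X Y Z : Ob G} (f : X ⟶ Y) (g : Y ⟶ Z) :
    (f ≫ g).k = fun j => g.k j + f.k (g.φ j) := rfl

/-- the point -/
abbrev pt (G : Type) [Group G] : Ob G where
  S := Unit
  aS := { smul := fun _ _ => (), one_smul := fun _ => rfl, mul_smul := fun _ _ _ => rfl }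
  J := Empty

/-- the product -/
abbrev prod (X Y : Ob G) : Ob G := ⟨X.S × Y.S, X.J ⊕ Y.J⟩

def fstM (X Y : Ob G) : prod X Y ⟶ X := ⟨Prod.fst, fun _ _ => rfl, Sum.inl, fun _ => 0⟩

def sndM (X Y : Ob G) : prod X Y ⟶ Y := ⟨Prod.snd, fun _ _ => rfl, Sum.inr, fun _ => 0⟩

def liftM {X Y Z : Ob G} (f : Z ⟶ X) (g : Z ⟶ Y) : Z ⟶ prod X Y :=
  ⟨fun s => (f.σ s, g.σ s), fun a s => by rw [f.eq, g.eq]; rfl, Sum.elim f.φ g.φ,
    Sum.elim f.k g.k⟩

theorem liftM_fst {X Y Z : Ob G} (f : Z ⟶ X) (g : Z ⟶ Y) : liftM f g ≫ fstM X Y = f := by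
  apply hom_ext
  · rfl
  · rfl
  · funext j
    simp [liftM, fstM]

theorem liftM_snd {X Y Z : Ob G} (f : Z ⟶ X) (g : Z ⟶ Y) : liftM f g ≫ sndM X Y = g := by
  apply hom_ext
  · rfl
  · rfl
  · funext j
    simp [liftM, sndM]

theorem liftM_uniq {X Y Z : Ob G} (f g : Z ⟶ prod X Y) (h1 : f ≫ fstM X Y = g ≫ fstM X Y)
    (h2 : f ≫ sndM X Y = g ≫ sndM X Y) : f = g := by
  apply hom_ext
  · funext s
    exact Prod.ext (congrFun (congrArg Mor.σ h1) s) (congrFun (congrArg Mor.σ h2) s)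
  · funext j
    rcases j with j | j
    · exact congrFun (congrArg Mor.φ h1) j
    · exact congrFun (congrArg Mor.φ h2) j
  · funext j
    rcases j with j | j
    · have := congrFun (congrArg Mor.k h1) j
      simpa [fstM] using this
    · have := congrFun (congrArg Mor.k h2) j
      simpa [sndM] using this

/-- the cartesian structure -/
noncomputable instance : CartesianMonoidalCategory (Ob G) :=
  CartesianMonoidalCategory.ofChosenFiniteProducts
    ⟨asEmptyCone (pt G), IsTerminal.ofUniqueHom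
      (fun X => (⟨fun _ => (), fun _ _ => rfl, Empty.elim, Empty.elim⟩ : Mor X (pt G)))
      (fun X m => by
        apply hom_ext
        · funext s
          rfl
        · funext j
          exact Empty.elim j
        · funext j
          exact Empty.elim j)⟩
    (fun X Y => ⟨BinaryFan.mk (fstM X Y) (sndM X Y), BinaryFan.isLimitMk
      (fun s => liftM s.fst s.snd) (fun s => liftM_fst _ _) (fun s => liftM_snd _ _)
      (fun s m h1 h2 => liftM_uniq _ _ (h1.trans (liftM_fst _ _).symm)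
        (h2.trans (liftM_snd _ _).symm))⟩)

theorem tensor_def (X Y : Ob G) : X ⊗ Y = prod X Y := rfl
theorem unit_def : 𝟙_ (Ob G) = pt G := rfl
theorem fst_def (X Y : Ob G) : fst X Y = fstM X Y := rfl
theorem snd_def (X Y : Ob G) : snd X Y = sndM X Y := rfl
theorem lift_def {X Y Z : Ob G} (f : Z ⟶ X) (g : Z ⟶ Y) : lift f g = liftM f g := rfl

end Pool.Agent.VAC2
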