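import Pool.Agent.VAC2.Cell9

/-!
# The model with Frobenius acting on the finite sets

`γ` is a central element of `G`; the Frobenius acts as `γ` on the finite sets.  For `G = ℤ`, `γ = 1`
the finite sets are the finite etale schemes over the finite field.
-/

set_option autoImplicit false

open CategoryTheory MonoidalCategory CartesianMonoidalCategory Limits TensorProduct

namespace Pool.Agent.VAC2

noncomputable section

variable {G : Type} [Group G]

/-- Frobenius with `γ` -/
def FrC (γ : Subgroup.center G) (X : Ob G) : X ⟶ X :=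
  ⟨fun s => γ.1 • s, fun g s => by
    rw [smul_smul, smul_smul, Subgroup.mem_center_iff.1 γ.2 g], id, fun _ => 1⟩

theorem FrC_nat (γ : Subgroup.center G) {X Y : Ob G} (f : X ⟶ Y) :
    f ≫ FrC γ Y = FrC γ X ≫ f := by
  apply hom_ext
  · funext s
    exact (f.eq γ.1 s).symm
  · rfl
  · funext j
    change 1 + f.k j = f.k j + 1
    omega

theorem FrC_apply (γ : Subgroup.center G) {X : Ob G} (a : R X) :
    pl (FrC γ X) a = tr γ.1 (pl (Fr X) a) := rfl

theorem FrC_Inv (γ : Subgroup.center G) {X : Ob G} {a : R X} (ha : a ∈ Inv X) :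
    pl (FrC γ X) a = pl (Fr X) a := by
  rw [FrC_apply, (mem_Inv'.1 (pl_Inv (Fr X) ha)) γ.1]

theorem ps_frC_one (γ : Subgroup.center G) (X : Ob G) :
    ps (FrC γ X) 1 = (2 : ℚ) ^ (Fintype.card X.J : ℤ) • (1 : R X) := by
  apply dual_ext
  intro b
  rw [adj, one_mul, FrC_apply, dgr_tr, dgr_fr, smul_mul_assoc, one_mul, map_smul, smul_eq_mul,
    zpow_natCast]

/-- the model of `CHS.ChowTheory` with `γ` -/
def theoryC (γ : Subgroup.center G) : CHS.ChowTheory.{0, 1, 0} (Ob G) :=
  { theory G with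
    Fr := FrC γ
    natural := fun f => FrC_nat γ f
    pull_Fr := fun _ _ a ha => Subtype.ext ((FrC_Inv γ a.2).trans (mem_grI.1 ha))
    push_Fr := fun X => Subtype.ext (ps_frC_one γ X) }

theorem tr_bb {X : Ob G} (g : G) (i : Ix X) : tr g (bb i) = bb (g⁻¹ • i.1, i.2) := by
  classical
  funext s
  change bb i (g • s) = _
  rw [bb_apply, bb_apply]
  by_cases h : g • s = i.1
  · rw [if_pos h, if_pos]
    rw [← h, inv_smul_smul]
  · rw [if_neg h, if_neg]
    intro h2
    apply h
    rw [h2, smul_inv_smul]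

theorem ac_frC (γ : Subgroup.center G) {X : Ob G} (x : HX X) (k : Ix X) :
    ac (ps (liftM (FrC γ X) (𝟙 X)) 1) x k = (2 : ℂ) ^ k.2.card * x (γ.1 • k.1, k.2) := by
  classical
  have key : ∀ i : Ix X, mt (ps (liftM (FrC γ X) (𝟙 X)) 1) k i =
      if i = (γ.1 • k.1, k.2) then (2 : ℚ) ^ k.2.card else 0 := by
    intro i
    rw [mt_graph, FrC_apply, Fr_bb]
    have e : tr γ.1 ((2 : ℚ) ^ i.2.card • bb i) = (2 : ℚ) ^ i.2.card • tr γ.1 (bb i) := rfl
    rw [e, tr_bb, smul_mul_assoc, map_smul, dgr_bb_mul]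
    have : (du k = du ((γ.1⁻¹ • i.1, i.2) : Ix X)) ↔ (i = (γ.1 • k.1, k.2)) := by
      constructor
      · intro h
        have h2 : k = ((γ.1⁻¹ • i.1, i.2) : Ix X) := by rw [← du_du k, h, du_du]
        rw [h2]
        apply Prod.ext
        · exact (smul_inv_smul _ _).symm
        · rfl
      · rintro rfl
        rw [inv_smul_smul]
    by_cases h : i = (γ.1 • k.1, k.2)
    · rw [if_pos h, if_pos (this.2 h), h]
      simp
    · rw [if_neg h, if_neg (fun h' => h (this.1 h')), smul_zero]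
  rw [ac_apply, Finset.sum_eq_single (γ.1 • k.1, k.2)]
  · rw [key, if_pos rfl]
    push_cast
    rfl
  · intro i _ hi
    rw [key, if_neg hi]
    simp
  · intro h
    exact absurd (Finset.mem_univ _) h

theorem ac_frC_pow (γ : Subgroup.center G) {X : Ob G} (x : HX X) (z : ℂ)
    (h : ac (ps (liftM (FrC γ X) (𝟙 X)) 1) x = z • x) (k : Ix X) (n : ℕ) :
    z ^ n * x k = (2 : ℂ) ^ (n * k.2.card) * x (γ.1 ^ n • k.1, k.2) := by
  induction n with
  | zero => simp
  | succ n ih =>
    have h1 := congrFun h (γ.1 ^ n • k.1, k.2)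
    rw [ac_frC, smul_smul, ← pow_succ'] at h1
    change (2 : ℂ) ^ k.2.card * x (γ.1 ^ (n + 1) • k.1, k.2) = z * x (γ.1 ^ n • k.1, k.2) at h1
    calc z ^ (n + 1) * x k = z * (z ^ n * x k) := by ring
      _ = (2 : ℂ) ^ (n * k.2.card) * (z * x (γ.1 ^ n • k.1, k.2)) := by rw [ih]; ring
      _ = _ := by rw [← h1]; ring

theorem norm_frC (γ : Subgroup.center G) {X : Ob G} (x : HX X) (z : ℂ)
    (h : ac (ps (liftM (FrC γ X) (𝟙 X)) 1) x = z • x) (k : Ix X) (hk : x k ≠ 0) :
    ‖z‖ = (2 : ℝ) ^ k.2.card := by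
  classical
  set π : Equiv.Perm X.S := MulAction.toPerm γ.1 with hπ
  have hn : 0 < orderOf π := orderOf_pos π
  have h1 := ac_frC_pow γ x z h k (orderOf π)
  have h2 : γ.1 ^ (orderOf π) • k.1 = k.1 := by
    have h3 : π ^ orderOf π = 1 := pow_orderOf_eq_one π
    have h4 : (MulAction.toPermHom G X.S (γ.1 ^ orderOf π)) = 1 := by
      rw [map_pow]
      exact h3
    exact congrFun (congrArg (fun e : Equiv.Perm X.S => (e : X.S → X.S)) h4) k.1
  rw [h2] at h1
  have h5 : z ^ orderOf π = (2 : ℂ) ^ (orderOf π * k.2.card) := mul_right_cancel₀ hk h1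
  have h6 := congrArg norm h5
  rw [norm_pow, norm_pow, Complex.norm_ofNat, mul_comm, pow_mul] at h6
  exact (pow_left_inj₀ (norm_nonneg z) (by positivity) hn.ne').1 h6

/-- the model of `CHS.Cohomology` with `γ` -/
def cohC (γ : Subgroup.center G) : CHS.Cohomology.{0, 1, 0, 0} (theoryC γ) where
  H := (coh G).H
  fin := (coh G).fin
  gr := (coh G).gr
  internal := (coh G).internal
  sgn := (coh G).sgn
  sgn_apply := (coh G).sgn_apply
  act f := ac f.1
  act_add := (coh G).act_add
  act_id := (coh G).act_id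
  act_cp := (coh G).act_cp
  act_mem := (coh G).act_mem
  kunneth := (coh G).kunneth
  kunneth_act := (coh G).kunneth_act
  trace_formula := (coh G).trace_formula
  weight X i x z hx hx0 h := by
    obtain ⟨k, hk⟩ := Function.ne_iff.1 hx0
    have h2 := norm_frC γ x z h k hk
    have h3 := mem_grH.1 hx k hk
    change ‖z‖ ^ 2 = ((2 : ℕ) : ℝ) ^ i
    rw [h2, ← h3, ← pow_mul, mul_comm]
    norm_cast

end

end Pool.Agent.VAC2
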