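import Mathlib

/-!
# The ring `ℚ[h_j] / (h_j ^ 2)`, its degree and its basis
-/

set_option autoImplicit false

open MvPolynomial

namespace Pool.Agent.VAC2

/-- the ideal generated by the squares -/
noncomputable def sqI (J : Type) : Ideal (MvPolynomial J ℚ) :=
  Ideal.span (Set.range fun j => X j ^ 2)

/-- the Chow ring of the product of projective lines indexed by `J` -/
abbrev Lam (J : Type) : Type := MvPolynomial J ℚ ⧸ sqI J

/-- the class of a point of the line `j` -/
noncomputable def hh {J : Type} (j : J) : Lam J := Ideal.Quotient.mk _ (X j)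

theorem hh_sq {J : Type} (j : J) : hh j * hh j = 0 := by
  unfold hh
  rw [← map_mul, Ideal.Quotient.eq_zero_iff_mem, ← pow_two]
  exact Ideal.subset_span ⟨j, rfl⟩

/-- the squarefree monomials -/
noncomputable def mon {J : Type} (A : Finset J) : Lam J := ∏ j ∈ A, hh j

/-- the pullback -/
noncomputable def lmap {J J' : Type} (φ : J' → J) (k : J' → ℕ) : Lam J' →ₐ[ℚ] Lam J :=
  Ideal.Quotient.liftₐ _ (aeval fun j => ((2 : ℚ) ^ k j) • hh (φ j)) (by
    intro a ha
    have : sqI J' ≤ RingHom.ker (aeval fun j => ((2 : ℚ) ^ k j) • hh (φ j) :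
        MvPolynomial J' ℚ →ₐ[ℚ] Lam J) := by
      refine Ideal.span_le.2 ?_
      rintro _ ⟨j, rfl⟩
      simp only [SetLike.mem_coe, RingHom.mem_ker]
      rw [map_pow, aeval_X, pow_two, smul_mul_smul_comm, hh_sq, smul_zero]
    exact this ha)

theorem lmap_hh {J J' : Type} (φ : J' → J) (k : J' → ℕ) (j : J') :
    lmap φ k (hh j) = ((2 : ℚ) ^ k j) • hh (φ j) := by
  have h : lmap φ k (hh j) = aeval (fun j => ((2 : ℚ) ^ k j) • hh (φ j)) (X j) := rfl
  rw [h, aeval_X]

theorem lam_hom_ext {J : Type} {B : Type} [CommRing B] [Algebra ℚ B] {f g : Lam J →ₐ[ℚ] B}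
    (h : ∀ j, f (hh j) = g (hh j)) : f = g := by
  apply Ideal.Quotient.algHom_ext
  apply MvPolynomial.algHom_ext
  exact h

theorem lmap_id (J : Type) : lmap (id : J → J) (fun _ => 0) = AlgHom.id ℚ (Lam J) :=
  lam_hom_ext fun j => by rw [lmap_hh]; simp

theorem lmap_comp {J J' J'' : Type} (φ : J' → J) (k : J' → ℕ) (ψ : J'' → J') (l : J'' → ℕ)
    (a : Lam J'') : lmap φ k (lmap ψ l a) = lmap (φ ∘ ψ) (fun j => l j + k (ψ j)) a := by
  have : (lmap φ k).comp (lmap ψ l) = lmap (φ ∘ ψ) (fun j => l j + k (ψ j)) := by
    apply lam_hom_ext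
    intro j
    rw [AlgHom.comp_apply, lmap_hh, map_smul, lmap_hh, lmap_hh, smul_smul, pow_add]
    rfl
  exact DFunLike.congr_fun this a

section Deg

variable {J : Type} [Fintype J]

/-- the top exponent -/
noncomputable def top1 (J : Type) [Fintype J] : J →₀ ℕ := Finsupp.equivFunOnFinite.symm fun _ => 1

theorem top1_apply (j : J) : top1 J j = 1 := rfl

theorem coeff_sqI {p : MvPolynomial J ℚ} (hp : p ∈ sqI J) : coeff (top1 J) p = 0 := by
  classical
  have key : ∀ r : MvPolynomial J ℚ, coeff (top1 J) (r * p) = 0 := by
    have hp' : p ∈ Submodule.span (MvPolynomial J ℚ) (Set.range fun j : J => (X j ^ 2 :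
      MvPolynomial J ℚ)) := hp
    clear hp
    induction hp' using Submodule.span_induction with
    | mem x hx =>
      obtain ⟨j, rfl⟩ := hx
      intro r
      simp only
      rw [mul_comm, X_pow_eq_monomial, coeff_monomial_mul', if_neg]
      intro h
      have := h j
      simp [top1_apply] at this
    | zero => intro r; simp
    | add x y _ _ hx hy => intro r; rw [mul_add, coeff_add, hx, hy, add_zero]
    | smul a x _ hx =>
      intro r
      rw [smul_eq_mul, ← mul_assoc]
      exact hx _
  simpa using key 1

/-- the degree -/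
noncomputable def dg : Lam J →ₗ[ℚ] ℚ :=
  AddMonoidHom.toRatLinearMap (QuotientAddGroup.lift (sqI J).toAddSubgroup
    (MvPolynomial.lcoeff ℚ (top1 J)).toAddMonoidHom (fun p hp => coeff_sqI hp))

theorem dg_mk (p : MvPolynomial J ℚ) : dg (Ideal.Quotient.mk (sqI J) p) = coeff (top1 J) p := rfl

/-- the exponent of a squarefree monomial -/
noncomputable def ind (A : Finset J) : J →₀ ℕ := ∑ j ∈ A, Finsupp.single j 1

theorem ind_apply [DecidableEq J] (A : Finset J) (j : J) : ind A j = if j ∈ A then 1 else 0 := by
  unfold ind
  rw [Finsupp.finsetSum_apply]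
  simp [Finsupp.single_apply]

theorem mon_eq (A : Finset J) : mon A = Ideal.Quotient.mk (sqI J) (monomial (ind A) 1) := by
  classical
  unfold mon hh ind
  rw [← map_prod]
  congr 1
  rw [MvPolynomial.monomial_sum_one]
  rfl

theorem dg_mon [DecidableEq J] (A : Finset J) : dg (mon A) = if A = Finset.univ then 1 else 0 := by
  rw [mon_eq, dg_mk, coeff_monomial]
  by_cases h : A = Finset.univ
  · rw [if_pos h, if_pos]
    subst h
    ext j
    rw [ind_apply, top1_apply, if_pos (Finset.mem_univ j)]
  · rw [if_neg h, if_neg]
    intro h'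
    apply h
    ext j
    have := DFunLike.congr_fun h' j
    rw [ind_apply, top1_apply] at this
    simp only [Finset.mem_univ, iff_true]
    by_contra hj
    rw [if_neg hj] at this
    omega

theorem mon_mul [DecidableEq J] {A B : Finset J} (h : Disjoint A B) :
    mon A * mon B = mon (A ∪ B) := by
  unfold mon
  rw [Finset.prod_union h]

theorem mon_mul_zero {A B : Finset J} (h : ¬ Disjoint A B) : mon A * mon B = 0 := by
  classical
  obtain ⟨j, hA, hB⟩ := Finset.not_disjoint_iff.1 h
  unfold mon
  rw [← Finset.mul_prod_erase A _ hA, ← Finset.mul_prod_erase B _ hB]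
  calc (hh j * ∏ x ∈ A.erase j, hh x) * (hh j * ∏ x ∈ B.erase j, hh x)
      = (hh j * hh j) * ((∏ x ∈ A.erase j, hh x) * ∏ x ∈ B.erase j, hh x) := by ring
    _ = 0 := by rw [hh_sq, zero_mul]

theorem dg_mon_mul [DecidableEq J] (A B : Finset J) :
    dg (mon A * mon B) = if B = Aᶜ then 1 else 0 := by
  by_cases h : Disjoint A B
  · rw [mon_mul h, dg_mon]
    congr 1
    apply propext
    constructor
    · intro h'
      apply Finset.Subset.antisymm
      · intro x hx
        rw [Finset.mem_compl]
        exact fun hxA => Finset.disjoint_left.1 h hxA hx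
      · intro x hx
        rw [Finset.mem_compl] at hx
        have : x ∈ A ∪ B := by rw [h']; exact Finset.mem_univ x
        rcases Finset.mem_union.1 this with h1 | h1
        · exact absurd h1 hx
        · exact h1
    · rintro rfl
      exact Finset.union_compl A
  · rw [mon_mul_zero h, map_zero, if_neg]
    rintro rfl
    exact h disjoint_compl_right

/-- induction over the elements of the ring -/
theorem lam_ind {P : Lam J → Prop} (h0 : P 0) (hadd : ∀ a b, P a → P b → P (a + b))
    (hs : ∀ (c : ℚ) (A : Finset J), P (c • mon A)) (a : Lam J) : P a := by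
  classical
  obtain ⟨p, rfl⟩ := Ideal.Quotient.mk_surjective a
  induction p using MvPolynomial.induction_on' with
  | add p q hp hq => rw [map_add]; exact hadd _ _ hp hq
  | monomial m c =>
    by_cases h : ∃ j, 2 ≤ m j
    · obtain ⟨j, hj⟩ := h
      have : Ideal.Quotient.mk (sqI J) (monomial m c) = 0 := by
        rw [Ideal.Quotient.eq_zero_iff_mem]
        have h2 : monomial m c = monomial (m - Finsupp.single j 2) c * (X j ^ 2 :
            MvPolynomial J ℚ) := by
          have hm : m - Finsupp.single j 2 + Finsupp.single j 2 = m := by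
            ext i
            rw [Finsupp.add_apply, Finsupp.tsub_apply, Finsupp.single_apply]
            split_ifs with hi
            · subst hi; omega
            · omega
          rw [X_pow_eq_monomial, monomial_mul, mul_one, hm]
        rw [h2]
        exact Ideal.mul_mem_left _ _ (Ideal.subset_span ⟨j, rfl⟩)
      rw [this]
      exact h0
    · push Not at h
      have : Ideal.Quotient.mk (sqI J) (monomial m c) = c • mon m.support := by
        rw [mon_eq]
        have h2 : monomial m c = c • monomial m (1 : ℚ) := by
          rw [smul_monomial, smul_eq_mul, mul_one]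
        rw [h2]
        have h3 : ind m.support = m := by
          ext j
          rw [ind_apply]
          have := h j
          split_ifs with hj
          · rw [Finsupp.mem_support_iff] at hj
            omega
          · rw [Finsupp.mem_support_iff, not_not] at hj
            omega
        rw [h3]
        rfl
      rw [this]
      exact hs _ _

/-- the expansion in the basis of the monomials -/
theorem lam_exp [DecidableEq J] (a : Lam J) :
    a = ∑ A : Finset J, dg (a * mon Aᶜ) • mon A := by
  induction a using lam_ind with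
  | h0 => simp
  | hadd a b ha hb =>
    conv_lhs => rw [ha, hb]
    rw [← Finset.sum_add_distrib]
    apply Finset.sum_congr rfl
    intro A _
    rw [add_mul, map_add, add_smul]
  | hs c A =>
    rw [Finset.sum_eq_single A]
    · rw [smul_mul_assoc, map_smul, dg_mon_mul, if_pos rfl, smul_eq_mul, mul_one]
    · intro B _ hB
      rw [smul_mul_assoc, map_smul, dg_mon_mul, if_neg, smul_zero, zero_smul]
      intro h
      exact hB (compl_injective h)
    · intro h
      exact absurd (Finset.mem_univ A) h

end Deg

end Pool.Agent.VAC2
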