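import Pool.Agent.VAC2.Cell1
import Pool.Agent.VAC2.Cell2

/-!
# Rings, pullbacks, degrees and pushforwards
-/

set_option autoImplicit false

open CategoryTheory MonoidalCategory CartesianMonoidalCategory Limits

namespace Pool.Agent.VAC2

noncomputable section

open scoped Classical in
theorem lmap_mon {J J' : Type} (φ : J' → J) (hφ : Function.Injective φ) (A : Finset J') :
    lmap φ (fun _ => 0) (mon A) = mon (A.map ⟨φ, hφ⟩) := by
  unfold mon
  rw [map_prod, Finset.prod_map]
  apply Finset.prod_congr rfl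
  intro j _
  rw [lmap_hh, pow_zero, one_smul]
  rfl

theorem lmap_fr {J : Type} (A : Finset J) :
    lmap (id : J → J) (fun _ => 1) (mon A) = (2 : ℚ) ^ A.card • mon A := by
  unfold mon
  rw [map_prod]
  have : ∀ j ∈ A, lmap (id : J → J) (fun _ => 1) (hh j) = (2 : ℚ) • hh j := fun j _ => by
    rw [lmap_hh, pow_one]; rfl
  rw [Finset.prod_congr rfl this, Finset.prod_smul, Finset.prod_const]

theorem dg_fr {J : Type} [Fintype J] (a : Lam J) :
    dg (lmap (id : J → J) (fun _ => 1) a) = (2 : ℚ) ^ Fintype.card J * dg a := by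
  classical
  induction a using lam_ind with
  | h0 => simp
  | hadd a b ha hb => rw [map_add, map_add, map_add, ha, hb, mul_add]
  | hs c A =>
    rw [map_smul, lmap_fr, map_smul, map_smul, map_smul, dg_mon]
    by_cases h : A = Finset.univ
    · rw [if_pos h, h, Finset.card_univ]
      simp only [smul_eq_mul]
      ring
    · rw [if_neg h]
      simp

theorem dg_bij {J J' : Type} [Fintype J] [Fintype J'] (φ : J' → J) (hφ : Function.Bijective φ)
    (a : Lam J') : dg (lmap φ (fun _ => 0) a) = dg a := by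
  classical
  induction a using lam_ind with
  | h0 => simp
  | hadd a b ha hb => rw [map_add, map_add, map_add, ha, hb]
  | hs c A =>
    rw [map_smul, lmap_mon φ hφ.1, map_smul, map_smul, dg_mon, dg_mon]
    congr 2
    apply propext
    constructor
    · intro h
      ext j
      simp only [Finset.mem_univ, iff_true]
      have : φ j ∈ A.map ⟨φ, hφ.1⟩ := by rw [h]; exact Finset.mem_univ _
      obtain ⟨j', hj', he⟩ := Finset.mem_map.1 this
      rwa [← hφ.1 he]
    · rintro rfl
      ext j
      simp only [Finset.mem_univ, iff_true]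
      obtain ⟨j', rfl⟩ := hφ.2 j
      exact Finset.mem_map.2 ⟨j', Finset.mem_univ _, rfl⟩

variable {G : Type} [Group G]

/-- all functions -/
abbrev R (X : Ob G) : Type := X.S → Lam X.J

/-- the pullback -/
def pl {X Y : Ob G} (f : X ⟶ Y) : R Y →ₐ[ℚ] R X :=
  AlgHom.pi fun s => (lmap f.φ f.k).comp (Pi.evalAlgHom ℚ (fun _ : Y.S => Lam Y.J) (f.σ s))

theorem pl_apply {X Y : Ob G} (f : X ⟶ Y) (b : R Y) (s : X.S) :
    pl f b s = lmap f.φ f.k (b (f.σ s)) := rfl

theorem pl_id (X : Ob G) (a : R X) : pl (𝟙 X) a = a := by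
  funext s
  rw [pl_apply]
  change lmap id (fun _ => 0) (a s) = a s
  rw [lmap_id]
  rfl

theorem pl_comp {X Y Z : Ob G} (f : X ⟶ Y) (g : Y ⟶ Z) (a : R Z) :
    pl (f ≫ g) a = pl f (pl g a) := by
  funext s
  rw [pl_apply, pl_apply, pl_apply, lmap_comp]
  rfl

/-- the degree -/
def dgr (X : Ob G) : R X →ₗ[ℚ] ℚ := ∑ s : X.S, dg ∘ₗ LinearMap.proj s

theorem dgr_apply (X : Ob G) (a : R X) : dgr X a = ∑ s, dg (a s) := by
  unfold dgr
  rw [LinearMap.sum_apply]
  rfl

/-- the indices of the basis -/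
abbrev Ix (X : Ob G) : Type := X.S × Finset X.J

/-- the dual index -/
def du {X : Ob G} (i : Ix X) : Ix X := by
  classical
  exact (i.1, i.2ᶜ)

theorem du_du {X : Ob G} (i : Ix X) : du (du i) = i := by
  classical
  unfold du
  simp

/-- the basis -/
def bb {X : Ob G} (i : Ix X) : R X := by
  classical
  exact fun s => if s = i.1 then mon i.2 else 0

theorem bb_apply {X : Ob G} [DecidableEq X.S] (i : Ix X) (s : X.S) :
    bb i s = if s = i.1 then mon i.2 else 0 := by
  unfold bb
  by_cases h : s = i.1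
  · simp only [if_pos h]
  · simp only [if_neg h]

theorem mul_bb_apply {X : Ob G} [DecidableEq X.S] (a : R X) (i : Ix X) (s : X.S) :
    (a * bb i) s = if s = i.1 then a s * mon i.2 else 0 := by
  rw [Pi.mul_apply, bb_apply]
  split_ifs <;> simp

theorem dgr_mul_bb {X : Ob G} (a : R X) (i : Ix X) : dgr X (a * bb i) = dg (a i.1 * mon i.2) := by
  classical
  rw [dgr_apply, Finset.sum_eq_single i.1]
  · rw [mul_bb_apply, if_pos rfl]
  · intro s _ hs
    rw [mul_bb_apply, if_neg hs, map_zero]
  · intro h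
    exact absurd (Finset.mem_univ _) h

open scoped Classical in
theorem dgr_bb_mul {X : Ob G} (i j : Ix X) :
    dgr X (bb i * bb j) = if j = du i then 1 else 0 := by
  rw [dgr_mul_bb, bb_apply]
  obtain ⟨s, A⟩ := i
  obtain ⟨t, B⟩ := j
  simp only
  by_cases h : t = s
  · subst h
    rw [if_pos rfl, dg_mon_mul]
    have : (B = Aᶜ) ↔ ((t, B) : Ix X) = du (t, A) := by
      unfold du
      simp only [Prod.mk.injEq, true_and]
    by_cases h2 : B = Aᶜ
    · rw [if_pos h2, if_pos (this.1 h2)]
    · rw [if_neg h2, if_neg (fun h3 => h2 (this.2 h3))]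
  · rw [if_neg h, zero_mul, map_zero, if_neg]
    intro h'
    exact h (congrArg Prod.fst h')

/-- the expansion in the basis -/
theorem exp {X : Ob G} (a : R X) : a = ∑ i : Ix X, dgr X (a * bb (du i)) • bb i := by
  classical
  funext s
  rw [Finset.sum_apply, Fintype.sum_prod_type, Finset.sum_eq_single s]
  · conv_lhs => rw [lam_exp (a s)]
    apply Finset.sum_congr rfl
    intro A _
    rw [Pi.smul_apply, bb_apply, if_pos rfl, dgr_mul_bb]
    rfl
  · intro t _ ht
    apply Finset.sum_eq_zero
    intro A _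
    rw [Pi.smul_apply, bb_apply, if_neg (Ne.symm ht), smul_zero]
  · intro h
    exact absurd (Finset.mem_univ _) h

/-- a linear map is determined by the basis -/
theorem lin_ext {X : Ob G} {M : Type} [AddCommGroup M] [Module ℚ M] {f g : R X →ₗ[ℚ] M}
    (h : ∀ i, f (bb i) = g (bb i)) : f = g := by
  apply LinearMap.ext
  intro a
  rw [exp a, map_sum, map_sum]
  apply Finset.sum_congr rfl
  intro i _
  rw [map_smul, map_smul, h]

theorem dual_ext {X : Ob G} {a a' : R X} (h : ∀ b, dgr X (a * b) = dgr X (a' * b)) : a = a' := by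
  rw [exp a, exp a']
  apply Finset.sum_congr rfl
  intro i _
  rw [h]

/-- the pushforward -/
def ps {X Y : Ob G} (f : X ⟶ Y) : R X →ₗ[ℚ] R Y :=
  ∑ i : Ix Y, (dgr X ∘ₗ LinearMap.mulRight ℚ (pl f (bb (du i)))).smulRight (bb i)

theorem ps_apply {X Y : Ob G} (f : X ⟶ Y) (a : R X) :
    ps f a = ∑ i : Ix Y, dgr X (a * pl f (bb (du i))) • bb i := by
  unfold ps
  rw [LinearMap.sum_apply]
  rfl

theorem adj {X Y : Ob G} (f : X ⟶ Y) (a : R X) (b : R Y) :
    dgr Y (ps f a * b) = dgr X (a * pl f b) := by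
  classical
  have h1 : (dgr Y ∘ₗ LinearMap.mulLeft ℚ (ps f a)) =
      dgr X ∘ₗ LinearMap.mulLeft ℚ a ∘ₗ (pl f).toLinearMap := by
    apply lin_ext
    intro j
    simp only [LinearMap.comp_apply, LinearMap.mulLeft_apply, AlgHom.toLinearMap_apply]
    rw [ps_apply, Finset.sum_mul, map_sum, Finset.sum_eq_single (du j)]
    · rw [smul_mul_assoc, map_smul, dgr_bb_mul, du_du, if_pos rfl, smul_eq_mul, mul_one]
    · intro i _ hi
      rw [smul_mul_assoc, map_smul, dgr_bb_mul, if_neg, smul_zero]
      rintro rfl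
      exact hi (du_du i).symm
    · intro h
      exact absurd (Finset.mem_univ _) h
  exact LinearMap.congr_fun h1 b

end

end Pool.Agent.VAC2
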