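import Pool.Agent.VAC2.Cell3

/-!
# The formal properties of the pushforward, Frobenius, isomorphisms, products, invariants
-/

set_option autoImplicit false

open CategoryTheory MonoidalCategory CartesianMonoidalCategory Limits

namespace Pool.Agent.VAC2

noncomputable section

variable {G : Type} [Group G]

theorem ps_id (X : Ob G) (a : R X) : ps (𝟙 X) a = a := by
  apply dual_ext
  intro b
  rw [adj, pl_id]

theorem ps_comp {X Y Z : Ob G} (f : X ⟶ Y) (g : Y ⟶ Z) (a : R X) :
    ps (f ≫ g) a = ps g (ps f a) := by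
  apply dual_ext
  intro b
  rw [adj, adj, adj, pl_comp]

theorem proj {X Y : Ob G} (f : X ⟶ Y) (a : R X) (b : R Y) :
    ps f (pl f b * a) = b * ps f a := by
  apply dual_ext
  intro c
  have h : b * ps f a * c = ps f a * (b * c) := by ring
  rw [adj, h, adj, map_mul (pl f)]
  congr 1
  ring

/-- Frobenius -/
def Fr (X : Ob G) : X ⟶ X := ⟨id, fun _ _ => rfl, id, fun _ => 1⟩

theorem Fr_nat {X Y : Ob G} (f : X ⟶ Y) : f ≫ Fr Y = Fr X ≫ f := by
  apply hom_ext
  · rfl
  · rfl
  · funext j
    change 1 + f.k j = f.k j + 1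
    omega

theorem Fr_apply {X : Ob G} (a : R X) (s : X.S) :
    pl (Fr X) a s = lmap id (fun _ => 1) (a s) := rfl

theorem dgr_fr {X : Ob G} (a : R X) :
    dgr X (pl (Fr X) a) = (2 : ℚ) ^ Fintype.card X.J * dgr X a := by
  rw [dgr_apply, dgr_apply, Finset.mul_sum]
  apply Finset.sum_congr rfl
  intro s _
  rw [Fr_apply, dg_fr]

theorem Fr_bb {X : Ob G} (i : Ix X) : pl (Fr X) (bb i) = (2 : ℚ) ^ i.2.card • bb i := by
  classical
  funext s
  rw [Fr_apply, Pi.smul_apply, bb_apply]
  split_ifs
  · rw [lmap_fr]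
  · simp

theorem Fr_surj {X : Ob G} (a : R X) : ∃ b, pl (Fr X) b = a := by
  refine ⟨∑ i : Ix X, dgr X (a * bb (du i)) • (((2 : ℚ) ^ i.2.card)⁻¹ • bb i), ?_⟩
  rw [map_sum]
  conv_rhs => rw [exp a]
  apply Finset.sum_congr rfl
  intro i _
  rw [map_smul, map_smul, Fr_bb, inv_smul_smul₀ (by positivity)]

/-- isomorphisms preserve the degree -/
theorem dgr_iso {X Y : Ob G} (w : X ≅ Y) (u : R Y) : dgr X (pl w.hom u) = dgr Y u := by
  have h1 : w.inv.σ ∘ w.hom.σ = id := congrArg Mor.σ w.hom_inv_id
  have h2 : w.hom.σ ∘ w.inv.σ = id := congrArg Mor.σ w.inv_hom_id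
  have h3 : w.hom.φ ∘ w.inv.φ = id := congrArg Mor.φ w.hom_inv_id
  have h4 : w.inv.φ ∘ w.hom.φ = id := congrArg Mor.φ w.inv_hom_id
  have h5 : (fun j => w.inv.k j + w.hom.k (w.inv.φ j)) = fun _ => 0 :=
    congrArg Mor.k w.hom_inv_id
  have h6 : w.hom.k = fun _ => 0 := by
    funext j
    have h7 := congrFun h5 (w.hom.φ j)
    have h8 : w.inv.φ (w.hom.φ j) = j := congrFun h4 j
    simp only [h8] at h7
    omega
  have hσ : Function.Bijective w.hom.σ :=
    ⟨Function.LeftInverse.injective (congrFun h1), Function.RightInverse.surjective (congrFun h2)⟩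
  have hφ : Function.Bijective w.hom.φ :=
    ⟨Function.LeftInverse.injective (congrFun h4), Function.RightInverse.surjective (congrFun h3)⟩
  rw [dgr_apply, dgr_apply, ← hσ.sum_comp]
  apply Finset.sum_congr rfl
  intro s _
  rw [pl_apply, h6, dg_bij _ hφ]

/-- the degree on a product -/
theorem dgr_prod {X Y : Ob G} (a : R X) (b : R Y) :
    dgr (prod X Y) (pl (fstM X Y) a * pl (sndM X Y) b) = dgr X a * dgr Y b := by
  classical
  rw [dgr_apply, dgr_apply, dgr_apply, Finset.sum_mul_sum]
  change ∑ p : X.S × Y.S, _ = _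
  rw [Fintype.sum_prod_type]
  apply Finset.sum_congr rfl
  intro s _
  apply Finset.sum_congr rfl
  intro t _
  rw [Pi.mul_apply, pl_apply, pl_apply]
  change dg (lmap Sum.inl (fun _ => 0) (a s) * lmap Sum.inr (fun _ => 0) (b t)) = _
  generalize a s = u
  generalize b t = v
  induction u using lam_ind with
  | h0 => simp
  | hadd u u' h h' => rw [map_add, add_mul, map_add, h, h', map_add, add_mul]
  | hs c A =>
    induction v using lam_ind with
    | h0 => simp
    | hadd u u' h h' => rw [map_add, mul_add, map_add, h, h', map_add, mul_add]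
    | hs d B =>
      rw [map_smul, map_smul, smul_mul_smul_comm, map_smul, map_smul, map_smul,
        lmap_mon _ Sum.inl_injective, lmap_mon _ Sum.inr_injective]
      have hd : Disjoint (A.map ⟨Sum.inl, Sum.inl_injective⟩ : Finset (X.J ⊕ Y.J))
          (B.map ⟨Sum.inr, Sum.inr_injective⟩) := by
        rw [Finset.disjoint_left]
        intro x hx hy
        obtain ⟨y, _, rfl⟩ := Finset.mem_map.1 hx
        obtain ⟨z, _, hz⟩ := Finset.mem_map.1 hy
        exact Sum.inr_ne_inl hz
      rw [mon_mul hd, dg_mon, dg_mon, dg_mon]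
      have : (A.map ⟨Sum.inl, Sum.inl_injective⟩ ∪ B.map ⟨Sum.inr, Sum.inr_injective⟩ =
          (Finset.univ : Finset (X.J ⊕ Y.J))) ↔ (A = Finset.univ ∧ B = Finset.univ) := by
        constructor
        · intro h
          constructor
          · ext x
            have h2 : (Sum.inl x : X.J ⊕ Y.J) ∈ (A.map ⟨Sum.inl, Sum.inl_injective⟩ ∪
              B.map ⟨Sum.inr, Sum.inr_injective⟩) := by rw [h]; exact Finset.mem_univ _
            simpa using h2
          · ext x
            have h2 : (Sum.inr x : X.J ⊕ Y.J) ∈ (A.map ⟨Sum.inl, Sum.inl_injective⟩ ∪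
              B.map ⟨Sum.inr, Sum.inr_injective⟩) := by rw [h]; exact Finset.mem_univ _
            simpa using h2
        · rintro ⟨rfl, rfl⟩
          ext x
          rcases x with x | x <;> simp
      by_cases hA : A = Finset.univ <;> by_cases hB : B = Finset.univ
      · rw [if_pos (this.2 ⟨hA, hB⟩), if_pos hA, if_pos hB]
        simp
      · rw [if_neg (fun h => hB (this.1 h).2), if_neg hB]
        simp
      · rw [if_neg (fun h => hA (this.1 h).1), if_neg hA]
        simp
      · rw [if_neg (fun h => hA (this.1 h).1), if_neg hA]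
        simp

/-- the elements of the ring of a product are sums of products -/
theorem prod_ind {X Y : Ob G} {P : R (prod X Y) → Prop} (h0 : P 0)
    (hadd : ∀ a b, P a → P b → P (a + b))
    (hs : ∀ (c : ℚ) (a : R X) (b : R Y), P (c • (pl (fstM X Y) a * pl (sndM X Y) b)))
    (a : R (prod X Y)) : P a := by
  classical
  rw [exp a]
  apply Finset.sum_induction _ P hadd h0
  rintro ⟨⟨s, t⟩, C⟩ _
  have h : (bb ((s, t), C) : R (prod X Y)) =
      pl (fstM X Y) (bb (s, C.preimage Sum.inl (Sum.inl_injective.injOn))) *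
      pl (sndM X Y) (bb (t, C.preimage Sum.inr (Sum.inr_injective.injOn))) := by
    funext p
    obtain ⟨s', t'⟩ := p
    rw [Pi.mul_apply, pl_apply, pl_apply, bb_apply, bb_apply, bb_apply]
    change _ = lmap Sum.inl (fun _ => 0) (if s' = s then mon _ else 0) *
      lmap Sum.inr (fun _ => 0) (if t' = t then mon _ else 0)
    by_cases h1 : s' = s
    · by_cases h2 : t' = t
      · rw [if_pos h1, if_pos h2, if_pos (by rw [h1, h2]), lmap_mon _ Sum.inl_injective,
          lmap_mon _ Sum.inr_injective, mon_mul]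
        · congr 1
          ext x
          rcases x with x | x <;> simp
        · rw [Finset.disjoint_left]
          intro x hx hy
          obtain ⟨y, _, rfl⟩ := Finset.mem_map.1 hx
          obtain ⟨z, _, hz⟩ := Finset.mem_map.1 hy
          exact Sum.inr_ne_inl hz
      · rw [if_neg h2, if_neg (fun h => h2 (congrArg Prod.snd h)), map_zero, mul_zero]
    · rw [if_neg h1, if_neg (fun h => h1 (congrArg Prod.fst h)), map_zero, zero_mul]
  rw [h]
  exact hs _ _ _

end

end Pool.Agent.VAC2
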