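import Pool.Agent.VAC2.Cell4
import Pool.Agent.CHS.Defs

/-!
# The model of `CHS.ChowTheory`
-/

set_option autoImplicit false

open CategoryTheory MonoidalCategory CartesianMonoidalCategory Limits

namespace Pool.Agent.VAC2

noncomputable section

variable {G : Type} [Group G]

/-! ### invariants -/

/-- translation -/
def tr {X : Ob G} (g : G) (a : R X) : R X := fun s => a (g • s)

theorem dgr_tr {X : Ob G} (g : G) (a : R X) : dgr X (tr g a) = dgr X a := by
  rw [dgr_apply, dgr_apply]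
  exact (MulAction.bijective g).sum_comp (fun s => dg (a s))

theorem pl_tr {X Y : Ob G} (f : X ⟶ Y) (g : G) (b : R Y) : pl f (tr g b) = tr g (pl f b) := by
  funext s
  change lmap f.φ f.k (b (g • f.σ s)) = lmap f.φ f.k (b (f.σ (g • s)))
  rw [f.eq]

theorem tr_mul {X : Ob G} (g : G) (a b : R X) : tr g (a * b) = tr g a * tr g b := rfl

theorem tr_inv {X : Ob G} (g : G) (a : R X) : tr g (tr g⁻¹ a) = a := by
  funext s
  change a (g⁻¹ • (g • s)) = a s
  rw [inv_smul_smul]

theorem ps_tr {X Y : Ob G} (f : X ⟶ Y) (g : G) (a : R X) : ps f (tr g a) = tr g (ps f a) := by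
  apply dual_ext
  intro b
  rw [adj, ← tr_inv g b, pl_tr, ← tr_mul, dgr_tr, ← tr_mul, dgr_tr, adj]

/-- the invariant elements -/
def Inv (X : Ob G) : Subalgebra ℚ (R X) where
  carrier := {a | ∀ (g : G) (s : X.S), a (g • s) = a s}
  mul_mem' {a b} ha hb g s := by rw [Pi.mul_apply, Pi.mul_apply, ha, hb]
  add_mem' {a b} ha hb g s := by rw [Pi.add_apply, Pi.add_apply, ha, hb]
  algebraMap_mem' r g s := rfl

theorem mem_Inv {X : Ob G} {a : R X} : a ∈ Inv X ↔ ∀ (g : G) (s : X.S), a (g • s) = a s := Iff.rfl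

theorem mem_Inv' {X : Ob G} {a : R X} : a ∈ Inv X ↔ ∀ g : G, tr g a = a := by
  rw [mem_Inv]
  exact forall_congr' fun g => ⟨fun h => funext h, fun h s => congrFun h s⟩

theorem pl_Inv {X Y : Ob G} (f : X ⟶ Y) {b : R Y} (hb : b ∈ Inv Y) : pl f b ∈ Inv X := by
  rw [mem_Inv'] at hb ⊢
  intro g
  rw [← pl_tr, hb]

theorem ps_Inv {X Y : Ob G} (f : X ⟶ Y) {a : R X} (ha : a ∈ Inv X) : ps f a ∈ Inv Y := by
  rw [mem_Inv'] at ha ⊢
  intro g
  rw [← ps_tr, ha]

/-! ### grading -/

/-- Frobenius on the invariants -/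
def frI (X : Ob G) : Module.End ℚ (Inv X) where
  toFun a := ⟨pl (Fr X) a.1, pl_Inv _ a.2⟩
  map_add' _ _ := Subtype.ext (map_add _ _ _)
  map_smul' _ _ := Subtype.ext (map_smul _ _ _)

/-- the cycles of codimension `i` -/
def grI (X : Ob G) (i : ℤ) : Submodule ℚ (Inv X) :=
  Module.End.eigenspace (R := ℚ) (M := Inv X) (frI X) ((2 : ℚ) ^ i)

theorem mem_grI {X : Ob G} {i : ℤ} {a : Inv X} :
    a ∈ grI X i ↔ pl (Fr X) a.1 = (2 : ℚ) ^ i • a.1 := by
  unfold grI
  rw [Module.End.mem_eigenspace_iff]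
  exact Subtype.ext_iff

/-- the component of degree `m` -/
def pm {J : Type} [Fintype J] (m : ℕ) (b : Lam J) : Lam J := by
  classical
  exact ∑ A ∈ Finset.univ.filter (fun A : Finset J => A.card = m), dg (b * mon Aᶜ) • mon A

theorem pm_fr {J : Type} [Fintype J] (m : ℕ) (b : Lam J) :
    lmap id (fun _ => 1) (pm m b) = (2 : ℚ) ^ m • pm m b := by
  classical
  unfold pm
  rw [map_sum, Finset.smul_sum]
  apply Finset.sum_congr rfl
  intro A hA
  rw [map_smul, lmap_fr, (Finset.mem_filter.1 hA).2, smul_comm]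

theorem pm_sum {J : Type} [Fintype J] (b : Lam J) :
    ∑ m ∈ Finset.range (Fintype.card J + 1), pm m b = b := by
  classical
  unfold pm
  rw [Finset.sum_fiberwise_of_maps_to (g := fun A : Finset J => A.card)]
  · exact (lam_exp b).symm
  · intro A _
    rw [Finset.mem_range]
    exact Nat.lt_succ_of_le (Finset.card_le_univ A)

theorem grI_internal (X : Ob G) : DirectSum.IsInternal (grI X) := by
  refine (DirectSum.isInternal_submodule_iff_iSupIndep_and_iSup_eq_top (R := ℚ) (M := Inv X)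
    (grI X)).2 ⟨?_, ?_⟩
  · have h := Module.End.eigenspaces_iSupIndep (R := ℚ) (M := Inv X) (frI X)
    refine h.comp (f := fun i : ℤ => (2 : ℚ) ^ i) ?_
    exact zpow_right_injective₀ (by norm_num) (by norm_num)
  · rw [eq_top_iff]
    intro a _
    let c : ℕ → Inv X := fun m => ⟨fun s => pm m (a.1 s), fun g s => congrArg (pm m) (a.2 g s)⟩
    have h1 : a = ∑ m ∈ Finset.range (Fintype.card X.J + 1), c m := by
      apply Subtype.ext
      funext s
      rw [AddSubmonoidClass.coe_finsetSum, Finset.sum_apply]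
      exact (pm_sum (a.1 s)).symm
    rw [h1]
    apply Submodule.sum_mem
    intro m _
    refine Submodule.mem_iSup_of_mem (m : ℤ) ?_
    rw [mem_grI]
    funext s
    rw [Fr_apply, zpow_natCast]
    exact pm_fr m _

instance (X : Ob G) : SetLike.GradedMonoid (grI X) where
  one_mem := by
    rw [mem_grI]
    simp
  mul_mem i j a b ha hb := by
    rw [mem_grI] at ha hb ⊢
    change pl (Fr X) (a.1 * b.1) = _ • (a.1 * b.1)
    rw [map_mul, ha, hb, smul_mul_smul_comm, zpow_add₀ (by norm_num)]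

end

end Pool.Agent.VAC2
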