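import Pool.Agent.VAC2.Cell5

/-!
# The model of `CHS.ChowTheory`: base change, unions, the structure
-/

set_option autoImplicit false

open CategoryTheory MonoidalCategory CartesianMonoidalCategory Limits

namespace Pool.Agent.VAC2

noncomputable section

variable {G : Type} [Group G]

/-! ### base change -/

theorem bc {P X Y Z : Ob G} (g' : P ⟶ X) (f' : P ⟶ Z) (f : X ⟶ Y) (g : Z ⟶ Y)
    (hP : IsPullback g' f' f g) (hg : CHS.IsProjection g) (a : R X) :
    pl g (ps f a) = ps f' (pl g' a) := by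
  obtain ⟨B, e, rfl⟩ := hg
  have hw : fst X B ≫ f = ((f ▷ B) ≫ e.inv) ≫ e.hom ≫ fst Y B := by simp
  let w : X ⊗ B ⟶ P := hP.lift (fst X B) ((f ▷ B) ≫ e.inv) hw
  have w1 : w ≫ g' = fst X B := hP.lift_fst _ _ _
  have w2 : w ≫ f' = (f ▷ B) ≫ e.inv := hP.lift_snd _ _ _
  let v : P ⟶ X ⊗ B := lift g' (f' ≫ e.hom ≫ snd Y B)
  have v1 : v ≫ (f ▷ B) = f' ≫ e.hom := by
    apply CartesianMonoidalCategory.hom_ext
    · simp only [v, Category.assoc, whiskerRight_fst, lift_fst_assoc]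
      exact hP.w
    · simp [v]
  let W : X ⊗ B ≅ P := ⟨w, v, by
      apply CartesianMonoidalCategory.hom_ext
      · simp [v, w1]
      · simp only [v, Category.assoc, lift_snd, Category.id_comp]
        rw [← Category.assoc, w2]
        simp, by
      apply hP.hom_ext
      · rw [Category.assoc, w1]
        simp [v]
      · rw [Category.assoc, w2, ← Category.assoc, v1]
        simp⟩
  apply dual_ext
  intro c
  rw [adj]
  have hc : c = pl e.hom (pl e.inv c) := by
    rw [← pl_comp, e.hom_inv_id, pl_id]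
  rw [hc]
  generalize pl e.inv c = c'
  have hL : dgr Z (pl (e.hom ≫ fst Y B) (ps f a) * pl e.hom c') =
      dgr (Y ⊗ B) (pl (fst Y B) (ps f a) * c') := by
    rw [pl_comp, ← map_mul, dgr_iso e]
  have hR : dgr P (pl g' a * pl f' (pl e.hom c')) =
      dgr (X ⊗ B) (pl (fst X B) a * pl (f ▷ B) c') := by
    rw [← dgr_iso W, map_mul, ← pl_comp, ← pl_comp, ← pl_comp]
    change dgr (X ⊗ B) (pl (w ≫ g') a * pl ((w ≫ f') ≫ e.hom) c') = _
    rw [w1, w2, Category.assoc, e.inv_hom_id, Category.comp_id]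
  rw [hL, hR]
  refine prod_ind (X := Y) (Y := B) (P := fun c' : R (Y ⊗ B) =>
    dgr (Y ⊗ B) (pl (fst Y B) (ps f a) * c') =
      dgr (X ⊗ B) (pl (fst X B) a * pl (f ▷ B) c')) ?_ ?_ ?_ c'
  · simp
  · intro c₁ c₂ h₁ h₂
    rw [mul_add, map_add, h₁, h₂, map_add, mul_add, map_add]
  · intro r y b
    have e1 : pl (f ▷ B) (r • (pl (fstM Y B) y * pl (sndM Y B) b)) =
        r • (pl (fst X B) (pl f y) * pl (snd X B) b) := by
      rw [map_smul, map_mul, ← pl_comp, ← pl_comp]
      change r • (pl ((f ▷ B) ≫ fst Y B) y * pl ((f ▷ B) ≫ snd Y B) b) = _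
      rw [whiskerRight_fst, whiskerRight_snd, pl_comp]
    rw [e1, mul_smul_comm, mul_smul_comm, map_smul, map_smul]
    congr 1
    rw [← mul_assoc, ← mul_assoc, ← map_mul]
    change dgr (prod Y B) (pl (fstM Y B) (ps f a) * pl (fstM Y B) y * pl (sndM Y B) b) =
      dgr (prod X B) (pl (fstM X B) (a * pl f y) * pl (sndM X B) b)
    rw [← map_mul, dgr_prod, dgr_prod, adj]

/-! ### unions -/

/-- the union -/
abbrev un (X Y : Ob G) : Ob G := ⟨X.S ⊕ Y.S, X.J⟩

/-- the inclusion of the first part -/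
def ui (X Y : Ob G) : X ⟶ un X Y := ⟨Sum.inl, fun _ _ => rfl, id, fun _ => 0⟩

/-- the inclusion of the second part -/
def uj (X Y : Ob G) (ε : X.J ≃ Y.J) : Y ⟶ un X Y := ⟨Sum.inr, fun _ _ => rfl, ε, fun _ => 0⟩

theorem whisk (W : Ob G) {X Y : Ob G} (f : X ⟶ Y) :
    W ◁ f = liftM (fstM W X) (sndM W X ≫ f) := by
  apply CartesianMonoidalCategory.hom_ext
  · rw [whiskerLeft_fst]
    exact (liftM_fst _ _).symm
  · rw [whiskerLeft_snd]
    exact (liftM_snd _ _).symm

theorem whisk_ui (W X Y : Ob G) : W ◁ ui X Y =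
    (⟨fun p => (p.1, Sum.inl p.2), fun _ _ => rfl, id, fun _ => 0⟩ :
      Mor (prod W X) (prod W (un X Y))) := by
  rw [whisk]
  apply Mor.ext
  · rfl
  · funext j
    rcases j with j | j <;> rfl
  · funext j
    rcases j with j | j <;> rfl

theorem whisk_uj (W X Y : Ob G) (ε : X.J ≃ Y.J) : W ◁ uj X Y ε =
    (⟨fun p => (p.1, Sum.inr p.2), fun _ _ => rfl, Sum.map id ε, fun _ => 0⟩ :
      Mor (prod W Y) (prod W (un X Y))) := by
  rw [whisk]
  apply Mor.ext
  · rfl
  · funext j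
    rcases j with j | j <;> rfl
  · funext j
    rcases j with j | j <;> rfl

theorem pl_ui (W X Y : Ob G) (a : R (prod W (un X Y))) (w : W.S) (s : X.S) :
    pl (W ◁ ui X Y) a (w, s) = a (w, Sum.inl s) := by
  rw [whisk_ui]
  change lmap id (fun _ => 0) (a (w, Sum.inl s)) = _
  rw [lmap_id]
  rfl

theorem pl_uj (W X Y : Ob G) (ε : X.J ≃ Y.J) (a : R (prod W (un X Y))) (w : W.S) (s : Y.S) :
    pl (W ◁ uj X Y ε) a (w, s) = lmap (Sum.map id ε) (fun _ => 0) (a (w, Sum.inr s)) := by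
  rw [whisk_uj]
  rfl

theorem lmap_inv {J J' : Type} (φ : J' → J) (ψ : J → J') (h : ψ ∘ φ = id) (a : Lam J') :
    lmap ψ (fun _ => 0) (lmap φ (fun _ => 0) a) = a := by
  rw [lmap_comp]
  have h2 : lmap (ψ ∘ φ) (fun _ => 0 + 0) a = a := by
    rw [h]
    exact DFunLike.congr_fun (lmap_id J') a
  exact h2

theorem un_inj (W X Y : Ob G) (ε : X.J ≃ Y.J) (a : R (prod W (un X Y)))
    (h1 : pl (W ◁ ui X Y) a = 0) (h2 : pl (W ◁ uj X Y ε) a = 0) : a = 0 := by
  funext p
  obtain ⟨w, s | s⟩ := p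
  · exact (pl_ui W X Y a w s).symm.trans (congrFun h1 (w, s))
  · have h3 := congrFun h2 (w, s)
    rw [pl_uj] at h3
    have h4 := congrArg (lmap (Sum.map id ε.symm) (fun _ => 0)) h3
    rw [lmap_inv] at h4
    · rw [h4]
      exact map_zero _
    · funext x
      rcases x with x | x <;> simp

/-- gluing -/
def glue (W X Y : Ob G) (ε : X.J ≃ Y.J) (b : R (prod W X)) (c : R (prod W Y)) :
    R (prod W (un X Y)) := fun p =>
  Sum.elim (fun s => b (p.1, s))
    (fun s => lmap (Sum.map (id : W.J → W.J) ε.symm) (fun _ => 0) (c (p.1, s))) p.2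

theorem glue_i (W X Y : Ob G) (ε : X.J ≃ Y.J) (b : R (prod W X)) (c : R (prod W Y)) :
    pl (W ◁ ui X Y) (glue W X Y ε b c) = b := by
  funext p
  obtain ⟨w, s⟩ := p
  rw [pl_ui]
  rfl

theorem glue_j (W X Y : Ob G) (ε : X.J ≃ Y.J) (b : R (prod W X)) (c : R (prod W Y)) :
    pl (W ◁ uj X Y ε) (glue W X Y ε b c) = c := by
  funext p
  obtain ⟨w, s⟩ := p
  rw [pl_uj]
  apply lmap_inv
  funext x
  rcases x with x | x <;> simp

theorem glue_Inv (W X Y : Ob G) (ε : X.J ≃ Y.J) {b : R (prod W X)} {c : R (prod W Y)}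
    (hb : b ∈ Inv (prod W X)) (hc : c ∈ Inv (prod W Y)) :
    glue W X Y ε b c ∈ Inv (prod W (un X Y)) := by
  intro g p
  obtain ⟨w, s | s⟩ := p
  · exact hb g (w, s)
  · exact congrArg (lmap (Sum.map (id : W.J → W.J) ε.symm) (fun _ => 0)) (hc g (w, s))

theorem glue_fr (W X Y : Ob G) (ε : X.J ≃ Y.J) {b : R (prod W X)} {c : R (prod W Y)} {r : ℚ}
    (hb : pl (Fr _) b = r • b) (hc : pl (Fr _) c = r • c) :
    pl (Fr _) (glue W X Y ε b c) = r • glue W X Y ε b c := by
  funext p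
  obtain ⟨w, s | s⟩ := p
  · exact congrFun hb (w, s)
  · have h := congrArg (lmap (Sum.map (id : W.J → W.J) ε.symm) (fun _ => 0)) (congrFun hc (w, s))
    rw [Fr_apply, lmap_comp] at h
    rw [Fr_apply]
    change lmap id (fun _ => 1) (lmap (Sum.map (id : W.J → W.J) ε.symm) (fun _ => 0)
      (c (w, s))) = r • lmap (Sum.map (id : W.J → W.J) ε.symm) (fun _ => 0) (c (w, s))
    rw [lmap_comp]
    rw [Pi.smul_apply, map_smul] at h
    exact h

/-! ### degrees -/

theorem ps_fr {X Y : Ob G} (f : X ⟶ Y) (i : ℤ) {a : R X} (ha : pl (Fr X) a = (2 : ℚ) ^ i • a) :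
    pl (Fr Y) (ps f a) = (2 : ℚ) ^ (i + (Fintype.card Y.J : ℤ) - Fintype.card X.J) • ps f a := by
  apply dual_ext
  intro b
  obtain ⟨b, rfl⟩ := Fr_surj b
  rw [← map_mul, dgr_fr, adj, smul_mul_assoc, map_smul, adj, ← pl_comp, Fr_nat, pl_comp,
    smul_eq_mul]
  have h1 : (2 : ℚ) ^ i * dgr X (a * pl (Fr X) (pl f b)) =
      (2 : ℚ) ^ Fintype.card X.J * dgr X (a * pl f b) := by
    rw [← dgr_fr, map_mul (pl (Fr X)), ha, smul_mul_assoc, map_smul, smul_eq_mul]
  have h2 : (2 : ℚ) ≠ 0 := by norm_num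
  rw [zpow_sub₀ h2, zpow_add₀ h2, zpow_natCast, zpow_natCast]
  field_simp
  linear_combination -h1

theorem lam_empty (a : Lam Empty) : a = algebraMap ℚ (Lam Empty) (dg a) := by
  classical
  have h1 : dg (1 : Lam Empty) = 1 := by
    have := dg_mon (∅ : Finset Empty)
    rw [if_pos (Subsingleton.elim _ _)] at this
    exact this
  induction a using lam_ind with
  | h0 => simp
  | hadd a b ha hb => rw [map_add, map_add, ← ha, ← hb]
  | hs c A =>
    have h2 : (mon A : Lam Empty) = 1 := by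
      have : A = ∅ := Subsingleton.elim _ _
      rw [this]
      rfl
    rw [h2, map_smul, h1, smul_eq_mul, mul_one, Algebra.algebraMap_eq_smul_one]

theorem dgr_pt (a : R (pt G)) : dgr (pt G) a = dg (a ()) := by
  rw [dgr_apply]
  exact Fintype.sum_unique _

theorem pt_eq (a : R (pt G)) : a = algebraMap ℚ (R (pt G)) (dgr (pt G) a) := by
  funext s
  rw [dgr_pt]
  exact lam_empty (a s)

theorem dg_one_empty : dg (1 : Lam Empty) = 1 := by
  classical
  have := dg_mon (∅ : Finset Empty)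
  rw [if_pos (Subsingleton.elim _ _)] at this
  exact this

theorem dgr_pt_one : dgr (pt G) 1 = 1 := by
  rw [dgr_pt]
  exact dg_one_empty

theorem ps_unit {X : Ob G} (f : X ⟶ pt G) (a : R X) :
    ps f a = algebraMap ℚ (R (pt G)) (dgr X a) := by
  rw [pt_eq (ps f a)]
  congr 1
  have h := adj f a 1
  rw [mul_one, map_one, mul_one] at h
  exact h

theorem ps_fr_one (X : Ob G) : ps (Fr X) 1 = (2 : ℚ) ^ (Fintype.card X.J : ℤ) • (1 : R X) := by
  apply dual_ext
  intro b
  rw [adj, one_mul, dgr_fr, smul_mul_assoc, one_mul, map_smul, smul_eq_mul, zpow_natCast]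

/-- the line -/
abbrev ln (G : Type) [Group G] : Ob G where
  S := Unit
  aS := { smul := fun _ _ => (), one_smul := fun _ => rfl, mul_smul := fun _ _ _ => rfl }
  J := Unit

theorem dgr_ln : dgr (ln G) (fun _ => hh ()) = 1 := by
  classical
  rw [dgr_apply]
  have h1 : dg (mon (Finset.univ : Finset Unit)) = 1 := by rw [dg_mon, if_pos rfl]
  have h2 : (mon (Finset.univ : Finset Unit)) = hh () := by
    unfold mon
    exact Fintype.prod_unique _
  rw [h2] at h1
  exact (Fintype.sum_unique _).trans h1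

/-! ### the structure -/

/-- the grading -/
@[instance_reducible]
def grAlg (X : Ob G) : GradedAlgebra (grI X) :=
  { (inferInstance : SetLike.GradedMonoid (grI X)), (grI_internal X).chooseDecomposition with }

/-- the model of `CHS.ChowTheory` -/
def theory (G : Type) [Group G] : CHS.ChowTheory.{0, 1, 0} (Ob G) where
  dim X := Fintype.card X.J
  dim_unit := rfl
  dim_tensor X Y := by
    change ((Fintype.card (X.J ⊕ Y.J) : ℕ) : ℤ) = _
    rw [Fintype.card_sum]
    push_cast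
    rfl
  CH X := CommAlgCat.of ℚ (Inv X)
  gr X i := grI X i
  graded X := ⟨grAlg X⟩
  pull f b := ⟨pl f b.1, pl_Inv f b.2⟩
  pull_add f a b := Subtype.ext (map_add (pl f) a.1 b.1)
  pull_mul f a b := Subtype.ext (map_mul (pl f) a.1 b.1)
  pull_rat f r := Subtype.ext ((pl f).commutes r)
  pull_id X a := Subtype.ext (pl_id X a.1)
  pull_comp f g a := Subtype.ext (pl_comp f g a.1)
  pull_mem {X Y} f i a ha := by
    rw [mem_grI] at ha ⊢
    change pl (Fr X) (pl f a.1) = (2 : ℚ) ^ i • pl f a.1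
    rw [← pl_comp, ← Fr_nat, pl_comp, ha, map_smul]
  push f a := ⟨ps f a.1, ps_Inv f a.2⟩
  push_add f a b := Subtype.ext (map_add (ps f) a.1 b.1)
  push_smul f r a := Subtype.ext (map_smul (ps f) r a.1)
  push_id X a := Subtype.ext (ps_id X a.1)
  push_comp f g a := Subtype.ext (ps_comp f g a.1)
  push_mem {X Y} f i a ha := by
    rw [mem_grI] at ha ⊢
    exact ps_fr f i ha
  projection f a b := Subtype.ext (proj f a.1 b.1)
  base_change g' f' f g h hg a := Subtype.ext (bc g' f' f g h hg a.1)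
  deg {X} a := dgr X a.1
  push_unit {X} a := Subtype.ext (ps_unit _ a.1)
  point := by
    intro h
    have h2 : (1 : R (pt G)) = 0 := congrArg Subtype.val h
    have h3 := dgr_pt_one (G := G)
    rw [h2, map_zero] at h3
    norm_num at h3
  union X Y h := by
    have ε : X.J ≃ Y.J := Fintype.equivOfCardEq (by exact_mod_cast h)
    refine ⟨un X Y, ui X Y, uj X Y ε, rfl, fun W => ⟨?_, ?_⟩⟩
    · intro a h1 h2
      exact Subtype.ext (un_inj W X Y ε a.1 (congrArg Subtype.val h1) (congrArg Subtype.val h2))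
    · intro k b c hb hc
      refine ⟨⟨glue W X Y ε b.1 c.1, glue_Inv W X Y ε b.2 c.2⟩, ?_,
        Subtype.ext (glue_i W X Y ε b.1 c.1), Subtype.ext (glue_j W X Y ε b.1 c.1)⟩
      rw [mem_grI]
      exact glue_fr W X Y ε (mem_grI.1 hb) (mem_grI.1 hc)
  line := by
    refine ⟨ln G, ⟨fun _ => hh (), fun _ _ => rfl⟩, rfl, ?_, ?_⟩
    · rw [mem_grI]
      funext s
      rw [Fr_apply, lmap_hh]
      simp
    · apply Subtype.ext
      refine (ps_unit _ _).trans ?_
      rw [dgr_ln, map_one]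
      rfl
  q := 2
  one_lt := by norm_num
  Fr := Fr
  natural f := Fr_nat f
  pull_Fr X i a ha := Subtype.ext (mem_grI.1 ha)
  push_Fr X := Subtype.ext (ps_fr_one X)

end

end Pool.Agent.VAC2
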