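import Pool.Agent.VAC2.Cell6
import Pool.Agent.CHS.Coh

/-!
# The model of `CHS.Cohomology`
-/

set_option autoImplicit false

open CategoryTheory MonoidalCategory CartesianMonoidalCategory Limits TensorProduct

namespace Pool.Agent.VAC2

noncomputable section

variable {G : Type} [Group G]

/-- the matrix of a correspondence -/
def mt {X Y : Ob G} (f : R (prod X Y)) : Matrix (Ix Y) (Ix X) ℚ := fun k i =>
  dgr (prod X Y) (f * (pl (fstM X Y) (bb i) * pl (sndM X Y) (bb (du k))))

theorem mt_add {X Y : Ob G} (f g : R (prod X Y)) : mt (f + g) = mt f + mt g := by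
  funext k i
  simp only [mt, Matrix.add_apply, add_mul, map_add]

theorem pl_lift_fst {X Y Z : Ob G} (f : Z ⟶ X) (g : Z ⟶ Y) (a : R X) :
    pl (liftM f g) (pl (fstM X Y) a) = pl f a := by
  rw [← pl_comp, liftM_fst]

theorem pl_lift_snd {X Y Z : Ob G} (f : Z ⟶ X) (g : Z ⟶ Y) (a : R Y) :
    pl (liftM f g) (pl (sndM X Y) a) = pl g a := by
  rw [← pl_comp, liftM_snd]

theorem mt_graph {X Y : Ob G} (φ : Y ⟶ X) (k : Ix Y) (i : Ix X) :
    mt (ps (liftM φ (𝟙 Y)) 1) k i = dgr Y (pl φ (bb i) * bb (du k)) := by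
  unfold mt
  rw [adj, one_mul, map_mul, pl_lift_fst, pl_lift_snd, pl_id]

open scoped Classical in
theorem mt_id (X : Ob G) : mt (ps (liftM (𝟙 X) (𝟙 X)) 1) = 1 := by
  funext k i
  rw [mt_graph, pl_id, dgr_bb_mul, Matrix.one_apply]
  have : (du k = du i) ↔ (k = i) :=
    ⟨fun h => by rw [← du_du k, h, du_du], fun h => by rw [h]⟩
  by_cases h : k = i
  · rw [if_pos h, if_pos (this.2 h)]
  · rw [if_neg h, if_neg (fun h' => h (this.1 h'))]

theorem dgr_sum {X : Ob G} (b c : R X) :
    ∑ j : Ix X, dgr X (b * bb (du j)) * dgr X (c * bb j) = dgr X (b * c) := by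
  conv_rhs => rw [exp b]
  rw [Finset.sum_mul, map_sum]
  apply Finset.sum_congr rfl
  intro j _
  rw [smul_mul_assoc, map_smul, smul_eq_mul, mul_comm c]

/-- the first projection of a triple product -/
abbrev p12 (X Y Z : Ob G) : prod (prod X Y) Z ⟶ prod X Y := fstM (prod X Y) Z

/-- the second and third factor -/
abbrev p23 (X Y Z : Ob G) : prod (prod X Y) Z ⟶ prod Y Z :=
  liftM (fstM (prod X Y) Z ≫ sndM X Y) (sndM (prod X Y) Z)

/-- the first and third factor -/
abbrev p13 (X Y Z : Ob G) : prod (prod X Y) Z ⟶ prod X Z :=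
  liftM (fstM (prod X Y) Z ≫ fstM X Y) (sndM (prod X Y) Z)

theorem triple {X Y Z : Ob G} (f : R (prod X Y)) (g : R (prod Y Z)) :
    dgr _ (pl (p12 X Y Z) f * pl (p23 X Y Z) g) =
      ∑ j : Ix Y, dgr _ (f * pl (sndM X Y) (bb (du j))) * dgr _ (g * pl (fstM Y Z) (bb j)) := by
  induction f using prod_ind with
  | h0 => simp
  | hadd f f' h h' =>
    rw [map_add, add_mul, map_add, h, h', ← Finset.sum_add_distrib]
    apply Finset.sum_congr rfl
    intro j _
    rw [add_mul, map_add, add_mul]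
  | hs r a b =>
    induction g using prod_ind with
    | h0 => simp
    | hadd f f' h h' =>
      rw [map_add, mul_add, map_add, h, h', ← Finset.sum_add_distrib]
      apply Finset.sum_congr rfl
      intro j _
      rw [add_mul, map_add, mul_add]
    | hs s c d =>
      have e1 : pl (p12 X Y Z) (r • (pl (fstM X Y) a * pl (sndM X Y) b)) *
          pl (p23 X Y Z) (s • (pl (fstM Y Z) c * pl (sndM Y Z) d)) =
          (r * s) • (pl (fstM (prod X Y) Z) (pl (fstM X Y) a * pl (sndM X Y) (b * c)) *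
            pl (sndM (prod X Y) Z) d) := by
        rw [map_smul, map_smul, map_mul, map_mul, pl_lift_fst, pl_lift_snd, smul_mul_smul_comm,
          pl_comp, map_mul (pl (fstM (prod X Y) Z)), map_mul (pl (sndM X Y)),
          map_mul (pl (fstM (prod X Y) Z))]
        congr 1
        ring
      have e2 : ∀ j : Ix Y, dgr _ ((r • (pl (fstM X Y) a * pl (sndM X Y) b)) *
          pl (sndM X Y) (bb (du j))) * dgr _ ((s • (pl (fstM Y Z) c * pl (sndM Y Z) d)) *
          pl (fstM Y Z) (bb j)) = (r * s * dgr X a * dgr Z d) *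
            (dgr Y (b * bb (du j)) * dgr Y (c * bb j)) := by
        intro j
        have e3 : (r • (pl (fstM X Y) a * pl (sndM X Y) b)) * pl (sndM X Y) (bb (du j)) =
            r • (pl (fstM X Y) a * pl (sndM X Y) (b * bb (du j))) := by
          rw [map_mul, smul_mul_assoc, mul_assoc]
        have e4 : (s • (pl (fstM Y Z) c * pl (sndM Y Z) d)) * pl (fstM Y Z) (bb j) =
            s • (pl (fstM Y Z) (c * bb j) * pl (sndM Y Z) d) := by
          rw [map_mul, smul_mul_assoc]
          congr 1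
          ring
        rw [e3, e4, map_smul, map_smul, dgr_prod, dgr_prod]
        simp only [smul_eq_mul]
        ring
      rw [e1, Finset.sum_congr rfl (fun j _ => e2 j), ← Finset.mul_sum, dgr_sum, map_smul,
        dgr_prod, dgr_prod]
      simp only [smul_eq_mul]
      ring

/-- composition -/
theorem mt_cp {X Y Z : Ob G} (f : R (prod X Y)) (g : R (prod Y Z)) :
    mt (ps (p13 X Y Z) (pl (p12 X Y Z) f * pl (p23 X Y Z) g)) = mt g * mt f := by
  funext l i
  rw [Matrix.mul_apply]
  have e1 : mt (ps (p13 X Y Z) (pl (p12 X Y Z) f * pl (p23 X Y Z) g)) l i =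
      dgr _ (pl (p12 X Y Z) (f * pl (fstM X Y) (bb i)) *
        pl (p23 X Y Z) (g * pl (sndM Y Z) (bb (du l)))) := by
    unfold mt
    rw [adj]
    congr 1
    rw [map_mul (pl (p13 X Y Z)), map_mul (pl (p12 X Y Z)), map_mul (pl (p23 X Y Z)),
      pl_lift_fst, pl_lift_snd, pl_lift_snd, pl_comp]
    ring
  rw [e1, triple]
  apply Finset.sum_congr rfl
  intro j _
  unfold mt
  rw [mul_comm]
  congr 2
  · rw [mul_assoc, mul_comm (pl (sndM Y Z) (bb (du l)))]
  · rw [mul_assoc]

end

end Pool.Agent.VAC2
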