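import Pool.Agent.VAC2.Cell7

/-!
# The model of `CHS.Cohomology`: Kuenneth, trace formula, weights
-/

set_option autoImplicit false

open CategoryTheory MonoidalCategory CartesianMonoidalCategory Limits TensorProduct

namespace Pool.Agent.VAC2

noncomputable section

variable {G : Type} [Group G]

/-! ### Kuenneth -/

/-- the indices of a product -/
def kap (X Y : Ob G) : Ix X × Ix Y ≃ Ix (prod X Y) where
  toFun p := ((p.1.1, p.2.1), p.1.2.disjSum p.2.2)
  invFun q := ((q.1.1, q.2.toLeft), (q.1.2, q.2.toRight))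
  left_inv p := by simp
  right_inv q := by
    simp [Finset.toLeft_disjSum_toRight]

theorem bb_kap {X Y : Ob G} (i : Ix X) (j : Ix Y) :
    bb (kap X Y (i, j)) = pl (fstM X Y) (bb i) * pl (sndM X Y) (bb j) := by
  classical
  funext p
  obtain ⟨s', t'⟩ := p
  rw [Pi.mul_apply, pl_apply, pl_apply, bb_apply, bb_apply, bb_apply]
  change _ = lmap Sum.inl (fun _ => 0) (if s' = i.1 then mon _ else 0) *
    lmap Sum.inr (fun _ => 0) (if t' = j.1 then mon _ else 0)
  change (if (s', t') = (i.1, j.1) then mon (i.2.disjSum j.2) else 0) = _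
  by_cases h1 : s' = i.1
  · by_cases h2 : t' = j.1
    · rw [if_pos h1, if_pos h2, if_pos (by rw [h1, h2]), lmap_mon _ Sum.inl_injective,
        lmap_mon _ Sum.inr_injective, mon_mul]
      · congr 1
        ext x
        rcases x with x | x <;> simp
      · rw [Finset.disjoint_left]
        intro x hx hy
        obtain ⟨y, _, rfl⟩ := Finset.mem_map.1 hx
        obtain ⟨z, _, hz⟩ := Finset.mem_map.1 hy
        exact Sum.inr_ne_inl hz
    · rw [if_neg h2, if_neg (fun h => h2 (congrArg Prod.snd h)), map_zero, mul_zero]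
  · rw [if_neg h1, if_neg (fun h => h1 (congrArg Prod.fst h)), map_zero, zero_mul]

theorem du_kap {X Y : Ob G} (i : Ix X) (j : Ix Y) :
    du (kap X Y (i, j)) = kap X Y (du i, du j) := by
  classical
  unfold du kap
  apply Prod.ext
  · rfl
  · ext x
    rcases x with x | x <;> simp

/-- the exchange of the middle factors -/
theorem four {X Y X' Y' : Ob G} (f : R (prod X Y)) (f' : R (prod X' Y')) :
    dgr (prod (prod X X') (prod Y Y'))
      (pl (liftM (fstM (prod X X') (prod Y Y') ≫ fstM X X') (sndM (prod X X') (prod Y Y') ≫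
        fstM Y Y')) f *
      pl (liftM (fstM (prod X X') (prod Y Y') ≫ sndM X X') (sndM (prod X X') (prod Y Y') ≫
        sndM Y Y')) f') = dgr _ f * dgr _ f' := by
  induction f using prod_ind with
  | h0 => simp
  | hadd f g h h' => rw [map_add, add_mul, map_add, h, h', map_add, add_mul]
  | hs r a b =>
    induction f' using prod_ind with
    | h0 => simp
    | hadd f g h h' => rw [map_add, mul_add, map_add, h, h', map_add, mul_add]
    | hs s c d =>
      rw [map_smul, map_smul, map_mul (pl (liftM _ _)) (pl (fstM X Y) a),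
        map_mul (pl (liftM _ _)) (pl (fstM X' Y') c), pl_lift_fst, pl_lift_snd, pl_lift_fst,
        pl_lift_snd, smul_mul_smul_comm, map_smul, map_smul, map_smul, dgr_prod, dgr_prod,
        pl_comp, pl_comp, pl_comp, pl_comp]
      have e : pl (fstM (prod X X') (prod Y Y')) (pl (fstM X X') a) *
          pl (sndM (prod X X') (prod Y Y')) (pl (fstM Y Y') b) *
          (pl (fstM (prod X X') (prod Y Y')) (pl (sndM X X') c) *
          pl (sndM (prod X X') (prod Y Y')) (pl (sndM Y Y') d)) =
          pl (fstM (prod X X') (prod Y Y')) (pl (fstM X X') a * pl (sndM X X') c) *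
          pl (sndM (prod X X') (prod Y Y')) (pl (fstM Y Y') b * pl (sndM Y Y') d) := by
        rw [map_mul, map_mul]
        ring
      rw [e, dgr_prod, dgr_prod, dgr_prod]
      simp only [smul_eq_mul]
      ring

theorem mt_ten {X Y X' Y' : Ob G} (f : R (prod X Y)) (f' : R (prod X' Y'))
    (k : Ix Y) (k' : Ix Y') (i : Ix X) (i' : Ix X') :
    mt (X := prod X X') (Y := prod Y Y')
      (pl (liftM (fstM (prod X X') (prod Y Y') ≫ fstM X X') (sndM (prod X X') (prod Y Y') ≫
        fstM Y Y')) f *
      pl (liftM (fstM (prod X X') (prod Y Y') ≫ sndM X X') (sndM (prod X X') (prod Y Y') ≫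
        sndM Y Y')) f') (kap Y Y' (k, k')) (kap X X' (i, i')) = mt f k i * mt f' k' i' := by
  unfold mt
  rw [du_kap, bb_kap, bb_kap, ← four]
  congr 1
  rw [map_mul (pl (liftM _ _)) f, map_mul (pl (liftM _ _)) f', map_mul (pl (liftM _ _)),
    map_mul (pl (liftM _ _)), pl_lift_fst, pl_lift_snd, pl_lift_fst, pl_lift_snd,
    pl_comp, pl_comp, pl_comp, pl_comp, map_mul (pl (fstM (prod X X') (prod Y Y'))),
    map_mul (pl (sndM (prod X X') (prod Y Y')))]
  ring

/-- the trace formula -/
theorem mt_trace {X : Ob G} (f : R (prod X X)) :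
    dgr X (pl (liftM (𝟙 X) (𝟙 X)) f) = ∑ i, mt f i i := by
  unfold mt
  induction f using prod_ind with
  | h0 => simp
  | hadd f g h h' =>
    rw [map_add, map_add, h, h', ← Finset.sum_add_distrib]
    apply Finset.sum_congr rfl
    intro i _
    rw [add_mul, map_add]
  | hs r a b =>
    rw [map_smul, map_mul, pl_lift_fst, pl_lift_snd, pl_id, pl_id, map_smul, mul_comm,
      ← dgr_sum, smul_eq_mul, Finset.mul_sum]
    apply Finset.sum_congr rfl
    intro i _
    have e : r • (pl (fstM X X) a * pl (sndM X X) b) *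
        (pl (fstM X X) (bb i) * pl (sndM X X) (bb (du i))) =
        r • (pl (fstM X X) (a * bb i) * pl (sndM X X) (b * bb (du i))) := by
      rw [map_mul, map_mul, smul_mul_assoc]
      congr 1
      ring
    rw [e, map_smul, dgr_prod, smul_eq_mul]
    ring

/-- the degree of a correspondence -/
theorem mt_deg {X Y : Ob G} {f : R (prod X Y)} {m : ℤ} (hf : pl (Fr _) f = (2 : ℚ) ^ m • f)
    {k : Ix Y} {i : Ix X} (h : mt f k i ≠ 0) :
    (k.2.card : ℤ) + Fintype.card X.J = m + i.2.card := by
  classical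
  set u : R (prod X Y) := f * (pl (fstM X Y) (bb i) * pl (sndM X Y) (bb (du k))) with hu
  have h1 : pl (Fr _) u = ((2 : ℚ) ^ m * 2 ^ i.2.card * 2 ^ (du k).2.card) • u := by
    rw [hu, map_mul, map_mul, hf, ← pl_comp, ← pl_comp, ← Fr_nat, ← Fr_nat, pl_comp, pl_comp,
      Fr_bb, Fr_bb, map_smul, map_smul, smul_mul_smul_comm, smul_mul_smul_comm, mul_assoc]
  have h2 : dgr _ (pl (Fr _) u) = (2 : ℚ) ^ Fintype.card (X.J ⊕ Y.J) * dgr _ u := dgr_fr u
  rw [h1, map_smul, smul_eq_mul] at h2
  have h3 : dgr _ u ≠ 0 := h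
  have h4 := mul_right_cancel₀ h3 h2
  have h5 : (du k).2.card = Fintype.card Y.J - k.2.card := Finset.card_compl _
  have h6 : k.2.card ≤ Fintype.card Y.J := Finset.card_le_univ _
  rw [h5, Fintype.card_sum] at h4
  have h7 : (2 : ℚ) ^ (m + i.2.card + ((Fintype.card Y.J - k.2.card : ℕ) : ℤ)) =
      (2 : ℚ) ^ (((Fintype.card X.J + Fintype.card Y.J : ℕ)) : ℤ) := by
    rw [zpow_add₀ (by norm_num), zpow_add₀ (by norm_num), zpow_natCast, zpow_natCast, zpow_natCast]
    exact h4
  have h8 := zpow_right_injective₀ (by norm_num : (0 : ℚ) < 2) (by norm_num) h7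
  omega

open scoped Classical in
theorem mt_fr {X : Ob G} (k i : Ix X) : mt (ps (liftM (Fr X) (𝟙 X)) 1) k i =
    if k = i then (2 : ℚ) ^ k.2.card else 0 := by
  rw [mt_graph, Fr_bb, smul_mul_assoc, map_smul, dgr_bb_mul]
  have : (du k = du i) ↔ (k = i) :=
    ⟨fun h => by rw [← du_du k, h, du_du], fun h => by rw [h]⟩
  by_cases h : k = i
  · rw [if_pos h, if_pos (this.2 h), h]
    simp
  · rw [if_neg h, if_neg (fun h' => h (this.1 h')), smul_zero]

end

end Pool.Agent.VAC2
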