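import Pool.Agent.VAC2.Cell8

/-!
# The model of `CHS.Cohomology`: the structure
-/

set_option autoImplicit false

open CategoryTheory MonoidalCategory CartesianMonoidalCategory Limits TensorProduct

namespace Pool.Agent.VAC2

noncomputable section

variable {G : Type} [Group G]

/-- the cohomology -/
abbrev HX (X : Ob G) : Type := Ix X → ℂ

/-- the degree operator -/
def DD (X : Ob G) : Module.End ℂ (HX X) where
  toFun x p := ((2 * p.2.card : ℤ) : ℂ) * x p
  map_add' x y := by
    funext p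
    simp only [Pi.add_apply, mul_add]
  map_smul' c x := by
    funext p
    simp only [Pi.smul_apply, smul_eq_mul, RingHom.id_apply]
    ring

theorem DD_apply {X : Ob G} (x : HX X) (p : Ix X) : DD X x p = ((2 * p.2.card : ℤ) : ℂ) * x p :=
  rfl

/-- the grading of the cohomology -/
def grH (X : Ob G) (i : ℤ) : Submodule ℂ (HX X) := (DD X).eigenspace (i : ℂ)

theorem mem_grH {X : Ob G} {i : ℤ} {x : HX X} :
    x ∈ grH X i ↔ ∀ p : Ix X, x p ≠ 0 → (2 * p.2.card : ℤ) = i := by
  unfold grH
  rw [Module.End.mem_eigenspace_iff]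
  constructor
  · intro h p hp
    have h1 := congrFun h p
    rw [DD_apply, Pi.smul_apply, smul_eq_mul] at h1
    exact_mod_cast mul_right_cancel₀ hp h1
  · intro h
    funext p
    rw [DD_apply, Pi.smul_apply, smul_eq_mul]
    by_cases hp : x p = 0
    · rw [hp, mul_zero, mul_zero]
    · rw [h p hp]

theorem grH_internal (X : Ob G) : DirectSum.IsInternal (grH X) := by
  classical
  rw [DirectSum.isInternal_submodule_iff_iSupIndep_and_iSup_eq_top]
  constructor
  · have h := (DD X).eigenspaces_iSupIndep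
    exact h.comp (f := fun i : ℤ => (i : ℂ)) Int.cast_injective
  · rw [eq_top_iff]
    intro x _
    have h1 : x = ∑ p : Ix X, Pi.single p (x p) := (Finset.univ_sum_single x).symm
    rw [h1]
    apply Submodule.sum_mem
    intro p _
    refine Submodule.mem_iSup_of_mem (2 * p.2.card : ℤ) ?_
    rw [mem_grH]
    intro q hq
    by_cases h : q = p
    · rw [h]
    · exact absurd (Pi.single_eq_of_ne h _) hq

/-- the Kuenneth isomorphism -/
def kun (X Y : Ob G) : (HX X ⊗[ℂ] HX Y) ≃ₗ[ℂ] HX (prod X Y) :=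
  ((Pi.basisFun ℂ (Ix X)).tensorProduct (Pi.basisFun ℂ (Ix Y))).equivFun.trans
    (LinearEquiv.funCongrLeft ℂ ℂ (kap X Y).symm)

theorem kun_apply {X Y : Ob G} (x : HX X) (y : HX Y) (i : Ix X) (j : Ix Y) :
    kun X Y (x ⊗ₜ y) (kap X Y (i, j)) = x i * y j := by
  unfold kun
  rw [LinearEquiv.trans_apply, LinearEquiv.funCongrLeft_apply, LinearMap.funLeft_apply,
    Equiv.symm_apply_apply, Module.Basis.equivFun_apply, Module.Basis.tensorProduct_repr_tmul_apply]
  simp [mul_comm]

/-- the action of a correspondence -/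
def ac {X Y : Ob G} (f : R (prod X Y)) : HX X →ₗ[ℂ] HX Y :=
  ((mt f).map (algebraMap ℚ ℂ)).mulVecLin

theorem ac_apply {X Y : Ob G} (f : R (prod X Y)) (x : HX X) (k : Ix Y) :
    ac f x k = ∑ i, ((mt f k i : ℚ) : ℂ) * x i := by
  unfold ac
  rw [Matrix.mulVecLin_apply]
  rfl

theorem tens_fst (X X' Y Y' : Ob G) : (fst X X' ⊗ₘ fst Y Y') =
    liftM (fstM (prod X X') (prod Y Y') ≫ fstM X X') (sndM (prod X X') (prod Y Y') ≫
      fstM Y Y') := by
  apply CartesianMonoidalCategory.hom_ext
  · rw [tensorHom_fst]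
    exact (liftM_fst _ _).symm
  · rw [tensorHom_snd]
    exact (liftM_snd _ _).symm

theorem tens_snd (X X' Y Y' : Ob G) : (snd X X' ⊗ₘ snd Y Y') =
    liftM (fstM (prod X X') (prod Y Y') ≫ sndM X X') (sndM (prod X X') (prod Y Y') ≫
      sndM Y Y') := by
  apply CartesianMonoidalCategory.hom_ext
  · rw [tensorHom_fst]
    exact (liftM_fst _ _).symm
  · rw [tensorHom_snd]
    exact (liftM_snd _ _).symm

theorem ac_ten {X Y X' Y' : Ob G} (f : R (prod X Y)) (f' : R (prod X' Y')) (x : HX X)
    (x' : HX X') (k : Ix Y) (k' : Ix Y') :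
    ac (X := prod X X') (Y := prod Y Y') (pl (fst X X' ⊗ₘ fst Y Y') f *
      pl (snd X X' ⊗ₘ snd Y Y') f') (kun X X' (x ⊗ₜ x')) (kap Y Y' (k, k')) =
      ac f x k * ac f' x' k' := by
  rw [tens_fst, tens_snd, ac_apply, ← (kap X X').sum_comp, Fintype.sum_prod_type, ac_apply,
    ac_apply, Finset.sum_mul_sum]
  apply Finset.sum_congr rfl
  intro i _
  apply Finset.sum_congr rfl
  intro i' _
  rw [kun_apply, mt_ten]
  push_cast
  ring

theorem ac_fr {X : Ob G} (x : HX X) (k : Ix X) :
    ac (ps (liftM (Fr X) (𝟙 X)) 1) x k = (2 : ℂ) ^ k.2.card * x k := by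
  classical
  rw [ac_apply, Finset.sum_eq_single k]
  · rw [mt_fr, if_pos rfl]
    push_cast
    rfl
  · intro i _ hi
    rw [mt_fr, if_neg (Ne.symm hi)]
    simp
  · intro h
    exact absurd (Finset.mem_univ _) h

/-- the model of `CHS.Cohomology` -/
def coh (G : Type) [Group G] : CHS.Cohomology.{0, 1, 0, 0} (theory G) where
  H X := ModuleCat.of ℂ (HX X)
  fin X := inferInstanceAs (Module.Finite ℂ (Ix X → ℂ))
  gr X i := grH X i
  internal X := grH_internal X
  sgn X := LinearMap.id
  sgn_apply X i x hx := by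
    funext p
    change x p = (-1 : ℂ) ^ i * x p
    by_cases hp : x p = 0
    · rw [hp, mul_zero]
    · rw [← mem_grH.1 hx p hp, zpow_mul]
      norm_num
  act f := ac f.1
  act_add {X Y} f g x := by
    funext k
    change ac (f.1 + g.1) x k = ac f.1 x k + ac g.1 x k
    rw [ac_apply, ac_apply, ac_apply, ← Finset.sum_add_distrib]
    apply Finset.sum_congr rfl
    intro i _
    rw [mt_add, Matrix.add_apply]
    push_cast
    ring
  act_id X x := by
    classical
    funext k
    change ac (ps (liftM (𝟙 X) (𝟙 X)) 1) x k = x k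
    rw [ac_apply, mt_id, Finset.sum_eq_single k]
    · rw [Matrix.one_apply_eq]
      simp
    · intro i _ hi
      rw [Matrix.one_apply_ne (Ne.symm hi)]
      simp
    · intro h
      exact absurd (Finset.mem_univ _) h
  act_cp {X Y Z} f g x := by
    funext l
    change ac (ps (p13 X Y Z) (pl (p12 X Y Z) f.1 * pl (p23 X Y Z) g.1)) x l = ac g.1 (ac f.1 x) l
    rw [ac_apply, ac_apply, mt_cp]
    have h1 : ∀ j, ((mt g.1 l j : ℚ) : ℂ) * ac f.1 x j =
        ∑ i, ((mt g.1 l j : ℚ) : ℂ) * ((mt f.1 j i : ℚ) : ℂ) * x i := by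
      intro j
      rw [ac_apply, Finset.mul_sum]
      apply Finset.sum_congr rfl
      intro i _
      ring
    rw [Finset.sum_congr rfl (fun j _ => h1 j), Finset.sum_comm]
    apply Finset.sum_congr rfl
    intro i _
    rw [← Finset.sum_mul, Matrix.mul_apply]
    push_cast
    rfl
  act_mem {X Y} r i f x hf hx := by
    change ac f.1 x ∈ grH Y (i + 2 * r)
    rw [mem_grH]
    intro k hk
    rw [ac_apply] at hk
    obtain ⟨j, _, hj⟩ := Finset.exists_ne_zero_of_sum_ne_zero hk
    have h1 : mt f.1 k j ≠ 0 := by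
      intro h
      rw [h] at hj
      simp at hj
    have h2 : x j ≠ 0 := by
      intro h
      rw [h] at hj
      simp at hj
    have h3 := mt_deg (mem_grI.1 hf) h1
    have h4 := mem_grH.1 hx j h2
    have h5 : ((theory G).dim X : ℤ) = Fintype.card X.J := rfl
    rw [h5] at h3
    omega
  kunneth X Y := kun X Y
  kunneth_act {X Y X' Y'} f f' x x' := by
    funext q
    obtain ⟨⟨k, k'⟩, rfl⟩ := (kap Y Y').surjective q
    exact (ac_ten f.1 f'.1 x x' k k').trans (kun_apply (ac f.1 x) (ac f'.1 x') k k').symm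
  trace_formula X f hf := by
    change ((dgr X (pl (liftM (𝟙 X) (𝟙 X)) f.1) : ℚ) : ℂ) = LinearMap.trace ℂ (HX X) (ac f.1)
    classical
    unfold ac
    rw [← Matrix.toLin'_apply', Matrix.trace_toLin'_eq, mt_trace]
    push_cast
    rfl
  weight X i x z hx hx0 h := by
    obtain ⟨k, hk⟩ := Function.ne_iff.1 hx0
    have h1 : (2 : ℂ) ^ k.2.card * x k = z * x k := (ac_fr x k).symm.trans (congrFun h k)
    have h2 : (2 : ℂ) ^ k.2.card = z := mul_right_cancel₀ hk h1
    have h3 := mem_grH.1 hx k hk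
    change ‖z‖ ^ 2 = ((2 : ℕ) : ℝ) ^ i
    rw [← h2, ← h3, norm_pow, Complex.norm_ofNat, ← pow_mul, mul_comm]
    norm_cast

end

end Pool.Agent.VAC2
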