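import Pool.Agent.TKN.St7

/-!
# Certificates: the lower bound `HardR` contains the older ones

`TimeSR G s T` (and `TimeFR G s T`): every accepted input has an accepting run (tree) and a set `R` of at most `s`
variables such that at most `T` tests are tests of variables outside `R`. It contains: runs with at most `T` tests;
runs on which at most `s` variables are tested more than once (`T` = the number of variables); runs with at
most `r` tests more than there are variables.
-/

set_option autoImplicit false

open Finset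

namespace Pool.Agent.VAC2

open Pool.Agent.Lib_helper20.SRO (Agrees)
open Pool.Agent.CFT (Der)
open Pool.Agent.TKN (TimeS TimeF TimeSR TimeFR Out)
open Pool.Agent.TKN.ONE (HardR HardT)

variable {V Γ Q : Type} {k : ℕ}

lemma out_le (R : Finset V) (l : List (V × Bool)) : Out R l ≤ l.length :=
  List.length_filter_le _ _

lemma out_card [Fintype V] [DecidableEq V] (l : List (V × Bool)) :
    Out (univ.filter fun x => 2 ≤ (l.map Prod.fst).count x) l ≤ Fintype.card V := by
  classical
  set R : Finset V := univ.filter fun x => 2 ≤ (l.map Prod.fst).count x with hR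
  set l' : List (V × Bool) := l.filter fun p => p.1 ∉ R with hl'
  have h1 : (l'.map Prod.fst).Nodup := by
    rw [List.nodup_iff_count_le_one]
    intro x
    by_cases hx : x ∈ R
    · have : x ∉ l'.map Prod.fst := by
        intro h
        obtain ⟨p, hp, rfl⟩ := List.mem_map.1 h
        rw [hl', List.mem_filter] at hp
        exact (of_decide_eq_true hp.2) hx
      rw [List.count_eq_zero_of_not_mem this]
      exact Nat.zero_le _
    · have h2 : (l'.map Prod.fst).count x ≤ (l.map Prod.fst).count x :=
        (List.Sublist.map Prod.fst List.filter_sublist).count_le x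
      have h3 : ¬ 2 ≤ (l.map Prod.fst).count x := fun h => hx (by simp [hR, h])
      omega
  have h4 := h1.length_le_card
  rw [List.length_map] at h4
  have h5 : Out R l = l'.length := by
    simp only [Out, hl']
    congr
    funext p
    exact decide_eq_decide.2 Iff.rfl
  rw [h5]
  exact h4

/-! ## Programs with stacks -/

/-- few variables are tested more than once -/
theorem few_stack [Fintype V] [DecidableEq V] (G : STK.Prog V k Γ Q) {r : ℕ}
    (h : G.FewRereads r) : TimeSR G r (Fintype.card V) := by
  intro b hb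
  obtain ⟨l, h1, h2, h3⟩ := h b hb
  exact ⟨l, h1, h2, _, h3, out_card l⟩

/-- at most `r` tests more than there are variables -/
theorem short_stack [Fintype V] (G : STK.Prog V k Γ Q) {r : ℕ} (h : G.Short r) :
    TimeSR G 0 (Fintype.card V + r) := by
  intro b hb
  obtain ⟨l, h1, h2, h3⟩ := h b hb
  exact ⟨l, h1, h2, ∅, by simp, (out_le _ _).trans h3⟩

/-- at most `T` tests -/
theorem time_stack (G : STK.Prog V k Γ Q) {T : ℕ} (s : ℕ) (h : TimeS G T) : TimeSR G s T := by
  intro b hb
  obtain ⟨l, h1, h2, h3⟩ := h b hb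
  exact ⟨l, h1, h2, ∅, by simp, (out_le _ _).trans h3⟩

/-- monotonicity -/
theorem mono_stack (G : STK.Prog V k Γ Q) {s s' T T' : ℕ} (hs : s ≤ s') (hT : T ≤ T')
    (h : TimeSR G s T) : TimeSR G s' T' := by
  intro b hb
  obtain ⟨l, h1, h2, R, h3, h4⟩ := h b hb
  exact ⟨l, h1, h2, R, h3.trans hs, h4.trans hT⟩

/-! ## Fork programs -/

/-- few variables are tested more than once -/
theorem few_fork [Fintype V] [DecidableEq V] (G : CFT.FP V Q) {r : ℕ}
    (h : G.FewRereads r) : TimeFR G r (Fintype.card V) := by
  intro b hb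
  obtain ⟨l, h1, h2, h3⟩ := h b hb
  exact ⟨l, h1, h2, _, h3, out_card l⟩

/-- at most `r` tests more than there are variables -/
theorem short_fork [Fintype V] (G : CFT.FP V Q) {r : ℕ} (h : G.Short r) :
    TimeFR G 0 (Fintype.card V + r) := by
  intro b hb
  obtain ⟨l, h1, h2, h3⟩ := h b hb
  exact ⟨l, h1, h2, ∅, by simp, (out_le _ _).trans h3⟩

/-- at most `T` tests -/
theorem time_fork (G : CFT.FP V Q) {T : ℕ} (s : ℕ) (h : TimeF G T) : TimeFR G s T := by
  intro b hb
  obtain ⟨l, h1, h2, h3⟩ := h b hb
  exact ⟨l, h1, h2, ∅, by simp, (out_le _ _).trans h3⟩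

/-- monotonicity -/
theorem mono_fork (G : CFT.FP V Q) {s s' T T' : ℕ} (hs : s ≤ s') (hT : T ≤ T')
    (h : TimeFR G s T) : TimeFR G s' T' := by
  intro b hb
  obtain ⟨l, h1, h2, R, h3, h4⟩ := h b hb
  exact ⟨l, h1, h2, R, h3.trans hs, h4.trans hT⟩

/-! ## The lower bounds -/

/-- The new lower bound implies the one for all programs with accepting runs of at most `k N` tests. -/
theorem hardT_of_hardR {k : ℕ} {c : ℝ} {N : ℕ} {f : (Fin N → Bool) → Bool} (h : HardR k c N f) :
    HardT k c N f :=
  ⟨fun Γ Q _ G s hs hB hT hf => h.1 Γ Q G s hs hB (time_stack G s hT) hf,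
    fun Q _ G s hs hB hT hf => h.2 Q G s hs hB (time_fork G s hT) hf⟩

/-- The new lower bound (for `k = 2`) contains both cases of the older one: at most `r ≤ c N`
variables are tested more than once, or at most `r` tests more than there are variables. -/
theorem old_of_hardR {c : ℝ} {N : ℕ} {f : (Fin N → Bool) → Bool} (hc : c ≤ 1)
    (h : HardR 2 c N f) :
    (∀ (Γ Q : Type) [Fintype Q] (G : STK.Prog (Fin N) 1 Γ Q) (r : ℕ), (r : ℝ) ≤ c * N →
      G.Blocks r → G.FewRereads r ∨ G.Short r → G.Computes f →
        (2 : ℝ) ^ (c * N) ≤ Fintype.card Q) ∧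
    ∀ (Q : Type) [Fintype Q] (G : CFT.FP (Fin N) Q) (r : ℕ), (r : ℝ) ≤ c * N →
      G.Block r → G.FewRereads r ∨ G.Short r → G.Computes f →
        (2 : ℝ) ^ (c * N) ≤ Fintype.card Q := by
  have hr : ∀ r : ℕ, (r : ℝ) ≤ c * N → r ≤ N := fun r hr => by
    have h1 : (r : ℝ) ≤ N := hr.trans (by nlinarith [Nat.cast_nonneg (α := ℝ) N])
    exact_mod_cast h1
  constructor
  · intro Γ Q _ G r hrc hB h1 hf
    refine h.1 Γ Q G r hrc hB ?_ hf
    rcases h1 with h1 | h1
    · refine mono_stack G le_rfl ?_ (few_stack G h1)
      rw [Fintype.card_fin]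
      omega
    · refine mono_stack G (Nat.zero_le r) ?_ (short_stack G h1)
      rw [Fintype.card_fin]
      have := hr r hrc
      omega
  · intro Q _ G r hrc hB h1 hf
    refine h.2 Q G r hrc hB ?_ hf
    rcases h1 with h1 | h1
    · refine mono_fork G le_rfl ?_ (few_fork G h1)
      rw [Fintype.card_fin]
      omega
    · refine mono_fork G (Nat.zero_le r) ?_ (short_fork G h1)
      rw [Fintype.card_fin]
      have := hr r hrc
      omega

end Pool.Agent.VAC2
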