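import Pool.Agent.VAC2.Cell9
import Pool.Agent.HL.RhsDefs

/-!
# MP_6c4da4_ag HalfLaw: certificate

The hypotheses `T : ChowTheory V`, `K : Cohomology T` have models (`theory G`, `coh G`: products of
projective lines times finite `G`-sets, Frobenius of degree two on each line), and the conclusions
are real conditions: in the model for a finite group `G` the variety `X = G` has
`N(X, 0) = 1` and `M(X, 0) = |G|`.
-/

set_option autoImplicit false

open CategoryTheory MonoidalCategory CartesianMonoidalCategory Limits TensorProduct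

namespace Pool.Agent.VAC2

noncomputable section

/-- The group as a variety of dimension zero. -/
abbrev reg (G : Type) [Group G] [Fintype G] : Ob G where
  S := G
  J := Empty

theorem B_reg (G : Type) [Group G] [Fintype G] : (coh G).B (reg G) = Fintype.card G := by
  change Module.finrank ℂ (G × Finset Empty → ℂ) = _
  rw [Module.finrank_fintype_fun_eq_card, Fintype.card_prod]
  simp

theorem act_Fr_reg (G : Type) [Group G] [Fintype G] :
    (coh G).act ((theory G).graph ((theory G).Fr (reg G))) = LinearMap.id := by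
  apply LinearMap.ext
  intro x
  funext k
  refine (ac_fr x k).trans ?_
  have h : k.2.card = 0 := Finset.card_eq_zero.2 (Subsingleton.elim _ _)
  rw [h, pow_zero, one_mul]
  rfl

theorem act_id_reg (G : Type) [Group G] [Fintype G] :
    (coh G).act ((theory G).graph (𝟙 (reg G))) = LinearMap.id :=
  LinearMap.ext fun x => (coh G).act_id (reg G) x

theorem M_reg (G : Type) [Group G] [Fintype G] : (coh G).M (reg G) 0 = Fintype.card G := by
  rw [← B_reg]
  change Module.finrank ℂ (((Module.End.maxGenEigenspace
    ((coh G).act ((theory G).graph ((theory G).Fr (reg G)))) (((2 : ℕ) : ℂ) ^ (0 : ℤ))).map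
      ((coh G).act ((theory G).graph (𝟙 (reg G)))) : Submodule ℂ ((coh G).H (reg G)))) =
    Module.finrank ℂ ((coh G).H (reg G))
  rw [act_Fr_reg, act_id_reg, Submodule.map_id]
  have h : Module.End.maxGenEigenspace (LinearMap.id : Module.End ℂ ((coh G).H (reg G)))
      (((2 : ℕ) : ℂ) ^ (0 : ℤ)) = ⊤ := by
    rw [eq_top_iff]
    intro x _
    rw [Module.End.mem_maxGenEigenspace]
    refine ⟨1, ?_⟩
    rw [zpow_zero, one_smul, pow_one]
    simp
  rw [h, finrank_top]

theorem inv_reg (G : Type) [Group G] [Fintype G] (a : Inv (reg G)) :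
    ∃ c : ℚ, a = c • (1 : Inv (reg G)) := by
  refine ⟨dg (a.1 (1 : G)), ?_⟩
  apply Subtype.ext
  funext s
  have h1 : a.1 s = a.1 (1 : G) := by
    have h := a.2 (s : G) (1 : G)
    rwa [smul_eq_mul, mul_one] at h
  rw [h1]
  refine (lam_empty (a.1 (1 : G))).trans ?_
  rw [Algebra.algebraMap_eq_smul_one]
  rfl

theorem N_reg (G : Type) [Group G] [Fintype G] : (theory G).N (reg G) 0 = 1 := by
  let φ : (theory G).CH (reg G) → ℚ := fun b => (theory G).deg b
  have hφ : φ ≠ 0 := by
    intro h
    have h1 : dgr (reg G) (1 : R (reg G)) = 0 := congrFun h (1 : Inv (reg G))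
    rw [dgr_apply] at h1
    have h2 : ∀ s : (reg G).S, dg ((1 : R (reg G)) s) = 1 := fun s => dg_one_empty
    rw [Finset.sum_congr rfl (fun s _ => h2 s), Finset.sum_const, nsmul_eq_mul, mul_one,
      Finset.card_univ] at h1
    have h3 : Fintype.card (reg G).S ≠ 0 := Fintype.card_ne_zero
    exact h3 (by exact_mod_cast h1)
  have hs : Submodule.span ℚ ((fun a b : (theory G).CH (reg G) => (theory G).deg (a * b)) ''
      (theory G).cyc (reg G) 0) = Submodule.span ℚ {φ} := by
    apply le_antisymm
    · rw [Submodule.span_le]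
      rintro _ ⟨a, _, rfl⟩
      obtain ⟨c, hc⟩ := inv_reg G a
      refine Submodule.mem_span_singleton.2 ⟨c, ?_⟩
      funext b
      change c * dgr (reg G) b.1 = dgr (reg G) (a.1 * b.1)
      have h1 : a.1 = c • (1 : R (reg G)) := congrArg Subtype.val hc
      rw [h1, smul_mul_assoc, one_mul, map_smul, smul_eq_mul]
    · rw [Submodule.span_le, Set.singleton_subset_iff]
      refine Submodule.subset_span ⟨(1 : Inv (reg G)), ?_, ?_⟩
      · change (1 : Inv (reg G)) ∈ grI (reg G) 0
        rw [mem_grI]
        simp
      · funext b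
        change dgr (reg G) (1 * b.1) = dgr (reg G) b.1
        rw [one_mul]
  unfold CHS.ChowTheory.N CHS.ChowTheory.numRank
  rw [hs]
  exact finrank_span_singleton hφ

/-- The hypotheses have models, and the conclusions are conditions: there is a model and a variety
with nonzero cohomology for which `N(X, 0) = 1` and `M(X, 0) = n`, for every `n ≥ 1`. -/
theorem certificate (n : ℕ) (hn : 1 ≤ n) : ∃ (V : Type 1) (_ : Category.{0} V)
    (_ : CartesianMonoidalCategory V) (T : CHS.ChowTheory.{0, 1, 0} V)
    (K : CHS.Cohomology.{0, 1, 0, 0} T) (X : V),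
    K.B X = n ∧ T.N X 0 = 1 ∧ K.M X 0 = n := by
  have : NeZero n := ⟨by omega⟩
  refine ⟨Ob (Multiplicative (ZMod n)), inferInstance, inferInstance, theory _, coh _,
    reg (Multiplicative (ZMod n)), ?_, N_reg _, ?_⟩
  · rw [B_reg]
    rw [Fintype.card_multiplicative, ZMod.card]
  · rw [M_reg]
    rw [Fintype.card_multiplicative, ZMod.card]

end

end Pool.Agent.VAC2
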