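import Pool.Agent.LibH11.SlicedCalc

/-!
# The model of knots by sliced long diagrams is not degenerate

Helper file of the vacuity audit, not a hand-in.  The number of Fox 3-colourings (with bottom colour
`0`) is an invariant of `Knot`; it is `1` on the unknot and `3` on the trefoil, so these are different
elements of `Knot`, and it is not of finite type, so `IsFiniteType` is a real condition.
-/

set_option autoImplicit false

namespace Pool.Agent.VAC2

open Pool.Agent.LibH11.Sliced

/-- colours -/
abbrev Col : Type := ZMod 3

/-- a slice at position `0`, acting on functions of the list of colours -/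
def loc : Kind → (List Col → ℕ) → List Col → ℕ
  | .cup, g, l => ∑ c : Col, g (c :: c :: l)
  | .cap, g, a :: b :: l => if a = b then g l else 0
  | .cap, _, _ => 0
  | .crs true, g, a :: b :: l => g (-(a + b) :: a :: l)
  | .crs false, g, a :: b :: l => g (b :: -(a + b) :: l)
  | .crs _, _, _ => 0

/-- a slice at position `i` -/
def act (k : Kind) : ℕ → (List Col → ℕ) → List Col → ℕ
  | 0, g, l => loc k g l
  | _ + 1, _, [] => 0
  | i + 1, g, a :: l => act k i (fun m => g (a :: m)) l

/-- the number of colourings of a diagram with bottom colours `l`, weighted by `g` at the top -/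
def pull : Diag → (List Col → ℕ) → List Col → ℕ
  | [], g, l => g l
  | (k, i) :: w, g, l => act k i (fun m => pull w g m) l

theorem pull_append (u w : Diag) (g : List Col → ℕ) :
    ∀ l, pull (u ++ w) g l = pull u (fun m => pull w g m) l := by
  induction u with
  | nil => intro l; rfl
  | cons p u ih =>
    obtain ⟨k, i⟩ := p
    intro l
    simp only [List.cons_append, pull]
    congr 1
    funext m
    exact ih m

theorem act_zero (k : Kind) : ∀ (i : ℕ) (l : List Col), act k i (fun _ => 0) l = 0 := by
  intro i
  induction i with
  | zero =>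
    intro l
    cases k with
    | cup => simp [act, loc]
    | cap => rcases l with _ | ⟨a, _ | ⟨b, l⟩⟩ <;> simp [act, loc]
    | crs e => cases e <;> rcases l with _ | ⟨a, _ | ⟨b, l⟩⟩ <;> simp [act, loc]
  | succ i ih =>
    intro l
    rcases l with _ | ⟨a, l⟩
    · rfl
    · exact ih l

theorem act_sum (k : Kind) : ∀ (i : ℕ) (g : Col → List Col → ℕ) (l : List Col),
    act k i (fun m => ∑ c : Col, g c m) l = ∑ c : Col, act k i (g c) l := by
  intro i
  induction i with
  | zero =>
    intro g l
    cases k with
    | cup =>
      simp only [act, loc]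
      exact Finset.sum_comm
    | cap =>
      rcases l with _ | ⟨a, _ | ⟨b, l⟩⟩
      · simp [act, loc]
      · simp [act, loc]
      · simp only [act, loc]
        split_ifs <;> simp
    | crs e => cases e <;> rcases l with _ | ⟨a, _ | ⟨b, l⟩⟩ <;> simp [act, loc]
  | succ i ih =>
    intro g l
    rcases l with _ | ⟨a, l⟩
    · simp [act]
    · exact ih (fun c m => g c (a :: m)) l

/-- a slice does not change the strands far to the left -/
theorem far_aux (p q : Kind) (k : ℕ) : ∀ (i : ℕ) (g : List Col → ℕ) (l : List Col),
    act p i (fun m => act q (i + p.outs + k) g m) l =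
      act q (i + p.ins + k) (fun m => act p i g m) l := by
  intro i
  induction i with
  | zero =>
    intro g l
    cases p with
    | cup =>
      have e1 : 0 + Kind.cup.outs + k = k + 1 + 1 := by simp [Kind.outs]; omega
      have e2 : 0 + Kind.cup.ins + k = k := by simp [Kind.ins]
      rw [e1, e2]
      simp only [act, loc]
      rw [← act_sum]
    | cap =>
      have e1 : 0 + Kind.cap.outs + k = k := by simp [Kind.outs]
      have e2 : 0 + Kind.cap.ins + k = k + 1 + 1 := by simp [Kind.ins]; omega
      rw [e1, e2]
      rcases l with _ | ⟨a, _ | ⟨b, l⟩⟩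
      · simp [act, loc]
      · simp [act, loc]
      · simp only [act, loc]
        split_ifs
        · rfl
        · exact (act_zero q k l).symm
    | crs e =>
      have e1 : 0 + (Kind.crs e).outs + k = k + 1 + 1 := by simp [Kind.outs]; omega
      have e2 : 0 + (Kind.crs e).ins + k = k + 1 + 1 := by simp [Kind.ins]; omega
      rw [e1, e2]
      cases e <;> rcases l with _ | ⟨a, _ | ⟨b, l⟩⟩ <;> simp [act, loc]
  | succ i ih =>
    intro g l
    have e1 : i + 1 + p.outs + k = i + p.outs + k + 1 := by omega
    have e2 : i + 1 + p.ins + k = i + p.ins + k + 1 := by omega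
    rw [e1, e2]
    rcases l with _ | ⟨a, l⟩
    · rfl
    · exact ih (fun m => g (a :: m)) l

/-- dependence on lists of the right length only -/
theorem act_congr (k : Kind) : ∀ (i : ℕ) (g g' : List Col → ℕ) (l : List Col),
    (∀ m : List Col, m.length + k.ins = l.length + k.outs → g m = g' m) →
    act k i g l = act k i g' l := by
  intro i
  induction i with
  | zero =>
    intro g g' l h
    cases k with
    | cup =>
      simp only [act, loc]
      exact Finset.sum_congr rfl fun c _ => h _ (by simp [Kind.ins, Kind.outs])
    | cap =>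
      rcases l with _ | ⟨a, _ | ⟨b, l⟩⟩
      · rfl
      · rfl
      · simp only [act, loc]
        rw [h l (by simp [Kind.ins, Kind.outs])]
    | crs e =>
      cases e
      · rcases l with _ | ⟨a, _ | ⟨b, l⟩⟩
        · rfl
        · rfl
        · exact h _ (by simp [Kind.ins, Kind.outs])
      · rcases l with _ | ⟨a, _ | ⟨b, l⟩⟩
        · rfl
        · rfl
        · exact h _ (by simp [Kind.ins, Kind.outs])
  | succ i ih =>
    intro g g' l h
    rcases l with _ | ⟨a, l⟩
    · rfl
    · refine ih _ _ l fun m hm => h _ ?_
      simp only [List.length_cons]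
      omega

theorem pull_congr : ∀ (u : Diag) (g g' : List Col → ℕ) (l : List Col) (N : ℕ),
    cnt l.length u = some N → (∀ m : List Col, m.length = N → g m = g' m) →
    pull u g l = pull u g' l := by
  intro u
  induction u with
  | nil =>
    intro g g' l N h hg
    simp only [cnt, Option.some.injEq] at h
    exact hg l h
  | cons p u ih =>
    obtain ⟨k, i⟩ := p
    intro g g' l N h hg
    simp only [cnt] at h
    split_ifs at h with h1
    refine act_congr k i _ _ l fun m hm => ?_
    have h2 : m.length = l.length - k.ins + k.outs := by omega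
    exact ih g g' m N (by rw [h2]; exact h) hg

/-- an involution of the colours -/
def inv (a : Col) : Col ≃ Col where
  toFun c := -(a + c)
  invFun c := -(a + c)
  left_inv c := by ring
  right_inv c := by ring

theorem col1 : ∀ a b c : Col, (a = -(b + c) ↔ -(a + b) = c) := by decide

theorem col2 : ∀ a b : Col, (-(a + b) = a ↔ a = b) := by decide

theorem col3 : ∀ a b : Col, (b = -(a + b) ↔ a = b) := by decide

theorem col4 : ∀ a : Col, -(a + a) = a := by decide

theorem col5 : ∀ a b : Col, -(-(a + b) + a) = b := by decide

theorem col6 : ∀ a b : Col, -(b + -(a + b)) = a := by decide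

theorem col7 : ∀ a b c : Col, -(-(a + b) + -(a + c)) = -(a + -(b + c)) := by decide

theorem m_zigzag (i : ℕ) : ∀ (g : List Col → ℕ) (l : List Col), i < l.length →
    act .cup i (fun m => act .cap (i + 1) g m) l = g l := by
  induction i with
  | zero =>
    intro g l hl
    rcases l with _ | ⟨a, l⟩
    · simp at hl
    · simp [act, loc]
  | succ i ih =>
    intro g l hl
    rcases l with _ | ⟨a, l⟩
    · simp at hl
    · exact ih (fun m => g (a :: m)) l (by simpa using hl)

theorem m_zagzig (i : ℕ) : ∀ (g : List Col → ℕ) (l : List Col), i < l.length →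
    act .cup (i + 1) (fun m => act .cap i g m) l = g l := by
  induction i with
  | zero =>
    intro g l hl
    rcases l with _ | ⟨a, l⟩
    · simp at hl
    · simp [act, loc]
  | succ i ih =>
    intro g l hl
    rcases l with _ | ⟨a, l⟩
    · simp at hl
    · exact ih (fun m => g (a :: m)) l (by simpa using hl)

theorem m_slideCap (e : Bool) (i : ℕ) : ∀ (g : List Col → ℕ) (l : List Col),
    act (.crs e) (i + 1) (fun m => act .cap i g m) l =
      act (.crs (!e)) i (fun m => act .cap (i + 1) g m) l := by
  induction i with
  | zero =>
    intro g l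
    cases e
    · rcases l with _ | ⟨a, _ | ⟨b, _ | ⟨c, l⟩⟩⟩
      · rfl
      · rfl
      · simp [act, loc]
      · simp only [act, loc, Bool.not_false]
        by_cases h : a = c
        · rw [if_pos h, if_pos h, h, add_comm b c]
        · rw [if_neg h, if_neg h]
    · rcases l with _ | ⟨a, _ | ⟨b, _ | ⟨c, l⟩⟩⟩
      · rfl
      · rfl
      · simp [act, loc]
      · simp only [act, loc, Bool.not_true, col1]
  | succ i ih =>
    intro g l
    rcases l with _ | ⟨a, l⟩
    · rfl
    · exact ih (fun m => g (a :: m)) l

theorem m_slideCup (e : Bool) (i : ℕ) : ∀ (g : List Col → ℕ) (l : List Col),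
    act .cup i (fun m => act (.crs e) (i + 1) g m) l =
      act .cup (i + 1) (fun m => act (.crs (!e)) i g m) l := by
  induction i with
  | zero =>
    intro g l
    cases e
    · rcases l with _ | ⟨a, l⟩
      · simp [act, loc]
      · simp only [act, loc, Bool.not_false]
        refine Fintype.sum_equiv (inv a) _ _ fun c => ?_
        have h1 : inv a c = -(a + c) := rfl
        have h2 : -(a + -(a + c)) = c := by ring
        rw [h1, h2, add_comm c a]
    · rcases l with _ | ⟨a, l⟩
      · simp [act, loc]
      · simp only [act, loc, Bool.not_true]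
        refine Finset.sum_congr rfl fun c _ => ?_
        rw [add_comm c a]
  | succ i ih =>
    intro g l
    rcases l with _ | ⟨a, l⟩
    · rfl
    · exact ih (fun m => g (a :: m)) l

theorem m_r1Cap (e : Bool) (i : ℕ) : ∀ (g : List Col → ℕ) (l : List Col),
    act (.crs e) i (fun m => act .cap i g m) l = act .cap i g l := by
  induction i with
  | zero =>
    intro g l
    cases e
    · rcases l with _ | ⟨a, _ | ⟨b, l⟩⟩
      · rfl
      · rfl
      · simp only [act, loc, col3]
    · rcases l with _ | ⟨a, _ | ⟨b, l⟩⟩
      · rfl
      · rfl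
      · simp only [act, loc, col2]
  | succ i ih =>
    intro g l
    rcases l with _ | ⟨a, l⟩
    · rfl
    · exact ih (fun m => g (a :: m)) l

theorem m_r1Cup (e : Bool) (i : ℕ) : ∀ (g : List Col → ℕ) (l : List Col),
    act .cup i (fun m => act (.crs e) i g m) l = act .cup i g l := by
  induction i with
  | zero =>
    intro g l
    cases e <;> simp only [act, loc, col4]
  | succ i ih =>
    intro g l
    rcases l with _ | ⟨a, l⟩
    · rfl
    · exact ih (fun m => g (a :: m)) l

theorem m_r2 (e : Bool) (i : ℕ) : ∀ (g : List Col → ℕ) (l : List Col), i + 2 ≤ l.length →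
    act (.crs e) i (fun m => act (.crs (!e)) i g m) l = g l := by
  induction i with
  | zero =>
    intro g l hl
    cases e
    · rcases l with _ | ⟨a, _ | ⟨b, l⟩⟩
      · simp at hl
      · simp at hl
      · simp only [act, loc, Bool.not_false, col6]
    · rcases l with _ | ⟨a, _ | ⟨b, l⟩⟩
      · simp at hl
      · simp at hl
      · simp only [act, loc, Bool.not_true, col5]
  | succ i ih =>
    intro g l hl
    rcases l with _ | ⟨a, l⟩
    · simp at hl
    · refine ih (fun m => g (a :: m)) l ?_
      simp only [List.length_cons] at hl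
      omega

theorem m_r3 (i : ℕ) : ∀ (g : List Col → ℕ) (l : List Col),
    act (.crs true) i (fun m => act (.crs true) (i + 1) (fun m => act (.crs true) i g m) m) l =
      act (.crs true) (i + 1) (fun m => act (.crs true) i
        (fun m => act (.crs true) (i + 1) g m) m) l := by
  induction i with
  | zero =>
    intro g l
    rcases l with _ | ⟨a, _ | ⟨b, _ | ⟨c, l⟩⟩⟩
    · rfl
    · rfl
    · simp [act, loc]
    · simp only [act, loc, col7]
  | succ i ih =>
    intro g l
    rcases l with _ | ⟨a, l⟩
    · rfl
    · exact ih (fun m => g (a :: m)) l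

/-- invariance under the local moves -/
theorem pull_move {a b : Diag} (hab : Move a b) (g : List Col → ℕ) (l : List Col)
    (ha : cnt l.length a ≠ none) : pull a g l = pull b g l := by
  cases hab with
  | far p q i k => exact far_aux p q k i g l
  | zigzag i =>
    refine m_zigzag i g l ?_
    by_contra hcon
    apply ha
    change (if i + 0 ≤ l.length then (if (i + 1) + 2 ≤ l.length - 0 + 2 then some _ else none)
      else none) = none
    rw [ite_eq_right_iff]
    intro h1
    rw [if_neg (by omega)]
  | zagzig i =>
    refine m_zagzig i g l ?_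
    by_contra hcon
    apply ha
    change (if (i + 1) + 0 ≤ l.length then (if i + 2 ≤ l.length - 0 + 2 then some _ else none)
      else none) = none
    rw [if_neg (by omega)]
  | slideCap i e => exact m_slideCap e i g l
  | slideCup i e => exact m_slideCup e i g l
  | r1Cap i e => exact m_r1Cap e i g l
  | r1Cup i e => exact m_r1Cup e i g l
  | r2 i e =>
    refine m_r2 e i g l ?_
    by_contra hcon
    apply ha
    change (if i + 2 ≤ l.length then (if i + 2 ≤ l.length - 2 + 2 then some _ else none)
      else none) = none
    rw [if_neg (by omega)]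
  | r3 i => exact m_r3 i g l

/-- The number of colourings with bottom colour `0`. -/
def col (w : Diag) : ℕ := pull w (fun _ => 1) [0]

theorem col_move {x y : {w : Diag // IsLongKnot w}} (h : MoveIn x y) : col x.1 = col y.1 := by
  obtain ⟨u, a, b, v, hab, hx, hy⟩ := h
  obtain ⟨lab, c, hk⟩ := x.2
  have h1 := run_cnt x.1 _ _ hk
  rw [hx] at h1 ⊢
  rw [hy]
  unfold col
  rw [List.append_assoc, cnt_append] at h1
  rw [List.append_assoc, List.append_assoc, pull_append, pull_append u (b ++ v)]
  cases hu : cnt 1 u with
  | none =>
    simp only at h1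
    rw [hu] at h1
    simp at h1
  | some N =>
    simp only at h1
    rw [hu] at h1
    simp only [Option.bind_some] at h1
    refine pull_congr u _ _ [0] N hu fun m hm => ?_
    rw [pull_append, pull_append b v]
    refine pull_move hab _ m ?_
    rw [hm]
    intro hcon
    rw [cnt_append, hcon] at h1
    simp at h1

/-- The number of colourings as an invariant of knots. -/
def colK : Knot → ℕ := Quot.lift (fun w => col w.1) fun _ _ h => col_move h

theorem colK_ofDiag (w : Diag) (h : IsLongKnot w) : colK (ofDiag w h) = col w := rfl

/-! ### The torus knots `T(2, n)` -/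

/-- crossings of two strands, of the given types -/
def bw2 (e : List Bool) : Diag := e.map fun b => (.crs b, 0)

/-- `T(2, n)`, with given types of crossings -/
def tor (e : List Bool) : Diag := (.cup, 1) :: (bw2 e ++ [(.cap, 1)])

/-- the exponent sum modulo three -/
def net : List Bool → Col
  | [] => 0
  | true :: e => net e + 1
  | false :: e => net e - 1

/-- a crossing is a permutation of order three of the pairs of colours -/
def rotc (n : Col) (c : Col) : Col × Col :=
  if n = 0 then (0, c) else if n = 1 then (-c, 0) else (c, -c)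

theorem rot1 : ∀ n c : Col, (-((rotc n c).1 + (rotc n c).2), (rotc n c).1) = rotc (n + 1) c := by
  decide

theorem rot2 : ∀ n c : Col, ((rotc n c).2, -((rotc n c).1 + (rotc n c).2)) = rotc (n - 1) c := by
  decide

theorem pull_bw2 (g : List Col → ℕ) (l : List Col) (c : Col) : ∀ (e : List Bool) (n : Col),
    pull (bw2 e) g ((rotc n c).1 :: (rotc n c).2 :: l) =
      g ((rotc (n + net e) c).1 :: (rotc (n + net e) c).2 :: l) := by
  intro e
  induction e with
  | nil => intro n; simp [bw2, pull, net]
  | cons b e ih =>
    intro n
    cases b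
    · have h1 : pull (bw2 (false :: e)) g ((rotc n c).1 :: (rotc n c).2 :: l) =
          pull (bw2 e) g ((rotc n c).2 :: -((rotc n c).1 + (rotc n c).2) :: l) := rfl
      have h2 := rot2 n c
      rw [Prod.ext_iff] at h2
      simp only at h2
      rw [h1, h2.2, h2.1, ih]
      have h3 : n - 1 + net e = n + net (false :: e) := by simp only [net]; ring
      rw [h3]
    · have h1 : pull (bw2 (true :: e)) g ((rotc n c).1 :: (rotc n c).2 :: l) =
          pull (bw2 e) g (-((rotc n c).1 + (rotc n c).2) :: (rotc n c).1 :: l) := rfl
      have h2 := rot1 n c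
      rw [Prod.ext_iff] at h2
      simp only at h2
      rw [h1, h2.1, h2.2, ih]
      have h3 : n + 1 + net e = n + net (true :: e) := by simp only [net]; ring
      rw [h3]

/-- the number of colourings of `T(2, n)` -/
def hn (n : Col) : ℕ := if n = 0 then 3 else 1

theorem sum_rot : ∀ n : Col, (∑ c : Col, if (rotc n c).2 = c then 1 else 0) = hn n := by
  decide

theorem col_tor (e : List Bool) : col (tor e) = hn (net e) := by
  have h1 : col (tor e) = ∑ c : Col, pull (bw2 e ++ [(.cap, 1)]) (fun _ => 1) [0, c, c] := rfl
  rw [h1, ← sum_rot]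
  refine Finset.sum_congr rfl fun c _ => ?_
  rw [pull_append]
  have h2 := pull_bw2 (fun m => pull [(.cap, 1)] (fun _ => 1) m) [c] c e 0
  have h3 : rotc 0 c = (0, c) := rfl
  rw [h3] at h2
  simp only at h2
  rw [h2, zero_add]
  rfl

theorem run_bw2 : ∀ (e : List Bool) (lab : ℕ → ℕ) (c : ℕ),
    run (bw2 e) (3, lab, c) = some (3, fun j => lab ((Equiv.swap 0 1)^[e.length] j), c) := by
  intro e
  induction e with
  | nil => intro lab c; rfl
  | cons b e ih =>
    intro lab c
    have h1 : run (bw2 (b :: e)) (3, lab, c) =
        run (bw2 e) (3, fun j => lab (Equiv.swap 0 1 j), c) := rfl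
    rw [h1, ih]
    congr 3
    funext j
    rw [List.length_cons, Function.iterate_succ_apply']

theorem swap_odd (m : ℕ) : ∀ j : ℕ, (Equiv.swap 0 1)^[2 * m + 1] j = Equiv.swap 0 1 j := by
  intro j
  rw [Function.iterate_succ_apply', Function.iterate_mul]
  congr 1
  have h : ∀ j : ℕ, ((Equiv.swap 0 1)^[2]) j = j := fun j => by simp
  induction m with
  | zero => rfl
  | succ m ih => rw [Function.iterate_succ_apply', ih, h]

/-- For an odd number of crossings this is a knot. -/
theorem isLongKnot_tor (e : List Bool) (h : Odd e.length) : IsLongKnot (tor e) := by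
  obtain ⟨m, hm⟩ := h
  have h1 : run (tor e) (1, fun _ => 0, 1) =
      (run (bw2 e) (3, fun j => if j < 1 then 0 else if j < 3 then 1 else 0, 2)).bind
        (run [(.cap, 1)]) := by
    have h2 : run (tor e) (1, fun _ => 0, 1) =
      run (bw2 e ++ [(.cap, 1)]) (3, fun j => if j < 1 then 0 else if j < 3 then 1 else 0, 2) := rfl
    rw [h2, run_append]
  rw [run_bw2, hm] at h1
  simp only [swap_odd, Option.bind_some] at h1
  exact ⟨_, _, h1.trans rfl⟩

/-! ### The number of colourings is not of finite type -/

/-- the difference operator -/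
def D (h : Col → ℚ) (n : Col) : ℚ := h (n + 1) - h (n - 1)

theorem D_sub (f g : Col → ℚ) : D (f - g) = D f - D g := by
  funext n
  simp only [D, Pi.sub_apply]
  ring

theorem D_iter_sub (K : ℕ) : ∀ f g : Col → ℚ, D^[K] (f - g) = D^[K] f - D^[K] g := by
  induction K with
  | zero => intro f g; rfl
  | succ K ih =>
    intro f g
    rw [Function.iterate_succ_apply, Function.iterate_succ_apply, Function.iterate_succ_apply, D_sub,
      ih]

theorem D_iter_shift (K : ℕ) (r : Col) : ∀ h : Col → ℚ,
    D^[K] (fun n => h (n + r)) = fun n => D^[K] h (n + r) := by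
  induction K with
  | zero => intro h; rfl
  | succ K ih =>
    intro h
    rw [Function.iterate_succ_apply, Function.iterate_succ_apply, ← ih]
    congr 1
    funext n
    simp only [D]
    congr 2 <;> ring

theorem resolve_inl : ∀ (w : Diag) (F : Diag → ℚ), resolve F (w.map Sum.inl) = F w := by
  intro w
  induction w with
  | nil => intro F; rfl
  | cons p w ih => intro F; exact ih _

theorem resolve_twist (w : Diag) : ∀ (K : ℕ) (F : Diag → ℚ) (h : Col → ℚ),
    (∀ e : List Bool, e.length = K → F (bw2 e ++ w) = h (net e)) →
    resolve F (List.replicate K (Sum.inr 0) ++ w.map Sum.inl) = D^[K] h 0 := by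
  intro K
  induction K with
  | zero =>
    intro F h hF
    have h1 := hF [] rfl
    simp only [bw2, List.map_nil, List.nil_append, net] at h1
    simp only [List.replicate_zero, List.nil_append, Function.iterate_zero, id]
    rw [resolve_inl, h1]
  | succ K ih =>
    intro F h hF
    have h1 : resolve F (List.replicate (K + 1) (Sum.inr 0) ++ w.map Sum.inl) =
        resolve (fun w => F ((.crs true, 0) :: w)) (List.replicate K (Sum.inr 0) ++ w.map Sum.inl) -
        resolve (fun w => F ((.crs false, 0) :: w))
          (List.replicate K (Sum.inr 0) ++ w.map Sum.inl) := rfl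
    rw [h1, ih _ (fun n => h (n + 1)) (fun e he => hF (true :: e) (by simp [he])),
      ih _ (fun n => h (n - 1)) (fun e he => hF (false :: e) (by simp [he])),
      Function.iterate_succ_apply]
    have h2 : D h = (fun n => h (n + 1)) - fun n => h (n - 1) := rfl
    rw [h2, D_iter_sub]
    rfl

theorem dbl_append : ∀ s t : SDiag, dbl (s ++ t) = dbl s + dbl t := by
  intro s
  induction s with
  | nil => intro t; simp [dbl]
  | cons a s ih =>
    intro t
    cases a with
    | inl p => exact ih t
    | inr i =>
      have h1 := ih t
      simp only [List.cons_append, dbl]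
      omega

theorem dbl_inl : ∀ w : Diag, dbl (w.map Sum.inl) = 0 := by
  intro w
  induction w with
  | nil => rfl
  | cons p w ih => exact ih

theorem dbl_inr : ∀ K : ℕ, dbl (List.replicate K (Sum.inr 0)) = K := by
  intro K
  induction K with
  | zero => rfl
  | succ K ih =>
    rw [List.replicate_succ]
    simp only [dbl]
    omega

theorem D_const (g : Col → ℚ) (h : ∀ n, D g n = 0) : ∀ n, g n = g 0 := by
  have h1 : g 2 - g 0 = 0 := h 1
  have h2 : g 0 - g 1 = 0 := h 2
  intro n
  have h3 : n = 0 ∨ n = 1 ∨ n = 2 := by revert n; decide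
  rcases h3 with rfl | rfl | rfl
  · rfl
  · linarith
  · linarith

theorem D_sum (g : Col → ℚ) : D g 0 + D g 1 + D g 2 = 0 := by
  have h0 : D g 0 = g 1 - g 2 := rfl
  have h1 : D g 1 = g 2 - g 0 := rfl
  have h2 : D g 2 = g 0 - g 1 := rfl
  rw [h0, h1, h2]
  ring

/-- the number of colourings as a rational valued function -/
def hq (n : Col) : ℚ := hn n

theorem D_iter_ne (K : ℕ) : ¬ ∀ n, D^[K + 1] hq n = 0 := by
  induction K with
  | zero =>
    intro h
    have h1 := D_const hq h 1
    have h2 : hq 1 = 1 := rfl
    have h3 : hq 0 = 3 := rfl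
    rw [h2, h3] at h1
    norm_num at h1
  | succ K ih =>
    intro h
    apply ih
    have h1 : ∀ n, D (D^[K + 1] hq) n = 0 := by
      intro n
      have h5 : D^[K + 1 + 1] hq = D (D^[K + 1] hq) := Function.iterate_succ_apply' _ _ _
      rw [← h5]
      exact h n
    have h2 := D_const _ h1
    have h3 : D^[K + 1] hq = D (D^[K] hq) := Function.iterate_succ_apply' _ _ _
    have h4 := D_sum (D^[K] hq)
    rw [← h3, h2 1, h2 2] at h4
    intro n
    rw [h2 n]
    linarith

/-- The number of colourings is not of finite type. -/
theorem not_finite_type : ¬ IsFiniteType (fun K : Knot => (colK K : ℚ)) := by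
  rintro ⟨k, hk⟩
  apply D_iter_ne k
  intro n
  -- the number of further crossings
  let r0 : ℕ := k % 2
  let j : ℕ := (2 * (n - (r0 : Col))).val
  have hr : (((r0 + 2 * j : ℕ) : ℕ) : Col) = n := by
    push_cast
    rw [ZMod.natCast_zmod_val]
    have h3 : (4 : Col) = 1 := by decide
    linear_combination (n - (r0 : Col)) * h3
  have hodd : Odd (k + 1 + (r0 + 2 * j)) := by
    rw [Nat.odd_iff]
    have : r0 = k % 2 := rfl
    omega
  have h1 := hk (Sum.inl (.cup, 1) :: (List.replicate (k + 1) (Sum.inr 0) ++
    (bw2 (List.replicate (r0 + 2 * j) true) ++ [(Kind.cap, 1)]).map Sum.inl)) (by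
      simp only [dbl]
      rw [dbl_append, dbl_inl, dbl_inr])
  have hnet : ∀ m : ℕ, net (List.replicate m true) = m := by
    intro m
    induction m with
    | zero => rfl
    | succ m ih => rw [List.replicate_succ]; simp only [net]; rw [ih]; push_cast; ring
  have hnetapp : ∀ e e' : List Bool, net (e ++ e') = net e + net e' := by
    intro e e'
    induction e with
    | nil => simp [net]
    | cons b e ih => cases b <;> simp only [List.cons_append, net, ih] <;> ring
  have h2 := resolve_twist (bw2 (List.replicate (r0 + 2 * j) true) ++ [(.cap, 1)]) (k + 1)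
    (fun w => onDiags (fun K : Knot => (colK K : ℚ)) ((.cup, 1) :: w))
    (fun m => hq (m + ((r0 + 2 * j : ℕ) : Col))) (by
      intro e he
      have h3 : (Kind.cup, 1) :: (bw2 e ++ (bw2 (List.replicate (r0 + 2 * j) true) ++
          [(Kind.cap, 1)])) = tor (e ++ List.replicate (r0 + 2 * j) true) := by
        unfold tor bw2
        rw [List.map_append, List.append_assoc]
      have h4 : IsLongKnot (tor (e ++ List.replicate (r0 + 2 * j) true)) := by
        apply isLongKnot_tor
        rw [List.length_append, he, List.length_replicate]
        exact hodd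
      rw [h3, onDiags_of h4, colK_ofDiag, col_tor, hnetapp, hnet]
      rfl)
  have h5 : D^[k + 1] (fun m => hq (m + ((r0 + 2 * j : ℕ) : Col))) 0 = 0 := h2.symm.trans h1
  rw [D_iter_shift, hr] at h5
  have h6 : D^[k + 1] hq (0 + n) = 0 := h5
  rwa [zero_add] at h6

/-! ### Unknot and trefoil -/

theorem isLongKnot_nil : IsLongKnot [] := ⟨_, _, rfl⟩

/-- the unknot -/
def unknot : Knot := ofDiag [] isLongKnot_nil

/-- the trefoil -/
def trefoil : Knot := ofDiag (tor [true, true, true]) (isLongKnot_tor _ ⟨1, rfl⟩)

theorem unknot_ne_trefoil : unknot ≠ trefoil := by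
  intro h
  have h1 : col [] = col (tor [true, true, true]) := congrArg colK h
  rw [col_tor] at h1
  have h2 : (1 : ℕ) = 3 := h1
  omega

end Pool.Agent.VAC2
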