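import Pool.Agent.CUB.BR1

/-!
# Certificate for MP_3af9db_ag / LowDegreeEquations (vacuity audit, pass 2)

1. `Chow` is not a trivial definition: the Chow group of points of `Spec k` is not zero.
2. The hypotheses of the theorem are satisfied for `R = k`, `n = 2`, `r = 1`, `f = x_0 ^ 2`, `d = 2`,
`l = j = 0`, and there are points of dimension `0` on this `X`, so the group of cycles is not zero before
passing to rational equivalence: the conclusion is a real condition.
-/

set_option autoImplicit false

open Polynomial CategoryTheory AlgebraicGeometry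

namespace Pool.Agent.VAC2.LowDegreeEquationsCert

open Pool.Agent.Lib_helper55.Beil CUB

variable (k E : Type) [Field k] [Field E]

theorem rdim_zero {A : Type} [CommRing A] [Algebra k A] (p : PrimeSpectrum A)
    (h : Function.Surjective (algebraMap k (A ⧸ p.asIdeal))) : rdim k p = (0 : ℕ) := by
  unfold rdim
  have h1 : Algebra.IsAlgebraic k (A ⧸ p.asIdeal) := by
    refine ⟨fun x => ?_⟩
    obtain ⟨y, rfl⟩ := h x
    exact isAlgebraic_algebraMap y
  rw [_root_.trdeg_eq_zero]
  simp

theorem dim_point (x : (aff k k).X) : (aff k k).dim x = (0 : ℕ) := by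
  have h := dim_toPt (k := k) (A := k) (ofPt x)
  rw [toPt_ofPt] at h
  rw [h]
  exact rdim_zero k _ Ideal.Quotient.mk_surjective

/-- The Chow group of points of `Spec k` is not zero. -/
theorem chow_point : ¬ Subsingleton (Chow E 0 (aff k k)) := by
  have h1 : ratZero E 0 (aff k k) = ⊥ := by
    unfold ratZero
    rw [Submodule.span_eq_bot]
    rintro c ⟨W, hW, a, φ, hdim, -, -⟩
    exfalso
    have := a.closed
    have h2 := dim_map a.g a.comm (genericPoint W.X)
    rw [dim_point, hdim] at h2
    have h3 := Nat.cast_injective (R := Cardinal) h2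
    omega
  intro h
  have h4 : Subsingleton (Pts 0 (aff k k) →₀ E) := by
    have e := Submodule.quotEquivOfEqBot _ h1
    exact e.symm.injective.subsingleton
  have p : Pts 0 (aff k k) := ⟨toPt ⟨⊥, Ideal.isPrime_bot⟩, dim_point k _⟩
  have h5 : Finsupp.single p (1 : E) = 0 := Subsingleton.elim _ _
  rw [Finsupp.single_eq_zero] at h5
  exact one_ne_zero h5

/-- the polynomial `x_0 ^ 2` in two variables -/
noncomputable def f : Fin 1 → MvPolynomial (Fin 2) k := fun _ => MvPolynomial.X 0 ^ 2

/-- the hypotheses of the theorem for `l = 0` -/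
theorem hyp : (∀ i : Fin 1, 1 ≤ (fun _ : Fin 1 => 2) i) ∧
    (∀ i, (f k i).totalDegree ≤ (fun _ : Fin 1 => 2) i) ∧
    0 + ∑ i : Fin 1, (0 + (fun _ : Fin 1 => 2) i - 1).choose 0 < 2 ∧
    ∃ i : Fin 1, 2 ≤ (fun _ : Fin 1 => 2) i := by
  refine ⟨fun _ => by norm_num, fun i => ?_, by simp, 0, le_rfl⟩
  unfold f
  refine (MvPolynomial.totalDegree_pow _ _).trans ?_
  rw [MvPolynomial.totalDegree_X]

/-- there are points of dimension zero -/
theorem cycles : ¬ Subsingleton
    (Pts 0 (aff k (MvPolynomial (Fin 2) k ⧸ Ideal.span (Set.range (f k)))) →₀ E) := by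
  let A := MvPolynomial (Fin 2) k ⧸ Ideal.span (Set.range (f k))
  let g : A →ₐ[k] k := Ideal.Quotient.liftₐ _ (MvPolynomial.aeval fun _ => (0 : k)) (by
    intro x hx
    have h1 : Ideal.span (Set.range (f k)) ≤
        RingHom.ker (MvPolynomial.aeval fun _ : Fin 2 => (0 : k)).toRingHom := by
      rw [Ideal.span_le]
      rintro _ ⟨i, rfl⟩
      simp [f, RingHom.mem_ker]
    exact h1 hx)
  let p : PrimeSpectrum A := ⟨RingHom.ker g.toRingHom, RingHom.ker_isPrime _⟩
  have hs : Function.Surjective (algebraMap k (A ⧸ p.asIdeal)) := by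
    intro x
    obtain ⟨y, rfl⟩ := Ideal.Quotient.mk_surjective x
    refine ⟨g y, ?_⟩
    have h2 : algebraMap k (A ⧸ p.asIdeal) (g y) =
        Ideal.Quotient.mk p.asIdeal (algebraMap k A (g y)) := rfl
    rw [h2, Ideal.Quotient.eq]
    change g (algebraMap k A (g y) - y) = 0
    rw [map_sub, AlgHom.commutes]
    simp
  intro h
  let x : Pts 0 (aff k A) := ptE 0 ⟨p, rdim_zero k p hs⟩
  have h5 : Finsupp.single x (1 : E) = 0 := Subsingleton.elim _ _
  rw [Finsupp.single_eq_zero] at h5
  exact one_ne_zero h5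

end Pool.Agent.VAC2.LowDegreeEquationsCert
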