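import Pool.Agent.Results.MP_153864_lc.WeaklyReadOnceLinearModes

/-!
# Certificate: the statement `WeaklyReadOnceLinearModes` is neither vacuous nor trivial

(a) Every set of inputs is decided by an ordinary read-once program (a decision tree), so all classes
`ByOrd`, `ByLBP` and all the modes over them contain every set for large size, and there is a
nondeterministic linear program for `PolZero` which satisfies all the hypotheses of (2), for all
`t`, `m`, `k`. (b) `PolZero` and `tri` are not constant. (c) Explicit numbers: the lower bounds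
exceed the square of the number of the variables.
-/

set_option autoImplicit false

namespace Pool.Agent.VAC2.WeaklyReadOnceLinearModes

open Pool.Agent.WRA Module
open Pool.Agent.WRL (Prog)
open Pool.Agent.UM (InPP InParity InPSPACE InGap)

section Tree

variable {I : Type} {n : ℕ} (e : I ≃ Fin n) (L : (I → ZMod 2) → Prop)

open Classical in
/-- The decision tree which reads all the variables in a fixed order. -/
noncomputable def tree : LBP (I → ZMod 2) where
  V := {l : List (ZMod 2) // l.length ≤ n}
  fin := (List.finite_length_le (ZMod 2) n).fintype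
  start := ⟨[], Nat.zero_le n⟩
  leaf := fun l => if l.1.length < n then none else some (decide (L fun i => l.1.getD (e i) 0))
  form := fun l => if h : l.1.length < n then LinearMap.proj (e.symm ⟨l.1.length, h⟩) else 0
  next := fun l b => if h : l.1.length < n then ⟨l.1 ++ [b], by simpa using h⟩ else l
  height := fun l => n - l.1.length
  dec := by
    intro l b h
    by_cases h1 : l.1.length < n
    · rw [dif_pos h1]
      have h2 : (l.1 ++ [b]).length = l.1.length + 1 := by simp
      change n - (l.1 ++ [b]).length < n - l.1.length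
      omega
    · rw [if_neg h1] at h
      exact absurd h (by simp)

/-- The value of the variable number `j`. -/
def val (x : I → ZMod 2) (j : ℕ) : ZMod 2 := if h : j < n then x (e.symm ⟨j, h⟩) else 0

lemma iter (x : I → ZMod 2) (t : ℕ) :
    (((tree e L).step x)^[t] (tree e L).start).1 = (List.range (min t n)).map (val e x) := by
  induction t with
  | zero => simp [tree]
  | succ t ih =>
    rw [Function.iterate_succ_apply']
    set u := ((tree e L).step x)^[t] (tree e L).start with hu
    have hlen : u.1.length = min t n := by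
      rw [ih]
      simp
    by_cases h : t < n
    · have h1 : u.1.length < n := by omega
      have h2 : (tree e L).leaf u = none := if_pos h1
      have h3 : (tree e L).step x u = (tree e L).next u ((tree e L).form u x) := by
        unfold LBP.step
        rw [if_pos h2]
      have h4 : (tree e L).next u ((tree e L).form u x) =
          (⟨u.1 ++ [(tree e L).form u x], by simpa using h1⟩ :
            {l : List (ZMod 2) // l.length ≤ n}) := dif_pos h1
      have h5 : (tree e L).form u = LinearMap.proj (e.symm ⟨u.1.length, h1⟩) := dif_pos h1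
      have h6 : (tree e L).form u x = val e x t := by
        rw [h5, val, dif_pos h, LinearMap.proj_apply]
        congr 2
        apply Fin.ext
        change u.1.length = t
        omega
      rw [h3, h4]
      change u.1 ++ [(tree e L).form u x] = _
      have h7 : min (t + 1) n = min t n + 1 := by omega
      have h8 : min t n = t := by omega
      rw [ih, h6, h7, List.range_succ, List.map_append, List.map_singleton, h8]
    · have h1 : ¬ u.1.length < n := by omega
      have h2 : (tree e L).leaf u ≠ none := by
        have h3 : (tree e L).leaf u = _ := if_neg h1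
        rw [h3]
        simp
      have h3 : (tree e L).step x u = u := by
        unfold LBP.step
        rw [if_neg h2]
      rw [h3, ih]
      congr 2
      omega

lemma accepts (x : I → ZMod 2) : (tree e L).Accepts x ↔ L x := by
  classical
  have key : ∀ u : (tree e L).V, u.1 = (List.range n).map (val e x) →
      (tree e L).leaf u = some (decide (L x)) := by
    intro u hu
    have h1 : ¬ u.1.length < n := by rw [hu]; simp
    have h2 : (tree e L).leaf u = some (decide (L fun i => u.1.getD (e i) 0)) := if_neg h1
    have h3 : (fun i => u.1.getD (e i) 0) = x := by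
      funext i
      rw [hu, List.getD_eq_getElem?_getD, List.getElem?_map,
        List.getElem?_range (e i).2]
      simp [val]
    rw [h2, h3]
  constructor
  · rintro ⟨u, ⟨t, ht⟩, hu⟩
    have h1 : u.1 = (List.range (min t n)).map (val e x) := by
      rw [← ht]
      exact iter e L x t
    have h2 : ¬ u.1.length < n := by
      intro h3
      have h4 : (tree e L).leaf u = none := if_pos h3
      rw [h4] at hu
      exact absurd hu (by simp)
    have h3 : min t n = n := by
      rw [h1] at h2
      simp at h2
      omega
    rw [h3] at h1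
    rw [key u h1] at hu
    exact of_decide_eq_true (Option.some.inj hu)
  · intro h
    refine ⟨_, ⟨n, rfl⟩, ?_⟩
    have h1 := iter e L x n
    rw [min_self] at h1
    rw [key _ h1, decide_eq_true h]

lemma reach_len {u v : (tree e L).V} (h : (tree e L).Reach u v) : u.1.length ≤ v.1.length := by
  induction h with
  | refl => exact le_rfl
  | @tail a b _ hs ih =>
    obtain ⟨h1, c, rfl⟩ := hs
    refine ih.trans ?_
    by_cases h2 : a.1.length < n
    · have h3 : (tree e L).next a c = (⟨a.1 ++ [c], by simpa using h2⟩ :
          {l : List (ZMod 2) // l.length ≤ n}) := dif_pos h2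
      rw [h3]
      simp
    · have h3 : (tree e L).leaf a = _ := if_neg h2
      rw [h3] at h1
      exact absurd h1 (by simp)

lemma readOnce : (tree e L).ReadOnce := by
  classical
  intro v _ hl hmem
  have hv : v.1.length < n := by
    by_contra h
    have h3 : (tree e L).leaf v = _ := if_neg h
    rw [h3] at hl
    exact absurd hl (by simp)
  set x : I → ZMod 2 := Pi.single (e.symm ⟨v.1.length, hv⟩) 1 with hx
  have h1 : (tree e L).Pre v ≤ LinearMap.ker (Module.Dual.eval (ZMod 2) (I → ZMod 2) x) := by
    unfold LBP.Pre
    rw [Submodule.span_le]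
    rintro l ⟨u, b, -, hu, hr, rfl⟩
    have h2 : u.1.length < n := by
      by_contra h
      have h3 : (tree e L).leaf u = _ := if_neg h
      rw [h3] at hu
      exact absurd hu (by simp)
    have h3 : (tree e L).next u b = (⟨u.1 ++ [b], by simpa using h2⟩ :
        {l : List (ZMod 2) // l.length ≤ n}) := dif_pos h2
    have h4 := reach_len e L hr
    rw [h3] at h4
    have h5 : (u.1 ++ [b]).length = u.1.length + 1 := by simp
    change (u.1 ++ [b]).length ≤ v.1.length at h4
    have h6 : (tree e L).form u = LinearMap.proj (e.symm ⟨u.1.length, h2⟩) := dif_pos h2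
    rw [h6]
    change x (e.symm ⟨u.1.length, h2⟩) = 0
    rw [hx, Pi.single_eq_of_ne]
    intro h7
    have h8 := congrArg Fin.val (e.symm.injective h7)
    change u.1.length = v.1.length at h8
    omega
  have h2 := h1 hmem
  have h3 : (tree e L).form v = LinearMap.proj (e.symm ⟨v.1.length, hv⟩) := dif_pos hv
  rw [h3] at h2
  change x (e.symm ⟨v.1.length, hv⟩) = 0 at h2
  rw [hx, Pi.single_eq_same] at h2
  exact one_ne_zero h2

end Tree

/-- (a) Every set of inputs is decided by an ordinary read-once program. -/
theorem every_set (I : Type) [Finite I] (L : (I → ZMod 2) → Prop) : ∃ s, ByOrd I s L := by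
  obtain ⟨n, ⟨e⟩⟩ := Finite.exists_equiv_fin I
  refine ⟨(tree e L).size, tree e L, readOnce e L, ?_, le_rfl, fun x => (accepts e L x).symm⟩
  intro v hl
  have hv : v.1.length < n := by
    by_contra h
    have h3 : (tree e L).leaf v = _ := if_neg h
    rw [h3] at hl
    exact absurd hl (by simp)
  exact ⟨e.symm ⟨v.1.length, hv⟩, dif_pos hv⟩

/-- (a) Every set of inputs is decided by a linear program with `Near k`, for all `k`. -/
theorem every_set_near (I : Type) [Finite I] (k : ℕ) (L : (I → ZMod 2) → Prop) :
    ∃ s, ByLBP I k s L := by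
  obtain ⟨s, P, h1, -, h2, h3⟩ := every_set I L
  exact ⟨s, P, LBP.near_mono _ (Nat.zero_le k) (LBP.near_zero _ h1), h2, h3⟩

/-- (a) The hypotheses on the nondeterministic programs in (2) can be satisfied. -/
theorem exists_prog (t m k : ℕ) :
    ∃ P : Prog (Option (Fin (t + m) ⊕ Fin (t + m)) → ZMod 2),
      ((∀ z, P.Acc z ↔ PolZero t m z) ∨ ∀ z, P.Acc z ↔ ¬ PolZero t m z) ∧
      ∀ z, P.Acc z → P.AccTop k z ∨ P.AccBot k z := by
  obtain ⟨s, Q, h0, -, -, h2⟩ := every_set _ (PolZero t m)
  have h1 : ∀ z, finrank (ZMod 2) (Q.RedTop z) ≤ k := by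
    intro z
    have h3 : Q.RedTop z = ⊥ := by
      unfold LBP.RedTop
      rw [Submodule.span_eq_bot]
      rintro l ⟨u, hu, hl, hmem, rfl⟩
      exact absurd hmem (h0 u (Q.visits_reach hu) hl)
    rw [h3, finrank_bot]
    exact Nat.zero_le k
  have h4 : ∀ z, Q.Accepts z → (union fun _ : Unit => Q).AccTop k z := fun z hz =>
    union_top (fun _ : Unit => Q) z () hz (h1 z)
  refine ⟨union fun _ : Unit => Q, Or.inl fun z => ?_, fun z hz => ?_⟩
  · rw [h2 z]
    constructor
    · intro h
      obtain ⟨_, h3⟩ := union_acc (fun _ : Unit => Q) z h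
      exact h3
    · intro h
      exact Prog.accTop_acc _ (h4 z h)
  · obtain ⟨_, h3⟩ := union_acc (fun _ : Unit => Q) z hz
    exact Or.inl (h4 z h3)

/-- (b) `PolZero` takes both values. -/
theorem polZero_not_const (t m : ℕ) : (∃ z, PolZero t m z) ∧ ∃ z, ¬ PolZero t m z := by
  have h0 : Pool.Agent.WRL.CoeffZero t m fun _ => 0 := by
    intro l _ _
    simp [Pool.Agent.WRL.poly]
  constructor
  · exact ⟨fun i => i.elim 1 fun _ => 0, ⟨fun _ => h0, fun _ => rfl⟩⟩
  · refine ⟨fun _ => 0, fun h => ?_⟩
    have h1 : (0 : ZMod 2) = 1 := h.2 h0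
    exact absurd h1 (by decide)

/-- (b) `tri` takes both values (from the average-case bound, for the constant programs). -/
theorem tri_not_const (α : Module.Basis (Fin 15) (ZMod 2) (GaloisField 2 15)) :
    (∃ z, tri α z = 1) ∧ ∃ z, tri α z ≠ 1 := by
  obtain ⟨-, -, h⟩ := Pool.Agent.Results.MP_153864_lc.WeaklyReadOnceLinearModes.result
  have h1 := (h 15 2 0 (by norm_num) α).2.2.2
  have hcard : Nat.card (Fin 3 × Fin 15 → ZMod 2) = 2 ^ 45 := by
    simp [Nat.card_eq_fintype_card]
  have key : ∀ b : Bool, Nat.card {z : Fin 3 × Fin 15 → ZMod 2 // (b = true) ↔ tri α z = 1} <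
      2 ^ 45 := by
    intro b
    have h2 := h1 (LBP.one _ b) (LBP.near_zero _ (LBP.one_readOnce b))
    rw [LBP.one_size] at h2
    have h3 : Nat.card {z // (LBP.one (Fin 3 × Fin 15 → ZMod 2) b).Accepts z ↔ tri α z = 1} =
        Nat.card {z : Fin 3 × Fin 15 → ZMod 2 // (b = true) ↔ tri α z = 1} :=
      Nat.card_congr (Equiv.subtypeEquivRight fun z => by rw [LBP.one_accepts])
    rw [h3] at h2
    norm_num at h2 ⊢
    omega
  constructor
  · by_contra hcon
    push Not at hcon
    refine absurd (key false) (not_lt.2 (le_of_eq ?_))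
    rw [← hcard]
    exact (Nat.card_congr (Equiv.subtypeUnivEquiv fun z => by simp [hcon z])).symm
  · by_contra hcon
    push Not at hcon
    refine absurd (key true) (not_lt.2 (le_of_eq ?_))
    rw [← hcard]
    exact (Nat.card_congr (Equiv.subtypeUnivEquiv fun z => by simp [hcon z])).symm

/-- (c) Numbers for (2): `649` variables; in NP or coNP mode with `10` bits more than `60000` nodes are
needed (`Near 0`), every nondeterministic program has more than `6 * 10 ^ 7` nodes, and such programs
exist; in PP mode `8` bits and ordinary read-once programs with `2600` nodes are enough. -/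
theorem numbers_two :
    InPP (ByOrd (Option (Fin (284 + 40) ⊕ Fin (284 + 40))) (8 * (284 + 40 + 1)))
      (Nat.clog 2 (4 * 40)) (PolZero 284 40) ∧
    (∀ s : ℕ, InNP (ByLBP (Option (Fin (284 + 40) ⊕ Fin (284 + 40))) 0 s) 10 (PolZero 284 40) ∨
      InCoNP (ByLBP (Option (Fin (284 + 40) ⊕ Fin (284 + 40))) 0 s) 10 (PolZero 284 40) →
        60000 < s) ∧
    ∀ P : Prog (Option (Fin (284 + 40) ⊕ Fin (284 + 40)) → ZMod 2),
      ((∀ z, P.Acc z ↔ PolZero 284 40 z) ∨ ∀ z, P.Acc z ↔ ¬ PolZero 284 40 z) →
      (∀ z, P.Acc z → P.AccTop 0 z ∨ P.AccBot 0 z) → 6 * 10 ^ 7 < P.size := by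
  obtain ⟨-, h, -⟩ := Pool.Agent.Results.MP_153864_lc.WeaklyReadOnceLinearModes.result
  obtain ⟨h1, h2, h3⟩ := h 284 40 0 (by norm_num) (by norm_num)
  refine ⟨h1, fun s hs => ?_, fun P hP hP' => ?_⟩
  · have h4 := h3 s 10 hs
    norm_num [Finset.sum_range_succ] at h4
    omega
  · have h4 := h2 P hP hP'
    norm_num [Finset.sum_range_succ] at h4
    omega

/-- (c) Numbers for (3): `369` variables; in parity mode `21` bits and `8` nodes are enough; in PP mode
with `9` bits more than `290` nodes per member (`148480` in total) are needed. -/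
theorem numbers_three (α : Module.Basis (Fin 123) (ZMod 2) (GaloisField 2 123)) :
    InParity (ByOrd (Fin 3 × Fin 123) 8) (Nat.clog 2 (123 ^ 3)) (fun z => tri α z = 1) ∧
    ¬ InPP (ByLBP (Fin 3 × Fin 123) 0 290) 9 (fun z => tri α z = 1) := by
  obtain ⟨-, -, h⟩ := Pool.Agent.Results.MP_153864_lc.WeaklyReadOnceLinearModes.result
  obtain ⟨h1, -, h2, -⟩ := h 123 20 0 (by norm_num) α
  refine ⟨h1, fun h3 => ?_⟩
  have h4 := h2 290 9 (Or.inl h3)
  norm_num at h4

/-- (a) The bases in (3) exist. -/
theorem basis_exists (n : ℕ) (hn : n ≠ 0) :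
    Nonempty (Module.Basis (Fin n) (ZMod 2) (GaloisField 2 n)) :=
  ⟨Module.finBasisOfFinrankEq (ZMod 2) (GaloisField 2 n) (GaloisField.finrank 2 hn)⟩

/-- (a) The modes over linear programs contain all sets for large size, so the lower bounds are
bounds for something that exists. -/
theorem modes_nonempty (t m k W : ℕ) : ∃ s,
    InNP (ByLBP (Option (Fin (t + m) ⊕ Fin (t + m))) k s) W (PolZero t m) ∧
    InCoNP (ByLBP (Option (Fin (t + m) ⊕ Fin (t + m))) k s) W (PolZero t m) := by
  obtain ⟨s, hs⟩ := every_set_near (Option (Fin (t + m) ⊕ Fin (t + m))) k (PolZero t m)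
  have h0 : Nonempty (Fin (2 ^ W)) := ⟨⟨0, Nat.two_pow_pos W⟩⟩
  exact ⟨s, ⟨fun _ => PolZero t m, fun _ => hs, fun x => ⟨fun h => ⟨h0.some, h⟩,
      fun ⟨_, h⟩ => h⟩⟩,
    ⟨fun _ => PolZero t m, fun _ => hs, fun x => ⟨fun h _ => h, fun h => h h0.some⟩⟩⟩

end Pool.Agent.VAC2.WeaklyReadOnceLinearModes
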