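import Pool.Agent.URG.Defs

/-!
# Certificate for `MP_153864_lc/UnrestrictedGuesses` (vacuity audit)

* `sat`: every set of inputs is decided in `N` steps by a machine of the model that reads one bit at
  once and guesses nothing (its states are the partial inputs), so the hypotheses of (1) hold for some
  machine as soon as `1 ≤ c N`; the same for the complement.
* `nonconstant`: the conclusion of (1) for one value of the parameters (`s = 0`, one state) already
  says that the function takes both values.
-/

set_option autoImplicit false

namespace Pool.Agent.VAC2.UnrestrictedGuesses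

open Pool.Agent.URG Pool.Agent.HPM

theorem sat (I : Type) [Fintype I] [Nonempty I] (L : (I → Bool) → Prop) :
    InNPg 1 0 I (I → Bool) (Fintype.card I) L := by
  classical
  let e : I ≃ Fin (Fintype.card I) := Fintype.equivFin I
  let M : GMachs 1 0 I (I → Bool) :=
    { start := fun _ => false
      query := fun t _ _ => if h : t < Fintype.card I then e.symm ⟨t, h⟩ else Classical.arbitrary I
      next := fun t v a _ => fun i => if (e i).1 = t then a 0 else v i
      acc := L }
  have key : ∀ (x : I → Bool) (c : ℕ → Fin 0 → Bool) (t : ℕ), t ≤ Fintype.card I →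
      M.state x c t = fun i => if (e i).1 < t then x i else false := by
    intro x c t
    induction t with
    | zero => intro _; funext i; simp [GMachs.state, M]
    | succ t ih =>
      intro ht
      have h1 := ih (by omega)
      have h2 : t < Fintype.card I := ht
      funext i
      change (if (e i).1 = t then x (M.query t (M.state x c t) 0) else M.state x c t i) = _
      rw [h1]
      have hq : M.query t (fun i => if (e i).1 < t then x i else false) 0 = e.symm ⟨t, h2⟩ := by
        change (if h : t < Fintype.card I then e.symm ⟨t, h⟩ else Classical.arbitrary I) = _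
        rw [dif_pos h2]
      rw [hq]
      by_cases h3 : (e i).1 = t
      · have h4 : e.symm ⟨t, h2⟩ = i := by
          rw [Equiv.symm_apply_eq]
          exact Fin.ext h3.symm
        rw [if_pos h3, h4, if_pos (by omega)]
      · rw [if_neg h3]
        change (if (e i).1 < t then x i else false) = _
        by_cases h5 : (e i).1 < t
        · rw [if_pos h5, if_pos (by omega)]
        · rw [if_neg h5, if_neg (by omega)]
  have hx : ∀ x c, M.state x c (Fintype.card I) = x := by
    intro x c
    rw [key x c _ le_rfl]
    funext i
    rw [if_pos (e i).2]
  exact ⟨M, fun x => ⟨fun h => ⟨fun _ _ => false, by rw [hx]; exact h⟩,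
    fun ⟨c, h⟩ => by rw [hx] at h; exact h⟩⟩

theorem nonconstant (I : Type) (F : (I → Bool) → Bool) (c : ℝ) (N : ℕ) (hc : 0 < c) (hN : 0 < N)
    (h : ∀ (s b T : ℕ) (V : Type) [Fintype V], (s : ℝ) ≤ c * N → (T * s : ℝ) ≤ (1 + c) * N →
      InNPg s b I V T (fun v => F v = true) ∨ InNPg s b I V T (fun v => F v = false) →
      (2 : ℝ) ^ (c * N) ≤ Fintype.card V) :
    (∃ x, F x = true) ∧ ∃ x, F x = false := by
  have hN' : (0 : ℝ) < N := by exact_mod_cast hN
  have hpos : 0 < c * N := by positivity
  have hbig : (1 : ℝ) < 2 ^ (c * N) := Real.one_lt_rpow (by norm_num) hpos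
  let M : Prop → GMachs 0 0 I Unit := fun P =>
    { start := (), query := fun _ _ i => i.elim0, next := fun _ _ _ _ => (), acc := fun _ => P }
  have key : ∀ b : Bool, ∃ x, F x = b := by
    intro b
    by_contra hcon
    have hall : ∀ x, F x = !b := by
      intro x
      have : F x ≠ b := fun h => hcon ⟨x, h⟩
      cases hF : F x <;> cases b <;> simp_all
    have h1 : InNPg 0 0 I Unit 0 (fun v => F v = !b) :=
      ⟨M True, fun x => ⟨fun _ => ⟨fun _ _ => false, trivial⟩, fun _ => hall x⟩⟩
    have h2 := h 0 0 0 Unit (by simpa using hpos.le) (by simp; positivity)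
      (by cases b
          · exact Or.inl h1
          · exact Or.inr h1)
    simp only [Fintype.card_unit, Nat.cast_one] at h2
    linarith
  exact ⟨key true, key false⟩

end Pool.Agent.VAC2.UnrestrictedGuesses
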