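import Pool.Agent.HPM.Modes
import Pool.Agent.HPM.Fun
import Pool.Agent.APH.Det

/-!
# MP_153864_lc AccessPatternMajority: the statement is neither vacuous nor trivial

Certificate of the vacuity audit (not a hand-in). Coordinates `β` exist; `hashF β` is not constant;
for large `n` the classes of machines and of branching programs in (1) and (2), with all resource
bounds of the hypotheses, contain members that compute `hashF β` and its complement, for every
constant `c > 0`; so do those of (4), for every `k ≥ 1`; the claimed number of states is larger than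
every power of `N` if `r ≥ 5`.
-/

set_option autoImplicit false

namespace Pool.Agent.VAC2.AccessPatternMajority

open Finset
open Pool.Agent.HPM (VarH deg InNPg GMachs conds digs)
open Pool.Agent.HPM.Fn
open Pool.Agent.Lib_helper20.SRO (NBP Walk Agrees)
open Pool.Agent.APH (Mach toNBP toNBP_computes toNBP_access walk_det steps)
open Pool.Agent.Lib_helper26.AC (binary)

/-- coordinates of the field exist -/
theorem coord (n e : ℕ) : Nonempty (Coord (deg n e)) := by
  have h : deg n e ≠ 0 := by unfold deg; omega
  exact ⟨Module.finBasisOfFinrankEq _ _ (GaloisField.finrank 2 h)⟩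

section machine

variable {I : Type} [Fintype I] [DecidableEq I] (i₀ : I)

/-- the variable read at time `t` -/
noncomputable def rd (t : ℕ) : I :=
  if h : t < Fintype.card I then (Fintype.equivFin I).symm ⟨t, h⟩ else i₀

/-- the machine that stores all bits -/
noncomputable def full (f : (I → Bool) → Bool) : Mach I (I → Bool) where
  start := fun _ => false
  bit := fun t _ => rd i₀ t
  next := fun t v b => Function.update v (rd i₀ t) b
  acc := fun v => f v = true

theorem full_state (f : (I → Bool) → Bool) (x : I → Bool) (t : ℕ) (ht : t ≤ Fintype.card I) :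
    (full i₀ f).state x t = fun i => if (Fintype.equivFin I i : ℕ) < t then x i else false := by
  induction t with
  | zero => funext i; simp [Mach.state, full]
  | succ t ih =>
    have ht' : t < Fintype.card I := ht
    have h := ih ht'.le
    show Function.update ((full i₀ f).state x t) (rd i₀ t) (x (rd i₀ t)) = _
    rw [h]
    have e1 : rd i₀ t = (Fintype.equivFin I).symm ⟨t, ht'⟩ := by simp [rd, ht']
    funext i
    by_cases hi : i = rd i₀ t
    · subst hi
      rw [Function.update_self, e1]
      simp
    · rw [Function.update_of_ne hi]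
      have h2 : (Fintype.equivFin I i : ℕ) ≠ t := by
        intro h3
        apply hi
        rw [e1, Equiv.eq_symm_apply]
        exact Fin.ext h3
      by_cases h4 : (Fintype.equivFin I i : ℕ) < t
      · simp [h4, Nat.lt_succ_of_lt h4]
      · have h5 : ¬ (Fintype.equivFin I i : ℕ) < t + 1 := by omega
        simp [h4, h5]

theorem full_decides (f : (I → Bool) → Bool) (x : I → Bool) :
    (full i₀ f).acc ((full i₀ f).state x (Fintype.card I)) ↔ f x = true := by
  rw [full_state i₀ f x _ le_rfl]
  have : (fun i => if (Fintype.equivFin I i : ℕ) < Fintype.card I then x i else false) = x := by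
    funext i
    simp
  rw [this]
  rfl

include i₀ in
/-- A machine in NP mode, for any number `b` of further guesses at each step. -/
theorem inNPg (b : ℕ) (f : (I → Bool) → Bool) :
    InNPg 1 b 0 I (I → Bool) (Fintype.card I) (fun x => f x = true) := by
  let M : GMachs 1 b I (I → Bool) :=
    { start := fun _ => false
      query := fun t _ _ => rd i₀ t
      next := fun t v r _ => Function.update v (rd i₀ t) (r 0)
      acc := fun v => f v = true }
  have hM : ∀ x c t, M.state x c t = (full i₀ f).state x t := by
    intro x c t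
    induction t with
    | zero => rfl
    | succ t ih =>
      show Function.update (M.state x c t) (rd i₀ t) (x (rd i₀ t)) =
        Function.update ((full i₀ f).state x t) (rd i₀ t) (x (rd i₀ t))
      rw [ih]
  refine ⟨fun _ => M, fun w x c c' t _ => rfl, fun x => ?_⟩
  have h := full_decides i₀ f x
  constructor
  · intro hx
    refine ⟨fun _ => false, fun _ _ => false, ?_⟩
    rw [hM]
    exact h.2 hx
  · rintro ⟨w, c, hc⟩
    rw [hM] at hc
    exact h.1 hc

end machine

section nbp

variable {W X : Type} [Fintype W] [Fintype X] [DecidableEq W] [DecidableEq X] (i₀ : W ⊕ X)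

theorem steps_count (f : (W ⊕ X → Bool) → Bool) (x : W ⊕ X → Bool) (j t : ℕ)
    (s : W ⊕ X → Bool) :
    (steps (full i₀ f) x t s j).countP (fun p => p.1.isRight) =
      ((range j).filter (fun i => (rd i₀ (t + i)).isRight = true)).card := by
  induction j generalizing t s with
  | zero => simp [steps]
  | succ j ih =>
    rw [steps, List.countP_cons, ih (t + 1)]
    have e1 : (full i₀ f).bit t s = rd i₀ t := rfl
    rw [e1, Finset.card_filter, Finset.card_filter, Finset.sum_range_succ']
    have e2 : ∀ i, t + 1 + i = t + (i + 1) := fun i => by ring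
    simp only [e2, Nat.add_zero]

include i₀ in
/-- A branching program with one access pattern that tests each variable once. -/
theorem nbp (f : (W ⊕ X → Bool) → Bool) :
    ∃ (Q : Type) (_ : Fintype Q) (G : NBP (W ⊕ X) Q), G.AccessPatterns 1 ∧
      G.FewTests (Fintype.card X) ∧ G.Computes f := by
  classical
  refine ⟨_, inferInstance, toNBP (full i₀ f) (Fintype.card (W ⊕ X)), toNBP_access _ _, ?_, ?_⟩
  · rintro b ⟨l, hw, hl⟩
    refine ⟨l, hw, hl, ?_⟩
    obtain ⟨h1, h2⟩ := (walk_det hw hl).2 0 (full i₀ f).start rfl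
    have h3 := (h2.2 rfl).1
    have h5 : l.length = Fintype.card (W ⊕ X) := by simpa using h3
    rw [h1, h5]
    rw [show (((0 : Fin (Fintype.card (W ⊕ X) + 1)) : ℕ)) = 0 from rfl, steps_count]
    have h6 : ((range (Fintype.card (W ⊕ X))).filter
        (fun i => (rd i₀ (0 + i)).isRight = true)).card ≤
        ((univ : Finset X).map ⟨(Sum.inr : X → W ⊕ X), Sum.inr_injective⟩).card := by
      apply Finset.card_le_card_of_injOn (fun i => rd i₀ (0 + i))
      · intro i hi
        have hi' := (Finset.mem_filter.1 hi).2
        rcases hr : rd i₀ (0 + i) with w | x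
        · rw [hr] at hi'
          exact absurd hi' (by simp)
        · show rd i₀ (0 + i) ∈ _
          rw [hr]
          simp
      · intro i hi j hj hij
        have hi' := Finset.mem_range.1 (Finset.mem_filter.1 hi).1
        have hj' := Finset.mem_range.1 (Finset.mem_filter.1 hj).1
        simp only [zero_add, rd, hi', hj', dif_pos] at hij
        have h7 := (Fintype.equivFin (W ⊕ X)).symm.injective hij
        simpa using congrArg Fin.val h7
    refine h6.trans (le_of_eq ?_)
    rw [Finset.card_map, Finset.card_univ]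
  · intro b
    rw [toNBP_computes]
    exact full_decides i₀ f b

end nbp

section function

variable {n e L : ℕ} (β : Coord (deg n e))

lemma binary_zero (m : ℕ) : binary (fun _ : Fin m => false) = 0 := by simp [binary]

lemma binary_one (m : ℕ) : binary (fun _ : Fin m => true) + 1 = 2 ^ m := by
  induction m with
  | zero => simp [binary]
  | succ m ih =>
    have h : binary (fun _ : Fin (m + 1) => true) = binary (fun _ : Fin m => true) + 2 ^ m := by
      simp only [binary, if_true]
      rw [Fin.sum_univ_castSucc]
      simp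
    rw [h, pow_succ]
    omega

/-- the input with given polarity bit and given digits of the threshold, all other bits `false` -/
def inp (p t : Bool) : VarH n e L → Bool :=
  Sum.elim (Sum.elim (fun _ => false) (Sum.elim (fun _ => p) (fun _ => t))) (fun _ => false)

lemma count_le (v : VarH n e L → Bool) : count β v ≤ conds n e * L := by
  unfold count
  have h := Nat.card_le_card_of_injective (α := {q : Fin (conds n e) × Fin L //
    Sat β v q.1 q.2 ↔ pol v = false}) (β := Fin (conds n e) × Fin L) Subtype.val
    Subtype.val_injective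
  simpa using h

lemma count_add (t : Bool) :
    count β (inp (L := L) false t) + count β (inp (L := L) true t) = conds n e * L := by
  classical
  unfold count
  have h1 : ∀ q : Fin (conds n e) × Fin L, (Sat β (inp true t) q.1 q.2 ↔
      pol (inp (n := n) (e := e) (L := L) true t) = false) ↔
      ¬ (Sat β (inp false t) q.1 q.2 ↔ pol (inp (n := n) (e := e) (L := L) false t) = false) := by
    intro q
    have e1 : Sat β (inp true t) q.1 q.2 ↔ Sat β (inp false t) q.1 q.2 := Iff.rfl
    have e2 : pol (inp (n := n) (e := e) (L := L) true t) = true := rfl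
    have e3 : pol (inp (n := n) (e := e) (L := L) false t) = false := rfl
    rw [e1, e2, e3]
    simp
  simp only [h1]
  rw [Nat.card_eq_fintype_card, Nat.card_eq_fintype_card, Fintype.card_subtype_compl]
  have h2 := Fintype.card_subtype_le (fun q : Fin (conds n e) × Fin L =>
    (Sat β (inp false t) q.1 q.2 ↔ pol (inp (n := n) (e := e) (L := L) false t) = false))
  have h3 : Fintype.card (Fin (conds n e) × Fin L) = conds n e * L := by simp
  omega

/-- `hashF` is not constant -/
theorem nonconst (hn : 1 ≤ n) (hL : 1 ≤ L) :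
    (∃ v : VarH n e L → Bool, hashF β v = true) ∧ ∃ v : VarH n e L → Bool, hashF β v = false := by
  have hc : 0 < conds n e * L := by
    have : 0 < conds n e := by unfold conds; positivity
    exact Nat.mul_pos this hL
  constructor
  · have h0 : ∀ p, thr (inp (n := n) (e := e) (L := L) p false) = 0 := fun p => binary_zero _
    have h1 := count_add (L := L) β false
    rcases Nat.eq_zero_or_pos (count β (inp (L := L) false false)) with h | h
    · refine ⟨inp true false, ?_⟩
      unfold hashF
      rw [h0, decide_eq_true_eq]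
      omega
    · refine ⟨inp false false, ?_⟩
      unfold hashF
      rw [h0, decide_eq_true_eq]
      exact h
  · refine ⟨inp false true, ?_⟩
    unfold hashF
    rw [decide_eq_false_iff_not]
    have h1 : thr (inp (n := n) (e := e) (L := L) false true) + 1 = 2 ^ digs n e L :=
      binary_one _
    have h2 : conds n e * L < 2 ^ digs n e L := Nat.lt_pow_succ_log_self (by norm_num) _
    have h3 := count_le β (inp (L := L) false true)
    omega

end function

section bounds

open Filter Real

lemma time_ok (c : ℝ) (hc : 0 < c) :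
    ∀ᶠ N : ℕ in atTop, (N : ℝ) ≤ c * N * Real.log N / Real.log (Real.log N) := by
  have h1 : ∀ᶠ y : ℝ in atTop, ‖Real.log y‖ ≤ c * ‖y‖ :=
    (Real.isLittleO_log_id_atTop.bound hc)
  have h2 : Tendsto (fun N : ℕ => Real.log (N : ℝ)) atTop atTop :=
    Real.tendsto_log_atTop.comp tendsto_natCast_atTop_atTop
  filter_upwards [h2.eventually h1, h2.eventually (eventually_ge_atTop 3)] with N h3 h4
  have h5 : 0 < Real.log (Real.log N) := Real.log_pos (by linarith)
  rw [le_div_iff₀ h5]
  rw [Real.norm_of_nonneg h5.le, Real.norm_of_nonneg (by linarith)] at h3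
  nlinarith [Nat.cast_nonneg (α := ℝ) N]

/-- the claimed number of states is larger than every power of the number of input bits -/
theorem superpoly (r : ℕ) (hr : 5 ≤ r) (k : ℕ) :
    ∀ᶠ N : ℕ in atTop, (N : ℝ) ^ k < 2 ^ ((N : ℝ) ^ (1 - 4 / r : ℝ)) := by
  have hr' : (5:ℝ) ≤ r := by exact_mod_cast hr
  have hδ : (0:ℝ) < 1 - 4 / r := by
    rw [sub_pos, div_lt_one (by linarith)]
    linarith
  have h1 := (isLittleO_log_rpow_atTop hδ).bound (c := Real.log 2 / (k + 1))
    (div_pos (Real.log_pos (by norm_num)) (by positivity))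
  filter_upwards [tendsto_natCast_atTop_atTop.eventually h1, eventually_ge_atTop 2] with N h2 h3
  have hN : (2:ℝ) ≤ N := by exact_mod_cast h3
  have h4 : 0 < Real.log (N : ℝ) := Real.log_pos (by linarith)
  have h5 : (0:ℝ) < (N : ℝ) ^ (1 - 4 / r : ℝ) := Real.rpow_pos_of_pos (by linarith) _
  rw [Real.norm_of_nonneg h4.le, Real.norm_of_nonneg h5.le] at h2
  have h6 : (0:ℝ) < (N:ℝ) ^ k := by positivity
  rw [← Real.log_lt_log_iff h6 (Real.rpow_pos_of_pos (by norm_num) _), Real.log_pow,
    Real.log_rpow (by norm_num)]
  have h7 : ((k:ℝ) + 1) * Real.log N ≤ (N : ℝ) ^ (1 - 4 / r : ℝ) * Real.log 2 := by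
    have h8 := mul_le_mul_of_nonneg_left h2 (by positivity : (0:ℝ) ≤ (k:ℝ) + 1)
    have h9 : ((k:ℝ) + 1) * (Real.log 2 / (k + 1) * (N : ℝ) ^ (1 - 4 / r : ℝ)) =
        (N : ℝ) ^ (1 - 4 / r : ℝ) * Real.log 2 := by
      field_simp
    linarith
  nlinarith

lemma card_ge (n e L : ℕ) : n * L ≤ Nat.card (VarH n e L) := by
  rw [Nat.card_eq_fintype_card, Fintype.card_sum, Fintype.card_prod, Fintype.card_fin,
    Fintype.card_fin]
  nlinarith

end bounds

/-- **(1) and (2) are about existing machines and programs**, for every `c > 0` and `r ≥ 4`. -/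
theorem nonvacuous (c : ℝ) (hc : 0 < c) (r : ℕ) (hr : 4 ≤ r) : ∃ n₀ : ℕ, ∀ n ≥ n₀, ∀ e L N : ℕ,
    e = Nat.log 2 n / r → L = 4 ^ e → N = Nat.card (VarH n e L) →
    Nonempty (Coord (deg n e)) ∧ ∀ β : Coord (deg n e),
      ((∃ v : VarH n e L → Bool, hashF β v = true) ∧ ∃ v : VarH n e L → Bool, hashF β v = false) ∧
      (∃ (s g T : ℕ) (V : Type) (_ : Fintype V), 0 < s ∧ (s : ℝ) + g ≤ (N : ℝ) ^ (1 - 4 / r : ℝ) ∧
        (T : ℝ) * s ≤ c * N * Real.log N / Real.log (Real.log N) ∧
        ∀ b, InNPg s b g (VarH n e L) V T (fun x => hashF β x = true) ∧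
          InNPg s b g (VarH n e L) V T (fun x => ¬ hashF β x = true)) ∧
      (∀ f : (VarH n e L → Bool) → Bool, ∃ (Q : Type) (_ : Fintype Q) (G : NBP (VarH n e L) Q)
        (a m : ℕ), (a : ℝ) ≤ 2 ^ ((N : ℝ) ^ (1 - 4 / r : ℝ)) ∧
        (m : ℝ) ≤ c * N * Real.log N / Real.log (Real.log N) ∧
        G.AccessPatterns a ∧ G.FewTests m ∧ G.Computes f) := by
  obtain ⟨N₀, hN₀⟩ := Filter.eventually_atTop.1 (time_ok c hc)
  refine ⟨max N₀ 1, ?_⟩
  intro n hn e L N he hL hN
  have hn1 : 1 ≤ n := le_trans (le_max_right _ _) hn
  have hL1 : 1 ≤ L := by rw [hL]; exact Nat.one_le_pow _ _ (by norm_num)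
  have hNn : n ≤ N := by
    rw [hN]
    exact le_trans (Nat.le_mul_of_pos_right n hL1) (card_ge n e L)
  have ht := hN₀ N (le_trans (le_trans (le_max_left _ _) hn) hNn)
  have hN1 : (1:ℝ) ≤ N := by exact_mod_cast hn1.trans hNn
  have hr' : (4:ℝ) ≤ r := by exact_mod_cast hr
  have hpow : (1:ℝ) ≤ (N : ℝ) ^ (1 - 4 / r : ℝ) := by
    apply Real.one_le_rpow hN1
    rw [sub_nonneg, div_le_one (by linarith)]
    linarith
  refine ⟨coord n e, fun β => ⟨nonconst β hn1 hL1, ?_, fun f => ?_⟩⟩
  · refine ⟨1, 0, N, VarH n e L → Bool, inferInstance, one_pos, ?_, ?_, fun b => ⟨?_, ?_⟩⟩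
    · simpa using hpow
    · simpa using ht
    · rw [hN, Nat.card_eq_fintype_card]
      exact inNPg (Sum.inl (Sum.inr (Sum.inl ()))) b _
    · have h := inNPg (I := VarH n e L) (Sum.inl (Sum.inr (Sum.inl ()))) b (fun x => !hashF β x)
      rw [hN, Nat.card_eq_fintype_card]
      have e1 : (fun x : VarH n e L → Bool => ¬ hashF β x = true) =
          (fun x => (!hashF β x) = true) := by
        funext x
        simp
      rw [e1]
      exact h
  · obtain ⟨Q, hQ, G, h1, h2, h3⟩ := nbp (Sum.inl (Sum.inr (Sum.inl ()))) f
    refine ⟨Q, hQ, G, 1, L * n, ?_, ?_, h1, ?_, h3⟩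
    · rw [Nat.cast_one]
      apply Real.one_le_rpow (by norm_num)
      linarith
    · refine le_trans ?_ ht
      have := card_ge n e L
      rw [← hN] at this
      rw [mul_comm L n]
      exact_mod_cast this
    · have h4 : Fintype.card (Fin L × Fin n) = L * n := by simp
      rw [← h4]
      exact h2

/-- **(4) is about existing programs**, for all `n`, `e`, `L`, `k ≥ 1`. -/
theorem nonvacuous4 (n e L k : ℕ) (hk : 1 ≤ k) (f : (VarH n e L → Bool) → Bool) :
    ∃ (Q : Type) (_ : Fintype Q) (G : NBP (VarH n e L) Q),
      G.AccessPatterns 1 ∧ G.FewTests (k * (n * L)) ∧ G.Computes f := by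
  obtain ⟨Q, hQ, G, h1, h2, h3⟩ := nbp (Sum.inl (Sum.inr (Sum.inl ()))) f
  refine ⟨Q, hQ, G, h1, ?_, h3⟩
  intro b hb
  obtain ⟨l, h4, h5, h6⟩ := h2 b hb
  refine ⟨l, h4, h5, h6.trans ?_⟩
  have h7 : Fintype.card (Fin L × Fin n) = L * n := by simp
  rw [h7, mul_comm L n]
  exact Nat.le_mul_of_pos_left _ hk

end Pool.Agent.VAC2.AccessPatternMajority
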