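import Pool.Agent.NLM.Low
import Pool.Agent.NLM.Pp

/-!
# Certificate: the statement of MP_153864_lc/FewNegations is not vacuous

* `exists_circuit`: for all `v`, `k` there is a circuit of the model without witness bits and without NOT gates
  which accepts `More v k` in the NP mode and in the coNP mode, and one with a single NOT gate which accepts the
  complement. So the hypotheses of part (1) can be satisfied in all four cases, with `s = t = 0`, `r ≤ 1`.
* `nonconstant`: for `2 ≤ k ≤ v` the function is not constant.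
* `hyp1`: the numerical hypotheses of part (1) hold for `s = t = 0`, `r ≤ 1`, `ε ≤ 1/2` and all `v ≥ 4`.
* `same_class`: the circuits of part (2) satisfy them too if `ε ≤ 1/4` and `v ≥ 2 ^ 10`: the number of the random
  bits plus one is at most `N ^ (1 - ε)`.
* `excludes`: for every `ε ≤ 1/2` and every large `v` part (1) excludes (in all four cases) all circuits with few
  negations of size less than `2 ^ (N ^ (ε / 200))`, and there are circuits.
-/

set_option autoImplicit false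

namespace Pool.Agent.VAC2.FewNegations

open Pool.Agent.NegLim Pool.Agent.NNDT Pool.Agent.NLM
open Pool.Agent.NEG72 (clq_iff nis_iff)

variable {E : Type} [Fintype E]

open Classical in
/-- the monotone normal form -/
lemma makes_mono (f : (E → Bool) → Prop)
    (hf : ∀ x x' : E → Bool, (∀ e, x e = true → x' e = true) → f x → f x') :
    ∃ K, Makes (∅ : Set (Fn E 0 0)) K {fun x _ _ => decide (f x)} := by
  have h1 : ∀ z : E → Bool, Makes (∅ : Set (Fn E 0 0))
      ((Finset.univ : Finset E).toList.length * (0 + 1))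
      {fun x _ _ => (Finset.univ : Finset E).toList.all fun e => !(z e) || x e} := by
    intro z
    refine Makes.all (F := fun (e : E) (x : E → Bool) (_ _ : Fin 0 → Bool) => !(z e) || x e) _ ?_
    intro e _
    cases hz : z e with
    | true =>
      have h2 : (fun (x : E → Bool) (_ _ : Fin 0 → Bool) => !true || x e) =
          fun x _ _ => x e := by
        funext x u w
        simp
      rw [h2]
      exact Makes.inp _ e
    | false =>
      have h2 : (fun (x : E → Bool) (_ _ : Fin 0 → Bool) => !false || x e) =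
          fun x _ _ => true := by
        funext x u w
        simp
      rw [h2]
      exact Makes.wit _ fun _ _ => true
  have h3 := Makes.any (F := fun (z : E → Bool) (x : E → Bool) (_ _ : Fin 0 → Bool) =>
    (Finset.univ : Finset E).toList.all fun e => !(z e) || x e)
    ((Finset.univ.filter fun z => f z).toList) (fun z _ => h1 z)
  refine ⟨_, h3.subset ?_⟩
  intro g hg
  rw [Set.mem_singleton_iff] at hg ⊢
  rw [hg]
  funext x u w
  rw [Bool.eq_iff_iff, decide_eq_true_iff, List.any_eq_true]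
  constructor
  · intro h
    refine ⟨x, by simpa using h, ?_⟩
    rw [List.all_eq_true]
    intro e _
    cases x e <;> rfl
  · rintro ⟨z, hz, h⟩
    rw [Finset.mem_toList, Finset.mem_filter] at hz
    rw [List.all_eq_true] at h
    refine hf z x (fun e he => ?_) hz.2
    have h4 := h e (Finset.mem_toList.2 (Finset.mem_univ e))
    rw [he] at h4
    simpa using h4

lemma both {C : NCirc E 0 0} {f : (E → Bool) → Prop}
    (h : ∀ x, outp C x default default = true ↔ f x) :
    (∀ x, C.Acc x ↔ f x) ∧ (∀ x, All C x ↔ f x) := by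
  have h1 : ∀ x (u w : Fin 0 → Bool), outp C x u w = outp C x default default := by
    intro x u w
    rw [Subsingleton.elim u default, Subsingleton.elim w default]
  refine ⟨fun x => ⟨?_, fun hx => ⟨default, default, (h x).2 hx⟩⟩, fun x => ⟨fun hx => ?_, ?_⟩⟩
  · rintro ⟨u, w, hx⟩
    have h2 : outp C x u w = true := hx
    rw [h1] at h2
    exact (h x).1 h2
  · exact (h x).1 (hx default default)
  · intro hx u w
    rw [h1]
    exact (h x).2 hx

open Classical in
/-- circuits for a monotone property and for its complement -/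
lemma circuits (f : (E → Bool) → Prop)
    (hf : ∀ x x' : E → Bool, (∀ e, x e = true → x' e = true) → f x → f x') :
    (∃ C : NCirc E 0 0, C.nots = 0 ∧ C.NotsFree ∧ (∀ x, C.Acc x ↔ f x) ∧ ∀ x, All C x ↔ f x) ∧
    ∃ C : NCirc E 0 0, C.nots = 1 ∧ C.NotsFree ∧ (∀ x, C.Acc x ↔ ¬ f x) ∧
      ∀ x, All C x ↔ ¬ f x := by
  have hfree : ∀ C : NCirc E 0 0, C.NotsFree := by
    intro C n _ x u w w'
    rw [Subsingleton.elim w w']
  obtain ⟨K, h⟩ := makes_mono f hf
  obtain ⟨M, h1, h2, h3⟩ := h [] (by simp)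
  have h4 := h2 0 Prg.nil
  rw [List.append_nil] at h4
  have h5 := h3 _ rfl
  rw [List.append_nil] at h5
  constructor
  · obtain ⟨C, c1, c2, c3, _⟩ := conv h4
    obtain ⟨a, ha⟩ := conv_wire h5
    have h6 : ∀ x, outp (⟨C, a⟩ : NCirc E 0 0) x default default = true ↔ f x := by
      intro x
      show a.val x default default (vals C x default default) = true ↔ _
      rw [c3, ha, decide_eq_true_iff]
    exact ⟨⟨C, a⟩, c2, hfree _, both h6⟩
  · have h7 := Prg.not h4 h5 (fun _ _ _ _ => rfl)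
    obtain ⟨C, c1, c2, c3, _⟩ := conv h7
    obtain ⟨a, ha⟩ := conv_wire (Av.head M (fun x u w => !(decide (f x))))
    have h6 : ∀ x, outp (⟨C, a⟩ : NCirc E 0 0) x default default = true ↔ ¬ f x := by
      intro x
      show a.val x default default (vals C x default default) = true ↔ _
      rw [c3, ha, Bool.not_eq_true', decide_eq_false_iff_not]
    exact ⟨⟨C, a⟩, c2, hfree _, both h6⟩

lemma more_mono (v k : ℕ) (z z' : Edge v ⊕ Edge v → Bool) (h : ∀ e, z e = true → z' e = true)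
    (hz : More v k z) : More v k z' := by
  classical
  unfold More at hz ⊢
  have h1 : cliques v k (fun e => z (Sum.inl e)) ≤ cliques v k (fun e => z' (Sum.inl e)) := by
    unfold cliques
    apply Finset.card_le_card
    intro S hS
    rw [Finset.mem_filter] at hS ⊢
    exact ⟨hS.1, hS.2.1, fun e h2 h3 => h _ (hS.2.2 e h2 h3)⟩
  have h2 : indeps v k (fun e => z' (Sum.inr e)) ≤ indeps v k (fun e => z (Sum.inr e)) := by
    unfold indeps
    apply Finset.card_le_card
    intro S hS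
    rw [Finset.mem_filter] at hS ⊢
    refine ⟨hS.1, hS.2.1, fun e h2 h3 => ?_⟩
    have h4 : z' (Sum.inr e) = false := hS.2.2 e h2 h3
    show z (Sum.inr e) = false
    cases h5 : z (Sum.inr e) with
    | false => rfl
    | true =>
      rw [h _ h5] at h4
      cases h4
  omega

/-- **The hypotheses of part (1) can be satisfied in all four cases.** -/
theorem exists_circuit (v k : ℕ) :
    (∃ C : NCirc (Edge v ⊕ Edge v) 0 0, C.nots = 0 ∧ C.NotsFree ∧
      (∀ z, C.Acc z ↔ More v k z) ∧ ∀ z, All C z ↔ More v k z) ∧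
    ∃ C : NCirc (Edge v ⊕ Edge v) 0 0, C.nots = 1 ∧ C.NotsFree ∧
      (∀ z, C.Acc z ↔ ¬ More v k z) ∧ ∀ z, All C z ↔ ¬ More v k z :=
  circuits (More v k) (more_mono v k)

/-- The function is not constant. -/
theorem nonconstant (v k : ℕ) (hk : 2 ≤ k) (hkv : k ≤ v) :
    More v k (fun _ => true) ∧ ¬ More v k (fun _ => false) := by
  constructor
  · have h := (good2 hk (fun _ => true)).2 (by
      rw [clq_iff]
      obtain ⟨S, _, hS⟩ := Finset.exists_subset_card_eq (s := (Finset.univ : Finset (Fin v)))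
        (n := k) (by simpa using hkv)
      exact ⟨S, hS, fun _ _ _ => rfl⟩)
    have h2 : (Sum.elim (fun _ => true) (fun _ => true) : Edge v ⊕ Edge v → Bool) =
        fun _ => true := by
      funext e
      cases e <;> rfl
    rw [h2] at h
    exact h
  · unfold More
    have h : cliques v k (fun _ : Edge v => false) = 0 := by
      by_contra hne
      have h1 := cliques_pos.1 (Nat.pos_of_ne_zero hne)
      rw [clq_iff] at h1
      obtain ⟨S, hS, h2⟩ := h1
      obtain ⟨a, ha, b, hb, hab⟩ := Finset.one_lt_card.1 (by omega : 1 < S.card)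
      rcases lt_or_gt_of_ne hab with h3 | h3
      · have := h2 ⟨(a, b), h3⟩ ha hb
        cases this
      · have := h2 ⟨(b, a), h3⟩ hb ha
        cases this
    show ¬ indeps v k (fun _ => false) < cliques v k (fun _ => false)
    rw [h]
    exact Nat.not_lt_zero _

/-- The numerical hypotheses of part (1) for `s = t = 0`, `r ≤ 1`. -/
theorem hyp1 (ε : ℝ) (hε : ε ≤ 1 / 2) (v N : ℕ) (hv : 4 ≤ v) (hN : N = v * (v - 1) / 2) :
    ((2 ^ (0 + 1) * (0 + 1) : ℕ) : ℝ) ≤ (N : ℝ) ^ (1 - ε) := by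
  have h6 : 6 ≤ N := by
    rw [hN, Nat.le_div_iff_mul_le (by norm_num)]
    calc 6 * 2 = 4 * 3 := by norm_num
      _ ≤ v * (v - 1) := Nat.mul_le_mul hv (by omega)
  have h7 : (6 : ℝ) ≤ N := by exact_mod_cast h6
  calc ((2 ^ (0 + 1) * (0 + 1) : ℕ) : ℝ) = 2 := by norm_num
    _ = (4 : ℝ) ^ (1 / 2 : ℝ) := by
        rw [show (4 : ℝ) = 2 ^ (2 : ℝ) by norm_num, ← Real.rpow_mul (by norm_num)]
        norm_num
    _ ≤ (N : ℝ) ^ (1 / 2 : ℝ) := Real.rpow_le_rpow (by norm_num) (by linarith) (by norm_num)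
    _ ≤ (N : ℝ) ^ (1 - ε) := Real.rpow_le_rpow_of_exponent_le (by linarith) (by linarith)

/-- The circuits of part (2) belong to the class of part (1). -/
theorem same_class (ε : ℝ) (hε : ε ≤ 1 / 4) (v N : ℕ) (hv : 2 ^ 10 ≤ v)
    (hN : N = v * (v - 1) / 2) :
    ((2 ^ (0 + 0) * ((v + 1) + 1) : ℕ) : ℝ) ≤ (N : ℝ) ^ (1 - ε) := by
  have h1 : v * v ≤ 4 * N := by
    have h2 : v * (v - 1) < 2 * (N + 1) := by
      rw [hN]
      exact Nat.lt_mul_div_succ _ (by norm_num)
    have h3 : v * v = v * (v - 1) + v := by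
      obtain ⟨w, rfl⟩ : ∃ w, v = w + 1 := ⟨v - 1, by omega⟩
      simp only [Nat.add_sub_cancel]
      ring
    have h4 : 4 * v ≤ v * v := Nat.mul_le_mul_right v (by omega)
    omega
  have h0 : (2 ^ 10 : ℝ) ≤ v := by exact_mod_cast hv
  have h1r : (v : ℝ) ^ 2 / 4 ≤ N := by
    have : (v : ℝ) * v ≤ 4 * N := by exact_mod_cast h1
    nlinarith
  have hv0 : (0 : ℝ) < v := by linarith
  have hN1 : (1 : ℝ) ≤ N := by nlinarith
  have h5 : (v : ℝ) ^ (3 / 2 : ℝ) / 4 ≤ (N : ℝ) ^ (3 / 4 : ℝ) := by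
    calc (v : ℝ) ^ (3 / 2 : ℝ) / 4 ≤ (v : ℝ) ^ (3 / 2 : ℝ) / (4 : ℝ) ^ (3 / 4 : ℝ) := by
          apply div_le_div_of_nonneg_left (by positivity) (by positivity)
          calc (4 : ℝ) ^ (3 / 4 : ℝ) ≤ (4 : ℝ) ^ (1 : ℝ) :=
                Real.rpow_le_rpow_of_exponent_le (by norm_num) (by norm_num)
            _ = 4 := Real.rpow_one _
      _ = ((v : ℝ) ^ 2 / 4) ^ (3 / 4 : ℝ) := by
          rw [Real.div_rpow (by positivity) (by norm_num), ← Real.rpow_natCast,
            ← Real.rpow_mul hv0.le]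
          norm_num
      _ ≤ (N : ℝ) ^ (3 / 4 : ℝ) := Real.rpow_le_rpow (by positivity) h1r (by norm_num)
  have h6 : (32 : ℝ) * v ≤ (v : ℝ) ^ (3 / 2 : ℝ) := by
    have e1 : (v : ℝ) ^ (3 / 2 : ℝ) = (v : ℝ) ^ (1 / 2 : ℝ) * v := by
      rw [show (3 / 2 : ℝ) = 1 / 2 + 1 by norm_num, Real.rpow_add hv0, Real.rpow_one]
    rw [e1]
    apply mul_le_mul_of_nonneg_right _ hv0.le
    calc (32 : ℝ) = (2 ^ 10 : ℝ) ^ (1 / 2 : ℝ) := by
          rw [← Real.rpow_natCast, ← Real.rpow_mul (by norm_num)]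
          norm_num
      _ ≤ (v : ℝ) ^ (1 / 2 : ℝ) := Real.rpow_le_rpow (by norm_num) h0 (by norm_num)
  calc ((2 ^ (0 + 0) * ((v + 1) + 1) : ℕ) : ℝ) = v + 2 := by
        push_cast
        ring
    _ ≤ 8 * v := by linarith
    _ ≤ (v : ℝ) ^ (3 / 2 : ℝ) / 4 := by linarith
    _ ≤ (N : ℝ) ^ (3 / 4 : ℝ) := h5
    _ ≤ (N : ℝ) ^ (1 - ε) := Real.rpow_le_rpow_of_exponent_le hN1 (by linarith)

/-- Part (1) is a real condition: there are circuits, and all of them are large. -/
theorem excludes (ε : ℝ) (hε : 0 < ε) (hε1 : ε ≤ 1 / 2) : ∃ v₀ : ℕ, ∀ v ≥ v₀, ∀ k N : ℕ,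
    k = ⌊(v : ℝ) ^ (ε / 32)⌋₊ → N = v * (v - 1) / 2 →
    (∃ C : NCirc (Edge v ⊕ Edge v) 0 0, C.NotsFree ∧ Accepts C (More v k) ∧
      (2 : ℝ) ^ ((N : ℝ) ^ (ε / 200)) ≤ C.gates.length) ∧
    ∃ C : NCirc (Edge v ⊕ Edge v) 0 0, C.NotsFree ∧ Accepts C (fun z => ¬ More v k z) ∧
      (2 : ℝ) ^ ((N : ℝ) ^ (ε / 200)) ≤ C.gates.length := by
  obtain ⟨v₀, hv₀⟩ := lower ε hε (by linarith)
  refine ⟨max v₀ 4, fun v hv k N hk hN => ?_⟩
  obtain ⟨⟨C, c1, c2, c3, _⟩, ⟨D, d1, d2, d3, _⟩⟩ := exists_circuit v k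
  have h1 := hyp1 ε hε1 v N ((le_max_right _ _).trans hv) hN
  have h2 : ((2 ^ (0 + C.nots) * (0 + 1) : ℕ) : ℝ) ≤ (N : ℝ) ^ (1 - ε) := by
    refine le_trans ?_ h1
    rw [c1]
    norm_num
  have h3 : ((2 ^ (0 + D.nots) : ℕ) : ℝ) ≤ (N : ℝ) ^ (1 - ε) := by
    refine le_trans ?_ h1
    rw [d1]
    norm_num
  exact ⟨⟨C, c2, Or.inl c3, hv₀ v ((le_max_left _ _).trans hv) k N 0 0 C hk hN c2
    (Or.inl ⟨Or.inl c3, h2⟩)⟩, ⟨D, d2, Or.inl d3, hv₀ v ((le_max_left _ _).trans hv) k N 0 0 D hk hN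
    d2 (Or.inr ⟨Or.inl d3, h3⟩)⟩⟩

end Pool.Agent.VAC2.FewNegations
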