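import Pool.Agent.NBC.Low
import Pool.Agent.VAC2.MP_153864_lc_FewNegations

/-!
# Certificate: the clause on Boolean combinations in MP_153864_lc/FewNegations is not vacuous

* `exists_comb`: for all `v`, `k`, all `q ≥ 1` and all choices `mo` of the modes there are `q` circuits of the
  model (without witness bits and without NOT gates) and a Boolean function `D` (the conjunction) with
  `More v k z ↔ D (the answers)`.
* `exists_comb2`: for `q = 2`, with the modes NP and coNP, there is also a combination `A 0 ∧ ¬ A 1` whose second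
  circuit accepts the complement of the function with one NOT gate in the coNP mode.
* `hyp2`: the numerical hypothesis holds for `q = 2`, `s = t = 0`, `r ≤ 1`, `ε ≤ 1/2` and all `v ≥ 128`.
* `excludes2`: for every `ε ≤ 1/2` and every large `v` the clause excludes both combinations if the circuits are
  smaller than `2 ^ (N ^ (ε / 200))`.
-/

set_option autoImplicit false

namespace Pool.Agent.VAC2.FewNegations

open Pool.Agent.NegLim Pool.Agent.NNDT Pool.Agent.NLM Pool.Agent.NBC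

lemma ans_iff {E : Type} {s t : ℕ} {C : NCirc E s t} {f : (E → Bool) → Prop}
    (h1 : ∀ x, C.Acc x ↔ f x) (h2 : ∀ x, All C x ↔ f x) (m : Bool) (x : E → Bool) :
    Ans m C x ↔ f x := by
  cases m with
  | true => simpa [Ans] using h1 x
  | false => simpa [Ans] using h2 x

/-- **The hypotheses can be satisfied for all `q ≥ 1` and all choices of the modes.** -/
theorem exists_comb (v k q : ℕ) (hq : 1 ≤ q) (mo : Fin q → Bool) :
    ∃ (G : ℕ) (C : Fin q → NCirc (Edge v ⊕ Edge v) 0 0),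
      (∀ i, (C i).NotsFree ∧ (C i).nots ≤ 0 ∧ (C i).gates.length ≤ G) ∧
      ∀ z, More v k z ↔ (fun A : Fin q → Prop => ∀ i, A i) fun i => Ans (mo i) (C i) z := by
  obtain ⟨⟨C, c1, c2, c3, c4⟩, _⟩ := exists_circuit v k
  refine ⟨C.gates.length, fun _ => C, fun i => ⟨c2, by rw [c1], le_refl _⟩, fun z => ?_⟩
  constructor
  · intro h i
    exact (ans_iff c3 c4 (mo i) z).2 h
  · intro h
    exact (ans_iff c3 c4 (mo ⟨0, hq⟩) z).1 (h ⟨0, hq⟩)

/-- A combination of an NP answer and a negated coNP answer. -/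
theorem exists_comb2 (v k : ℕ) :
    ∃ (G : ℕ) (C : Fin 2 → NCirc (Edge v ⊕ Edge v) 0 0),
      (∀ i, (C i).NotsFree ∧ (C i).nots ≤ 1 ∧ (C i).gates.length ≤ G) ∧ (C 1).nots = 1 ∧
      ∀ z, More v k z ↔ (fun A : Fin 2 → Prop => A 0 ∧ ¬ A 1)
        fun i => Ans ((![true, false] : Fin 2 → Bool) i) (C i) z := by
  obtain ⟨⟨C, c1, c2, c3, c4⟩, ⟨D, d1, d2, d3, d4⟩⟩ := exists_circuit v k
  refine ⟨max C.gates.length D.gates.length, ![C, D], ?_, d1, fun z => ?_⟩
  · intro i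
    fin_cases i
    · exact ⟨c2, by show C.nots ≤ 1; omega, le_max_left _ _⟩
    · exact ⟨d2, by show D.nots ≤ 1; omega, le_max_right _ _⟩
  · have h1 := ans_iff c3 c4 true z
    have h2 := ans_iff d3 d4 false z
    show More v k z ↔ Ans true C z ∧ ¬ Ans false D z
    rw [h1, h2]
    tauto

/-- The numerical hypothesis for `q = 2`, `s = t = 0`, `r ≤ 1`. -/
theorem hyp2 (ε : ℝ) (hε : ε ≤ 1 / 2) (v N : ℕ) (hv : 128 ≤ v) (hN : N = v * (v - 1) / 2) :
    ((2 ^ 5 * 2 ^ (0 + 1) * (0 + 1) : ℕ) : ℝ) ≤ (N : ℝ) ^ (1 - ε) := by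
  have h6 : 4096 ≤ N := by
    rw [hN, Nat.le_div_iff_mul_le (by norm_num)]
    calc 4096 * 2 ≤ 128 * 127 := by norm_num
      _ ≤ v * (v - 1) := Nat.mul_le_mul hv (by omega)
  have h7 : (4096 : ℝ) ≤ N := by exact_mod_cast h6
  calc ((2 ^ 5 * 2 ^ (0 + 1) * (0 + 1) : ℕ) : ℝ) = 64 := by norm_num
    _ = (4096 : ℝ) ^ (1 / 2 : ℝ) := by
        rw [show (4096 : ℝ) = 64 ^ (2 : ℝ) by norm_num, ← Real.rpow_mul (by norm_num)]
        norm_num
    _ ≤ (N : ℝ) ^ (1 / 2 : ℝ) := Real.rpow_le_rpow (by norm_num) (by linarith) (by norm_num)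
    _ ≤ (N : ℝ) ^ (1 - ε) := Real.rpow_le_rpow_of_exponent_le (by linarith) (by linarith)

/-- **The clause is a real condition**: there are circuits `C` and a combination as in the clause with both
modes, `q = 2`, and the number of the gates is large for all of them. -/
theorem excludes2 (ε : ℝ) (hε : 0 < ε) (hε1 : ε ≤ 1 / 2) : ∃ v₀ : ℕ, ∀ v ≥ v₀, ∀ k N : ℕ,
    k = ⌊(v : ℝ) ^ (ε / 32)⌋₊ → N = v * (v - 1) / 2 →
    ∃ (G : ℕ) (C : Fin 2 → NCirc (Edge v ⊕ Edge v) 0 0),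
      (∀ i, (C i).NotsFree ∧ (C i).nots ≤ 1 ∧ (C i).gates.length ≤ G) ∧
      (∀ z, More v k z ↔ (fun A : Fin 2 → Prop => A 0 ∧ ¬ A 1)
        fun i => Ans ((![true, false] : Fin 2 → Bool) i) (C i) z) ∧
      (2 : ℝ) ^ ((N : ℝ) ^ (ε / 200)) ≤ G := by
  obtain ⟨v₀, hv₀⟩ := lower_mixed ε hε (by linarith)
  refine ⟨max v₀ 128, fun v hv k N hk hN => ?_⟩
  obtain ⟨G, C, h1, _, h3⟩ := exists_comb2 v k
  exact ⟨G, C, h1, h3, hv₀ v ((le_max_left _ _).trans hv) k N 2 0 0 1 G ![true, false] C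
    (fun A : Fin 2 → Prop => A 0 ∧ ¬ A 1) hk hN (by norm_num) h1 h3
    (hyp2 ε hε1 v N ((le_max_right _ _).trans hv) hN)⟩

end Pool.Agent.VAC2.FewNegations
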