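import Pool.Agent.Results.MP_153864_lc.FewNegations

/-!
# Certificates for FewNegations, version with Sigma_2 and Pi_2 answers

(1) Without inner bits the `Σ₂` answer is the NP mode and the `Π₂` answer is the coNP mode; if all witness bits
are inner it is the other way round; the two kinds of answers are dual. (2) The twelfth power of the bound for
the number of the coins is the bound for the number of the inner bits. (3) The conditions of part (a) can be
satisfied with `q`, `d` and `2 ^ r` equal to powers of `N`. (4) part (a) for one circuit.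
-/

set_option autoImplicit false

namespace Pool.Agent.VAC2.FewNegations3

open Finset Pool.Agent.NegLim Pool.Agent.NLM Pool.Agent.S2C

variable {E : Type} {s t : ℕ}

theorem out2_surj (C : NCirc E s t) (x : E → Bool) (u : Fin s → Bool) (w : Fin t → Bool) :
    out2 C x (Sum.elim u w) = outp C x u w := rfl

/-- Without inner bits: the NP mode. -/
theorem sigma_empty (C : NCirc E s t) (x : E → Bool) : Ans2 (true, ∅) C x ↔ C.Acc x := by
  constructor
  · rintro (⟨-, p, hp⟩ | ⟨h, -⟩)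
    · exact ⟨_, _, hp p fun _ _ => rfl⟩
    · exact absurd (show true = false from h) (by decide)
  · rintro ⟨u, w, h⟩
    refine Or.inl ⟨rfl, Sum.elim u w, fun p' hp' => ?_⟩
    have : p' = Sum.elim u w := by
      funext i
      exact hp' i (by simp)
    rw [this]
    exact h

/-- Without inner bits: the coNP mode. -/
theorem pi_empty (C : NCirc E s t) (x : E → Bool) : Ans2 (false, ∅) C x ↔ All C x := by
  constructor
  · rintro (⟨h, -⟩ | ⟨-, h⟩)
    · exact absurd (show false = true from h) (by decide)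
    · intro u w
      obtain ⟨p', hp', h2⟩ := h (Sum.elim u w)
      have : p' = Sum.elim u w := by
        funext i
        exact hp' i (by simp)
      rw [this] at h2
      exact h2
  · intro h
    exact Or.inr ⟨rfl, fun p => ⟨p, fun _ _ => rfl, h _ _⟩⟩

/-- All bits inner: the coNP mode. -/
theorem sigma_univ (C : NCirc E s t) (x : E → Bool) : Ans2 (true, univ) C x ↔ All C x := by
  constructor
  · rintro (⟨-, p, hp⟩ | ⟨h, -⟩)
    · intro u w
      exact hp (Sum.elim u w) fun i hi => absurd (mem_univ i) hi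
    · exact absurd (show true = false from h) (by decide)
  · intro h
    exact Or.inl ⟨rfl, fun _ => false, fun p' _ => h _ _⟩

/-- All bits inner: the NP mode. -/
theorem pi_univ (C : NCirc E s t) (x : E → Bool) : Ans2 (false, univ) C x ↔ C.Acc x := by
  constructor
  · rintro (⟨h, -⟩ | ⟨-, h⟩)
    · exact absurd (show false = true from h) (by decide)
    · obtain ⟨p', -, h2⟩ := h fun _ => false
      exact ⟨_, _, h2⟩
  · rintro ⟨u, w, h⟩
    exact Or.inr ⟨rfl, fun p => ⟨Sum.elim u w, fun i hi => absurd (mem_univ i) hi, h⟩⟩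

/-- The two kinds of answers are dual. -/
theorem dual (I : Finset (Fin s ⊕ Fin t)) (C : NCirc E s t) (x : E → Bool) :
    ¬ Sig I C x ↔ ∀ p : Fin s ⊕ Fin t → Bool, ∃ p' : Fin s ⊕ Fin t → Bool,
      (∀ i, i ∉ I → p' i = p i) ∧ out2 C x p' = false := by
  unfold Sig
  push Not
  simp only [Bool.not_eq_true]

/-- The twelfth power of the bound for the coins of the PP mode. -/
theorem twelfth (N : ℕ) (ε : ℝ) : ((N : ℝ) ^ (ε / 60)) ^ 12 = (N : ℝ) ^ (ε / 5) := by
  rw [← Real.rpow_natCast, ← Real.rpow_mul (Nat.cast_nonneg N)]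
  congr 1
  push_cast
  ring

/-- The numbers of part (a): `q ≤ N ^ ((1-ε)/24)`, `2 ^ r ≤ N ^ ((1-ε)/4)`, `d + 1 ≤ N ^ ((1-ε)/4)`,
`s = 0`. -/
theorem numbers (N q r d : ℕ) (ε : ℝ) (hN : 1 ≤ N)
    (hq : (q : ℝ) ≤ (N : ℝ) ^ ((1 - ε) / 24)) (hr : (2 : ℝ) ^ r ≤ (N : ℝ) ^ ((1 - ε) / 4))
    (hd : (d : ℝ) + 1 ≤ (N : ℝ) ^ ((1 - ε) / 4)) :
    ((q ^ 6 * 2 ^ (0 + r) * (d + 1) ^ 2 : ℕ) : ℝ) ≤ (N : ℝ) ^ (1 - ε) := by
  have hN0 : (0 : ℝ) < N := by exact_mod_cast hN
  have h1 : (q : ℝ) ^ 6 ≤ (N : ℝ) ^ ((1 - ε) / 4) := by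
    refine (pow_le_pow_left₀ (Nat.cast_nonneg q) hq 6).trans (le_of_eq ?_)
    rw [← Real.rpow_natCast, ← Real.rpow_mul hN0.le]
    congr 1
    push_cast
    ring
  have h2 : ((d : ℝ) + 1) ^ 2 ≤ (N : ℝ) ^ ((1 - ε) / 2) := by
    refine (pow_le_pow_left₀ (by positivity) hd 2).trans (le_of_eq ?_)
    rw [← Real.rpow_natCast, ← Real.rpow_mul hN0.le]
    congr 1
    push_cast
    ring
  have h3 : (N : ℝ) ^ (1 - ε) =
      (N : ℝ) ^ ((1 - ε) / 4) * (N : ℝ) ^ ((1 - ε) / 4) * (N : ℝ) ^ ((1 - ε) / 2) := by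
    rw [← Real.rpow_add hN0, ← Real.rpow_add hN0]
    congr 1
    ring
  push_cast
  rw [h3, zero_add]
  exact mul_le_mul (mul_le_mul h1 hr (by positivity) (by positivity)) h2 (by positivity)
    (by positivity)

/-- Part (a) for one circuit, `Σ₂` answer. -/
theorem one (ε : ℝ) (hε : 0 < ε) (hε1 : ε ≤ 1) : ∃ v₀ : ℕ, ∀ v ≥ v₀, ∀ k N : ℕ,
    k = ⌊(v : ℝ) ^ (ε / 32)⌋₊ → N = v * (v - 1) / 2 →
    ∀ (s t : ℕ) (I : Finset (Fin s ⊕ Fin t)) (C : NCirc (Edge v ⊕ Edge v) s t), C.NotsFree →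
      (∀ z, More v k z ↔ Sig I C z) →
      ((2 ^ (s + C.nots) * (s + t - I.card + 1) ^ 2 : ℕ) : ℝ) ≤ (N : ℝ) ^ (1 - ε) →
      (I.card : ℝ) ≤ (N : ℝ) ^ (ε / 5) →
      (2 : ℝ) ^ ((N : ℝ) ^ (ε / 200)) ≤ C.gates.length := by
  obtain ⟨v₀, h⟩ := Pool.Agent.Results.MP_153864_lc.FewNegations.result.1 ε hε hε1
  refine ⟨v₀, fun v hv k N hk hN s t I C hC hF hb hI => ?_⟩
  refine (h v hv k N hk hN).1 1 s t C.nots C.gates.length (s + t - I.card) I.card
    (fun _ => (true, I)) (fun _ => C) (fun A => A 0) (fun _ => ⟨hC, le_rfl, le_rfl, ?_, le_rfl⟩)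
    (fun z => ?_) (by simpa using hb) hI
  · show s + t ≤ I.card + (s + t - I.card)
    omega
  · rw [hF z]
    show Sig I C z ↔ Ans2 (true, I) C z
    unfold Ans2
    simp

end Pool.Agent.VAC2.FewNegations3
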