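import Pool.Agent.VAC2.MP_153864_lc_FewNegations
import Pool.Agent.PPH.Low3
import Pool.Agent.PPH.ROU
import Pool.Agent.S2C.FEW
import Pool.Agent.NPQ.Up

/-!
# Certificate: the statement of MP_153864_lc/FewNegations (PP is not in BPP^PH) is not vacuous

* `exists_out`: for all `v`, `k` there is a circuit of the model without witness bits and without NOT gates whose
  output is `More v k`.
* `bool`: a circuit `D` without gates can be any Boolean function of the `n` answers.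
* `qn_some`, `qn_all`: the two kinds of blocks; `np_mode`, `conp_mode`: the NP mode and the coNP mode of a circuit
  with `s + t` witness bits are answers with one block.
* `exists_circuits`: for all `n ≥ 1` and `q` all hypotheses of part (2) about the circuits can be satisfied, with
  `D` = the conjunction of the `n` answers.
* `tree`: the queries can depend on the earlier answers in any way.
* `nonconstant`: for `2 ≤ k ≤ v` the function is not constant (`FewNegations.nonconstant`).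
* `hyp`: for `ε < 1` and all `d`, `c`, `q`, `R` the numerical hypotheses hold for all large `v` with
  `m = 8 ⌈log2 v⌉`, `w = m ^ 3`, and the number of the coins of part (1) is at most `w`.
* `power`: for `ε < 1` and all `d` they hold for all large `v` with `w = ⌊v ^ δ⌋`, `m = ⌊v ^ (δ / 4)⌋`,
  `δ = (1 - ε) / (4 (d + 8))`, if `R (q + 1) ^ c ≤ (v / 4) ^ (1 - ε)`, and the number of the coins is at most `w`.
* `alt_mono`, `alt_zero`: the alternation number; without NOT gates it is `0`.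
* `alt_exact`: the circuit with one NOT gate for each of the `N` input bits has the alternation number `N`, not less.
* `excludes`: for every finite set of coins and all large `v` there are circuits which satisfy the hypotheses, and
  in all of them some circuit is large.
* `few_nots`: the case of few NOT gates, `2 ^ (s + r) ≤ R`.
* `inputs`: the case of NOT gates which read input bits.
* `one_point`: the case of one point `Ω = Unit` (P^PH).
-/

set_option autoImplicit false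

namespace Pool.Agent.VAC2.FewNegationsPH

open Pool.Agent.NegLim Pool.Agent.NNDT Pool.Agent.NLM Pool.Agent.NPQ Pool.Agent.PPH
open Filter Topology

/-- **The function has circuits.** -/
theorem exists_out (v k : ℕ) : ∃ C : NCirc (Edge v ⊕ Edge v) 0 0, C.nots = 0 ∧ C.NotsFree ∧
    ∀ z u w, outp C z u w = true ↔ More v k z := by
  obtain ⟨⟨C, c1, c2, c3, c4⟩, _⟩ := FewNegations.exists_circuit v k
  exact ⟨C, c1, c2, fun z u w => ⟨fun h => (c3 z).1 ⟨u, w, h⟩, fun h => (c4 z).2 h u w⟩⟩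

/-- The circuit without gates whose output is the function `φ` of the answers. -/
def fn {E : Type} {q : ℕ} (φ : (Fin q → Bool) → Bool) : NCirc E 0 q := ⟨[], Wire.wit fun _ a => φ a⟩

/-- **Any Boolean function of the answers.** -/
theorem bool {E : Type} {q : ℕ} (φ : (Fin q → Bool) → Bool) :
    (fn (E := E) φ).NotsFree ∧ (fn (E := E) φ).nots = 0 ∧ (fn (E := E) φ).gates.length = 0 ∧
      ∀ z u a, outp (fn (E := E) φ) z u a = φ a := by
  refine ⟨?_, rfl, rfl, fun z u a => rfl⟩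
  rintro n ⟨a, ha⟩
  simp [fn] at ha

theorem qn_some (b : ℕ) (bs : List (Bool × ℕ)) (R : List Bool → Prop) :
    Qn ((true, b) :: bs) R ↔ ∃ w : Fin b → Bool, Qn bs fun l => R (List.ofFn w ++ l) := Iff.rfl

theorem qn_all (b : ℕ) (bs : List (Bool × ℕ)) (R : List Bool → Prop) :
    Qn ((false, b) :: bs) R ↔ ∀ w : Fin b → Bool, Qn bs fun l => R (List.ofFn w ++ l) := Iff.rfl

theorem ans_val {E : Type} {s t n : ℕ} (C : NCirc E s t) (d : Fin n → Bool) (x : E → Bool)
    (w : Fin (t + s) → Bool) :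
    outp (up n C) x (fun i => (List.ofFn w ++ []).getD (t + (i : ℕ)) false)
      (Fin.append d fun j => (List.ofFn w ++ []).getD (j : ℕ) false) =
      outp C x (fun i => w (Fin.natAdd t i)) fun j => w (Fin.castAdd s j) := by
  rw [outp_up]
  congr 1
  · funext i
    rw [List.append_nil, List.getD_eq_getElem _ _ (by simp), List.getElem_ofFn]
    rfl
  · funext j
    rw [Fin.append_right, List.append_nil,
      List.getD_eq_getElem _ _ (by rw [List.length_ofFn]; exact (Fin.castAdd s j).2),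
      List.getElem_ofFn]
    rfl

/-- The NP mode. -/
theorem np_mode {E : Type} {s t n : ℕ} (C : NCirc E s t) (d : Fin n → Bool) (x : E → Bool) :
    AnsQ (up n C) [(true, t + s)] (fun i => t + (i : ℕ)) d x ↔ C.Acc x := by
  constructor
  · rintro ⟨w, hw⟩
    refine ⟨fun i => w (Fin.natAdd t i), fun j => w (Fin.castAdd s j), ?_⟩
    have h := ans_val C d x w
    exact h.symm.trans hw
  · rintro ⟨u, w', hw⟩
    refine ⟨Fin.append w' u, ?_⟩
    refine (ans_val C d x (Fin.append w' u)).trans ?_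
    have h1 : (fun i => Fin.append w' u (Fin.natAdd t i)) = u := by
      funext i
      exact Fin.append_right w' u i
    have h2 : (fun j => Fin.append w' u (Fin.castAdd s j)) = w' := by
      funext j
      exact Fin.append_left w' u j
    rw [h1, h2]
    exact hw

/-- The coNP mode. -/
theorem conp_mode {E : Type} {s t n : ℕ} (C : NCirc E s t) (d : Fin n → Bool) (x : E → Bool) :
    AnsQ (up n C) [(false, t + s)] (fun i => t + (i : ℕ)) d x ↔ All C x := by
  constructor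
  · intro h u w'
    have h3 := (ans_val C d x (Fin.append w' u)).symm.trans (h (Fin.append w' u))
    have h1 : (fun i => Fin.append w' u (Fin.natAdd t i)) = u := by
      funext i
      exact Fin.append_right w' u i
    have h2 : (fun j => Fin.append w' u (Fin.castAdd s j)) = w' := by
      funext j
      exact Fin.append_left w' u j
    rw [h1, h2] at h3
    exact h3
  · intro h w
    exact (ans_val C d x w).trans (h _ _)

/-- A query without quantified bits. -/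
theorem right_nil {E : Type} {n q : ℕ} (C : NCirc E 0 (n + 0)) (l : Fin n)
    (a : (E → Bool) → Fin n → Bool)
    (h : ∀ x u w, outp C x u (Fin.append (hist q l (a x)) w) = a x l) :
    RightQ q C [] (fun i => i.elim0) l a := by
  intro x
  show a x l = true ↔ outp C x _ (Fin.append (hist q l (a x)) _) = true
  rw [h x]

/-- **For all numbers of the queries and of the rounds the hypotheses about the circuits can be satisfied.** -/
theorem exists_circuits (v k n q : ℕ) (hn : 1 ≤ n) :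
    ∃ (C : Fin n → NCirc (Edge v ⊕ Edge v) 0 (n + 0)) (D : NCirc (Edge v ⊕ Edge v) 0 n)
      (a : (Edge v ⊕ Edge v → Bool) → Fin n → Bool),
      (∀ l, (C l).nots = 0) ∧ (∀ l, (C l).NotsFree) ∧ D.NotsFree ∧ D.nots = 0 ∧
      D.gates.length = 0 ∧ (∀ l, RightQ q (C l) [] (fun i => i.elim0) l a) ∧
      ∀ z, More v k z ↔ outp D z (fun i => i.elim0) (a z) = true := by
  classical
  obtain ⟨C, c1, c2, c3⟩ := exists_out v k
  obtain ⟨d1, d2, d3, d4⟩ := bool (E := Edge v ⊕ Edge v) (q := n) fun a =>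
    decide (∀ j, a j = true)
  refine ⟨fun _ => up n C, fn fun a => decide (∀ j, a j = true),
    fun z _ => decide (More v k z), fun _ => (nots_up n C).trans c1,
    fun _ => notsFree_up n C c2, d1, d2, d3, fun l => right_nil _ l _ fun x u w => ?_,
    fun z => ?_⟩
  · rw [outp_up, Bool.eq_iff_iff, c3, decide_eq_true_iff]
  · rw [d4, decide_eq_true_iff]
    exact ⟨fun h _ => decide_eq_true h, fun h => of_decide_eq_true (h ⟨0, hn⟩)⟩

/-- **The queries can depend on the earlier answers in any way.** -/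
theorem tree {E : Type} {n q : ℕ} (l : Fin n) (φ : (Fin n → Bool) → Bool)
    (a : (E → Bool) → Fin n → Bool) (h : ∀ x, a x l = φ (hist q l (a x))) :
    (fn (E := E) φ).NotsFree ∧ (fn (E := E) φ).nots = 0 ∧ (fn (E := E) φ).gates.length = 0 ∧
      RightQ q (t := 0) (fn (E := E) φ) [] (fun i => i.elim0) l a := by
  obtain ⟨d1, d2, d3, d4⟩ := bool (E := E) (q := n) φ
  refine ⟨d1, d2, d3, right_nil _ l a fun x u w => ?_⟩
  have h3 : Fin.append (hist q l (a x)) w = hist q l (a x) := by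
    funext i
    exact Fin.append_left (hist q l (a x)) w i
  show outp (fn (E := E) φ) x u (Fin.append (hist q l (a x)) w) = a x l
  rw [d4, h x]
  exact congrArg φ h3

/-- `N` is at least `v ^ 2 / 4`. -/
theorem n_ge (v N : ℕ) (hv : 4 ≤ v) (hN : N = v * (v - 1) / 2) : (v : ℝ) * (v / 4) ≤ N := by
  have h1 : v * v ≤ 4 * N := by
    have h2 : v * (v - 1) < 2 * (N + 1) := by
      rw [hN]
      exact Nat.lt_mul_div_succ _ (by norm_num)
    have h3 : v * v = v * (v - 1) + v := by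
      obtain ⟨w, rfl⟩ : ∃ w, v = w + 1 := ⟨v - 1, by omega⟩
      simp only [Nat.add_sub_cancel]
      ring
    have h4 : 4 * v ≤ v * v := Nat.mul_le_mul_right v (by omega)
    omega
  have h2 : (v : ℝ) * v ≤ 4 * N := by exact_mod_cast h1
  linarith

/-- The numerical condition follows from two conditions. -/
theorem n_split (ε : ℝ) (hε : ε < 1) (v N : ℕ) (hv : 4 ≤ v) (hN : N = v * (v - 1) / 2)
    (A B : ℝ) (hA0 : 0 ≤ A) (hA : A ≤ (v / 4 : ℝ) ^ (1 - ε)) (hB : B ≤ (v : ℝ) ^ (1 - ε)) :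
    A * B ≤ (N : ℝ) ^ (1 - ε) := by
  have hv0 : (0 : ℝ) ≤ v := Nat.cast_nonneg v
  calc A * B ≤ A * (v : ℝ) ^ (1 - ε) := mul_le_mul_of_nonneg_left hB hA0
    _ ≤ (v / 4 : ℝ) ^ (1 - ε) * (v : ℝ) ^ (1 - ε) :=
        mul_le_mul_of_nonneg_right hA (by positivity)
    _ = ((v / 4 : ℝ) * v) ^ (1 - ε) := (Real.mul_rpow (by positivity) hv0).symm
    _ ≤ (N : ℝ) ^ (1 - ε) := by
        refine Real.rpow_le_rpow (by positivity) ?_ (by linarith)
        rw [mul_comm]
        exact n_ge v N hv hN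

/-- **The numerical hypotheses, polylogarithmic parameters.** -/
theorem hyp (ε : ℝ) (hε : ε < 1) (d c q R : ℕ) : ∃ v₀ : ℕ, ∀ v ≥ v₀, ∀ k m w N : ℕ,
    m = 8 * Nat.clog 2 v → w = m ^ 3 → k = m ^ 2 → N = v * (v - 1) / 2 →
    v ^ 8 ≤ 2 ^ m ∧ m ≤ w ∧ k * Nat.clog 2 v + 1 ≤ w ∧
    ((R * (q + 1) ^ c * w ^ (4 * (d + 8)) : ℕ) : ℝ) ≤ (N : ℝ) ^ (1 - ε) := by
  have hpos : 0 < 1 - ε := by linarith
  have h1 : ∀ᶠ v : ℕ in atTop, ‖Real.log (v : ℝ) ^ ((12 * (d + 8) : ℕ) : ℝ)‖ ≤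
      1 / (24 : ℝ) ^ (12 * (d + 8)) * ‖(v : ℝ) ^ (1 - ε)‖ :=
    tendsto_natCast_atTop_atTop.eventually
      ((isLittleO_log_rpow_rpow_atTop _ hpos).bound (by positivity))
  have h2 : Tendsto (fun v : ℕ => ((v : ℝ) / 4) ^ (1 - ε)) atTop atTop :=
    (tendsto_rpow_atTop hpos).comp
      ((tendsto_natCast_atTop_atTop (R := ℝ)).atTop_div_const (by norm_num))
  have h3 := h1.and ((h2.eventually_ge_atTop ((R * (q + 1) ^ c : ℕ) : ℝ)).and
    (eventually_ge_atTop 4))
  obtain ⟨v₀, hv₀⟩ := eventually_atTop.1 h3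
  refine ⟨v₀, fun v hv k m w N hm hw hk hN => ?_⟩
  obtain ⟨hlog, hR, hv4⟩ := hv₀ v hv
  have hcl1 : 1 ≤ Nat.clog 2 v := Nat.clog_pos (by norm_num) (by omega)
  have hm8 : 8 ≤ m := by omega
  refine ⟨?_, ?_, ?_, ?_⟩
  · rw [hm, mul_comm 8, pow_mul]
    exact Nat.pow_le_pow_left (Nat.le_pow_clog (by norm_num) v) 8
  · rw [hw]
    exact Nat.le_self_pow (by norm_num) m
  · rw [hw, hk]
    have h4 : m ^ 3 = m ^ 2 * (8 * Nat.clog 2 v) := by
      rw [← hm]
      ring
    rw [h4]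
    have h5 : 1 ≤ m ^ 2 * Nat.clog 2 v := Nat.mul_pos (by positivity) hcl1
    nlinarith
  · have hv0 : (0 : ℝ) < v := by
      have : (4 : ℝ) ≤ v := by exact_mod_cast hv4
      linarith
    have hl1 : 1 ≤ Real.log v := by
      rw [Real.le_log_iff_exp_le hv0]
      have h5 : (4 : ℝ) ≤ v := by exact_mod_cast hv4
      have h6 := Real.exp_one_lt_d9
      linarith
    have hcl : (Nat.clog 2 v : ℝ) ≤ 3 * Real.log v := by
      have := S2C.few_clog v (by omega)
      linarith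
    have hm1 : (m : ℝ) ≤ 24 * Real.log v := by
      rw [hm]
      push_cast
      linarith
    push_cast
    rw [hw]
    refine n_split ε hε v N hv4 hN _ _ (by positivity) (by exact_mod_cast hR) ?_
    have h7 : ((m : ℝ) ^ 3) ^ (4 * (d + 8)) ≤ (24 * Real.log v) ^ (12 * (d + 8)) := by
      rw [← pow_mul, show 3 * (4 * (d + 8)) = 12 * (d + 8) by ring]
      exact pow_le_pow_left₀ (Nat.cast_nonneg m) hm1 _
    push_cast
    refine h7.trans ?_
    rw [Real.norm_of_nonneg (by positivity), Real.norm_of_nonneg (by positivity),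
      Real.rpow_natCast] at hlog
    rw [mul_pow]
    calc (24 : ℝ) ^ (12 * (d + 8)) * Real.log v ^ (12 * (d + 8))
        ≤ (24 : ℝ) ^ (12 * (d + 8)) * (1 / (24 : ℝ) ^ (12 * (d + 8)) * (v : ℝ) ^ (1 - ε)) :=
          mul_le_mul_of_nonneg_left hlog (by positivity)
      _ = (v : ℝ) ^ (1 - ε) := by
          field_simp

/-- **The numerical hypotheses, parameters which are powers of `v`.** -/
theorem power (ε : ℝ) (hε : ε < 1) (d : ℕ) : ∃ v₀ : ℕ, ∀ v ≥ v₀, ∀ k m w N c q R : ℕ, ∀ δ : ℝ,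
    δ = (1 - ε) / (4 * (d + 8)) → m = ⌊(v : ℝ) ^ (δ / 4)⌋₊ → w = ⌊(v : ℝ) ^ δ⌋₊ →
    k = m ^ 2 → N = v * (v - 1) / 2 → ((R * (q + 1) ^ c : ℕ) : ℝ) ≤ ((v : ℝ) / 4) ^ (1 - ε) →
    v ^ 8 ≤ 2 ^ m ∧ m ≤ w ∧ k * Nat.clog 2 v + 1 ≤ w ∧
    ((R * (q + 1) ^ c * w ^ (4 * (d + 8)) : ℕ) : ℝ) ≤ (N : ℝ) ^ (1 - ε) := by
  obtain ⟨δ, hδ⟩ : ∃ δ : ℝ, δ = (1 - ε) / (4 * (d + 8)) := ⟨_, rfl⟩
  have hδ0 : 0 < δ := by
    rw [hδ]
    have : (0 : ℝ) ≤ d := Nat.cast_nonneg d
    have : 0 < 1 - ε := by linarith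
    positivity
  have h1 : ∀ᶠ v : ℕ in atTop, ‖Real.log (v : ℝ)‖ ≤ 1 / 100 * ‖(v : ℝ) ^ (δ / 4)‖ :=
    tendsto_natCast_atTop_atTop.eventually
      ((isLittleO_log_rpow_atTop (by positivity)).bound (by norm_num))
  have h2 : Tendsto (fun v : ℕ => (v : ℝ) ^ (δ / 4)) atTop atTop :=
    (tendsto_rpow_atTop (by positivity)).comp (tendsto_natCast_atTop_atTop (R := ℝ))
  obtain ⟨v₀, hv₀⟩ := eventually_atTop.1 (h1.and ((h2.eventually_ge_atTop 100).and
    (eventually_ge_atTop 4)))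
  refine ⟨v₀, fun v hv k m w N c q R δ' hδ' hm hw hk hN hR => ?_⟩
  obtain rfl : δ' = δ := by rw [hδ', hδ]
  obtain ⟨hlog, hx, hv4⟩ := hv₀ v hv
  have hv4' : (4 : ℝ) ≤ v := by exact_mod_cast hv4
  have hv0 : (0 : ℝ) < v := by linarith
  obtain ⟨x, hxd⟩ : ∃ x : ℝ, x = (v : ℝ) ^ (δ' / 4) := ⟨_, rfl⟩
  rw [← hxd] at hlog hx hm
  have hl0 : 0 ≤ Real.log v := Real.log_nonneg (by linarith)
  rw [Real.norm_of_nonneg hl0, Real.norm_of_nonneg (by linarith)] at hlog
  have hx4 : (v : ℝ) ^ δ' = x ^ 4 := by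
    rw [hxd, ← Real.rpow_natCast, ← Real.rpow_mul hv0.le]
    congr 1
    push_cast
    ring
  rw [hx4] at hw
  have hm1 : (m : ℝ) ≤ x := by
    rw [hm]
    exact Nat.floor_le (by linarith)
  have hm2 : x < m + 1 := by
    rw [hm]
    exact Nat.lt_floor_add_one x
  have hw1 : (w : ℝ) ≤ x ^ 4 := by
    rw [hw]
    exact Nat.floor_le (by positivity)
  refine ⟨?_, ?_, ?_, ?_⟩
  · have h5 : (v : ℝ) ^ 8 ≤ 2 ^ m := by
      rw [← Real.log_le_log_iff (by positivity) (by positivity), Real.log_pow, Real.log_pow]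
      have h6 := Real.log_two_gt_d9
      push_cast
      nlinarith
    exact_mod_cast h5
  · rw [hm, hw]
    refine Nat.floor_le_floor ?_
    nlinarith [mul_nonneg (by linarith : (0 : ℝ) ≤ x) (by linarith : (0 : ℝ) ≤ x),
      mul_nonneg (mul_nonneg (by linarith : (0 : ℝ) ≤ x) (by linarith : (0 : ℝ) ≤ x))
        (by linarith : (0 : ℝ) ≤ x)]
  · rw [hw, Nat.le_floor_iff (by positivity), hk]
    push_cast
    have hcl : (Nat.clog 2 v : ℝ) ≤ 2 * Real.log v + 1 := S2C.few_clog v (by omega)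
    have h7 : (Nat.clog 2 v : ℝ) ≤ x := by linarith
    have h8 : (m : ℝ) ^ 2 ≤ x ^ 2 := pow_le_pow_left₀ (Nat.cast_nonneg m) hm1 2
    calc (m : ℝ) ^ 2 * (Nat.clog 2 v : ℝ) + 1 ≤ x ^ 2 * x + x ^ 3 := by
          have h9 : (m : ℝ) ^ 2 * (Nat.clog 2 v : ℝ) ≤ x ^ 2 * x :=
            mul_le_mul h8 h7 (Nat.cast_nonneg _) (by positivity)
          have h10 : (1 : ℝ) ≤ x ^ 3 := one_le_pow₀ (by linarith)
          linarith
      _ = 2 * x ^ 3 := by ring
      _ ≤ x * x ^ 3 := mul_le_mul_of_nonneg_right (by linarith) (by positivity)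
      _ = x ^ 4 := by ring
  · push_cast
    refine n_split ε hε v N hv4 hN _ _ (by positivity) (by exact_mod_cast hR) ?_
    have h9 : (w : ℝ) ^ (4 * (d + 8)) ≤ (x ^ 4) ^ (4 * (d + 8)) :=
      pow_le_pow_left₀ (Nat.cast_nonneg w) hw1 _
    refine h9.trans (le_of_eq ?_)
    rw [← hx4, ← Real.rpow_natCast, ← Real.rpow_mul hv0.le]
    congr 1
    rw [hδ']
    push_cast
    have : (4 * ((d : ℝ) + 8)) ≠ 0 := by positivity
    field_simp

theorem alt_mono {E : Type} {s t A B : ℕ} {C : NCirc E s t} (h : Alt C A) (hAB : A ≤ B) :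
    Alt C B := fun u m x hx => (h u m x hx).trans hAB

theorem alt_zero {E : Type} {s t A : ℕ} {C : NCirc E s t} (h : C.nots = 0) : Alt C A :=
  alt_mono (ALX_thm.1 E s t C) (by rw [h]; exact Nat.zero_le _)

/-- The circuit with one NOT gate for each input bit. -/
def allNots (N : ℕ) : NCirc (Fin N) 0 0 :=
  ⟨List.ofFn fun e => Gate.not (Wire.inp e), Wire.wit fun _ _ => true⟩

/-- **The alternation number of `N` NOT gates at the `N` input bits is `N`, not less.** -/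
theorem alt_exact (N A : ℕ) : Alt (allNots N) A ↔ N ≤ A := by
  classical
  have hin : NotsAtInputs (allNots N) := by
    intro n a ha
    have h1 : (List.ofFn fun e : Fin N => (Gate.not (Wire.inp e) : Gate (Fin N) 0 0))[n]? =
        some (Gate.not a) := ha
    rw [List.getElem?_ofFn] at h1
    split_ifs at h1 with h2
    · injection h1 with h3
      injection h3 with h4
      exact ⟨_, h4.symm⟩
  have hn : (allNots N).nots ≤ N := by
    have h1 : (allNots N).nots ≤ (allNots N).gates.length := List.countP_le_length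
    have h2 : (allNots N).gates.length = N := List.length_ofFn
    omega
  constructor
  · intro h
    have h1 := h (fun i => i.elim0) N (fun i e => decide ((e : ℕ) < i)) (fun i e he => by
      simp only [decide_eq_true_eq] at he ⊢
      omega)
    rw [Finset.filter_true_of_mem, Finset.card_range] at h1
    · exact h1
    · intro i hi hs
      have hi' : i < N := Finset.mem_range.1 hi
      have hg : (allNots N).gates[i]? = some (Gate.not (Wire.inp ⟨i, hi'⟩)) := by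
        show (List.ofFn fun e : Fin N => (Gate.not (Wire.inp e) : Gate (Fin N) 0 0))[i]? = _
        rw [List.getElem?_ofFn, dif_pos hi']
      have h2 := hs i ⟨_, hg⟩
      rw [ALXM.get_inp _ _ _ _ i _ hg, ALXM.get_inp _ _ _ _ i _ hg] at h2
      simp at h2
  · intro h
    exact alt_mono (ALX_thm.2.2 _ _ _ _ hin) (hn.trans h)

/-- **Part (2) is a real condition**: for every finite set `Ω` of coins there are circuits which satisfy all
hypotheses, and in all of them some circuit is large. -/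
theorem excludes (ε : ℝ) (hε : 0 < ε) (hε1 : ε < 1) (d c q n : ℕ) (hn : 1 ≤ n) (hq : 1 ≤ q)
    (hc : n ≤ c * q) (Ω : Type) [Finite Ω] [Nonempty Ω] : ∃ v₀ : ℕ, ∀ v ≥ v₀, ∀ k m w N : ℕ,
    m = 8 * Nat.clog 2 v → w = m ^ 3 → k = m ^ 2 → N = v * (v - 1) / 2 →
    ∃ (C : Ω → Fin n → NCirc (Edge v ⊕ Edge v) 0 (n + 0)) (D : Ω → NCirc (Edge v ⊕ Edge v) 0 n)
      (a : Ω → (Edge v ⊕ Edge v → Bool) → Fin n → Bool),
      (∀ o l, (C o l).NotsFree ∧ Alt (C o l) 0 ∧ 0 ≤ 0 ∧
        ([] : List (Bool × ℕ)).length ≤ d ∧ n + tot [] ≤ w ∧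
        RightQ q (C o l) [] (fun i => i.elim0) l (a o)) ∧
      (∀ o, (D o).NotsFree ∧ Alt (D o) 0) ∧
      (∀ x, (w + 2) * Nat.card Ω ≤ 2 * w * Nat.card
        {o : Ω // More v k x ↔ outp (D o) x (fun i => i.elim0) (a o x) = true}) ∧
      ∃ o l, 2 ^ (m / 2) < (C o l).gates.length := by
  obtain ⟨v₁, h₁⟩ := lower_alt ε hε hε1.le
  obtain ⟨v₂, h₂⟩ := hyp ε hε1 d c q 1
  refine ⟨max (max v₁ v₂) (2 ^ n), fun v hv k m w N hm hw hk hN => ?_⟩
  obtain ⟨e1, e2, e3, e4⟩ := h₂ v ((le_max_right _ _).trans ((le_max_left _ _).trans hv)) k m w N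
    hm hw hk hN
  obtain ⟨C, D, a, c1, c2, c3, c4, c5, c6, c7⟩ := exists_circuits v k n q hn
  have h4 : n ≤ Nat.clog 2 v := by
    have h3 : 2 ^ n ≤ v := (le_max_right _ _).trans hv
    have h5 := (Nat.clog_mono_right 2 h3)
    rwa [Nat.clog_pow 2 n (by norm_num)] at h5
  have hnm : n ≤ m := by omega
  have hnw : n ≤ w := hnm.trans e2
  have hw2 : w + 2 ≤ 2 * w := by omega
  have hall : ∀ (_o : Ω) l, (C l).NotsFree ∧ Alt (C l) 0 ∧ 0 ≤ 0 ∧
      ([] : List (Bool × ℕ)).length ≤ d ∧ n + tot [] ≤ w ∧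
      RightQ q (C l) [] (fun i => i.elim0) l a := fun _ l =>
    ⟨c2 l, alt_zero (c1 l), le_rfl, Nat.zero_le _, by
      show n + 0 ≤ w
      omega, c6 l⟩
  have hD : ∀ _o : Ω, D.NotsFree ∧ Alt D 0 := fun _ => ⟨c3, alt_zero c4⟩
  have hF : ∀ x, (w + 2) * Nat.card Ω ≤ 2 * w * Nat.card
      {o : Ω // More v k x ↔ outp D x (fun i => i.elim0) (a x) = true} := by
    intro x
    rw [Nat.card_congr (Equiv.subtypeUnivEquiv fun _ => c7 x)]
    exact Nat.mul_le_mul_right _ hw2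
  refine ⟨fun _ => C, fun _ => D, fun _ => a, hall, hD, hF, ?_⟩
  obtain ⟨o, h | h⟩ := h₁ v ((le_max_left _ _).trans ((le_max_left _ _).trans hv)) k m w N n q c 0
    0 d Ω (fun _ _ => 0) (fun _ _ => 0) (fun _ _ => []) (fun _ _ i => i.elim0) (fun _ => C)
    (fun _ => D) (fun _ => a) e1 e2 hk hN hq hc hnw (by simpa using e4) hall hD hF
  · have h6 : 2 ^ (m / 2) < D.gates.length := h
    rw [c5] at h6
    exact absurd h6 (Nat.not_lt_zero _)
  · exact ⟨o, h⟩

/-- **The case of few NOT gates**: at most `r` NOT gates in every circuit. -/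
theorem few_nots (ε : ℝ) (hε : 0 < ε) (hε1 : ε ≤ 1) :
    ∃ v₀ : ℕ, ∀ v ≥ v₀, ∀ (k m w N n q c σ r d : ℕ) (Ω : Type) [Finite Ω] [Nonempty Ω]
      (s t : Ω → Fin n → ℕ) (bs : Ω → Fin n → List (Bool × ℕ))
      (ρ : (o : Ω) → (l : Fin n) → Fin (s o l) → ℕ)
      (C : (o : Ω) → (l : Fin n) → NCirc (Edge v ⊕ Edge v) (s o l) (n + t o l))
      (D : Ω → NCirc (Edge v ⊕ Edge v) 0 n)
      (a : Ω → (Edge v ⊕ Edge v → Bool) → Fin n → Bool),
      v ^ 8 ≤ 2 ^ m → m ≤ w → k = m ^ 2 → N = v * (v - 1) / 2 → 1 ≤ q → n ≤ c * q → n ≤ w →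
      ((2 ^ (σ + r) * (q + 1) ^ c * w ^ (4 * (d + 8)) : ℕ) : ℝ) ≤ (N : ℝ) ^ (1 - ε) →
      (∀ o l, (C o l).NotsFree ∧ (C o l).nots ≤ r ∧ s o l ≤ σ ∧ (bs o l).length ≤ d ∧
        n + tot (bs o l) ≤ w ∧ RightQ q (C o l) (bs o l) (ρ o l) l (a o)) →
      (∀ o, (D o).NotsFree ∧ (D o).nots ≤ r) →
      (∀ x, (w + 2) * Nat.card Ω ≤ 2 * w * Nat.card
        {o : Ω // More v k x ↔ outp (D o) x (fun i => i.elim0) (a o x) = true}) →
      ∃ o, 2 ^ (m / 2) < (D o).gates.length ∨ ∃ l, 2 ^ (m / 2) < (C o l).gates.length := by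
  obtain ⟨v₁, h₁⟩ := lower_alt ε hε hε1
  have hA : ∀ (E : Type) (s t r : ℕ) (C : NCirc E s t), C.nots ≤ r → Alt C (2 ^ r - 1) :=
    fun E s t r C h => alt_mono (ALX_thm.1 E s t C)
      (Nat.sub_le_sub_right (Nat.pow_le_pow_right (by norm_num) h) 1)
  refine ⟨v₁, fun v hv k m w N n q c σ r d Ω _ _ s t bs ρ C D a e1 e2 hk hN hq hc hnw e4 hC hD
    hF => ?_⟩
  refine h₁ v hv k m w N n q c σ (2 ^ r - 1) d Ω s t bs ρ C D a e1 e2 hk hN hq hc hnw ?_
    (fun o l => ⟨(hC o l).1, hA _ _ _ _ _ (hC o l).2.1, (hC o l).2.2⟩)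
    (fun o => ⟨(hD o).1, hA _ _ _ _ _ (hD o).2⟩) hF
  have h2 : 2 ^ r - 1 + 1 = 2 ^ r := Nat.sub_add_cancel Nat.one_le_two_pow
  rw [h2, ← pow_add]
  exact e4

/-- **The case of NOT gates which read input bits**: at most `A` such NOT gates in every circuit. -/
theorem inputs (ε : ℝ) (hε : 0 < ε) (hε1 : ε ≤ 1) :
    ∃ v₀ : ℕ, ∀ v ≥ v₀, ∀ (k m w N n q c A d : ℕ) (Ω : Type) [Finite Ω] [Nonempty Ω]
      (t : Ω → Fin n → ℕ) (bs : Ω → Fin n → List (Bool × ℕ))
      (C : (o : Ω) → (l : Fin n) → NCirc (Edge v ⊕ Edge v) 0 (n + t o l))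
      (D : Ω → NCirc (Edge v ⊕ Edge v) 0 n)
      (a : Ω → (Edge v ⊕ Edge v → Bool) → Fin n → Bool),
      v ^ 8 ≤ 2 ^ m → m ≤ w → k = m ^ 2 → N = v * (v - 1) / 2 → 1 ≤ q → n ≤ c * q → n ≤ w →
      (((A + 1) * (q + 1) ^ c * w ^ (4 * (d + 8)) : ℕ) : ℝ) ≤ (N : ℝ) ^ (1 - ε) →
      (∀ o l, NotsAtInputs (C o l) ∧ (C o l).nots ≤ A ∧ (bs o l).length ≤ d ∧
        n + tot (bs o l) ≤ w ∧ RightQ q (C o l) (bs o l) (fun i => i.elim0) l (a o)) →
      (∀ o, NotsAtInputs (D o) ∧ (D o).nots ≤ A) →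
      (∀ x, (w + 2) * Nat.card Ω ≤ 2 * w * Nat.card
        {o : Ω // More v k x ↔ outp (D o) x (fun i => i.elim0) (a o x) = true}) →
      ∃ o, 2 ^ (m / 2) < (D o).gates.length ∨ ∃ l, 2 ^ (m / 2) < (C o l).gates.length := by
  obtain ⟨v₁, h₁⟩ := lower_alt ε hε hε1
  refine ⟨v₁, fun v hv k m w N n q c A d Ω _ _ t bs C D a e1 e2 hk hN hq hc hnw e4 hC hD
    hF => ?_⟩
  exact h₁ v hv k m w N n q c 0 A d Ω (fun _ _ => 0) t bs (fun _ _ i => i.elim0) C D a e1 e2 hk
    hN hq hc hnw (by simpa using e4)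
    (fun o l => ⟨ALX_thm.2.1 _ _ _ _ (hC o l).1,
      alt_mono (ALX_thm.2.2 _ _ _ _ (hC o l).1) (hC o l).2.1, le_rfl, (hC o l).2.2⟩)
    (fun o => ⟨ALX_thm.2.1 _ _ _ _ (hD o).1, alt_mono (ALX_thm.2.2 _ _ _ _ (hD o).1) (hD o).2⟩)
    hF

/-- **The case of one point**: no coins, P^PH. -/
theorem one_point (ε : ℝ) (hε : 0 < ε) (hε1 : ε ≤ 1) :
    ∃ v₀ : ℕ, ∀ v ≥ v₀, ∀ (k m w N n q c σ A d : ℕ) (s t : Fin n → ℕ)
      (bs : Fin n → List (Bool × ℕ)) (ρ : (l : Fin n) → Fin (s l) → ℕ)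
      (C : (l : Fin n) → NCirc (Edge v ⊕ Edge v) (s l) (n + t l))
      (D : NCirc (Edge v ⊕ Edge v) 0 n)
      (a : (Edge v ⊕ Edge v → Bool) → Fin n → Bool),
      v ^ 8 ≤ 2 ^ m → m ≤ w → k = m ^ 2 → N = v * (v - 1) / 2 → 1 ≤ q → n ≤ c * q → n ≤ w →
      ((2 ^ σ * (A + 1) * (q + 1) ^ c * w ^ (4 * (d + 8)) : ℕ) : ℝ) ≤ (N : ℝ) ^ (1 - ε) →
      (∀ l, (C l).NotsFree ∧ Alt (C l) A ∧ s l ≤ σ ∧ (bs l).length ≤ d ∧
        n + tot (bs l) ≤ w ∧ RightQ q (C l) (bs l) (ρ l) l a) →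
      D.NotsFree → Alt D A →
      (∀ x, More v k x ↔ outp D x (fun i => i.elim0) (a x) = true) →
      2 ^ (m / 2) < D.gates.length ∨ ∃ l, 2 ^ (m / 2) < (C l).gates.length := by
  obtain ⟨v₁, h₁⟩ := lower_alt ε hε hε1
  refine ⟨max v₁ 2, fun v hv k m w N n q c σ A d s t bs ρ C D a e1 e2 hk hN hq hc hnw e4 hC hD
    hDA hF => ?_⟩
  have hv2 : 2 ≤ v := (le_max_right _ _).trans hv
  have hm : 2 ≤ m := by
    by_contra hcon
    have h3 : 2 ^ m ≤ 2 ^ 1 := Nat.pow_le_pow_right (by norm_num) (by omega)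
    have h4 : 2 ^ 8 ≤ v ^ 8 := Nat.pow_le_pow_left hv2 8
    norm_num at h3 h4
    omega
  obtain ⟨-, h⟩ := h₁ v ((le_max_left _ _).trans hv) k m w N n q c σ A d Unit (fun _ => s)
    (fun _ => t) (fun _ => bs) (fun _ => ρ) (fun _ => C) (fun _ => D) (fun _ => a) e1 e2 hk hN hq
    hc hnw e4 (fun _ => hC) (fun _ => ⟨hD, hDA⟩) (fun x => by
      rw [Nat.card_congr (Equiv.subtypeUnivEquiv fun _ => hF x)]
      exact Nat.mul_le_mul_right _ (by omega))
  exact h

end Pool.Agent.VAC2.FewNegationsPH
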