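import Pool.Agent.VAC2.MP_153864_lc_FewNegations
import Pool.Agent.NCH.Fin
import Pool.Agent.NCH.Rounds
import Pool.Agent.NPP.UPP

/-!
# Certificate: the statement of MP_153864_lc/FewNegationsPSPACE is not vacuous

* `exists_circuit`: for all `qs`, `L`, `v`, `k` there is a circuit of the model without witness bits and without
  NOT gates which computes `AltClq qs L v k` in the PP mode.
* `bool`: a circuit `D` without gates can be any Boolean function of the `n` answers.
* `cnt_some`, `cnt_all`, `cnt_most`: the counting quantifiers contain THERE IS, FOR ALL and MORE THAN HALF.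
* `cnt_blocks`: a mode with blocks of equal quantifiers (levels of the polynomial hierarchy) is a mode with one
  counting quantifier for every block.
* `right_maj`: the PP mode with at most `W` witness bits is an outermost counting quantifier (`up`: the circuit
  does not read the earlier answers).
* `exists_circuits`: for all `n ≥ 1` and `q` all hypotheses of part (2) can be satisfied, with `D` = the conjunction
  of the `n` answers.
* `tree`: for every Boolean function `φ` of the earlier answers the circuit without gates with the output `φ` is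
  right if `a x l` is `φ` of the earlier answers: the queries can depend on the earlier answers in any way.
* `nonconstant`: for `2 ≤ k ≤ v` the function is not constant.
* `excludes`: for every `0 < ε ≤ 1`, every large `v` and all other parameters as in part (2) there are circuits which
  satisfy the hypotheses, and in all of them some circuit is large.
* `few_bits`: for all `a`, `h` and all large `v`, with `2 ^ u ≤ v ^ a` and `r = ⌈log2 v⌉`, the number of the bits of part
  (1) is at most `v ^ (ε / 3)`.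
* `factor`, `common`: with common bounds `s`, `r` the conditions of part (2) hold if
  `4 (W + 3) (q + 1) ^ c 2 ^ (s + r) ≤ 2 ^ u`.
* `threshold`: this holds if `v` is large and `v (q + 1) ^ c 2 ^ (s + r) ≤ 2 ^ u`.
* `rounds_tight`: for `r = s = 0` and `(q + 1) ^ c` larger than the number of the input bits every function with a
  circuit of `G` gates (any NOT gates) is computed as in part (2), without witness bits, by circuits with at most
  `2 G + 12 (N + 1) ^ 3` gates.
-/

set_option autoImplicit false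

namespace Pool.Agent.VAC2.FewNegationsPSPACE

open Pool.Agent.NegLim Pool.Agent.NNDT Pool.Agent.NLM Pool.Agent.NPP Pool.Agent.NPQ
open Pool.Agent.NCH
open Pool.Agent.NEG72 (clq_iff)
open Pool.Agent.Lib_helper26.TQ (Alt)

theorem alt_mono (qs : List Bool) (R R' : List Bool → Prop) (h : ∀ l, R l → R' l) :
    Alt qs R → Alt qs R' := by
  induction qs generalizing R R' with
  | nil => exact h []
  | cons b qs ih =>
    cases b with
    | true => exact fun ⟨b, hb⟩ => ⟨b, ih _ _ (fun l => h _) hb⟩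
    | false => exact fun hb b => ih _ _ (fun l => h _) (hb b)

theorem alt_none (qs : List Bool) (R : List Bool → Prop) (h : ∀ l, ¬ R l) : ¬ Alt qs R := by
  induction qs generalizing R with
  | nil => exact h []
  | cons b qs ih =>
    cases b with
    | true => exact fun ⟨b, hb⟩ => ih _ (fun l => h _) hb
    | false => exact fun hb => ih _ (fun l => h _) (hb true)

lemma altClq_mono (qs : List Bool) (L v k : ℕ) (z z' : (Fin L → Bool) × Edge v → Bool)
    (h : ∀ e, z e = true → z' e = true) (hz : AltClq qs L v k z) : AltClq qs L v k z' := by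
  refine alt_mono qs _ _ (fun l h1 => ?_) hz
  rw [clq_iff] at h1 ⊢
  obtain ⟨S, h2, h3⟩ := h1
  exact ⟨S, h2, fun e h4 h5 => h _ (h3 e h4 h5)⟩

/-- **The function has circuits.** -/
theorem exists_circuit (qs : List Bool) (L v k : ℕ) :
    ∃ C : NCirc ((Fin L → Bool) × Edge v) 0 0, C.nots = 0 ∧
    C.NotsFree ∧ ∀ z, Maj C z ↔ AltClq qs L v k z := by
  obtain ⟨⟨C, c1, c2, c3, c4⟩, _⟩ :=
    FewNegations.circuits (AltClq qs L v k) (altClq_mono qs L v k)
  have h1 : ∀ z, acc C z = if outp C z default default = true then 1 else 0 := by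
    intro z
    unfold acc
    split_ifs with h
    · rw [Finset.card_eq_one]
      refine ⟨(default, default), ?_⟩
      ext ⟨u, w⟩
      rw [Finset.mem_filter, Finset.mem_singleton, Subsingleton.elim u default,
        Subsingleton.elim w default]
      exact ⟨fun _ => rfl, fun _ => ⟨Finset.mem_univ _, h⟩⟩
    · rw [Finset.card_eq_zero, Finset.filter_eq_empty_iff]
      rintro ⟨u, w⟩ _
      rw [Subsingleton.elim u default, Subsingleton.elim w default]
      exact h
  have h2 : ∀ z, outp C z default default = true ↔ AltClq qs L v k z := by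
    intro z
    rw [← c4 z]
    constructor
    · intro h u w
      rw [Subsingleton.elim u default, Subsingleton.elim w default]
      exact h
    · intro h
      exact h default default
  have h3 : ∀ z, 0 < acc C z ↔ AltClq qs L v k z := by
    intro z
    rw [h1, ← h2]
    split_ifs with h
    · exact ⟨fun _ => h, fun _ => Nat.one_pos⟩
    · exact ⟨fun h' => absurd h' (lt_irrefl 0), fun h' => absurd h' h⟩
  refine ⟨C, c1, c2, fun z => ?_⟩
  rw [← h3]
  show 2 ^ (0 + 0) < 2 * acc C z ↔ _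
  rw [Nat.add_zero, pow_zero]
  omega

/-- The function is not constant. -/
theorem nonconstant (qs : List Bool) (L v k : ℕ) (hk : 2 ≤ k) (hkv : k ≤ v) :
    AltClq qs L v k (fun _ => true) ∧ ¬ AltClq qs L v k (fun _ => false) := by
  constructor
  · refine MAINM.alt_triv qs _ fun l => ?_
    rw [clq_iff]
    obtain ⟨S, _, hS⟩ := Finset.exists_subset_card_eq (s := (Finset.univ : Finset (Fin v)))
      (n := k) (by simpa using hkv)
    exact ⟨S, hS, fun _ _ _ => rfl⟩
  · refine alt_none qs _ fun l h1 => ?_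
    rw [clq_iff] at h1
    obtain ⟨S, hS, h2⟩ := h1
    obtain ⟨a, ha, b, hb, hab⟩ := Finset.one_lt_card.1 (by omega : 1 < S.card)
    rcases lt_or_gt_of_ne hab with h3 | h3
    · have := h2 ⟨(a, b), h3⟩ ha hb
      cases this
    · have := h2 ⟨(b, a), h3⟩ hb ha
      cases this

/-! ### counting quantifiers -/

theorem cnt_some (b : ℕ) (bs : List (ℕ × ℕ)) (R : List Bool → Prop) :
    Cnt ((b, 0) :: bs) R ↔ ∃ w : Fin b → Bool, Cnt bs fun l => R (List.ofFn w ++ l) := by
  classical
  rw [Cnt, Finset.card_pos]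
  constructor
  · rintro ⟨w, hw⟩
    exact ⟨w, (@Finset.mem_filter _ _ (_) _ _).1 hw |>.2⟩
  · rintro ⟨w, hw⟩
    exact ⟨w, (@Finset.mem_filter _ _ (_) _ _).2 ⟨Finset.mem_univ _, hw⟩⟩

theorem cnt_all (b : ℕ) (bs : List (ℕ × ℕ)) (R : List Bool → Prop) :
    Cnt ((b, 2 ^ b - 1) :: bs) R ↔ ∀ w : Fin b → Bool, Cnt bs fun l => R (List.ofFn w ++ l) := by
  classical
  have hc : Fintype.card (Fin b → Bool) = 2 ^ b := by simp
  rw [Cnt]
  constructor
  · intro h w
    by_contra hw
    have h1 : ((Finset.univ : Finset (Fin b → Bool)).filter fun w =>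
        Cnt bs fun l => R (List.ofFn w ++ l)).card < Fintype.card (Fin b → Bool) := by
      rw [← Finset.card_univ]
      apply Finset.card_lt_card
      rw [Finset.filter_ssubset]
      exact ⟨w, Finset.mem_univ _, hw⟩
    have h2 : 2 ^ b - 1 < ((Finset.univ : Finset (Fin b → Bool)).filter fun w =>
        Cnt bs fun l => R (List.ofFn w ++ l)).card := by
      refine lt_of_lt_of_eq h ?_
      congr
    rw [hc] at h1
    omega
  · intro h
    have h1 : ((Finset.univ : Finset (Fin b → Bool)).filter fun w =>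
        Cnt bs fun l => R (List.ofFn w ++ l)).card = 2 ^ b := by
      rw [Finset.filter_true_of_mem fun w _ => h w, Finset.card_univ, hc]
    have h2 : 2 ^ b - 1 < ((Finset.univ : Finset (Fin b → Bool)).filter fun w =>
        Cnt bs fun l => R (List.ofFn w ++ l)).card := by
      rw [h1]
      have := Nat.two_pow_pos b
      omega
    refine lt_of_lt_of_eq h2 ?_
    congr

theorem cnt_most (b : ℕ) (R : List Bool → Prop) :
    Cnt [(b, 2 ^ b / 2)] R ↔ 2 ^ b / 2 < Nat.card {w : Fin b → Bool // R (List.ofFn w)} := by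
  classical
  rw [Cnt, Nat.card_eq_fintype_card, Fintype.card_subtype]
  have h : ((Finset.univ : Finset (Fin b → Bool)).filter fun w =>
      Cnt [] fun l => R (List.ofFn w ++ l)) =
      (Finset.univ : Finset (Fin b → Bool)).filter fun w => R (List.ofFn w) := by
    apply Finset.filter_congr
    intro w _
    rw [Cnt, List.append_nil]
  constructor
  · intro h1
    rw [← h]
    refine lt_of_lt_of_eq h1 ?_
    congr
  · intro h1
    rw [← h] at h1
    refine lt_of_lt_of_eq h1 ?_
    congr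

/-- A block of quantifiers THERE IS. -/
theorem alt_some (u : ℕ) (qs : List Bool) (R : List Bool → Prop) :
    Alt (List.replicate u true ++ qs) R ↔
      ∃ w : Fin u → Bool, Alt qs fun l => R (List.ofFn w ++ l) := by
  induction u generalizing R with
  | zero =>
    constructor
    · intro h
      exact ⟨fun i => i.elim0, h⟩
    · rintro ⟨w, h⟩
      exact h
  | succ u ih =>
    rw [List.replicate_succ, List.cons_append]
    change (∃ b, Alt (List.replicate u true ++ qs) (fun w => R (b :: w))) ↔ _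
    constructor
    · rintro ⟨b, h⟩
      obtain ⟨w, hw⟩ := (ih _).1 h
      refine ⟨Fin.cons b w, ?_⟩
      have h1 : List.ofFn (Fin.cons b w : Fin (u + 1) → Bool) = b :: List.ofFn w := by
        rw [List.ofFn_succ]
        simp
      rw [h1]
      exact hw
    · rintro ⟨w, hw⟩
      refine ⟨w 0, (ih _).2 ⟨fun i => w i.succ, ?_⟩⟩
      have h1 : List.ofFn w = w 0 :: List.ofFn fun i => w i.succ := List.ofFn_succ
      rw [h1] at hw
      exact hw

/-- **Blocks of equal quantifiers are counting quantifiers.** -/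
theorem cnt_blocks (bl : List (ℕ × Bool)) (R : List Bool → Prop) :
    Alt (bl.flatMap fun p => List.replicate p.1 p.2) R ↔
      Cnt (bl.map fun p => (p.1, if p.2 = true then 0 else 2 ^ p.1 - 1)) R := by
  induction bl generalizing R with
  | nil => exact Iff.rfl
  | cons p bl ih =>
    obtain ⟨b, β⟩ := p
    rw [List.flatMap_cons, List.map_cons]
    cases β with
    | false =>
      show Alt (List.replicate b false ++ _) R ↔ Cnt ((b, 2 ^ b - 1) :: _) R
      rw [MAINM.alt_all, cnt_all]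
      exact forall_congr' fun w => ih _
    | true =>
      show Alt (List.replicate b true ++ _) R ↔ Cnt ((b, 0) :: _) R
      rw [alt_some, cnt_some]
      exact exists_congr fun w => ih _

/-- The circuit without gates whose output is the function `φ` of the answers. -/
def fn {E : Type} {q : ℕ} (φ : (Fin q → Bool) → Bool) : NCirc E 0 q := ⟨[], Wire.wit fun _ a => φ a⟩

/-- **Any Boolean function of the answers.** -/
theorem bool {E : Type} {q : ℕ} (φ : (Fin q → Bool) → Bool) :
    (fn (E := E) φ).NotsFree ∧ (fn (E := E) φ).nots = 0 ∧ (fn (E := E) φ).gates.length = 0 ∧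
      ∀ z u a, outp (fn (E := E) φ) z u a = φ a := by
  refine ⟨?_, rfl, rfl, fun z u a => rfl⟩
  rintro n ⟨a, ha⟩
  simp [fn] at ha

/-- The PP mode with few witness bits is an outermost counting quantifier. -/
theorem right_maj {E : Type} {s t n q W : ℕ} (C : NCirc E s t) (l : Fin n)
    (a : (E → Bool) → Fin n → Bool) (hW : s + t ≤ W) (h : ∀ z, a z l = true ↔ Maj C z) :
    RightC q W (up n C) t [] l a := by
  classical
  refine Or.inl ⟨hW, 2 ^ (s + t) / 2, fun x => ?_⟩
  have h1 : accQ (up n C) t [] (hist q l (a x)) x = acc C x := by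
    unfold accQ acc
    congr 1
    ext ⟨u, w⟩
    rw [Finset.mem_filter, Finset.mem_filter]
    refine and_congr_right fun _ => ?_
    show (Cnt [] fun l' => outp (up n C) x u (Fin.append (hist q l (a x)) fun j =>
      (List.ofFn w ++ l').getD j false) = true) ↔ _
    rw [Cnt, outp_up]
    have h2 : (fun i => Fin.append (hist q l (a x)) (fun j : Fin t =>
        (List.ofFn w ++ []).getD j false) (Fin.natAdd n i)) = w := by
      funext i
      rw [Fin.append_right, List.append_nil, List.getD_eq_getElem _ _ (by simp),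
        List.getElem_ofFn]
    rw [h2]
  rw [h1, h x]
  show 2 ^ (s + t) < 2 * acc C x ↔ 2 ^ (s + t) / 2 < acc C x
  have h3 : 2 ^ (s + t) = 1 ∨ 2 ^ (s + t) % 2 = 0 := by
    rcases Nat.eq_zero_or_pos (s + t) with h4 | h4
    · left
      rw [h4, pow_zero]
    · right
      obtain ⟨n, hn⟩ : ∃ n, s + t = n + 1 := ⟨s + t - 1, by omega⟩
      rw [hn, pow_succ]
      omega
  omega

/-- **For all numbers of the queries and of the rounds the hypotheses of part (2) can be satisfied.** -/
theorem exists_circuits (qs : List Bool) (L v k W n q : ℕ) (hn : 1 ≤ n) :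
    ∃ (C : Fin n → NCirc ((Fin L → Bool) × Edge v) 0 (n + 0))
      (D : NCirc ((Fin L → Bool) × Edge v) 0 n)
      (a : ((Fin L → Bool) × Edge v → Bool) → Fin n → Bool),
      (∀ l, (C l).nots = 0) ∧ (∀ l, (C l).NotsFree) ∧ D.NotsFree ∧ D.nots = 0 ∧
      D.gates.length = 0 ∧ (∀ l, RightC q W (C l) 0 [] l a) ∧
      ∀ z, AltClq qs L v k z ↔ outp D z (fun i => i.elim0) (a z) = true := by
  classical
  obtain ⟨C, c1, c2, c3⟩ := exists_circuit qs L v k
  obtain ⟨d1, d2, d3, d4⟩ := bool (E := (Fin L → Bool) × Edge v) (q := n) fun a =>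
    decide (∀ j, a j = true)
  refine ⟨fun _ => up n C, fn fun a => decide (∀ j, a j = true),
    fun z _ => decide (AltClq qs L v k z), fun _ => (nots_up n C).trans c1,
    fun _ => notsFree_up n C c2, d1, d2, d3, fun l => right_maj C l _ (Nat.zero_le W)
    fun z => ?_, fun z => ?_⟩
  · rw [c3 z, decide_eq_true_iff]
  · rw [d4, decide_eq_true_iff]
    exact ⟨fun h _ => decide_eq_true h, fun h => of_decide_eq_true (h ⟨0, hn⟩)⟩

/-- The circuit without gates whose output is the function `φ` of the earlier answers. -/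
def ask {E : Type} {n : ℕ} (φ : (Fin n → Bool) → Bool) : NCirc E 0 (n + 0) := fn φ

/-- **The queries can depend on the earlier answers in any way.** -/
theorem tree {E : Type} {n q W : ℕ} (l : Fin n) (φ : (Fin n → Bool) → Bool)
    (a : (E → Bool) → Fin n → Bool) (h : ∀ x, a x l = φ (hist q l (a x))) :
    (ask (E := E) φ).NotsFree ∧ (ask (E := E) φ).nots = 0 ∧ (ask (E := E) φ).gates.length = 0 ∧
      RightC q W (ask (E := E) φ) 0 [] l a := by
  classical
  obtain ⟨d1, d2, d3, d4⟩ := bool (E := E) (q := n) φ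
  refine ⟨d1, d2, d3, rightC_of_outp _ l a fun x u w => ?_⟩
  have h3 : Fin.append (hist q l (a x)) w = hist q l (a x) := by
    funext i
    exact Fin.append_left (hist q l (a x)) w i
  show outp (fn (E := E) φ) x u (Fin.append (hist q l (a x)) w) = a x l
  rw [d4, h x]
  exact congrArg φ h3

/-- Part (2) is a real condition: there are circuits, and some of them are always large. -/
theorem excludes (ε : ℝ) (hε : 0 < ε) (hε1 : ε ≤ 1) : ∃ v₀ : ℕ, ∀ v ≥ v₀,
    ∀ k u r h n q c W : ℕ, k = ⌊(v : ℝ) ^ (ε / 4)⌋₊ → v ≤ 2 ^ r → 1 ≤ n → 1 ≤ q → n ≤ c * q →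
    (n : ℝ) * 2 ^ W ≤ (2 : ℝ) ^ ((v : ℝ) ^ (1 - ε)) →
    2 * (1 + (W + 3) * (2 * (q + 1) ^ c - q - 2)) ≤ 2 ^ u →
    ∃ (C : Fin n → NCirc ((Fin (u + h * (2 * r)) → Bool) × Edge v) 0 (n + 0))
      (D : NCirc ((Fin (u + h * (2 * r)) → Bool) × Edge v) 0 n)
      (a : ((Fin (u + h * (2 * r)) → Bool) × Edge v → Bool) → Fin n → Bool),
      (∀ l, (C l).NotsFree) ∧ D.NotsFree ∧ (∀ l, RightC q W (C l) 0 [] l a) ∧
      (∀ z, AltClq (List.replicate u false ++ altq r h) (u + h * (2 * r)) v k z ↔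
        outp D z (fun i => i.elim0) (a z) = true) ∧
      ∃ l, (2 : ℝ) ^ ((v : ℝ) ^ (ε / 10)) ≤ (C l).gates.length := by
  obtain ⟨v₀, hv₀⟩ := lowerC ε hε hε1
  refine ⟨v₀, fun v hv k u r h n q c W hk hr hn hq hc hW hm => ?_⟩
  obtain ⟨C, D, a, c1, c2, c3, c4, c5, c6, c7⟩ :=
    exists_circuits (List.replicate u false ++ altq r h) (u + h * (2 * r)) v k W n q hn
  refine ⟨C, D, a, c2, c3, c6, c7, ?_⟩
  have h2 := hv₀ v hv k u r h n q c W (fun _ => 0) (fun _ => 0) (fun _ => 0) (fun _ => []) C D a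
    hk hr hn hq hc hW c2 c3
    (fun l => by rw [c1, Nat.add_zero, pow_zero, mul_one]; exact hm)
    (by rw [c4, pow_zero, mul_one]; exact hm) (fun l => ⟨by simp, by simp⟩) c6 c7
  rcases h2 with h2 | h2
  · exfalso
    rw [c5, Nat.cast_zero] at h2
    exact absurd h2 (not_le.2 (by positivity))
  · exact h2

/-- The number of the quantified bits is small. -/
theorem few_bits (ε : ℝ) (hε : 0 < ε) (a h : ℕ) : ∃ v₀ : ℕ, ∀ v ≥ v₀, ∀ k u r : ℕ,
    k = ⌊(v : ℝ) ^ (ε / 4)⌋₊ → 2 ^ u ≤ v ^ a → r = Nat.clog 2 v →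
    ((u + h * (2 * r) + k * Nat.clog 2 v : ℕ) : ℝ) ≤ (v : ℝ) ^ (ε / 3) := by
  have h1 : Filter.Tendsto (fun v : ℕ => (v : ℝ) ^ (ε / 24)) Filter.atTop Filter.atTop :=
    (tendsto_rpow_atTop (by positivity)).comp tendsto_natCast_atTop_atTop
  have h2 : ∀ᶠ v : ℕ in Filter.atTop, ‖Real.log (v : ℝ)‖ ≤ 1 / 2 * ‖(v : ℝ) ^ (ε / 24)‖ :=
    tendsto_natCast_atTop_atTop.eventually
      ((isLittleO_log_rpow_atTop (by positivity : 0 < ε / 24)).bound (by norm_num : (0 : ℝ) < 1 / 2))
  have h3 := (h1.eventually_ge_atTop (2 * (a + 2 * h + 2 : ℕ))).and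
    (h2.and (Filter.eventually_ge_atTop 2))
  obtain ⟨v₀, hv₀⟩ := Filter.eventually_atTop.1 h3
  refine ⟨v₀, fun v hv k u r hk hu hr => ?_⟩
  obtain ⟨hy, hlog, hv2⟩ := hv₀ v hv
  push_cast at hy
  have hv1 : (1 : ℝ) ≤ v := by
    have : (2 : ℝ) ≤ v := by exact_mod_cast hv2
    linarith
  have hv0 : (0 : ℝ) < v := by linarith
  set y : ℝ := (v : ℝ) ^ (ε / 24) with hydef
  have ha : (0 : ℝ) ≤ a := Nat.cast_nonneg a
  have hh : (0 : ℝ) ≤ h := Nat.cast_nonneg h
  have hy4 : (4 : ℝ) ≤ y := by linarith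
  have hpow : ∀ j : ℕ, (v : ℝ) ^ (j * ε / 24) = y ^ j := by
    intro j
    rw [hydef, ← Real.rpow_natCast, ← Real.rpow_mul hv0.le]
    congr 1
    ring
  have e6 : (v : ℝ) ^ (ε / 4) = y ^ 6 := by
    rw [← hpow 6]; congr 1; push_cast; ring
  have e8 : (v : ℝ) ^ (ε / 3) = y ^ 8 := by
    rw [← hpow 8]; congr 1; push_cast; ring
  have hcl : ((Nat.clog 2 v : ℕ) : ℝ) ≤ y + 1 := by
    have h4 : Real.log v ≤ 1 / 2 * y := by
      have := hlog
      rw [Real.norm_of_nonneg (Real.log_nonneg hv1), Real.norm_of_nonneg (by linarith)] at this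
      exact this
    have hlog2 : Real.logb 2 v ≤ y := by
      rw [Real.logb, div_le_iff₀ (Real.log_pos (by norm_num))]
      have h5 := Real.log_two_gt_d9
      nlinarith
    have h7 : Nat.clog 2 v ≤ Nat.log 2 v + 1 := Nat.clog_le_of_le_pow
      (Nat.lt_pow_succ_log_self (by norm_num) v).le
    have h8 : ((Nat.log 2 v : ℕ) : ℝ) ≤ Real.logb 2 v := by
      have := Real.natLog_le_logb v 2
      exact_mod_cast this
    have h9 : ((Nat.clog 2 v : ℕ) : ℝ) ≤ ((Nat.log 2 v + 1 : ℕ) : ℝ) := by exact_mod_cast h7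
    push_cast at h9
    linarith
  have hk1 : (k : ℝ) ≤ y ^ 6 := by
    rw [hk, ← e6]
    exact Nat.floor_le (by positivity)
  have hu1 : (u : ℝ) ≤ a * (y + 1) := by
    have h4 : u ≤ a * Nat.clog 2 v := by
      have h5 : 2 ^ u ≤ 2 ^ (a * Nat.clog 2 v) := by
        calc 2 ^ u ≤ v ^ a := hu
          _ ≤ (2 ^ Nat.clog 2 v) ^ a := Nat.pow_le_pow_left (Nat.le_pow_clog (by norm_num) v) a
          _ = 2 ^ (a * Nat.clog 2 v) := by rw [← pow_mul, mul_comm]
      exact (Nat.pow_le_pow_iff_right (by norm_num)).1 h5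
    have h5 : (u : ℝ) ≤ ((a * Nat.clog 2 v : ℕ) : ℝ) := by exact_mod_cast h4
    push_cast at h5
    exact h5.trans (mul_le_mul_of_nonneg_left hcl ha)
  have hr1 : (r : ℝ) ≤ y + 1 := by
    rw [hr]
    exact hcl
  rw [e8]
  push_cast
  have h10 : (k : ℝ) * (Nat.clog 2 v : ℕ) ≤ y ^ 6 * (y + 1) := by gcongr
  have h11 : y + 1 ≤ 2 * y := by linarith
  have h12 : ((a : ℝ) + 2 * h) * (y + 1) ≤ y * (y / 2 * 2) := by
    have : (a : ℝ) + 2 * h ≤ y / 2 := by linarith
    nlinarith
  have h17 : (h : ℝ) * (2 * r) ≤ 2 * h * (y + 1) := by nlinarith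
  have h13 : y ^ 2 ≤ y ^ 7 := pow_le_pow_right₀ (by linarith) (by norm_num)
  have h14 : y ^ 7 * 4 ≤ y ^ 7 * y := mul_le_mul_of_nonneg_left hy4 (by positivity)
  have h15 : y ^ 6 * (y + 1) ≤ 2 * y ^ 7 := by
    calc y ^ 6 * (y + 1) ≤ y ^ 6 * (2 * y) := mul_le_mul_of_nonneg_left h11 (by positivity)
      _ = 2 * y ^ 7 := by ring
  have h16 : y ^ 8 = y ^ 7 * y := by ring
  nlinarith

/-- The factor of part (2): the general bound, and the bound for `c = 1`. -/
theorem factor (q c W : ℕ) (hq : 1 ≤ q) :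
    1 + (W + 3) * (2 * (q + 1) ^ c - q - 2) ≤ 2 * (W + 3) * (q + 1) ^ c ∧
      (c = 1 → 1 + (W + 3) * (2 * (q + 1) ^ c - q - 2) ≤ (W + 4) * q) := by
  constructor
  · rcases Nat.eq_zero_or_pos c with h | h
    · subst h
      rw [pow_zero]
      have h1 : 2 * 1 - q - 2 = 0 := by omega
      rw [h1]
      omega
    · have h1 : q + 1 ≤ (q + 1) ^ c := Nat.le_self_pow (by omega) _
      have h2 : 2 * (q + 1) ^ c - q - 2 + 1 ≤ 2 * (q + 1) ^ c := by omega
      have h3 := Nat.mul_le_mul_left (W + 3) h2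
      have h4 : (W + 3) * (2 * (q + 1) ^ c - q - 2 + 1) =
          (W + 3) * (2 * (q + 1) ^ c - q - 2) + (W + 3) := by ring
      have h5 : (W + 3) * (2 * (q + 1) ^ c) = 2 * (W + 3) * (q + 1) ^ c := by ring
      omega
  · intro h
    subst h
    rw [pow_one]
    have h1 : 2 * (q + 1) - q - 2 = q := by omega
    rw [h1]
    have h2 : (W + 4) * q = (W + 3) * q + q := by ring
    omega

/-- The conditions of part (2) with common bounds for `s` and `r`. -/
theorem common (n q c W s r m : ℕ) (sj rj : Fin n → ℕ) (rD : ℕ) (hq : 1 ≤ q)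
    (hs : ∀ j, sj j ≤ s) (hr : ∀ j, rj j ≤ r) (hD : rD ≤ r)
    (h : 4 * (W + 3) * (q + 1) ^ c * 2 ^ (s + r) ≤ m) :
    (∀ j, 2 * (1 + (W + 3) * (2 * (q + 1) ^ c - q - 2)) * 2 ^ (sj j + rj j) ≤ m) ∧
      2 * (1 + (W + 3) * (2 * (q + 1) ^ c - q - 2)) * 2 ^ rD ≤ m := by
  have h1 : 2 * (1 + (W + 3) * (2 * (q + 1) ^ c - q - 2)) * 2 ^ (s + r) ≤ m := by
    refine le_trans (Nat.mul_le_mul_right _ ?_) h
    have h2 := (factor q c W hq).1
    have h3 : 4 * (W + 3) * (q + 1) ^ c = 2 * (2 * (W + 3) * (q + 1) ^ c) := by ring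
    rw [h3]
    exact Nat.mul_le_mul_left _ h2
  have h2 : ∀ j, j ≤ s + r →
      2 * (1 + (W + 3) * (2 * (q + 1) ^ c - q - 2)) * 2 ^ j ≤ m := by
    intro j hj
    exact le_trans (Nat.mul_le_mul_left _ (Nat.pow_le_pow_right (by norm_num) hj)) h1
  exact ⟨fun j => h2 _ (add_le_add (hs j) (hr j)), h2 _ (by omega)⟩

/-- The condition on the numbers of the queries and of the NOT gates for large `v`. -/
theorem threshold (ε : ℝ) (hε : 0 < ε) : ∃ v₀ : ℕ, ∀ v ≥ v₀, ∀ n q c W S m : ℕ,
    1 ≤ n → (n : ℝ) * 2 ^ W ≤ (2 : ℝ) ^ ((v : ℝ) ^ (1 - ε)) →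
    v * ((q + 1) ^ c * S) ≤ m → 4 * (W + 3) * (q + 1) ^ c * S ≤ m := by
  have h1 : Filter.Tendsto (fun v : ℕ => (v : ℝ) ^ ε) Filter.atTop Filter.atTop :=
    (tendsto_rpow_atTop hε).comp tendsto_natCast_atTop_atTop
  have h3 := (h1.eventually_ge_atTop 8).and (Filter.eventually_ge_atTop 24)
  obtain ⟨v₀, hv₀⟩ := Filter.eventually_atTop.1 h3
  refine ⟨v₀, fun v hv n q c W S m hn hW h => ?_⟩
  obtain ⟨hy, hv12⟩ := hv₀ v hv
  have hvR : (24 : ℝ) ≤ v := by exact_mod_cast hv12
  have hv0 : (0 : ℝ) < v := by linarith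
  -- the number of the coins
  have hW1 : (W : ℝ) ≤ (v : ℝ) ^ (1 - ε) := by
    have hq1 : (1 : ℝ) ≤ n := by exact_mod_cast hn
    have h6 : (2 : ℝ) ^ (W : ℝ) ≤ (2 : ℝ) ^ ((v : ℝ) ^ (1 - ε)) := by
      rw [Real.rpow_natCast]
      refine le_trans ?_ hW
      exact le_mul_of_one_le_left (by positivity) hq1
    exact (Real.rpow_le_rpow_left_iff (by norm_num : (1 : ℝ) < 2)).1 h6
  have hW2 : 4 * ((W : ℝ) + 3) ≤ v := by
    have h6 : (v : ℝ) ^ (1 - ε) * 8 ≤ v := by
      calc (v : ℝ) ^ (1 - ε) * 8 ≤ (v : ℝ) ^ (1 - ε) * (v : ℝ) ^ ε := by gcongr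
        _ = v := by rw [← Real.rpow_add hv0, sub_add_cancel, Real.rpow_one]
    linarith
  have hW3 : 4 * (W + 3) ≤ v := by exact_mod_cast hW2
  calc 4 * (W + 3) * (q + 1) ^ c * S = 4 * (W + 3) * ((q + 1) ^ c * S) := by ring
    _ ≤ v * ((q + 1) ^ c * S) := Nat.mul_le_mul_right _ hW3
    _ ≤ m := h

/-- Many rounds are as good as NOT gates, in the form of part (2). -/
theorem rounds_tight (E : Type) [Fintype E] (c q W : ℕ) (hq : 1 ≤ q)
    (hN : Fintype.card E + 1 ≤ (q + 1) ^ c) (D₀ : NCirc E 0 0) :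
    ∃ (C : Fin (c * q) → NCirc E 0 (c * q + 0)) (D : NCirc E 0 (c * q))
      (a : (E → Bool) → Fin (c * q) → Bool),
      (∀ l, (C l).nots = 0) ∧ D.nots = 0 ∧ (∀ l, RightC q W (C l) 0 [] l a) ∧
      (∀ x u, outp D x u (a x) = outp D₀ x u fun i => i.elim0) ∧
      (∀ l, (C l).gates.length ≤ 12 * (Fintype.card E + 1) ^ 3) ∧
      D.gates.length ≤ 2 * D₀.gates.length + 12 * (Fintype.card E + 1) ^ 3 := by
  obtain ⟨C, a, h1, h2⟩ := rounds_upperC E c q hq hN
  obtain ⟨D, h3, h4, h5⟩ := h2 0 D₀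
  refine ⟨C, D, a, fun l => (h1 l).1, h3, fun l => (h1 l).2.2 W, fun x u => ?_,
    fun l => (h1 l).2.1, h4⟩
  rw [← h5 x u fun i => i.elim0]
  have h6 : Fin.append (a x) (fun i : Fin 0 => i.elim0) = a x := by
    funext i
    exact Fin.append_left (a x) _ i
  exact congrArg (outp (s := 0) (t := c * q) D x u) h6.symm

end Pool.Agent.VAC2.FewNegationsPSPACE
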