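import Pool.Agent.UM.Defs

/-!
# Certificate: the statement of MP_153864_lc/ParityBeyondPP is not vacuous

* The function `form` takes both values (`form_zero`, `exists_form_one`).
* The lower bound is not vacuous: with enough states a machine of the model, in time `4 n m`, with
  no memory, no far access and no random bit, decides the function (`in_pp`), so the hypothesis
  `InPP … ∨ InGap …` can hold.
* The lower bound is a real condition: it excludes machines with two states, no memory, no random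
  bits and no far accesses, in time `4 n m`, while the function is in parity mode in time `4`
  (`excludes`).
-/

set_option autoImplicit false

namespace Pool.Agent.VAC2.ParityBeyondPP

open Pool.Agent.UM

variable {n m : ℕ}

theorem form_zero (α : Fin n → GaloisField 2 n) : form α (0 : ECell n m → ZMod 2) = 0 := by
  unfold form lpol elt
  simp

/-- every field element has coordinates -/
theorem exists_elt (α : Module.Basis (Fin n) (ZMod 2) (GaloisField 2 n)) (a : GaloisField 2 n) :
    ∃ x, elt α x = a := ⟨fun i => α.repr a i, by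
  unfold elt
  exact α.sum_repr a⟩

theorem exists_form_one (hn : 0 < n) (hm : 0 < m)
    (α : Module.Basis (Fin n) (ZMod 2) (GaloisField 2 n)) :
    ∃ z : ECell n m → ZMod 2, form α z = 1 := by
  have hne : n ≠ 0 := hn.ne'
  obtain ⟨t, ht⟩ := Algebra.trace_surjective (ZMod 2) (GaloisField 2 n) 1
  obtain ⟨u, hu⟩ := exists_elt α 1
  obtain ⟨w, hw⟩ := exists_elt α t
  refine ⟨Sum.elim (fun q => if q.1 = ⟨0, hm⟩ then u q.2 else 0)
    (fun q => if q.1 = ⟨0, hm⟩ then (if q.2.1 = 2 then w q.2.2 else u q.2.2) else 0), ?_⟩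
  have h0 : ∀ (p : Fin m), p ≠ ⟨0, hm⟩ →
      elt α (fun i => if p = ⟨0, hm⟩ then u i else 0) = 0 := by
    intro p hp
    unfold elt
    simp [hp]
  unfold form lpol
  simp only [Sum.elim_inl, Sum.elim_inr]
  rw [Finset.sum_eq_single ⟨0, hm⟩]
  · rw [Finset.sum_eq_single ⟨0, hm⟩]
    · simp only [if_true]
      have e1 : (0 : Fin 3) ≠ 2 := by decide
      have e2 : (1 : Fin 3) ≠ 2 := by decide
      simp only [e1, e2, if_false]
      change Algebra.trace (ZMod 2) (GaloisField 2 n)
        (elt α (fun i => u i) * elt α (fun i => u i) ^ 2 ^ (0 : ℕ) * elt α (fun i => u i) *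
          elt α (fun i => w i)) = 1
      change Algebra.trace (ZMod 2) (GaloisField 2 n)
        (elt α u * elt α u ^ 2 ^ (0 : ℕ) * elt α u * elt α w) = 1
      rw [hu, hw]
      simpa using ht
    · intro k _ hk
      rw [h0 k hk, zero_mul]
    · intro h
      exact absurd (Finset.mem_univ _) h
  · intro p _ hp
    have h1 : elt α (fun _ : Fin n => (0 : ZMod 2)) = 0 := by
      unfold elt
      simp
    simp only [hp, if_false]
    rw [h1, mul_zero]
  · intro h
    exact absurd (Finset.mem_univ _) h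

theorem card_cells (n m : ℕ) : Fintype.card (ECell n m) = 4 * n * m := by
  simp only [ECell, Fintype.card_sum, Fintype.card_prod, Fintype.card_fin]
  ring

/-- The machine that remembers the whole input. -/
noncomputable def mach (hn : 0 < n) (hm : 0 < m) (L : (ECell n m → ZMod 2) → Prop) :
    Mach (ECell n m) (ZMod 2) (ECell n m → ZMod 2) Unit where
  start := 0
  init := fun _ => ()
  query := fun t _ => (Fintype.equivFinOfCardEq (card_cells n m)).symm
    ⟨t % (4 * n * m), Nat.mod_lt _ (by positivity)⟩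
  addr := fun _ _ => 0
  next := fun t v a _ => (Function.update v ((Fintype.equivFinOfCardEq (card_cells n m)).symm
    ⟨t % (4 * n * m), Nat.mod_lt _ (by positivity)⟩) a, ())
  acc := L

theorem mach_conf (hn : 0 < n) (hm : 0 < m) (L : (ECell n m → ZMod 2) → Prop)
    (x : ECell n m → ZMod 2) : ∀ t ≤ 4 * n * m, ∀ c,
      ((mach hn hm L).conf x t).1 c =
        if ((Fintype.equivFinOfCardEq (card_cells n m)) c : ℕ) < t then x c else 0 := by
  intro t
  induction t with
  | zero =>
    intro _ c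
    simp [Mach.conf, mach]
  | succ t ih =>
    intro ht c
    have ih' := ih (by omega)
    have ht' : t % (4 * n * m) = t := Nat.mod_eq_of_lt (by omega)
    change (Function.update (((mach hn hm L).conf x t).1)
      ((Fintype.equivFinOfCardEq (card_cells n m)).symm ⟨t % (4 * n * m), _⟩)
      (x ((Fintype.equivFinOfCardEq (card_cells n m)).symm ⟨t % (4 * n * m), _⟩))) c = _
    set e := Fintype.equivFinOfCardEq (card_cells n m) with he
    by_cases hc : c = e.symm ⟨t % (4 * n * m), Nat.mod_lt _ (by positivity)⟩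
    · subst hc
      rw [Function.update_self, Equiv.apply_symm_apply]
      simp [ht']
    · rw [Function.update_of_ne hc, ih' c]
      have h1 : (e c : ℕ) ≠ t := by
        intro h
        apply hc
        rw [Equiv.eq_symm_apply]
        ext
        simp [h, ht']
      by_cases h2 : (e c : ℕ) < t
      · rw [if_pos h2, if_pos (by omega)]
      · rw [if_neg h2, if_neg (by omega)]

/-- Every set of inputs is decided in the model in time `4 n m` without memory. -/
theorem dec (hn : 0 < n) (hm : 0 < m) (L : (ECell n m → ZMod 2) → Prop) :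
    Dec (ECell n m) (ZMod 2) (ECell n m → ZMod 2) Unit (4 * n * m) 0 0 L := by
  refine ⟨mach hn hm L, fun x => ?_, fun x => ?_⟩
  · unfold Mach.far Mach.reg
    simp [mach]
  · unfold Mach.Accepts
    have : ((mach hn hm L).conf x (4 * n * m)).1 = x := by
      funext c
      rw [mach_conf hn hm L x _ le_rfl c, if_pos (Fin.is_lt _)]
    rw [this]
    rfl

/-- The hypothesis of the lower bound can hold. -/
theorem in_pp (hn : 0 < n) (hm : 0 < m) (α : Fin n → GaloisField 2 n) :
    InPP (Dec (ECell n m) (ZMod 2) (ECell n m → ZMod 2) Unit (4 * n * m) 0 0) 0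
      (fun z => form α z = 1) := by
  refine ⟨fun _ z => form α z = 1, fun _ => dec hn hm _, fun x => ?_⟩
  by_cases h : form α x = 1
  · simp [h]
  · simp [h]

theorem pow_bound (C j : ℕ) : (32 * C + 20 + j + 2) * (32 * C + 20 + j + 1) * (2 ^ C) ^ 16 ≤
    2 ^ (32 * C + 20 + j) := by
  induction j with
  | zero =>
    have h1 : 32 * C + 22 ≤ 2 ^ (C + 5) := by
      have := Nat.lt_two_pow_self (n := C)
      have e : 2 ^ (C + 5) = 32 * 2 ^ C := by ring
      omega
    calc (32 * C + 20 + 0 + 2) * (32 * C + 20 + 0 + 1) * (2 ^ C) ^ 16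
        ≤ 2 ^ (C + 5) * 2 ^ (C + 5) * (2 ^ C) ^ 16 := by
          refine Nat.mul_le_mul_right _ (Nat.mul_le_mul ?_ ?_) <;> omega
      _ = 2 ^ (18 * C + 10) := by rw [← pow_mul, ← pow_add, ← pow_add]; congr 1; ring
      _ ≤ 2 ^ (32 * C + 20 + 0) := Nat.pow_le_pow_right (by norm_num) (by omega)
  | succ j ih =>
    have h1 : (32 * C + 20 + (j + 1) + 2) * (32 * C + 20 + (j + 1) + 1) ≤
        2 * ((32 * C + 20 + j + 2) * (32 * C + 20 + j + 1)) := by nlinarith
    calc (32 * C + 20 + (j + 1) + 2) * (32 * C + 20 + (j + 1) + 1) * (2 ^ C) ^ 16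
        ≤ 2 * ((32 * C + 20 + j + 2) * (32 * C + 20 + j + 1)) * (2 ^ C) ^ 16 :=
          Nat.mul_le_mul_right _ h1
      _ = 2 * ((32 * C + 20 + j + 2) * (32 * C + 20 + j + 1) * (2 ^ C) ^ 16) := by ring
      _ ≤ 2 * 2 ^ (32 * C + 20 + j) := Nat.mul_le_mul_left _ ih
      _ = 2 ^ (32 * C + 20 + (j + 1)) := by ring

/-- The lower bound (with its constant) excludes machines in PP mode with two states, no memory and
no random bits in time `4 n m`, for a function in parity mode in time `4`. -/
theorem excludes (h : ∃ C : ℕ, ∀ n m k : ℕ, 0 < n → 1 ≤ k → (k + 1) ^ (C * k) ≤ m →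
      Fintype.card (ECell n m) = 4 * n * m ∧
      ∀ α : Module.Basis (Fin n) (ZMod 2) (GaloisField 2 n),
        (∀ T ≥ 4,
          InParity (Dec (ECell n m) (ZMod 2) (ZMod 2) Unit T 0 0) (Nat.clog 2 (m ^ 2 * n ^ 4))
            (fun z => form α z = 1) ∧
          InPSPACE (Dec (ECell n m) (ZMod 2) (ZMod 2) Unit T 0 0)
            (2 * Nat.clog 2 (m ^ 2 * n ^ 4)) (fun z => form α z = 1)) ∧
        ∀ (T δ J W : ℕ) (V G : Type) [Fintype V] [Fintype G], T ≤ k * (4 * n * m) →
          (InPP (Dec (ECell n m) (ZMod 2) V G T δ J) W (fun z => form α z = 1) ∨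
            InGap (Dec (ECell n m) (ZMod 2) V G T δ J) W (fun z => form α z = 1)) →
          n < (Nat.log 2 (Fintype.card V) + Nat.log 2 n + 1) *
            (J + (W + 1) * (Nat.log 2 (Fintype.card G) + 1) * (δ + 1) * (Nat.log 2 n + 1)) *
              m ^ 16) :
    ∃ m : ℕ, 0 < m ∧ ∃ n₀ : ℕ, ∀ n ≥ n₀, ∀ α : Module.Basis (Fin n) (ZMod 2) (GaloisField 2 n),
      InParity (Dec (ECell n m) (ZMod 2) (ZMod 2) Unit 4 0 0) (Nat.clog 2 (m ^ 2 * n ^ 4))
        (fun z => form α z = 1) ∧
      ¬ InPP (Dec (ECell n m) (ZMod 2) (ZMod 2) Unit (4 * n * m) 0 0) 0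
        (fun z => form α z = 1) := by
  obtain ⟨C, hC⟩ := h
  obtain ⟨n₀, hn₀⟩ : ∃ n₀ : ℕ, ∀ n ≥ n₀, (Nat.log 2 n + 2) * (Nat.log 2 n + 1) *
      (2 ^ C) ^ 16 ≤ n := by
    refine ⟨2 ^ (32 * C + 20), fun n hn => ?_⟩
    have hn0 : n ≠ 0 := by
      have : 0 < 2 ^ (32 * C + 20) := by positivity
      omega
    obtain ⟨j, hj⟩ := Nat.exists_eq_add_of_le ((Nat.le_log_iff_pow_le one_lt_two hn0).2 hn)
    refine le_trans ?_ (Nat.pow_log_le_self 2 hn0)
    rw [hj]
    exact pow_bound C j
  refine ⟨2 ^ C, by positivity, max n₀ 1, fun n hn α => ?_⟩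
  have hn1 : 0 < n := lt_of_lt_of_le one_pos ((le_max_right _ _).trans hn)
  obtain ⟨-, h2⟩ := hC n (2 ^ C) 1 hn1 le_rfl (by simp)
  obtain ⟨h3, h4⟩ := h2 α
  refine ⟨(h3 4 le_rfl).1, fun h5 => ?_⟩
  have h6 := h4 (4 * n * 2 ^ C) 0 0 0 (ZMod 2) Unit (by rw [one_mul]) (Or.inl h5)
  have h7 := hn₀ n ((le_max_left _ _).trans hn)
  have h8 : Nat.log 2 (Fintype.card (ZMod 2)) = 1 := by
    rw [ZMod.card]
    decide
  rw [h8] at h6
  simp only [Fintype.card_unit, Nat.log_one_right, zero_add, one_mul, mul_one] at h6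
  have h9 : 1 + Nat.log 2 n + 1 = Nat.log 2 n + 2 := by ring
  rw [h9] at h6
  omega

end Pool.Agent.VAC2.ParityBeyondPP
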