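import Pool.Agent.UCN.Cnt

/-!
# MP_153864_lc UnlimitedCoins: the statement is neither vacuous nor trivial

Certificate of the vacuity audit (not a hand-in). Bases exist; `form α` takes both values; for large
`n` the classes of machines in (0), (2), (3), with all resource bounds of the hypotheses and for all
sets of outcomes, contain members for `form α` and for its complement, for every constant `c > 0`;
schedules as in (1) exist; the claimed number of states is larger than every power of `N`.
-/

set_option autoImplicit false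

namespace Pool.Agent.VAC2.UnlimitedCoins

open Finset Filter
open Pool.Agent.UM (ECell form elt lpol Mach InParity InPSPACE)
open Pool.Agent.UCN (WMach InCoins InThrs Decs DecOs cell ext many)

/-! ### Machines that store the whole input -/

section machine

variable {I A C : Type} [Fintype I] [DecidableEq I] (i₀ : I)

/-- the variable read at time `t` -/
noncomputable def rd (t : ℕ) : I :=
  if h : t < Fintype.card I then (Fintype.equivFin I).symm ⟨t, h⟩ else i₀

open Classical in
/-- the machine that stores all words; the outcomes have no influence -/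
noncomputable def full [Zero A] (f : (I → A) → Prop) :
    WMach (Fin 1 → I) (Fin 1 → A) (I → A) Unit C where
  start := fun _ => 0
  init := fun _ => ()
  query := fun t _ _ => rd i₀ t
  addr := fun _ _ => 0
  next := fun t v a _ _ => (Function.update v (rd i₀ t) (a 0), ())
  wt := fun _ _ _ _ _ => 1
  val := fun v => if f v then 1 else 0

variable [Zero A] (f : (I → A) → Prop)

theorem full_conf (c : ℕ → C) (x : I → A) (t : ℕ) (ht : t ≤ Fintype.card I) :
    (((full i₀ f).fix c).conf (many 1 x) t).1 =
      fun i => if (Fintype.equivFin I i : ℕ) < t then x i else 0 := by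
  induction t with
  | zero =>
    funext i
    simp [Mach.conf, full, WMach.fix]
  | succ t ih =>
    have ht' : t < Fintype.card I := ht
    have h := ih ht'.le
    show Function.update (((full i₀ f).fix c).conf (many 1 x) t).1 (rd i₀ t) (x (rd i₀ t)) = _
    rw [h]
    have e1 : rd i₀ t = (Fintype.equivFin I).symm ⟨t, ht'⟩ := by simp [rd, ht']
    funext i
    by_cases hi : i = rd i₀ t
    · subst hi
      rw [Function.update_self, e1]
      simp
    · rw [Function.update_of_ne hi]
      have h2 : (Fintype.equivFin I i : ℕ) ≠ t := by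
        intro h3
        apply hi
        rw [e1, Equiv.eq_symm_apply]
        exact Fin.ext h3
      by_cases h4 : (Fintype.equivFin I i : ℕ) < t
      · simp [h4, Nat.lt_succ_of_lt h4]
      · have h5 : ¬ (Fintype.equivFin I i : ℕ) < t + 1 := by omega
        simp [h4, h5]

theorem full_final (c : ℕ → C) (x : I → A) :
    (((full i₀ f).fix c).conf (many 1 x) (Fintype.card I)).1 = x := by
  rw [full_conf i₀ f c x _ le_rfl]
  funext i
  simp

open Classical in
theorem full_value [Fintype C] [Inhabited C] (x : I → A) :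
    (full (C := C) i₀ f).value (Fintype.card I) (many 1 x) =
      if f x then (Fintype.card C : ℝ) ^ Fintype.card I else 0 := by
  unfold WMach.value
  have h1 : ∀ c : Fin (Fintype.card I) → C,
      (∏ t : Fin (Fintype.card I), (full i₀ f).stepWt (many 1 x) (ext c) t) *
        (full (C := C) i₀ f).val
          (((full i₀ f).fix (ext c)).conf (many 1 x) (Fintype.card I)).1 =
      if f x then 1 else 0 := by
    intro c
    have h2 : ∏ t : Fin (Fintype.card I), (full i₀ f).stepWt (many 1 x) (ext c) t = 1 :=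
      prod_eq_one fun t _ => rfl
    rw [h2, one_mul, full_final]
    rfl
  rw [sum_congr rfl fun c _ => h1 c, sum_const, card_univ, Fintype.card_fun, Fintype.card_fin]
  by_cases h : f x
  · simp [h]
  · simp [h]

theorem full_far (c : ℕ → C) (δ T : ℕ) (x : (Fin 1 → I) → (Fin 1 → A)) :
    ((full i₀ f).fix c).far δ T x = 0 := by
  unfold Mach.far
  rw [card_eq_zero, filter_eq_empty_iff]
  intro t _
  have h : ∀ t, ((full i₀ f).fix c).reg x t = 0 := fun t => rfl
  rw [h, h]
  simp

include i₀ in
/-- every set is accepted in threshold mode, for every set of outcomes -/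
theorem inThrs (C : Type) [Fintype C] [Inhabited C] (δ J : ℕ) :
    InThrs 1 C I A (I → A) Unit (Fintype.card I) δ J f := by
  classical
  refine ⟨full i₀ f, 1 / 2, fun x c => ?_, fun x c c' t _ => ⟨rfl, rfl⟩, fun x => ?_⟩
  · rw [full_far]
    exact Nat.zero_le _
  · rw [full_value]
    have hC : (1 : ℝ) ≤ (Fintype.card C : ℝ) ^ Fintype.card I := by
      apply one_le_pow₀
      have : 0 < Fintype.card C := Fintype.card_pos
      exact_mod_cast this
    by_cases h : f x
    · simp only [h, if_true, true_iff]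
      linarith
    · simp only [h, if_false, false_iff]
      norm_num

include i₀ in
/-- every set is accepted in PP mode, for every number of coins at each step -/
theorem inCoins (b δ J : ℕ) :
    InCoins 1 b I A (I → A) Unit (Fintype.card I) δ J f := by
  classical
  refine ⟨full i₀ f, fun _ _ _ _ _ => rfl, fun v => ?_, fun x c => ?_,
    fun x c c' t _ => ⟨rfl, rfl⟩, fun x => ?_⟩
  · show (if f v then (1 : ℝ) else 0) = 0 ∨ (if f v then (1 : ℝ) else 0) = 1
    by_cases h : f v
    · right
      simp [h]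
    · left
      simp [h]
  · rw [full_far]
    exact Nat.zero_le _
  · rw [full_value]
    have e : (Fintype.card (Fin b → Bool) : ℝ) ^ Fintype.card I =
        2 ^ (b * Fintype.card I) := by
      rw [Fintype.card_fun, Fintype.card_fin, Fintype.card_bool, pow_mul]
      push_cast
      rfl
    rw [e]
    have hp : (0 : ℝ) < 2 ^ (b * Fintype.card I) := by positivity
    by_cases h : f x
    · simp only [h, if_true, true_iff]
      linarith
    · simp only [h, if_false, false_iff]
      linarith

/-- schedules of all cells exist -/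
theorem schedule : ∃ σ : Fin (Fintype.card I) → Fin 1 → I, ∀ e, ∃ t i, σ t i = e :=
  ⟨fun t _ => (Fintype.equivFin I).symm t, fun e => ⟨Fintype.equivFin I e, 0, by simp⟩⟩

end machine

/-! ### The function -/

section function

variable {n m : ℕ}

/-- bases exist -/
theorem basis (hn : 0 < n) : Nonempty (Module.Basis (Fin n) (ZMod 2) (GaloisField 2 n)) :=
  ⟨Module.finBasisOfFinrankEq _ _ (GaloisField.finrank 2 hn.ne')⟩

theorem form_zero (α : Module.Basis (Fin n) (ZMod 2) (GaloisField 2 n)) :
    form (m := m) α (fun _ => 0) = 0 := by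
  have h0 : elt (n := n) α (fun _ => 0) = 0 := by simp [elt]
  unfold form
  simp only [h0, mul_zero, Finset.sum_const_zero, map_zero]

theorem elt_repr (α : Module.Basis (Fin n) (ZMod 2) (GaloisField 2 n)) (y : GaloisField 2 n) :
    elt α (fun i => α.repr y i) = y := by
  unfold elt
  exact α.sum_repr y

theorem form_one (hm : 0 < m) (α : Module.Basis (Fin n) (ZMod 2) (GaloisField 2 n)) :
    ∃ z : ECell n m → ZMod 2, form α z = 1 := by
  obtain ⟨w, hw⟩ := Algebra.trace_surjective (ZMod 2) (GaloisField 2 n) 1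
  let k₀ : Fin m := ⟨0, hm⟩
  refine ⟨Sum.elim (fun q => if q.1 = k₀ then α.repr 1 q.2 else 0)
    (fun q => if q.1 = k₀ then (if q.2.1 = 2 then α.repr w q.2.2 else α.repr 1 q.2.2) else 0), ?_⟩
  have e0 : elt (n := n) α (fun _ => 0) = 0 := by simp [elt]
  have hs : ∀ X : GaloisField 2 n, lpol (fun k : Fin m => elt α fun i =>
      (if k = k₀ then α.repr (1 : GaloisField 2 n) i else 0)) X = X := by
    intro X
    unfold lpol
    rw [Finset.sum_eq_single k₀]
    · simp only [if_true]
      rw [elt_repr, one_mul]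
      simp [k₀]
    · intro k _ hk
      simp only [hk, if_false]
      rw [e0, zero_mul]
    · intro h
      exact absurd (Finset.mem_univ _) h
  unfold form
  simp only [Sum.elim_inl, Sum.elim_inr]
  rw [Finset.sum_eq_single k₀]
  · rw [hs]
    simp only [if_true]
    have h1 : ((0 : Fin 3) = 2) = False := by simp
    have h2 : ((1 : Fin 3) = 2) = False := by simp
    simp only [h1, h2, if_false]
    rw [elt_repr, elt_repr, one_mul, one_mul]
    exact hw
  · intro p _ hp
    simp only [hp, if_false]
    rw [e0, mul_zero]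
  · intro h
    exact absurd (Finset.mem_univ _) h

end function

/-! ### The bounds -/

section bounds

open Real

lemma time_ok (c : ℝ) (hc : 0 < c) :
    ∀ᶠ N : ℕ in atTop, (N : ℝ) ≤ c * N * Real.log N / Real.log (Real.log N) := by
  have h1 : ∀ᶠ y : ℝ in atTop, ‖Real.log y‖ ≤ c * ‖y‖ :=
    (Real.isLittleO_log_id_atTop.bound hc)
  have h2 : Tendsto (fun N : ℕ => Real.log (N : ℝ)) atTop atTop :=
    Real.tendsto_log_atTop.comp tendsto_natCast_atTop_atTop
  filter_upwards [h2.eventually h1, h2.eventually (eventually_ge_atTop 3)] with N h3 h4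
  have h5 : 0 < Real.log (Real.log N) := Real.log_pos (by linarith)
  rw [le_div_iff₀ h5]
  rw [Real.norm_of_nonneg h5.le, Real.norm_of_nonneg (by linarith)] at h3
  nlinarith [Nat.cast_nonneg (α := ℝ) N]

/-- the claimed number of states is larger than every power of the number of input bits -/
theorem superpoly (ε : ℝ) (hε : ε < 1) (k : ℕ) :
    ∀ᶠ N : ℕ in atTop, (N : ℝ) ^ k < 2 ^ ((N : ℝ) ^ (1 - ε)) := by
  have hδ : (0:ℝ) < 1 - ε := by linarith
  have h1 := (isLittleO_log_rpow_atTop hδ).bound (c := Real.log 2 / (k + 1))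
    (div_pos (Real.log_pos (by norm_num)) (by positivity))
  filter_upwards [tendsto_natCast_atTop_atTop.eventually h1, eventually_ge_atTop 2] with N h2 h3
  have hN : (2:ℝ) ≤ N := by exact_mod_cast h3
  have h4 : 0 < Real.log (N : ℝ) := Real.log_pos (by linarith)
  have h5 : (0:ℝ) < (N : ℝ) ^ (1 - ε) := Real.rpow_pos_of_pos (by linarith) _
  rw [Real.norm_of_nonneg h4.le, Real.norm_of_nonneg h5.le] at h2
  have h6 : (0:ℝ) < (N:ℝ) ^ k := by positivity
  rw [← Real.log_lt_log_iff h6 (Real.rpow_pos_of_pos (by norm_num) _), Real.log_pow,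
    Real.log_rpow (by norm_num)]
  have h7 : ((k:ℝ) + 1) * Real.log N ≤ (N : ℝ) ^ (1 - ε) * Real.log 2 := by
    have h8 := mul_le_mul_of_nonneg_left h2 (by positivity : (0:ℝ) ≤ (k:ℝ) + 1)
    have h9 : ((k:ℝ) + 1) * (Real.log 2 / (k + 1) * (N : ℝ) ^ (1 - ε)) =
        (N : ℝ) ^ (1 - ε) * Real.log 2 := by
      field_simp
    linarith
  nlinarith

end bounds

/-- **(0), (1), (2) are about existing machines**, for every `c > 0` and `0 < ε < 1`. -/
theorem nonvacuous (c : ℝ) (hc : 0 < c) (ε : ℝ) (h0 : 0 < ε) (h1 : ε < 1) :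
    ∃ n₀ : ℕ, ∀ n ≥ n₀, ∀ m N : ℕ, m = ⌈(n : ℝ) ^ (ε / 20)⌉₊ → N = 4 * n * m →
      Nonempty (Module.Basis (Fin n) (ZMod 2) (GaloisField 2 n)) ∧
      ∀ α : Module.Basis (Fin n) (ZMod 2) (GaloisField 2 n),
        (∃ z : ECell n m → ZMod 2, form α z = 1) ∧ (∃ z : ECell n m → ZMod 2, ¬ form α z = 1) ∧
        (∃ (s T : ℕ) (σ : Fin T → Fin s → ECell n m), ∀ e, ∃ t i, σ t i = e) ∧
        ∃ (s T : ℕ) (V : Type) (_ : Fintype V), 0 < s ∧ (s : ℝ) ≤ (N : ℝ) ^ (1 - ε) ∧
          (T : ℝ) * s ≤ c * N * Real.log N / Real.log (Real.log N) ∧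
          (∀ (C : Type) [Fintype C] [Inhabited C],
            InThrs s C (ECell n m) (ZMod 2) V Unit T 0 0 (fun z => form α z = 1) ∧
            InThrs s C (ECell n m) (ZMod 2) V Unit T 0 0 (fun z => ¬ form α z = 1)) ∧
          ∀ b : ℕ, InCoins s b (ECell n m) (ZMod 2) V Unit T 0 0 (fun z => form α z = 1) ∧
            InCoins s b (ECell n m) (ZMod 2) V Unit T 0 0 (fun z => ¬ form α z = 1) := by
  obtain ⟨N₀, hN₀⟩ := Filter.eventually_atTop.1 (time_ok c hc)
  refine ⟨max N₀ 1, ?_⟩
  intro n hn m N hm hN
  have hn1 : 1 ≤ n := le_trans (le_max_right _ _) hn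
  have hn1' : (1 : ℝ) ≤ n := by exact_mod_cast hn1
  have hm1 : 1 ≤ m := by
    rw [hm, Nat.one_le_ceil_iff]
    exact Real.rpow_pos_of_pos (by linarith) _
  have hNn : n ≤ N := by
    rw [hN]
    nlinarith
  have ht := hN₀ N (le_trans (le_trans (le_max_left _ _) hn) hNn)
  have hN1 : (1:ℝ) ≤ N := by exact_mod_cast hn1.trans hNn
  have hpow : (1:ℝ) ≤ (N : ℝ) ^ (1 - ε) := Real.one_le_rpow hN1 (by linarith)
  have hcard : Fintype.card (ECell n m) = N := by
    rw [hN]
    simp only [Fintype.card_sum, Fintype.card_prod, Fintype.card_fin]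
    ring
  have i₀ : ECell n m := Sum.inl (⟨0, hm1⟩, ⟨0, hn1⟩)
  refine ⟨basis hn1, fun α => ⟨form_one hm1 α, ⟨fun _ => 0, ?_⟩, ?_, ?_⟩⟩
  · rw [form_zero]
    decide
  · obtain ⟨σ, hσ⟩ := schedule (I := ECell n m)
    exact ⟨1, _, σ, hσ⟩
  · refine ⟨1, N, ECell n m → ZMod 2, inferInstance, one_pos, ?_, ?_, ?_, ?_⟩
    · simpa using hpow
    · simpa using ht
    · intro C _ _
      rw [← hcard]
      exact ⟨inThrs i₀ _ C 0 0, inThrs i₀ _ C 0 0⟩
    · intro b
      rw [← hcard]
      exact ⟨inCoins i₀ _ b 0 0, inCoins i₀ _ b 0 0⟩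

/-- **(3) is about existing machines**, for all `n`, `m`, `k ≥ 1`. -/
theorem nonvacuous3 (n m k : ℕ) (hn : 0 < n) (hm : 0 < m) (hk : 1 ≤ k)
    (α : Module.Basis (Fin n) (ZMod 2) (GaloisField 2 n)) (C : Type) [Fintype C] [Inhabited C]
    (δ J : ℕ) :
    ∃ (s T : ℕ) (V : Type) (_ : Fintype V), 0 < s ∧ T * s ≤ k * (4 * n * m) ∧
      InThrs s C (ECell n m) (ZMod 2) V Unit T δ J (fun z => form α z = 1) := by
  have hcard : Fintype.card (ECell n m) = 4 * n * m := by
    simp only [Fintype.card_sum, Fintype.card_prod, Fintype.card_fin]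
    ring
  have i₀ : ECell n m := Sum.inl (⟨0, hm⟩, ⟨0, hn⟩)
  refine ⟨1, 4 * n * m, ECell n m → ZMod 2, inferInstance, one_pos, ?_, ?_⟩
  · rw [mul_one]
    exact Nat.le_mul_of_pos_left _ hk
  · rw [← hcard]
    exact inThrs i₀ _ C δ J

end Pool.Agent.VAC2.UnlimitedCoins
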