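import Pool.Agent.LibH11.SlicedKnots

/-!
# Vacuity audit: `MP_31fd3b_gt/SeparateGenericArborescent`

Certificate (helper2). The first part is a verbatim copy of the definitions of the hand-in. `Thm` is its
statement. The second part proves:

* `conn1`, `gen1`: the closure of a tree with TWO vertices of valence three is a knot and generic (all
  hypotheses of the theorem hold for it, with a branch with the flag `true` for which the conditions
  `edges` and `unknot` are not void);
* `conn2`, `gen2`, `conn3`, `gen3`: the same for two pretzel knots;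
* `content12`, `content23`, `content30`: if the theorem is true then finite type invariants distinguish these
  knots from each other and from the unknot (so the hypothesis on `v` is not contradictory there and
  the conclusion is false for pairs of objects that satisfy all the other hypotheses);
* `order_zero`: `HasOrderLE v 0` is a real restriction: such `v` agree on the closures of one and of three
  half twists.
-/

set_option autoImplicit false

open scoped BigOperators

namespace Pool.Agent.VAC2.GenericArborescent

open Pool.Agent.LibH11.Sliced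

/-! ### Arborescent knots -/

/-- The diagram with `k` vertical strands added on the left. -/
def shift (k : ℕ) (w : Diag) : Diag := w.map fun p => (p.1, p.2 + k)

/-- A tangle from two strands to two strands, rotated by a quarter turn (clockwise): the left
output of the rotated tangle is joined, by a minimum on the left, to the left input of `t`, the
right input is joined, by a maximum on the right, to the right output of `t`. -/
def rotate (t : Diag) : Diag := (.cup, 0) :: (shift 1 t ++ [(.cap, 2)])

/-- The closure of a tangle from two strands to two strands, as a long diagram. -/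
def closure (t : Diag) : Diag := (.cup, 1) :: (t ++ [(.cap, 1)])

/-- `e` half twists of two strands. -/
def halfTwists (e : ℤ) : Diag := List.replicate e.natAbs (Kind.crs (decide (0 < e)), 0)

/-- Weighted planar trees. `twist e` is a vertex with the weight `e` without children, `join a b` is
the tree `b` with one more child `a` at its top vertex. -/
inductive Tree
  | twist (e : ℤ) : Tree
  | join (a b : Tree) : Tree

/-- The arborescent tangle of a tree: the rotated tangles of the children of the top vertex and
half twists, one above the other. -/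
def Tree.diagram : Tree → Diag
  | .twist e => halfTwists e
  | .join a b => rotate a.diagram ++ b.diagram

/-- The number of the children of the top vertex. -/
def Tree.children : Tree → ℕ
  | .twist _ => 0
  | .join _ b => b.children + 1

/-- Every vertex of the tree has at most one child: the tangle is rational. -/
def Tree.isRational : Tree → Bool
  | .twist _ => true
  | .join a b => a.isRational && b.children == 0

/-- Sum of fractions (not reduced). -/
def plus (u v : ℤ × ℤ) : ℤ × ℤ := (u.1 * v.2 + v.1 * u.2, u.2 * v.2)

/-- Rotation of a fraction. -/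
def turn (v : ℤ × ℤ) : ℤ × ℤ := (-v.2, v.1)

/-- The value of a fraction. -/
def slope (v : ℤ × ℤ) : ℚ := v.1 / v.2

/-- The fraction of the tangle of a tree (not reduced; the numerator is, up to the sign, the
determinant of the closure). -/
def Tree.vec : Tree → ℤ × ℤ
  | .twist e => (-e, 1)
  | .join a b => plus (turn a.vec) b.vec

/-! ### Vertices and branches -/

/-- A vertex: the sum of the fractions of all its branches and of its half twists, and the list of its
branches. A branch is given by the fractional part of its slope and by a flag: `true` if the branch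
contains another vertex with at least three branches, `false` if it is a rational tangle. -/
abbrev Vertex := (ℤ × ℤ) × Multiset (ℚ × Bool)

/-- The vertices with at least three branches of a tree, if the outside of its tangle is a branch
of its top vertex with the fraction `L`. Here `s` contains the branches of the top vertex which have
been visited, and `f` says whether the top vertex is counted. The outside of the child `a` in
`join a b` has the fraction `turn (plus L b.vec)`. -/
def Tree.vertices : Tree → Multiset (ℚ × Bool) → Bool → ℤ × ℤ → Multiset Vertex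
  | .twist e, s, f, L => if f then {(plus L (-e, 1), s)} else 0
  | .join a b, s, f, L =>
      a.vertices {(Int.fract (slope (turn (plus L b.vec))), true)} (decide (2 ≤ a.children))
          (turn (plus L b.vec)) +
        b.vertices ((Int.fract (slope (turn a.vec)), !a.isRational) ::ₘ s) f (plus L (turn a.vec))

/-- The vertices with at least three branches of the closure of a tree with at least three children
of the top vertex. -/
def Tree.closedVertices (T : Tree) : Multiset Vertex := T.vertices 0 true (0, 1)

/-- The sum of the slopes at a vertex. -/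
def Vertex.sum (x : Vertex) : ℚ := slope x.1

/-- The summands of a connected sum: trees with a vertex with at least three branches, and rational
trees. -/
structure Summands where
  trees : List Tree
  rationals : List Tree

/-- All vertices with at least three branches. -/
def Summands.vertices (S : Summands) : Multiset Vertex := (S.trees.map Tree.closedVertices).sum

/-- All branches of these vertices: sum of the vertex, fractional part of the slope, and flag. -/
def Summands.branches (S : Summands) : Multiset ((ℚ × ℚ) × Bool) :=
  S.vertices.bind fun x => x.2.map fun b => ((Vertex.sum x, b.1), b.2)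

/-! ### Forms -/

/-- The binary quadratic form of a branch: `(x - β y) (x - β y + σ y) / σ`, where `β` is the slope
of the branch and `σ` the sum of the vertex. -/
def form (p : ℚ × ℚ) (x y : ℤ) : ℚ := (x - p.2 * y) * (x - p.2 * y + p.1 * y) / p.1

/-- The binary quadratic form of the 2-bridge knot which is the closure of the rational tangle with
the fraction `a / b`: `x (b x - a y) / a`. -/
def twoBridgeForm (v : ℤ × ℤ) (x y : ℤ) : ℚ := x * (v.2 * x - v.1 * y) / v.1

/-- Equivalence of binary quadratic forms under `GL₂(ℤ)`. -/
def Equivalent (f g : ℤ → ℤ → ℚ) : Prop :=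
  ∃ a b c d : ℤ, (a * d - b * c = 1 ∨ a * d - b * c = -1) ∧
    ∀ x y : ℤ, f (a * x + b * y) (c * x + d * y) = g x y

/-! ### Generic sums -/

/-- The trees have at least three branches at the root, the other summands are rational. -/
def Summands.IsProper (S : Summands) : Prop :=
  (∀ T ∈ S.trees, 3 ≤ T.children) ∧ ∀ U ∈ S.rationals, U.isRational = true

/-- Nondegenerate summands: no slope is infinite (no weight is zero) or an integer, no two slopes at a
vertex with the sum `σ` have a sum congruent to `σ` modulo 1, and the sums of different vertices are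
different. -/
structure Summands.IsNondegenerate (S : Summands) : Prop where
  weights : ∀ x ∈ S.vertices, x.1.2 ≠ 0
  slopes : ∀ x ∈ S.vertices, ∀ b ∈ x.2, b.1 ≠ 0
  pairs : ∀ x ∈ S.vertices, ∀ b c : ℚ, ({b, c} : Multiset ℚ) ≤ x.2.map Prod.fst →
    ¬ ∃ n : ℤ, b + c - Vertex.sum x = n
  sums : (S.vertices.map Vertex.sum).Nodup

/-- Generic summands: nondegenerate, and the form of a branch which contains another vertex is
equivalent to the forms of at most two branches (these are the branches on the two sides of an edge
between two vertices), and neither to the form of one of the 2-bridge knots nor to the form `x y` of the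
unknot. Example with two vertices, without 2-bridge knots: the tree with the children `twist 2`,
`twist 3`, `A` and the weight `0`, where `A` has the children `twist 3`, `twist 4` and the weight `0`. The
sums of the slopes are `-37/42` and `-37/60`; the closure is a knot with the determinant `37`. -/
structure Summands.IsGeneric (S : Summands) : Prop where
  nondegenerate : S.IsNondegenerate
  edges : ∀ p ∈ S.branches, p.2 = true → ∀ s : Multiset (ℚ × ℚ), s ≤ S.branches.map Prod.fst →
    (∀ q ∈ s, Equivalent (form p.1) (form q)) → s.card ≤ 2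
  twoBridge : ∀ p ∈ S.branches, p.2 = true → ∀ U ∈ S.rationals,
    ¬ Equivalent (form p.1) (twoBridgeForm U.vec)
  unknot : ∀ p ∈ S.branches, p.2 = true →
    ¬ Equivalent (form p.1) fun x y => ((x * y : ℤ) : ℚ)

/-- The complexity: the number of the vertices plus the number of their branches. -/
def Summands.complexity (S : Summands) : ℕ := (S.vertices.map fun x => x.2.card + 1).sum

/-- The long diagram of the connected sum of the closures of a list of trees. -/
def sumDiagram (Ts : List Tree) : Diag := (Ts.map fun T => closure T.diagram).flatten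

/-- `K` is the connected sum of the closures of the summands. -/
def IsConnectedSum (S : Summands) (K : Knot) : Prop :=
  S.IsProper ∧ ∃ h : IsLongKnot (sumDiagram (S.trees ++ S.rationals)), K = ofDiag _ h

/-! ### Mutation -/

/-- The number of strands at the top of a diagram with `n` strands at the bottom. -/
def strands : ℕ → Diag → Option ℕ
  | n, [] => some n
  | n, (k, i) :: w => if i + k.ins ≤ n then strands (n - k.ins + k.outs) w else none

/-- A slice turned upside down: minima and maxima are exchanged, crossings keep their kind. -/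
def flipKind : Kind → Kind
  | .cup => .cap
  | .cap => .cup
  | .crs e => .crs e

/-- The diagram rotated by `π` about a horizontal axis in the plane of the diagram. -/
def flip (w : Diag) : Diag := (w.map fun p => (flipKind p.1, p.2)).reverse

/-- The diagram with `n` strands at the bottom, rotated by `π` about a vertical axis in the plane of
the diagram. -/
def turnOver : ℕ → Diag → Diag
  | _, [] => []
  | n, (k, i) :: w => (k, n - k.ins - i) :: turnOver (n - k.ins + k.outs) w

/-- `K'` is obtained from `K` by a mutation: in a long diagram of `K` a tangle `t` from two strands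
to two strands is replaced by the tangle rotated by `π` about a horizontal or vertical axis. -/
def IsMutant (K K' : Knot) : Prop :=
  ∃ (u t t' v : Diag) (i m : ℕ) (h : IsLongKnot (u ++ shift i t ++ v))
    (h' : IsLongKnot (u ++ shift i t' ++ v)), strands 1 u = some m ∧ i + 2 ≤ m ∧
    strands 2 t = some 2 ∧ (t' = flip t ∨ t' = turnOver 2 t) ∧
    K = ofDiag (u ++ shift i t ++ v) h ∧ K' = ofDiag (u ++ shift i t' ++ v) h'

/-- `K` and `K'` are related by finitely many mutations. -/
def MutationEquivalent : Knot → Knot → Prop := Relation.EqvGen IsMutant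

/-- The closures of `T` and `T'` are knots and related by mutations. -/
def ClosuresMutationEquivalent (T T' : Tree) : Prop :=
  ∃ (h : IsLongKnot (closure T.diagram)) (h' : IsLongKnot (closure T'.diagram)),
    MutationEquivalent (ofDiag (closure T.diagram) h) (ofDiag (closure T'.diagram) h')


/-- The statement of the hand-in. -/
def Thm : Prop := ∀ (S S' : Summands) (K K' : Knot) (_ : IsConnectedSum S K)
    (_ : IsConnectedSum S' K') (_ : S.IsGeneric)
    (_ : S'.IsGeneric ∨ ((S.trees.length ≤ 1 ∨ S.trees.length ≤ S'.trees.length) ∧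
      (S'.IsNondegenerate ∨ S'.complexity ≤ S.complexity)))
    (_ : ∀ v : Knot → ℚ, IsFiniteType v → v K = v K'),
    MutationEquivalent K K' ∧
      (S.vertices.map fun x => (Vertex.sum x, x.2.map Prod.fst)) =
        (S'.vertices.map fun x => (Vertex.sum x, x.2.map Prod.fst)) ∧
      (∃ Ts : List Tree, Ts.Perm S'.trees ∧
        List.Forall₂ ClosuresMutationEquivalent S.trees Ts) ∧
      ∃ (k : IsLongKnot (sumDiagram S.rationals)) (k' : IsLongKnot (sumDiagram S'.rationals)),
        ofDiag _ k = ofDiag _ k'

/-! ## The examples -/

/-- test for long knots -/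
def ok (w : Diag) : Bool := match run w (1, fun _ => 0, 1) with
  | some (n, _, _) => n == 1
  | none => false

theorem long_of_ok {w : Diag} (h : ok w = true) : IsLongKnot w := by
  unfold ok at h
  split at h
  · rename_i n lab c hr
    have h1 : n = 1 := by simpa using h
    subst h1
    exact ⟨lab, c, hr⟩
  · exact absurd h (by simp)

def A1 : Tree := .join (.twist 3) (.join (.twist 4) (.twist 0))
/-- two vertices of valence three -/
def T1 : Tree := .join (.twist 2) (.join (.twist 3) (.join A1 (.twist 0)))
/-- the pretzel knots `(3, 5, 7)` and `(3, 5, 9)` -/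
def T2 : Tree := .join (.twist 3) (.join (.twist 5) (.join (.twist 7) (.twist 0)))
def T3 : Tree := .join (.twist 3) (.join (.twist 5) (.join (.twist 9) (.twist 0)))

def S1 : Summands := ⟨[T1], []⟩
def S2 : Summands := ⟨[T2], []⟩
def S3 : Summands := ⟨[T3], []⟩
def S0 : Summands := ⟨[], []⟩

theorem ok0 : ok (sumDiagram (S0.trees ++ S0.rationals)) = true := by decide +kernel
theorem ok1 : ok (sumDiagram (S1.trees ++ S1.rationals)) = true := by decide +kernel
theorem ok2 : ok (sumDiagram (S2.trees ++ S2.rationals)) = true := by decide +kernel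
theorem ok3 : ok (sumDiagram (S3.trees ++ S3.rationals)) = true := by decide +kernel

noncomputable def K0 : Knot := ofDiag _ (long_of_ok ok0)
noncomputable def K1 : Knot := ofDiag _ (long_of_ok ok1)
noncomputable def K2 : Knot := ofDiag _ (long_of_ok ok2)
noncomputable def K3 : Knot := ofDiag _ (long_of_ok ok3)

theorem conn0 : IsConnectedSum S0 K0 :=
  ⟨⟨fun T hT => absurd hT (by simp [S0]), fun U hU => absurd hU (by simp [S0])⟩, _, rfl⟩

theorem conn1 : IsConnectedSum S1 K1 := by
  refine ⟨⟨fun T hT => ?_, fun U hU => absurd hU (by simp [S1])⟩, _, rfl⟩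
  obtain rfl : T = T1 := by simpa [S1] using hT
  decide

theorem conn2 : IsConnectedSum S2 K2 := by
  refine ⟨⟨fun T hT => ?_, fun U hU => absurd hU (by simp [S2])⟩, _, rfl⟩
  obtain rfl : T = T2 := by simpa [S2] using hT
  decide

theorem conn3 : IsConnectedSum S3 K3 := by
  refine ⟨⟨fun T hT => ?_, fun U hU => absurd hU (by simp [S3])⟩, _, rfl⟩
  obtain rfl : T = T3 := by simpa [S3] using hT
  decide

theorem vt0 : S0.vertices = 0 := by decide +kernel

theorem vt1 : S1.vertices = {((-37, 42), {(1/2, false), (1/3, false), (2/7, true)}),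
    ((-37, 60), {(1/3, false), (1/4, false), (4/5, true)})} := by
  decide +kernel

theorem vt2 : S2.vertices = {((-71, -105), {(1/3, false), (1/5, false), (1/7, false)})} := by
  decide +kernel

theorem vt3 : S3.vertices = {((-87, -135), {(1/3, false), (1/5, false), (1/9, false)})} := by
  decide +kernel

theorem br1 : S1.branches = {((-37/42, 1/2), false), ((-37/42, 1/3), false), ((-37/42, 2/7), true),
    ((-37/60, 1/3), false), ((-37/60, 1/4), false), ((-37/60, 4/5), true)} := by
  decide +kernel

theorem br2 : ∀ p ∈ S2.branches, p.2 = false := by decide +kernel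

theorem br3 : ∀ p ∈ S3.branches, p.2 = false := by decide +kernel

/-- no integer between -1 and 1 except 0: a rational with a denominator -/
theorem no_int {q : ℚ} (h : q.den ≠ 1) : ¬ ∃ n : ℤ, q = n := by
  rintro ⟨n, rfl⟩
  exact h (Rat.den_intCast n)

theorem pair_mem {b c : ℚ} {M : Multiset ℚ} (h : ({b, c} : Multiset ℚ) ≤ M) : b ∈ M ∧ c ∈ M.erase b := by
  have h1 : b ::ₘ {c} ≤ M := h
  refine ⟨Multiset.mem_of_le h1 (Multiset.mem_cons_self _ _), ?_⟩
  have h2 := Multiset.erase_le_erase b h1
  rw [Multiset.erase_cons_head] at h2
  exact Multiset.singleton_le.1 h2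

theorem pairs_of (V : Multiset Vertex)
    (h : ∀ x ∈ V, ∀ b ∈ x.2.map Prod.fst, ∀ c ∈ (x.2.map Prod.fst).erase b,
      (b + c - Vertex.sum x).den ≠ 1) :
    ∀ x ∈ V, ∀ b c : ℚ, ({b, c} : Multiset ℚ) ≤ x.2.map Prod.fst →
    ¬ ∃ n : ℤ, b + c - Vertex.sum x = n := by
  intro x hx b c hbc
  obtain ⟨h1, h2⟩ := pair_mem hbc
  exact no_int (h x hx b h1 c h2)

theorem nd1 : S1.IsNondegenerate := by
  refine ⟨?_, ?_, ?_, ?_⟩
  · rw [vt1]; decide +kernel
  · rw [vt1]; decide +kernel
  · apply pairs_of
    rw [vt1]; decide +kernel
  · rw [vt1]; decide +kernel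

theorem nd2 : S2.IsNondegenerate := by
  refine ⟨?_, ?_, ?_, ?_⟩
  · rw [vt2]; decide +kernel
  · rw [vt2]; decide +kernel
  · apply pairs_of
    rw [vt2]; decide +kernel
  · rw [vt2]; decide +kernel

theorem nd3 : S3.IsNondegenerate := by
  refine ⟨?_, ?_, ?_, ?_⟩
  · rw [vt3]; decide +kernel
  · rw [vt3]; decide +kernel
  · apply pairs_of
    rw [vt3]; decide +kernel
  · rw [vt3]; decide +kernel

theorem gen0 : S0.IsGeneric := by
  have h : S0.branches = 0 := by decide +kernel
  refine ⟨⟨?_, ?_, ?_, ?_⟩, ?_, ?_, ?_⟩
  · rw [vt0]; intro x hx; exact absurd hx (Multiset.notMem_zero x)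
  · rw [vt0]; intro x hx; exact absurd hx (Multiset.notMem_zero x)
  · rw [vt0]; intro x hx; exact absurd hx (Multiset.notMem_zero x)
  · rw [vt0]; decide
  · rw [h]; intro x hx; exact absurd hx (Multiset.notMem_zero x)
  · rw [h]; intro x hx; exact absurd hx (Multiset.notMem_zero x)
  · rw [h]; intro x hx; exact absurd hx (Multiset.notMem_zero x)

theorem gen2 : S2.IsGeneric := by
  refine ⟨nd2, ?_, ?_, ?_⟩
  · intro p hp h; rw [br2 p hp] at h; exact absurd h (by simp)
  · intro p hp h; rw [br2 p hp] at h; exact absurd h (by simp)
  · intro p hp h; rw [br2 p hp] at h; exact absurd h (by simp)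

theorem gen3 : S3.IsGeneric := by
  refine ⟨nd3, ?_, ?_, ?_⟩
  · intro p hp h; rw [br3 p hp] at h; exact absurd h (by simp)
  · intro p hp h; rw [br3 p hp] at h; exact absurd h (by simp)
  · intro p hp h; rw [br3 p hp] at h; exact absurd h (by simp)

/-- divisors of a prime -/
theorem div_prime {u w : ℤ} {p : ℕ} (hp : p.Prime) (e : ℤ) (he : e = 1 ∨ e = -1) (h : u * w = e * p) :
    (u = 1 ∧ w = e * p) ∨ (u = -1 ∧ w = -(e * p)) ∨ (u = p ∧ w = e) ∨ (u = -p ∧ w = -e) := by
  have h1 : u.natAbs ∣ p := by
    have : u ∣ e * p := ⟨w, h.symm⟩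
    have h2 := Int.natAbs_dvd_natAbs.2 this
    rw [Int.natAbs_mul] at h2
    have h3 : e.natAbs = 1 := by rcases he with rfl | rfl <;> rfl
    rw [h3, one_mul, Int.natAbs_natCast] at h2
    exact h2
  have hp0 : (p : ℤ) ≠ 0 := by exact_mod_cast hp.ne_zero
  rcases (Nat.dvd_prime hp).1 h1 with h2 | h2
  · rcases Int.natAbs_eq u with h3 | h3
    · rw [h2] at h3
      left
      refine ⟨h3, ?_⟩
      rw [h3] at h
      simpa using h
    · rw [h2] at h3
      right; left
      refine ⟨by simpa using h3, ?_⟩
      rw [h3] at h
      have : -w = e * p := by simpa using h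
      omega
  · rcases Int.natAbs_eq u with h3 | h3
    · rw [h2] at h3
      right; right; left
      refine ⟨h3, ?_⟩
      rw [h3, mul_comm e] at h
      exact mul_left_cancel₀ hp0 h
    · rw [h2] at h3
      right; right; right
      refine ⟨h3, ?_⟩
      rw [h3] at h
      have : (p : ℤ) * w = p * (-e) := by linarith
      exact mul_left_cancel₀ hp0 this

theorem f1 (x y : ℤ) : form (-37/42, 2/7) x y = -(((7 * x - 2 * y) * (6 * x - 7 * y) : ℤ) : ℚ) / 37 := by
  simp only [form]; push_cast; ring

theorem f2 (x y : ℤ) : form (-37/60, 4/5) x y = -(((5 * x - 4 * y) * (12 * x - 17 * y) : ℤ) : ℚ) / 37 := by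
  simp only [form]; push_cast; ring

theorem no1 (X Y : ℤ) (p : ℕ) (hp : p.Prime) (h : p = 29 ∨ p = 17 ∨ p = 19 ∨ p = 13) :
    (7 * X - 2 * Y) * (6 * X - 7 * Y) ≠ p := by
  intro h1
  rcases div_prime hp 1 (Or.inl rfl) (by rw [h1, one_mul]) with h2 | h2 | h2 | h2 <;>
    rcases h with rfl | rfl | rfl | rfl <;> (push_cast at h2; omega)

theorem no2 (X Y : ℤ) (p : ℕ) (hp : p.Prime) (h : p = 29 ∨ p = 17 ∨ p = 19 ∨ p = 13) :
    (5 * X - 4 * Y) * (12 * X - 17 * Y) ≠ p := by
  intro h1
  rcases div_prime hp 1 (Or.inl rfl) (by rw [h1, one_mul]) with h2 | h2 | h2 | h2 <;>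
    rcases h with rfl | rfl | rfl | rfl <;> (push_cast at h2; omega)

theorem no37a (X Y : ℤ) : (7 * X - 2 * Y) * (6 * X - 7 * Y) ≠ -37 := by
  intro h1
  rcases div_prime (p := 37) (by norm_num) (-1) (Or.inr rfl) (by rw [h1]; norm_num) with h2 | h2 | h2 | h2 <;>
    (push_cast at h2; omega)

theorem no37b (X Y : ℤ) : (5 * X - 4 * Y) * (12 * X - 17 * Y) ≠ -37 := by
  intro h1
  rcases div_prime (p := 37) (by norm_num) (-1) (Or.inr rfl) (by rw [h1]; norm_num) with h2 | h2 | h2 | h2 <;>
    (push_cast at h2; omega)

/-- the branches whose form is equivalent to the form of an edge -/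
theorem eqv (p q : ℚ × ℚ) (hp : p = (-37/42, 2/7) ∨ p = (-37/60, 4/5))
    (hq : q = (-37/42, 1/2) ∨ q = (-37/42, 1/3) ∨ q = (-37/60, 1/3) ∨ q = (-37/60, 1/4)) :
    ¬ Equivalent (form p) (form q) := by
  rintro ⟨a, b, c, d, -, h⟩
  have h1 := h 0 1
  have key : ∃ n : ℕ, n.Prime ∧ (n = 29 ∨ n = 17 ∨ n = 19 ∨ n = 13) ∧ form q 0 1 = -(n : ℚ) / 37 := by
    rcases hq with rfl | rfl | rfl | rfl
    · exact ⟨29, by norm_num, by simp, by norm_num [form]⟩
    · exact ⟨17, by norm_num, by simp, by norm_num [form]⟩
    · exact ⟨19, by norm_num, by simp, by norm_num [form]⟩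
    · exact ⟨13, by norm_num, by simp, by norm_num [form]⟩
  obtain ⟨n, hn, hn', hn2⟩ := key
  rw [hn2] at h1
  rcases hp with rfl | rfl
  · rw [f1] at h1
    refine no1 (a * 0 + b * 1) (c * 0 + d * 1) n hn hn' ?_
    have : ((((7 * (a * 0 + b * 1) - 2 * (c * 0 + d * 1)) *
      (6 * (a * 0 + b * 1) - 7 * (c * 0 + d * 1)) : ℤ)) : ℚ) = ((n : ℤ) : ℚ) := by
      push_cast at h1 ⊢
      linarith
    exact_mod_cast this
  · rw [f2] at h1
    refine no2 (a * 0 + b * 1) (c * 0 + d * 1) n hn hn' ?_
    have : ((((5 * (a * 0 + b * 1) - 4 * (c * 0 + d * 1)) *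
      (12 * (a * 0 + b * 1) - 17 * (c * 0 + d * 1)) : ℤ)) : ℚ) = ((n : ℤ) : ℚ) := by
      push_cast at h1 ⊢
      linarith
    exact_mod_cast this

/-- **the example with two vertices is generic** -/
theorem gen1 : S1.IsGeneric := by
  refine ⟨nd1, ?_, ?_, ?_⟩
  · intro p hp hf s hs hq
    rw [br1] at hp hs
    have hp' : p.1 = (-37/42, 2/7) ∨ p.1 = (-37/60, 4/5) := by
      simp only [Multiset.insert_eq_cons, Multiset.mem_cons, Multiset.mem_singleton] at hp
      rcases hp with rfl | rfl | rfl | rfl | rfl | rfl <;> simp_all
    have h1 : ∀ q ∈ s, q = (-37/42, 2/7) ∨ q = ((-37/60, 4/5) : ℚ × ℚ) := by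
      intro q hqs
      have h2 := Multiset.mem_of_le hs hqs
      by_contra h3
      apply eqv p.1 q hp' _ (hq q hqs)
      simp only [Multiset.insert_eq_cons, Multiset.map_cons, Multiset.map_singleton, Multiset.mem_cons,
        Multiset.mem_singleton] at h2
      rcases h2 with rfl | rfl | rfl | rfl | rfl | rfl
      · exact Or.inl rfl
      · exact Or.inr (Or.inl rfl)
      · exact absurd (Or.inl rfl) h3
      · exact Or.inr (Or.inr (Or.inl rfl))
      · exact Or.inr (Or.inr (Or.inr rfl))
      · exact absurd (Or.inr rfl) h3
    have h2 : s = s.filter (fun q => q = (-37/42, 2/7) ∨ q = ((-37/60, 4/5) : ℚ × ℚ)) :=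
      (Multiset.filter_eq_self.2 h1).symm
    rw [h2]
    refine le_trans (Multiset.card_le_card (Multiset.filter_le_filter _ hs)) ?_
    decide +kernel
  · intro p _ _ U hU
    exact absurd hU (by simp [S1])
  · intro p hp hf
    rw [br1] at hp
    rintro ⟨a, b, c, d, -, h⟩
    have h1 := h 1 1
    have hp' : p.1 = (-37/42, 2/7) ∨ p.1 = (-37/60, 4/5) := by
      simp only [Multiset.insert_eq_cons, Multiset.mem_cons, Multiset.mem_singleton] at hp
      rcases hp with rfl | rfl | rfl | rfl | rfl | rfl <;> simp_all
    rcases hp' with hp' | hp'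
    · rw [hp', f1] at h1
      apply no37a (a * 1 + b * 1) (c * 1 + d * 1)
      have : ((((7 * (a * 1 + b * 1) - 2 * (c * 1 + d * 1)) *
        (6 * (a * 1 + b * 1) - 7 * (c * 1 + d * 1)) : ℤ)) : ℚ) = ((-37 : ℤ) : ℚ) := by
        push_cast at h1 ⊢
        linarith
      exact_mod_cast this
    · rw [hp', f2] at h1
      apply no37b (a * 1 + b * 1) (c * 1 + d * 1)
      have : ((((5 * (a * 1 + b * 1) - 4 * (c * 1 + d * 1)) *
        (12 * (a * 1 + b * 1) - 17 * (c * 1 + d * 1)) : ℤ)) : ℚ) = ((-37 : ℤ) : ℚ) := by
        push_cast at h1 ⊢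
        linarith
      exact_mod_cast this

/-! ## Content -/

/-- if two generic sums have different vertices, the theorem gives a finite type invariant that
distinguishes them -/
theorem content (H : Thm) {S S' : Summands} {K K' : Knot} (hK : IsConnectedSum S K)
    (hK' : IsConnectedSum S' K') (hS : S.IsGeneric) (hS' : S'.IsGeneric)
    (hne : Multiset.card S.vertices ≠ Multiset.card S'.vertices ∨
      (S.vertices.map Vertex.sum) ≠ (S'.vertices.map Vertex.sum)) :
    ∃ v : Knot → ℚ, IsFiniteType v ∧ v K ≠ v K' := by
  by_contra hcon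
  push Not at hcon
  obtain ⟨-, h, -⟩ := H S S' K K' hK hK' hS (Or.inl hS') hcon
  rcases hne with hne | hne
  · apply hne
    have := congrArg Multiset.card h
    simpa using this
  · apply hne
    have := congrArg (Multiset.map Prod.fst) h
    simpa [Multiset.map_map, Function.comp_def] using this

theorem content12 (H : Thm) : ∃ v : Knot → ℚ, IsFiniteType v ∧ v K1 ≠ v K2 :=
  content H conn1 conn2 gen1 gen2 (Or.inl (by rw [vt1, vt2]; decide))

theorem content23 (H : Thm) : ∃ v : Knot → ℚ, IsFiniteType v ∧ v K2 ≠ v K3 :=
  content H conn2 conn3 gen2 gen3 (Or.inr (by rw [vt2, vt3]; decide +kernel))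

theorem content10 (H : Thm) : ∃ v : Knot → ℚ, IsFiniteType v ∧ v K1 ≠ v K0 :=
  content H conn1 conn0 gen1 gen0 (Or.inl (by rw [vt1, vt0]; decide))

/-- finite type of order zero is a real restriction -/
theorem order_zero (v : Knot → ℚ) (hv : HasOrderLE v 0)
    (h1 : ok (closure (halfTwists 1)) = true) (h3 : ok (closure (halfTwists 3)) = true) :
    v (ofDiag _ (long_of_ok h1)) = v (ofDiag _ (long_of_ok h3)) := by
  have key := hv [Sum.inl (.cup, 1), Sum.inl (.crs true, 0), Sum.inl (.crs true, 0), Sum.inr 0,
    Sum.inl (.cap, 1)] rfl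
  simp only [resolve] at key
  have e3 : closure (halfTwists 3) = [(.cup, 1), (.crs true, 0), (.crs true, 0), (.crs true, 0), (.cap, 1)] := rfl
  have e1 : closure (halfTwists 1) = [(.cup, 1), (.crs true, 0), (.cap, 1)] := rfl
  have l3 : IsLongKnot [(Kind.cup, 1), (.crs true, 0), (.crs true, 0), (.crs true, 0), (.cap, 1)] := by
    rw [← e3]; exact long_of_ok h3
  have l1' : IsLongKnot [(Kind.cup, 1), (.crs true, 0), (.crs true, 0), (.crs false, 0), (.cap, 1)] := by
    apply long_of_ok; decide +kernel
  have l1 : IsLongKnot [(Kind.cup, 1), (.crs true, 0), (.cap, 1)] := by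
    rw [← e1]; exact long_of_ok h1
  rw [onDiags, dif_pos l3, onDiags, dif_pos l1'] at key
  have hm : ofDiag _ l1' = ofDiag _ l1 :=
    Quot.sound ⟨[(Kind.cup, 1), (.crs true, 0)], [(.crs true, 0), (.crs (!true), 0)], [], [(.cap, 1)],
      Move.r2 0 true, rfl, rfl⟩
  have c3 : ofDiag _ (long_of_ok h3) = ofDiag _ l3 := by congr 1
  have c1 : ofDiag _ (long_of_ok h1) = ofDiag _ l1 := by congr 1
  rw [c3, c1, ← hm]
  linarith

theorem order_zero' (v : Knot → ℚ) (hv : HasOrderLE v 0) :
    ∃ (h1 : IsLongKnot (closure (halfTwists 1))) (h3 : IsLongKnot (closure (halfTwists 3))),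
      v (ofDiag _ h1) = v (ofDiag _ h3) :=
  ⟨_, _, order_zero v hv (by decide +kernel) (by decide +kernel)⟩

end Pool.Agent.VAC2.GenericArborescent
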