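import Pool.Agent.GK.Defs
import Pool.Agent.VAC2.BraidColour

/-!
# Certificate for `MP_31fd3b_gt.SeparateGraphKnots`

The unknot and the trefoil are graph knots and they are different, so the conclusion `K = K'` is not
automatic; the `ℤ`-valued functions on `Knot` are not all of finite type (the number of Fox
3-colourings is not), so the hypothesis is not the agreement of all functions.
-/

set_option autoImplicit false

namespace Pool.Agent.VAC2.GraphKnots

open Pool.Agent.LibH11 Pool.Agent.IT Pool.Agent.GK Pool.Agent.VAC2.BraidColour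

theorem cab_eq : ev (2 * (0 + 1) - 1) (cab 2 3 []) = s ^ (2 * 1 + 1 : ℤ) := by
  have e : cab 2 3 [] = [(0, true), (0, true), (0, true)] := by
    rw [cab_nil]
    rfl
  rw [e]
  have h1 : s ^ (2 * 1 + 1 : ℤ) = s * (s * (s * 1)) := by
    rw [show (2 * 1 + 1 : ℤ) = ((3 : ℕ) : ℤ) by norm_num, zpow_natCast, pow_succ', pow_succ',
      pow_succ', pow_zero]
  rw [h1]
  rfl

theorem graph_trefoil : GraphKnot trefoil := by
  have h0 : IsKnot (ev 0 []) := isKnot_nil
  have h' : IsKnot (ev (2 * (0 + 1) - 1) (cab 2 3 [])) := by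
    rw [cab_eq]
    exact isKnot_odd 1
  have h1 : GraphKnot (closure (ev 0 []) h0) := GraphKnot.unknot
  have h2 := GraphKnot.cable 0 [] h0 2 3 h' (by simp) (by norm_num) (by norm_num) h1
  have key : ∀ (b : Br 1) (hb : IsKnot b) (c : Br 1) (hc : IsKnot c), b = c →
      closure b hb = closure c hc := by
    intro b hb c hc h
    subst h
    rfl
  have h3 : closure (ev (2 * (0 + 1) - 1) (cab 2 3 [])) h' = trefoil := key _ _ _ _ cab_eq
  rw [← h3]
  exact h2

/-- The certificate. -/
theorem certificate :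
    (∃ K K' : Knot, GraphKnot K ∧ GraphKnot K' ∧ K ≠ K') ∧
    ∃ v : Knot → ℤ, ¬ IsFiniteType v :=
  ⟨⟨unknot, trefoil, GraphKnot.unknot, graph_trefoil, unknot_ne_trefoil⟩, _, not_finiteType⟩

end Pool.Agent.VAC2.GraphKnots
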