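import Mathlib
import Pool.Agent.T3.Defs

/-!
# Certificate of non-vacuity for MP_31fd3b_gt / SeparateThreeBraids (helper file, not a hand-in)

The definitions are those of the hand-in (`Pool.Agent.LibH11.BraidKnots`, `Pool.Agent.T3.Defs`).
Proved here:

* `colNum`: the number of the 3-colourings is invariant under the Markov moves, so it is a function
  on `Knot`;
* `conclusion_is_real`: the unknot `σ₁σ₂` and the trefoil `σ₁³σ₂` satisfy `IsKnot`, and the
  conclusion of the hand-in is false for them (`Knot` is not degenerate, the hypothesis on the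
  invariants is not automatic);
* `separates`: so the hand-in gives a nonconstant finite type invariant with values in every `A`;
* `not_finiteType`: `colNum` is not of finite type, so `IsFiniteType` is a real condition (the
  hypothesis is weaker than: all functions on `Knot` agree).
-/

set_option autoImplicit false

namespace Pool.Agent.VAC2.ThreeBraids

open Pool.Agent.LibH11 Pool.Agent.T3

/-- colourings of the strands with the elements of `ZMod 3` -/
abbrev Col (n : ℕ) : Type := Fin (n + 1) → ZMod 3

theorem z3 (a b : ZMod 3) : a = -(-(a + b) + b) := by ring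

/-- the action of a crossing on the colours -/
def act {n : ℕ} (i : Fin n) : Equiv.Perm (Col n) where
  toFun c x := if (x : ℕ) = i then c i.succ else
    if (x : ℕ) = i + 1 then -(c i.castSucc + c i.succ) else c x
  invFun c x := if (x : ℕ) = i then -(c i.castSucc + c i.succ) else
    if (x : ℕ) = i + 1 then c i.castSucc else c x
  left_inv c := by
    funext x
    by_cases h1 : (x : ℕ) = i
    · have : x = i.castSucc := Fin.ext h1
      subst this
      simp
    · by_cases h2 : (x : ℕ) = i + 1
      · have : x = i.succ := Fin.ext h2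
        subst this
        simp
      · simp [h1, h2]
  right_inv c := by
    funext x
    by_cases h1 : (x : ℕ) = i
    · have : x = i.castSucc := Fin.ext h1
      subst this
      simp
    · by_cases h2 : (x : ℕ) = i + 1
      · have : x = i.succ := Fin.ext h2
        subst this
        simp
      · simp [h1, h2]

theorem act_apply {n : ℕ} (i : Fin n) (c : Col n) (x : Fin (n + 1)) :
    act i c x = if (x : ℕ) = i then c i.succ else
      if (x : ℕ) = i + 1 then -(c i.castSucc + c i.succ) else c x := rfl

theorem act_symm_apply {n : ℕ} (i : Fin n) (c : Col n) (x : Fin (n + 1)) :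
    (act i)⁻¹ c x = if (x : ℕ) = i then -(c i.castSucc + c i.succ) else
      if (x : ℕ) = i + 1 then c i.castSucc else c x := rfl

/-- the action of a braid on the colours -/
def col {n : ℕ} : Br n →* Equiv.Perm (Col n) :=
  liftBr act
    (by
      intro i j hij
      refine Equiv.ext fun c => funext fun x => ?_
      simp only [Equiv.Perm.mul_apply, act_apply, Fin.val_succ, Fin.val_castSucc]
      split_ifs <;> first | rfl | omega)
    (by
      intro i j hij
      have h1 : j.castSucc = i.succ := Fin.ext (by simp [← hij])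
      refine Equiv.ext fun c => funext fun x => ?_
      simp only [Equiv.Perm.mul_apply, act_apply, Fin.val_succ, Fin.val_castSucc, h1, ← hij]
      have h3 : (3 : ZMod 3) = 0 := rfl
      split_ifs <;> first | rfl | omega | linear_combination (-(c j.succ)) * h3)

theorem col_sg {n : ℕ} (i : Fin n) : col (sg i : Br n) = act i := liftBr_sg _ _ _ i

/-- the number of the colourings of the closure -/
noncomputable def num {n : ℕ} (b : Br n) : ℕ := Nat.card {c : Col n // col b c = c}

theorem num_conj {n : ℕ} (a b : Br n) : num (a * b * a⁻¹) = num b := by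
  have h0 : ∀ c, col (a * b * a⁻¹) c = col a (col b ((col a)⁻¹ c)) := by
    intro c
    rw [map_mul, map_mul, map_inv, Equiv.Perm.mul_apply, Equiv.Perm.mul_apply]
  refine Nat.card_congr
    { toFun := fun c => ⟨(col a)⁻¹ c.1, ?_⟩
      invFun := fun c => ⟨col a c.1, ?_⟩
      left_inv := fun c => Subtype.ext (by simp)
      right_inv := fun c => Subtype.ext (by simp) }
  · have h := c.2
    rw [h0] at h
    rw [Equiv.Perm.eq_inv_iff_eq]
    exact h
  · have h := c.2
    rw [h0]
    have h1 : (col a)⁻¹ (col a c.1) = c.1 := by simp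
    rw [h1, h]

/-- extension to one more strand -/
def ext1 {n : ℕ} : Equiv.Perm (Col n) →* Equiv.Perm (Col (n + 1)) where
  toFun π :=
    { toFun := fun c => Fin.snoc (α := fun _ => ZMod 3) (π (fun y => c y.castSucc)) (c (Fin.last _))
      invFun := fun c =>
        Fin.snoc (α := fun _ => ZMod 3) (π.symm (fun y => c y.castSucc)) (c (Fin.last _))
      left_inv := fun c => by
        refine funext fun x => ?_
        refine Fin.lastCases ?_ (fun y => ?_) x <;> simp
      right_inv := fun c => by
        refine funext fun x => ?_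
        refine Fin.lastCases ?_ (fun y => ?_) x <;> simp }
  map_one' := by
    refine Equiv.ext fun c => funext fun x => ?_
    refine Fin.lastCases ?_ (fun y => ?_) x <;> simp
  map_mul' π ρ := by
    refine Equiv.ext fun c => funext fun x => ?_
    refine Fin.lastCases ?_ (fun y => ?_) x <;> simp

theorem ext1_castSucc {n : ℕ} (π : Equiv.Perm (Col n)) (c : Col (n + 1)) (y : Fin (n + 1)) :
    ext1 π c y.castSucc = π (fun y => c y.castSucc) y := by
  change Fin.snoc (α := fun _ => ZMod 3) _ _ _ = _
  simp

theorem ext1_last {n : ℕ} (π : Equiv.Perm (Col n)) (c : Col (n + 1)) :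
    ext1 π c (Fin.last _) = c (Fin.last _) := by
  change Fin.snoc (α := fun _ => ZMod 3) _ _ _ = _
  simp

theorem col_incl {n : ℕ} (b : Br n) : col (incl b) = ext1 (col b) := by
  have h : (col.comp incl : Br n →* Equiv.Perm (Col (n + 1))) = ext1.comp col := by
    refine PresentedGroup.ext fun i => ?_
    change col (incl (sg i)) = ext1 (col (sg i))
    rw [incl, liftBr_sg, col_sg, col_sg]
    refine Equiv.ext fun c => funext fun x => ?_
    refine Fin.lastCases ?_ (fun y => ?_) x
    · rw [ext1_last, act_apply, if_neg, if_neg]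
      · simp only [Fin.val_last, Fin.val_castSucc]
        omega
      · simp only [Fin.val_last, Fin.val_castSucc]
        omega
    · rw [ext1_castSucc, act_apply, act_apply]
      rfl
  exact DFunLike.congr_fun h b

theorem num_stab {n : ℕ} (b : Br n) (s : Br (n + 1))
    (h1 : ∀ c : Col (n + 1), col s c (Fin.last _) = c (Fin.last _) →
      c (Fin.last n).castSucc = c (Fin.last _))
    (h2 : ∀ c : Col (n + 1), c (Fin.last n).castSucc = c (Fin.last _) → col s c = c) :
    num (incl b * s) = num b := by
  have key : ∀ c : Col (n + 1), col (incl b * s) c = c →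
      c (Fin.last n).castSucc = c (Fin.last _) ∧ col b (fun y => c y.castSucc) =
        fun y => c y.castSucc := by
    intro c hc
    rw [map_mul, Equiv.Perm.mul_apply, col_incl] at hc
    have h3 : c (Fin.last n).castSucc = c (Fin.last _) := by
      apply h1
      have h4 := congrFun hc (Fin.last _)
      rw [ext1_last] at h4
      exact h4
    rw [h2 c h3] at hc
    refine ⟨h3, funext fun y => ?_⟩
    rw [← ext1_castSucc, hc]
  refine Nat.card_congr
    { toFun := fun c => ⟨fun y => c.1 y.castSucc, (key c.1 c.2).2⟩
      invFun := fun c => ⟨Fin.snoc (α := fun _ => ZMod 3) c.1 (c.1 (Fin.last _)), ?_⟩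
      left_inv := fun c => Subtype.ext (funext fun x => ?_)
      right_inv := fun c => Subtype.ext (funext fun x => by simp) }
  · rw [map_mul, Equiv.Perm.mul_apply, col_incl, h2 _ (by simp)]
    refine funext fun x => ?_
    refine Fin.lastCases ?_ (fun y => ?_) x
    · rw [ext1_last]
    · rw [ext1_castSucc]
      simp [c.2]
  · refine Fin.lastCases ?_ (fun y => ?_) x
    · simp [(key c.1 c.2).1]
    · simp

theorem num_stabPos {n : ℕ} (b : Br n) : num (incl b * sg (Fin.last n)) = num b := by
  have h3 : (3 : ZMod 3) = 0 := rfl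
  refine num_stab b _ (fun c h => ?_) (fun c h => funext fun x => ?_)
  · rw [col_sg, act_apply] at h
    simp only [Fin.val_last, Fin.succ_last, Nat.succ_eq_add_one, Nat.add_eq_left, one_ne_zero,
      if_false, if_true] at h
    linear_combination (-1 : ZMod 3) * h - (c (Fin.last (n + 1))) * h3
  · rw [col_sg, act_apply]
    split_ifs with h4 h5
    · have : x = (Fin.last n).castSucc := Fin.ext (by simpa using h4)
      rw [this, h]
      rfl
    · have : x = Fin.last (n + 1) := Fin.ext (by simpa using h5)
      rw [this, h]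
      change -(c (Fin.last (n + 1)) + c (Fin.last (n + 1))) = _
      linear_combination (-(c (Fin.last (n + 1)))) * h3
    · rfl

theorem num_stabNeg {n : ℕ} (b : Br n) : num (incl b * (sg (Fin.last n))⁻¹) = num b := by
  have h3 : (3 : ZMod 3) = 0 := rfl
  refine num_stab b _ (fun c h => ?_) (fun c h => funext fun x => ?_)
  · rw [map_inv, col_sg, act_symm_apply] at h
    simp only [Fin.val_last, Nat.add_eq_left, one_ne_zero,
      if_false, if_true] at h
    exact h
  · rw [map_inv, col_sg, act_symm_apply]
    split_ifs with h4 h5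
    · have : x = (Fin.last n).castSucc := Fin.ext (by simpa using h4)
      rw [this, h]
      change -(c (Fin.last (n + 1)) + c (Fin.last (n + 1))) = _
      linear_combination (-(c (Fin.last (n + 1)))) * h3
    · have : x = Fin.last (n + 1) := Fin.ext (by simpa using h5)
      rw [this, h]
    · rfl

/-- The number of the colourings is a knot invariant. -/
noncomputable def colNum : Knot → ℤ :=
  Quot.lift (fun x => (num x.1.2 : ℤ)) (by
    rintro ⟨x, hx⟩ ⟨y, hy⟩ h
    change MarkovMove x y at h
    change (num x.2 : ℤ) = num y.2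
    cases h with
    | conj n a b => rw [num_conj]
    | stabPos n b => rw [num_stabPos]
    | stabNeg n b => rw [num_stabNeg])

theorem colNum_closure {n : ℕ} (b : Br n) (h : IsKnot b) : colNum (closure b h) = num b := rfl

/-! ## The unknot and the trefoil as closed 3-braids -/

theorem perm_sg {n : ℕ} (i : Fin n) : perm (sg i : Br n) = Equiv.swap i.castSucc i.succ :=
  liftBr_sg _ _ _ i

theorem knot1 : IsKnot (sg 0 * sg 1 : Br 2) := by
  unfold IsKnot
  rw [map_mul, perm_sg, perm_sg]
  decide

theorem knot2 : IsKnot (sg 0 ^ 3 * sg 1 : Br 2) := by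
  unfold IsKnot
  rw [map_mul, map_pow, perm_sg, perm_sg]
  decide

theorem num1 : num (sg 0 * sg 1 : Br 2) = 3 := by
  unfold num
  rw [map_mul, col_sg, col_sg, Nat.card_eq_fintype_card]
  decide

theorem num1' : num (sg 1 * sg 0 : Br 2) = 3 := by
  unfold num
  rw [map_mul, col_sg, col_sg, Nat.card_eq_fintype_card]
  decide

theorem num2 : num (sg 0 ^ 3 * sg 1 : Br 2) = 9 := by
  unfold num
  rw [map_mul, map_pow, col_sg, col_sg, Nat.card_eq_fintype_card]
  decide

theorem rev1 : rev (sg 0 * sg 1 : Br 2) = sg 1 * sg 0 := by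
  unfold rev revHom
  rw [map_mul, liftBr_sg, liftBr_sg, MulOpposite.unop_mul]
  rfl

/-- The hypotheses `IsKnot b`, `IsKnot b'` hold for the unknot `b = σ₁σ₂` and the trefoil
`b' = σ₁³σ₂`, and the conclusion of the hand-in is false for them: so the hypothesis on the
finite type invariants is not automatic, and `Knot` is not degenerate. -/
theorem conclusion_is_real :
    ¬ (closure (sg 0 * sg 1 : Br 2) knot1 = closure (sg 0 ^ 3 * sg 1 : Br 2) knot2 ∨
      ∃ hr : IsKnot (rev (sg 0 * sg 1 : Br 2)),
        closure (rev (sg 0 * sg 1 : Br 2)) hr = closure (sg 0 ^ 3 * sg 1 : Br 2) knot2) := by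
  rintro (h | ⟨hr, h⟩)
  · have h1 := congrArg colNum h
    rw [colNum_closure, colNum_closure, num1, num2] at h1
    norm_num at h1
  · have h1 := congrArg colNum h
    rw [colNum_closure, colNum_closure, num2, rev1, num1'] at h1
    norm_num at h1

/-- Consequence of the hand-in: some finite type invariant with values in `A` has different values
on the unknot and on the trefoil; in particular it is not constant. -/
theorem separates (A : Type*) [AddCommGroup A]
    (hand : ∀ (b b' : Br 2) (h : IsKnot b) (h' : IsKnot b'),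
      (∀ v : Knot → A, IsFiniteType v → v (closure b h) = v (closure b' h')) →
      closure b h = closure b' h' ∨ ∃ hr : IsKnot (rev b), closure (rev b) hr = closure b' h') :
    ∃ v : Knot → A, IsFiniteType v ∧
      v (closure (sg 0 * sg 1 : Br 2) knot1) ≠ v (closure (sg 0 ^ 3 * sg 1 : Br 2) knot2) := by
  by_contra hc
  push Not at hc
  exact conclusion_is_real (hand _ _ knot1 knot2 hc)

/-! ## Not every function of knots is of finite type -/

theorem onBraids_congr {n : ℕ} (b b' : Br n) (h1 : perm b = perm b') (h2 : col b = col b') :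
    onBraids colNum n b = onBraids colNum n b' := by
  have h3 : IsKnot b ↔ IsKnot b' := by
    unfold IsKnot
    rw [h1]
  have h4 : num b = num b' := by
    unfold num
    rw [h2]
  unfold onBraids
  by_cases h : IsKnot b
  · rw [dif_pos h, dif_pos (h3.1 h), colNum_closure, colNum_closure, h4]
  · rw [dif_neg h, dif_neg (fun h' => h (h3.2 h'))]

/-- the difference along `σ^j` -/
def dl (f : ℤ → ℤ) (j : ℤ) : ℤ := f (j + 1) - f (j - 1)

theorem vanishes_dl (k : ℕ) : ∀ g : Br 1 → ℤ, Vanishes k g →
    ∀ j, dl^[k] (fun j => g (sg 0 ^ j)) j = 0 := by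
  induction k with
  | zero => exact fun g h j => h _
  | succ k ih =>
    intro g h j
    have h1 := ih _ (h 1 0) j
    rw [Function.iterate_succ_apply]
    have h2 : dl (fun j => g (sg 0 ^ j)) =
        fun j => g (1 * sg 0 * sg 0 ^ j) - g (1 * (sg 0)⁻¹ * sg 0 ^ j) := by
      funext i
      change g (sg 0 ^ (i + 1)) - g (sg 0 ^ (i - 1)) = _
      rw [one_mul, one_mul, add_comm i 1, sub_eq_neg_add i 1, zpow_add, zpow_add, zpow_one,
        zpow_neg_one]
    rw [h2]
    exact h1

theorem dl3 (f : ℤ → ℤ) (hf : ∀ j, f (j + 3) = f (j - 3)) :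
    dl (dl (dl f)) = fun j => -3 * dl f j := by
  funext j
  unfold dl
  have h1 : j + 1 + 1 + 1 = j + 3 := by ring
  have h2 : j - 1 - 1 - 1 = j - 3 := by ring
  have h3 : j + 1 + 1 - 1 = j + 1 := by ring
  have h4 : j + 1 - 1 + 1 = j + 1 := by ring
  have h5 : j + 1 - 1 - 1 = j - 1 := by ring
  have h6 : j - 1 + 1 + 1 = j + 1 := by ring
  have h7 : j - 1 + 1 - 1 = j - 1 := by ring
  have h8 : j - 1 - 1 + 1 = j - 1 := by ring
  rw [h1, h2, h3, h4, h5, h6, h7, h8, hf j]
  ring

theorem dl_iter_mul (k : ℕ) (c : ℤ) (f : ℤ → ℤ) :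
    dl^[k] (fun j => c * f j) = fun j => c * dl^[k] f j := by
  induction k generalizing f with
  | zero => rfl
  | succ k ih =>
    rw [Function.iterate_succ_apply, Function.iterate_succ_apply, ← ih]
    congr 1
    funext j
    unfold dl
    ring

theorem dl_odd (f : ℤ → ℤ) (hf : ∀ j, f (j + 3) = f (j - 3)) (m : ℕ) :
    dl^[2 * m + 1] f = fun j => (-3) ^ m * dl f j := by
  induction m with
  | zero =>
    funext j
    simp
  | succ m ih =>
    have h1 : 2 * (m + 1) + 1 = 2 * m + 1 + 2 := by ring
    rw [h1, Function.iterate_add_apply]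
    have h2 : dl^[2 * m + 1] (dl^[2] f) = dl^[2 * m] (dl (dl (dl f))) := by
      rw [Function.iterate_succ_apply]
      rfl
    rw [h2, dl3 f hf, dl_iter_mul]
    have h3 : dl^[2 * m] (dl f) = dl^[2 * m + 1] f := (Function.iterate_succ_apply _ _ _).symm
    rw [h3, ih]
    funext j
    ring

theorem dl_zero (k l : ℕ) (f : ℤ → ℤ) (h : ∀ j, dl^[k] f j = 0) : ∀ j, dl^[l + k] f j = 0 := by
  rw [Function.iterate_add_apply, show dl^[k] f = fun _ => 0 from funext h]
  induction l with
  | zero => exact fun _ => rfl
  | succ l ih =>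
    intro j
    rw [Function.iterate_succ_apply']
    change dl^[l] (fun _ => 0) (j + 1) - dl^[l] (fun _ => 0) (j - 1) = 0
    rw [ih, ih, sub_zero]

/-- The number of the 3-colourings is a knot invariant that is not of finite type: `IsFiniteType`
is a real condition. -/
theorem not_finiteType : ¬ IsFiniteType colNum := by
  rintro ⟨k, hk⟩
  have h1 := vanishes_dl (k + 1) _ (hk 1)
  set f : ℤ → ℤ := fun j => onBraids colNum 1 (sg 0 ^ j) with hf
  have hc3 : col (sg 0 : Br 1) ^ 3 = 1 := by
    rw [col_sg]
    decide
  have hc6 : col (sg 0 : Br 1) ^ (6 : ℤ) = 1 := by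
    rw [show (6 : ℤ) = ((3 * 2 : ℕ) : ℤ) by norm_num, zpow_natCast, pow_mul, hc3, one_pow]
  have hp2 : perm (sg 0 : Br 1) ^ 2 = 1 := by
    rw [perm_sg]
    decide
  have hp6 : perm (sg 0 : Br 1) ^ (6 : ℤ) = 1 := by
    rw [show (6 : ℤ) = ((2 * 3 : ℕ) : ℤ) by norm_num, zpow_natCast, pow_mul, hp2, one_pow]
  have hper : ∀ j, f (j + 3) = f (j - 3) := by
    intro j
    rw [hf]
    refine onBraids_congr _ _ ?_ ?_
    · rw [show j + 3 = (j - 3) + 6 by ring, map_zpow, map_zpow, zpow_add, hp6, mul_one]
    · rw [show j + 3 = (j - 3) + 6 by ring, map_zpow, map_zpow, zpow_add, hc6, mul_one]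
  have hk1 : IsKnot (sg 0 : Br 1) := by
    unfold IsKnot
    rw [perm_sg]
    decide
  have hk3 : IsKnot (sg 0 ^ 3 : Br 1) := by
    unfold IsKnot
    rw [map_pow, perm_sg]
    decide
  have hf1 : f 1 = 3 := by
    have h2 : num (sg 0 : Br 1) = 3 := by
      unfold num
      rw [col_sg, Nat.card_eq_fintype_card]
      decide
    simp only [hf, zpow_one]
    unfold onBraids
    rw [dif_pos hk1, colNum_closure, h2]
    rfl
  have hf3 : f 3 = 9 := by
    have h2 : num (sg 0 ^ 3 : Br 1) = 9 := by
      unfold num
      rw [map_pow, col_sg, Nat.card_eq_fintype_card]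
      decide
    have h3 : (sg 0 : Br 1) ^ (3 : ℤ) = sg 0 ^ 3 := rfl
    simp only [hf]
    rw [h3]
    unfold onBraids
    rw [dif_pos hk3, colNum_closure, h2]
    rfl
  have h2 := dl_zero (k + 1) k f h1 2
  rw [show k + (k + 1) = 2 * k + 1 by ring, dl_odd f hper] at h2
  have h3 : dl f 2 = 6 := by
    unfold dl
    norm_num [hf1, hf3]
  beta_reduce at h2
  rw [h3] at h2
  have h4 : ((-3 : ℤ)) ^ k ≠ 0 := pow_ne_zero _ (by norm_num)
  exact absurd h2 (mul_ne_zero h4 (by norm_num))

end Pool.Agent.VAC2.ThreeBraids
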