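import Pool.Agent.VAC2.KnotModel
import Pool.Agent.Results.MP_31fd3b_gt.SeparateThreeTangleSums

/-!
# Certificate: `SeparateThreeTangleSums` is not vacuous and not trivial

Helper file of the vacuity audit, not a hand-in.
-/

set_option autoImplicit false

namespace Pool.Agent.VAC2.SeparateThreeTangleSums

open Pool.Agent.LibH11.Sliced Pool.Agent.VAC2
open Pool.Agent.Results.MP_31fd3b_gt.SeparateThreeTangleSums

/-- three crossings, rotated: slope `1 / 3` or `-1 / 3` -/
def t3 (e : Bool) : Diag := rotate [(.crs e, 0), (.crs e, 0), (.crs e, 0)]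

theorem rat_true : IsRationalTangle (t3 true) (-1, -3) :=
  .rotate (.twist true (.twist true (.twist true .strands)))

theorem rat_false : IsRationalTangle (t3 false) (-1, 3) :=
  .rotate (.twist false (.twist false (.twist false .strands)))

/-- the pretzel knot `P(3, 3, 3)` -/
def p333 : Triple := ⟨t3 true, t3 true, t3 true, -1, -3, -1, -3, -1, -3⟩

/-- the pretzel knot `P(3, 3, -3)` -/
def p33m3 : Triple := ⟨t3 true, t3 true, t3 false, -1, -3, -1, -3, -1, 3⟩

theorem p333_rational : p333.IsRational :=
  ⟨rat_true, rat_true, rat_true, by decide, by decide, by decide⟩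

theorem p33m3_rational : p33m3.IsRational :=
  ⟨rat_true, rat_true, rat_false, by decide, by decide, by decide⟩

theorem slope_ne : ([p333, p33m3].map Triple.slopeSum).Nodup := by
  simp only [List.map_cons, List.map_nil, List.nodup_cons, List.mem_singleton, List.not_mem_nil,
    not_false_eq_true, List.nodup_nil, and_self, and_true]
  unfold Triple.slopeSum p333 p33m3
  norm_num

theorem p333_long : IsLongKnot p333.diagram := ⟨_, _, rfl⟩

theorem p33m3_long : IsLongKnot p33m3.diagram := ⟨_, _, rfl⟩

/-- trefoil `#` `P(3, 3, 3)` `#` `P(3, 3, -3)` satisfies all hypotheses of the theorem. -/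
theorem sum_long : IsLongKnot
    ([tor [true, true, true]].flatten ++ ([p333, p33m3].map Triple.diagram).flatten) :=
  ⟨_, _, rfl⟩

theorem trefoil_twoBridge : IsTwoBridge (tor [true, true, true]) :=
  ⟨isLongKnot_tor _ ⟨1, rfl⟩, le_rfl⟩

theorem p333_arborescent : IsArborescent (ofDiag p333.diagram p333_long) := by
  have h3 : IsArborescentTangle (t3 true) :=
    .rotate (.stack (.crossing true) (.stack (.crossing true) (.crossing true)))
  exact ⟨_, .stack h3 (.stack h3 h3), p333_long, rfl⟩

theorem unknot_arborescent :
    IsArborescent (ofDiag (tor [true]) (isLongKnot_tor _ ⟨0, rfl⟩)) :=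
  ⟨[(.crs true, 0)], .crossing true, isLongKnot_tor [true] ⟨0, rfl⟩, rfl⟩

theorem trefoil_arborescent : IsArborescent trefoil :=
  ⟨_, .stack (.crossing true) (.stack (.crossing true) (.crossing true)),
    isLongKnot_tor [true, true, true] ⟨1, rfl⟩, rfl⟩

theorem col_p333 : col p333.diagram = 9 := by decide +kernel

theorem col_flip_p333 : col (flip p333.diagram) = 9 := by decide +kernel

/-- The conclusion fails for the unknot and `P(3, 3, 3)`; so by the theorem a rational valued finite
type invariant separates them. -/
theorem separates_unknot : ∃ v : Knot → ℚ, IsFiniteType v ∧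
    v (ofDiag (tor [true]) (isLongKnot_tor _ ⟨0, rfl⟩)) ≠ v (ofDiag p333.diagram p333_long) := by
  by_contra hcon
  push Not at hcon
  obtain ⟨ns, hn, h1, h2⟩ := result _ _ unknot_arborescent [] (by simp) [p333]
    (by simpa using p333_rational) (by simp) (by simpa using p333_long) rfl (by
      intro v hv
      refine (hcon v hv).trans (congrArg v ?_)
      congr 1)
  have h3 : ∃ n, ns = [n] := by
    cases h1 with
    | cons _ h => cases h; exact ⟨_, rfl⟩
  obtain ⟨n, rfl⟩ := h3
  have h4 : IsDiagramOrReverse n p333 := by
    cases h1 with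
    | cons h _ => exact h
  have h5 : col (tor [true]) = col ([].flatten ++ [n].flatten) := congrArg colK h2
  rw [col_tor] at h5
  have h6 : ([].flatten ++ [n].flatten : Diag) = n := by simp
  rw [h6] at h5
  have h7 : Pool.Agent.VAC2.hn (net [true]) = 1 := rfl
  rcases h4 with h4 | ⟨-, h4⟩
  · rw [h4, col_p333, h7] at h5
    omega
  · rw [h4, col_flip_p333, h7] at h5
    omega

/-- The same for the trefoil and `P(3, 3, 3)`. -/
theorem separates_trefoil : ∃ v : Knot → ℚ, IsFiniteType v ∧
    v trefoil ≠ v (ofDiag p333.diagram p333_long) := by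
  by_contra hcon
  push Not at hcon
  obtain ⟨ns, hn, h1, h2⟩ := result _ _ trefoil_arborescent [] (by simp) [p333]
    (by simpa using p333_rational) (by simp) (by simpa using p333_long) rfl (by
      intro v hv
      refine (hcon v hv).trans (congrArg v ?_)
      congr 1)
  have h3 : ∃ n, ns = [n] := by
    cases h1 with
    | cons _ h => cases h; exact ⟨_, rfl⟩
  obtain ⟨n, rfl⟩ := h3
  have h4 : IsDiagramOrReverse n p333 := by
    cases h1 with
    | cons h _ => exact h
  have h5 : col (tor [true, true, true]) = col ([].flatten ++ [n].flatten) := congrArg colK h2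
  rw [col_tor] at h5
  have h6 : ([].flatten ++ [n].flatten : Diag) = n := by simp
  rw [h6] at h5
  have h7 : Pool.Agent.VAC2.hn (net [true, true, true]) = 3 := by decide
  rcases h4 with h4 | ⟨-, h4⟩
  · rw [h4, col_p333, h7] at h5
    omega
  · rw [h4, col_flip_p333, h7] at h5
    omega

end Pool.Agent.VAC2.SeparateThreeTangleSums
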