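import Mathlib

/-!
# Certificate for `MP_321647_nt/OneNonInertPrime` (helper26)

`St` is the statement of `Pool.Agent.Results.MP_321647_nt.OneNonInertPrime.result`, with its
definitions copied. The hypotheses hold for every squarefree `d > 1` with a prime factor below
`100000`, in particular for all numbers of the list; the conclusion is a real condition.
-/

set_option autoImplicit false

namespace Pool.Agent.VAC2.OneNonInertPrime

open scoped NumberField

def disc (d : ℕ) : ℕ := if d % 4 = 1 then d else 4 * d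

def IsInert (d p : ℕ) : Prop :=
  Prime ((p : ℕ) : 𝓞 (IntermediateField.adjoin ℚ {Real.sqrt (d : ℝ)}))

def AtMostOneException (d : ℕ) : Prop :=
  ∃ e : ℕ, ∀ p : ℕ, p.Prime → (p : ℝ) < Real.sqrt (disc d) / 2 → p ≠ e → IsInert d p

/-- the list of the statement -/
def L : Finset ℕ := {2, 3, 5, 6, 7, 11, 13, 14, 17, 21, 23, 29, 33, 37, 38, 41, 47, 53, 61, 62, 65,
  69, 77, 83, 85, 89, 93, 101, 113, 133, 137, 149, 157, 167, 173, 197, 213, 227, 237, 257, 269, 293,
  317, 341, 353, 377, 397, 398, 413, 437, 453, 461, 557, 593, 629, 677, 717, 733, 773, 853,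
  941, 1077, 1097, 1133, 1217, 1253, 1333, 1553, 1877, 2273, 2917, 3053, 5297, 7213}

def St : Prop := ∀ (d : ℕ) (_ : 1 < d) (_ : Squarefree d)
    (_ : ∃ q : ℕ, q.Prime ∧ q < 100000 ∧ ¬ IsInert d q),
    (AtMostOneException d ↔
      d ∈ ({2, 3, 5, 6, 7, 11, 13, 14, 17, 21, 23, 29, 33, 37, 38, 41, 47, 53, 61, 62, 65, 69, 77,
        83, 85, 89, 93, 101, 113, 133, 137, 149, 157, 167, 173, 197, 213, 227, 237, 257, 269, 293,
        317, 341, 353, 377, 397, 398, 413, 437, 453, 461, 557, 593, 629, 677, 717, 733, 773, 853,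
        941, 1077, 1097, 1133, 1217, 1253, 1333, 1553, 1877, 2273, 2917, 3053, 5297,
        7213} : Finset ℕ)) ∧
    (AtMostOneException d →
      (UniqueFactorizationMonoid (𝓞 (IntermediateField.adjoin ℚ {Real.sqrt (d : ℝ)})) ↔
        d ∉ ({65, 85, 257, 377, 629, 733, 2917, 5297} : Finset ℕ)))

/-- the element `√d` of the field -/
noncomputable def rt (d : ℕ) : IntermediateField.adjoin ℚ {Real.sqrt (d : ℝ)} :=
  ⟨Real.sqrt d, IntermediateField.mem_adjoin_simple_self ℚ _⟩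

lemma rt_sq (d : ℕ) : rt d ^ 2 = (d : IntermediateField.adjoin ℚ {Real.sqrt (d : ℝ)}) := by
  apply Subtype.ext
  show Real.sqrt d ^ 2 = ((d : IntermediateField.adjoin ℚ {Real.sqrt (d : ℝ)}) : ℝ)
  rw [Real.sq_sqrt (by positivity)]
  push_cast
  rfl

/-- **Primes that divide `d` are not inert.** -/
theorem not_inert {d p : ℕ} (hd : Squarefree d) (hp : p.Prime) (hpd : p ∣ d) : ¬ IsInert d p := by
  intro h
  set K := IntermediateField.adjoin ℚ {Real.sqrt (d : ℝ)} with hK
  have hint : IsIntegral ℤ (rt d) := by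
    refine IsIntegral.of_pow (n := 2) (by norm_num) ?_
    rw [rt_sq]
    exact isIntegral_algebraMap (R := ℤ) (A := K) (x := (d : ℤ)) |> fun h => by simpa using h
  let r : 𝓞 K := ⟨rt d, hint⟩
  have hr : r ^ 2 = (d : 𝓞 K) := by
    apply NumberField.RingOfIntegers.ext
    show rt d ^ 2 = _
    rw [rt_sq]
    simp
  obtain ⟨m, rfl⟩ := hpd
  have h1 : ((p : ℕ) : 𝓞 K) ∣ r := by
    refine h.dvd_of_dvd_pow (n := 2) ?_
    rw [hr]
    exact ⟨(m : 𝓞 K), by push_cast; ring⟩
  obtain ⟨y, hy⟩ := h1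
  -- `y ^ 2` is the rational number `m / p`
  have hp0 : (p : ℚ) ≠ 0 := by exact_mod_cast hp.ne_zero
  have h2 : ((p : ℕ) : 𝓞 K) * (((p : ℕ) : 𝓞 K) * y ^ 2) = ((p : ℕ) : 𝓞 K) * (m : 𝓞 K) := by
    have h3 : r ^ 2 = ((p : ℕ) : 𝓞 K) * (m : 𝓞 K) := by rw [hr]; push_cast; ring
    rw [← h3, hy]
    ring
  have h4 : ((p : ℕ) : 𝓞 K) * y ^ 2 = (m : 𝓞 K) := by
    exact mul_left_cancel₀ (by exact_mod_cast hp.ne_zero) h2
  have h5 : ((y ^ 2 : 𝓞 K) : K) = algebraMap ℚ K ((m : ℚ) / p) := by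
    have h6 : ((p : ℕ) : K) * ((y ^ 2 : 𝓞 K) : K) = (m : K) := by
      have := congrArg (fun z : 𝓞 K => (z : K)) h4
      simpa using this
    have h7 : ((p : ℕ) : K) ≠ 0 := by exact_mod_cast hp.ne_zero
    rw [map_div₀, map_natCast, map_natCast]
    field_simp
    rw [← h6]
    ring
  have h8 : IsIntegral ℤ ((m : ℚ) / p) := by
    have h9 : IsIntegral ℤ ((y ^ 2 : 𝓞 K) : K) := NumberField.RingOfIntegers.isIntegral_coe _
    rw [h5] at h9
    exact (isIntegral_algebraMap_iff (algebraMap ℚ K).injective).1 h9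
  obtain ⟨z, hz⟩ := IsIntegrallyClosed.isIntegral_iff.1 h8
  have h10 : (m : ℤ) = z * p := by
    have : (z : ℚ) = (m : ℚ) / p := by simpa using hz
    have h11 : (m : ℚ) = z * p := by rw [this]; field_simp
    exact_mod_cast h11
  have h12 : p ∣ m := by
    have : (p : ℤ) ∣ (m : ℤ) := ⟨z, by rw [h10]; ring⟩
    exact_mod_cast this
  exact hp.one_lt.ne' (by
    have := hd p (mul_dvd_mul_left p h12)
    exact Nat.isUnit_iff.1 this)

/-- The hypothesis holds for every squarefree `d > 1` with a prime factor below `100000`. -/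
theorem hyp_of_factor {d p : ℕ} (hd : Squarefree d) (hp : p.Prime) (hpd : p ∣ d)
    (h : p < 100000) : ∃ q : ℕ, q.Prime ∧ q < 100000 ∧ ¬ IsInert d q :=
  ⟨p, hp, h, not_inert hd hp hpd⟩

lemma L_check : ∀ d ∈ L, 1 < d ∧ d < 7744 ∧ ∀ x ∈ Finset.range 88, x * x ∣ d → x = 1 := by
  decide +kernel

/-- All numbers of the list satisfy all hypotheses. -/
theorem hyp_list {d : ℕ} (h : d ∈ L) :
    1 < d ∧ Squarefree d ∧ ∃ q : ℕ, q.Prime ∧ q < 100000 ∧ ¬ IsInert d q := by
  obtain ⟨h1, h2, h3⟩ := L_check d h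
  have hs : Squarefree d := by
    intro x hx
    have h4 : x * x ≤ d := Nat.le_of_dvd (by omega) hx
    have h5 : x < 88 := by nlinarith
    exact Nat.isUnit_iff.2 (h3 x (Finset.mem_range.2 h5) hx)
  refine ⟨h1, hs, ?_⟩
  obtain ⟨p, hp, hpd⟩ := Nat.exists_prime_and_dvd (n := d) (by omega)
  have h6 : p ≤ d := Nat.le_of_dvd (by omega) hpd
  exact hyp_of_factor hs hp hpd (by omega)

/-- Hence the statement says that these 74 numbers have the property, -/
theorem listed (h : St) {d : ℕ} (hd : d ∈ L) : AtMostOneException d := by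
  obtain ⟨h1, h2, h3⟩ := hyp_list hd
  exact (h d h1 h2 h3).1.2 hd

lemma card_L : L.card = 74 := by decide +kernel

/-- that the ring of integers of `ℚ(√7213)` is a unique factorisation domain, that of `ℚ(√5297)`
is not, -/
theorem ufd (h : St) :
    UniqueFactorizationMonoid (𝓞 (IntermediateField.adjoin ℚ {Real.sqrt ((7213 : ℕ) : ℝ)})) ∧
    ¬ UniqueFactorizationMonoid (𝓞 (IntermediateField.adjoin ℚ {Real.sqrt ((5297 : ℕ) : ℝ)})) := by
  have a1 : 7213 ∈ L := by decide +kernel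
  have a2 : 5297 ∈ L := by decide +kernel
  obtain ⟨b1, b2, b3⟩ := hyp_list a1
  obtain ⟨c1, c2, c3⟩ := hyp_list a2
  constructor
  · exact ((h _ b1 b2 b3).2 (listed h a1)).2 (by decide +kernel)
  · intro hu
    exact ((h _ c1 c2 c3).2 (listed h a2)).1 hu (by decide +kernel)

/-- and that each other squarefree number with a prime factor below `100000` has two different
primes below `√D / 2` that are not inert. -/
theorem two (h : St) {d p : ℕ} (h1 : 1 < d) (hd : Squarefree d) (hL : d ∉ L) (hp : p.Prime)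
    (hpd : p ∣ d) (hp1 : p < 100000) : ∃ p₁ p₂ : ℕ, p₁ ≠ p₂ ∧
      (p₁.Prime ∧ (p₁ : ℝ) < Real.sqrt (disc d) / 2 ∧ ¬ IsInert d p₁) ∧
      (p₂.Prime ∧ (p₂ : ℝ) < Real.sqrt (disc d) / 2 ∧ ¬ IsInert d p₂) := by
  have h2 : ¬ AtMostOneException d := fun h3 =>
    hL ((h d h1 hd (hyp_of_factor hd hp hpd hp1)).1.1 h3)
  unfold AtMostOneException at h2
  push Not at h2
  obtain ⟨p₁, a1, a2, -, a3⟩ := h2 0
  obtain ⟨p₂, b1, b2, b3, b4⟩ := h2 p₁
  exact ⟨p₁, p₂, b3.symm, ⟨a1, a2, a3⟩, b1, b2, b4⟩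

/-- For `d = 10` all hypotheses hold and the conclusion fails: without the statement, `2` and `5`
are not inert; the statement gives a second prime below `√40 / 2`, which is `3`. -/
theorem ten (h : St) : ¬ IsInert 10 2 ∧ ¬ IsInert 10 3 := by
  have hs : Squarefree 10 := by
    intro x hx
    have h4 : x * x ≤ 10 := Nat.le_of_dvd (by omega) hx
    have h5 : x < 4 := by nlinarith
    have h6 : ∀ x < 4, x * x ∣ 10 → x = 1 := by decide
    exact Nat.isUnit_iff.2 (h6 x h5 hx)
  have h2 : ¬ IsInert 10 2 := not_inert hs Nat.prime_two (by norm_num)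
  refine ⟨h2, ?_⟩
  obtain ⟨p₁, p₂, hne, ⟨a1, a2, a3⟩, b1, b2, b3⟩ := two h (d := 10) (p := 2) (by norm_num) hs
    (by decide +kernel) Nat.prime_two (by norm_num) (by norm_num)
  have key : ∀ p : ℕ, p.Prime → (p : ℝ) < Real.sqrt (disc 10) / 2 → p = 2 ∨ p = 3 := by
    intro p hp hlt
    have h7 : Real.sqrt (disc 10) < 8 := by
      rw [show disc 10 = 40 by rfl]
      rw [Real.sqrt_lt' (by norm_num)]
      norm_num
    have h8 : (p : ℝ) < 4 := by linarith
    have h9 : p < 4 := by exact_mod_cast h8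
    have := hp.two_le
    omega
  rcases key p₁ a1 a2 with rfl | rfl
  · rcases key p₂ b1 b2 with rfl | rfl
    · exact absurd rfl hne
    · exact b3
  · exact a3

end Pool.Agent.VAC2.OneNonInertPrime
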