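import Mathlib

/-!
# MP_321647_nt, RichaudDegert: the statement is not degenerate

`RD d` is the condition on `d` in the hand-in (without unique factorisation) and `Main` is the
statement of the hand-in.
-/

set_option autoImplicit false

namespace Pool.Agent.VAC2.RichaudDegert

open scoped NumberField

/-- squarefree numbers of extended Richaud–Degert type -/
def RD (d : ℕ) : Prop :=
  1 < d ∧ Squarefree d ∧ ∃ m r : ℤ, 0 < m ∧ r ∣ 4 * m ∧ (d : ℤ) = m ^ 2 + r

/-- the statement of the hand-in -/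
def Main : Prop := {d : ℕ | 1 < d ∧ Squarefree d ∧
      (∃ m r : ℤ, 0 < m ∧ r ∣ 4 * m ∧ (d : ℤ) = m ^ 2 + r) ∧
      UniqueFactorizationMonoid (𝓞 (IntermediateField.adjoin ℚ {Real.sqrt (d : ℝ)}))} =
    {2, 3, 5, 6, 7, 11, 13, 14, 17, 21, 23, 29, 33, 37, 38, 47, 53, 62, 69, 77, 83, 93, 101, 141,
      167, 173, 197, 213, 227, 237, 293, 398, 413, 437, 453, 573, 677, 717, 1077, 1133, 1253,
      1293, 1757}

/-- `r = 0` is excluded, so `d = m ^ 2` is never of this type -/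
theorem r_ne_zero {m r : ℤ} (hm : 0 < m) (h : r ∣ 4 * m) : r ≠ 0 := by
  rintro rfl
  rw [zero_dvd_iff] at h
  omega

/-- `10 = 3 ^ 2 + 1`, `15 = 4 ^ 2 - 1`, `26 = 5 ^ 2 + 1`, `30 = 5 ^ 2 + 5`, `82 = 9 ^ 2 + 1` and
`229 = 15 ^ 2 + 4` are of this type and not in the list: the statement excludes them. -/
theorem rd_examples : RD 10 ∧ RD 15 ∧ RD 26 ∧ RD 30 ∧ RD 82 ∧ RD 229 := by
  refine ⟨⟨by norm_num, ?_, 3, 1, by norm_num, by norm_num, by norm_num⟩,
    ⟨by norm_num, ?_, 4, -1, by norm_num, by norm_num, by norm_num⟩,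
    ⟨by norm_num, ?_, 5, 1, by norm_num, by norm_num, by norm_num⟩,
    ⟨by norm_num, ?_, 5, 5, by norm_num, by norm_num, by norm_num⟩,
    ⟨by norm_num, ?_, 9, 1, by norm_num, by norm_num, by norm_num⟩,
    ⟨by norm_num, ?_, 15, 4, by norm_num, by norm_num, by norm_num⟩⟩ <;>
  · intro x hx
    have h1 := Nat.le_of_dvd (by norm_num) hx
    have h2 : x ≤ 15 := by nlinarith
    interval_cases x <;> first | exact isUnit_one | (exfalso; omega)

/-- the statement has content for the excluded numbers: for example `ℚ(√10)` -/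
theorem not_ufd_ten (h : Main) :
    ¬ UniqueFactorizationMonoid (𝓞 (IntermediateField.adjoin ℚ {Real.sqrt ((10 : ℕ) : ℝ)})) := by
  intro hu
  have h1 : (10 : ℕ) ∈ {d : ℕ | 1 < d ∧ Squarefree d ∧
      (∃ m r : ℤ, 0 < m ∧ r ∣ 4 * m ∧ (d : ℤ) = m ^ 2 + r) ∧
      UniqueFactorizationMonoid (𝓞 (IntermediateField.adjoin ℚ {Real.sqrt (d : ℝ)}))} :=
    ⟨rd_examples.1.1, rd_examples.1.2.1, rd_examples.1.2.2, hu⟩
  rw [h] at h1
  norm_num at h1

/-- and for the numbers of the list: for example `ℚ(√1757)` -/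
theorem ufd_1757 (h : Main) :
    UniqueFactorizationMonoid (𝓞 (IntermediateField.adjoin ℚ {Real.sqrt ((1757 : ℕ) : ℝ)})) := by
  have h1 : (1757 : ℕ) ∈ {d : ℕ | 1 < d ∧ Squarefree d ∧
      (∃ m r : ℤ, 0 < m ∧ r ∣ 4 * m ∧ (d : ℤ) = m ^ 2 + r) ∧
      UniqueFactorizationMonoid (𝓞 (IntermediateField.adjoin ℚ {Real.sqrt (d : ℝ)}))} := by
    rw [h]
    norm_num
  exact h1.2.2.2

/-- `19` is not of this type: the condition is a real restriction -/
theorem not_rd_nineteen : ¬ RD 19 := by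
  rintro ⟨-, -, m, r, hm, hr, h⟩
  push_cast at h
  have h0 := r_ne_zero hm hr
  have h1 : |r| ≤ 4 * m := Int.le_of_dvd (by omega) ((abs_dvd _ _).2 hr)
  have h2 : r = 19 - m ^ 2 := by omega
  have h3 : -(4 * m) ≤ r := (abs_le.1 h1).1
  have h4 : m ≤ 7 := by nlinarith
  interval_cases m <;> norm_num at h2 <;> subst h2 <;> first | omega | (revert hr; decide)

end Pool.Agent.VAC2.RichaudDegert
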