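import Mathlib

/-!
# MP_321647_nt, SmallUnits: the statement is not vacuous

`SmallUnits` says that the set `{d | Cand d ∧ UFD d}` is an explicit set of 167 numbers. Here: the set
`{d | Cand d}` of the squarefree `d > 1` for which `x² - d y² = ± 4` has a solution with `0 < y ≤ 10000` is
infinite (it contains `d = (n - 2) (n + 2)` whenever `n` is odd and both factors are squarefree), so
the theorem excludes infinitely many `d`, and it contains numbers as small as `10`, `15`, `26`, for which
the theorem says that the ring of integers is not a unique factorisation domain (class number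
two), as well as `2`, `3`, `5`, `21`, for which it says that it is.
-/

set_option autoImplicit false

namespace Pool.Agent.VAC2.SmallUnits

/-- The first three conditions of `SmallUnits`. -/
def Cand (d : ℕ) : Prop := 1 < d ∧ Squarefree d ∧
  ∃ x y : ℤ, 0 < y ∧ y ≤ 10000 ∧ (x ^ 2 - d * y ^ 2 = 4 ∨ x ^ 2 - d * y ^ 2 = -4)

theorem sqf_mul {p q : ℕ} (hp : p.Prime) (hq : q.Prime) (h : p ≠ q) : Squarefree (p * q) :=
  (Nat.squarefree_mul_iff).2 ⟨(Nat.coprime_primes hp hq).2 h, hp.squarefree, hq.squarefree⟩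

theorem cand_two : Cand 2 := ⟨by norm_num, Nat.prime_two.squarefree, 2, 2, by norm_num⟩

theorem cand_ten : Cand 10 :=
  ⟨by norm_num, sqf_mul (p := 2) (q := 5) (by norm_num) (by norm_num) (by norm_num), 6, 2, by norm_num⟩

theorem cand_fifteen : Cand 15 :=
  ⟨by norm_num, sqf_mul (p := 3) (q := 5) (by norm_num) (by norm_num) (by norm_num), 8, 2, by norm_num⟩

/-- The product of two squarefree odd numbers at distance `4`. -/
theorem cand_mul (m : ℕ) (hm : Odd m) (h1 : Squarefree m) (h2 : Squarefree (m + 4)) :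
    Cand (m * (m + 4)) := by
  have hpos : 0 < m := hm.pos
  refine ⟨by nlinarith, ?_, (m : ℤ) + 2, 1, by norm_num, by norm_num, Or.inl (by push_cast; ring)⟩
  rw [Nat.squarefree_mul_iff]
  refine ⟨?_, h1, h2⟩
  rw [Nat.coprime_self_add_right]
  exact (Nat.coprime_pow_right_iff (n := 2) (by norm_num) m 2).2 hm.coprime_two_right

/-- The odd numbers below `N` which are not squarefree. -/
def bad (N : ℕ) : Finset ℕ := (Finset.range N).filter fun m => Odd m ∧ ¬ Squarefree m

theorem card_odd_mul_le (N k : ℕ) (hk : Odd k) :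
    ((Finset.range N).filter fun m => Odd m ∧ k ∣ m).card ≤ N / (2 * k) + 1 := by
  have hk0 : 0 < k := hk.pos
  refine (Finset.card_le_card_of_injOn (fun m => m / (2 * k)) (t := Finset.range (N / (2 * k) + 1))
    ?_ ?_).trans (by simp)
  · intro m hm
    simp only [Finset.coe_filter, Finset.mem_range, Set.mem_ofPred_eq] at hm
    simp only [Finset.coe_range, Set.mem_Iio]
    exact Nat.lt_succ_of_le (Nat.div_le_div_right hm.1.le)
  · intro m hm m' hm' h
    simp only [Finset.coe_filter, Finset.mem_range, Set.mem_ofPred_eq] at hm hm'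
    obtain ⟨-, ho, a, rfl⟩ := hm
    obtain ⟨-, ho', b, rfl⟩ := hm'
    have ha := (Nat.odd_mul.1 ho).2
    have hb := (Nat.odd_mul.1 ho').2
    obtain ⟨a', rfl⟩ := ha
    obtain ⟨b', rfl⟩ := hb
    have e : ∀ t : ℕ, k * (2 * t + 1) / (2 * k) = t := by
      intro t
      rw [show k * (2 * t + 1) = k + 2 * k * t by ring, Nat.add_mul_div_left _ _ (by omega),
        Nat.div_eq_of_lt (by omega), zero_add]
    simp only [e] at h
    rw [h]

theorem sum_inv (K : ℕ) : ∑ j ∈ Finset.range K, (1 : ℝ) / (2 * ((2 * (j : ℝ) + 3) ^ 2)) ≤ 1 / 8 := by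
  have h : ∀ K : ℕ, ∑ j ∈ Finset.range K, (1 : ℝ) / (2 * ((2 * (j : ℝ) + 3) ^ 2)) ≤
      1 / 8 - 1 / (8 * ((K : ℝ) + 1)) := by
    intro K
    induction K with
    | zero => simp
    | succ K ih =>
      rw [Finset.sum_range_succ]
      have h1 : (1 : ℝ) / (2 * ((2 * (K : ℝ) + 3) ^ 2)) ≤ 1 / (8 * (K + 1)) - 1 / (8 * (K + 2)) := by
        rw [div_sub_div _ _ (by positivity) (by positivity), div_le_div_iff₀ (by positivity)
          (by positivity)]
        nlinarith [sq_nonneg (K : ℝ), (Nat.cast_nonneg K : (0 : ℝ) ≤ K)]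
      push_cast
      rw [show (K : ℝ) + 1 + 1 = K + 2 by ring]
      linarith
  refine (h K).trans ?_
  have : (0 : ℝ) ≤ 1 / (8 * ((K : ℝ) + 1)) := by positivity
  linarith

theorem card_bad (K : ℕ) : ((bad (K ^ 2)).card : ℝ) ≤ K ^ 2 / 8 + K := by
  have hsub : bad (K ^ 2) ⊆ (Finset.range K).biUnion fun j =>
      (Finset.range (K ^ 2)).filter fun m => Odd m ∧ (2 * j + 3) ^ 2 ∣ m := by
    intro m hm
    simp only [bad, Finset.mem_filter, Finset.mem_range] at hm
    obtain ⟨h1, h2, h3⟩ := hm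
    rw [Nat.squarefree_iff_prime_squarefree] at h3
    push Not at h3
    obtain ⟨p, hp, hpm⟩ := h3
    have hpo : Odd p := by
      refine hp.odd_of_ne_two ?_
      rintro rfl
      exact (Nat.not_even_iff_odd.2 h2) ((Nat.even_iff.2 rfl : Even 2).mul_right 2 |>.trans_dvd hpm)
    have hp3 : 3 ≤ p := by
      have := hp.two_le
      rcases hpo with ⟨t, rfl⟩
      omega
    obtain ⟨t, rfl⟩ := hpo
    simp only [Finset.mem_biUnion, Finset.mem_filter, Finset.mem_range]
    refine ⟨t - 1, ?_, h1, h2, ?_⟩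
    · have h4 := Nat.le_of_dvd h2.pos hpm
      by_contra hc
      have : K ≤ 2 * t + 1 := by omega
      nlinarith
    · have : 2 * (t - 1) + 3 = 2 * t + 1 := by omega
      rw [this, sq]
      exact hpm
  have h1 := (Finset.card_le_card hsub).trans Finset.card_biUnion_le
  have h2 : ((bad (K ^ 2)).card : ℝ) ≤
      ∑ j ∈ Finset.range K, ((K : ℝ) ^ 2 * (1 / (2 * ((2 * (j : ℝ) + 3) ^ 2))) + 1) := by
    refine (Nat.cast_le.2 h1).trans ?_
    rw [Nat.cast_sum]
    refine Finset.sum_le_sum fun j _ => ?_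
    refine (Nat.cast_le.2 (card_odd_mul_le (K ^ 2) ((2 * j + 3) ^ 2)
      (Odd.pow ⟨j + 1, by ring⟩))).trans ?_
    push_cast
    refine add_le_add ?_ le_rfl
    refine Nat.cast_div_le.trans ?_
    push_cast
    rw [mul_one_div]
  rw [Finset.sum_add_distrib, ← Finset.mul_sum] at h2
  have h3 := mul_le_mul_of_nonneg_left (sum_inv K) (by positivity : (0 : ℝ) ≤ (K : ℝ) ^ 2)
  simp only [Finset.sum_const, Finset.card_range, nsmul_eq_mul, mul_one] at h2
  linarith

/-- The theorem `SmallUnits` excludes infinitely many numbers `d`. -/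
theorem infinite_cand : {d : ℕ | Cand d}.Infinite := by
  intro hfin
  obtain ⟨B, hB⟩ := hfin.bddAbove
  have hB' : ∀ m : ℕ, Odd m → B < m → ¬ Squarefree m ∨ ¬ Squarefree (m + 4) := by
    intro m hm hBm
    by_contra hc
    push Not at hc
    have h1 := hB (cand_mul m hm hc.1 hc.2)
    have h2 : m ≤ m * (m + 4) := Nat.le_mul_of_pos_right m (by omega)
    omega
  have hsub : ∀ N : ℕ, (Finset.range N).filter Odd ⊆
      Finset.range (B + 1) ∪ Finset.Ico (N - 4) N ∪ bad N ∪ (bad N).image fun m => m - 4 := by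
    intro N m hm
    simp only [Finset.mem_filter, Finset.mem_range] at hm
    simp only [Finset.mem_union, Finset.mem_range, Finset.mem_Ico, bad, Finset.mem_filter,
      Finset.mem_image]
    by_cases h1 : m < B + 1
    · exact Or.inl (Or.inl (Or.inl h1))
    by_cases h2 : N - 4 ≤ m
    · exact Or.inl (Or.inl (Or.inr ⟨h2, hm.1⟩))
    rcases hB' m hm.2 (by omega) with h3 | h3
    · exact Or.inl (Or.inr ⟨hm.1, hm.2, h3⟩)
    · refine Or.inr ⟨m + 4, ⟨by omega, ?_, h3⟩, by omega⟩
      exact hm.2.add_even ⟨2, rfl⟩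
  set t := B + 10 with ht
  have h1 : 2 * t ^ 2 ≤ ((Finset.range ((2 * t) ^ 2)).filter Odd).card := by
    have h2 : ((Finset.range (2 * t ^ 2)).image fun j => 2 * j + 1) ⊆
        (Finset.range ((2 * t) ^ 2)).filter Odd := by
      intro m hm
      simp only [Finset.mem_image, Finset.mem_range] at hm
      obtain ⟨j, hj, rfl⟩ := hm
      simp only [Finset.mem_filter, Finset.mem_range]
      exact ⟨by nlinarith, ⟨j, rfl⟩⟩
    have h3 := Finset.card_le_card h2
    rwa [Finset.card_image_of_injective _ (fun a b h => by simpa using h), Finset.card_range] at h3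
  have h2 := (Finset.card_le_card (hsub ((2 * t) ^ 2)))
  have h3 : (Finset.range (B + 1) ∪ Finset.Ico ((2 * t) ^ 2 - 4) ((2 * t) ^ 2) ∪ bad ((2 * t) ^ 2) ∪
      (bad ((2 * t) ^ 2)).image fun m => m - 4).card ≤
        (B + 1) + 4 + (bad ((2 * t) ^ 2)).card + (bad ((2 * t) ^ 2)).card := by
    refine (Finset.card_union_le _ _).trans (add_le_add ?_ Finset.card_image_le)
    refine (Finset.card_union_le _ _).trans (add_le_add ?_ le_rfl)
    refine (Finset.card_union_le _ _).trans (add_le_add (by simp) ?_)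
    rw [Nat.card_Ico]
    omega
  have h4 := card_bad (2 * t)
  have h5 : (2 * (t : ℝ) ^ 2) ≤ (B + 1) + 4 + (bad ((2 * t) ^ 2)).card + (bad ((2 * t) ^ 2)).card := by
    exact_mod_cast h1.trans (h2.trans h3)
  push_cast at h4
  have h6 : (t : ℝ) = B + 10 := by rw [ht]; push_cast; ring
  rw [h6] at h4 h5
  nlinarith [(Nat.cast_nonneg B : (0 : ℝ) ≤ B)]

end Pool.Agent.VAC2.SmallUnits
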