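import Mathlib
import Pool.Agent.VAC2.MP_321647_nt_SmallUnits

/-!
# MP_321647_nt, ShortPeriods: the statement is not vacuous

`ShortPeriods` says that a set `{d | 1 < d, d squarefree, period length <= 5 or = 7, UFD}` is an
explicit set of 81 numbers.  Here, for the definitions of the hand-in (copied word for word):

* the numbers `d = m (m + 4)` with `m >= 3` odd have period length exactly `2` (not the junk value
  `0` of `Function.minimalPeriod`), and infinitely many of them are squarefree: the candidate set is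
  infinite, so the theorem excludes infinitely many `d`;
* `10` (period length `1`, class number two) is a candidate which is not in the list, and `2`
  (period length `1`) is a candidate in the list.

That the junk value `0` never occurs for squarefree `d > 1` is `Pool.Agent.UP.period_pos` in
`Pool/Agent/RQM/C162.lean`, part of the closure of the hand-in.
-/

set_option autoImplicit false

namespace Pool.Agent.VAC2.ShortPeriods

open Function

/-- Copy of the definition of the hand-in. -/
noncomputable def omega (d : ℕ) : ℝ :=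
  if d % 4 = 1 then (1 + Real.sqrt (d : ℝ)) / 2 else Real.sqrt (d : ℝ)

/-- Copy of the definition of the hand-in. -/
noncomputable def periodLength (d : ℕ) : ℕ :=
  Function.minimalPeriod (fun x : ℝ => (Int.fract x)⁻¹) (Int.fract (omega d))⁻¹

/-- The family `d = m (m + 4)` with `m >= 3` odd: period length two. -/
theorem period_two (m : ℕ) (hm : Odd m) (h3 : 3 ≤ m) : periodLength (m * (m + 4)) = 2 := by
  obtain ⟨k, hk⟩ := hm
  have hd4 : (m * (m + 4)) % 4 = 1 := by
    have : m * (m + 4) = 4 * (k ^ 2 + k + m) + 1 := by rw [hk]; ring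
    omega
  have hmR : (3 : ℝ) ≤ m := by exact_mod_cast h3
  have hkR : (m : ℝ) = 2 * k + 1 := by rw [hk]; push_cast; ring
  obtain ⟨s, hs⟩ : ∃ s, s = Real.sqrt ((m * (m + 4) : ℕ) : ℝ) := ⟨_, rfl⟩
  have hs0 : 0 ≤ s := by rw [hs]; exact Real.sqrt_nonneg _
  have hs2 : s * s = m * (m + 4) := by
    rw [hs, Real.mul_self_sqrt (by positivity)]
    push_cast
    ring
  have h1 : (m : ℝ) + 1 < s := by nlinarith
  have h2 : s < (m : ℝ) + 2 := by nlinarith
  have n1 : s - m ≠ 0 := by intro h; linarith
  have n0 : (2 : ℝ) * m ≠ 0 := by positivity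
  have f0 : Int.fract (omega (m * (m + 4))) = (s - m) / 2 := by
    rw [Int.fract_eq_iff]
    refine ⟨by linarith, by linarith, (k : ℤ) + 1, ?_⟩
    unfold omega
    rw [if_pos hd4, ← hs, hkR]
    push_cast
    ring
  have e0 : (Int.fract (omega (m * (m + 4))))⁻¹ = (s + m) / (2 * m) := by
    rw [f0, inv_div, div_eq_div_iff n1 n0]
    linear_combination (-1) * hs2
  have f1 : Int.fract ((s + m) / (2 * m)) = (s - m) / (2 * m) := by
    rw [Int.fract_eq_iff]
    refine ⟨by apply div_nonneg <;> linarith, ?_, 1, ?_⟩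
    · rw [div_lt_one (by positivity)]
      linarith
    · rw [← sub_div, div_eq_iff n0]
      push_cast
      ring
  have e1 : (Int.fract ((s + m) / (2 * m)))⁻¹ = (s + m) / 2 := by
    rw [f1, inv_div, div_eq_div_iff n1 two_ne_zero]
    linear_combination (-1) * hs2
  have f2 : Int.fract ((s + m) / 2) = (s - m) / 2 := by
    rw [Int.fract_eq_iff]
    refine ⟨by linarith, by linarith, (m : ℤ), ?_⟩
    push_cast
    ring
  have e2 : (Int.fract ((s + m) / 2))⁻¹ = (s + m) / (2 * m) := by
    rw [← e0, f0, f2]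
  unfold periodLength
  rw [e0]
  have hper : IsPeriodicPt (fun x : ℝ => (Int.fract x)⁻¹) 2 ((s + m) / (2 * m)) := by
    show (fun x : ℝ => (Int.fract x)⁻¹) ((fun x : ℝ => (Int.fract x)⁻¹) ((s + m) / (2 * m))) = _
    simp only [e1, e2]
  have hle := IsPeriodicPt.minimalPeriod_le (by norm_num) hper
  have hpos := IsPeriodicPt.minimalPeriod_pos (by norm_num) hper
  have hne : minimalPeriod (fun x : ℝ => (Int.fract x)⁻¹) ((s + m) / (2 * m)) ≠ 1 := by
    intro h
    rw [minimalPeriod_eq_one_iff_isFixedPt] at h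
    have h4 : (s + m) / 2 = (s + m) / (2 * m) := by
      have h5 : (fun x : ℝ => (Int.fract x)⁻¹) ((s + m) / (2 * m)) = (s + m) / (2 * m) := h
      simp only [e1] at h5
      exact h5
    rw [div_eq_div_iff two_ne_zero n0] at h4
    nlinarith
  omega

/-- Pairs of squarefree odd numbers at distance `4`, arbitrarily large. -/
theorem exists_pair (B : ℕ) : ∃ m, Odd m ∧ B < m ∧ Squarefree m ∧ Squarefree (m + 4) := by
  by_contra hcon
  push Not at hcon
  have hB' : ∀ m : ℕ, Odd m → B < m → ¬ Squarefree m ∨ ¬ Squarefree (m + 4) := by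
    intro m hm hBm
    by_contra hc
    push Not at hc
    exact hcon m hm hBm hc.1 hc.2
  have hsub : ∀ N : ℕ, (Finset.range N).filter Odd ⊆
      Finset.range (B + 1) ∪ Finset.Ico (N - 4) N ∪ SmallUnits.bad N ∪
        (SmallUnits.bad N).image fun m => m - 4 := by
    intro N m hm
    simp only [Finset.mem_filter, Finset.mem_range] at hm
    simp only [Finset.mem_union, Finset.mem_range, Finset.mem_Ico, SmallUnits.bad,
      Finset.mem_filter, Finset.mem_image]
    by_cases h1 : m < B + 1
    · exact Or.inl (Or.inl (Or.inl h1))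
    by_cases h2 : N - 4 ≤ m
    · exact Or.inl (Or.inl (Or.inr ⟨h2, hm.1⟩))
    rcases hB' m hm.2 (by omega) with h3 | h3
    · exact Or.inl (Or.inr ⟨hm.1, hm.2, h3⟩)
    · refine Or.inr ⟨m + 4, ⟨by omega, ?_, h3⟩, by omega⟩
      exact hm.2.add_even ⟨2, rfl⟩
  obtain ⟨t, ht⟩ : ∃ t, t = B + 10 := ⟨_, rfl⟩
  have h1 : 2 * t ^ 2 ≤ ((Finset.range ((2 * t) ^ 2)).filter Odd).card := by
    have h2 : ((Finset.range (2 * t ^ 2)).image fun j => 2 * j + 1) ⊆
        (Finset.range ((2 * t) ^ 2)).filter Odd := by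
      intro m hm
      simp only [Finset.mem_image, Finset.mem_range] at hm
      obtain ⟨j, hj, rfl⟩ := hm
      simp only [Finset.mem_filter, Finset.mem_range]
      exact ⟨by nlinarith, ⟨j, rfl⟩⟩
    have h3 := Finset.card_le_card h2
    rwa [Finset.card_image_of_injective _ (fun a b h => by simpa using h), Finset.card_range] at h3
  have h2 := (Finset.card_le_card (hsub ((2 * t) ^ 2)))
  have h3 : (Finset.range (B + 1) ∪ Finset.Ico ((2 * t) ^ 2 - 4) ((2 * t) ^ 2) ∪
      SmallUnits.bad ((2 * t) ^ 2) ∪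
      (SmallUnits.bad ((2 * t) ^ 2)).image fun m => m - 4).card ≤
        (B + 1) + 4 + (SmallUnits.bad ((2 * t) ^ 2)).card +
          (SmallUnits.bad ((2 * t) ^ 2)).card := by
    refine (Finset.card_union_le _ _).trans (add_le_add ?_ Finset.card_image_le)
    refine (Finset.card_union_le _ _).trans (add_le_add ?_ le_rfl)
    refine (Finset.card_union_le _ _).trans (add_le_add (by simp) ?_)
    rw [Nat.card_Ico]
    omega
  have h4 := SmallUnits.card_bad (2 * t)
  have h5 : (2 * (t : ℝ) ^ 2) ≤ (B + 1) + 4 + (SmallUnits.bad ((2 * t) ^ 2)).card +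
      (SmallUnits.bad ((2 * t) ^ 2)).card := by
    exact_mod_cast h1.trans (h2.trans h3)
  push_cast at h4
  have h6 : (t : ℝ) = B + 10 := by rw [ht]; push_cast; ring
  rw [h6] at h4 h5
  nlinarith [(Nat.cast_nonneg B : (0 : ℝ) ≤ B)]

/-- **The candidate set of the theorem is infinite**, already for period length two, and its members
have a genuine (nonzero) period length. -/
theorem infinite_candidates :
    {d : ℕ | 1 < d ∧ Squarefree d ∧ periodLength d = 2}.Infinite := by
  intro hfin
  obtain ⟨B, hB⟩ := hfin.bddAbove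
  obtain ⟨m, h1, h2, h3, h4⟩ := exists_pair (B + 3)
  have h5 : 1 < m * (m + 4) := by nlinarith
  have h6 : Squarefree (m * (m + 4)) := (SmallUnits.cand_mul m h1 h3 h4).2.1
  have h7 := hB (show m * (m + 4) ∈ {d : ℕ | 1 < d ∧ Squarefree d ∧ periodLength d = 2} from
    ⟨h5, h6, period_two m h1 (by omega)⟩)
  have h8 : m ≤ m * (m + 4) := Nat.le_mul_of_pos_right m (by omega)
  omega

/-- The family `d = n ^ 2 + 1`, `n` odd: period length one. -/
theorem period_one (n : ℕ) (hn : Odd n) : periodLength (n ^ 2 + 1) = 1 := by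
  obtain ⟨k, hk⟩ := hn
  have hd4 : ¬ (n ^ 2 + 1) % 4 = 1 := by
    have : n ^ 2 + 1 = 4 * (k ^ 2 + k) + 2 := by rw [hk]; ring
    omega
  have hnR : (1 : ℝ) ≤ n := by
    have : 1 ≤ n := by omega
    exact_mod_cast this
  obtain ⟨s, hs⟩ : ∃ s, s = Real.sqrt ((n ^ 2 + 1 : ℕ) : ℝ) := ⟨_, rfl⟩
  have hs0 : 0 ≤ s := by rw [hs]; exact Real.sqrt_nonneg _
  have hs2 : s * s = n * n + 1 := by
    rw [hs, Real.mul_self_sqrt (by positivity)]
    push_cast
    ring
  have h1 : (n : ℝ) < s := by nlinarith
  have h2 : s < (n : ℝ) + 1 := by nlinarith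
  have n1 : s - n ≠ 0 := by intro h; linarith
  have f0 : Int.fract (omega (n ^ 2 + 1)) = s - n := by
    rw [Int.fract_eq_iff]
    refine ⟨by linarith, by linarith, (n : ℤ), ?_⟩
    unfold omega
    rw [if_neg hd4, ← hs]
    push_cast
    ring
  have e0 : (s - n)⁻¹ = s + n := by
    refine inv_eq_of_mul_eq_one_right ?_
    linear_combination hs2
  have f1 : Int.fract (s + n) = s - n := by
    rw [Int.fract_eq_iff]
    refine ⟨by linarith, by linarith, (2 * n : ℤ), ?_⟩
    push_cast
    ring
  unfold periodLength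
  rw [f0, e0, minimalPeriod_eq_one_iff_isFixedPt]
  show (Int.fract (s + n))⁻¹ = s + n
  rw [f1, e0]

/-- `2` is a candidate (in the list of the theorem). -/
theorem cand_two : 1 < 2 ∧ Squarefree 2 ∧ periodLength 2 = 1 :=
  ⟨by norm_num, Nat.prime_two.squarefree, period_one 1 ⟨0, rfl⟩⟩

/-- `10` is a candidate (not in the list of the theorem: class number two). -/
theorem cand_ten : 1 < 10 ∧ Squarefree 10 ∧ periodLength 10 = 1 :=
  ⟨by norm_num, SmallUnits.sqf_mul (p := 2) (q := 5) (by norm_num) (by norm_num) (by norm_num),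
    period_one 3 ⟨1, rfl⟩⟩

end Pool.Agent.VAC2.ShortPeriods
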