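import Pool.Agent.Results.MP_3af9db_ag.CubicGrowth

/-!
# Certificate for MP_3af9db_ag/CubicGrowth: the hypotheses hold together, the conclusion is real

The axioms of `Homology` and `Full` are satisfied by the theory with `H = 0` (besides the l-adic
etale homology, for which they are published theorems), so `result` is not vacuous. For this theory
the second equivalence is a statement on Chow groups alone: it says that for some `K`, `N` there is
for every `n ≥ N` a hypersurface `V` of level `n` with `K a(V) > 2 ^ n` (`growth`); in particular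
there are hypersurfaces of every large level.
-/

set_option autoImplicit false

open CategoryTheory AlgebraicGeometry Limits

namespace Pool.Agent.VAC2.CubicGrowth

open Pool.Agent.Lib_helper55.Beil CUB CGR Cardinal

/-- the theory with `H = 0` -/
noncomputable def zeroTheory (k : Type) [Field k] (E : Type) [Field E] (i : ℕ) :
    Homology.{0} k E i where
  H := fun _ _ => PUnit
  frob := fun _ _ => 0
  push := fun _ _ _ _ => 0
  res := fun _ _ _ _ => 0
  equivariant := ⟨fun _ _ _ _ _ => rfl, fun _ _ _ _ _ => rfl⟩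
  localisation := fun n Z U X a j _ => ⟨fun y => ⟨fun _ => ⟨0, rfl⟩, fun _ => rfl⟩,
    0, fun y => ⟨fun _ => ⟨0, rfl⟩, fun _ => rfl⟩⟩
  vanishing := ⟨fun _ _ _ => inferInstanceAs (Subsingleton PUnit),
    fun _ _ _ _ _ _ => inferInstanceAs (Subsingleton PUnit)⟩
  artin := fun _ _ _ _ _ _ => inferInstanceAs (Subsingleton PUnit)
  cl := fun _ _ => PUnit.unit
  functorial := ⟨fun _ _ _ _ _ => rfl, fun _ _ _ _ _ => rfl⟩
  invariant := ⟨fun _ _ => rfl, fun _ _ _ => rfl⟩
  fundamental := fun _ _ _ x _ => by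
    have : x = 0 := rfl
    rw [this]
    exact Submodule.zero_mem _

/-- all axioms hold together -/
noncomputable def zeroFull (k : Type) [Field k] (E : Type) [Field E] :
    Full (fun i => zeroTheory k E i) where
  bd := fun _ _ _ _ _ _ _ _ => 0
  line := fun _ _ _ _ _ => 0
  pushFunctorial := ⟨fun _ _ _ _ _ _ => rfl, fun _ _ _ _ _ _ _ _ _ _ => rfl⟩
  isClopen := fun _ _ _ _ _ _ _ _ => rfl
  bdExact := fun _ _ _ _ _ _ _ _ _ => ⟨fun _ => ⟨0, rfl⟩, fun _ => rfl⟩
  bdNatural := fun _ _ _ _ _ _ _ _ _ _ _ _ _ _ _ _ _ _ _ _ => rfl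
  lineBij := fun _ _ _ _ _ => ⟨fun _ _ _ => rfl, fun _ => ⟨0, rfl⟩⟩
  lineFrob := fun _ _ _ _ _ _ => rfl
  lineNatural := fun _ _ _ _ _ _ _ _ _ _ _ _ => rfl
  lineClass := fun _ _ _ _ _ _ _ => rfl
  pf := fun _ _ _ _ _ => 0
  pfClosed := fun _ _ _ _ _ _ _ _ => rfl
  pfFunctorial := fun _ _ _ _ _ _ _ _ _ _ => rfl
  pfRestriction := fun _ _ _ _ _ _ _ _ _ _ _ _ => rfl
  pfBoundary := fun _ _ _ _ _ _ _ _ _ _ _ _ _ _ _ _ _ _ _ _ => rfl
  pfFrobenius := fun _ _ _ _ _ _ => rfl
  pfClasses := fun _ _ _ _ _ => ⟨fun _ => rfl, fun _ => rfl⟩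

/-- the points of `Spec k` have dimension zero -/
lemma dim_point (k : Type) [Field k] (x : (aff k k).X) : (aff k k).dim x = 0 := by
  have h := dim_toPt (k := k) (ofPt x)
  rw [toPt_ofPt] at h
  rw [h]
  unfold rdim
  have h1 : Algebra.IsAlgebraic k (k ⧸ (ofPt x).asIdeal) := by
    refine ⟨fun y => ?_⟩
    obtain ⟨a, rfl⟩ := Ideal.Quotient.mk_surjective y
    exact isAlgebraic_algebraMap a
  exact _root_.trdeg_eq_zero

/-- the Chow group of `Spec k` in dimension zero is not zero -/
lemma not_inj (k : Type) [Field k] (E : Type) [Field E] :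
    ¬ (zeroTheory k E 0).Inj (aff k k) := by
  intro h
  have h1 : ratZero E 0 (aff k k) = ⊥ := CUB.P0.ratZero_eq_bot 0 _ (by
    intro x
    rw [dim_point]
    exact le_of_eq (by simp))
  have x : (aff k k).X := toPt ⟨⊥, Ideal.isPrime_bot⟩
  have hx : (aff k k).dim x = ((0 : ℕ) : Cardinal) := by rw [dim_point, Nat.cast_zero]
  have h2 : (Submodule.Quotient.mk (Finsupp.single (⟨x, hx⟩ : Pts 0 (aff k k)) (1 : E)) :
      Chow E 0 (aff k k)) = 0 := h rfl
  rw [Submodule.Quotient.mk_eq_zero, h1, Submodule.mem_bot] at h2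
  have h3 := congrArg (fun c : Pts 0 (aff k k) →₀ E => c ⟨x, hx⟩) h2
  exact one_ne_zero (Finsupp.single_eq_same.symm.trans h3)

/-- the second equivalence of `result` for this theory -/
theorem growth (k : Type) [Field k] [Finite k] (B : Set k) (hB : Subring.closure B = ⊤)
    (E : Type) [Field E] [CharZero E] : ∃ K N : ℕ, ∀ n ≥ N, ∃ V : Var k, Level B n V ∧
      (2 : Cardinal) ^ n < (K : Cardinal) * chowRank E (2 * n) V := by
  have h1 : ¬ ChowBound B (fun i => zeroTheory k E i) := by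
    intro h
    have h2 := ((Pool.Agent.Results.MP_3af9db_ag.CubicGrowth.result k B hB E
      (fun i => zeroTheory k E i) (zeroFull k E)).2.1).1 h 0 (aff k k) aff_isAffine
    exact not_inj k E h2
  unfold ChowBound Often at h1
  push Not at h1
  obtain ⟨K, N, h2⟩ := h1
  refine ⟨K, N, fun n hn => ?_⟩
  obtain ⟨V, hV, -, h3⟩ := h2 n hn
  exact ⟨V, hV, by simpa using h3⟩

end Pool.Agent.VAC2.CubicGrowth
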