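import Pool.Agent.Results.MP_3af9db_ag.TateAndWeilClasses

/-!
# Vacuity certificate for MP_3af9db_ag/TateAndWeilClasses (helper67)

* `not_both`, `iff_good`: `Generated` and `NotGenerated` exclude each other (the product of the
  `weil (h k) ^ e k` is the characteristic polynomial of a semisimple endomorphism with admissible
  eigenvalues), so the theorem says `Good ↔ Generated`, `¬ Good ↔ NotGenerated`.
* `not_divisorial_false`: the third conclusion is false for `Good` sets without Weil blocks, so it is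
  a real condition too.
* `ell_full`, `ell_good`, `ell_block`, `instance_true`: the instance `q = 2`, `S = {x - 1}`.
* `bad_not`: without the condition on the eigenvalues the conclusion of `Generated` is false.
-/

set_option autoImplicit false

open Polynomial Filter IntermediateField

namespace Pool.Agent.VAC2.TateAndWeil

open Pool.Agent.Results.MP_3af9db_ag.TateAndWeilClasses

/-- The diagonal endomorphism is semisimple. -/
theorem diag_semisimple {K : Type} [Field K] {n : ℕ} (d : Fin n → K) :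
    Module.End.IsSemisimple (Matrix.toLin' (Matrix.diagonal d)) := by
  classical
  have h1 : Squarefree (∏ a ∈ Finset.univ.image d, (X - C a)) := by
    refine Polynomial.Separable.squarefree ?_
    exact Polynomial.separable_prod_X_sub_C_iff'.2 fun a _ b _ h => h
  refine Module.End.isSemisimple_of_squarefree_aeval_eq_zero h1 ?_
  refine LinearMap.pi_ext' fun i => LinearMap.ext_ring ?_
  have h2 : (Matrix.toLin' (Matrix.diagonal d)) (Pi.single i 1) = d i • Pi.single i (1 : K) := by
    ext j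
    rw [Matrix.toLin'_apply, Matrix.mulVec_diagonal, Pi.smul_apply, smul_eq_mul]
    by_cases h : j = i
    · subst h
      simp
    · simp [h]
  have h3 := Module.End.aeval_apply_of_hasEigenvector (p := ∏ a ∈ Finset.univ.image d, (X - C a))
    (f := Matrix.toLin' (Matrix.diagonal d)) (μ := d i) (x := Pi.single i (1 : K))
    ⟨Module.End.mem_eigenspace_iff.2 h2, by simp⟩
  simp only [LinearMap.coe_comp, LinearMap.coe_single, Function.comp_apply, LinearMap.zero_apply]
  rw [h3, eval_prod, Finset.prod_eq_zero (Finset.mem_image_of_mem d (Finset.mem_univ i))]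
  · simp
  · simp

/-- Every monic polynomial over an algebraically closed field is the characteristic polynomial of a
semisimple endomorphism. -/
theorem exists_semisimple {K : Type} [Field K] [IsAlgClosed K] (P : K[X]) (hP : P.Monic) :
    ∃ (n : ℕ) (F : Module.End K (Fin n → K)), F.IsSemisimple ∧ F.charpoly = P := by
  classical
  obtain ⟨l, hl⟩ : ∃ l : List K, (l : Multiset K) = P.roots := ⟨P.roots.toList, by simp⟩
  refine ⟨l.length, Matrix.toLin' (Matrix.diagonal l.get), diag_semisimple l.get, ?_⟩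
  rw [Matrix.charpoly_toLin', Matrix.charpoly_diagonal]
  have h1 := IsAlgClosed.splits P
  have h2 := h1.eq_prod_roots_of_monic hP
  rw [h2, ← hl, Multiset.map_coe, Multiset.prod_coe, ← List.prod_ofFn]
  congr 1
  conv_rhs => rw [← List.ofFn_get l, List.map_ofFn]
  rfl


theorem weil_monic {q : ℕ} {h : ℤ[X]} (hm : h.Monic) : (weil q h).Monic := by
  rw [weil, Finset.sum_range_succ]
  have h1 : (X ^ 2 + C (q : ℤ) : ℤ[X]).Monic := monic_X_pow_add_C _ (by norm_num)
  have h0 : (X ^ 2 + C (q : ℤ) : ℤ[X]).natDegree = 2 := natDegree_X_pow_add_C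
  have h2 : (C (h.coeff h.natDegree) * (X ^ 2 + C (q : ℤ)) ^ h.natDegree *
      X ^ (h.natDegree - h.natDegree) : ℤ[X]) = (X ^ 2 + C (q : ℤ)) ^ h.natDegree := by
    rw [hm.coeff_natDegree, Nat.sub_self, pow_zero, mul_one, C_1, one_mul]
  rw [h2]
  refine (h1.pow _).add_of_right ?_
  have h3 : ((X ^ 2 + C (q : ℤ)) ^ h.natDegree : ℤ[X]).degree = (2 * h.natDegree : ℕ) := by
    rw [degree_eq_natDegree (h1.pow _).ne_zero, h1.natDegree_pow, h0, mul_comm]
  rw [h3]
  refine lt_of_le_of_lt (degree_sum_le _ _) ?_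
  refine (Finset.sup_lt_iff (WithBot.bot_lt_coe _)).2 fun i hi => ?_
  have hi' := Finset.mem_range.1 hi
  refine lt_of_le_of_lt (degree_mul_le _ _) ?_
  refine lt_of_le_of_lt (add_le_add (degree_mul_le _ _) le_rfl) ?_
  rw [degree_X_pow, degree_eq_natDegree (h1.pow i).ne_zero, h1.natDegree_pow, h0]
  refine lt_of_le_of_lt (add_le_add (add_le_add degree_C_le le_rfl) le_rfl) ?_
  rw [zero_add, ← Nat.cast_add]
  exact_mod_cast (by omega : i * 2 + (h.natDegree - i) < 2 * h.natDegree)

/-- On the varieties of `NotGenerated` the hypotheses of `Generated` can be satisfied: a semisimple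
endomorphism with admissible eigenvalues whose characteristic polynomial is the given product. -/
theorem exists_adm {q : ℕ} {S : Set ℤ[X]} (n : ℕ) (h : Fin n → ℤ[X]) (e : Fin n → ℕ)
    (hh : ∀ k, h k ∈ S) (hm : ∀ k, (h k).Monic) :
    ∃ (m : ℕ) (F : Module.End Qbar (Fin m → Qbar)), F.IsSemisimple ∧
      F.charpoly = ∏ k, ((weil q (h k)).map (Int.castRingHom Qbar)) ^ e k ∧
      ∀ z : Qbar, F.charpoly.IsRoot z → Adm q S z := by
  obtain ⟨m, F, h1, h2⟩ := exists_semisimple
    (∏ k, ((weil q (h k)).map (Int.castRingHom Qbar)) ^ e k)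
    (monic_prod_of_monic _ _ fun k _ => ((weil_monic (hm k)).map _).pow _)
  refine ⟨m, F, h1, h2, fun z hz => ?_⟩
  rw [h2, IsRoot.def, eval_prod, Finset.prod_eq_zero_iff] at hz
  obtain ⟨k, -, hk⟩ := hz
  rw [eval_pow] at hk
  have h3 : eval z (Polynomial.map (Int.castRingHom Qbar) (weil q (h k))) = 0 := by
    by_contra h0
    exact pow_ne_zero _ h0 hk
  refine ⟨1, le_rfl, Or.inr ⟨h k, hh k, z, ?_, rfl⟩⟩
  rw [aeval_def, ← eval_map]
  exact h3

/-- The two sides of the dichotomy exclude each other: the theorem says `Good ↔ Generated`. -/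
theorem not_both {q : ℕ} {S : Set ℤ[X]} (hS : S ⊆ Small q ∪ Full q) (h1 : Generated q S) :
    ¬ NotGenerated q S := by
  rintro ⟨n, h, e, hh, H⟩
  have hm : ∀ k, (h k).Monic := fun k => by
    rcases hS (hh k) with h2 | h2
    · exact h2.2.1.1.1
    · exact h2.2.1.1.1
  obtain ⟨m, F, h3, h4, h5⟩ := exists_adm (q := q) n h e hh hm
  obtain ⟨j, hj⟩ := H Qbar (Fin m → Qbar) F h3 (h4 ▸ dvd_rfl)
  exact hj (h1 Qbar (Fin m → Qbar) F h3 h5 j)

/-- Without Weil blocks and for `Good` sets the third conclusion is false. -/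
theorem not_divisorial_false {q : ℕ} {S : Set ℤ[X]} (hS : S ⊆ Small q ∪ Full q)
    (h0 : ¬ ∃ w, WeilBlock q S w) (h1 : Generated q S) : ¬ NotDivisorial q S := by
  rintro ⟨n, h, e, hh, H⟩
  have hm : ∀ k, (h k).Monic := fun k => by
    rcases hS (hh k) with h2 | h2
    · exact h2.2.1.1.1
    · exact h2.2.1.1.1
  obtain ⟨m, F, h3, h4, h5⟩ := exists_adm (q := q) n h e hh hm
  obtain ⟨j, hj⟩ := H Qbar (Fin m → Qbar) F h3 (h4 ▸ dvd_rfl)
  have h6 : WeilClasses F q S = ∅ := by
    refine Set.eq_empty_of_forall_notMem ?_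
    rintro y ⟨ι, w, l, M, hw, -⟩
    exact h0 ⟨w, hw⟩
  have h7 := h1 Qbar (Fin m → Qbar) F h3 h5 j
  rw [h6, Set.union_empty] at h7
  exact hj h7


/-! ### An instance: the ordinary elliptic curve over the field with two elements with trace `1` -/

/-- the real Weil polynomial `x - 1` -/
noncomputable def ell : ℤ[X] := X - C 1

theorem ell_nd : ell.natDegree = 1 := natDegree_X_sub_C 1

theorem eig_iff (a : Qbar) : a ∈ Eig 2 ell ↔ a ^ 2 - a + 2 = 0 := by
  have h1 : aeval (a + ((2 : ℕ) : Qbar) / a) ell = a + 2 / a - 1 := by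
    simp [ell]
  constructor
  · rintro ⟨h2, h3⟩
    rw [h1] at h3
    have h4 : a ^ 2 - a + 2 = a * (a + 2 / a - 1) := by
      field_simp
      ring
    rw [h4, h3, mul_zero]
  · intro h2
    have h3 : a ≠ 0 := by
      rintro rfl
      norm_num at h2
    refine ⟨h3, ?_⟩
    rw [h1]
    have h4 : a + 2 / a - 1 = (a ^ 2 - a + 2) / a := by
      field_simp
      ring
    rw [h4, h2, zero_div]

theorem exists_eig : ∃ a : Qbar, a ^ 2 - a + 2 = 0 := by
  obtain ⟨a, ha⟩ := IsAlgClosed.exists_root (X ^ 2 - X + C 2 : Qbar[X]) (by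
    have : (X ^ 2 - X + C 2 : Qbar[X]).degree = 2 := by compute_degree!
    rw [this]
    norm_num)
  refine ⟨a, ?_⟩
  simpa using ha

theorem eig_eq {a : Qbar} (ha : a ^ 2 - a + 2 = 0) : Eig 2 ell = {a, 1 - a} := by
  ext b
  rw [eig_iff, Set.mem_insert_iff, Set.mem_singleton_iff]
  constructor
  · intro hb
    have h1 : (b - a) * (b - (1 - a)) = 0 := by linear_combination hb - ha
    rcases mul_eq_zero.1 h1 with h2 | h2
    · exact Or.inl (sub_eq_zero.1 h2)
    · exact Or.inr (sub_eq_zero.1 h2)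
  · rintro (rfl | rfl)
    · exact ha
    · linear_combination ha

theorem eig_ne {a : Qbar} (ha : a ^ 2 - a + 2 = 0) : a ≠ 1 - a := by
  intro h
  have h1 : a = 1 / 2 := by linear_combination h / 2
  rw [h1] at ha
  norm_num at ha

theorem exists_swap {a : Qbar} (ha : a ^ 2 - a + 2 = 0) :
    ∃ σ : Qbar ≃ₐ[ℚ] Qbar, σ a = 1 - a := by
  have hirr : Irreducible (X ^ 2 - X + C 2 : ℚ[X]) := by
    have hd : (X ^ 2 - X + C 2 : ℚ[X]).natDegree = 2 := by compute_degree!
    rw [Polynomial.irreducible_iff_roots_eq_zero_of_degree_le_three (by omega) (by omega)]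
    refine Multiset.eq_zero_of_forall_notMem fun x hx => ?_
    have h1 := (mem_roots'.1 hx).2
    have h2 : x ^ 2 - x + 2 = 0 := by simpa using h1
    nlinarith [sq_nonneg (x - 1 / 2)]
  have hmon : (X ^ 2 - X + C 2 : ℚ[X]).Monic := by monicity!
  have e1 : (X ^ 2 - X + C 2 : ℚ[X]) = minpoly ℚ a :=
    minpoly.eq_of_irreducible_of_monic hirr (by simpa using ha) hmon
  have e2 : (X ^ 2 - X + C 2 : ℚ[X]) = minpoly ℚ (1 - a) :=
    minpoly.eq_of_irreducible_of_monic hirr (by
      have : (1 - a) ^ 2 - (1 - a) + 2 = 0 := by linear_combination ha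
      simpa using this) hmon
  have hN : Normal ℚ Qbar := by
    have i : @IsAlgClosure ℚ Qbar _ _ (AlgebraicClosure.instAlgebra ℚ) _ :=
      @AlgebraicClosure.instIsAlgClosure ℚ _
    have h : @Normal ℚ Qbar _ _ (AlgebraicClosure.instAlgebra ℚ) :=
      @IsAlgClosure.normal ℚ Qbar _ _ (AlgebraicClosure.instAlgebra ℚ) i
    have e : (DivisionRing.toRatAlgebra : Algebra ℚ Qbar) = AlgebraicClosure.instAlgebra ℚ :=
      Subsingleton.elim _ _
    rw [e]
    exact h
  have h3 : IsConjRoot ℚ (1 - a) a := by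
    rw [IsConjRoot, ← e1, ← e2]
  obtain ⟨σ, hσ⟩ := isConjRoot_iff_exists_algEquiv.1 h3
  exact ⟨σ, hσ⟩

theorem ell_real : ell ∈ RealWeil 1 2 := by
  refine ⟨monic_X_sub_C 1, ell_nd, fun z hz => ?_⟩
  have h1 : z = 1 := by
    have : z - 1 = 0 := by simpa [ell] using hz
    exact sub_eq_zero.1 this
  subst h1
  refine ⟨by simp, ?_⟩
  have h2 : (1 : ℝ) ≤ Real.sqrt 2 := Real.one_le_sqrt.2 (by norm_num)
  have h3 : |(1 : ℂ).re| = 1 := by simp
  rw [h3]
  push_cast
  linarith

theorem ell_ord : ell ∈ Ordinary 1 2 := by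
  refine ⟨ell_real, ?_⟩
  have h1 : (2 : ℕ).minFac = 2 := Nat.prime_two.minFac_eq
  have h2 : ell.coeff 0 = -1 := by simp [ell]
  rw [h1, h2]
  norm_num

theorem ell_full : ell ∈ Full 2 := by
  obtain ⟨a, ha⟩ := exists_eig
  have h0 := eig_eq ha
  have h2a : (((2 : ℕ) : Qbar)) / a = 1 - a := by
    have h3 : a ≠ 0 := by
      rintro rfl
      norm_num at ha
    field_simp
    push_cast
    linear_combination ha
  have h2b : (((2 : ℕ) : Qbar)) / (1 - a) = a := by
    have h3 : 1 - a ≠ 0 := by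
      intro h
      have : a = 1 := by linear_combination -h
      rw [this] at ha
      norm_num at ha
    field_simp
    push_cast
    linear_combination ha
  refine ⟨by rw [ell_nd], by rw [ell_nd]; exact ell_ord, ?_, fun τ hτ hc => ?_⟩
  · rw [h0, Set.ncard_pair (eig_ne ha), ell_nd]
  · have h4 : τ a ∈ Eig 2 ell := hτ.mapsTo (by rw [h0]; simp)
    have h5 := hc a (by rw [h0]; simp)
    rw [h2a] at h5
    rw [h0] at h4
    rcases h4 with h4 | h4
    · refine ⟨AlgEquiv.refl, fun b hb => ?_⟩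
      rw [h0] at hb
      rcases hb with rfl | rfl
      · exact h4.symm
      · rw [h5, h4, h2a]
        rfl
    · have h4' : τ a = 1 - a := h4
      obtain ⟨σ, hσ⟩ := exists_swap ha
      refine ⟨σ, fun b hb => ?_⟩
      rw [h0] at hb
      rcases hb with rfl | rfl
      · rw [hσ, h4']
      · rw [h5, h4', h2b, map_sub, map_one, hσ]
        ring

theorem ell_isog : Isog 2 ell ell := by
  obtain ⟨a, ha⟩ := exists_eig
  exact ⟨a, (eig_iff a).2 ha, a, (eig_iff a).2 ha, 1, le_rfl, rfl⟩

/-- `S = {x - 1}` satisfies the criterion. -/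
theorem ell_good : Good 2 {ell} where
  surfaces h hh _ := by
    have h1 := (hh 0).2
    rw [Set.mem_singleton_iff.1 (hh 0).1, ell_nd] at h1
    omega
  threefolds h hh _ := by
    have h1 := (hh 0).2.1
    rw [Set.mem_singleton_iff.1 (hh 0).1, ell_nd] at h1
    omega
  types v _ _ n h a hh hn _ := by
    have h1 : ∀ i j : Fin n, i = j := by
      intro i j
      by_contra hij
      refine hn i j hij ?_
      rw [Set.mem_singleton_iff.1 (hh i).1, Set.mem_singleton_iff.1 (hh j).1]
      exact ell_isog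
    have : Subsingleton (Fin n) := ⟨h1⟩
    rw [linearIndependent_subsingleton_index_iff]
    intro i h0
    have h2 := congrFun h0 1
    rw [cmType] at h2
    split_ifs at h2
    · simp at h2
    · simp at h2

/-- There is no Weil block. -/
theorem ell_block : ¬ ∃ w, WeilBlock 2 {ell} w := by
  rintro ⟨w, h, hh, h', hh', hn, -⟩
  rw [Set.mem_singleton_iff.1 hh, Set.mem_singleton_iff.1 hh'] at hn
  exact hn ell_isog


/-! ### Admissibility is needed

For `F = diag(1, 1, 1, 4)`, `q = 2`, the class `e₀ ∧ e₁ ∧ e₂ ∧ e₃` is a Tate class of degree `4`, there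
are no Tate classes of degree `2` and no Weil classes. -/

/-- the endomorphism `diag(1, 1, 1, 4)` -/
noncomputable def bad : Module.End Qbar (Fin 4 → Qbar) :=
  Matrix.toLin' (Matrix.diagonal ![1, 1, 1, 4])

/-- the vector `e₃` -/
noncomputable def e3 : Fin 4 → Qbar := Pi.single 3 1

theorem bad_apply (v : Fin 4 → Qbar) : bad v = (v - v 3 • e3) + (4 : Qbar) • (v 3 • e3) := by
  ext j
  rw [bad, Matrix.toLin'_apply, Matrix.mulVec_diagonal]
  fin_cases j <;> simp [e3]

theorem bad_pow (N : ℕ) (v : Fin 4 → Qbar) :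
    (bad ^ N) v = (v - v 3 • e3) + (4 : Qbar) ^ N • (v 3 • e3) := by
  induction N with
  | zero => simp
  | succ N ih =>
    rw [pow_succ', Module.End.mul_apply, ih, bad_apply]
    have h1 : ((v - v 3 • e3) + (4 : Qbar) ^ N • (v 3 • e3)) 3 = (4 : Qbar) ^ N * v 3 := by
      simp [e3]
    rw [h1]
    module

theorem tate_bad : TateClasses bad 2 1 = {0} := by
  refine Set.eq_singleton_iff_unique_mem.2 ⟨⟨Submodule.zero_mem _, 1, le_rfl, by simp⟩, ?_⟩
  rintro x ⟨hx, N, hN, h⟩
  have key : ∀ x ∈ ⋀[Qbar]^(2 * 1) (Fin 4 → Qbar),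
      ExteriorAlgebra.map (bad ^ N) (ExteriorAlgebra.map (bad ^ N) x) -
        (1 + (4 : Qbar) ^ N) • ExteriorAlgebra.map (bad ^ N) x + (4 : Qbar) ^ N • x = 0 := by
    intro x hx
    rw [mul_one, ExteriorAlgebra.exteriorPower, pow_two] at hx
    refine Submodule.mul_induction_on hx ?_ ?_
    · rintro _ ⟨v, rfl⟩ _ ⟨w, rfl⟩
      have e1 : ∀ u : Fin 4 → Qbar, ExteriorAlgebra.ι Qbar u =
          ExteriorAlgebra.ι Qbar (u - u 3 • e3) + u 3 • ExteriorAlgebra.ι Qbar e3 := by
        intro u
        rw [← map_smul, ← map_add]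
        congr 1
        module
      have e2 : ∀ u : Fin 4 → Qbar, ExteriorAlgebra.map (bad ^ N) (ExteriorAlgebra.ι Qbar u) =
          ExteriorAlgebra.ι Qbar (u - u 3 • e3) +
            ((4 : Qbar) ^ N * u 3) • ExteriorAlgebra.ι Qbar e3 := by
        intro u
        rw [ExteriorAlgebra.map_apply_ι, bad_pow, map_add, smul_smul, map_smul]
      have e3' : ExteriorAlgebra.map (bad ^ N) (ExteriorAlgebra.ι Qbar e3) =
          (4 : Qbar) ^ N • ExteriorAlgebra.ι Qbar e3 := by
        rw [e2]
        simp [e3]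
      have e4 : ∀ u : Fin 4 → Qbar, ExteriorAlgebra.map (bad ^ N)
          (ExteriorAlgebra.ι Qbar (u - u 3 • e3)) = ExteriorAlgebra.ι Qbar (u - u 3 • e3) := by
        intro u
        rw [e2]
        simp [e3]
      have e5 : ExteriorAlgebra.ι Qbar e3 * ExteriorAlgebra.ι Qbar e3 = 0 :=
        ExteriorAlgebra.ι_sq_zero _
      set c : Qbar := (4 : Qbar) ^ N
      set V := ExteriorAlgebra.ι Qbar (v - v 3 • e3)
      set W := ExteriorAlgebra.ι Qbar (w - w 3 • e3)
      set E := ExteriorAlgebra.ι Qbar e3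
      rw [map_mul, e2 v, e2 w]
      simp only [map_mul, map_add, map_smul, e4, e3']
      rw [e1 v, e1 w]
      simp only [mul_add, add_mul, smul_mul_assoc, mul_smul_comm, e5, smul_zero, smul_add]
      module
    · intro x y hx hy
      rw [map_add, map_add]
      have := congrArg₂ (· + ·) hx hy
      simp only [add_zero] at this
      rw [← this]
      module
  have h2 := key x hx
  rw [h, map_smul, h] at h2
  have h3 : (((2 : ℕ) : Qbar) ^ (1 * N) * ((2 : ℕ) : Qbar) ^ (1 * N) -
      (1 + (4 : Qbar) ^ N) * ((2 : ℕ) : Qbar) ^ (1 * N) + (4 : Qbar) ^ N) • x = 0 := by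
    rw [← h2]
    module
  rcases smul_eq_zero.1 h3 with h4 | h4
  · exfalso
    have h5 : (4 : Qbar) ^ N = (2 : Qbar) ^ N * (2 : Qbar) ^ N := by
      rw [← mul_pow]
      norm_num
    rw [one_mul, h5] at h4
    push_cast at h4
    have h6 : (2 : Qbar) ^ N * ((2 : Qbar) ^ N - 1) ^ 2 = 0 := by linear_combination -h4
    rcases mul_eq_zero.1 h6 with h7 | h7
    · exact pow_ne_zero _ two_ne_zero h7
    · have h8 : (2 : Qbar) ^ N = 1 := sub_eq_zero.1 (pow_eq_zero_iff two_ne_zero |>.1 h7)
      have h9 : ((2 ^ N : ℕ) : Qbar) = ((1 : ℕ) : Qbar) := by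
        push_cast
        exact h8
      have h10 := Nat.cast_injective h9
      have h11 := Nat.one_lt_two_pow (n := N) (by omega)
      omega
  · exact h4


/-- `e₀ ∧ e₁ ∧ e₂ ∧ e₃` -/
noncomputable def vol : ExteriorAlgebra Qbar (Fin 4 → Qbar) :=
  ExteriorAlgebra.ιMulti Qbar 4 fun i => Pi.single i (1 : Qbar)

theorem vol_ne : vol ≠ 0 := by
  intro h
  have h1 : exteriorPower.ιMulti Qbar 4 (fun i => (Pi.single i (1 : Qbar) : Fin 4 → Qbar)) = 0 :=
    Subtype.ext h
  have h2 := congrArg (exteriorPower.alternatingMapLinearEquiv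
    (Matrix.detRowAlternating : (Fin 4 → Qbar) [⋀^Fin 4]→ₗ[Qbar] Qbar)) h1
  rw [exteriorPower.alternatingMapLinearEquiv_apply_ιMulti, map_zero] at h2
  have h3 : Matrix.detRowAlternating (fun i => (Pi.single i (1 : Qbar) : Fin 4 → Qbar)) =
      Matrix.det (1 : Matrix (Fin 4) (Fin 4) Qbar) := by
    change Matrix.det _ = _
    congr 1
    ext i j
    rw [Matrix.one_apply, Pi.single_apply]
    simp only [eq_comm]
  rw [h3, Matrix.det_one] at h2
  exact one_ne_zero h2

theorem vol_eig : ExteriorAlgebra.map bad vol = (4 : Qbar) • vol := by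
  rw [vol, ExteriorAlgebra.map_apply_ιMulti]
  have h1 : (bad ∘ fun i => (Pi.single i (1 : Qbar) : Fin 4 → Qbar)) =
      Function.update (fun i => (Pi.single i (1 : Qbar) : Fin 4 → Qbar)) 3
        ((4 : Qbar) • Pi.single 3 (1 : Qbar)) := by
    funext i
    rw [Function.comp_apply, bad_apply]
    fin_cases i <;> simp [e3, Function.update]
  rw [h1, AlternatingMap.map_update_smul]
  congr 2
  exact Function.update_eq_self 3 _

theorem vol_tate : vol ∈ TateClasses bad 2 2 := by
  refine ⟨?_, 1, le_rfl, ?_⟩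
  · exact (exteriorPower.ιMulti Qbar 4
      (fun i => (Pi.single i (1 : Qbar) : Fin 4 → Qbar))).2
  · rw [pow_one, vol_eig]
    norm_num

/-- Without the condition on the eigenvalues the conclusion of `Generated` is false (for
`S = {x - 1}`): it is a real condition. -/
theorem bad_not : bad.IsSemisimple ∧
    ¬ TateClasses bad 2 2 ⊆ Algebra.adjoin Qbar (TateClasses bad 2 1 ∪ WeilClasses bad 2 {ell}) := by
  refine ⟨diag_semisimple _, fun h => ?_⟩
  have h6 : WeilClasses bad 2 {ell} = ∅ := by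
    refine Set.eq_empty_of_forall_notMem ?_
    rintro y ⟨ι, w, l, M, hw, -⟩
    exact ell_block ⟨w, hw⟩
  have h1 := h vol_tate
  rw [tate_bad, h6, Set.union_empty] at h1
  have h2 : Algebra.adjoin Qbar ({0} : Set (ExteriorAlgebra Qbar (Fin 4 → Qbar))) = ⊥ := by
    refine eq_bot_iff.2 (Algebra.adjoin_le ?_)
    rintro x hx
    rw [Set.mem_singleton_iff.1 hx]
    exact Subalgebra.zero_mem _
  rw [h2] at h1
  obtain ⟨c, hc⟩ := Algebra.mem_bot.1 h1
  have h3 := vol_eig
  rw [← hc, AlgHom.commutes] at h3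
  have h4 : (3 : Qbar) • vol = 0 := by
    rw [← hc]
    have : (3 : Qbar) • (algebraMap Qbar (ExteriorAlgebra Qbar (Fin 4 → Qbar))) c =
        (4 : Qbar) • (algebraMap Qbar (ExteriorAlgebra Qbar (Fin 4 → Qbar))) c -
        (algebraMap Qbar (ExteriorAlgebra Qbar (Fin 4 → Qbar))) c := by module
    rw [this, ← h3, sub_self]
  rcases smul_eq_zero.1 h4 with h5 | h5
  · norm_num at h5
  · exact vol_ne h5


/-! ### The theorem at these instances -/

/-- For every prime power `q` and every `S` the criterion is equivalent to the generation of all Tate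
classes, and its negation to the failure on all `V` of the second clause. -/
theorem iff_good {q : ℕ} (hq : IsPrimePow q) {S : Set ℤ[X]} (hS : S ⊆ Small q ∪ Full q) :
    (Good q S ↔ Generated q S) ∧ (¬ Good q S ↔ NotGenerated q S) := by
  obtain ⟨h1, h2, -⟩ := result.1 q hq S hS
  refine ⟨⟨h1, fun h => ?_⟩, ⟨h2, fun h h' => not_both hS (h1 h') h⟩⟩
  by_contra h'
  exact not_both hS h (h2 h')

/-- The instance `q = 2`, `S = {x - 1}`. -/
theorem instance_true : Good 2 {ell} ∧ Generated 2 {ell} ∧ ¬ NotGenerated 2 {ell} ∧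
    ¬ NotDivisorial 2 {ell} := by
  have hS : ({ell} : Set ℤ[X]) ⊆ Small 2 ∪ Full 2 := by
    rintro h hh
    rw [Set.mem_singleton_iff.1 hh]
    exact Or.inr ell_full
  have h1 := (result.1 2 Nat.prime_two.isPrimePow {ell} hS).1 ell_good
  exact ⟨ell_good, h1, not_both hS h1, not_divisorial_false hS ell_block h1⟩

end Pool.Agent.VAC2.TateAndWeil
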