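import Pool.Agent.CUB.BR1

/-!
# MP_3af9db_ag/WeightTwoEquations: the statement is not vacuous and not trivial

(1) The Chow group of the statement is not zero in general: for a finite nontrivial algebra `A` over
`k`, for instance for `n = r = 0`, `R = k` (where `2 j + ∑ w_i < n` fails by one), the group of the
cycles of dimension `0` on `Spec A` does not vanish.
(2) An explicit instance of the hypotheses with unbounded degrees: over the field with three
elements `f = x_0 ^ (3 ^ a) x_1 + x_2 ^ 2`, `n = 3`, `w = 2`, `j = 0`; the variety has a point of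
dimension `0`, so the vanishing of its class is a real assertion.
-/

set_option autoImplicit false

namespace Pool.Agent.VAC2.WeightTwoEquations

open CategoryTheory AlgebraicGeometry Pool.Agent.Lib_helper55.Beil CUB

section

variable {k : Type} [Field k] {A : Type} [CommRing A] [Algebra k A] [Algebra.FiniteType k A]

theorem dim_zero [Module.Finite k A] (x : (aff k A).X) : (aff k A).dim x = 0 := by
  have h1 : (aff k A).dim (toPt (ofPt x)) = rdim k (ofPt x) := dim_toPt (ofPt x)
  have h2 : rdim k (ofPt x) = 0 := by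
    unfold rdim
    have : Nontrivial (A ⧸ (ofPt x).asIdeal) :=
      Ideal.Quotient.nontrivial_iff.2 (ofPt x).isPrime.ne_top
    have h3 : Algebra.trdeg k (A ⧸ (ofPt x).asIdeal) = 0 :=
      _root_.trdeg_eq_zero
    rw [h3]
  rw [← h2, ← h1]
  rfl

/-- The Chow group of dimension `0` of a nonempty finite scheme over `k` is not zero. -/
theorem chow_ne_zero [Module.Finite k A] [Nontrivial A] (E : Type) [Field E] :
    ¬ Subsingleton (Chow E 0 (aff k A)) := by
  have h1 : ratZero E 0 (aff k A) = ⊥ := by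
    unfold ratZero
    rw [Submodule.span_eq_bot]
    rintro c ⟨W, hW, a, φ, hdim, -, -⟩
    exfalso
    have hc : IsClosedImmersion a.g := a.closed
    have h2 := dim_map a.g a.comm (genericPoint W.X)
    rw [hdim, dim_zero] at h2
    simp at h2
  obtain ⟨x⟩ : Nonempty (PrimeSpectrum A) := inferInstance
  let y : Pts 0 (aff k A) := ⟨toPt x, by rw [dim_zero]; simp⟩
  intro hs
  have h3 : (Submodule.Quotient.mk (Finsupp.single y (1 : E)) : Chow E 0 (aff k A)) = 0 :=
    Subsingleton.elim _ _
  rw [Submodule.Quotient.mk_eq_zero, h1, Submodule.mem_bot] at h3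
  exact one_ne_zero ((Finsupp.single_eq_zero).1 h3)

/-- The boundary case `n = r = 0`, `j = 0` of the statement, in which the conclusion is false. -/
theorem boundary (E : Type) [Field E] (f : Fin 0 → MvPolynomial (Fin 0) k) :
    ¬ Subsingleton (Chow E 0 (aff k (MvPolynomial (Fin 0) k ⧸ Ideal.span (Set.range f)))) := by
  have h1 : Ideal.span (Set.range f) = ⊥ := by
    rw [Set.range_eq_empty, Ideal.span_empty]
  have h2 : Module.Finite k (MvPolynomial (Fin 0) k) :=
    Module.Finite.equiv (MvPolynomial.isEmptyAlgEquiv k (Fin 0)).symm.toLinearEquiv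
  have h3 : Nontrivial (MvPolynomial (Fin 0) k ⧸ Ideal.span (Set.range f)) := by
    rw [Ideal.Quotient.nontrivial_iff, h1]
    exact bot_ne_top
  exact chow_ne_zero E

end

/-! ## An instance -/

/-- `x_0 ^ (3 ^ a) x_1 + x_2 ^ 2` -/
noncomputable def fa (a : ℕ) : MvPolynomial (Fin 3) (ZMod 3) :=
  MvPolynomial.X 0 ^ 3 ^ a * MvPolynomial.X 1 + MvPolynomial.X 2 ^ 2

instance : Fact (Nat.Prime 3) := ⟨Nat.prime_three⟩

/-- The monomials of `fa` have the exponents `(3 ^ a, 1, 0)` and `(0, 0, 2)`. -/
theorem support_fa (a : ℕ) : ∀ m ∈ (fa a).support,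
    m = Finsupp.single 0 (3 ^ a) + Finsupp.single 1 1 ∨ m = Finsupp.single 2 2 := by
  intro m hm
  have h1 : fa a = MvPolynomial.monomial (Finsupp.single 0 (3 ^ a) + Finsupp.single 1 1) 1 +
      MvPolynomial.monomial (Finsupp.single 2 2) 1 := by
    unfold fa
    rw [MvPolynomial.X_pow_eq_monomial, MvPolynomial.X_pow_eq_monomial, MvPolynomial.X,
      MvPolynomial.monomial_mul, one_mul]
  rw [h1] at hm
  have h2 := MvPolynomial.support_add hm
  rcases Finset.mem_union.1 h2 with h | h
  · exact Or.inl (Finset.mem_singleton.1 (MvPolynomial.support_monomial_subset h))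
  · exact Or.inr (Finset.mem_singleton.1 (MvPolynomial.support_monomial_subset h))

theorem digits_pow (a : ℕ) : (Nat.digits 3 (3 ^ a)).sum = 1 := by
  induction a with
  | zero => simp
  | succ a ih =>
    rw [pow_succ, Nat.mul_comm, Nat.digits_def' (by norm_num) (by positivity),
      Nat.mul_mod_right, Nat.mul_div_cancel_left _ (by norm_num), List.sum_cons, ih]

/-- The `3`-weight of the monomials of `fa` is at most `2`. -/
theorem weight_fa (a : ℕ) : ∀ m ∈ (fa a).support,
    ∑ s, (Nat.digits 3 (m s)).sum ≤ 2 := by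
  intro m hm
  rcases support_fa a m hm with rfl | rfl
  · rw [Fin.sum_univ_three]
    have h0 : ((Finsupp.single (0 : Fin 3) (3 ^ a) + Finsupp.single 1 1 : Fin 3 →₀ ℕ) 0) =
        3 ^ a := by
      rw [Finsupp.add_apply, Finsupp.single_eq_same, Finsupp.single_eq_of_ne (by decide), add_zero]
    have h1 : ((Finsupp.single (0 : Fin 3) (3 ^ a) + Finsupp.single 1 1 : Fin 3 →₀ ℕ) 1) = 1 := by
      rw [Finsupp.add_apply, Finsupp.single_eq_same, Finsupp.single_eq_of_ne (by decide), zero_add]
    have h2 : ((Finsupp.single (0 : Fin 3) (3 ^ a) + Finsupp.single 1 1 : Fin 3 →₀ ℕ) 2) = 0 := by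
      rw [Finsupp.add_apply, Finsupp.single_eq_of_ne (by decide),
        Finsupp.single_eq_of_ne (by decide), add_zero]
    rw [h0, h1, h2, digits_pow]
    norm_num
  · simp [Fin.sum_univ_three]

/-- `2 j + ∑ w_i < n` for `j = 0`, `w = 2`, `n = 3`. -/
theorem range_fa : 2 * 0 + ∑ _i : Fin 1, 2 < 3 := by simp

/-- The variety `fa = 0` has a point of dimension `0`: there are nonzero cycles. -/
theorem point_fa (a : ℕ) : Nonempty (Pts 0 (aff (ZMod 3)
    (MvPolynomial (Fin 3) (ZMod 3) ⧸ Ideal.span (Set.range fun _ : Fin 1 => fa a)))) := by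
  let ev : MvPolynomial (Fin 3) (ZMod 3) →ₐ[ZMod 3] ZMod 3 := MvPolynomial.aeval fun _ => 0
  have h0 : ∀ b ∈ Ideal.span (Set.range fun _ : Fin 1 => fa a), ev b = 0 := by
    intro b hb
    have h1 : Ideal.span (Set.range fun _ : Fin 1 => fa a) ≤ RingHom.ker ev := by
      rw [Ideal.span_le]
      rintro _ ⟨i, rfl⟩
      change ev (fa a) = 0
      unfold fa
      simp [ev]
    exact h1 hb
  let φ := Ideal.Quotient.liftₐ (Ideal.span (Set.range fun _ : Fin 1 => fa a)) ev h0
  have hφ : Function.Surjective φ := fun c => ⟨algebraMap _ _ c, φ.commutes c⟩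
  have hc : IsClosedImmersion (clo φ hφ).g := (clo φ hφ).closed
  let z : (aff (ZMod 3) (ZMod 3)).X := toPt ⟨⊥, Ideal.isPrime_bot⟩
  refine ⟨⟨(clo φ hφ).g z, ?_⟩⟩
  rw [dim_map (clo φ hφ).g (clo φ hφ).comm z, dim_zero]
  simp

end Pool.Agent.VAC2.WeightTwoEquations
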