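import Mathlib
import Pool.Agent.Lib_helper13.DadeDefs
import Pool.Agent.Lib_helper13.CharBasic

/-!
# Certificate for `MP_3f89b9_al/CyclicBlockOfComponent` (vacuity audit)

The instance: `ℓ = 2`, `X = S₃ × S₃`, `K = S₃ × 1`, `ξ = 1`, `x = 1`, `χ = 1`, the trivial characters.
The Sylow `2`-subgroups of `X` are noncyclic.

* `exists_ideal`: there is a maximal ideal `𝔐` of the algebraic integers that contains `ℓ`.
* `hypotheses`: the instance satisfies all hypotheses of the hand-in.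
* `summand`: the summand of the chain `O_ℓ(X)` in the alternating sum is positive for `d = 2`, so
  the conclusion `dadeSum = 0` is a real condition: it is not `0` because all summands are.
-/

set_option autoImplicit false

namespace Pool.Agent.VAC2.CyclicBlockOfComponent

open Pool.Agent.Lib_helper13.Dade

theorem exists_ideal (ℓ : ℕ) (hℓ : ℓ.Prime) : ∃ 𝔐 : Ideal (integralClosure ℤ ℂ),
    𝔐.IsMaximal ∧ (ℓ : integralClosure ℤ ℂ) ∈ 𝔐 := by
  have hne : Ideal.span {(ℓ : integralClosure ℤ ℂ)} ≠ ⊤ := by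
    intro h
    rw [Ideal.span_singleton_eq_top] at h
    obtain ⟨u, hu⟩ := h
    have h1 : (ℓ : integralClosure ℤ ℂ) * ((u⁻¹ : (integralClosure ℤ ℂ)ˣ) : integralClosure ℤ ℂ)
        = 1 := by
      rw [← hu, Units.mul_inv]
    have h2 : (ℓ : ℂ) * (((u⁻¹ : (integralClosure ℤ ℂ)ˣ) : integralClosure ℤ ℂ) : ℂ) = 1 := by
      have := congrArg (fun z : integralClosure ℤ ℂ => (z : ℂ)) h1
      simpa using this
    have hℓ0 : (ℓ : ℂ) ≠ 0 := by exact_mod_cast hℓ.ne_zero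
    have h3 : (((u⁻¹ : (integralClosure ℤ ℂ)ˣ) : integralClosure ℤ ℂ) : ℂ) = (ℓ : ℂ)⁻¹ :=
      eq_inv_of_mul_eq_one_right h2
    have h4 : IsIntegral ℤ ((ℓ : ℂ)⁻¹) := by
      rw [← h3]
      exact (((u⁻¹ : (integralClosure ℤ ℂ)ˣ) : integralClosure ℤ ℂ)).2
    have h5 : IsIntegral ℤ ((ℓ : ℚ)⁻¹) := by
      have h6 : (algebraMap ℚ ℂ) ((ℓ : ℚ)⁻¹) = (ℓ : ℂ)⁻¹ := by simp
      rw [← h6] at h4
      exact (isIntegral_algebraMap_iff (algebraMap ℚ ℂ).injective).mp h4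
    obtain ⟨z, hz⟩ := IsIntegrallyClosed.isIntegral_iff.mp h5
    have h7 : (z : ℚ) * ℓ = 1 := by
      have hq : (ℓ : ℚ) ≠ 0 := by exact_mod_cast hℓ.ne_zero
      have : (z : ℚ) = (ℓ : ℚ)⁻¹ := by simpa using hz
      rw [this, inv_mul_cancel₀ hq]
    have h8 : z * (ℓ : ℤ) = 1 := by exact_mod_cast h7
    have h9 : (ℓ : ℤ) ∣ 1 := ⟨z, by rw [mul_comm]; exact h8.symm⟩
    have h10 : ℓ ∣ 1 := by exact_mod_cast h9
    exact hℓ.one_lt.ne' (Nat.dvd_one.mp h10)
  obtain ⟨𝔐, h1, h2⟩ := Ideal.exists_le_maximal _ hne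
  exact ⟨𝔐, h1, h2 (Ideal.subset_span rfl)⟩

/-- The symmetric group on three letters. -/
abbrev S3 : Type := Equiv.Perm (Fin 3)

/-- The first factor. -/
def K : Subgroup (S3 × S3) := Subgroup.prod ⊤ ⊥

theorem card_S3 : Nat.card S3 = 6 := by
  rw [Nat.card_eq_fintype_card, Fintype.card_perm, Fintype.card_fin]
  rfl

theorem card_K : Nat.card K = 6 := by
  unfold K
  rw [Nat.card_congr (Subgroup.prodEquiv _ _).toEquiv, Nat.card_prod, Subgroup.card_top,
    Subgroup.card_bot, card_S3]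

theorem irr_one (H : Type) [Group H] [Finite H] : IsIrrChar (fun _ : H => (1 : ℂ)) := by
  classical
  have := Fintype.ofFinite H
  have hc : (1 : Representation ℂ H ℂ).character = fun _ : H => (1 : ℂ) := by
    funext g
    change LinearMap.trace ℂ ℂ (1 : ℂ →ₗ[ℂ] ℂ) = 1
    rw [LinearMap.trace_one, Module.finrank_self]
    norm_num
  have h := Pool.Agent.Lib_helper13.isIrr_of_rep_sum (1 : Representation ℂ H ℂ) (by
    rw [hc]
    simp)
  rw [hc] at h
  exact h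

set_option maxRecDepth 20000 in
theorem pcore_K : pCore 2 K = ⊥ := by
  unfold pCore
  rw [sSup_eq_bot]
  rintro N ⟨hN, hp⟩
  have hfix : ∀ g : S3, ∀ k : ℕ, g ^ (2 ^ k) = 1 → g ^ 3 = 1 → g = 1 := by
    intro g k h1 h2
    have h3 : orderOf g ∣ 2 ^ k := orderOf_dvd_of_pow_eq_one h1
    have h4 : orderOf g ∣ 3 := orderOf_dvd_of_pow_eq_one h2
    have h5 : Nat.Coprime (2 ^ k) 3 := Nat.Coprime.pow_left k (by norm_num)
    have h6 : orderOf g ∣ 1 := by
      rw [← h5]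
      exact Nat.dvd_gcd h3 h4
    exact orderOf_eq_one_iff.mp (Nat.dvd_one.mp h6)
  have hord : ∀ g : S3, g ^ 2 = 1 ∨ g ^ 3 = 1 := by decide
  have hcomm : ∀ g : S3, g ≠ 1 → g ^ 2 = 1 → ∃ h : S3, h * g * h⁻¹ * g ≠ 1 ∧
      (h * g * h⁻¹ * g) ^ 3 = 1 := by decide
  have hpow : ∀ n ∈ N, ∃ k : ℕ, (n : S3 × S3).1 ^ (2 ^ k) = 1 := by
    intro n hn
    obtain ⟨k, hk⟩ := hp ⟨n, hn⟩
    refine ⟨k, ?_⟩
    have h1 : n ^ (2 ^ k) = 1 := congrArg Subtype.val hk
    have h2 : (n : S3 × S3) ^ (2 ^ k) = 1 := by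
      have := congrArg (fun z : K => (z : S3 × S3)) h1
      simpa using this
    exact congrArg Prod.fst h2
  rw [Subgroup.eq_bot_iff_forall]
  intro n hn
  have hn2 : (n : S3 × S3).2 = 1 := by
    have := n.2
    unfold K at this
    exact (Subgroup.mem_prod.mp this).2
  by_contra hne
  have hn1 : (n : S3 × S3).1 ≠ 1 := by
    intro h
    exact hne (Subtype.ext (Prod.ext h hn2))
  obtain ⟨k, hk⟩ := hpow n hn
  have hsq : (n : S3 × S3).1 ^ 2 = 1 := by
    rcases hord (n : S3 × S3).1 with h | h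
    · exact h
    · exact absurd (hfix _ k hk h) hn1
  obtain ⟨h, h1, h2⟩ := hcomm _ hn1 hsq
  let y : K := ⟨(h, 1), by unfold K; exact Subgroup.mem_prod.mpr ⟨trivial, rfl⟩⟩
  have hm : y * n * y⁻¹ * n ∈ N := mul_mem (hN.conj_mem n hn y) hn
  obtain ⟨k', hk'⟩ := hpow _ hm
  exact h1 (hfix _ k' hk' h2)

/-- All hypotheses of the hand-in. -/
theorem hypotheses (𝔐 : Ideal (integralClosure ℤ ℂ)) (h𝔐 : 𝔐.IsMaximal) :
    (∀ x : S3 × S3, (∀ k ∈ K, x * k * x⁻¹ ∈ K) ∨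
      ∀ k ∈ K, ∀ k' ∈ K, (x * k * x⁻¹) * k' = k' * (x * k * x⁻¹)) ∧
    pCore 2 K = ⊥ ∧
    IsIrrChar (fun _ : K => (1 : ℂ)) ∧
    ¬ HasDefect 2 (fun _ : K => (1 : ℂ)) 0 ∧
    ¬ CongrMod 𝔐 (central (fun _ : K => (1 : ℂ)) 1) 0 ∧
    (∀ Q : Subgroup K, IsPGroup 2 Q → (∀ u ∈ Q, u * (1 : K) = 1 * u) → IsCyclic Q) ∧
    IsIrrChar (fun _ : S3 × S3 => (1 : ℂ)) ∧
    ∑ᶠ k : K, (fun _ : S3 × S3 => (1 : ℂ)) k * (fun _ : K => (1 : ℂ)) k⁻¹ ≠ 0 := by
  refine ⟨fun x => Or.inl fun k hk => ?_, pcore_K, irr_one _, ?_, ?_, ?_, irr_one _, ?_⟩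
  · unfold K at hk ⊢
    rw [Subgroup.mem_prod] at hk ⊢
    refine ⟨trivial, ?_⟩
    rw [Subgroup.mem_bot] at hk ⊢
    change x.2 * k.2 * x.2⁻¹ = 1
    rw [hk.2, mul_one, mul_inv_cancel]
  · rintro ⟨n, hn, h⟩
    have hn0 : ((1 : ℕ) : ℂ) = (n : ℂ) := by rw [← hn, Nat.cast_one]
    have hn1 : n = 1 := (Nat.cast_injective hn0).symm
    rw [hn1, card_K] at h
    have h6 : (2 : ℕ) ∣ 6 := ⟨3, rfl⟩
    have := one_le_padicValNat_of_dvd (p := 2) (by norm_num : (6 : ℕ) ≠ 0) h6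
    rw [h, padicValNat_one_right] at this
    omega
  · rintro ⟨m, hm, hm2⟩
    apply h𝔐.ne_top
    rw [Ideal.eq_top_iff_one]
    have h1 : central (fun _ : K => (1 : ℂ)) 1 = 1 := by
      classical
      unfold central
      rw [div_one]
      have : ∀ x : K, (∑ᶠ (_ : IsConj x 1), (1 : ℂ)) = if x = 1 then 1 else 0 := by
        intro x
        by_cases hx : x = 1
        · rw [if_pos hx, finsum_eq_if, if_pos (by rw [hx])]
        · rw [if_neg hx, finsum_eq_if, if_neg]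
          intro h
          exact hx (isConj_one_left.mp h)
      rw [finsum_congr this, finsum_eq_single _ (1 : K)]
      · rw [if_pos rfl]
      · intro x hx
        rw [if_neg hx]
    rw [h1, sub_zero] at hm2
    have : m = 1 := Subtype.ext hm2
    rwa [this] at hm
  · intro Q hQ _
    have h1 : Nat.card Q ∣ 6 := by
      rw [← card_K]
      exact Subgroup.card_subgroup_dvd_card Q
    have : Fact (Nat.Prime 2) := ⟨Nat.prime_two⟩
    obtain ⟨k, hk⟩ := hQ.exists_card_eq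
    have h2 : Nat.card Q ∣ 2 := by
      have h3 : Nat.Coprime (Nat.card Q) 3 := by
        rw [hk]
        exact Nat.Coprime.pow_left k (by norm_num)
      exact h3.dvd_of_dvd_mul_right (by simpa using h1)
    exact isCyclic_of_card_dvd_prime h2
  · have := Fintype.ofFinite K
    rw [finsum_eq_sum_of_fintype]
    simp

/-- The summand of the trivial chain is positive. -/
theorem summand (𝔐 : Ideal (integralClosure ℤ ℂ)) :
    0 < kd 𝔐 2 (fun _ : S3 × S3 => (1 : ℂ)) 2 (chainStab (∅ : Finset (Subgroup (S3 × S3)))) := by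
  have hst : chainStab (∅ : Finset (Subgroup (S3 × S3))) = ⊤ := by
    unfold chainStab
    simp
  rw [hst]
  unfold kd
  have hfin : Finite {θ : (⊤ : Subgroup (S3 × S3)) → ℂ // IsIrrChar θ ∧ HasDefect 2 θ 2 ∧
      InducesTo 𝔐 ⊤ θ (fun _ : S3 × S3 => (1 : ℂ))} := by
    have := Fintype.ofFinite (⊤ : Subgroup (S3 × S3))
    exact Finite.of_injective
      (β := {χ : (⊤ : Subgroup (S3 × S3)) → ℂ // Pool.Agent.Lib_helper13.IsIrr χ})
      (fun θ => ⟨θ.1, θ.2.1⟩) (fun a b h => by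
        apply Subtype.ext
        have h2 := congrArg
          (fun z : {χ : (⊤ : Subgroup (S3 × S3)) → ℂ // Pool.Agent.Lib_helper13.IsIrr χ} => z.1) h
        exact h2)
  rw [Nat.card_pos_iff]
  refine ⟨⟨⟨fun _ => 1, irr_one _, ⟨1, by norm_num, ?_⟩, fun g => ⟨0, 𝔐.zero_mem, ?_⟩⟩⟩, hfin⟩
  · rw [Subgroup.card_top, Nat.card_prod, card_S3, padicValNat_one_right, add_zero]
    have h36 : (6 * 6 : ℕ) = 2 ^ 2 * 9 := by norm_num
    have : Fact (Nat.Prime 2) := ⟨Nat.prime_two⟩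
    rw [h36, padicValNat.mul (by norm_num) (by norm_num), padicValNat.prime_pow,
      padicValNat.eq_zero_of_not_dvd (by norm_num)]
  · have : indCentral (⊤ : Subgroup (S3 × S3)) (fun _ => (1 : ℂ)) g =
        central (fun _ : S3 × S3 => (1 : ℂ)) g := by
      unfold indCentral central
      congr 1
      exact finsum_comp_equiv (Subgroup.topEquiv (G := S3 × S3)).toEquiv
        (f := fun x => ∑ᶠ (_ : IsConj x g), (1 : ℂ))
    rw [this, sub_self]
    rfl

end Pool.Agent.VAC2.CyclicBlockOfComponent
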