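import Pool.Agent.Results.MP_3f89b9_al.CyclicOuterReduction

/-!
# The hypotheses of CyclicOuterReduction hold for a concrete instance

`ℓ = 2`, `G = X = S_3`, `Ω` a point, `A = Inn(S_3)`; the trivial character has positive defect.
-/

set_option autoImplicit false

namespace Pool.Agent.VAC2.COR

open Pool.Agent.DPC hiding LocalDade
open Pool.Agent.Lib_helper13.Dade Pool.Agent.RCO
open Pool.Agent.Results.MP_3f89b9_al.CyclicOuterReduction

abbrev S3 : Type := Equiv.Perm (Fin 3)

theorem center_S3 : Subgroup.center S3 = ⊥ := by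
  rw [Subgroup.eq_bot_iff_forall]
  intro z hz
  rw [Subgroup.mem_center_iff] at hz
  revert z
  decide

set_option maxRecDepth 10000 in
theorem key : ∀ g : S3, g ≠ 1 → ∃ c : S3, (g * (c * g * c⁻¹)) ^ 3 = 1 ∧ g * (c * g * c⁻¹) ≠ 1 := by
  decide

theorem core_S3 : pCore 2 S3 = ⊥ := by
  rw [pCore, sSup_eq_bot]
  rintro N ⟨hN, hp⟩
  rw [Subgroup.eq_bot_iff_forall]
  intro g hg
  by_contra hne
  obtain ⟨c, h1, h2⟩ := key g hne
  have hm : g * (c * g * c⁻¹) ∈ N := N.mul_mem hg (hN.conj_mem g hg c)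
  obtain ⟨k, hk⟩ := hp ⟨_, hm⟩
  have hk' : (g * (c * g * c⁻¹)) ^ 2 ^ k = 1 := by
    have := congrArg Subtype.val hk
    simpa using this
  apply h2
  have h3 : orderOf (g * (c * g * c⁻¹)) ∣ 3 := orderOf_dvd_of_pow_eq_one h1
  have h4 : orderOf (g * (c * g * c⁻¹)) ∣ 2 ^ k := orderOf_dvd_of_pow_eq_one hk'
  have h5 : Nat.Coprime 3 (2 ^ k) := Nat.Coprime.pow_right k (by norm_num)
  rw [← orderOf_eq_one_iff]
  exact Nat.eq_one_of_dvd_coprimes h5 h3 h4

theorem even_comm : ∀ a b : S3, Equiv.Perm.sign a = 1 → Equiv.Perm.sign b = 1 → a * b = b * a := by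
  decide

instance solvable_S3 : Group.IsSolvable S3 := by
  have h1 : Group.IsSolvable (Equiv.Perm.sign : S3 →* ℤˣ).ker :=
    Group.isSolvable_of_comm fun a b => Subtype.ext (even_comm a b a.2 b.2)
  have h2 : Group.IsSolvable ℤˣ := Group.isSolvable_of_comm fun a b => mul_comm a b
  exact Group.isSolvable_of_ker_le_range (Subgroup.subtype _) (Equiv.Perm.sign : S3 →* ℤˣ)
    (by rw [Subgroup.range_subtype])

theorem sections_S3 (ℓ : ℕ) : CyclicSections ℓ S3 := by
  intro U S _ g hg hS hab Q _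
  exfalso
  have h1 : Group.IsSolvable S := Group.isSolvable_of_surjective hg
  obtain ⟨a, b, hne⟩ := hab
  exact hne ((IsSimpleGroup.comm_iff_isSolvable.2 h1) a b)

/-- The embedding. -/
def em : (Unit → S3) →* S3 := Pi.evalMonoidHom (fun _ : Unit => S3) ()

theorem coords_em : Coords em ((MulAut.conj : S3 →* MulAut S3).range ⊔ Subgroup.zpowers 1) := by
  refine ⟨fun x y h => funext fun i => ?_, fun y => ⟨1, fun _ => MulAut.conj y, fun _ => ?_, ?_⟩⟩
  · exact h
  · exact Subgroup.mem_sup_left ⟨y, rfl⟩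
  · intro x
    rfl

/-- The hypotheses of part A are satisfied. -/
theorem applies : PositiveDefect 2 em ∧ DefectZero 2 em ∧ Equivalence 2 em ∧ Inheritance 2 em :=
  (result 2 Nat.prime_two).1 S3 center_S3 core_S3 1 _ rfl (Or.inl (sections_S3 2)) S3 Unit em
    coords_em

/-- The trivial character. -/
theorem irr_one : IsIrrChar (fun _ : S3 => (1 : ℂ)) := by
  have h : ∀ g : S3, (Representation.trivial ℂ S3 (Fin 1 → ℂ)).character g = 1 := by
    intro g
    simp [Representation.character]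
  refine ⟨1, Representation.trivial ℂ S3 (Fin 1 → ℂ), ?_, funext h⟩
  apply Pool.Agent.Lib_helper13.irreducible_of_sum
  simp [h]

theorem defect_one : ¬ HasDefect 2 (fun _ : S3 => (1 : ℂ)) 0 := by
  rintro ⟨n, h1, h2⟩
  have h1' : (1 : ℂ) = n := h1
  have h3 : n = 1 := by exact_mod_cast h1'.symm
  subst h3
  have h4 : Nat.card S3 = 6 := by
    rw [Nat.card_eq_fintype_card, Fintype.card_perm, Fintype.card_fin]
    rfl
  rw [h4, padicValNat_one_right, zero_add] at h2
  have h5 : padicValNat 2 6 = 1 := by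
    rw [show (6 : ℕ) = 2 * 3 from rfl, padicValNat.mul (by norm_num) (by norm_num)]
    rw [padicValNat_self, padicValNat.eq_zero_of_not_dvd (by norm_num)]
  omega

/-- (1) is about existing characters: the principal block of `S_3` for `ℓ = 2`. -/
theorem principal (𝔐 : Ideal (integralClosure ℤ ℂ)) (h : 𝔐.IsMaximal)
    (h2 : ((2 : ℕ) : integralClosure ℤ ℂ) ∈ 𝔐) (d : ℕ) :
    dadeSum 𝔐 2 (fun _ : S3 => (1 : ℂ)) d = 0 := by
  refine applies.1 (fun _ _ => 1) (fun _ => irr_one) ⟨(), defect_one⟩ _ irr_one ?_ 𝔐 h h2 d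
  unfold Over
  rw [finsum_eq_sum_of_fintype]
  simp

end Pool.Agent.VAC2.COR
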