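import Mathlib
import Pool.Agent.Lib_helper13.DadeDefs
import Pool.Agent.Lib_helper13.CharBasic

/-!
# Certificate of non-vacuity for MP_3f89b9_al, NoncyclicSocleReduction (helper3)

The theorem: if the alternating sums of certain central extensions of the `Critical` sections of `X` vanish, then
`DadeHolds ℓ X`. Here:

* `ideals`: for every prime `ℓ` there is a maximal ideal `𝔐` over `ℓ`, so the outer quantifier of `DadeHolds` is not empty;
* `S3`: for `X = S₃`, `ℓ = 2` the hypotheses hold (`O₂(X) ≤ Z(X)`, no `Critical` section, so nothing is assumed), the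
  principal block satisfies the premise of `DadeHolds` (defect groups larger than `O₂(X)`), and the term of the chain of
  length `0` in the alternating sum is not `0`: the conclusion says that something cancels it;
* `C2`: for the group of order two (where the premise on the defect groups fails) the alternating sum is not `0`: the
  vanishing is a real condition;
* `A5`: `(A₅, A₅)` is `Critical` for `ℓ = 2`, and `Y = A₅` satisfies all the conditions on `Y`.
-/

set_option autoImplicit false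

namespace Pool.Agent.VAC2.NoncyclicSocleReduction

open Pool.Agent.Lib_helper13.Dade

/-- verbatim from the hand-in -/
def Critical (ℓ : ℕ) (A : Type) [Group A] (S : Subgroup A) : Prop :=
  S.Normal ∧ IsSimpleGroup S ∧ (∃ a ∈ S, ∃ b ∈ S, a * b ≠ b * a) ∧
    (∃ Q : Subgroup A, Q ≤ S ∧ IsPGroup ℓ Q ∧ ¬ IsCyclic Q) ∧
    Subgroup.centralizer (S : Set A) = ⊥ ∧
    ∃ (P M : Subgroup A) (_ : P.Normal), M.Normal ∧ S ≤ P ∧ S ≤ M ∧
      (∀ x ∈ P, ∃ k : ℕ, x ^ ℓ ^ k ∈ S) ∧ ¬ ℓ ∣ P.index ∧ Group.IsNilpotent (A ⧸ P) ∧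
      (∃ x y : A, Subgroup.closure {x, y} ⊔ P = ⊤) ∧ (∀ x ∈ M, x ^ ℓ ∈ S → x ∈ S) ∧
      ∀ x y : A, x * y * x⁻¹ * y⁻¹ ∈ P ⊔ M

theorem ideals (ℓ : ℕ) (hℓ : ℓ.Prime) :
    ∃ 𝔐 : Ideal (integralClosure ℤ ℂ), 𝔐.IsMaximal ∧ (ℓ : integralClosure ℤ ℂ) ∈ 𝔐 := by
  have hne : Ideal.span {(ℓ : integralClosure ℤ ℂ)} ≠ ⊤ := by
    intro h
    rw [Ideal.span_singleton_eq_top] at h
    obtain ⟨u, hu⟩ := h.exists_right_inv
    have h1 : (ℓ : ℂ) * (u : ℂ) = 1 := by
      have := congrArg (fun x : integralClosure ℤ ℂ => (x : ℂ)) hu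
      simpa using this
    have hl0 : (ℓ : ℂ) ≠ 0 := by exact_mod_cast hℓ.ne_zero
    have h2 : (u : ℂ) = algebraMap ℚ ℂ ((ℓ : ℚ)⁻¹) := by
      rw [map_inv₀, map_natCast]
      field_simp
      linear_combination h1
    have h3 : IsIntegral ℤ (u : ℂ) := u.2
    rw [h2, isIntegral_algebraMap_iff (algebraMap ℚ ℂ).injective] at h3
    obtain ⟨y, hy⟩ := IsIntegrallyClosed.isIntegral_iff.1 h3
    have h4 : (y : ℚ) * ℓ = 1 := by
      have h5 : (y : ℚ) = (ℓ : ℚ)⁻¹ := by simpa using hy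
      rw [h5, inv_mul_cancel₀ (by exact_mod_cast hℓ.ne_zero)]
    have h5 : y * (ℓ : ℤ) = 1 := by exact_mod_cast h4
    have h6 : (ℓ : ℤ) ∣ 1 := Dvd.intro_left y h5
    have h7 := Int.natCast_dvd_natCast.1 (by exact_mod_cast h6 : (ℓ : ℤ) ∣ ((1 : ℕ) : ℤ))
    exact hℓ.one_lt.ne' (Nat.dvd_one.1 h7)
  obtain ⟨𝔐, h𝔐, hle⟩ := Ideal.exists_le_maximal _ hne
  exact ⟨𝔐, h𝔐, hle (Ideal.mem_span_singleton_self _)⟩

/-- The trivial character is irreducible. -/
theorem one_irr (H : Type) [Group H] [Finite H] : IsIrrChar (fun _ : H => (1 : ℂ)) := by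
  have : Fintype H := Fintype.ofFinite H
  refine ⟨1, Representation.trivial ℂ H (Fin 1 → ℂ), ?_, ?_⟩
  · apply Pool.Agent.Lib_helper13.irreducible_of_sum
    simp [Representation.character, Representation.trivial]
  · funext g
    simp [Representation.character, Representation.trivial]

theorem pCore_eq_bot {G : Type} [Group G] (ℓ : ℕ)
    (h : ∀ N : Subgroup G, N.Normal → IsPGroup ℓ N → N = ⊥) : pCore ℓ G = ⊥ := by
  unfold pCore
  rw [sSup_eq_bot]
  rintro N ⟨h1, h2⟩
  exact h N h1 h2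

set_option maxRecDepth 10000 in
theorem key3 : ∀ x : Equiv.Perm (Fin 3), x ≠ 1 → ∃ g : Equiv.Perm (Fin 3),
    (g * x * g⁻¹ * x) ≠ 1 ∧ (g * x * g⁻¹ * x) ^ 3 = 1 := by decide

/-- `O₂(S₃) = 1` -/
theorem pCore_S3 : pCore 2 (Equiv.Perm (Fin 3)) = ⊥ := by
  refine pCore_eq_bot 2 fun N hN hp => ?_
  rw [Subgroup.eq_bot_iff_forall]
  intro x hx
  by_contra hx1
  obtain ⟨g, h1, h2⟩ := key3 x hx1
  have hy : g * x * g⁻¹ * x ∈ N := N.mul_mem (hN.conj_mem x hx g) hx
  obtain ⟨k, hk⟩ := hp ⟨_, hy⟩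
  have hk' : (g * x * g⁻¹ * x) ^ 2 ^ k = 1 := by
    have := congrArg (Subtype.val) hk
    simpa using this
  have h3 : orderOf (g * x * g⁻¹ * x) ∣ Nat.gcd 3 (2 ^ k) :=
    Nat.dvd_gcd (orderOf_dvd_of_pow_eq_one h2) (orderOf_dvd_of_pow_eq_one hk')
  have h4 : Nat.gcd 3 (2 ^ k) = 1 := Nat.Coprime.pow_right k (by norm_num)
  rw [h4, Nat.dvd_one, orderOf_eq_one_iff] at h3
  exact h1 h3

theorem card_S3 : Nat.card (Equiv.Perm (Fin 3)) = 6 := by
  rw [Nat.card_eq_fintype_card, Fintype.card_perm]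
  rfl

/-- The number of irreducible characters of a subgroup of defect `d` in a block is finite and not `0` if one is known. -/
theorem kd_ne_zero {G : Type} [Group G] [Finite G] (𝔐 : Ideal (integralClosure ℤ ℂ)) (ℓ : ℕ) (χ : G → ℂ) (d : ℕ)
    (S : Subgroup G) (θ : S → ℂ) (h1 : IsIrrChar θ) (h2 : HasDefect ℓ θ d) (h3 : InducesTo 𝔐 S θ χ) :
    kd 𝔐 ℓ χ d S ≠ 0 := by
  have : Fintype S := Fintype.ofFinite S
  have hfin : Finite {θ : S → ℂ // IsIrrChar θ ∧ HasDefect ℓ θ d ∧ InducesTo 𝔐 S θ χ} :=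
    ((Pool.Agent.Lib_helper13.finite_isIrr (H := S)).subset (fun θ hθ => hθ.1) :
      {θ : S → ℂ | IsIrrChar θ ∧ HasDefect ℓ θ d ∧ InducesTo 𝔐 S θ χ}.Finite).to_subtype
  have : Nonempty {θ : S → ℂ // IsIrrChar θ ∧ HasDefect ℓ θ d ∧ InducesTo 𝔐 S θ χ} := ⟨⟨θ, h1, h2, h3⟩⟩
  unfold kd
  exact Nat.card_pos.ne'

/-- The trivial character of the whole group lies in the block of the trivial character. -/
theorem top_induces {G : Type} [Group G] [Finite G] (𝔐 : Ideal (integralClosure ℤ ℂ)) (S : Subgroup G) (hS : S = ⊤) :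
    InducesTo 𝔐 S (fun _ => 1) (fun _ : G => (1 : ℂ)) := by
  subst hS
  intro g
  refine ⟨0, 𝔐.zero_mem, ?_⟩
  have e : indCentral (⊤ : Subgroup G) (fun _ => 1) g = central (fun _ : G => (1 : ℂ)) g := by
    unfold indCentral central
    congr 1
    exact finsum_comp_equiv (Subgroup.topEquiv (G := G)).toEquiv (f := fun x : G => ∑ᶠ _ : IsConj x g, (1 : ℂ))
  rw [e, sub_self]
  rfl

/-- All the hypotheses of the theorem hold for `X = S₃`, `ℓ = 2`, and its principal block is one of those of which the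
conclusion speaks; the term of the chain of length `0` in its alternating sum is not `0`. -/
theorem S3 :
    pCore 2 (Equiv.Perm (Fin 3)) ≤ Subgroup.center (Equiv.Perm (Fin 3)) ∧
    (∀ (A : Type) [Group A] (S : Subgroup A), Critical 2 A S →
      ¬ ∃ (T : Subgroup (Equiv.Perm (Fin 3))) (g : T →* A), Function.Surjective g) ∧
    ∀ 𝔐 : Ideal (integralClosure ℤ ℂ), 𝔐.IsMaximal → ((2 : ℕ) : integralClosure ℤ ℂ) ∈ 𝔐 →
      IsIrrChar (fun _ : Equiv.Perm (Fin 3) => (1 : ℂ)) ∧
      (∃ (χ' : Equiv.Perm (Fin 3) → ℂ) (e : ℕ), IsIrrChar χ' ∧ SameBlock 𝔐 χ' (fun _ => 1) ∧ HasDefect 2 χ' e ∧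
        Nat.card (pCore 2 (Equiv.Perm (Fin 3))) < 2 ^ e) ∧
      kd 𝔐 2 (fun _ : Equiv.Perm (Fin 3) => (1 : ℂ)) 1 (chainStab ∅) ≠ 0 := by
  refine ⟨by rw [pCore_S3]; exact bot_le, ?_, ?_⟩
  · rintro A _ S ⟨-, -, -, ⟨Q, -, hQ, hc⟩, -⟩ ⟨T, g, hg⟩
    apply hc
    have hfA : Finite A := Finite.of_surjective g hg
    have h1 : Nat.card A ∣ Nat.card T := Subgroup.card_dvd_of_surjective g hg
    have h2 : Nat.card T ∣ 6 := card_S3 ▸ Subgroup.card_subgroup_dvd_card T
    have h3 : Nat.card Q ∣ 6 := (Subgroup.card_subgroup_dvd_card Q).trans (h1.trans h2)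
    have : Fact (Nat.Prime 2) := ⟨Nat.prime_two⟩
    obtain ⟨k, hk⟩ := IsPGroup.iff_card.1 hQ
    have hk1 : k ≤ 1 := by
      by_contra hk1
      have h4 : 2 ^ 2 ∣ 6 := (pow_dvd_pow 2 (by omega : 2 ≤ k)).trans (hk ▸ h3)
      norm_num at h4
    interval_cases k
    · have : Subsingleton Q := (Nat.card_eq_one_iff_unique.1 (by simpa using hk)).1
      exact isCyclic_of_subsingleton
    · exact isCyclic_of_prime_card (by simpa using hk)
  · intro 𝔐 _ _
    have h61 : padicValNat 2 6 = 1 := by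
      have : Fact (Nat.Prime 2) := ⟨Nat.prime_two⟩
      rw [show 6 = 2 ^ 1 * 3 by norm_num, padicValNat.mul (by norm_num) (by norm_num), padicValNat.prime_pow,
        padicValNat.eq_zero_of_not_dvd (by norm_num)]
    have hd : HasDefect 2 (fun _ : Equiv.Perm (Fin 3) => (1 : ℂ)) 1 := by
      refine ⟨1, by simp, ?_⟩
      rw [card_S3, h61]
      simp
    refine ⟨one_irr _, ⟨_, 1, one_irr _, fun g => ⟨0, 𝔐.zero_mem, by simp⟩, hd, ?_⟩, ?_⟩
    · rw [pCore_S3]
      simp
    · have hst : chainStab (∅ : Finset (Subgroup (Equiv.Perm (Fin 3)))) = ⊤ := by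
        simp [chainStab]
      refine kd_ne_zero 𝔐 2 _ 1 _ (fun _ => 1) (one_irr _) ⟨1, by simp, ?_⟩ (top_induces 𝔐 _ hst)
      rw [hst, Nat.card_congr (Subgroup.topEquiv (G := Equiv.Perm (Fin 3))).toEquiv, card_S3, h61]
      simp

/-- For the group of order two (whose blocks have the defect group `O₂`, so that they are excluded by the premise) the
alternating sum is not `0`. -/
theorem C2 (𝔐 : Ideal (integralClosure ℤ ℂ)) :
    dadeSum 𝔐 2 (fun _ : Multiplicative (ZMod 2) => (1 : ℂ)) 1 ≠ 0 := by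
  have hcard : Nat.card (Multiplicative (ZMod 2)) = 2 := by
    rw [Nat.card_eq_fintype_card, Fintype.card_multiplicative, ZMod.card]
  have : Fact (Nat.Prime 2) := ⟨Nat.prime_two⟩
  have hp : pCore 2 (Multiplicative (ZMod 2)) = ⊤ := by
    refine top_le_iff.1 (le_sSup ⟨inferInstance, ?_⟩)
    refine IsPGroup.of_card (n := 1) ?_
    rw [Nat.card_congr (Subgroup.topEquiv (G := Multiplicative (ZMod 2))).toEquiv, hcard, pow_one]
  have hsub : ∀ σ : {σ : Finset (Subgroup (Multiplicative (ZMod 2))) // IsLChain 2 σ}, σ.1 = ∅ := by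
    intro σ
    rw [Finset.eq_empty_iff_forall_notMem]
    intro D hD
    have := (σ.2.1 D hD).2
    rw [hp] at this
    exact not_top_lt this
  have h0 : IsLChain 2 (∅ : Finset (Subgroup (Multiplicative (ZMod 2)))) :=
    ⟨fun D hD => absurd hD (Finset.notMem_empty D), fun D hD => absurd hD (Finset.notMem_empty D)⟩
  have hu : Unique (Quotient (chainSetoid 2 (Multiplicative (ZMod 2)))) :=
    { default := Quotient.mk _ ⟨∅, h0⟩
      uniq := by
        intro o
        induction o using Quotient.inductionOn with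
        | h σ =>
          congr 1
          exact Subtype.ext (hsub σ) }
  unfold dadeSum
  rw [finsum_unique, hsub]
  have hst : chainStab (∅ : Finset (Subgroup (Multiplicative (ZMod 2)))) = ⊤ := by
    simp [chainStab]
  have hk := kd_ne_zero 𝔐 2 (fun _ : Multiplicative (ZMod 2) => (1 : ℂ)) 1 (chainStab ∅) (fun _ => 1) (one_irr _)
    ⟨1, by simp, by
      rw [hst, Nat.card_congr (Subgroup.topEquiv (G := Multiplicative (ZMod 2))).toEquiv, hcard]
      simp⟩ (top_induces 𝔐 _ hst)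
  rw [Finset.card_empty, pow_zero, one_mul]
  exact_mod_cast hk

abbrev A5 : Type := alternatingGroup (Fin 5)

theorem a5_comm : ∃ a b : A5, a * b ≠ b * a := by
  refine ⟨⟨Equiv.swap 0 1 * Equiv.swap 1 2, Equiv.Perm.mem_alternatingGroup.2 (by decide)⟩,
    ⟨Equiv.swap 0 1 * Equiv.swap 1 3, Equiv.Perm.mem_alternatingGroup.2 (by decide)⟩, ?_⟩
  intro h
  have h1 := congrArg Subtype.val h
  revert h1
  decide

set_option maxRecDepth 100000 in
theorem a5_four : ∀ x : Equiv.Perm (Fin 5), Equiv.Perm.sign x = 1 → x ^ 4 = 1 → x ^ 2 = 1 := by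
  decide

theorem a5_card : Nat.card A5 = 60 := by
  rw [Nat.card_eq_fintype_card]
  have h := two_mul_card_alternatingGroup (α := Fin 5)
  rw [Fintype.card_perm, Fintype.card_fin] at h
  have h2 : Nat.factorial 5 = 120 := rfl
  rw [h2] at h
  change Fintype.card (alternatingGroup (Fin 5)) = 60
  omega

theorem a5_center : Subgroup.center A5 = ⊥ := by
  have hs : IsSimpleGroup A5 := alternatingGroup.isSimpleGroup_five
  rcases hs.eq_bot_or_eq_top_of_normal (Subgroup.center A5) inferInstance with h | h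
  · exact h
  · exfalso
    obtain ⟨a, b, hab⟩ := a5_comm
    exact hab ((Subgroup.mem_center_iff.1 (h ▸ Subgroup.mem_top b)) a)

theorem a5_pCore : pCore 2 A5 = ⊥ := by
  have hs : IsSimpleGroup A5 := alternatingGroup.isSimpleGroup_five
  refine pCore_eq_bot 2 fun N hN hp => ?_
  rcases hs.eq_bot_or_eq_top_of_normal N hN with h | h
  · exact h
  · exfalso
    subst h
    have : Fact (Nat.Prime 2) := ⟨Nat.prime_two⟩
    obtain ⟨k, hk⟩ := IsPGroup.iff_card.1 hp
    rw [Nat.card_congr (Subgroup.topEquiv (G := A5)).toEquiv, a5_card] at hk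
    have h3 : 3 ∣ 2 ^ k := hk ▸ (by norm_num)
    have h4 := (Nat.prime_dvd_prime_iff_eq Nat.prime_three Nat.prime_two).1 (Nat.prime_three.dvd_of_dvd_pow h3)
    omega

/-- `(A₅, A₅)` is `Critical` for `ℓ = 2`, and `Y = A₅` has all the properties of the groups `Y` of the hypothesis. -/
theorem critical_A5 : Critical 2 A5 ⊤ ∧
    ∃ π : A5 →* A5, Function.Surjective π ∧ π.ker = Subgroup.center A5 ∧ IsCyclic (Subgroup.center A5) ∧
      Subgroup.center A5 ≤ commutator A5 ∧ pCore 2 A5 ≤ Subgroup.center A5 := by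
  have hs : IsSimpleGroup A5 := alternatingGroup.isSimpleGroup_five
  obtain ⟨a, b, hab⟩ := a5_comm
  refine ⟨⟨inferInstance, ?_, ⟨a, Subgroup.mem_top a, b, Subgroup.mem_top b, hab⟩, ?_, ?_,
    ⊤, ⊤, inferInstance, inferInstance, le_rfl, le_rfl, fun x _ => ⟨0, Subgroup.mem_top _⟩, ?_, ?_, ⟨1, 1, by simp⟩,
    fun x _ _ => Subgroup.mem_top x, fun x y => by simp⟩, MonoidHom.id A5, Function.surjective_id, ?_, ?_, ?_, ?_⟩
  · have : Nontrivial (⊤ : Subgroup A5) := (Subgroup.topEquiv (G := A5)).toEquiv.nontrivial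
    exact IsSimpleGroup.isSimpleGroup_of_surjective (Subgroup.topEquiv (G := A5)).symm.toMonoidHom
      (Subgroup.topEquiv (G := A5)).symm.surjective
  · have : Fact (Nat.Prime 2) := ⟨Nat.prime_two⟩
    obtain ⟨Q, hQ⟩ := Sylow.exists_subgroup_card_pow_prime (G := A5) 2 (n := 2)
      (by rw [a5_card]; norm_num)
    refine ⟨Q, le_top, IsPGroup.of_card hQ, fun hc => ?_⟩
    obtain ⟨g, hg⟩ := IsCyclic.exists_ofOrder_eq_natCard (α := Q)
    rw [hQ] at hg
    have h4 : (g : A5) ^ 4 = 1 := by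
      have := pow_orderOf_eq_one g
      rw [hg] at this
      exact_mod_cast congrArg (Subtype.val) this
    have h5 : ((g : A5) : Equiv.Perm (Fin 5)) ^ 4 = 1 := by
      exact_mod_cast congrArg (Subtype.val) h4
    have h6 := a5_four _ (Equiv.Perm.mem_alternatingGroup.1 (g : A5).2) h5
    have h7 : g ^ 2 = 1 := Subtype.ext (Subtype.ext (by exact_mod_cast h6))
    have h8 := orderOf_dvd_of_pow_eq_one h7
    rw [hg] at h8
    norm_num at h8
  · rw [Subgroup.coe_top, Subgroup.centralizer_univ, a5_center]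
  · rw [Subgroup.index_top]
    norm_num
  · have : Subsingleton (A5 ⧸ (⊤ : Subgroup A5)) := QuotientGroup.subsingleton_quotient_top
    infer_instance
  · rw [MonoidHom.ker_id, a5_center]
  · rw [a5_center]
    infer_instance
  · rw [a5_center]
    exact bot_le
  · rw [a5_pCore]
    exact bot_le

end Pool.Agent.VAC2.NoncyclicSocleReduction
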