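import Mathlib
import Pool.Agent.Lib_helper13.DadeDefs
import Pool.Agent.Lib_helper13.RigidDefs
import Pool.Agent.Lib_helper13.CharBasic
import Pool.Agent.Lib_helper13.MatSymLib
import Pool.Agent.VAC2.MP_3f89b9_al_NoncyclicSocleReduction

/-!
# Certificate of non-vacuity for MP_3f89b9_al, Rigidity (helper38)

The hand-in: eight statements, the first one of which is Dade's conjecture for the groups with
`O_ℓ(G) = 1`, are equivalent. Here:

* `ideals'`: there is a maximal ideal `𝔐` over `ℓ`, so the outer quantifier of `ForSums` is not empty;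
* `large`: for every finite `G` with `O_ℓ(G) = 1` and `ℓ ∣ |G|` the principal block is one of those of
  which `ForSums` speaks (`LargeBlock`), and the term of the chain of length `0` is not `0` for the
  defect `d = v_ℓ(|G|)`;
* `matSym`: this applies to all the groups `X_m = MatSym m r` with `m ≥ ℓ`: the conditions (5)-(8)
  speak about nonempty sets of sums for all these `m`;
* `real_condition`, `real_condition_all`: `ForSums` is not vacuously true for any `X_m`, `m ≥ ℓ`, and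
  `AllSums` speaks about groups of arbitrarily large order;
* `sums_finite`: the index set of the alternating sum is finite, so the `finsum` is no junk value;
* `bounds`: the bounds `exp (ε m)` of (6), (7) are far below the order `r ^ (m ^ 2) * m!` of the group
  (the sums are not trivially below them).
-/

set_option autoImplicit false

namespace Pool.Agent.VAC2.Rigidity

open Pool.Agent.Lib_helper13 Pool.Agent.Lib_helper13.Dade
open Pool.Agent.VAC2.NoncyclicSocleReduction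

theorem ideals' (ℓ : ℕ) (hℓ : ℓ.Prime) :
    ∃ 𝔐 : Ideal (integralClosure ℤ ℂ), 𝔐.IsMaximal ∧ (ℓ : integralClosure ℤ ℂ) ∈ 𝔐 :=
  ideals ℓ hℓ

theorem large {ℓ : ℕ} (hℓ : ℓ.Prime) {G : Type} [Group G] [Finite G] (hG : pCore ℓ G = ⊥)
    (hd : ℓ ∣ Nat.card G) (𝔐 : Ideal (integralClosure ℤ ℂ)) :
    IsIrrChar (fun _ : G => (1 : ℂ)) ∧ LargeBlock 𝔐 ℓ (fun _ : G => (1 : ℂ)) ∧
      kd 𝔐 ℓ (fun _ : G => (1 : ℂ)) (padicValNat ℓ (Nat.card G)) (chainStab ∅) ≠ 0 := by
  have : Fact ℓ.Prime := ⟨hℓ⟩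
  have h1 : 1 ≤ padicValNat ℓ (Nat.card G) :=
    one_le_padicValNat_of_dvd Nat.card_pos.ne' hd
  have hdef : Dade.HasDefect ℓ (fun _ : G => (1 : ℂ)) (padicValNat ℓ (Nat.card G)) :=
    ⟨1, by simp, by simp⟩
  refine ⟨one_irr _, ⟨_, _, one_irr _, fun g => ⟨0, 𝔐.zero_mem, by simp⟩, hdef, ?_⟩, ?_⟩
  · rw [hG, Subgroup.card_bot]
    exact Nat.one_lt_pow (by omega) hℓ.one_lt
  · have hst : chainStab (∅ : Finset (Subgroup G)) = ⊤ := by simp [chainStab]
    refine kd_ne_zero 𝔐 ℓ _ _ _ (fun _ => 1) (one_irr _) ⟨1, by simp, ?_⟩ (top_induces 𝔐 _ hst)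
    rw [hst, Nat.card_congr (Subgroup.topEquiv (G := G)).toEquiv]
    simp

theorem card_matSym (m r : ℕ) [NeZero r] :
    Nat.card (MatSym m r) = r ^ (m * m) * m.factorial := by
  rw [SemidirectProduct.card, Nat.card_eq_fintype_card, Nat.card_eq_fintype_card,
    Fintype.card_perm, Fintype.card_fin, Fintype.card_fun, Fintype.card_prod,
    Fintype.card_multiplicative, ZMod.card, Fintype.card_fin]

/-- the groups of the conditions (5)-(8) have a block of the kind in question as soon as `m ≥ ℓ` -/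
theorem matSym {ℓ : ℕ} (hℓ : ℓ.Prime) {r : ℕ} (hr : 2 ≤ r) (hc : ℓ.Coprime r) {m : ℕ} (hm : ℓ ≤ m)
    (𝔐 : Ideal (integralClosure ℤ ℂ)) :
    LargeBlock 𝔐 ℓ (fun _ : MatSym m r => (1 : ℂ)) ∧
      kd 𝔐 ℓ (fun _ : MatSym m r => (1 : ℂ)) (padicValNat ℓ (Nat.card (MatSym m r)))
        (chainStab ∅) ≠ 0 := by
  have : Fact ℓ.Prime := ⟨hℓ⟩
  have : NeZero r := ⟨by omega⟩
  refine (large hℓ (pCore_matSym hc hr) ?_ 𝔐).2
  rw [card_matSym]
  exact Dvd.dvd.mul_left ((hℓ.dvd_factorial).2 hm) _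

theorem real_condition {ℓ : ℕ} (hℓ : ℓ.Prime) {r : ℕ} (hr : 2 ≤ r) (hc : ℓ.Coprime r) {m : ℕ}
    (hm : ℓ ≤ m) (P : ℤ → Prop) (h : ForSums ℓ (MatSym m r) P) : ∃ s : ℤ, P s := by
  have : NeZero r := ⟨by omega⟩
  obtain ⟨𝔐, h1, h2⟩ := ideals ℓ hℓ
  exact ⟨_, h 𝔐 h1 h2 _ (one_irr _) (matSym hℓ hr hc hm 𝔐).1 0⟩

theorem real_condition_all {ℓ : ℕ} (hℓ : ℓ.Prime) (P : ℕ → ℤ → Prop) (h : AllSums ℓ P) :
    ∀ N : ℕ, ∃ n ≥ N, ∃ s : ℤ, P n s := by
  intro N
  obtain ⟨r, hr, hc⟩ : ∃ r : ℕ, 2 ≤ r ∧ ℓ.Coprime r :=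
    ⟨ℓ + 1, by have := hℓ.two_le; omega, by simp⟩
  have : Fact ℓ.Prime := ⟨hℓ⟩
  have : NeZero r := ⟨by omega⟩
  set m := N + ℓ with hm
  refine ⟨Nat.card (MatSym m r), ?_, real_condition hℓ hr hc (by omega : ℓ ≤ m) _
    (h (MatSym m r) (pCore_matSym hc hr))⟩
  rw [card_matSym]
  have h1 : m ≤ m.factorial := Nat.self_le_factorial m
  have h2 : 1 ≤ r ^ (m * m) := Nat.one_le_pow _ _ (by omega)
  nlinarith

/-- the index set of the alternating sum is finite -/
theorem sums_finite (ℓ : ℕ) (G : Type) [Group G] [Finite G] : Finite (Quotient (chainSetoid ℓ G)) := by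
  have : Finite (Finset (Subgroup G)) := by
    have : Finite (Set (Subgroup G)) := inferInstance
    exact Finite.of_injective (fun s : Finset (Subgroup G) => (s : Set (Subgroup G)))
      Finset.coe_injective
  infer_instance

theorem bounds {r : ℕ} (hr : 2 ≤ r) (ε : ℝ) : ∃ M : ℕ, ∀ m ≥ M,
    Real.exp (ε * m) < (r : ℝ) ^ (m * m) := by
  obtain ⟨M, hM⟩ := exists_nat_gt (ε / Real.log 2)
  have hl : 0 < Real.log 2 := Real.log_pos (by norm_num)
  refine ⟨M + 1, fun m hm => ?_⟩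
  have hm1 : (M : ℝ) + 1 ≤ m := by exact_mod_cast hm
  have hm0 : (0 : ℝ) < m := by
    have : (0 : ℝ) ≤ M := Nat.cast_nonneg M
    linarith
  have h1 : ε < m * Real.log 2 := by
    have := (div_lt_iff₀ hl).1 hM
    nlinarith
  calc Real.exp (ε * m) < Real.exp ((m * Real.log 2) * m) :=
        Real.exp_lt_exp.2 (mul_lt_mul_of_pos_right h1 hm0)
    _ = (2 : ℝ) ^ (m * m) := by
        rw [← Real.rpow_natCast, Real.rpow_def_of_pos (by norm_num)]
        congr 1
        push_cast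
        ring
    _ ≤ (r : ℝ) ^ (m * m) := by
        have : (2 : ℝ) ≤ r := by exact_mod_cast hr
        gcongr

end Pool.Agent.VAC2.Rigidity
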