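import Pool.Agent.StarkLoc.SQFK
import Pool.Agent.Stark.PBridgeReg

/-!
# Certificate for `MP_46b841_nt/ClassCharacterRange` (vacuity audit)

* `exists_isTheta`: the data `Θ = λ φ` exist for all `L/K` and `S`, so `StarkRat` and `StarkRatAll`
  are not vacuous.
* `reg_ne_zero`: the regulators of these data are nonzero, so `StarkAt` is not the identity `0 = 0`.
* `starkRat_trivial`: Stark's assertion holds (with `m = 1`) for the trivial character over `ℚ`, all
  `L`, `S`, so it is not false for formal reasons.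
* `instance_first`: `L = ℚ(ζ₂₀)` over the subfield `K = ℚ(√-5)` fixed by `ζ ↦ ζ³`: the inertia groups
  have exponent at most `2`, there is a linear character `ψ` of `Gal(L/K)` of order `4` with values
  in `ℚ(ζ₄)`, not all real; so the first part of the hand-in applies to a character which is not
  rational.
* `instance_not_local`: `L = ℚ(ζ₅)` over `ℚ`: there is a linear character `ψ` with values in
  `ℚ(ζ₄)` for which the local conditions fail, for all `T` and `n`; by the hand-in it does not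
  reduce (`instance_not_reduces`).
-/

set_option autoImplicit false

open NumberField IsDedekindDomain StarkP StarkV StarkK

namespace Pool.Agent.VAC2.ClassCharacterRange

theorem exists_isTheta (K L : Type) [Field K] [NumberField K] [Field L] [NumberField L]
    [Algebra K L] [IsGalois K L] (S : Finset (HeightOneSpectrum (𝓞 K))) :
    ∃ Θ : ((L → ℝ) →₀ ℂ) →ₗ[ℂ] ((L → ℝ) →₀ ℂ),
      StarkP.IsTheta K (StarkP.aboveSet K L S) Θ := by
  obtain ⟨φ, Θ, hφ⟩ := StarkC.ALLT.exph K L S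
  obtain ⟨Θ', h, -⟩ := StarkB.exists_isTheta (K := K) (L := L) S S.finite_toSet φ Θ hφ
  rw [StarkB.aboveSet_eq]
  exact ⟨Θ', h⟩

theorem reg_ne_zero (K L : Type) [Field K] [NumberField K] [Field L] [NumberField L]
    [Algebra K L] [IsGalois K L] (S : Finset (HeightOneSpectrum (𝓞 K)))
    (Θ : ((L → ℝ) →₀ ℂ) →ₗ[ℂ] ((L → ℝ) →₀ ℂ))
    (hΘ : StarkP.IsTheta K (StarkP.aboveSet K L S) Θ)
    (V : Type) [AddCommGroup V] [Module ℂ V] [Module.Finite ℂ V]
    (ρ : Representation ℂ (L ≃ₐ[K] L) V) : StarkP.Reg (StarkP.aboveSet K L S) ρ Θ ≠ 0 := by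
  rw [StarkB.aboveSet_eq] at hΘ ⊢
  obtain ⟨φ, Θ₀, hφ, hR⟩ := StarkB.exists_isPhiTheta (K := K) (L := L) S S.finite_toSet Θ hΘ
  have hfin : (StarkC.aboveSet K L (S : Set (HeightOneSpectrum (𝓞 K)))).Finite :=
    StarkC.IND.aboveSet_finite _ S.finite_toSet
  have hT := StarkC.STB_thm K L (S : Set (HeightOneSpectrum (𝓞 K)))
  obtain ⟨W, _, _, _, B, h1, h2, -⟩ := StarkC.ALLT.rgt K L _ hT Θ₀ V ρ hfin
    (StarkC.ALLT.thc K L _ hT φ Θ₀ hfin hφ) (StarkC.ALLT.thb K L _ φ Θ₀ hfin hφ)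
  rw [hR V ρ, ← h1]
  exact h2

theorem starkRat_trivial (L : Type) [Field L] [NumberField L] [IsGalois ℚ L] (σ : ℂ ≃+* ℂ)
    (S : Finset (HeightOneSpectrum (𝓞 ℚ))) :
    StarkRat S (StarkP.linRep (1 : (L ≃ₐ[ℚ] L) →* ℂˣ))
      (StarkP.linRep (StarkP.twist σ (1 : (L ≃ₐ[ℚ] L) →* ℂˣ))) σ := by
  rw [StarkVB.starkRat_iff]
  intro φ Θ hφ
  exact StarkC.LOC.TRIVA.ofQ σ ℚ L (Module.finrank_self ℚ) 1 rfl S _ rfl φ Θ hφ

/-- characters of finite abelian groups separate -/
theorem exists_char (G : Type) [Group G] [Finite G] (n : ℕ) (e : G ≃* (ZMod n)ˣ) (g : G)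
    (hg : g ≠ 1) : ∃ ψ : G →* ℂˣ, ψ g ≠ 1 := by
  have : Finite (ZMod n)ˣ := Finite.of_equiv G e.toEquiv
  obtain ⟨φ, hφ⟩ := CommGroup.exists_apply_ne_one_of_hasEnoughRootsOfUnity (ZMod n)ˣ ℂ
    (a := e g) (by rwa [ne_eq, map_eq_one_iff e e.injective])
  exact ⟨φ.comp e.toMonoidHom, hφ⟩

theorem mem_cyc (G : Type) [Group G] (hG : ∀ g : G, g ^ 4 = 1) (ψ : G →* ℂˣ) (g : G) :
    (ψ g : ℂ) ∈ cycField 4 := by
  refine IntermediateField.subset_adjoin ℚ _ ?_
  show (ψ g : ℂ) ^ 4 = 1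
  rw [← Units.val_pow_eq_pow_val, ← map_pow, hG, map_one, Units.val_one]

/-! ### The first part: `ℚ(ζ₂₀)` over `ℚ(√-5)` -/

/-- `ℚ(ζ₂₀)` -/
abbrev L20 : Type := CyclotomicField 20 ℚ

instance cyc20 : IsCyclotomicExtension {20} ℚ L20 := by
  have : NeZero ((20 : ℕ) : ℚ) := ⟨by norm_num⟩
  exact CyclotomicField.isCyclotomicExtension 20 ℚ

instance galois20 : IsGalois ℚ L20 := IsCyclotomicExtension.isGalois {20} ℚ L20

noncomputable abbrev gal20 : (L20 ≃ₐ[ℚ] L20) ≃* (ZMod 20)ˣ :=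
  IsCyclotomicExtension.Rat.galEquivZMod 20 L20

def u3 : (ZMod 20)ˣ := ⟨3, 7, by decide, by decide⟩

theorem zpowers_u3 : ∀ u ∈ Subgroup.zpowers u3, u = 1 ∨ u = u3 ∨ u = u3 ^ 2 ∨ u = u3 ^ 3 := by
  rintro u ⟨k, rfl⟩
  have h4 : u3 ^ 4 = 1 := by decide
  show u3 ^ k = 1 ∨ u3 ^ k = u3 ∨ u3 ^ k = u3 ^ 2 ∨ u3 ^ k = u3 ^ 3
  have h : u3 ^ k = u3 ^ (k % 4) := by
    conv_lhs => rw [← Int.emod_add_mul_ediv k 4, zpow_add, zpow_mul]
    have : u3 ^ (4 : ℤ) = 1 := by exact_mod_cast h4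
    rw [this, one_zpow, mul_one]
  rw [h]
  have h1 : 0 ≤ k % 4 := Int.emod_nonneg _ (by norm_num)
  have h2 : k % 4 < 4 := Int.emod_lt_of_pos _ (by norm_num)
  generalize k % 4 = r at h1 h2
  interval_cases r
  · left; simp
  · right; left; simp
  · right; right; left; exact_mod_cast rfl
  · right; right; right; exact_mod_cast rfl

/-- the automorphism `ζ ↦ ζ³` -/
noncomputable def τ : L20 ≃ₐ[ℚ] L20 := gal20.symm u3

/-- the fixed field of `ζ ↦ ζ³` -/
noncomputable abbrev K20 : IntermediateField ℚ L20 :=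
  IntermediateField.fixedField (Subgroup.zpowers τ)

theorem gal_mem (y : L20 ≃ₐ[K20] L20) :
    gal20 (y.restrictScalars ℚ) ∈ Subgroup.zpowers u3 := by
  have h1 : y.restrictScalars ℚ ∈ K20.fixingSubgroup := by
    rw [IntermediateField.mem_fixingSubgroup_iff]
    intro x hx
    exact y.commutes ⟨x, hx⟩
  rw [IntermediateField.fixingSubgroup_fixedField] at h1
  obtain ⟨k, hk⟩ := h1
  refine ⟨k, ?_⟩
  show u3 ^ k = gal20 (y.restrictScalars ℚ)
  rw [← hk]
  show u3 ^ k = gal20 (τ ^ k)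
  rw [map_zpow, τ, MulEquiv.apply_symm_apply]

/-- the root of unity -/
noncomputable def z20 : 𝓞 L20 := (IsCyclotomicExtension.zeta_spec 20 ℚ L20).toInteger

theorem z20_prim : IsPrimitiveRoot z20 20 :=
  (IsCyclotomicExtension.zeta_spec 20 ℚ L20).toInteger_isPrimitiveRoot

theorem z10 : z20 ^ 10 = -1 := by
  have h1 : (z20 ^ 10 - 1) * (z20 ^ 10 + 1) = 0 := by
    have := z20_prim.pow_eq_one
    linear_combination this
  rcases mul_eq_zero.mp h1 with h | h
  · exact absurd (sub_eq_zero.mp h) (z20_prim.pow_ne_one_of_pos_of_lt (by norm_num) (by norm_num))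
  · exact eq_neg_of_add_eq_zero_left h

theorem phi10 (t : 𝓞 L20) (h5 : t ^ 5 = -1) (h1 : t ≠ -1) : (t - 1) * (t ^ 3 + t) = -1 := by
  have h2 : (t + 1) * ((t - 1) * (t ^ 3 + t) + 1) = 0 := by linear_combination h5
  rcases mul_eq_zero.mp h2 with h | h
  · exact absurd (eq_neg_of_add_eq_zero_left h) h1
  · exact eq_neg_of_add_eq_zero_left h

theorem not_in (w : HeightOneSpectrum (𝓞 L20)) (m : ℕ) (h : z20 ^ (m + 1) - z20 ∈ w.asIdeal)
    (h5 : (z20 ^ m) ^ 5 = -1) (h1 : z20 ^ m ≠ -1) : False := by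
  have h2 : z20 ^ m - 1 ∈ w.asIdeal := by
    have h3 := w.asIdeal.mul_mem_left (z20 ^ 19) h
    have h4 : z20 ^ 19 * (z20 ^ (m + 1) - z20) = z20 ^ m - 1 := by
      have := z20_prim.pow_eq_one
      linear_combination (z20 ^ m - 1) * this
    rwa [h4] at h3
  have h3 := w.asIdeal.mul_mem_right ((z20 ^ m) ^ 3 + z20 ^ m) h2
  rw [phi10 _ h5 h1] at h3
  apply w.isPrime.ne_top
  rw [Ideal.eq_top_iff_one]
  simpa using w.asIdeal.neg_mem h3

theorem inertia (w : HeightOneSpectrum (𝓞 L20)) (y : L20 ≃ₐ[K20] L20) (hy : FrobPow L20 w 1 y) :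
    y * y = 1 := by
  have hact : (y.restrictScalars ℚ : L20 ≃ₐ[ℚ] L20) • z20 =
      z20 ^ (gal20 (y.restrictScalars ℚ)).val.val :=
    IsCyclotomicExtension.Rat.galEquivZMod_smul_of_pow_eq 20 L20 _ z20_prim.pow_eq_one
  have h0 : (y.restrictScalars ℚ : L20 ≃ₐ[ℚ] L20) • z20 - z20 ^ 1 ∈ w.asIdeal :=
    hy z20 _ rfl
  rw [hact, pow_one] at h0
  have hsq : gal20 (y.restrictScalars ℚ) * gal20 (y.restrictScalars ℚ) = 1 → y * y = 1 := by
    intro h
    rw [← map_mul, ← map_one gal20] at h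
    have h2 := gal20.injective h
    ext x
    exact DFunLike.congr_fun h2 x
  rcases zpowers_u3 _ (gal_mem y) with h | h | h | h
  · exact hsq (by rw [h]; decide)
  · exfalso
    rw [h] at h0
    refine not_in w 2 h0 ?_ ?_
    · rw [← pow_mul, z10]
    · intro h2
      have : z20 ^ 4 = 1 := by
        have h3 : z20 ^ 4 = (z20 ^ 2) ^ 2 := by ring
        rw [h3, h2]; ring
      exact z20_prim.pow_ne_one_of_pos_of_lt (by norm_num) (by norm_num) this
  · exact hsq (by rw [h]; decide)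
  · exfalso
    rw [h] at h0
    refine not_in w 6 h0 ?_ ?_
    · have h3 : (z20 ^ 6) ^ 5 = (z20 ^ 10) ^ 3 := by ring
      rw [h3, z10]; ring
    · intro h2
      have : z20 ^ 12 = 1 := by
        have h3 : z20 ^ 12 = (z20 ^ 6) ^ 2 := by ring
        rw [h3, h2]; ring
      exact z20_prim.pow_ne_one_of_pos_of_lt (by norm_num) (by norm_num) this

theorem pow_four (y : L20 ≃ₐ[K20] L20) : y ^ 4 = 1 := by
  have h : gal20 (y.restrictScalars ℚ) ^ 4 = 1 := by
    rcases zpowers_u3 _ (gal_mem y) with h | h | h | h <;> rw [h] <;> decide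
  rw [← map_pow, ← map_one gal20] at h
  have h2 := gal20.injective h
  ext x
  exact DFunLike.congr_fun h2 x

theorem not_real (c : ℂ) (h4 : c ^ 4 = 1) (h2 : c ^ 2 ≠ 1) : ¬ ∃ r : ℝ, c = r := by
  rintro ⟨r, rfl⟩
  have h1 : ((r : ℂ) ^ 2 - 1) * ((r : ℂ) ^ 2 + 1) = 0 := by linear_combination h4
  rcases mul_eq_zero.mp h1 with h | h
  · exact h2 (sub_eq_zero.mp h)
  · have h3 : r ^ 2 + 1 = 0 := by exact_mod_cast h
    nlinarith [sq_nonneg r]

/-- The instance `ℚ(ζ₂₀)/ℚ(√-5)`: all inertia groups have exponent at most `2`, and there is a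
linear character with values in `ℚ(ζ₄)`, not all real, which reduces. -/
theorem instance_first : ∃ ψ : (L20 ≃ₐ[K20] L20) →* ℂˣ,
    (∀ (w : HeightOneSpectrum (𝓞 L20)) (y : L20 ≃ₐ[K20] L20), FrobPow L20 w 1 y → y * y = 1) ∧
    (∀ g, (StarkP.linRep ψ).character g ∈ cycField 4) ∧
    (∃ g, ¬ ∃ r : ℝ, (StarkP.linRep ψ).character g = r) ∧
    ∀ (E : Type) [Field E] [NumberField E], ReducesCyclic E ∅ 4 (StarkP.linRep ψ).character ∧
      ∀ σ : ℂ ≃+* ℂ, ClassA E ∅ 4 σ → StarkRatAll (StarkP.linRep ψ) σ := by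
  have hτ : τ ^ 2 ≠ 1 := by
    intro h
    have h1 : gal20 (τ ^ 2) = 1 := by rw [h, map_one]
    rw [map_pow, τ, MulEquiv.apply_symm_apply] at h1
    exact absurd h1 (by decide)
  have : Finite (L20 ≃ₐ[ℚ] L20) := inferInstance
  obtain ⟨φ, hφ⟩ := exists_char (L20 ≃ₐ[ℚ] L20) 20 gal20 (τ ^ 2) hτ
  let ψ : (L20 ≃ₐ[K20] L20) →* ℂˣ := φ.comp (AlgEquiv.restrictScalarsHom ℚ)
  have hval : ∀ g, (StarkP.linRep ψ).character g ∈ cycField 4 := by
    intro g
    have h1 : (StarkP.linRep ψ).character g = (ψ g : ℂ) :=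
      congrFun (StarkC.IND.linRep_character ψ) g
    rw [h1]
    exact mem_cyc _ pow_four ψ g
  refine ⟨ψ, inertia, hval, ?_, fun E _ _ => ?_⟩
  · refine ⟨IntermediateField.subgroupEquivAlgEquiv (Subgroup.zpowers τ)
      ⟨τ, Subgroup.mem_zpowers τ⟩, ?_⟩
    set g := IntermediateField.subgroupEquivAlgEquiv (Subgroup.zpowers τ)
      ⟨τ, Subgroup.mem_zpowers τ⟩ with hg
    have h1 : (StarkP.linRep ψ).character g = (ψ g : ℂ) :=
      congrFun (StarkC.IND.linRep_character ψ) g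
    have h2 : AlgEquiv.restrictScalarsHom ℚ g = τ := by
      ext x
      rfl
    have h3 : ψ g = φ τ := by
      show φ (AlgEquiv.restrictScalarsHom ℚ g) = φ τ
      rw [h2]
    rw [h1]
    refine not_real _ ?_ ?_
    · rw [← Units.val_pow_eq_pow_val, ← map_pow, pow_four, map_one, Units.val_one]
    · intro h
      apply hφ
      rw [map_pow, ← h3]
      ext
      rw [Units.val_pow_eq_pow_val, h, Units.val_one]
  · exact StarkSQF.reduces_of_sq K20 L20 ℂ (StarkP.linRep ψ) 4 (by norm_num) inertia hval E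

/-! ### The second part: `ℚ(ζ₅)` over `ℚ` -/

/-- `ℚ(ζ₅)` -/
abbrev L5 : Type := CyclotomicField 5 ℚ

instance cyc5 : IsCyclotomicExtension {5} ℚ L5 := by
  have : NeZero ((5 : ℕ) : ℚ) := ⟨by norm_num⟩
  exact CyclotomicField.isCyclotomicExtension 5 ℚ

instance galois5 : IsGalois ℚ L5 := IsCyclotomicExtension.isGalois {5} ℚ L5

noncomputable abbrev gal5 : (L5 ≃ₐ[ℚ] L5) ≃* (ZMod 5)ˣ :=
  IsCyclotomicExtension.Rat.galEquivZMod 5 L5

/-- the root of unity -/
noncomputable def z5 : 𝓞 L5 := (IsCyclotomicExtension.zeta_spec 5 ℚ L5).toInteger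

theorem z5_prim : IsPrimitiveRoot z5 5 :=
  (IsCyclotomicExtension.zeta_spec 5 ℚ L5).toInteger_isPrimitiveRoot

theorem z5_prime : Prime (z5 - 1) := by
  have : Fact (Nat.Prime 5) := ⟨by norm_num⟩
  exact (IsCyclotomicExtension.zeta_spec 5 ℚ L5).zeta_sub_one_prime'

theorem z5_top : Algebra.adjoin ℤ {z5} = ⊤ :=
  IsCyclotomicExtension.Rat.adjoin_singleton_eq_top
    (IsCyclotomicExtension.zeta_spec 5 ℚ L5)

/-- the prime above `5` -/
noncomputable def w5 : HeightOneSpectrum (𝓞 L5) where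
  asIdeal := Ideal.span {z5 - 1}
  isPrime := (Ideal.span_singleton_prime z5_prime.ne_zero).mpr z5_prime
  ne_bot := by
    rw [Ne, Ideal.span_singleton_eq_bot]
    exact z5_prime.ne_zero

/-- all automorphisms are in the inertia group -/
theorem all_inertia (g : L5 ≃ₐ[ℚ] L5) : FrobPow L5 w5 1 g := by
  have key : ∀ x : 𝓞 L5, g • x - x ∈ w5.asIdeal := by
    intro x
    have hx : x ∈ Algebra.adjoin ℤ {z5} := by rw [z5_top]; exact Algebra.mem_top
    induction hx using Algebra.adjoin_induction with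
    | mem y hy =>
      obtain rfl := Set.mem_singleton_iff.mp hy
      have hact : g • z5 = z5 ^ (gal5 g).val.val :=
        IsCyclotomicExtension.Rat.galEquivZMod_smul_of_pow_eq 5 L5 g z5_prim.pow_eq_one
      rw [hact, w5, Ideal.mem_span_singleton]
      have h1 : z5 - 1 ∣ z5 ^ (gal5 g).val.val - 1 := by
        have := sub_dvd_pow_sub_pow z5 1 (gal5 g).val.val
        rwa [one_pow] at this
      have h2 : z5 ^ (gal5 g).val.val - z5 = (z5 ^ (gal5 g).val.val - 1) - (z5 - 1) := by ring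
      rw [h2]
      exact dvd_sub h1 dvd_rfl
    | algebraMap r =>
      have : g • (algebraMap ℤ (𝓞 L5) r) = algebraMap ℤ (𝓞 L5) r := by
        rw [eq_intCast]
        exact map_intCast (MulSemiringAction.toRingHom (L5 ≃ₐ[ℚ] L5) (𝓞 L5) g) r
      rw [this, sub_self]
      exact w5.asIdeal.zero_mem
    | add a b _ _ ha hb =>
      have : g • (a + b) - (a + b) = (g • a - a) + (g • b - b) := by rw [smul_add]; ring
      rw [this]
      exact w5.asIdeal.add_mem ha hb
    | mul a b _ _ ha hb =>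
      have : g • (a * b) - a * b = (g • a) * (g • b - b) + (g • a - a) * b := by
        rw [smul_mul']; ring
      rw [this]
      exact w5.asIdeal.add_mem (w5.asIdeal.mul_mem_left _ hb) (w5.asIdeal.mul_mem_right _ ha)
  intro x y h
  have hy : y = g • x := by
    apply RingOfIntegers.ext
    exact h
  rw [hy, pow_one]
  exact key x

/-- The instance `ℚ(ζ₅)/ℚ`: a character with values in `ℚ(ζ₄)` for which the local condition at the
prime above `5` fails. -/
theorem instance_not_local : ∃ ψ : (L5 ≃ₐ[ℚ] L5) →* ℂˣ,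
    (∀ g, (StarkP.linRep ψ).character g ∈ cycField 4) ∧
    ∀ (T : Finset ℕ) (n : ℕ), ¬ Local T n (StarkP.linRep ψ).character := by
  let u2 : (ZMod 5)ˣ := ⟨2, 3, by decide, by decide⟩
  let y : L5 ≃ₐ[ℚ] L5 := gal5.symm u2
  have hpow : ∀ g : L5 ≃ₐ[ℚ] L5, g ^ 4 = 1 := by
    intro g
    apply gal5.injective
    rw [map_pow, map_one]
    generalize gal5 g = u
    revert u
    decide
  have hy2 : y ^ 2 ≠ 1 := by
    intro h
    have h1 : gal5 (y ^ 2) = 1 := by rw [h, map_one]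
    rw [map_pow, MulEquiv.apply_symm_apply] at h1
    exact absurd h1 (by decide)
  have ho : orderOf y = 4 := by
    have h1 : orderOf y = 2 ^ (1 + 1) :=
      orderOf_eq_prime_pow (by rwa [pow_one]) (by norm_num; exact hpow y)
    rw [h1]; norm_num
  obtain ⟨ψ, hψ⟩ := exists_char (L5 ≃ₐ[ℚ] L5) 5 gal5 (y ^ 2) hy2
  have hc : ∀ g, (StarkP.linRep ψ).character g = (ψ g : ℂ) :=
    fun g => congrFun (StarkC.IND.linRep_character ψ) g
  refine ⟨ψ, fun g => ?_, fun T n h => ?_⟩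
  · rw [hc]
    exact mem_cyc _ hpow ψ g
  · have h1 : FixesPrime w5 (1 : L5 ≃ₐ[ℚ] L5) := by
      intro a b hab ha
      have : b = a := RingOfIntegers.ext hab
      rwa [this]
    have h2 := h.inertia w5 1 y h1 (all_inertia y) (by rw [one_mul, mul_one])
      (by rw [orderOf_one]; exact Nat.coprime_one_left _) 3 (by rw [ho]; norm_num)
    rw [one_mul, one_mul, hc, hc] at h2
    have h3 : ψ (y ^ 3) = ψ y := Units.ext h2
    apply hψ
    have h4 : ψ (y ^ 2) * ψ y = 1 * ψ y := by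
      rw [← map_mul, one_mul, ← h3]
      rfl
    exact mul_right_cancel h4

/-- By the hand-in this character does not reduce. -/
theorem instance_not_reduces : ∃ ψ : (L5 ≃ₐ[ℚ] L5) →* ℂˣ,
    (∀ g, (StarkP.linRep ψ).character g ∈ cycField 4) ∧
    ∀ (T : Finset ℕ) (n : ℕ), 0 < n → ¬ Reduces T n (StarkP.linRep ψ).character := by
  obtain ⟨ψ, h1, h2⟩ := instance_not_local
  exact ⟨ψ, h1, fun T n hn h => h2 T n
    ((StarkKB.main_all ℚ L5 ℂ (StarkP.linRep ψ) T n hn).1.mpr h)⟩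

end Pool.Agent.VAC2.ClassCharacterRange
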