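import Pool.Agent.StarkU.PDefsV

/-!
# Certificate for `MP_46b841_nt/UnramifiedCyclotomic` (vacuity audit); helper file, not a hand-in

The theorem says: Stark's conjecture up to roots of unity for all characters with values in `ℚ(ζ_n)`
is equivalent to its cases (A) and (B). Proved here:

* `classA_instance`: the hypotheses of class (A) (`K` totally complex, all inertia groups of `L/K`
  trivial, decomposition groups above `T` trivial, `L ⊆ N` Galois over `ℚ` and cyclic over `K`,
  `ψ` faithful with `ψ ^ n = 1`) hold for every `T` in cases with `ψ ≠ 1` (`n = 2`, `E = ℚ`,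
  `K = ℚ(√-q)`, `L = ℚ(i, √q)`, `q ≡ 1` modulo `4` and the primes of `T`);
* `classB_instance`: the same for class (B), `K = ℚ`, `L = ℚ(i)`, and complex conjugations exist.

The quantifier over `φ` is never empty: see `MP_46b841_nt_Theta.lean`.
-/

set_option autoImplicit false

open NumberField IsDedekindDomain Polynomial
open scoped Classical

namespace Pool.Agent.VAC2.Stark

/-- A number field which is Galois over `ℚ` and generated by the roots of `f`. -/
theorem exists_split (f : Polynomial ℚ) :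
    ∃ (L : Type) (_ : Field L) (_ : NumberField L), IsGalois ℚ L ∧ f.IsSplittingField ℚ L := by
  have h := Polynomial.IsSplittingField.splittingField f
  have h0 : CharZero f.SplittingField := inferInstance
  have hL : ∃ (L : Type) (_ : Field L) (A : Algebra ℚ L), CharZero L ∧ f.IsSplittingField ℚ L :=
    ⟨f.SplittingField, inferInstance, _, h0, h⟩
  obtain ⟨L, _, A, _, h1⟩ := hL
  obtain rfl : A = DivisionRing.toRatAlgebra := Subsingleton.elim _ _
  have hfd := Polynomial.IsSplittingField.finiteDimensional L f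
  have hn : Normal ℚ L := Normal.of_isSplittingField f
  exact ⟨L, inferInstance, { to_charZero := inferInstance, to_finiteDimensional := hfd }, ⟨⟩, h1⟩

theorem exists_field (q : ℕ) (hq : q.Prime) :
    ∃ (L : Type) (_ : Field L) (_ : NumberField L) (_ : IsGalois ℚ L) (i s : L) (τ : L ≃ₐ[ℚ] L),
      i ^ 2 = -1 ∧ s ^ 2 = q ∧ τ i = -i ∧ τ s = -s ∧ τ * τ = 1 := by
  obtain ⟨L, _, _, hG, hf⟩ := exists_split
    ((Polynomial.X ^ 2 + 1) * (Polynomial.X ^ 2 - Polynomial.C (q : ℚ)))
  have hf1 : (Polynomial.X ^ 2 + 1 : Polynomial ℚ).Monic := by monicity!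
  have hf2 : (Polynomial.X ^ 2 - Polynomial.C (q : ℚ) : Polynomial ℚ).Monic := by monicity!
  have hf0 : ((Polynomial.X ^ 2 + 1) * (Polynomial.X ^ 2 - Polynomial.C (q : ℚ)) : Polynomial ℚ) ≠ 0 :=
    (hf1.mul hf2).ne_zero
  have hs := hf.splits
  rw [Polynomial.map_mul] at hs
  have hs' := (Polynomial.splits_mul (by
      rw [Ne, Polynomial.map_eq_zero]; exact hf1.ne_zero) (by
      rw [Ne, Polynomial.map_eq_zero]; exact hf2.ne_zero)).1 hs
  obtain ⟨i, hi⟩ := hs'.1.exists_eval_eq_zero (by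
    have h : (Polynomial.X ^ 2 + 1 : Polynomial ℚ).degree = 2 := by compute_degree!
    rw [Polynomial.degree_map, h]; norm_num)
  obtain ⟨s, hs1⟩ := hs'.2.exists_eval_eq_zero (by
    have h : (Polynomial.X ^ 2 - Polynomial.C (q : ℚ) : Polynomial ℚ).degree = 2 := by
      compute_degree!
    rw [Polynomial.degree_map, h]; norm_num)
  have hi2 : i ^ 2 = -1 := by
    have : i ^ 2 + 1 = 0 := by simpa using hi
    linear_combination this
  have hs2 : s ^ 2 = q := by
    have : s ^ 2 - q = 0 := by simpa using hs1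
    linear_combination this
  have hi0 : i ≠ 0 := by rintro rfl; norm_num at hi2
  have hs0 : s ≠ 0 := by
    rintro rfl
    have : (q : L) = 0 := by rw [← hs2]; simp
    exact hq.ne_zero (by exact_mod_cast this)
  have hgi : ∀ g : L ≃ₐ[ℚ] L, g i = i ∨ g i = -i := by
    intro g
    have h1 : (g i) ^ 2 = i ^ 2 := by
      rw [← map_pow, hi2, map_neg, map_one]
    exact sq_eq_sq_iff_eq_or_eq_neg.1 h1
  have hgs : ∀ g : L ≃ₐ[ℚ] L, g s = s ∨ g s = -s := by
    intro g
    have h1 : (g s) ^ 2 = s ^ 2 := by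
      rw [← map_pow, hs2, map_natCast]
    exact sq_eq_sq_iff_eq_or_eq_neg.1 h1
  -- a complex conjugation
  obtain ⟨Φ⟩ : Nonempty (L →+* ℂ) := inferInstance
  obtain ⟨c, hc⟩ := NumberField.ComplexEmbedding.exists_comp_symm_eq_of_comp_eq (k := ℚ) Φ
    ((starRingEnd ℂ).comp Φ) (Subsingleton.elim _ _)
  have hc' : ∀ x, Φ (c.symm x) = (starRingEnd ℂ) (Φ x) := fun x => RingHom.congr_fun hc x
  have hΦi : (Φ i) ^ 2 = -1 := by rw [← map_pow, hi2]; simp
  have hΦs : (Φ s) ^ 2 = ((q : ℝ) : ℂ) := by rw [← map_pow, hs2]; simp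
  have hci : c.symm i = -i := by
    apply Φ.injective
    rw [hc', map_neg]
    have h1 : (Φ i) ^ 2 = Complex.I ^ 2 := by rw [hΦi, Complex.I_sq]
    rcases sq_eq_sq_iff_eq_or_eq_neg.1 h1 with h | h <;> rw [h] <;> simp
  have hcs : c.symm s = s := by
    apply Φ.injective
    rw [hc']
    have h1 : (Φ s) ^ 2 = ((Real.sqrt q : ℝ) : ℂ) ^ 2 := by
      rw [hΦs, ← Complex.ofReal_pow, Real.sq_sqrt (Nat.cast_nonneg q)]
    rcases sq_eq_sq_iff_eq_or_eq_neg.1 h1 with h | h <;> rw [h] <;> simp [Complex.conj_ofReal]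
  -- an automorphism moving `s`
  have hsq : s ∉ (⊥ : IntermediateField ℚ L) := by
    intro h
    obtain ⟨r, hr⟩ := IntermediateField.mem_bot.1 h
    have h1 : (algebraMap ℚ L) (r ^ 2) = (algebraMap ℚ L) (q : ℚ) := by
      rw [map_pow, hr, hs2, map_natCast]
    have h2 : r ^ 2 = (q : ℚ) := (algebraMap ℚ L).injective h1
    have h3 : Irrational (Real.sqrt q) := hq.irrational_sqrt
    apply h3
    refine ⟨|r|, ?_⟩
    have h4 : ((|r| : ℚ) : ℝ) ^ 2 = q := by
      rw [← Rat.cast_pow, sq_abs, h2]; simp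
    rw [← h4, Real.sqrt_sq (by exact_mod_cast abs_nonneg r)]
  rw [IsGalois.mem_bot_iff_fixed] at hsq
  push Not at hsq
  obtain ⟨g, hg⟩ := hsq
  have hg2 : g s = -s := (hgs g).resolve_left hg
  obtain ⟨τ, h1, h2⟩ : ∃ τ : L ≃ₐ[ℚ] L, τ i = -i ∧ τ s = -s := by
    rcases hgi g with h | h
    · refine ⟨g * c.symm, ?_, ?_⟩
      · rw [AlgEquiv.mul_apply, hci, map_neg, h]
      · rw [AlgEquiv.mul_apply, hcs, hg2]
    · exact ⟨g, h, hg2⟩
  refine ⟨L, inferInstance, inferInstance, hG, i, s, τ, hi2, hs2, h1, h2, ?_⟩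
  have h3 : ((τ * τ : L ≃ₐ[ℚ] L) : L →ₐ[ℚ] L) = AlgHom.id ℚ L := by
    refine AlgHom.ext_of_adjoin_eq_top hf.adjoin_rootSet ?_
    intro x hx
    rw [Polynomial.mem_rootSet] at hx
    have h4 : (x ^ 2 + 1) * (x ^ 2 - (q : L)) = 0 := by simpa using hx.2
    show τ (τ x) = x
    rcases mul_eq_zero.1 h4 with h5 | h5
    · have h6 : x ^ 2 = i ^ 2 := by rw [hi2]; linear_combination h5
      rcases sq_eq_sq_iff_eq_or_eq_neg.1 h6 with rfl | rfl
      · rw [h1, map_neg, h1, neg_neg]
      · rw [map_neg, h1, neg_neg, h1]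
    · have h6 : x ^ 2 = s ^ 2 := by rw [hs2]; linear_combination h5
      rcases sq_eq_sq_iff_eq_or_eq_neg.1 h6 with rfl | rfl
      · rw [h2, map_neg, h2, neg_neg]
      · rw [map_neg, h2, neg_neg, h2]
  ext x
  exact DFunLike.congr_fun h3 x

/-- Class (A) contains nontrivial cases for every `T` (here `E = ℚ`, `n = 2`): all hypotheses of
`StarkLinearA` hold for suitable `K`, `L` and `ψ ≠ 1`. -/
theorem classA_instance (T : Finset ℕ) :
    ∃ (K L : Type) (_ : Field K) (_ : NumberField K) (_ : Field L) (_ : NumberField L)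
      (_ : Algebra K L) (_ : IsGalois K L), IsTotallyComplex K ∧
      (∀ (w : HeightOneSpectrum (𝓞 L)) (g : L ≃ₐ[K] L), StarkP.FrobPow L w 1 g → g = 1) ∧
      (∀ w : HeightOneSpectrum (𝓞 L), (∃ p ∈ T, p.Prime ∧ (p : 𝓞 L) ∈ w.asIdeal) →
        ∀ g : L ≃ₐ[K] L, StarkV.FixesPrime w g → g = 1) ∧
      StarkV.InCyclic ℚ K L ∧
      ∃ ψ : (L ≃ₐ[K] L) →* ℂˣ, Function.Injective ψ ∧ ψ ^ 2 = 1 ∧ ψ ≠ 1 := by
  -- a prime `q ≡ 1` modulo `4` and all primes in `T`
  obtain ⟨q, -, hq, hq1⟩ := Nat.forall_exists_prime_gt_and_modEq 4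
    (q := 4 * ∏ p ∈ T.filter Nat.Prime, p) (a := 1)
    (mul_ne_zero (by norm_num) (Finset.prod_ne_zero_iff.2 fun p hp =>
      (Finset.mem_filter.1 hp).2.ne_zero)) (Nat.coprime_one_left _)
  have hq4 : (4 * ∏ p ∈ T.filter Nat.Prime, p) ∣ q - 1 :=
    (Nat.modEq_iff_dvd' hq.one_lt.le).1 hq1.symm
  obtain ⟨t, ht⟩ := hq4
  have ht' : (q : ℤ) = 4 * ((∏ p ∈ T.filter Nat.Prime, p : ℕ) : ℤ) * t + 1 := by
    have : q = 4 * (∏ p ∈ T.filter Nat.Prime, p) * t + 1 := by
      have := hq.one_lt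
      omega
    exact_mod_cast this
  set P : ℕ := ∏ p ∈ T.filter Nat.Prime, p with hP
  obtain ⟨L, _, _, hG, i, s, τ, hi, hs, hτi, hτs, hττ⟩ := exists_field q hq
  have hi0 : i ≠ 0 := by rintro rfl; norm_num at hi
  have h2L : (2 : L) ≠ 0 := by norm_num
  -- the group
  have hmem : ∀ x ∈ Subgroup.zpowers τ, x = 1 ∨ x = τ := by
    intro x hx
    obtain ⟨n, rfl⟩ := Subgroup.mem_zpowers_iff.1 hx
    rcases Int.even_or_odd n with ⟨m, rfl⟩ | ⟨m, rfl⟩
    · left
      rw [← two_mul, zpow_mul, zpow_two, hττ, one_zpow]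
    · right
      rw [zpow_add, zpow_mul, zpow_two, hττ, one_zpow, one_mul, zpow_one]
  let K := IntermediateField.fixedField (Subgroup.zpowers τ)
  let E := IntermediateField.subgroupEquivAlgEquiv (Subgroup.zpowers τ)
  have hE : ∀ (x : Subgroup.zpowers τ) (y : L), E x y = (x : L ≃ₐ[ℚ] L) y := fun x y => rfl
  have hcase : ∀ g : L ≃ₐ[K] L, g = 1 ∨ ∀ y : L, g y = τ y := by
    intro g
    obtain ⟨x, rfl⟩ := E.surjective g
    rcases hmem x.1 x.2 with h | h
    · left
      have : x = 1 := Subtype.ext h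
      rw [this, map_one]
    · right
      intro y
      rw [hE, h]
  have hKL : IsGalois K L := inferInstance
  -- integers
  have hiI : IsIntegral ℤ i := by
    refine ⟨Polynomial.X ^ 2 + 1, by monicity!, ?_⟩
    simp [hi]
  have hθI : IsIntegral ℤ ((1 + s) / 2) := by
    refine ⟨Polynomial.X ^ 2 - Polynomial.X - Polynomial.C ((P : ℤ) * t), by monicity!, ?_⟩
    have h1 : s ^ 2 = 4 * (P : L) * t + 1 := by
      rw [hs]
      exact_mod_cast congrArg (Int.cast : ℤ → L) ht'
    simp only [Polynomial.eval₂_sub, Polynomial.eval₂_pow, Polynomial.eval₂_X, map_mul,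
      map_natCast]
    field_simp
    simp
    linear_combination h1
  let ii : 𝓞 L := ⟨i, hiI⟩
  let th : 𝓞 L := ⟨(1 + s) / 2, hθI⟩
  have hth : τ ((1 + s) / 2) = (1 - s) / 2 := by
    rw [map_div₀, map_add, map_one, hτs, map_ofNat]
    ring
  have hthq : th * (th - 1) = ((P * t : ℕ) : 𝓞 L) := by
    apply RingOfIntegers.coe_injective
    have h1 : s ^ 2 = 4 * (P : L) * t + 1 := by
      rw [hs]
      exact_mod_cast congrArg (Int.cast : ℤ → L) ht'
    have h2 : (((P * t : ℕ) : 𝓞 L) : L) = ((P * t : ℕ) : L) := map_natCast (algebraMap (𝓞 L) L) _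
    show ((1 + s) / 2) * ((1 + s) / 2 - 1) = (((P * t : ℕ) : 𝓞 L) : L)
    rw [h2]
    push_cast
    field_simp
    linear_combination h1
  have hii : ii * ii = -1 := by
    apply RingOfIntegers.coe_injective
    show i * i = ((-1 : 𝓞 L) : L)
    have h2 : (((-1 : 𝓞 L)) : L) = -1 := by
      rw [show ((-1 : 𝓞 L) : L) = algebraMap (𝓞 L) L (-1) from rfl, map_neg, map_one]
    rw [h2, ← sq, hi]
  have hgi : ∀ g : L ≃ₐ[K] L, (∀ y : L, g y = τ y) → ((-ii : 𝓞 L) : L) = g (ii : L) := by
    intro g hg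
    rw [hg]
    show -i = τ i
    rw [hτi]
  have hgt : ∀ g : L ≃ₐ[K] L, (∀ y : L, g y = τ y) → ((1 - th : 𝓞 L) : L) = g (th : L) := by
    intro g hg
    rw [hg]
    show (1 : L) - (1 + s) / 2 = τ ((1 + s) / 2)
    rw [hth]
    field_simp
    ring
  have h1w : ∀ w : HeightOneSpectrum (𝓞 L), (1 : 𝓞 L) ∉ w.asIdeal := fun w h =>
    w.isPrime.ne_top ((Ideal.eq_top_iff_one _).2 h)
  have hneg : ∀ g : L ≃ₐ[K] L, (∀ y : L, g y = τ y) → g i ≠ i := by
    intro g hg h
    rw [hg, hτi] at h
    have : (2 : L) * i = 0 := by linear_combination -h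
    exact (mul_ne_zero h2L hi0) this
  -- the character
  let ψ : (L ≃ₐ[K] L) →* ℂˣ :=
    { toFun := fun g => if g i = i then 1 else -1
      map_one' := by simp
      map_mul' := by
        intro g h
        have hgi : g i = i ∨ g i = -i := by
          rcases hcase g with h | h
          · left; rw [h]; rfl
          · right; rw [h, hτi]
        have hhi : h i = i ∨ h i = -i := by
          rcases hcase h with h | h
          · left; rw [h]; rfl
          · right; rw [h, hτi]
        have hne : -i ≠ i := by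
          intro h
          have : (2 : L) * i = 0 := by linear_combination -h
          exact (mul_ne_zero h2L hi0) this
        rcases hgi with h1 | h1 <;> rcases hhi with h2 | h2 <;>
          simp [AlgEquiv.mul_apply, h1, h2, hne] }
  have hψ1 : ∀ g : L ≃ₐ[K] L, (∀ y : L, g y = τ y) → ψ g = -1 := fun g hg => if_neg (hneg g hg)
  have hun : (-1 : ℂˣ) ≠ 1 := by
    intro h
    have := congrArg Units.val h
    norm_num at this
  refine ⟨K, L, inferInstance, inferInstance, inferInstance, inferInstance, inferInstance, hKL,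
    ?_, ?_, ?_, ?_, ψ, ?_, ?_, ?_⟩
  · -- totally complex
    refine ⟨fun v => ?_⟩
    rw [InfinitePlace.isComplex_iff]
    intro hr
    have hz : i * s ∈ K := by
      rw [IntermediateField.mem_fixedField_iff]
      intro f hf
      rcases hmem f hf with rfl | rfl
      · rfl
      · rw [map_mul, hτi, hτs]; ring
    have h3 : (⟨i * s, hz⟩ : K) ^ 2 = -(q : K) := by
      apply Subtype.ext
      show (i * s) ^ 2 = -(((q : K)) : L)
      rw [mul_pow, hi, hs]
      simp
    have h4 : (v.embedding ⟨i * s, hz⟩) ^ 2 = -(q : ℂ) := by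
      rw [← map_pow, h3, map_neg, map_natCast]
    have h5 : (starRingEnd ℂ) (v.embedding ⟨i * s, hz⟩) = v.embedding ⟨i * s, hz⟩ :=
      RingHom.congr_fun hr _
    obtain ⟨r, hr2⟩ := Complex.conj_eq_iff_real.1 h5
    rw [hr2] at h4
    have h6 : r ^ 2 = -(q : ℝ) := by exact_mod_cast h4
    have h7 : (0 : ℝ) < q := by exact_mod_cast hq.pos
    nlinarith [sq_nonneg r]
  · -- unramified
    intro w g hg
    rcases hcase g with h | h
    · exact h
    exfalso
    have a1 := hg ii (-ii) (hgi g h)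
    have a2 := hg th (1 - th) (hgt g h)
    have a3 : (2 : 𝓞 L) ∈ w.asIdeal := by
      have := w.asIdeal.mul_mem_left ii a1
      have e : ii * (-ii - ii ^ 1) = 2 := by linear_combination (-2) * hii
      rwa [e] at this
    have a4 := w.asIdeal.mul_mem_left (1 - th - th ^ 1) a2
    have a5 := w.asIdeal.mul_mem_left (2 * ((P * t : ℕ) : 𝓞 L)) a3
    have e : (1 - th - th ^ 1) * (1 - th - th ^ 1) - 2 * ((P * t : ℕ) : 𝓞 L) * 2 = 1 := by
      linear_combination 4 * hthq
    have := w.asIdeal.sub_mem a4 a5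
    rw [e] at this
    exact h1w w this
  · -- split at `T`
    rintro w ⟨p, hpT, hp, hpw⟩ g hg
    rcases hcase g with h | h
    · exact h
    exfalso
    have hpP : p ∣ P := Finset.dvd_prod_of_mem _ (Finset.mem_filter.2 ⟨hpT, hp⟩)
    have b1 : th * (th - 1) ∈ w.asIdeal := by
      rw [hthq]
      obtain ⟨c, hc⟩ := hpP
      rw [hc, mul_assoc, Nat.cast_mul]
      exact w.asIdeal.mul_mem_right _ hpw
    rcases w.isPrime.mem_or_mem b1 with b2 | b2
    · have b3 := hg th (1 - th) (hgt g h) b2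
      have := w.asIdeal.add_mem b2 b3
      rw [add_sub_cancel] at this
      exact h1w w this
    · have b3 := hg (th - 1) (-th) (by
        show -((1 + s) / 2) = g ((1 + s) / 2 - 1)
        rw [h, map_sub, map_one, hth]
        field_simp
        ring) b2
      have := w.asIdeal.add_mem b2 b3
      have e : th - 1 + -th = -1 := by ring
      rw [e] at this
      exact h1w w ((Submodule.neg_mem_iff _).1 this)
  · -- contained in a field which is Galois over `ℚ` and cyclic over `K`
    refine ⟨L, inferInstance, inferInstance, inferInstance, inferInstance, inferInstance, hG, ?_,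
      ⟨algebraMap ℚ L⟩⟩
    exact isCyclic_of_surjective E.toMonoidHom E.surjective
  · intro g h hgh
    rcases hcase g with h1 | h1 <;> rcases hcase h with h2 | h2
    · rw [h1, h2]
    · rw [h1, map_one, hψ1 h h2] at hgh
      exact absurd hgh.symm hun
    · rw [h2, map_one, hψ1 g h1] at hgh
      exact absurd hgh hun
    · ext y
      rw [h1, h2]
  · ext g
    rcases hcase g with h | h
    · simp [h]
    · simp [hψ1 g h]
  · intro h
    have h1 := DFunLike.congr_fun h (E ⟨τ, Subgroup.mem_zpowers τ⟩)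
    rw [hψ1 _ (fun y => hE _ y)] at h1
    exact hun h1

/-- Class (B) contains nontrivial cases for every `n`: `K = ℚ`, `L = ℚ(i)`; complex conjugations
exist. -/
theorem classB_instance (n : ℕ) :
    ∃ (K L : Type) (_ : Field K) (_ : NumberField K) (_ : Field L) (_ : NumberField L)
      (_ : Algebra K L) (_ : IsGalois K L), IsTotallyReal K ∧
      (∃ (Φ : L →+* ℂ) (c : L ≃ₐ[K] L), ComplexEmbedding.IsConj Φ c) ∧
      ∃ ψ : (L ≃ₐ[K] L) →* ℂˣ, Function.Injective ψ ∧ (∀ g, (ψ g : ℂ) ∈ StarkV.cycField n) ∧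
        (∀ (Φ : L →+* ℂ) (c : L ≃ₐ[K] L), ComplexEmbedding.IsConj Φ c → (ψ c : ℂ) = -1) := by
  obtain ⟨L, _, _, hG, hf⟩ := exists_split (Polynomial.X ^ 2 + 1)
  have hf1 : (Polynomial.X ^ 2 + 1 : Polynomial ℚ).Monic := by monicity!
  obtain ⟨i, hi1⟩ := hf.splits.exists_eval_eq_zero (by
    have h : (Polynomial.X ^ 2 + 1 : Polynomial ℚ).degree = 2 := by compute_degree!
    rw [Polynomial.degree_map, h]; norm_num)
  have hi : i ^ 2 = -1 := by
    have : i ^ 2 + 1 = 0 := by simpa using hi1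
    linear_combination this
  have hi0 : i ≠ 0 := by rintro rfl; norm_num at hi
  have hne : -i ≠ i := by
    intro h
    have : (2 : L) * i = 0 := by linear_combination -h
    exact (mul_ne_zero (by norm_num) hi0) this
  have hgi : ∀ g : L ≃ₐ[ℚ] L, g i = i ∨ g i = -i := by
    intro g
    have h1 : (g i) ^ 2 = i ^ 2 := by
      rw [← map_pow, hi, map_neg, map_one]
    exact sq_eq_sq_iff_eq_or_eq_neg.1 h1
  have hext : ∀ g h : L ≃ₐ[ℚ] L, g i = h i → g = h := by
    intro g h hgh
    have h3 : (g : L →ₐ[ℚ] L) = (h : L →ₐ[ℚ] L) := by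
      refine AlgHom.ext_of_adjoin_eq_top hf.adjoin_rootSet ?_
      intro x hx
      rw [Polynomial.mem_rootSet] at hx
      have h4 : x ^ 2 + 1 = 0 := by simpa using hx.2
      show g x = h x
      have h6 : x ^ 2 = i ^ 2 := by rw [hi]; linear_combination h4
      rcases sq_eq_sq_iff_eq_or_eq_neg.1 h6 with rfl | rfl
      · exact hgh
      · rw [map_neg, map_neg, hgh]
    ext x
    exact DFunLike.congr_fun h3 x
  have hcon : ∀ (Φ : L →+* ℂ) (c : L ≃ₐ[ℚ] L), ComplexEmbedding.IsConj Φ c → c i = -i := by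
    intro Φ c hc
    have h1 : ∀ x, Φ (c x) = (starRingEnd ℂ) (Φ x) := fun x => (RingHom.congr_fun hc x).symm
    apply Φ.injective
    rw [h1, map_neg]
    have hΦi : (Φ i) ^ 2 = -1 := by rw [← map_pow, hi]; simp
    have h1 : (Φ i) ^ 2 = Complex.I ^ 2 := by rw [hΦi, Complex.I_sq]
    rcases sq_eq_sq_iff_eq_or_eq_neg.1 h1 with h | h <;> rw [h] <;> simp
  let ψ : (L ≃ₐ[ℚ] L) →* ℂˣ :=
    { toFun := fun g => if g i = i then 1 else -1
      map_one' := by simp
      map_mul' := by
        intro g h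
        rcases hgi g with h1 | h1 <;> rcases hgi h with h2 | h2 <;>
          simp [AlgEquiv.mul_apply, h1, h2, hne] }
  have hψ : ∀ g : L ≃ₐ[ℚ] L, ψ g = if g i = i then 1 else -1 := fun g => rfl
  have hun : (-1 : ℂˣ) ≠ 1 := by
    intro h
    have := congrArg Units.val h
    norm_num at this
  refine ⟨ℚ, L, inferInstance, inferInstance, inferInstance, inferInstance, inferInstance, hG,
    inferInstance, ?_, ψ, ?_, ?_, ?_⟩
  · obtain ⟨Φ⟩ : Nonempty (L →+* ℂ) := inferInstance
    obtain ⟨c, hc⟩ := NumberField.ComplexEmbedding.exists_comp_symm_eq_of_comp_eq (k := ℚ) Φ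
      ((starRingEnd ℂ).comp Φ) (Subsingleton.elim _ _)
    exact ⟨Φ, c.symm, hc.symm⟩
  · intro g h hgh
    apply hext
    rw [hψ, hψ] at hgh
    rcases hgi g with h1 | h1 <;> rcases hgi h with h2 | h2
    · rw [h1, h2]
    · rw [if_pos h1, if_neg (by rw [h2]; exact hne)] at hgh
      exact absurd hgh.symm hun
    · rw [if_pos h2, if_neg (by rw [h1]; exact hne)] at hgh
      exact absurd hgh hun
    · rw [h1, h2]
  · intro g
    rw [hψ]
    split_ifs
    · exact one_mem _
    · simp
  · intro Φ c hc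
    rw [hψ, if_neg (by rw [hcon Φ c hc]; exact hne)]
    simp

end Pool.Agent.VAC2.Stark
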