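import Pool.Agent.VAC2.MP_46b841_nt_UnramifiedOrPrimePower
import Pool.Agent.VAC2.MP_46b841_nt_UnramifiedCyclotomic
import Pool.Agent.StarkD.PDefsD

/-!
# Certificate for `MP_46b841_nt/SignReduction` (vacuity audit); helper file, not a hand-in

The theorem says: if Stark's assertion holds for `M ψ`, some `M` in `P`, for the linear characters
`ψ` in three cases, then it holds for `2 M χ`, some `M` in `P`, for all characters `χ`.

* the quantifier over `φ` is never empty (`VAC2.Stark.exists_theta`);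
* each of the three cases contains nontrivial characters, for every `T` (`case1`, `case2`,
  `case3`), and together they do not contain everything (`not_cases`: the trivial character of
  `Gal(ℚ/ℚ)`);
* the conclusion is a real condition for every `P` with `0 ∉ P` (for `0 ∈ P` hypothesis and
  conclusion are both trivial): over `K = L = ℚ`, `S = S_∞`, `A(m · 1) = (-2)^m` for all `m`
  (`quotient_copies`), so the assertion `StarkRepMul P 2` for the pair of characters `1`, `0` is
  false (`not_starkRepMul`), and for the pair `1`, `1` true (`starkAt_one`).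
-/

set_option autoImplicit false

open NumberField IsDedekindDomain Filter Topology
open scoped Classical

namespace VAC2.Stark.Sign

open StarkP

/-! ### The three cases -/

/-- case 1 contains nontrivial characters for every `T` -/
theorem case1 (T : Finset ℕ) :
    ∃ (K L : Type) (_ : Field K) (_ : NumberField K) (_ : Field L) (_ : NumberField L)
      (_ : Algebra K L) (_ : IsGalois K L) (ψ : (L ≃ₐ[K] L) →* ℂˣ),
      IsTotallyComplex K ∧ UnramifiedSplit T ψ ∧ ψ ≠ 1 := by
  obtain ⟨K, L, _, _, _, _, _, hG, hK, h1, h2, -, ψ, -, -, h5⟩ :=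
    Pool.Agent.VAC2.Stark.classA_instance T
  refine ⟨K, L, inferInstance, inferInstance, inferInstance, inferInstance, inferInstance, hG, ψ,
    hK, ⟨fun w g hg => ?_, fun w hw g hg => ?_⟩, h5⟩
  · rw [h1 w g hg, map_one]
  · rw [h2 w hw g hg, map_one]

/-- case 2 contains nontrivial characters (`E = ℚ`, `p = 2`) -/
theorem case2 :
    ∃ (K L : Type) (_ : Field K) (_ : NumberField K) (_ : Field L) (_ : NumberField L)
      (_ : Algebra K L) (_ : IsGalois K L) (ψ : (L ≃ₐ[K] L) →* ℂˣ),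
      IsTotallyComplex K ∧ PrimePowerOver ℚ ψ ∧ ψ ≠ 1 := by
  obtain ⟨K, L, _, _, _, _, _, hG, hK, -, -, -, ψ, -, h4, h5⟩ :=
    Pool.Agent.VAC2.Stark.classA_instance ∅
  refine ⟨K, L, inferInstance, inferInstance, inferInstance, inferInstance, inferInstance, hG, ψ,
    hK, ⟨algebraMap ℚ L, 2, 1, Nat.prime_two, by rw [pow_one]; exact h4, fun g => ⟨0, fun x => ?_⟩⟩,
    h5⟩
  simp

/-- case 3 contains nontrivial characters, and complex conjugations exist -/
theorem case3 :
    ∃ (K L : Type) (_ : Field K) (_ : NumberField K) (_ : Field L) (_ : NumberField L)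
      (_ : Algebra K L) (_ : IsGalois K L) (ψ : (L ≃ₐ[K] L) →* ℂˣ),
      IsTotallyReal K ∧ TotallyOdd ψ ∧ ψ ≠ 1 := by
  obtain ⟨K, L, _, _, _, _, _, hG, hK, ⟨Φ, c, hc⟩, ψ, -, -, h⟩ :=
    Pool.Agent.VAC2.Stark.classB_instance 1
  refine ⟨K, L, inferInstance, inferInstance, inferInstance, inferInstance, inferInstance, hG, ψ,
    hK, h, ?_⟩
  rintro rfl
  have h1 := h Φ c hc
  norm_num at h1

/-- the trivial character of `Gal(ℚ/ℚ)` is in none of the three cases -/
theorem not_cases (T : Finset ℕ) (E : Type) [Field E] :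
    ¬ ((IsTotallyComplex ℚ ∧ (UnramifiedSplit (K := ℚ) (L := ℚ) T 1 ∨
        PrimePowerOver (K := ℚ) (L := ℚ) E 1)) ∨
      (IsTotallyReal ℚ ∧ TotallyOdd (K := ℚ) (L := ℚ) 1)) := by
  have hr : InfinitePlace.nrRealPlaces ℚ = 1 := by
    have h1 := InfinitePlace.card_add_two_mul_card_eq_rank ℚ
    rw [Module.finrank_self] at h1
    omega
  rintro (⟨hC, -⟩ | ⟨-, h⟩)
  · have h1 := IsTotallyComplex.nrRealPlaces_eq_zero (K := ℚ) (h := hC)
    omega
  · have h1 : ComplexEmbedding.IsConj (algebraMap ℚ ℂ) (1 : ℚ ≃ₐ[ℚ] ℚ) := by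
      refine (ComplexEmbedding.isConj_one_iff).2 ?_
      exact RingHom.ext fun x => by simp
    have h2 := h (algebraMap ℚ ℂ) 1 h1
    rw [map_one, Units.val_one] at h2
    norm_num at h2

/-! ### Multiples of characters -/

section

variable {K L : Type} [Field K] [NumberField K] [Field L] [NumberField L] [Algebra K L]

theorem localTrace_mul (c : ℂ) (χ : (L ≃ₐ[K] L) → ℂ) (w : HeightOneSpectrum (𝓞 L)) (q : ℕ) :
    localTrace (fun g => c * χ g) w q = c * localTrace χ w q := by
  unfold localTrace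
  rw [← Finset.mul_sum, mul_div_assoc]

theorem artinCoef_mul (c : ℂ) (χ : (L ≃ₐ[K] L) → ℂ) (v : HeightOneSpectrum (𝓞 K)) (m : ℕ) :
    artinCoef (fun g => c * χ g) v m = c * artinCoef χ v m := by
  unfold artinCoef
  rw [← mul_div_assoc]
  congr 1
  have h1 : ∀ w : HeightOneSpectrum (𝓞 L),
      (∑ᶠ (_ : w ∈ above K L v), localTrace (fun g => c * χ g) w
        (Ideal.absNorm v.asIdeal ^ m)) =
      c • ∑ᶠ (_ : w ∈ above K L v), localTrace χ w (Ideal.absNorm v.asIdeal ^ m) := by
    intro w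
    rw [smul_finsum]
    refine finsum_congr fun _ => ?_
    rw [localTrace_mul, smul_eq_mul]
  rw [finsum_congr h1, ← smul_finsum, smul_eq_mul]

theorem logL_mul (c : ℂ) (χ : (L ≃ₐ[K] L) → ℂ) (S : Set (HeightOneSpectrum (𝓞 K))) (s : ℂ) :
    logL (fun g => c * χ g) S s = c * logL χ S s := by
  unfold logL
  rw [← tsum_mul_left]
  refine tsum_congr fun p => ?_
  rw [artinCoef_mul]
  split_ifs
  · rw [mul_zero]
  · rw [mul_div_assoc]

theorem char_copies (m : ℕ) :
    (copies m (linRep (1 : (L ≃ₐ[K] L) →* ℂˣ))).character =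
      fun g => (m : ℂ) * (linRep (1 : (L ≃ₐ[K] L) →* ℂˣ)).character g := by
  funext g
  have h1 : copies m (linRep (1 : (L ≃ₐ[K] L) →* ℂˣ)) g = LinearMap.id := by
    apply LinearMap.ext
    intro v
    funext i
    show (linRep (1 : (L ≃ₐ[K] L) →* ℂˣ)) g (v i) = v i
    show ((((1 : (L ≃ₐ[K] L) →* ℂˣ) g : ℂˣ)) : ℂ) • v i = v i
    simp
  have h2 : linRep (1 : (L ≃ₐ[K] L) →* ℂˣ) g = LinearMap.id := by
    apply LinearMap.ext
    intro v
    show ((((1 : (L ≃ₐ[K] L) →* ℂˣ) g : ℂˣ)) : ℂ) • v = v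
    simp
  unfold Representation.character
  rw [h1, h2, LinearMap.trace_id, LinearMap.trace_id]
  simp

end

/-- the Artin L-series of `m · 1` over a field of degree `1` is `ζ ^ m` -/
theorem isArtinL_copies (K : Type) [Field K] [NumberField K] (h : Module.finrank ℚ K = 1)
    (m : ℕ) :
    IsArtinL (copies m (linRep (1 : (K ≃ₐ[K] K) →* ℂˣ))).character
      (∅ : Set (HeightOneSpectrum (𝓞 K))) (riemannZeta ^ m) := by
  have hz := isArtinL_one K h
  refine ⟨fun z => (hz.1 z).pow m, fun s hs => ?_⟩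
  rw [char_copies, logL_mul, Complex.exp_nat_mul, ← hz.2 s hs]
  rfl

/-- `A(m · 1) = (-2)^m` over a field of degree `1` -/
theorem quotient_copies (K : Type) [Field K] [NumberField K] (h : Module.finrank ℚ K = 1) (m : ℕ)
    (Θ : ((K → ℝ) →₀ ℂ) →ₗ[ℂ] ((K → ℝ) →₀ ℂ)) (f : ℂ → ℂ)
    (hf : IsArtinL (copies m (linRep (1 : (K ≃ₐ[K] K) →* ℂˣ))).character
      (∅ : Set (HeightOneSpectrum (𝓞 K))) f) :
    Reg (∅ : Set (HeightOneSpectrum (𝓞 K))) (copies m (linRep (1 : (K ≃ₐ[K] K) →* ℂˣ))) Θ /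
      meromorphicTrailingCoeffAt f 0 = (-2) ^ m := by
  have hz := isArtinL_copies K h m
  have hm : MeromorphicAt riemannZeta 0 := (isArtinL_one K h).1 0
  rw [reg_one K h, lead_unique hf.1 hz.1 (fun s hs => (hf.2 s hs).trans (hz.2 s hs).symm),
    hm.meromorphicTrailingCoeffAt_pow, StarkC.MZ_thm.2, one_div, ← inv_pow]
  norm_num

/-- The assertion for `k M χ`, some `M` in `P`, is false for the pair of characters `1`, `0` of
`Gal(K/K)`, `[K : ℚ] = 1`, for all `k > 0` and all `P` which do not contain `0`. -/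
theorem not_starkRepMul (K : Type) [Field K] [NumberField K] (h : Module.finrank ℚ K = 1)
    (P : Submonoid ℕ) (hP : 0 ∉ P) (k : ℕ) (hk : 0 < k) (σ : ℂ ≃+* ℂ) :
    ¬ StarkRepMul P k (linRep (1 : (K ≃ₐ[K] K) →* ℂˣ))
      (1 : Representation ℂ (K ≃ₐ[K] K) PUnit) σ := by
  intro hS
  obtain ⟨Θ, hΘ⟩ := exists_theta K K (∅ : Finset (HeightOneSpectrum (𝓞 K)))
  obtain ⟨M, hM, hS⟩ := hS ∅ Θ hΘ
  rw [aboveSet_empty, Finset.coe_empty] at hS
  obtain ⟨f, f', hf, hf', heq⟩ := hS
  have hM0 : 0 < M := Nat.pos_of_ne_zero fun h0 => hP (h0 ▸ hM)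
  rw [quotient_copies K h _ Θ f hf, reg_one K h] at heq
  have hc : (copies (k * M) (1 : Representation ℂ (K ≃ₐ[K] K) PUnit)).character =
      fun _ => 0 := by
    funext g
    unfold Representation.character
    have h1 : copies (k * M) (1 : Representation ℂ (K ≃ₐ[K] K) PUnit) g = 0 := by
      apply LinearMap.ext
      intro v
      exact Subsingleton.elim _ _
    rw [h1, map_zero]
  have h1 : ∀ s : ℂ, 1 < s.re → f' s = 1 := by
    intro s hs
    rw [hf'.2 s hs, hc]
    have h2 : logL (K := K) (L := K) (fun _ => 0) (∅ : Set (HeightOneSpectrum (𝓞 K))) s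
        = 0 := by
      have h3 := logL_mul (K := K) (L := K) 0 (fun _ => 0) (∅ : Set (HeightOneSpectrum (𝓞 K))) s
      simpa using h3
    rw [h2, Complex.exp_zero]
  have h2 : meromorphicTrailingCoeffAt f' 0 = 1 := by
    rw [lead_unique hf'.1 (fun z => MeromorphicAt.const 1 z) h1]
    rw [meromorphicTrailingCoeffAt_const]
  rw [h2, div_one] at heq
  have h3 : ((-2 : ℂ)) ^ (k * M) = 1 := by
    apply σ.injective
    rw [heq, map_one]
  have h4 := congrArg (fun z : ℂ => ‖z‖) h3
  simp only [norm_pow, norm_neg, norm_one] at h4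
  have h5 : ‖(2 : ℂ)‖ = 2 := by norm_num
  rw [h5] at h4
  have h6 : (1 : ℝ) < 2 ^ (k * M) := one_lt_pow₀ (by norm_num) (Nat.mul_pos hk hM0).ne'
  linarith

/-- the assertion holds for all multiples of the trivial character over a field of degree `1`,
`S = S_∞` -/
theorem starkAt_one (K : Type) [Field K] [NumberField K] (h : Module.finrank ℚ K = 1) (m : ℕ)
    (Θ : ((K → ℝ) →₀ ℂ) →ₗ[ℂ] ((K → ℝ) →₀ ℂ)) (σ : ℂ ≃+* ℂ) :
    StarkAt (∅ : Set (HeightOneSpectrum (𝓞 K))) ∅ Θ
      (copies m (linRep (1 : (K ≃ₐ[K] K) →* ℂˣ)))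
      (copies m (linRep (1 : (K ≃ₐ[K] K) →* ℂˣ))) σ := by
  refine ⟨_, _, isArtinL_copies K h m, isArtinL_copies K h m, ?_⟩
  rw [quotient_copies K h m Θ _ (isArtinL_copies K h m), map_pow, map_neg]
  congr 2
  exact map_ofNat σ 2

end VAC2.Stark.Sign
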