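import Pool.Agent.Stark.PBridgeReg
import Pool.Agent.Stark.IOT
import Pool.Agent.Stark.UDE
import Pool.Agent.Stark.ND
import Pool.Agent.Stark.THE
import Pool.Agent.Stark.INFL

/-!
# Certificate for the hand-ins of MP_46b841_nt (Stark's conjecture); helper file, not a hand-in

`exists_theta`: for every finite Galois extension `L/K` of number fields and every finite `S` there
is a `Θ` as in the definition of the regulator (Dirichlet, Herbrand, Noether-Deuring): the
assertion for all `φ` in Stark's conjecture is never empty.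
-/

set_option autoImplicit false

open NumberField IsDedekindDomain
open scoped TensorProduct Classical

namespace Pool.Agent.VAC2.Stark

theorem exists_theta (K L : Type) [Field K] [NumberField K] [Field L] [NumberField L]
    [Algebra K L] [IsGalois K L] (S : Finset (HeightOneSpectrum (𝓞 K))) :
    ∃ Θ : ((L → ℝ) →₀ ℂ) →ₗ[ℂ] ((L → ℝ) →₀ ℂ),
      StarkP.IsTheta K (StarkP.aboveSet K L (S : Set (HeightOneSpectrum (𝓞 K)))) Θ := by
  have hfin : (StarkC.aboveSet K K (S : Set (HeightOneSpectrum (𝓞 K)))).Finite :=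
    StarkC.INFL.finite_aboveSet S.finite_toSet
  obtain ⟨n, b, c, -⟩ := StarkC.XRAT_thm K _ hfin
  obtain ⟨m, b', c', -⟩ := StarkC.UNIT_thm K _ hfin
  have hnm : n = m := by
    have h1 := Module.finrank_eq_card_basis c
    have h2 := Module.finrank_eq_card_basis c'
    rw [h1, Fintype.card_fin, Fintype.card_fin] at h2
    exact h2
  subst hnm
  obtain ⟨Θ, hΘ⟩ := StarkC.THE_thm StarkC.XRAT_thm StarkC.UNIT_thm K K _
    (b.equiv b' (Equiv.refl _)) hfin (by
      intro g x y hxy
      have hg : (g : K ≃+* K) = RingEquiv.refl K := by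
        ext z
        exact g.commutes z
      rw [hg] at hxy ⊢
      have h1 : StarkC.actQ (RingEquiv.refl K) (x : (K → ℝ) →₀ ℚ) = x := by
        show Finsupp.mapDomain (fun a : K → ℝ => a ∘ (RingEquiv.refl K).symm) _ = _
        exact Finsupp.mapDomain_id
      rw [h1] at hxy
      have h2 : y = x := Subtype.ext hxy
      have h3 : StarkC.actU (RingEquiv.refl K) = LinearMap.id := by
        ext u
        rfl
      rw [h2, h3]
      rfl)
  obtain ⟨φ', Θ', h', -⟩ := StarkC.INFL_thm StarkC.ND_thm StarkC.XRAT_thm StarkC.UNIT_thm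
    (StarkC.THE_thm StarkC.XRAT_thm StarkC.UNIT_thm) StarkC.IOT_thm StarkC.UDE_thm StarkC.STB_thm
    K K L S _ Θ hΘ
  obtain ⟨Θ'', h'', -⟩ := StarkB.exists_isTheta (K := K) (L := L)
    (S : Set (HeightOneSpectrum (𝓞 K))) S.finite_toSet φ' Θ' h'
  exact ⟨Θ'', h''⟩

end Pool.Agent.VAC2.Stark
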