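import Pool.Agent.StarkT.ALLZ
import Pool.Agent.StarkT.ZETA
import Pool.Agent.StarkI.PDefsI
import Pool.Agent.Stark.PBridgeReg

/-!
# Certificate for MP_46b841_nt.UnramifiedOrPrimePower (vacuity audit, not a hand-in)

* the hypothesis `IsTheta` is satisfiable for every finite Galois extension and every `S`;
* the leading coefficient `L^*` does not depend on the choice of the continuation;
* for `K = L = ℚ`, `S = S_∞`, the trivial character: `R = 1`, `L^* = ζ(0) = -1/2`, `A = -2`;
* the predicate `StarkAt` is not always true (it fails for `ρ = 1`, `ρ' = 0`);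
* the four cases are satisfiable, and they do not contain everything (`K = L = ℚ`, `ψ = 1`,
  `ε < 1`).
-/

set_option autoImplicit false

open NumberField IsDedekindDomain Filter Topology
open scoped Classical TensorProduct

namespace VAC2.Stark

/-- the hypothesis on `Θ` is satisfiable for all extensions and all `S` -/
theorem exists_theta (K L : Type) [Field K] [NumberField K] [Field L] [NumberField L]
    [Algebra K L] [IsGalois K L] (S : Finset (HeightOneSpectrum (𝓞 K))) :
    ∃ Θ, StarkP.IsTheta K (StarkP.aboveSet K L S) Θ := by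
  obtain ⟨φ, Θ, h⟩ := StarkC.ALLT.exph K L S
  obtain ⟨Θ', h', -⟩ := StarkB.exists_isTheta (K := K) (L := L)
    (S : Set (HeightOneSpectrum (𝓞 K))) S.finite_toSet φ Θ h
  exact ⟨Θ', h'⟩

/-- any two meromorphic continuations have the same leading coefficient -/
theorem lead_unique {f g : ℂ → ℂ} (hf : ∀ z, MeromorphicAt f z) (hg : ∀ z, MeromorphicAt g z)
    (h : ∀ s : ℂ, 1 < s.re → f s = g s) :
    meromorphicTrailingCoeffAt f 0 = meromorphicTrailingCoeffAt g 0 := by
  apply meromorphicTrailingCoeffAt_congr_nhdsNE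
  have hm : MeromorphicOn (f - g) Set.univ := fun z _ => (hf z).sub (hg z)
  have h2 : meromorphicOrderAt (f - g) 2 = ⊤ := by
    rw [meromorphicOrderAt_eq_top_iff]
    have h3 : ∀ᶠ z in 𝓝 (2 : ℂ), 1 < z.re :=
      (isOpen_lt continuous_const Complex.continuous_re).mem_nhds (by norm_num)
    exact (h3.filter_mono nhdsWithin_le_nhds).mono fun z hz => sub_eq_zero.2 (h z hz)
  have h0 : meromorphicOrderAt (f - g) 0 = ⊤ := by
    by_contra hne
    exact (hm.meromorphicOrderAt_ne_top_of_isPreconnected (x := 0) (y := 2) isPreconnected_univ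
      trivial trivial hne) h2
  rw [meromorphicOrderAt_eq_top_iff] at h0
  exact h0.mono fun z hz => sub_eq_zero.1 hz

theorem detOn_of_trivial {M : Type} [AddCommGroup M] [Module ℂ M] (A : M →ₗ[ℂ] M)
    (W : Submodule ℂ M) (h : ∀ x ∈ W, x = 0) : StarkP.detOn A W = 1 := by
  have h2 : Subsingleton W := ⟨fun a b => Subtype.ext ((h _ a.2).trans (h _ b.2).symm)⟩
  have h3 : ∀ x ∈ W, A x ∈ W := by
    intro x hx
    rw [h x hx, map_zero]
    exact W.zero_mem
  unfold StarkP.detOn
  rw [dif_pos h3]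
  exact LinearMap.det_eq_one_of_subsingleton _

/-- the regulators over `K = L = ℚ`, `S = S_∞` are `1` -/
theorem reg_one (K : Type) [Field K] [NumberField K] (h : Module.finrank ℚ K = 1)
    {V : Type} [AddCommGroup V] [Module ℂ V] (ρ : Representation ℂ (K ≃ₐ[K] K) V)
    (Θ : ((K → ℝ) →₀ ℂ) →ₗ[ℂ] ((K → ℝ) →₀ ℂ)) :
    StarkP.Reg (∅ : Set (HeightOneSpectrum (𝓞 K))) ρ Θ = 1 := by
  have h0 : ∀ x ∈ StarkP.XC K (∅ : Set (HeightOneSpectrum (𝓞 K))), x = 0 := by
    intro x hx
    have h1 := @Subsingleton.elim _ (StarkC.QC.subs K h)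
      (⟨x, hx⟩ : StarkC.XCsub K (∅ : Set (HeightOneSpectrum (𝓞 K)))) 0
    exact congrArg Subtype.val h1
  have h1 : ∀ f ∈ StarkP.homG (∅ : Set (HeightOneSpectrum (𝓞 K))) ρ, f = 0 := by
    intro f hf
    unfold StarkP.homG at hf
    induction hf using Submodule.span_induction with
    | mem x hx => exact LinearMap.ext fun α => h0 _ (hx.1 α)
    | zero => rfl
    | add x y _ _ hx hy => rw [hx, hy, add_zero]
    | smul a x _ hx => rw [hx, smul_zero]
  exact detOn_of_trivial _ _ h1

theorem aboveSet_empty (K : Type) [Field K] [NumberField K] :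
    StarkP.aboveSet K K (((∅ : Finset (HeightOneSpectrum (𝓞 K))) :
      Set (HeightOneSpectrum (𝓞 K)))) = ∅ := by
  rw [Finset.coe_empty]
  exact StarkC.QC.aboveSet_self K ∅

/-- the Artin L-series of the trivial character over a field of degree `1` is `ζ` -/
theorem isArtinL_one (K : Type) [Field K] [NumberField K] (h : Module.finrank ℚ K = 1) :
    StarkP.IsArtinL (StarkP.linRep (1 : (K ≃ₐ[K] K) →* ℂˣ)).character
      (∅ : Set (HeightOneSpectrum (𝓞 K))) riemannZeta := by
  refine ⟨StarkC.MZ_thm.1, fun s hs => ?_⟩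
  have h1 : (StarkP.linRep (1 : (K ≃ₐ[K] K) →* ℂˣ)).character = fun _ => 1 :=
    StarkC.QC.char_one
  rw [h1]
  exact (StarkC.ZETA_thm K h s hs).symm

/-- `A = R / L^* = -2` for the trivial character over a field of degree `1` -/
theorem quotient (K : Type) [Field K] [NumberField K] (h : Module.finrank ℚ K = 1)
    (Θ : ((K → ℝ) →₀ ℂ) →ₗ[ℂ] ((K → ℝ) →₀ ℂ)) (f : ℂ → ℂ)
    (hf : StarkP.IsArtinL (StarkP.linRep (1 : (K ≃ₐ[K] K) →* ℂˣ)).character
      (∅ : Set (HeightOneSpectrum (𝓞 K))) f) :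
    StarkP.Reg (∅ : Set (HeightOneSpectrum (𝓞 K))) (StarkP.linRep (1 : (K ≃ₐ[K] K) →* ℂˣ)) Θ /
      meromorphicTrailingCoeffAt f 0 = -2 := by
  have hz := isArtinL_one K h
  rw [reg_one K h, lead_unique hf.1 hz.1 (fun s hs => (hf.2 s hs).trans (hz.2 s hs).symm),
    StarkC.MZ_thm.2]
  norm_num

/-- the assertion holds for the trivial character over a field of degree `1` -/
theorem starkLin_one (K : Type) [Field K] [NumberField K] (h : Module.finrank ℚ K = 1) :
    StarkP.StarkLin (L := K) (∅ : Finset (HeightOneSpectrum (𝓞 K))) 1 := by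
  intro Θ σ _
  have ht : StarkP.twist σ (1 : (K ≃ₐ[K] K) →* ℂˣ) = 1 := StarkC.QC.twist_one σ
  have he := aboveSet_empty K
  rw [ht, he, Finset.coe_empty]
  refine ⟨riemannZeta, riemannZeta, isArtinL_one K h, isArtinL_one K h, ?_⟩
  rw [quotient K h Θ riemannZeta (isArtinL_one K h), map_neg]
  congr 1
  exact map_ofNat σ 2

/-- the predicate `StarkAt` is not always true -/
theorem not_starkAt (K : Type) [Field K] [NumberField K] (h : Module.finrank ℚ K = 1)
    (Θ : ((K → ℝ) →₀ ℂ) →ₗ[ℂ] ((K → ℝ) →₀ ℂ)) (σ : ℂ ≃+* ℂ) :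
    ¬ StarkP.StarkAt (∅ : Set (HeightOneSpectrum (𝓞 K))) ∅ Θ
      (StarkP.linRep (1 : (K ≃ₐ[K] K) →* ℂˣ)) (1 : Representation ℂ (K ≃ₐ[K] K) PUnit) σ := by
  rintro ⟨f, f', hf, hf', heq⟩
  rw [quotient K h Θ f hf, reg_one K h, map_neg] at heq
  have hc : (1 : Representation ℂ (K ≃ₐ[K] K) PUnit).character = fun _ => 0 := by
    funext g
    unfold Representation.character
    have h1 : (1 : Representation ℂ (K ≃ₐ[K] K) PUnit) g = 0 := Subsingleton.elim _ _
    rw [h1, map_zero]
  have h1 : ∀ s : ℂ, 1 < s.re → f' s = 1 := by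
    intro s hs
    rw [hf'.2 s hs, hc]
    have h2 : StarkP.logL (K := K) (L := K) (fun _ => 0) (∅ : Set (HeightOneSpectrum (𝓞 K))) s
        = 0 := by
      unfold StarkP.logL
      refine (tsum_congr fun p => ?_).trans tsum_zero
      have h3 : StarkP.artinCoef (K := K) (L := K) (fun _ => 0) p.1 (p.2 + 1) = 0 := by
        unfold StarkP.artinCoef StarkP.localTrace
        simp
      rw [h3]
      simp
    rw [h2, Complex.exp_zero]
  have h2 : meromorphicTrailingCoeffAt f' 0 = 1 := by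
    rw [lead_unique hf'.1 (fun z => MeromorphicAt.const 1 z) h1]
    rw [meromorphicTrailingCoeffAt_const]
  rw [h2, div_one] at heq
  have h3 : σ 2 = 2 := map_ofNat σ 2
  rw [h3] at heq
  norm_num at heq

/-- the trivial character over a field of degree `1` is in none of the four cases if `ε < 1` -/
theorem not_cases (T : Finset ℕ) (E : Type) [Field E] (ε : ℝ) (hε : ε < 1) :
    ¬ (StarkP.CaseA T ℚ ℚ 1 ∨ StarkP.CaseB E ℚ ℚ 1 ∨ StarkP.CaseC E ε ℚ ℚ 1 ∨
      StarkP.CaseD ℚ ℚ 1) := by
  have hr : InfinitePlace.nrRealPlaces ℚ = 1 := by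
    have h1 := InfinitePlace.card_add_two_mul_card_eq_rank ℚ
    rw [Module.finrank_self] at h1
    omega
  have hc : ¬ IsTotallyComplex ℚ := by
    intro hC
    have h1 := IsTotallyComplex.nrRealPlaces_eq_zero (K := ℚ) (h := hC)
    omega
  rintro (⟨h, -⟩ | ⟨h, -⟩ | ⟨h, -⟩ | ⟨-, h⟩)
  · exact hc h
  · exact hc h
  · rw [hr, Module.finrank_self] at h
    norm_num at h
    linarith
  · have h1 : ComplexEmbedding.IsConj (algebraMap ℚ ℂ) (1 : ℚ ≃ₐ[ℚ] ℚ) := by
      refine (ComplexEmbedding.isConj_one_iff).2 ?_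
      exact RingHom.ext fun x => by simp
    have h2 := h (algebraMap ℚ ℂ) 1 h1
    rw [map_one, Units.val_one] at h2
    norm_num at h2

/-- case A is satisfiable -/
theorem caseA_of (T : Finset ℕ) (K : Type) [Field K] [NumberField K] [IsTotallyComplex K] :
    Function.Injective (1 : (K ≃ₐ[K] K) →* ℂˣ) ∧ StarkP.CaseA T K K 1 := by
  have h1 : ∀ g : K ≃ₐ[K] K, g = 1 := fun g => AlgEquiv.ext fun x => g.commutes x
  exact ⟨fun a b _ => (h1 a).trans (h1 b).symm, inferInstance, fun _ g _ => h1 g,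
    fun _ _ g _ => h1 g⟩

end VAC2.Stark
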