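import Pool.Agent.BSL.St5

/-!
# Vacuity certificate for MP_4fa179_mp ErgodicLimitFields (helper file, not a hand-in)

(1) `√2 cos (2π (Re x + o))`, `o` uniform on the circle, satisfies every hypothesis that concerns the field
`F` alone, and `Ergo`; its fourth moment is not `3`, so that neither `Ergo` nor `E F(0)² = 1` implies the
conclusion for trivial reasons;
(2) the field equal to a random sign is stationary with `E F(0)² = E F(0)⁴ = 1` and is not ergodic;
(3) `QuantumErgodic` is a real condition: it fails for `φ = 0` and for `φ = 1`;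
(4) the normalisation `avg φ² = 1` forces `0 < area D < ∞`, and then the measure `rFrameProb` of random points
and frames is a probability measure (so that `hlaw` is consistent).
-/

set_option autoImplicit false

namespace VAC2.ErgodicLimitFields

open MeasureTheory UpperHalfPlane MatrixGroups Berry Filter Topology
open scoped ContDiff

noncomputable section

/-! ### an ergodic field -/

/-- the field `√2 cos (2π (Re x + o))`, `o` uniform on the circle -/
def Fc (x : ℂ) (o : UnitAddCircle) : ℝ :=
  Real.sqrt 2 * (AddCircle.toCircle (o + ((x.re : ℝ) : UnitAddCircle)) : ℂ).re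

theorem Fc_cont (x : ℂ) : Continuous (Fc x) := by
  unfold Fc
  have h1 : Continuous fun o : UnitAddCircle => AddCircle.toCircle (o + ((x.re : ℝ) : UnitAddCircle)) :=
    AddCircle.continuous_toCircle.comp (continuous_id.add continuous_const)
  exact continuous_const.mul (Complex.continuous_re.comp (continuous_subtype_val.comp h1))

theorem Fc_meas (x : ℂ) : Measurable (Fc x) := (Fc_cont x).measurable

theorem Fc_shift (x a : ℂ) (o : UnitAddCircle) :
    Fc (x + a) o = Fc x (o + ((a.re : ℝ) : UnitAddCircle)) := by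
  unfold Fc
  rw [Complex.add_re, AddCircle.coe_add]
  congr 4
  abel

instance prob : IsProbabilityMeasure (volume : Measure UnitAddCircle) :=
  ⟨UnitAddCircle.measure_univ⟩

theorem Fc_zero (t : ℝ) : Fc 0 (t : UnitAddCircle) = Real.sqrt 2 * Real.cos (2 * Real.pi * t) := by
  unfold Fc
  rw [Complex.zero_re, AddCircle.coe_zero, add_zero, AddCircle.toCircle_apply_mk, Circle.coe_exp,
    Complex.exp_ofReal_mul_I_re, div_one]

theorem Fc_sq : ∫ o, Fc 0 o ^ 2 = 1 := by
  rw [← UnitAddCircle.intervalIntegral_preimage 0 fun o => Fc 0 o ^ 2]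
  have h1 : ∀ t : ℝ, Fc 0 (t : UnitAddCircle) ^ 2 = 1 + Real.cos (4 * Real.pi * t) := by
    intro t
    rw [Fc_zero, mul_pow, Real.sq_sqrt (by norm_num), Real.cos_sq]
    ring_nf
  simp only [h1]
  have h3 : Continuous fun t : ℝ => Real.cos (4 * Real.pi * t) :=
    Real.continuous_cos.comp (continuous_const.mul continuous_id)
  rw [intervalIntegral.integral_add (by simp) (h3.intervalIntegrable _ _),
    intervalIntegral.integral_comp_mul_left (fun t => Real.cos t) (by positivity), integral_cos]
  have h2 : Real.sin (4 * Real.pi * (0 + 1)) = 0 := by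
    have := Real.sin_nat_mul_pi 4
    push_cast at this
    rw [zero_add, mul_one]
    exact this
  rw [h2, mul_zero, Real.sin_zero]
  simp

theorem Fc_int4 : Integrable (fun o => Fc 0 o ^ 4) (volume : Measure UnitAddCircle) :=
  ((Fc_cont 0).pow 4).integrable_of_hasCompactSupport (HasCompactSupport.of_compactSpace _)

theorem Fc_int2 : Integrable (fun o => Fc 0 o ^ 2) (volume : Measure UnitAddCircle) :=
  ((Fc_cont 0).pow 2).integrable_of_hasCompactSupport (HasCompactSupport.of_compactSpace _)

theorem Fc_le (o : UnitAddCircle) : Fc 0 o ^ 2 ≤ 2 := by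
  unfold Fc
  rw [mul_pow, Real.sq_sqrt (by norm_num)]
  have h1 : |(AddCircle.toCircle (o + (((0 : ℂ).re : ℝ) : UnitAddCircle)) : ℂ).re| ≤ 1 :=
    (Complex.abs_re_le_norm _).trans (le_of_eq (Circle.norm_coe _))
  have h2 := (sq_le_one_iff_abs_le_one _).2 h1
  linarith

/-- the fourth moment is not that of a Gaussian variable -/
theorem Fc_four : ∫ o, Fc 0 o ^ 4 ≤ 2 := by
  have h1 : ∀ o, Fc 0 o ^ 4 ≤ 2 * Fc 0 o ^ 2 := by
    intro o
    nlinarith [Fc_le o, sq_nonneg (Fc 0 o)]
  calc ∫ o, Fc 0 o ^ 4 ≤ ∫ o, 2 * Fc 0 o ^ 2 :=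
        integral_mono Fc_int4 (Fc_int2.const_mul 2) h1
    _ = 2 := by rw [integral_const_mul, Fc_sq, mul_one]

/-- the field as a random function -/
theorem Fc_meas' : Measurable fun (o : UnitAddCircle) (x : ℂ) => Fc x o :=
  measurable_pi_iff.2 fun x => Fc_meas x

theorem irr : addOrderOf ((Real.sqrt 2 : ℝ) : UnitAddCircle) = 0 := by
  rw [addOrderOf_eq_zero_iff]
  intro h
  rw [isOfFinAddOrder_iff_nsmul_eq_zero] at h
  obtain ⟨n, hn, h⟩ := h
  rw [← AddCircle.coe_nsmul, AddCircle.coe_eq_zero_iff] at h
  obtain ⟨k, hk⟩ := h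
  have hn' : (n : ℝ) ≠ 0 := by exact_mod_cast hn.ne'
  apply irrational_sqrt_two
  refine ⟨(k : ℚ) / n, ?_⟩
  push_cast
  rw [div_eq_iff hn']
  simp only [zsmul_eq_mul, mul_one, nsmul_eq_mul] at hk
  rw [hk]
  ring

/-- **the explicit field is ergodic in the sense of the hand-in** -/
theorem Fc_ergo : BSL.Ergo (volume : Measure UnitAddCircle) Fc := by
  constructor
  · intro a
    have h1 : (fun (o : UnitAddCircle) (x : ℂ) => Fc (x + a) o) =
        (fun (o : UnitAddCircle) (x : ℂ) => Fc x o) ∘
          (fun o => o + ((a.re : ℝ) : UnitAddCircle)) := by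
      funext o x
      exact Fc_shift x a o
    rw [h1, ← Measure.map_map Fc_meas' (measurable_add_const _),
      (measurePreserving_add_right volume ((a.re : ℝ) : UnitAddCircle)).map_eq]
  · intro A hA h
    set B : Set UnitAddCircle := {o | (fun x => Fc x o) ∈ A} with hB
    have hBm : MeasurableSet B := Fc_meas' hA
    have hE : Ergodic (fun o : UnitAddCircle => o + ((Real.sqrt 2 : ℝ) : UnitAddCircle)) volume :=
      AddCircle.ergodic_add_right.2 irr
    have h1 := h ((Real.sqrt 2 : ℝ) : ℂ)
    have h2 : (fun o : UnitAddCircle => o + ((Real.sqrt 2 : ℝ) : UnitAddCircle)) ⁻¹' B =ᵐ[volume] B := by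
      filter_upwards [h1] with o ho
      apply propext
      have h3 : (fun x => Fc (x + ((Real.sqrt 2 : ℝ) : ℂ)) o) =
          fun x => Fc x (o + ((Real.sqrt 2 : ℝ) : UnitAddCircle)) := by
        funext x
        rw [Fc_shift, Complex.ofReal_re]
      rw [h3] at ho
      exact ho
    rcases hE.quasiErgodic.ae_mem_or_ae_notMem₀ hBm.nullMeasurableSet h2 with h4 | h4
    · right
      exact (mem_ae_iff_prob_eq_one hBm).1 h4
    · left
      exact measure_eq_zero_iff_ae_notMem.2 h4

/-! ### a stationary field which is not ergodic -/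

/-- a random sign -/
def Fs (_ : ℂ) (o : Bool) : ℝ := if o then 1 else -1

/-- the uniform distribution on two points -/
def Ps : Measure Bool := (2 : ENNReal)⁻¹ • Measure.dirac true + (2 : ENNReal)⁻¹ • Measure.dirac false

theorem Ps_apply (s : Set Bool) : Ps s = (2 : ENNReal)⁻¹ * s.indicator 1 true +
    (2 : ENNReal)⁻¹ * s.indicator 1 false := by
  rw [Ps, Measure.add_apply, Measure.smul_apply, Measure.smul_apply, smul_eq_mul, smul_eq_mul,
    Measure.dirac_apply, Measure.dirac_apply]

theorem Ps_prob : IsProbabilityMeasure Ps := by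
  constructor
  rw [Ps_apply]
  simp [ENNReal.inv_two_add_inv_two]

theorem Fs_moments : ∫ o, Fs 0 o ^ 2 ∂Ps = 1 ∧ ∫ o, Fs 0 o ^ 4 ∂Ps = 1 := by
  have := Ps_prob
  constructor
  · have h : ∀ o, Fs 0 o ^ 2 = 1 := by
      intro o
      cases o <;> simp [Fs]
    simp only [h]
    rw [integral_const, probReal_univ, smul_eq_mul, mul_one]
  · have h : ∀ o, Fs 0 o ^ 4 = 1 := by
      intro o
      cases o <;> norm_num [Fs]
    simp only [h]
    rw [integral_const, probReal_univ, smul_eq_mul, mul_one]

theorem Fs_stat : ∀ a : ℂ,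
    Measure.map (fun o x => Fs (x + a) o) Ps = Measure.map (fun o x => Fs x o) Ps :=
  fun _ => rfl

/-- **a mixture is not ergodic in the sense of the hand-in** -/
theorem Fs_not_ergo : ¬ BSL.Ergo Ps Fs := by
  intro h
  have hA : MeasurableSet {f : ℂ → ℝ | 0 < f 0} :=
    measurableSet_lt measurable_const (measurable_pi_apply 0)
  have h1 := h.erg {f : ℂ → ℝ | 0 < f 0} hA (fun a => Filter.Eventually.of_forall fun o => Iff.rfl)
  have h2 : {o : Bool | (fun x : ℂ => Fs x o) ∈ {f : ℂ → ℝ | 0 < f 0}} = {true} := by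
    ext o
    cases o <;> simp [Fs]
  rw [h2, Ps_apply] at h1
  simp at h1

/-! ### quantum ergodicity is a real condition -/

/-- a bump at `i` -/
def bump : ContDiffBump (Complex.I : ℂ) where
  rIn := 1 / 4
  rOut := 1 / 2
  rIn_pos := by norm_num
  rIn_lt_rOut := by norm_num

/-- the bump, as a test function -/
def zet (z : ℂ) : ℂ := ((bump z : ℝ) : ℂ)

theorem zet_smooth : ContDiff ℝ ∞ zet :=
  Complex.ofRealCLM.contDiff.comp bump.contDiff

theorem zet_tsupport : tsupport zet ⊆ Metric.closedBall Complex.I (1 / 2) := by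
  have h1 : tsupport zet ⊆ tsupport bump := by
    refine closure_mono ?_
    intro z hz
    rw [Function.mem_support] at hz ⊢
    intro h
    exact hz (by rw [zet, h, Complex.ofReal_zero])
  exact h1.trans (le_of_eq bump.tsupport_eq)

theorem zet_supp : HasCompactSupport zet :=
  HasCompactSupport.of_support_subset_isCompact (isCompact_closedBall Complex.I (1 / 2))
    ((subset_tsupport _).trans zet_tsupport)

theorem zet_im : tsupport zet ⊆ {w | 0 < w.im} := by
  intro z hz
  have h1 := zet_tsupport hz
  rw [Metric.mem_closedBall, dist_eq_norm] at h1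
  have h2 : |(z - Complex.I).im| ≤ 1 / 2 := (Complex.abs_im_le_norm _).trans h1
  rw [Complex.sub_im, Complex.I_im, abs_le] at h2
  show 0 < z.im
  linarith [h2.1]

theorem zet_int : (∫ z : ℂ, zet z) ≠ 0 := by
  have h1 : ∫ z : ℂ, zet z = ((∫ z : ℂ, bump z : ℝ) : ℂ) := integral_ofReal
  rw [h1]
  exact_mod_cast (bump.integral_pos (μ := (volume : Measure ℂ))).ne'

/-- **the functions `0` are not quantum ergodic** -/
theorem not_qe_zero (ρ : ℍ → ℝ) (m : ℕ → ℝ) : ¬ QE.QuantumErgodic ρ (fun _ _ => 0) m := by
  intro h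
  have h1 := h 0 0 zet zet_smooth zet_supp zet_im
  simp only [Function.iterate_zero, id_eq, Complex.ofReal_zero, mul_zero, integral_zero, pow_zero,
    intervalIntegral.integral_const, sub_zero, smul_eq_mul, mul_one] at h1
  have h2 := tendsto_nhds_unique h1 tendsto_const_nhds
  apply zet_int
  rw [← h2]
  refine integral_congr_ae (Filter.Eventually.of_forall fun z => ?_)
  have h3 : (1 / (2 * Real.pi) * (2 * Real.pi) : ℝ) = 1 := by
    have := Real.pi_pos
    field_simp
  simp only [h3, Complex.ofReal_one, mul_one]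

/-- the test function `2 y² bump` -/
def zet2 (z : ℂ) : ℂ := ((bump z * (2 * z.im ^ 2) : ℝ) : ℂ)

theorem zet2_smooth : ContDiff ℝ ∞ zet2 :=
  Complex.ofRealCLM.contDiff.comp (bump.contDiff.mul (contDiff_const.mul
    (Complex.imCLM.contDiff.pow 2)))

theorem zet2_tsupport : tsupport zet2 ⊆ Metric.closedBall Complex.I (1 / 2) := by
  have h1 : tsupport zet2 ⊆ tsupport bump := by
    refine closure_mono ?_
    intro z hz
    rw [Function.mem_support] at hz ⊢
    intro h
    exact hz (by rw [zet2, h, zero_mul, Complex.ofReal_zero])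
  exact h1.trans (le_of_eq bump.tsupport_eq)

theorem zet2_supp : HasCompactSupport zet2 :=
  HasCompactSupport.of_support_subset_isCompact (isCompact_closedBall Complex.I (1 / 2))
    ((subset_tsupport _).trans zet2_tsupport)

theorem ball_im {z : ℂ} (hz : z ∈ Metric.closedBall Complex.I (1 / 2)) : 0 < z.im := by
  rw [Metric.mem_closedBall, dist_eq_norm] at hz
  have h2 : |(z - Complex.I).im| ≤ 1 / 2 := (Complex.abs_im_le_norm _).trans hz
  rw [Complex.sub_im, Complex.I_im, abs_le] at h2
  linarith [h2.1]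

theorem hD_const (h : ℝ) (v c : ℂ) : QE.hD h v (fun _ => c) = fun _ => 0 := by
  funext z
  rw [QE.hD, fderiv_fun_const]
  simp

/-- **the normalised functions `1` are not quantum ergodic** (for the hyperbolic metric) -/
theorem not_qe_one (m : ℕ → ℝ) : ¬ QE.QuantumErgodic (fun _ => 0) (fun _ _ => 1) m := by
  intro h
  have h1 := h 2 0 zet2 zet2_smooth zet2_supp fun z hz => ball_im (zet2_tsupport hz)
  have h3 : ∀ n : ℕ, (QE.hD (1 / m n) 1)^[2] ((QE.hD (1 / m n) Complex.I)^[0]
      (fun _ : ℂ => ((1 : ℝ) : ℂ))) = fun _ => 0 := by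
    intro n
    rw [Function.iterate_zero, id_eq, Function.iterate_succ, Function.iterate_one,
      Function.comp_apply, hD_const, hD_const]
  simp only [h3, zero_mul, mul_zero, integral_zero] at h1
  have h2 := tendsto_nhds_unique h1 tendsto_const_nhds
  apply zet_int
  rw [← h2]
  refine integral_congr_ae (Filter.Eventually.of_forall fun z => ?_)
  by_cases hz : z ∈ Metric.closedBall Complex.I (1 / 2)
  · have h5 := ball_im hz
    have h4 : (1 / (2 * Real.pi) * ∫ θ in (0 : ℝ)..(2 * Real.pi),
        (Real.exp 0 / z.im * Real.cos θ) ^ 2 * (Real.exp 0 / z.im * Real.sin θ) ^ 0 : ℝ) =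
        1 / (2 * z.im ^ 2) := by
      simp only [pow_zero, mul_one, mul_pow, Real.exp_zero]
      rw [intervalIntegral.integral_const_mul, integral_cos_sq]
      have := Real.pi_pos
      simp only [Real.sin_two_pi, Real.sin_zero, mul_zero, sub_zero, zero_add]
      field_simp
    show zet z = zet2 z * _
    rw [h4, zet2, zet, ← Complex.ofReal_mul]
    congr 1
    field_simp
  · have h6 : bump z = 0 := by
      by_contra h7
      exact hz (bump.tsupport_eq.le (subset_tsupport _ h7))
    show zet z = zet2 z * _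
    rw [zet, zet2, h6]
    simp

/-! ### points and frames -/

/-- the normalisation forces a finite positive area -/
theorem area_of_avg {ρ : ℍ → ℝ} {D : Set ℍ} {φ : ℍ → ℝ} (h : rAvg ρ D (fun z => φ z ^ 2) = 1) :
    area ρ D ≠ 0 ∧ area ρ D ≠ ⊤ := by
  by_contra hne
  have h1 : ProbabilityTheory.cond (area ρ) D = 0 := by
    rw [ProbabilityTheory.cond_eq_zero]
    by_contra h2
    push Not at h2
    exact hne ⟨h2.2, h2.1⟩
  rw [rAvg, h1, integral_zero_measure] at h
  exact zero_ne_one h

/-- **the measure of random points and frames is a probability measure** -/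
theorem frame_prob {ρ : ℍ → ℝ} {D : Set ℍ} {φ : ℍ → ℝ} (h : rAvg ρ D (fun z => φ z ^ 2) = 1) :
    IsProbabilityMeasure (rFrameProb ρ D) := by
  have h1 := area_of_avg h
  have h2 : IsProbabilityMeasure (ProbabilityTheory.cond (area ρ) D) :=
    ProbabilityTheory.cond_isProbabilityMeasure_of_finite h1.1 h1.2
  have h3 : IsProbabilityMeasure
      (ProbabilityTheory.cond (volume : Measure ℝ) (Set.Ioc 0 (2 * Real.pi))) := by
    apply ProbabilityTheory.cond_isProbabilityMeasure_of_finite
    · rw [Real.volume_Ioc]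
      simp [Real.pi_pos]
    · exact measure_Ioc_lt_top.ne
  rw [rFrameProb]
  infer_instance

/-- the covariance function is not constant -/
theorem waveK_real : waveK 0 = 1 ∧ ∃ x : ℂ, |waveK x| ≤ 1 / 2 := by
  refine ⟨waveK_zero, ?_⟩
  obtain ⟨N, hN⟩ := waveK_vanishes (1 / 2) (by norm_num)
  refine ⟨((|N| : ℝ) : ℂ), hN _ ?_⟩
  rw [Complex.norm_real, Real.norm_eq_abs, abs_abs]
  exact le_abs_self N

end

end VAC2.ErgodicLimitFields
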