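import Pool.Agent.LibH11.QEV.Loc3
import Pool.Agent.LibH11.Berry.WaveK
import Pool.Agent.LibH11.QEV.LocDefs

/-!
# Vacuity certificate for MP_4fa179_mp NegativeCurvatureOrderFour (helper file, not a hand-in)

(1) The normalisation `rAvg ρ D (φₙ²) = 1` alone excludes the junk values of the averages: the
measures behind `rAvg` and `rFrameProb` are probability measures (so `D` has positive finite area).
(2) Under it `E Fₙ(0)² = 1` for every `n`: the local waves are normalised as `F_unif,1`.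
(3) The limits in the theorem are not degenerate: for `x ≠ y` the variance `τ²` of `F(x) - F(y)` is
positive, and `1 ≤ 1 + 2 K(x - y)² < 3`.
(4) The trivial (Cauchy-Schwarz) lower bound for `avg φₙ⁴` is `1`, the theorem says `3`.
-/

set_option autoImplicit false

open MeasureTheory UpperHalfPlane Berry

namespace VAC2.NegCurvOrderFour

theorem prob {ρ : ℍ → ℝ} {D : Set ℍ} {f : ℍ → ℝ} (h : rAvg ρ D f = 1) :
    IsProbabilityMeasure (ProbabilityTheory.cond (area ρ) D) := by
  unfold rAvg at h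
  by_cases h0 : area ρ D = 0
  · have h1 : ProbabilityTheory.cond (area ρ) D = 0 :=
      ProbabilityTheory.cond_eq_zero_of_meas_eq_zero h0
    rw [h1, integral_zero_measure] at h
    exact absurd h zero_ne_one
  · by_cases h2 : area ρ D = ⊤
    · have h1 : ProbabilityTheory.cond (area ρ) D = 0 := by
        unfold ProbabilityTheory.cond
        rw [h2, ENNReal.inv_top, zero_smul]
      rw [h1, integral_zero_measure] at h
      exact absurd h zero_ne_one
    · exact ProbabilityTheory.cond_isProbabilityMeasure_of_finite h0 h2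

theorem angle_prob : IsProbabilityMeasure
    (ProbabilityTheory.cond (volume : Measure ℝ) (Set.Ioc 0 (2 * Real.pi))) := by
  apply ProbabilityTheory.cond_isProbabilityMeasure_of_finite
  · rw [Real.volume_Ioc, Ne, ENNReal.ofReal_eq_zero, not_le, sub_zero]; positivity
  · rw [Real.volume_Ioc]; exact ENNReal.ofReal_ne_top

/-- (1) -/
theorem frame_prob {ρ : ℍ → ℝ} {D : Set ℍ} {f : ℍ → ℝ} (h : rAvg ρ D f = 1) :
    IsProbabilityMeasure (rFrameProb ρ D) := by
  have h1 := prob h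
  have h2 := angle_prob
  unfold rFrameProb
  infer_instance

/-- (2) -/
theorem energy {ρ : ℍ → ℝ} {D : Set ℍ} (φ : ℕ → ℍ → ℝ) (m : ℕ → ℝ)
    (hn : ∀ n, rAvg ρ D (fun z => φ n z ^ 2) = 1) (n : ℕ) :
    ∫ p, rWave ρ (φ n) (m n) 0 p ^ 2 ∂(rFrameProb ρ D) = 1 := by
  have h1 := prob (hn n)
  have h2 := angle_prob
  have h3 : ∀ p : ℍ × ℝ, rWave ρ (φ n) (m n) 0 p ^ 2 = φ n p.1 ^ 2 := fun p => by
    rw [QE.rWave_origin]
  simp_rw [h3]
  unfold rFrameProb
  rw [integral_fun_fst (fun z => φ n z ^ 2), probReal_univ, one_smul]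
  exact hn n

/-- (3) -/
theorem waveK_lt_one {x : ℂ} (hx : x ≠ 0) : waveK x < 1 ∧ -1 < waveK x := by
  rw [waveK_eq_norm]
  have hπ := Real.pi_pos
  have hx0 : 0 < ‖x‖ := norm_pos_iff.2 hx
  have hc : Continuous fun θ : ℝ => Real.cos (‖x‖ * Real.cos θ) := by fun_prop
  have h2π : (0 : ℝ) < 2 * Real.pi := by positivity
  constructor
  · have h0 : ∫ θ in (0 : ℝ)..(2 * Real.pi), (1 : ℝ) = 2 * Real.pi := by simp
    have h1 : ∫ θ in (0 : ℝ)..(2 * Real.pi), Real.cos (‖x‖ * Real.cos θ) <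
        ∫ θ in (0 : ℝ)..(2 * Real.pi), (1 : ℝ) := by
      refine intervalIntegral.integral_lt_integral_of_continuousOn_of_le_of_exists_lt h2π
        hc.continuousOn continuousOn_const (fun θ _ => Real.cos_le_one _)
        ⟨Real.arccos (min 1 (1 / ‖x‖)), ⟨Real.arccos_nonneg _, ?_⟩, ?_⟩
      · linarith [Real.arccos_le_pi (min 1 (1 / ‖x‖))]
      · have h3 : 0 < min 1 (1 / ‖x‖) := lt_min one_pos (by positivity)
        rw [Real.cos_arccos (by linarith) (min_le_left _ _)]
        have h4 : ‖x‖ * min 1 (1 / ‖x‖) ≤ 1 := by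
          calc ‖x‖ * min 1 (1 / ‖x‖) ≤ ‖x‖ * (1 / ‖x‖) :=
                mul_le_mul_of_nonneg_left (min_le_right _ _) hx0.le
            _ = 1 := by field_simp
        have h5 : 0 < ‖x‖ * min 1 (1 / ‖x‖) := mul_pos hx0 h3
        have h6 := Real.cos_lt_cos_of_nonneg_of_le_pi (x := 0) le_rfl
          (by linarith [Real.two_le_pi]) h5
        rwa [Real.cos_zero] at h6
    rw [h0] at h1
    rw [inv_mul_lt_iff₀ h2π, mul_one]
    exact h1
  · have h0 : ∫ θ in (0 : ℝ)..(2 * Real.pi), (-1 : ℝ) = -(2 * Real.pi) := by simp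
    have h1 : ∫ θ in (0 : ℝ)..(2 * Real.pi), (-1 : ℝ) <
        ∫ θ in (0 : ℝ)..(2 * Real.pi), Real.cos (‖x‖ * Real.cos θ) := by
      refine intervalIntegral.integral_lt_integral_of_continuousOn_of_le_of_exists_lt h2π
        continuousOn_const hc.continuousOn (fun θ _ => Real.neg_one_le_cos _)
        ⟨Real.pi / 2, ⟨by positivity, by linarith⟩, ?_⟩
      rw [Real.cos_pi_div_two, mul_zero, Real.cos_zero]
      norm_num
    rw [h0] at h1
    rw [lt_inv_mul_iff₀ h2π]
    linarith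

theorem tau_pos {x y : ℂ} (h : x ≠ y) :
    0 < ∑ i : Fin 2, ∑ j : Fin 2, (![1, -1] : Fin 2 → ℝ) i * (![1, -1] : Fin 2 → ℝ) j *
      waveK ((![x, y] : Fin 2 → ℂ) i - (![x, y] : Fin 2 → ℂ) j) := by
  have h1 := (waveK_lt_one (sub_ne_zero.2 h)).1
  have h2 := (waveK_lt_one (sub_ne_zero.2 h.symm)).1
  simp [Fin.sum_univ_two, waveK_zero]
  linarith

theorem corr_range {x y : ℂ} (h : x ≠ y) :
    1 ≤ 1 + 2 * waveK (x - y) ^ 2 ∧ 1 + 2 * waveK (x - y) ^ 2 < 3 := by
  obtain ⟨h1, h2⟩ := waveK_lt_one (sub_ne_zero.2 h)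
  refine ⟨by nlinarith [sq_nonneg (waveK (x - y))], ?_⟩
  nlinarith

/-- (4) the trivial bound: `1 ≤ avg φₙ⁴` if `φₙ⁴` is integrable -/
theorem trivial_bound {ρ : ℍ → ℝ} {D : Set ℍ} {f : ℍ → ℝ}
    (h : rAvg ρ D (fun z => f z ^ 2) = 1)
    (hi : Integrable (fun z => f z ^ 4) (ProbabilityTheory.cond (area ρ) D)) :
    1 ≤ rAvg ρ D fun z => f z ^ 4 := by
  have h1 := prob h
  have hi2 : Integrable (fun z => f z ^ 2) (ProbabilityTheory.cond (area ρ) D) := by
    by_contra h2
    have h3 := integral_undef h2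
    unfold rAvg at h
    rw [h3] at h
    exact zero_ne_one h
  have h4 : 0 ≤ ∫ z, (f z ^ 2 - 1) ^ 2 ∂(ProbabilityTheory.cond (area ρ) D) :=
    integral_nonneg fun z => sq_nonneg _
  have h5 : (fun z => (f z ^ 2 - 1) ^ 2) =
      ((fun z => f z ^ 4) - fun z => 2 * f z ^ 2) + fun _ => (1 : ℝ) := by
    funext z
    simp only [Pi.add_apply, Pi.sub_apply]
    ring
  rw [h5, integral_add' (hi.sub (hi2.const_mul 2)) (integrable_const 1),
    integral_sub' hi (hi2.const_mul 2), integral_const_mul, integral_const, probReal_univ] at h4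
  unfold rAvg at h ⊢
  rw [h] at h4
  simp at h4
  linarith

end VAC2.NegCurvOrderFour
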