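import Pool.Agent.LibH11.Berry.RFin1
import Pool.Agent.LibH11.Berry.WaveK

/-!
Certificate (helper file, not a hand-in) for `MP_4fa179_mp.NegativeCurvatureThirdOrder`.

The integrals of the statement are over honest probability measures (the normalisation hypothesis
forces this), the conclusion at the origin is exact and agrees with the limit, the curvature
hypothesis holds for the hyperbolic metric, and the limit zero of the third moments is not automatic
for monochromatic waves: three resonant directions at 120 degrees have a third moment different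
from zero.
-/

open MeasureTheory UpperHalfPlane MatrixGroups Berry Filter Topology
open scoped ContDiff

namespace VAC2.NCTO

/-- the covariance at the origin is one -/
theorem waveK_zero' : waveK 0 = 1 := waveK_zero

/-- the normalisation `hn` of the statement forces `D` to have positive finite area, so that
the conditional measure is a probability measure -/
theorem cond_prob {ρ : ℍ → ℝ} {D : Set ℍ} {f : ℍ → ℝ} (h : rAvg ρ D f = 1) :
    IsProbabilityMeasure (ProbabilityTheory.cond (area ρ) D) := by
  have h0 : area ρ D ≠ 0 := by
    intro h0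
    have : (area ρ).restrict D = 0 := Measure.restrict_eq_zero.2 h0
    unfold rAvg ProbabilityTheory.cond at h
    rw [this, smul_zero, integral_zero_measure] at h
    exact zero_ne_one h
  have h1 : area ρ D ≠ ⊤ := by
    intro h1
    unfold rAvg ProbabilityTheory.cond at h
    rw [h1, ENNReal.inv_top, zero_smul, integral_zero_measure] at h
    exact zero_ne_one h
  exact ProbabilityTheory.cond_isProbabilityMeasure_of_finite h0 h1

/-- the random frame has an honest probability distribution -/
theorem frame_prob {ρ : ℍ → ℝ} {D : Set ℍ} {f : ℍ → ℝ} (h : rAvg ρ D f = 1) :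
    IsProbabilityMeasure (rFrameProb ρ D) := by
  have h1 := cond_prob h
  have h2 := angle_prob
  unfold rFrameProb
  infer_instance

/-- the wave at the origin is the value of the eigenfunction at the random point -/
theorem rWave_zero (ρ φ : ℍ → ℝ) (m : ℝ) (p : ℍ × ℝ) : rWave ρ φ m 0 p = φ p.1 := by
  unfold rWave
  rw [zero_div, add_zero, ← UpperHalfPlane.coe_I, ofComplex_apply, frame_smul_I]

lemma fst_int {X Y : Type*} [MeasurableSpace X] [MeasurableSpace Y] (μ : Measure X)
    (ν : Measure Y) [IsProbabilityMeasure μ] [IsProbabilityMeasure ν] (f : X → ℝ) :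
    ∫ p : X × Y, f p.1 ∂(μ.prod ν) = ∫ x, f x ∂μ := by
  rw [integral_fun_fst]
  simp

/-- the second moment at the origin is exactly one, as `waveK 0` -/
theorem second_moment {ρ : ℍ → ℝ} {D : Set ℍ} {φ : ℍ → ℝ} (m : ℝ)
    (h : rAvg ρ D (fun z => φ z ^ 2) = 1) :
    ∫ p, rWave ρ φ m 0 p * rWave ρ φ m 0 p ∂(rFrameProb ρ D) = waveK (0 - 0) := by
  have h1 := cond_prob h
  have h2 := angle_prob
  rw [sub_zero, waveK_zero]
  simp only [rWave_zero]
  unfold rFrameProb
  have e : (fun p : ℍ × ℝ => φ p.1 * φ p.1) = fun p : ℍ × ℝ => (fun z => φ z ^ 2) p.1 := by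
    funext p; ring
  rw [e, fst_int (ProbabilityTheory.cond (area ρ) D) _ (fun z => φ z ^ 2)]
  exact h

/-- the first moments at the origin and the third moment at the origin are the means of `φ` and
`φ ^ 3` over the closed surface: no other normalisation enters -/
theorem third_moment {ρ : ℍ → ℝ} {D : Set ℍ} {φ : ℍ → ℝ} (m : ℝ)
    (h : rAvg ρ D (fun z => φ z ^ 2) = 1) :
    ∫ p, rWave ρ φ m 0 p * rWave ρ φ m 0 p * rWave ρ φ m 0 p ∂(rFrameProb ρ D)
      = rAvg ρ D (fun z => φ z ^ 3) := by
  have h1 := cond_prob h
  have h2 := angle_prob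
  simp only [rWave_zero]
  unfold rFrameProb rAvg
  have e : (fun p : ℍ × ℝ => φ p.1 * φ p.1 * φ p.1)
      = fun p : ℍ × ℝ => (fun z => φ z ^ 3) p.1 := by
    funext p; ring
  rw [e, fst_int (ProbabilityTheory.cond (area ρ) D) _ (fun z => φ z ^ 3)]

/-- the curvature hypothesis holds for the hyperbolic metric `ρ = 0` -/
theorem hyperbolic_neg (z : ℍ) :
    0 < 1 + z.im ^ 2 * Laplacian.laplacian (fun w : ℂ => (fun _ : ℍ => (0:ℝ)) (ofComplex w)) z := by
  have : Laplacian.laplacian (fun w : ℂ => (fun _ : ℍ => (0:ℝ)) (ofComplex w)) = 0 := by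
    simp
  rw [this]
  simp

/-- three resonant directions: the third mixed moment of the three unit waves in directions at 120
degrees with phases adding up to zero is `1 / 4`, not zero.  So the vanishing of the third moments is
a real restriction on an isotropic monochromatic wave. -/
theorem resonance : ∫ a in (0:ℝ)..(2 * Real.pi), ∫ b in (0:ℝ)..(2 * Real.pi),
    Real.cos a * Real.cos b * Real.cos (-(a + b)) = (1 / 4) * (2 * Real.pi) ^ 2 := by
  have e1 : ∀ a : ℝ, ∫ b in (0:ℝ)..(2 * Real.pi), Real.cos a * Real.cos b * Real.cos (-(a + b))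
      = Real.pi * Real.cos a ^ 2 := by
    intro a
    have e : ∀ b : ℝ, Real.cos a * Real.cos b * Real.cos (-(a + b))
        = Real.cos a ^ 2 * Real.cos b ^ 2
          - Real.cos a * Real.sin a * (Real.sin b * Real.cos b) := by
      intro b
      rw [Real.cos_neg, Real.cos_add]
      ring
    simp only [e]
    rw [intervalIntegral.integral_sub, intervalIntegral.integral_const_mul,
      intervalIntegral.integral_const_mul, integral_cos_sq, integral_sin_mul_cos₁]
    · simp
      ring
    · exact Continuous.intervalIntegrable (by fun_prop) _ _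
    · exact Continuous.intervalIntegrable (by fun_prop) _ _
  simp only [e1]
  rw [intervalIntegral.integral_const_mul, integral_cos_sq]
  simp
  ring

end VAC2.NCTO
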