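import Pool.Agent.AFH.Defs

/-!
Certificate that MP_5e85fc_lc/AlternatingHeads is neither vacuous nor trivial (helper file, not a
hand-in).

1. `not_all`: pushdown automata with any number of heads do not accept all languages, so that
   `∃ P, P.Det ∧ P.lang = M.lang` is a real condition.
2. `zero_heads`: automata without heads accept only `∅` and the set of all words, so the number of
   heads counts.
3. `fa_lang`: an alternating automaton without universal states accepts the same words as the
   nondeterministic automaton with the same transitions (both semantics agree).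
4. `allTrue_lang`: an alternating automaton that really uses universal states: it accepts the words
   all letters of which are `true`.
-/

set_option autoImplicit false

namespace Pool.Agent.VAC2.AltHeads

open Pool.Agent.Heads Pool.Agent.AFH

/-! ### 1. Not all languages -/

/-- renaming of the stack symbols -/
def opMap {Γ Δ : Type} (f : Γ → Δ) : Op Γ → Op Δ
  | Op.none => Op.none
  | Op.push g => Op.push (f g)
  | Op.pop => Op.pop

theorem apply_map {Γ Δ : Type} (f : Γ → Δ) (o : Op Γ) (s : List Γ) :
    (opMap f o).apply (s.map f) = (o.apply s).map f := by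
  cases o <;> simp [opMap, Op.apply, List.map_tail]

variable {α : Type} {k n m : ℕ}

/-- the same automaton with states `Fin n` and stack symbols `Fin m` -/
def tr (P : PDA α k) (e : P.Q ≃ Fin n) (f : P.Γ ≃ Fin m) : PDA α k where
  Q := Fin n
  Γ := Fin m
  finQ := inferInstance
  finΓ := inferInstance
  start := e P.start
  accept := {q | e.symm q ∈ P.accept}
  δ q x g := {t | (e.symm t.1, t.2.1, opMap f.symm t.2.2) ∈ P.δ (e.symm q) x (g.map f.symm)}

theorem tr_reach (P : PDA α k) (e : P.Q ≃ Fin n) (f : P.Γ ≃ Fin m) (w : List α) (t : ℕ)
    (c : Cfg (tr P e f).Q (Fin k → ℕ) (tr P e f).Γ) (h : (tr P e f).Reach w t c) :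
    P.Reach w t ⟨e.symm c.state, c.pos, List.map f.symm c.stack⟩ := by
  induction h with
  | zero =>
    have : (⟨e.symm (e P.start), fun _ => 0, List.map f.symm []⟩ :
        Cfg P.Q (Fin k → ℕ) P.Γ) = P.init := by
      simp [PDA.init]
    exact this ▸ PDA.Reach.zero
  | @succ t c c' _ hs ih =>
    obtain ⟨u, hu, rfl⟩ := hs
    refine PDA.Reach.succ ih ⟨(e.symm u.1, u.2.1, opMap f.symm u.2.2), ?_, ?_⟩
    · have h1 : (e.symm u.1, u.2.1, opMap f.symm u.2.2) ∈
          P.δ (e.symm c.state) (fun i => tape w (c.pos i)) (Option.map f.symm c.stack.head?) := hu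
      have h2 : (List.map f.symm c.stack).head? = Option.map f.symm c.stack.head? := by
        cases c.stack <;> rfl
      show _ ∈ P.δ (e.symm c.state) (fun i => tape w (c.pos i)) (List.map f.symm c.stack).head?
      rw [h2]
      exact h1
    · exact congrArg (fun l => (⟨_, _, l⟩ : Cfg P.Q (Fin k → ℕ) P.Γ))
        (apply_map f.symm u.2.2 c.stack).symm

theorem reach_tr (P : PDA α k) (e : P.Q ≃ Fin n) (f : P.Γ ≃ Fin m) (w : List α) (t : ℕ)
    (c : Cfg P.Q (Fin k → ℕ) P.Γ) (h : P.Reach w t c) :
    (tr P e f).Reach w t ⟨e c.state, c.pos, c.stack.map f⟩ := by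
  induction h with
  | zero => exact (PDA.Reach.zero : (tr P e f).Reach w 0 (tr P e f).init)
  | @succ t c c' _ hs ih =>
    obtain ⟨u, hu, rfl⟩ := hs
    have h3 : opMap f.symm (opMap f u.2.2) = u.2.2 := by
      cases u.2.2 <;> simp [opMap]
    refine PDA.Reach.succ ih ⟨(e u.1, u.2.1, opMap f u.2.2), ?_, ?_⟩
    · show (e.symm (e u.1), u.2.1, opMap f.symm (opMap f u.2.2)) ∈
          P.δ (e.symm (e c.state)) (fun i => tape w (c.pos i))
            ((c.stack.map f).head?.map f.symm)
      rw [h3, Equiv.symm_apply_apply, Equiv.symm_apply_apply]
      have h4 : (c.stack.map f).head?.map f.symm = c.stack.head? := by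
        cases c.stack <;> simp
      rw [h4]
      exact hu
    · exact congrArg (fun l => (⟨_, _, l⟩ : Cfg (Fin n) (Fin k → ℕ) (Fin m)))
        (apply_map f u.2.2 c.stack).symm

theorem tr_lang (P : PDA α k) (e : P.Q ≃ Fin n) (f : P.Γ ≃ Fin m) :
    (tr P e f).lang = P.lang := by
  ext w
  constructor
  · rintro ⟨t, c, h, hc⟩
    exact ⟨t, _, tr_reach P e f w t c h, hc⟩
  · rintro ⟨t, c, h, hc⟩
    refine ⟨t, _, reach_tr P e f w t c h, ?_⟩
    show e.symm (e c.state) ∈ P.accept
    rwa [Equiv.symm_apply_apply]

instance : Finite (Sym Bool) := by
  refine Finite.of_surjective (fun o : Option (Option Bool) => match o with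
    | none => Sym.left
    | some none => Sym.right
    | some (some a) => Sym.letter a) ?_
  rintro (_ | a | _)
  exacts [⟨none, rfl⟩, ⟨some (some a), rfl⟩, ⟨some none, rfl⟩]

instance : Finite Dir := by
  refine Finite.of_surjective (fun o : Option Bool => match o with
    | none => Dir.L
    | some true => Dir.S
    | some false => Dir.R) ?_
  rintro (_ | _ | _)
  exacts [⟨none, rfl⟩, ⟨some true, rfl⟩, ⟨some false, rfl⟩]

instance (Γ : Type) [Finite Γ] : Finite (Op Γ) := by
  refine Finite.of_surjective (fun o : Option (Option Γ) => match o with
    | none => Op.none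
    | some none => Op.pop
    | some (some a) => Op.push a) ?_
  rintro (_ | a | _)
  exacts [⟨none, rfl⟩, ⟨some (some a), rfl⟩, ⟨some none, rfl⟩]

/-- the data of an automaton with states `Fin n` and stack symbols `Fin m` -/
abbrev Data (k n m : ℕ) : Type := Fin n × Set (Fin n) ×
  (Fin n → (Fin k → Sym Bool) → Option (Fin m) → Set (Fin n × (Fin k → Dir) × Op (Fin m)))

def ofData {k n m : ℕ} (d : Data k n m) : PDA Bool k where
  Q := Fin n
  Γ := Fin m
  finQ := inferInstance
  finΓ := inferInstance
  start := d.1
  accept := d.2.1
  δ := d.2.2

/-- There are languages that no pushdown automaton accepts, whatever the number of heads. -/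
theorem not_all : ∃ L : Set (List Bool), ∀ (k : ℕ) (P : PDA Bool k), P.lang ≠ L := by
  by_contra hcon
  push Not at hcon
  have h1 : Function.Surjective (fun d : (Σ t : ℕ × ℕ × ℕ, Data t.1 t.2.1 t.2.2) =>
      (ofData d.2).lang) := by
    intro L
    obtain ⟨k, P, rfl⟩ := hcon L
    have := P.finQ
    have := P.finΓ
    obtain ⟨n, ⟨e⟩⟩ := Finite.exists_equiv_fin P.Q
    obtain ⟨m, ⟨f⟩⟩ := Finite.exists_equiv_fin P.Γ
    exact ⟨⟨(k, n, m), ((tr P e f).start, (tr P e f).accept, (tr P e f).δ)⟩, tr_lang P e f⟩
  have : Countable (Σ t : ℕ × ℕ × ℕ, Data t.1 t.2.1 t.2.2) := inferInstance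
  have : Countable (Set (List Bool)) := h1.countable
  obtain ⟨g, hg⟩ := exists_surjective_nat (Set (List Bool))
  have h2 : Function.Surjective (fun l : List Bool => g l.length) := by
    intro L
    obtain ⟨i, rfl⟩ := hg L
    exact ⟨List.replicate i true, by simp⟩
  exact Function.cantor_surjective _ h2

/-! ### 2. The number of heads -/

theorem zero_reach (P : PDA α 0) (w w' : List α) (t : ℕ) (c : Cfg P.Q (Fin 0 → ℕ) P.Γ)
    (h : P.Reach w t c) : P.Reach w' t c := by
  induction h with
  | zero => exact PDA.Reach.zero
  | @succ t c c' _ hs ih =>
    obtain ⟨u, hu, rfl⟩ := hs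
    refine PDA.Reach.succ ih ⟨u, ?_, ?_⟩
    · have : (fun i : Fin 0 => tape w' (c.pos i)) = fun i => tape w (c.pos i) := by
        funext i
        exact i.elim0
      rwa [this]
    · congr 1
      funext i
      exact i.elim0

theorem zero_heads (P : PDA α 0) : P.lang = ∅ ∨ P.lang = Set.univ := by
  by_cases h : ∃ w, P.Accepts w
  · right
    obtain ⟨w, t, c, h1, h2⟩ := h
    exact Set.eq_univ_of_forall fun w' => ⟨t, c, zero_reach P w w' t c h1, h2⟩
  · left
    push Not at h
    exact Set.eq_empty_of_forall_notMem fun w hw => h w hw

/-! ### 3. Nondeterministic automata are alternating automata without universal states -/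

/-- the same automaton, all states being existential -/
def toAFA (M : FA α k) : AFA α k := ⟨M.Q, M.finQ, M.start, M.accept, ∅, M.δ⟩

theorem fa_lang (M : FA α k) : (toAFA M).lang = M.lang := by
  ext w
  constructor
  · intro h
    have key : ∀ c, (toAFA M).Wins w c →
        ∃ c', Relation.ReflTransGen (M.Step w) c c' ∧ c'.1 ∈ M.accept := by
      intro c hc
      induction hc with
      | final c hc => exact ⟨c, Relation.ReflTransGen.refl, hc⟩
      | some c c' _ hs _ ih =>
        obtain ⟨c'', h1, h2⟩ := ih
        exact ⟨c'', Relation.ReflTransGen.head hs h1, h2⟩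
      | all c hc => exact absurd hc (Set.notMem_empty _)
    exact key _ h
  · rintro ⟨c, h1, h2⟩
    have key : ∀ a, Relation.ReflTransGen (M.Step w) a c → (toAFA M).Wins w a := by
      intro a ha
      induction ha using Relation.ReflTransGen.head_induction_on with
      | refl => exact AFA.Wins.final _ h2
      | head hs _ ih => exact AFA.Wins.some _ _ (Set.notMem_empty _) hs ih
    exact key _ h1

/-! ### 4. An automaton with universal states -/

/-- State `none` is universal: it moves on and checks each letter in a separate branch (state
`some false`); the branch succeeds (state `some true`) if the letter is `true`. -/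
def allTrue : AFA Bool 1 where
  Q := Option Bool
  finQ := inferInstance
  start := none
  accept := {some true}
  univ := {none}
  δ q x := match q, x 0 with
    | none, Sym.left => {(none, fun _ => Dir.R)}
    | none, Sym.letter _ => {(none, fun _ => Dir.R), (some false, fun _ => Dir.S)}
    | some false, Sym.letter true => {(some true, fun _ => Dir.S)}
    | _, _ => ∅

theorem sf_univ (h : (some false : allTrue.Q) ∈ allTrue.univ) : False := by
  cases (show (some false : Option Bool) = none from h)

theorem sf_acc (h : (some false : allTrue.Q) ∈ allTrue.accept) : False := by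
  cases (show (some false : Option Bool) = some true from h)

theorem no_acc (h : (none : allTrue.Q) ∈ allTrue.accept) : False := by
  cases (show (none : Option Bool) = some true from h)

theorem tape_succ (w : List Bool) (p : ℕ) (hp : p < w.length) : tape w (p + 1) = Sym.letter w[p] := by
  simp [tape, hp]

theorem tape_end (w : List Bool) (p : ℕ) (hp : w.length ≤ p) : tape w (p + 1) = Sym.right := by
  simp [tape, hp]

theorem wins_all (w : List Bool) (h : ∀ a ∈ w, a = true) (d : ℕ) : ∀ p, p + d = w.length →
    allTrue.Wins w (none, fun _ => p + 1) := by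
  induction d with
  | zero =>
    intro p hp
    refine AFA.Wins.all _ rfl ?_
    rintro c' ⟨t, ht, -⟩
    have e : tape w (p + 1) = Sym.right := tape_end w p (by omega)
    simp only [allTrue, e] at ht
    exact absurd ht (Set.notMem_empty _)
  | succ d ih =>
    intro p hp
    have hp' : p < w.length := by omega
    have e : tape w (p + 1) = Sym.letter w[p] := tape_succ w p hp'
    refine AFA.Wins.all _ rfl ?_
    rintro c' ⟨t, ht, rfl⟩
    simp only [allTrue, e] at ht
    rcases ht with rfl | rfl
    · have : (fun _ : Fin 1 => move (w.length + 1) (p + 1) Dir.R) = fun _ => (p + 1) + 1 := by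
        funext i
        simp only [move]
        omega
      show allTrue.Wins w (none, fun _ : Fin 1 => move (w.length + 1) (p + 1) Dir.R)
      rw [this]
      exact ih (p + 1) (by omega)
    · show allTrue.Wins w (some false, fun _ : Fin 1 => move (w.length + 1) (p + 1) Dir.S)
      have hw : w[p] = true := h _ (List.getElem_mem hp')
      refine AFA.Wins.some _ (some true, fun _ => p + 1)
        (fun h => sf_univ h) ?_
        (AFA.Wins.final _ rfl)
      refine ⟨(some true, fun _ => Dir.S), ?_, rfl⟩
      simp only [allTrue, move, e, hw]
      rfl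

theorem allTrue_lang : allTrue.lang = {w | ∀ a ∈ w, a = true} := by
  ext w
  constructor
  · intro h0
    have h1 : ∀ p, p ≤ w.length → allTrue.Wins w (none, fun _ => p) := by
      intro p
      induction p with
      | zero => exact fun _ => h0
      | succ p ih =>
        intro hp
        have h := ih (by omega)
        have hmv : (fun _ : Fin 1 => p + 1) = fun _ => move (w.length + 1) p Dir.R := by
          funext i
          simp only [move]
          omega
        cases h with
        | final _ h => exact (no_acc h).elim
        | some _ _ h => exact absurd rfl h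
        | all _ _ h =>
          refine h _ ⟨(none, fun _ => Dir.R), ?_, ?_⟩
          · cases p with
            | zero =>
              simp only [allTrue, tape]
              rfl
            | succ p =>
              have e : tape w (p + 1) = Sym.letter w[p] := tape_succ w p (by omega)
              simp only [allTrue, e]
              left
              rfl
          · rw [hmv]
    intro a ha
    obtain ⟨p, hp, rfl⟩ := List.getElem_of_mem ha
    have e : tape w (p + 1) = Sym.letter w[p] := tape_succ w p hp
    have h := h1 (p + 1) (by omega)
    have h2 : allTrue.Wins w (some false, fun _ => p + 1) := by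
      cases h with
      | final _ h => exact (no_acc h).elim
      | some _ _ h => exact absurd rfl h
      | all _ _ h =>
        refine h _ ⟨(some false, fun _ => Dir.S), ?_, rfl⟩
        simp only [allTrue, e]
        right
        rfl
    cases h2 with
    | final _ h => exact (sf_acc h).elim
    | some _ _ _ h =>
      obtain ⟨t, ht, -⟩ := h
      by_contra hne
      have hf : w[p] = false := by simpa using hne
      simp only [allTrue, e, hf] at ht
      exact absurd ht (Set.notMem_empty _)
    | all _ h => exact (sf_univ h).elim
  · intro h
    show allTrue.Wins w (none, fun _ => 0)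
    refine AFA.Wins.all _ rfl ?_
    rintro c' ⟨t, ht, rfl⟩
    have ht' : t = (none, fun _ => Dir.R) := by
      simp only [allTrue, tape] at ht
      exact ht
    subst ht'
    have : (fun _ : Fin 1 => move (w.length + 1) 0 Dir.R) = fun _ => 0 + 1 := by
      funext i
      simp only [move]
      omega
    show allTrue.Wins w (none, fun _ : Fin 1 => move (w.length + 1) 0 Dir.R)
    rw [this]
    exact wins_all w h w.length 0 (by omega)

/-- Together: the language of `allTrue` is accepted by no automaton without heads. -/
theorem needs_heads (P : PDA Bool 0) : P.lang ≠ allTrue.lang := by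
  intro h
  rcases zero_heads P with h1 | h1
  · have : ([] : List Bool) ∈ allTrue.lang := by
      rw [allTrue_lang]
      exact fun a ha => absurd ha (by simp)
    rw [← h, h1] at this
    exact this
  · have : [false] ∈ allTrue.lang := by
      rw [← h, h1]
      trivial
    rw [allTrue_lang] at this
    exact absurd (this false (by simp)) (by simp)

end Pool.Agent.VAC2.AltHeads
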