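import Pool.Agent.VAC2.MP_5e85fc_lc_PolynomialTimeSeparation

/-!
Certificate that the statement of `MP_5e85fc_lc.DeterministicTimeGap` is neither vacuous nor trivial
(the definitions and the clause (4) of the hand-in are repeated verbatim).

* `linear_covered`: the region `(n + t) (s + log n) ≤ c n ^ (1 + 1 / k)` of clause (4) contains,
  for all large `n`, every number of states and every linear time.
* `balanced`: in clause (4) the sets `H` are balanced: at least `(1 / 2 - e) |H|` of the words of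
  `H` are in `L`, and at least as many are not, with `e = exp (- c n ^ (1 / k)) → 0`. So the bound
  cannot hold for trivial reasons (`H` a singleton, `H` inside `L`, or no automaton).
* `regular_dfa_time`, `not_regular`: `DFATime` holds with `f n = n + 2`, the time of the pushdown
  automaton of clause (1), for all regular languages; so clause (3) is a real condition, and its
  languages are not regular.
* `superlinear`: the bound of clause (2) is superlinear for every `k`.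
-/

set_option autoImplicit false

namespace Pool.Agent.VAC2.MP_5e85fc_lc.DTG

open Pool.Agent.Heads Filter Asymptotics

def AcceptsIn {α : Type} {k : ℕ} (M : FA α k) (w : List α) (t : ℕ) : Prop :=
  ∃ i ≤ t, ∃ c, ReachN (M.Step w) (M.start, fun _ => 0) i c ∧ c.1 ∈ M.accept

def DFATime (f : ℕ → ℝ) {α : Type} (L : Set (List α)) : Prop :=
  ∃ k, 1 ≤ k ∧ ∃ M : FA α k, M.Det ∧ M.lang = L ∧
    ∀ w ∈ L, ∃ t : ℕ, (t : ℝ) ≤ f w.length ∧ AcceptsIn M w t

/-- the condition on `H` in clause (4) -/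
def Good4 {α : Type} (L : Set (List α)) (k : ℕ) (c : ℝ) (n : ℕ) (H : Finset (List α)) : Prop :=
  H.Nonempty ∧ (∀ w ∈ H, w.length = n) ∧
    ∀ (M : FA α k) (s t : ℕ), M.Det → Nat.card M.Q ≤ 2 ^ s →
      ((n : ℝ) + t) * (s + Real.log n) ≤ c * (n : ℝ) ^ (1 + 1 / (k : ℝ)) →
      ({w | w ∈ H ∧ (w ∈ L ↔ AcceptsIn M w t)}.ncard : ℝ) ≤
        (1 / 2 + Real.exp (-(c * (n : ℝ) ^ (1 / (k : ℝ))))) * H.card

/-- The automaton with one state that accepts nothing (`A = ∅`) or everything (`A = univ`). -/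
def triv (α : Type) (k : ℕ) (A : Set Unit) : FA α k where
  Q := Unit
  finQ := inferInstance
  start := ()
  accept := A
  δ _ _ := ∅

lemma triv_det (α : Type) (k : ℕ) (A : Set Unit) : (triv α k A).Det :=
  fun _ _ => Set.subsingleton_empty

lemma triv_reject (α : Type) (k : ℕ) (w : List α) (t : ℕ) :
    ¬ AcceptsIn (triv α k ∅) w t := by
  rintro ⟨i, hi, c, h1, h⟩
  exact h

lemma triv_accept (α : Type) (k : ℕ) (w : List α) (t : ℕ) :
    AcceptsIn (triv α k Set.univ) w t :=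
  ⟨0, Nat.zero_le _, _, ReachN.zero, Set.mem_univ _⟩

/-- Fixed sizes and linear times are in the region of clause (4). -/
theorem linear_covered (k : ℕ) (hk : 1 ≤ k) (c : ℝ) (hc : 0 < c) (s C : ℕ) :
    ∀ᶠ n : ℕ in atTop, ((n : ℝ) + (C * n : ℕ)) * (s + Real.log n) ≤
      c * (n : ℝ) ^ (1 + 1 / (k : ℝ)) := by
  have hk' : (0 : ℝ) < 1 / (k : ℝ) := by positivity
  have h1 : (fun n : ℕ => (s : ℝ) + Real.log n) =o[atTop] fun n : ℕ => (n : ℝ) ^ (1 / (k : ℝ)) := by
    refine IsLittleO.add ?_ ?_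
    · rw [isLittleO_const_left]
      right
      exact tendsto_norm_atTop_atTop.comp
        ((tendsto_rpow_atTop hk').comp tendsto_natCast_atTop_atTop)
    · exact (isLittleO_log_rpow_atTop hk').comp_tendsto tendsto_natCast_atTop_atTop
  have hC : (0 : ℝ) < c / (1 + C) := by positivity
  filter_upwards [h1.bound hC, eventually_ge_atTop 1] with n hn hn1
  have hn1' : (1 : ℝ) ≤ n := by exact_mod_cast hn1
  have hn0 : (0 : ℝ) < n := by linarith
  rw [Real.norm_eq_abs, Real.norm_eq_abs, abs_of_nonneg (Real.rpow_nonneg hn0.le _)] at hn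
  have h2 : (s : ℝ) + Real.log n ≤ c / (1 + C) * (n : ℝ) ^ (1 / (k : ℝ)) :=
    (le_abs_self _).trans hn
  rw [Real.rpow_add hn0, Real.rpow_one]
  push_cast
  calc ((n : ℝ) + C * n) * (s + Real.log n)
      ≤ ((n : ℝ) + C * n) * (c / (1 + C) * (n : ℝ) ^ (1 / (k : ℝ))) :=
        mul_le_mul_of_nonneg_left h2 (by positivity)
    _ = c * (n * (n : ℝ) ^ (1 / (k : ℝ))) := by
        field_simp

/-- The sets `H` of clause (4) are balanced. -/
theorem balanced {α : Type} (L : Set (List α)) (k : ℕ) (hk : 1 ≤ k) (c : ℝ) (hc : 0 < c) :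
    ∀ᶠ n : ℕ in atTop, ∀ H : Finset (List α), Good4 L k c n H →
      (1 / 2 - Real.exp (-(c * (n : ℝ) ^ (1 / (k : ℝ))))) * H.card ≤
        ({w | w ∈ H ∧ w ∈ L}.ncard : ℝ) ∧
      (1 / 2 - Real.exp (-(c * (n : ℝ) ^ (1 / (k : ℝ))))) * H.card ≤
        ({w | w ∈ H ∧ w ∉ L}.ncard : ℝ) := by
  filter_upwards [linear_covered k hk c hc 0 0] with n hn H hH
  have hn' : ((n : ℝ) + (0 : ℕ)) * ((0 : ℕ) + Real.log n) ≤
      c * (n : ℝ) ^ (1 + 1 / (k : ℝ)) := by
    simpa using hn
  have h1 := hH.2.2 (triv α k Set.univ) 0 0 (triv_det α k _) (by simp [triv]) hn'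
  have h2 := hH.2.2 (triv α k ∅) 0 0 (triv_det α k _) (by simp [triv]) hn'
  have e1 : {w | w ∈ H ∧ (w ∈ L ↔ AcceptsIn (triv α k Set.univ) w 0)} = {w | w ∈ H ∧ w ∈ L} := by
    ext w
    simp [triv_accept]
  have e2 : {w | w ∈ H ∧ (w ∈ L ↔ AcceptsIn (triv α k ∅) w 0)} = {w | w ∈ H ∧ w ∉ L} := by
    ext w
    simp [triv_reject]
  rw [e1] at h1
  rw [e2] at h2
  have h3 : {w | w ∈ H ∧ w ∈ L}.ncard + {w | w ∈ H ∧ w ∉ L}.ncard = H.card := by
    have f1 : {w | w ∈ H ∧ w ∈ L}.Finite := H.finite_toSet.subset fun w hw => hw.1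
    have f2 : {w | w ∈ H ∧ w ∉ L}.Finite := H.finite_toSet.subset fun w hw => hw.1
    rw [← Set.ncard_union_eq ?_ f1 f2, ← Set.ncard_coe_finset]
    · congr 1
      ext w
      simp only [Set.mem_union, Set.mem_ofPred_eq, Finset.mem_coe]
      tauto
    · rw [Set.disjoint_left]
      rintro w ⟨-, hw⟩ ⟨-, hw'⟩
      exact hw' hw
  have h4 : ({w | w ∈ H ∧ w ∈ L}.ncard : ℝ) + ({w | w ∈ H ∧ w ∉ L}.ncard : ℝ) = H.card := by
    exact_mod_cast h3
  constructor <;> nlinarith

/-- Every regular language is in `DFATime f` with `f n = n + 2`. -/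
theorem regular_dfa_time {α : Type} (L : Language α) (hL : L.IsRegular) :
    DFATime (fun n => (n : ℝ) + 2) (L : Set (List α)) := by
  obtain ⟨σ, _, M, rfl⟩ := hL
  refine ⟨1, le_rfl, sim M, sim_det M, ?_, ?_⟩
  · rw [sim_lang]
    rfl
  · intro w hw
    exact ⟨w.length + 2, by push_cast; exact le_rfl, w.length + 2, le_rfl, _, run_last M w hw, rfl⟩

/-- `f n = n + 2` satisfies the hypothesis of clause (3). -/
theorem hyp3 (ε : ℝ) (hε : 0 < ε) :
    (fun n : ℕ => (n : ℝ) + 2) =O[atTop] fun n : ℕ => (n : ℝ) ^ (1 + ε) := by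
  refine IsBigO.of_bound 3 ?_
  filter_upwards [eventually_ge_atTop 1] with n hn
  have hn1 : (1 : ℝ) ≤ n := by exact_mod_cast hn
  have hn0 : (0 : ℝ) < n := by linarith
  have h1 : (n : ℝ) ≤ (n : ℝ) ^ (1 + ε) := by
    calc (n : ℝ) = (n : ℝ) ^ (1 : ℝ) := (Real.rpow_one _).symm
      _ ≤ (n : ℝ) ^ (1 + ε) := Real.rpow_le_rpow_of_exponent_le hn1 (by linarith)
  rw [Real.norm_eq_abs, Real.norm_eq_abs, abs_of_nonneg (Real.rpow_nonneg hn0.le _),
    abs_of_nonneg (by linarith)]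
  linarith

/-- The languages of clause (3) are not regular. -/
theorem not_regular {α : Type} (L : Language α)
    (h : ∀ f : ℕ → ℝ, (∀ ε : ℝ, 0 < ε → f =O[atTop] fun n : ℕ => (n : ℝ) ^ (1 + ε)) →
      ¬ DFATime f (L : Set (List α))) : ¬ L.IsRegular :=
  fun hL => h _ hyp3 (regular_dfa_time L hL)

/-- The bound of clause (2) is superlinear. -/
theorem superlinear (k : ℕ) (hk : 1 ≤ k) (c : ℝ) (hc : 0 < c) (C : ℝ) :
    ∀ᶠ n : ℕ in atTop, C * n ≤ c * (n : ℝ) ^ (1 + 1 / (k : ℝ)) / Real.log n := by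
  obtain ⟨C', hC'⟩ := exists_nat_ge C
  filter_upwards [linear_covered k hk c hc 0 C', eventually_ge_atTop 3] with n hn hn3
  have hn1 : (3 : ℝ) ≤ n := by exact_mod_cast hn3
  have hlog : 0 < Real.log n := Real.log_pos (by linarith)
  rw [le_div_iff₀ hlog]
  refine le_trans ?_ hn
  push_cast
  rw [zero_add]
  refine mul_le_mul_of_nonneg_right ?_ hlog.le
  nlinarith

end Pool.Agent.VAC2.MP_5e85fc_lc.DTG
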