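import Pool.Agent.Lib_helper16.Heads.Defs
import Pool.Agent.Lib_helper16.Heads.LTS

/-!
Certificate that the statement of `MP_5e85fc_lc.PolynomialTimeSeparation` is neither vacuous nor
trivial (the three definitions of the hand-in are repeated verbatim).

* `constructible_add_two`: the hypotheses of (1) are satisfied by `T n = n + 2`, `ε = 1 / 2`.
* `regular_time`: every regular language over a finite alphabet is accepted by a deterministic
  one-head finite automaton in time `n + 2`, so `¬ NFATime f L` is a real condition.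
* `not_regular`: so each language `L` allowed by the conclusion of (1) is not regular (in
  particular it is infinite and its complement is infinite).
* `same_time`: the conclusion of (1) contains the functions `f = C * T`, for every constant `C`;
  so it separates pushdown from finite automata with the same time bound.
-/

set_option autoImplicit false

namespace Pool.Agent.VAC2.MP_5e85fc_lc

open Pool.Agent.Heads Filter Asymptotics

def DPDATime (f : ℕ → ℝ) {α : Type} (L : Set (List α)) : Prop :=
  ∃ k, 1 ≤ k ∧ ∃ M : PDA α k, M.Det ∧ M.lang = L ∧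
    ∀ w t c, M.Reach w t c → (t : ℝ) ≤ f w.length

def NFATime (f : ℕ → ℝ) {α : Type} (L : Set (List α)) : Prop :=
  ∃ k, 1 ≤ k ∧ ∃ A : FA α k, A.lang = L ∧
    ∀ w ∈ L, ∃ t : ℕ, ∃ c, (t : ℝ) ≤ f w.length ∧
      ReachN (A.Step w) (A.start, fun _ => 0) t c ∧ c.1 ∈ A.accept

def Constructible (T : ℕ → ℕ) : Prop :=
  ∃ k, ∃ C : FA Unit k, C.Det ∧ ∀ n,
    (∃ c, ReachN (C.Step (List.replicate n ())) (C.start, fun _ => 0) (T n) c) ∧
    ∀ t c, ReachN (C.Step (List.replicate n ())) (C.start, fun _ => 0) t c → t ≤ T n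

section dfa

variable {α σ : Type}

/-- The one-head automaton simulating a `DFA`. -/
def sim (M : DFA α σ) [Finite σ] : FA α 1 where
  Q := Option σ
  finQ := inferInstance
  start := some M.start
  accept := {none}
  δ q x := match q, x 0 with
    | some s, Sym.left => {(some s, fun _ => Dir.R)}
    | some s, Sym.letter a => {(some (M.step s a), fun _ => Dir.R)}
    | some s, Sym.right => {p | s ∈ M.accept ∧ p = (none, fun _ => Dir.S)}
    | none, _ => ∅

lemma sim_det (M : DFA α σ) [Finite σ] : (sim M).Det := by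
  intro q x
  cases q with
  | none => exact Set.subsingleton_empty
  | some s =>
    unfold sim
    dsimp only
    cases h : x 0 with
    | left => exact Set.subsingleton_singleton
    | letter a => exact Set.subsingleton_singleton
    | right =>
      rintro p ⟨-, rfl⟩ p' ⟨-, rfl⟩
      rfl

/-- The configuration after `j + 1` steps. -/
def cf (M : DFA α σ) (w : List α) (j : ℕ) : Option σ × (Fin 1 → ℕ) :=
  (some (M.eval (w.take j)), fun _ => j + 1)

lemma step_start (M : DFA α σ) [Finite σ] (w : List α) (c : Option σ × (Fin 1 → ℕ)) :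
    (sim M).Step w (some M.start, fun _ => 0) c ↔ c = cf M w 0 := by
  constructor
  · rintro ⟨t, ht, rfl⟩
    obtain rfl : t = (some M.start, fun _ => Dir.R) := ht
    ext1
    · simp [cf]
    · funext i
      simp [cf, move]
  · rintro rfl
    refine ⟨(some M.start, fun _ => Dir.R), Set.mem_singleton _, ?_⟩
    ext1
    · simp [cf]
    · funext i
      simp [cf, move]

lemma tape_lt (w : List α) (j : ℕ) (h : j < w.length) : tape w (j + 1) = Sym.letter w[j] := by
  simp [tape, h]

lemma tape_ge (w : List α) (j : ℕ) (h : w.length ≤ j) : tape w (j + 1) = Sym.right := by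
  have : w[j]? = none := List.getElem?_eq_none h
  simp [tape, this]

lemma step_mid (M : DFA α σ) [Finite σ] (w : List α) (j : ℕ) (h : j < w.length)
    (c : Option σ × (Fin 1 → ℕ)) : (sim M).Step w (cf M w j) c ↔ c = cf M w (j + 1) := by
  have h1 : (sim M).δ (cf M w j).1 (fun i => tape w ((cf M w j).2 i)) =
      {(some (M.step (M.eval (w.take j)) w[j]), fun _ => Dir.R)} := by
    simp only [cf, tape_lt w j h]
    rfl
  have h2 : M.step (M.eval (w.take j)) w[j] = M.eval (w.take (j + 1)) := by
    rw [← List.take_concat_get' w j h, DFA.eval_append_singleton]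
  unfold FA.Step
  rw [h1]
  constructor
  · rintro ⟨t, ht, rfl⟩
    obtain rfl : t = (some (M.step (M.eval (w.take j)) w[j]), fun _ => Dir.R) := ht
    ext1
    · simp [cf, h2]
    · funext i
      simp [cf, move]
      omega
  · rintro rfl
    refine ⟨_, Set.mem_singleton _, ?_⟩
    ext1
    · simp [cf, h2]
    · funext i
      simp [cf, move]
      omega

lemma step_last (M : DFA α σ) [Finite σ] (w : List α) (c : Option σ × (Fin 1 → ℕ)) :
    (sim M).Step w (cf M w w.length) c ↔
      M.eval w ∈ M.accept ∧ c = (none, fun _ => w.length + 1) := by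
  have h1 : (sim M).δ (cf M w w.length).1 (fun i => tape w ((cf M w w.length).2 i)) =
      {p | M.eval (w.take w.length) ∈ M.accept ∧ p = (none, fun _ => Dir.S)} := by
    simp only [cf, tape_ge w w.length le_rfl]
    rfl
  unfold FA.Step
  rw [h1, List.take_length]
  constructor
  · rintro ⟨t, ⟨h3, rfl⟩, rfl⟩
    refine ⟨h3, ?_⟩
    ext1
    · rfl
    · funext i
      simp [cf, move]
  · rintro ⟨h3, rfl⟩
    refine ⟨_, ⟨h3, rfl⟩, ?_⟩
    ext1
    · rfl
    · funext i
      simp [cf, move]

lemma step_none (M : DFA α σ) [Finite σ] (w : List α) (p : Fin 1 → ℕ)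
    (c : Option σ × (Fin 1 → ℕ)) : ¬ (sim M).Step w (none, p) c := by
  rintro ⟨t, ht, -⟩
  exact ht

/-- All computations: the configuration after `t` steps. -/
lemma inv (M : DFA α σ) [Finite σ] (w : List α) (t : ℕ) (c : Option σ × (Fin 1 → ℕ))
    (h : ReachN ((sim M).Step w) (some M.start, fun _ => 0) t c) :
    (t = 0 ∧ c = (some M.start, fun _ => 0)) ∨
    (∃ j ≤ w.length, t = j + 1 ∧ c = cf M w j) ∨
    (t = w.length + 2 ∧ M.eval w ∈ M.accept ∧ c = (none, fun _ => w.length + 1)) := by
  induction h with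
  | zero => exact Or.inl ⟨rfl, rfl⟩
  | @succ t a a' _ hs ih =>
    rcases ih with ⟨rfl, rfl⟩ | ⟨j, hj, rfl, rfl⟩ | ⟨rfl, -, rfl⟩
    · exact Or.inr (Or.inl ⟨0, Nat.zero_le _, rfl, (step_start M w a').1 hs⟩)
    · rcases hj.lt_or_eq with hj | rfl
      · exact Or.inr (Or.inl ⟨j + 1, hj, rfl, (step_mid M w j hj a').1 hs⟩)
      · have := (step_last M w a').1 hs
        exact Or.inr (Or.inr ⟨rfl, this.1, this.2⟩)
    · exact absurd hs (step_none M w _ _)

lemma run (M : DFA α σ) [Finite σ] (w : List α) (j : ℕ) (hj : j ≤ w.length) :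
    ReachN ((sim M).Step w) (some M.start, fun _ => 0) (j + 1) (cf M w j) := by
  induction j with
  | zero => exact ReachN.succ ReachN.zero ((step_start M w _).2 rfl)
  | succ j ih => exact ReachN.succ (ih (by omega)) ((step_mid M w j hj _).2 rfl)

lemma run_last (M : DFA α σ) [Finite σ] (w : List α) (h : M.eval w ∈ M.accept) :
    ReachN ((sim M).Step w) (some M.start, fun _ => 0) (w.length + 2)
      (none, fun _ => w.length + 1) :=
  ReachN.succ (run M w w.length le_rfl) ((step_last M w _).2 ⟨h, rfl⟩)

lemma reach_iff {A : Type} (r : A → A → Prop) (a b : A) :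
    Relation.ReflTransGen r a b ↔ ∃ t, ReachN r a t b := by
  constructor
  · intro h
    induction h with
    | refl => exact ⟨0, ReachN.zero⟩
    | tail _ h2 ih =>
      obtain ⟨t, ht⟩ := ih
      exact ⟨t + 1, ReachN.succ ht h2⟩
  · rintro ⟨t, h⟩
    induction h with
    | zero => exact Relation.ReflTransGen.refl
    | succ _ h2 ih => exact ih.tail h2

lemma sim_lang (M : DFA α σ) [Finite σ] : (sim M).lang = {w | M.eval w ∈ M.accept} := by
  ext w
  constructor
  · rintro ⟨c, hc, hacc⟩
    obtain ⟨t, ht⟩ := (reach_iff _ _ _).1 hc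
    have hc1 : c.1 = none := hacc
    rcases inv M w t c ht with ⟨-, rfl⟩ | ⟨j, -, -, rfl⟩ | ⟨-, h, -⟩
    · cases hc1
    · cases hc1
    · exact h
  · intro h
    exact ⟨_, (reach_iff _ _ _).2 ⟨_, run_last M w h⟩, rfl⟩

end dfa

/-- Every regular language is accepted by a finite automaton in time `n + 2`. -/
theorem regular_time {α : Type} (L : Language α) (hL : L.IsRegular) :
    NFATime (fun n => (n : ℝ) + 2) (L : Set (List α)) := by
  obtain ⟨σ, _, M, rfl⟩ := hL
  refine ⟨1, le_rfl, sim M, ?_, ?_⟩
  · rw [sim_lang]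
    rfl
  · intro w hw
    exact ⟨w.length + 2, _, by push_cast; exact le_rfl, run_last M w hw, rfl⟩

/-- The hypotheses of (1) are satisfied by `T n = n + 2`. -/
theorem constructible_add_two : Constructible (fun n => n + 2) := by
  let M : DFA Unit Unit := ⟨fun _ _ => (), (), Set.univ⟩
  refine ⟨1, sim M, sim_det M, fun n => ⟨?_, ?_⟩⟩
  · have := run_last M (List.replicate n ()) (Set.mem_univ _)
    rw [List.length_replicate] at this
    exact ⟨_, this⟩
  · intro t c h
    rcases inv M _ t c h with ⟨rfl, -⟩ | ⟨j, hj, rfl, -⟩ | ⟨rfl, -⟩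
    · exact Nat.zero_le _
    · rw [List.length_replicate] at hj
      change j + 1 ≤ n + 2
      omega
    · rw [List.length_replicate]

theorem hyp_bound : ∀ᶠ n : ℕ in atTop, (((fun n => n + 2) n : ℕ) : ℝ) ≤
    (n : ℝ) ^ ((2 : ℝ) - 1 / 2) := by
  filter_upwards [eventually_ge_atTop 9] with n hn
  have h1 : (n : ℝ) ^ ((2 : ℝ) - 1 / 2) = n * Real.sqrt n := by
    rw [show (2 : ℝ) - 1 / 2 = 1 + 1 / 2 by norm_num,
      Real.rpow_add (by positivity), Real.rpow_one, ← Real.sqrt_eq_rpow]
  have h2 : (3 : ℝ) ≤ Real.sqrt n := by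
    apply Real.le_sqrt_of_sq_le
    have : ((9 : ℕ) : ℝ) ≤ n := Nat.cast_le.2 hn
    push_cast at this
    linarith
  have h3 : (9 : ℝ) ≤ n := by exact_mod_cast hn
  rw [h1]
  push_cast
  nlinarith

/-- The conclusion of (1) covers all constant multiples of the time bound of the pushdown
automaton. -/
theorem same_time (T : ℕ → ℕ) (C : ℝ) :
    (fun n : ℕ => C * (T n : ℝ)) =o[atTop] (fun n : ℕ => (T n : ℝ) * Real.log n) := by
  have h1 : (fun _ : ℕ => C) =o[atTop] (fun n : ℕ => Real.log n) := by
    rw [isLittleO_const_left]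
    right
    exact tendsto_norm_atTop_atTop.comp (Real.tendsto_log_atTop.comp tendsto_natCast_atTop_atTop)
  have h2 := h1.mul_isBigO (isBigO_refl (fun n : ℕ => (T n : ℝ)) atTop)
  refine h2.congr (fun n => rfl) (fun n => mul_comm _ _)

lemma NFATime.mono {α : Type} {L : Set (List α)} {f g : ℕ → ℝ} (h : NFATime f L)
    (hfg : ∀ n, f n ≤ g n) : NFATime g L := by
  obtain ⟨k, hk, A, h1, h2⟩ := h
  refine ⟨k, hk, A, h1, fun w hw => ?_⟩
  obtain ⟨t, c, h3, h4⟩ := h2 w hw
  exact ⟨t, c, h3.trans (hfg _), h4⟩

/-- No language allowed by the conclusion of (1) is regular. -/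
theorem not_regular {α : Type} (T : ℕ → ℕ) (h0 : ∀ n, n + 2 ≤ T n) (L : Language α)
    (h : ∀ f : ℕ → ℝ, f =o[atTop] (fun n : ℕ => (T n : ℝ) * Real.log n) →
      ¬ NFATime f (L : Set (List α))) : ¬ L.IsRegular := by
  intro hL
  refine h (fun n => 1 * (T n : ℝ)) (same_time T 1) ((regular_time L hL).mono fun n => ?_)
  have : ((n + 2 : ℕ) : ℝ) ≤ T n := Nat.cast_le.2 (h0 n)
  push_cast at this
  linarith

/-- There are languages for which `NFATime f` fails only because of the time bound: the conclusion
is a real condition, as `NFATime` holds, with the time bound of the pushdown automaton, for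
every regular language. -/
theorem real_condition {α : Type} (T : ℕ → ℕ) (h0 : ∀ n, n + 2 ≤ T n) (L : Language α)
    (hL : L.IsRegular) : NFATime (fun n => (T n : ℝ)) (L : Set (List α)) :=
  (regular_time L hL).mono fun n => by
    have : ((n + 2 : ℕ) : ℝ) ≤ T n := Nat.cast_le.2 (h0 n)
    push_cast at this
    linarith

end Pool.Agent.VAC2.MP_5e85fc_lc
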