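import Pool.Agent.Lib_helper16.TEP.Defs

set_option autoImplicit false

/-!
# Certificate for MP_5e85fc_lc/ThriftyTreeEvaluation (helper56)

* every program which computes the value of the root queries every variable and has at least as
  many states as there are variables and outputs (the conditions cannot be met by degenerate
  programs);
* the thrifty condition is a real restriction: every program for trees of height at least `2` can be
  changed to one with one more state that computes the same function and is not thrifty;
* for every constant the bound of the result is below the bound `k ^ (h / 2 + 1)` of the known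
  thrifty programs, for suitable `h` and `k`.
-/

namespace Pool.Agent.VAC2.ThriftyCert

open Pool.Agent.Lib_helper16.TEP

variable {k : ℕ}

theorem value_const (n : ℕ) (a : Fin k) : value n (fun _ => a) = a := by
  cases n <;> rfl

/-- the value of the root depends on every variable -/
theorem sens (z o : Fin k) (hzo : z ≠ o) : ∀ {n : ℕ} (x : Var k n),
    ∃ I I' : Var k n → Fin k, (∀ y, y ≠ x → I y = I' y) ∧ value n I ≠ value n I' := by
  intro n x
  induction x with
  | leaf =>
    refine ⟨fun _ => z, fun _ => o, ?_, hzo⟩
    intro y hy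
    cases y
    exact absurd rfl hy
  | @root n a b =>
    refine ⟨fun y => match y with
      | .root _ _ => z
      | .left _ => a
      | .right _ => b, fun y => match y with
      | .root a' b' => if a' = a ∧ b' = b then o else z
      | .left _ => a
      | .right _ => b, ?_, ?_⟩
    · intro y hy
      cases y with
      | root a' b' =>
        by_cases h : a' = a ∧ b' = b
        · rw [h.1, h.2] at hy
          exact absurd rfl hy
        · simp [h]
      | left v => rfl
      | right v => rfl
    · simpa [value, value_const] using hzo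
  | @left n v ih =>
    obtain ⟨J, J', h1, h2⟩ := ih
    refine ⟨fun y => match y with
      | .root a' _ => if a' = value n J then z else o
      | .left v => J v
      | .right _ => z, fun y => match y with
      | .root a' _ => if a' = value n J then z else o
      | .left v => J' v
      | .right _ => z, ?_, ?_⟩
    · intro y hy
      cases y with
      | root a' b' => rfl
      | left w => exact h1 w fun h => hy (by rw [h])
      | right w => rfl
    · simp only [value, if_true, if_neg (Ne.symm h2)]
      exact hzo
  | @right n v ih =>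
    obtain ⟨J, J', h1, h2⟩ := ih
    refine ⟨fun y => match y with
      | .root _ b' => if b' = value n J then z else o
      | .left _ => z
      | .right v => J v, fun y => match y with
      | .root _ b' => if b' = value n J then z else o
      | .left _ => z
      | .right v => J' v, ?_, ?_⟩
    · intro y hy
      cases y with
      | root a' b' => rfl
      | left w => rfl
      | right w => exact h1 w fun h => hy (by rw [h])
    · simp only [value, if_true, if_neg (Ne.symm h2)]
      exact hzo

/-- a program that computes the value of the root queries every variable -/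
theorem queries_all (hk : 2 ≤ k) {n : ℕ} (B : NBP (Var k n) k (Fin k))
    (hB : B.Computes (value n)) (x : Var k n) : ∃ s, B.label s = Sum.inl x := by
  by_contra hcon
  push Not at hcon
  obtain ⟨I, I', h1, h2⟩ := sens (⟨0, by omega⟩ : Fin k) ⟨1, by omega⟩ (by simp) x
  have hstep : ∀ s t, B.Step I s t → B.Step I' s t := by
    rintro s t ⟨y, hy, he⟩
    refine ⟨y, hy, ?_⟩
    rw [← h1 y fun h => hcon s (by rw [hy, h])]
    exact he
  obtain ⟨c, h3, h4, h5⟩ := (hB I).1
  exact h2 ((hB I').2 c _ ⟨h3, h4.imp hstep, h5⟩)

theorem size_ge (hk : 2 ≤ k) {n : ℕ} (B : NBP (Var k n) k (Fin k))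
    (hB : B.Computes (value n)) : Finite (Var k n) ∧ Nat.card (Var k n) + k ≤ B.size := by
  choose f hf using queries_all hk B hB
  choose g hg _ using fun r : Fin k => B.final_unique r
  have hinj : Function.Injective (Sum.elim f g) := by
    intro a b hab
    have h : B.label (Sum.elim f g a) = B.label (Sum.elim f g b) := by rw [hab]
    rcases a with a | a <;> rcases b with b | b <;>
      simp only [Sum.elim_inl, Sum.elim_inr, hf, hg] at h
    · rw [Sum.inl.inj h]
    · cases h
    · cases h
    · rw [Sum.inr.inj h]
  let _ := B.fin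
  have hfin : Finite (Var k n ⊕ Fin k) := Finite.of_injective _ hinj
  have h1 : Finite (Var k n) := Finite.sum_left (Fin k)
  refine ⟨h1, ?_⟩
  have h2 := Nat.card_le_card_of_injective _ hinj
  rw [Nat.card_sum, Nat.card_fin, Nat.card_eq_fintype_card (α := B.State)] at h2
  exact h2

/-- the number of variables: `2 ^ n` leaves at least -/
theorem card_ge (hk : 2 ≤ k) : ∀ (n : ℕ), Finite (Var k n) → 2 ^ n ≤ Nat.card (Var k n)
  | 0, h => by
      have : Nonempty (Var k 0) := ⟨Var.leaf⟩
      have h1 := Nat.card_pos (α := Var k 0)
      rw [pow_zero]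
      exact h1
  | n + 1, h => by
      have h1 : Function.Injective (Sum.elim (Var.left : Var k n → Var k (n + 1)) Var.right) := by
        intro a b hab
        rcases a with a | a <;> rcases b with b | b <;>
          simp only [Sum.elim_inl, Sum.elim_inr] at hab
        · rw [Var.left.inj hab]
        · cases hab
        · cases hab
        · rw [Var.right.inj hab]
      have h2 : Finite (Var k n ⊕ Var k n) := Finite.of_injective _ h1
      have h3 : Finite (Var k n) := Finite.sum_left (Var k n)
      have h4 := card_ge hk n h3
      have h5 := Nat.card_le_card_of_injective _ h1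
      rw [Nat.card_sum] at h5
      rw [pow_succ]
      omega

/-- no degenerate witness: every program that computes the value of the root of the tree of height
`n + 1` has at least `2 ^ n + k` states -/
theorem no_small (hk : 2 ≤ k) {n : ℕ} (B : NBP (Var k n) k (Fin k))
    (hB : B.Computes (value n)) : 2 ^ n + k ≤ B.size := by
  obtain ⟨h1, h2⟩ := size_ge hk B hB
  have := card_ge hk n h1
  omega

/-! ### the thrifty condition is a restriction -/

/-- first query the entry `(z, z)` of the root, ignore the answer, then run `B` -/
def waste {n : ℕ} {R : Type} (B : NBP (Var k (n + 1)) k R) (z : Fin k) :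
    NBP (Var k (n + 1)) k R where
  State := Option B.State
  fin := letI := B.fin; inferInstance
  start := none
  label := fun s => match s with
    | none => Sum.inl (Var.root z z)
    | some s => B.label s
  final_unique := fun r => by
    obtain ⟨s, hs, hu⟩ := B.final_unique r
    refine ⟨some s, hs, ?_⟩
    rintro (_ | t) ht
    · cases ht
    · rw [hu t ht]
  edge := fun s c t => match s, t with
    | none, some t => t = B.start
    | some s, some t => B.edge s c t
    | _, none => False

theorem waste_step {n : ℕ} {R : Type} (B : NBP (Var k (n + 1)) k R) (z : Fin k)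
    (I : Var k (n + 1) → Fin k) (s t : B.State) :
    (waste B z).Step I (some s) (some t) ↔ B.Step I s t := Iff.rfl

theorem waste_comp {n : ℕ} {R : Type} (B : NBP (Var k (n + 1)) k R) (z : Fin k)
    (I : Var k (n + 1) → Fin k) (c : List B.State) (r : R) (h : B.Computation I c r) :
    (waste B z).Computation I (none :: c.map some) r := by
  obtain ⟨h1, h2, s, h3, h4⟩ := h
  refine ⟨rfl, ?_, some s, ?_, h4⟩
  · cases c with
    | nil => simp at h1
    | cons a c =>
      rw [List.map_cons, List.isChain_cons_cons]
      refine ⟨⟨Var.root z z, rfl, ?_⟩, ?_⟩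
      · show a = B.start
        simpa using h1
      · rw [← List.map_cons, List.isChain_map]
        exact h2
  · cases c with
    | nil => simp at h1
    | cons a c =>
      rw [List.getLast?_cons, List.getLast?_map, h3]
      rfl

/-- the steps of the changed program -/
def wst {n : ℕ} {R : Type} (B : NBP (Var k (n + 1)) k R) (z : Fin k)
    (I : Var k (n + 1) → Fin k) (s t : Option B.State) : Prop := (waste B z).Step I s t

theorem waste_chain {n : ℕ} {R : Type} (B : NBP (Var k (n + 1)) k R) (z : Fin k)
    (I : Var k (n + 1) → Fin k) : ∀ (c : List (Option B.State)) (t : B.State),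
    List.IsChain (wst B z I) (some t :: c) →
      ∃ c' : List B.State, c = c'.map some ∧ List.IsChain (B.Step I) (t :: c') := by
  intro c
  induction c with
  | nil =>
    intro t _
    exact ⟨[], rfl, by simp⟩
  | cons d c ih =>
    intro t hch
    rw [List.isChain_cons_cons] at hch
    obtain ⟨⟨x, hx, he⟩, hch⟩ := hch
    cases d with
    | none => exact False.elim he
    | some d =>
      obtain ⟨c', h6, h7⟩ := ih d hch
      refine ⟨d :: c', by rw [h6]; rfl, ?_⟩
      rw [List.isChain_cons_cons]
      exact ⟨⟨x, hx, he⟩, h7⟩

theorem waste_inv {n : ℕ} {R : Type} (B : NBP (Var k (n + 1)) k R) (z : Fin k)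
    (I : Var k (n + 1) → Fin k) (c : List (Option B.State)) (r : R)
    (h : (waste B z).Computation I c r) :
    ∃ c' : List B.State, c = none :: c'.map some ∧ B.Computation I c' r := by
  obtain ⟨h1, h2, s, h3, h4⟩ : c.head? = some none ∧ List.IsChain (wst B z I) c ∧
    ∃ s : Option B.State, c.getLast? = some s ∧ (waste B z).label s = Sum.inr r := h
  cases c with
  | nil => simp at h1
  | cons a c =>
    have ha : a = none := by simpa using h1
    subst ha
    cases c with
    | nil =>
      have : s = none := by simpa using h3.symm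
      subst this
      cases h4
    | cons b c =>
      rw [List.isChain_cons_cons] at h2
      obtain ⟨⟨x, hx, he⟩, hch⟩ := h2
      cases b with
      | none => exact False.elim he
      | some t =>
        have he' : t = B.start := he
        subst he'
        obtain ⟨c', h6, h7⟩ := waste_chain B z I c _ hch
        subst h6
        refine ⟨B.start :: c', rfl, rfl, h7, ?_⟩
        have h9 : ((B.start :: c').map some).getLast? = some s := by
          rw [List.map_cons]
          rw [List.getLast?_cons_cons] at h3
          exact h3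
        rw [List.getLast?_map] at h9
        obtain ⟨t, ht, h10⟩ := Option.map_eq_some_iff.1 h9
        subst h10
        exact ⟨t, ht, h4⟩

/-- the thrifty condition is a real restriction -/
theorem not_thrifty (hk : 2 ≤ k) {n : ℕ} {R : Type} (B : NBP (Var k (n + 1)) k R)
    (f : (Var k (n + 1) → Fin k) → R) (hB : B.Computes f) :
    ∃ B' : NBP (Var k (n + 1)) k R, B'.Computes f ∧ B'.size = B.size + 1 ∧
      (B.Unambiguous → B'.Unambiguous) ∧ ¬ Thrifty B' := by
  refine ⟨waste B ⟨0, by omega⟩, fun I => ⟨?_, ?_⟩, ?_, ?_, ?_⟩
  · obtain ⟨c, hc⟩ := (hB I).1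
    exact ⟨_, waste_comp B _ I c _ hc⟩
  · intro c r hc
    obtain ⟨c', -, h⟩ := waste_inv B _ I c r hc
    exact (hB I).2 c' r h
  · let _ := B.fin
    show Fintype.card (Option B.State) = Fintype.card B.State + 1
    exact Fintype.card_option
  · intro hU I c r c' r' h h'
    obtain ⟨d, h1, h2⟩ := waste_inv B _ I c r h
    obtain ⟨d', h3, h4⟩ := waste_inv B _ I c' r' h'
    rw [h1, h3, hU I d r d' r' h2 h4]
  · intro hT
    obtain ⟨c, hc⟩ := (hB fun _ => ⟨1, by omega⟩).1
    have h1 := hT _ _ _ (waste_comp B ⟨0, by omega⟩ _ c _ hc) none (by simp)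
      (Var.root ⟨0, by omega⟩ ⟨0, by omega⟩) rfl
    have h2 := h1.1
    rw [value_const] at h2
    simp at h2

/-! ### the bound is below the known one -/

/-- for every `C` the bound of the result (with `ε = 1`, `|R| = k`) is below `k ^ (h / 2 + 1)` for
`h = 20` and all large powers `k` of `2` -/
theorem bound_small (C : ℝ) : ∃ m0 : ℕ, ∀ m : ℕ, m0 ≤ m →
    ((2 : ℝ) ^ m) * ((2 : ℝ) ^ m) ^ ((4 : ℝ) + 1) * (2 : ℝ) ^ (C * (((19 : ℕ) : ℝ) + 1 +
      √((((19 : ℕ) : ℝ) + 1) * Real.logb 2 ((2 : ℝ) ^ m) *
        Real.logb 2 (1 + Real.logb 2 ((2 : ℝ) ^ m))))) <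
      ((2 : ℝ) ^ m) ^ (20 / 2 + 1) := by
  set D : ℝ := |C| + 1 with hD
  have hD0 : 0 < D := by positivity
  have hl2 : 0 < Real.log 2 := Real.log_pos (by norm_num)
  have h1 := Real.isLittleO_log_id_atTop.def (c := Real.log 2 / (40 * D ^ 2)) (by positivity)
  have h2 : Filter.Tendsto (fun m : ℕ => 1 + (m : ℝ)) Filter.atTop Filter.atTop :=
    Filter.tendsto_atTop_add_const_left _ _ tendsto_natCast_atTop_atTop
  obtain ⟨m1, hm1⟩ := Filter.eventually_atTop.1 (h2.eventually h1)
  obtain ⟨m2, hm2⟩ := exists_nat_gt (5 * |C| + 1)
  refine ⟨max m1 m2, fun m hm => ?_⟩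
  have h3 := hm1 m ((le_max_left _ _).trans hm)
  have h4 : 5 * |C| + 1 < (m : ℝ) :=
    hm2.trans_le (by exact_mod_cast (le_max_right m1 m2).trans hm)
  have hm0 : 1 ≤ (m : ℝ) := by have := abs_nonneg C; linarith
  have hL : Real.logb 2 ((2 : ℝ) ^ m) = m := by
    rw [Real.logb_pow, Real.logb_self_eq_one (by norm_num), mul_one]
  rw [hL]
  have h5 : Real.logb 2 (1 + m) ≤ m / (20 * D ^ 2) := by
    unfold Real.logb
    rw [div_le_iff₀ hl2]
    have h6 : Real.log (1 + m) ≤ Real.log 2 / (40 * D ^ 2) * (1 + m) := by
      have h7 := (le_abs_self _).trans h3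
      simp only [id_eq, Real.norm_eq_abs] at h7
      rwa [abs_of_nonneg (by positivity : (0 : ℝ) ≤ 1 + m)] at h7
    refine h6.trans ?_
    rw [div_mul_eq_mul_div, div_mul_eq_mul_div, div_le_div_iff₀ (by positivity) (by positivity)]
    have : 0 ≤ Real.log 2 * D ^ 2 := by positivity
    nlinarith
  have h8 : √((((19 : ℕ) : ℝ) + 1) * m * Real.logb 2 (1 + m)) ≤ m / D := by
    apply Real.sqrt_le_iff.2
    refine ⟨by positivity, ?_⟩
    have h9 : (((19 : ℕ) : ℝ) + 1) * m * Real.logb 2 (1 + m) ≤
        (((19 : ℕ) : ℝ) + 1) * m * (m / (20 * D ^ 2)) :=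
      mul_le_mul_of_nonneg_left h5 (by positivity)
    refine h9.trans (le_of_eq ?_)
    push_cast
    field_simp
    norm_num
  have h10 : C * (((19 : ℕ) : ℝ) + 1 + √((((19 : ℕ) : ℝ) + 1) * m * Real.logb 2 (1 + m))) <
      5 * m := by
    have h11 : C * (((19 : ℕ) : ℝ) + 1 + √((((19 : ℕ) : ℝ) + 1) * m * Real.logb 2 (1 + m))) ≤
        |C| * (20 + m / D) := by
      have h12 : 0 ≤ √((((19 : ℕ) : ℝ) + 1) * m * Real.logb 2 (1 + m)) := Real.sqrt_nonneg _
      push_cast at h8 h12 ⊢
      refine (mul_le_mul_of_nonneg_right (le_abs_self C) (by linarith)).trans ?_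
      exact mul_le_mul_of_nonneg_left (by linarith) (abs_nonneg C)
    have h13 : |C| * (m / D) ≤ m := by
      rw [mul_div_assoc', div_le_iff₀ hD0, hD]
      nlinarith [abs_nonneg C]
    have h14 : |C| * (20 + m / D) = 20 * |C| + |C| * (m / D) := by ring
    rw [h14] at h11
    refine lt_of_le_of_lt h11 ?_
    linarith
  have e1 : ((2 : ℝ) ^ m) = (2 : ℝ) ^ (m : ℝ) := (Real.rpow_natCast 2 m).symm
  have e2 : ((2 : ℝ) ^ m) ^ ((4 : ℝ) + 1) = (2 : ℝ) ^ ((m : ℝ) * 5) := by
    rw [e1, ← Real.rpow_mul (by norm_num)]
    norm_num
  have e3 : ((2 : ℝ) ^ m) ^ (20 / 2 + 1) = (2 : ℝ) ^ ((m : ℝ) * 11) := by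
    rw [← pow_mul, ← Real.rpow_natCast]
    push_cast
    norm_num
  rw [e2, e3, e1, ← Real.rpow_add (by norm_num), ← Real.rpow_add (by norm_num)]
  apply Real.rpow_lt_rpow_of_exponent_lt (by norm_num)
  linarith

end Pool.Agent.VAC2.ThriftyCert
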