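import Pool.Agent.WAG.ADefs

/-!
# Certificate for MP_6c4da4_ag / AlmostAllAbelianVarieties: the arithmetic hypotheses are not vacuous

* `elliptic_mem`: the polynomial `x - 1` (ordinary elliptic curves of trace 1) is in `Ord 1 q` for every
  prime power `q`, so the sets `S q` of the statement are not empty, and `Adm q (S q)` contains the
  roots of `x ^ 2 - x + q`.
* `par_fails`: for every `q ≥ 1` the partner property `Par q` is false for the set of all complex numbers
  of absolute value `√q`: it is a real condition.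
* `par_super`: it is true for the supersingular ones.
-/

set_option autoImplicit false

open Polynomial AlmostAll

namespace VAC2.AlmostAllAbelianVarieties

theorem elliptic_mem (q : ℕ) (hq : IsPrimePow q) : (X - C 1 : ℤ[X]) ∈ Ord 1 q := by
  refine ⟨⟨monic_X_sub_C 1, natDegree_X_sub_C 1, fun z hz => ?_⟩, ?_⟩
  · have hz1 : z = 1 := by
      have h1 : z - 1 = 0 := by simpa using hz
      exact sub_eq_zero.1 h1
    subst hz1
    refine ⟨by simp, ?_⟩
    have h2 : (1 : ℝ) ≤ Real.sqrt q := by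
      rw [Real.one_le_sqrt]
      exact_mod_cast hq.one_lt.le
    simp only [Complex.one_re, abs_one]
    linarith
  · intro h
    have h1 : ((X - C 1 : ℤ[X])).coeff 0 = -1 := by simp
    rw [h1] at h
    have h2 : (q.minFac : ℤ) ∣ 1 := by
      have := h.neg_right
      simpa using this
    have h3 : q.minFac ∣ 1 := by exact_mod_cast h2
    have h4 : q.minFac = 1 := Nat.dvd_one.1 h3
    have h5 : q ≠ 1 := hq.one_lt.ne'
    exact h5 (Nat.minFac_eq_one_iff.1 h4)

/-- `Adm q S` contains the Frobenius eigenvalues of the members of `S`. -/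
theorem adm_of_root (q : ℕ) (S : Set ℤ[X]) (h : ℤ[X]) (hS : h ∈ S) (r : ℂ) (h0 : r ≠ 0)
    (hr : aeval (r + q / r) h = 0) : Adm q S r :=
  ⟨1, le_refl 1, Or.inr ⟨h, hS, r, h0, hr, rfl⟩⟩

/-- `u = (3 + 4 i) / 5` is not a root of unity. -/
theorem pow_ne (n : ℕ) (hn : 1 ≤ n) : (3 + 4 * Complex.I) ^ n ≠ (5 : ℂ) ^ n := by
  have key : ∀ n : ℕ, 1 ≤ n → ∃ a b : ℤ, (3 + 4 * Complex.I) ^ n = (a : ℂ) + b * Complex.I ∧
      a % 5 = 3 ∧ b % 5 = 4 := by
    intro n hn
    induction n, hn using Nat.le_induction with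
    | base => exact ⟨3, 4, by push_cast; ring, by norm_num, by norm_num⟩
    | succ n hn ih =>
      obtain ⟨a, b, h1, h2, h3⟩ := ih
      refine ⟨3 * a - 4 * b, 4 * a + 3 * b, ?_, by omega, by omega⟩
      rw [pow_succ, h1]
      push_cast
      have hI : Complex.I ^ 2 = -1 := Complex.I_sq
      linear_combination (4 * (b : ℂ)) * hI
  obtain ⟨a, b, h1, h2, h3⟩ := key n hn
  intro h
  rw [h1] at h
  have h4 := congrArg Complex.im h
  have h5 : ((5 : ℂ) ^ n).im = 0 := by
    rw [show ((5 : ℂ) ^ n) = (((5 : ℝ) ^ n : ℝ) : ℂ) by push_cast; rfl]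
    exact Complex.ofReal_im _
  rw [h5] at h4
  simp at h4
  omega

/-- The partner property is false for the set of all numbers of absolute value `√q`. -/
theorem par_fails (q : ℕ) (hq : 1 ≤ q) : ¬ Par q (fun z => ‖z‖ ^ 2 = (q : ℝ)) := by
  intro H
  set s : ℂ := ((Real.sqrt q : ℝ) : ℂ) with hs
  set u : ℂ := (3 + 4 * Complex.I) / 5 with hu
  have hu1 : ‖u‖ = 1 := by
    have h1 : ‖u‖ ^ 2 = 1 := by
      rw [← Complex.normSq_eq_norm_sq]
      rw [hu]
      simp [Complex.normSq_apply]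
      norm_num
    have h2 := norm_nonneg u
    nlinarith
  have hu0 : u ≠ 0 := by
    intro h
    rw [h, norm_zero] at hu1
    norm_num at hu1
  have hsq : s ^ 2 = (q : ℂ) := by
    rw [hs, ← Complex.ofReal_pow, Real.sq_sqrt (Nat.cast_nonneg q)]
    simp
  have hsn : ‖s‖ ^ 2 = (q : ℝ) := by
    rw [← norm_pow, hsq]
    simp
  have hL : ∀ k : ℤ, ‖s * u ^ k‖ ^ 2 = (q : ℝ) := by
    intro k
    rw [norm_mul, norm_zpow, hu1, one_zpow, mul_one, hsn]
  have h := H (s * u ^ (3 : ℤ)) [s * u ^ (-1 : ℤ), s * u ^ (-1 : ℤ), s * u ^ (-1 : ℤ)] (hL 3)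
    (by
      intro y hy
      simp only [List.mem_cons, List.not_mem_nil, or_false, or_self] at hy
      rw [hy]
      exact hL (-1)) 2 1 (le_refl 1) rfl (by
      simp only [List.prod_cons, List.prod_nil, pow_one, mul_one]
      have h1 : s * u ^ (3 : ℤ) * (s * u ^ (-1 : ℤ) * (s * u ^ (-1 : ℤ) * (s * u ^ (-1 : ℤ)))) =
          (s ^ 2) ^ 2 * (u ^ (3 : ℤ) * u ^ (-1 : ℤ) * u ^ (-1 : ℤ) * u ^ (-1 : ℤ)) := by ring
      rw [h1, hsq, ← zpow_add₀ hu0, ← zpow_add₀ hu0, ← zpow_add₀ hu0]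
      norm_num)
  obtain ⟨y, hy, M, hM, hyM⟩ := h
  simp only [List.mem_cons, List.not_mem_nil, or_false, or_self] at hy
  rw [hy] at hyM
  have h2 : s * u ^ (3 : ℤ) * (s * u ^ (-1 : ℤ)) = (q : ℂ) * u ^ 2 := by
    have h3 : s * u ^ (3 : ℤ) * (s * u ^ (-1 : ℤ)) = s ^ 2 * (u ^ (3 : ℤ) * u ^ (-1 : ℤ)) := by ring
    rw [h3, hsq, ← zpow_add₀ hu0]
    norm_num
  rw [h2, mul_pow] at hyM
  have hq0 : ((q : ℂ)) ^ M ≠ 0 := by
    apply pow_ne_zero
    exact_mod_cast (by omega : q ≠ 0)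
  have h4 : (u ^ 2) ^ M = 1 := by
    have := mul_left_cancel₀ hq0 (hyM.trans (mul_one _).symm)
    exact this
  rw [← pow_mul, hu, div_pow, div_eq_one_iff_eq (pow_ne_zero _ (by norm_num))] at h4
  exact pow_ne (2 * M) (by omega) h4

/-- It is true for the supersingular ones. -/
theorem par_super (q : ℕ) :
    Par q (fun z => ∃ N : ℕ, 1 ≤ N ∧ z ^ (2 * N) = (q : ℂ) ^ N) := by
  intro z l hz hl j N hN hj hN'
  obtain ⟨y, l', rfl⟩ : ∃ y l', l = y :: l' := by
    cases l with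
    | nil => simp at hj; omega
    | cons y l' => exact ⟨y, l', rfl⟩
  refine ⟨y, by simp, ?_⟩
  obtain ⟨a, ha, hza⟩ := hz
  obtain ⟨b, hb, hyb⟩ := hl y (by simp)
  refine ⟨2 * (a * b), by nlinarith [Nat.mul_le_mul ha hb], ?_⟩
  calc (z * y) ^ (2 * (a * b)) = (z ^ (2 * a)) ^ b * (y ^ (2 * b)) ^ a := by
        rw [← pow_mul, ← pow_mul, mul_pow]
        congr 2 <;> ring
    _ = (q : ℂ) ^ (2 * (a * b)) := by
        rw [hza, hyb, ← pow_mul, ← pow_mul, ← pow_add]
        congr 1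
        ring

/-- The roots of `x ^ 2 - x + q` are admissible for every `S` with `Ord 1 q ⊆ S`. -/
theorem adm_elliptic (q : ℕ) (hq : IsPrimePow q) (S : Set ℤ[X]) (hS : Ord 1 q ⊆ S) (r : ℂ)
    (hr : r ^ 2 - r + q = 0) : Adm q S r := by
  have h0 : r ≠ 0 := by
    rintro rfl
    have h1 : (q : ℂ) = 0 := by simpa using hr
    exact hq.pos.ne' (by exact_mod_cast h1)
  refine adm_of_root q S _ (hS (elliptic_mem q hq)) r h0 ?_
  simp only [map_sub, aeval_X, map_one]
  field_simp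
  linear_combination hr

end VAC2.AlmostAllAbelianVarieties
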