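import Mathlib

/-!
# Certificate for `MP_8e0b0b_nt/TwistFamilyAverage` (vacuity audit)

`C`, `RankLE`, `r` are copied from the hand-in, `Stmt A₀ c` is its statement after `∃ c`.

* `hypotheses`: for every `A₀` and every `k` there are primes as required, all `≡ 2 (mod 9)`.
* `r_pos`: `A₀ = 1`, `k = 2`, `q = (2, 5)`, `e = (2, 1)`, i.e. `A = 20`, has rank at least one.
* `saving`: the statement is not a consequence of the first descent bound `r ≤ k + O(1)`: for every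
  `D` and all large `k` one of the `2 ^ k` numbers has `r (A) + D < k`.
-/

set_option autoImplicit false

namespace Pool.Agent.VAC2.TwistFamilyAverage

def C (A : ℤ) : WeierstrassCurve ℚ where
  a₁ := 0
  a₂ := 0
  a₃ := 0
  a₄ := 0
  a₆ := -432 * (A : ℚ) ^ 2

def RankLE (A : ℤ) (n : ℕ) : Prop :=
  ∃ s : Finset (C A).toAffine.Point, s.card ≤ n ∧
    AddSubgroup.closure (s : Set (C A).toAffine.Point) = ⊤

noncomputable def r (A : ℤ) : ℕ := sInf {n : ℕ | RankLE A n}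

def Stmt (A₀ c : ℕ) : Prop :=
  ∀ (k : ℕ) (q : Fin k → ℕ), 2 ≤ k → (∀ i, (q i).Prime) → (∀ i, q i % 3 = 2) →
      Function.Injective q → (∀ i, ¬ q i ∣ A₀) → (∃ i, q i % 9 ≠ 8) →
      (∀ e : Fin k → ℕ, (∀ i, e i = 1 ∨ e i = 2) →
        RankLE (A₀ * ∏ i, (q i : ℤ) ^ e i) (r (A₀ * ∏ i, (q i : ℤ) ^ e i))) ∧
      2 ^ (((Finset.univ.filter (fun i => q i % 9 ≠ 8)).card + 1) / 2) *
        ∑ e ∈ Fintype.piFinset (fun _ : Fin k => ({1, 2} : Finset ℕ)),
          4 ^ r (A₀ * ∏ i, (q i : ℤ) ^ e i) ≤ c * 8 ^ k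

theorem hypotheses (A₀ : ℕ) (h0 : A₀ ≠ 0) (k : ℕ) :
    ∃ q : Fin k → ℕ, (∀ i, (q i).Prime) ∧ (∀ i, q i % 3 = 2) ∧ Function.Injective q ∧
      (∀ i, ¬ q i ∣ A₀) ∧ ∀ i, q i % 9 = 2 := by
  have hinf : {p : ℕ | p.Prime ∧ p % 9 = 2 ∧ A₀ < p}.Infinite := by
    apply Set.infinite_of_not_bddAbove
    rintro ⟨b, hb⟩
    obtain ⟨p, h1, h2, h3⟩ := Nat.forall_exists_prime_gt_and_modEq (max A₀ b) (q := 9) (a := 2)
      (by norm_num) (by norm_num)
    have h4 : p % 9 = 2 := h3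
    have := hb (show p ∈ _ from ⟨h2, h4, by omega⟩)
    omega
  refine ⟨fun i => (hinf.natEmbedding _ (i : ℕ) : ℕ), fun i => ?_, fun i => ?_, ?_, fun i => ?_,
    fun i => ?_⟩
  · exact (hinf.natEmbedding _ (i : ℕ)).2.1
  · have := (hinf.natEmbedding _ (i : ℕ)).2.2.1
    simp only
    omega
  · intro i j hij
    exact Fin.ext ((hinf.natEmbedding _).injective (Subtype.ext hij))
  · have h := (hinf.natEmbedding _ (i : ℕ)).2.2.2
    exact fun hd => absurd (Nat.le_of_dvd (Nat.pos_of_ne_zero h0) hd) (not_le.mpr h)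
  · exact (hinf.natEmbedding _ (i : ℕ)).2.2.1

theorem r20_pos (h : RankLE 20 (r 20)) : 1 ≤ r 20 := by
  by_contra hr
  obtain ⟨s, hs, hcl⟩ := h
  have hs0 : s = ∅ := by
    rw [← Finset.card_eq_zero]; omega
  rw [hs0, Finset.coe_empty, AddSubgroup.closure_empty] at hcl
  have hns : (C 20).toAffine.Nonsingular 84 648 := by
    rw [WeierstrassCurve.Affine.nonsingular_iff', WeierstrassCurve.Affine.equation_iff']
    simp only [C]
    norm_num
  have hP : (WeierstrassCurve.Affine.Point.some 84 648 hns : (C 20).toAffine.Point) ∈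
      (⊥ : AddSubgroup (C 20).toAffine.Point) := by
    rw [hcl]; trivial
  rw [AddSubgroup.mem_bot] at hP
  exact WeierstrassCurve.Affine.Point.some_ne_zero hns hP

/-- The instance `A₀ = 1`, `k = 2`, `q = (2, 5)`, `e = (2, 1)`. -/
theorem r_pos (c : ℕ) (hS : Stmt 1 c) :
    1 ≤ r ((1 : ℕ) * ∏ i : Fin 2, ((![2, 5] : Fin 2 → ℕ) i : ℤ) ^ (![2, 1] : Fin 2 → ℕ) i) := by
  have h := (hS 2 ![2, 5] le_rfl (by decide) (by decide) (by decide) (by decide)
    ⟨0, by decide⟩).1 ![2, 1] (by decide)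
  have h20 : ((1 : ℕ) : ℤ) * ∏ i : Fin 2, ((![2, 5] : Fin 2 → ℕ) i : ℤ) ^
      (![2, 1] : Fin 2 → ℕ) i = 20 := by
    simp [Fin.prod_univ_two]
  rw [h20] at h ⊢
  exact r20_pos h

theorem saving (A₀ c : ℕ) (hS : Stmt A₀ c) (D : ℕ) :
    ∀ k : ℕ, 2 * (c * 4 ^ D) + D + 2 ≤ k → ∀ q : Fin k → ℕ, (∀ i, (q i).Prime) →
      Function.Injective q → (∀ i, ¬ q i ∣ A₀) → (∀ i, q i % 9 = 2) →
      ∃ e : Fin k → ℕ, (∀ i, e i = 1 ∨ e i = 2) ∧
        r (A₀ * ∏ i, (q i : ℤ) ^ e i) + D < k := by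
  intro k hk q hp hinj hd h9
  by_contra hcon
  have hcon' : ∀ e : Fin k → ℕ, (∀ i, e i = 1 ∨ e i = 2) →
      k ≤ r (A₀ * ∏ i, (q i : ℤ) ^ e i) + D := by
    intro e he
    by_contra h
    exact hcon ⟨e, he, by omega⟩
  have h3 : ∀ i, q i % 3 = 2 := fun i => by have := h9 i; omega
  have hex : ∃ i, q i % 9 ≠ 8 := ⟨⟨0, by omega⟩, by rw [h9]; decide⟩
  have h := (hS k q (by omega) hp h3 hinj hd hex).2
  have hfilter : (Finset.univ.filter (fun i => q i % 9 ≠ 8)).card = k := by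
    rw [Finset.filter_true_of_mem (fun i _ => by rw [h9]; decide)]
    simp
  rw [hfilter] at h
  have hcard : (Fintype.piFinset (fun _ : Fin k => ({1, 2} : Finset ℕ))).card = 2 ^ k := by
    simp
  have hsum : 2 ^ k * 4 ^ (k - D) ≤
      ∑ e ∈ Fintype.piFinset (fun _ : Fin k => ({1, 2} : Finset ℕ)),
        4 ^ r (A₀ * ∏ i, (q i : ℤ) ^ e i) := by
    have h1 := Finset.card_nsmul_le_sum (Fintype.piFinset (fun _ : Fin k => ({1, 2} : Finset ℕ)))
      (fun e => 4 ^ r (A₀ * ∏ i, (q i : ℤ) ^ e i)) (4 ^ (k - D)) (fun e he => by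
        have he' : ∀ i, e i = 1 ∨ e i = 2 := by
          intro i
          have := Fintype.mem_piFinset.mp he i
          simpa using this
        have := hcon' e he'
        exact Nat.pow_le_pow_right (by norm_num) (by omega))
    rwa [hcard, smul_eq_mul] at h1
  have hn : c * 4 ^ D < 2 ^ ((k + 1) / 2) :=
    lt_of_lt_of_le Nat.lt_two_pow_self (Nat.pow_le_pow_right (by norm_num) (by omega))
  have h8 : (8 : ℕ) ^ k = 2 ^ k * 4 ^ (k - D) * 4 ^ D := by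
    rw [mul_assoc, ← pow_add, Nat.sub_add_cancel (by omega), ← mul_pow]
    norm_num
  rw [h8] at h
  have hpos : 0 < 2 ^ k * 4 ^ (k - D) := by positivity
  have h2 : 2 ^ ((k + 1) / 2) * (2 ^ k * 4 ^ (k - D)) ≤ c * (2 ^ k * 4 ^ (k - D) * 4 ^ D) :=
    le_trans (Nat.mul_le_mul_left _ hsum) h
  have h3 : c * (2 ^ k * 4 ^ (k - D) * 4 ^ D) = c * 4 ^ D * (2 ^ k * 4 ^ (k - D)) := by ring
  rw [h3] at h2
  exact absurd (Nat.le_of_mul_le_mul_right h2 hpos) (by omega)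

end Pool.Agent.VAC2.TwistFamilyAverage
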