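import Mathlib

/-!
Certificate of non-triviality for MP_8e0b0b_nt/BothTwistsRankZero: the exponent is the cardinality
of a finite set, the condition on `q` fails for some primes (`n = 1`, `q = 7`), the sums are sums of
summable families, and the bound forces infinitely many such primes `q` for every `n`.
-/

set_option autoImplicit false

namespace Pool.Agent.VAC2.BothTwists

open Filter Topology

/-- the condition on the prime `q` -/
def P (n q : ℕ) : Prop :=
  q.Prime ∧ ∀ j : ℕ, ¬ 3 ∣ j → ¬ ∃ X Y : ℚ, X ^ 3 + Y ^ 3 = (n : ℚ) * (q : ℚ) ^ j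

/-- the inequality of the theorem -/
def Bound (n : ℕ) : Prop :=
  ∃ K : ℝ, ∀ s : ℝ, 1 < s → s ≤ 2 →
    1 / (24 * 3 ^ Nat.card {p : ℕ // p.Prime ∧ p % 3 = 1 ∧ ¬ 3 ∣ n.factorization p}) *
      Real.log (1 / (s - 1)) - K ≤ ∑' q : {q : ℕ // P n q}, (q : ℝ) ^ (-s)

/-- the set in the exponent is finite -/
theorem exponent_finite (n : ℕ) :
    {p : ℕ | p.Prime ∧ p % 3 = 1 ∧ ¬ 3 ∣ n.factorization p}.Finite := by
  refine (n.primeFactors : Finset ℕ).finite_toSet.subset fun p hp => ?_
  rw [Finset.mem_coe, ← Nat.support_factorization, Finsupp.mem_support_iff]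
  intro h
  exact hp.2.2 (by rw [h]; exact dvd_zero 3)

/-- the condition is not satisfied by all primes -/
theorem not_P : ¬ P 1 7 := by
  rintro ⟨-, h⟩
  exact h 1 (by norm_num) ⟨2, -1, by norm_num⟩

/-- the sums are sums of summable families -/
theorem summable (n : ℕ) (s : ℝ) (hs : 1 < s) :
    Summable fun q : {q : ℕ // P n q} => (q : ℝ) ^ (-s) :=
  (Real.summable_nat_rpow.2 (by linarith)).subtype _

/-- the bound forces infinitely many primes with the condition -/
theorem infinite (n : ℕ) (h : Bound n) : {q : ℕ | P n q}.Infinite := by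
  intro hfin
  obtain ⟨K, hK⟩ := h
  have : Fintype {q : ℕ // P n q} := hfin.fintype
  set c : ℝ := 1 / (24 * 3 ^ Nat.card {p : ℕ // p.Prime ∧ p % 3 = 1 ∧ ¬ 3 ∣ n.factorization p})
    with hc
  have hc0 : 0 < c := by positivity
  have h1 : ∀ s : ℝ, 1 < s → s ≤ 2 →
      c * Real.log (1 / (s - 1)) - K ≤ Fintype.card {q : ℕ // P n q} := by
    intro s hs hs2
    refine (hK s hs hs2).trans ?_
    rw [tsum_fintype]
    refine (Finset.sum_le_card_nsmul _ _ 1 fun q _ => ?_).trans ?_
    · have hq : (1 : ℝ) ≤ (q : ℕ) := by exact_mod_cast q.2.1.one_lt.le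
      exact Real.rpow_le_one_of_one_le_of_nonpos hq (by linarith)
    · simp
  have h2 : Tendsto (fun s : ℝ => c * Real.log (1 / (s - 1)) - K) (𝓝[>] 1) atTop := by
    have h3 : Tendsto (fun s : ℝ => s - 1) (𝓝[>] 1) (𝓝[>] 0) := by
      refine tendsto_nhdsWithin_iff.2 ⟨?_, ?_⟩
      · have : Tendsto (fun s : ℝ => s - 1) (𝓝 1) (𝓝 (1 - 1)) := by
          exact (continuous_id.sub continuous_const).tendsto 1
        rw [sub_self] at this
        exact this.mono_left nhdsWithin_le_nhds
      · filter_upwards [self_mem_nhdsWithin] with s hs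
        exact sub_pos.2 (Set.mem_Ioi.1 hs)
    have h4 : Tendsto (fun s : ℝ => Real.log (1 / (s - 1))) (𝓝[>] 1) atTop := by
      refine Real.tendsto_log_atTop.comp ?_
      simp only [one_div]
      exact tendsto_inv_nhdsGT_zero.comp h3
    exact tendsto_atTop_add_const_right _ _ (h4.const_mul_atTop hc0)
  have h5 := h2.eventually (eventually_gt_atTop (Fintype.card {q : ℕ // P n q} : ℝ))
  have h6 : ∀ᶠ s : ℝ in 𝓝[>] 1, 1 < s ∧ s ≤ 2 := by
    filter_upwards [Ioc_mem_nhdsGT (show (1 : ℝ) < 2 by norm_num)] with s hs using hs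
  obtain ⟨s, hs1, hs2⟩ := (h5.and h6).exists
  exact absurd (h1 s hs2.1 hs2.2) (not_le.2 hs1)

end Pool.Agent.VAC2.BothTwists
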