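import Mathlib

/-!
Certificate for `MP_8e0b0b_nt/NinthPowerCriterion` (not a hand-in): the hypotheses of (a) and (b) are
satisfied by explicit primes, and the conclusions are not automatic for primes `p ≡ 1 (mod 9)`:
`19` is a sum of two rational cubes (so the test in (a) is needed for `g = 1`), and for `p = 271` both
`p` and `p ^ 2` are such sums (so the set in (b) and in the density statement is a proper subset of
the class). The sum over the primes in (b) converges for `s > 1`, so the value is not a junk value.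
-/

set_option autoImplicit false

namespace Pool.Agent.VAC2.NinthPower

/-- an instance of the hypotheses of (a), `g = 1` -/
theorem a73 : Nat.Prime 73 ∧ 73 % 9 = 1 ∧ 4 * ((73 : ℕ) : ℤ) = 7 ^ 2 + 27 * 3 ^ 2 ∧
    ¬ ∃ t : ℤ, ((73 : ℕ) : ℤ) ∣ 27 ^ (1 - 1) * t ^ 9 - 3 ^ 1 := by
  refine ⟨by norm_num, by norm_num, by norm_num, ?_⟩
  rintro ⟨t, ht⟩
  have h1 : ((27 ^ (1 - 1) * t ^ 9 - 3 ^ 1 : ℤ) : ZMod 73) = 0 :=
    (ZMod.intCast_zmod_eq_zero_iff_dvd _ 73).2 ht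
  push_cast at h1
  have h2 : ∀ u : ZMod 73, 27 ^ (1 - 1) * u ^ 9 - 3 ^ 1 ≠ 0 := by decide
  exact h2 _ h1

/-- an instance of the hypotheses of (a), `g = 2` -/
theorem a19 : Nat.Prime 19 ∧ 19 % 9 = 1 ∧ 4 * ((19 : ℕ) : ℤ) = 7 ^ 2 + 27 * 1 ^ 2 ∧
    ¬ ∃ t : ℤ, ((19 : ℕ) : ℤ) ∣ 27 ^ (2 - 1) * t ^ 9 - 1 ^ 2 := by
  refine ⟨by norm_num, by norm_num, by norm_num, ?_⟩
  rintro ⟨t, ht⟩
  have h1 : ((27 ^ (2 - 1) * t ^ 9 - 1 ^ 2 : ℤ) : ZMod 19) = 0 :=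
    (ZMod.intCast_zmod_eq_zero_iff_dvd _ 19).2 ht
  push_cast at h1
  have h2 : ∀ u : ZMod 19, 27 ^ (2 - 1) * u ^ 9 - 1 ^ 2 ≠ 0 := by decide
  exact h2 _ h1

/-- an instance of the hypotheses of (b) -/
theorem b19 : ¬ ∃ t : ℤ, ((19 : ℕ) : ℤ) ∣ t ^ 3 - 3 := by
  rintro ⟨t, ht⟩
  have h1 : ((t ^ 3 - 3 : ℤ) : ZMod 19) = 0 := (ZMod.intCast_zmod_eq_zero_iff_dvd _ 19).2 ht
  push_cast at h1
  have h2 : ∀ u : ZMod 19, u ^ 3 - 3 ≠ 0 := by decide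
  exact h2 _ h1

/-- the conclusion of (a) for `g = 1` fails for a prime of the class -/
theorem sum19 : ∃ X Y : ℚ, X ^ 3 + Y ^ 3 = ((19 : ℕ) : ℚ) ^ 1 := ⟨3, -2, by norm_num⟩

/-- the conclusion of (b) fails for a prime of the class, for which `3` is a cube -/
theorem both271 : Nat.Prime 271 ∧ 271 % 9 = 1 ∧ (∃ t : ℤ, ((271 : ℕ) : ℤ) ∣ t ^ 3 - 3) ∧
    (∃ X Y : ℚ, X ^ 3 + Y ^ 3 = ((271 : ℕ) : ℚ)) ∧
    ∃ X Y : ℚ, X ^ 3 + Y ^ 3 = ((271 : ℕ) : ℚ) ^ 2 := by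
  refine ⟨by norm_num, by norm_num, ?_, ⟨10, -9, by norm_num⟩, ⟨5140 / 63, -(4897 / 63), by norm_num⟩⟩
  have h2 : ∃ u : Fin 271, 271 ∣ (u : ℕ) ^ 3 + 268 := by decide +kernel
  obtain ⟨u, k, hk⟩ := h2
  refine ⟨(u : ℕ), (k : ℤ) - 1, ?_⟩
  have h3 : (((u : ℕ) ^ 3 + 268 : ℕ) : ℤ) = ((271 * k : ℕ) : ℤ) := by rw [hk]
  push_cast at h3 ⊢
  linarith

/-- the sum in (b) converges -/
theorem summ (S : Set ℕ) (s : ℝ) (hs : 1 < s) : Summable fun p : S => ((p : ℕ) : ℝ) ^ (-s) :=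
  ((Real.summable_nat_rpow.2 (by linarith)).comp_injective Subtype.val_injective)

end Pool.Agent.VAC2.NinthPower
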