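import Mathlib

/-!
# Certificate for `MP_8e0b0b_nt/PrimeTwistAverage` (vacuity audit)

`C`, `RankLE`, `r`, `tf`, `Sum`, `Below`, `All`, `Mod` are copied from the hand-in.

* `hypotheses`: for every `m` there is a cube-free `n` with `m` prime factors `≡ 1 (mod 3)`.
* `inf_of_below`: the clause `Below ... (tf (r A ≤ 2)) x` with `x > 0` and the clause on the generation by `r(A)` points give
  infinitely many primes `q ≡ a (mod 3)` such that `C_A(ℚ)` is generated by at most two points for `A = n q` or `A = n q²`,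
  whatever the number of the prime factors of `n` is.
* `r7`: `C_7(ℚ)` is not generated by `0` points (`n = 1`, `q = 7`), so `r` is not a junk value.
-/

set_option autoImplicit false

namespace Pool.Agent.VAC2.PTAverage

def C (A : ℤ) : WeierstrassCurve ℚ where
  a₁ := 0
  a₂ := 0
  a₃ := 0
  a₄ := 0
  a₆ := -432 * (A : ℚ) ^ 2

def RankLE (A : ℤ) (n : ℕ) : Prop :=
  ∃ s : Finset (C A).toAffine.Point, s.card ≤ n ∧
    AddSubgroup.closure (s : Set (C A).toAffine.Point) = ⊤

noncomputable def r (A : ℤ) : ℕ := sInf {n : ℕ | RankLE A n}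

open Classical in
noncomputable def tf (P : Prop) : ℝ := if P then 1 else 0

open Classical in
noncomputable def Sum (n : ℤ) (P : ℕ → Prop) (W : ℤ → Prop) (F : ℤ → ℝ) (σ : ℝ) (T : Finset ℕ) : ℝ :=
  ∑ e ∈ ({1, 2} : Finset ℕ), ∑ q ∈ T,
    if q.Prime ∧ P q ∧ W (q ^ e) then F (n * q ^ e) * (q : ℝ) ^ (-σ) else 0

def Below (n : ℤ) (P : ℕ → Prop) (W : ℤ → Prop) (F : ℤ → ℝ) (x : ℝ) : Prop :=
  ∃ K : ℝ, ∀ σ : ℝ, 1 < σ → σ ≤ 2 → ∃ T : Finset ℕ, x * Real.log (1 / (σ - 1)) - K ≤ Sum n P W F σ T

def All {α : Type} (_ : α) : Prop := True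

def Mod (a q : ℕ) : Prop := q % 3 = a

/-- The hypotheses on `n` are satisfiable for every `m`. -/
theorem hypotheses (m : ℕ) :
    ∃ n : ℕ, 0 < n ∧ (∀ p : ℕ, p.Prime → ¬ p ^ 3 ∣ n) ∧
      m = (n.primeFactors.filter (fun p => p % 3 = 1)).card := by
  have hinf : {p : ℕ | p.Prime ∧ p % 3 = 1}.Infinite := by
    apply Set.infinite_of_not_bddAbove
    rintro ⟨b, hb⟩
    obtain ⟨p, h1, h2, h3⟩ := Nat.forall_exists_prime_gt_and_modEq b (q := 3) (a := 1)
      (by norm_num) (by norm_num)
    have := hb (show p ∈ _ from ⟨h2, h3⟩)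
    omega
  let f : ℕ → ℕ := fun i => (hinf.natEmbedding _ i : ℕ)
  have hfp : ∀ i, (f i).Prime := fun i => (hinf.natEmbedding _ i).2.1
  have hf3 : ∀ i, f i % 3 = 1 := fun i => (hinf.natEmbedding _ i).2.2
  have hfi : Function.Injective f := fun i j hij => (hinf.natEmbedding _).injective (Subtype.ext hij)
  let s : Finset ℕ := (Finset.range m).image f
  have hs : ∀ p ∈ s, p.Prime := by
    intro p hp
    obtain ⟨i, -, rfl⟩ := Finset.mem_image.1 hp
    exact hfp i
  have hsf : Squarefree (∏ p ∈ s, p) := by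
    refine Finset.squarefree_prod_of_pairwise_isCoprime ?_ ?_
    · intro a ha b hb hab
      exact Nat.coprime_iff_isRelPrime.1 ((Nat.coprime_primes (hs a ha) (hs b hb)).2 hab)
    · intro a ha
      exact (hs a ha).squarefree
  refine ⟨∏ p ∈ s, p, Finset.prod_pos fun p hp => (hs p hp).pos, fun p hp hd => ?_, ?_⟩
  · have h1 : p * p ∣ ∏ p ∈ s, p := dvd_trans (by rw [← pow_two]; exact pow_dvd_pow p (by norm_num)) hd
    exact hp.one_lt.ne' (Nat.isUnit_iff.1 (hsf p h1))
  · rw [Nat.primeFactors_prod hs]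
    have : s.filter (fun p => p % 3 = 1) = s := by
      refine Finset.filter_true_of_mem fun p hp => ?_
      obtain ⟨i, -, rfl⟩ := Finset.mem_image.1 hp
      exact hf3 i
    rw [this, Finset.card_image_of_injective _ hfi, Finset.card_range]

theorem inf_of_below {n : ℤ} {a : ℕ} {P : ℤ → Prop} {x : ℝ} (hx : 0 < x)
    (h : Below n (Mod a) All (fun A => tf (P A)) x) :
    {q : ℕ | q.Prime ∧ q % 3 = a ∧ ∃ e : ℕ, (e = 1 ∨ e = 2) ∧ P (n * q ^ e)}.Infinite := by
  classical
  intro hfin
  obtain ⟨K, hK⟩ := h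
  set S := hfin.toFinset with hS
  have hb : ∀ σ : ℝ, 1 < σ → ∀ T : Finset ℕ,
      Pool.Agent.VAC2.PTAverage.Sum n (Mod a) All (fun A => tf (P A)) σ T ≤ 2 * (S.card : ℝ) := by
    intro σ hσ T
    unfold Pool.Agent.VAC2.PTAverage.Sum
    have h1 : ∀ e ∈ ({1, 2} : Finset ℕ), (∑ q ∈ T,
        if q.Prime ∧ Mod a q ∧ All ((q : ℤ) ^ e) then
          (fun A => tf (P A)) (n * q ^ e) * (q : ℝ) ^ (-σ) else 0) ≤ (S.card : ℝ) := by
      intro e he
      have he' : e = 1 ∨ e = 2 := by simpa using he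
      calc (∑ q ∈ T, if q.Prime ∧ Mod a q ∧ All ((q : ℤ) ^ e) then
            (fun A => tf (P A)) (n * q ^ e) * (q : ℝ) ^ (-σ) else 0)
          ≤ ∑ q ∈ T, if q ∈ S then (1 : ℝ) else 0 := by
            refine Finset.sum_le_sum fun q _ => ?_
            by_cases hq : q.Prime ∧ Mod a q ∧ All ((q : ℤ) ^ e)
            · rw [if_pos hq]
              by_cases hP : P (n * q ^ e)
              · have hqS : q ∈ S := by
                  rw [hS, Set.Finite.mem_toFinset]
                  exact ⟨hq.1, hq.2.1, e, he', hP⟩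
                rw [if_pos hqS]
                have h2 : tf (P (n * q ^ e)) = 1 := by unfold tf; rw [if_pos hP]
                have h3 : (q : ℝ) ^ (-σ) ≤ 1 := by
                  apply Real.rpow_le_one_of_one_le_of_nonpos
                  · exact_mod_cast hq.1.one_lt.le
                  · linarith
                show tf (P (n * q ^ e)) * (q : ℝ) ^ (-σ) ≤ 1
                rw [h2, one_mul]
                exact h3
              · have h2 : tf (P (n * q ^ e)) = 0 := by unfold tf; rw [if_neg hP]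
                show tf (P (n * q ^ e)) * (q : ℝ) ^ (-σ) ≤ _
                rw [h2, zero_mul]
                split_ifs <;> norm_num
            · rw [if_neg hq]
              split_ifs <;> norm_num
        _ ≤ (S.card : ℝ) := by
            rw [← Finset.sum_filter, Finset.sum_const, nsmul_eq_mul, mul_one]
            exact_mod_cast Finset.card_le_card fun q hq => (Finset.mem_filter.1 hq).2
    calc _ ≤ ∑ _e ∈ ({1, 2} : Finset ℕ), (S.card : ℝ) := Finset.sum_le_sum h1
      _ = 2 * (S.card : ℝ) := by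
          rw [Finset.sum_const]
          simp
  set B : ℝ := (|K| + 2 * S.card + 1) / x with hB
  have hBpos : 0 < B := by positivity
  obtain ⟨T, hT⟩ := hK (1 + Real.exp (-B)) (by linarith [Real.exp_pos (-B)])
    (by
      have : Real.exp (-B) ≤ 1 := Real.exp_le_one_iff.2 (by linarith)
      linarith)
  have h3 := hb (1 + Real.exp (-B)) (by linarith [Real.exp_pos (-B)]) T
  have h4 : Real.log (1 / (1 + Real.exp (-B) - 1)) = B := by
    rw [add_sub_cancel_left, one_div, Real.log_inv, Real.log_exp, neg_neg]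
  rw [h4] at hT
  have h5 : x * B = |K| + 2 * S.card + 1 := by
    rw [hB]
    field_simp
  rw [h5] at hT
  linarith [le_abs_self K]

/-- Two of the clauses of the theorem give infinitely many twists generated by two points. -/
theorem two_points (n : ℕ) (a : ℕ)
    (h : Below n (Mod a) All (fun A => tf (r A ≤ 2)) (1 / 3))
    (hg : ∃ M : ℕ, ∀ q e : ℕ, q.Prime → M < q → (e = 1 ∨ e = 2) →
      RankLE (n * q ^ e) (r (n * q ^ e))) :
    {q : ℕ | q.Prime ∧ q % 3 = a ∧ ∃ e : ℕ, (e = 1 ∨ e = 2) ∧ RankLE (n * q ^ e) 2}.Infinite := by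
  obtain ⟨M, hM⟩ := hg
  have h1 := (inf_of_below (by norm_num) h).sdiff (Set.finite_Iic M)
  refine h1.mono ?_
  rintro q ⟨⟨hq, h3, e, he, hP⟩, hqM⟩
  obtain ⟨s, hs, hs'⟩ := hM q e hq (by simpa using hqM) he
  exact ⟨hq, h3, e, he, s, hs.trans hP, hs'⟩

/-- `r` is not a junk value: `C_7(ℚ)` is not trivial. -/
theorem r7 : ¬ RankLE 7 0 := by
  rintro ⟨s, hs, h⟩
  have h0 : s = ∅ := Finset.card_eq_zero.1 (Nat.le_zero.1 hs)
  rw [h0, Finset.coe_empty, AddSubgroup.closure_empty] at h
  have hns : (C 7).toAffine.Nonsingular 84 756 := by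
    rw [WeierstrassCurve.Affine.nonsingular_iff]
    refine ⟨?_, ?_⟩
    · rw [WeierstrassCurve.Affine.equation_iff]
      simp only [C]
      norm_num
    · right
      simp only [C]
      norm_num
  have h1 : (WeierstrassCurve.Affine.Point.some _ _ hns : (C 7).toAffine.Point) ∈
      (⊤ : AddSubgroup (C 7).toAffine.Point) := AddSubgroup.mem_top _
  rw [← h, AddSubgroup.mem_bot] at h1
  exact WeierstrassCurve.Affine.Point.some_ne_zero _ h1

end Pool.Agent.VAC2.PTAverage
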