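import Pool.Agent.Results.MP_8e0b0b_nt.PrimeTwistDistribution

/-!
# Certificate (vacuity audit, second pass): `MP_8e0b0b_nt.PrimeTwistDistribution` is not vacuous

* `inf_of_below`: a clause `Below` with a positive number gives infinitely many primes `q` with the property;
* `cert_nosum`: for `n = 1` the theorem gives infinitely many primes `q ≡ 2 (mod 3)` such that `q` or `q²` is not a sum of two
  rational cubes, and infinitely many primes `q ≡ 1 (mod 3)` such that `C_q` or `C_(q²)` has `r ≤ 1` and is generated by `r` points;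
* `cert_real`: `NoSum 7` is false and `C_7(ℚ)` is not generated by `0` points, so neither property is automatic.
-/

set_option autoImplicit false

namespace Pool.Agent.VAC2.PTDist

open Pool.Agent.PTL (tf)
open Pool.Agent.Results.MP_8e0b0b_nt.PrimeTwistDistribution hiding Sum

theorem inf_of_below {n : ℤ} {a : ℕ} {W : ℤ → Prop} {P : ℤ → Prop} {x : ℝ} (hx : 0 < x)
    (h : Below n a W (fun A => tf (P A)) x) :
    {q : ℕ | q.Prime ∧ q % 3 = a ∧ ∃ e : ℕ, (e = 1 ∨ e = 2) ∧ W (q ^ e) ∧ P (n * q ^ e)}.Infinite := by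
  classical
  intro hfin
  obtain ⟨K, hK⟩ := h
  set S := hfin.toFinset with hS
  have hb : ∀ σ : ℝ, 1 < σ → ∀ T : Finset ℕ, Pool.Agent.Results.MP_8e0b0b_nt.PrimeTwistDistribution.Sum n a W (fun A => tf (P A)) σ T ≤ 2 * (S.card : ℝ) := by
    intro σ hσ T
    unfold Pool.Agent.Results.MP_8e0b0b_nt.PrimeTwistDistribution.Sum
    have h1 : ∀ e ∈ ({1, 2} : Finset ℕ), (∑ q ∈ T,
        if q.Prime ∧ q % 3 = a ∧ W (q ^ e) then (fun A => tf (P A)) (n * q ^ e) * (q : ℝ) ^ (-σ) else 0) ≤
        (S.card : ℝ) := by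
      intro e he
      have he' : e = 1 ∨ e = 2 := by simpa using he
      calc (∑ q ∈ T, if q.Prime ∧ q % 3 = a ∧ W (q ^ e) then
            (fun A => tf (P A)) (n * q ^ e) * (q : ℝ) ^ (-σ) else 0)
          ≤ ∑ q ∈ T, if q ∈ S then (1 : ℝ) else 0 := by
            refine Finset.sum_le_sum fun q _ => ?_
            by_cases hq : q.Prime ∧ q % 3 = a ∧ W (q ^ e)
            · rw [if_pos hq]
              by_cases hP : P (n * q ^ e)
              · have hqS : q ∈ S := by
                  rw [hS, Set.Finite.mem_toFinset]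
                  exact ⟨hq.1, hq.2.1, e, he', hq.2.2, hP⟩
                rw [if_pos hqS]
                have h2 : tf (P (n * q ^ e)) = 1 := by unfold tf; rw [if_pos hP]
                have h3 : (q : ℝ) ^ (-σ) ≤ 1 := by
                  apply Real.rpow_le_one_of_one_le_of_nonpos
                  · exact_mod_cast hq.1.one_lt.le
                  · linarith
                show tf (P (n * q ^ e)) * (q : ℝ) ^ (-σ) ≤ 1
                rw [h2, one_mul]
                exact h3
              · have h2 : tf (P (n * q ^ e)) = 0 := by unfold tf; rw [if_neg hP]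
                show tf (P (n * q ^ e)) * (q : ℝ) ^ (-σ) ≤ _
                rw [h2, zero_mul]
                split_ifs <;> norm_num
            · rw [if_neg hq]
              split_ifs <;> norm_num
        _ ≤ (S.card : ℝ) := by
            rw [← Finset.sum_filter, Finset.sum_const, nsmul_eq_mul, mul_one]
            exact_mod_cast Finset.card_le_card fun q hq => (Finset.mem_filter.1 hq).2
    calc _ ≤ ∑ _e ∈ ({1, 2} : Finset ℕ), (S.card : ℝ) := Finset.sum_le_sum h1
      _ = 2 * (S.card : ℝ) := by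
          rw [Finset.sum_const]
          simp
  -- the weight close to `1`
  set B : ℝ := (|K| + 2 * S.card + 1) / x with hB
  have hBpos : 0 < B := by positivity
  obtain ⟨T, hT⟩ := hK (1 + Real.exp (-B)) (by linarith [Real.exp_pos (-B)])
    (by
      have : Real.exp (-B) ≤ 1 := Real.exp_le_one_iff.2 (by linarith)
      linarith)
  have h3 := hb (1 + Real.exp (-B)) (by linarith [Real.exp_pos (-B)]) T
  have h4 : Real.log (1 / (1 + Real.exp (-B) - 1)) = B := by
    rw [add_sub_cancel_left, one_div, Real.log_inv, Real.log_exp, neg_neg]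
  rw [h4] at hT
  have h5 : x * B = |K| + 2 * S.card + 1 := by
    rw [hB]
    field_simp
  rw [h5] at hT
  linarith [le_abs_self K]

theorem cert_nosum :
    {q : ℕ | q.Prime ∧ q % 3 = 2 ∧ (NoSum (q : ℤ) ∨ NoSum ((q : ℤ) ^ 2))}.Infinite ∧
    {q : ℕ | q.Prime ∧ q % 3 = 1 ∧ ∃ e : ℕ, (e = 1 ∨ e = 2) ∧ RankLE ((q : ℤ) ^ e) 1}.Infinite := by
  obtain ⟨-, ⟨M, hM⟩, -, -, h5, -⟩ := result 1 one_pos (fun p hp h => by
    have := Nat.le_of_dvd one_pos h
    have := hp.two_le
    nlinarith [Nat.pow_le_pow_left hp.two_le 3]) 0 0 0 1 (by simp) (by simp) (by simp) rfl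
  obtain ⟨h6, h7⟩ := h5 (by norm_num)
  refine ⟨?_, ?_⟩
  · refine (inf_of_below (by norm_num) h6).mono ?_
    rintro q ⟨hq, h3, e, he, -, hP⟩
    refine ⟨hq, h3, ?_⟩
    rcases he with rfl | rfl
    · left
      simpa using hP
    · right
      simpa using hP
  · have h8 := inf_of_below (by norm_num) h7
    have h9 := h8.sdiff (Set.finite_Iic M)
    refine h9.mono ?_
    rintro q ⟨⟨hq, h3, e, he, -, hP⟩, hqM⟩
    refine ⟨hq, h3, e, he, ?_⟩
    have h10 := hM q e hq (by simpa using hqM) he
    simp only [Nat.cast_one, one_mul] at h10 hP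
    obtain ⟨s, hs, hs'⟩ := h10
    exact ⟨s, hs.trans hP, hs'⟩

theorem cert_real : ¬ NoSum 7 ∧ ¬ RankLE 7 0 := by
  refine ⟨fun h => h ⟨2, -1, by norm_num⟩, ?_⟩
  rintro ⟨s, hs, h⟩
  have h0 : s = ∅ := Finset.card_eq_zero.1 (Nat.le_zero.1 hs)
  rw [h0, Finset.coe_empty, AddSubgroup.closure_empty] at h
  have hns : (C 7).toAffine.Nonsingular 84 756 := by
    rw [WeierstrassCurve.Affine.nonsingular_iff]
    refine ⟨?_, ?_⟩
    · rw [WeierstrassCurve.Affine.equation_iff]
      simp only [C]
      norm_num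
    · right
      simp only [C]
      norm_num
  have h1 : (WeierstrassCurve.Affine.Point.some _ _ hns : (C 7).toAffine.Point) ∈
      (⊤ : AddSubgroup (C 7).toAffine.Point) := AddSubgroup.mem_top _
  rw [← h, AddSubgroup.mem_bot] at h1
  exact WeierstrassCurve.Affine.Point.some_ne_zero _ h1

end Pool.Agent.VAC2.PTDist
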