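import Pool.Agent.Q2E.CertV
import Pool.Agent.S2L.MainB

/-!
# The theorem `MP_9649a7_lc.Certificates` is not vacuous: certificates

* `class_nonempty`: `S12` is in the class.
* `proofs_are_certificates`: for each `S` in the class the proofs in `S` are a sound notion of
  certificates, so part (a) says in particular that proofs are long.
* `accepting_exists`: each accepting computation of a program has a description by records, so
  `DescribedBy s W` is true for large `s` for each program `W` which accepts some tree.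
-/

set_option autoImplicit false

namespace Pool.Agent.VAC2.Certificates

open Pool.Agent.H19 Pool.Agent.H19.T Pool.Agent.RU Pool.Agent.Q2E Pool.Agent.S2L

/-- The class is not empty. -/
theorem class_nonempty : InClassT S12 := MB.s12_inClass

/-- `r` and `r'` agree below `L`. -/
def Agree (r r' : ℕ → Rec) (L : ℕ) : Prop := ∀ i < L, r' i = r i

/-- The records below `L` are correct. -/
def Good (r : ℕ → Rec) (L : ℕ) : Prop := ∀ i < L, Ok r i

/-- The record number `i` describes the tree `x`. -/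
def Den (r : ℕ → Rec) : T → ℕ → Prop
  | T.leaf, i => r i = Rec.leaf
  | T.node x y, i => ∃ a b, r i = Rec.node a b ∧ Den r x a ∧ Den r y b

theorem Den.isTree {r : ℕ → Rec} {x : T} {i : ℕ} (h : Den r x i) : IsTree r i := by
  cases x with
  | leaf => exact Or.inl h
  | node x y =>
    obtain ⟨a, b, h, -⟩ := h
    exact Or.inr ⟨a, b, h⟩

theorem Good.node {r : ℕ → Rec} {L i a b : ℕ} (hg : Good r L) (hi : i < L)
    (h : r i = Rec.node a b) : a < i ∧ b < i := by
  have := hg i hi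
  rw [Ok, h] at this
  exact ⟨this.1.1, this.2.1⟩

theorem Good.eval {r : ℕ → Rec} {L i x y s t : ℕ} {c : Code} (hg : Good r L) (hi : i < L)
    (h : r i = Rec.eval c x y s t) : x < i ∧ y < i := by
  have := hg i hi
  rw [Ok, h] at this
  exact ⟨this.1.1, this.2.1.1⟩

theorem Den.agree {r r' : ℕ → Rec} {L : ℕ} (hg : Good r L) (ha : Agree r r' L) {x : T} :
    ∀ {i : ℕ}, i < L → Den r x i → Den r' x i := by
  induction x with
  | leaf => intro i hi h; exact (ha i hi).trans h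
  | node x y ihx ihy =>
    rintro i hi ⟨a, b, h, h1, h2⟩
    obtain ⟨ha1, hb1⟩ := hg.node hi h
    exact ⟨a, b, (ha i hi).trans h, ihx (by omega) h1, ihy (by omega) h2⟩

theorem Ev.agree {r r' : ℕ → Rec} {L s x y : ℕ} {c : Code} (ha : Agree r r' L) (hs : s < L)
    (h : Ev r s c x y) : Ev r' s c x y := by
  obtain ⟨s', t', h⟩ := h
  exact ⟨s', t', (ha s hs).trans h⟩

theorem IsTree.agree {r r' : ℕ → Rec} {L s : ℕ} (ha : Agree r r' L) (hs : s < L)
    (h : IsTree r s) : IsTree r' s := by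
  rcases h with h | ⟨a, b, h⟩
  · exact Or.inl ((ha s hs).trans h)
  · exact Or.inr ⟨a, b, (ha s hs).trans h⟩

theorem Rule.agree {r r' : ℕ → Rec} {L s t x y : ℕ} {c : Code} (hg : Good r L)
    (ha : Agree r r' L) (hx : x < L) (hy : y < L) (hs : s < L) (ht : t < L)
    (h : Rule r c x y s t) : Rule r' c x y s t := by
  cases c with
  | id => exact h
  | leaf => exact (ha y hy).trans h
  | fst =>
    rcases h with ⟨h1, h2⟩ | ⟨b, h1⟩
    · exact Or.inl ⟨(ha x hx).trans h1, (ha y hy).trans h2⟩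
    · exact Or.inr ⟨b, (ha x hx).trans h1⟩
  | snd =>
    rcases h with ⟨h1, h2⟩ | ⟨b, h1⟩
    · exact Or.inl ⟨(ha x hx).trans h1, (ha y hy).trans h2⟩
    · exact Or.inr ⟨b, (ha x hx).trans h1⟩
  | pair f g =>
    obtain ⟨a, b, h1, h2, h3⟩ := h
    exact ⟨a, b, (ha y hy).trans h1, Ev.agree ha hs h2, Ev.agree ha ht h3⟩
  | comp f g =>
    obtain ⟨z, h2, h3⟩ := h
    exact ⟨z, Ev.agree ha hs h2, Ev.agree ha ht h3⟩
  | ite c f g =>
    obtain ⟨z, h2, h3⟩ := h
    obtain ⟨s', t', h2'⟩ := h2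
    have hz : z < L := by have := hg.eval hs h2'; omega
    refine ⟨z, Ev.agree ha hs ⟨s', t', h2'⟩, ?_⟩
    rcases h3 with ⟨h3, h4⟩ | ⟨a, b, h3, h4⟩
    · exact Or.inl ⟨(ha z hz).trans h3, Ev.agree ha ht h4⟩
    · exact Or.inr ⟨a, b, (ha z hz).trans h3, Ev.agree ha ht h4⟩
  | loop f =>
    rcases h with ⟨h1, h2⟩ | ⟨a, h1, h2⟩ | ⟨a, b, a₁, a₂, z, h1, h2, h3, h4⟩
    · exact Or.inl ⟨(ha x hx).trans h1, (ha y hy).trans h2⟩
    · have := hg.node hx h1
      exact Or.inr (Or.inl ⟨a, (ha x hx).trans h1, (ha a (by omega)).trans h2⟩)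
    · have := hg.node hx h1
      exact Or.inr (Or.inr ⟨a, b, a₁, a₂, z, (ha x hx).trans h1, (ha a (by omega)).trans h2,
        Ev.agree ha hs h3, Ev.agree ha ht h4⟩)

theorem Ok.agree {r r' : ℕ → Rec} {L i : ℕ} (hg : Good r L) (ha : Agree r r' L) (hi : i < L) :
    Ok r' i := by
  have h := hg i hi
  rw [Ok] at h ⊢
  rw [ha i hi]
  cases hri : r i with
  | leaf => trivial
  | node a b =>
    rw [hri] at h
    obtain ⟨⟨h1, h2⟩, h3, h4⟩ := h
    exact ⟨⟨h1, IsTree.agree ha (by omega) h2⟩, h3, IsTree.agree ha (by omega) h4⟩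
  | eval c x y s t =>
    rw [hri] at h
    obtain ⟨⟨h1, h2⟩, ⟨h3, h4⟩, h5, h6, h7⟩ := h
    exact ⟨⟨h1, IsTree.agree ha (by omega) h2⟩, ⟨h3, IsTree.agree ha (by omega) h4⟩, h5, h6,
      Rule.agree hg ha (by omega) (by omega) (by omega) (by omega) h7⟩

/-- Put the record `w` in place `L`. -/
def push (r : ℕ → Rec) (L : ℕ) (w : Rec) : ℕ → Rec := fun i => if i = L then w else r i

theorem push_agree (r : ℕ → Rec) (L : ℕ) (w : Rec) : Agree r (push r L w) L := by
  intro i hi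
  rw [push, if_neg (by omega)]

theorem push_self (r : ℕ → Rec) (L : ℕ) (w : Rec) : push r L w L = w := by
  rw [push, if_pos rfl]

theorem Agree.trans {r r' r'' : ℕ → Rec} {L L' : ℕ} (h : Agree r r' L) (h' : Agree r' r'' L')
    (hL : L ≤ L') : Agree r r'' L := fun i hi => (h' i (by omega)).trans (h i hi)

theorem push_good {r : ℕ → Rec} {L : ℕ} {w : Rec} (hg : Good r L)
    (h : Ok (push r L w) L) : Good (push r L w) (L + 1) := by
  intro i hi
  rcases Nat.lt_succ_iff_lt_or_eq.1 hi with h1 | rfl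
  · exact Ok.agree hg (push_agree r L w) h1
  · exact h

theorem push_leaf {r : ℕ → Rec} {L : ℕ} (hg : Good r L) : Good (push r L Rec.leaf) (L + 1) := by
  refine push_good hg ?_
  rw [Ok, push_self]
  trivial

theorem push_node {r : ℕ → Rec} {L a b : ℕ} (hg : Good r L) (ha : a < L) (hb : b < L)
    (hat : IsTree r a) (hbt : IsTree r b) : Good (push r L (Rec.node a b)) (L + 1) := by
  refine push_good hg ?_
  rw [Ok, push_self]
  exact ⟨⟨ha, IsTree.agree (push_agree r L _) ha hat⟩, hb,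
    IsTree.agree (push_agree r L _) hb hbt⟩

theorem push_eval {r : ℕ → Rec} {L x y s t : ℕ} {c : Code} (hg : Good r L) (hx : x < L)
    (hy : y < L) (hs : s < L) (ht : t < L) (hxt : IsTree r x) (hyt : IsTree r y)
    (h : Rule r c x y s t) : Good (push r L (Rec.eval c x y s t)) (L + 1) := by
  refine push_good hg ?_
  rw [Ok, push_self]
  exact ⟨⟨hx, IsTree.agree (push_agree r L _) hx hxt⟩, ⟨hy,
    IsTree.agree (push_agree r L _) hy hyt⟩, hs, ht,
    Rule.agree hg (push_agree r L _) hx hy hs ht h⟩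

/-- The extension with a record of a step. -/
def Ext (r : ℕ → Rec) (L : ℕ) (c : Code) (ix : ℕ) (y : T) : Prop :=
  ∃ (r' : ℕ → Rec) (L' : ℕ), L ≤ L' ∧ Agree r r' L ∧ Good r' L' ∧
    ∃ iy < L', Den r' y iy ∧ ∃ j < L', Ev r' j c ix iy

theorem finish {r r₁ : ℕ → Rec} {L L₁ : ℕ} {c : Code} {ix iy : ℕ} {x y : T} {s t : ℕ}
    (hL : L ≤ L₁) (ha : Agree r r₁ L) (hg : Good r₁ L₁) (hx : ix < L₁) (hy : iy < L₁)
    (hs : s < L₁) (ht : t < L₁) (hdx : Den r₁ x ix) (hdy : Den r₁ y iy)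
    (h : Rule r₁ c ix iy s t) : Ext r L c ix y := by
  refine ⟨push r₁ L₁ (Rec.eval c ix iy s t), L₁ + 1, by omega,
    Agree.trans ha (push_agree _ _ _) hL, push_eval hg hx hy hs ht hdx.isTree hdy.isTree h, iy,
    by omega, Den.agree hg (push_agree _ _ _) hy hdy, L₁, by omega, s, t, push_self _ _ _⟩

/-- Each computation is described by records. -/
theorem ext_of_eval {c : Code} {x y : T} {t : ℕ} (h : Eval c x y t) :
    ∀ (r : ℕ → Rec) (L : ℕ), Good r L → ∀ ix < L, Den r x ix → Ext r L c ix y := by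
  induction h with
  | id x =>
    intro r L hg ix hix hd
    exact finish (s := ix) (t := ix) le_rfl (fun _ _ => rfl) hg hix hix hix hix hd hd rfl
  | leaf x =>
    intro r L hg ix hix hd
    have hA := push_agree r L Rec.leaf
    exact finish (s := ix) (t := ix) (Nat.le_succ L) hA (push_leaf hg) (by omega)
      (Nat.lt_succ_self L) (by omega) (by omega) (Den.agree hg hA hix hd)
      (show Den _ T.leaf L from push_self r L Rec.leaf) (push_self r L Rec.leaf)
  | fst x =>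
    intro r L hg ix hix hd
    cases x with
    | leaf =>
      exact finish (s := ix) (t := ix) le_rfl (fun _ _ => rfl) hg hix hix hix hix hd hd
        (Or.inl ⟨hd, hd⟩)
    | node a b =>
      have hd' := hd
      obtain ⟨ia, ib, h1, h2, h3⟩ := hd'
      have h4 := hg.node hix h1
      exact finish (s := ix) (t := ix) le_rfl (fun _ _ => rfl) hg hix (by omega) hix hix hd h2
        (Or.inr ⟨ib, h1⟩)
  | snd x =>
    intro r L hg ix hix hd
    cases x with
    | leaf =>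
      exact finish (s := ix) (t := ix) le_rfl (fun _ _ => rfl) hg hix hix hix hix hd hd
        (Or.inl ⟨hd, hd⟩)
    | node a b =>
      have hd' := hd
      obtain ⟨ia, ib, h1, h2, h3⟩ := hd'
      have h4 := hg.node hix h1
      exact finish (s := ix) (t := ix) le_rfl (fun _ _ => rfl) hg hix (by omega) hix hix hd h3
        (Or.inr ⟨ia, h1⟩)
  | @pair f g x a b s t _ _ ihf ihg =>
    intro r L hg ix hix hd
    obtain ⟨r₁, L₁, hL₁, ha₁, hg₁, ia, hia, hda, j₁, hj₁, he₁⟩ := ihf r L hg ix hix hd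
    have hd₁ := Den.agree hg ha₁ hix hd
    obtain ⟨r₂, L₂, hL₂, ha₂, hg₂, ib, hib, hdb, j₂, hj₂, he₂⟩ :=
      ihg r₁ L₁ hg₁ ix (by omega) hd₁
    have hd₂ := Den.agree hg₁ ha₂ (by omega) hd₁
    have hda₂ := Den.agree hg₁ ha₂ hia hda
    have he₁₂ := Ev.agree ha₂ hj₁ he₁
    have hA := push_agree r₂ L₂ (Rec.node ia ib)
    have hg₃ := push_node hg₂ (by omega : ia < L₂) hib hda₂.isTree hdb.isTree
    refine finish (L₁ := L₂ + 1) (iy := L₂) (s := j₁) (t := j₂) (by omega)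
      (Agree.trans (Agree.trans ha₁ ha₂ hL₁) hA (by omega)) hg₃ (by omega) (by omega) (by omega)
      (by omega) (Den.agree hg₂ hA (by omega) hd₂) ?_ ?_
    · exact ⟨ia, ib, push_self _ _ _, Den.agree hg₂ hA (by omega) hda₂, Den.agree hg₂ hA hib hdb⟩
    · exact ⟨ia, ib, push_self _ _ _, Ev.agree hA (by omega) he₁₂, Ev.agree hA hj₂ he₂⟩
  | @comp f g x y z s t _ _ ihg ihf =>
    intro r L hg ix hix hd
    obtain ⟨r₁, L₁, hL₁, ha₁, hg₁, iy, hiy, hdy, j₁, hj₁, he₁⟩ := ihg r L hg ix hix hd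
    have hd₁ := Den.agree hg ha₁ hix hd
    obtain ⟨r₂, L₂, hL₂, ha₂, hg₂, iz, hiz, hdz, j₂, hj₂, he₂⟩ := ihf r₁ L₁ hg₁ iy hiy hdy
    exact finish (s := j₁) (t := j₂) (by omega) (Agree.trans ha₁ ha₂ hL₁) hg₂ (by omega) hiz
      (by omega) hj₂ (Den.agree hg₁ ha₂ (by omega) hd₁) hdz
      ⟨iy, Ev.agree ha₂ hj₁ he₁, he₂⟩
  | @ite_leaf c f g x y s t _ _ ihc ihf =>
    intro r L hg ix hix hd
    obtain ⟨r₁, L₁, hL₁, ha₁, hg₁, iz, hiz, hdz, j₁, hj₁, he₁⟩ := ihc r L hg ix hix hd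
    have hd₁ := Den.agree hg ha₁ hix hd
    obtain ⟨r₂, L₂, hL₂, ha₂, hg₂, iy, hiy, hdy, j₂, hj₂, he₂⟩ :=
      ihf r₁ L₁ hg₁ ix (by omega) hd₁
    exact finish (s := j₁) (t := j₂) (by omega) (Agree.trans ha₁ ha₂ hL₁) hg₂ (by omega) hiy
      (by omega) hj₂ (Den.agree hg₁ ha₂ (by omega) hd₁) hdy
      ⟨iz, Ev.agree ha₂ hj₁ he₁, Or.inl ⟨Den.agree hg₁ ha₂ hiz hdz, he₂⟩⟩
  | @ite_node c f g x a b y s t _ _ ihc ihg =>
    intro r L hg ix hix hd
    obtain ⟨r₁, L₁, hL₁, ha₁, hg₁, iz, hiz, hdz, j₁, hj₁, he₁⟩ := ihc r L hg ix hix hd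
    have hd₁ := Den.agree hg ha₁ hix hd
    obtain ⟨r₂, L₂, hL₂, ha₂, hg₂, iy, hiy, hdy, j₂, hj₂, he₂⟩ :=
      ihg r₁ L₁ hg₁ ix (by omega) hd₁
    obtain ⟨a', b', h1, -⟩ := Den.agree hg₁ ha₂ hiz hdz
    exact finish (s := j₁) (t := j₂) (by omega) (Agree.trans ha₁ ha₂ hL₁) hg₂ (by omega) hiy
      (by omega) hj₂ (Den.agree hg₁ ha₂ (by omega) hd₁) hdy
      ⟨iz, Ev.agree ha₂ hj₁ he₁, Or.inr ⟨a', b', h1, he₂⟩⟩
  | @loop_stop f x hx =>
    intro r L hg ix hix hd
    cases x with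
    | leaf =>
      exact finish (s := ix) (t := ix) le_rfl (fun _ _ => rfl) hg hix hix hix hix hd hd
        (Or.inl ⟨hd, hd⟩)
    | node a b =>
      have hd' := hd
      obtain ⟨ia, ib, h1, h2, h3⟩ := hd'
      have h4 := hg.node hix h1
      have hx' : a = T.leaf := hx
      subst hx'
      exact finish (s := ix) (t := ix) le_rfl (fun _ _ => rfl) hg hix (by omega) hix hix hd h3
        (Or.inr (Or.inl ⟨ia, h1, h2⟩))
  | @loop_step f x y z s t hx _ _ ihf ihl =>
    intro r L hg ix hix hd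
    obtain ⟨r₁, L₁, hL₁, ha₁, hg₁, iy, hiy, hdy, j₁, hj₁, he₁⟩ := ihf r L hg ix hix hd
    have hd₁ := Den.agree hg ha₁ hix hd
    obtain ⟨r₂, L₂, hL₂, ha₂, hg₂, iz, hiz, hdz, j₂, hj₂, he₂⟩ := ihl r₁ L₁ hg₁ iy hiy hdy
    have hd₂ := Den.agree hg₁ ha₂ (by omega) hd₁
    cases x with
    | leaf => exact absurd rfl hx
    | node a b =>
      cases a with
      | leaf => exact absurd rfl hx
      | node a₁ a₂ =>
        have hd₂' := hd₂
        obtain ⟨ia, ib, h1, ⟨i₁, i₂, h5, -⟩, h3⟩ := hd₂'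
        exact finish (s := j₁) (t := j₂) (by omega) (Agree.trans ha₁ ha₂ hL₁) hg₂ (by omega) hiz
          (by omega) hj₂ hd₂ hdz
          (Or.inr (Or.inr ⟨ia, ib, i₁, i₂, iy, h1, h5, Ev.agree ha₂ hj₁ he₁, he₂⟩))

/-- Records for a tree. -/
theorem ext_tree (x : T) : ∀ (r : ℕ → Rec) (L : ℕ), Good r L →
    ∃ (r' : ℕ → Rec) (L' : ℕ), L ≤ L' ∧ Agree r r' L ∧ Good r' L' ∧ ∃ i < L', Den r' x i := by
  induction x with
  | leaf =>
    intro r L hg
    exact ⟨_, L + 1, by omega, push_agree r L Rec.leaf, push_leaf hg, L, by omega,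
      push_self r L Rec.leaf⟩
  | node x y ihx ihy =>
    intro r L hg
    obtain ⟨r₁, L₁, hL₁, ha₁, hg₁, a, ha, hda⟩ := ihx r L hg
    obtain ⟨r₂, L₂, hL₂, ha₂, hg₂, b, hb, hdb⟩ := ihy r₁ L₁ hg₁
    have hda₂ := Den.agree hg₁ ha₂ ha hda
    have hA := push_agree r₂ L₂ (Rec.node a b)
    exact ⟨_, L₂ + 1, by omega, Agree.trans (Agree.trans ha₁ ha₂ hL₁) hA (by omega),
      push_node hg₂ (by omega : a < L₂) hb hda₂.isTree hdb.isTree, L₂, by omega, a, b,
      push_self _ _ _, Den.agree hg₂ hA (by omega) hda₂, Den.agree hg₂ hA hb hdb⟩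

/-- Each accepting computation has a description by records. -/
theorem accepting_exists {W : Code} {x y : T} {t : ℕ} (h : Eval W x y t) (hy : y ≠ T.leaf) :
    ∃ (r : ℕ → Rec) (L : ℕ), Accepting r L W := by
  obtain ⟨r, L, -, -, hg, ix, hix, hd⟩ := ext_tree x (fun _ => Rec.leaf) 0
    (fun i hi => absurd hi (by omega))
  obtain ⟨r', L', hL, ha, hg', iy, hiy, hdy, j, hj, s, t', hj'⟩ := ext_of_eval h r L hg ix hix hd
  refine ⟨r', j + 1, by omega, fun i hi => hg' i (by omega), ix, iy, s, t', ?_⟩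
  cases y with
  | leaf => exact absurd rfl hy
  | node y₁ y₂ =>
    obtain ⟨a, b, h1, -⟩ := hdy
    exact ⟨a, b, hj', h1⟩

/-- Tables are computable. -/
theorem table (r : ℕ → T) : ∀ L : ℕ, ∃ f : T → T, PolyTime f ∧ ∀ i < L, f (bl i) = r i
  | 0 => ⟨_, PolyTime.const T.leaf, fun i hi => absurd hi (by omega)⟩
  | L + 1 => by
    obtain ⟨f, hf, hfr⟩ := table r L
    obtain ⟨d, hd, hdd⟩ := PolyDec.eq PolyTime.id (PolyTime.const (bl L))
    refine ⟨_, PolyTime.tif hd hf (PolyTime.const (r L)), fun i hi => ?_⟩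
    by_cases h : i = L
    · subst h
      have := (hdd (bl i)).1 rfl
      show tif (d (bl i)) (f (bl i)) (r i) = r i
      cases hdi : d (bl i) with
      | leaf => exact absurd hdi this
      | node a b => rw [tif_node]
    · have h1 : d (bl i) = T.leaf := by
        by_contra h2
        exact h (bl_inj.1 ((hdd (bl i)).2 h2))
      show tif (d (bl i)) (f (bl i)) (r L) = r i
      rw [h1, tif_leaf]
      exact hfr i (by omega)

/-- `DescribedBy s W` is true for some `s`, if `W` accepts some tree. -/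
theorem describedBy_exists {W : Code} {x y : T} {t : ℕ} (h : Eval W x y t) (hy : y ≠ T.leaf) :
    ∃ s₀, ∀ s ≥ s₀, DescribedBy s W := by
  obtain ⟨r, L, hr⟩ := accepting_exists h hy
  obtain ⟨f, ⟨D, k, hD⟩, hf⟩ := table (fun i => (r i).enc) L
  refine ⟨D.enc.size + L.size + ∑ i ∈ Finset.range L, ((bl i).size + 2) ^ k, fun s hs => ?_⟩
  refine ⟨D, L, r, by omega, by omega, hr, fun i hi => ?_⟩
  obtain ⟨t, ht, ht'⟩ := hD (bl i)
  have h1 := Finset.single_le_sum (f := fun i => ((bl i).size + 2) ^ k)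
    (fun _ _ => Nat.zero_le _) (Finset.mem_range.2 hi)
  exact ⟨t, by omega, by rw [← hf i hi]; exact ht⟩

/-- For each `S` in the class the proofs are certificates: a sound and complete notion. -/
theorem proofs_are_certificates {S : Set Fm} (hS : InClassT S) :
    ∃ B : T → T, PolyTime B ∧ SoundCert S B ∧
      ∀ (φ : Fm) (π : List Step), IsProof S π φ → ∀ s ≥ (encProof π).size, ∀ z : T,
        B (cin φ.enc s (encProof π) z) ≠ T.leaf := by
  obtain ⟨g, hg, hgp⟩ := isProof_polyDec (DecTh.of_inClassT hS)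
  have i := PolyTime.id
  refine ⟨fun v => g (T.node v.right.left.left v.left), hg.comp (i.right.left.left.node i.left),
    ?_, ?_⟩
  · intro φ s y hy h
    have h1 := h T.leaf (le_trans (by
      cases y with
      | leaf => exact le_rfl
      | node a b => simp only [T.size]; omega) hy)
    have h2 := (hgp (T.node y φ.enc)).2 h1
    simp only [T.left_node, T.right_node, decFm_enc] at h2
    exact ⟨_, h2⟩
  · intro φ π hπ s _ z
    refine (hgp (T.node (encProof π) φ.enc)).1 ?_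
    simpa only [T.left_node, T.right_node, decFm_enc, decProof_enc] using hπ

/-- There is a sound and complete checker. -/
theorem checker_exists {S : Set Fm} (hS : InClassT S) :
    ∃ V : Code, SoundChecker S V ∧ ∀ φ : Fm, Provable S φ →
      ∃ s₀, ∀ s ≥ s₀, DescribedBy s (check V φ) := by
  obtain ⟨g, ⟨V, k, hV⟩, hgp⟩ := isProof_polyDec (DecTh.of_inClassT hS)
  refine ⟨V, ?_, ?_⟩
  · intro y z φ t h hz
    obtain ⟨t', h', -⟩ := hV (T.node y φ.enc)
    have h1 : z = g (T.node y φ.enc) := (Eval.det h h').1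
    have h2 := (hgp (T.node y φ.enc)).2 (h1 ▸ hz)
    simp only [T.left_node, T.right_node, decFm_enc] at h2
    exact ⟨_, h2⟩
  · rintro φ ⟨π, hπ⟩
    obtain ⟨t', h', -⟩ := hV (T.node (encProof π) φ.enc)
    have h1 : g (T.node (encProof π) φ.enc) ≠ T.leaf := by
      refine (hgp (T.node (encProof π) φ.enc)).1 ?_
      simpa only [T.left_node, T.right_node, decFm_enc, decProof_enc] using hπ
    exact describedBy_exists (Eval.comp (Eval.pair (Eval.id (encProof π)) (Eval.const (encProof π) φ.enc)) h') h1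

/-- Part (a) contains the lower bound `n ^ δ` for the sizes of the proofs. -/
theorem lower_bound (μ : Fm) (hμ : IsUniversal μ) (P : Code → ℕ → Fm) (hP : IsFormalisation μ P)
    (S T₀ : Set Fm) (hS : InClassT S) (hT₀ : InClassT T₀) :
    ∃ (c : Code) (κ : ℕ), HaltsWithin c κ ∧ SameModels (theory c κ) T₀ ∧
      ∃ e n₀ : ℕ, ∀ n ≥ n₀, ∀ s : ℕ, s ^ e ≤ n →
        ∀ π : List Step, IsProof S π (rfn (P c κ) μ n) → s < (encProof π).size := by
  obtain ⟨B, hB, hs, hc⟩ := proofs_are_certificates hS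
  obtain ⟨V, hV, -⟩ := checker_exists hS
  obtain ⟨c, κ, h1, h2, e, n₀, h3⟩ := certs μ hμ P hP S T₀ hS hT₀ B hB hs V hV
  refine ⟨c, κ, h1, h2, e, n₀, fun n hn s hse π hπ => ?_⟩
  by_contra hlt
  obtain ⟨z, -, hz⟩ := (h3 n hn s hse).1 (encProof π) (by omega)
  exact hc _ π hπ s (by omega) z hz

end Pool.Agent.VAC2.Certificates
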