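import Pool.Agent.PO.Fwd1
import Pool.Agent.PO.SimF
import Pool.Agent.PO.XPB
import Pool.Agent.PO.Easy

/-!
# Vacuity certificate for MP_9649a7_lc CharacterisationTFNP (helper file, not a hand-in)

(1) `S^1_2` is in the class, so `ReflectionConjecture` quantifies over a nonempty class.
(2) `TotalUpTo` takes both truth values on clocked programs, for all `n ≥ 1`, and it is antitone
in `n`; so the algorithm in `TotalityInXP` has a real decision to make.
(3) If every NP set is in P then `TotalityInXP` holds and every nonempty set in `Π^p_2` has a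
p-optimal proof system. So the equivalent statements are not true for a trivial reason: they
imply that some NP set is not in P.
(4) The empty set has no proof system at all: without `A.Nonempty` the statements on p-optimal
proof systems would be trivially true; with it they are not, by (3).
(5) There is a TFNP problem whose solution is forced (it is the instance), so completeness for
TFNP is a real condition.
-/

set_option autoImplicit false

namespace VAC2.CharacterisationTFNP

open Pool.Agent.H19 Pool.Agent.H19.T Pool.Agent.PO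

/-- The class is not empty. -/
theorem inClassT_S12 : InClassT S12 := by
  refine ⟨⟨ℕ, stdN, stdN_models⟩, fun _ => T.leaf, ⟨Code.leaf, 0, fun x => ?_⟩, fun φ => ?_⟩
  · exact ⟨1, Eval.leaf x, by simp⟩
  · simp

/-- The program that accepts everything is total up to every size. -/
theorem total_true : HaltsWithin (Code.pair Code.leaf Code.leaf) 2 ∧
    ∀ n, TotalUpTo (Code.pair Code.leaf Code.leaf) n := by
  have h : ∀ x : T, Eval (Code.pair Code.leaf Code.leaf) x (T.node T.leaf T.leaf) (1 + 1 + 1) :=
    fun x => Eval.pair (Eval.leaf x) (Eval.leaf x)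
  refine ⟨fun x => ⟨_, _, h x, ?_⟩, fun n x _ => ⟨x, le_rfl, _, _, h _, by simp⟩⟩
  have := x.size_pos
  nlinarith

/-- The program that accepts nothing is not total up to any size `n ≥ 1`. -/
theorem total_false : HaltsWithin Code.leaf 1 ∧ ∀ n ≥ 1, ¬ TotalUpTo Code.leaf n := by
  refine ⟨fun x => ⟨_, _, Eval.leaf x, by rw [pow_one]; omega⟩, fun n hn h => ?_⟩
  obtain ⟨z, -, y, t, hy, hy'⟩ := h T.leaf (by simpa [T.size] using hn)
  cases hy
  exact hy' rfl

/-- `TotalUpTo` is antitone. -/
theorem total_antitone (c : Code) {m n : ℕ} (h : m ≤ n) (hn : TotalUpTo c n) : TotalUpTo c m :=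
  fun x hx => hn x (hx.trans h)

/-- If P = NP then `Π^p_2` is in P. -/
theorem pi2_collapse (h : ∀ A : Set T, InNP A → InP A) {A : Set T} (hA : InPi2 A) : InP A := by
  obtain ⟨f, k, hf, hfA⟩ := hA
  have i := PolyTime.id
  let B : T → Prop := fun w => ∃ z : T, z.size ≤ (w.left.size + 2) ^ k ∧
    f (T.node w.left (T.node w.right z)) ≠ T.leaf
  have hB : NPred B := by
    refine NPred.of (D := fun v => v.right.size ≤ (v.left.left.size + 2) ^ k ∧
      f (T.node v.left.left (T.node v.left.right v.right)) ≠ T.leaf) ?_
      (G := fun n => (n + 2) ^ k) ⟨k, fun _ => le_rfl⟩ ?_ ?_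
    · exact (PolyDec.le (PolyNat.size i.right) (((PolyNat.size i.left.left).add
        (PolyNat.const 2)).pow k)).and
        (PolyDec.ne_leaf (hf.comp (i.left.left.node (i.left.right.node i.right))))
    · rintro x ⟨z, hz, hz'⟩
      refine ⟨z, hz.trans (Nat.pow_le_pow_left ?_ _), hz, hz'⟩
      cases x with
      | leaf => exact le_rfl
      | node a b => simp only [T.left_node, T.size]; omega
    · rintro x w ⟨h1, h2⟩
      exact ⟨w, h1, h2⟩
  have hBd : PolyDec B := h _ (InNP.of_npred hB)
  obtain ⟨g, hg, hgB⟩ := hBd.not
  have hAc : InNP Aᶜ := by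
    refine ⟨g, k, hg, fun x => ?_⟩
    rw [Set.mem_compl_iff, hfA x]
    push Not
    constructor
    · rintro ⟨y, hy, hy'⟩
      refine ⟨y, hy, (hgB _).1 ?_⟩
      rintro ⟨z, hz, hz'⟩
      exact hz' (hy' z hz)
    · rintro ⟨y, hy, hy'⟩
      refine ⟨y, hy, fun z hz => ?_⟩
      by_contra hc
      exact (hgB _).2 hy' ⟨z, hz, hc⟩
  have hAd : PolyDec (fun x => x ∈ Aᶜ) := h _ hAc
  exact hAd.not.congr fun x => by simp

/-- If P = NP then statement (2) fails: totality up to size `n` is decided in time `n ^ f(c)`. -/
theorem totality_of_collapse (h : ∀ A : Set T, InNP A → InP A) : TotalityInXP :=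
  opt_to_xp SIMF_thm fun _ hA hA' => hasPOptimal_of_inP hA (pi2_collapse h hA')

/-- If P = NP then statements (5) and (6) fail. -/
theorem optimal_of_collapse (h : ∀ A : Set T, InNP A → InP A) :
    ∀ A : Set T, A.Nonempty → InPi2 A → HasPOptimal A :=
  fun _ hA hA' => hasPOptimal_of_inP hA (pi2_collapse h hA')

/-- The empty set has no proof system. -/
theorem no_system_empty : ¬ HasPOptimal (∅ : Set T) := by
  rintro ⟨h, ⟨-, hr⟩, -⟩
  have : h T.leaf ∈ (∅ : Set T) := hr ▸ Set.mem_range_self _
  exact this

/-- A TFNP problem with a forced solution: the instance itself. A complete problem has to compute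
it from its own solutions. -/
theorem forced : InTFNP (fun z => teq z.left z.right) 1 ∧
    ∀ x y : T, IsSol (fun z => teq z.left z.right) 1 x y ↔ y = x := by
  have i := PolyTime.id
  have key : ∀ x y : T, IsSol (fun z => teq z.left z.right) 1 x y ↔ y = x := by
    intro x y
    simp only [IsSol, T.left_node, T.right_node, teq_iff]
    constructor
    · exact fun h => h.2.symm
    · rintro rfl
      exact ⟨by rw [pow_one]; omega, rfl⟩
  refine ⟨⟨PolyTime₂.comp teq_polyTime₂ i.left i.right, fun x => ⟨x, (key x x).2 rfl⟩⟩, key⟩

end VAC2.CharacterisationTFNP
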