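import Pool.Agent.Q2E.Main
import Pool.Agent.Lib_helper19.Collapse

/-!
# Certificates for the hand-in CircuitDichotomy: the statement is not vacuous and not trivial
-/

set_option autoImplicit false

namespace Pool.Agent.VAC2.CircuitDichotomy

open Pool.Agent.H19 Pool.Agent.H19.T Pool.Agent.PO Pool.Agent.S2L Pool.Agent.RU Pool.Agent.Q2E

/-- The class of theories is not empty: it contains `S^1_2`, which has the standard model. -/
theorem class_nonempty : InClassT S12 ∧ stdN.Models S12 := ⟨MB.s12_inClass, stdN_models⟩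

/-- The first case is not automatically true: it implies that P is not `Π^p_2`. -/
theorem first_nontrivial {μ : Fm} (hμ : IsUniversal μ) {P : Code → ℕ → Fm}
    (hP : IsFormalisation μ P) (h : ReflectionConjecture μ P) : ∃ A : Set T, InPi2 A ∧ ¬ InP A :=
  ⟨AA μ, AA_inPi2 hμ.1, conj_imp hμ hP h⟩

/-- No set that is decidable in time polynomial in the length satisfies (c). -/
theorem easy_noShort {A : Set ℕ} (h : ∃ f : T → T, PolyTime f ∧ ∀ x, x ∈ A ↔ f (bl x) ≠ T.leaf) :
    ¬ NoShortProofs A := by
  obtain ⟨f, hf, hfA⟩ := h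
  intro hA
  have i := PolyTime.id
  obtain ⟨e, m₀, h⟩ := hA (fun w => f w.left) (hf.comp i.left) (by
    intro x s y hy hall
    rw [hfA]
    have := hall T.leaf ((T.size_pos y).trans hy)
    simpa [vin] using this)
  obtain ⟨x, hx, hxm, hno⟩ := h m₀ le_rfl
  obtain ⟨z, _, hz⟩ := hno 1 T.leaf (by rw [one_pow]; exact Nat.one_le_two_pow) (by simp [T.size])
  exact (hfA x).1 hx (by simpa [vin] using hz)

/-- Sets decidable in time polynomial in the length are in `Σ₂TIME(t)`. -/
theorem easy_sigma {A : Set ℕ} (h : ∃ f : T → T, PolyTime f ∧ ∀ x, x ∈ A ↔ f (bl x) ≠ T.leaf)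
    (t : ℕ → ℕ) (ht : ∀ m, 1 ≤ t m) : InSigma2Time t A := by
  obtain ⟨f, hf, hfA⟩ := h
  have i := PolyTime.id
  refine ⟨fun w => f w.left, hf.comp i.left, ?_⟩
  intro x s hs
  subst hs
  rw [hfA]
  constructor
  · intro hx
    exact ⟨T.leaf, by simpa [T.size] using ht _, fun z _ => by simpa using hx⟩
  · rintro ⟨y, hy, hall⟩
    have := hall T.leaf ((T.size_pos y).trans hy)
    simpa using this

/-- The bounds in (b) exist. -/
theorem bound_exists : SubexpBound (fun m => m + 1) := by
  constructor
  · have i := PolyTime.id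
    obtain ⟨f, hf, h⟩ := PolyDec.eq (PolyNat.len i.right).unary
      ((PolyNat.len i.left).add (PolyNat.const 1)).unary
    refine ⟨f, hf, fun m s => ?_⟩
    rw [← h]
    simp only [T.left_node, T.right_node, T.len_unary]
    constructor
    · intro h1
      have := congrArg T.len h1
      simpa using this
    · rintro rfl
      rfl
  · intro e
    have h := (isLittleO_pow_const_const_pow_of_one_lt (R := ℝ) e (by norm_num : (1 : ℝ) < 2))
    have h1 := h.def (by norm_num : (0 : ℝ) < 1 / 2)
    obtain ⟨m₀, hm₀⟩ := Filter.eventually_atTop.1 h1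
    refine ⟨m₀, fun m hm => ?_⟩
    have h2 := hm₀ (m + 1) (by omega)
    rw [Real.norm_of_nonneg (by positivity), Real.norm_of_nonneg (by positivity)] at h2
    have h3 : (((m + 1 : ℕ) : ℝ)) ^ e ≤ 2 ^ m := by
      calc (((m + 1 : ℕ) : ℝ)) ^ e ≤ 1 / 2 * 2 ^ (m + 1) := h2
        _ = 2 ^ m := by rw [pow_succ]; ring
    exact_mod_cast h3

/-- Small circuits exist for the empty set: (a) is a real condition. -/
theorem not_hard_empty : ¬ HardForCircuits ∅ := by
  rintro ⟨e, m₀, h⟩
  let m := m₀ + 2 * e + 1
  obtain ⟨x, hx, hne⟩ := h m (by omega) [(0, 0), (0, m), (m + 1, m + 1)] (by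
      intro k hk
      simp only [List.length_cons, List.length_nil] at hk
      have hmm : 0 < m := by omega
      interval_cases k <;> simp [hmm]) (by
      calc ([(0, 0), (0, m), (m + 1, m + 1)] : List (ℕ × ℕ)).length ^ e = 3 ^ e := by simp
        _ ≤ 4 ^ e := Nat.pow_le_pow_left (by omega) e
        _ = 2 ^ (2 * e) := by rw [pow_mul]; norm_num
        _ ≤ 2 ^ m := Nat.pow_le_pow_right (by omega) (by omega))
  apply hne
  simp only [Set.mem_empty_iff_false, false_iff]
  intro hacc
  have hw : (digits x).length = m := by simp [digits, hx]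
  unfold AcceptsC wires at hacc
  generalize digits x = w at hw hacc
  obtain ⟨a, w', rfl⟩ : ∃ a w', w = a :: w' := by
    cases w with
    | nil => simp at hw
    | cons a w' => exact ⟨a, w', rfl⟩
  have h1 : ((a :: w') ++ [!(a && a)]).getD m false = !(a && a) := by
    rw [List.getD_append_right _ _ _ _ (by omega), hw]
    simp
  have h2 : ((a :: w') ++ [!(a && a)] ++ [!(a && !(a && a))]).getD (m + 1) false =
      !(a && !(a && a)) := by
    rw [List.getD_append_right _ _ _ _ (by simp at hw ⊢; omega)]
    have : ((a :: w') ++ [!(a && a)]).length = m + 1 := by simp at hw ⊢; omega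
    rw [this]
    simp
  simp only [List.foldl_cons, List.foldl_nil] at hacc
  have h0 : ((a :: w').getD 0 false) = a := rfl
  rw [h0] at hacc
  have h3 : (((a :: w') ++ [!(a && a)]).getD 0 false) = a := rfl
  rw [h3, h1, h2] at hacc
  rw [List.getLast?_append] at hacc
  cases a <;> simp at hacc

end Pool.Agent.VAC2.CircuitDichotomy
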