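import Pool.Agent.Lib_helper19.Reflection

/-!
# Vacuity certificate for MP_9649a7_lc FixedLength (helper file, not a hand-in)

(1) `S^1_2` is in the class, so the quantifiers over `S` and `T₀` range over a nonempty class;
(2) for EVERY presentation `(c, κ)` of a consistent theory, every universal `μ` and every formalisation
`P`, the reflection sentence `rfn (P c κ) μ n` holds in every model of `S^1_2` (in particular in the
standard model). So by the completeness theorem every theory `S` of the class proves all these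
sentences, and the lower bounds of (A) and (B) do not hold because there is no proof at all;
(3) every universal formula has a true and a false instance (the premise and the conclusion of the
reflection sentences are real conditions).
-/

set_option autoImplicit false

namespace VAC2.FixedLength

open Pool.Agent.H19

theorem inClassT_S12 : InClassT S12 := by
  refine ⟨⟨ℕ, stdN, stdN_models⟩, fun _ => T.leaf, ⟨Code.leaf, 0, fun x => ?_⟩, fun φ => ?_⟩
  · exact ⟨1, Eval.leaf x, by simp⟩
  · simp

/-- In a model of `S^1_2` every element of standard length at most `n` is a standard number. -/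
theorem standard {M : Type} {A : Str M} (hA : A.Models S12) {a : M} {n : ℕ}
    (h : A.le (A.len a) (A.nat n)) : ∃ k : ℕ, a = A.nat k ∧ k.size ≤ n := by
  have g : Good A := good_of_models hA
  have b12 : ∀ x y, A.le x y → A.le (A.len x) (A.len y) := by
    intro x y
    have h12 : Fm.imp (Fm.le (Tm.var 0) (Tm.var 1)) (Fm.le (Tm.len (Tm.var 0)) (Tm.len (Tm.var 1))) ∈
        basicList := by simp [basicList]
    exact hA _ (Or.inl h12) (scons x (scons y fun _ => A.zero))
  obtain ⟨l, hl, hl'⟩ := g.initial h
  have h1 : ∃ k, a = A.nat k := by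
    rcases g.b6 a (A.nat (2 ^ n)) with h2 | h2
    · have h3 := b12 _ _ h2
      rw [g.len, hl', Nat.size_pow, g.le_iff] at h3
      omega
    · obtain ⟨k, -, hk⟩ := g.initial h2
      exact ⟨k, hk⟩
  obtain ⟨k, rfl⟩ := h1
  refine ⟨k, rfl, ?_⟩
  rwa [g.len, g.le_iff] at h

/-- The reflection sentences of a presentation of a consistent theory hold in all models of
`S^1_2`. -/
theorem rfn_valid {μ : Fm} (hμ : IsUniversal μ) {P : Code → ℕ → Fm} (hP : IsFormalisation μ P)
    (c : Code) (κ : ℕ) (hc : Consistent (theory c κ)) (n : ℕ) {M : Type} {A : Str M}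
    (hA : A.Models S12) (v : ℕ → M) : (rfn (P c κ) μ n).sat A v := by
  have g : Good A := good_of_models hA
  have hPb : (P c κ).bdd = true := (Fm.bdd_of _).1 (hP.delta c κ).1
  have hμb : μ.bdd = true := (Fm.bdd_of _).1 hμ.1
  intro a3 a2 a1 a0 h0 h1 h2 h3 hPt
  simp only [Fm.sat, Tm.val, g.numeral, scons] at h0 h1 h2 h3
  obtain ⟨e, rfl, he⟩ := standard hA h0
  obtain ⟨x, rfl, hx⟩ := standard hA h1
  obtain ⟨z, rfl, hz⟩ := standard hA h2
  obtain ⟨u, rfl, hu⟩ := standard hA h3
  have henvP : (P c κ).sat A (fun i => A.nat (vec4 e x z u i)) := by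
    refine (Fm.sat_congr_below A _ (hP.below c κ) (fun i hi => ?_)).1 hPt
    rcases i with _ | _ | _ | _ | i
    · rfl
    · rfl
    · rfl
    · rfl
    · omega
  rw [g.sat_iff _ hPb] at henvP
  obtain ⟨π, -, hπ⟩ := (hP.correct c κ e x z u).1 henvP
  -- a consistent theory proves only true instances of `μ`
  obtain ⟨N, B, hB⟩ := hc
  have gB : Good B := good_of_models fun φ hφ w => hB φ (Or.inl hφ) w
  have k1 := hπ.sound hB (fun _ => B.zero)
  simp only [inst3, Fm.sat_inst, gB.numeral] at k1
  have k2 : μ.sat B (fun i => B.nat (vec4 e x z u i)) := by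
    refine (Fm.sat_congr_below B _ hμ.2.1 (fun i hi => ?_)).1 k1
    rcases i with _ | _ | _ | i
    · rfl
    · rfl
    · rfl
    · omega
  rw [gB.sat_iff _ hμb] at k2
  rw [← g.sat_iff _ hμb] at k2
  refine (Fm.sat_congr_below A _ hμ.2.1 (fun i hi => ?_)).1 k2
  rcases i with _ | _ | _ | i
  · rfl
  · rfl
  · rfl
  · omega

/-- So adding the reflection sentences to a theory that contains `S^1_2` never changes its
models. -/
theorem rfn_same_models {μ : Fm} (hμ : IsUniversal μ) {P : Code → ℕ → Fm}
    (hP : IsFormalisation μ P) (c : Code) (κ : ℕ) (hc : Consistent (theory c κ)) (n : ℕ)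
    {S : Set Fm} (hS : S12 ⊆ S) {M : Type} {A : Str M} :
    A.Models (insert (rfn (P c κ) μ n) S) ↔ A.Models S := by
  constructor
  · exact fun h φ hφ v => h φ (Or.inr hφ) v
  · rintro h φ (rfl | hφ) v
    · exact rfn_valid hμ hP c κ hc n (fun ψ hψ w => h ψ (hS hψ) w) v
    · exact h φ hφ v

/-- Every universal formula has a false and a true instance. -/
theorem instances {μ : Fm} (hμ : IsUniversal μ) :
    (∃ e z : ℕ, ¬ μ.sat stdN (vec3 e 0 z)) ∧ ∃ e z : ℕ, μ.sat stdN (vec3 e 0 z) := by
  refine ⟨hμ.false_instance, ?_⟩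
  obtain ⟨e, p, hpoly, π, hπ⟩ := hμ.2.2 (Fm.imp Fm.bot Fm.bot) rfl ⟨trivial, trivial⟩
  refine ⟨e, 2 ^ ((p.val stdN (fun _ => 0))), ?_⟩
  have h1 := hπ.sound stdN_models
    (scons 0 (scons (2 ^ (p.val stdN (fun _ => 0))) fun _ => 0))
  simp only [Fm.sat, Fm.sat_iff, Fm.sat_inst, Tm.numeral_val] at h1
  have h2 : (p.inst 0 (Tm.len (Tm.var 0))).val stdN
      (scons 0 (scons (2 ^ (p.val stdN (fun _ => 0))) fun _ => 0)) =
      p.val stdN (fun _ => 0) := by
    have : ∀ (q : Tm), q.isPoly → ∀ v w : ℕ → ℕ, v 0 = w 0 → q.val stdN v = q.val stdN w := by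
      intro q hq v w hvw
      induction q with
      | var i => simp only [Tm.isPoly] at hq; subst hq; exact hvw
      | zero => rfl
      | succ t ih => simp only [Tm.val]; rw [ih hq]
      | half t ih => simp [Tm.isPoly] at hq
      | len t ih => simp [Tm.isPoly] at hq
      | add s t ih1 ih2 => simp only [Tm.val]; rw [ih1 hq.1, ih2 hq.2]
      | mul s t ih1 ih2 => simp only [Tm.val]; rw [ih1 hq.1, ih2 hq.2]
      | smash s t ih1 ih2 => simp [Tm.isPoly] at hq
    rw [Tm.val_inst]
    apply this p hpoly
    simp [Tm.val, scons, stdN]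
  have h3 := h1 (by
    rw [h2]
    simp only [Tm.val, scons, stdN, Nat.size_pow]
    omega)
  exact h3.1 (fun h => h)

end VAC2.FixedLength
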