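import Pool.Agent.MSD.One

/-!
# Certificate: there are sets complete for NP, and sets complete for coNP, in the sense of
`InNP`, `InCoNP` and `ManyOne`
-/

set_option autoImplicit false

namespace Pool.Agent.VAC2.HardSets

open Pool.Agent.H19 Pool.Agent.H19.T Pool.Agent.PO Pool.Agent.MSD

/-- The instances `node c (node (node x b) p)` such that for some `y` of size at most `b` the
program `c` accepts `(x, y)` within the budget `p`. -/
def U : Set T := {w | ∃ y : T, y.size ≤ w.right.left.right.len ∧
  (simulF (T.node w.left (T.node (T.node w.right.left.left y) w.right.right))).right ≠ T.leaf}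

theorem U_NP : InNP U := by
  obtain ⟨hs, _, _⟩ := SIMF_thm
  have i := PolyTime.id
  have hdec : PolyDec (fun v : T => v.right.size ≤ v.left.right.left.right.len ∧
      (simulF (T.node v.left.left (T.node (T.node v.left.right.left.left v.right)
        v.left.right.right))).right ≠ T.leaf) :=
    (PolyDec.le (PolyNat.size i.right) (PolyNat.len i.left.right.left.right)).and
      (PolyDec.ne_leaf (hs.comp (i.left.left.node ((i.left.right.left.left.node i.right).node
        i.left.right.right))).right)
  obtain ⟨f, hf, hf2⟩ := hdec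
  refine ⟨f, 1, hf, fun w => ⟨?_, ?_⟩⟩
  · rintro ⟨y, hy, hy2⟩
    refine ⟨y, ?_, (hf2 _).1 ⟨hy, hy2⟩⟩
    have h2 := T.len_lt_size w.right.left.right
    have h3 := T.size_right_le w.right.left
    have h4 := T.size_left_le w.right
    have h5 := T.size_right_le w
    rw [pow_one]
    omega
  · rintro ⟨y, _, hy⟩
    exact ⟨y, (hf2 _).2 hy⟩

theorem U_hard {A : Set T} (hA : InNP A) : ManyOne A U := by
  obtain ⟨hs, hs2, hs3⟩ := SIMF_thm
  obtain ⟨f, k, ⟨a, j, ha⟩, hA⟩ := hA
  have i := PolyTime.id
  have hb : PolyNat (fun x : T => (x.size + 2) ^ k) :=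
    ((PolyNat.size i).add (PolyNat.const 2)).pow k
  have hp : PolyNat (fun x : T => (x.size + (x.size + 2) ^ k + 3) ^ j) :=
    (((PolyNat.size i).add hb).add (PolyNat.const 3)).pow j
  refine ⟨fun x => T.node a.enc (T.node (T.node x (T.unary ((x.size + 2) ^ k)))
    (T.unary ((x.size + (x.size + 2) ^ k + 3) ^ j))),
    (PolyTime.const _).node ((i.node hb.unary).node hp.unary), fun x => ?_⟩
  rw [hA x]
  refine exists_congr fun y => ?_
  simp only [T.left_node, T.right_node, T.len_unary]
  refine and_congr_right fun hy => ?_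
  obtain ⟨t, ht, htb⟩ := ha (T.node x y)
  rw [hs2 a _ _ t _ ht (htb.trans ?_), T.right_node]
  apply Nat.pow_le_pow_left
  simp only [T.size]
  omega

theorem exists_np_complete : ∃ H : Set T, InNP H ∧ ∀ A : Set T, InNP A → ManyOne A H :=
  ⟨U, U_NP, fun _ hA => U_hard hA⟩

theorem exists_conp_complete : ∃ H : Set T, InCoNP H ∧ ∀ A : Set T, InCoNP A → ManyOne A H := by
  refine ⟨Uᶜ, by unfold InCoNP; rw [compl_compl]; exact U_NP, fun A hA => ?_⟩
  obtain ⟨r, hr, hr2⟩ := U_hard (A := Aᶜ) hA
  refine ⟨r, hr, fun x => ?_⟩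
  have := hr2 x
  simp only [Set.mem_compl_iff] at this ⊢
  tauto

end Pool.Agent.VAC2.HardSets
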