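import Pool.Agent.MSD.Defs

/-!
# The class `E` does not have p-measure zero

A certificate that `PMeasureZero` is not a vacuous notion: against every martingale computable
exactly in polynomial time some set in `E` keeps the capital bounded, so no such martingale
succeeds on all of `E`.
-/

set_option autoImplicit false

namespace Pool.Agent.VAC2.MeasureNZ

open Pool.Agent.H19 Pool.Agent.H19.T Pool.Agent.PO Pool.Agent.S2L Pool.Agent.RU Pool.Agent.Q2E
open Pool.Agent.MSD

/-- Put a digit at the end. -/
def app1 (b : Bool) (w : T) : T := app w (T.node (Dec.lt b) T.leaf)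

theorem app1_enc (b : Bool) (w : List Bool) : app1 b (encW w) = encW (w ++ [b]) := by
  have h2 : ∀ (l : List T) (a : T), encL (l ++ [a]) = app (encL l) (T.node a T.leaf) := by
    intro l a
    induction l with
    | nil => rfl
    | cons b l ih => simp only [List.cons_append, encL_cons, app_node, ih]
  rw [encW, encW, List.map_append, List.map_cons, List.map_nil, h2]
  rfl

theorem app1_polyTime (b : Bool) : PolyTime (app1 b) :=
  PolyTime.id.app (PolyTime.const _)

theorem app1_size (b : Bool) (w : T) : (app1 b w).size ≤ w.size + 4 := by
  have h1 := app_size w (T.node (Dec.lt b) T.leaf)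
  have h2 : (Dec.lt b).size ≤ 3 := by cases b <;> simp [Dec.lt, T.size]
  simp only [T.size] at h1
  unfold app1
  omega

/-- The gambler does not gain if the next digit is `true`. -/
def Good (f : T → T) (w : T) : Prop :=
  bn (f (app1 true w)).left * bn (f (app1 false w)).right ≤
    bn (f (app1 false w)).left * bn (f (app1 true w)).right

theorem good_polyDec {f : T → T} (hf : PolyTime f) : PolyDec (Good f) := by
  have h1 : ∀ b, PolyN (fun w => bn (f (app1 b w)).left) := fun b =>
    canon_polyTime.comp (hf.comp (app1_polyTime b)).left
  have h2 : ∀ b, PolyN (fun w => bn (f (app1 b w)).right) := fun b =>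
    canon_polyTime.comp (hf.comp (app1_polyTime b)).right
  exact PolyDec.leN ((h1 true).mul (h2 false)) ((h1 false).mul (h2 true))

open Classical in
/-- The next word. -/
noncomputable def step (f : T → T) (w : T) : T := if Good f w then app1 true w else app1 false w

theorem step_polyTime {f : T → T} (hf : PolyTime f) : PolyTime (step f) := by
  classical
  exact (PolyTime.ifP (good_polyDec hf) (app1_polyTime true) (app1_polyTime false)).congr
    fun x => by unfold step; congr

theorem step_size (f : T → T) (w : T) : (step f w).size ≤ w.size + 4 := by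
  unfold step
  split_ifs
  · exact app1_size _ _
  · exact app1_size _ _

open Classical in
/-- The words of the set which keeps the capital low. -/
noncomputable def word (f : T → T) : ℕ → List Bool
  | 0 => []
  | n + 1 => word f n ++ [decide (Good f (encW (word f n)))]

theorem word_enc (f : T → T) (n : ℕ) : (step f)^[n] T.leaf = encW (word f n) := by
  induction n with
  | zero => rfl
  | succ n ih =>
    rw [Function.iterate_succ_apply', ih, word, step]
    split_ifs with h
    · rw [app1_enc]; simp [h]
    · rw [app1_enc]; simp [h]

/-- The set which keeps the capital low. -/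
def low (f : T → T) : Set ℕ := {x | Good f (encW (word f x))}

theorem chi_low (f : T → T) (n : ℕ) : chi (low f) n = word f n := by
  classical
  induction n with
  | zero => rfl
  | succ n ih =>
    have h1 : (decide (n ∈ low f) : Bool) = decide (Good f (encW (word f n))) := rfl
    rw [word, ← h1]
    conv_rhs => rw [← ih]
    rw [chi, chi, List.range_succ, List.map_append, List.map_cons, List.map_nil]

theorem low_inE {f : T → T} (hf : PolyTime f) : InE (low f) := by
  have i := PolyTime.id
  have h1 : PolyTime (fun x : T => (step f)^[x.len] T.leaf) := by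
    refine PolyTime.iterate (n := fun x => x) (s := fun _ => T.leaf) (step_polyTime hf) i
      PolyTime.leaf ?_
    have h2 : ∀ i, ((step f)^[i] T.leaf).size ≤ 4 * i + 1 := by
      intro i
      induction i with
      | zero => simp [T.size]
      | succ i ih =>
        rw [Function.iterate_succ_apply']
        have := step_size f ((step f)^[i] T.leaf)
        omega
    refine ⟨3, fun x i hi => (h2 i).trans ?_⟩
    have h3 := T.len_lt_size x
    have h4 : i ≤ x.size := by omega
    nlinarith [pow_succ (x.size + 2) 2, sq_nonneg x.size]
  obtain ⟨g, hg, hgd⟩ := (good_polyDec hf).comp h1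
  refine ⟨g, hg, fun x => ?_⟩
  have h2 : Good f ((step f)^[(T.unary x).len] T.leaf) ↔ g (T.unary x) ≠ T.leaf := hgd _
  rw [← h2, T.len_unary, word_enc]
  rfl

theorem not_pMeasureZero_E : ¬ PMeasureZero {A | InE A} := by
  rintro ⟨d, ⟨hd0, hd⟩, ⟨f, hf, hfd⟩, hs⟩
  have hkey : ∀ n, d (word f n) ≤ d [] := by
    intro n
    induction n with
    | zero => exact le_rfl
    | succ n ih =>
      obtain ⟨p1, q1, hq1, hf1, hd1⟩ := hfd (word f n ++ [true])
      obtain ⟨p0, q0, hq0, hf0, hd0'⟩ := hfd (word f n ++ [false])
      have hfair := hd (word f n)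
      have hg : Good f (encW (word f n)) ↔ p1 * q0 ≤ p0 * q1 := by
        rw [Good, app1_enc, app1_enc, hf1, hf0]
        simp
      have hq1' : (0 : ℚ) < q1 := by exact_mod_cast Nat.pos_of_ne_zero hq1
      have hq0' : (0 : ℚ) < q0 := by exact_mod_cast Nat.pos_of_ne_zero hq0
      have hle : Good f (encW (word f n)) ↔ d (word f n ++ [true]) ≤ d (word f n ++ [false]) := by
        rw [hg, hd1, hd0', div_le_div_iff₀ hq1' hq0']
        exact_mod_cast Iff.rfl
      rw [word]
      by_cases h : Good f (encW (word f n))
      · simp only [h, decide_true]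
        have := hle.1 h
        linarith
      · simp only [h, decide_false]
        have := not_le.1 (fun h' => h (hle.2 h'))
        linarith
  obtain ⟨K, hK⟩ := exists_nat_gt (d [])
  obtain ⟨n, hn⟩ := hs (low f) (low_inE hf) K
  rw [chi_low] at hn
  have := hkey n
  linarith

theorem PMeasureZero.mono {C D : Set (Set ℕ)} (h : C ⊆ D) (hD : PMeasureZero D) :
    PMeasureZero C := by
  obtain ⟨d, h1, h2, h3⟩ := hD
  exact ⟨d, h1, h2, fun A hA => h3 A (h hA)⟩

/-- If `E` is contained in `Σ₂TIME(2^o(m))`, the latter does not have p-measure zero. -/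
theorem not_pMeasureZero_sigma2 (h : ∀ A, InE A → A ∈ Sigma2Subexp) :
    ¬ PMeasureZero Sigma2Subexp :=
  fun h' => not_pMeasureZero_E (PMeasureZero.mono (fun A hA => h A hA) h')

end Pool.Agent.VAC2.MeasureNZ
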