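import Pool.Agent.TKN.St7

/-!
# Certificate: the time condition of the new lower bound contains both old conditions

`TimeSR G s T` (every accepted input has an accepting run with at most `T` tests of variables outside
a set of at most `s` variables) contains the condition that every accepted input has an accepting run
on which at most `r` variables are tested more than once, and the condition that it has one with at
most `|V| + r` tests. The same for fork programs.
-/

set_option autoImplicit false

open Finset

namespace Pool.Agent.TKN.Contain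

open Pool.Agent.Lib_helper20.SRO (Agrees)
open Pool.Agent.CFT (Der)

section
variable {V : Type}

theorem out_le (R : Finset V) (l : List (V × Bool)) : Out R l ≤ l.length :=
  List.length_filter_le _ _

theorem out_rereads [Fintype V] [DecidableEq V] (l : List (V × Bool)) :
    Out (univ.filter (fun x => 2 ≤ (l.map Prod.fst).count x)) l ≤ Fintype.card V := by
  set R : Finset V := univ.filter (fun x => 2 ≤ (l.map Prod.fst).count x) with hR
  set l' := l.filter fun p => p.1 ∉ R with hl'
  have hO : Out R l = l'.length := by
    unfold Out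
    rw [hl']
    congr 1
    apply List.filter_congr
    intro p _
    exact decide_eq_decide.2 Iff.rfl
  rw [hO]
  have hnd : (l'.map Prod.fst).Nodup := by
    rw [List.nodup_iff_count_le_one]
    intro x
    by_contra hc
    have h2 : 2 ≤ (l'.map Prod.fst).count x := by omega
    have hsub : (l'.map Prod.fst).Sublist (l.map Prod.fst) :=
      (List.filter_sublist (l := l)).map Prod.fst
    have h3 : 2 ≤ (l.map Prod.fst).count x := h2.trans (hsub.count_le x)
    have hxR : x ∈ R := by
      rw [hR, mem_filter]
      exact ⟨mem_univ _, h3⟩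
    have hmem : x ∈ l'.map Prod.fst := by
      rw [← List.count_pos_iff]
      omega
    obtain ⟨p, hp, hpx⟩ := List.mem_map.1 hmem
    rw [hl', List.mem_filter] at hp
    have := hp.2
    rw [hpx] at this
    simp [hxR] at this
  have h4 := hnd.length_le_card
  rw [List.length_map] at h4
  exact h4

end

variable {V Γ N : Type} {k : ℕ}

/-- Stack programs: few variables tested more than once. -/
theorem fewRereads_timeSR [Fintype V] [DecidableEq V] (G : STK.Prog V k Γ N) (r : ℕ)
    (h : G.FewRereads r) : TimeSR G r (Fintype.card V) := by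
  intro b hb
  obtain ⟨l, hl, ha, hc⟩ := h b hb
  exact ⟨l, hl, ha, _, hc, out_rereads l⟩

/-- Stack programs: few tests. -/
theorem short_timeSR [Fintype V] (G : STK.Prog V k Γ N) (r : ℕ)
    (h : G.Short r) : TimeSR G 0 (Fintype.card V + r) := by
  intro b hb
  obtain ⟨l, hl, ha, hc⟩ := h b hb
  exact ⟨l, hl, ha, ∅, by simp, (out_le _ l).trans hc⟩

/-- A larger time and a larger exceptional set are weaker. -/
theorem timeSR_mono (G : STK.Prog V k Γ N) {s s' T T' : ℕ} (hs : s ≤ s') (hT : T ≤ T')
    (h : TimeSR G s T) : TimeSR G s' T' := by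
  intro b hb
  obtain ⟨l, hl, ha, R, hc, ho⟩ := h b hb
  exact ⟨l, hl, ha, R, hc.trans hs, ho.trans hT⟩

/-- Fork programs: few variables tested more than once. -/
theorem fewRereads_timeFR [Fintype V] [DecidableEq V] (G : CFT.FP V N) (r : ℕ)
    (h : G.FewRereads r) : TimeFR G r (Fintype.card V) := by
  intro b hb
  obtain ⟨l, hl, ha, hc⟩ := h b hb
  exact ⟨l, hl, ha, _, hc, out_rereads l⟩

/-- Fork programs: few tests. -/
theorem short_timeFR [Fintype V] (G : CFT.FP V N) (r : ℕ)
    (h : G.Short r) : TimeFR G 0 (Fintype.card V + r) := by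
  intro b hb
  obtain ⟨l, hl, ha, hc⟩ := h b hb
  exact ⟨l, hl, ha, ∅, by simp, (out_le _ l).trans hc⟩

/-- A larger time and a larger exceptional set are weaker. -/
theorem timeFR_mono (G : CFT.FP V N) {s s' T T' : ℕ} (hs : s ≤ s') (hT : T ≤ T')
    (h : TimeFR G s T) : TimeFR G s' T' := by
  intro b hb
  obtain ⟨l, hl, ha, R, hc, ho⟩ := h b hb
  exact ⟨l, hl, ha, R, hc.trans hs, ho.trans hT⟩

/-- Read once programs: no exceptional set and `|V|` tests. -/
theorem readOnce_timeSR [Fintype V] (G : STK.Prog V k Γ N) (h : G.ReadOnce) :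
    TimeSR G 0 (Fintype.card V) := by
  intro b hb
  obtain ⟨l, hl, ha⟩ := hb
  refine ⟨l, hl, ha, ∅, by simp, (out_le _ l).trans ?_⟩
  have h4 := (h l hl).length_le_card
  rwa [List.length_map] at h4

/-- Both old conditions of the one stack programs with `r ≤ N` (`N` variables) imply the new one with
the time `k N` for every `k ≥ 2`, and the first one also for `k = 1`. -/
theorem old_new {n : ℕ} (G : STK.Prog (Fin n) 1 Γ N) (r k : ℕ) (hk : 2 ≤ k) (hr : r ≤ n)
    (h : G.FewRereads r ∨ G.Short r) : TimeSR G r (k * n) := by
  have h2 : 2 * n ≤ k * n := Nat.mul_le_mul_right n hk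
  rcases h with h | h
  · refine timeSR_mono G le_rfl ?_ (fewRereads_timeSR G r h)
    rw [Fintype.card_fin]
    omega
  · refine timeSR_mono G (Nat.zero_le _) ?_ (short_timeSR G r h)
    rw [Fintype.card_fin]
    omega

/-- The lower bound `HardR` gives the lower bound for the old conditions. -/
theorem hardR_old {n k : ℕ} {c : ℝ} {f : (Fin n → Bool) → Bool} (hk : 2 ≤ k)
    (hf : ONE.HardR k c n f) (hc : c ≤ 1) (Γ Q : Type) [Fintype Q]
    (G : STK.Prog (Fin n) 1 Γ Q) (s : ℕ) (hs : (s : ℝ) ≤ c * n) (hb : G.Blocks s)
    (h : G.FewRereads s ∨ G.Short s) (hG : G.Computes f) : (2 : ℝ) ^ (c * n) ≤ Fintype.card Q := by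
  refine hf.1 Γ Q G s hs hb (old_new G s k hk ?_ h) hG
  have h1 : (s : ℝ) ≤ 1 * n := hs.trans (mul_le_mul_of_nonneg_right hc (Nat.cast_nonneg n))
  rw [one_mul] at h1
  exact_mod_cast h1

end Pool.Agent.TKN.Contain
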