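import Pool.Agent.Lib_helper80.SR.Defs

set_option autoImplicit false

/-!
# Certificate for MP_a77cad_lc/ExpLowerBoundSR

`complete`: every unsatisfiable CNF has a refutation, already with reverse unit propagation only, and
with at most `(n + 1) * 2 ^ n` learned clauses; so the hypothesis `Derives F L Γ`, `∅ ∈ Γ` of the
theorem is satisfied for every `F`. `no_general_bound`: the number of learned clauses can be
`0` for an unsatisfiable CNF, and it can be `1` for one without the empty clause; so the lower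
bound is a property of the CNF `F` of the theorem.
-/

namespace Pool.Agent.VAC2.SRCert

open Pool.Agent.SR

variable {V : Type*} [DecidableEq V]

/-- the clause which is false at the assignments which agree with `x` on `S` -/
def cl (x : V → Bool) (S : Finset V) : Clause V := S.image fun v => (v, !x v)

omit [DecidableEq V] in
lemma UP.mono {Γ Δ : CNF V} (h : Γ ⊆ Δ) {U : Finset (Lit V)} {l : Lit V} (hl : UP Γ U l) :
    UP Δ U l := by
  induction hl with
  | unit h1 => exact UP.unit h1
  | prop h1 h2 _ ih => exact UP.prop (h h1) h2 ih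

lemma RUP.mono {Γ Δ : CNF V} (h : Γ ⊆ Δ) {C : Clause V} (hC : RUP Γ C) : RUP Δ C := by
  rcases hC with ⟨D, hD, hl⟩ | ⟨l, h1, h2⟩
  · exact Or.inl ⟨D, h hD, fun l hlD => UP.mono h (hl l hlD)⟩
  · exact Or.inr ⟨l, UP.mono h h1, UP.mono h h2⟩

lemma add_list {F : CNF V} {L : List (Clause V)} {Γ : CNF V} (h : Derives F L Γ)
    (M : List (Clause V)) (hM : ∀ C ∈ M, RUP Γ C) :
    ∃ L' Γ', Derives F L' Γ' ∧ Γ ⊆ Γ' ∧ (∀ C ∈ M, C ∈ Γ') ∧
      L'.length = L.length + M.length := by
  induction M with
  | nil => exact ⟨L, Γ, h, Finset.Subset.refl _, by simp, by simp⟩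
  | cons C M ih =>
    obtain ⟨L', Γ', h1, h2, h3, h4⟩ := ih fun D hD => hM D (List.mem_cons_of_mem _ hD)
    refine ⟨C :: L', insert C Γ', Derives.rup h1 (RUP.mono h2 (hM C List.mem_cons_self)),
      h2.trans (Finset.subset_insert _ _), ?_, ?_⟩
    · intro D hD
      rcases List.mem_cons.1 hD with rfl | hD
      · exact Finset.mem_insert_self _ _
      · exact Finset.mem_insert_of_mem (h3 D hD)
    · rw [List.length_cons, List.length_cons, h4]
      omega

lemma mem_negs_cl {x : V → Bool} {S : Finset V} {v : V} (hv : v ∈ S) :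
    (v, x v) ∈ negs (cl x S) := by
  unfold negs cl
  refine Finset.mem_image.2 ⟨(v, !x v), Finset.mem_image.2 ⟨v, hv, rfl⟩, ?_⟩
  simp [neg]

lemma rup_univ [Fintype V] {F : CNF V} (hF : Unsat F) (x : V → Bool) :
    RUP F (cl x Finset.univ) := by
  obtain ⟨D, hD, hx⟩ := hF x
  refine Or.inl ⟨D, hD, fun l hl => UP.unit ?_⟩
  have h1 : x l.1 ≠ l.2 := fun h => hx ⟨l, hl, h⟩
  have h2 : (!l.2) = x l.1 := by
    cases h3 : l.2 <;> cases h4 : x l.1 <;> simp_all
  show (l.1, !l.2) ∈ _
  rw [h2]
  exact mem_negs_cl (Finset.mem_univ _)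

lemma up_lit {Γ : CNF V} {x y : V → Bool} {S : Finset V} {v : V} (hv : v ∉ S)
    (hy : ∀ u ∈ S, y u = x u) (hC : cl y (insert v S) ∈ Γ) :
    UP Γ (negs (cl x S)) (v, !y v) := by
  refine UP.prop hC (Finset.mem_image.2 ⟨v, Finset.mem_insert_self _ _, rfl⟩) ?_
  intro l hl hne
  obtain ⟨u, hu, rfl⟩ := Finset.mem_image.1 hl
  rcases Finset.mem_insert.1 hu with rfl | hu
  · exact absurd rfl hne
  · refine UP.unit ?_
    have : neg (u, !y u) = (u, x u) := by simp [neg, hy u hu]
    rw [this]
    exact mem_negs_cl hu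

lemma rup_step {Γ : CNF V} {S : Finset V} {v : V} (hv : v ∉ S)
    (hC : ∀ y : V → Bool, cl y (insert v S) ∈ Γ) (x : V → Bool) : RUP Γ (cl x S) := by
  have h1 := up_lit (x := x) hv (fun u _ => rfl) (hC x)
  have hy : ∀ u ∈ S, Function.update x v (!x v) u = x u := fun u hu => by
    rw [Function.update_of_ne]
    rintro rfl
    exact hv hu
  have h2 := up_lit (x := x) hv hy (hC _)
  rw [Function.update_self, Bool.not_not] at h2
  refine Or.inr ⟨(v, x v), h2, ?_⟩
  exact h1

/-- Every unsatisfiable CNF has a refutation by reverse unit propagation. -/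
theorem complete [Fintype V] {F : CNF V} (hF : Unsat F) :
    ∃ L Γ, Derives F L Γ ∧ ∅ ∈ Γ ∧
      L.length ≤ (Fintype.card V + 1) * 2 ^ Fintype.card V := by
  classical
  have key : ∀ (n : ℕ) (S : Finset V), S.card + n = Fintype.card V →
      ∃ L Γ, Derives F L Γ ∧ (∀ x : V → Bool, cl x S ∈ Γ) ∧
        L.length = (n + 1) * 2 ^ Fintype.card V := by
    intro n
    induction n with
    | zero =>
      intro S hS
      have hS' : S = Finset.univ := Finset.card_eq_iff_eq_univ S |>.1 (by omega)
      subst hS'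
      obtain ⟨L, Γ, h1, h2, h3, h4⟩ := add_list (Derives.start (F := F))
        ((Finset.univ : Finset (V → Bool)).toList.map fun x => cl x Finset.univ) (by
          intro C hC
          obtain ⟨x, -, rfl⟩ := List.mem_map.1 hC
          exact rup_univ hF x)
      refine ⟨L, Γ, h1, fun x => h3 _ (List.mem_map.2 ⟨x, by simp, rfl⟩), ?_⟩
      rw [h4]
      simp
    | succ n ih =>
      intro S hS
      obtain ⟨v, hv⟩ : ∃ v, v ∉ S := by
        by_contra hcon
        push Not at hcon
        have : S = Finset.univ := Finset.eq_univ_iff_forall.2 hcon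
        rw [this, Finset.card_univ] at hS
        omega
      obtain ⟨L, Γ, h1, h2, h3⟩ := ih (insert v S) (by
        rw [Finset.card_insert_of_notMem hv]
        omega)
      obtain ⟨L', Γ', k1, k2, k3, k4⟩ := add_list h1
        ((Finset.univ : Finset (V → Bool)).toList.map fun x => cl x S) (by
          intro C hC
          obtain ⟨x, -, rfl⟩ := List.mem_map.1 hC
          exact rup_step hv h2 x)
      refine ⟨L', Γ', k1, fun x => k3 _ (List.mem_map.2 ⟨x, by simp, rfl⟩), ?_⟩
      rw [k4, h3]
      simp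
      ring
  obtain ⟨L, Γ, h1, h2, h3⟩ := key (Fintype.card V) ∅ (by simp)
  refine ⟨L, Γ, h1, ?_, h3.le⟩
  have := h2 fun _ => true
  simpa [cl] using this

/-- No lower bound holds for all unsatisfiable CNFs. -/
theorem no_general_bound :
    (∃ (F : CNF V) (Γ : CNF V), Unsat F ∧ Derives F [] Γ ∧ ∅ ∈ Γ) ∧
      ∀ v : V, ∃ (F : CNF V) (Γ : CNF V), Unsat F ∧ ∅ ∉ F ∧ Derives F [∅] Γ ∧ ∅ ∈ Γ := by
  refine ⟨⟨{∅}, {∅}, ?_, Derives.start, Finset.mem_singleton_self _⟩, fun v => ?_⟩
  · intro x
    exact ⟨∅, Finset.mem_singleton_self _, by rintro ⟨l, hl, -⟩; exact absurd hl (Finset.notMem_empty l)⟩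
  · refine ⟨{{(v, true)}, {(v, false)}}, insert ∅ {{(v, true)}, {(v, false)}}, ?_, ?_,
      Derives.rup Derives.start ?_, Finset.mem_insert_self _ _⟩
    · intro x
      cases hx : x v
      · refine ⟨{(v, true)}, by simp, ?_⟩
        rintro ⟨l, hl, h⟩
        rw [Finset.mem_singleton.1 hl] at h
        simp [hx] at h
      · refine ⟨{(v, false)}, by simp, ?_⟩
        rintro ⟨l, hl, h⟩
        rw [Finset.mem_singleton.1 hl] at h
        simp [hx] at h
    · simp
    · refine Or.inr ⟨(v, true), ?_, ?_⟩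
      · refine UP.prop (C := {(v, true)}) (by simp) (by simp) ?_
        intro l hl hne
        exact absurd (Finset.mem_singleton.1 hl) hne
      · refine UP.prop (C := {(v, false)}) (by simp) (by simp [neg]) ?_
        intro l hl hne
        exact absurd (Finset.mem_singleton.1 hl) hne

/-- The hypothesis of the theorem is satisfied for every unsatisfiable CNF with `t ^ 29`
variables. -/
theorem hypothesis_satisfied (t : ℕ) (F : CNF (Fin (t ^ 29))) (hF : Unsat F) :
    ∃ L Γ, Derives F L Γ ∧ ∅ ∈ Γ ∧ L.length ≤ (t ^ 29 + 1) * 2 ^ (t ^ 29) := by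
  have := complete hF
  simpa using this

end Pool.Agent.VAC2.SRCert
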