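import Pool.Agent.URG.Defs
import Pool.Agent.Lib_helper20.SRO.Model

/-!
# Certificate for MP_a77cad_lc/NearlyReadOnceLinear

Every Boolean function of finitely many variables (so also `goodA β`) has a nondeterministic branching
program in which every accepted input has an accepting walk that tests every variable exactly once:
the hypotheses of part (2) are satisfiable with `r = 0`, for `FewRereads` and for `Short`.
-/

set_option autoImplicit false

namespace Pool.Agent.VAC2.NearlyReadOnceLinear

open Pool.Agent.Lib_helper20.SRO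

/-- Nodes: source, (guessed input, position), sink. -/
abbrev Nd (V : Type) (n : ℕ) : Type := Option (Option ((V → Bool) × Fin (n + 1)))

/-- Guess an accepted input, then test all variables. -/
def prog {V : Type} {n : ℕ} (e : Fin n ≃ V) (f : (V → Bool) → Bool) : NBP V (Nd V n) where
  source := none
  sink := some none
  edge := fun u v t => match u, v, t with
    | none, some (some (a, i)), none => f a = true ∧ (i : ℕ) = 0
    | some (some (a, i)), some (some (a', j)), some (x, c) =>
        a' = a ∧ (j : ℕ) = i + 1 ∧ ∃ h : (i : ℕ) < n, x = e ⟨i, h⟩ ∧ c = a x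
    | some (some (_, i)), some none, none => (i : ℕ) = n
    | _, _, _ => False

/-- The tests from position `i` on. -/
def tests {V : Type} {n : ℕ} (e : Fin n ≃ V) (a : V → Bool) (i : ℕ) : List (V × Bool) :=
  ((List.finRange n).drop i).map fun j => (e j, a (e j))

theorem tests_succ {V : Type} {n : ℕ} (e : Fin n ≃ V) (a : V → Bool) (i : ℕ) (h : i < n) :
    tests e a i = (e ⟨i, h⟩, a (e ⟨i, h⟩)) :: tests e a (i + 1) := by
  unfold tests
  rw [List.drop_eq_getElem_cons (by simpa using h), List.map_cons]
  simp

theorem tests_end {V : Type} {n : ℕ} (e : Fin n ≃ V) (a : V → Bool) : tests e a n = [] := by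
  unfold tests
  rw [List.drop_eq_nil_of_le (by simp)]
  rfl

/-- There is a walk from position `i` to the sink with the tests `tests e a i`. -/
theorem walk_mid {V : Type} {n : ℕ} (e : Fin n ≃ V) (f : (V → Bool) → Bool) (a : V → Bool) :
    ∀ (k i : ℕ) (hi : i < n + 1), i + k = n →
      Walk (prog e f) (some (some (a, ⟨i, hi⟩))) (some none) (tests e a i) := by
  intro k
  induction k with
  | zero =>
    intro i hi hk
    have : i = n := by omega
    subst this
    rw [tests_end]
    exact Walk.free (v := some none) (by show ((⟨i, hi⟩ : Fin (i + 1)) : ℕ) = i; rfl) (Walk.nil _)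
  | succ k ih =>
    intro i hi hk
    have hin : i < n := by omega
    rw [tests_succ e a i hin]
    refine Walk.test _ _ (v := some (some (a, ⟨i + 1, by omega⟩))) ?_ (ih (i + 1) (by omega)
      (by omega))
    exact ⟨rfl, rfl, hin, rfl, rfl⟩

/-- All walks from a middle node to the sink are of this form. -/
theorem walk_unique {V : Type} {n : ℕ} (e : Fin n ≃ V) (f : (V → Bool) → Bool) :
    ∀ (u v : Nd V n) (l : List (V × Bool)), Walk (prog e f) u v l → v = some none →
      ∀ (a : V → Bool) (i : Fin (n + 1)), u = some (some (a, i)) → l = tests e a i := by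
  intro u v l hw
  induction hw with
  | nil u => intro hv a i hu; rw [hv] at hu; simp at hu
  | @free u v w l h hw ih =>
    intro hv a i hu
    subst hu
    rcases v with _ | _ | ⟨a', j⟩
    · exact absurd h (by simp [prog])
    · have h1 : (i : ℕ) = n := h
      cases hw with
      | nil _ => rw [h1, tests_end]
      | free h2 _ => exact absurd h2 (by simp [prog])
      | test x c h2 _ => exact absurd h2 (by simp [prog])
    · exact absurd h (by simp [prog])
  | @test u v w l x c h hw ih =>
    intro hv a i hu
    subst hu
    rcases v with _ | _ | ⟨a', j⟩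
    · exact absurd h (by simp [prog])
    · exact absurd h (by simp [prog])
    · obtain ⟨h1, h2, h3, h4, h5⟩ : a' = a ∧ (j : ℕ) = i + 1 ∧ ∃ h : (i : ℕ) < n,
        x = e ⟨i, h⟩ ∧ c = a x := h
      subst h1
      have h6 := ih hv a' j rfl
      rw [tests_succ e a' i h3, h6, h2, h5, h4]

/-- All walks from the source to the sink. -/
theorem walk_source {V : Type} {n : ℕ} (e : Fin n ≃ V) (f : (V → Bool) → Bool)
    (l : List (V × Bool)) (hw : Walk (prog e f) none (some none) l) :
    ∃ a, f a = true ∧ l = tests e a 0 := by
  cases hw with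
  | @free _ v _ _ h hw =>
    rcases v with _ | _ | ⟨a, i⟩
    · exact absurd h (by simp [prog])
    · exact absurd h (by simp [prog])
    · obtain ⟨h1, h2⟩ : f a = true ∧ (i : ℕ) = 0 := h
      exact ⟨a, h1, by rw [walk_unique e f _ _ _ hw rfl a i rfl, h2]⟩
  | @test _ v _ _ x c h hw =>
    rcases v with _ | _ | ⟨a, i⟩ <;> exact absurd h (by simp [prog])

theorem agrees_tests {V : Type} {n : ℕ} (e : Fin n ≃ V) (a b : V → Bool)
    (h : Agrees b (tests e a 0)) : b = a := by
  funext x
  have := h (x, a x) (by
    unfold tests
    rw [List.drop_zero, List.mem_map]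
    exact ⟨e.symm x, List.mem_finRange _, by simp⟩)
  exact this

theorem nodup_tests {V : Type} {n : ℕ} (e : Fin n ≃ V) (a : V → Bool) :
    ((tests e a 0).map Prod.fst).Nodup := by
  unfold tests
  rw [List.drop_zero, List.map_map]
  exact (List.nodup_finRange n).map e.injective

/-- **Certificate.** For every function `f` of the variables `V` there is a program as in part (2). -/
theorem cert (V : Type) [Fintype V] [DecidableEq V] (f : (V → Bool) → Bool) :
    ∃ (Q : Type) (_ : Fintype Q) (G : NBP V Q), G.SyntacticReadOnce ∧ G.FewRereads 0 ∧ G.Short 0 ∧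
      G.Computes f := by
  let e : Fin (Fintype.card V) ≃ V := (Fintype.equivFin V).symm
  have hacc : ∀ b, (prog e f).Accepts b ↔ f b = true := by
    intro b
    constructor
    · rintro ⟨l, hl, hb⟩
      obtain ⟨a, ha, rfl⟩ := walk_source e f l hl
      rw [agrees_tests e a b hb]
      exact ha
    · intro hb
      refine ⟨tests e b 0, Walk.free (v := some (some (b, 0))) ⟨hb, rfl⟩
        (walk_mid e f b (Fintype.card V) 0 (by omega) (by omega)), ?_⟩
      rintro ⟨x, c⟩ hx
      unfold tests at hx
      rw [List.mem_map] at hx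
      obtain ⟨j, _, hj⟩ := hx
      rw [Prod.mk.injEq] at hj
      rw [← hj.1, ← hj.2]
  have hstd : ∀ b, (prog e f).Accepts b → Walk (prog e f) none (some none) (tests e b 0) ∧
      Agrees b (tests e b 0) := by
    intro b hb
    refine ⟨Walk.free (v := some (some (b, 0))) ⟨(hacc b).1 hb, rfl⟩
        (walk_mid e f b (Fintype.card V) 0 (by omega) (by omega)), ?_⟩
    rintro ⟨x, c⟩ hx
    unfold tests at hx
    rw [List.mem_map] at hx
    obtain ⟨j, _, hj⟩ := hx
    rw [Prod.mk.injEq] at hj
    rw [← hj.1, ← hj.2]
  refine ⟨Nd V (Fintype.card V), inferInstance, prog e f, ?_, ?_, ?_, hacc⟩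
  · intro l hl
    obtain ⟨a, ha, rfl⟩ := walk_source e f l hl
    exact nodup_tests e a
  · intro b hb
    obtain ⟨h1, h2⟩ := hstd b hb
    refine ⟨_, h1, h2, ?_⟩
    rw [Nat.le_zero, Finset.card_eq_zero, Finset.filter_eq_empty_iff]
    intro x _ hx
    have := List.nodup_iff_count_le_one.1 (nodup_tests e b) x
    omega
  · intro b hb
    obtain ⟨h1, h2⟩ := hstd b hb
    refine ⟨_, h1, h2, ?_⟩
    unfold tests
    simp

end Pool.Agent.VAC2.NearlyReadOnceLinear
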