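import Pool.Agent.NNDT.Lit
import Pool.Agent.NNDT.Fin1

/-!
# Certificate: the statement of MP_a77cad_lc/NondetNearThreshold is not vacuous

* `exists_circuit`: for all `v`, `k` there is a circuit of the model without witness bits and without
  NOT gates (only inputs, AND, OR, constants: `Lit`, `NotsFree`) which accepts exactly the graphs without
  independent set of size `k`. So the hypotheses of parts (1), (2) and (4) can be satisfied, with
  `s = t = r = 0`.
* `nis_true`, `nis_false`: for `2 ≤ k ≤ v` the function is not constant.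
* `params`: explicit `v`, `n`, `k`, `N` satisfy the numerical hypotheses of part (1) with `s = t = r = 0`,
  `2 ≤ k ≤ v`, and the lower bound `2 ^ (n ^ (1/8)) = 2 ^ (2 ^ 25)` is larger than `N ^ 1000`.
* `excludes`: for these parameters part (1) is a real condition: it excludes all circuits of the model
  (there are such circuits, `exists_circuit`) with fewer than `N ^ 1000 / 2 - 1` gates.
* `params_mixed`: the same with one NOT gate and with `s = 10`, `t = 2 ^ 50` witness bits: the numerical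
  hypothesis of part (1) allows them.
* `hyp3`: the numerical hypothesis of part (3) holds for `r = 1 + clog2 (N + 1)`, `s = 0`.
-/

set_option autoImplicit false

namespace Pool.Agent.VAC2.NondetNearThreshold

open Pool.Agent.NegLim Pool.Agent.NNDT

variable {E : Type}

/-! ### circuits for monotone formulas -/

lemma vals_append (P R : List (Gate E 0 0)) (x : E → Bool) (u w : Fin 0 → Bool) :
    ∃ l, vals (P ++ R) x u w = vals P x u w ++ l := by
  induction R using List.reverseRecOn with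
  | nil => exact ⟨[], by simp⟩
  | append_singleton R g ih =>
    obtain ⟨l, hl⟩ := ih
    refine ⟨l ++ [g.val x u w (vals (P ++ R) x u w)], ?_⟩
    rw [← List.append_assoc, vals_concat, hl, List.append_assoc, ← hl]

/-- the wire refers to a gate with a number less than `N` if it refers to a gate -/
def St (N : ℕ) : Wire E 0 0 → Prop
  | Wire.gate n => n < N
  | _ => True

lemma val_append {a : Wire E 0 0} {x : E → Bool} {u w : Fin 0 → Bool} {l l' : List Bool}
    (h : St l.length a) : a.val x u w (l ++ l') = a.val x u w l := by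
  cases a with
  | inp e => rfl
  | wit φ => rfl
  | gate n => exact List.getD_append _ _ _ _ h

/-- the function can be computed by AND and OR gates after any given gates -/
def Rz (f : (E → Bool) → Bool) : Prop :=
  ∀ P : List (Gate E 0 0), (∀ g ∈ P, g.isNot = false ∧ GLit g) →
    ∃ (R : List (Gate E 0 0)) (a : Wire E 0 0), (∀ g ∈ P ++ R, g.isNot = false ∧ GLit g) ∧
      WLit a ∧ St (P ++ R).length a ∧ ∀ x u w, a.val x u w (vals (P ++ R) x u w) = f x

lemma Rz.inp (e : E) : Rz (fun x => x e) := fun P hP =>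
  ⟨[], Wire.inp e, by simpa using hP, trivial, trivial, fun _ _ _ => rfl⟩

lemma Rz.const (b : Bool) : Rz (E := E) (fun _ => b) := fun P hP =>
  ⟨[], Wire.wit fun _ _ => b, by simpa using hP, Or.inl ⟨b, fun _ _ => rfl⟩, trivial,
    fun _ _ _ => rfl⟩

lemma Rz.bin {f g : (E → Bool) → Bool} (hf : Rz f) (hg : Rz g) :
    Rz (fun x => f x && g x) ∧ Rz (fun x => f x || g x) := by
  have key : ∀ (mk : Wire E 0 0 → Wire E 0 0 → Gate E 0 0) (op : Bool → Bool → Bool),
      (∀ a b, (mk a b).isNot = false) → (∀ a b, WLit a → WLit b → GLit (mk a b)) →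
      (∀ a b x u w l, (mk a b).val x u w l = op (a.val x u w l) (b.val x u w l)) →
      Rz (fun x => op (f x) (g x)) := by
    intro mk op h1 h2 h3 P hP
    obtain ⟨R, a, hR, ha, hSa, hva⟩ := hf P hP
    obtain ⟨R', b, hR', hb, hSb, hvb⟩ := hg (P ++ R) hR
    refine ⟨R ++ R' ++ [mk a b], Wire.gate (P ++ R ++ R').length, ?_, trivial, ?_, ?_⟩
    · intro q hq
      rw [← List.append_assoc, ← List.append_assoc] at hq
      rcases List.mem_append.1 hq with hq | hq
      · exact hR' q hq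
      · rw [List.mem_singleton] at hq
        rw [hq]
        exact ⟨h1 a b, h2 a b ha hb⟩
    · show (P ++ R ++ R').length < (P ++ (R ++ R' ++ [mk a b])).length
      simp only [List.length_append, List.length_singleton]
      omega
    · intro x u w
      have e : P ++ (R ++ R' ++ [mk a b]) = (P ++ R ++ R') ++ [mk a b] := by
        simp only [List.append_assoc]
      rw [e, vals_concat]
      show (vals (P ++ R ++ R') x u w ++ [_]).getD (P ++ R ++ R').length false = _
      rw [getD_concat, if_pos (vals_length _ _ _ _).symm, h3, hvb]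
      obtain ⟨l, hl⟩ := vals_append (P ++ R) R' x u w
      have e2 : a.val x u w (vals (P ++ R ++ R') x u w) = f x := by
        rw [hl, val_append (by rw [vals_length]; exact hSa), hva]
      rw [e2]
  exact ⟨key Gate.and (fun p q => p && q) (fun _ _ => rfl) (fun _ _ ha hb => ⟨ha, hb⟩)
      (fun _ _ _ _ _ _ => rfl),
    key Gate.or (fun p q => p || q) (fun _ _ => rfl) (fun _ _ ha hb => ⟨ha, hb⟩)
      (fun _ _ _ _ _ _ => rfl)⟩

lemma Rz.all {ι : Type} (L : List ι) (f : ι → (E → Bool) → Bool) (h : ∀ i ∈ L, Rz (f i)) :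
    Rz (fun x => L.all fun i => f i x) := by
  induction L with
  | nil => exact Rz.const true
  | cons i L ih =>
    have h1 := (Rz.bin (h i (by simp)) (ih fun j hj => h j (by simp [hj]))).1
    simpa only [List.all_cons] using h1

lemma Rz.any {ι : Type} (L : List ι) (f : ι → (E → Bool) → Bool) (h : ∀ i ∈ L, Rz (f i)) :
    Rz (fun x => L.any fun i => f i x) := by
  induction L with
  | nil => exact Rz.const false
  | cons i L ih =>
    have h1 := (Rz.bin (h i (by simp)) (ih fun j hj => h j (by simp [hj]))).2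
    simpa only [List.any_cons] using h1

open Classical in
lemma nis_rz (v k : ℕ) : Rz (nis v k) := by
  have e : nis v k = fun x => ((Finset.univ : Finset (Finset (Fin v))).filter
      fun S => S.card = k).toList.all fun S => ((Finset.univ : Finset (Edge v)).filter
        fun e => e.1.1 ∈ S ∧ e.1.2 ∈ S).toList.any fun e => x e := by
    funext x
    unfold nis
    rw [Bool.eq_iff_iff]
    simp only [decide_eq_true_eq, List.all_eq_true, List.any_eq_true, Finset.mem_toList,
      Finset.mem_filter, Finset.mem_univ, true_and]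
    constructor
    · intro h S hS
      obtain ⟨e, h1, h2, h3⟩ := h S hS
      exact ⟨e, ⟨h1, h2⟩, h3⟩
    · intro h S hS
      obtain ⟨e, ⟨h1, h2⟩, h3⟩ := h S hS
      exact ⟨e, h1, h2, h3⟩
  rw [e]
  exact Rz.all _ _ fun S _ => Rz.any _ _ fun e _ => Rz.inp e

/-- The hypotheses on the circuit can be satisfied, without witness bits and NOT gates. -/
theorem exists_circuit (v k : ℕ) : ∃ C : NCirc (Edge v) 0 0, C.nots = 0 ∧ C.NotsFree ∧ Lit C ∧
    ∀ x, C.Acc x ↔ nis v k x = true := by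
  obtain ⟨R, a, hR, ha, -, hv⟩ := nis_rz v k [] (by simp)
  rw [List.nil_append] at hR
  refine ⟨⟨R, a⟩, ?_, ?_, ⟨fun g hg => (hR g hg).2, ha⟩, ?_⟩
  · unfold NCirc.nots
    rw [List.countP_eq_zero]
    intro g hg
    rw [(hR g hg).1]
    simp
  · rintro n ⟨b, hb⟩
    have := (hR _ (List.mem_of_getElem? hb)).1
    simp [Gate.isNot] at this
  · intro x
    constructor
    · rintro ⟨u, w, h⟩
      have := hv x u w
      rw [List.nil_append] at this
      rw [← this]
      exact h
    · intro h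
      refine ⟨fun i => i.elim0, fun i => i.elim0, ?_⟩
      have := hv x (fun i => i.elim0) (fun i => i.elim0)
      rw [List.nil_append] at this
      exact this.trans h

/-! ### the function is not constant -/

theorem nis_true {v k : ℕ} (hk : 2 ≤ k) : nis v k (fun _ => true) = true := by
  unfold nis
  rw [decide_eq_true_eq]
  intro S hS
  obtain ⟨a, ha, b, hb, hab⟩ := Finset.one_lt_card.1 (by omega : 1 < S.card)
  rcases lt_or_gt_of_ne hab with h | h
  · exact ⟨⟨(a, b), h⟩, ha, hb, rfl⟩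
  · exact ⟨⟨(b, a), h⟩, hb, ha, rfl⟩

theorem nis_false {v k : ℕ} (hkv : k ≤ v) : nis v k (fun _ => false) = false := by
  unfold nis
  rw [decide_eq_false_iff_not]
  intro h
  obtain ⟨S, -, hS⟩ := Finset.exists_subset_card_eq
    (s := (Finset.univ : Finset (Fin v))) (n := k) (by simpa using hkv)
  obtain ⟨e, -, -, he⟩ := h S hS
  simp at he

/-! ### parameters -/

lemma sqrt_pow (m : ℕ) : Nat.sqrt (2 ^ (2 * m)) = 2 ^ m := by
  rw [show 2 ^ (2 * m) = 2 ^ m * 2 ^ m by rw [two_mul, pow_add]]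
  exact Nat.sqrt_eq _

/-- The numerical hypothesis of part (1), in a simple form. -/
lemma num_hyp {N : ℕ} {y : ℝ} (hN : 2 ^ 1400 ≤ N) (hy : y ≤ 200) :
    y ≤ Real.logb 2 N - 5 * (√(Real.logb 2 N) + Real.logb 2 ((2 ^ 200 : ℕ) : ℝ)) := by
  have h1 : (1400 : ℝ) ≤ Real.logb 2 N := by
    have h2 : ((2 : ℝ) ^ 1400) ≤ (N : ℝ) := by exact_mod_cast hN
    rw [Real.le_logb_iff_rpow_le (by norm_num) (lt_of_lt_of_le (by positivity) h2)]
    calc (2 : ℝ) ^ (1400 : ℝ) = (2 : ℝ) ^ 1400 := by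
          rw [← Real.rpow_natCast]
          norm_num
      _ ≤ N := h2
  have h3 : Real.logb 2 ((2 ^ 200 : ℕ) : ℝ) = 200 := by
    rw [Nat.cast_pow, ← Real.rpow_natCast, Nat.cast_two, Real.logb_rpow (by norm_num) (by norm_num)]
    norm_num
  rw [h3]
  set z := √(Real.logb 2 N) with hz
  have h4 : z * z = Real.logb 2 N := Real.mul_self_sqrt (by linarith)
  have h5 : 37 ≤ z := by
    rw [hz]
    apply Real.le_sqrt_of_sq_le
    linarith
  rw [← h4]
  by_contra hcon
  push Not at hcon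
  have h6 : 1400 ≤ z * z := by linarith
  rcases le_or_gt z 38 with h | h
  · nlinarith
  · nlinarith

/-- `n ^ (1/8)` for `n = 2 ^ 200` -/
lemma root : (((2 ^ 200 : ℕ) : ℝ)) ^ (1 / 8 : ℝ) = 2 ^ 25 := by
  have : ((2 ^ 200 : ℕ) : ℝ) = ((2 : ℝ) ^ 25) ^ (8 : ℝ) := by
    rw [show (8 : ℝ) = ((8 : ℕ) : ℝ) by norm_num, Real.rpow_natCast, ← pow_mul]
    norm_num
  rw [this, ← Real.rpow_mul (by positivity)]
  norm_num

lemma bounds : 2 ^ 1400 ≤ 2 ^ 702 * (2 ^ 702 - 1) / 2 ∧
    2 ^ 702 * (2 ^ 702 - 1) / 2 ≤ 2 ^ 1404 := by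
  obtain ⟨x, hx⟩ : ∃ x : ℕ, x = 2 ^ 701 := ⟨_, rfl⟩
  have h1 : 2 ^ 702 = 2 * x := by rw [hx, ← pow_succ']
  have hx1 : 1 ≤ x := by rw [hx]; exact Nat.one_le_two_pow
  have h2 : 2 * x * (2 * x - 1) / 2 = x * (2 * x - 1) := by
    rw [mul_assoc, Nat.mul_div_cancel_left _ (by norm_num)]
  rw [h1, h2]
  have h3 : x * x ≤ x * (2 * x - 1) := Nat.mul_le_mul_left _ (by omega)
  have h4 : x * (2 * x - 1) ≤ x * (2 * x) := Nat.mul_le_mul_left _ (by omega)
  have h5 : x * x = 2 ^ 1402 := by rw [hx, ← pow_add]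
  have h6 : x * (2 * x) = 2 ^ 1403 := by
    rw [show x * (2 * x) = 2 * (x * x) by ring, h5, ← pow_succ']
  constructor
  · exact (Nat.pow_le_pow_right (by norm_num) (by norm_num)).trans (h5 ▸ h3)
  · exact (h6 ▸ h4).trans (Nat.pow_le_pow_right (by norm_num) (by norm_num))

/-- Part (1) is not vacuous and not trivial: explicit parameters without witness bits and NOT gates;
the lower bound is larger than every fixed power of the number of the inputs. -/
theorem params : ∃ v n k N : ℕ, 2 ^ 200 ≤ n ∧ k = Nat.sqrt (Nat.sqrt n) ∧ N = v * (v - 1) / 2 ∧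
    2 ≤ k ∧ k ≤ v ∧
    (((0 : ℕ) + 0 : ℕ) : ℝ) + Real.logb 2 (((0 : ℕ) : ℝ) + 1) ≤
      Real.logb 2 N - 5 * (√(Real.logb 2 N) + Real.logb 2 n) ∧
    ((N : ℝ)) ^ 1000 < (2 : ℝ) ^ ((n : ℝ) ^ (1 / 8 : ℝ)) := by
  refine ⟨2 ^ 702, 2 ^ 200, 2 ^ 50, 2 ^ 702 * (2 ^ 702 - 1) / 2, le_rfl, ?_, rfl, ?_, ?_, ?_, ?_⟩
  · rw [show 200 = 2 * 100 by norm_num, sqrt_pow, show 100 = 2 * 50 by norm_num, sqrt_pow]
  · norm_num
  · exact Nat.pow_le_pow_right (by norm_num) (by norm_num)
  · exact num_hyp bounds.1 (by norm_num)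
  · rw [root]
    have h1 : ((2 ^ 702 * (2 ^ 702 - 1) / 2 : ℕ) : ℝ) ≤ 2 ^ 1404 := by
      exact_mod_cast bounds.2
    calc ((2 ^ 702 * (2 ^ 702 - 1) / 2 : ℕ) : ℝ) ^ 1000 ≤ ((2 : ℝ) ^ 1404) ^ 1000 :=
          pow_le_pow_left₀ (by positivity) h1 1000
      _ = (2 : ℝ) ^ (1404000 : ℝ) := by
          rw [← pow_mul, ← Real.rpow_natCast]
          norm_num
      _ < (2 : ℝ) ^ ((2 : ℝ) ^ 25) := by
          apply Real.rpow_lt_rpow_of_exponent_lt (by norm_num)
          norm_num

/-- Part (1) for these parameters. -/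
theorem excludes : ∃ v k N : ℕ, N = v * (v - 1) / 2 ∧ 2 ≤ k ∧ k ≤ v ∧
    (∃ C : NCirc (Edge v) 0 0, C.nots = 0 ∧ C.NotsFree ∧ ∀ x, C.Acc x ↔ nis v k x = true) ∧
    ∀ C : NCirc (Edge v) 0 0, C.nots = 0 → C.NotsFree → (∀ x, C.Acc x ↔ nis v k x = true) →
      (N : ℝ) ^ 1000 < ((2 * (C.gates.length + 1) : ℕ) : ℝ) := by
  obtain ⟨v, n, k, N, hn, hk, hN, h2, hkv, hnum, hbig⟩ := params
  refine ⟨v, k, N, hN, h2, hkv, ?_, ?_⟩
  · obtain ⟨C, h1, h2, -, h3⟩ := exists_circuit v k
    exact ⟨C, h1, h2, h3⟩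
  · intro C h0 hfree hacc
    refine lt_of_lt_of_le hbig (uniform v n k N 0 0 C hn hk hN hfree hacc ?_)
    rw [h0]
    exact hnum

/-- The same with NOT gates and witness bits of both kinds. -/
theorem params_mixed : ∃ v n k N s r t : ℕ, 0 < s ∧ 0 < r ∧ 2 ^ 50 ≤ t ∧
    2 ^ 200 ≤ n ∧ k = Nat.sqrt (Nat.sqrt n) ∧ N = v * (v - 1) / 2 ∧ 2 ≤ k ∧ k ≤ v ∧
    ((s + r : ℕ) : ℝ) + Real.logb 2 ((t : ℝ) + 1) ≤
      Real.logb 2 N - 5 * (√(Real.logb 2 N) + Real.logb 2 n) := by
  refine ⟨2 ^ 702, 2 ^ 200, 2 ^ 50, 2 ^ 702 * (2 ^ 702 - 1) / 2, 10, 1, 2 ^ 50, by norm_num,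
    by norm_num, le_rfl, le_rfl, ?_, rfl, ?_, ?_, ?_⟩
  · rw [show 200 = 2 * 100 by norm_num, sqrt_pow, show 100 = 2 * 50 by norm_num, sqrt_pow]
  · norm_num
  · exact Nat.pow_le_pow_right (by norm_num) (by norm_num)
  · refine num_hyp bounds.1 ?_
    have h1 : Real.logb 2 (((2 ^ 50 : ℕ) : ℝ) + 1) ≤ 51 := by
      rw [Real.logb_le_iff_le_rpow (by norm_num) (by positivity)]
      rw [show (51 : ℝ) = ((51 : ℕ) : ℝ) by norm_num, Real.rpow_natCast]
      norm_num
    norm_num at h1 ⊢
    linarith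

/-- The numerical hypothesis of part (3). -/
theorem hyp3 (N : ℕ) : Fintype.card (Fin N) + 1 ≤ 2 ^ (0 + (1 + Nat.clog 2 (N + 1)) - 1) := by
  rw [Fintype.card_fin, show 0 + (1 + Nat.clog 2 (N + 1)) - 1 = Nat.clog 2 (N + 1) by omega]
  exact Nat.le_pow_clog (by norm_num) _

/-- The function is monotone, so part (4) applies to the circuits which accept it. -/
theorem nis_mono {v k : ℕ} {x x' : Edge v → Bool} (h : ∀ e, x e = true → x' e = true)
    (hx : nis v k x = true) : nis v k x' = true := by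
  unfold nis at hx ⊢
  rw [decide_eq_true_eq] at hx ⊢
  intro S hS
  obtain ⟨e, h1, h2, h3⟩ := hx S hS
  exact ⟨e, h1, h2, h e h3⟩

end Pool.Agent.VAC2.NondetNearThreshold
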