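import Pool.Agent.WRT.LowerX
import Pool.Agent.WRT.Upper

set_option autoImplicit false

/-!
# Certificate for MP_a77cad_lc/ParityDNNF

Every Boolean function is computed by an AND/OR circuit with tests of variables, with genuine forks,
which is `ReadOnce` and `Decomposable`; so the hypotheses of (2), (3) can be satisfied (with `k = 0`).
Every decomposable circuit in negation normal form (DNNF) with `s` gates is a `Decomposable` program
with `s + 1` nodes. The function is not constant, and the bounds separate it from its complement.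
-/

namespace Pool.Agent.VAC2.ParityDNNFCert

open Pool.Agent.WRT
open Pool.Agent.WRL (CoeffZero poly)

variable {ι : Type} {N : ℕ}

/-! ## Every Boolean function -/

/-- nodes: start and end; for each input `c` the nodes of a comb and its leaves -/
abbrev Nd (ι : Type) (N : ℕ) : Type :=
  Bool ⊕ (((ι → ZMod 2) × Fin (N + 1)) ⊕ ((ι → ZMod 2) × Fin N))

/-- the edges -/
inductive Ed (e : Fin N ≃ ι) (f : (ι → ZMod 2) → Prop) : Nd ι N → Nd ι N →
    Option (Module.Dual (ZMod 2) (ι → ZMod 2) × ZMod 2) → Prop
  | enter (c : ι → ZMod 2) (h : f c) : Ed e f (Sum.inl false) (Sum.inr (Sum.inl (c, 0))) none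
  | leave (c : ι → ZMod 2) : Ed e f (Sum.inr (Sum.inl (c, Fin.last N))) (Sum.inl true) none
  | leaf (c : ι → ZMod 2) (i : Fin N) : Ed e f (Sum.inr (Sum.inr (c, i))) (Sum.inl true)
      (some (LinearMap.proj (e i), c (e i)))

/-- the forks: `(c, i)` is the conjunction of the test of the variable `i` and of `(c, i + 1)` -/
inductive Fo : Nd ι N → Nd ι N → Nd ι N → Prop
  | comb (c : ι → ZMod 2) (i : Fin N) : Fo (Sum.inr (Sum.inl (c, i.castSucc)))
      (Sum.inr (Sum.inr (c, i))) (Sum.inr (Sum.inl (c, i.succ)))

/-- the program -/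
noncomputable def prog [Finite ι] (e : Fin N ≃ ι) (f : (ι → ZMod 2) → Prop) :
    FProg (ι → ZMod 2) where
  V := Nd ι N
  fin := Fintype.ofFinite _
  start := Sum.inl false
  final := fun v => v = Sum.inl true
  edge := Ed e f
  fork := Fo

/-- the variables below a node -/
def below : Nd ι N → Set (Fin N)
  | Sum.inl false => Set.univ
  | Sum.inl true => ∅
  | Sum.inr (Sum.inl (_, i)) => {j | i ≤ j.castSucc}
  | Sum.inr (Sum.inr (_, i)) => {j | j = i}

/-- the variables outside of a node -/
def above : Nd ι N → Set (Fin N)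
  | Sum.inl false => ∅
  | Sum.inl true => Set.univ
  | Sum.inr (Sum.inl (_, i)) => {j | j.castSucc < i}
  | Sum.inr (Sum.inr (_, i)) => {j | j ≠ i}

variable [Finite ι] (e : Fin N ≃ ι) (f : (ι → ZMod 2) → Prop)

lemma der_form {v : (prog e f).V} {l : List (Module.Dual (ZMod 2) (ι → ZMod 2) × ZMod 2)}
    (h : (prog e f).Der v l) : ∀ p ∈ l, ∃ j ∈ below (v : Nd ι N), p.1 = LinearMap.proj (e j) := by
  induction h with
  | final => intro p hp; simp at hp
  | @edge u w lab l hed _ ih =>
    intro p hp
    cases hed with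
    | enter c hc =>
      obtain ⟨j, _, h2⟩ := ih p (by simpa using hp)
      exact ⟨j, Set.mem_univ _, h2⟩
    | leave c =>
      obtain ⟨j, h1, _⟩ := ih p (by simpa using hp)
      exact absurd h1 (Set.notMem_empty j)
    | leaf c i =>
      simp only [Option.toList_some, List.cons_append, List.nil_append, List.mem_cons] at hp
      rcases hp with rfl | hp
      · exact ⟨i, rfl, rfl⟩
      · obtain ⟨j, h1, _⟩ := ih p hp
        exact absurd h1 (Set.notMem_empty j)
  | @fork u v w l₁ l₂ hf _ _ ih1 ih2 =>
    intro p hp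
    cases hf with
    | comb c i =>
      rcases List.mem_append.1 hp with hp | hp
      · obtain ⟨j, h1, h2⟩ := ih1 p hp
        have h3 : j = i := h1
        subst h3
        exact ⟨j, (le_refl j.castSucc : j.castSucc ≤ j.castSucc), h2⟩
      · obtain ⟨j, h1, h2⟩ := ih2 p hp
        have h3 : i.succ ≤ j.castSucc := h1
        refine ⟨j, ?_, h2⟩
        change i.castSucc ≤ j.castSucc
        rw [Fin.le_def] at h3 ⊢
        simp only [Fin.val_succ, Fin.val_castSucc] at h3 ⊢
        omega

lemma ctx_form {v : (prog e f).V} {l : List (Module.Dual (ZMod 2) (ι → ZMod 2) × ZMod 2)}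
    (h : (prog e f).Ctx v l) : ∀ p ∈ l, ∃ j ∈ above (v : Nd ι N), p.1 = LinearMap.proj (e j) := by
  induction h with
  | start => intro p hp; simp at hp
  | @edge u w lab l _ hed ih =>
    intro p hp
    cases hed with
    | enter c hc =>
      obtain ⟨j, h1, _⟩ := ih p (by simpa using hp)
      exact absurd h1 (Set.notMem_empty j)
    | leave c =>
      obtain ⟨j, _, h2⟩ := ih p (by simpa using hp)
      exact ⟨j, Set.mem_univ _, h2⟩
    | leaf c i =>
      simp only [Option.toList_some, List.cons_append, List.nil_append, List.mem_cons] at hp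
      rcases hp with rfl | hp
      · exact ⟨i, Set.mem_univ _, rfl⟩
      · obtain ⟨j, _, h2⟩ := ih p hp
        exact ⟨j, Set.mem_univ _, h2⟩
  | @left u v w l l' _ hf hd ih =>
    intro p hp
    cases hf with
    | comb c i =>
      rcases List.mem_append.1 hp with hp | hp
      · obtain ⟨j, h1, h2⟩ := der_form e f hd p hp
        have h3 : i.succ ≤ j.castSucc := h1
        refine ⟨j, ?_, h2⟩
        change j ≠ i
        rintro rfl
        rw [Fin.le_def] at h3
        simp only [Fin.val_succ, Fin.val_castSucc] at h3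
        omega
      · obtain ⟨j, h1, h2⟩ := ih p hp
        have h3 : j.castSucc < i.castSucc := h1
        refine ⟨j, ?_, h2⟩
        change j ≠ i
        rintro rfl
        exact lt_irrefl _ h3
  | @right u v w l l' _ hf hd ih =>
    intro p hp
    cases hf with
    | comb c i =>
      rcases List.mem_append.1 hp with hp | hp
      · obtain ⟨j, h1, h2⟩ := der_form e f hd p hp
        have h3 : j = i := h1
        subst h3
        refine ⟨j, ?_, h2⟩
        change j.castSucc < j.succ
        rw [Fin.lt_def]
        simp only [Fin.val_succ, Fin.val_castSucc]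
        omega
      · obtain ⟨j, h1, h2⟩ := ih p hp
        have h3 : j.castSucc < i.castSucc := h1
        refine ⟨j, ?_, h2⟩
        change j.castSucc < i.succ
        rw [Fin.lt_def] at h3 ⊢
        simp only [Fin.val_succ, Fin.val_castSucc] at h3 ⊢
        omega

/-- the span of the variables of a set -/
def vs (S : Set (Fin N)) : Submodule (ZMod 2) (Module.Dual (ZMod 2) (ι → ZMod 2)) :=
  Submodule.span (ZMod 2) {l | ∃ j ∈ S, l = LinearMap.proj (e j)}

lemma pre_le (v : Nd ι N) : (prog e f).Pre v ≤ vs e (above v) := by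
  refine Submodule.span_mono ?_
  rintro φ ⟨l, hl, b, hb⟩
  exact ctx_form e f hl _ hb

lemma post_le (v : Nd ι N) : (prog e f).Post v ≤ vs e (below v) := by
  refine Submodule.span_mono ?_
  rintro φ ⟨l, hl, b, hb⟩
  exact der_form e f hl _ hb

omit [Finite ι] in
lemma not_mem_vs (S : Set (Fin N)) (i : Fin N) (hi : i ∉ S) :
    (LinearMap.proj (e i) : Module.Dual (ZMod 2) (ι → ZMod 2)) ∉ vs e S := by
  classical
  intro h
  have key : ∀ l ∈ vs e S, l (Pi.single (e i) 1) = 0 := by
    intro l hl
    induction hl using Submodule.span_induction with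
    | mem x hx =>
      obtain ⟨j, hj, rfl⟩ := hx
      rw [LinearMap.proj_apply, Pi.single_apply, if_neg]
      intro h2
      exact hi (e.injective h2 ▸ hj)
    | zero => rfl
    | add x y _ _ hx hy => rw [LinearMap.add_apply, hx, hy, add_zero]
    | smul a x _ hx => rw [LinearMap.smul_apply, hx, smul_zero]
  have h2 := key _ h
  rw [LinearMap.proj_apply, Pi.single_eq_same] at h2
  exact one_ne_zero h2

theorem prog_readOnce : (prog e f).ReadOnce := by
  intro u w l b _ h hl
  cases h with
  | leaf c i =>
    have h1 := pre_le e f (Sum.inr (Sum.inr (c, i))) hl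
    exact not_mem_vs e {j | j ≠ i} i (fun h => h rfl) h1

theorem prog_decomposable : (prog e f).Decomposable := by
  refine ⟨?_, ?_⟩
  · intro u w l b h _ hl
    cases h with
    | leaf c i =>
      have h1 := post_le e f (Sum.inl true) hl
      exact not_mem_vs e ∅ i (Set.notMem_empty i) h1
  · intro u v w h
    cases h with
    | comb c i =>
      rw [Submodule.disjoint_def]
      intro x hx hy
      have h1 := post_le e f (Sum.inr (Sum.inr (c, i))) hx
      have h2 := post_le e f (Sum.inr (Sum.inl (c, i.succ))) hy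
      have h3 : x ∈ Submodule.span (ZMod 2)
          {(LinearMap.proj (e i) : Module.Dual (ZMod 2) (ι → ZMod 2))} := by
        refine Submodule.span_mono ?_ h1
        rintro l ⟨j, hj, rfl⟩
        have h4 : j = i := hj
        subst h4
        rfl
      obtain ⟨a, rfl⟩ := Submodule.mem_span_singleton.1 h3
      by_cases ha : a = 0
      · rw [ha, zero_smul]
      · exfalso
        refine not_mem_vs e (below (Sum.inr (Sum.inl (c, i.succ)) : Nd ι N)) i ?_ ?_
        · intro h5
          have h6 : i.succ ≤ i.castSucc := h5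
          rw [Fin.le_def] at h6
          simp only [Fin.val_succ, Fin.val_castSucc] at h6
          omega
        · exact ((vs e (below (Sum.inr (Sum.inl (c, i.succ)) : Nd ι N))).smul_mem_iff ha).1 h2

/-- what a passed proof tree says -/
def tells (f : (ι → ZMod 2) → Prop) (z : ι → ZMod 2) : Nd ι N → Prop
  | Sum.inl false => f z
  | Sum.inl true => True
  | Sum.inr (Sum.inl (c, i)) => ∀ j : Fin N, i ≤ j.castSucc → z (e j) = c (e j)
  | Sum.inr (Sum.inr (c, i)) => z (e i) = c (e i)

lemma der_tells {z : ι → ZMod 2} {v : (prog e f).V}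
    {l : List (Module.Dual (ZMod 2) (ι → ZMod 2) × ZMod 2)}
    (h : (prog e f).Der v l) (hz : Passes z l) : tells e f z (v : Nd ι N) := by
  induction h with
  | @final v hv =>
    have h1 : v = Sum.inl true := hv
    subst h1
    trivial
  | @edge u w lab l hed _ ih =>
    cases hed with
    | enter c hc =>
      have h1 := ih (fun p hp => hz p (by simpa using hp))
      have h2 : ∀ j : Fin N, (0 : Fin (N + 1)) ≤ j.castSucc → z (e j) = c (e j) := h1
      have h3 : z = c := by
        funext a
        obtain ⟨j, rfl⟩ := e.surjective a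
        exact h2 j (Fin.zero_le _)
      change f z
      rw [h3]
      exact hc
    | leave c =>
      intro j hj
      rw [Fin.le_def] at hj
      simp only [Fin.val_last, Fin.val_castSucc] at hj
      exact absurd j.2 (by omega)
    | leaf c i => exact hz (LinearMap.proj (e i), c (e i)) (by simp)
  | @fork u v w l₁ l₂ hf _ _ ih1 ih2 =>
    cases hf with
    | comb c i =>
      have h1 := ih1 (fun p hp => hz p (List.mem_append_left _ hp))
      have h2 := ih2 (fun p hp => hz p (List.mem_append_right _ hp))
      intro j hj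
      by_cases hji : j = i
      · subst hji
        exact h1
      · refine h2 j ?_
        have h3 : (j : ℕ) ≠ i := fun h => hji (Fin.ext h)
        rw [Fin.le_def] at hj ⊢
        simp only [Fin.val_succ, Fin.val_castSucc] at hj ⊢
        omega

lemma comb_der (z : ι → ZMod 2) : ∀ k a : ℕ, ∀ ha : a < N + 1, a + k = N →
    ∃ l, (prog e f).Der (Sum.inr (Sum.inl (z, ⟨a, ha⟩))) l ∧ Passes z l := by
  intro k
  induction k with
  | zero =>
    intro a ha hak
    have h1 : (⟨a, ha⟩ : Fin (N + 1)) = Fin.last N := Fin.ext (by simpa using hak)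
    rw [h1]
    exact ⟨_, FProg.Der.edge (Ed.leave z) (FProg.Der.final rfl), fun p hp => by simp at hp⟩
  | succ k ih =>
    intro a ha hak
    obtain ⟨l, h1, h2⟩ := ih (a + 1) (by omega) (by omega)
    refine ⟨_, FProg.Der.fork (Fo.comb z ⟨a, by omega⟩)
      (FProg.Der.edge (Ed.leaf z ⟨a, by omega⟩) (FProg.Der.final rfl)) h1, ?_⟩
    intro p hp
    rcases List.mem_append.1 hp with hp | hp
    · simp only [Option.toList_some, List.append_nil, List.mem_singleton] at hp
      subst hp
      rfl
    · exact h2 p hp

theorem prog_acc (z : ι → ZMod 2) : (prog e f).Acc z ↔ f z := by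
  constructor
  · rintro ⟨l, h1, h2⟩
    exact der_tells e f h1 h2
  · intro h
    obtain ⟨l, h1, h2⟩ := comb_der e f z N 0 (Nat.succ_pos N) (Nat.zero_add N)
    exact ⟨_, FProg.Der.edge (Ed.enter z h) h1, fun p hp => h2 p (by simpa using hp)⟩

/-- Every Boolean function of at least two variables which is not constantly false has a program of
this kind with genuine forks: a reachable fork both sides of which test a variable. -/
theorem complete (ι : Type) [Fintype ι] (f : (ι → ZMod 2) → Prop) :
    ∃ P : FProg (ι → ZMod 2), P.ReadOnce ∧ P.Decomposable ∧ (∀ z, P.Acc z ↔ f z) ∧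
      (2 ≤ Fintype.card ι → (∃ z, f z) →
        ∃ u v w l, P.Ctx u l ∧ P.fork u v w ∧ P.Post v ≠ ⊥ ∧ P.Post w ≠ ⊥) := by
  classical
  refine ⟨prog (Fintype.equivFin ι).symm f, prog_readOnce _ f, prog_decomposable _ f,
    prog_acc _ f, ?_⟩
  intro hN ⟨c, hc⟩
  set e := (Fintype.equivFin ι).symm
  have h0 : 0 < Fintype.card ι := by omega
  have hne : ∀ i : Fin (Fintype.card ι),
      (LinearMap.proj (e i) : Module.Dual (ZMod 2) (ι → ZMod 2)) ≠ 0 := by
    intro i hi
    have h1 := congrArg (fun φ : Module.Dual (ZMod 2) (ι → ZMod 2) => φ (Pi.single (e i) 1)) hi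
    simp at h1
  refine ⟨_, _, _, _, FProg.Ctx.edge FProg.Ctx.start (Ed.enter c hc), Fo.comb c ⟨0, h0⟩, ?_, ?_⟩
  · rw [Submodule.ne_bot_iff]
    refine ⟨LinearMap.proj (e ⟨0, h0⟩), Submodule.subset_span ?_, hne _⟩
    exact ⟨_, FProg.Der.edge (Ed.leaf c ⟨0, h0⟩) (FProg.Der.final rfl), c (e ⟨0, h0⟩), by simp⟩
  · rw [Submodule.ne_bot_iff]
    obtain ⟨l, h1, _⟩ := comb_der e f c (Fintype.card ι - 2) 2 (by omega) (by omega)
    have h2 := FProg.Der.fork (P := prog e f) (Fo.comb c ⟨1, by omega⟩)
      (FProg.Der.edge (Ed.leaf c ⟨1, by omega⟩) (FProg.Der.final rfl)) h1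
    refine ⟨LinearMap.proj (e ⟨1, by omega⟩), Submodule.subset_span ?_, hne _⟩
    exact ⟨_, h2, c (e ⟨1, by omega⟩), by simp⟩

/-! ## Decomposable circuits in negation normal form -/

/-- a gate of a circuit in negation normal form -/
inductive Gate (ι V : Type) : Type
  | lit (i : ι) (b : ZMod 2) : Gate ι V
  | const (b : Bool) : Gate ι V
  | conj (v w : V) : Gate ι V
  | disj (v w : V) : Gate ι V

/-- a circuit in negation normal form: the inputs of a gate have smaller rank -/
structure NNF (ι : Type) where
  V : Type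
  fin : Fintype V
  gate : V → Gate ι V
  root : V
  rank : V → ℕ
  conj_lt : ∀ u v w, gate u = Gate.conj v w → rank v < rank u ∧ rank w < rank u
  disj_lt : ∀ u v w, gate u = Gate.disj v w → rank v < rank u ∧ rank w < rank u

namespace NNF

variable {κ : Type} (C : NNF κ)

/-- the gates that are true on the input -/
inductive True (x : κ → ZMod 2) : C.V → Prop
  | lit {u i b} : C.gate u = Gate.lit i b → x i = b → True x u
  | const {u} : C.gate u = Gate.const true → True x u
  | conj {u v w} : C.gate u = Gate.conj v w → True x v → True x w → True x u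
  | left {u v w} : C.gate u = Gate.disj v w → True x v → True x u
  | right {u v w} : C.gate u = Gate.disj v w → True x w → True x u

/-- the variables on which the gate depends syntactically -/
inductive Var (i : κ) : C.V → Prop
  | lit {u b} : C.gate u = Gate.lit i b → Var i u
  | cleft {u v w} : C.gate u = Gate.conj v w → Var i v → Var i u
  | cright {u v w} : C.gate u = Gate.conj v w → Var i w → Var i u
  | dleft {u v w} : C.gate u = Gate.disj v w → Var i v → Var i u
  | dright {u v w} : C.gate u = Gate.disj v w → Var i w → Var i u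

/-- decomposable: the inputs of a conjunction have no common variable -/
def DNNF : Prop := ∀ u v w, C.gate u = Gate.conj v w → ∀ i, ¬ (C.Var i v ∧ C.Var i w)

/-- the edges -/
inductive CE : Option C.V → Option C.V →
    Option (Module.Dual (ZMod 2) (κ → ZMod 2) × ZMod 2) → Prop
  | lit {u i b} : C.gate u = Gate.lit i b → CE (some u) none (some (LinearMap.proj i, b))
  | const {u} : C.gate u = Gate.const true → CE (some u) none none
  | left {u v w} : C.gate u = Gate.disj v w → CE (some u) (some v) none
  | right {u v w} : C.gate u = Gate.disj v w → CE (some u) (some w) none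

/-- the forks -/
inductive CF : Option C.V → Option C.V → Option C.V → Prop
  | conj {u v w} : C.gate u = Gate.conj v w → CF (some u) (some v) (some w)

/-- the circuit as a program -/
noncomputable def toProg : FProg (κ → ZMod 2) where
  V := Option C.V
  fin := letI := C.fin; inferInstance
  start := some C.root
  final := fun v => v = none
  edge := C.CE
  fork := C.CF

theorem toProg_size : C.toProg.size = @Fintype.card C.V C.fin + 1 := by
  let _ := C.fin
  exact Fintype.card_option

theorem true_der {x : κ → ZMod 2} {u : C.V} (h : C.True x u) :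
    ∃ l, C.toProg.Der (some u) l ∧ Passes x l := by
  induction h with
  | @lit u i b h hx =>
    refine ⟨_, FProg.Der.edge (P := C.toProg) (CE.lit h) (FProg.Der.final rfl), fun p hp => ?_⟩
    simp only [Option.toList_some, List.append_nil, List.mem_singleton] at hp
    subst hp
    exact hx
  | @const u h =>
    exact ⟨_, FProg.Der.edge (P := C.toProg) (CE.const h) (FProg.Der.final rfl),
      fun p hp => by simp at hp⟩
  | @conj u v w h _ _ ih1 ih2 =>
    obtain ⟨l₁, h1, h2⟩ := ih1
    obtain ⟨l₂, h3, h4⟩ := ih2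
    refine ⟨_, FProg.Der.fork (P := C.toProg) (CF.conj h) h1 h3, fun p hp => ?_⟩
    rcases List.mem_append.1 hp with hp | hp
    · exact h2 p hp
    · exact h4 p hp
  | @left u v w h _ ih =>
    obtain ⟨l, h1, h2⟩ := ih
    exact ⟨_, FProg.Der.edge (P := C.toProg) (CE.left h) h1, fun p hp => h2 p (by simpa using hp)⟩
  | @right u v w h _ ih =>
    obtain ⟨l, h1, h2⟩ := ih
    exact ⟨_, FProg.Der.edge (P := C.toProg) (CE.right h) h1, fun p hp => h2 p (by simpa using hp)⟩

theorem der_true {x : κ → ZMod 2} {a : C.toProg.V}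
    {l : List (Module.Dual (ZMod 2) (κ → ZMod 2) × ZMod 2)}
    (h : C.toProg.Der a l) (hx : Passes x l) : ∀ u, (a : Option C.V) = some u → C.True x u := by
  induction h with
  | @final v hv =>
    intro u hu
    have h1 : v = none := hv
    rw [h1] at hu
    exact absurd hu (by simp)
  | @edge u' w' lab l hed _ ih =>
    intro u hu
    cases hed with
    | @lit u₁ i b h =>
      cases hu
      exact True.lit h (hx (LinearMap.proj i, b) (by simp))
    | @const u₁ h =>
      cases hu
      exact True.const h
    | @left u₁ v w h =>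
      cases hu
      exact True.left h (ih (fun p hp => hx p (by simpa using hp)) v rfl)
    | @right u₁ v w h =>
      cases hu
      exact True.right h (ih (fun p hp => hx p (by simpa using hp)) w rfl)
  | @fork u' v' w' l₁ l₂ hf _ _ ih1 ih2 =>
    intro u hu
    cases hf with
    | @conj u₁ v w h =>
      cases hu
      exact True.conj h (ih1 (fun p hp => hx p (List.mem_append_left _ hp)) v rfl)
        (ih2 (fun p hp => hx p (List.mem_append_right _ hp)) w rfl)

theorem toProg_acc (x : κ → ZMod 2) : C.toProg.Acc x ↔ C.True x C.root := by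
  constructor
  · rintro ⟨l, h1, h2⟩
    exact C.der_true h1 h2 _ rfl
  · intro h
    exact C.true_der h

theorem der_var {a : C.toProg.V} {l : List (Module.Dual (ZMod 2) (κ → ZMod 2) × ZMod 2)}
    (h : C.toProg.Der a l) : ∀ p ∈ l, ∃ u i, (a : Option C.V) = some u ∧ C.Var i u ∧ p.1 = LinearMap.proj i := by
  induction h with
  | final => intro p hp; simp at hp
  | @edge u' w' lab l hed _ ih =>
    intro p hp
    cases hed with
    | @lit u₁ i b h =>
      simp only [Option.toList_some, List.cons_append, List.nil_append, List.mem_cons] at hp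
      rcases hp with rfl | hp
      · exact ⟨u₁, i, rfl, Var.lit h, rfl⟩
      · obtain ⟨u, j, h1, _, _⟩ := ih p hp
        exact absurd h1 (by simp)
    | @const u₁ h =>
      obtain ⟨u, j, h1, _, _⟩ := ih p (by simpa using hp)
      exact absurd h1 (by simp)
    | @left u₁ v w h =>
      obtain ⟨u, j, h1, h2, h3⟩ := ih p (by simpa using hp)
      cases h1
      exact ⟨u₁, j, rfl, Var.dleft h h2, h3⟩
    | @right u₁ v w h =>
      obtain ⟨u, j, h1, h2, h3⟩ := ih p (by simpa using hp)
      cases h1
      exact ⟨u₁, j, rfl, Var.dright h h2, h3⟩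
  | @fork u' v' w' l₁ l₂ hf _ _ ih1 ih2 =>
    intro p hp
    cases hf with
    | @conj u₁ v w h =>
      rcases List.mem_append.1 hp with hp | hp
      · obtain ⟨u, j, h1, h2, h3⟩ := ih1 p hp
        cases h1
        exact ⟨u₁, j, rfl, Var.cleft h h2, h3⟩
      · obtain ⟨u, j, h1, h2, h3⟩ := ih2 p hp
        cases h1
        exact ⟨u₁, j, rfl, Var.cright h h2, h3⟩

/-- the forms below a node depend on the variables of the node only -/
theorem post_apply {a : Option C.V} {φ : Module.Dual (ZMod 2) (κ → ZMod 2)}
    (h : φ ∈ C.toProg.Post a) (y : κ → ZMod 2) (hy : ∀ u i, a = some u → C.Var i u → y i = 0) :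
    φ y = 0 := by
  induction h using Submodule.span_induction with
  | mem x hx =>
    obtain ⟨l, hl, b, hb⟩ := hx
    obtain ⟨u, i, h1, h2, h3⟩ := C.der_var hl _ hb
    have h4 : x = LinearMap.proj i := h3
    rw [h4, LinearMap.proj_apply]
    exact hy u i h1 h2
  | zero => rfl
  | add x y' _ _ hx hy' => rw [LinearMap.add_apply, hx, hy', add_zero]
  | smul a x _ hx => rw [LinearMap.smul_apply, hx, smul_zero]

/-- A decomposable circuit is a decomposable program. -/
theorem toProg_decomposable (h : C.DNNF) : C.toProg.Decomposable := by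
  classical
  refine ⟨?_, ?_⟩
  · intro u w l b hed _ hl
    cases hed with
    | @lit u₁ i b h1 =>
      have h2 := C.post_apply hl (Pi.single i 1) (fun u j hu => absurd hu (by simp))
      simp at h2
  · intro u v w hf
    cases hf with
    | @conj u₁ v₁ w₁ h1 =>
      rw [Submodule.disjoint_def]
      intro φ hv hw
      refine LinearMap.ext fun x => ?_
      rw [LinearMap.zero_apply]
      -- split `x` in the part on the variables of `v₁` and the rest
      set x₁ : κ → ZMod 2 := fun i => if C.Var i v₁ then x i else 0 with hx₁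
      set x₂ : κ → ZMod 2 := fun i => if C.Var i v₁ then 0 else x i with hx₂
      have h2 : x = x₁ + x₂ := by
        funext i
        simp only [hx₁, hx₂, Pi.add_apply]
        split_ifs <;> simp
      rw [h2, map_add]
      have h3 : φ x₂ = 0 := by
        refine C.post_apply hv x₂ fun u i hu hi => ?_
        cases hu
        simp only [hx₂, hi, if_true]
      have h4 : φ x₁ = 0 := by
        refine C.post_apply hw x₁ fun u i hu hi => ?_
        cases hu
        have h5 : ¬ C.Var i v₁ := fun h6 => h u₁ v₁ w₁ h1 i ⟨h6, hi⟩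
        simp only [hx₁, h5, if_false]
      rw [h3, h4, add_zero]

/-- Part (3) for decomposable circuits in negation normal form. -/
theorem dnnf_bound (t m : ℕ) (hm : 0 < m) (ht : 29 * m ≤ t)
    (D : NNF (Fin (t + m) ⊕ Fin (t + m))) (hD : D.DNNF)
    (h : ∀ z, D.True z D.root ↔ CoeffZero t m z) :
    2 ^ m ≤ 24 * (@Fintype.card D.V D.fin + 1) ^ 2 := by
  have h1 := exact_bot t m 0 hm (by omega) D.toProg (fun z => (D.toProg_acc z).trans (h z))
    (fun z hz => decomposable_accBot _ (D.toProg_decomposable hD) hz)
  rw [D.toProg_size] at h1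
  simpa using h1

end NNF

/-! ## Numbers -/

/-- The property `CoeffZero` holds for `0` and fails for another input. -/
theorem nonconstant (t m : ℕ) (hm : 0 < m) :
    CoeffZero t m 0 ∧ ∃ z, ¬ CoeffZero t m z := by
  classical
  constructor
  · intro l _ _
    have h : poly (fun a : Fin (t + m) =>
        (0 : Fin (t + m) ⊕ Fin (t + m) → ZMod 2) (Sum.inl a)) = 0 := by
      rw [poly]
      exact Finset.sum_eq_zero fun a _ => by simp
    rw [h, zero_mul, Polynomial.coeff_zero]
  · have ht : t < t + m := by omega
    have h0 : 0 < t + m := by omega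
    refine ⟨Sum.elim (Pi.single ⟨t, ht⟩ 1) (Pi.single ⟨0, h0⟩ 1), fun h => ?_⟩
    have h1 := h t le_rfl ht
    have e1 : poly (fun a : Fin (t + m) => (Sum.elim (Pi.single ⟨t, ht⟩ 1)
        (Pi.single ⟨0, h0⟩ 1) : Fin (t + m) ⊕ Fin (t + m) → ZMod 2) (Sum.inl a)) =
        Polynomial.monomial t 1 := by
      rw [poly, Finset.sum_eq_single ⟨t, ht⟩]
      · simp
      · intro b _ hb
        simp [Pi.single_eq_of_ne hb]
      · intro hb
        exact absurd (Finset.mem_univ _) hb
    have e2 : poly (fun a : Fin (t + m) => (Sum.elim (Pi.single ⟨t, ht⟩ 1)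
        (Pi.single ⟨0, h0⟩ 1) : Fin (t + m) ⊕ Fin (t + m) → ZMod 2) (Sum.inr a)) =
        Polynomial.monomial 0 1 := by
      rw [poly, Finset.sum_eq_single ⟨0, h0⟩]
      · simp
      · intro b _ hb
        simp [Pi.single_eq_of_ne hb]
      · intro hb
        exact absurd (Finset.mem_univ _) hb
    rw [e1, e2, Polynomial.monomial_mul_monomial, add_zero, mul_one,
      Polynomial.coeff_monomial, if_pos rfl] at h1
    exact one_ne_zero h1

/-- Top version with `m = 20`, `t = 260`: the complement has an ordinary program with at most 22482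
nodes, the function has some program, but no `ReadOnce` one with at most 22482 nodes. -/
theorem separates_top :
    (∃ P : FProg (Fin (260 + 20) ⊕ Fin (260 + 20) → ZMod 2), P.size ≤ 22482 ∧
      P.Ordinary ∧ P.ReadOnce ∧ P.Decomposable ∧ ∀ z, P.Acc z ↔ ¬ CoeffZero 260 20 z) ∧
    (∃ P : FProg (Fin (260 + 20) ⊕ Fin (260 + 20) → ZMod 2),
      P.ReadOnce ∧ P.Decomposable ∧ ∀ z, P.Acc z ↔ CoeffZero 260 20 z) ∧
    ¬ ∃ P : FProg (Fin (260 + 20) ⊕ Fin (260 + 20) → ZMod 2), P.size ≤ 22482 ∧
      P.ReadOnce ∧ ∀ z, P.Acc z ↔ CoeffZero 260 20 z := by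
  refine ⟨?_, ?_, ?_⟩
  · obtain ⟨P, h1, h2⟩ := exists_upper 260 20 (by norm_num)
    exact ⟨P, h1.trans (by norm_num), h2⟩
  · obtain ⟨P, h1, h2, h3, _⟩ := complete (Fin (260 + 20) ⊕ Fin (260 + 20)) (CoeffZero 260 20)
    exact ⟨P, h1, h2, h3⟩
  · rintro ⟨P, h1, h2, h3⟩
    have h4 := exact_tree 260 20 0 (by norm_num) (by norm_num) P h3
      (fun z hz => readOnce_accTop P h2 hz)
    simp only [zero_add, Finset.range_one, Finset.sum_singleton, Nat.choose_zero_right,
      mul_one] at h4
    norm_num at h4
    omega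

/-- Bottom version with `m = 50`, `t = 1450`. -/
theorem separates_bottom :
    (∃ P : FProg (Fin (1450 + 50) ⊕ Fin (1450 + 50) → ZMod 2), P.size ≤ 300202 ∧
      P.Ordinary ∧ P.ReadOnce ∧ P.Decomposable ∧ ∀ z, P.Acc z ↔ ¬ CoeffZero 1450 50 z) ∧
    (∃ P : FProg (Fin (1450 + 50) ⊕ Fin (1450 + 50) → ZMod 2),
      P.ReadOnce ∧ P.Decomposable ∧ ∀ z, P.Acc z ↔ CoeffZero 1450 50 z) ∧
    ¬ ∃ P : FProg (Fin (1450 + 50) ⊕ Fin (1450 + 50) → ZMod 2), P.size ≤ 300202 ∧
      P.Decomposable ∧ ∀ z, P.Acc z ↔ CoeffZero 1450 50 z := by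
  refine ⟨?_, ?_, ?_⟩
  · obtain ⟨P, h1, h2⟩ := exists_upper 1450 50 (by norm_num)
    exact ⟨P, h1.trans (by norm_num), h2⟩
  · obtain ⟨P, h1, h2, h3, _⟩ := complete (Fin (1450 + 50) ⊕ Fin (1450 + 50)) (CoeffZero 1450 50)
    exact ⟨P, h1, h2, h3⟩
  · rintro ⟨P, h1, h2, h3⟩
    have h4 := exact_bot 1450 50 0 (by norm_num) (by norm_num) P h3
      (fun z hz => decomposable_accBot P h2 hz)
    simp only [mul_zero, zero_add, Finset.range_one, Finset.sum_singleton, Nat.choose_zero_right,
      mul_one] at h4
    have h5 : P.size ^ 2 ≤ 300202 ^ 2 := Nat.pow_le_pow_left h1 2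
    have h6 : (2 : ℕ) ^ 50 ≤ 24 * 300202 ^ 2 := h4.trans (Nat.mul_le_mul_left _ h5)
    norm_num at h6

end Pool.Agent.VAC2.ParityDNNFCert
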