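import Pool.Agent.WRL.MainK
import Pool.Agent.WRL.UpperN

set_option autoImplicit false

/-!
# Certificate for MP_a77cad_lc/WeaklyReadOnceLinearBP

Every Boolean function is computed by an ordinary program which is read-once in both versions, so
the hypotheses of (ii) can be satisfied (with `k = 0`); the function is not constant; the bound is
not trivial.
-/

namespace Pool.Agent.VAC2.WRLCert

open Pool.Agent.WRL

variable {ι : Type} {N : ℕ}

/-- nodes -/
abbrev Nd (ι : Type) (N : ℕ) : Type := Bool ⊕ ((ι → ZMod 2) × Fin (N + 1))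

/-- the edges: one path for each input with the property `f` -/
inductive Ed (e : Fin N ≃ ι) (f : (ι → ZMod 2) → Prop) : Nd ι N → Nd ι N →
    Option (Module.Dual (ZMod 2) (ι → ZMod 2) × ZMod 2) → Prop
  | enter (c : ι → ZMod 2) (h : f c) : Ed e f (Sum.inl false) (Sum.inr (c, 0)) none
  | read (c : ι → ZMod 2) (i : Fin N) : Ed e f (Sum.inr (c, i.castSucc)) (Sum.inr (c, i.succ))
      (some (LinearMap.proj (e i), c (e i)))
  | leave (c : ι → ZMod 2) : Ed e f (Sum.inr (c, Fin.last N)) (Sum.inl true) none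

/-- the program -/
noncomputable def prog [Finite ι] (e : Fin N ≃ ι) (f : (ι → ZMod 2) → Prop) :
    Prog (ι → ZMod 2) where
  V := Nd ι N
  fin := Fintype.ofFinite _
  start := Sum.inl false
  acc := Sum.inl true
  edge := Ed e f

variable [Finite ι] (e : Fin N ≃ ι) (f : (ι → ZMod 2) → Prop)

lemma reach_inr {c : ι → ZMod 2} {a : Fin (N + 1)} {v : Nd ι N}
    (h : (prog e f).Reach (Sum.inr (c, a)) v) :
    v = Sum.inl true ∨ ∃ i, v = Sum.inr (c, i) ∧ a ≤ i := by
  induction h with
  | refl => exact Or.inr ⟨a, rfl, le_rfl⟩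
  | @tail u w _ huw ih =>
    obtain ⟨lab, hlab⟩ := huw
    rcases ih with rfl | ⟨i, rfl, hi⟩
    · cases hlab
    · cases hlab with
      | read _ j => exact Or.inr ⟨j.succ, rfl, hi.trans (by
          rw [Fin.le_def]; simp)⟩
      | leave _ => exact Or.inl rfl

lemma not_mem_span (S : Set (Fin N)) (i : Fin N) (hi : i ∉ S) :
    (LinearMap.proj (e i) : Module.Dual (ZMod 2) (ι → ZMod 2)) ∉
      Submodule.span (ZMod 2) {l | ∃ j ∈ S, l = LinearMap.proj (e j)} := by
  classical
  intro h
  have key : ∀ l ∈ Submodule.span (ZMod 2)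
      {l : Module.Dual (ZMod 2) (ι → ZMod 2) | ∃ j ∈ S, l = LinearMap.proj (e j)},
      l (Pi.single (e i) 1) = 0 := by
    intro l hl
    induction hl using Submodule.span_induction with
    | mem x hx =>
      obtain ⟨j, hj, rfl⟩ := hx
      rw [LinearMap.proj_apply, Pi.single_apply, if_neg]
      intro h2
      exact hi (e.injective h2 ▸ hj)
    | zero => rfl
    | add x y _ _ hx hy => rw [LinearMap.add_apply, hx, hy, add_zero]
    | smul a x _ hx => rw [LinearMap.smul_apply, hx, smul_zero]
  have h2 := key _ h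
  rw [LinearMap.proj_apply, Pi.single_eq_same] at h2
  exact one_ne_zero h2

theorem prog_ordinary : (prog e f).Ordinary := by
  intro u w l b h
  cases h with
  | read c i => exact ⟨e i, rfl⟩

theorem prog_readOnce : (prog e f).ReadOnce := by
  intro u w l b _ h
  cases h with
  | read c i =>
    intro hl
    refine not_mem_span e {j | j < i} i (lt_irrefl i) ?_
    refine Submodule.span_mono ?_ hl
    rintro l' ⟨u', w', b', _, h2, h3⟩
    cases h2 with
    | read c' j =>
      refine ⟨j, ?_, rfl⟩
      rcases reach_inr e f h3 with h4 | ⟨a, h4, h5⟩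
      · cases h4
      · cases h4
        rw [Fin.le_def] at h5
        simp only [Fin.val_succ, Fin.val_castSucc] at h5
        exact Fin.lt_def.2 h5

theorem prog_bottomReadOnce : (prog e f).BottomReadOnce := by
  intro u w l b h _
  cases h with
  | read c i =>
    intro hl
    refine not_mem_span e {j | i < j} i (lt_irrefl i) ?_
    refine Submodule.span_mono ?_ hl
    rintro l' ⟨u', w', b', h2, h3, _⟩
    cases h3 with
    | read c' j =>
      refine ⟨j, ?_, rfl⟩
      rcases reach_inr e f h2 with h4 | ⟨a, h4, h5⟩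
      · cases h4
      · cases h4
        rw [Fin.le_def] at h5
        simp only [Fin.val_succ, Fin.val_castSucc] at h5
        exact Fin.lt_def.2 h5

lemma run_inv {z : ι → ZMod 2} {v : Nd ι N} (h : (prog e f).Run z (Sum.inl false) v) :
    v = Sum.inl false ∨ (∃ c i, v = Sum.inr (c, i) ∧ f c ∧
      ∀ j : Fin N, j.castSucc < i → z (e j) = c (e j)) ∨ (v = Sum.inl true ∧ f z) := by
  induction h with
  | refl => exact Or.inl rfl
  | @tail u w _ huw ih =>
    obtain ⟨lab, hlab, ht⟩ := huw
    rcases ih with rfl | ⟨c, i, rfl, hc, hi⟩ | ⟨rfl, _⟩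
    · cases hlab with
      | enter c hc => exact Or.inr (Or.inl ⟨c, 0, rfl, hc, fun j hj => absurd hj (Fin.not_lt_zero _)⟩)
    · cases hlab with
      | read _ i =>
        refine Or.inr (Or.inl ⟨c, i.succ, rfl, hc, fun j hj => ?_⟩)
        have h1 := ht _ rfl
        simp only [LinearMap.proj_apply] at h1
        rcases eq_or_ne j i with rfl | hji
        · exact h1
        · refine hi j ?_
          rw [Fin.lt_def] at hj ⊢
          simp only [Fin.val_succ, Fin.val_castSucc] at hj ⊢
          have h3 : (j : ℕ) ≠ i := fun h => hji (Fin.ext h)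
          omega
      | leave _ =>
        refine Or.inr (Or.inr ⟨rfl, ?_⟩)
        have hz : z = c := by
          funext a
          obtain ⟨j, rfl⟩ := e.surjective a
          exact hi j (Fin.castSucc_lt_last j)
        exact hz ▸ hc
    · cases hlab

theorem prog_acc (z : ι → ZMod 2) : (prog e f).Acc z ↔ f z := by
  constructor
  · intro h
    rcases run_inv e f h with h1 | ⟨_, _, h1, _⟩ | ⟨_, h1⟩
    · cases h1
    · cases h1
    · exact h1
  · intro h
    have key : ∀ a : ℕ, ∀ ha : a < N + 1, (prog e f).Run z (Sum.inl false) (Sum.inr (z, ⟨a, ha⟩)) := by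
      intro a
      induction a with
      | zero =>
        intro ha
        exact Relation.ReflTransGen.single ⟨none, Ed.enter z h, fun t ht => by cases ht⟩
      | succ a ih =>
        intro ha
        refine (ih (by omega)).tail ⟨_, Ed.read z ⟨a, by omega⟩, fun t ht => ?_⟩
        cases ht
        rfl
    exact (key N (Nat.lt_succ_self N)).tail ⟨none, Ed.leave z, fun t ht => by cases ht⟩

/-- Every Boolean function has an ordinary program which is read-once in both versions. -/
theorem complete (ι : Type) [Fintype ι] (f : (ι → ZMod 2) → Prop) :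
    ∃ P : Prog (ι → ZMod 2), P.Ordinary ∧ P.ReadOnce ∧ P.BottomReadOnce ∧ ∀ z, P.Acc z ↔ f z := by
  classical
  exact ⟨prog (Fintype.equivFin ι).symm f, prog_ordinary _ f, prog_readOnce _ f,
    prog_bottomReadOnce _ f, prog_acc _ f⟩

lemma accTop_mono {E : Type} [AddCommGroup E] [Module (ZMod 2) E] (P : Prog E) {k l : ℕ}
    (h : k ≤ l) {z : E} (hz : P.AccTop k z) : P.AccTop l z := by
  obtain ⟨R, h1, h2⟩ := hz
  exact ⟨R, h1.trans h, h2⟩

/-- The hypotheses of (ii) are satisfied by some program, for all `t`, `m`, `k`. -/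
theorem hypotheses (t m k : ℕ) :
    ∃ P : Prog (Fin (t + m) ⊕ Fin (t + m) → ZMod 2), P.Ordinary ∧ P.ReadOnce ∧ P.BottomReadOnce ∧
      (∀ z, P.Acc z ↔ CoeffZero t m z) ∧ ∀ z, P.Acc z → P.AccTop k z := by
  obtain ⟨P, h1, h2, h3, h4⟩ := complete _ (CoeffZero t m)
  exact ⟨P, h1, h2, h3, h4,
    fun z hz => accTop_mono P (Nat.zero_le k) (readOnce_accTop P h2 hz)⟩

/-- The property `CoeffZero` holds for `0` and fails for another input. -/
theorem nonconstant (t m : ℕ) (hm : 0 < m) :
    CoeffZero t m 0 ∧ ∃ z, ¬ CoeffZero t m z := by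
  classical
  constructor
  · intro l _ _
    have h : poly (fun a : Fin (t + m) =>
        (0 : Fin (t + m) ⊕ Fin (t + m) → ZMod 2) (Sum.inl a)) = 0 := by
      rw [poly]
      exact Finset.sum_eq_zero fun a _ => by simp
    rw [h, zero_mul, Polynomial.coeff_zero]
  · have ht : t < t + m := by omega
    have h0 : 0 < t + m := by omega
    refine ⟨Sum.elim (Pi.single ⟨t, ht⟩ 1) (Pi.single ⟨0, h0⟩ 1), fun h => ?_⟩
    have h1 := h t le_rfl ht
    have e1 : poly (fun a : Fin (t + m) => (Sum.elim (Pi.single ⟨t, ht⟩ 1)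
        (Pi.single ⟨0, h0⟩ 1) : Fin (t + m) ⊕ Fin (t + m) → ZMod 2) (Sum.inl a)) =
        Polynomial.monomial t 1 := by
      rw [poly, Finset.sum_eq_single ⟨t, ht⟩]
      · simp
      · intro b _ hb
        simp [Pi.single_eq_of_ne hb]
      · intro hb
        exact absurd (Finset.mem_univ _) hb
    have e2 : poly (fun a : Fin (t + m) => (Sum.elim (Pi.single ⟨t, ht⟩ 1)
        (Pi.single ⟨0, h0⟩ 1) : Fin (t + m) ⊕ Fin (t + m) → ZMod 2) (Sum.inr a)) =
        Polynomial.monomial 0 1 := by
      rw [poly, Finset.sum_eq_single ⟨0, h0⟩]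
      · simp
      · intro b _ hb
        simp [Pi.single_eq_of_ne hb]
      · intro hb
        exact absurd (Finset.mem_univ _) hb
    rw [e1, e2, Polynomial.monomial_mul_monomial, add_zero, mul_one,
      Polynomial.coeff_monomial, if_pos rfl] at h1
    exact one_ne_zero h1

/-- An instance where the bound (ii) is far above the number of variables and above the size
`4 m (t + m + 1) + 2` of the program for the complement: `m = 40`, `t = 280`, `k = 0`. -/
theorem instance_bound (P : Prog (Fin (280 + 40) ⊕ Fin (280 + 40) → ZMod 2))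
    (h : ∀ z, P.Acc z ↔ CoeffZero 280 40 z) (h2 : P.ReadOnce) :
    4 * 40 * (280 + 40 + 1) + 2 < P.size ∧ 2 * (280 + 40) < P.size := by
  have h3 := exact_both 280 40 0 (by norm_num) (by norm_num) P h
    fun z hz => Or.inl (readOnce_accTop P h2 hz)
  simp only [zero_add, Finset.range_one, Finset.sum_singleton, Nat.choose_zero_right,
    mul_one] at h3
  norm_num at h3
  constructor <;> omega

/-- The complement program of (i) is read-once, so (ii) separates a function from its complement:
no such program exists for the function itself. -/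
theorem separates :
    (∃ P : Prog (Fin (280 + 40) ⊕ Fin (280 + 40) → ZMod 2), P.size ≤ 51362 ∧
      P.Ordinary ∧ P.ReadOnce ∧ P.BottomReadOnce ∧ ∀ z, P.Acc z ↔ ¬ CoeffZero 280 40 z) ∧
    (∃ P : Prog (Fin (280 + 40) ⊕ Fin (280 + 40) → ZMod 2),
      P.Ordinary ∧ P.ReadOnce ∧ P.BottomReadOnce ∧ ∀ z, P.Acc z ↔ CoeffZero 280 40 z) ∧
    ¬ ∃ P : Prog (Fin (280 + 40) ⊕ Fin (280 + 40) → ZMod 2), P.size ≤ 51362 ∧
      P.ReadOnce ∧ ∀ z, P.Acc z ↔ CoeffZero 280 40 z := by
  refine ⟨?_, ?_, ?_⟩
  · obtain ⟨P, h1, h2⟩ := UN.exists_upper 280 40 (by norm_num)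
    exact ⟨P, h1.trans (by norm_num), h2⟩
  · obtain ⟨P, h1, h2, h3, h4, _⟩ := hypotheses 280 40 0
    exact ⟨P, h1, h2, h3, h4⟩
  · rintro ⟨P, h1, h2, h3⟩
    have h4 := (instance_bound P h3 h2).1
    omega

end Pool.Agent.VAC2.WRLCert
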