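import Pool.Agent.ACC.Defs

/-!
# Certificate: the statement of MP_ad5e8e_lc/AccessCost is not vacuous

`result` says: for all `κ`, `ε > 0` there are `c > 0`, `s₀` such that for all `s ≥ s₀` there are `n` and
`δ` with a lower bound `c s min (log s) (log φ)` for the cost of all machines.

* `machines_exist`: for every `n ≥ 1`, every `δ`, all prices `f` and every type of registers and
  contents there is a machine of the model with three control states that recognises the triangle-free
  graphs with the degrees `δ` at the finite cost `3 n ^ 3`. So all hypotheses on the machine can hold at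
  the same time, whatever `δ` is.
* `both_exist`: if `δ` satisfies the conclusion of `result` (for one `c > 0`, `s ≥ 3`) then there are
  triangle-free graphs and graphs with a triangle with the degrees `δ` (proof of helper90,
  `Pool/Agent/VAC90/Acc.lean`): the witness `δ` cannot be degenerate.
* `bound_le`: at the witness the claimed lower bound is at most the cost of that machine: it is a
  true restriction (`c s log s ≤ 3 n ^ 3` for the three state machine without memory), not an empty one.
-/

set_option autoImplicit false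

namespace Pool.Agent.VAC2.AccessCost

open Pool.Agent.TS Pool.Agent.ACC

/-- an enumeration of a finite type -/
lemma exists_enum (T : Type) [Fintype T] [Nonempty T] :
    ∃ tr : ℕ → T, ∀ p, ∃ k < Fintype.card T, tr k = p := by
  classical
  refine ⟨fun k => if h : k < Fintype.card T then (Fintype.equivFin T).symm ⟨k, h⟩
    else Classical.arbitrary T, fun p => ⟨(Fintype.equivFin T p).1, (Fintype.equivFin T p).2, ?_⟩⟩
  simp

/-- the question at time `i` -/
def qu {n : ℕ} (tr : ℕ → Fin n × Fin n × Fin n) (i : ℕ) : Query n :=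
  if i % 3 = 0 then Query.pair (tr (i / 3)).1 (tr (i / 3)).2.1
  else if i % 3 = 1 then Query.pair (tr (i / 3)).2.1 (tr (i / 3)).2.2
  else Query.pair (tr (i / 3)).1 (tr (i / 3)).2.2

/-- The machine that checks all triples. -/
def mach {n : ℕ} (A Γ : Type) (init : A → Γ) (N : ℕ) (tr : ℕ → Fin n × Fin n × Fin n) :
    Machine n (Option Bool) A Γ where
  start := {some true}
  init := init
  rd := fun _ _ => none
  ask := fun i _ _ => qu tr i
  next := fun i q _ a => q.elim ∅ fun b =>
    if i % 3 = 2 then (if (b && a.isSome) = true then ∅ else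
      if i + 1 = 3 * N then {(none, none)} else {(some true, none)})
    else {(some (b && a.isSome), none)}
  acc := {none}

/-- is the answer at time `i` positive -/
noncomputable def ev {n : ℕ} (G : SimpleGraph (Fin n)) (tr : ℕ → Fin n × Fin n × Fin n) (i : ℕ) :
    Bool := (answer G (qu tr i)).isSome

lemma ev_pair {n : ℕ} (G : SimpleGraph (Fin n)) (u v : Fin n) :
    (answer G (Query.pair u v)).isSome = true ↔ G.Adj u v := by
  classical
  change (if G.Adj u v then some v else none).isSome = true ↔ G.Adj u v
  by_cases h : G.Adj u v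
  · simp [h]
  · simp [h]

lemma ev0 {n : ℕ} (G : SimpleGraph (Fin n)) (tr : ℕ → Fin n × Fin n × Fin n) (k : ℕ) :
    ev G tr (3 * k) = true ↔ G.Adj (tr k).1 (tr k).2.1 := by
  unfold ev qu
  rw [if_pos (by omega), show 3 * k / 3 = k by omega]
  exact ev_pair G _ _

lemma ev1 {n : ℕ} (G : SimpleGraph (Fin n)) (tr : ℕ → Fin n × Fin n × Fin n) (k : ℕ) :
    ev G tr (3 * k + 1) = true ↔ G.Adj (tr k).2.1 (tr k).2.2 := by
  unfold ev qu
  rw [if_neg (by omega), if_pos (by omega), show (3 * k + 1) / 3 = k by omega]
  exact ev_pair G _ _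

lemma ev2 {n : ℕ} (G : SimpleGraph (Fin n)) (tr : ℕ → Fin n × Fin n × Fin n) (k : ℕ) :
    ev G tr (3 * k + 2) = true ↔ G.Adj (tr k).1 (tr k).2.2 := by
  unfold ev qu
  rw [if_neg (by omega), if_neg (by omega), show (3 * k + 2) / 3 = k by omega]
  exact ev_pair G _ _

lemma not_free {n : ℕ} (G : SimpleGraph (Fin n)) :
    ¬ G.CliqueFree 3 ↔ ∃ u v w, G.Adj u v ∧ G.Adj v w ∧ G.Adj u w := by
  classical
  constructor
  · intro h
    unfold SimpleGraph.CliqueFree at h
    push Not at h
    obtain ⟨t, ht⟩ := h
    obtain ⟨a, b, c, h1, h2, h3, -⟩ := SimpleGraph.is3Clique_iff.1 ht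
    exact ⟨a, b, c, h1, h3, h2⟩
  · rintro ⟨u, v, w, h1, h2, h3⟩ h
    exact h {u, v, w} (SimpleGraph.is3Clique_iff.2 ⟨u, v, w, h1, h3, h2, rfl⟩)

/-- For every `δ` there is a machine with three control states which recognises the triangle-free
graphs with the degrees `δ` at the cost `3 n ^ 3`. -/
theorem machines_exist (n : ℕ) (hn : 0 < n) (δ : Fin n → ℕ) (A Γ : Type) (init : A → Γ)
    (f : A → ℝ) : ∃ M : Machine n (Option Bool) A Γ, M.Recognises f (3 * (n : ℝ) ^ 3) δ := by
  classical
  have : Nonempty (Fin n × Fin n × Fin n) := ⟨⟨⟨0, hn⟩, ⟨0, hn⟩, ⟨0, hn⟩⟩⟩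
  obtain ⟨tr, htr⟩ := exists_enum (Fin n × Fin n × Fin n)
  set N : ℕ := Fintype.card (Fin n × Fin n × Fin n) with hN
  have hN3 : N = n ^ 3 := by
    rw [hN]
    simp only [Fintype.card_prod, Fintype.card_fin]
    ring
  have hN0 : 0 < N := by
    rw [hN3]
    positivity
  refine ⟨mach A Γ init N tr, fun G _ => ⟨fun hfree => ?_, fun hnot => ?_⟩⟩
  · -- a triangle-free graph
    have hno : ∀ k, ¬ (G.Adj (tr k).1 (tr k).2.1 ∧ G.Adj (tr k).2.1 (tr k).2.2 ∧
        G.Adj (tr k).1 (tr k).2.2) := by
      intro k hk
      exact ((not_free G).2 ⟨_, _, _, hk.1, hk.2.1, hk.2.2⟩) hfree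
    let q : ℕ → Option Bool := fun i =>
      if 3 * N ≤ i then none else if i % 3 = 0 then some true else
        if i % 3 = 1 then some (ev G tr (i - 1)) else some (ev G tr (i - 2) && ev G tr (i - 1))
    refine ⟨3 * N, q, fun _ => init, fun _ => none, ⟨?_, rfl, ?_⟩, ?_, ?_⟩
    · have h1 : q 0 = some true := by
        simp only [q]
        rw [if_neg (by omega), if_pos (by trivial)]
      rw [h1]
      rfl
    · intro i hi
      refine ⟨?_, rfl⟩
      have hans : answer G ((mach A Γ init N tr).ask i (q i)
          (((mach A Γ init N tr).rd i (q i)).map init)) = answer G (qu tr i) := rfl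
      obtain ⟨k, r, hr, hk⟩ : ∃ k r, r < 3 ∧ i = 3 * k + r := ⟨i / 3, i % 3, by omega, by omega⟩
      have hev : (answer G (qu tr i)).isSome = ev G tr i := rfl
      have hr' : r = 0 ∨ r = 1 ∨ r = 2 := by omega
      rcases hr' with rfl | rfl | rfl
      · have e1 : q i = some true := by
          simp only [q]
          rw [if_neg (by omega), if_pos (by omega)]
        have e2 : q (i + 1) = some (ev G tr i) := by
          simp only [q]
          rw [if_neg (by omega), if_neg (by omega), if_pos (by omega), Nat.add_sub_cancel]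
        rw [e1, e2]
        change (some (ev G tr i), none) ∈ (if i % 3 = 2 then _ else _)
        rw [if_neg (by omega)]
        rw [hk]
        rfl
      · have e1 : q i = some (ev G tr (i - 1)) := by
          simp only [q]
          rw [if_neg (by omega), if_neg (by omega), if_pos (by omega)]
        have e2 : q (i + 1) = some (ev G tr (i - 1) && ev G tr i) := by
          simp only [q]
          rw [if_neg (by omega), if_neg (by omega), if_neg (by omega), Nat.add_sub_cancel,
            show i + 1 - 2 = i - 1 by omega]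
        rw [e1, e2]
        change (some (ev G tr (i - 1) && ev G tr i), none) ∈ (if i % 3 = 2 then _ else _)
        rw [if_neg (by omega)]
        rfl
      · have e1 : q i = some (ev G tr (i - 2) && ev G tr (i - 1)) := by
          simp only [q]
          rw [if_neg (by omega), if_neg (by omega), if_neg (by omega)]
        have hf : ((ev G tr (i - 2) && ev G tr (i - 1)) && ev G tr i) ≠ true := by
          intro h
          rw [Bool.and_eq_true, Bool.and_eq_true] at h
          obtain ⟨⟨h1, h2⟩, h3⟩ := h
          rw [hk, show 3 * k + 2 - 2 = 3 * k by omega, ev0] at h1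
          rw [hk, show 3 * k + 2 - 1 = 3 * k + 1 by omega, ev1] at h2
          rw [hk, ev2] at h3
          exact hno k ⟨h1, h2, h3⟩
        rw [e1]
        change (q (i + 1), none) ∈ (if i % 3 = 2 then
          (if ((ev G tr (i - 2) && ev G tr (i - 1)) && ev G tr i) = true then ∅ else
            if i + 1 = 3 * N then {(none, none)} else {(some true, none)}) else _)
        rw [if_pos (by omega), if_neg hf]
        by_cases hl : i + 1 = 3 * N
        · rw [if_pos hl]
          have e2 : q (i + 1) = none := by
            simp only [q]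
            rw [if_pos (by omega)]
          rw [e2]
          rfl
        · rw [if_neg hl]
          have e2 : q (i + 1) = some true := by
            simp only [q]
            rw [if_neg (by omega), if_pos (by omega)]
          rw [e2]
          rfl
    · have h1 : q (3 * N) = none := by
        simp only [q]
        rw [if_pos le_rfl]
      rw [h1]
      rfl
    · have h1 : (mach A Γ init N tr).cost f (3 * N) q (fun _ => none) = ((3 * N : ℕ) : ℝ) := by
        have h2 : ∑ i ∈ Finset.range (3 * N),
            ((mach A Γ init N tr).rd i (q i)).elim (0 : ℝ) f = 0 :=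
          Finset.sum_eq_zero fun i _ => rfl
        have h3 : ∑ i ∈ Finset.range (3 * N),
            ((fun _ => none : ℕ → Option (A × Γ)) i).elim (0 : ℝ) (fun x => f x.1) = 0 :=
          Finset.sum_eq_zero fun i _ => rfl
        unfold Machine.cost
        rw [h2, h3, min_self, add_zero]
      rw [h1, hN3]
      push_cast
      exact le_rfl
  · -- a graph with a triangle
    rintro ⟨t, q, c, w, ⟨h0, -, hstep⟩, hacc⟩
    obtain ⟨u, v, x, h1, h2, h3⟩ := (not_free G).1 hnot
    obtain ⟨k, hk, hkt⟩ := htr (u, v, x)
    have hq0 : q 0 = some true := h0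
    have hqt : q t = none := hacc
    have hs : ∀ i < t, (q (i + 1), w i) ∈ (q i).elim (∅ : Set (Option Bool × Option (A × Γ)))
        fun b => if i % 3 = 2 then (if (b && ev G tr i) = true then ∅ else
          if i + 1 = 3 * N then {(none, none)} else {(some true, none)})
          else {(some (b && ev G tr i), none)} := fun i hi => (hstep i hi).1
    -- the state before `3 N`
    have hst : ∀ i, i ≤ t → i < 3 * N → (∃ b, q i = some b) ∧ (i % 3 = 0 → q i = some true) := by
      intro i
      induction i with
      | zero => exact fun _ _ => ⟨⟨true, hq0⟩, fun _ => hq0⟩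
      | succ i ih =>
        intro hi hiN
        obtain ⟨⟨b, hb⟩, -⟩ := ih (by omega) (by omega)
        have h4 := hs i (by omega)
        rw [hb] at h4
        change (q (i + 1), w i) ∈ (if i % 3 = 2 then _ else _) at h4
        by_cases hm : i % 3 = 2
        · rw [if_pos hm] at h4
          by_cases hbe : (b && ev G tr i) = true
          · rw [if_pos hbe] at h4
            exact absurd h4 (Set.notMem_empty _)
          · rw [if_neg hbe, if_neg (by omega)] at h4
            have h5 : q (i + 1) = some true := (Prod.mk.inj h4).1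
            exact ⟨⟨true, h5⟩, fun _ => h5⟩
        · rw [if_neg hm] at h4
          have h5 : q (i + 1) = some (b && ev G tr i) := (Prod.mk.inj h4).1
          exact ⟨⟨_, h5⟩, fun h6 => absurd h6 (by omega)⟩
    have ht : 3 * N ≤ t := by
      by_contra hcon
      obtain ⟨⟨b, hb⟩, -⟩ := hst t le_rfl (by omega)
      rw [hqt] at hb
      exact absurd hb (by simp)
    have g0 : ev G tr (3 * k) = true := by
      rw [ev0, hkt]
      exact h1
    have g1 : ev G tr (3 * k + 1) = true := by
      rw [ev1, hkt]
      exact h2
    have g2 : ev G tr (3 * k + 2) = true := by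
      rw [ev2, hkt]
      exact h3
    have s0 : q (3 * k) = some true := (hst (3 * k) (by omega) (by omega)).2 (by omega)
    have s1 : q (3 * k + 1) = some true := by
      have h4 := hs (3 * k) (by omega)
      rw [s0] at h4
      change (q (3 * k + 1), w (3 * k)) ∈ (if 3 * k % 3 = 2 then _ else _) at h4
      rw [if_neg (by omega), g0] at h4
      exact (Prod.mk.inj h4).1
    have s2 : q (3 * k + 2) = some true := by
      have h4 := hs (3 * k + 1) (by omega)
      rw [s1] at h4
      change (q (3 * k + 2), w (3 * k + 1)) ∈ (if (3 * k + 1) % 3 = 2 then _ else _) at h4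
      rw [if_neg (by omega), g1] at h4
      exact (Prod.mk.inj h4).1
    have h4 := hs (3 * k + 2) (by omega)
    rw [s2] at h4
    change (q (3 * k + 2 + 1), w (3 * k + 2)) ∈ (if (3 * k + 2) % 3 = 2 then
      (if (true && ev G tr (3 * k + 2)) = true then ∅ else _) else _) at h4
    rw [if_pos (by omega), g2, if_pos (by rfl)] at h4
    exact absurd h4 (Set.notMem_empty _)

/-- the conclusion of `result` for given `κ ε c s n δ` -/
def Concl (κ : ℕ) (ε c : ℝ) (s n : ℕ) (δ : Fin n → ℕ) : Prop :=
  ∀ (Q A Γ : Type) [Fintype Q] [Fintype A] [Fintype Γ] (M : Machine n Q A Γ) (g : ℕ)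
    (f : A → ℝ) (φ T : ℝ), 1 ≤ g → (Fintype.card Q : ℝ) ≤ 2 ^ ((s : ℝ) ^ (1 - ε)) →
    Fintype.card A ≤ s ^ κ → Fintype.card Γ ≤ s ^ (κ * g) → (∀ a, 0 ≤ f a) → 0 < φ →
    (Nat.card {a : A // f a < φ * g} : ℝ) * g ≤ (s : ℝ) ^ (1 - ε) →
    M.Recognises f T δ → c * s * min (Real.log s) (Real.log φ) ≤ T

/-- Triangle-free graphs and graphs with a triangle with the degrees `δ` exist (helper90). -/
theorem both_exist (κ : ℕ) (ε c : ℝ) (hc : 0 < c) (s : ℕ) (hs : 3 ≤ s) (n : ℕ) (δ : Fin n → ℕ)
    (h1 : 2 * n + ∑ v, δ v = 2 * s) (h : Concl κ ε c s n δ) :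
    0 < n ∧ (∃ G : SimpleGraph (Fin n), (∀ v, (adjList G v).length = δ v) ∧ G.CliqueFree 3) ∧
    (∃ G : SimpleGraph (Fin n), (∀ v, (adjList G v).length = δ v) ∧ ¬ G.CliqueFree 3) := by
  have hn : 0 < n := by
    rcases Nat.eq_zero_or_pos n with h0 | h0
    · subst h0
      simp at h1
      omega
    · exact h0
  let M : Set Unit → Machine n Unit Empty Unit := fun S =>
    { start := Set.univ, init := fun a => a.elim, rd := fun _ _ => none,
      ask := fun _ _ _ => Query.entry ⟨0, hn⟩ 0, next := fun _ _ _ _ => Set.univ, acc := S }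
  have key : ∀ S : Set Unit, ¬ (M S).Recognises (fun a => a.elim) 0 δ := by
    intro S hS
    have h2 := h Unit Empty Unit (M S) 1 (fun a => a.elim) 3 0 le_rfl
      (by simp only [Fintype.card_unit, Nat.cast_one]
          exact Real.one_le_rpow (by norm_num) (by positivity))
      (by simp) (by simpa using Nat.one_le_pow _ _ (by omega)) (fun a => a.elim) (by norm_num)
      (by simp; positivity) hS
    have h3 : 0 < Real.log s := Real.log_pos (by exact_mod_cast (by omega : 1 < s))
    have h4 : (0:ℝ) < Real.log 3 := Real.log_pos (by norm_num)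
    have h5 : 0 < min (Real.log s) (Real.log 3) := lt_min h3 h4
    have h6 : (0:ℝ) < s := by exact_mod_cast (by omega : 0 < s)
    have h7 : 0 < c * s * min (Real.log s) (Real.log 3) := by positivity
    linarith
  refine ⟨hn, ?_, ?_⟩
  · by_contra hcon
    push Not at hcon
    apply key ∅
    intro G hG
    refine ⟨fun hf => absurd hf (hcon G hG), ?_⟩
    rintro - ⟨t, q, c', w, -, h'⟩
    exact h'
  · by_contra hcon
    push Not at hcon
    apply key Set.univ
    intro G hG
    refine ⟨fun hf => ⟨0, fun _ => (), fun _ a => a.elim, fun _ => none, ?_, trivial, ?_⟩,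
      fun hf => absurd (hcon G hG) hf⟩
    · refine ⟨trivial, ?_, fun i hi => absurd hi (by omega)⟩
      rfl
    · simp [Machine.cost]

/-- At the witness the three state machine without memory satisfies all the hypotheses (as soon as
`3 ≤ 2 ^ (s ^ (1 - ε))`), and the bound of `result` with `φ = s` reads `c s log s ≤ 3 n ^ 3`. -/
theorem bound_le (κ : ℕ) (ε c : ℝ) (s : ℕ) (hs : 3 ≤ s)
    (hs' : (3 : ℝ) ≤ 2 ^ ((s : ℝ) ^ (1 - ε))) (n : ℕ) (hn : 0 < n) (δ : Fin n → ℕ)
    (h : Concl κ ε c s n δ) : c * s * Real.log s ≤ 3 * (n : ℝ) ^ 3 := by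
  obtain ⟨M, hM⟩ := machines_exist n hn δ Empty Unit (fun a => a.elim) (fun a => a.elim)
  have h2 := h (Option Bool) Empty Unit M 1 (fun a => a.elim) s (3 * (n : ℝ) ^ 3) le_rfl
    (by simpa using hs') (by simp) (by simpa using Nat.one_le_pow _ _ (by omega))
    (fun a => a.elim) (by exact_mod_cast (by omega : 0 < s)) (by simp; positivity) hM
  rwa [min_self] at h2

end Pool.Agent.VAC2.AccessCost
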