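import Pool.Agent.VAC90.Hyb
import Pool.Agent.HYB.Final

/-!
# Certificate for MP_ad5e8e_lc.HybridMachine (vacuity audit)

* `bit_sat`: for every `B ≥ 1`, every `b`, every network and every `n ≥ 1` the hypotheses of the
  theorem are satisfied by an explicit deterministic machine that sends one bit of its list of
  neighbours in each pass, with `T = 2 n ^ 2` and `J = 0` (`Pool.Agent.VAC90.hyb_sat`: `T = 2 n` if
  `B = n`).
* `superlinear`: at `B = 1`, `d = 0`, `J = 0` the claimed bound is not linear: it exceeds `K s` for
  every `K` and all large `s`.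
* `bit_lower`: the theorem applied to the machine: its conclusion holds for it, and it is not
  satisfied by `T = K s`.
-/

set_option autoImplicit false

open MeasureTheory Filter

namespace Pool.Agent.VAC2.HybridMachine

open Pool.Agent.HYB

open Classical in
/-- Every vertex sends its list of neighbours, one bit in each pass. -/
noncomputable def bit (n B b : ℕ) (hn : 0 < n) : HYB.Machine n B b (Finset (Fin n) × Bool) where
  start := fun _ N => (N, false)
  send := fun r q _ => fun _ => decide ((⟨r % n, Nat.mod_lt _ hn⟩ : Fin n) ∈ q.1)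
  write := fun _ _ _ => ⊥
  step := fun r q msg _ _ => (q.1, q.2 || decide (∃ w i, (⟨r % n, Nat.mod_lt _ hn⟩ : Fin n) ∈ q.1 ∧
    w ∈ q.1 ∧ msg w i = true))
  decide := fun r q => if r < n then none else some q.2

theorem bit_fst (n B b : ℕ) (hn : 0 < n) (H : Net n) (G : SimpleGraph (Fin n)) (r : ℕ)
    (u : Fin n) : (state (bit n B b hn) H G r u).1 = nbr G u := by
  induction r with
  | zero => rfl
  | succ r ih =>
    simp only [state]
    exact ih

theorem bit_snd (n B b : ℕ) (hn : 0 < n) (hB : 0 < B) (H : Net n) (G : SimpleGraph (Fin n))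
    (r : ℕ) (hr : r ≤ n) (u : Fin n) :
    (state (bit n B b hn) H G r u).2 = true ↔
      ∃ w i, G.Adj u i ∧ G.Adj u w ∧ G.Adj w i ∧ (i : ℕ) < r := by
  classical
  induction r with
  | zero =>
    simp only [state]
    simp [bit]
  | succ r ih =>
    have hr' : r ≤ n := by omega
    have hmod : r % n = r := Nat.mod_eq_of_lt (by omega)
    have hs : (state (bit n B b hn) H G (r + 1) u).2 =
        ((state (bit n B b hn) H G r u).2 ||
          decide (∃ w i, (⟨r % n, Nat.mod_lt _ hn⟩ : Fin n) ∈ (state (bit n B b hn) H G r u).1 ∧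
            w ∈ (state (bit n B b hn) H G r u).1 ∧
            (if G.Adj w u then (bit n B b hn).send r (state (bit n B b hn) H G r w) u
              else fun _ => false) i = true)) := by
      rfl
    rw [hs, Bool.or_eq_true, ih hr', decide_eq_true_eq, bit_fst]
    have hsend : ∀ w, (bit n B b hn).send r (state (bit n B b hn) H G r w) u =
        fun _ => decide ((⟨r % n, Nat.mod_lt _ hn⟩ : Fin n) ∈ nbr G w) := by
      intro w
      have : (bit n B b hn).send r (state (bit n B b hn) H G r w) u =
        fun _ => decide ((⟨r % n, Nat.mod_lt _ hn⟩ : Fin n) ∈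
          (state (bit n B b hn) H G r w).1) := rfl
      rw [this, bit_fst]
    simp only [hsend, nbr, Finset.mem_filter, Finset.mem_univ, true_and]
    constructor
    · rintro (⟨w, i, h1, h2, h3, h4⟩ | ⟨w, i, h1, h2, h3⟩)
      · exact ⟨w, i, h1, h2, h3, by omega⟩
      · rw [if_pos h2.symm, decide_eq_true_eq] at h3
        exact ⟨w, _, h1, h2, h3, by simp [hmod]⟩
    · rintro ⟨w, i, h1, h2, h3, h4⟩
      by_cases h : (i : ℕ) < r
      · exact Or.inl ⟨w, i, h1, h2, h3, h⟩
      · right
        have hi : (⟨r % n, Nat.mod_lt _ hn⟩ : Fin n) = i := by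
          apply Fin.ext
          simp only [hmod]
          omega
        refine ⟨w, ⟨0, hB⟩, by rw [hi]; exact h1, h2, ?_⟩
        rw [if_pos h2.symm, decide_eq_true_eq, hi]
        exact h3

theorem bit_correct (n B b : ℕ) (hn : 0 < n) (hB : 0 < B) (H : Net n)
    (G : SimpleGraph (Fin n)) : Correct (bit n B b hn) H G := by
  classical
  have hd : ∀ u, decision (bit n B b hn) H G n u = some (state (bit n B b hn) H G n u).2 := by
    intro u
    simp [decision, bit]
  refine ⟨n, ?_, ?_, ?_⟩
  · intro u
    rw [hd]
    simp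
  · intro r hr
    exact ⟨⟨0, hn⟩, by simp [decision, bit, hr]⟩
  · simp only [hd, Option.some.injEq]
    simp only [bit_snd n B b hn hB H G n le_rfl]
    constructor
    · rintro ⟨u, w, i, h1, h2, h3, -⟩ hf
      exact hf {u, w, i} (by
        rw [SimpleGraph.is3Clique_triple_iff]
        exact ⟨h2, h1, h3⟩)
    · intro h
      unfold SimpleGraph.CliqueFree at h
      push Not at h
      obtain ⟨t, ht⟩ := h
      rw [SimpleGraph.is3Clique_iff] at ht
      obtain ⟨a, b', c, hab, hac, hbc, -⟩ := ht
      exact ⟨a, b', c, hac, hab, hbc, c.2⟩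

/-- The hypotheses of the theorem hold for a real machine with messages of any `B ≥ 1` bits. -/
theorem bit_sat (n B b : ℕ) (hn : 0 < n) (hB : 0 < B) (H : Net n) :
    DetectsTriangles (Measure.dirac ()) (fun _ : Unit => bit n B b hn) H ∧
    ExpectedTimeLE (Measure.dirac ()) (fun _ : Unit => bit n B b hn) H (2 * n * n) ∧
    ExpectedChangesLE (Measure.dirac ()) (fun _ : Unit => bit n B b hn) H 0 := by
  classical
  refine ⟨?_, ?_, ?_⟩
  · intro G hG
    refine ⟨fun r u x => trivial, fun r a x => trivial, ?_⟩
    have : {ω : Unit | Correct (bit n B b hn) H G} = Set.univ := by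
      ext ω
      simp [bit_correct n B b hn hB H G]
    rw [this]
    simp
    rw [ENNReal.div_le_iff (by simp) (by simp)]
    norm_num
  · intro G hG m
    have h1 : ∀ r ∈ Finset.range m,
        ((Measure.dirac ()) {ω : Unit | Running (bit n B b hn) H G r}).toReal ≤
          if r < n then (1:ℝ) else 0 := by
      intro r _
      by_cases h : r < n
      · rw [if_pos h]
        exact ENNReal.toReal_mono (b := 1) (by simp) prob_le_one
      · rw [if_neg h]
        have : {ω : Unit | Running (bit n B b hn) H G r} = ∅ := by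
          ext ω
          simp only [Set.mem_ofPred_eq, Set.mem_empty_iff_false, iff_false]
          intro hr
          obtain ⟨u, hu⟩ := hr n (by omega)
          simp [decision, bit] at hu
        simp [this]
    have h2 := Finset.sum_le_sum h1
    have h3 : ∑ r ∈ Finset.range m, (if r < n then (1:ℝ) else 0) ≤ n := by
      rw [← Finset.sum_filter, Finset.sum_const, nsmul_eq_mul, mul_one]
      have : ((Finset.range m).filter (fun r => r < n)).card ≤ (Finset.range n).card := by
        apply Finset.card_le_card
        intro r hr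
        simp only [Finset.mem_filter, Finset.mem_range] at hr ⊢
        exact hr.2
      rw [Finset.card_range] at this
      exact_mod_cast this
    have h4 : (G.edgeSet.ncard : ℝ) ≤ n := by exact_mod_cast hG
    have h5 : 0 ≤ ∑ r ∈ Finset.range m,
        ((Measure.dirac ()) {ω : Unit | Running (bit n B b hn) H G r}).toReal :=
      Finset.sum_nonneg (fun _ _ => ENNReal.toReal_nonneg)
    calc _ ≤ ((n:ℝ) + n) * n := by
          apply mul_le_mul (by linarith) (h2.trans h3) h5 (by positivity)
      _ = 2 * n * n := by ring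
  · intro G hG m
    apply le_of_eq
    apply Finset.sum_eq_zero
    intro r _
    apply Finset.sum_eq_zero
    intro a _
    have : {ω : Unit | Running (bit n B b hn) H G r ∧ mem (bit n B b hn) H G r a ≠ ⊥} = ∅ := by
      ext ω
      simp only [Set.mem_ofPred_eq, Set.mem_empty_iff_false, iff_false, not_and, not_not]
      intro _
      simp [mem, bit]
    simp [this]

/-- The claimed bound at `B = 1`, `d = 0`, `J = 0` is superlinear. -/
theorem superlinear (c K : ℝ) (hc : 0 < c) (b : ℕ) : ∀ᶠ s : ℕ in atTop,
    K * s < c * (s * Real.log (s / (1 + (0:ℝ) * (b + Real.log s))) /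
      Real.log (((1:ℕ):ℝ) + ((0:ℕ):ℝ) + Real.log s)) := by
  have h1 : Tendsto (fun x : ℝ => x / Real.log (1 + x)) atTop atTop := by
    have h2 : Tendsto (fun x : ℝ => Real.log (1 + x) / x) atTop (nhds 0) := by
      have h3 := Real.isLittleO_log_id_atTop
      have h4 : Tendsto (fun x : ℝ => 1 + x) atTop atTop :=
        tendsto_atTop_add_const_left _ _ tendsto_id
      have h5 := (h3.comp_tendsto h4).tendsto_div_nhds_zero
      have h6 : Tendsto (fun x : ℝ => (1 + x) / x) atTop (nhds 1) := by
        have : Tendsto (fun x : ℝ => x⁻¹ + 1) atTop (nhds (0 + 1)) :=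
          tendsto_inv_atTop_zero.add_const _
        rw [zero_add] at this
        refine this.congr' ?_
        filter_upwards [eventually_gt_atTop 0] with x hx
        field_simp
      have h7 := h5.mul h6
      rw [zero_mul] at h7
      refine h7.congr' ?_
      filter_upwards [eventually_gt_atTop 0] with x hx
      simp only [Function.comp, id]
      field_simp
    have h8 : Tendsto (fun x : ℝ => (Real.log (1 + x) / x)⁻¹) atTop atTop := by
      apply Tendsto.inv_tendsto_nhdsGT_zero
      rw [tendsto_nhdsWithin_iff]
      refine ⟨h2, ?_⟩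
      filter_upwards [eventually_gt_atTop 0] with x hx
      exact div_pos (Real.log_pos (by linarith)) hx
    refine h8.congr fun x => ?_
    rw [inv_div]
  have h9 : Tendsto (fun s : ℕ => Real.log (s : ℝ)) atTop atTop :=
    Real.tendsto_log_atTop.comp tendsto_natCast_atTop_atTop
  have h10 := (h1.comp h9).eventually_gt_atTop (K / c)
  filter_upwards [h10, eventually_gt_atTop 0] with s hs hs0
  have hs0' : (0:ℝ) < s := by exact_mod_cast hs0
  simp only [Function.comp] at hs
  rw [div_lt_iff₀ hc] at hs
  have h11 : (s:ℝ) / (1 + 0 * (b + Real.log s)) = s := by simp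
  rw [h11]
  simp only [Nat.cast_one, Nat.cast_zero, add_zero]
  calc K * s < (Real.log s / Real.log (1 + Real.log s) * c) * s :=
        mul_lt_mul_of_pos_right hs hs0'
    _ = _ := by ring

/-- The theorem at `B = 1`, `d = 0` (no network), `J = 0`: for every `K` and all large `n` the time
`K n` is impossible, for all random machines, and some machine works in time `2 n ^ 2`. -/
theorem nontrivial (K : ℝ) (b : ℕ) : ∀ᶠ n : ℕ in atTop,
    (∀ (Q Ω : Type) [MeasurableSpace Ω] (μ : Measure Ω) [IsProbabilityMeasure μ]
      (M : Ω → Machine n 1 b Q) (H : Net n), DegLE H 0 → DetectsTriangles μ M H →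
      ExpectedChangesLE μ M H 0 → ¬ ExpectedTimeLE μ M H (K * n)) ∧
    (∃ (Q Ω : Type) (_ : MeasurableSpace Ω) (μ : Measure Ω) (_ : IsProbabilityMeasure μ)
      (M : Ω → Machine n 1 b Q) (H : Net n), DegLE H 0 ∧ DetectsTriangles μ M H ∧
      ExpectedChangesLE μ M H 0 ∧ ExpectedTimeLE μ M H (2 * n * n)) := by
  obtain ⟨c, hc, s₀, h⟩ := Pool.Agent.HYB.main
  filter_upwards [superlinear c K hc b, eventually_ge_atTop s₀, eventually_gt_atTop 0] with
    n hn hn0 hn1
  refine ⟨?_, ?_⟩
  · intro Q Ω _ μ _ M H hH hD hJ hT
    have := h n n 1 b 0 hn0 le_rfl (by omega) Q Ω μ M H (K * n) 0 hH hD hT hJ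
    exact absurd hn (not_lt.2 this)
  · obtain ⟨h1, h2, h3⟩ := bit_sat n 1 b hn1 one_pos (fun _ _ => ∅)
    refine ⟨_, _, inferInstance, Measure.dirac (), inferInstance, _, fun _ _ => ∅, ?_, h1, h3, h2⟩
    intro r u
    simp

end Pool.Agent.VAC2.HybridMachine
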