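import Pool.Agent.VAC2.MP_ad5e8e_lc_ListHeads
import Pool.Agent.HLP.All

/-!
# Certificate for MP_ad5e8e_lc.LinkedLists (vacuity audit)

* `sat_small`: for all degrees `d` with a nonempty tape, all `k ≥ 1` and all `S` with
  `4 (v + 1) ^ 2 ≤ 2 ^ S` the machine of the certificate of ListHeads satisfies the hypotheses, with
  `T = 3 L ^ 3 k f(L)`, `L` the length of the tape.
* `sat_linear`: for all degrees `d` with a nonempty tape, all `k ≥ 1` and all large `S` a machine
  that reads the tape once satisfies the hypotheses with `T = L`, for every seek cost.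
* `applied`: the theorem applied to the first machine.
-/

set_option autoImplicit false

open MeasureTheory

namespace Pool.Agent.VAC2.LinkedLists

open Pool.Agent.HDL
open Pool.Agent.VAC2.ListHeads

lemma dist_le {L k : ℕ} {Q : Type} (A : Set ℕ) (c : Conf L k Q) (p D : ℕ) (h : Fin k)
    (h1 : p ≤ c.2 h + D) (h2 : (c.2 h : ℕ) ≤ p + D) : Pool.Agent.HLP.dist A c p ≤ D :=
  Nat.sInf_le (Or.inl ⟨h, h1, h2⟩)

lemma moveCost_le {f : ℕ → ℝ} (hf : SeekCost f) {D E : ℕ} (h : D ≤ E) (hE : 1 ≤ E) :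
    Pool.Agent.HLP.moveCost f D ≤ f E := by
  unfold Pool.Agent.HLP.moveCost
  split_ifs
  · have h1 := hf.2.1 hE
    rw [hf.1] at h1
    linarith
  · exact hf.2.1 h

lemma moveCost_nonneg {f : ℕ → ℝ} (hf : SeekCost f) (D : ℕ) :
    0 ≤ Pool.Agent.HLP.moveCost f D := by
  unfold Pool.Agent.HLP.moveCost
  split_ifs with h
  · exact le_rfl
  · have h1 := hf.2.1 (show 1 ≤ D by omega)
    rw [hf.1] at h1
    linarith

lemma sum_cost_le {m N : ℕ} {g : ℕ → ℝ} {B : ℝ} (hB : 0 ≤ B) (h1 : ∀ t, g t ≤ B)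
    (h2 : ∀ t, N ≤ t → g t ≤ 0) : ∑ t ∈ Finset.range m, g t ≤ N * B := by
  have h3 : ∀ t, g t ≤ if t < N then B else 0 := by
    intro t
    split_ifs with ht
    · exact h1 t
    · exact h2 t (not_lt.1 ht)
  refine (Finset.sum_le_sum fun t _ => h3 t).trans ?_
  rw [← Finset.sum_filter, Finset.sum_const, nsmul_eq_mul]
  refine mul_le_mul_of_nonneg_right ?_ hB
  have h2 : ((Finset.range m).filter fun t => t < N).card ≤ N := by
    calc _ ≤ (Finset.range N).card := by
          refine Finset.card_le_card fun t ht => ?_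
          rw [Finset.mem_filter] at ht
          exact Finset.mem_range.2 ht.2
      _ = _ := Finset.card_range _
  exact_mod_cast h2

section
variable {n : ℕ} (d : Fin n → ℕ) (hL : 0 < ∑ v, d v) {k : ℕ} (i0 : Fin k)

lemma cost_scan (ra : Bool) {f : ℕ → ℝ} (hf : SeekCost f) :
    Pool.Agent.HLP.ExpectedCostLE (scan d hL i0) (Measure.dirac ()) ra f
      (3 * ((∑ v, d v : ℕ) : ℝ) ^ 3 * (k * f (∑ v, d v))) := by
  intro G hG m
  have hfL : 1 ≤ f (∑ v, d v) := by
    have h1 := hf.2.1 (show 1 ≤ ∑ v, d v from hL)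
    rwa [hf.1] at h1
  have hk : (1 : ℝ) ≤ k := by
    have : 1 ≤ k := i0.pos
    exact_mod_cast this
  have hkf : 1 ≤ (k : ℝ) * f (∑ v, d v) := by nlinarith
  have h := sum_cost_le (m := m) (N := 3 * (∑ v, d v) ^ 3) (B := k * f (∑ v, d v))
    (g := fun t => ∫ ω, Pool.Agent.HLP.cost (scan d hL i0) (Pool.Agent.HLP.places ra d) f ω
      (tape d G) t ∂(Measure.dirac ())) (by linarith) ?_ ?_
  · refine h.trans (le_of_eq ?_)
    push_cast
    ring
  · intro t
    rw [integral_dirac]
    unfold Pool.Agent.HLP.cost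
    split_ifs
    · linarith
    · refine max_le hkf ?_
      calc _ ≤ ∑ _h : Fin k, f (∑ v, d v) := by
            refine Finset.sum_le_sum fun h _ => moveCost_le hf (dist_le _ _ _ _ h ?_ ?_) hL
            · have := (((scan d hL i0).run () (tape d G) (t + 1)).2 h).2
              omega
            · have := (((scan d hL i0).run () (tape d G) t).2 h).2
              omega
        _ = _ := by simp
  · intro t ht
    rw [integral_dirac]
    unfold Pool.Agent.HLP.cost
    rw [if_pos]
    obtain ⟨j, rfl⟩ := Nat.exists_eq_add_of_le ht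
    rw [run_end]
    obtain ⟨a, b, h⟩ := run3 d hL i0 (tape d G) _ le_rfl
    rw [h]
    simp [scan]

/-! ### Reading the tape once -/

/-- the triangle test on the contents of the tape -/
def tri (τ : Fin (∑ v, d v) → Option (Fin n)) : Prop :=
  ∃ p q r : Fin (∑ v, d v), owner d p = owner d q ∧ τ p = some (owner d r) ∧ τ q ≠ none ∧ τ q = τ r

lemma tri_iff {G : SimpleGraph (Fin n)} (hG : HasDegrees G d) :
    tri d (tape d G) ↔ ¬ G.CliqueFree 3 := by
  constructor
  · rintro ⟨p, q, r, h1, h2, h3, h4⟩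
    obtain ⟨w, hw⟩ := Option.ne_none_iff_exists'.1 h3
    have a1 := adj_of_tape hG h2
    have a2 := adj_of_tape hG hw
    rw [hw] at h4
    have a3 := adj_of_tape hG h4.symm
    rw [← h1] at a2
    intro hfree
    exact hfree {owner d p, owner d r, w} (SimpleGraph.is3Clique_iff.2 ⟨_, _, _, a1, a2, a3, rfl⟩)
  · intro h
    unfold SimpleGraph.CliqueFree at h
    push Not at h
    obtain ⟨s, hs⟩ := h
    obtain ⟨u, v, w, huv, huw, hvw, -⟩ := SimpleGraph.is3Clique_iff.1 hs
    obtain ⟨p, hp1, hp2⟩ := tape_of_adj hG huv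
    obtain ⟨q, hq1, hq2⟩ := tape_of_adj hG huw
    obtain ⟨r, hr1, hr2⟩ := tape_of_adj hG hvw
    exact ⟨p, q, r, by rw [hp1, hq1], by rw [hp2, hr1], by rw [hq2]; simp, by rw [hq2, hr2]⟩

open Classical in
/-- the machine that reads the tape once -/
noncomputable def full :
    LMachine d k ((Fin (∑ v, d v) → Option (Fin n)) × Fin (∑ v, d v + 1)) Unit where
  start := fun _ => ((fun _ => none, 0), fun _ => ⟨0, hL⟩)
  step := fun _ t c x =>
    ((fun p => if (p : ℕ) = t then x i0 else c.1.1 p, ⟨min (t + 1) (∑ v, d v), by omega⟩),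
      fun h => if h = i0 then ⟨min (t + 1) (∑ v, d v - 1), by omega⟩ else ⟨0, hL⟩)
  answer := fun c => if (c.1.2 : ℕ) = ∑ v, d v then some (decide (tri d c.1.1)) else none

/-- the configuration at time `t` -/
def cfg (τ : Fin (∑ v, d v) → Option (Fin n)) (t : ℕ) (ht : t ≤ ∑ v, d v) :
    Conf (∑ v, d v) k ((Fin (∑ v, d v) → Option (Fin n)) × Fin (∑ v, d v + 1)) :=
  ((fun p => if (p : ℕ) < t then τ p else none, ⟨t, by omega⟩),
    fun h => if h = i0 then ⟨min t (∑ v, d v - 1), by omega⟩ else ⟨0, hL⟩)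

lemma run_full (τ : Fin (∑ v, d v) → Option (Fin n)) (t : ℕ) (ht : t ≤ ∑ v, d v) :
    (full d hL i0).run () τ t = cfg d hL i0 τ t ht := by
  induction t with
  | zero =>
    show (full d hL i0).start () = _
    unfold full cfg
    refine Prod.ext (Prod.ext ?_ rfl) ?_
    · funext p
      simp
    · funext h
      simp
  | succ t ih =>
    have ih' := ih (by omega)
    have h0 : (full d hL i0).answer ((full d hL i0).run () τ t) = none := by
      rw [ih']
      show (if (cfg d hL i0 τ t _).1.2.1 = ∑ v, d v then _ else none) = none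
      rw [if_neg]
      show t ≠ ∑ v, d v
      omega
    rw [Machine.run, h0]
    simp only [Option.isSome_none, Bool.false_eq_true, if_false]
    rw [ih']
    unfold full cfg
    refine Prod.ext (Prod.ext ?_ ?_) rfl
    · funext p
      simp only [if_true]
      split_ifs with h1 h2 h3 h4
      · congr 1
        apply Fin.ext
        show min t (∑ v, d v - 1) = p
        omega
      · omega
      · rfl
      · omega
      · omega
      · rfl
    · apply Fin.ext
      show min (t + 1) (∑ v, d v) = t + 1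
      omega

lemma answer_full {G : SimpleGraph (Fin n)} (hG : HasDegrees G d) :
    ∃ b, (full d hL i0).answer ((full d hL i0).run () (tape d G) (∑ v, d v)) = some b ∧
      (b = true ↔ ¬ G.CliqueFree 3) := by
  classical
  rw [run_full d hL i0 _ _ le_rfl]
  have h1 : (fun p : Fin (∑ v, d v) => if (p : ℕ) < ∑ v, d v then tape d G p else none)
      = tape d G := by
    funext p
    rw [if_pos p.2]
  unfold full cfg
  simp only [if_true]
  refine ⟨_, rfl, ?_⟩
  rw [decide_eq_true_eq, h1]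
  exact tri_iff d hG

lemma run_full_end (τ : Fin (∑ v, d v) → Option (Fin n)) (t : ℕ) :
    (full d hL i0).run () τ (∑ v, d v + t) = (full d hL i0).run () τ (∑ v, d v) := by
  induction t with
  | zero => rfl
  | succ t ih =>
    rw [← add_assoc, Machine.run, if_pos, ih]
    rw [ih, run_full d hL i0 _ _ le_rfl]
    unfold full cfg
    simp

lemma detects_full : DetectsTriangles (full d hL i0) (Measure.dirac ()) := by
  refine ⟨fun G _ t c => MeasurableSet.of_discrete, fun G hG => ?_⟩
  have : {ω : Unit | ∃ t b, (full d hL i0).answer ((full d hL i0).run ω (tape d G) t) = some b ∧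
      (b = true ↔ ¬ G.CliqueFree 3)} = Set.univ := by
    rw [Set.eq_univ_iff_forall]
    rintro ⟨⟩
    exact ⟨_, answer_full d hL i0 hG⟩
  rw [this]
  simp
  norm_num

lemma cost_full (ra : Bool) {f : ℕ → ℝ} (hf : SeekCost f) :
    Pool.Agent.HLP.ExpectedCostLE (full d hL i0) (Measure.dirac ()) ra f
      ((∑ v, d v : ℕ) : ℝ) := by
  intro G hG m
  have hlt : ∀ t, t < ∑ v, d v → Pool.Agent.HLP.cost (full d hL i0) (Pool.Agent.HLP.places ra d) f ()
      (tape d G) t ≤ 1 := by
    intro t ht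
    unfold Pool.Agent.HLP.cost
    split_ifs
    · norm_num
    · refine max_le le_rfl ?_
      rw [Finset.sum_eq_single i0]
      · rw [← hf.1]
        refine moveCost_le hf (dist_le _ _ _ _ i0 ?_ ?_) le_rfl
        · rw [run_full d hL i0 _ _ ht, run_full d hL i0 _ _ ht.le]
          simp only [cfg, if_true]
          omega
        · rw [run_full d hL i0 _ _ ht, run_full d hL i0 _ _ ht.le]
          simp only [cfg, if_true]
          omega
      · intro h _ hh
        have : Pool.Agent.HLP.dist (Pool.Agent.HLP.places ra d)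
            ((full d hL i0).run () (tape d G) t)
            (((full d hL i0).run () (tape d G) (t + 1)).2 h) ≤ 0 := by
          refine dist_le _ _ _ _ h ?_ ?_
          · rw [run_full d hL i0 _ _ ht, run_full d hL i0 _ _ ht.le]
            simp only [cfg, hh, if_false]
            omega
          · rw [run_full d hL i0 _ _ ht, run_full d hL i0 _ _ ht.le]
            simp only [cfg, hh, if_false]
            omega
        unfold Pool.Agent.HLP.moveCost
        rw [if_pos (Nat.le_zero.1 this)]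
      · intro h
        exact absurd (Finset.mem_univ _) h
  have hge : ∀ t, ∑ v, d v ≤ t → Pool.Agent.HLP.cost (full d hL i0) (Pool.Agent.HLP.places ra d) f ()
      (tape d G) t = 0 := by
    intro t ht
    unfold Pool.Agent.HLP.cost
    rw [if_pos]
    obtain ⟨j, rfl⟩ := Nat.exists_eq_add_of_le ht
    rw [run_full_end]
    obtain ⟨b, hb, -⟩ := answer_full d hL i0 hG
    rw [hb]
    rfl
  have h := sum_cost_le (m := m) (N := ∑ v, d v) (B := 1)
    (g := fun t => ∫ ω, Pool.Agent.HLP.cost (full d hL i0) (Pool.Agent.HLP.places ra d) f ω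
      (tape d G) t ∂(Measure.dirac ())) zero_le_one ?_ ?_
  · rwa [mul_one] at h
  · intro t
    rw [integral_dirac]
    rcases Nat.lt_or_ge t (∑ v, d v) with h1 | h1
    · exact hlt t h1
    · rw [hge t h1]
      norm_num
  · intro t ht
    rw [integral_dirac, hge t ht]

end

/-- the hypotheses can be satisfied with memory of `O(log v)` bits -/
theorem sat_small {v : ℕ} (d : Fin v → ℕ) (hL : 0 < ∑ i, d i) {k S : ℕ} (hk : 1 ≤ k)
    (hS : 4 * (v + 1) ^ 2 ≤ 2 ^ S) :
    ∃ (Q : Type) (_ : Fintype Q), Fintype.card Q ≤ 2 ^ S ∧ ∃ M : LMachine d k Q Unit,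
      DetectsTriangles M (Measure.dirac ()) ∧ ∀ f : ℕ → ℝ, SeekCost f → ∀ ra : Bool,
        Pool.Agent.HLP.ExpectedCostLE M (Measure.dirac ()) ra f
          (3 * ((∑ i, d i : ℕ) : ℝ) ^ 3 * (k * f (∑ i, d i))) := by
  refine ⟨Option (Fin v) × Option (Fin v) × Bool × Bool, inferInstance, ?_,
    scan d hL (⟨0, hk⟩ : Fin k), detects d hL _, fun f hf ra => cost_scan d hL _ ra hf⟩
  refine le_trans (le_of_eq ?_) hS
  simp only [Fintype.card_prod, Fintype.card_option, Fintype.card_fin, Fintype.card_bool]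
  ring

/-- the hypotheses can be satisfied with `T = ∑ d`, the length of the tape -/
theorem sat_linear {v : ℕ} (d : Fin v → ℕ) (hL : 0 < ∑ i, d i) {k S : ℕ} (hk : 1 ≤ k)
    (hS : (v + 1) ^ (∑ i, d i) * (∑ i, d i + 1) ≤ 2 ^ S) :
    ∃ (Q : Type) (_ : Fintype Q), Fintype.card Q ≤ 2 ^ S ∧ ∃ M : LMachine d k Q Unit,
      DetectsTriangles M (Measure.dirac ()) ∧ ∀ f : ℕ → ℝ, SeekCost f → ∀ ra : Bool,
        Pool.Agent.HLP.ExpectedCostLE M (Measure.dirac ()) ra f ((∑ i, d i : ℕ) : ℝ) := by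
  classical
  refine ⟨(Fin (∑ i, d i) → Option (Fin v)) × Fin (∑ i, d i + 1), inferInstance, ?_,
    full d hL (⟨0, hk⟩ : Fin k), detects_full d hL _, fun f hf ra => cost_full d hL _ ra hf⟩
  refine le_trans (le_of_eq ?_) hS
  simp only [Fintype.card_prod, Fintype.card_option, Fintype.card_fin, Fintype.card_fun]

/-- The theorem applied to the machine with small memory. -/
theorem applied : ∃ c : ℝ, 0 < c ∧ ∃ n0 : ℕ, ∀ n ≥ n0, ∀ m : ℕ, n ≤ m → m ≤ n ^ 2 →
    ∀ k S : ℕ, 1 ≤ k → ∀ ra : Bool, ∃ e : ℕ, e ≤ m ∧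
      c * m * Real.exp (-20 * √(Real.log (if ra then (m : ℝ) else m / n))) ≤ e ∧
      ∀ v ≥ n, 4 * (v + 1) ^ 2 ≤ 2 ^ S → ∃ d : Fin v → ℕ, ∑ i, d i = 2 * e ∧ 0 < ∑ i, d i ∧
        ∃ (Q : Type) (_ : Fintype Q), Fintype.card Q ≤ 2 ^ S ∧ ∃ M : LMachine d k Q Unit,
          DetectsTriangles M (Measure.dirac ()) ∧ ∀ f : ℕ → ℝ, SeekCost f →
            Pool.Agent.HLP.ExpectedCostLE M (Measure.dirac ()) ra f
              (3 * ((∑ i, d i : ℕ) : ℝ) ^ 3 * (k * f (∑ i, d i))) ∧
            ∀ D : ℕ, (k : ℝ) * D ^ 2 ≤ n * (S + k * Real.log n) →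
              (ra = true → (k : ℝ) * D ^ 3 ≤ m * (S + k * Real.log n)) →
              c * m * f D * Real.exp (-20 * √(Real.log (if ra then (m : ℝ) else m / n))) ≤
                (S + k * Real.log n) *
                  (3 * ((∑ i, d i : ℕ) : ℝ) ^ 3 * (k * f (∑ i, d i)) + k) := by
  obtain ⟨c, hc, n0, h⟩ := Pool.Agent.HLP.main
  refine ⟨c, hc, n0, fun n hn m h1 h2 k S hk ra => ?_⟩
  obtain ⟨e, he1, he2, h3⟩ := h n hn m h1 h2 k S hk ra
  refine ⟨e, he1, he2, fun v hv hS => ?_⟩
  obtain ⟨d, hd, ⟨G, H, hG, hH, hGt, hHt⟩, h5⟩ := h3 v hv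
  have hpos := pos_of_triangle hG hGt
  obtain ⟨Q, hQ, hcard, M, hM, hcost⟩ := sat_small d hpos (S := S) hk hS
  exact ⟨d, hd, hpos, Q, hQ, hcard, M, hM, fun f hf => ⟨hcost f hf ra, fun D hD hD2 =>
    h5 f hf D hD hD2 _ Q Unit (Measure.dirac ()) hcard M hM (hcost f hf ra)⟩⟩

end Pool.Agent.VAC2.LinkedLists
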