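import Pool.Agent.HDL.All

/-!
# Certificate for MP_ad5e8e_lc.ListHeads (vacuity audit)

* `pos_of_triangle`: degrees of a graph with a triangle have a positive sum (the tape is nonempty).
* `sat`: for all degrees `d` with a nonempty tape, all `k ≥ 1` and all `S` with
  `4 (v + 1) ^ 2 ≤ 2 ^ S` (so `S` of the order `log v` suffices) an explicit machine with one moving
  head satisfies all hypotheses, with `T = 3 L ^ 3 f(L)`, `L` the length of the tape, for every seek
  cost `f`.
* `applied`: the theorem applied to this machine.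
-/

set_option autoImplicit false

open MeasureTheory

namespace Pool.Agent.VAC2.ListHeads

open Pool.Agent.HDL

/-! ### The lists and the owners of the cells -/

lemma zip_flatMap {α β γ : Type*} (l : List α) (f : α → List β) (g : α → List γ)
    (h : ∀ a ∈ l, (f a).length = (g a).length) :
    (l.flatMap f).zip (l.flatMap g) = l.flatMap fun a => (f a).zip (g a) := by
  induction l with
  | nil => rfl
  | cons a l ih =>
    rw [List.flatMap_cons, List.flatMap_cons, List.flatMap_cons,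
      List.zip_append (h a (by simp)), ih fun b hb => h b (List.mem_cons_of_mem _ hb)]

/-- the list of the owners of the cells -/
def owners {n : ℕ} (d : Fin n → ℕ) : List (Fin n) :=
  (List.finRange n).flatMap fun v => List.replicate (d v) v

lemma length_owners {n : ℕ} (d : Fin n → ℕ) : (owners d).length = ∑ v, d v := by
  unfold owners
  rw [List.length_flatMap, Fin.sum_univ_def]
  simp

lemma card_nbr {n : ℕ} {d : Fin n → ℕ} {G : SimpleGraph (Fin n)} (hG : HasDegrees G d)
    (v : Fin n) [Fintype (G.neighborSet v)] : (G.neighborFinset v).card = d v := by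
  rw [← hG v, Set.ncard_eq_toFinset_card', SimpleGraph.neighborFinset]

lemma length_lists {n : ℕ} {d : Fin n → ℕ} {G : SimpleGraph (Fin n)} (hG : HasDegrees G d) :
    (lists G).length = ∑ v, d v := by
  classical
  unfold lists
  rw [List.length_flatMap, Fin.sum_univ_def]
  congr 1
  refine List.map_congr_left fun v _ => ?_
  rw [Finset.length_sort, card_nbr hG]

lemma mem_zip {n : ℕ} {d : Fin n → ℕ} {G : SimpleGraph (Fin n)} (hG : HasDegrees G d)
    (u w : Fin n) : (u, w) ∈ (owners d).zip (lists G) ↔ G.Adj u w := by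
  classical
  unfold lists owners
  rw [zip_flatMap _ _ _ fun v _ => by
    rw [List.length_replicate, Finset.length_sort, card_nbr hG]]
  rw [List.mem_flatMap]
  constructor
  · rintro ⟨v, _, hv⟩
    have h1 := List.of_mem_zip hv
    have h2 : u = v := List.eq_of_mem_replicate h1.1
    have h3 := h1.2
    rw [Finset.mem_sort, SimpleGraph.mem_neighborFinset] at h3
    rw [h2]
    exact h3
  · intro h
    refine ⟨u, List.mem_finRange u, ?_⟩
    have h1 : w ∈ (G.neighborFinset u).sort (· ≤ ·) := by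
      rw [Finset.mem_sort, SimpleGraph.mem_neighborFinset]
      exact h
    obtain ⟨i, hi, hw⟩ := List.mem_iff_getElem.1 h1
    have hlen : (List.replicate (d u) u).length = ((G.neighborFinset u).sort (· ≤ ·)).length := by
      rw [List.length_replicate, Finset.length_sort, card_nbr hG]
    rw [List.mem_iff_getElem]
    refine ⟨i, by rw [List.length_zip, hlen, min_self]; exact hi, ?_⟩
    rw [List.getElem_zip, List.getElem_replicate, hw]

/-- the owner of a cell -/
def owner {n : ℕ} (d : Fin n → ℕ) (p : Fin (∑ v, d v)) : Fin n :=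
  (owners d)[(p : ℕ)]'(by rw [length_owners]; exact p.2)

lemma adj_of_tape {n : ℕ} {d : Fin n → ℕ} {G : SimpleGraph (Fin n)} (hG : HasDegrees G d)
    {p : Fin (∑ v, d v)} {w : Fin n} (h : tape d G p = some w) : G.Adj (owner d p) w := by
  rw [← mem_zip hG, List.mem_iff_getElem]
  have hp : (p : ℕ) < (lists G).length := by rw [length_lists hG]; exact p.2
  have hp2 : (p : ℕ) < (owners d).length := by rw [length_owners]; exact p.2
  refine ⟨p, by rw [List.length_zip]; exact lt_min hp2 hp, ?_⟩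
  rw [List.getElem_zip]
  unfold tape at h
  rw [List.getElem?_eq_getElem hp, Option.some.injEq] at h
  rw [h]
  rfl

lemma tape_of_adj {n : ℕ} {d : Fin n → ℕ} {G : SimpleGraph (Fin n)} (hG : HasDegrees G d)
    {u w : Fin n} (h : G.Adj u w) : ∃ p : Fin (∑ v, d v), owner d p = u ∧ tape d G p = some w := by
  rw [← mem_zip hG, List.mem_iff_getElem] at h
  obtain ⟨i, hi, hx⟩ := h
  rw [List.length_zip, length_owners, length_lists hG, min_self] at hi
  rw [List.getElem_zip, Prod.mk.injEq] at hx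
  refine ⟨⟨i, hi⟩, hx.1, ?_⟩
  unfold tape
  have hp : i < (lists G).length := by rw [length_lists hG]; exact hi
  show (lists G)[i]? = some w
  rw [List.getElem?_eq_getElem hp, hx.2]

theorem pos_of_triangle {n : ℕ} {d : Fin n → ℕ} {G : SimpleGraph (Fin n)} (hG : HasDegrees G d)
    (h : ¬ G.CliqueFree 3) : 0 < ∑ v, d v := by
  unfold SimpleGraph.CliqueFree at h
  push Not at h
  obtain ⟨s, hs⟩ := h
  obtain ⟨a, b, c, hab, -, -, -⟩ := SimpleGraph.is3Clique_iff.1 hs
  obtain ⟨p, -⟩ := tape_of_adj hG hab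
  exact p.pos

/-! ### The machine -/

lemma index_num (L p q r : ℕ) (hp : p < L) (hq : q < L) (hr : r < L) :
    p + L * (q + L * r) < L ^ 3 ∧ (p + L * (q + L * r)) % L = p ∧
      (p + L * (q + L * r)) / L % L = q ∧ (p + L * (q + L * r)) / L / L % L = r := by
  have hL' : 0 < L := by omega
  have k1 : (p + L * (q + L * r)) / L = q + L * r := by
    rw [Nat.add_mul_div_left _ _ hL', Nat.div_eq_of_lt hp, zero_add]
  have k2 : (q + L * r) / L = r := by
    rw [Nat.add_mul_div_left _ _ hL', Nat.div_eq_of_lt hq, zero_add]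
  refine ⟨?_, ?_, ?_, ?_⟩
  · have h3 : r + 1 ≤ L := hr
    calc p + L * (q + L * r) < L + L * (q + L * r) := by omega
      _ = L * (q + 1 + L * r) := by ring
      _ ≤ L * (L + L * r) := Nat.mul_le_mul_left _ (by omega)
      _ = L * (L * (r + 1)) := by ring
      _ ≤ L * (L * L) := Nat.mul_le_mul_left _ (Nat.mul_le_mul_left _ h3)
      _ = L ^ 3 := by ring
  · rw [Nat.add_mul_mod_self_left, Nat.mod_eq_of_lt hp]
  · rw [k1, Nat.add_mul_mod_self_left, Nat.mod_eq_of_lt hq]
  · rw [k1, k2, Nat.mod_eq_of_lt hr]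

section
variable {n : ℕ} (d : Fin n → ℕ) (hL : 0 < ∑ v, d v) {k : ℕ} (i0 : Fin k)

/-- the cell visited at time `t` -/
def pos (t : ℕ) : Fin (∑ v, d v) :=
  if t % 3 = 0 then ⟨(t / 3) % (∑ v, d v), Nat.mod_lt _ hL⟩
  else if t % 3 = 1 then ⟨(t / 3 / (∑ v, d v)) % (∑ v, d v), Nat.mod_lt _ hL⟩
  else ⟨(t / 3 / (∑ v, d v) / (∑ v, d v)) % (∑ v, d v), Nat.mod_lt _ hL⟩

/-- the test for the `i`-th triple of cells, which contain `a`, `b`, `x` -/
def check (i : ℕ) (a b x : Option (Fin n)) : Bool :=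
  decide (owner d (pos d hL (3 * i)) = owner d (pos d hL (3 * i + 1)) ∧
    a = some (owner d (pos d hL (3 * i + 2))) ∧ b ≠ none ∧ b = x)

/-- the machine -/
def scan : LMachine d k (Option (Fin n) × Option (Fin n) × Bool × Bool) Unit where
  start := fun _ => ((none, none, false, false), fun _ => pos d hL 0)
  step := fun _ t c x =>
    ((if t % 3 = 0 then x i0 else c.1.1, if t % 3 = 1 then x i0 else c.1.2.1,
      if t % 3 = 2 then c.1.2.2.1 || check d hL (t / 3) c.1.1 c.1.2.1 (x i0) else c.1.2.2.1,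
      decide (3 * (∑ v, d v) ^ 3 ≤ t + 1)), fun _ => pos d hL (t + 1))
  answer := fun c => if c.1.2.2.2 then some c.1.2.2.1 else none

/-- the outcome of the `i`-th test on the tape `τ` -/
def chk (τ : Fin (∑ v, d v) → Option (Fin n)) (i : ℕ) : Bool :=
  check d hL i (τ (pos d hL (3 * i))) (τ (pos d hL (3 * i + 1))) (τ (pos d hL (3 * i + 2)))

lemma run_succ (τ : Fin (∑ v, d v) → Option (Fin n)) (t : ℕ)
    (h : ((scan d hL i0).run () τ t).1.2.2.2 = false) :
    (scan d hL i0).run () τ (t + 1) = (scan d hL i0).step () t ((scan d hL i0).run () τ t)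
      (fun h => τ (((scan d hL i0).run () τ t).2 h)) := by
  rw [Machine.run, if_neg]
  have : (scan d hL i0).answer ((scan d hL i0).run () τ t) = none := by
    show (if ((scan d hL i0).run () τ t).1.2.2.2 then some _ else none) = none
    rw [h]
    rfl
  rw [this]
  simp

lemma run3 (τ : Fin (∑ v, d v) → Option (Fin n)) (i : ℕ) (hi : i ≤ (∑ v, d v) ^ 3) :
    ∃ a b, (scan d hL i0).run () τ (3 * i) =
      ((a, b, decide (∃ j < i, chk d hL τ j = true), decide ((∑ v, d v) ^ 3 ≤ i)),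
        fun _ => pos d hL (3 * i)) := by
  induction i with
  | zero =>
    refine ⟨none, none, ?_⟩
    have h3 : ¬ (∑ v, d v) ^ 3 ≤ 0 := by
      have := pow_pos hL 3
      omega
    simp [Machine.run, scan, h3]
  | succ i ih =>
    obtain ⟨a, b, hr⟩ := ih (by omega)
    have h0 : decide ((∑ v, d v) ^ 3 ≤ i) = false := by
      rw [decide_eq_false_iff_not]; omega
    rw [h0] at hr
    have r1 : (scan d hL i0).run () τ (3 * i + 1) =
        ((τ (pos d hL (3 * i)), b, decide (∃ j < i, chk d hL τ j = true), false),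
          fun _ => pos d hL (3 * i + 1)) := by
      rw [run_succ d hL i0 τ _ (by rw [hr]), hr]
      have m0 : (3 * i) % 3 = 0 := by omega
      have m1 : ¬ 3 * (∑ v, d v) ^ 3 ≤ 3 * i + 1 := by omega
      simp [scan, m1]
    have r2 : (scan d hL i0).run () τ (3 * i + 2) =
        ((τ (pos d hL (3 * i)), τ (pos d hL (3 * i + 1)),
          decide (∃ j < i, chk d hL τ j = true), false), fun _ => pos d hL (3 * i + 2)) := by
      rw [show 3 * i + 2 = 3 * i + 1 + 1 by ring, run_succ d hL i0 τ _ (by rw [r1]), r1]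
      have m0 : (3 * i + 1) % 3 = 1 := by omega
      have m1 : ¬ 3 * (∑ v, d v) ^ 3 ≤ 3 * i + 1 + 1 := by omega
      simp [scan, m0, m1]
    refine ⟨τ (pos d hL (3 * i)), τ (pos d hL (3 * i + 1)), ?_⟩
    rw [show 3 * (i + 1) = 3 * i + 2 + 1 by ring, run_succ d hL i0 τ _ (by rw [r2]), r2]
    have m0 : (3 * i + 2) % 3 = 2 := by omega
    have m1 : (3 * i + 2) / 3 = i := by omega
    have m2 : decide (3 * (∑ v, d v) ^ 3 ≤ 3 * i + 2 + 1) = decide ((∑ v, d v) ^ 3 ≤ i + 1) := by
      rw [decide_eq_decide]; omega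
    have m3 : (decide (∃ j < i, chk d hL τ j = true) || chk d hL τ i)
        = decide (∃ j < i + 1, chk d hL τ j = true) := by
      rw [Bool.eq_iff_iff, Bool.or_eq_true, decide_eq_true_eq, decide_eq_true_eq]
      constructor
      · rintro (⟨j, hj, hc⟩ | hc)
        · exact ⟨j, by omega, hc⟩
        · exact ⟨i, by omega, hc⟩
      · rintro ⟨j, hj, hc⟩
        rcases Nat.lt_succ_iff_lt_or_eq.1 hj with h | h
        · exact Or.inl ⟨j, h, hc⟩
        · exact Or.inr (h ▸ hc)
    rw [← m2, ← m3]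
    simp [scan, m0, m1, chk]

lemma exists_chk {G : SimpleGraph (Fin n)} (hG : HasDegrees G d) :
    (∃ j < (∑ v, d v) ^ 3, chk d hL (tape d G) j = true) ↔ ¬ G.CliqueFree 3 := by
  have e0 : ∀ j : ℕ, (3 * j) % 3 = 0 := fun j => by omega
  have e1 : ∀ j : ℕ, (3 * j + 1) % 3 = 1 := fun j => by omega
  have e2 : ∀ j : ℕ, (3 * j + 2) % 3 = 2 := fun j => by omega
  have f0 : ∀ j : ℕ, (3 * j) / 3 = j := fun j => by omega
  have f1 : ∀ j : ℕ, (3 * j + 1) / 3 = j := fun j => by omega
  have f2 : ∀ j : ℕ, (3 * j + 2) / 3 = j := fun j => by omega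
  constructor
  · rintro ⟨j, -, hj⟩
    unfold chk check at hj
    rw [decide_eq_true_eq] at hj
    obtain ⟨h1, h2, h3, h4⟩ := hj
    obtain ⟨w, hw⟩ := Option.ne_none_iff_exists'.1 h3
    have a1 := adj_of_tape hG h2
    have a2 := adj_of_tape hG hw
    rw [hw] at h4
    have a3 := adj_of_tape hG h4.symm
    rw [← h1] at a2
    intro hfree
    exact hfree {owner d (pos d hL (3 * j)), owner d (pos d hL (3 * j + 2)), w}
      (SimpleGraph.is3Clique_iff.2 ⟨_, _, _, a1, a2, a3, rfl⟩)
  · intro h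
    unfold SimpleGraph.CliqueFree at h
    push Not at h
    obtain ⟨s, hs⟩ := h
    obtain ⟨u, v, w, huv, huw, hvw, -⟩ := SimpleGraph.is3Clique_iff.1 hs
    obtain ⟨p, hp1, hp2⟩ := tape_of_adj hG huv
    obtain ⟨q, hq1, hq2⟩ := tape_of_adj hG huw
    obtain ⟨r, hr1, hr2⟩ := tape_of_adj hG hvw
    obtain ⟨k0, k1, k2, k3⟩ := index_num (∑ v, d v) p q r p.2 q.2 r.2
    refine ⟨p + (∑ v, d v) * (q + (∑ v, d v) * r), k0, ?_⟩
    · have g0 : pos d hL (3 * ((p : ℕ) + (∑ v, d v) * (q + (∑ v, d v) * r))) = p := by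
        unfold pos
        rw [if_pos (e0 _)]
        apply Fin.ext
        show _ % (∑ v, d v) = (p : ℕ)
        rw [f0, k1]
      have g1 : pos d hL (3 * ((p : ℕ) + (∑ v, d v) * (q + (∑ v, d v) * r)) + 1) = q := by
        unfold pos
        rw [if_neg (by rw [e1]; norm_num), if_pos (e1 _)]
        apply Fin.ext
        show _ % (∑ v, d v) = (q : ℕ)
        rw [f1, k2]
      have g2 : pos d hL (3 * ((p : ℕ) + (∑ v, d v) * (q + (∑ v, d v) * r)) + 2) = r := by
        unfold pos
        rw [if_neg (by rw [e2]; norm_num), if_neg (by rw [e2]; norm_num)]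
        apply Fin.ext
        show _ % (∑ v, d v) = (r : ℕ)
        rw [f2, k3]
      unfold chk check
      rw [g0, g1, g2, hp1, hq1, hr1, hp2, hq2, hr2]
      simp

lemma run_end (τ : Fin (∑ v, d v) → Option (Fin n)) (t : ℕ) :
    (scan d hL i0).run () τ (3 * (∑ v, d v) ^ 3 + t) =
      (scan d hL i0).run () τ (3 * (∑ v, d v) ^ 3) := by
  induction t with
  | zero => rfl
  | succ t ih =>
    rw [← add_assoc, Machine.run, if_pos, ih]
    rw [ih]
    obtain ⟨a, b, h⟩ := run3 d hL i0 τ _ le_rfl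
    rw [h]
    simp [scan]

lemma detects : DetectsTriangles (scan d hL i0) (Measure.dirac ()) := by
  refine ⟨fun G _ t c => MeasurableSet.of_discrete, fun G hG => ?_⟩
  have : {ω : Unit | ∃ t b, (scan d hL i0).answer ((scan d hL i0).run ω (tape d G) t) = some b ∧
      (b = true ↔ ¬ G.CliqueFree 3)} = Set.univ := by
    rw [Set.eq_univ_iff_forall]
    rintro ⟨⟩
    obtain ⟨a, b, h⟩ := run3 d hL i0 (tape d G) _ le_rfl
    refine ⟨3 * (∑ v, d v) ^ 3, decide (∃ j < (∑ v, d v) ^ 3, chk d hL (tape d G) j = true), ?_, ?_⟩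
    · rw [h]
      simp [scan]
    · rw [decide_eq_true_eq]
      exact exists_chk d hL hG
  rw [this]
  simp
  norm_num

lemma travel_le {L : ℕ} {Q : Type} (c c' : Conf L k Q) (hL' : 0 < L) : travel c c' ≤ L := by
  unfold travel
  refine max_le hL' (Finset.sup_le fun h _ => ?_)
  have h1 := (c.2 h).2
  have h2 := (c'.2 h).2
  omega

lemma cost {f : ℕ → ℝ} (hf : SeekCost f) :
    ExpectedCostLE (scan d hL i0) (Measure.dirac ()) f
      (3 * ((∑ v, d v : ℕ) : ℝ) ^ 3 * f (∑ v, d v)) := by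
  intro G hG m
  have hfL : 0 ≤ f (∑ v, d v) := by
    have h1 := hf.2.1 (show 1 ≤ ∑ v, d v from hL)
    rw [hf.1] at h1
    linarith
  have h1 : ∀ t, ∫ ω, (scan d hL i0).cost f ω (tape d G) t ∂(Measure.dirac ()) ≤
      if t < 3 * (∑ v, d v) ^ 3 then f (∑ v, d v) else 0 := by
    intro t
    rw [integral_dirac]
    unfold Machine.cost
    by_cases ht : t < 3 * (∑ v, d v) ^ 3
    · rw [if_pos ht]
      split_ifs
      · exact hfL
      · exact hf.2.1 (travel_le _ _ hL)
    · rw [if_neg ht, if_pos]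
      obtain ⟨j, rfl⟩ := Nat.exists_eq_add_of_le (not_lt.1 ht)
      rw [run_end]
      obtain ⟨a, b, h⟩ := run3 d hL i0 (tape d G) _ le_rfl
      rw [h]
      simp [scan]
  refine (Finset.sum_le_sum fun t _ => h1 t).trans ?_
  rw [← Finset.sum_filter, Finset.sum_const, nsmul_eq_mul]
  refine mul_le_mul_of_nonneg_right ?_ hfL
  have h2 : ((Finset.range m).filter fun t => t < 3 * (∑ v, d v) ^ 3).card ≤ 3 * (∑ v, d v) ^ 3 := by
    calc _ ≤ (Finset.range (3 * (∑ v, d v) ^ 3)).card := by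
          refine Finset.card_le_card fun t ht => ?_
          rw [Finset.mem_filter] at ht
          exact Finset.mem_range.2 ht.2
      _ = _ := Finset.card_range _
  exact_mod_cast h2

end

/-- **The hypotheses can be satisfied** for all degrees with a nonempty tape, all `k ≥ 1` and `S` of
the order `log v`. -/
theorem sat {v : ℕ} (d : Fin v → ℕ) (hL : 0 < ∑ i, d i) {k S : ℕ} (hk : 1 ≤ k)
    (hS : 4 * (v + 1) ^ 2 ≤ 2 ^ S) :
    ∃ (Q : Type) (_ : Fintype Q), Fintype.card Q ≤ 2 ^ S ∧ ∃ M : LMachine d k Q Unit,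
      DetectsTriangles M (Measure.dirac ()) ∧ ∀ f : ℕ → ℝ, SeekCost f →
        ExpectedCostLE M (Measure.dirac ()) f (3 * ((∑ i, d i : ℕ) : ℝ) ^ 3 * f (∑ i, d i)) := by
  refine ⟨Option (Fin v) × Option (Fin v) × Bool × Bool, inferInstance, ?_,
    scan d hL (⟨0, hk⟩ : Fin k), detects d hL _, fun f hf => cost d hL _ hf⟩
  refine le_trans (le_of_eq ?_) hS
  simp only [Fintype.card_prod, Fintype.card_option, Fintype.card_fin, Fintype.card_bool]
  ring

/-- The theorem applied to the machine. -/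
theorem applied : ∃ c : ℝ, 0 < c ∧ ∃ n0 : ℕ, ∀ n ≥ n0, ∀ m : ℕ, n ≤ m → m ≤ n ^ 2 →
    ∀ k S : ℕ, 1 ≤ k → 4 * (n + m + 1) ^ 2 ≤ 2 ^ S →
      ∃ (v : ℕ) (d : Fin v → ℕ), v + (∑ i, d i) / 2 = n + m ∧ 0 < ∑ i, d i ∧
        ∃ (Q : Type) (_ : Fintype Q), Fintype.card Q ≤ 2 ^ S ∧ ∃ M : LMachine d k Q Unit,
          DetectsTriangles M (Measure.dirac ()) ∧ ∀ f : ℕ → ℝ, SeekCost f →
            ExpectedCostLE M (Measure.dirac ()) f
              (3 * ((∑ i, d i : ℕ) : ℝ) ^ 3 * f (∑ i, d i)) ∧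
            ∀ D : ℕ, (k : ℝ) * D ^ 2 ≤ n * (S + k * Real.log n) →
              c * m * f D * Real.exp (-20 * √(Real.log (m / n))) ≤
                k * (S + k * Real.log n) * (3 * ((∑ i, d i : ℕ) : ℝ) ^ 3 * f (∑ i, d i)) := by
  obtain ⟨c, hc, n0, h⟩ := Pool.Agent.HDL.main
  refine ⟨c, hc, n0, fun n hn m h1 h2 k S hk hS => ?_⟩
  obtain ⟨v, d, h3, h4, ⟨G, H, hG, hH, hGt, hHt⟩, h5⟩ := h n hn m h1 h2 k S hk
  have hpos := pos_of_triangle hG hGt
  have hv : v ≤ n + m := by omega
  obtain ⟨Q, hQ, hcard, M, hM, hcost⟩ := sat d hpos (S := S) hk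
    (le_trans (Nat.mul_le_mul_left _ (Nat.pow_le_pow_left (by omega) 2)) hS)
  exact ⟨v, d, h3, hpos, Q, hQ, hcard, M, hM, fun f hf => ⟨hcost f hf, fun D hD =>
    h5 f hf D hD _ Q Unit (Measure.dirac ()) hcard M hM (hcost f hf)⟩⟩

end Pool.Agent.VAC2.ListHeads
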