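import Pool.Agent.RAC.Defs
import Pool.Agent.VAC90.Rac
import Pool.Agent.VAC2.MP_ad5e8e_lc_AccessCost

/-!
# Certificate: the statement of MP_ad5e8e_lc/RandomizedAccessCost is not vacuous

`result` says: for all `κ`, `ε > 0` there are `c > 0`, `s₀` such that for all `s, φ ≥ s₀` there are `n`
and `δ` with `T ≥ c s m / log m` for the expected cost `T` of all randomised machines.

* `machines_exist`: for every `n ≥ 1`, every `δ`, all prices, all types of registers and contents and
  every probability space there is a machine of the model with four control states that detects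
  triangles on all graphs with the degrees `δ` at the finite cost `3 n ^ 3`: the hypotheses on the
  machine can hold together, whatever `δ` is.
* `both_exist`: if `δ` satisfies the conclusion of `result` (for one `c > 0`, `s, φ ≥ 16`), then there
  are triangle-free graphs and graphs with a triangle with the degrees `δ` (`Pool/Agent/VAC90/Rac.lean`,
  helper90): the witness cannot be degenerate.
* `bound_le`: at the witness, the claimed bound is at most `3 n ^ 3`: it is a true restriction, which
  holds for a machine that exists, with any number of registers and any prices such that few registers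
  are cheap.
-/

set_option autoImplicit false

open MeasureTheory

namespace Pool.Agent.VAC2.RandomizedAccessCost

open Pool.Agent.TS Pool.Agent.TR Pool.Agent.ACC Pool.Agent.RAC Pool.Agent.VAC2.AccessCost

/-- the triple number `k` is a triangle -/
def Chk {n : ℕ} (G : SimpleGraph (Fin n)) (tr : ℕ → Fin n × Fin n × Fin n) (k : ℕ) : Prop :=
  G.Adj (tr k).1 (tr k).2.1 ∧ G.Adj (tr k).2.1 (tr k).2.2 ∧ G.Adj (tr k).1 (tr k).2.2

/-- the transition of the control state -/
def nx (N i : ℕ) (q : Bool ⊕ Bool) (a : Bool) : Bool ⊕ Bool :=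
  q.elim (fun b => if i % 3 = 2 then (if (b && a) = true then Sum.inr true else
    if i + 1 = 3 * N then Sum.inr false else Sum.inl true) else Sum.inl (b && a)) Sum.inr

/-- The machine that checks all triples. -/
def rmach {n : ℕ} (A Γ Ω : Type) (γ : Γ) (N : ℕ) (tr : ℕ → Fin n × Fin n × Fin n) :
    RMachine n (Bool ⊕ Bool) A Γ Ω where
  start := fun _ => Sum.inl true
  init := fun _ _ => γ
  rd := fun _ _ _ => none
  ask := fun _ i _ _ => qu tr i
  next := fun _ i q _ a => (nx N i q a.isSome, none)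
  output := fun q => q.elim (fun _ => none) some

/-- the control states on the graph `G` -/
noncomputable def st {n : ℕ} (G : SimpleGraph (Fin n)) (tr : ℕ → Fin n × Fin n × Fin n) (N : ℕ) :
    ℕ → Bool ⊕ Bool
  | 0 => Sum.inl true
  | t + 1 => nx N t (st G tr N t) (ev G tr t)

lemma run_eq {n : ℕ} (A Γ Ω : Type) (γ : Γ) (N : ℕ) (tr : ℕ → Fin n × Fin n × Fin n)
    (G : SimpleGraph (Fin n)) (ω : Ω) (t : ℕ) :
    (rmach A Γ Ω γ N tr).run ω G t = (st G tr N t, fun _ => γ) := by
  induction t with
  | zero => rfl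
  | succ t ih =>
    change (if ((rmach A Γ Ω γ N tr).output ((rmach A Γ Ω γ N tr).run ω G t).1).isSome = true then
      (rmach A Γ Ω γ N tr).run ω G t else
      (((rmach A Γ Ω γ N tr).move ω G t ((rmach A Γ Ω γ N tr).run ω G t)).1,
      write ((rmach A Γ Ω γ N tr).run ω G t).2
        ((rmach A Γ Ω γ N tr).move ω G t ((rmach A Γ Ω γ N tr).run ω G t)).2)) = _
    rw [ih]
    have hst : st G tr N (t + 1) = nx N t (st G tr N t) (ev G tr t) := rfl
    rcases hs : st G tr N t with b | b
    · rw [if_neg (by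
        change ¬ ((none : Option Bool).isSome = true)
        simp)]
      rw [hst, hs]
      rfl
    · rw [if_pos (by rfl), hst, hs]
      rfl

lemma stay {n : ℕ} (G : SimpleGraph (Fin n)) (tr : ℕ → Fin n × Fin n × Fin n) (N t s : ℕ) (b : Bool)
    (h : st G tr N t = Sum.inr b) : st G tr N (t + s) = Sum.inr b := by
  induction s with
  | zero => exact h
  | succ s ih =>
    have h1 : st G tr N (t + (s + 1)) = nx N (t + s) (st G tr N (t + s)) (ev G tr (t + s)) := rfl
    rw [h1, ih]
    rfl

open Classical in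
lemma block {n : ℕ} (G : SimpleGraph (Fin n)) (tr : ℕ → Fin n × Fin n × Fin n) (N k : ℕ)
    (h : st G tr N (3 * k) = Sum.inl true) :
    st G tr N (3 * (k + 1)) = if Chk G tr k then Sum.inr true else
      if k + 1 = N then Sum.inr false else Sum.inl true := by
  have a1 : st G tr N (3 * k + 1) = Sum.inl (ev G tr (3 * k)) := by
    have h1 : st G tr N (3 * k + 1) = nx N (3 * k) (st G tr N (3 * k)) (ev G tr (3 * k)) := rfl
    rw [h1, h]
    change (if 3 * k % 3 = 2 then _ else (Sum.inl (true && ev G tr (3 * k)) : Bool ⊕ Bool)) = _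
    rw [if_neg (by omega), Bool.true_and]
  have a2 : st G tr N (3 * k + 2) = Sum.inl (ev G tr (3 * k) && ev G tr (3 * k + 1)) := by
    have h1 : st G tr N (3 * k + 2) =
      nx N (3 * k + 1) (st G tr N (3 * k + 1)) (ev G tr (3 * k + 1)) := rfl
    rw [h1, a1]
    change (if (3 * k + 1) % 3 = 2 then _ else
      (Sum.inl (ev G tr (3 * k) && ev G tr (3 * k + 1)) : Bool ⊕ Bool)) = _
    rw [if_neg (by omega)]
  have h1 : st G tr N (3 * (k + 1)) =
    nx N (3 * k + 2) (st G tr N (3 * k + 2)) (ev G tr (3 * k + 2)) := rfl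
  rw [h1, a2]
  change (if (3 * k + 2) % 3 = 2 then
    (if ((ev G tr (3 * k) && ev G tr (3 * k + 1)) && ev G tr (3 * k + 2)) = true then
      (Sum.inr true : Bool ⊕ Bool) else
    if 3 * k + 2 + 1 = 3 * N then Sum.inr false else Sum.inl true) else _) = _
  rw [if_pos (by omega)]
  have h2 : ((ev G tr (3 * k) && ev G tr (3 * k + 1)) && ev G tr (3 * k + 2)) = true ↔
      Chk G tr k := by
    rw [Bool.and_eq_true, Bool.and_eq_true, ev0, ev1, ev2]
    exact and_assoc
  by_cases hc : Chk G tr k
  · rw [if_pos (h2.2 hc), if_pos hc]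
  · rw [if_neg (fun h3 => hc (h2.1 h3)), if_neg hc]
    by_cases hN : k + 1 = N
    · rw [if_pos (by omega), if_pos hN]
    · rw [if_neg (by omega), if_neg hN]

lemma before {n : ℕ} (G : SimpleGraph (Fin n)) (tr : ℕ → Fin n × Fin n × Fin n) (N k : ℕ)
    (hk : k < N) (h : ∀ j < k, ¬ Chk G tr j) : st G tr N (3 * k) = Sum.inl true := by
  induction k with
  | zero => rfl
  | succ k ih =>
    rw [block G tr N k (ih (by omega) (fun j hj => h j (by omega))), if_neg (h k (by omega)),
      if_neg (by omega)]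

/-- the answer after `3 N` steps -/
lemma final {n : ℕ} (G : SimpleGraph (Fin n)) (tr : ℕ → Fin n × Fin n × Fin n) (N : ℕ) (hN : 0 < N) :
    ∃ b, st G tr N (3 * N) = Sum.inr b ∧ (b = true ↔ ∃ j < N, Chk G tr j) := by
  classical
  by_cases h : ∃ j < N, Chk G tr j
  · have h' : ∃ j, j < N ∧ Chk G tr j := h
    have hm := Nat.find_spec h'
    have hb := before G tr N (Nat.find h') hm.1 (fun j hj hc =>
      Nat.find_min h' hj ⟨by omega, hc⟩)
    have h1 := block G tr N _ hb
    rw [if_pos hm.2] at h1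
    have h2 := stay G tr N _ (3 * (N - (Nat.find h' + 1))) true h1
    rw [show 3 * (Nat.find h' + 1) + 3 * (N - (Nat.find h' + 1)) = 3 * N by omega] at h2
    exact ⟨true, h2, by simpa using h⟩
  · have h0 : ∀ j < N, ¬ Chk G tr j := fun j hj hc => h ⟨j, hj, hc⟩
    have hb := before G tr N (N - 1) (by omega) (fun j hj => h0 j (by omega))
    have h1 := block G tr N _ hb
    rw [if_neg (h0 _ (by omega)), if_pos (by omega), show N - 1 + 1 = N by omega] at h1
    exact ⟨false, h1, by simpa using h⟩

/-- For every `δ` there is a machine with four control states which detects triangles on the graphs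
with the degrees `δ`, at the cost `3 n ^ 3`. -/
theorem machines_exist (n : ℕ) (hn : 0 < n) (δ : Fin n → ℕ) (A Γ Ω : Type) [MeasurableSpace Ω]
    (μ : Measure Ω) [IsProbabilityMeasure μ] (γ : Γ) (f : A → ℝ) (b : Bool) :
    ∃ M : RMachine n (Bool ⊕ Bool) A Γ Ω, M.DetectsTriangles μ δ ∧
      M.ExpectedCostLE μ δ f b (3 * (n : ℝ) ^ 3) := by
  classical
  have : Nonempty (Fin n × Fin n × Fin n) := ⟨⟨⟨0, hn⟩, ⟨0, hn⟩, ⟨0, hn⟩⟩⟩
  obtain ⟨tr, htr⟩ := exists_enum (Fin n × Fin n × Fin n)
  set N : ℕ := Fintype.card (Fin n × Fin n × Fin n) with hN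
  have hN3 : N = n ^ 3 := by
    rw [hN]
    simp only [Fintype.card_prod, Fintype.card_fin]
    ring
  have hN0 : 0 < N := by
    rw [hN3]
    positivity
  have htri : ∀ G : SimpleGraph (Fin n), (∃ j < N, Chk G tr j) ↔ ¬ G.CliqueFree 3 := by
    intro G
    rw [not_free]
    constructor
    · rintro ⟨j, -, h1, h2, h3⟩
      exact ⟨_, _, _, h1, h2, h3⟩
    · rintro ⟨u, v, w, h1, h2, h3⟩
      obtain ⟨k, hk, hk'⟩ := htr (u, v, w)
      refine ⟨k, hk, ?_⟩
      unfold Chk
      rw [hk']
      exact ⟨h1, h2, h3⟩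
  have hout : ∀ ω G t, (rmach A Γ Ω γ N tr).out ω G t =
      (rmach A Γ Ω γ N tr).output (st G tr N t) := by
    intro ω G t
    unfold RMachine.out
    rw [run_eq]
  have hacc : ∀ ω G t, (rmach A Γ Ω γ N tr).access b ω G t = none := by
    intro ω G t
    unfold RMachine.access
    by_cases h1 : ((rmach A Γ Ω γ N tr).out ω G t).isSome = true
    · rw [if_pos h1]
    · rw [if_neg h1]
      by_cases h2 : b = true
      · rw [if_pos h2]
        rfl
      · rw [if_neg h2]
        rfl
  refine ⟨rmach A Γ Ω γ N tr, fun G _ => ⟨fun t x => ?_, fun b' t y => ?_, ?_⟩, fun G _ m => ?_⟩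
  · have h1 : {ω | ((rmach A Γ Ω γ N tr).run ω G t).1 = x} = {_ω : Ω | st G tr N t = x} := by
      ext ω
      rw [Set.mem_ofPred_eq, Set.mem_ofPred_eq, run_eq]
    rw [h1]
    exact MeasurableSet.const _
  · have h1 : {ω | (rmach A Γ Ω γ N tr).access b' ω G t = y} = {_ω : Ω | (none : Option A) = y} := by
      ext ω
      rw [Set.mem_ofPred_eq, Set.mem_ofPred_eq]
      have h2 : (rmach A Γ Ω γ N tr).access b' ω G t = none := by
        unfold RMachine.access
        by_cases h1 : ((rmach A Γ Ω γ N tr).out ω G t).isSome = true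
        · rw [if_pos h1]
        · rw [if_neg h1]
          by_cases h2 : b' = true
          · rw [if_pos h2]
            rfl
          · rw [if_neg h2]
            rfl
      rw [h2]
    rw [h1]
    exact MeasurableSet.const _
  · obtain ⟨d, hd, hd'⟩ := final G tr N hN0
    have h1 : {ω | ∃ t b, (rmach A Γ Ω γ N tr).out ω G t = some b ∧
        (b = true ↔ ¬ G.CliqueFree 3)} = Set.univ := by
      ext ω
      simp only [Set.mem_ofPred_eq, Set.mem_univ, iff_true]
      refine ⟨3 * N, d, ?_, hd'.trans (htri G)⟩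
      rw [hout, hd]
      rfl
    rw [h1]
    simp
    norm_num
  · have hcost : ∀ ω, (rmach A Γ Ω γ N tr).cost f b ω G m ≤ 3 * (n : ℝ) ^ 3 := by
      intro ω
      have h1 : (rmach A Γ Ω γ N tr).cost f b ω G m =
          ∑ t ∈ Finset.range m, (if (rmach A Γ Ω γ N tr).out ω G t = none then (1 : ℝ) else 0) := by
        unfold RMachine.cost
        refine Finset.sum_congr rfl fun t _ => ?_
        rw [hacc]
        simp
      have h2 : ∀ t, 3 * N ≤ t → (rmach A Γ Ω γ N tr).out ω G t ≠ none := by
        intro t ht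
        obtain ⟨d, hd, -⟩ := final G tr N hN0
        have h3 := stay G tr N (3 * N) (t - 3 * N) d hd
        rw [show 3 * N + (t - 3 * N) = t by omega] at h3
        rw [hout, h3]
        change some d ≠ none
        simp
      rw [h1, Finset.sum_ite, Finset.sum_const_zero, add_zero, Finset.sum_const, nsmul_eq_mul,
        mul_one]
      have h3 : ((Finset.range m).filter
          (fun t => (rmach A Γ Ω γ N tr).out ω G t = none)) ⊆ Finset.range (3 * N) := by
        intro t ht
        rw [Finset.mem_filter] at ht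
        rw [Finset.mem_range]
        by_contra hcon
        exact h2 t (by omega) ht.2
      have h4 := Finset.card_le_card h3
      rw [Finset.card_range] at h4
      calc (((Finset.range m).filter
          (fun t => (rmach A Γ Ω γ N tr).out ω G t = none)).card : ℝ) ≤ ((3 * N : ℕ) : ℝ) := by
            exact_mod_cast h4
        _ = 3 * (n : ℝ) ^ 3 := by
            rw [hN3]
            push_cast
            ring
    calc ∫⁻ ω, ENNReal.ofReal ((rmach A Γ Ω γ N tr).cost f b ω G m) ∂μ
        ≤ ∫⁻ _ω, ENNReal.ofReal (3 * (n : ℝ) ^ 3) ∂μ :=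
          lintegral_mono fun ω => ENNReal.ofReal_le_ofReal (hcost ω)
      _ = ENNReal.ofReal (3 * (n : ℝ) ^ 3) := by simp

/-- The clause of `result` about the degree sequence `δ`. -/
def Clause (κ : ℕ) (ε c : ℝ) (s : ℕ) (φ : ℝ) (n : ℕ) (δ : Fin n → ℕ) : Prop :=
  ∀ (Q A Γ Ω : Type) [Fintype Q] [Fintype A] [Fintype Γ] [MeasurableSpace Ω]
    (μ : Measure Ω) [IsProbabilityMeasure μ] (M : RMachine n Q A Γ Ω) (g : ℕ) (f : A → ℝ)
    (b : Bool) (T : ℝ), 1 ≤ g → Fintype.card Q ≤ s ^ κ → Fintype.card A ≤ s ^ κ →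
    Fintype.card Γ ≤ s ^ (κ * g) → (∀ a, 0 ≤ f a) →
    (Nat.card {a : A // f a < φ * g} : ℝ) * g ≤ (s : ℝ) ^ (1 - ε) →
    M.DetectsTriangles μ δ → M.ExpectedCostLE μ δ f b T →
    c * s * (min (Real.log s) (Real.log φ) / Real.log (min (Real.log s) (Real.log φ))) ≤ T

/-- The witness `δ` has graphs with and without triangles. -/
theorem both_exist (κ : ℕ) (ε c : ℝ) (hc : 0 < c) (s : ℕ) (φ : ℝ) (hs : 16 ≤ s) (hφ : 16 ≤ φ)
    (n : ℕ) (δ : Fin n → ℕ) (h1 : 2 * n + ∑ v, δ v = 2 * s) (h : Clause κ ε c s φ n δ) :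
    (∃ G : SimpleGraph (Fin n), HasDegrees G δ ∧ G.CliqueFree 3) ∧
    (∃ G : SimpleGraph (Fin n), HasDegrees G δ ∧ ¬ G.CliqueFree 3) :=
  VAC90.rac_nonvac κ ε c hc s φ hs hφ n δ h1 h

/-- The claimed bound at the witness restricts a machine that exists: the machine that checks all
triples, beside `s ^ κ` registers with `s ^ κ` contents each, the price of a register being `φ`. -/
theorem bound_le (κ : ℕ) (hκ : 1 ≤ κ) (ε c : ℝ) (s : ℕ) (φ : ℝ) (hs : 16 ≤ s) (hφ : 16 ≤ φ)
    (n : ℕ) (δ : Fin n → ℕ) (h1 : 2 * n + ∑ v, δ v = 2 * s) (h : Clause κ ε c s φ n δ) :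
    c * s * (min (Real.log s) (Real.log φ) / Real.log (min (Real.log s) (Real.log φ)))
      ≤ 3 * (n : ℝ) ^ 3 := by
  have hn : 0 < n := by
    rcases Nat.eq_zero_or_pos n with h0 | h0
    · subst h0
      simp at h1
      omega
    · exact h0
  have hsk : 0 < s ^ κ := by positivity
  obtain ⟨M, hM, hM'⟩ := machines_exist n hn δ (Fin (s ^ κ)) (Fin (s ^ κ)) Unit (Measure.dirac ())
    ⟨0, hsk⟩ (fun _ => φ) false
  refine h (Bool ⊕ Bool) (Fin (s ^ κ)) (Fin (s ^ κ)) Unit (Measure.dirac ()) M 1 (fun _ => φ) false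
    _ le_rfl ?_ ?_ ?_ ?_ ?_ hM hM'
  · have h2 : s ^ 1 ≤ s ^ κ := Nat.pow_le_pow_right (by omega) hκ
    rw [pow_one] at h2
    have h3 : Fintype.card (Bool ⊕ Bool) = 4 := by decide
    rw [h3]
    omega
  · simp
  · simp
  · intro a
    linarith
  · have h2 : IsEmpty {a : Fin (s ^ κ) // φ < φ * ((1 : ℕ) : ℝ)} :=
      ⟨fun a => by
        have := a.2
        simp at this⟩
    rw [Nat.card_eq_zero.2 (Or.inl h2)]
    simp
    positivity

end Pool.Agent.VAC2.RandomizedAccessCost
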