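import Pool.Agent.MU3.Z_ZLAY

/-!
Certificate (not a hand-in): the statement of `MP_b78433_nt / MuThree` is not vacuous. The layers
exist for all `n`; every admissible `K ⊔ Q` is a number field of degree at least `3 ^ n` with a
positive class number; and the fields `ℚ(√-2, √2) = ℚ(ζ₈)` (of degree 4, so larger than `ℚ(√-2)`)
and `ℚ(√-11, r)`, `r` any root of `r³ + √-11 r² - 3 r - √-11/4`, are admissible: `√2 - 2` and `r` are
abscissas of points of order two.
-/

set_option autoImplicit false

namespace Pool.Agent.VAC2.MuThree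

open Pool.Agent.RI Pool.Agent.MU3Z NumberField IntermediateField

/-- The abscissas of the points of order two lie in the torsion field. -/
theorem two_torsion (s a b c x : ℂ) (h0 : x ^ 3 + a * x ^ 2 + b * x + c = 0)
    (h1 : 3 * x ^ 2 + 2 * a * x + b ≠ 0) : x ∈ torsionField s a b c := by
  have hn : (curve a b c).toAffine.Nonsingular x 0 := by
    rw [WeierstrassCurve.Affine.nonsingular_iff, WeierstrassCurve.Affine.equation_iff]
    simp only [curve]
    refine ⟨by linear_combination -h0, Or.inl ?_⟩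
    intro h
    apply h1
    linear_combination -h
  apply IntermediateField.subset_adjoin
  right
  refine ⟨x, 0, hn, ?_, Or.inl rfl⟩
  rw [isOfFinAddOrder_iff_nsmul_eq_zero]
  refine ⟨2, two_pos, ?_⟩
  rw [two_nsmul]
  apply WeierstrassCurve.Affine.Point.add_self_of_Y_eq
  simp [WeierstrassCurve.Affine.negY, curve]

theorem base_mem (s a b c : ℂ) : s ∈ torsionField s a b c :=
  IntermediateField.subset_adjoin _ _ (Or.inl rfl)

theorem rt_sq (m : ℕ) : rt m ^ 2 = -(m : ℂ) := by
  unfold rt
  rw [mul_pow, Complex.I_sq, ← Complex.ofReal_pow, Real.sq_sqrt (Nat.cast_nonneg m)]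
  push_cast
  ring

theorem rt_int (m : ℕ) : IsIntegral ℚ (rt m) := by
  refine ⟨Polynomial.X ^ 2 + Polynomial.C (m : ℚ), Polynomial.monic_X_pow_add_C _ two_ne_zero, ?_⟩
  rw [← Polynomial.aeval_def]
  simp [rt_sq]

/-- The layers exist. -/
theorem layers (n : ℕ) : ∃ Q : IntermediateField ℚ ℂ, IsLayer 3 n Q := ⟨_, zlB_layer n⟩

/-- Every admissible `K ⊔ Q` is a number field of degree at least `3 ^ n` with positive class
number. -/
theorem composite (K : IntermediateField ℚ ℂ) [FiniteDimensional ℚ K] (n : ℕ)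
    (Q : IntermediateField ℚ ℂ) (hQ : IsLayer 3 n Q) :
    FiniteDimensional ℚ ↥(K ⊔ Q) ∧ 3 ^ n ≤ Module.finrank ℚ ↥(K ⊔ Q) ∧ 0 < classNo (K ⊔ Q) := by
  have hfQ : FiniteDimensional ℚ Q :=
    Module.finite_of_finrank_pos (by rw [hQ.1]; positivity)
  have hf : FiniteDimensional ℚ ↥(K ⊔ Q) := IntermediateField.finiteDimensional_sup K Q
  refine ⟨hf, ?_, ?_⟩
  · rw [← hQ.1]
    have hle : Q ≤ K ⊔ Q := le_sup_right
    exact LinearMap.finrank_le_finrank_of_injective
      (f := (IntermediateField.inclusion hle).toLinearMap)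
      (IntermediateField.inclusion_injective hle)
  · have : NumberField ↥(K ⊔ Q) := { to_charZero := inferInstance, to_finiteDimensional := hf }
    unfold classNo
    exact Nat.card_pos

/-- `√2` as a complex number. -/
noncomputable def r2 : ℂ := (Real.sqrt 2 : ℝ)

theorem r2_sq : r2 ^ 2 = 2 := by
  unfold r2
  rw [← Complex.ofReal_pow, Real.sq_sqrt (by norm_num)]
  norm_num

theorem r2_int : IsIntegral ℚ r2 := by
  refine ⟨Polynomial.X ^ 2 - Polynomial.C 2, Polynomial.monic_X_pow_sub_C _ two_ne_zero, ?_⟩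
  rw [← Polynomial.aeval_def]
  simp [r2_sq]

/-- `√2` is in the torsion field of `y² = x³ + 4 x² + 2 x`. -/
theorem r2_mem : r2 ∈ torsionField (rt 2) 4 2 0 := by
  have h1 : r2 - 2 ∈ torsionField (rt 2) 4 2 0 := by
    apply two_torsion
    · linear_combination (r2 - 2) * r2_sq
    · intro h
      have h2 : 3 * (r2 - 2) ^ 2 + 2 * 4 * (r2 - 2) + 2 = 4 - 4 * r2 := by
        linear_combination 3 * r2_sq
      rw [h2] at h
      have h3 : r2 = 1 := by linear_combination -h / 4
      have h4 := r2_sq
      rw [h3] at h4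
      norm_num at h4
  have h2 : r2 = (r2 - 2) + 2 := by ring
  rw [h2]
  exact add_mem h1 (by exact_mod_cast (torsionField (rt 2) 4 2 0).algebraMap_mem 2)

/-- The real number `√2` is not in `ℚ(√-2)`. -/
theorem r2_not_mem : r2 ∉ IntermediateField.adjoin ℚ {rt 2} := by
  intro h
  rw [IntermediateField.mem_adjoin_simple_iff] at h
  have key : ∀ z ∈ IntermediateField.adjoin ℚ {rt 2}, ∃ p q : ℚ, z = p + q * rt 2 := by
    intro z hz
    have hz' : z ∈ Algebra.adjoin ℚ {rt 2} := by
      rw [← IntermediateField.adjoin_simple_toSubalgebra_of_isAlgebraic (rt_int 2).isAlgebraic]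
      exact hz
    refine Algebra.adjoin_induction (p := fun z _ => ∃ p q : ℚ, z = p + q * rt 2)
      ?_ ?_ ?_ ?_ hz'
    · rintro x rfl
      exact ⟨0, 1, by push_cast; ring⟩
    · intro r
      exact ⟨r, 0, by simp⟩
    · rintro x y - - ⟨p, q, rfl⟩ ⟨p', q', rfl⟩
      exact ⟨p + p', q + q', by push_cast; ring⟩
    · rintro x y - - ⟨p, q, rfl⟩ ⟨p', q', rfl⟩
      refine ⟨p * p' - 2 * q * q', p * q' + q * p', ?_⟩
      have := rt_sq 2
      push_cast at this ⊢
      linear_combination (q * q' : ℂ) * this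
  obtain ⟨p, q, hpq⟩ := key r2 (by rw [IntermediateField.mem_adjoin_simple_iff]; exact h)
  have him := congrArg Complex.im hpq
  have hre := congrArg Complex.re hpq
  unfold r2 rt at him hre
  simp only [Complex.ofReal_im, Complex.ofReal_re, Complex.add_im, Complex.add_re, Complex.mul_im,
    Complex.mul_re, Complex.ratCast_im, Complex.ratCast_re, Complex.I_re, Complex.I_im] at him hre
  have h3 : Real.sqrt 2 = (p : ℝ) := by
    rw [hre]; ring
  exact irrational_sqrt_two ⟨p, h3.symm⟩

/-- **Certificate**, `√-2`: the field `ℚ(√-2, √2)` is admissible and not `ℚ(√-2)`. -/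
theorem instance_two : ∃ K : IntermediateField ℚ ℂ, FiniteDimensional ℚ K ∧ rt 2 ∈ K ∧
    K ≤ torsionField (rt 2) 4 2 0 ∧ ¬ K ≤ IntermediateField.adjoin ℚ {rt 2} := by
  refine ⟨IntermediateField.adjoin ℚ {rt 2} ⊔ IntermediateField.adjoin ℚ {r2}, ?_, ?_, ?_, ?_⟩
  · have h1 : FiniteDimensional ℚ (IntermediateField.adjoin ℚ {rt 2}) :=
      IntermediateField.adjoin.finiteDimensional (rt_int 2)
    have h2 : FiniteDimensional ℚ (IntermediateField.adjoin ℚ {r2}) :=
      IntermediateField.adjoin.finiteDimensional r2_int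
    exact IntermediateField.finiteDimensional_sup _ _
  · exact (le_sup_left : _ ≤ IntermediateField.adjoin ℚ {rt 2} ⊔ IntermediateField.adjoin ℚ {r2})
      (IntermediateField.mem_adjoin_simple_self ℚ (rt 2))
  · rw [sup_le_iff, IntermediateField.adjoin_simple_le_iff, IntermediateField.adjoin_simple_le_iff]
    exact ⟨base_mem _ _ _ _, r2_mem⟩
  · intro h
    exact r2_not_mem (h ((le_sup_right : _ ≤ IntermediateField.adjoin ℚ {rt 2} ⊔
      IntermediateField.adjoin ℚ {r2}) (IntermediateField.mem_adjoin_simple_self ℚ r2)))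

/-- **Certificate**, `√-11`: the field generated by `√-11` and by any root `r` of the cubic is
admissible. -/
theorem instance_eleven (r : ℂ) (hr : r ^ 3 + rt 11 * r ^ 2 + (-3) * r + (-(rt 11) / 4) = 0) :
    FiniteDimensional ℚ ↥(IntermediateField.adjoin ℚ {rt 11} ⊔ IntermediateField.adjoin ℚ {r}) ∧
    rt 11 ∈ IntermediateField.adjoin ℚ {rt 11} ⊔ IntermediateField.adjoin ℚ {r} ∧
    IntermediateField.adjoin ℚ {rt 11} ⊔ IntermediateField.adjoin ℚ {r} ≤
      torsionField (rt 11) (rt 11) (-3) (-(rt 11) / 4) := by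
  have hs := rt_sq 11
  push_cast at hs
  -- the derivative does not vanish: the discriminant of the cubic is a non zero number
  have hd : 3 * r ^ 2 + 2 * rt 11 * r + (-3) ≠ 0 := by
    intro h
    generalize rt 11 = s at hs hr h
    have k1 : (18 + 2 * s ^ 2) * r = 3 / 4 * s := by
      linear_combination (-9 : ℂ) * hr + (3 * r + s) * h
    rw [hs] at k1
    have k2 : r = -3 * s / 16 := by linear_combination (-1 / 4 : ℂ) * k1
    rw [k2] at h
    have k3 : (27 / 256 * s ^ 2 - 3 / 8 * s ^ 2 - 3 : ℂ) = 0 := by linear_combination h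
    rw [hs] at k3
    norm_num at k3
  have hmem : r ∈ torsionField (rt 11) (rt 11) (-3) (-(rt 11) / 4) :=
    two_torsion _ _ _ _ _ hr hd
  have hint : IsIntegral ℚ r := by
    have h11 : IsIntegral ℚ (rt 11) := rt_int 11
    have hA : IsIntegral (integralClosure ℚ ℂ) r := by
      set s' : integralClosure ℚ ℂ := ⟨rt 11, h11⟩ with hs'
      have h4 : (4 : ℂ) ≠ 0 := by norm_num
      have hq : IsIntegral ℚ (-(rt 11) / 4) := by
        have : -(rt 11) / 4 = (algebraMap ℚ ℂ (-1 / 4)) * rt 11 := by
          rw [eq_ratCast]; push_cast; ring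
        rw [this]
        exact (isIntegral_algebraMap).mul h11
      refine ⟨Polynomial.X ^ 3 + (Polynomial.C s' * Polynomial.X ^ 2 +
        Polynomial.C (-3) * Polynomial.X + Polynomial.C ⟨-(rt 11) / 4, hq⟩), ?_, ?_⟩
      · apply Polynomial.monic_X_pow_add
        refine lt_of_le_of_lt Polynomial.degree_quadratic_le ?_
        norm_num
      · rw [← Polynomial.aeval_def]
        simp only [map_add, map_mul, map_pow, Polynomial.aeval_X, Polynomial.aeval_C]
        have e1 : algebraMap (integralClosure ℚ ℂ) ℂ s' = rt 11 := rfl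
        have e2 : algebraMap (integralClosure ℚ ℂ) ℂ ⟨-(rt 11) / 4, hq⟩ = -(rt 11) / 4 := rfl
        have e3 : algebraMap (integralClosure ℚ ℂ) ℂ (-3) = -3 := by
          rw [map_neg, map_ofNat]
        rw [e1, e2, e3]
        linear_combination hr
    exact isIntegral_trans r hA
  refine ⟨?_, ?_, ?_⟩
  · have h1 : FiniteDimensional ℚ (IntermediateField.adjoin ℚ {rt 11}) :=
      IntermediateField.adjoin.finiteDimensional (rt_int 11)
    have h2 : FiniteDimensional ℚ (IntermediateField.adjoin ℚ {r}) :=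
      IntermediateField.adjoin.finiteDimensional hint
    exact IntermediateField.finiteDimensional_sup _ _
  · exact (le_sup_left : _ ≤ IntermediateField.adjoin ℚ {rt 11} ⊔ IntermediateField.adjoin ℚ {r})
      (IntermediateField.mem_adjoin_simple_self ℚ (rt 11))
  · rw [sup_le_iff, IntermediateField.adjoin_simple_le_iff, IntermediateField.adjoin_simple_le_iff]
    exact ⟨base_mem _ _ _ _, hmem⟩

end Pool.Agent.VAC2.MuThree
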