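import Mathlib
import Pool.Agent.MuSym.Defs

/-!
Certificate (not a hand-in): the hypotheses of `MP_b78433_nt / NonordinaryMu` have an instance:
`p = 2`, `N = 11`, `g = 0`, trivial nebentypus, `F = ZMod 2`, and a non zero modular symbol with
`T_2 Φ = 0` (the reduction modulo `2` of the symbol of the elliptic curve of conductor `11`,
`a_2 = -2`). It is given by its Manin symbol, the function `f` on `P¹(F₁₁)` with the value `1` at
`d / c = 3, 4, 7, 8`.
-/

set_option autoImplicit false

namespace Pool.Agent.VAC2.NonordinaryMu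

open OnePoint MvPolynomial Pool.Agent.MuSym

/-- the Manin symbol -/
def f (c d : ZMod 11) : ZMod 2 :=
  if c ≠ 0 ∧ (d * d = 5 * (c * c) ∨ d * d = 9 * (c * c)) then 1 else 0

theorem f_sym : ∀ c d, f c d = f d c := by decide
theorem f_neg : ∀ c d, f (-c) d = f c d := by decide
theorem f_scale : ∀ u c d : ZMod 11, u ≠ 0 → f (u * c) (u * d) = f c d := by decide +kernel
theorem f_tri : ∀ c d, f c d + f c (c + d) + f (c + d) d = 0 := by decide
theorem f_hecke : ∀ c d, f c (2 * d) + f (2 * c) d + (f (2 * c) (c + d) + f (c + d) (2 * d)) = 0 := by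
  decide
theorem f_10 : f 1 0 = 0 := by decide
theorem f_11 : f 1 1 = 0 := by decide
theorem f_13 : f 1 3 = 1 := by decide

theorem two : ∀ x : ZMod 2, x + x = 0 := by decide

/-- the Manin symbol on integers -/
def G (c d : ℤ) : ZMod 2 := f c d

theorem G_sym (c d : ℤ) : G c d = G d c := f_sym _ _
theorem G_neg (c d : ℤ) : G (-c) d = G c d := by
  unfold G
  rw [Int.cast_neg, f_neg]
theorem G_neg' (c d : ℤ) : G c (-d) = G c d := by
  rw [G_sym, G_neg, G_sym]
theorem G_tri (c d : ℤ) : G c d + G c (c + d) + G (c + d) d = 0 := by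
  unfold G
  rw [Int.cast_add]
  exact f_tri _ _

/-- sum along the Euclidean algorithm -/
def W : ℕ → ℕ → ZMod 2
  | _, 0 => 0
  | c, d + 1 => G c (d + 1 : ℕ) + W (d + 1) (c % (d + 1))
  termination_by _ d => d
  decreasing_by exact Nat.mod_lt _ (Nat.succ_pos d)

theorem W_zero (c : ℕ) : W c 0 = 0 := by
  rw [W]

theorem W_pos (c d : ℕ) (hd : 0 < d) : W c d = G c d + W d (c % d) := by
  obtain ⟨e, rfl⟩ : ∃ e, d = e + 1 := ⟨d - 1, by omega⟩
  rw [W]

theorem W_flip_aux (c d : ℕ) (hd : 0 < d) (h : d < c - d) : W c (c - d) = W c d := by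
  have h1 : c % (c - d) = d := by
    have e : c = d + 1 * (c - d) := by omega
    conv_lhs => rw [e]
    rw [show d + 1 * (c - d) - d = c - d by omega, Nat.add_mul_mod_self_right, Nat.mod_eq_of_lt h]
  have h2 : (c - d) % d = c % d := by
    have e : c = (c - d) + 1 * d := by omega
    conv_rhs => rw [e]
    rw [Nat.add_mul_mod_self_right]
  rw [W_pos c (c - d) (by omega), h1, W_pos (c - d) d hd, h2, W_pos c d hd]
  have h3 := G_tri ((c - d : ℕ) : ℤ) (d : ℤ)
  have h4 : ((c - d : ℕ) : ℤ) + (d : ℤ) = c := by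
    push_cast [Nat.cast_sub (show d ≤ c by omega)]
    ring
  rw [h4] at h3
  rw [G_sym (c : ℤ) ((c - d : ℕ) : ℤ)]
  generalize G ((c - d : ℕ) : ℤ) (d : ℤ) = x at h3 ⊢
  generalize G ((c - d : ℕ) : ℤ) (c : ℤ) = y at h3 ⊢
  generalize G (c : ℤ) (d : ℤ) = z at h3 ⊢
  generalize W d (c % d) = w
  revert h3
  revert x y z w
  decide

theorem W_flip (c d : ℕ) (hd : 0 < d) (h : d < c) : W c (c - d) = W c d := by
  rcases lt_trichotomy d (c - d) with h1 | h1 | h1
  · exact W_flip_aux c d hd h1
  · rw [← h1]
  · have := W_flip_aux c (c - d) (by omega) (by omega)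
    rw [show c - (c - d) = d by omega] at this
    exact this.symm

/-- the potential -/
noncomputable def u (x : OnePoint ℚ) : ZMod 2 :=
  x.elim 0 (fun r : ℚ => W r.den ((r.num : ZMod r.den)⁻¹).val)

/-- the cusp `m / n` -/
noncomputable def cusp (m n : ℤ) : OnePoint ℚ :=
  if n = 0 then ∞ else ((m / n : ℚ) : OnePoint ℚ)

theorem cusp_neg (m n : ℤ) : cusp (-m) (-n) = cusp m n := by
  unfold cusp
  by_cases h : n = 0
  · rw [if_pos h, if_pos (by rw [h, neg_zero])]
  · rw [if_neg h, if_neg (by rwa [neg_eq_zero])]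
    rw [Int.cast_neg, Int.cast_neg, neg_div_neg_eq]

theorem cusp_two (m n : ℤ) : cusp (2 * m) (2 * n) = cusp m n := by
  unfold cusp
  by_cases h : n = 0
  · rw [if_pos h, if_pos (by rw [h, mul_zero])]
  · rw [if_neg h, if_neg (by omega)]
    rw [Int.cast_mul, Int.cast_mul, mul_div_mul_left _ _ (by norm_num)]

theorem mob_cusp (a b c d m n : ℤ) (h : m ≠ 0 ∨ n ≠ 0) :
    mob a b c d (cusp m n) = cusp (a * m + b * n) (c * m + d * n) := by
  unfold cusp
  by_cases hn : n = 0
  · subst hn
    have hm : m ≠ 0 := by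
      rcases h with h | h
      · exact h
      · exact absurd rfl h
    rw [if_pos rfl, mul_zero, add_zero, mul_zero, add_zero]
    unfold mob
    rw [OnePoint.elim_infty]
    by_cases hc : c = 0
    · rw [if_pos hc, if_pos (by rw [hc, zero_mul])]
    · rw [if_neg hc, if_neg (mul_ne_zero hc hm)]
      have : (m : ℚ) ≠ 0 := Int.cast_ne_zero.2 hm
      rw [Int.cast_mul, Int.cast_mul, mul_div_mul_right _ _ this]
  · have hn' : (n : ℚ) ≠ 0 := Int.cast_ne_zero.2 hn
    rw [if_neg hn]
    unfold mob
    rw [OnePoint.elim_some]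
    have e : (c : ℚ) * (m / n) + d = (c * m + d * n : ℤ) / n := by
      push_cast
      field_simp
    by_cases h0 : c * m + d * n = 0
    · rw [if_pos h0, if_pos (by rw [e, h0, Int.cast_zero, zero_div])]
    · rw [if_neg h0, if_neg (by
        rw [e]
        exact div_ne_zero (Int.cast_ne_zero.2 h0) hn')]
      congr 1
      rw [e]
      have h0' : ((c * m + d * n : ℤ) : ℚ) ≠ 0 := Int.cast_ne_zero.2 h0
      push_cast at h0' ⊢
      field_simp

/-- the value of `u` -/
theorem u_val (a : ℤ) (c e : ℕ) (hc : 0 < c) (he : e < c)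
    (h : (c : ℤ) ∣ a * e - 1 ∨ (c : ℤ) ∣ a * e + 1) : u (cusp a c) = W c e := by
  have hcop : IsCoprime a (c : ℤ) := by
    rcases h with ⟨k, hk⟩ | ⟨k, hk⟩
    · exact ⟨e, -k, by linarith⟩
    · exact ⟨-e, k, by linarith⟩
  have hc0 : (c : ℤ) ≠ 0 := by exact_mod_cast hc.ne'
  have hnat : a.natAbs.Coprime c := by
    have := Int.isCoprime_iff_gcd_eq_one.1 hcop
    simpa [Int.gcd] using this
  have hr : ((a / c : ℚ)).num = a ∧ ((a / c : ℚ)).den = c := by
    have e1 : (a / c : ℚ) = Rat.divInt a c := by
      rw [Rat.divInt_eq_div]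
      push_cast
      rfl
    have e2 : Rat.divInt a c = mkRat a c := rfl
    have e3 : mkRat a c = ⟨a, c, hc.ne', hnat⟩ := by
      rw [Rat.mk_eq_mkRat]
    rw [e1, e2, e3]
    exact ⟨rfl, rfl⟩
  have hu : u (cusp a c) = W c ((a : ZMod c)⁻¹).val := by
    unfold u cusp
    rw [if_neg hc0, OnePoint.elim_some]
    have e1 : (((a : ℤ) : ℚ) / (((c : ℕ) : ℤ) : ℚ)) = (a / c : ℚ) := by push_cast; rfl
    rw [e1]
    obtain ⟨h1, h2⟩ := hr
    generalize (a / c : ℚ) = r at h1 h2
    subst h2
    rw [h1]
  rw [hu]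
  have : NeZero c := ⟨hc.ne'⟩
  rcases h with h | h
  · have h1 : (a : ZMod c) * (e : ZMod c) = 1 := by
      have := (ZMod.intCast_zmod_eq_zero_iff_dvd (a * e - 1) c).2 h
      push_cast at this
      exact sub_eq_zero.1 this
    have h2 : (a : ZMod c)⁻¹ = (e : ZMod c) := ZMod.inv_eq_of_mul_eq_one c _ _ h1
    rw [h2, ZMod.val_natCast, Nat.mod_eq_of_lt he]
  · have h1 : (a : ZMod c) * (-(e : ZMod c)) = 1 := by
      have := (ZMod.intCast_zmod_eq_zero_iff_dvd (a * e + 1) c).2 h
      push_cast at this
      linear_combination (-1 : ZMod c) * this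
    have h2 : (a : ZMod c)⁻¹ = -(e : ZMod c) := ZMod.inv_eq_of_mul_eq_one c _ _ h1
    rw [h2]
    by_cases he0 : e = 0
    · subst he0
      rw [Nat.cast_zero, neg_zero, ZMod.val_zero]
    · have h3 : (-(e : ZMod c)) = ((c - e : ℕ) : ZMod c) := by
        rw [Nat.cast_sub he.le, ZMod.natCast_self, zero_sub]
      rw [h3, ZMod.val_natCast, Nat.mod_eq_of_lt (by omega)]
      exact W_flip c e (by omega) he

theorem cusp_zero (m : ℤ) : cusp m 0 = ∞ := if_pos rfl

theorem u_infty : u ∞ = 0 := rfl

/-- an edge, nonnegative denominators in decreasing order -/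
theorem edge_nat (a b : ℤ) (c d : ℕ) (hcd : d ≤ c) (h : a * d - b * c = 1 ∨ a * d - b * c = -1) :
    u (cusp a c) + u (cusp b d) = G c d := by
  rcases Nat.eq_zero_or_pos d with hd | hd
  · subst hd
    have hc : c = 1 := by
      have h1 : (c : ℤ) ∣ 1 := by
        rcases h with h | h
        · exact ⟨-b, by push_cast at h; linarith⟩
        · exact ⟨b, by push_cast at h; linarith⟩
      exact_mod_cast Int.eq_one_of_dvd_one (by positivity) h1
    subst hc
    rw [u_val a 1 0 one_pos one_pos (Or.inl (by exact one_dvd _)), W_zero]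
    rw [Nat.cast_zero, cusp_zero, u_infty, add_zero]
    unfold G
    rw [Nat.cast_one, Int.cast_one, Int.cast_zero, f_10]
  · rcases Nat.eq_or_lt_of_le hcd with he | hlt
    · subst he
      have hc : d = 1 := by
        have h1 : (d : ℤ) ∣ 1 := by
          rcases h with h | h
          · exact ⟨a - b, by linarith⟩
          · exact ⟨b - a, by linarith⟩
        exact_mod_cast Int.eq_one_of_dvd_one (by positivity) h1
      subst hc
      rw [u_val a 1 0 one_pos one_pos (Or.inl (by exact one_dvd _)),
        u_val b 1 0 one_pos one_pos (Or.inl (by exact one_dvd _)), W_zero, add_zero]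
      unfold G
      rw [Nat.cast_one, Int.cast_one, f_11]
    · have h1 : u (cusp a c) = W c d := by
        apply u_val a c d (by omega) hlt
        rcases h with h | h
        · exact Or.inl ⟨b, by linarith⟩
        · exact Or.inr ⟨b, by linarith⟩
      have h2 : u (cusp b d) = W d (c % d) := by
        apply u_val b d (c % d) hd (Nat.mod_lt _ hd)
        have e : ((c % d : ℕ) : ℤ) = c - d * (c / d : ℕ) := by
          have := Nat.mod_add_div c d
          have : ((c % d : ℕ) : ℤ) + d * ((c / d : ℕ) : ℤ) = c := by exact_mod_cast this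
          linarith
        rw [e]
        rcases h with h | h
        · exact Or.inr ⟨a - b * (c / d : ℕ), by linear_combination -h⟩
        · exact Or.inl ⟨a - b * (c / d : ℕ), by linear_combination -h⟩
      rw [h1, h2, W_pos c d hd, add_assoc, two, add_zero]

/-- the value on any edge -/
theorem edge (a b c d : ℤ) (h : a * d - b * c = 1 ∨ a * d - b * c = -1) :
    u (cusp a c) + u (cusp b d) = G c d := by
  obtain ⟨c', hc⟩ := Int.eq_nat_or_neg c
  obtain ⟨d', hd⟩ := Int.eq_nat_or_neg d
  have key : ∀ (a b : ℤ) (c d : ℕ), (a * d - b * c = 1 ∨ a * d - b * c = -1) →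
      u (cusp a c) + u (cusp b d) = G c d := by
    intro a b c d h
    rcases le_total d c with hle | hle
    · exact edge_nat a b c d hle h
    · rw [add_comm, G_sym]
      apply edge_nat b a d c hle
      rcases h with h | h
      · exact Or.inr (by linarith)
      · exact Or.inl (by linarith)
  rcases hc with rfl | rfl <;> rcases hd with rfl | rfl
  · exact key a b c' d' h
  · have := key a (-b) c' d' (by
      rcases h with h | h
      · exact Or.inr (by linarith)
      · exact Or.inl (by linarith))
    rw [G_neg', ← this, ← cusp_neg b (-(d' : ℤ)), neg_neg]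
  · have := key (-a) b c' d' (by
      rcases h with h | h
      · exact Or.inr (by linarith)
      · exact Or.inl (by linarith))
    rw [G_neg, ← this, ← cusp_neg a (-(c' : ℤ)), neg_neg]
  · have := key (-a) (-b) c' d' (by
      rcases h with h | h
      · exact Or.inl (by linarith)
      · exact Or.inr (by linarith))
    rw [G_neg, G_neg', ← this, ← cusp_neg a (-(c' : ℤ)), ← cusp_neg b (-(d' : ℤ)), neg_neg, neg_neg]

/-- a function that is constant along the edges is constant -/
theorem const (v : OnePoint ℚ → ZMod 2)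
    (hv : ∀ a b c d : ℤ, (a * d - b * c = 1 ∨ a * d - b * c = -1) → v (cusp a c) = v (cusp b d)) :
    ∀ x, v x = v ∞ := by
  have key : ∀ c : ℕ, ∀ a : ℤ, IsCoprime a (c : ℤ) → v (cusp a c) = v ∞ := by
    intro c
    induction c using Nat.strong_induction_on with
    | _ c ih =>
      intro a hac
      rcases Nat.eq_zero_or_pos c with hc | hc
      · subst hc
        rw [Nat.cast_zero, cusp_zero]
      · obtain ⟨x, y, hxy⟩ := hac
        -- x a + y c = 1, d = x mod c
        set d := (x % (c : ℤ)) with hd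
        have hd0 : 0 ≤ d := Int.emod_nonneg _ (by positivity)
        have hd1 : d < c := Int.emod_lt_of_pos _ (by exact_mod_cast hc)
        obtain ⟨e, he⟩ := Int.eq_ofNat_of_zero_le hd0
        have hx : x = d + c * (x / c) := by
          have := Int.emod_add_mul_ediv x c
          linarith
        set b := -(y + a * (x / c)) with hb
        have hdet : a * d - b * c = 1 := by
          rw [hb]
          have : a * x + y * c = 1 := by linarith
          rw [hx] at this
          linear_combination this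
        rw [hv a b c d (Or.inl hdet), he]
        apply ih e (by omega) b
        rw [← he]
        exact ⟨-c, a, by linear_combination hdet⟩
  intro x
  induction x using OnePoint.rec with
  | infty => rfl
  | coe r =>
    have h1 : ((r : ℚ) : OnePoint ℚ) = cusp r.num r.den := by
      unfold cusp
      have : ((r.den : ℕ) : ℤ) ≠ 0 := by exact_mod_cast r.den_nz
      rw [if_neg this]
      congr 1
      rw [Int.cast_natCast, Rat.num_div_den]
    rw [h1]
    apply key
    exact (Int.isCoprime_iff_gcd_eq_one).2 (by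
      have := r.reduced
      rw [Int.gcd]
      simpa using this)

theorem prim {m n m' n' : ℤ} (h : m * n' - m' * n = 1 ∨ m * n' - m' * n = -1) :
    (m ≠ 0 ∨ n ≠ 0) ∧ (m' ≠ 0 ∨ n' ≠ 0) := by
  constructor
  · by_contra hcon
    push Not at hcon
    obtain ⟨h1, h2⟩ := hcon
    subst h1
    subst h2
    rcases h with h | h
    · norm_num at h
    · norm_num at h
  · by_contra hcon
    push Not at hcon
    obtain ⟨h1, h2⟩ := hcon
    subst h1
    subst h2
    rcases h with h | h
    · norm_num at h
    · norm_num at h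

/-- invariance -/
theorem inv (a b c d : ℤ) (hdet : a * d - b * c = 1) (hc : (11 : ℤ) ∣ c) (x y : OnePoint ℚ) :
    u (mob a b c d x) + u (mob a b c d y) = u x + u y := by
  have key := const (fun x => u (mob a b c d x) + u x) (by
    intro m m' n n' h
    obtain ⟨p1, p2⟩ := prim h
    rw [mob_cusp a b c d m n p1, mob_cusp a b c d m' n' p2]
    have e1 := edge m m' n n' h
    have e2 := edge (a * m + b * n) (a * m' + b * n') (c * m + d * n) (c * m' + d * n') (by
      rcases h with h | h
      · left
        linear_combination (a * d - b * c) * h + hdet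
      · right
        linear_combination (a * d - b * c) * h - hdet)
    have e3 : G (c * m + d * n) (c * m' + d * n') = G n n' := by
      have hc' : ((c : ℤ) : ZMod 11) = 0 := (ZMod.intCast_zmod_eq_zero_iff_dvd c 11).2 hc
      have hd' : ((d : ℤ) : ZMod 11) ≠ 0 := by
        intro hd
        have h1 := congrArg (Int.cast : ℤ → ZMod 11) hdet
        push_cast at h1
        rw [hc', hd, mul_zero, mul_zero, sub_zero] at h1
        exact absurd h1 (by decide)
      unfold G
      push_cast
      rw [hc', zero_mul, zero_mul, zero_add, zero_add, f_scale _ _ _ hd']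
    rw [e3] at e2
    generalize u (cusp m n) = x1 at *
    generalize u (cusp m' n') = x2 at *
    generalize u (cusp (a * m + b * n) (c * m + d * n)) = x3 at *
    generalize u (cusp (a * m' + b * n') (c * m' + d * n')) = x4 at *
    generalize G n n' = g at *
    clear e3 p1 p2 h
    revert e1 e2
    revert x1 x2 x3 x4 g
    decide)
  have h1 := key x
  have h2 := key y
  generalize u (mob a b c d x) = x1 at *
  generalize u (mob a b c d y) = x2 at *
  generalize u (mob a b c d ∞) = x3 at *
  generalize u x = x4 at *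
  generalize u y = x5 at *
  generalize u ∞ = x6 at *
  clear key
  revert h1 h2
  revert x1 x2 x3 x4 x5 x6
  decide

/-- the three values -/
theorem G_hecke (c d : ℤ) :
    G c (2 * d) + G (2 * c) d + (G (2 * c) (c + d) + G (c + d) (2 * d)) = 0 := by
  unfold G
  push_cast
  exact f_hecke _ _

theorem G_half (c d : ℤ) : G c (2 * d) = G (2 * c) (4 * d) := by
  unfold G
  push_cast
  have h := f_scale 2 c (2 * d) (by decide)
  rw [← h]
  congr 1
  ring

/-- the path from `m' / (2 n')` to `m / (2 n)` -/
theorem half (m m' n n' : ℤ) (h : m * n' - m' * n = 1 ∨ m * n' - m' * n = -1) :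
    (2 ∣ m → u (cusp m (2 * n)) + u (cusp m' (2 * n')) = G n (2 * n')) ∧
    (2 ∣ m' → u (cusp m (2 * n)) + u (cusp m' (2 * n')) = G (2 * n) n') ∧
    (¬ 2 ∣ m → ¬ 2 ∣ m' → u (cusp m (2 * n)) + u (cusp m' (2 * n')) =
      G (2 * n) (n + n') + G (n + n') (2 * n')) := by
  refine ⟨?_, ?_, ?_⟩
  · rintro ⟨k, rfl⟩
    rw [cusp_two]
    exact edge k m' n (2 * n') (by
      rcases h with h | h
      · exact Or.inl (by linarith)
      · exact Or.inr (by linarith))
  · rintro ⟨k, rfl⟩
    rw [cusp_two]
    exact edge m k (2 * n) n' (by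
      rcases h with h | h
      · exact Or.inl (by linarith)
      · exact Or.inr (by linarith))
  · intro h1 h2
    obtain ⟨k, hk⟩ : ∃ k, m + m' = 2 * k := ⟨(m + m') / 2, by omega⟩
    have e1 := edge m k (2 * n) (n + n') (by
      rcases h with h | h
      · exact Or.inl (by linear_combination h + n * hk)
      · exact Or.inr (by linear_combination h + n * hk))
    have e2 := edge k m' (n + n') (2 * n') (by
      rcases h with h | h
      · exact Or.inl (by linear_combination h - n' * hk)
      · exact Or.inr (by linear_combination h - n' * hk))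
    rw [← e1, ← e2]
    generalize u (cusp m (2 * n)) = x1
    generalize u (cusp m' (2 * n')) = x2
    generalize u (cusp k (n + n')) = x3
    revert x1 x2 x3
    decide

/-- the path from `2 m' / n'` to `2 m / n` -/
theorem double (m m' n n' : ℤ) (h : m * n' - m' * n = 1 ∨ m * n' - m' * n = -1) :
    (2 ∣ n → u (cusp (2 * m) n) + u (cusp (2 * m') n') = G n (2 * n')) ∧
    (2 ∣ n' → u (cusp (2 * m) n) + u (cusp (2 * m') n') = G (2 * n) n') ∧
    (¬ 2 ∣ n → ¬ 2 ∣ n' → u (cusp (2 * m) n) + u (cusp (2 * m') n') =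
      G (2 * n) (n + n') + G (n + n') (2 * n')) := by
  have hs : ∀ c d : ℤ, G (2 * c) (2 * d) = G c d := by
    intro c d
    unfold G
    push_cast
    exact f_scale 2 _ _ (by decide)
  refine ⟨?_, ?_, ?_⟩
  · rintro ⟨k, rfl⟩
    rw [cusp_two, hs]
    exact edge m (2 * m') k n' (by
      rcases h with h | h
      · exact Or.inl (by linarith)
      · exact Or.inr (by linarith))
  · rintro ⟨k, rfl⟩
    rw [cusp_two, hs]
    exact edge (2 * m) m' n k (by
      rcases h with h | h
      · exact Or.inl (by linarith)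
      · exact Or.inr (by linarith))
  · intro h1 h2
    obtain ⟨k, hk⟩ : ∃ k, n + n' = 2 * k := ⟨(n + n') / 2, by omega⟩
    rw [hk, hs, hs]
    have e1 := edge (2 * m) (m + m') n k (by
      rcases h with h | h
      · exact Or.inl (by linear_combination h - m * hk)
      · exact Or.inr (by linear_combination h - m * hk))
    have e2 := edge (m + m') (2 * m') k n' (by
      rcases h with h | h
      · exact Or.inl (by linear_combination h + m' * hk)
      · exact Or.inr (by linear_combination h + m' * hk))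
    rw [← e1, ← e2]
    generalize u (cusp (2 * m) n) = x1
    generalize u (cusp (2 * m') n') = x2
    generalize u (cusp (m + m') k) = x3
    revert x1 x2 x3
    decide

theorem hecke_const (x : OnePoint ℚ) :
    u (mob 1 0 0 2 x) + u (mob 1 1 0 2 x) + u (mob 2 0 0 1 x) =
      u (mob 1 0 0 2 ∞) + u (mob 1 1 0 2 ∞) + u (mob 2 0 0 1 ∞) := by
  refine const (fun x => u (mob 1 0 0 2 x) + u (mob 1 1 0 2 x) + u (mob 2 0 0 1 x)) ?_ x
  intro m m' n n' h
  obtain ⟨p1, p2⟩ := prim h
  rw [mob_cusp _ _ _ _ m n p1, mob_cusp _ _ _ _ m' n' p2, mob_cusp _ _ _ _ m n p1,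
    mob_cusp _ _ _ _ m' n' p2, mob_cusp _ _ _ _ m n p1, mob_cusp _ _ _ _ m' n' p2]
  simp only [one_mul, zero_mul, add_zero, zero_add]
  have a := half m m' n n' h
  have b := half (m + n) (m' + n') n n' (by
    rcases h with h | h
    · exact Or.inl (by linarith)
    · exact Or.inr (by linarith))
  have c := double m m' n n' h
  have g := G_hecke n n'
  have hodd : ¬ (2 : ℤ) ∣ m * n' - m' * n := by
    rcases h with h | h <;> rw [h] <;> decide
  generalize u (cusp m (2 * n)) = x1 at *
  generalize u (cusp m' (2 * n')) = x2 at *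
  generalize u (cusp (m + n) (2 * n)) = x3 at *
  generalize u (cusp (m' + n') (2 * n')) = x4 at *
  generalize u (cusp (2 * m) n) = x5 at *
  generalize u (cusp (2 * m') n') = x6 at *
  simp only [← even_iff_two_dvd, Int.even_add] at a b c
  rw [← even_iff_two_dvd, Int.even_sub, Int.even_mul, Int.even_mul] at hodd
  have h2 : (2 : ZMod 2) = 0 := by decide
  obtain ⟨a1, a2, a3⟩ := a
  obtain ⟨b1, b2, b3⟩ := b
  obtain ⟨c1, c2, c3⟩ := c
  by_cases q1 : Even m <;> by_cases q2 : Even m' <;> by_cases q3 : Even n <;>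
    by_cases q4 : Even n' <;> simp only [q1, q2, q3, q4, or_true, or_false, or_self,
      iff_self, not_true_eq_false, not_false_eq_true, iff_true, iff_false,
      forall_const, IsEmpty.forall_iff] at a1 a2 a3 b1 b2 b3 c1 c2 c3 hodd
  · linear_combination a1 + b3 + c2 + g - (x2 + x4 + x6) * h2
  · linear_combination a1 + b2 + c3 + g - (x2 + x4 + x6) * h2
  · linear_combination a2 + b3 + c1 + g - (x2 + x4 + x6) * h2
  · linear_combination a2 + b1 + c3 + g - (x2 + x4 + x6) * h2
  · linear_combination a3 + b2 + c1 + g - (x2 + x4 + x6) * h2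
  · linear_combination a3 + b1 + c2 + g - (x2 + x4 + x6) * h2

/-- the symbol -/
noncomputable def Phi (x y : OnePoint ℚ) : MvPolynomial (Fin 2) (ZMod 2) := C (u x + u y)

theorem act_C (a b c d : ℤ) (z : ZMod 2) : act a b c d (C z : MvPolynomial (Fin 2) (ZMod 2)) = C z := by
  unfold act
  rw [aeval_C]
  rfl

theorem Phi_modSym : IsModSym 11 0 (1 : DirichletCharacter (ZMod 2) 11) Phi where
  homog x y := isHomogeneous_C _ _
  add x y z := by
    unfold Phi
    rw [← C_add]
    congr 1
    generalize u x = a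
    generalize u y = b
    generalize u z = c
    revert a b c
    decide
  equiv a b c d hdet hc x y := by
    have hc' : ((c : ℤ) : ZMod 11) = 0 := (ZMod.intCast_zmod_eq_zero_iff_dvd c 11).2 (by exact_mod_cast hc)
    have hd' : IsUnit ((d : ℤ) : ZMod 11) := by
      have h1 := congrArg (Int.cast : ℤ → ZMod 11) hdet
      push_cast at h1
      rw [hc', mul_zero, sub_zero] at h1
      exact IsUnit.of_mul_eq_one _ (by rw [mul_comm]; exact h1)
    rw [MulChar.one_apply hd', C_1, one_mul]
    unfold Phi
    rw [act_C, inv a b c d hdet (by exact_mod_cast hc) x y]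

theorem Phi_hecke (x y : OnePoint ℚ) :
    heckeT 2 11 (1 : DirichletCharacter (ZMod 2) 11) Phi x y = 0 := by
  unfold heckeT Phi
  rw [Finset.sum_range_succ, Finset.sum_range_one, act_C, act_C, act_C]
  have h2 : IsUnit ((2 : ℕ) : ZMod 11) := by decide
  rw [MulChar.one_apply h2, C_1, one_mul, ← C_add, ← C_add]
  have h1 := hecke_const x
  have h3 := hecke_const y
  push_cast
  rw [← C_0]
  congr 1
  generalize u (mob 1 0 0 2 x) = a1 at *
  generalize u (mob 1 1 0 2 x) = a2 at *
  generalize u (mob 2 0 0 1 x) = a3 at *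
  generalize u (mob 1 0 0 2 y) = b1 at *
  generalize u (mob 1 1 0 2 y) = b2 at *
  generalize u (mob 2 0 0 1 y) = b3 at *
  generalize u (mob 1 0 0 2 ∞) + u (mob 1 1 0 2 ∞) + u (mob 2 0 0 1 ∞) = c at *
  have h4 := h1.trans h3.symm
  clear h1 h3
  revert a1 a2 a3 b1 b2 b3
  decide

theorem Phi_ne : Phi (cusp 0 1) (cusp 1 3) ≠ 0 := by
  unfold Phi
  rw [edge 0 1 1 3 (Or.inr (by norm_num))]
  have : G 1 3 = 1 := by
    unfold G
    push_cast
    exact f_13
  rw [this, C_1]
  exact one_ne_zero

/-- **Certificate**: all hypotheses of `NonordinaryMu` hold for `p = 2`, `N = 11`, `g = 0`. -/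
theorem instance_exists : ∃ Φ : OnePoint ℚ → OnePoint ℚ → MvPolynomial (Fin 2) (ZMod 2),
    Nat.Prime 2 ∧ Nat.Coprime 2 11 ∧ 0 + 2 ≤ 2 ∧
    IsModSym 11 0 (1 : DirichletCharacter (ZMod 2) 11) Φ ∧
    (∀ x y, heckeT 2 11 (1 : DirichletCharacter (ZMod 2) 11) Φ x y = 0) ∧ ∃ x y, Φ x y ≠ 0 :=
  ⟨Phi, Nat.prime_two, by decide, le_refl _, Phi_modSym, Phi_hecke, _, _, Phi_ne⟩

end Pool.Agent.VAC2.NonordinaryMu
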