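import Pool.Agent.MuW2.Merged

/-!
Vacuity certificate for `MP_b78433_nt.OrdinaryBranches` (helper file, not a hand-in).

For `p = 3`, `N = 61`, weight two, trivial nebentypus, the explicit function `lam` on the cusps
(`lam (r / s)` is the logarithm modulo `3` of `s` modulo `61`, respectively minus that of `r` if `61`
divides `s`) defines a modular symbol `Phi x y = lam y - lam x` which is not a boundary symbol and
satisfies `T_3 Phi = Phi`. All hypotheses of the theorem except the last one (`hW`) hold, and the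
conclusion is false: the stabilised symbol is zero. So the main hypotheses are consistent, the
conclusion is a real condition, and the hypothesis `hW` cannot be dropped.
-/

open MvPolynomial OnePoint Pool.Agent.MuSym Pool.Agent.MuW2

namespace Pool.Agent.VAC2.OrdinaryBranches

instance : Fact (Nat.Prime 61) := ⟨by norm_num⟩

/-- The logarithm modulo `3` on the units modulo `61`. -/
def L (x : ZMod 61) : ZMod 3 := if x ^ 20 = 47 then 1 else if x ^ 20 = 13 then 2 else 0

lemma pow20 : ∀ x : ZMod 61, x ≠ 0 → x ^ 20 = 1 ∨ x ^ 20 = 47 ∨ x ^ 20 = 13 := by decide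

lemma L_mul {x y : ZMod 61} (hx : x ≠ 0) (hy : y ≠ 0) : L (x * y) = L x + L y := by
  have e1 : (47 : ZMod 61) * 47 = 13 := by decide
  have e2 : (47 : ZMod 61) * 13 = 1 := by decide
  have e3 : (13 : ZMod 61) * 47 = 1 := by decide
  have e4 : (13 : ZMod 61) * 13 = 47 := by decide
  have n1 : (1 : ZMod 61) ≠ 47 := by decide
  have n2 : (1 : ZMod 61) ≠ 13 := by decide
  have n3 : (13 : ZMod 61) ≠ 47 := by decide
  have n4 : (47 : ZMod 61) ≠ 13 := by decide
  have m1 : (1 : ZMod 3) + 1 = 2 := by decide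
  have m2 : (1 : ZMod 3) + 2 = 0 := by decide
  have m3 : (2 : ZMod 3) + 1 = 0 := by decide
  have m4 : (2 : ZMod 3) + 2 = 1 := by decide
  unfold L
  rw [mul_pow]
  rcases pow20 x hx with h | h | h <;> rcases pow20 y hy with h' | h' | h' <;>
    rw [h, h'] <;> simp only [one_mul, mul_one, e1, e2, e3, e4, n1, n2, n3, n4, if_true, if_false,
      m1, m2, m3, m4, zero_add, add_zero]

lemma L_neg (x : ZMod 61) : L (-x) = L x := by
  unfold L
  rw [Even.neg_pow (by decide)]

lemma L_one : L 1 = 0 := by decide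
lemma L_three : L 3 = 0 := by decide
lemma L_two : L 2 = 1 := by decide

/-- The function of an integral vector. -/
def ell (u v : ℤ) : ZMod 3 := if (v : ZMod 61) = 0 then -L u else L v

lemma ell_neg (u v : ℤ) : ell (-u) (-v) = ell u v := by
  unfold ell
  push_cast
  simp only [L_neg, neg_eq_zero]

lemma ell_mul {k : ℤ} (hk : (k : ZMod 61) ≠ 0) (hL : L k = 0) {u v : ℤ}
    (h : (u : ZMod 61) ≠ 0 ∨ (v : ZMod 61) ≠ 0) : ell (k * u) (k * v) = ell u v := by
  unfold ell
  push_cast
  by_cases hv : (v : ZMod 61) = 0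
  · have hu : (u : ZMod 61) ≠ 0 := by tauto
    rw [if_pos (by rw [hv, mul_zero]), if_pos hv, L_mul hk hu, hL, zero_add]
  · rw [if_neg (mul_ne_zero hk hv), if_neg hv, L_mul hk hv, hL, zero_add]

/-- The cusp of an integral vector. -/
noncomputable def cusp (u v : ℤ) : OnePoint ℚ := if v = 0 then ∞ else ((u / v : ℚ) : OnePoint ℚ)

/-- The function on the cusps. -/
noncomputable def lam (x : OnePoint ℚ) : ZMod 3 :=
  x.elim 0 (fun r : ℚ => ell r.num r.den)

lemma lam_infty : lam ∞ = 0 := rfl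
lemma lam_coe (r : ℚ) : lam (r : OnePoint ℚ) = ell r.num r.den := rfl

lemma unit_of_gcd {u v : ℤ} (h : ¬ ((61 : ℤ) ∣ u ∧ (61 : ℤ) ∣ v)) :
    (u : ZMod 61) ≠ 0 ∨ (v : ZMod 61) ≠ 0 := by
  by_contra hcon
  push Not at hcon
  refine h ⟨?_, ?_⟩
  · exact_mod_cast (ZMod.intCast_zmod_eq_zero_iff_dvd u 61).mp hcon.1
  · exact_mod_cast (ZMod.intCast_zmod_eq_zero_iff_dvd v 61).mp hcon.2

/-- The value at the cusp of a vector, if the gcd of its coordinates is harmless. -/
lemma lam_cusp {u v k : ℤ} {u' v' : ℤ} (hu : u = k * u') (hv : v = k * v')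
    (hco : IsCoprime u' v') (hk : (k : ZMod 61) ≠ 0) (hL : L k = 0) :
    lam (cusp u v) = ell u v := by
  have hk0 : k ≠ 0 := by rintro rfl; simp at hk
  have hne : (u' : ZMod 61) ≠ 0 ∨ (v' : ZMod 61) ≠ 0 := by
    apply unit_of_gcd
    rintro ⟨h1, h2⟩
    have := hco.isUnit_of_dvd' h1 h2
    rw [Int.isUnit_iff] at this
    omega
  rw [hu, hv, ell_mul hk hL hne]
  unfold cusp
  by_cases hv0 : v' = 0
  · subst hv0
    rw [mul_zero, if_pos rfl, lam_infty]
    have h1 : IsUnit u' := isCoprime_zero_right.mp hco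
    rcases Int.isUnit_iff.mp h1 with h | h
    · rw [h]; unfold ell; simp [L_one]
    · rw [h]; unfold ell; simp [L_neg, L_one]
  · rw [if_neg (mul_ne_zero hk0 hv0), lam_coe]
    have hq : (((k * u' : ℤ) : ℚ) / ((k * v' : ℤ) : ℚ)) = (u' : ℚ) / (v' : ℚ) := by
      push_cast
      have : (k : ℚ) ≠ 0 := by exact_mod_cast hk0
      have h2 : (v' : ℚ) ≠ 0 := by exact_mod_cast hv0
      field_simp
    rw [hq]
    rcases lt_or_gt_of_ne hv0 with hneg | hpos
    · have e : (u' : ℚ) / (v' : ℚ) = ((-u' : ℤ) : ℚ) / ((-v' : ℤ) : ℚ) := by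
        push_cast; rw [neg_div_neg_eq]
      have hco' : Nat.Coprime (-u').natAbs (-v').natAbs := by
        rw [Int.natAbs_neg, Int.natAbs_neg]
        exact Int.isCoprime_iff_nat_coprime.mp hco
      rw [e, Rat.num_div_eq_of_coprime (by omega) hco', Rat.den_div_eq_of_coprime (by omega) hco',
        ell_neg]
    · have hco' : Nat.Coprime u'.natAbs v'.natAbs := Int.isCoprime_iff_nat_coprime.mp hco
      rw [Rat.num_div_eq_of_coprime hpos hco', Rat.den_div_eq_of_coprime hpos hco']

/-- Every cusp comes from a coprime vector. -/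
lemma exists_cusp (x : OnePoint ℚ) : ∃ u v : ℤ, IsCoprime u v ∧ x = cusp u v := by
  induction x using OnePoint.rec with
  | infty => exact ⟨1, 0, isCoprime_one_left, by simp [cusp]⟩
  | coe r =>
    refine ⟨r.num, r.den, Int.isCoprime_iff_nat_coprime.mpr (by simpa using r.reduced), ?_⟩
    unfold cusp
    rw [if_neg (by exact_mod_cast r.den_nz)]
    congr 1
    push_cast
    exact (Rat.num_div_den r).symm

lemma mob_cusp (a b c d u v : ℤ) (huv : IsCoprime u v) (_hdet : a * d - b * c ≠ 0) :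
    mob a b c d (cusp u v) = cusp (a * u + b * v) (c * u + d * v) := by
  unfold cusp
  by_cases hv : v = 0
  · subst hv
    have hu : IsUnit u := isCoprime_zero_right.mp huv
    have hu0 : u ≠ 0 := hu.ne_zero
    simp only [if_true, mul_zero, add_zero]
    unfold mob
    by_cases hc : c = 0
    · simp [hc]
    · have hcu : c * u ≠ 0 := mul_ne_zero hc hu0
      rw [if_neg hcu]
      show (if c = 0 then ∞ else ((a / c : ℚ) : OnePoint ℚ)) = _
      rw [if_neg hc]
      congr 1
      push_cast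
      have h1 : (u : ℚ) ≠ 0 := by exact_mod_cast hu0
      have h2 : (c : ℚ) ≠ 0 := by exact_mod_cast hc
      field_simp
  · rw [if_neg hv]
    have hvQ : (v : ℚ) ≠ 0 := by exact_mod_cast hv
    show (if (c : ℚ) * (u / v) + d = 0 then ∞
      else (((a * (u / v) + b) / (c * (u / v) + d) : ℚ) : OnePoint ℚ)) = _
    have key : (c : ℚ) * (u / v) + d = ((c * u + d * v : ℤ) : ℚ) / v := by
      push_cast
      field_simp
    by_cases h0 : c * u + d * v = 0
    · rw [if_pos (by rw [key, h0]; simp), if_pos h0]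
    · have h0Q : ((c * u + d * v : ℤ) : ℚ) ≠ 0 := by exact_mod_cast h0
      rw [if_neg (by rw [key]; exact div_ne_zero h0Q hvQ), if_neg h0]
      congr 1
      rw [key]
      push_cast
      push_cast at h0Q
      field_simp

/-- The transformation law under `Γ₀(61)`. -/
lemma lam_mob {a b c d : ℤ} (hdet : a * d - b * c = 1) (hc : (61 : ℤ) ∣ c) (x : OnePoint ℚ) :
    lam (mob a b c d x) = lam x + L d := by
  obtain ⟨u, v, huv, rfl⟩ := exists_cusp x
  have hco : IsCoprime (a * u + b * v) (c * u + d * v) := by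
    obtain ⟨r, s, hrs⟩ := huv
    refine ⟨r * d - s * c, s * a - r * b, ?_⟩
    linear_combination (r * u + s * v) * hdet + hrs
  have hne : (u : ZMod 61) ≠ 0 ∨ (v : ZMod 61) ≠ 0 := by
    apply unit_of_gcd
    rintro ⟨h1, h2⟩
    have := huv.isUnit_of_dvd' h1 h2
    rw [Int.isUnit_iff] at this
    omega
  have h1 : ((1 : ℤ) : ZMod 61) ≠ 0 := by decide
  have h2 : L ((1 : ℤ) : ZMod 61) = 0 := by decide
  rw [mob_cusp a b c d u v huv (by rw [hdet]; exact one_ne_zero),
    lam_cusp (one_mul _).symm (one_mul _).symm hco h1 h2,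
    lam_cusp (one_mul _).symm (one_mul _).symm huv h1 h2]
  have hc0 : (c : ZMod 61) = 0 := (ZMod.intCast_zmod_eq_zero_iff_dvd c 61).mpr (by exact_mod_cast hc)
  have had : (a : ZMod 61) * (d : ZMod 61) = 1 := by
    have := congrArg (fun z : ℤ => (z : ZMod 61)) hdet
    push_cast at this
    rw [hc0, mul_zero, sub_zero] at this
    exact this
  have ha : (a : ZMod 61) ≠ 0 := left_ne_zero_of_mul_eq_one had
  have hd : (d : ZMod 61) ≠ 0 := right_ne_zero_of_mul_eq_one had
  have hLad : L a + L d = 0 := by rw [← L_mul ha hd, had, L_one]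
  unfold ell
  push_cast
  rw [hc0, zero_mul, zero_add]
  by_cases hv : (v : ZMod 61) = 0
  · have hu : (u : ZMod 61) ≠ 0 := by tauto
    rw [hv, mul_zero, mul_zero, add_zero, if_pos rfl, if_pos rfl, L_mul ha hu]
    linear_combination -hLad
  · rw [if_neg (mul_ne_zero hd hv), if_neg hv, L_mul hd hv, add_comm]

/-- The maps in the Hecke operator `T_3` do not change `lam`. -/
lemma lam_hecke {a b c d : ℤ} (hdet : a * d - b * c = 3) (hc : (61 : ℤ) ∣ c)
    (ha : L a = 0) (hd : L d = 0) (x : OnePoint ℚ) :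
    lam (mob a b c d x) = lam x := by
  obtain ⟨u, v, huv, rfl⟩ := exists_cusp x
  have hne : (u : ZMod 61) ≠ 0 ∨ (v : ZMod 61) ≠ 0 := by
    apply unit_of_gcd
    rintro ⟨h1, h2⟩
    have := huv.isUnit_of_dvd' h1 h2
    rw [Int.isUnit_iff] at this
    omega
  have h1 : ((1 : ℤ) : ZMod 61) ≠ 0 := by decide
  have h2 : L ((1 : ℤ) : ZMod 61) = 0 := by decide
  -- the gcd divides `3`
  obtain ⟨r, s, hrs⟩ := huv
  set U := a * u + b * v with hU
  set V := c * u + d * v with hV
  have h3 : (r * d - s * c) * U + (s * a - r * b) * V = 3 := by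
    rw [hU, hV]
    linear_combination (r * u + s * v) * hdet + 3 * hrs
  have hUV : U ≠ 0 ∨ V ≠ 0 := by
    by_contra hcon
    push Not at hcon
    rw [hcon.1, hcon.2] at h3
    simp at h3
  have hg : ((Int.gcd U V : ℕ) : ℤ) ∣ 3 := by
    rw [← h3]
    exact dvd_add ((Int.gcd_dvd_left U V).mul_left _) ((Int.gcd_dvd_right U V).mul_left _)
  have hg' : Int.gcd U V ∣ 3 := by exact_mod_cast hg
  have hg1 : Int.gcd U V = 1 ∨ Int.gcd U V = 3 := (Nat.dvd_prime Nat.prime_three).mp hg'
  have hgpos : 0 < Int.gcd U V := by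
    rcases hg1 with h | h <;> omega
  obtain ⟨U', V', hco, hU', hV'⟩ := Int.exists_gcd_one hgpos
  have hco' : IsCoprime U' V' := Int.isCoprime_iff_gcd_eq_one.mpr hco
  have hk : (((Int.gcd U V : ℕ) : ℤ) : ZMod 61) ≠ 0 := by
    rcases hg1 with h | h <;> rw [h] <;> decide
  have hkL : L (((Int.gcd U V : ℕ) : ℤ) : ZMod 61) = 0 := by
    rcases hg1 with h | h <;> rw [h] <;> decide
  rw [mob_cusp a b c d u v ⟨r, s, hrs⟩ (by rw [hdet]; norm_num), ← hU, ← hV,
    lam_cusp (by rw [mul_comm]; exact hU') (by rw [mul_comm]; exact hV') hco' hk hkL,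
    lam_cusp (one_mul _).symm (one_mul _).symm ⟨r, s, hrs⟩ h1 h2]
  have hc0 : (c : ZMod 61) = 0 := (ZMod.intCast_zmod_eq_zero_iff_dvd c 61).mpr (by exact_mod_cast hc)
  have had : (a : ZMod 61) * (d : ZMod 61) = 3 := by
    have := congrArg (fun z : ℤ => (z : ZMod 61)) hdet
    push_cast at this
    rw [hc0, mul_zero, sub_zero] at this
    exact this
  have hne3 : (3 : ZMod 61) ≠ 0 := by decide
  have ha0 : (a : ZMod 61) ≠ 0 := by rintro h; rw [h, zero_mul] at had; exact hne3 had.symm
  have hd0 : (d : ZMod 61) ≠ 0 := by rintro h; rw [h, mul_zero] at had; exact hne3 had.symm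
  rw [hU, hV]
  unfold ell
  push_cast
  rw [hc0, zero_mul, zero_add]
  by_cases hv : (v : ZMod 61) = 0
  · have hu : (u : ZMod 61) ≠ 0 := by tauto
    rw [hv, mul_zero, mul_zero, add_zero, if_pos rfl, if_pos rfl, L_mul ha0 hu, ha, zero_add]
  · rw [if_neg (mul_ne_zero hd0 hv), if_neg hv, L_mul hd0 hv, hd, zero_add]

/-- The symbol. -/
noncomputable def Phi (x y : OnePoint ℚ) : MvPolynomial (Fin 2) (ZMod 3) := C (lam y - lam x)

instance : Fact (Nat.Prime 3) := ⟨Nat.prime_three⟩

lemma isModSym : IsModSym 61 0 (1 : DirichletCharacter (ZMod 3) 61) Phi where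
  homog x y := isHomogeneous_C _ _
  add x y z := by
    unfold Phi
    rw [← map_add]
    congr 1
    ring
  equiv a b c d hdet hc x y := by
    have hc' : (61 : ℤ) ∣ c := by exact_mod_cast hc
    have hc0 : (c : ZMod 61) = 0 := (ZMod.intCast_zmod_eq_zero_iff_dvd c 61).mpr (by exact_mod_cast hc)
    have had : (a : ZMod 61) * (d : ZMod 61) = 1 := by
      have := congrArg (fun z : ℤ => (z : ZMod 61)) hdet
      push_cast at this
      rw [hc0, mul_zero, sub_zero] at this
      exact this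
    have hd : IsUnit (d : ZMod 61) := IsUnit.of_mul_eq_one_right _ had
    unfold Phi
    rw [act_const, lam_mob hdet hc', lam_mob hdet hc', MulChar.one_apply hd, map_one, one_mul]
    congr 1
    ring

lemma hecke_eq (x y : OnePoint ℚ) :
    heckeT 3 61 (1 : DirichletCharacter (ZMod 3) 61) Phi x y = C 1 * Phi x y := by
  have hj : ∀ j ∈ Finset.range 3, act (3 : ℕ) (-(j : ℤ)) 0 1
      (Phi (mob 1 j 0 (3 : ℕ) x) (mob 1 j 0 (3 : ℕ) y)) = Phi x y := by
    intro j _
    unfold Phi
    rw [act_const, lam_hecke (by norm_num) (dvd_zero _) (by decide) (by decide),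
      lam_hecke (by norm_num) (dvd_zero _) (by decide) (by decide)]
  have h3 : IsUnit ((3 : ℕ) : ZMod 61) := by
    rw [isUnit_iff_ne_zero]
    decide
  have hl : act 1 0 0 (3 : ℕ) (Phi (mob (3 : ℕ) 0 0 1 x) (mob (3 : ℕ) 0 0 1 y)) = Phi x y := by
    unfold Phi
    rw [act_const, lam_hecke (by norm_num) (dvd_zero _) (by decide) (by decide),
      lam_hecke (by norm_num) (dvd_zero _) (by decide) (by decide)]
  unfold heckeT
  rw [Finset.sum_congr rfl hj, hl, MulChar.one_apply h3, map_one, one_mul, Finset.sum_const,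
    Finset.card_range]
  have h4 : (3 : MvPolynomial (Fin 2) (ZMod 3)) = 0 := by
    have : (3 : ZMod 3) = 0 := by decide
    rw [← map_ofNat (C : ZMod 3 →+* MvPolynomial (Fin 2) (ZMod 3)) 3, this, map_zero]
  rw [nsmul_eq_mul]
  push_cast
  rw [h4, zero_mul, zero_add]

lemma not_boundary : ¬ IsBoundary 61 0 (1 : DirichletCharacter (ZMod 3) 61) Phi := by
  rintro ⟨B, hB, hPhi, hinv⟩
  have hd : IsUnit ((2 : ℤ) : ZMod 61) := by
    rw [isUnit_iff_ne_zero]
    decide
  have h1 := hinv 31 1 61 2 (by norm_num) (by norm_num) ∞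
  have hconst : B ∞ = C (coeff 0 (B ∞)) := by
    rw [← totalDegree_eq_zero_iff_eq_C]
    exact Nat.le_zero.mp (hB ∞).totalDegree_le
  rw [MulChar.one_apply hd, map_one, one_mul, hconst, act_const, ← hconst] at h1
  have h2 := hPhi ∞ (mob 31 1 61 2 ∞)
  rw [h1, sub_self] at h2
  unfold Phi at h2
  rw [lam_mob (by norm_num) (by norm_num)] at h2
  have h3 : lam ∞ + L ((2 : ℤ) : ZMod 61) - lam ∞ = 0 := by
    have := congrArg (coeff 0) h2
    simpa using this
  rw [add_sub_cancel_left] at h3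
  exact absurd h3 (by decide)

lemma stab_zero (x y : OnePoint ℚ) :
    stab 3 (1 : DirichletCharacter (ZMod 3) 61) 1 Phi x y = 0 := by
  have h3 : IsUnit ((3 : ℕ) : ZMod 61) := by
    rw [isUnit_iff_ne_zero]
    decide
  unfold stab
  unfold Phi
  rw [act_const, lam_hecke (by norm_num) (dvd_zero _) (by decide) (by decide),
    lam_hecke (by norm_num) (dvd_zero _) (by decide) (by decide), MulChar.one_apply h3,
    div_one, map_one, one_mul, sub_self]

/-- **Certificate.** All hypotheses except `hW` hold for `Phi`, `p = 3`, `N = 61`, `a = 1`, and the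
conclusion of `OrdinaryBranches.result` is false for it. -/
theorem certificate :
    IsModSym 61 0 (1 : DirichletCharacter (ZMod 3) 61) Phi ∧
    (∀ x y, heckeT 3 61 (1 : DirichletCharacter (ZMod 3) 61) Phi x y = C 1 * Phi x y) ∧
    ¬ IsBoundary 61 0 (1 : DirichletCharacter (ZMod 3) 61) Phi ∧
    ¬ ∃ i < 3 - 1, (∀ s, HasSign s Phi → (-1) ^ i = s) ∧
      ∃ n ≥ 1, ∃ c, branch 3 (stab 3 (1 : DirichletCharacter (ZMod 3) 61) 1 Phi) n i c ≠ 0 := by
  refine ⟨isModSym, hecke_eq, not_boundary, ?_⟩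
  rintro ⟨i, -, -, n, -, c, hne⟩
  apply hne
  unfold branch
  refine Finset.sum_eq_zero fun b _ => ?_
  unfold val
  rw [stab_zero, map_zero, mul_zero]

end Pool.Agent.VAC2.OrdinaryBranches
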