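import Mathlib
import Pool.Agent.RI.Stmts2

/-!
Certificate (not a hand-in) for `MP_b78433_nt / RelativeDensity`.

* `layer`: for every odd prime `p` and every `n` the layer `ℚ_n` exists (`IsLayer p n B` for some
  `B`), so the set of primes in the theorem is defined by a real condition.
* `not_density`: a finite set of primes satisfies `DensityGE S δ` for no `δ > 0`.
* `instance_one`: the hypotheses of part (1) hold for `k = ℚ(i)`, `K = k(√(1 + 2 i))`, `m = 2`
  (and those of part (2) for `F = k`); the bound is `3 / 8 > 0`.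
-/

set_option autoImplicit false

open NumberField IntermediateField Pool.Agent.RI Polynomial

namespace Pool.Agent.VAC2.RelativeDensity

/-! ### Quadratic extensions inside `ℂ` -/

section Quad

variable {F : Type} [Field F] [Algebra F ℂ] {x : ℂ} {c : F}

theorem quad_int (hx : x ^ 2 = algebraMap F ℂ c) : IsIntegral F x :=
  ⟨X ^ 2 - C c, monic_X_pow_sub_C c two_ne_zero, by simp [hx]⟩

theorem quad_mem (hx : x ^ 2 = algebraMap F ℂ c) {z : ℂ} (hz : z ∈ F⟮x⟯) :
    ∃ a b : F, z = algebraMap F ℂ a + algebraMap F ℂ b * x := by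
  have h1 : z ∈ Algebra.adjoin F {x} := by
    rw [← IntermediateField.adjoin_simple_toSubalgebra_of_isAlgebraic (quad_int hx).isAlgebraic]
    exact hz
  clear hz
  induction h1 using Algebra.adjoin_induction with
  | mem y hy =>
    rw [Set.mem_singleton_iff] at hy
    exact ⟨0, 1, by simp [hy]⟩
  | algebraMap r => exact ⟨r, 0, by simp⟩
  | add y z _ _ hy hz =>
    obtain ⟨a, b, rfl⟩ := hy
    obtain ⟨a', b', rfl⟩ := hz
    exact ⟨a + a', b + b', by simp only [map_add]; ring⟩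
  | mul y z _ _ hy hz =>
    obtain ⟨a, b, rfl⟩ := hy
    obtain ⟨a', b', rfl⟩ := hz
    refine ⟨a * a' + b * b' * c, a * b' + a' * b, ?_⟩
    simp only [map_add, map_mul]
    rw [← hx]
    ring

theorem quad_finrank (hx : x ^ 2 = algebraMap F ℂ c) (h : x ∉ (algebraMap F ℂ).range) :
    Module.finrank F F⟮x⟯ = 2 := by
  rw [IntermediateField.adjoin.finrank (quad_int hx)]
  apply le_antisymm
  · have h1 : minpoly F x ∣ X ^ 2 - C c := minpoly.dvd F x (by simp [hx])
    have h2 := Polynomial.natDegree_le_of_dvd h1 (monic_X_pow_sub_C c two_ne_zero).ne_zero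
    rwa [natDegree_X_pow_sub_C] at h2
  · exact (minpoly.two_le_natDegree_iff (quad_int hx)).2 h

end Quad

/-! ### The instance `k = ℚ(i)`, `K = k(√(1 + 2 i))` -/

/-- `ℚ(i)` -/
noncomputable def k : IntermediateField ℚ ℂ := ℚ⟮Complex.I⟯

theorem I_sq : Complex.I ^ 2 = algebraMap ℚ ℂ (-1) := by
  rw [Complex.I_sq, map_neg, map_one]

theorem I_not : Complex.I ∉ (algebraMap ℚ ℂ).range := by
  rintro ⟨q, hq⟩
  have := congrArg Complex.im hq
  simp at this

theorem k_rank : Module.finrank ℚ k = 2 := quad_finrank I_sq I_not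

theorem k_mem {z : ℂ} (hz : z ∈ k) : ∃ a b : ℚ, z = (a : ℂ) + b * Complex.I := by
  obtain ⟨a, b, h⟩ := quad_mem I_sq hz
  exact ⟨a, b, by simpa using h⟩

theorem I_mem : Complex.I ∈ k := IntermediateField.mem_adjoin_simple_self ℚ _

theorem k_conj {z : ℂ} (hz : z ∈ k) : (starRingEnd ℂ) z ∈ k := by
  obtain ⟨a, b, rfl⟩ := k_mem hz
  have e : (starRingEnd ℂ) ((a : ℂ) + b * Complex.I) = (a : ℂ) - b * Complex.I := by
    simp only [map_add, map_mul, map_ratCast, Complex.conj_I]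
    ring
  rw [e]
  have ha : (a : ℂ) ∈ k := by
    have := k.algebraMap_mem a
    simpa using this
  have hb : (b : ℂ) ∈ k := by
    have := k.algebraMap_mem b
    simpa using this
  exact k.sub_mem ha (k.mul_mem hb I_mem)

theorem no_sqrt5 (q : ℚ) : q ^ 2 ≠ 5 := by
  intro h
  have h1 : IsSquare ((5 : ℕ) : ℚ) := ⟨q, by push_cast; rw [← h]; ring⟩
  rw [Rat.isSquare_natCast_iff] at h1
  have h5 : Nat.Prime 5 := by norm_num
  exact h5.not_isSquare h1

/-- `1 + 2 i` is not a square in `ℚ(i)` -/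
theorem k_sq1 {z : ℂ} (hz : z ∈ k) : z ^ 2 ≠ 1 + 2 * Complex.I := by
  obtain ⟨a, b, rfl⟩ := k_mem hz
  intro h
  have h1 := congrArg Complex.re h
  have h2 := congrArg Complex.im h
  simp only [pow_two, Complex.add_re, Complex.mul_re, Complex.add_im, Complex.mul_im,
    Complex.ratCast_re, Complex.ratCast_im, Complex.I_re, Complex.I_im, Complex.one_re,
    Complex.one_im, Complex.re_ofNat, Complex.im_ofNat] at h1 h2
  ring_nf at h1 h2
  have h3 : (a : ℝ) ^ 2 - (b : ℝ) ^ 2 = 1 := by linarith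
  have h4 : (a : ℝ) * b = 1 := by linarith
  have h5 : a ^ 2 - b ^ 2 = 1 := by exact_mod_cast h3
  have h6 : a * b = 1 := by exact_mod_cast h4
  apply no_sqrt5 (a ^ 2 + b ^ 2)
  have e : (a ^ 2 + b ^ 2) ^ 2 = (a ^ 2 - b ^ 2) ^ 2 + 4 * (a * b) ^ 2 := by ring
  rw [e, h5, h6]
  norm_num

/-- `5` is not a square in `ℚ(i)` -/
theorem k_sq5 {z : ℂ} (hz : z ∈ k) : z ^ 2 ≠ 5 := by
  obtain ⟨a, b, rfl⟩ := k_mem hz
  intro h
  have h1 := congrArg Complex.re h
  have h2 := congrArg Complex.im h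
  simp only [pow_two, Complex.add_re, Complex.mul_re, Complex.add_im, Complex.mul_im,
    Complex.ratCast_re, Complex.ratCast_im, Complex.I_re, Complex.I_im, Complex.re_ofNat,
    Complex.im_ofNat] at h1 h2
  ring_nf at h1 h2
  have h3 : (a : ℝ) ^ 2 - (b : ℝ) ^ 2 = 5 := by linarith
  have h4 : (a : ℝ) * b = 0 := by linarith
  have h5 : a ^ 2 - b ^ 2 = 5 := by exact_mod_cast h3
  have h6 : a * b = 0 := by exact_mod_cast h4
  rcases mul_eq_zero.1 h6 with h | h
  · rw [h] at h5
    nlinarith [sq_nonneg b]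
  · rw [h] at h5
    exact no_sqrt5 a (by linarith)

/-- a square root of `1 + 2 i` -/
theorem exists_al : ∃ x : ℂ, x ^ 2 = 1 + 2 * Complex.I :=
  IsAlgClosed.exists_pow_nat_eq _ two_pos

/-- a square root of `1 + 2 i` -/
noncomputable def al : ℂ := exists_al.choose

theorem al_sq : al ^ 2 = 1 + 2 * Complex.I := exists_al.choose_spec

/-- `1 + 2 i` as an element of `ℚ(i)` -/
noncomputable def ga : k := 1 + 2 * ⟨Complex.I, I_mem⟩

theorem al_sq' : al ^ 2 = algebraMap k ℂ ga := by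
  rw [al_sq]
  rfl

theorem al_not : al ∉ (algebraMap k ℂ).range := by
  rintro ⟨z, hz⟩
  exact k_sq1 z.2 (by rw [← al_sq, ← hz]; rfl)

/-- `K = k(√(1 + 2 i))` over `k` -/
noncomputable def K' : IntermediateField k ℂ := k⟮al⟯

/-- `K = k(√(1 + 2 i))` over `ℚ` -/
noncomputable def K : IntermediateField ℚ ℂ := K'.restrictScalars ℚ

theorem k_le : k ≤ K := fun z hz => K'.algebraMap_mem ⟨z, hz⟩

theorem K_ext (h : k ≤ K) : extendScalars h = K' := by
  ext z
  rfl

theorem K_rank : Module.finrank k K' = 2 := quad_finrank al_sq' al_not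

theorem K_mem {z : ℂ} (hz : z ∈ K) : ∃ a ∈ k, ∃ b ∈ k, z = a + b * al := by
  obtain ⟨a, b, h⟩ := quad_mem al_sq' hz
  exact ⟨a, a.2, b, b.2, h⟩

theorem al_not' : al ∉ k := fun h => al_not ⟨⟨al, h⟩, rfl⟩

/-- `√(1 - 2 i)` is not in `K` -/
theorem conj_al_not : (starRingEnd ℂ) al ∉ K := by
  intro h
  obtain ⟨c, hc, d, hd, e⟩ := K_mem h
  have h1 : (starRingEnd ℂ) al ^ 2 = 1 - 2 * Complex.I := by
    rw [← map_pow, al_sq]
    simp only [map_add, map_mul, map_one, map_ofNat, Complex.conj_I]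
    ring
  have h2 : c ^ 2 + d ^ 2 * (1 + 2 * Complex.I) + 2 * c * d * al = 1 - 2 * Complex.I := by
    rw [← h1, e, ← al_sq]
    ring
  have h3 : c * d = 0 := by
    by_contra h0
    apply al_not'
    have e1 : al = (1 - 2 * Complex.I - (c ^ 2 + d ^ 2 * (1 + 2 * Complex.I))) / (2 * (c * d)) := by
      rw [eq_div_iff (mul_ne_zero two_ne_zero h0), ← h2]
      ring
    rw [e1]
    have two : (2 : ℂ) ∈ k := ofNat_mem k 2
    have hI := k.mul_mem two I_mem
    exact k.div_mem (k.sub_mem (k.sub_mem k.one_mem hI)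
      (k.add_mem (k.pow_mem hc 2) (k.mul_mem (k.pow_mem hd 2) (k.add_mem k.one_mem hI))))
      (k.mul_mem two (k.mul_mem hc hd))
  rcases mul_eq_zero.1 h3 with h | h
  · -- `conj al = d al`
    rw [h, zero_add] at e
    have h4 : (d * (1 + 2 * Complex.I)) ^ 2 = 5 := by
      have h5 : (al * (starRingEnd ℂ) al) ^ 2 = 5 := by
        rw [mul_pow, al_sq, h1]
        ring_nf
        rw [Complex.I_sq]
        norm_num
      rw [← h5, e, ← al_sq]
      ring
    have two : (2 : ℂ) ∈ k := ofNat_mem k 2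
    exact k_sq5 (k.mul_mem hd (k.add_mem k.one_mem (k.mul_mem two I_mem))) h4
  · rw [h, zero_mul, add_zero] at e
    apply al_not'
    have := k_conj hc
    rwa [← e, Complex.conj_conj] at this

theorem K_inter (z : ℂ) (hz : z ∈ K) (hz' : (starRingEnd ℂ) z ∈ K) : z ∈ k := by
  obtain ⟨a, ha, b, hb, rfl⟩ := K_mem hz
  by_cases h0 : b = 0
  · rw [h0, zero_mul, add_zero]
    exact ha
  · exfalso
    apply conj_al_not
    rw [map_add, map_mul] at hz'
    have h1 : (starRingEnd ℂ) b ≠ 0 := by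
      rwa [Ne, map_eq_zero]
    have e : (starRingEnd ℂ) al = ((starRingEnd ℂ) a + (starRingEnd ℂ) b * (starRingEnd ℂ) al -
        (starRingEnd ℂ) a) / (starRingEnd ℂ) b := by
      rw [add_sub_cancel_left, mul_div_cancel_left₀ _ h1]
    rw [e]
    exact K.div_mem (K.sub_mem hz' (k_le (k_conj ha))) (k_le (k_conj hb))

/-- The hypotheses of part (1) hold for `k = ℚ(i)`, `K = k(√(1 + 2 i))`, `m = 2`. -/
theorem instance_one : ∃ (k K : IntermediateField ℚ ℂ) (_ : FiniteDimensional ℚ K) (h : k ≤ K),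
    Module.finrank ℚ k = 2 ∧ (∃ z ∈ k, (starRingEnd ℂ) z ≠ z) ∧
    IsGalois k (extendScalars h) ∧ IsCyclic ((extendScalars h) ≃ₐ[k] (extendScalars h)) ∧
    (∀ z ∈ K, (starRingEnd ℂ) z ∈ K → z ∈ k) ∧
    Module.finrank k (extendScalars h) = 2 ∧
    (3 : ℝ) / 8 = (((Nat.totient 2 : ℕ) : ℝ) / (2 : ℕ)) * (1 + ((Nat.totient 2 : ℕ) : ℝ) / (2 : ℕ)) / 2 := by
  have hk : FiniteDimensional ℚ k := Module.finite_of_finrank_pos (by rw [k_rank]; norm_num)
  have hK' : FiniteDimensional k K' := Module.finite_of_finrank_pos (by rw [K_rank]; norm_num)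
  have hK : FiniteDimensional ℚ K := FiniteDimensional.trans ℚ k K'
  have hq : Algebra.IsQuadraticExtension k K' := { finrank_eq_two' := K_rank }
  refine ⟨k, K, hK, k_le, k_rank, ⟨Complex.I, I_mem, ?_⟩, ?_, ?_, K_inter, ?_, ?_⟩
  · rw [Complex.conj_I]
    intro h
    have := congrArg Complex.im h
    norm_num at this
  · rw [K_ext k_le]
    infer_instance
  · rw [K_ext k_le]
    infer_instance
  · rw [K_ext k_le]
    exact K_rank
  · norm_num [Nat.totient_prime Nat.prime_two]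

/-! ### The layers exist -/

/-- For every odd prime `p` and every `n` there is a layer `B = ℚ_n`. -/
theorem layer (p n : ℕ) (hp : p.Prime) (h2 : p ≠ 2) : ∃ B : IntermediateField ℚ ℂ, IsLayer p n B := by
  haveI : Fact p.Prime := ⟨hp⟩
  haveI : NeZero (p ^ (n + 1)) := ⟨pow_ne_zero _ hp.ne_zero⟩
  set N : ℕ := p ^ (n + 1) with hN
  obtain ⟨ζ, hζ⟩ : ∃ ζ : ℂ, IsPrimitiveRoot ζ N := ⟨_, Complex.isPrimitiveRoot_exp N (NeZero.ne N)⟩
  have hint : IsIntegral ℚ ζ := (hζ.isIntegral (NeZero.pos N)).tower_top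
  let L : IntermediateField ℚ ℂ := ℚ⟮ζ⟯
  have hL : IsCyclotomicExtension {N} ℚ L := by
    change IsCyclotomicExtension {N} ℚ (IntermediateField.adjoin ℚ {ζ}).toSubalgebra
    rw [IntermediateField.adjoin_simple_toSubalgebra_of_isAlgebraic hint.isAlgebraic]
    exact hζ.adjoin_isCyclotomicExtension ℚ
  have hfd : FiniteDimensional ℚ L := IntermediateField.adjoin.finiteDimensional hint
  haveI : NumberField L := NumberField.mk
  haveI : IsGalois ℚ L := IsCyclotomicExtension.isGalois {N} ℚ L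
  let e : (L ≃ₐ[ℚ] L) ≃* (ZMod N)ˣ :=
    IsCyclotomicExtension.autEquivPow L (Polynomial.cyclotomic.irreducible_rat (NeZero.pos N))
  haveI : IsCyclic (ZMod N)ˣ := ZMod.isCyclic_units_of_prime_pow p hp h2 (n + 1)
  have hcard : Nat.card (ZMod N)ˣ = p ^ n * (p - 1) := by
    rw [Nat.card_eq_fintype_card, ZMod.card_units_eq_totient, hN, Nat.totient_prime_pow_succ hp]
  let H : Subgroup (L ≃ₐ[ℚ] L) := ((powMonoidHom (p - 1) : (ZMod N)ˣ →* (ZMod N)ˣ).ker).comap e.toMonoidHom
  have hH : Nat.card H = p - 1 := by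
    have h1 : Nat.card H = Nat.card (powMonoidHom (p - 1) : (ZMod N)ˣ →* (ZMod N)ˣ).ker :=
      Nat.card_congr ((e.toEquiv.subtypeEquiv fun a => Iff.rfl))
    rw [h1, IsCyclic.card_powMonoidHom_ker, hcard]
    exact Nat.gcd_mul_left_left _ _
  have hfin : Module.finrank ℚ L = p ^ n * (p - 1) := by
    rw [← IsGalois.card_aut_eq_finrank, Nat.card_congr e.toEquiv, hcard]
  let B' : IntermediateField ℚ L := IntermediateField.fixedField H
  have hB' : Module.finrank ℚ B' = p ^ n := by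
    have h1 := Module.finrank_mul_finrank ℚ B' L
    rw [IntermediateField.finrank_fixedField_eq_card H, hH, hfin] at h1
    exact Nat.eq_of_mul_eq_mul_right (Nat.sub_pos_of_lt hp.one_lt) h1
  refine ⟨IntermediateField.lift B', ?_, ?_, n + 1, ?_⟩
  · rw [← hB']
    exact (IntermediateField.liftAlgEquiv B').toLinearEquiv.finrank_eq.symm
  · let σ : L ≃ₐ[ℚ] L := (Complex.conjAe.restrictScalars ℚ).restrictNormal L
    have hσ : ∀ x : L, ((σ x : L) : ℂ) = (starRingEnd ℂ) (x : ℂ) := fun x =>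
      AlgEquiv.restrictNormal_commutes (Complex.conjAe.restrictScalars ℚ) L x
    have hσ2 : σ ^ 2 = 1 := by
      ext x
      change (((σ ^ 2) x : L) : ℂ) = x
      rw [pow_two, AlgEquiv.mul_apply, hσ, hσ, Complex.conj_conj]
    have hσH : σ ∈ H := by
      change e σ ^ (p - 1) = 1
      obtain ⟨m, hm⟩ : 2 ∣ p - 1 := by
        have := hp.eq_two_or_odd
        omega
      rw [hm, pow_mul, ← map_pow, hσ2, map_one, one_pow]
    rintro z ⟨x, hx, rfl⟩
    have h1 := (IntermediateField.mem_fixedField_iff H x).1 hx σ hσH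
    have h2 := hσ x
    rw [h1] at h2
    exact h2.symm
  · refine (IntermediateField.lift_le B').trans ?_
    rw [IntermediateField.adjoin_simple_le_iff]
    exact IntermediateField.subset_adjoin ℚ _ hζ.pow_eq_one

/-! ### A finite set of primes has no positive density -/

theorem not_density (S : Set ℕ) (hS : S.Finite) (δ : ℝ) (hδ : 0 < δ) : ¬ DensityGE S δ := by
  rintro ⟨C, hC⟩
  haveI : Finite {q : ℕ // q.Prime ∧ q ∈ S} := (hS.subset fun q hq => hq.2).to_subtype
  haveI := Fintype.ofFinite {q : ℕ // q.Prime ∧ q ∈ S}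
  set M : ℝ := ((Fintype.card {q : ℕ // q.Prime ∧ q ∈ S} : ℕ) : ℝ) with hM
  have h1 : ∀ s : ℝ, 1 < s → ∑' q : {q : ℕ // q.Prime ∧ q ∈ S}, (q : ℝ) ^ (-s) ≤ M := by
    intro s hs
    rw [tsum_fintype, hM, ← Finset.card_univ]
    have h2 : ∀ q ∈ (Finset.univ : Finset {q : ℕ // q.Prime ∧ q ∈ S}), ((q : ℕ) : ℝ) ^ (-s) ≤ 1 := by
      intro q _
      apply Real.rpow_le_one_of_one_le_of_nonpos
      · exact_mod_cast q.2.1.one_lt.le
      · linarith
    have := Finset.sum_le_card_nsmul _ _ _ h2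
    simpa using this
  -- choose `s` with `log (1 / (s - 1)) = t`
  set t : ℝ := max 0 ((M + C + 1) / δ) with ht
  have ht0 : 0 ≤ t := le_max_left _ _
  have ht1 : (M + C + 1) / δ ≤ t := le_max_right _ _
  have h2 := hC (1 + Real.exp (-t)) (by linarith [Real.exp_pos (-t)])
    (by linarith [Real.exp_le_one_iff.2 (neg_nonpos.2 ht0)])
  have h3 := h1 (1 + Real.exp (-t)) (by linarith [Real.exp_pos (-t)])
  rw [add_sub_cancel_left, one_div, ← Real.exp_neg, neg_neg, Real.log_exp] at h2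
  rw [div_le_iff₀ hδ] at ht1
  linarith

end Pool.Agent.VAC2.RelativeDensity
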