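import Pool.Agent.VAC2.PtE

/-!
# The cohomology of a point, part F: the class of the points (certificate for
MP_cb388a_ag / AlmostAllAbelianVarieties, helper91)

`classes`: for EVERY Chow theory `T` with `T.q` a prime power and every cohomology `K` there is a term
of `WL.Classes K` (the class of the objects isomorphic to the point, with the true cohomology of
`Spec F_q`), for which `L^n` holds for all `n`, as the theorem says (`h(point)` is generated by Tate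
motives). With `Pool.Agent.VAC2.Cell9` (helper27: `T` and `K` exist, `q = 2`) the hypotheses on `T`, `K`,
`G` are satisfiable.
-/

set_option autoImplicit false

open CategoryTheory MonoidalCategory CartesianMonoidalCategory Limits TensorProduct

noncomputable section

namespace Pool.Agent.VAC2.Pt

open CHS WL

/-! ### rational coefficients -/

theorem rat_zero {A : Grp} (hA : ∀ x : A.T, x = 0) (t : Rat A) : t = 0 := by
  induction t using TensorProduct.induction_on with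
  | zero => rfl
  | tmul r x => rw [hA x]; exact TensorProduct.tmul_zero _ r
  | add a b ha hb => rw [ha, hb]; exact add_zero _

theorem ratE_zero {ℓ : ℕ} [Fact ℓ.Prime] {A : Mdl ℓ} (hA : ∀ x : A.T, x = 0) (t : RatE A) :
    t = 0 := by
  induction t using TensorProduct.induction_on with
  | zero => rfl
  | tmul r x => rw [hA x]; exact TensorProduct.tmul_zero _ r
  | add a b ha hb => rw [ha, hb]; exact add_zero _

theorem one_tors {A : Grp} {x : A.T} (h : Tors x) : one x = 0 := by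
  obtain ⟨N, hN, hx⟩ := h
  have hN' : (N : ℚ) ≠ 0 := by exact_mod_cast hN
  change (1 : ℚ) ⊗ₜ[ℤ] x = 0
  have h1 : (1 : ℚ) = N • ((N : ℚ)⁻¹) := by
    rw [zsmul_eq_mul, mul_inv_cancel₀ hN']
  rw [h1, TensorProduct.smul_tmul, hx, TensorProduct.tmul_zero]

/-- evaluation -/
def ev (P : Prop) : (ℚ ⊗[ℤ] sub ℤ ℤ P) →ₗ[ℤ] ℚ :=
  TensorProduct.lift (LinearMap.mk₂ ℤ (fun (r : ℚ) (x : sub ℤ ℤ P) => r * (x.1 : ℚ))
    (fun a b x => add_mul _ _ _) (fun c a x => by simp [mul_assoc])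
    (fun a x y => by
      change a * (((x.1 + y.1 : ℤ)) : ℚ) = _
      push_cast
      ring)
    (fun c a x => by
      change a * (((c * x.1 : ℤ)) : ℚ) = c • (a * (x.1 : ℚ))
      rw [zsmul_eq_mul]
      push_cast
      ring))

/-- evaluation -/
def evE (ℓ : ℕ) [Fact ℓ.Prime] (P : Prop) : (ℚ_[ℓ] ⊗[ℤ_[ℓ]] sub ℤ_[ℓ] ℤ_[ℓ] P) →ₗ[ℤ_[ℓ]] ℚ_[ℓ] :=
  TensorProduct.lift (LinearMap.mk₂ ℤ_[ℓ]
    (fun (r : ℚ_[ℓ]) (x : sub ℤ_[ℓ] ℤ_[ℓ] P) => r * (x.1 : ℚ_[ℓ]))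
    (fun a b x => add_mul _ _ _)
    (fun c a x => by
      rw [Algebra.smul_def, Algebra.smul_def, mul_assoc])
    (fun a x y => by
      change a * (((x.1 + y.1 : ℤ_[ℓ])) : ℚ_[ℓ]) = _
      rw [PadicInt.coe_add, mul_add])
    (fun c a x => by
      change a * (((c * x.1 : ℤ_[ℓ])) : ℚ_[ℓ]) = c • (a * (x.1 : ℚ_[ℓ]))
      rw [PadicInt.coe_mul, Algebra.smul_def]
      exact mul_left_comm _ _ _))

theorem tens (P : Prop) (h : P) (x : sub ℤ ℤ P) :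
    (1 : ℚ) ⊗ₜ[ℤ] x = (x.1 : ℚ) ⊗ₜ[ℤ] (el h (1 : ℤ) : sub ℤ ℤ P) := by
  have h1 : x = x.1 • (el h (1 : ℤ) : sub ℤ ℤ P) := Subtype.ext (mul_one x.1).symm
  conv_lhs => rw [h1]
  rw [TensorProduct.tmul_smul, TensorProduct.smul_tmul', zsmul_eq_mul, mul_one]

theorem tensE (ℓ : ℕ) [Fact ℓ.Prime] (P : Prop) (h : P) (x : sub ℤ_[ℓ] ℤ_[ℓ] P) :
    (1 : ℚ_[ℓ]) ⊗ₜ[ℤ_[ℓ]] x = (x.1 : ℚ_[ℓ]) ⊗ₜ[ℤ_[ℓ]] (el h (1 : ℤ_[ℓ]) : sub ℤ_[ℓ] ℤ_[ℓ] P) := by
  have h1 : x = x.1 • (el h (1 : ℤ_[ℓ]) : sub ℤ_[ℓ] ℤ_[ℓ] P) := Subtype.ext (mul_one x.1).symm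
  conv_lhs => rw [h1]
  rw [TensorProduct.tmul_smul, TensorProduct.smul_tmul', Algebra.smul_def, mul_one]
  rfl

section

variable {V : Type} [Category.{0} V] [CartesianMonoidalCategory V] {T : ChowTheory.{0, 0, 0} V}

universe x

variable (p : ℕ) [hp : Fact p.Prime] (hq : ∃ a, 1 ≤ a ∧ T.q = p ^ a)

/-- the cycle class -/
def cls : ∀ (n : ℕ), ℚ → Rat (((ptCoh p T.q hq).W n).C (2 * n))
  | 0, r => r ⊗ₜ[ℤ] (el idx0 (1 : ℤ) : sub ℤ ℤ (2 * ((0 : ℕ) : ℤ) = 0))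
  | _ + 1, _ => 0

theorem cls_add (n : ℕ) (r s : ℚ) : cls p hq n (r + s) = cls p hq n r + cls p hq n s := by
  cases n with
  | zero => exact TensorProduct.add_tmul _ _ _
  | succ n => exact (add_zero _).symm

theorem cls_inj {r : ℚ} (h : cls p hq 0 r = 0) : r = 0 := by
  have h1 := congrArg (ev (2 * ((0 : ℕ) : ℤ) = 0)) h
  have h2 : r * (((1 : ℤ)) : ℚ) = 0 := h1
  simpa using h2

theorem cls_one (z : sub ℤ ℤ (2 * ((0 : ℕ) : ℤ) = 0)) :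
    one (A := ((ptCoh p T.q hq).W 0).C (2 * ((0 : ℕ) : ℤ))) z = cls p hq 0 (z.1 : ℚ) :=
  tens _ idx0 z

theorem cls_inj' {r s : ℚ} (h : cls p hq 0 r = cls p hq 0 s) : r = s := by
  have h1 := congrArg (ev (2 * ((0 : ℕ) : ℤ) = 0)) h
  have h2 : r * (((1 : ℤ)) : ℚ) = s * (((1 : ℤ)) : ℚ) := h1
  simpa using h2

theorem W_zero (n : ℕ) (x : (((ptCoh p T.q hq).W (n + 1)).C (2 * ((n + 1 : ℕ) : ℤ))).T) :
    x = 0 := sub_zero_of (P := 2 * ((n + 1 : ℕ) : ℤ) = 1) (by omega) x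

theorem torsion_D (n : ℕ) (i : ℤ) (x : (((ptCoh p T.q hq).W (n + 1)).C i).T) : Tors x := by
  obtain ⟨y, hy⟩ := QuotientAddGroup.mk_surjective (s := Zp p) (show DD p from x.1)
  refine ⟨y.den, by exact_mod_cast y.den_nz, Subtype.ext ?_⟩
  change ((y.den : ℕ) : ℤ) • (show DD p from x.1) = 0
  rw [← hy, mk_smul]
  apply mk_zero
  refine ⟨0, y.num, ?_⟩
  rw [pow_zero, mul_one, mul_comm]
  push_cast
  exact Rat.mul_den_eq_num y

/-- the action -/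
theorem isAction (X : V) (hX : IsPt X) (R : Type) [Field R] (φ : ℚ →+* R) {M : Type}
    [AddCommGroup M] [Module R M] :
    IsAction T X R (fun (a : T.CH (X ⊗ X)) (x : M) => φ (T.deg a) • x) where
  lin a := ⟨fun x y => smul_add _ x y, fun c x => smul_comm _ c x⟩
  add a _ b _ x := by
    rw [deg_add (hX.prod hX), map_add, add_smul]
  comp a _ b _ x := by
    rw [deg_cp hX, map_mul, mul_smul]
  one x := by
    rw [deg_graph hX, map_one, one_smul]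

theorem fixes (n : ℕ) (t : Rat (((ptCoh p T.q hq).W n).C (2 * n))) :
    Fixes (((ptCoh p T.q hq).W n).F (2 * n)) t := by
  intro k x _
  cases n with
  | zero => exact tors_zero (sub_self x)
  | succ n => exact tors_zero (W_zero p hq n _)

theorem surj (X : V) (hX : IsPt X) (n : ℕ) (x : (((ptCoh p T.q hq).W n).C (2 * n)).T) :
    ∃ a ∈ T.cyc X n, cls p hq n (T.deg a) = one x := by
  cases n with
  | zero =>
    let x' : sub ℤ ℤ (2 * ((0 : ℕ) : ℤ) = 0) := x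
    refine ⟨algebraMap ℚ (T.CH X) (x'.1 : ℚ), mem_zero hX _, ?_⟩
    rw [deg_rat hX]
    exact (cls_one p hq x').symm
  | succ n =>
    refine ⟨0, (T.gr X _).zero_mem, ?_⟩
    rw [W_zero p hq n x]
    exact (TensorProduct.tmul_zero _ _).symm

/-- the cycle map -/
def cycleMap (X : V) (hX : IsPt X) : CycleMap T X (ptCoh p T.q hq) where
  dim := dim_pt hX
  cl n a := cls p hq n (T.deg a)
  add n a b := by
    change cls p hq n (T.deg (a + b)) = _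
    rw [deg_add hX]
    exact cls_add p hq n _ _
  inj n a ha h := by
    cases n with
    | zero => exact eq_zero_of_deg hX (cls_inj p hq h)
    | succ n => exact cyc_pos hX (by omega) ha
  fix n a _ := fixes p hq n _
  surj n x _ := surj p hq X hX n x

theorem frob_pt (n : ℕ) (i : ℤ) (x : (((ptCoh p T.q hq).W n).C i).T) :
    one x = one (times (T.q ^ n) (((ptCoh p T.q hq).W n).F i x)) := by
  cases n with
  | zero =>
    have h : times ((T.q : ℤ) ^ 0) (((ptCoh p T.q hq).W 0).F i x) = x := by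
      unfold times
      rw [pow_zero, one_smul]
      rfl
    rw [h]
  | succ n => rw [one_tors (torsion_D p hq n i x), one_tors (torsion_D p hq n i _)]

theorem frobE_pt (ℓ : ℕ) [hl : Fact ℓ.Prime] (hℓ : ℓ ≠ p) (n : ℕ) (i : ℤ)
    (x : (((ptCoh p T.q hq).E ℓ n).C i).T) :
    times (T.q ^ n) (((ptCoh p T.q hq).E ℓ n).F i x) = x := by
  cases n with
  | zero =>
    unfold times
    rw [pow_zero, one_smul]
    rfl
  | succ n =>
    have hu : IsUnit ((T.q ^ (n + 1) : ℕ) : ℤ_[ℓ]) := by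
      rw [PadicInt.isUnit_iff, PadicInt.norm_natCast_eq_one_iff]
      exact (Nat.Prime.coprime_iff_not_dvd hl.out).2 (not_dvd p T.q hq ℓ hℓ (n + 1))
    have h1 : uu ℓ (T.q ^ (n + 1)) * ((T.q ^ (n + 1) : ℕ) : ℤ_[ℓ]) = 1 :=
      Ring.inverse_mul_cancel _ hu
    let x' : sub ℤ_[ℓ] ℤ_[ℓ] (i = 0) := x
    have h2 : ((T.q : ℤ) ^ (n + 1)) • (uu ℓ (T.q ^ (n + 1)) * x'.1) = x'.1 := by
      rw [zsmul_eq_mul]
      push_cast at h1 ⊢
      linear_combination x'.1 * h1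
    exact Subtype.ext h2

/-- the coefficients -/
def coef (ℓ : ℕ) [Fact ℓ.Prime] : ℚ →+* ℚ_[ℓ] := algebraMap ℚ ℚ_[ℓ]


theorem ext_pt (X : V) (hX : IsPt X) (z g : (((ptCoh p T.q hq).W 0).H (2 * ((0 : ℕ) : ℤ))).T)
    (a b : T.CH X)
    (ha : cls p hq 0 (T.deg a) = one (((ptCoh p T.q hq).W 0).res (2 * ((0 : ℕ) : ℤ)) z))
    (hb : cls p hq 0 (T.deg b) = one (((ptCoh p T.q hq).W 0).res (2 * ((0 : ℕ) : ℤ)) g)) :
    T.deg (ext T a b) =
      ((show sub ℤ ℤ (2 * ((0 : ℕ) : ℤ) = 0) × sub ℤ ℤ (2 * ((0 : ℕ) : ℤ) = 0 + 1) from g).1.1 : ℚ) *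
      ((show sub ℤ ℤ (2 * ((0 : ℕ) : ℤ) = 0) × sub ℤ ℤ (2 * ((0 : ℕ) : ℤ) = 0 + 1) from z).1.1 : ℚ) := by
  have h1 := cls_inj' p hq (ha.trans (cls_one p hq _))
  have h2 := cls_inj' p hq (hb.trans (cls_one p hq _))
  rw [deg_ext hX, h1, h2]
  rfl

/-- the correspondences -/
def corr (K : Cohomology.{0, 0, 0, x} T) (X : V) (hX : IsPt X) : Corr K X (ptCoh p T.q hq) where
  toCycleMap := cycleMap p hq X hX
  act n i a x := (RingHom.id ℚ (T.deg a)) • x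
  action n i := isAction X hX ℚ (RingHom.id ℚ)
  actE ℓ _ n i a x := coef ℓ (T.deg a) • x
  actionE ℓ _ _ n i := isAction X hX ℚ_[ℓ] (coef ℓ)
  frob n i x := by
    rw [deg_graph hX, map_one, one_smul]
    exact frob_pt p hq n i x
  frobE ℓ _ h n i x := by
    rw [deg_graph hX, map_one, one_smul, frobE_pt p hq ℓ h]
  ext_act n m e z g a ha b hb hca hcb := by
    have hn : n = 0 := by
      have : n + m = 0 := e
      omega
    have hm : m = 0 := by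
      have : n + m = 0 := e
      omega
    subst hn
    subst hm
    refine ⟨fun i hi t => ?_, fun y => ?_⟩
    · have h1 : t = 0 := rat_zero (fun x => sub_zero_of (P := i = 0) (fun h => hi (by rw [h]; simp)) x) t
      rw [h1]
      exact smul_zero _
    · rw [ext_pt p hq X hX z g a b hca hcb]
      let y' : sub ℤ ℤ (2 * ((0 : ℕ) : ℤ) = 0) := y
      let z' : sub ℤ ℤ (2 * ((0 : ℕ) : ℤ) = 0) × sub ℤ ℤ (2 * ((0 : ℕ) : ℤ) = 0 + 1) := z
      let g' : sub ℤ ℤ (2 * ((0 : ℕ) : ℤ) = 0) × sub ℤ ℤ (2 * ((0 : ℕ) : ℤ) = 0 + 1) := g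
      have h1 := tens _ idx0 y'
      have h2 := tens _ idx0 ((y'.1 * g'.1.1) • z'.1)
      have h3 : ((g'.1.1 : ℚ) * (z'.1.1 : ℚ)) • ((1 : ℚ) ⊗ₜ[ℤ] y') =
          (1 : ℚ) ⊗ₜ[ℤ] ((y'.1 * g'.1.1) • z'.1) := by
        rw [h1, h2, TensorProduct.smul_tmul', smul_eq_mul]
        refine congrArg (fun r : ℚ => r ⊗ₜ[ℤ] (el idx0 (1 : ℤ) :
          sub ℤ ℤ (2 * ((0 : ℕ) : ℤ) = 0))) ?_
        change (g'.1.1 : ℚ) * (z'.1.1 : ℚ) * (y'.1 : ℚ) = (((y'.1 * g'.1.1) * z'.1.1 : ℤ) : ℚ)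
        push_cast
        ring
      exact h3
  ext_actE ℓ _ hℓ n m e z g a ha b hb hca hcb := by
    have hn : n = 0 := by
      have : n + m = 0 := e
      omega
    have hm : m = 0 := by
      have : n + m = 0 := e
      omega
    subst hn
    subst hm
    refine ⟨fun i hi t => ?_, fun y => ?_⟩
    · have h1 : t = 0 := ratE_zero (fun x => sub_zero_of (P := i = 0) (fun h => hi (by rw [h]; simp)) x) t
      rw [h1]
      exact smul_zero _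
    · rw [ext_pt p hq X hX z g a b hca hcb]
      let y' : sub ℤ_[ℓ] ℤ_[ℓ] (2 * ((0 : ℕ) : ℤ) = 0) := y
      let z' : sub ℤ ℤ (2 * ((0 : ℕ) : ℤ) = 0) × sub ℤ ℤ (2 * ((0 : ℕ) : ℤ) = 0 + 1) := z
      let g' : sub ℤ ℤ (2 * ((0 : ℕ) : ℤ) = 0) × sub ℤ ℤ (2 * ((0 : ℕ) : ℤ) = 0 + 1) := g
      let zE : sub ℤ_[ℓ] ℤ_[ℓ] (2 * ((0 : ℕ) : ℤ) = 0) := cmap id (Int.castAddHom ℤ_[ℓ]) z'.1
      have h1 := tensE ℓ _ idx0 y'
      have h2 := tensE ℓ _ idx0 ((y'.1 * ((g'.1.1 : ℤ) : ℤ_[ℓ])) • zE)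
      have h3 : coef ℓ ((g'.1.1 : ℚ) * (z'.1.1 : ℚ)) • ((1 : ℚ_[ℓ]) ⊗ₜ[ℤ_[ℓ]] y') =
          (1 : ℚ_[ℓ]) ⊗ₜ[ℤ_[ℓ]] ((y'.1 * ((g'.1.1 : ℤ) : ℤ_[ℓ])) • zE) := by
        rw [h1, h2, TensorProduct.smul_tmul', smul_eq_mul]
        refine congrArg (fun r : ℚ_[ℓ] => r ⊗ₜ[ℤ_[ℓ]] (el idx0 (1 : ℤ_[ℓ]) :
          sub ℤ_[ℓ] ℤ_[ℓ] (2 * ((0 : ℕ) : ℤ) = 0))) ?_
        change coef ℓ ((g'.1.1 : ℚ) * (z'.1.1 : ℚ)) * (y'.1 : ℚ_[ℓ]) =
          (((y'.1 * ((g'.1.1 : ℤ) : ℤ_[ℓ])) * ((z'.1.1 : ℤ) : ℤ_[ℓ]) : ℤ_[ℓ]) : ℚ_[ℓ])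
        have hc : ∀ t : ℤ, coef ℓ (t : ℚ) = (t : ℚ_[ℓ]) := fun t => map_intCast (coef ℓ) t
        have hd : ∀ t : ℤ, ((t : ℤ_[ℓ]) : ℚ_[ℓ]) = (t : ℚ_[ℓ]) := fun t => PadicInt.coe_intCast t
        rw [map_mul, hc, hc, PadicInt.coe_mul, PadicInt.coe_mul, hd, hd]
        ring
      exact h3
  lefschetz ℓ _ hℓ n a _ h := by
    apply numTrivial_zero (hX.prod hX)
    cases n with
    | zero =>
      have h1 := h 0 le_rfl le_rfl (oneE (M := ((ptCoh p T.q hq).E ℓ 0).C 0)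
        (el rfl (1 : ℤ_[ℓ]) : sub ℤ_[ℓ] ℤ_[ℓ] ((0 : ℤ) = 0)))
      have h2 : coef ℓ (T.deg a) • ((1 : ℚ_[ℓ]) ⊗ₜ[ℤ_[ℓ]]
        (el rfl (1 : ℤ_[ℓ]) : sub ℤ_[ℓ] ℤ_[ℓ] ((0 : ℤ) = 0))) = 0 := h1
      rw [TensorProduct.smul_tmul', smul_eq_mul, mul_one] at h2
      have h3 := congrArg (evE ℓ ((0 : ℤ) = 0)) h2
      have h4 : coef ℓ (T.deg a) * (((1 : ℤ_[ℓ])) : ℚ_[ℓ]) = 0 := h3
      rw [PadicInt.coe_one, mul_one] at h4
      exact (map_eq_zero (coef ℓ)).1 h4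
    | succ n =>
      have h1 := h 0 le_rfl le_rfl (oneE (M := ((ptCoh p T.q hq).E ℓ (n + 1)).C 0)
        (el rfl (1 : ℤ_[ℓ]) : sub ℤ_[ℓ] ℤ_[ℓ] ((0 : ℤ) = 0)))
      have h2 : coef ℓ (T.deg a) • ((1 : ℚ_[ℓ]) ⊗ₜ[ℤ_[ℓ]]
        (el rfl (1 : ℤ_[ℓ]) : sub ℤ_[ℓ] ℤ_[ℓ] ((0 : ℤ) = 0))) = 0 := h1
      rw [TensorProduct.smul_tmul', smul_eq_mul, mul_one] at h2
      have h3 := congrArg (evE ℓ ((0 : ℤ) = 0)) h2
      have h4 : coef ℓ (T.deg a) * (((1 : ℤ_[ℓ])) : ℚ_[ℓ]) = 0 := h3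
      rw [PadicInt.coe_one, mul_one] at h4
      exact (map_eq_zero (coef ℓ)).1 h4
  betti ℓ _ hℓ n i := by
    refine le_trans ?_ (finrank_pt K hX)
    have h1 : Module.finrank ℤ_[ℓ] (sub ℤ_[ℓ] ℤ_[ℓ] (i = 0)) ≤ 1 := by
      have h2 : Module.finrank ℤ_[ℓ] ℤ_[ℓ] = 1 := Module.finrank_self _
      conv_rhs => rw [← h2]
      exact LinearMap.finrank_le_finrank_of_injective
        (f := (sub ℤ_[ℓ] ℤ_[ℓ] (i = 0)).subtype) Subtype.val_injective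
    cases n with
    | zero => exact h1
    | succ n => exact h1

/-- **Certificate**: the class of the points. -/
def classes (K : Cohomology.{0, 0, 0, x} T) : Classes K where
  U := {X : V // IsPt X}
  v X := X.1
  point := ⟨⟨𝟙_ V, IsPt.unit⟩, rfl⟩
  prod X Y := ⟨⟨X.1 ⊗ Y.1, X.2.prod Y.2⟩, rfl⟩
  coh _ := ptCoh p T.q hq
  char _ _ := rfl
  corr X := corr p hq K X.1 X.2

include hq in
/-- **Certificate**: for every Chow theory with `q` a power of a prime number and every cohomology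
the structure `WL.Classes K` is inhabited, and the conclusion of part (1) holds in this class. -/
theorem certificate (K : Cohomology.{0, 0, 0, x} T) :
    ∃ G : Classes K, Nonempty G.U ∧ ∀ (X : G.U) (n : ℕ), (G.coh X).L n :=
  ⟨classes p hq K, ⟨⟨𝟙_ V, IsPt.unit⟩⟩, fun _ n => ptCoh_L p T.q hq n⟩

end

end Pool.Agent.VAC2.Pt
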