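import Pool.Agent.WAG.RDefs
import Pool.Agent.VAC2.PtF

/-!
# Certificate for MP_cb388a_ag / AlmostAllAbelianVarieties (helper91)

`satisfiable`: for EVERY Chow theory `T` with `T.q` a power of a prime number and every cohomology `K`
there is a term `G` of `WL.Classes K` with the true Weil-etale and `l`-adic cohomology of `Spec F_q`
(all `l`, all weights, the comparison maps with uniquely divisible cones, weights, duality,
Lefschetz, cycle classes, correspondences), and the hypothesis on the motive of part (1) holds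
in it for every set of generators; the conclusion `L^n` is true there. So the structures `Coh`,
`Corr`, `Classes` are consistent, and the hypotheses of part (1) on `G` are satisfiable for all `T`, `K`
(models of `T`, `K`: `Pool.Agent.VAC2.Cell1` - `Cell9`, helper27). The groups are not zero: `groups_ne`.
-/

set_option autoImplicit false

open CategoryTheory MonoidalCategory CartesianMonoidalCategory

namespace Pool.Agent.VAC2.Pt

open CHS WL

universe x

theorem satisfiable {V : Type} [Category.{0} V] [CartesianMonoidalCategory V]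
    (T : ChowTheory.{0, 0, 0} V) (K : Cohomology.{0, 0, 0, x} T) (hq : IsPrimePow T.q)
    (S : Mot T → Prop) :
    ∃ (G : Classes K) (X : G.U), Raw.GenBy S (Mot.h T (G.v X)) ∧ ∀ n : ℕ, (G.coh X).L n := by
  obtain ⟨p, k, hp, hk, h⟩ := hq
  have : Fact p.Prime := ⟨hp.nat_prime⟩
  have hq' : ∃ a, 1 ≤ a ∧ T.q = p ^ a := ⟨k, hk, h.symm⟩
  exact ⟨classes p hq' K, ⟨𝟙_ V, IsPt.unit⟩, Raw.GenBy.tate 0, fun n => ptCoh_L p T.q hq' n⟩

/-- `H^0_W(Spec F_q, ℤ)`, `H^1_W(Spec F_q, ℤ)` are infinite, `H^1_W(Spec F_q, ℤ(n))` has `q ^ n - 1`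
elements. -/
theorem groups_ne (p : ℕ) [Fact p.Prime] (q : ℕ) (hq : ∃ a, 1 ≤ a ∧ q = p ^ a) :
    Infinite (((ptCoh p q hq).W 0).H 0).T ∧ Infinite (((ptCoh p q hq).W 0).H 1).T := by
  constructor
  · refine Infinite.of_injective (β := ℤ)
      (fun z => ((el rfl z, 0) : sub ℤ ℤ ((0 : ℤ) = 0) × sub ℤ ℤ ((0 : ℤ) = 0 + 1))) ?_
    intro a b h
    exact congrArg (fun t => t.1.1) h
  · refine Infinite.of_injective (β := ℤ)
      (fun z => ((0, el (by norm_num) z) : sub ℤ ℤ ((1 : ℤ) = 0) × sub ℤ ℤ ((1 : ℤ) = 0 + 1))) ?_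
    intro a b h
    exact congrArg (fun t => t.2.1) h

end Pool.Agent.VAC2.Pt
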