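import Pool.Agent.WEt.LightRed

/-!
# Certificate: `MP_cb388a_ag/MiddleDegreeBlowUps` is neither vacuous nor trivial

The structure `WEt.FamT` is inhabited, with varieties of every dimension: there is an instance with
nonzero cohomology groups for which all the statements of the theorem are false, those about one
variety for every variety, and one for which all of them are true. (The real instance is the family
of all smooth projective varieties.)
-/

set_option autoImplicit false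

open TensorProduct Polynomial

noncomputable section

namespace Pool.Agent.VAC2.MiddleDegreeBlowUps

open WEt

section Model

variable (R : Type) [CommRing R] [Algebra ℚ R]

/-- The ideal `R` in the even degrees and `0` in the odd degrees. -/
def K (i : ℤ) : Ideal R := if Even i then ⊤ else ⊥

variable {R} in
omit [Algebra ℚ R] in
theorem K_congr {i j : ℤ} (h : Even i ↔ Even j) : K R i = K R j := by
  unfold K
  simp only [h]

omit [Algebra ℚ R] in
theorem K_add (i : ℤ) (j : ℕ) : K R i ≤ K R (i + 2 * (j : ℤ)) := by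
  refine (K_congr ?_).le
  rw [Int.even_add]
  simp

omit [Algebra ℚ R] in
theorem K_succ (i : ℤ) : K R i ≤ K R (i + 1 + 1) := by
  refine (K_congr ?_).le
  rw [Int.even_add_one, Int.even_add_one, not_not]

omit [Algebra ℚ R] in
theorem K_two (n : ℕ) : K R (2 * (n : ℤ)) = ⊤ := by
  unfold K
  rw [if_pos (even_two_mul _)]

omit [Algebra ℚ R] in
theorem K_odd (n : ℕ) (x : K R (2 * (n : ℤ) + 1)) : x = 0 := by
  have h : K R (2 * (n : ℤ) + 1) = ⊥ := by
    unfold K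
    rw [if_neg (by simp)]
  have h1 : (x : R) ∈ (⊥ : Ideal R) := h ▸ x.2
  exact Subtype.ext ((Submodule.mem_bot R).1 h1)

/-- The group `C i` is `R` if `i` is even and zero otherwise, Frobenius is trivial. -/
def weil : Weil where
  C i := { T := K R i }
  H i := { T := K R (i + 1) × K R i }
  F i := AddMonoidHom.id (K R i)
  inc i := ((AddMonoidHom.inl (K R (i + 1 + 1)) (K R (i + 1))).comp
    (Submodule.inclusion (K_succ R i)).toAddMonoidHom :
      K R i →+ K R (i + 1 + 1) × K R (i + 1))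
  res i := AddMonoidHom.snd (K R (i + 1)) (K R i)
  inc_ker i x := by
    change ((Submodule.inclusion (K_succ R i) x, 0) : K R (i + 1 + 1) × K R (i + 1)) = 0 ↔
      ∃ y : K R i, x = y - y
    constructor
    · intro h
      have h1 : Submodule.inclusion (K_succ R i) x = 0 := congrArg Prod.fst h
      have h2 : x = 0 := Submodule.inclusion_injective (K_succ R i) (by rw [h1, map_zero])
      exact ⟨0, by rw [h2, sub_self]⟩
    · rintro ⟨y, rfl⟩
      rw [sub_self, map_zero]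
      rfl
  exact i x := by
    change (x : K R (i + 1 + 1) × K R (i + 1)).2 = 0 ↔
      ∃ y : K R i, ((Submodule.inclusion (K_succ R i) y, 0) : K R (i + 1 + 1) × K R (i + 1)) = x
    constructor
    · intro h
      have h1 : K R (i + 1 + 1) ≤ K R i := by
        refine (K_congr ?_).le
        rw [Int.even_add_one, Int.even_add_one, not_not]
      exact ⟨Submodule.inclusion h1 (x : K R (i + 1 + 1) × K R (i + 1)).1, Prod.ext rfl h.symm⟩
    · rintro ⟨y, rfl⟩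
      rfl
  res_image i x := by
    change (∃ h : K R (i + 1) × K R i, h.2 = x) ↔ x = x
    exact ⟨fun _ => rfl, fun _ => ⟨(0, x), rfl⟩⟩
  orbit _ _ := ⟨1, one_pos, rfl⟩

/-- All `ℓ`-adic groups are zero. -/
def adic (ℓ : Nat.Primes) : Adic ℓ where
  C _ := { T := PUnit }
  H _ := { T := PUnit }
  F _ := LinearMap.id
  inc _ := LinearMap.id
  res _ := LinearMap.id
  inc_ker _ x := ⟨fun _ => ⟨x, rfl⟩, fun _ => rfl⟩
  exact _ x := ⟨fun _ => ⟨x, rfl⟩, fun _ => rfl⟩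
  res_image _ x := ⟨fun _ => rfl, fun _ => ⟨x, rfl⟩⟩
  finite _ := (inferInstance : Module.Finite ℤ_[ℓ] PUnit)

/-- The comparison. -/
def comp (ℓ : Nat.Primes) : Comparison (weil R) (adic ℓ) where
  cC i := (0 : K R i →+ PUnit)
  cH i := (0 : K R (i + 1) × K R i →+ PUnit)
  comm_inc _ _ := rfl
  comm_res _ _ := rfl
  Q i := { T := K R (i + 1 + 1) × K R (i + 1) }
  q i := (0 : PUnit →+ K R (i + 1 + 1) × K R (i + 1))
  δ i := AddMonoidHom.id (K R (i + 1 + 1) × K R (i + 1))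
  exact_q i x := by
    change (0 : K R (i + 1 + 1) × K R (i + 1)) = 0 ↔ ∃ y : K R (i + 1) × K R i, PUnit.unit = x
    exact ⟨fun _ => ⟨0, rfl⟩, fun _ => rfl⟩
  exact_δ i x := by
    change (x : K R (i + 1 + 1) × K R (i + 1)) = 0 ↔
      ∃ y : PUnit, (0 : K R (i + 1 + 1) × K R (i + 1)) = x
    exact ⟨fun h => ⟨PUnit.unit, h.symm⟩, fun ⟨_, h⟩ => h.symm⟩
  exact_c i x := by
    change PUnit.unit = PUnit.unit ↔ ∃ y : K R (i + 1 + 1) × K R (i + 1), y = x
    exact ⟨fun _ => ⟨x, rfl⟩, fun _ => rfl⟩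
  divisible i := by
    change Function.Bijective fun y : K R (i + 1 + 1) × K R (i + 1) => (ℓ : ℕ) • y
    have h0 : ((ℓ : ℕ) : ℚ) ≠ 0 := by exact_mod_cast ℓ.2.ne_zero
    have h : (fun y : K R (i + 1 + 1) × K R (i + 1) => (ℓ : ℕ) • y) =
        fun y => ((ℓ : ℕ) : ℚ) • y := by
      funext y
      rw [Nat.cast_smul_eq_nsmul]
    rw [h]
    constructor
    · intro x y hxy
      exact smul_right_injective _ h0 hxy
    · intro y
      exact ⟨((ℓ : ℕ) : ℚ)⁻¹ • y, smul_inv_smul₀ h0 y⟩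

/-- The groups of the variety of dimension `d`, characteristic `2`. -/
def groups (d : ℕ) : Groups where
  p := ⟨2, Nat.prime_two⟩
  d := d
  W _ := weil R
  E ℓ _ := adic ℓ
  c ℓ _ := comp R ℓ

theorem tors_unit (x : PUnit) : Tors x := ⟨1, one_ne_zero, rfl⟩

theorem charpoly_unit (ℓ : Nat.Primes) (f : PUnit →ₗ[ℤ_[ℓ]] PUnit) :
    (LinearMap.baseChange ℚ_[ℓ] f).charpoly = 1 := by
  have hs : Subsingleton (ℚ_[ℓ] ⊗[ℤ_[ℓ]] PUnit) := inferInstance
  have h1 : Module.finrank ℚ_[ℓ] (ℚ_[ℓ] ⊗[ℤ_[ℓ]] PUnit) = 0 := Module.finrank_zero_of_subsingleton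
  have h2 := (LinearMap.baseChange ℚ_[ℓ] f).charpoly_natDegree
  rw [h1] at h2
  exact (Polynomial.Monic.natDegree_eq_zero (LinearMap.charpoly_monic _)).1 h2

def weights (d : ℕ) : Weights (groups R d) where
  finite ℓ _ _ _ := (inferInstance : Module.Finite ℤ_[ℓ] PUnit)
  gabber _ _ := ⟨∅, fun _ _ _ _ => rfl⟩
  P _ _ := 1
  charpoly ℓ _ n i := by
    intro _
    rw [Polynomial.map_one]
    exact charpoly_unit ℓ _
  P_one _ _ _ := by simp
  P_big _ _ := by simp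
  tors_p _ _ _ _ x := tors_unit x
  rank_p n := by
    have h : rank (((groups R d).E (groups R d).p n).H (2 * (n : ℤ))) = 0 :=
      Module.finrank_zero_of_subsingleton (R := ℤ_[((groups R d).p : ℕ)]) (M := PUnit)
    exact h.le.trans (Nat.zero_le _)
  rank_p' n := by
    have h : rank (((groups R d).E (groups R d).p n).H (2 * (n : ℤ) + 1)) = 0 :=
      Module.finrank_zero_of_subsingleton (R := ℤ_[((groups R d).p : ℕ)]) (M := PUnit)
    exact h.le.trans (Nat.zero_le _)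
  deg_zero _ _ := ⟨1, one_ne_zero, Submodule.subset_span ⟨0, rfl⟩⟩

def duality (d n m : ℕ) : Duality (groups R d) n m where
  pair := (0 : K R (2 * (n : ℤ) + 1 + 1) × K R (2 * (n : ℤ) + 1) →+
    K R (2 * (m : ℤ) + 1) × K R (2 * (m : ℤ)) →+ ℤ)
  pairE _ :=
    { ap := fun _ _ => 0
      add_left := fun _ _ _ => by simp
      smul_left := fun _ _ _ => by simp
      add_right := fun _ _ _ => by simp
      smul_right := fun _ _ _ => by simp }
  comm _ _ _ := by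
    change (0 : ℤ_[_]) = ((0 : ℤ) : ℤ_[_])
    simp
  ker _ _ x _ := tors_unit x

def lefschetz (d n m : ℕ) : Lefschetz (groups R d) n m where
  lef := (0 : K R (2 * (n : ℤ) + 1) × K R (2 * (n : ℤ)) →+
    K R (2 * (m : ℤ) + 1) × K R (2 * (m : ℤ)))
  lefE _ := (0 : PUnit →ₗ[_] PUnit)
  comm _ _ := rfl
  coker _ _ _ := ⟨1, one_ne_zero, PUnit.unit, rfl⟩

/-- The variety of dimension `d`. -/
def coh (d : ℕ) : Coh where
  toGroups := groups R d
  weights := weights R d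
  duality n m _ := duality R d n m
  lefschetz n m _ _ := lefschetz R d n m

def summand (d M n n' : ℕ) (i i' : ℤ) (h : K R i ≤ K R i') (h' : K R (i + 1) ≤ K R (i' + 1)) :
    Summand (groups R d) (groups R M) n n' i i' where
  H := (AddMonoidHom.prodMap (Submodule.inclusion h').toAddMonoidHom
    (Submodule.inclusion h).toAddMonoidHom :
      K R (i + 1) × K R i →+ K R (i' + 1) × K R i')
  H_inj := Function.Injective.prodMap (Submodule.inclusion_injective h')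
    (Submodule.inclusion_injective h)
  C := (Submodule.inclusion h).toAddMonoidHom
  C_inj := Submodule.inclusion_injective h
  C_F _ := rfl
  E _ := (LinearMap.id : PUnit →ₗ[_] PUnit)
  comm _ _ := rfl

def blowUp (d M : ℕ) : BlowUp (groups R d) (groups R M) M where
  dim := rfl
  char := rfl
  formula n j n' i i' h := summand R d M n n' i i' (by rw [h.hi]; exact K_add R i j)
    (by
      rw [h.hi, show i + 2 * (j : ℤ) + 1 = i + 1 + 2 * (j : ℤ) by ring]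
      exact K_add R (i + 1) j)

variable {R} (σ : ℕ → R →+* R)

/-- The action of `a` on the cohomology of weight `n`: multiplication by `σ n a`. -/
def act (n : ℕ) (i : ℤ) : R →+* Module.End ℚ (ℚ ⊗[ℤ] K R i) :=
  (Module.End.baseChangeHom ℤ ℚ (K R i) :
    Module.End ℤ (K R i) →ₐ[ℤ] Module.End ℚ (ℚ ⊗[ℤ] K R i)).toRingHom.comp
    ((Module.toModuleEnd ℤ (S := R) (K R i)).comp (σ n))

omit [Algebra ℚ R] in
theorem act_apply (n : ℕ) (i : ℤ) (a : R) (x : K R i) :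
    act σ n i a ((1 : ℚ) ⊗ₜ[ℤ] x) = (1 : ℚ) ⊗ₜ[ℤ] (σ n a • x) :=
  rfl

def actE (ℓ : Nat.Primes) : R →+* Module.End ℚ_[ℓ] (ℚ_[ℓ] ⊗[ℤ_[ℓ]] PUnit) :=
  have : Subsingleton (Module.End ℚ_[ℓ] (ℚ_[ℓ] ⊗[ℤ_[ℓ]] PUnit)) :=
    ⟨fun _ _ => LinearMap.ext fun _ => Subsingleton.elim _ _⟩
  { toFun := fun _ => 0
    map_one' := Subsingleton.elim _ _
    map_mul' := fun _ _ => Subsingleton.elim _ _
    map_zero' := rfl
    map_add' := fun _ _ => Subsingleton.elim _ _ }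

def actions (d : ℕ) : Actions (groups R d) where
  A := { T := R }
  act n i := act σ n i
  actE ℓ _ _ _ := actE ℓ

/-- `x ↦ 1 ⊗ x` -/
def cyc (n : ℕ) : R →ₗ[ℚ] ℚ ⊗[ℤ] K R (2 * (n : ℤ)) :=
  AddMonoidHom.toRatLinearMap
    (((TensorProduct.mk ℤ ℚ (K R (2 * (n : ℤ))) 1 :
      K R (2 * (n : ℤ)) →ₗ[ℤ] ℚ ⊗[ℤ] K R (2 * (n : ℤ))).toAddMonoidHom).comp
      (Submodule.inclusion (K_two R n).ge).toAddMonoidHom |>.comp
      (Submodule.topEquiv (R := R) (M := R)).symm.toLinearMap.toAddMonoidHom)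

theorem cyc_inj (n : ℕ) : Function.Injective (cyc (R := R) n) := by
  let g : ℚ ⊗[ℤ] K R (2 * (n : ℤ)) →ₗ[ℚ] R :=
    LinearMap.liftBaseChange ℚ ((Submodule.subtype (K R (2 * (n : ℤ)))).restrictScalars ℤ)
  have h : Function.LeftInverse g (cyc (R := R) n) := by
    intro x
    change g ((1 : ℚ) ⊗ₜ[ℤ] _) = x
    simp only [g, LinearMap.liftBaseChange_tmul, one_smul]
    rfl
  exact h.injective

def corr (d : ℕ) : Corr (groups R d) (groups R (2 * d)) where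
  toActions := actions σ d
  dim := rfl
  char := rfl
  cyc := cyc (R := R) d
  cyc_inj := cyc_inj (R := R) d
  cyc_F a := by
    intro k x _
    refine ⟨1, one_ne_zero, ?_⟩
    change (1 : ℤ) • ((x : K R (2 * (d : ℤ))) - x) = 0
    simp
  faithful _ _ _ _ _ := fun _ _ _ => tors_unit _

omit [Algebra ℚ R] in
theorem act_frob (q : ℕ) (γ : R) (hγ : ∀ n, σ n γ = (q : R) ^ n) (n : ℕ) (i : ℤ) (x : K R i) :
    act σ n i γ ((1 : ℚ) ⊗ₜ[ℤ] x) = q ^ n • ((1 : ℚ) ⊗ₜ[ℤ] x) := by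
  rw [act_apply, hγ, ← TensorProduct.tmul_smul, ← Nat.cast_pow, Nat.cast_smul_eq_nsmul]

def frob (d q : ℕ) (hq : 0 < q) (γ : R) (hγ : ∀ n, σ n γ = (q : R) ^ n) :
    Frob (corr σ d).toActions where
  q := q
  q_pos := hq
  γ := γ
  act n i x := act_frob σ q γ hγ n i x
  actE ℓ hℓ n i x := by
    have : Subsingleton (ℚ_[ℓ] ⊗[ℤ_[ℓ]] PUnit) := inferInstance
    exact this.elim _ _

def ext (d n m : ℕ) (P : Duality (groups R d) n m) : Ext (corr σ d).toActions P where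
  ext _ _ := (0 : R)
  act _ _ _ _ := map_zero (act σ n _)
  actE _ _ _ _ _ _ := rfl
  actE' ℓ hℓ z g y := by
    have : Subsingleton (ℚ_[ℓ] ⊗[ℤ_[ℓ]] PUnit) := inferInstance
    exact this.elim _ _

/-- One variety of every dimension. -/
def fam (q : ℕ) (hq : 0 < q) (γ : R) (hγ : ∀ n, σ n γ = (q : R) ^ n) : Fam where
  V := ℕ
  coh d := coh R d
  M0 d := d
  BL _ M := M
  blowUp d M _ := blowUp R d M
  sq d := 2 * d
  corr d := corr σ d
  frob d := frob σ d q hq γ hγ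
  ext d n m _ := ext σ d n m _

/-- The group `C (2n+1)` is zero. -/
theorem fam_above (q : ℕ) (hq : 0 < q) (γ : R) (hγ : ∀ n, σ n γ = (q : R) ^ n) (X : ℕ) (n : ℕ)
    (x : ((((fam σ q hq γ hγ).coh X).W n).C (2 * (n : ℤ) + 1)).T) : Tors x :=
  ⟨1, one_ne_zero, by
    have h : x = 0 := K_odd R n x
    rw [h, smul_zero]⟩

/-- One variety of every dimension, with the vanishing of `C (2n+1)`. -/
def famT (q : ℕ) (hq : 0 < q) (γ : R) (hγ : ∀ n, σ n γ = (q : R) ^ n) : FamT where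
  toFam := fam σ q hq γ hγ
  above X n x := fam_above σ q hq γ hγ X n x

end Model

theorem not_fg_rat : ¬ AddGroup.FG ℚ := by
  intro h
  have h1 : Module.Finite ℤ ℚ := Module.Finite.iff_addGroup_fg.2 h
  have h2 : IsIntegral ℤ (1 / 2 : ℚ) := IsIntegral.of_finite ℤ _
  obtain ⟨y, hy⟩ := IsIntegrallyClosed.isIntegral_iff.1 h2
  have h3 : (2 * y : ℤ) = 1 := by
    have : ((2 * y : ℤ) : ℚ) = 1 := by
      push_cast
      rw [eq_intCast] at hy
      rw [hy]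
      norm_num
    exact_mod_cast this
  omega

/-- An instance with varieties of all dimensions and nonzero cohomology for which the conjecture and
all the other statements are false, the statements about one variety even for every variety. -/
theorem instance_false : ∃ F : FamT, Function.Surjective (fun X : F.V => (F.coh X).d) ∧
    ¬ F.Q1 ∧
    (¬ ∀ Y N, (F.coh Y).d = 2 * N → ∀ ℓ, ℓ ≠ (F.coh Y).p → (F.coh Y).TSB ℓ N) ∧
    (¬ ∀ X N, F.M0 X ≤ 2 * N → ∃ ℓ, ℓ ≠ (F.coh X).p ∧ (F.coh (F.BL X (2 * N))).KQ ℓ N) ∧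
    (¬ ∀ X N, F.M0 X ≤ 2 * N →
      ∃ ℓ, ℓ ≠ (F.coh X).p ∧ ((F.coh (F.BL X (2 * N))).G N).Red ℓ) ∧
    (∀ X n, 2 * n ≤ (F.coh X).d ∨ (F.coh X).d ≤ n →
      ¬ AddGroup.FG ((F.coh X).G n).T ∧
      (¬ ∃ ℓ, ℓ ≠ (F.coh X).p ∧ ((F.coh X).G n).Red ℓ) ∧
      (¬ ∃ ℓ, ℓ ≠ (F.coh X).p ∧ (F.coh X).TSB ℓ n) ∧
      (¬ ∀ ℓ, ℓ ≠ (F.coh X).p → (F.coh X).TSB ℓ n) ∧
      (¬ (F.coh X).L n) ∧
      ¬ ∃ ℓ, ℓ ≠ (F.coh X).p ∧ ∀ i, (((F.coh X).W n).H i).Red ℓ) ∧
    ∀ X, (¬ ∀ n, (F.coh X).L n) ∧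
      ¬ ∃ ℓ, ℓ ≠ (F.coh X).p ∧ ∀ n i, (((F.coh X).W n).H i).Red ℓ := by
  let σ : ℕ → (ℕ → ℚ) →+* (ℕ → ℚ) := fun n =>
    RingHom.pi fun _ => Pi.evalRingHom (fun _ => ℚ) n
  let F : FamT := famT σ 2 two_pos (fun k => 2 ^ k) (fun n => by
    funext k
    change (2 : ℚ) ^ n = (((2 : ℕ) : ℕ → ℚ) ^ n) k
    simp)
  have h0 : ∀ (X : ℕ) (n : ℕ), ¬ AddGroup.FG ((F.coh X).G n).T := by
    intro X n h
    have h2 : AddGroup.FG (K (ℕ → ℚ) (2 * (n : ℤ) + 1 + 1) × K (ℕ → ℚ) (2 * (n : ℤ) + 1)) := h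
    let f : K (ℕ → ℚ) (2 * (n : ℤ) + 1 + 1) × K (ℕ → ℚ) (2 * (n : ℤ) + 1) →+ ℚ :=
      (Pi.evalAddMonoidHom (fun _ : ℕ => ℚ) 0).comp
        ((Submodule.subtype (K (ℕ → ℚ) (2 * (n : ℤ) + 1 + 1))).toAddMonoidHom.comp
          (AddMonoidHom.fst _ _))
    refine not_fg_rat (AddGroup.fg_of_surjective (f := f) fun x => ?_)
    have h3 : (fun _ => x : ℕ → ℚ) ∈ K (ℕ → ℚ) (2 * (n : ℤ) + 1 + 1) := by
      rw [show K (ℕ → ℚ) (2 * (n : ℤ) + 1 + 1) = ⊤ from by
        unfold K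
        rw [if_pos (by simp)]]
      trivial
    exact ⟨(⟨fun _ => x, h3⟩, 0), rfl⟩
  have h1 : ¬ F.Q1 := fun h => h0 (0 : ℕ) 0 (h (0 : ℕ) 0 _)
  have h := F.all
  refine ⟨F, fun d => ⟨d, rfl⟩, h1, ?_, ?_, ?_, ?_, ?_⟩
  · exact fun h2 => h1 ((h.out 0 1).2 h2)
  · exact fun h2 => h1 ((h.out 0 2).2 h2)
  · exact fun h2 => h1 ((h.out 0 3).2 h2)
  · intro X n hn
    have h2 := F.one X n hn
    have h3 := F.deg X n hn
    have h4 : ¬ (F.coh X).L n := fun h => h0 X n (h _)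
    exact ⟨h0 X n, fun h5 => h0 X n ((h2.out 0 1).2 h5), fun h5 => h0 X n ((h2.out 0 2).2 h5),
      fun h5 => h0 X n ((h2.out 0 3).2 h5), h4, fun h5 => h4 (h3.2 h5)⟩
  · intro X
    have h4 : ¬ ∀ n, (F.coh X).L n := fun h => h0 X 0 (h 0 _)
    exact ⟨h4, fun h5 => h4 ((F.wts X).2 h5)⟩

/-- An instance with varieties of all dimensions for which the conjecture and all the other
statements are true. -/
theorem instance_true : ∃ F : FamT, Function.Surjective (fun X : F.V => (F.coh X).d) ∧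
    F.Q1 ∧
    (∀ Y N, (F.coh Y).d = 2 * N → ∀ ℓ, ℓ ≠ (F.coh Y).p → (F.coh Y).TSB ℓ N) ∧
    (∀ X N, F.M0 X ≤ 2 * N → ∃ ℓ, ℓ ≠ (F.coh X).p ∧ (F.coh (F.BL X (2 * N))).KQ ℓ N) ∧
    (∀ X N, F.M0 X ≤ 2 * N →
      ∃ ℓ, ℓ ≠ (F.coh X).p ∧ ((F.coh (F.BL X (2 * N))).G N).Red ℓ) ∧
    (∀ X n, 2 * n ≤ (F.coh X).d ∨ (F.coh X).d ≤ n →
      AddGroup.FG ((F.coh X).G n).T ∧
      (∃ ℓ, ℓ ≠ (F.coh X).p ∧ ((F.coh X).G n).Red ℓ) ∧
      (∃ ℓ, ℓ ≠ (F.coh X).p ∧ (F.coh X).TSB ℓ n) ∧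
      (∀ ℓ, ℓ ≠ (F.coh X).p → (F.coh X).TSB ℓ n) ∧
      (F.coh X).L n ∧
      ∃ ℓ, ℓ ≠ (F.coh X).p ∧ ∀ i, (((F.coh X).W n).H i).Red ℓ) ∧
    ∀ X, (∀ n, (F.coh X).L n) ∧
      ∃ ℓ, ℓ ≠ (F.coh X).p ∧ ∀ n i, (((F.coh X).W n).H i).Red ℓ := by
  let F : FamT := famT (R := PUnit) (fun _ => RingHom.id _) 2 two_pos PUnit.unit (fun n => rfl)
  have h1 : F.Q1 := by
    intro X n i
    change AddGroup.FG (K PUnit (i + 1) × K PUnit i)
    infer_instance
  have h := F.all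
  refine ⟨F, fun d => ⟨d, rfl⟩, h1, (h.out 0 1).1 h1, (h.out 0 2).1 h1, (h.out 0 3).1 h1, ?_, ?_⟩
  · intro X n hn
    have h2 := F.one X n hn
    have h3 := F.deg X n hn
    exact ⟨h1 X n _, (h2.out 0 1).1 (h1 X n _), (h2.out 0 2).1 (h1 X n _),
      (h2.out 0 3).1 (h1 X n _), h1 X n, h3.1 (h1 X n)⟩
  · intro X
    exact ⟨h1 X, (F.wts X).1 (h1 X)⟩

end Pool.Agent.VAC2.MiddleDegreeBlowUps
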