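import Mathlib
import Pool.Agent.GZero.Cub

/-!
# Certificate of non-vacuity for MP_cb388a_ag / SmoothCubicGroups (helper file, not a hand-in)

`Statement k` is the theorem, word for word. Proved here for every field `k`:

* `dimHom`: the dimension over `k` is a well defined homomorphism `G_0(R) → ℤ` for every `k`-algebra
  `R` and counts dimensions of finite dimensional modules: the groups are not collapsed by the
  definition; `mk_self_ne`: the class of `k` in `G_0(k)` has infinite order;
* `unit_infinite_order`: by the statement the class `[S]` has infinite order in `G_0(S)`, for every `f`;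
* `point_class`: if `A` has a finite dimensional quotient module `M` (for instance a rational point
  of `f = 0`), the statement gives a class in `G_0(S)` no nonzero multiple of which is a multiple of
  `[S]`: the first factor is really there;
* `no_common_zero`: if `f = 0` has no solution at all (`f = 1`), then `G_0(A) = 0`: the first
  factor depends on `f`;
* `sphere`: explicit instance `f = (x)`: `G_0(S)` is not generated by `[S]` even up to torsion;
* `equation_nonzero`: the equation of `S` is not `0` and not a unit constant: `S` is a hypersurface.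
-/

set_option autoImplicit false

universe u

namespace Pool.Agent.VAC2.SmoothCubicGroups

open Pool.Agent.GZero

/-- The theorem, word for word. -/
def Statement (k : Type u) [CommRing k] : Prop :=
  (∀ (m r : ℕ) (f : Fin r → MvPolynomial (Fin m) k), Algebra.Smooth k (Cub f) ∧
      ∃ e : G0 (Cub f) ≃+ G0 (Quo f) × G0 k,
        ∀ Q : FMod k, e (G0.mk (Q.ext (Cub f))) = (0, G0.mk Q)) ∧
    ∀ (A : Type u) [CommRing A] [Algebra k A] [Algebra.FiniteType k A],
      ∃ (m r : ℕ) (f : Fin r → MvPolynomial (Fin m) k),
        (∀ l, (f l).totalDegree ≤ 2) ∧ Nonempty (Quo f ≃ₐ[k] A)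

variable {k : Type u} [Field k]

/-- dimension of an `R`-module over `k` -/
noncomputable def dimOver (k : Type u) [Field k] {R : Type u} [CommRing R] [Algebra k R]
    (M : FMod R) : ℕ :=
  letI := Module.compHom M.carrier (algebraMap k R)
  Module.finrank k M.carrier

/-- For a finite dimensional algebra the dimension is additive. -/
noncomputable def dimHom (k : Type u) [Field k] (R : Type u) [CommRing R] [Algebra k R]
    [Module.Finite k R] : G0 R →+ ℤ :=
  G0.lift (fun M => (dimOver k M : ℤ)) (by
    intro M' M M'' i p hi hp h
    letI i1 := Module.compHom M'.carrier (algebraMap k R)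
    letI i2 := Module.compHom M.carrier (algebraMap k R)
    letI i3 := Module.compHom M''.carrier (algebraMap k R)
    have t1 : IsScalarTower k R M'.carrier := IsScalarTower.of_algebraMap_smul fun _ _ => rfl
    have t2 : IsScalarTower k R M.carrier := IsScalarTower.of_algebraMap_smul fun _ _ => rfl
    have t3 : IsScalarTower k R M''.carrier := IsScalarTower.of_algebraMap_smul fun _ _ => rfl
    have f1 : Module.Finite k M'.carrier := Module.Finite.trans R _
    have f2 : Module.Finite k M.carrier := Module.Finite.trans R _
    have f3 : Module.Finite k M''.carrier := Module.Finite.trans R _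
    have h1 := LinearMap.finrank_range_add_finrank_ker (p.restrictScalars k)
    have h2 : Module.finrank k (LinearMap.range (p.restrictScalars k)) =
        Module.finrank k M''.carrier := by
      have hp' : Function.Surjective (p.restrictScalars k) := hp
      rw [LinearMap.range_eq_top.2 hp', finrank_top]
    have h3 : Module.finrank k (LinearMap.ker (p.restrictScalars k)) =
        Module.finrank k M'.carrier := by
      have h4 : LinearMap.ker (p.restrictScalars k) = LinearMap.range (i.restrictScalars k) := by
        ext x
        have h5 := SetLike.ext_iff.1 h x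
        rw [LinearMap.mem_range, LinearMap.mem_ker] at h5
        rw [LinearMap.mem_range, LinearMap.mem_ker]
        exact h5.symm
      rw [h4]
      exact LinearMap.finrank_range_of_inj (f := i.restrictScalars k) hi
    rw [h2, h3] at h1
    show ((Module.finrank k M.carrier : ℕ) : ℤ) =
      ((Module.finrank k M'.carrier : ℕ) : ℤ) + ((Module.finrank k M''.carrier : ℕ) : ℤ)
    rw [← h1]
    push_cast
    ring)

/-- `R` as a module over itself -/
noncomputable def selfMod (R : Type u) [CommRing R] : FMod R := ⟨R⟩

theorem dimHom_mk (R : Type u) [CommRing R] [Algebra k R] [Module.Finite k R] (M : FMod R) :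
    dimHom k R (G0.mk M) = dimOver k M := G0.lift_mk _ _ M

theorem dimOver_self (R : Type u) [CommRing R] [Algebra k R] :
    dimOver k (selfMod R) = Module.finrank k R := by
  unfold dimOver
  have h1 : (Module.compHom R (algebraMap k R) : Module k R) = Algebra.toModule := by
    ext a x
    exact (Algebra.smul_def a x).symm
  show @Module.finrank k R _ _ (Module.compHom R (algebraMap k R)) = Module.finrank k R
  rw [h1]

theorem dim_self : dimHom k k (G0.cls k k) = 1 := by
  have h : dimHom k k (G0.cls k k) = (dimOver k (selfMod k) : ℤ) := dimHom_mk k _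
  rw [h, dimOver_self, Module.finrank_self]
  rfl

/-- The class of `k` in `G_0(k)` has infinite order. -/
theorem mk_self_ne (a : ℤ) (h : a • G0.cls k k = 0) : a = 0 := by
  have h1 := congrArg (dimHom k k) h
  rw [map_zsmul, dim_self, map_zero] at h1
  simpa using h1

/-- The class `[S]` in `G_0(S)`. -/
noncomputable def cls (k : Type u) [Field k] {m r : ℕ} (f : Fin r → MvPolynomial (Fin m) k) :
    G0 (Cub f) := G0.mk ((⟨k⟩ : FMod k).ext (Cub f))

/-- By the statement `[S]` has infinite order. -/
theorem unit_infinite_order (H : Statement k) {m r : ℕ} (f : Fin r → MvPolynomial (Fin m) k)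
    (a : ℤ) (h : a • cls k f = 0) : a = 0 := by
  obtain ⟨-, e, he⟩ := H.1 m r f
  have h1 := congrArg e h
  rw [map_zsmul, map_zero, cls, he] at h1
  exact mk_self_ne a (congrArg Prod.snd h1)

/-- Every class of infinite order in `G_0(A)` gives a class in `G_0(S)` independent of `[S]`. -/
theorem independent (H : Statement k) {m r : ℕ} (f : Fin r → MvPolynomial (Fin m) k)
    (x : G0 (Quo f)) (hx : ∀ a : ℤ, a • x = 0 → a = 0) :
    ∃ g : G0 (Cub f), ∀ a b : ℤ, a • g = b • cls k f → a = 0 ∧ b = 0 := by
  obtain ⟨-, e, he⟩ := H.1 m r f
  refine ⟨e.symm (x, 0), fun a b h => ?_⟩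
  have h1 := congrArg e h
  rw [map_zsmul, map_zsmul, AddEquiv.apply_symm_apply, cls, he] at h1
  have h2 := congrArg Prod.fst h1
  have h3 := congrArg Prod.snd h1
  simp only [Prod.smul_mk, smul_zero] at h2 h3
  exact ⟨hx a h2, mk_self_ne b h3.symm⟩

/-- If `A` is finite dimensional over `k` and not zero then the first factor is not torsion. -/
theorem point_class (H : Statement k) {m r : ℕ} (f : Fin r → MvPolynomial (Fin m) k)
    [Module.Finite k (Quo f)] (M : FMod (Quo f)) (hM : dimOver k M ≠ 0) :
    ∃ g : G0 (Cub f), ∀ a b : ℤ, a • g = b • cls k f → a = 0 ∧ b = 0 := by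
  refine independent H f (G0.mk M) fun a ha => ?_
  have h1 := congrArg (dimHom k (Quo f)) ha
  rw [map_zsmul, dimHom_mk, map_zero, smul_eq_mul] at h1
  rcases mul_eq_zero.1 h1 with h2 | h2
  · exact h2
  · exact absurd (by exact_mod_cast h2) hM

/-- If the `f_l` generate the unit ideal then `G_0(A) = 0`. -/
theorem no_common_zero {m r : ℕ} (f : Fin r → MvPolynomial (Fin m) k)
    (hf : Ideal.span (Set.range f) = ⊤) (x : G0 (Quo f)) : x = 0 := by
  have hsub : Subsingleton (Quo f) := Ideal.Quotient.subsingleton_iff.2 hf
  have h0 : (AddMonoidHom.id (G0 (Quo f))) = 0 := by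
    refine G0.hom_ext fun M => ?_
    have hM : Subsingleton M.carrier := Module.subsingleton (Quo f) M.carrier
    exact G0.cls_subsingleton (R := Quo f) M.carrier
  exact DFunLike.congr_fun h0 x

/-- the system `(x)` in one variable -/
noncomputable def fx (k : Type u) [Field k] : Fin 1 → MvPolynomial (Fin 1) k :=
  fun _ => MvPolynomial.X 0

/-- `A = k[x]/(x) = k`. -/
noncomputable def quoEquiv (k : Type u) [Field k] : k ≃ₗ[k] Quo (fx k) := by
  refine LinearEquiv.ofBijective (Algebra.linearMap k (Quo (fx k))) ⟨?_, ?_⟩
  · have hne : Ideal.span (Set.range (fx k)) ≠ ⊤ := by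
      intro h
      have h1 : (1 : MvPolynomial (Fin 1) k) ∈ Ideal.span (Set.range (fx k)) := by
        rw [h]; trivial
      have h2 : Ideal.span (Set.range (fx k)) ≤
          RingHom.ker (MvPolynomial.constantCoeff : MvPolynomial (Fin 1) k →+* k) := by
        rw [Ideal.span_le]
        rintro _ ⟨l, rfl⟩
        simp [fx]
      have h3 := h2 h1
      rw [RingHom.mem_ker, map_one] at h3
      exact one_ne_zero h3
    have : Nontrivial (Quo (fx k)) := Ideal.Quotient.nontrivial_iff.2 hne
    exact (algebraMap k (Quo (fx k))).injective
  · intro a
    obtain ⟨p, rfl⟩ := Ideal.Quotient.mk_surjective a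
    refine ⟨MvPolynomial.constantCoeff p, ?_⟩
    have h1 : Ideal.Quotient.mk (Ideal.span (Set.range (fx k)))
        (MvPolynomial.C (MvPolynomial.constantCoeff p)) =
        Ideal.Quotient.mk (Ideal.span (Set.range (fx k))) p := by
      rw [Ideal.Quotient.eq]
      have h2 : ∀ q : MvPolynomial (Fin 1) k,
          MvPolynomial.C (MvPolynomial.constantCoeff q) - q ∈
            Ideal.span (Set.range (fx k)) := by
        intro q
        induction q using MvPolynomial.induction_on with
        | C a => simp
        | add a b ha hb =>
          have : MvPolynomial.C (MvPolynomial.constantCoeff (a + b)) - (a + b) =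
            (MvPolynomial.C (MvPolynomial.constantCoeff a) - a) +
              (MvPolynomial.C (MvPolynomial.constantCoeff b) - b) := by
            rw [map_add, map_add]; ring
          rw [this]
          exact Ideal.add_mem _ ha hb
        | mul_X a i _ =>
          have hi : i = 0 := Subsingleton.elim _ _
          subst hi
          have : MvPolynomial.C (MvPolynomial.constantCoeff (a * MvPolynomial.X (0 : Fin 1))) -
              a * MvPolynomial.X 0 = (-a) * fx k 0 := by
            simp [fx]
          rw [this]
          exact Ideal.mul_mem_left _ _ (Ideal.subset_span ⟨0, rfl⟩)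
      exact h2 p
    exact h1

/-- Explicit instance: for the smooth quadric `y x + z - z ^ 2 = 0` the statement says that `G_0(S)` is
not generated by `[S]`, not even up to torsion. -/
theorem sphere (H : Statement k) :
    ∃ g : G0 (Cub (fx k)), ∀ a b : ℤ, a • g = b • cls k (fx k) → a = 0 ∧ b = 0 := by
  have hfin : Module.Finite k (Quo (fx k)) := Module.Finite.equiv (quoEquiv k)
  refine point_class H (fx k) (selfMod (Quo (fx k))) ?_
  rw [dimOver_self, ← (quoEquiv k).finrank_eq, Module.finrank_self]
  exact one_ne_zero

/-- The equation of `S` is not constant: at `x = 0`, `y = 0` it is `z - z ^ 2`. -/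
theorem equation_nonzero {m r : ℕ} (f : Fin r → MvPolynomial (Fin m) k) (c : k) :
    cubic f ≠ MvPolynomial.C c := by
  intro h
  have h1 := congrArg (MvPolynomial.aeval (R := k) (S₁ := Polynomial k)
    (Sum.elim (fun _ => 0) (fun o => o.elim Polynomial.X fun _ => 0))) h
  have h2 := congrArg (fun p => Polynomial.coeff p 1) h1
  simp [cubic] at h2

end Pool.Agent.VAC2.SmoothCubicGroups
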