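import Mathlib

/-!
# Vacuity certificate for MP_e1dc24_nt AllModuliLogLog (helper file, not a hand-in)

(1) for every `0 < ε < 1` and all large `m` there are intervals as in the statement;
(2) for every class `c` coprime to `m` there are primes `q ≡ c`, so the conclusion is a real condition;
(3) the lower bound exceeds `K m` for every `K`, for all large primes `m` (the bounds `q ≥ c` and `q > m` are
weaker).
-/

set_option autoImplicit false

namespace VAC2.AllModuliLogLog

open Filter Topology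

theorem intervals (ε : ℝ) (h0 : 0 < ε) (h1 : ε < 1) :
    ∀ᶠ m : ℕ in atTop, ∃ y : ℕ, (m : ℝ) ^ ε ≤ y ∧ (y : ℝ) + (m : ℝ) ^ ε < m := by
  have ht : Tendsto (fun m : ℕ => (m : ℝ) ^ (1 - ε)) atTop atTop :=
    (tendsto_rpow_atTop (by linarith)).comp tendsto_natCast_atTop_atTop
  filter_upwards [ht.eventually_gt_atTop 3, eventually_ge_atTop 1] with m hm hm1
  have hm0 : (0 : ℝ) < m := by exact_mod_cast hm1
  have h2 : (1 : ℝ) ≤ (m : ℝ) ^ ε := Real.one_le_rpow (by exact_mod_cast hm1) h0.le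
  have h3 : (m : ℝ) = (m : ℝ) ^ ε * (m : ℝ) ^ (1 - ε) := by
    rw [← Real.rpow_add hm0]; simp
  refine ⟨⌈(m : ℝ) ^ ε⌉₊, Nat.le_ceil _, ?_⟩
  have h4 := Nat.ceil_lt_add_one (a := (m : ℝ) ^ ε) (by positivity)
  have h5 : (m : ℝ) ^ ε * 3 < m := by
    conv_rhs => rw [h3]
    exact mul_lt_mul_of_pos_left hm (by linarith)
  linarith

theorem primes (m c : ℕ) (hm : 0 < m) (hc : c.Coprime m) :
    ∃ q : ℕ, q.Prime ∧ q ≡ c [MOD m] := by
  have : NeZero m := ⟨hm.ne'⟩
  obtain ⟨q, -, hq, h2⟩ := Nat.forall_exists_prime_gt_and_eq_mod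
    ((ZMod.isUnit_iff_coprime c m).2 hc) 0
  exact ⟨q, hq, (ZMod.natCast_eq_natCast_iff q c m).1 h2⟩

theorem strong (c₀ ε K : ℝ) (hc : 0 < c₀) (hε : 0 < ε) (_ : 0 < K) :
    ∀ᶠ m : ℕ in atTop, m.Prime →
      K * m < c₀ * ε * m.totient * Real.log m * Real.log (Real.log m) := by
  have h1 : Tendsto (fun m : ℕ => Real.log m) atTop atTop :=
    Real.tendsto_log_atTop.comp tendsto_natCast_atTop_atTop
  have h2 : Tendsto (fun m : ℕ => Real.log (Real.log m)) atTop atTop :=
    Real.tendsto_log_atTop.comp h1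
  filter_upwards [h1.eventually_gt_atTop (2 * K / (c₀ * ε)), h2.eventually_gt_atTop 1,
    eventually_ge_atTop 2] with m a b hm hp
  have hm2 : (2 : ℝ) ≤ m := by exact_mod_cast hm
  rw [Nat.totient_prime hp, Nat.cast_sub (by omega)]
  push_cast
  have hce : 0 < c₀ * ε := by positivity
  rw [div_lt_iff₀ hce] at a
  have hl : 0 < Real.log m := Real.log_pos (by linarith)
  have e1 : (m : ℝ) / 2 ≤ (m : ℝ) - 1 := by linarith
  calc K * m = (2 * K) * (m / 2) := by ring
    _ < (Real.log m * (c₀ * ε)) * (m / 2) := by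
        apply mul_lt_mul_of_pos_right a (by linarith)
    _ ≤ (Real.log m * (c₀ * ε)) * ((m : ℝ) - 1) :=
        mul_le_mul_of_nonneg_left e1 (by positivity)
    _ = c₀ * ε * ((m : ℝ) - 1) * Real.log m * 1 := by ring
    _ ≤ c₀ * ε * ((m : ℝ) - 1) * Real.log m * Real.log (Real.log m) := by
        apply mul_le_mul_of_nonneg_left b.le
        have : (0 : ℝ) ≤ (m : ℝ) - 1 := by linarith
        positivity

end VAC2.AllModuliLogLog
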