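import Mathlib

/-!
Vacuity certificate (helper12) for MP_e1dc24_nt / IsolatedPrimesDensity.  `S` is the statement of
that hand-in, word for word.  `S` implies (a) the number of classes counted is positive (even
unbounded below by a positive multiple of `φ(m)`), and (b) for every `t` a positive proportion of
the classes contain no prime `≤ t φ(m) log m` at all: a statement without degenerate instances.
-/

set_option autoImplicit false

namespace Pool.Agent.VAC2.IPDCert

open Classical in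
def S : Prop := ∀ (t : ℝ), 0 < t →
    ∃ δ : ℝ, 0 < δ ∧ ∀ ε : ℝ, 0 < ε → ∃ m₀ : ℕ, ∀ m : ℕ, m₀ ≤ m →
      ∀ a b : ℝ, 0 ≤ a → a + ε ≤ b → b ≤ t →
      δ * (b - a) * (m.totient : ℝ) ≤ (((Finset.range m).filter (fun c => c.Coprime m ∧
        ∃ q : ℕ, q.Prime ∧ q ≡ c [MOD m] ∧ a * (m.totient * Real.log m) < q ∧
          (q : ℝ) ≤ b * (m.totient * Real.log m) ∧
          ∀ q' : ℕ, q'.Prime → q' ≡ c [MOD m] → (q' : ℝ) ≤ t * (m.totient * Real.log m) →
            q' = q)).card : ℝ)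

open Classical in
/-- `S` gives, for every `t`, a positive proportion of classes without a prime `≤ t φ(m) log m`. -/
theorem noPrime_of_S (h : S) (t : ℝ) (ht : 0 < t) :
    ∃ δ : ℝ, 0 < δ ∧ ∃ m₀ : ℕ, ∀ m : ℕ, m₀ ≤ m →
      δ * (m.totient : ℝ) ≤ (((Finset.range m).filter (fun c => c.Coprime m ∧
        ∀ q : ℕ, q.Prime → q ≡ c [MOD m] → t * (m.totient * Real.log m) < q)).card : ℝ) := by
  obtain ⟨δ, hδ, H⟩ := h (t + 1) (by linarith)
  obtain ⟨m₀, hm⟩ := H 1 one_pos
  refine ⟨δ, hδ, m₀, fun m hmm => ?_⟩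
  have h1 := hm m hmm t (t + 1) ht.le le_rfl le_rfl
  have h2 : δ * (t + 1 - t) * (m.totient : ℝ) = δ * (m.totient : ℝ) := by ring
  rw [h2] at h1
  refine h1.trans ?_
  have hx : (0 : ℝ) ≤ (m.totient : ℝ) * Real.log m :=
    mul_nonneg (Nat.cast_nonneg _) (Real.log_natCast_nonneg m)
  norm_cast
  refine Finset.card_le_card fun c hc => ?_
  rw [Finset.mem_filter] at hc ⊢
  obtain ⟨hc1, hc2, q, hq, hqc, hlo, -, huniq⟩ := hc
  refine ⟨hc1, hc2, fun q' hq' hqc' => ?_⟩
  by_contra hle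
  push Not at hle
  have h3 : (q' : ℝ) ≤ (t + 1) * (m.totient * Real.log m) := by
    refine hle.trans ?_
    nlinarith
  have h4 := huniq q' hq' hqc' h3
  rw [h4] at hle
  linarith

open Classical in
/-- For every `t` and all large `m` the counted set is nonempty (so `0 ≤ card` is not enough). -/
theorem pos_of_S (h : S) (t : ℝ) (ht : 0 < t) :
    ∃ m₀ : ℕ, ∀ m : ℕ, m₀ ≤ m →
      0 < (((Finset.range m).filter (fun c => c.Coprime m ∧
        ∀ q : ℕ, q.Prime → q ≡ c [MOD m] → t * (m.totient * Real.log m) < q)).card) := by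
  obtain ⟨δ, hδ, m₀, hm⟩ := noPrime_of_S h t ht
  refine ⟨max m₀ 1, fun m hmm => ?_⟩
  have h1 := hm m ((le_max_left _ _).trans hmm)
  have h2 : 0 < m.totient := Nat.totient_pos.2 (lt_of_lt_of_le one_pos ((le_max_right _ _).trans hmm))
  have h3 : (0 : ℝ) < δ * (m.totient : ℝ) := mul_pos hδ (by exact_mod_cast h2)
  exact_mod_cast h3.trans_le h1

end Pool.Agent.VAC2.IPDCert
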