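import Mathlib

/-!
Vacuity certificate (helper12) for MP_e1dc24_nt / LargeGapsInProgressions.  `S` is the statement of
that hand-in, word for word.  The hypothesis on `m` holds for `m = 1` and for every prime
`m ≥ loglog x`, and the claimed length `R(x)` is eventually larger than `K log x` for every `K`
(`log x` is the average gap near `x`).  So `S` implies, for every `K` and all large `x`: every interval
`[y, y + x]` contains a start `c` of a prime gap `> K log x`, and for every prime `m` in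
`[loglog x, x]` a `c` coprime to `m` such that no prime `q ≡ c (mod m)` lies in
`[c, c + K φ(m) log x]`.  Neither is degenerate.
-/

set_option autoImplicit false

namespace Pool.Agent.VAC2.LGIPCert

open Filter

def S : Prop :=
    ∃ c₀ : ℝ, 0 < c₀ ∧ ∀ κ : ℝ, 0 < κ → ∀ B : ℕ, ∃ x₀ : ℕ, ∀ x m : ℕ, x₀ ≤ x → 1 ≤ m →
      m ≤ x ^ B →
      ∑ p ∈ m.primeFactors.filter (fun p : ℕ => Real.exp ((1 - κ) * (Real.log (Real.log x) *
        Real.log (Real.log (Real.log (Real.log x))) / Real.log (Real.log (Real.log x)))) < (p : ℝ)),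
          (1 : ℝ) / p ≤ Real.log (Real.log (Real.log x)) / Real.log (Real.log x) →
      ∀ y : ℕ, ∃ c : ℕ, y ≤ c ∧ c ≤ y + x ∧ c.Coprime m ∧
        ∀ q : ℕ, q.Prime → q ≡ c [MOD m] → c ≤ q →
          (c : ℝ) + c₀ * (m.totient * (Real.log x * Real.log (Real.log x) ^ 2 *
            Real.log (Real.log (Real.log (Real.log x))) /
              (Real.log (Real.log (Real.log x))) ^ 2)) < q

/-- The claimed length beats `K log x` for every `K`. -/
theorem size (K : ℝ) : ∀ᶠ t : ℝ in atTop, K * Real.log t ≤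
    Real.log t * Real.log (Real.log t) ^ 2 * Real.log (Real.log (Real.log (Real.log t))) /
      (Real.log (Real.log (Real.log t))) ^ 2 := by
  have hl := Real.tendsto_log_atTop
  have h2 : Tendsto (fun t : ℝ => Real.log (Real.log t)) atTop atTop := hl.comp hl
  have h3 : Tendsto (fun t : ℝ => Real.log (Real.log (Real.log t))) atTop atTop := hl.comp h2
  have h4 : Tendsto (fun t : ℝ => Real.log (Real.log (Real.log (Real.log t)))) atTop atTop :=
    hl.comp h3
  have h5 : ∀ᶠ u : ℝ in atTop, (|K| + 1) * Real.log u ≤ u := by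
    have := (Real.isLittleO_log_id_atTop).def (show (0 : ℝ) < 1 / (|K| + 1) by positivity)
    filter_upwards [this, eventually_gt_atTop (1 : ℝ)] with u hu hu1
    have hpos : 0 < Real.log u := Real.log_pos hu1
    rw [Real.norm_of_nonneg hpos.le, id, Real.norm_of_nonneg (by linarith)] at hu
    have hK : (0 : ℝ) < |K| + 1 := by positivity
    calc (|K| + 1) * Real.log u ≤ (|K| + 1) * (1 / (|K| + 1) * u) :=
          mul_le_mul_of_nonneg_left hu hK.le
      _ = u := by field_simp
  filter_upwards [hl.eventually_ge_atTop 1, h2.eventually_ge_atTop 1, h3.eventually_ge_atTop 1,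
    h4.eventually_ge_atTop 1, h2.eventually h5] with t h1 h2 h3 h4 h5
  set a := Real.log t
  set b := Real.log a
  set c := Real.log b
  set d := Real.log c
  have hc : 0 < c ^ 2 := by positivity
  rw [le_div_iff₀ hc]
  have hK : (0 : ℝ) ≤ |K| := abs_nonneg K
  have e1 : |K| * c ^ 2 ≤ b ^ 2 := by
    have : ((|K| + 1) * c) ^ 2 ≤ b ^ 2 := pow_le_pow_left₀ (by positivity) h5 2
    nlinarith [sq_nonneg c]
  have e2 : K * c ^ 2 ≤ b ^ 2 * d := by
    have : K * c ^ 2 ≤ |K| * c ^ 2 := mul_le_mul_of_nonneg_right (le_abs_self K) hc.le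
    nlinarith [sq_nonneg b]
  have : a * (K * c ^ 2) ≤ a * (b ^ 2 * d) := mul_le_mul_of_nonneg_left e2 (by linarith)
  nlinarith

/-- The hypothesis on `m` holds for `m = 1` and for primes `m ≥ loglog x`. -/
theorem hyp (x m : ℕ) (z : ℝ) (h3 : 1 ≤ Real.log (Real.log (Real.log x)))
    (h2 : 1 ≤ Real.log (Real.log x))
    (hm : m = 1 ∨ m.Prime ∧ Real.log (Real.log x) ≤ m) :
    ∑ p ∈ m.primeFactors.filter (fun p : ℕ => z < (p : ℝ)), (1 : ℝ) / p ≤
      Real.log (Real.log (Real.log x)) / Real.log (Real.log x) := by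
  have hpos : (0 : ℝ) < Real.log (Real.log x) := by linarith
  rcases hm with rfl | ⟨hp, hle⟩
  · simp only [Nat.primeFactors_one, Finset.filter_empty, Finset.sum_empty]
    positivity
  · have h1 : ∑ p ∈ m.primeFactors.filter (fun p : ℕ => z < (p : ℝ)), (1 : ℝ) / p ≤
        ∑ p ∈ m.primeFactors, (1 : ℝ) / p :=
      Finset.sum_le_sum_of_subset_of_nonneg (Finset.filter_subset _ _)
        fun _ _ _ => by positivity
    have h0 : ∑ p ∈ m.primeFactors, (1 : ℝ) / p = 1 / (m : ℝ) := by
      rw [hp.primeFactors, Finset.sum_singleton]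
    rw [h0] at h1
    refine h1.trans ?_
    rw [div_le_div_iff₀ (by linarith) hpos]
    nlinarith

/-- The certificate: what `S` says for `m = 1` and for prime moduli. -/
theorem cert (h : S) (K : ℝ) : ∀ᶠ x : ℕ in atTop,
    (∀ y : ℕ, ∃ c : ℕ, y ≤ c ∧ c ≤ y + x ∧
      ∀ q : ℕ, q.Prime → c ≤ q → (c : ℝ) + K * Real.log x < q) ∧
    (∀ m : ℕ, m.Prime → Real.log (Real.log x) ≤ m → m ≤ x →
      ∀ y : ℕ, ∃ c : ℕ, y ≤ c ∧ c ≤ y + x ∧ c.Coprime m ∧
        ∀ q : ℕ, q.Prime → q ≡ c [MOD m] → c ≤ q →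
          (c : ℝ) + K * m.totient * Real.log x < q) := by
  obtain ⟨c₀, hc₀, H⟩ := h
  obtain ⟨x₀, H⟩ := H 1 one_pos 1
  have hcast := tendsto_natCast_atTop_atTop (R := ℝ)
  have hl := Real.tendsto_log_atTop
  have h2 : Tendsto (fun t : ℝ => Real.log (Real.log t)) atTop atTop := hl.comp hl
  have h3 : Tendsto (fun t : ℝ => Real.log (Real.log (Real.log t))) atTop atTop := hl.comp h2
  filter_upwards [eventually_ge_atTop x₀, eventually_ge_atTop 1,
    hcast.eventually (size (K / c₀)), hcast.eventually (h2.eventually_ge_atTop 1),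
    hcast.eventually (h3.eventually_ge_atTop 1)] with x hx hx1 hsize hL2 hL3
  have key : ∀ m : ℕ, m = 1 ∨ m.Prime ∧ Real.log (Real.log x) ≤ m → m ≤ x →
      ∀ y : ℕ, ∃ c : ℕ, y ≤ c ∧ c ≤ y + x ∧ c.Coprime m ∧
        ∀ q : ℕ, q.Prime → q ≡ c [MOD m] → c ≤ q →
          (c : ℝ) + K * m.totient * Real.log x < q := by
    intro m hm hmx y
    have hm1 : 1 ≤ m := by
      rcases hm with rfl | ⟨hp, -⟩
      · exact le_rfl
      · exact hp.one_lt.le
    obtain ⟨c, hc1, hc2, hc3, hc4⟩ := H x m hx hm1 (by simpa using hmx) (hyp x m _ hL3 hL2 hm) y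
    refine ⟨c, hc1, hc2, hc3, fun q hq hqc hcq => lt_of_le_of_lt ?_ (hc4 q hq hqc hcq)⟩
    have e1 : K * Real.log x ≤ c₀ * (Real.log x * Real.log (Real.log x) ^ 2 *
        Real.log (Real.log (Real.log (Real.log x))) / (Real.log (Real.log (Real.log x))) ^ 2) := by
      have := mul_le_mul_of_nonneg_left hsize hc₀.le
      refine le_trans (le_of_eq ?_) this
      field_simp
    have e2 := mul_le_mul_of_nonneg_left e1 (Nat.cast_nonneg (α := ℝ) m.totient)
    have e3 : K * (m.totient : ℝ) * Real.log x = m.totient * (K * Real.log x) := by ring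
    rw [e3]
    refine (add_le_add_iff_left _).2 (e2.trans (le_of_eq ?_))
    ring
  refine ⟨fun y => ?_, fun m hp hm hmx => key m (Or.inr ⟨hp, hm⟩) hmx⟩
  obtain ⟨c, hc1, hc2, -, hc4⟩ := key 1 (Or.inl rfl) hx1 y
  refine ⟨c, hc1, hc2, fun q hq hcq => ?_⟩
  have := hc4 q hq (Nat.modEq_one) hcq
  simpa using this

end Pool.Agent.VAC2.LGIPCert
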