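import Mathlib
import Pool.Agent.Results.MP_e1dc24_nt.PolynomialRingExponentTwo

/-!
# Certificate for MP_e1dc24_nt, PolynomialRingExponentTwo

The statement has no definitions of its own. `exists_g`: over `ZMod 2` (the case `k = 1`) there are
monic irreducible `g` of arbitrarily large odd degree, so the quantifier over `g` is not empty.
`real_condition`: for all of them of degree at least three the reduced class of `X` does not have
the property, not even with `Q = 1` (`j = 0`), so it is not shared by all classes.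
`strong`: for every `J` and all large `g` the factor `Q = 2 ^ J` is allowed, so the bound is far
above the trivial bound (the norm of the modulus).
`certificate` puts these together with the theorem.
-/

set_option autoImplicit false

namespace Pool.Agent.VAC2.PolynomialRingExponentTwo

open Polynomial

/-- Monic irreducible polynomials of every degree over `ZMod 2`. -/
theorem exists_irr (n : ℕ) (hn : n ≠ 0) :
    ∃ g : (ZMod 2)[X], g.Monic ∧ Irreducible g ∧ g.natDegree = n := by
  have : Fact (Nat.Prime 2) := ⟨Nat.prime_two⟩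
  obtain ⟨α, hα⟩ := Field.exists_primitive_element (ZMod 2) (GaloisField 2 n)
  have hi : IsIntegral (ZMod 2) α := IsIntegral.of_finite (ZMod 2) α
  refine ⟨minpoly (ZMod 2) α, minpoly.monic hi, minpoly.irreducible hi, ?_⟩
  rw [(Field.primitive_element_iff_minpoly_natDegree_eq (ZMod 2) α).mp hα]
  exact GaloisField.finrank 2 hn

theorem exists_g (N : ℕ) :
    ∃ g : (ZMod 2)[X], g.Monic ∧ Irreducible g ∧ Odd g.natDegree ∧ N ≤ g.natDegree := by
  obtain ⟨g, h1, h2, h3⟩ := exists_irr (2 * N + 1) (by omega)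
  exact ⟨g, h1, h2, ⟨N, h3⟩, by omega⟩

/-- The class of `X` is reduced and contains the small irreducible polynomial `X`. -/
theorem real_condition (F : Type) [Field F] [Fintype F] (g : F[X]) (h1 : Irreducible g)
    (h3 : 3 ≤ g.natDegree) :
    (X : F[X]).natDegree < (g ^ 4).natDegree ∧ IsCoprime (X : F[X]) (g ^ 4) ∧
      ∃ P : F[X], Irreducible P ∧ g ^ 4 ∣ P - X ∧
        (Fintype.card F : ℝ) ^ P.natDegree < (Fintype.card F : ℝ) ^ (g ^ 4).natDegree := by
  have hd : (g ^ 4).natDegree = 4 * g.natDegree := natDegree_pow g 4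
  have hX : (X : F[X]).natDegree = 1 := natDegree_X
  have hc : (1 : ℝ) < Fintype.card F := by exact_mod_cast Fintype.one_lt_card
  refine ⟨by rw [hd, hX]; omega, ?_, X, irreducible_X, by simp, ?_⟩
  · apply IsCoprime.pow_right
    rw [irreducible_X.coprime_iff_not_dvd]
    intro h
    obtain ⟨u, hu⟩ := h
    rcases h1.isUnit_or_isUnit hu with h | h
    · exact irreducible_X.not_isUnit h
    · have h4 : g.natDegree = 1 := by
        rw [hu, natDegree_mul X_ne_zero h.ne_zero, hX, natDegree_eq_zero_of_isUnit h]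
      omega
  · rw [hd, hX]
    exact pow_lt_pow_right₀ hc (by omega)

/-- All factors `Q = q ^ J` are allowed for large degrees. -/
theorem strong (q : ℕ) (hq : 2 ≤ q) (ε : ℝ) (hε1 : ε < 1) (J : ℕ) :
    ∃ N : ℕ, ∀ n : ℕ, N ≤ n → (q : ℝ) ^ J ≤ (1 - ε) * ((q : ℝ) - 1) * n / 4 := by
  have hp : 0 < (1 - ε) * ((q : ℝ) - 1) / 4 := by
    have h1 : (0 : ℝ) < 1 - ε := by linarith
    have h2 : (2 : ℝ) ≤ q := by exact_mod_cast hq
    have h3 : (0 : ℝ) < (q : ℝ) - 1 := by linarith
    positivity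
  obtain ⟨N, hN⟩ := exists_nat_ge ((q : ℝ) ^ J / ((1 - ε) * ((q : ℝ) - 1) / 4))
  refine ⟨N, fun n hn => ?_⟩
  have h1 : (q : ℝ) ^ J / ((1 - ε) * ((q : ℝ) - 1) / 4) ≤ n :=
    hN.trans (by exact_mod_cast hn)
  rw [div_le_iff₀ hp] at h1
  calc (q : ℝ) ^ J ≤ n * ((1 - ε) * ((q : ℝ) - 1) / 4) := h1
    _ = (1 - ε) * ((q : ℝ) - 1) * n / 4 := by ring

/-- For `F = ZMod 2`, `ε = 1 / 2` and every `J`, `N` there are a modulus `m = g ^ 4` of degree at
least `N`, a reduced class `c` all of whose irreducible members have norm at least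
`|m| * (2 ^ J) ^ 2`, and another reduced class, that of `X`, with an irreducible member of norm
less than `|m|`. -/
theorem certificate (J N : ℕ) :
    ∃ g : (ZMod 2)[X], g.Monic ∧ Irreducible g ∧ N ≤ (g ^ 4).natDegree ∧
      (∃ c : (ZMod 2)[X], c.natDegree < (g ^ 4).natDegree ∧ IsCoprime c (g ^ 4) ∧
        ∀ P : (ZMod 2)[X], Irreducible P → g ^ 4 ∣ P - c →
          (2 : ℝ) ^ (g ^ 4).natDegree * ((2 : ℝ) ^ J) ^ 2 ≤ (2 : ℝ) ^ P.natDegree) ∧
      ((X : (ZMod 2)[X]).natDegree < (g ^ 4).natDegree ∧ IsCoprime (X : (ZMod 2)[X]) (g ^ 4) ∧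
        ∃ P : (ZMod 2)[X], Irreducible P ∧ g ^ 4 ∣ P - X ∧
          (2 : ℝ) ^ P.natDegree < (2 : ℝ) ^ (g ^ 4).natDegree) := by
  have : Fact (Nat.Prime 2) := ⟨Nat.prime_two⟩
  have hcard : Fintype.card (ZMod 2) = 2 := ZMod.card 2
  obtain ⟨N₀, h0⟩ := Pool.Agent.Results.MP_e1dc24_nt.PolynomialRingExponentTwo.result (ZMod 2) 1
    odd_one (by rw [hcard, pow_one]) (1 / 2) (by norm_num) (by norm_num)
  obtain ⟨M, hM⟩ := strong 2 le_rfl (1 / 2) (by norm_num) J
  obtain ⟨g, h1, h2, h3, h4⟩ := exists_g (N₀ + M + N + 3)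
  have hd : (g ^ 4).natDegree = 4 * g.natDegree := natDegree_pow g 4
  obtain ⟨C, hC, hP⟩ := h0 g h1 h2 h3 (by omega)
  have hne : C.Nonempty := by
    rw [← Finset.card_pos]
    have h5 : (0 : ℝ) < C.card := by
      refine lt_of_lt_of_le ?_ hC
      rw [hcard]
      positivity
    exact_mod_cast h5
  obtain ⟨c, hc⟩ := hne
  have h6 := real_condition (ZMod 2) g h2 (by omega)
  rw [hcard] at h6
  push_cast at h6
  refine ⟨g, h1, h2, by omega, ⟨c, (hP c hc).1, (hP c hc).2.1, fun P hI hg => ?_⟩, h6⟩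
  have h7 := (hP c hc).2.2 P hI hg J
  rw [hcard] at h7
  push_cast at h7
  refine h7 ?_
  have h8 := hM (g ^ 4).natDegree (by omega)
  push_cast at h8
  exact h8

end Pool.Agent.VAC2.PolynomialRingExponentTwo
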