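import Pool.Agent.FJA.ChDefs
import Pool.Agent.FJA.P_GMQ

/-!
# Certificate: the hypotheses of ChernCharacterAssembly hold for explicit nonzero families

`vol m` is the volume form: the homogeneous cocycle of degree `m` of `ℤ ^ m`.
-/

set_option autoImplicit false

noncomputable section

namespace Pool.Agent.VAC2.CCA

open Pool.Agent.FJA

/-- The group `ℤ ^ m × ℤ`. -/
abbrev Zm (m : ℕ) : Type := Multiplicative ((Fin m → ℤ) × ℤ)

/-- The volume of a simplex. -/
def vol (m : ℕ) (a : Fin (m + 1) → (Fin m → ℤ)) : ℤ :=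
  Matrix.det (Matrix.of fun j => (Fin.cons 1 (a j) : Fin (m + 1) → ℤ))

theorem vol_perm (m : ℕ) (σ : Equiv.Perm (Fin (m + 1))) (a : Fin (m + 1) → (Fin m → ℤ)) :
    vol m (fun j => a (σ j)) = (Equiv.Perm.sign σ : ℤ) * vol m a := by
  have h := Matrix.det_permute σ (Matrix.of fun j => (Fin.cons 1 (a j) : Fin (m + 1) → ℤ))
  rw [Int.cast_id] at h
  exact h

theorem vol_add (m : ℕ) (g : Fin m → ℤ) (a : Fin (m + 1) → (Fin m → ℤ)) :
    vol m (fun j => g + a j) = vol m a := by
  unfold vol
  let U : Matrix (Fin (m + 1)) (Fin (m + 1)) ℤ :=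
    Matrix.of fun i k => if i = 0 then (Fin.cons 1 g : Fin (m + 1) → ℤ) k else if i = k then 1 else 0
  have hU : U.det = 1 := by
    rw [Matrix.det_of_isUpperTriangular]
    · refine Finset.prod_eq_one fun i _ => ?_
      refine Fin.cases ?_ (fun i => ?_) i
      · simp [U]
      · simp [U]
    · intro i j hij
      have h1 : j < i := hij
      have h2 : i ≠ 0 := fun h => by rw [h] at h1; exact absurd h1 (Fin.not_lt_zero j)
      simp [U, h2, h1.ne']
  have hM : (Matrix.of fun j => (Fin.cons 1 (g + a j) : Fin (m + 1) → ℤ)) =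
      (Matrix.of fun j => (Fin.cons 1 (a j) : Fin (m + 1) → ℤ)) * U := by
    ext j k
    rw [Matrix.mul_apply, Fin.sum_univ_succ]
    refine Fin.cases ?_ (fun k => ?_) k
    · simp [U]
    · simp [U, Fin.succ_ne_zero]
  rw [hM, Matrix.det_mul, hU, mul_one]

theorem vol_coc (m : ℕ) (a : Fin (m + 2) → (Fin m → ℤ)) :
    ∑ i : Fin (m + 2), (-1 : ℤ) ^ (i : ℕ) * vol m (fun j => a (i.succAbove j)) = 0 := by
  let N : Matrix (Fin (m + 2)) (Fin (m + 2)) ℤ :=
    Matrix.of fun i => (Fin.cons 1 (Fin.cons 1 (a i) : Fin (m + 1) → ℤ) : Fin (m + 2) → ℤ)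
  have h0 : N.det = 0 := Matrix.det_zero_of_column_eq (i := 0) (j := 1) (by simp) (by intro k; simp [N])
  rw [Matrix.det_succ_column_zero] at h0
  rw [← h0]
  refine Finset.sum_congr rfl fun i _ => ?_
  have h1 : N.submatrix i.succAbove Fin.succ =
      Matrix.of fun j => (Fin.cons 1 (a (i.succAbove j)) : Fin (m + 1) → ℤ) := by
    ext j k
    simp [N]
  rw [h1]
  simp [N, vol]

theorem vol_std (m : ℕ) : vol m (fun j k => if j = Fin.succ k then 1 else 0) = 1 := by
  unfold vol
  rw [Matrix.det_of_isLowerTriangular]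
  · refine Finset.prod_eq_one fun i _ => ?_
    refine Fin.cases ?_ (fun i => ?_) i
    · simp
    · simp
  · intro i j hij
    have h1 : i < j := hij
    revert h1
    refine Fin.cases ?_ (fun j => ?_) j
    · intro h1
      exact absurd h1 (Fin.not_lt_zero i)
    · intro h1
      simp [h1.ne]

open Classical in
/-- The family with the volume form at the element `y₀`. -/
def Fam (m : ℕ) (y₀ : Zm m) (a : Fin (m + 1) → Zm m) (y : Zm m) : ℤ :=
  if y = y₀ then vol m (fun j => (Multiplicative.toAdd (a j)).1) else 0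

theorem intFam (m : ℕ) (y₀ : Zm m) (hy : (Multiplicative.toAdd y₀).1 = 0) :
    IntFam m (Fam m y₀) where
  fam :=
    { inv := by
        intro g a y
        have h1 : g * y * g⁻¹ = y := by rw [mul_comm g y, mul_inv_cancel_right]
        rw [h1]
        unfold Fam
        split_ifs with h
        · exact vol_add m (Multiplicative.toAdd g).1 (fun j => (Multiplicative.toAdd (a j)).1)
        · rfl
      coc := by
        intro a y
        unfold Fam
        split_ifs with h
        · exact vol_coc m (fun j => (Multiplicative.toAdd (a j)).1)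
        · simp }
  altb := by
    intro y
    refine ⟨fun σ a => ?_, fun t a => ?_⟩
    · unfold Fam
      split_ifs with h
      · have := vol_perm m σ (fun j => (Multiplicative.toAdd (a j)).1)
        rw [this]
        push_cast
        rfl
      · simp
    · unfold Fam
      split_ifs with h
      · congr 2
        funext j
        subst h
        show ((t j • Multiplicative.toAdd y) + Multiplicative.toAdd (a j)).1 = _
        rw [Prod.fst_add, Prod.smul_fst, hy, smul_zero, zero_add]
      · rfl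

theorem nsdvb (m : ℕ) : NSDvb (Zm m) := by
  intro y hy
  have key : ∀ z : ℤ, (∀ c : ℕ, ∃ d : ℤ, z = 2 ^ c * d) → z = 0 := by
    intro z hz
    by_contra h0
    obtain ⟨d, hd⟩ := hz z.natAbs
    have h1 : (2 : ℤ) ^ z.natAbs ∣ z := ⟨d, hd⟩
    have h2 : 2 ^ z.natAbs ≤ z.natAbs := by
      have := Int.natAbs_dvd_natAbs.2 h1
      rw [Int.natAbs_pow] at this
      exact Nat.le_of_dvd (Int.natAbs_pos.2 h0) this
    exact absurd h2 (not_le.2 Nat.lt_two_pow_self)
  have h1 : ∀ c : ℕ, ∃ δ : (Fin m → ℤ) × ℤ, (2 ^ c) • δ = Multiplicative.toAdd y := by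
    intro c
    obtain ⟨δ, hδ⟩ := hy.1 2 c Nat.prime_two
    exact ⟨Multiplicative.toAdd δ, by rw [← hδ]; rfl⟩
  have h2 : Multiplicative.toAdd y = 0 := by
    refine Prod.ext (funext fun k => key _ fun c => ?_) (key _ fun c => ?_)
    · obtain ⟨δ, hδ⟩ := h1 c
      exact ⟨δ.1 k, by rw [← hδ]; simp⟩
    · obtain ⟨δ, hδ⟩ := h1 c
      exact ⟨δ.2, by rw [← hδ]; simp⟩
  exact h2

/-- **The hypotheses of the theorem are satisfied by nonzero families, in every degree, at an element
`y ≠ 1` of infinite order.** -/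
theorem cert (m : ℕ) :
    LimOf NSDvb (Zm m) ∧ ∃ y : Zm m, y ≠ 1 ∧ ¬ IsOfFinOrder y ∧ IntFam m (Fam m y) ∧
      ∃ a : Fin (m + 1) → Zm m, Fam m y a y = 1 := by
  refine ⟨fun S => ⟨Zm m, inferInstance, MonoidHom.id _, id, ⟨fun g _ => rfl, fun g _ h _ _ => rfl⟩,
    nsdvb m⟩, Multiplicative.ofAdd (0, 1), ?_, ?_, intFam m _ rfl,
    fun j => Multiplicative.ofAdd (fun k => if j = Fin.succ k then 1 else 0, 0), ?_⟩
  · intro h
    have := congrArg (fun x => (Multiplicative.toAdd x).2) h
    simp at this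
  · rw [isOfFinOrder_iff_pow_eq_one]
    rintro ⟨n, hn, h⟩
    have := congrArg (fun x => (Multiplicative.toAdd x).2) h
    simp at this
    omega
  · unfold Fam
    rw [if_pos rfl]
    exact vol_std m

/-! ### The functionals do not vanish -/

/-- The cochain of a family on the simplex `X` is the value on the Dennis trace. -/
theorem cvalS_hseq {G : Type} [Group G] {r n : ℕ} (F : (Fin (n + 1) → G) → G → ℚ)
    (X : Fin (n + 1) → (Matrix (Fin r) (Fin r) (MonoidAlgebra ℤ G))ˣ) :
    cvalS ℚ F (hseq n (List.ofFn X)) = dtr F X := by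
  unfold cvalS dtr
  refine finsum_congr fun γ => ?_
  have h1 : hcoef (hseq n (List.ofFn X)) γ = dcoef X γ := by
    unfold hcoef dcoef
    refine Finset.sum_congr rfl fun a _ => Finset.prod_congr rfl fun j _ => ?_
    have hg : ∀ j : Fin (n + 1), (List.ofFn X).getD (j : ℕ) 1 = X j := by
      intro j
      rw [List.getD_eq_getElem?_getD, List.getElem?_ofFn, dif_pos j.2, Option.getD_some]
    unfold hseq
    rw [hg, hg]
  rw [h1]
  simp

theorem chv_zero {G : Type} [Group G] {r n : ℕ} {T : ∀ V : Type, ℕ → List V → (List V →₀ ℚ)}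
    (hT : NatLift T) (F : (Fin (n + 1) → G) → G → ℤ)
    (z : (Fin (n + 1) → (Matrix (Fin r) (Fin r) (MonoidAlgebra ℤ G))ˣ) →₀ ℚ) :
    chv T n 0 F z = z.sum fun X q => q * dtr (fun a y => (F a y : ℚ)) X := by
  have h0 : ∀ (V : Type) (c : List V →₀ ℚ), lT T V 0 c = c := by
    intro V c
    unfold lT
    rw [Finsupp.linearCombination_apply]
    have h1 : ∀ (X : List V) (q : ℚ), q • T V 0 X = Finsupp.single X q := by
      intro X q
      rw [hT.zero, Finsupp.smul_single, smul_eq_mul, mul_one]
    simp only [h1]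
    exact Finsupp.sum_single c
  unfold chv
  rw [h0, Finsupp.sum_mapDomain_index (by intro b; simp) (by intro b m₁ m₂; ring)]
  refine Finsupp.sum_congr fun X _ => ?_
  exact congrArg _ (cvalS_hseq (fun a y => (F a y : ℚ)) X)

/-- The functionals are not zero on the image of the assembly map: the generator of `H_1(ℤ)`. -/
theorem cert_one : ∃ w ∈ cyc ℚ (Zm 1) 1, IntFam 1 (Fam 1 1) ∧
    ∀ T : ∀ V : Type, ℕ → List V → (List V →₀ ℚ), NatLift T → chv T 1 0 (Fam 1 1) (asm w) = 1 := by
  let X : Fin 2 → Zm 1 := fun j => Multiplicative.ofAdd (fun _ => (j : ℤ), 0)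
  refine ⟨Finsupp.single X 1, ?_, intFam 1 1 rfl, fun T hT => ?_⟩
  · show bd ℚ (Zm 1) 1 (Finsupp.single X 1) ∈ hdeg ℚ (Zm 1) 0
    have h1 : bd ℚ (Zm 1) 1 (Finsupp.single X 1) =
        Finsupp.single (fun i => Multiplicative.ofAdd ((fun _ => (1 : ℤ), 0) : (Fin 1 → ℤ) × ℤ) *
          (fun _ : Fin 1 => X 0) i) 1 - Finsupp.single (fun _ : Fin 1 => X 0) 1 := by
      unfold bd
      rw [Finsupp.linearCombination_single, one_smul, Fin.sum_univ_two]
      have e0 : (fun j : Fin 1 => X ((0 : Fin 2).succAbove j)) =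
          fun i => Multiplicative.ofAdd ((fun _ => (1 : ℤ), 0) : (Fin 1 → ℤ) × ℤ) *
            (fun _ : Fin 1 => X 0) i := by
        funext j
        have : j = 0 := Subsingleton.elim _ _
        subst this
        rfl
      have e1 : (fun j : Fin 1 => X ((1 : Fin 2).succAbove j)) = fun _ : Fin 1 => X 0 := by
        funext j
        have : j = 0 := Subsingleton.elim _ _
        subst this
        rfl
      rw [e0, e1]
      simp [sub_eq_add_neg]
    rw [h1]
    exact Submodule.subset_span ⟨_, _, rfl⟩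
  · rw [chv_zero hT]
    unfold asm
    rw [Finsupp.mapDomain_single, Finsupp.sum_single_index (by simp), one_mul]
    rw [t_GMQ (Zm 1) 1 (fun a y => (Fam 1 1 a y : ℚ)) (fun g a y => by rw [(intFam 1 1 rfl).fam.inv]) X]
    unfold Fam
    rw [if_pos rfl]
    have : vol 1 (fun j => (Multiplicative.toAdd (X j)).1) = 1 := by
      unfold vol
      rw [Matrix.det_fin_two]
      simp [X]
    rw [this]
    norm_num

end Pool.Agent.VAC2.CCA
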