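import Pool.Agent.KM.All
import Pool.Agent.Lib_helper25.Global

set_option autoImplicit false

/-!
# Certificate for MP_e40716_gt/AssemblyInjectiveMinusOne

* `KNegOne` is not junk: it is `0` for Dedekind domains (`ded`), it has elements of infinite order
  for `ℤ[C]`, `C` finite cyclic of order divisible by two primes (`exists_inf`).
* `src_not_torsion`: the source `Src G` is not a torsion group as soon as `G` has such a cyclic
  subgroup; concrete infinite groups: `ex1` (`C₆ × ℤ`), `ex2` (`C₆ ∗ C₆`).
* `src_rank_two`: two such subgroups which are not conjugate give two elements of `Src G`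
  independent over `ℤ` (so the source is not the contribution of one subgroup).
* `DS_kernel`: before dividing by the relations the kernel is NOT torsion (so the theorem is a real
  condition: the relations generate the kernel up to torsion).
-/

open Pool.Agent.Lib25 Pool.Agent.KM

namespace Pool.Agent.VAC2.KMCert

universe u

/-- `K_{-1}` of a Dedekind domain vanishes. -/
theorem ded {R : Type} [CommRing R] [IsDedekindDomain R] (x : KNegOne R) : x = 0 := all_DED x

open scoped Classical in
/-- classes of infinite order, jointly independent -/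
theorem exists_fam {G : Type u} [Group G] {I : Type} (C : I → Subgroup G)
    (hfin : ∀ i, Finite (C i)) (hcyc : ∀ i, IsCyclic (C i))
    (h2 : ∀ i, 2 ≤ (Nat.card (C i)).primeFactors.card)
    (hconj : ∀ i j, (∃ g : G, C i = (C j).map (MulAut.conj g).toMonoidHom) → i = j) :
    ∃ x : ∀ i, KNegOne (MonoidAlgebra ℤ (C i)), ∀ (S : Finset I) (m : I → ℤ),
      ∑ i ∈ S, m i • Kg (C i).subtype (x i) = 0 → ∀ i ∈ S, m i = 0 := by
  let instC : ∀ i, CommGroup (C i) := fun i => IsCyclic.commGroup
  let instF : ∀ i, Fintype (C i) := fun i => Fintype.ofFinite _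
  have hcard : ∀ i, 1 < Nat.card (C i) := by
    intro i
    have h := h2 i
    by_contra hle
    have h3 : Nat.card (C i) = 0 ∨ Nat.card (C i) = 1 := by omega
    rcases h3 with h3 | h3 <;> rw [h3] at h <;> simp at h
  have hconj' : ∀ i j, (∃ (x : Gens (C i)) (y : Gens (C j)),
      IsConj ((C i).subtype x.1) ((C j).subtype y.1)) → i = j := by
    rintro i j ⟨x, y, hxy⟩
    apply hconj
    rw [isConj_comm, isConj_iff] at hxy
    obtain ⟨g, hg⟩ := hxy
    refine ⟨g, ?_⟩
    have h1 : C i = Subgroup.zpowers ((C i).subtype x.1) := by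
      have h2 := congrArg (Subgroup.map (C i).subtype) x.2
      rw [MonoidHom.map_zpowers] at h2
      rw [h2, ← MonoidHom.range_eq_map, Subgroup.range_subtype]
    have h3 : C j = Subgroup.zpowers ((C j).subtype y.1) := by
      have h2 := congrArg (Subgroup.map (C j).subtype) y.2
      rw [MonoidHom.map_zpowers] at h2
      rw [h2, ← MonoidHom.range_eq_map, Subgroup.range_subtype]
    rw [h1]
    conv_rhs => rw [h3]
    rw [MonoidHom.map_zpowers, ← hg]
    rfl
  obtain ⟨x, a0, hx⟩ := exists_global (fun i => C i) (fun i => (C i).subtype)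
    (fun i => (C i).subtype_injective) hcard hconj'
  -- an index different from `a0 i`
  have hne : ∀ i, ∃ a : AA (fun i => C i) (fun i => (C i).subtype) i, a ≠ a0 i := by
    intro i
    have hc : 1 < (Nat.card (C i)).primeFactors.card := h2 i
    obtain ⟨q, hq, hqne⟩ := Finset.exists_mem_ne hc (a0 i).1.1
    have hpr : Fact q.Prime := ⟨Nat.prime_of_mem_primeFactors hq⟩
    obtain ⟨E, -, hpos, -⟩ := exists_local q (C i).subtype (C i).subtype_injective
    refine ⟨⟨⟨q, hq⟩, ⟨0, hpos⟩⟩, ?_⟩
    intro h
    exact hqne (congrArg (fun a => a.1.1) h)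
  choose a ha using hne
  refine ⟨fun i => x ⟨i, a i⟩, ?_⟩
  intro S m hsum i0 hi0
  let e : I ↪ (Σ i, AA (fun i => C i) (fun i => (C i).subtype) i) :=
    ⟨fun i => ⟨i, a i⟩, fun i j hij => (Sigma.mk.inj hij).1⟩
  let m' : (Σ i, AA (fun i => C i) (fun i => (C i).subtype) i) → ℤ :=
    Function.extend e (fun t => if t ∈ S then m t else 0) 0
  have hm : ∀ t, m' (e t) = if t ∈ S then m t else 0 := fun t => e.injective.extend_apply _ _ t
  have key := hx (S.map e) m' ?_ ?_ ?_ (e i0)
  · rw [hm, if_pos hi0] at key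
    exact key
  · intro b hb
    by_cases hbe : ∃ t, e t = b
    · obtain ⟨t, rfl⟩ := hbe
      rw [hm, if_neg]
      intro h
      exact hb (Finset.mem_map_of_mem _ h)
    · exact Function.extend_apply' _ _ _ hbe
  · intro i
    apply Function.extend_apply'
    rintro ⟨j, hb⟩
    obtain ⟨h1, h2⟩ := Sigma.mk.inj hb
    subst h1
    exact ha j (eq_of_heq h2)
  · rw [Finset.sum_map, ← hsum]
    apply Finset.sum_congr rfl
    intro t ht
    rw [hm, if_pos ht]
    rfl

/-- A class of infinite order in `K_{-1}(ℤ[C])`, whose image in `K_{-1}(ℤ[G])` has infinite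
order. -/
theorem exists_inf {G : Type u} [Group G] (C : Subgroup G) [Finite C] (hcyc : IsCyclic C)
    (h2 : 2 ≤ (Nat.card C).primeFactors.card) :
    ∃ x : KNegOne (MonoidAlgebra ℤ C), ∀ n : ℕ, 0 < n → n • x ≠ 0 ∧ n • Kg C.subtype x ≠ 0 := by
  obtain ⟨x, hx⟩ := exists_fam (fun _ : Unit => C) (fun _ => inferInstance) (fun _ => hcyc)
    (fun _ => h2) (fun _ _ _ => rfl)
  refine ⟨x (), fun n hn => ?_⟩
  have h1 : n • Kg C.subtype (x ()) ≠ 0 := by
    intro h
    have h3 := hx {()} (fun _ => (n : ℤ)) (by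
      rw [Finset.sum_singleton]
      rw [natCast_zsmul]
      exact h) () (Finset.mem_singleton_self _)
    omega
  refine ⟨fun h => h1 ?_, h1⟩
  rw [← map_nsmul, h, map_zero]

/-- The source is not a torsion group. -/
theorem src_not_torsion {G : Type u} [Group G] (C : Subgroup G) [Finite C] (hcyc : IsCyclic C)
    (h2 : 2 ≤ (Nat.card C).primeFactors.card) :
    ∃ s : Src G, ∀ n : ℕ, 0 < n → n • s ≠ 0 ∧ n • asm G s ≠ 0 := by
  obtain ⟨x, hx⟩ := exists_inf C hcyc h2
  refine ⟨Src.of ⟨C, inferInstance⟩ x, fun n hn => ?_⟩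
  have h1 : n • asm G (Src.of ⟨C, inferInstance⟩ x) ≠ 0 := by
    rw [asm_of]
    exact (hx n hn).2
  refine ⟨fun h => h1 ?_, h1⟩
  rw [← map_nsmul, h, map_zero]

/-- Non-conjugate subgroups give independent elements of the source. -/
theorem src_rank_two {G : Type u} [Group G] (C : Bool → Subgroup G) (hfin : ∀ i, Finite (C i))
    (hcyc : ∀ i, IsCyclic (C i)) (h2 : ∀ i, 2 ≤ (Nat.card (C i)).primeFactors.card)
    (hconj : ∀ i j, (∃ g : G, C i = (C j).map (MulAut.conj g).toMonoidHom) → i = j) :
    ∃ s t : Src G, ∀ m n : ℤ, m • s + n • t = 0 → m = 0 ∧ n = 0 := by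
  obtain ⟨x, hx⟩ := exists_fam C hfin hcyc h2 hconj
  refine ⟨Src.of ⟨C true, hfin _⟩ (x true), Src.of ⟨C false, hfin _⟩ (x false), ?_⟩
  intro m n h
  have h1 := congrArg (asm G) h
  rw [map_add, map_zsmul, map_zsmul, asm_of, asm_of, map_zero] at h1
  have h3 := hx Finset.univ (fun b => if b then m else n) (by
    rw [Fintype.sum_bool]
    exact h1)
  exact ⟨h3 true (Finset.mem_univ _), h3 false (Finset.mem_univ _)⟩

/-- Before dividing by the relations the kernel is not torsion. -/
theorem DS_kernel {G : Type u} [Group G] (C H : Subgroup G) [Finite C] [Finite H]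
    (hcyc : IsCyclic C) (h2 : 2 ≤ (Nat.card C).primeFactors.card) (hlt : C < H) :
    ∃ z : DS G, asmDS G z = 0 ∧ ∀ n : ℕ, 0 < n → n • z ≠ 0 := by
  classical
  obtain ⟨x, hx⟩ := exists_inf C hcyc h2
  have hle : ∀ a ∈ C, (1 : G) * a * (1 : G)⁻¹ ∈ H := by
    intro a ha
    simpa using hlt.le ha
  let C' : FSub G := ⟨C, inferInstance⟩
  let H' : FSub G := ⟨H, inferInstance⟩
  refine ⟨DS.of C' x - DS.of H' (cjK C' H' 1 hle x), ?_, ?_⟩
  · exact relS_le G (AddSubgroup.subset_closure ⟨C', H', 1, hle, x, rfl⟩)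
  · intro n hn h
    have hne : H' ≠ C' := by
      intro h
      exact hlt.ne (congrArg Subtype.val h).symm
    let π : DS G →+ fam C' := (DFinsupp.evalAddMonoidHom C' : (Π₀ i, fam (G := G) i) →+ fam C')
    have e1 : ∀ y : fam C', π (DS.of C' y) = y := fun y =>
      DirectSum.of_eq_same (β := fam (G := G)) C' y
    have e2 : ∀ y : fam H', π (DS.of H' y) = 0 := fun y =>
      DirectSum.of_eq_of_ne (β := fam (G := G)) H' C' y hne.symm
    have e3 : ∀ (u : fam C') (v : fam H'), π (n • (DS.of C' u - DS.of H' v)) = n • u := by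
      intro u v
      rw [map_nsmul, map_sub, e1, e2, sub_zero]
    have h4 : n • (x : fam C') = 0 :=
      (e3 x (cjK C' H' 1 hle x)).symm.trans ((congrArg π h).trans (map_zero π))
    exact (hx n hn).1 h4

/-! ## Concrete groups -/

/-- the cyclic group of order 6 -/
abbrev C6 : Type := Multiplicative (ZMod 6)

theorem card_range {P G : Type*} [Group P] [Group G] (f : P →* G) (hf : Function.Injective f) :
    Nat.card f.range = Nat.card P :=
  (Nat.card_congr (MonoidHom.ofInjective hf).toEquiv).symm

theorem card_C6 : Nat.card C6 = 6 := by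
  simp [C6, Nat.card_eq_fintype_card, ZMod.card]

theorem pf6 : (6 : ℕ).primeFactors.card = 2 := by
  have h : (6 : ℕ).primeFactors = {2, 3} := by
    have h1 : (6 : ℕ) = 2 * 3 := rfl
    rw [h1, Nat.Coprime.primeFactors_mul (by norm_num), Nat.Prime.primeFactors Nat.prime_two,
      Nat.Prime.primeFactors Nat.prime_three]
    rfl
  rw [h]
  rfl

theorem two_le_range {G : Type} [Group G] (f : C6 →* G) (hf : Function.Injective f) :
    2 ≤ (Nat.card f.range).primeFactors.card := by
  rw [card_range f hf, card_C6, pf6]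

theorem cyc_range {G : Type} [Group G] (f : C6 →* G) : IsCyclic f.range :=
  isCyclic_of_surjective f.rangeRestrict f.rangeRestrict_surjective

/-- `G = C₆ × ℤ` : the source is not a torsion group. -/
theorem ex1 : ∃ s : Src (C6 × Multiplicative ℤ), ∀ n : ℕ, 0 < n → n • s ≠ 0 := by
  have hf : Function.Injective (MonoidHom.inl C6 (Multiplicative ℤ)) := by
    intro a b h
    exact congrArg Prod.fst h
  obtain ⟨s, hs⟩ := src_not_torsion (MonoidHom.inl C6 (Multiplicative ℤ)).range (cyc_range _)
    (two_le_range _ hf)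
  exact ⟨s, fun n hn => (hs n hn).1⟩

/-- `G = C₆ ∗ C₆` : the source contains a free abelian group of rank two. -/
theorem ex2 : ∃ s t : Src (Monoid.Coprod C6 C6), ∀ m n : ℤ, m • s + n • t = 0 → m = 0 ∧ n = 0 := by
  let C : Bool → Subgroup (Monoid.Coprod C6 C6) := fun b =>
    if b then (Monoid.Coprod.inl : C6 →* Monoid.Coprod C6 C6).range
    else (Monoid.Coprod.inr : C6 →* Monoid.Coprod C6 C6).range
  refine src_rank_two C ?_ ?_ ?_ ?_
  · rintro (_ | _)
    · exact finite_range' _
    · exact finite_range' _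
  · rintro (_ | _)
    · exact cyc_range _
    · exact cyc_range _
  · rintro (_ | _)
    · exact two_le_range _ Monoid.Coprod.inr_injective
    · exact two_le_range _ Monoid.Coprod.inl_injective
  · -- the images under the two projections
    have key : ∀ (f : C6 →* Monoid.Coprod C6 C6) (f' : C6 →* Monoid.Coprod C6 C6)
        (p : Monoid.Coprod C6 C6 →* C6), (∀ c, p (f c) = c) → (∀ c, p (f' c) = 1) →
        ∀ g : Monoid.Coprod C6 C6,
          f.range = (f'.range).map (MulAut.conj g).toMonoidHom → False := by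
      intro f f' p h1 h2 g h
      have h3 : f (Multiplicative.ofAdd 1) ∈ f.range := ⟨_, rfl⟩
      rw [h] at h3
      obtain ⟨_, ⟨c, rfl⟩, h4⟩ := h3
      have h5 : p (g * f' c * g⁻¹) = p (f (Multiplicative.ofAdd 1)) := congrArg p h4
      rw [map_mul, map_mul, h2, mul_one, ← map_mul, mul_inv_cancel, map_one, h1] at h5
      have h6 : (0 : ZMod 6) = 1 := congrArg Multiplicative.toAdd h5
      exact absurd h6 (by decide)
    rintro (_ | _) (_ | _) ⟨g, hg⟩
    · rfl
    · exact (key Monoid.Coprod.inr Monoid.Coprod.inl Monoid.Coprod.snd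
        (fun c => Monoid.Coprod.snd_apply_inr c) (fun c => Monoid.Coprod.snd_apply_inl c) g hg).elim
    · exact (key Monoid.Coprod.inl Monoid.Coprod.inr Monoid.Coprod.fst
        (fun c => Monoid.Coprod.fst_apply_inl c) (fun c => Monoid.Coprod.fst_apply_inr c) g hg).elim
    · rfl

/-- `G = C₆ × C₂` : the kernel of the map before dividing by the relations is not torsion. -/
theorem ex3 : ∃ z : DS (C6 × Multiplicative (ZMod 2)), asmDS _ z = 0 ∧
    ∀ n : ℕ, 0 < n → n • z ≠ 0 := by
  have hf : Function.Injective (MonoidHom.inl C6 (Multiplicative (ZMod 2))) := by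
    intro a b h
    exact congrArg Prod.fst h
  refine DS_kernel (MonoidHom.inl C6 (Multiplicative (ZMod 2))).range ⊤ (cyc_range _)
    (two_le_range _ hf) (lt_top_iff_ne_top.2 ?_)
  intro h
  have h1 : ((1 : C6), Multiplicative.ofAdd (1 : ZMod 2)) ∈
      (MonoidHom.inl C6 (Multiplicative (ZMod 2))).range := by
    rw [h]
    exact Subgroup.mem_top _
  obtain ⟨c, hc⟩ := h1
  have h2 : (0 : ZMod 2) = 1 := congrArg (fun z => Multiplicative.toAdd z.2) hc
  exact absurd h2 (by decide)

end Pool.Agent.VAC2.KMCert
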