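import Pool.Agent.FJA.SDefsE
import Pool.Agent.FJA.Chain

/-!
# Non-vacuity of MP_e40716_gt/KernelThroughK1 (helper36)

For `G = C_6 × ℤ` and `n = 0` the source `SrcN 0 G` of the map `A` contains an element
`[2, h, c]` outside the space `UndN 0 G` of the undetected symbols.  So the conclusion
`A x = 0 → x ∈ UndN` of the hand-in is a real condition: the idempotents `ε` cannot be trivial and
`A 0` is not zero for this group (and `K_0(ℤ[G]) ⊗ ℚ`, as defined there, is not the zero space).
-/

set_option autoImplicit false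

open Pool.Agent.FJA Pool.Agent.Lib25 CategoryTheory

noncomputable section

namespace Pool.Agent.VAC2.KernelThroughK1

/-- The group `C_6 × ℤ`. -/
abbrev G6 : Type := Multiplicative (ZMod 6) × Multiplicative ℤ

section Lam

variable {P : Type} [Group P] (θ : P →* Multiplicative ℤ)

/-- The functional on the 1-chains defined by a homomorphism to `ℤ`. -/
def chi : IC ℚ 1 P →ₗ[ℚ] ℚ :=
  Finsupp.lsum ℚ fun g => ((Multiplicative.toAdd (θ (g 0)) : ℤ) : ℚ) • LinearMap.id

theorem chi_single (g : Fin 1 → P) (q : ℚ) :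
    chi θ (Finsupp.single g q) = ((Multiplicative.toAdd (θ (g 0)) : ℤ) : ℚ) * q := by
  unfold chi
  rw [Finsupp.lsum_single]
  rfl

theorem chi_d (y : IC ℚ 2 P) : chi θ (dI ℚ 1 P y) = 0 := by
  induction y using Finsupp.induction_linear with
  | zero => rw [map_zero, map_zero]
  | add f g hf hg => rw [map_add, map_add, hf, hg, add_zero]
  | single g q =>
    rw [dI_single, map_add, map_sum, Fin.sum_univ_two, map_smul, map_smul, chi_single, chi_single,
      chi_single]
    have e0 : (0 : Fin 2).contractNth (· * ·) g 0 = g 0 * g 1 := by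
      simp [Fin.contractNth]
    have e1 : (1 : Fin 2).contractNth (· * ·) g 0 = g 0 := by
      simp [Fin.contractNth]
    have e2 : g (Fin.succ (0 : Fin 1)) = g 1 := rfl
    rw [e0, e1, e2, map_mul, toAdd_mul]
    push_cast
    simp only [smul_eq_mul]
    norm_num
    ring

/-- The functional on `H_1(P; ℚ)` defined by a homomorphism to `ℤ`. -/
def lam : HQ 1 P →ₗ[ℚ] ℚ := Hk.lift (chi θ) (chi_d θ)

theorem lam_cl (x : ZC ℚ 1 P) : lam θ (cl ℚ 1 P x) = chi θ (ch ℚ 1 P x) := Hk.lift_cl _ _ x

theorem lam_map {Q : Type} [Group Q] (f : Q →* P) (c : HQ 1 Q) :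
    lam θ (HQ.map 1 f c) = lam (θ.comp f) c := by
  obtain ⟨x, rfl⟩ := exists_cl (k := ℚ) c
  obtain ⟨y, h1, h2⟩ := Hk.map_cl (k := ℚ) f x
  rw [HQ_map_eq, h1, lam_cl, h2, lam_cl]
  have h3 : chi θ ∘ₗ IC.map ℚ 1 f = chi (θ.comp f) := by
    refine Finsupp.lhom_ext fun g q => ?_
    rw [LinearMap.comp_apply, IC.map_single, chi_single, chi_single]
    rfl
  exact LinearMap.congr_fun h3 _

theorem lam_int : IsInt 1 P (lam θ) := by
  intro z hz
  choose k hk using hz
  have h1 : lam θ (hcl 1 P z) = chi θ (hch 1 P z) := Hk.lift_cl _ _ z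
  refine ⟨∑ g ∈ (hch 1 P z).support, Multiplicative.toAdd (θ (g 0)) * k g, ?_⟩
  rw [h1]
  unfold chi
  rw [Finsupp.lsum_apply, Finsupp.sum]
  push_cast
  refine Finset.sum_congr rfl fun g _ => ?_
  rw [← hk g]
  rfl

end Lam

/-- The projection of the centraliser of `h` to `ℤ`. -/
def pi (h : G6) : Cen h →* Multiplicative ℤ := (MonoidHom.snd _ _).comp (Cen h).subtype

open Classical in
/-- The weight of `(p, h)`. -/
def w (p : ℕ) (h : G6) : ℚ :=
  if orderOf h = 6 then (if p = 2 then 1 else if p = 3 then -1 else 0) else 0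

/-- The functional on the space generated by the symbols. -/
def L0 : (Sym 0 G6 →₀ ℚ) →ₗ[ℚ] ℚ :=
  Finsupp.linearCombination ℚ fun s => w s.p s.h * lam (pi s.h) s.c

theorem L0_sg (p : ℕ) (h : G6) (c : HQ (0 + 1) (Cen h)) :
    L0 (sg p h c) = w p h * lam (pi h) c := by
  unfold L0 sg
  rw [Finsupp.linearCombination_single, one_smul]

theorem w_order {p : ℕ} {h h' : G6} (e : orderOf h = orderOf h') : w p h = w p h' := by
  unfold w
  rw [e]

theorem L0_rel {r : Sym 0 G6 →₀ ℚ} (hr : Rel 0 G6 r) : L0 r = 0 := by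
  cases hr with
  | invalid p h c hA =>
    rw [L0_sg]
    have hw : w p h = 0 := by
      unfold w
      by_cases h6 : orderOf h = 6
      · have hf : IsOfFinOrder h := orderOf_pos_iff.1 (by omega)
        rw [if_pos h6]
        by_cases h2 : p = 2
        · exact absurd ⟨h2 ▸ Nat.prime_two, hf, by rw [h6, h2]; norm_num⟩ hA
        · by_cases h3 : p = 3
          · exact absurd ⟨h3 ▸ Nat.prime_three, hf, by rw [h6, h3]; norm_num⟩ hA
          · rw [if_neg h2, if_neg h3]
      · rw [if_neg h6]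
    rw [hw, zero_mul]
  | add p h c c' =>
    rw [map_sub, map_sub, L0_sg, L0_sg, L0_sg, map_add]
    ring
  | smul p h q c =>
    rw [map_sub, map_smul, L0_sg, L0_sg, map_smul, smul_eq_mul, smul_eq_mul]
    ring
  | conj p h x c =>
    rw [map_sub, L0_sg, L0_sg]
    have e1 : x * h * x⁻¹ = h := by rw [mul_comm x h, mul_inv_cancel_right]
    have e2 : w p (x * h * x⁻¹) = w p h := by rw [e1]
    have e3 : lam (pi (x * h * x⁻¹)) (HQ.map (0 + 1) (cHom x (cHom_conj x h)) c) =
        lam (pi h) c := by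
      refine (lam_map (pi (x * h * x⁻¹)) (cHom x (cHom_conj x h)) c).trans ?_
      have e4 : (pi (x * h * x⁻¹)).comp (cHom x (cHom_conj x h)) = pi h := by
        ext z
        change Multiplicative.toAdd ((x * (z : G6) * x⁻¹).2) = Multiplicative.toAdd ((z : G6).2)
        rw [mul_comm x (z : G6), mul_inv_cancel_right]
      rw [e4]
    rw [e2, e3, sub_self]
  | frob p h h' hh j k c hA hz hp =>
    rw [map_sub, L0_sg, L0_sg]
    have e1 : orderOf h' = orderOf h := by
      have h1 : Subgroup.zpowers h' = Subgroup.zpowers h :=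
        le_antisymm (Subgroup.zpowers_le.2 hh) (Subgroup.zpowers_le.2 hz)
      rw [← Nat.card_zpowers, ← Nat.card_zpowers, h1]
    have e3 : lam (pi h') (HQ.map (0 + 1) (cHom 1 (cHom_pow h hh)) c) = lam (pi h) c := by
      refine (lam_map (pi h') (cHom 1 (cHom_pow h hh)) c).trans ?_
      have e4 : (pi h').comp (cHom 1 (cHom_pow h hh)) = pi h := by
        ext z
        change Multiplicative.toAdd ((1 * (z : G6) * 1⁻¹).2) = Multiplicative.toAdd ((z : G6).2)
        rw [one_mul, inv_one, mul_one]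
      rw [e4]
    rw [w_order e1, e3, sub_self]
  | sum h c hf =>
    have e3 : ∀ a : ℕ, lam (pi (h ^ a)) (HQ.map (0 + 1) (cHom 1 (cHom_pow h (Subgroup.pow_mem _
        (Subgroup.mem_zpowers h) a))) c) = lam (pi h) c := by
      intro a
      refine (lam_map (pi (h ^ a)) (cHom 1 (cHom_pow h (Subgroup.pow_mem _
        (Subgroup.mem_zpowers h) a))) c).trans ?_
      have e4 : (pi (h ^ a)).comp (cHom 1 (cHom_pow h (Subgroup.pow_mem _
          (Subgroup.mem_zpowers h) a))) = pi h := by
        ext z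
        change Multiplicative.toAdd ((1 * (z : G6) * 1⁻¹).2) = Multiplicative.toAdd ((z : G6).2)
        rw [one_mul, inv_one, mul_one]
      rw [e4]
    have e5 : ∀ p : ℕ, ∀ a ∈ (Finset.range (orderOf h)).filter (fun a => a.Coprime (orderOf h)),
        L0 (sg p (h ^ a) (HQ.map (0 + 1) (cHom 1 (cHom_pow h (Subgroup.pow_mem _
          (Subgroup.mem_zpowers h) a))) c)) = w p h * lam (pi h) c := by
      intro p a ha
      rw [L0_sg, e3 a]
      have h1 : orderOf (h ^ a) = orderOf h :=
        Nat.Coprime.orderOf_pow ((Finset.mem_filter.1 ha).2.symm)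
      rw [w_order h1]
    rw [map_sum]
    have e6 : ∀ p ∈ (orderOf h).primeFactors, L0 (∑ a ∈ (Finset.range (orderOf h)).filter
        (fun a => a.Coprime (orderOf h)), sg p (h ^ a) (HQ.map (0 + 1) (cHom 1 (cHom_pow h
          (Subgroup.pow_mem _ (Subgroup.mem_zpowers h) a))) c)) =
        (((Finset.range (orderOf h)).filter (fun a => a.Coprime (orderOf h))).card : ℚ) *
          (w p h * lam (pi h) c) := by
      intro p _
      rw [map_sum, Finset.sum_congr rfl (e5 p), Finset.sum_const, nsmul_eq_mul]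
    rw [Finset.sum_congr rfl e6]
    by_cases h6 : orderOf h = 6
    · have h7 : (orderOf h).primeFactors = {2, 3} := by
        rw [h6]
        decide +kernel
      rw [h7, Finset.sum_pair (by norm_num)]
      have w2 : w 2 h = 1 := by unfold w; rw [if_pos h6, if_pos rfl]
      have w3 : w 3 h = -1 := by
        unfold w
        rw [if_pos h6, if_neg (by norm_num), if_pos rfl]
      rw [w2, w3]
      ring
    · refine Finset.sum_eq_zero fun p _ => ?_
      have hw : w p h = 0 := by unfold w; rw [if_neg h6]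
      rw [hw, zero_mul, mul_zero]

/-- The functional on `SrcN 0 G`. -/
def L : SrcN 0 G6 →ₗ[ℚ] ℚ :=
  (RelS 0 G6).liftQ L0 (Submodule.span_le.2 fun _ hr => L0_rel hr)

theorem L_symN (p : ℕ) (h : G6) (c : HQ (0 + 1) (Cen h)) :
    L (symN p h c) = w p h * lam (pi h) c := L0_sg p h c

theorem L_und {x : SrcN 0 G6} (hx : x ∈ UndN 0 G6) : L x = 0 := by
  unfold UndN at hx
  induction hx using Submodule.span_induction with
  | mem x hx =>
    obtain ⟨p, h, c, -, -, hc, rfl⟩ := hx
    rw [L_symN, hc (lam (pi h)) (lam_int _), mul_zero]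
  | zero => exact map_zero _
  | add x y _ _ hx hy => rw [map_add, hx, hy, add_zero]
  | smul q x _ hx => rw [map_smul, hx, smul_zero]

/-- The element of order 6. -/
def h0 : G6 := (Multiplicative.ofAdd 1, 1)

theorem order_h0 : orderOf h0 = 6 := by
  unfold h0
  rw [Prod.orderOf_mk, orderOf_one, Nat.lcm_one_right]
  rw [orderOf_ofAdd_eq_addOrderOf]
  exact ZMod.addOrderOf_one 6

/-- The element of infinite order, in the centraliser of `h0`. -/
def z0 : Cen h0 := ⟨(1, Multiplicative.ofAdd 1), by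
  rw [Subgroup.mem_centralizer_singleton_iff]
  exact mul_comm _ _⟩

theorem exists_c0 : ∃ c : HQ (0 + 1) (Cen h0), lam (pi h0) c = 1 := by
  obtain ⟨x, hx⟩ := exists_ch (k := ℚ) (m := 0) (P := Cen h0) (Finsupp.single (fun _ => z0) 1) (by
    rw [dI_single, Fin.sum_univ_one]
    have e : ∀ u v : Fin 0 → Cen h0, u = v := fun u v => Subsingleton.elim u v
    rw [e (fun i => (fun _ => z0) (Fin.succ i)) ((0 : Fin 1).contractNth (· * ·) fun _ => z0)]
    simp)
  refine ⟨cl ℚ 1 (Cen h0) x, ?_⟩
  rw [lam_cl]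
  have h1 : ch ℚ 1 (Cen h0) x = Finsupp.single (fun _ => z0) 1 := hx
  rw [h1, chi_single, mul_one]
  exact_mod_cast (rfl : Multiplicative.toAdd ((pi h0) z0) = 1)

/-- `SrcN 0 (C_6 × ℤ)` contains an element which is not a combination of undetected symbols. -/
theorem cert : ∃ x : SrcN 0 G6, x ∉ UndN 0 G6 := by
  obtain ⟨c, hc⟩ := exists_c0
  refine ⟨symN 2 h0 c, fun hx => ?_⟩
  have h1 := L_und hx
  rw [L_symN, hc] at h1
  unfold w at h1
  rw [if_pos order_h0, if_pos rfl] at h1
  norm_num at h1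

/-- A map `A` with the property of the hand-in is not zero for this group. -/
theorem A_ne_zero (A : SrcN 0 G6 →ₗ[ℚ] Kb 0 (MonoidAlgebra ℤ G6))
    (h : ∀ x, tauN 0 G6 0 + A x = 0 → x ∈ UndN 0 G6) : A ≠ 0 := by
  rintro rfl
  obtain ⟨x, hx⟩ := cert
  refine hx (h x ?_)
  have h1 : tauN 0 G6 0 = 0 := by
    unfold tauN Kb.mk Kq.mk
    rw [map_zero, map_zero]
    rfl
  rw [h1, LinearMap.zero_apply, add_zero]

end Pool.Agent.VAC2.KernelThroughK1
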