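import Pool.Agent.PFU.COMP
import Pool.Agent.PenroseSph.Main

/-!
# Certificate: the hypotheses of JointFlowPenrose hold for the Schwarzschild data of mass `2`

`g = (1 + 1/|x|)^4 δ` on `ℝ³ - {0}`, `h = 0`.
-/

set_option autoImplicit false

open MeasureTheory Filter Topology
open scoped ContDiff ENNReal

namespace Pool.Agent.VAC2.JFP

open Pool.Agent.PenroseSph Pool.Agent.PFlow Pool.Agent.PFT Pool.Agent.PFU

/-- The fourth power of the conformal factor. -/
noncomputable def f4 (r : ℝ) : ℝ := ((r + 1) / r) ^ 4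

/-- The Schwarzschild metric of mass `2`. -/
noncomputable def gS : TensorField := fun x => f4 ‖x‖ • (1 : Bil)

/-- The zero tensor. -/
def hS : TensorField := fun _ => 0

noncomputable def u (r : ℝ) : ℝ := 2 * Real.log (r + 1) - 2 * Real.log r

noncomputable def u1 (r : ℝ) : ℝ := 2 / (r + 1) - 2 / r

noncomputable def u2 (r : ℝ) : ℝ := 2 / r ^ 2 - 2 / (r + 1) ^ 2

theorem hu (r : ℝ) (hr : 0 < r) : HasDerivAt u (u1 r) r := by
  have h1 : HasDerivAt (fun r : ℝ => Real.log (r + 1)) (1 / (r + 1)) r :=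
    ((hasDerivAt_id r).add_const 1).log (by positivity)
  have h2 : HasDerivAt Real.log r⁻¹ r := Real.hasDerivAt_log hr.ne'
  refine ((h1.const_mul 2).sub (h2.const_mul 2)).congr_deriv ?_
  unfold u1
  ring

theorem hu1 (r : ℝ) (hr : 0 < r) : HasDerivAt u1 (u2 r) r := by
  have hr1 : r + 1 ≠ 0 := by positivity
  have h1 : HasDerivAt (fun r : ℝ => (r + 1)⁻¹) (-1 / (r + 1) ^ 2) r :=
    ((hasDerivAt_id r).add_const 1).inv hr1
  have h2 : HasDerivAt (fun r : ℝ => r⁻¹) (-(r ^ 2)⁻¹) r := hasDerivAt_inv hr.ne'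
  refine ((h1.const_mul 2).sub (h2.const_mul 2)).congr_deriv ?_ |>.congr_of_eventuallyEq ?_
  · unfold u2
    field_simp
    ring
  · refine Eventually.of_forall fun s => ?_
    simp only [u1, div_eq_mul_inv]
    rfl

theorem exp_u (r : ℝ) (hr : 0 < r) : Real.exp (2 * u r) = f4 r := by
  unfold u f4
  have h1 : 2 * (2 * Real.log (r + 1) - 2 * Real.log r) =
      (4 : ℕ) * (Real.log (r + 1) - Real.log r) := by push_cast; ring
  rw [h1, Real.exp_nat_mul, Real.exp_sub, Real.exp_log (by positivity), Real.exp_log hr]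

theorem hg : ∀ x : E3, 0 < ‖x‖ → gS x = Real.exp (2 * u ‖x‖) • (1 : Matrix (Fin 3) (Fin 3) ℝ) := by
  intro x hx
  rw [exp_u _ hx]
  rfl

theorem f4_pos (r : ℝ) (hr : 0 < r) : 0 < f4 r := by
  unfold f4
  positivity

theorem smooth_f4 : ContDiffOn ℝ ∞ (fun x : E3 => f4 ‖x‖) {0}ᶜ := by
  intro x hx
  have hx0 : x ≠ 0 := hx
  have h1 : ContDiffAt ℝ ∞ (fun y : E3 => ‖y‖) x := contDiffAt_norm ℝ hx0
  unfold f4
  exact (((h1.add contDiffAt_const).div h1 (norm_pos_iff.2 hx0).ne').pow 4).contDiffWithinAt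

theorem gS_apply (x : E3) (i j : Fin 3) : gS x i j = f4 ‖x‖ * dl i j := by
  unfold gS dl
  rw [Matrix.smul_apply, Matrix.one_apply, smul_eq_mul]

theorem metric : MetricOn ((({0} : Finset E3) : Set E3))ᶜ gS where
  smooth i j := by
    have h1 : (fun x : E3 => gS x i j) = fun x => f4 ‖x‖ * dl i j := funext fun x => gS_apply x i j
    rw [h1, Finset.coe_singleton]
    exact smooth_f4.mul contDiffOn_const
  posDef x hx := by
    have hx0 : x ≠ 0 := by simpa using hx
    exact Matrix.PosDef.one.smul (f4_pos _ (norm_pos_iff.2 hx0))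

theorem tensor : TensorOn ((({0} : Finset E3) : Set E3))ᶜ hS where
  smooth i j := contDiffOn_const
  symm x hx := by
    unfold hS
    exact Matrix.transpose_zero

/-! ## Decay -/

theorem f4_le (r : ℝ) (hr : 1 ≤ r) : f4 r ≤ 16 := by
  unfold f4
  have h1 : (r + 1) / r ≤ 2 := by
    rw [div_le_iff₀ (by linarith)]
    linarith
  have h2 : 0 ≤ (r + 1) / r := by positivity
  calc ((r + 1) / r) ^ 4 ≤ 2 ^ 4 := by gcongr
    _ = 16 := by norm_num

theorem abs_f4_sub (r : ℝ) (hr : 1 ≤ r) : |f4 r - 1| ≤ 15 / r := by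
  have hr0 : 0 < r := by linarith
  have h1 : f4 r - 1 = (4 * r ^ 3 + 6 * r ^ 2 + 4 * r + 1) / r ^ 4 := by
    unfold f4
    field_simp
    ring
  rw [h1, abs_of_nonneg (by positivity), div_le_div_iff₀ (by positivity) hr0]
  nlinarith [pow_pos hr0 2, pow_pos hr0 3, mul_nonneg (pow_pos hr0 3).le (sub_nonneg.2 hr),
    mul_nonneg (pow_pos hr0 2).le (sub_nonneg.2 hr), mul_nonneg hr0.le (sub_nonneg.2 hr)]

theorem abs_u1 (r : ℝ) (hr : 1 ≤ r) : |u1 r| ≤ 2 / r ^ 2 := by
  have hr0 : 0 < r := by linarith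
  have h1 : u1 r = -(2 / (r * (r + 1))) := by
    unfold u1
    field_simp
    ring
  rw [h1, abs_neg, abs_of_nonneg (by positivity)]
  gcongr
  nlinarith

theorem abs_u2 (r : ℝ) (hr : 1 ≤ r) : |u2 r| ≤ 4 / r ^ 3 := by
  have hr0 : 0 < r := by linarith
  have h1 : u2 r = 2 * (2 * r + 1) / (r ^ 2 * (r + 1) ^ 2) := by
    unfold u2
    field_simp
    ring
  rw [h1, abs_of_nonneg (by positivity), div_le_div_iff₀ (by positivity) (by positivity)]
  nlinarith [pow_pos hr0 2, pow_pos hr0 3, pow_pos hr0 4]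

theorem abs_nu (x : E3) (hx : 0 < ‖x‖) (i : Fin 3) : |x i / ‖x‖| ≤ 1 := by
  rw [abs_div, abs_norm, div_le_one hx, ← Real.norm_eq_abs]
  exact PiLp.norm_apply_le x i

theorem abs_dl (i j : Fin 3) : |dl i j| ≤ 1 := by
  unfold dl
  split_ifs <;> norm_num

theorem pd_gS (x : E3) (hx : 0 < ‖x‖) (k i j : Fin 3) :
    pd k (fun y => gS y i j) x = 2 * f4 ‖x‖ * gr u1 k x * dl i j := by
  rw [pd_metric le_rfl hu hg hx, exp_u _ hx]

theorem pd_pd_gS (x : E3) (hx : 0 < ‖x‖) (k l i j : Fin 3) :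
    pd k (pd l (fun y => gS y i j)) x =
      (4 * f4 ‖x‖ * gr u1 k x * gr u1 l x + 2 * f4 ‖x‖ * pd k (gr u1 l) x) * dl i j := by
  have hx0 : x ≠ 0 := norm_pos_iff.1 hx
  have h1 : pd l (fun y => gS y i j) =ᶠ[𝓝 x]
      fun y => (Real.exp (2 * u ‖y‖) * (2 * gr u1 l y)) * dl i j := by
    filter_upwards [eventually_lt_norm hx] with y hy
    rw [pd_gS y hy, exp_u _ hy]
    ring
  have hF : HasDerivAt (fun ρ => Real.exp (2 * u ρ)) (Real.exp (2 * u ‖x‖) * (2 * u1 ‖x‖)) ‖x‖ :=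
    ((hu ‖x‖ hx).const_mul 2).exp
  have hd := differentiableAt_gr (u1 := u1) (u2 := u2) le_rfl hu1 hx l
  have hd2 : DifferentiableAt ℝ (fun y => 2 * gr u1 l y) x := hd.const_mul 2
  have hE : DifferentiableAt ℝ (fun y : E3 => Real.exp (2 * u ‖y‖)) x :=
    differentiableAt_radial hx0 hF
  have hEd : DifferentiableAt ℝ (fun y : E3 => Real.exp (2 * u ‖y‖) * (2 * gr u1 l y)) x :=
    hE.mul hd2
  rw [pd_congr h1, pd_mul_const _ hEd, pd_mul hE hd2, pd_radial hx0 hF, pd_const_mul _ hd,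
    exp_u _ hx]
  unfold gr
  ring

theorem decay : DecayFrom 512 1 gS hS := by
  intro x hx i j
  have hx0 : 0 < ‖x‖ := by linarith
  have hdl := abs_dl i j
  have hf := f4_le _ hx
  have hf0 := (f4_pos _ hx0).le
  have hgr : ∀ k, |gr u1 k x| ≤ 2 / ‖x‖ ^ 2 := by
    intro k
    unfold gr
    rw [abs_mul]
    calc |u1 ‖x‖| * |x k / ‖x‖| ≤ 2 / ‖x‖ ^ 2 * 1 :=
          mul_le_mul (abs_u1 _ hx) (abs_nu x hx0 k) (abs_nonneg _) (by positivity)
      _ = 2 / ‖x‖ ^ 2 := mul_one _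
  have hpg : ∀ k l, |pd k (gr u1 l) x| ≤ 8 / ‖x‖ ^ 3 := by
    intro k l
    rw [pd_gr le_rfl hu1 hx0]
    have h1 : |u2 ‖x‖ * (x k / ‖x‖) * (x l / ‖x‖)| ≤ 4 / ‖x‖ ^ 3 := by
      rw [abs_mul, abs_mul]
      calc |u2 ‖x‖| * |x k / ‖x‖| * |x l / ‖x‖| ≤ 4 / ‖x‖ ^ 3 * 1 * 1 := by
            gcongr
            · exact abs_u2 _ hx
            · exact abs_nu x hx0 k
            · exact abs_nu x hx0 l
        _ = 4 / ‖x‖ ^ 3 := by ring
    have h2 : |u1 ‖x‖ * ((dl k l - x k / ‖x‖ * (x l / ‖x‖)) / ‖x‖)| ≤ 4 / ‖x‖ ^ 3 := by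
      have h3 : |dl k l - x k / ‖x‖ * (x l / ‖x‖)| ≤ 2 := by
        have h4 : |x k / ‖x‖ * (x l / ‖x‖)| ≤ 1 := by
          rw [abs_mul]
          exact mul_le_one₀ (abs_nu x hx0 k) (abs_nonneg _) (abs_nu x hx0 l)
        have h5 := abs_sub (dl k l) (x k / ‖x‖ * (x l / ‖x‖))
        linarith [abs_dl k l]
      rw [abs_mul, abs_div, abs_norm]
      calc |u1 ‖x‖| * (|dl k l - x k / ‖x‖ * (x l / ‖x‖)| / ‖x‖) ≤
          2 / ‖x‖ ^ 2 * (2 / ‖x‖) := by
            gcongr
            exact abs_u1 _ hx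
        _ = 4 / ‖x‖ ^ 3 := by field_simp; norm_num
    calc _ ≤ 4 / ‖x‖ ^ 3 + 4 / ‖x‖ ^ 3 := (abs_add_le _ _).trans (add_le_add h1 h2)
      _ = 8 / ‖x‖ ^ 3 := by ring
  refine ⟨?_, fun k => ?_, fun k l => ?_, ?_, fun k => ?_⟩
  · have h1 : gS x i j - (1 : Bil) i j = (f4 ‖x‖ - 1) * dl i j := by
      rw [gS_apply, Matrix.one_apply]
      unfold dl
      split_ifs <;> ring
    rw [h1, abs_mul]
    calc |f4 ‖x‖ - 1| * |dl i j| ≤ 15 / ‖x‖ * 1 :=
          mul_le_mul (abs_f4_sub _ hx) hdl (abs_nonneg _) (by positivity)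
      _ ≤ 512 / ‖x‖ := by rw [mul_one]; gcongr; norm_num
  · rw [pd_gS x hx0, abs_mul, abs_mul, abs_mul, abs_of_nonneg hf0]
    calc |(2 : ℝ)| * f4 ‖x‖ * |gr u1 k x| * |dl i j| ≤ 2 * 16 * (2 / ‖x‖ ^ 2) * 1 := by
          gcongr
          · norm_num
          · exact hgr k
      _ ≤ 512 / ‖x‖ ^ 2 := by
          rw [mul_one, ← mul_div_assoc]
          gcongr
          norm_num
  · rw [pd_pd_gS x hx0, abs_mul]
    have h1 : |4 * f4 ‖x‖ * gr u1 k x * gr u1 l x| ≤ 256 / ‖x‖ ^ 3 := by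
      rw [abs_mul, abs_mul, abs_mul, abs_of_nonneg hf0]
      calc |(4 : ℝ)| * f4 ‖x‖ * |gr u1 k x| * |gr u1 l x| ≤
          4 * 16 * (2 / ‖x‖ ^ 2) * (2 / ‖x‖ ^ 2) := by
            gcongr
            · norm_num
            · exact hgr k
            · exact hgr l
        _ = 256 / ‖x‖ ^ 4 := by field_simp; norm_num
        _ ≤ 256 / ‖x‖ ^ 3 := div_le_div_of_nonneg_left (by norm_num) (by positivity)
            (pow_le_pow_right₀ hx (by norm_num))
    have h2 : |2 * f4 ‖x‖ * pd k (gr u1 l) x| ≤ 256 / ‖x‖ ^ 3 := by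
      rw [abs_mul, abs_mul, abs_of_nonneg hf0]
      calc |(2 : ℝ)| * f4 ‖x‖ * |pd k (gr u1 l) x| ≤ 2 * 16 * (8 / ‖x‖ ^ 3) := by
            gcongr
            · norm_num
            · exact hpg k l
        _ = 256 / ‖x‖ ^ 3 := by ring
    calc _ ≤ (256 / ‖x‖ ^ 3 + 256 / ‖x‖ ^ 3) * 1 :=
          mul_le_mul ((abs_add_le _ _).trans (add_le_add h1 h2)) hdl (abs_nonneg _) (by positivity)
      _ = 512 / ‖x‖ ^ 3 := by ring
  · unfold hS
    rw [Matrix.zero_apply, abs_zero]
    positivity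
  · unfold hS
    simp only [Matrix.zero_apply]
    rw [pd_const, abs_zero]
    positivity

/-! ## The end at the origin -/

theorem jac (y : E3) (hy : y ≠ 0) :
    (inversionJac y).transpose * inversionJac y = (‖y‖ ^ 4)⁻¹ • (1 : Bil) := by
  have hn := norm_pos_iff.2 hy
  have h1 := norm_sq_eq y
  have h2 : y 0 ^ 2 + y 1 ^ 2 + y 2 ^ 2 ≠ 0 := by
    rw [← h1]
    positivity
  have h4 : ‖y‖ ^ 4 = (y 0 ^ 2 + y 1 ^ 2 + y 2 ^ 2) ^ 2 := by
    rw [← h1]
    ring
  ext i j
  rw [Matrix.mul_apply, Fin.sum_univ_three, Matrix.smul_apply, Matrix.one_apply, h4]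
  simp only [Matrix.transpose_apply, inversionJac, Matrix.of_apply, smul_eq_mul, h1]
  fin_cases i <;> fin_cases j <;> simp <;> field_simp <;> ring

theorem inverted_gS (y : E3) (hy : y ≠ 0) : inverted gS y = gS y := by
  have hn := norm_pos_iff.2 hy
  have h1 : ‖inversion y‖ = ‖y‖⁻¹ := by
    unfold inversion
    rw [norm_smul, norm_inv, norm_pow, norm_norm]
    field_simp
  unfold inverted
  have h2 : gS (inversion y) = f4 ‖y‖⁻¹ • (1 : Bil) := by
    unfold gS
    rw [h1]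
  rw [h2, Matrix.mul_smul, Matrix.mul_one, Matrix.smul_mul, jac y hy, smul_smul]
  unfold gS
  congr 1
  unfold f4
  field_simp
  ring

theorem shift_zero (g : TensorField) : shift 0 g = g := by
  funext x
  unfold shift
  rw [add_zero]

theorem inverted_hS : inverted hS = hS := by
  funext y
  unfold inverted hS
  rw [Matrix.mul_zero, Matrix.zero_mul]

theorem decay_inv : DecayFrom 512 1 (inverted gS) (inverted hS) := by
  intro x hx i j
  have hx0 : 0 < ‖x‖ := by linarith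
  have hev : ∀ i j, (fun y => inverted gS y i j) =ᶠ[𝓝 x] fun y => gS y i j := by
    intro i j
    filter_upwards [eventually_lt_norm hx0] with y hy
    rw [inverted_gS y (norm_pos_iff.1 hy)]
  have hev2 : ∀ l i j, pd l (fun y => inverted gS y i j) =ᶠ[𝓝 x] pd l (fun y => gS y i j) := by
    intro l i j
    filter_upwards [(hev i j).eventuallyEq_nhds] with y hy
    exact pd_congr hy
  obtain ⟨h1, h2, h3, h4, h5⟩ := decay x hx i j
  refine ⟨?_, fun k => ?_, fun k l => ?_, ?_, fun k => ?_⟩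
  · rw [inverted_gS x (norm_pos_iff.1 hx0)]
    exact h1
  · rw [pd_congr (hev i j)]
    exact h2 k
  · rw [pd_congr (hev2 l i j)]
    exact h3 k l
  · rw [inverted_hS]
    exact h4
  · rw [inverted_hS]
    exact h5 k

theorem ends : SeveralEnds {0} gS hS where
  metric := metric
  tensor := tensor
  infinity := ⟨512, 1, decay⟩
  points p hp := by
    rw [Finset.mem_singleton] at hp
    subst hp
    rw [shift_zero, shift_zero]
    exact ⟨512, 1, decay_inv⟩

/-! ## Energy condition and mass -/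

theorem scal (x : E3) (hx : 0 < ‖x‖) : scalarCurvature gS x = 0 := by
  rw [scalarCurvature_eq le_rfl hu hu1 hg hx]
  have h1 : 4 * u2 ‖x‖ + 8 * u1 ‖x‖ / ‖x‖ + 2 * u1 ‖x‖ ^ 2 = 0 := by
    unfold u1 u2
    field_simp
    ring
  rw [h1, mul_zero]

theorem trace_zero (x : E3) : traceWith gS hS x = 0 := by
  unfold traceWith hS
  simp

theorem norm_zero' (x : E3) : normSqWith gS hS x = 0 := by
  unfold normSqWith hS
  simp

theorem momentum_zero (j : Fin 3) (x : E3) : momentumDensity gS hS j x = 0 := by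
  unfold momentumDensity
  have h1 : (fun y => hS y - traceWith gS hS y • gS y) = fun _ => (0 : Bil) := by
    funext y
    rw [trace_zero, zero_smul, sub_zero]
    rfl
  rw [h1]
  unfold divergence covDeriv
  simp [pd_const]

theorem energy : EnergyCondition {0} gS hS := by
  intro x hx
  have hx0 : 0 < ‖x‖ := norm_pos_iff.2 (by simpa using hx)
  have h1 : jlen gS hS x = 0 := by
    unfold jlen
    simp only [momentum_zero]
    unfold ev
    simp
  rw [h1]
  unfold energyDensity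
  rw [scal x hx0, trace_zero, norm_zero']
  norm_num

theorem trg_zero (x : E3) : trg gS x (hS x) = 0 := by
  unfold trg hS
  simp

theorem plane : PlaneSignP {0} gS hS := by
  intro x _
  refine Or.inl fun v _ => ?_
  rw [trg_zero]
  unfold ev hS
  simp

theorem far : FarCondition gS hS := by
  refine Or.inl ⟨1, 0, one_pos, fun x _ => ⟨fun _ => ?_, fun _ => ?_⟩⟩ <;>
  · rw [trg_zero]
    unfold ev hS
    simp

theorem trace_dominated : TraceDominatedP {0} gS hS := by
  intro x _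
  have h1 : (fun y => trg gS y (hS y)) = fun _ => (0 : ℝ) := funext trg_zero
  have h2 : len gS x (grad (fun y => trg gS y (hS y)) x) = 0 := by
    rw [h1]
    unfold len grad ev
    simp [pd_const]
  rw [h2, trg_zero]
  unfold nsq hS
  simp only [Matrix.zero_apply, mul_zero, Finset.sum_const_zero]
  have h3 : 0 ≤ jlen gS (fun _ => 0) x := Real.sqrt_nonneg _
  linarith

theorem data : SphericalMetricData 0 u gS hS where
  radius_nonneg := le_rfl
  contDiff_u := by
    have h1 : ContDiffOn ℝ 2 (fun r : ℝ => Real.log (r + 1)) (Set.Ioi 0) :=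
      (contDiffOn_id.add contDiffOn_const).log fun r hr => by
        have : (0 : ℝ) < r := hr
        change r + 1 ≠ 0
        positivity
    have h2 : ContDiffOn ℝ 2 (fun r : ℝ => Real.log r) (Set.Ioi 0) :=
      contDiffOn_id.log fun r hr => (ne_of_gt hr)
    exact (contDiffOn_const.mul h1).sub (contDiffOn_const.mul h2)
  metric_eq := hg
  contDiff_h i j := contDiffOn_const
  symm_h x _ := Matrix.transpose_zero
  decay := ⟨512, 1, fun x hx i j => ⟨(decay x hx i j).1, (decay x hx i j).2.2.2.1⟩⟩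
  inner := by
    refine Or.inr ⟨1, one_pos, ?_⟩
    rw [(hu 1 one_pos).deriv]
    unfold u1
    norm_num

theorem mass : IsTotalMass gS 2 := by
  have h1 : Tendsto (fun r : ℝ => 2 * ((r + 1) / r) ^ 3) atTop (𝓝 (2 * 1 ^ 3)) := by
    have h2 : Tendsto (fun r : ℝ => 1 + r⁻¹) atTop (𝓝 (1 + 0)) :=
      tendsto_const_nhds.add tendsto_inv_atTop_zero
    rw [add_zero] at h2
    refine ((h2.pow 3).const_mul 2).congr' ?_
    filter_upwards [eventually_gt_atTop 0] with r hr
    field_simp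
  rw [one_pow, mul_one] at h1
  refine h1.congr' ?_
  filter_upwards [eventually_gt_atTop 0] with r hr
  have h3 := massIntegral_eq data (Real.log r) (by rw [Real.exp_log hr]; exact hr)
  rw [Real.exp_log hr] at h3
  rw [h3, exp_u r hr]
  have h4 : du u r = u1 r := (hu r hr).deriv
  rw [h4]
  unfold u1 f4
  field_simp
  ring

/-! ## The area is at least `64π` -/

noncomputable def ph (a r : ℝ) : ℝ := Real.smoothTransition (4 * r / a - 1)

noncomputable def ps (b r : ℝ) : ℝ := Real.smoothTransition (b + 1 - r)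

/-- The flux density. -/
noncomputable def q (a r : ℝ) : ℝ := 16 * ph a r / r ^ 2

noncomputable def q1 (a r : ℝ) : ℝ := 16 * deriv (ph a) r / r ^ 2 - 32 * ph a r / r ^ 3

/-- The calibrating field, cut off at the origin and at infinity. -/
noncomputable def Xf (a b : ℝ) (x : E3) : Cov := fun i =>
  16 * ph a ‖x‖ * ps b ‖x‖ * ‖x‖ ^ 3 / (‖x‖ + 1) ^ 6 * x i

theorem smooth_ph (a : ℝ) : ContDiff ℝ ∞ (ph a) := by
  unfold ph
  exact Real.smoothTransition.contDiff.comp
    (((contDiff_const.mul contDiff_id).div_const a).sub contDiff_const)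

theorem smooth_ps (b : ℝ) : ContDiff ℝ ∞ (ps b) := by
  unfold ps
  exact Real.smoothTransition.contDiff.comp (contDiff_const.sub contDiff_id)

theorem ph_zero (a r : ℝ) (ha : 0 < a) (hr : r < a / 4) : ph a r = 0 := by
  refine Real.smoothTransition.zero_of_nonpos ?_
  have : 4 * r / a ≤ 1 := by
    rw [div_le_one ha]
    linarith
  linarith

theorem ph_one (a r : ℝ) (ha : 0 < a) (hr : a / 2 ≤ r) : ph a r = 1 := by
  refine Real.smoothTransition.one_of_one_le ?_
  have : 2 ≤ 4 * r / a := by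
    rw [le_div_iff₀ ha]
    linarith
  linarith

theorem ph_bd (a r : ℝ) : 0 ≤ ph a r ∧ ph a r ≤ 1 :=
  ⟨Real.smoothTransition.nonneg _, Real.smoothTransition.le_one _⟩

theorem ps_bd (b r : ℝ) : 0 ≤ ps b r ∧ ps b r ≤ 1 :=
  ⟨Real.smoothTransition.nonneg _, Real.smoothTransition.le_one _⟩

theorem hq (a r : ℝ) (hr : 0 < r) : HasDerivAt (q a) (q1 a r) r := by
  have h1 : HasDerivAt (ph a) (deriv (ph a) r) r :=
    ((smooth_ph a).differentiable (by simp)).differentiableAt.hasDerivAt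
  have h2 : HasDerivAt (fun r : ℝ => r ^ 2) (2 * r) r := by
    simpa using hasDerivAt_pow 2 r
  refine ((h1.const_mul 16).div h2 (by positivity)).congr_deriv ?_
  unfold q1
  field_simp
  ring

theorem Xf_zero (a b : ℝ) (ha : 0 < a) (x : E3) (hx : ‖x‖ < a / 4) : Xf a b x = 0 := by
  funext i
  unfold Xf
  rw [ph_zero a _ ha hx]
  simp

theorem near_zero (a : ℝ) (ha : 0 < a) : ∀ᶠ x : E3 in 𝓝 0, ‖x‖ < a / 4 := by
  have h1 : Metric.ball (0 : E3) (a / 4) ∈ 𝓝 (0 : E3) := Metric.ball_mem_nhds _ (by positivity)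
  filter_upwards [h1] with x hx
  simpa using hx

theorem test (a b : ℝ) (ha : 0 < a) : TestFieldP {0} gS (Xf a b) where
  smooth i := by
    rw [contDiff_iff_contDiffAt]
    intro x
    by_cases hx : x = 0
    · subst hx
      refine (contDiffAt_const (c := (0 : ℝ))).congr_of_eventuallyEq ?_
      filter_upwards [near_zero a ha] with y hy
      rw [Xf_zero a b ha y hy]
      rfl
    · have h1 : ContDiffAt ℝ ∞ (fun y : E3 => ‖y‖) x := contDiffAt_norm ℝ hx
      have h2 : ContDiffAt ℝ ∞ (fun y : E3 => ph a ‖y‖) x := (smooth_ph a).contDiffAt.comp x h1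
      have h3 : ContDiffAt ℝ ∞ (fun y : E3 => ps b ‖y‖) x := (smooth_ps b).contDiffAt.comp x h1
      have h4 : ContDiffAt ℝ ∞ (fun y : E3 => y i) x := by fun_prop
      have h5 : (‖x‖ + 1) ^ 6 ≠ 0 := by positivity
      exact ((((contDiffAt_const.mul h2).mul h3).mul (h1.pow 3)).div
        ((h1.add contDiffAt_const).pow 6) h5).mul h4
  compact := by
    refine HasCompactSupport.intro (isCompact_closedBall (0 : E3) (b + 1)) fun x hx => ?_
    have h1 : b + 1 < ‖x‖ := by simpa using hx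
    funext i
    unfold Xf ps
    rw [Real.smoothTransition.zero_of_nonpos (by linarith)]
    simp
  avoids p hp := by
    rw [Finset.mem_singleton] at hp
    subst hp
    rw [notMem_tsupport_iff_eventuallyEq]
    filter_upwards [near_zero a ha] with y hy
    exact Xf_zero a b ha y hy
  short x hx := by
    have hx0 : 0 < ‖x‖ := norm_pos_iff.2 (by simpa using hx)
    set c : ℝ := 16 * ph a ‖x‖ * ps b ‖x‖ * ‖x‖ ^ 3 / (‖x‖ + 1) ^ 6 with hc
    have h1 : ev (gS x) (Xf a b x) (Xf a b x) = f4 ‖x‖ * c ^ 2 * ‖x‖ ^ 2 := by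
      unfold ev gS Xf
      rw [norm_sq_eq x, ← hc]
      simp only [Fin.sum_univ_three, Matrix.smul_apply, Matrix.one_apply, smul_eq_mul]
      simp
      ring
    have h2 : f4 ‖x‖ * c ^ 2 * ‖x‖ ^ 2 =
        (ph a ‖x‖ * ps b ‖x‖ * (16 * ‖x‖ ^ 2 / (‖x‖ + 1) ^ 4)) ^ 2 := by
      rw [hc]
      unfold f4
      field_simp
    have h3 : 16 * ‖x‖ ^ 2 / (‖x‖ + 1) ^ 4 ≤ 1 := by
      rw [div_le_one (by positivity)]
      have h4 : 4 * ‖x‖ ≤ (‖x‖ + 1) ^ 2 := by nlinarith [sq_nonneg (‖x‖ - 1)]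
      calc 16 * ‖x‖ ^ 2 = (4 * ‖x‖) ^ 2 := by ring
        _ ≤ ((‖x‖ + 1) ^ 2) ^ 2 := by gcongr
        _ = (‖x‖ + 1) ^ 4 := by ring
    have h5 : 0 ≤ 16 * ‖x‖ ^ 2 / (‖x‖ + 1) ^ 4 := by positivity
    have h6 := ph_bd a ‖x‖
    have h7 := ps_bd b ‖x‖
    rw [h1, h2]
    refine pow_le_one₀ (mul_nonneg (mul_nonneg h6.1 h7.1) h5) ?_
    exact mul_le_one₀ (mul_le_one₀ h6.2 h7.1 h7.2) h5 h3

theorem vol_gS (x : E3) (hx : 0 < ‖x‖) : volDen gS x = ((‖x‖ + 1) / ‖x‖) ^ 6 := by
  have h1 : (gS x).det = (((‖x‖ + 1) / ‖x‖) ^ 6) ^ 2 := by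
    unfold gS f4
    rw [Matrix.det_smul, Matrix.det_one, Fintype.card_fin]
    ring
  unfold volDen
  rw [h1, Real.sqrt_sq (by positivity)]

theorem div_Xf (a b : ℝ) (x : E3) (hx : 0 < ‖x‖) (hb : ‖x‖ < b) :
    ∑ i, pd i (fun y => volDen gS y * Xf a b y i) x = 16 * deriv (ph a) ‖x‖ / ‖x‖ ^ 2 := by
  have h1 : ∀ i, (fun y => volDen gS y * Xf a b y i) =ᶠ[𝓝 x] gr (q a) i := by
    intro i
    have h2 : ∀ᶠ y : E3 in 𝓝 x, ‖y‖ < b :=
      (isOpen_lt continuous_norm continuous_const).mem_nhds hb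
    filter_upwards [eventually_lt_norm hx, h2] with y hy hy2
    rw [vol_gS y hy]
    unfold Xf gr q
    have h3 : ps b ‖y‖ = 1 := Real.smoothTransition.one_of_one_le (by linarith)
    rw [h3]
    field_simp
  have h4 : ∀ i, pd i (fun y => volDen gS y * Xf a b y i) x =
      q1 a ‖x‖ * (x i / ‖x‖) * (x i / ‖x‖) +
        q a ‖x‖ * ((dl i i - x i / ‖x‖ * (x i / ‖x‖)) / ‖x‖) := by
    intro i
    rw [pd_congr (h1 i), pd_gr le_rfl (hq a) hx]
  simp only [h4, Fin.sum_univ_three]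
  have h5 : x 0 ^ 2 = ‖x‖ ^ 2 - x 1 ^ 2 - x 2 ^ 2 := by
    rw [norm_sq_eq x]
    ring
  have h6 : dl 0 0 = 1 ∧ dl 1 1 = 1 ∧ dl 2 2 = 1 := by
    unfold dl
    simp
  rw [h6.1, h6.2.1, h6.2.2]
  unfold q1 q
  field_simp
  rw [h5]
  ring

theorem int_ph (a : ℝ) (ha : 0 < a) : ∫ y in Set.Ioi (0 : ℝ), deriv (ph a) y = 1 := by
  have h0 : ∀ y, a / 2 < y → deriv (ph a) y = 0 := by
    intro y hy
    have h1 : ph a =ᶠ[𝓝 y] fun _ => 1 := by
      filter_upwards [lt_mem_nhds hy] with z hz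
      exact ph_one a z ha hz.le
    rw [h1.deriv_eq, deriv_const]
  have h1 : ∫ y in Set.Ioi (0 : ℝ), deriv (ph a) y = ∫ y in Set.Ioc 0 a, deriv (ph a) y := by
    refine setIntegral_eq_of_subset_of_forall_sdiff_eq_zero measurableSet_Ioi
      Set.Ioc_subset_Ioi_self fun y hy => h0 y ?_
    have h2 : 0 < y := hy.1
    have h3 : ¬ y ≤ a := fun h => hy.2 ⟨h2, h⟩
    linarith
  rw [h1, ← intervalIntegral.integral_of_le ha.le,
    intervalIntegral.integral_eq_sub_of_hasDerivAt (f := ph a)]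
  · rw [ph_one a a ha (by linarith), ph_zero a 0 ha (by positivity)]
    norm_num
  · intro y _
    exact ((smooth_ph a).differentiable (by simp)).differentiableAt.hasDerivAt
  · exact ((smooth_ph a).continuous_deriv (by simp)).intervalIntegrable _ _

theorem int_radial (a : ℝ) (ha : 0 < a) :
    ∫ x : E3, 16 * deriv (ph a) ‖x‖ / ‖x‖ ^ 2 = 64 * Real.pi := by
  rw [integral_fun_norm_addHaar volume (fun r : ℝ => 16 * deriv (ph a) r / r ^ 2)]
  have h1 : Module.finrank ℝ E3 = 3 := finrank_euclideanSpace_fin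
  have h2 : volume.real (Metric.ball (0 : E3) 1) = Real.pi * 4 / 3 := by
    rw [Measure.real, EuclideanSpace.volume_ball_fin_three]
    rw [ENNReal.ofReal_one, one_pow, one_mul, ENNReal.toReal_ofReal (by positivity)]
  rw [h1, h2]
  have h3 : ∫ y in Set.Ioi (0 : ℝ), y ^ (3 - 1) • (16 * deriv (ph a) y / y ^ 2) =
      ∫ y in Set.Ioi (0 : ℝ), 16 * deriv (ph a) y := by
    refine setIntegral_congr_fun measurableSet_Ioi fun y hy => ?_
    have h4 : (0 : ℝ) < y := hy
    simp only [smul_eq_mul]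
    have h5 : (3 : ℕ) - 1 = 2 := rfl
    rw [h5, mul_div_assoc', mul_comm, mul_div_assoc, div_self (by positivity), mul_one]
  rw [h3, integral_const_mul, int_ph a ha]
  simp only [smul_eq_mul, nsmul_eq_mul]
  push_cast
  ring

theorem area_le (U : Set E3) (hU : RegionP {0} U) (h0 : ContainsEnd 0 U) :
    ENNReal.ofReal (64 * Real.pi) ≤ perimeterP {0} gS U := by
  obtain ⟨a, ha, hin⟩ := h0
  obtain ⟨b, hb⟩ := hU.bounded
  have hnot : (0 : E3) ∉ U := (hU.points 0 (Finset.mem_singleton_self _)).1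
  refine le_trans (le_of_eq ?_) (le_iSup₂ (f := fun (X : E3 → Cov) (_ : TestFieldP {0} gS X) =>
    ENNReal.ofReal (∫ x in U, ∑ i, pd i (fun y => volDen gS y * X y i) x)) (Xf a b) (test a b ha))
  congr 1
  have h1 : ∫ x in U, ∑ i, pd i (fun y => volDen gS y * Xf a b y i) x =
      ∫ x in U, 16 * deriv (ph a) ‖x‖ / ‖x‖ ^ 2 := by
    refine setIntegral_congr_fun hU.isOpen.measurableSet fun x hx => ?_
    have hx0 : x ≠ 0 := fun h => hnot (h ▸ hx)
    exact div_Xf a b x (norm_pos_iff.2 hx0) (hb x hx)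
  rw [h1, setIntegral_eq_integral_of_forall_compl_eq_zero, int_radial a ha]
  intro x hx
  by_cases hx0 : x = 0
  · subst hx0
    simp
  · have h2 : a ≤ ‖x‖ := by
      by_contra h
      exact hx (hin x (by simpa using hx0) (by simpa using lt_of_not_ge h))
    have h3 : ph a =ᶠ[𝓝 ‖x‖] fun _ => 1 := by
      filter_upwards [lt_mem_nhds (show a / 2 < ‖x‖ by linarith)] with z hz
      exact ph_one a z ha hz.le
    rw [h3.deriv_eq, deriv_const]
    simp

theorem min_area : ENNReal.ofReal (64 * Real.pi) ≤ minAreaOf {0} {0} gS :=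
  le_iInf₂ fun U hU => area_le U hU.1 (hU.2 0 (Finset.mem_singleton_self _))

/-! ## The certificate -/

theorem unsplit : Unsplit {0} {0} gS := by
  intro S hS hne hT
  exact absurd (Finset.Subset.antisymm hS
    (Finset.singleton_subset_iff.2 (by
      obtain ⟨s, hs⟩ := hne
      have := Finset.mem_singleton.1 (hS hs)
      exact this ▸ hs))) hT

theorem div_zero (j : Fin 3) (x : E3) :
    divergence gS (fun y => hS y - traceTensor gS hS y) j x = 0 := by
  have h1 : (fun y => hS y - traceTensor gS hS y) = fun _ => (0 : Bil) := by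
    funext y
    have h2 : traceTensor gS hS y = 0 := by
      unfold traceTensor
      rw [trg_zero]
      simp
    rw [h2]
    simp [hS]
  rw [h1]
  unfold divergence covDeriv
  simp [pd_const]

/-- All the hypotheses of `JointFlowPenrose`, all the alternatives for `h`, hold for the two-ended
Schwarzschild data `P = {0}`, `g = (1 + 1/|x|)^4 δ`, `h = 0`, `m = 2`, `g₁ = g`, `m₁ = m`, and the
conclusion is sharp for these data: `A_P(g) ≥ 64π = 16π m²`. -/
theorem cert : ∃ (P : Finset E3) (g h : TensorField) (m : ℝ), P.Nonempty ∧ 0 < m ∧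
    SeveralEnds P g h ∧ EnergyCondition P g h ∧ (PlaneSignP P g h ∧ FarCondition g h) ∧
    TraceDominatedP P g h ∧
    (∀ x : E3, x ∉ P → ∀ j, divergence g (fun y => h y - traceTensor g h y) j x = 0) ∧
    IsTotalMass g m ∧ MetricOn ((P : Set E3))ᶜ g ∧ AreaLe ((P : Set E3))ᶜ g g ∧ Unsplit P P g ∧
    ENNReal.ofReal (16 * Real.pi * m ^ 2) ≤ minAreaOf P P g :=
  ⟨{0}, gS, hS, 2, Finset.singleton_nonempty 0, two_pos, ends, energy, ⟨plane, far⟩,
    trace_dominated, fun x _ j => div_zero j x, mass, metric, fun _ _ _ => le_rfl, unsplit,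
    by
      have h1 : 16 * Real.pi * 2 ^ 2 = 64 * Real.pi := by ring
      rw [h1]
      exact min_area⟩

end Pool.Agent.VAC2.JFP
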