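import Mathlib
import Pool.Agent.PFlow.StmtsX2
import Pool.Agent.PFU.COMP
import Pool.Agent.PenroseSph.Geom

/-!
# Certificate (not a hand-in) for `MP_ede089_mp.ExteriorPenrose`

The exterior Schwarzschild metric `g = (1 + 1/|x|)^4 δ` of mass `2`, `h = 0`, satisfies all
hypotheses of the theorem, and the inequality is sharp for it: `minAreaX g ≥ 64 π`, so that
`sqrt (A / 16π) ≥ 2 = m`.
-/

set_option autoImplicit false

open MeasureTheory Filter Topology
open scoped ContDiff ENNReal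

namespace Pool.Agent.VAC2.Exterior

open Pool.Agent.PenroseSph Pool.Agent.PFlow Pool.Agent.PFU

noncomputable section

def U0 (r : ℝ) : ℝ := 2 * Real.log (1 + 1 / r)
def U1 (r : ℝ) : ℝ := -2 / (r * (r + 1))
def U2 (r : ℝ) : ℝ := 2 * (2 * r + 1) / (r * (r + 1)) ^ 2

/-- the Schwarzschild metric of mass `2` -/
def G : TensorField := fun x => ((1 + 1 / ‖x‖) ^ 4) • (1 : Bil)

/-- `h = 0` -/
def Z : TensorField := fun _ => 0

theorem hU (r : ℝ) (hr : 0 < r) : HasDerivAt U0 (U1 r) r := by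
  have h1 : HasDerivAt (fun r : ℝ => 1 + 1 / r) (-(r ^ 2)⁻¹) r := by
    have := (hasDerivAt_inv hr.ne').const_add 1
    simpa [one_div] using this
  have h2 : (1 + 1 / r) ≠ 0 := by positivity
  have h3 := (h1.log h2).const_mul 2
  refine h3.congr_deriv ?_
  unfold U1
  field_simp

theorem hU1 (r : ℝ) (hr : 0 < r) : HasDerivAt U1 (U2 r) r := by
  have h1 : HasDerivAt (fun r : ℝ => r * (r + 1)) (1 * (r + 1) + r * 1) r :=
    (hasDerivAt_id r).mul ((hasDerivAt_id r).add_const 1)
  have h2 : r * (r + 1) ≠ 0 := by positivity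
  have h3 := (hasDerivAt_const r (-2 : ℝ)).div h1 h2
  refine HasDerivAt.congr_deriv h3 ?_
  unfold U2
  field_simp
  ring

theorem hG (x : E3) (hx : 0 < ‖x‖) :
    G x = Real.exp (2 * U0 ‖x‖) • (1 : Matrix (Fin 3) (Fin 3) ℝ) := by
  have h1 : Real.exp (2 * U0 ‖x‖) = (1 + 1 / ‖x‖) ^ 4 := by
    have h2 : 0 < 1 + 1 / ‖x‖ := by positivity
    have h3 : 2 * U0 ‖x‖ = Real.log ((1 + 1 / ‖x‖) ^ 4) := by
      rw [Real.log_pow]
      unfold U0
      push_cast
      ring
    rw [h3, Real.exp_log (by positivity)]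
  rw [h1]
  rfl

theorem expU (r : ℝ) (hr : 0 < r) : Real.exp (2 * U0 r) = (1 + 1 / r) ^ 4 := by
  have h2 : 0 < 1 + 1 / r := by positivity
  have h3 : 2 * U0 r = Real.log ((1 + 1 / r) ^ 4) := by
    rw [Real.log_pow]
    unfold U0
    push_cast
    ring
  rw [h3, Real.exp_log (by positivity)]

theorem G_apply (x : E3) (i j : Fin 3) : G x i j = (1 + 1 / ‖x‖) ^ 4 * dl i j := by
  simp [G, Matrix.smul_apply, Matrix.one_apply, dl]

theorem dl_one (i j : Fin 3) : (1 : Bil) i j = dl i j := by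
  simp [Matrix.one_apply, dl]

theorem dl_abs (i j : Fin 3) : |dl i j| ≤ 1 := by
  unfold dl
  split_ifs <;> simp

theorem nu_abs {x : E3} (hx : x ≠ 0) (i : Fin 3) : |x i / ‖x‖| ≤ 1 := by
  have hn := norm_pos_iff.2 hx
  rw [abs_div, abs_of_pos hn, div_le_one hn]
  have := PiLp.norm_apply_le x i
  simpa using this

/-! ### the data -/

theorem smoothG : MetricOn {x : E3 | 1 - 1 / 2 < ‖x‖} G := by
  constructor
  · intro i j
    have h1 : (fun x : E3 => G x i j) = fun x => (1 + 1 / ‖x‖) ^ 4 * dl i j := by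
      funext x
      exact G_apply x i j
    rw [h1]
    intro x hx
    have hx0 : x ≠ 0 := by
      have hx1 : 1 - 1 / 2 < ‖x‖ := hx
      exact norm_pos_iff.1 (by linarith)
    have h2 : ContDiffAt ℝ ∞ (fun x : E3 => ‖x‖) x := contDiffAt_norm ℝ hx0
    have h3 : ContDiffAt ℝ ∞ (fun x : E3 => (1 + 1 / ‖x‖) ^ 4 * dl i j) x :=
      ((contDiffAt_const.add (contDiffAt_const.div h2 (norm_ne_zero_iff.2 hx0))).pow 4).mul
        contDiffAt_const
    exact h3.contDiffWithinAt
  · intro x hx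
    have hx1 : 1 - 1 / 2 < ‖x‖ := hx
    have hc : 0 < (1 + 1 / ‖x‖) ^ 4 := by
      have : 0 < ‖x‖ := by linarith
      positivity
    exact Matrix.PosDef.one.smul hc

theorem smoothZ (δ : ℝ) : TensorOn {x : E3 | 1 - δ < ‖x‖} Z :=
  ⟨fun _ _ => contDiffOn_const, fun _ _ => Matrix.isSymm_zero⟩

theorem pdZ (k i j : Fin 3) (x : E3) : pd k (fun y => Z y i j) x = 0 := pd_const 0

def F0 (r : ℝ) : ℝ := (1 + 1 / r) ^ 4
def F1 (r : ℝ) : ℝ := -4 * (1 + 1 / r) ^ 3 / r ^ 2
def F2 (r : ℝ) : ℝ := 8 * (1 + 1 / r) ^ 3 / r ^ 3 + 12 * (1 + 1 / r) ^ 2 / r ^ 4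

theorem hF0 (r : ℝ) (hr : 0 < r) : HasDerivAt F0 (F1 r) r := by
  have h1 : HasDerivAt (fun r : ℝ => 1 + 1 / r) (-(r ^ 2)⁻¹) r := by
    have := (hasDerivAt_inv hr.ne').const_add 1
    simpa [one_div] using this
  have h3 := h1.pow 4
  refine HasDerivAt.congr_deriv h3 ?_
  unfold F1
  push_cast
  field_simp

theorem hF1 (r : ℝ) (hr : 0 < r) : HasDerivAt F1 (F2 r) r := by
  have h1 : HasDerivAt (fun r : ℝ => 1 + 1 / r) (-(r ^ 2)⁻¹) r := by
    have := (hasDerivAt_inv hr.ne').const_add 1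
    simpa [one_div] using this
  have h2 := ((h1.pow 3).const_mul (-4))
  have h3 := h2.div (hasDerivAt_pow 2 r) (by positivity)
  refine HasDerivAt.congr_deriv h3 ?_
  unfold F2
  have e : ∀ t : ℝ, (-4 * (((3 : ℕ) : ℝ) * t ^ (3 - 1) * -(r ^ 2)⁻¹) * r ^ 2
      - -4 * t ^ 3 * (((2 : ℕ) : ℝ) * r ^ (2 - 1))) / (r ^ 2) ^ 2 =
      8 * t ^ 3 / r ^ 3 + 12 * t ^ 2 / r ^ 4 := by
    intro t
    push_cast
    field_simp
    ring
  exact e (1 + 1 / r)

theorem pdG (k i j : Fin 3) {x : E3} (hx : x ≠ 0) :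
    pd k (fun y => G y i j) x = F1 ‖x‖ * (x k / ‖x‖) * dl i j := by
  have hn := norm_pos_iff.2 hx
  have h1 : (fun y => G y i j) = fun y => F0 ‖y‖ * dl i j := by
    funext y
    exact G_apply y i j
  rw [h1, pd_mul_const _ (differentiableAt_radial hx (hF0 _ hn)), pd_radial hx (hF0 _ hn)]

theorem pdpdG (k l i j : Fin 3) {x : E3} (hx : x ≠ 0) :
    pd k (pd l (fun y => G y i j)) x = (F2 ‖x‖ * (x k / ‖x‖) * (x l / ‖x‖)
      + F1 ‖x‖ * ((dl k l - (x k / ‖x‖) * (x l / ‖x‖)) / ‖x‖)) * dl i j := by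
  have hn := norm_pos_iff.2 hx
  have h1 : pd l (fun y => G y i j) =ᶠ[𝓝 x] fun y => F1 ‖y‖ * (y l / ‖y‖) * dl i j := by
    filter_upwards [isOpen_ne.mem_nhds hx] with y hy
    exact pdG l i j hy
  have d1 := differentiableAt_radial hx (hF1 _ hn)
  have d2 := differentiableAt_nu hx l
  have d3 : DifferentiableAt ℝ (fun y : E3 => F1 ‖y‖ * (y l / ‖y‖)) x := d1.mul d2
  rw [pd_congr h1, pd_mul_const _ d3, pd_mul d1 d2, pd_radial hx (hF1 _ hn), pd_nu hx]
  ring

theorem ext : Exterior G Z := by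
  refine ⟨⟨1 / 2, by norm_num, smoothG, smoothZ _, ?_⟩, 200, 1, ?_⟩
  · intro x _ _ v hv
    simp only [G_apply]
    have h1 : ∀ i, ∑ j, (1 + 1 / ‖x‖) ^ 4 * dl i j * x i * v j =
        (1 + 1 / ‖x‖) ^ 4 * (x i * v i) := by
      intro i
      have h2 : ∀ j, (1 + 1 / ‖x‖) ^ 4 * dl i j * x i * v j =
          dl i j * ((1 + 1 / ‖x‖) ^ 4 * x i * v j) := fun j => by ring
      rw [Finset.sum_congr rfl fun j _ => h2 j, sum_dl]
      ring
    rw [Finset.sum_congr rfl fun i _ => h1 i, ← Finset.mul_sum, hv, mul_zero]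
  · intro x hx i j
    have hn : 0 < ‖x‖ := by linarith
    have hx0 : x ≠ 0 := norm_pos_iff.1 hn
    set r := ‖x‖ with hr
    have ht0 : 0 < 1 / r := by positivity
    have ht1 : 1 / r ≤ 1 := by
      rw [div_le_one hn]
      exact hx
    have hF1b : |F1 r| ≤ 32 / r ^ 2 := by
      unfold F1
      rw [abs_div, abs_mul, abs_of_pos (by positivity : (0 : ℝ) < (1 + 1 / r) ^ 3),
        abs_of_pos (by positivity : (0 : ℝ) < r ^ 2)]
      refine div_le_div_of_nonneg_right ?_ (by positivity)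
      have : (1 + 1 / r) ^ 3 ≤ 2 ^ 3 := pow_le_pow_left₀ (by positivity) (by linarith) 3
      norm_num at this ⊢
      linarith
    have hF2b : |F2 r| ≤ 112 / r ^ 3 := by
      unfold F2
      rw [abs_of_pos (by positivity)]
      have h3 : (1 + 1 / r) ^ 3 ≤ 2 ^ 3 := pow_le_pow_left₀ (by positivity) (by linarith) 3
      have h2 : (1 + 1 / r) ^ 2 ≤ 2 ^ 2 := pow_le_pow_left₀ (by positivity) (by linarith) 2
      have h4 : 8 * (1 + 1 / r) ^ 3 / r ^ 3 ≤ 64 / r ^ 3 :=
        div_le_div_of_nonneg_right (by linarith) (by positivity)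
      have h5 : 12 * (1 + 1 / r) ^ 2 / r ^ 4 ≤ 48 / r ^ 3 := by
        have h6 : 12 * (1 + 1 / r) ^ 2 / r ^ 4 ≤ 48 / r ^ 4 :=
          div_le_div_of_nonneg_right (by linarith) (by positivity)
        refine h6.trans ?_
        have h7 : r ^ 3 ≤ r ^ 4 := pow_le_pow_right₀ hx (by norm_num)
        exact div_le_div_of_nonneg_left (by norm_num) (by positivity) h7
      have h8 : 64 / r ^ 3 + 48 / r ^ 3 = 112 / r ^ 3 := by ring
      linarith
    refine ⟨?_, ?_, ?_, ?_, ?_⟩
    · rw [G_apply, dl_one]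
      have h1 : (1 + 1 / r) ^ 4 * dl i j - dl i j = ((1 + 1 / r) ^ 4 - 1) * dl i j := by ring
      rw [← hr, h1, abs_mul]
      have h2 : |(1 + 1 / r) ^ 4 - 1| ≤ 15 * (1 / r) := by
        have h3 : (1 + 1 / r) ^ 4 - 1 =
            (1 / r) * (4 + 6 * (1 / r) + 4 * (1 / r) ^ 2 + (1 / r) ^ 3) := by ring
        have h4 : (1 / r) ^ 2 ≤ 1 := pow_le_one₀ ht0.le ht1
        have h5 : (1 / r) ^ 3 ≤ 1 := pow_le_one₀ ht0.le ht1
        rw [h3, abs_of_pos (by positivity), mul_comm 15]
        exact mul_le_mul_of_nonneg_left (by linarith) ht0.le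
      calc |(1 + 1 / r) ^ 4 - 1| * |dl i j| ≤ 15 * (1 / r) * 1 :=
            mul_le_mul h2 (dl_abs i j) (abs_nonneg _) (by positivity)
        _ ≤ 200 / r := by
            rw [mul_one, mul_one_div]
            exact div_le_div_of_nonneg_right (by norm_num) hn.le
    · intro k
      rw [pdG k i j hx0, abs_mul, abs_mul]
      calc |F1 ‖x‖| * |x k / ‖x‖| * |dl i j| ≤ 32 / r ^ 2 * 1 * 1 :=
            mul_le_mul (mul_le_mul hF1b (nu_abs hx0 k) (abs_nonneg _) (by positivity))
              (dl_abs i j) (abs_nonneg _) (by positivity)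
        _ ≤ 200 / r ^ 2 := by
            rw [mul_one, mul_one]
            exact div_le_div_of_nonneg_right (by norm_num) (by positivity)
    · intro k l
      rw [pdpdG k l i j hx0, abs_mul]
      have h1 : |F2 ‖x‖ * (x k / ‖x‖) * (x l / ‖x‖)| ≤ 112 / r ^ 3 := by
        rw [abs_mul, abs_mul]
        calc |F2 ‖x‖| * |x k / ‖x‖| * |x l / ‖x‖| ≤ 112 / r ^ 3 * 1 * 1 :=
              mul_le_mul (mul_le_mul hF2b (nu_abs hx0 k) (abs_nonneg _) (by positivity))
                (nu_abs hx0 l) (abs_nonneg _) (by positivity)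
          _ = 112 / r ^ 3 := by ring
      have h2 : |F1 ‖x‖ * ((dl k l - (x k / ‖x‖) * (x l / ‖x‖)) / ‖x‖)| ≤ 64 / r ^ 3 := by
        rw [abs_mul, abs_div, abs_of_pos hn]
        have h3 : |dl k l - (x k / ‖x‖) * (x l / ‖x‖)| ≤ 2 := by
          have h4 : |(x k / ‖x‖) * (x l / ‖x‖)| ≤ 1 := by
            rw [abs_mul]
            exact mul_le_one₀ (nu_abs hx0 k) (abs_nonneg _) (nu_abs hx0 l)
          have h5 := abs_sub (dl k l) ((x k / ‖x‖) * (x l / ‖x‖))
          have h6 := dl_abs k l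
          linarith
        calc |F1 ‖x‖| * (|dl k l - (x k / ‖x‖) * (x l / ‖x‖)| / ‖x‖) ≤ 32 / r ^ 2 * (2 / r) :=
              mul_le_mul hF1b (div_le_div_of_nonneg_right h3 hn.le) (by positivity)
                (by positivity)
          _ = 64 / r ^ 3 := by
              field_simp
              norm_num
      have h3 := abs_add_le (F2 ‖x‖ * (x k / ‖x‖) * (x l / ‖x‖))
        (F1 ‖x‖ * ((dl k l - (x k / ‖x‖) * (x l / ‖x‖)) / ‖x‖))
      have h4 : |F2 ‖x‖ * (x k / ‖x‖) * (x l / ‖x‖)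
          + F1 ‖x‖ * ((dl k l - (x k / ‖x‖) * (x l / ‖x‖)) / ‖x‖)| ≤ 200 / r ^ 3 := by
        have h5 : 112 / r ^ 3 + 64 / r ^ 3 = 176 / r ^ 3 := by ring
        have h6 : 176 / r ^ 3 ≤ 200 / r ^ 3 :=
          div_le_div_of_nonneg_right (by norm_num) (by positivity)
        linarith
      calc _ ≤ 200 / r ^ 3 * 1 := mul_le_mul h4 (dl_abs i j) (abs_nonneg _) (by positivity)
        _ = 200 / r ^ 3 := mul_one _
    · have h1 : Z x i j = 0 := rfl
      rw [h1, abs_zero]
      positivity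
    · intro k
      rw [pdZ, abs_zero]
      positivity

theorem dec : DominantEnergy 1 G Z := by
  intro x hx
  have hn : 0 < ‖x‖ := by linarith
  have hx0 : x ≠ 0 := norm_pos_iff.1 hn
  have hs : scalarCurvature G x = 0 := by
    rw [scalarCurvature_eq le_rfl hU hU1 hG hn]
    have h1 : 4 * U2 ‖x‖ + 8 * U1 ‖x‖ / ‖x‖ + 2 * U1 ‖x‖ ^ 2 = 0 := by
      unfold U1 U2
      field_simp
      ring
    rw [h1, mul_zero]
  have hm : ∀ j, momentumDensity G Z j x = 0 := by
    intro j
    rw [momentumDensity_eq (h := Z) le_rfl hU hG hn (fun i j => differentiableAt_const _)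
      Matrix.isSymm_zero j]
    simp [Z, pd_const]
  have ht : traceWith G Z x = 0 := by simp [traceWith, Z]
  have hq : normSqWith G Z x = 0 := by simp [normSqWith, Z]
  unfold energyDensity
  rw [hs, ht, hq]
  simp [hm]

theorem trg0 (x : E3) : trg G x (Z x) = 0 := by simp [trg, Z]

theorem ev0 (x : E3) (v w : Cov) : ev (Z x) v w = 0 := by simp [ev, Z]

theorem plane : PlaneSignX G Z := by
  intro x _
  left
  intro v _
  rw [trg0, ev0]

theorem far : FarCondition G Z := by
  left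
  refine ⟨1, 1, one_pos, fun x _ => ⟨fun _ => ?_, fun _ => ?_⟩⟩
  · rw [trg0, ev0]
    simp
  · rw [trg0, ev0]
    simp

theorem grad_rad {x : E3} (hx : x ≠ 0) (i : Fin 3) : grad rad x i = x i / ‖x‖ := by
  have h1 := pd_radial (i := i) (F := fun r => r) hx (hasDerivAt_id' ‖x‖)
  have h2 : grad rad x i = pd i (fun y => ‖y‖) x := rfl
  rw [h2, h1, one_mul]

theorem hess_rad {x : E3} (hx : x ≠ 0) (i j : Fin 3) :
    hess2 rad x i j = (dl i j - (x i / ‖x‖) * (x j / ‖x‖)) / ‖x‖ := by
  have h1 : pd j rad =ᶠ[𝓝 x] fun y => y j / ‖y‖ := by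
    filter_upwards [isOpen_ne.mem_nhds hx] with y hy
    exact grad_rad hy j
  have h2 : hess2 rad x i j = pd i (pd j rad) x := rfl
  rw [h2, pd_congr h1, pd_nu hx]

theorem mean {x : E3} (hx : ‖x‖ = 1) : sphereMean G x = 0 := by
  have hn : 0 < ‖x‖ := by rw [hx]; exact one_pos
  have hx0 : x ≠ 0 := norm_pos_iff.1 hn
  have hs := sum_nu_sq hx0
  have hu1 : U1 ‖x‖ = -1 := by
    rw [hx]
    unfold U1
    norm_num
  have hg1 : ∀ i, gr U1 i x = -(x i / ‖x‖) := fun i => by
    unfold gr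
    rw [hu1]
    ring
  set n : Fin 3 → ℝ := fun i => x i / ‖x‖ with hnn
  have hc : ∀ i j, cHess G x (grad rad x) (hess2 rad x) i j = n i * n j := by
    intro i j
    have h1 : cHess G x (grad rad x) (hess2 rad x) i j =
        hess2 rad x i j - ∑ k, christoffel G k i j x * grad rad x k := rfl
    rw [h1, hess_rad hx0]
    have h2 : ∀ k, christoffel G k i j x * grad rad x k =
        (dl k i * gr U1 j x + dl k j * gr U1 i x - dl i j * gr U1 k x) * n k := fun k => by
      rw [christoffel_eq le_rfl hU hG hn, grad_rad hx0]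
    rw [Finset.sum_congr rfl fun k _ => h2 k]
    simp only [hg1]
    have h3 : ∑ k, (dl k i * -(x j / ‖x‖) + dl k j * -(x i / ‖x‖) - dl i j * -(x k / ‖x‖)) * n k =
        ∑ k, (dl k i * (-(n j * n k)) + dl k j * (-(n i * n k)) + dl i j * (n k * n k)) :=
      Finset.sum_congr rfl fun k _ => by
        simp only [hnn]
        ring
    rw [h3, Finset.sum_add_distrib, Finset.sum_add_distrib, sum_dl', sum_dl', ← Finset.mul_sum]
    have h4 : ∑ k, n k * n k = 1 := hs
    rw [h4, hx]
    have h5 : x i / 1 * (x j / 1) = n i * n j := by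
      simp only [hnn]
      rw [hx]
    rw [h5]
    ring
  have hr : ∀ i, raise G x (grad rad x) i = Real.exp (-(2 * U0 ‖x‖)) * n i := by
    intro i
    have h1 : raise G x (grad rad x) i = ∑ j, (G x)⁻¹ i j * grad rad x j := rfl
    rw [h1]
    have h2 : ∀ j, (G x)⁻¹ i j * grad rad x j =
        dl i j * (Real.exp (-(2 * U0 ‖x‖)) * n j) := fun j => by
      rw [metric_inv_apply hG hn, grad_rad hx0]
      ring
    rw [Finset.sum_congr rfl fun j _ => h2 j, sum_dl]
  set E := Real.exp (-(2 * U0 ‖x‖)) with hE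
  have hEpos : 0 < E := Real.exp_pos _
  have hl : len G x (grad rad x) ^ 2 = E := by
    unfold len
    have h1 : ev (G x)⁻¹ (grad rad x) (grad rad x) = E := by
      unfold ev
      have h2 : ∀ i, ∑ j, (G x)⁻¹ i j * grad rad x i * grad rad x j = E * (n i * n i) := by
        intro i
        have h3 : ∀ j, (G x)⁻¹ i j * grad rad x i * grad rad x j =
            dl i j * (E * n i * n j) := fun j => by
          rw [metric_inv_apply hG hn, grad_rad hx0, grad_rad hx0]
          ring
        rw [Finset.sum_congr rfl fun j _ => h3 j, sum_dl]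
        ring
      rw [Finset.sum_congr rfl fun i _ => h2 i, ← Finset.mul_sum]
      have h4 : ∑ k, n k * n k = 1 := hs
      rw [h4, mul_one]
    rw [h1, Real.sq_sqrt hEpos.le]
  have hl0 : len G x (grad rad x) ≠ 0 := fun h0 => by
    rw [h0] at hl
    simp at hl
    exact hEpos.ne hl
  have hb : btan G x (grad rad x) (cHess G x (grad rad x) (hess2 rad x)) = 0 := by
    unfold btan trg bnn
    have h1 : ∑ i, ∑ j, (G x)⁻¹ i j * cHess G x (grad rad x) (hess2 rad x) i j = E := by
      have h2 : ∀ i, ∑ j, (G x)⁻¹ i j * cHess G x (grad rad x) (hess2 rad x) i j =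
          E * (n i * n i) := by
        intro i
        have h3 : ∀ j, (G x)⁻¹ i j * cHess G x (grad rad x) (hess2 rad x) i j =
            dl i j * (E * (n i * n j)) := fun j => by
          rw [metric_inv_apply hG hn, hc]
          ring
        rw [Finset.sum_congr rfl fun j _ => h3 j, sum_dl]
      rw [Finset.sum_congr rfl fun i _ => h2 i, ← Finset.mul_sum]
      have h4 : ∑ k, n k * n k = 1 := hs
      rw [h4, mul_one]
    rw [h1]
    have h5 : ev (cHess G x (grad rad x) (hess2 rad x)) (nrm G x (grad rad x))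
        (nrm G x (grad rad x)) = E := by
      unfold ev nrm
      have h6 : ∀ i j, cHess G x (grad rad x) (hess2 rad x) i j *
          (raise G x (grad rad x) i / len G x (grad rad x)) *
          (raise G x (grad rad x) j / len G x (grad rad x)) =
          E * ((n i * n i) * (n j * n j)) := by
        intro i j
        rw [hc, hr, hr]
        have h7 : n i * n j * (E * n i / len G x (grad rad x)) *
            (E * n j / len G x (grad rad x)) =
            E ^ 2 / len G x (grad rad x) ^ 2 * ((n i * n i) * (n j * n j)) := by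
          field_simp
        rw [h7, hl]
        congr 1
        field_simp
      rw [Finset.sum_congr rfl fun i _ => Finset.sum_congr rfl fun j _ => h6 i j]
      have h4 : ∑ k, n k * n k = 1 := hs
      simp only [← Finset.mul_sum, h4, mul_one]
    rw [h5, sub_self]
  unfold sphereMean
  rw [hb, zero_div]

/-! ### the total mass -/

/-- the surface measure of the unit sphere -/
theorem sphere_real : ((volume : Measure E3).toSphere).real Set.univ = 4 * Real.pi := by
  have h1 := Measure.toSphere_real_apply_univ (μ := (volume : Measure E3))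
  have h2 : (volume : Measure E3).real (Metric.ball 0 1) = 4 * Real.pi / 3 := by
    have h3 := EuclideanSpace.volume_ball_fin_three (0 : E3) 1
    rw [Measure.real, h3]
    simp
    rw [ENNReal.toReal_ofReal (by positivity)]
    ring
  rw [h1, h2]
  simp
  ring

theorem mass_integral (r : ℝ) (hr : 0 < r) : massIntegral G r = 2 * (1 + 1 / r) ^ 3 := by
  have h1 : ∀ o : Metric.sphere (0 : E3) 1,
      (∑ i, ∑ j, (pd i (fun y => G y i j) (r • (o : E3)) - pd j (fun y => G y i i) (r • (o : E3)))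
      * (o : E3) j) * r ^ 2 = 8 * (1 + 1 / r) ^ 3 := by
    intro o
    have ho : ‖(o : E3)‖ = 1 := by
      have := o.2
      rwa [mem_sphere_zero_iff_norm] at this
    have hn : ‖r • (o : E3)‖ = r := by
      rw [norm_smul, ho, mul_one, Real.norm_of_nonneg hr.le]
    have hx : r • (o : E3) ≠ 0 := norm_pos_iff.1 (by rw [hn]; exact hr)
    have h2 : ∀ i j k, pd k (fun y => G y i j) (r • (o : E3)) = F1 r * (o : E3) k * dl i j := by
      intro i j k
      rw [pdG k i j hx, hn]
      congr 2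
      rw [PiLp.smul_apply, smul_eq_mul]
      field_simp
    simp only [h2, Fin.sum_univ_three]
    simp only [dl, Fin.isValue, ↓reduceIte, Fin.reduceEq, zero_ne_one, one_ne_zero]
    have h3 := norm_sq_eq (o : E3)
    rw [ho] at h3
    unfold F1
    have h4 : (o : E3) 0 ^ 2 = 1 - (o : E3) 1 ^ 2 - (o : E3) 2 ^ 2 := by linarith
    field_simp
    ring_nf
    rw [h4]
    ring
  unfold massIntegral
  simp only [h1]
  rw [integral_const, sphere_real, smul_eq_mul]
  field_simp
  ring

theorem mass : IsTotalMass G 2 := by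
  unfold IsTotalMass
  have h1 : Tendsto (fun r : ℝ => 2 * (1 + 1 / r) ^ 3) atTop (𝓝 (2 * (1 + 0) ^ 3)) := by
    have h2 : Tendsto (fun r : ℝ => 1 / r) atTop (𝓝 0) := by
      simpa [one_div] using tendsto_inv_atTop_zero (𝕜 := ℝ)
    exact ((h2.const_add 1).pow 3).const_mul 2
  norm_num at h1
  refine h1.congr' ?_
  filter_upwards [eventually_gt_atTop 0] with r hr
  rw [mass_integral r hr]
  simp [one_div]

/-! ### the area of the boundary -/

/-- inner cut-off: `0` for `r ≤ 1 + e`, `1` for `r ≥ 1 + 2 e` -/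
def sA (e r : ℝ) : ℝ := Real.smoothTransition ((r - 1 - e) / e)

/-- outer cut-off: `1` for `r ≤ b`, `0` for `r ≥ b + 1` -/
def sB (b r : ℝ) : ℝ := Real.smoothTransition (b + 1 - r)

theorem sA_zero {e r : ℝ} (he : 0 < e) (hr : r ≤ 1 + e) : sA e r = 0 :=
  Real.smoothTransition.zero_of_nonpos (div_nonpos_of_nonpos_of_nonneg (by linarith) he.le)

theorem sA_one {e r : ℝ} (he : 0 < e) (hr : 1 + 2 * e ≤ r) : sA e r = 1 :=
  Real.smoothTransition.one_of_one_le (by
    rw [le_div_iff₀ he]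
    linarith)

theorem sA_cd (e : ℝ) : ContDiff ℝ ∞ (sA e) :=
  Real.smoothTransition.contDiff.comp (((contDiff_id.sub contDiff_const).sub
    contDiff_const).div_const e)

theorem sB_cd (b : ℝ) : ContDiff ℝ ∞ (sB b) :=
  Real.smoothTransition.contDiff.comp (contDiff_const.sub contDiff_id)

theorem sA_diff (e r : ℝ) : HasDerivAt (sA e) (deriv (sA e) r) r :=
  (((sA_cd e).differentiable (by simp)) r).hasDerivAt

/-- the calibration -/
def XF (e b : ℝ) (x : E3) : Cov := fun i =>
  16 * (sA e ‖x‖ * sB b ‖x‖) * x i / (‖x‖ ^ 3 * (1 + 1 / ‖x‖) ^ 6)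

theorem XF_zero {e b : ℝ} (he : 0 < e) {x : E3} (hx : ‖x‖ ≤ 1 + e) : XF e b x = 0 := by
  funext i
  simp [XF, sA_zero he hx]

theorem XF_test {e b : ℝ} (he : 0 < e) : TestFieldX G (XF e b) where
  smooth i := by
    rw [contDiff_iff_contDiffAt]
    intro x
    rcases lt_or_ge ‖x‖ (1 + e) with h | h
    · have h1 : (fun y => XF e b y i) =ᶠ[𝓝 x] fun _ => 0 := by
        filter_upwards [(isOpen_lt continuous_norm continuous_const).mem_nhds h] with y hy
        have h2 : ‖y‖ < 1 + e := hy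
        rw [XF_zero he h2.le]
        rfl
      exact contDiffAt_const.congr_of_eventuallyEq h1
    · have hn : 0 < ‖x‖ := by linarith
      have hx0 : x ≠ 0 := norm_pos_iff.1 hn
      have h2 : ContDiffAt ℝ ∞ (fun x : E3 => ‖x‖) x := contDiffAt_norm ℝ hx0
      have h3 : ContDiffAt ℝ ∞ (fun x : E3 => x i) x := by fun_prop
      have h4 : ContDiffAt ℝ ∞ (fun x : E3 => sA e ‖x‖) x :=
        (sA_cd e).contDiffAt.comp x h2
      have h5 : ContDiffAt ℝ ∞ (fun x : E3 => sB b ‖x‖) x :=
        (sB_cd b).contDiffAt.comp x h2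
      have h6 : ContDiffAt ℝ ∞ (fun x : E3 => ‖x‖ ^ 3 * (1 + 1 / ‖x‖) ^ 6) x :=
        (h2.pow 3).mul ((contDiffAt_const.add (contDiffAt_const.div h2 hn.ne')).pow 6)
      exact ((contDiffAt_const.mul (h4.mul h5)).mul h3).div h6 (by positivity)
  compact := by
    refine HasCompactSupport.intro (isCompact_closedBall (0 : E3) (b + 1)) fun x hx => ?_
    rw [Metric.mem_closedBall, dist_zero_right, not_le] at hx
    funext i
    have : sB b ‖x‖ = 0 := Real.smoothTransition.zero_of_nonpos (by linarith)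
    simp [XF, this]
  outside := by
    have h1 : tsupport (XF e b) ⊆ {x : E3 | 1 + e ≤ ‖x‖} := by
      refine closure_minimal (fun x hx => ?_) (isClosed_le continuous_const continuous_norm)
      by_contra hcon
      have h2 : ‖x‖ ≤ 1 + e := (not_le.1 hcon).le
      exact hx (XF_zero he h2)
    intro x hx
    have h2 : 1 + e ≤ ‖x‖ := h1 hx
    have h3 : 1 < ‖x‖ := by linarith
    exact h3
  short x hx := by
    have hn : 0 < ‖x‖ := by linarith
    have hq := norm_sq_eq x
    set r := ‖x‖ with hr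
    set t := 1 + 1 / r with ht
    have ht0 : 0 < t := by positivity
    set s := sA e r * sB b r with hs
    have hs0 : 0 ≤ s := mul_nonneg (Real.smoothTransition.nonneg _) (Real.smoothTransition.nonneg _)
    have hs1 : s ≤ 1 := mul_le_one₀ (Real.smoothTransition.le_one _)
      (Real.smoothTransition.nonneg _) (Real.smoothTransition.le_one _)
    have h1 : ev (G x) (XF e b x) (XF e b x) = (16 * s / (r ^ 2 * t ^ 4)) ^ 2 := by
      unfold ev
      simp only [G_apply, Fin.sum_univ_three, XF]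
      simp only [dl, Fin.isValue, ↓reduceIte, Fin.reduceEq, zero_ne_one, one_ne_zero]
      rw [← hr, ← hs, ← ht]
      have h2 : x 0 ^ 2 = r ^ 2 - x 1 ^ 2 - x 2 ^ 2 := by linarith
      field_simp
      ring_nf
      rw [h2]
      ring
    rw [h1]
    have h2 : 16 ≤ r ^ 2 * t ^ 4 := by
      have h3 : r * t = r + 1 := by
        rw [ht]
        field_simp
      have h4 : 4 ≤ r * t ^ 2 := by
        have h5 : r * (r * t ^ 2) = (r + 1) ^ 2 := by
          rw [← h3]
          ring
        have h6 : 0 ≤ (r - 1) ^ 2 := sq_nonneg _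
        nlinarith
      have h7 : r ^ 2 * t ^ 4 = (r * t ^ 2) ^ 2 := by ring
      rw [h7]
      nlinarith
    have h3 : 16 * s / (r ^ 2 * t ^ 4) ≤ 1 := by
      rw [div_le_one (by linarith)]
      linarith
    have h4 : 0 ≤ 16 * s / (r ^ 2 * t ^ 4) := by positivity
    exact pow_le_one₀ h4 h3

theorem volDen_eq (x : E3) : volDen G x = (1 + 1 / ‖x‖) ^ 6 := by
  unfold volDen G
  rw [Matrix.det_smul, Matrix.det_one, mul_one, Fintype.card_fin]
  have h1 : ((1 + 1 / ‖x‖) ^ 4) ^ 3 = ((1 + 1 / ‖x‖) ^ 6) ^ 2 := by ring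
  rw [h1, Real.sqrt_sq (by positivity)]

theorem div_eq {e b : ℝ} (he : 0 < e) {x : E3} (hx : ‖x‖ < b) :
    ∑ i, pd i (fun y => volDen G y * XF e b y i) x = 16 * deriv (sA e) ‖x‖ / ‖x‖ ^ 2 := by
  rcases lt_or_ge ‖x‖ (1 + e) with h | h
  · have h1 : ∀ i, (fun y => volDen G y * XF e b y i) =ᶠ[𝓝 x] fun _ => 0 := by
      intro i
      filter_upwards [(isOpen_lt continuous_norm continuous_const).mem_nhds h] with y hy
      have h2 : ‖y‖ < 1 + e := hy
      rw [XF_zero he h2.le]
      simp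
    have h2 : ∀ i, pd i (fun y => volDen G y * XF e b y i) x = 0 := fun i => by
      rw [pd_congr (h1 i), pd_const]
    have h3 : deriv (sA e) ‖x‖ = 0 := by
      have h4 : sA e =ᶠ[𝓝 ‖x‖] fun _ => 0 := by
        filter_upwards [(isOpen_Iio).mem_nhds h] with y hy
        exact sA_zero he (le_of_lt hy)
      rw [h4.deriv_eq]
      simp
    simp [h2, h3]
  · have hn : 0 < ‖x‖ := by linarith
    have hx0 : x ≠ 0 := norm_pos_iff.1 hn
    set a1 := deriv (sA e) ‖x‖ with ha1
    have hH : HasDerivAt (fun r => 16 * sA e r / r ^ 2)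
        (16 * a1 / ‖x‖ ^ 2 - 32 * sA e ‖x‖ / ‖x‖ ^ 3) ‖x‖ := by
      have h1 := ((sA_diff e ‖x‖).const_mul 16).div (hasDerivAt_pow 2 ‖x‖) (by positivity)
      refine HasDerivAt.congr_deriv h1 ?_
      rw [← ha1]
      push_cast
      field_simp
      ring
    have h1 : ∀ i, (fun y => volDen G y * XF e b y i) =ᶠ[𝓝 x]
        fun y => 16 * sA e ‖y‖ / ‖y‖ ^ 2 * (y i / ‖y‖) := by
      intro i
      filter_upwards [(isOpen_lt continuous_norm continuous_const).mem_nhds hx,
        isOpen_ne.mem_nhds hx0] with y hy hy0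
      have h2 : ‖y‖ < b := hy
      have h3 : sB b ‖y‖ = 1 := Real.smoothTransition.one_of_one_le (by linarith)
      have h4 : 0 < ‖y‖ := norm_pos_iff.2 hy0
      rw [volDen_eq]
      unfold XF
      rw [h3, mul_one]
      have h5 : 0 < 1 + 1 / ‖y‖ := by positivity
      field_simp
    have h2 : ∀ i, pd i (fun y => volDen G y * XF e b y i) x =
        16 * sA e ‖x‖ / ‖x‖ ^ 2 * ((dl i i - (x i / ‖x‖) * (x i / ‖x‖)) / ‖x‖) +
        (x i / ‖x‖) * ((16 * a1 / ‖x‖ ^ 2 - 32 * sA e ‖x‖ / ‖x‖ ^ 3) * (x i / ‖x‖)) := by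
      intro i
      rw [pd_congr (h1 i), pd_mul (differentiableAt_radial hx0 hH) (differentiableAt_nu hx0 i),
        pd_radial hx0 hH, pd_nu hx0]
    have hq := norm_sq_eq x
    simp only [h2, Fin.sum_univ_three]
    simp only [dl, Fin.isValue, ↓reduceIte]
    have h3 : x 0 ^ 2 = ‖x‖ ^ 2 - x 1 ^ 2 - x 2 ^ 2 := by linarith
    field_simp
    ring_nf
    rw [h3]
    ring

theorem radial_int {e : ℝ} (he : 0 < e) :
    ∫ x : E3, 16 * deriv (sA e) ‖x‖ / ‖x‖ ^ 2 = 64 * Real.pi := by
  have h1 := integral_fun_norm_addHaar (volume : Measure E3)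
    (fun r : ℝ => 16 * deriv (sA e) r / r ^ 2)
  rw [h1]
  have h2 : (volume : Measure E3).real (Metric.ball 0 1) = 4 * Real.pi / 3 := by
    have h3 := EuclideanSpace.volume_ball_fin_three (0 : E3) 1
    rw [Measure.real, h3]
    simp
    rw [ENNReal.toReal_ofReal (by positivity)]
    ring
  have h3 : Module.finrank ℝ E3 = 3 := by simp
  rw [h2, h3]
  have h4 : ∫ y in Set.Ioi (0 : ℝ), y ^ (3 - 1) • (16 * deriv (sA e) y / y ^ 2) =
      ∫ y in Set.Ioi (0 : ℝ), 16 * deriv (sA e) y := by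
    refine setIntegral_congr_fun measurableSet_Ioi fun y hy => ?_
    have hy0 : (0 : ℝ) < y := hy
    simp only [smul_eq_mul]
    norm_num
    field_simp
  rw [h4, integral_const_mul]
  have hmono : Monotone (sA e) := by
    intro a b hab
    refine Real.smoothTransition.monotone ?_
    exact div_le_div_of_nonneg_right (by linarith) he.le
  have hlim : Tendsto (sA e) atTop (𝓝 1) := by
    refine tendsto_const_nhds.congr' ?_
    filter_upwards [eventually_ge_atTop (1 + 2 * e)] with r hr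
    exact (sA_one he hr).symm
  have hint : IntegrableOn (deriv (sA e)) (Set.Ioi 0) :=
    integrableOn_Ioi_deriv_of_nonneg' (fun x _ => sA_diff e x)
      (fun x _ => hmono.deriv_nonneg) hlim
  rw [integral_Ioi_of_hasDerivAt_of_tendsto' (fun x _ => sA_diff e x) hint hlim,
    sA_zero he (by linarith)]
  simp
  ring

/-- **the area is at least `64 π = 16 π m²`** -/
theorem area : ENNReal.ofReal (64 * Real.pi) ≤ minAreaX G := by
  unfold minAreaX
  refine le_iInf₂ fun U hU => ?_
  obtain ⟨b, hb⟩ := hU.bounded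
  have hK : Metric.closedBall (0 : E3) 1 ⊆ U := fun x hx =>
    hU.contains x (by rwa [Metric.mem_closedBall, dist_zero_right] at hx)
  obtain ⟨d, hd, hdU⟩ := (isCompact_closedBall (0 : E3) 1).exists_cthickening_subset_open
    hU.isOpen hK
  rw [cthickening_closedBall hd.le zero_le_one] at hdU
  set e := d / 2 with he
  have he0 : 0 < e := by positivity
  unfold perimeterX
  refine le_iSup₂_of_le (XF e b) (XF_test he0) ?_
  refine ENNReal.ofReal_le_ofReal (le_of_eq ?_)
  have h1 : ∫ x in U, ∑ i, pd i (fun y => volDen G y * XF e b y i) x =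
      ∫ x in U, 16 * deriv (sA e) ‖x‖ / ‖x‖ ^ 2 := by
    refine setIntegral_congr_fun hU.isOpen.measurableSet fun x hx => ?_
    exact div_eq he0 (hb x hx)
  rw [h1, setIntegral_eq_integral_of_forall_compl_eq_zero, radial_int he0]
  intro x hx
  have h2 : 1 + 2 * e < ‖x‖ := by
    by_contra hcon
    rw [not_lt] at hcon
    refine hx (hdU ?_)
    rw [Metric.mem_closedBall, dist_zero_right]
    linarith
  have h3 : deriv (sA e) ‖x‖ = 0 := by
    have h4 : sA e =ᶠ[𝓝 ‖x‖] fun _ => 1 := by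
      filter_upwards [(isOpen_Ioi).mem_nhds h2] with y hy
      exact sA_one he0 (le_of_lt hy)
    rw [h4.deriv_eq]
    simp
  simp [h3]

/-- **Certificate.** All hypotheses of `MP_ede089_mp.ExteriorPenrose` (all three alternatives) hold
for the Schwarzschild data of mass `2`, and the conclusion says `A ≤ 64 π` there, while
`64 π ≤ A`: it is sharp. -/
theorem certificate : Exterior G Z ∧ DominantEnergy 1 G Z ∧
    (PlaneSignX G Z ∧ FarCondition G Z ∧
      ∀ x : E3, ‖x‖ = 1 → sphereMean G x ≤ |sphereTr G Z x|) ∧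
    ((TraceDominatedX G Z ∧
      ∀ x : E3, 1 < ‖x‖ → ∀ j, divergence G (fun y => Z y - traceTensor G Z y) j x = 0) ∧
      ∀ x : E3, ‖x‖ = 1 → sphereMean G x ≤ 2 / 3 * |trg G x (Z x)|) ∧
    IsTotalMass G 2 ∧ MetricOn {x : E3 | 1 < ‖x‖} G ∧ AreaLe {x : E3 | 1 < ‖x‖} G G ∧
    ENNReal.ofReal (64 * Real.pi) ≤ minAreaX G := by
  have hZ : (fun y => Z y - traceTensor G Z y) = Z := by
    funext y
    have : traceTensor G Z y = 0 := by
      unfold traceTensor
      rw [trg0]
      simp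
    rw [this, sub_zero]
  refine ⟨ext, dec, ⟨plane, far, fun x hx => ?_⟩, ⟨⟨?_, ?_⟩, fun x hx => ?_⟩, mass,
    ⟨fun i j => (smoothG.smooth i j).mono fun x hx => ?_, fun x hx => smoothG.posDef x ?_⟩,
    fun x _ v => le_rfl, area⟩
  · rw [mean hx]
    exact abs_nonneg _
  · intro x _
    have h1 : grad (fun y => trg G y (Z y)) x = 0 := by
      funext i
      have h2 : (fun y => trg G y (Z y)) = fun _ => 0 := by
        funext y
        exact trg0 y
      unfold grad
      rw [h2, pd_const]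
      rfl
    have h2 : len G x (grad (fun y => trg G y (Z y)) x) = 0 := by
      rw [h1]
      simp [len, ev]
    have h3 : nsq G x (Z x) = 0 := by simp [nsq, Z]
    rw [h2, h3, trg0]
    have h4 : 0 ≤ jlen G Z x := Real.sqrt_nonneg _
    simp
    exact h4
  · intro x hx j
    rw [hZ]
    simp [divergence, covDeriv, Z, pd_const]
  · rw [mean hx]
    positivity
  · have h1 : 1 < ‖x‖ := hx
    show 1 - 1 / 2 < ‖x‖
    linarith
  · have h1 : 1 < ‖x‖ := hx
    show 1 - 1 / 2 < ‖x‖
    linarith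

end

end Pool.Agent.VAC2.Exterior
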