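import Pool.Agent.NullCone.Torsion
import Pool.Agent.NullShell.BasicB2

/-!
# Certificate for MP_ede089_mp NullConePenrose (vacuity audit, helper70)

For all `a > 0` and all real `m` the outgoing null cone with first section of area radius `a` in
the Schwarzschild spacetime of mass `m` (Minkowski space for `m = 0`) is a `ConeData`: all the
hypotheses hold together. Its Hawking energies are equal to `m`, so its Bondi energy is `m`; the
left side of the inequality is `a / 2` and so is the right side: equality, for all `a`, `m`. Its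
first section is weakly outer trapped exactly if `a ≤ 2 m`, and the conclusion `a / 2 ≤ m` of the
second part is then equivalent to this hypothesis (equality at the horizon `a = 2 m`).
-/

set_option autoImplicit false

open MeasureTheory Filter Topology
open scoped ContDiff

namespace Pool.Agent.VAC2.NullConePenrose

open Pool.Agent.NullShell Pool.Agent.NullCone Pool.Agent.NullCone.Tors

variable {x : E} {a m s c : ℝ}

/-- a multiple of the round metric -/
noncomputable def mul (c : ℝ) : Ten := fun i j x => c * roundM i j x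

theorem sm_mul (c : ℝ) (i j : Fin 3) : Sm (mul c i j) := Sm.const_mul c (sm_roundM i j)

theorem isSymTensor_mul (c : ℝ) : IsSymTensor (mul c) where
  smooth := sm_mul c
  symm x _ i j := by
    unfold mul
    rw [roundM_symm]
  tangent x hx i := by
    have h := roundM_tangent hx i
    have e : ∀ j, mul c i j x * x j = c * (roundM i j x * x j) := fun j => by
      unfold mul
      ring
    simp only [e, ← Finset.mul_sum, h, mul_zero]

theorem isPosDef_mul (hc : 0 < c) : IsPosDef (mul c) := by
  intro x _ v hv hv0
  have h1 : ∀ i j, mul c i j x * v i * v j = c * (v i * ((if i = j then 1 else 0) * v j)) -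
      c * ((v i * x i) * (v j * x j)) := fun i j => by
    unfold mul roundM
    ring
  have h2 : ∑ i, ∑ j, mul c i j x * v i * v j = c * ∑ i, v i ^ 2 := by
    simp only [h1, Finset.sum_sub_distrib, ← Finset.mul_sum, hv, mul_zero, sub_zero]
    congr 1
    refine Finset.sum_congr rfl fun i _ => ?_
    simp [sq]
  rw [h2]
  have h3 : ∃ i, v i ≠ 0 := by
    by_contra h
    push Not at h
    exact hv0 (funext h)
  obtain ⟨i, hi⟩ := h3
  have h4 : 0 < ∑ i, v i ^ 2 :=
    Finset.sum_pos' (fun _ _ => sq_nonneg _) ⟨i, Finset.mem_univ _, by positivity⟩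
  positivity

theorem ttr_mul (c : ℝ) (hx : x ∈ SS) : ttr (mul c) x = 2 * c := by
  have h := ttr_roundM hx
  unfold ttr at h ⊢
  unfold mul
  rw [← Finset.mul_sum, h]
  ring

theorem tdet_mul (c : ℝ) (hx : x ∈ SS) : tdet (mul c) x = c ^ 2 := by
  unfold tdet
  rw [ttr_mul c hx]
  have h := sum_roundM_roundM hx
  have e : ∀ i j, mul c i j x * mul c j i x = c ^ 2 * (roundM i j x * roundM j i x) :=
    fun i j => by
      unfold mul
      ring
  simp only [e, ← Finset.mul_sum, h]
  ring

theorem tinv_mul (hc : c ≠ 0) (hx : x ∈ SS) (i j : Fin 3) :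
    tinv (mul c) i j x = c⁻¹ * roundM i j x := by
  unfold tinv
  rw [ttr_mul c hx, tdet_mul c hx]
  unfold mul
  field_simp
  ring

theorem areaEl_mul (c : ℝ) (hc : 0 ≤ c) (hx : x ∈ SS) : areaEl (mul c) x = c := by
  unfold areaEl
  rw [tdet_mul c hx, Real.sqrt_sq hc]

theorem sum_sq' (hx : x ∈ SS) (i j : Fin 3) :
    ∑ k, roundM i k x * roundM k j x = roundM i j x := by
  have := congrFun (congrFun (roundM_sq hx) i) j
  rw [Matrix.mul_apply] at this
  exact this

theorem gtr_mul (hc : c ≠ 0) (d : ℝ) (hx : x ∈ SS) : gtr (mul c) (mul d) x = 2 * (d / c) := by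
  have h := sum_roundM_roundM hx
  have e : ∀ i j, tinv (mul c) i j x * mul d i j x = d / c * (roundM i j x * roundM j i x) :=
    fun i j => by
      rw [tinv_mul hc hx, roundM_symm (x := x) j i]
      unfold mul
      field_simp
  unfold gtr
  simp only [e, ← Finset.mul_sum, h]
  ring

/-- the round metric is invariant under rotations -/
theorem lieRot_mul (c : ℝ) (hx : x ∈ SS) (i j k : Fin 3) : lieRot i (mul c) j k x = 0 := by
  have h : Lop i (mul c j k) x = c * (-(rot i x j * x k + x j * rot i x k)) := by
    have h0 : Lop i (mul c j k) x = c * Lop i (roundM j k) x :=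
      Lop_const_mul c (sm_roundM j k) hx
    have h1 : Lop i (roundM j k) x
        = Lop i (fun _ => (if j = k then (1 : ℝ) else 0)) x - Lop i (fun y => y j * y k) x :=
      Lop_sub (sm_const _) ((sm_coord j).mul (sm_coord k)) hx
    rw [h0, h1, Lop_const, Lop_mul (sm_coord j) (sm_coord k) hx, Lop_coord, Lop_coord]
    ring
  unfold lieRot
  rw [h]
  unfold mul
  simp only [Fin.sum_univ_three]
  fin_cases i <;> fin_cases j <;> fin_cases k <;>
    simp [eps, roundM] <;> ring

/-- the Codazzi equation -/
theorem divDens_zero {r : ℝ} (hr : 0 < r) (hx : x ∈ SS) (i : Fin 3) :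
    divDens (mul (r ^ 2)) (fun j k y => mul r j k y - gtr (mul (r ^ 2)) (mul r) y *
      mul (r ^ 2) j k y) i x = 0 := by
  have hr2 : r ^ 2 ≠ 0 := by positivity
  have hd : ∀ y ∈ SS, tdet (mul (r ^ 2)) y ≠ 0 := fun y hy => by
    rw [tdet_mul _ hy]
    positivity
  have hT : ∀ j k, Sm (fun y => mul r j k y - gtr (mul (r ^ 2)) (mul r) y *
      mul (r ^ 2) j k y) := fun j k =>
    (sm_mul r j k).sub ((sm_gtr (sm_mul _) hd (sm_mul _)).mul (sm_mul _ j k))
  have hTe : ∀ y ∈ SS, ∀ j k, mul r j k y - gtr (mul (r ^ 2)) (mul r) y *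
      mul (r ^ 2) j k y = -r * roundM j k y := fun y hy j k => by
    rw [gtr_mul hr2 _ hy]
    unfold mul
    field_simp
    ring
  unfold divDens
  have h1 : ∀ j, Lop j (fun y => areaEl (mul (r ^ 2)) y * ∑ k, tinv (mul (r ^ 2)) j k y *
      (mul r k i y - gtr (mul (r ^ 2)) (mul r) y * mul (r ^ 2) k i y)) x =
      -r * Lop j (roundM j i) x := fun j => by
    rw [← Lop_const_mul (-r) (sm_roundM j i) hx]
    refine Lop_congr ?_ (Sm.const_mul _ (sm_roundM j i)) ?_ hx
    · exact (sm_areaEl (sm_mul _) hd).mul
        (Sm.sum fun k _ => (sm_tinv (sm_mul _) hd j k).mul (hT k i))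
    · intro y hy
      have e : ∀ k, tinv (mul (r ^ 2)) j k y *
          (mul r k i y - gtr (mul (r ^ 2)) (mul r) y * mul (r ^ 2) k i y) =
          (r ^ 2)⁻¹ * (-r) * (roundM j k y * roundM k i y) := fun k => by
        rw [hTe y hy, tinv_mul hr2 hy]
        ring
      simp only [e, ← Finset.mul_sum, sum_sq' hy]
      rw [areaEl_mul _ (by positivity) hy]
      field_simp
  simp only [h1, ← Finset.mul_sum, div_roundM hx, mul_zero, zero_sub, lieRot_mul _ hx,
    Finset.sum_const_zero, neg_zero]

theorem hasDeriv (s : ℝ) : HasDerivWithinAt (fun r : ℝ => r + a) 1 (Set.Ici 0) s :=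
  ((hasDerivAt_id s).add_const a).hasDerivWithinAt

/-- the total expansion of a section -/
theorem sint_theta {r : ℝ} (hr : 0 < r) :
    sint (fun x => areaEl (mul (r ^ 2)) x * (2 / r - 4 * m / r ^ 2)) =
      8 * Real.pi * (r - 2 * m) := by
  rw [sint_congr (g := fun _ => 2 * r - 4 * m) fun x hx => by
    rw [areaEl_mul _ (by positivity) hx]
    field_simp]
  rw [sint_const]
  ring

/-- **The outgoing null cone of area radius `a` in the Schwarzschild spacetime of mass `m`.** -/
noncomputable def cone (a m : ℝ) (ha : 0 < a) : ConeData where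
  γ s := mul ((s + a) ^ 2)
  χ s := mul (s + a)
  ζ _ _ _ := 0
  θ s _ := 2 / (s + a) - 4 * m / (s + a) ^ 2
  ρ _ _ := 0
  metric s _ := isSymTensor_mul _
  posDef s hs := isPosDef_mul (by positivity)
  secondForm s _ := isSymTensor_mul _
  torsion_smooth _ _ _ := sm_const 0
  torsion_tangent _ _ _ _ := by simp
  expansion_smooth _ _ := sm_const _
  variation s _ x _ i j := by
    have h := ((hasDeriv (a := a) s).pow 2).mul_const (roundM i j x)
    refine h.congr_deriv ?_
    unfold mul
    simp
    ring
  optical s hs x hx i j := by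
    have h := (hasDeriv (a := a) s).mul_const (roundM i j x)
    refine h.congr_deriv ?_
    have hr : (s + a) ≠ 0 := by positivity
    have e : ∀ k l, mul (s + a) i k x * tinv (mul ((s + a) ^ 2)) k l x * mul (s + a) l j x =
        roundM i k x * (roundM k l x * roundM l j x) := fun k l => by
      rw [tinv_mul (by positivity) hx]
      unfold mul
      field_simp
    simp only [e, ← Finset.mul_sum, sum_sq' hx, one_mul]
  codazzi s hs x hx i := by
    have hr : 0 < s + a := by positivity
    rw [divDens_zero hr hx]
    simp only [mul_zero]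
    exact hasDerivWithinAt_const _ _ _
  crossFocusing s hs := by
    have h := ((hasDeriv (a := a) s).sub_const (2 * m)).const_mul (8 * Real.pi)
    refine (h.congr (fun r hr => ?_) ?_).congr_deriv ?_
    · exact sint_theta (by have : (0 : ℝ) ≤ r := hr; positivity)
    · exact sint_theta (by positivity)
    · have h0 : sint (fun _ : E => (0 : ℝ)) = 0 := by rw [sint_const]; simp
      simp [normSq, h0]
  energy _ _ _ _ := le_refl 0
  asymptotic_metric x _ i j := by
    have h : Tendsto (fun s : ℝ => (1 + a / s) ^ 2 * roundM i j x) atTop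
        (𝓝 ((1 + 0) ^ 2 * roundM i j x)) :=
      ((tendsto_const_nhds.add (tendsto_const_nhds.div_atTop tendsto_id)).pow 2).mul_const _
    rw [add_zero, one_pow, one_mul] at h
    refine h.congr' ?_
    filter_upwards [eventually_gt_atTop 0] with s hs
    unfold mul
    field_simp
  asymptotic_expansion := by
    have h : Tendsto (fun s : ℝ => s * (2 / (s + a) - 4 * m / (s + a) ^ 2)) atTop (𝓝 2) := by
      have h1 : Tendsto (fun s : ℝ => a / (s + a)) atTop (𝓝 0) :=
        tendsto_const_nhds.div_atTop (tendsto_atTop_add_const_right _ _ tendsto_id)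
      have h2 : Tendsto (fun s : ℝ => 4 * m / (s + a)) atTop (𝓝 0) :=
        tendsto_const_nhds.div_atTop (tendsto_atTop_add_const_right _ _ tendsto_id)
      have h3 : Tendsto (fun s : ℝ => (1 - a / (s + a)) * (2 - 4 * m / (s + a))) atTop
          (𝓝 ((1 - 0) * (2 - 0))) :=
        (tendsto_const_nhds.sub h1).mul (tendsto_const_nhds.sub h2)
      rw [sub_zero, sub_zero, one_mul] at h3
      refine h3.congr' ?_
      filter_upwards [eventually_gt_atTop 0] with s hs
      have : s + a ≠ 0 := by positivity
      field_simp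
      ring
    rw [Metric.tendstoUniformlyOn_iff]
    intro ε hε
    rw [Metric.tendsto_nhds] at h
    filter_upwards [h ε hε] with s hs x _
    rw [dist_comm]
    exact hs

/-- the area of the sections -/
theorem area_cone (ha : 0 < a) (hs : 0 ≤ s) :
    (cone a m ha).area s = 4 * Real.pi * (s + a) ^ 2 := by
  change sint (fun x => areaEl (mul ((s + a) ^ 2)) x) = _
  rw [sint_congr (g := fun _ => (s + a) ^ 2) fun x hx => areaEl_mul _ (by positivity) hx,
    sint_const]

theorem sqrt_area (ha : 0 < a) (hs : 0 ≤ s) :
    Real.sqrt ((cone a m ha).area s / (16 * Real.pi)) = (s + a) / 2 := by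
  rw [area_cone ha hs]
  have := Real.pi_pos
  rw [show 4 * Real.pi * (s + a) ^ 2 / (16 * Real.pi) = ((s + a) / 2) ^ 2 by field_simp; ring]
  exact Real.sqrt_sq (by positivity)

/-- the Hawking energy of all sections is `m` -/
theorem hawking_cone (ha : 0 < a) (hs : 0 ≤ s) : (cone a m ha).hawkingEnergy s = m := by
  unfold ConeData.hawkingEnergy
  have hr : 0 < s + a := by positivity
  rw [sqrt_area ha hs, sint_congr (g := fun _ => 4 - 8 * m / (s + a)) fun x hx => by
    change areaEl (mul ((s + a) ^ 2)) x * (gtr (mul ((s + a) ^ 2)) (mul (s + a)) x *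
      (2 / (s + a) - 4 * m / (s + a) ^ 2)) = _
    rw [areaEl_mul _ (by positivity) hx, gtr_mul (by positivity) _ hx]
    field_simp
    ring, sint_const]
  have := Real.pi_pos
  field_simp
  ring

/-- the Bondi energy is `m` -/
theorem bondi_cone (ha : 0 < a) : Tendsto (cone a m ha).hawkingEnergy atTop (𝓝 m) := by
  refine (tendsto_const_nhds (x := m)).congr' ?_
  filter_upwards [eventually_ge_atTop 0] with s hs
  exact (hawking_cone ha hs).symm

/-- **Equality in the first inequality, for all `a` and `m`; both sides are `a / 2`.** -/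
theorem equality (ha : 0 < a) :
    Real.sqrt ((cone a m ha).area 0 / (16 * Real.pi)) = a / 2 ∧
    m + 1 / (16 * Real.pi) * sint (fun x => areaEl ((cone a m ha).γ 0) x * (cone a m ha).θ 0 x) =
      a / 2 := by
  constructor
  · rw [sqrt_area ha le_rfl, zero_add]
  · have h : sint (fun x => areaEl ((cone a m ha).γ 0) x * (cone a m ha).θ 0 x) =
        8 * Real.pi * ((0 + a) - 2 * m) := sint_theta (by linarith)
    rw [h]
    have := Real.pi_pos
    field_simp
    ring

/-- **The first section is weakly outer trapped exactly if `a ≤ 2 m`, that is if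
`√(area / 16 π) ≤ m`**: the conclusion of the second part is not a trivial bound. -/
theorem trapped_iff (ha : 0 < a) : (∀ x ∈ SS, (cone a m ha).θ 0 x ≤ 0) ↔
    Real.sqrt ((cone a m ha).area 0 / (16 * Real.pi)) ≤ m := by
  rw [(equality ha).1]
  have hne : ∃ x : E, x ∈ SS := ⟨EuclideanSpace.single 0 1, by simp⟩
  have key : 2 / (0 + a) - 4 * m / (0 + a) ^ 2 ≤ 0 ↔ a / 2 ≤ m := by
    rw [zero_add, show 2 / a - 4 * m / a ^ 2 = 4 * (a / 2 - m) / a ^ 2 by field_simp; ring,
      div_le_iff₀ (by positivity)]
    constructor <;> intro h <;> linarith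
  constructor
  · intro h
    obtain ⟨x, hx⟩ := hne
    exact key.1 (h x hx)
  · intro h x _
    exact key.2 h

end Pool.Agent.VAC2.NullConePenrose
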