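import Pool.Agent.NullShell.Defs

/-!
# Certificate for MP_ede089_mp NullShellPenrose (vacuity audit, helper94)

The round sphere of radius `R` at time `0` satisfies all the hypotheses, frames exist, its area is
`4 π R²`, its expansion is `2 / R`, its flux vector is `(R / 2, 0)` and its irreducible mass is
`R / 2`: both inequalities are equalities, so the statement is neither vacuous nor weaker than a
trivial bound. The shell with density `1 / (8 π R)` satisfies the hypothesis of (2).
-/

set_option autoImplicit false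

open MeasureTheory
open scoped ContDiff

namespace Pool.Agent.VAC2.NullShellPenrose

open Pool.Agent.NullShell

/-- the round sphere of radius `R` at time `0` -/
noncomputable def X (R : ℝ) (x : E) : Mink := (0, R • x)

/-- its outer null normal -/
noncomputable def L (x : E) : Mink := (1, x)

theorem hasFDerivAt_X (R : ℝ) (x : E) : HasFDerivAt (X R)
    ((0 : E →L[ℝ] ℝ).prod (R • ContinuousLinearMap.id ℝ E)) x :=
  (hasFDerivAt_const (0 : ℝ) x).prodMk ((hasFDerivAt_id x).const_smul R)

theorem hasFDerivAt_L (x : E) : HasFDerivAt L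
    ((0 : E →L[ℝ] ℝ).prod (ContinuousLinearMap.id ℝ E)) x :=
  (hasFDerivAt_const (1 : ℝ) x).prodMk (hasFDerivAt_id x)

theorem fderiv_X (R : ℝ) (x v : E) : fderiv ℝ (X R) x v = (0, R • v) := by
  rw [(hasFDerivAt_X R x).fderiv]
  rfl

theorem fderiv_L (x v : E) : fderiv ℝ L x v = (0, v) := by
  rw [(hasFDerivAt_L x).fderiv]
  rfl

theorem inner_self_sphere {x : E} (hx : x ∈ SS) : inner ℝ x x = (1 : ℝ) := by
  rw [real_inner_self_eq_norm_sq, mem_sphere_zero_iff_norm.1 hx]
  norm_num

theorem isSurface (R : ℝ) (hR : 0 < R) : IsSurface (X R) where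
  smooth x _ := contDiffAt_const.prodMk (contDiffAt_id.const_smul R)
  normal x _ v hv := by
    rw [fderiv_X]
    simp only [mink, ingoing, inner_smul_left, inner_neg_right, hv]
    simp
  regular r hr x _ v _ hv := by
    have h1 : (fun y => X R y - r • ingoing y) = fun y : E => ((-r : ℝ), (R + r) • y) := by
      funext y
      refine Prod.ext ?_ ?_
      · simp [X, ingoing]
      · simp only [X, ingoing, Prod.snd_sub, Prod.smul_snd]
        module
    have h2 : HasFDerivAt (fun y : E => ((-r : ℝ), (R + r) • y))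
        ((0 : E →L[ℝ] ℝ).prod ((R + r) • ContinuousLinearMap.id ℝ E)) x :=
      (hasFDerivAt_const (-r : ℝ) x).prodMk ((hasFDerivAt_id x).const_smul (R + r))
    rw [h1, h2.fderiv]
    change 0 < mink ((0 : ℝ), (R + r) • v) ((0 : ℝ), (R + r) • v)
    simp only [mink, inner_smul_left, inner_smul_right, real_inner_self_eq_norm_sq]
    have h3 : 0 < ‖v‖ := norm_pos_iff.2 hv
    have h4 : 0 < R + r := by linarith
    simp only [conj_trivial, mul_zero, sub_zero]
    positivity

theorem isOuterNormal (R : ℝ) : IsOuterNormal (X R) L where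
  smooth x _ := contDiffAt_const.prodMk contDiffAt_id
  null x hx := by
    simp only [mink, L, inner_self_sphere hx]
    norm_num
  normalized x hx := by
    simp only [mink, L, ingoing, inner_neg_right, inner_self_sphere hx]
    norm_num
  normal x _ v hv := by
    rw [fderiv_X]
    simp only [mink, L, inner_smul_left, hv]
    simp

/-- frames exist -/
theorem exists_frame : ∃ e₁ e₂ : E → E, IsTangentFrame e₁ e₂ := by
  classical
  have key : ∀ x : E, ∃ a b : E, x ∈ SS → ‖a‖ = 1 ∧ ‖b‖ = 1 ∧ inner ℝ a b = (0 : ℝ) ∧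
      inner ℝ a x = (0 : ℝ) ∧ inner ℝ b x = (0 : ℝ) := by
    intro x
    by_cases hx : x ∈ SS
    · have hx0 : x ≠ 0 := by
        rintro rfl
        simpa using mem_sphere_zero_iff_norm.1 hx
      have : Fact (Module.finrank ℝ E = 2 + 1) := ⟨by simp⟩
      have hf : Module.finrank ℝ ((Submodule.span ℝ {x})ᗮ : Submodule ℝ E) = 2 :=
        Submodule.finrank_orthogonal_span_singleton hx0
      obtain ⟨b⟩ : Nonempty (OrthonormalBasis (Fin 2) ℝ ((Submodule.span ℝ {x})ᗮ : Submodule ℝ E)) :=
        ⟨(stdOrthonormalBasis ℝ _).reindex (finCongr hf)⟩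
      have hm : ∀ i, inner ℝ ((b i : (Submodule.span ℝ {x})ᗮ) : E) x = (0 : ℝ) := fun i =>
        Submodule.mem_orthogonal_singleton_iff_inner_left.1 (b i).2
      refine ⟨b 0, b 1, fun _ => ⟨?_, ?_, ?_, hm 0, hm 1⟩⟩
      · exact b.orthonormal.1 0
      · exact b.orthonormal.1 1
      · exact b.orthonormal.2 (show (0 : Fin 2) ≠ 1 by decide)
    · exact ⟨0, 0, fun h => absurd h hx⟩
  choose e₁ e₂ h using key
  exact ⟨e₁, e₂, ⟨fun x hx => (h x hx).1, fun x hx => (h x hx).2.1, fun x hx => (h x hx).2.2.1,
    fun x hx => (h x hx).2.2.2.1, fun x hx => (h x hx).2.2.2.2⟩⟩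

variable {R : ℝ} {e₁ e₂ : E → E}

theorem firstForm_X (x v w : E) : firstForm (X R) x v w = R ^ 2 * inner ℝ v w := by
  unfold firstForm
  rw [fderiv_X, fderiv_X]
  simp only [mink, inner_smul_left, inner_smul_right, conj_trivial]
  ring

theorem secondForm_X (x v w : E) : secondForm (X R) L x v w = R * inner ℝ v w := by
  unfold secondForm
  rw [fderiv_X, fderiv_L]
  simp only [mink, inner_smul_right]
  ring

theorem areaElement_X (he : IsTangentFrame e₁ e₂) (x : E) (hx : x ∈ SS) :
    areaElement (X R) e₁ e₂ x = R ^ 2 := by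
  unfold areaElement
  rw [firstForm_X, firstForm_X, firstForm_X, he.orth x hx, real_inner_self_eq_norm_sq,
    real_inner_self_eq_norm_sq, he.norm₁ x hx, he.norm₂ x hx]
  rw [show R ^ 2 * 1 ^ 2 * (R ^ 2 * 1 ^ 2) - (R ^ 2 * 0) ^ 2 = (R ^ 2) ^ 2 by ring]
  exact Real.sqrt_sq (by positivity)

theorem expansion_X (hR : 0 < R) (he : IsTangentFrame e₁ e₂) (x : E) (hx : x ∈ SS) :
    expansion (X R) L e₁ e₂ x = 2 / R := by
  unfold expansion
  have h1 : inner ℝ (e₂ x) (e₁ x) = (0 : ℝ) := by
    rw [real_inner_comm]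
    exact he.orth x hx
  rw [firstForm_X, firstForm_X, firstForm_X, secondForm_X, secondForm_X, secondForm_X,
    secondForm_X, he.orth x hx, h1, real_inner_self_eq_norm_sq,
    real_inner_self_eq_norm_sq, he.norm₁ x hx, he.norm₂ x hx]
  field_simp
  ring

theorem sph_univ : sph.real Set.univ = 4 * Real.pi := by
  rw [Measure.toSphere_real_apply_univ]
  simp only [finrank_euclideanSpace, Fintype.card_fin]
  have := EuclideanSpace.volume_ball_fin_three (0 : E) 1
  rw [Measure.real, this, ENNReal.toReal_mul, ENNReal.toReal_pow]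
  rw [ENNReal.toReal_ofReal (by norm_num), ENNReal.toReal_ofReal (by positivity)]
  push_cast
  ring

theorem area_X (he : IsTangentFrame e₁ e₂) : area (X R) e₁ e₂ = 4 * Real.pi * R ^ 2 := by
  unfold area
  rw [integral_congr_ae (Filter.Eventually.of_forall fun x : SS => areaElement_X he x x.2),
    integral_const, sph_univ, smul_eq_mul]

/-- the energy of the flux vector is `R / 2` -/
theorem fluxEnergy_X (hR : 0 < R) (he : IsTangentFrame e₁ e₂) :
    1 / (16 * Real.pi) * ∫ x : SS, expansion (X R) L e₁ e₂ x * areaElement (X R) e₁ e₂ x ∂sph =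
      R / 2 := by
  have h : ∀ x : SS, expansion (X R) L e₁ e₂ x * areaElement (X R) e₁ e₂ x = 2 * R := fun x => by
    rw [expansion_X hR he x x.2, areaElement_X he x x.2]
    field_simp
  rw [integral_congr_ae (Filter.Eventually.of_forall h), integral_const, sph_univ, smul_eq_mul]
  have := Real.pi_pos
  field_simp
  ring

/-- the irreducible mass is `R / 2` too: equality in (1) and, for `ε = θ / (16 π)`, in (2) -/
theorem irreducible_X (hR : 0 < R) (he : IsTangentFrame e₁ e₂) :
    Real.sqrt (area (X R) e₁ e₂ / (16 * Real.pi)) = R / 2 := by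
  rw [area_X he]
  have := Real.pi_pos
  rw [show 4 * Real.pi * R ^ 2 / (16 * Real.pi) = (R / 2) ^ 2 by field_simp; ring]
  exact Real.sqrt_sq (by positivity)

/-- the hypotheses of (2) hold for the shell of constant density `1 / (8 π R)` -/
theorem shell_X (hR : 0 < R) (he : IsTangentFrame e₁ e₂) :
    Integrable (fun x : SS => (fun _ : E => 1 / (8 * Real.pi * R)) x *
      areaElement (X R) e₁ e₂ x) sph ∧
    ∀ x ∈ SS, expansion (X R) L e₁ e₂ x -
      16 * Real.pi * (fun _ : E => 1 / (8 * Real.pi * R)) x ≤ 0 := by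
  constructor
  · refine (integrable_const (1 / (8 * Real.pi * R) * R ^ 2)).congr
      (Filter.Eventually.of_forall fun x => ?_)
    simp only
    rw [areaElement_X he x x.2]
  · intro x hx
    rw [expansion_X hR he x hx]
    have := Real.pi_pos
    simp only
    rw [show 16 * Real.pi * (1 / (8 * Real.pi * R)) = 2 / R by field_simp; ring]
    simp

end Pool.Agent.VAC2.NullShellPenrose
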