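import Pool.Agent.KCC.FinalDefs
import Pool.Agent.KCS.FinalDefs

/-!
Certificate (helper76) for MP_f6626d_co/AreaLawColumnConvexMoments: the classes are not empty and not everything,
areas are positive, the limit law is not a point mass.
-/

set_option autoImplicit false

namespace Pool.Agent.VAC2.MPf6626dMoments

open Finset Pool.Agent.AreaLaw Pool.Agent.KCS

/-- the unit square -/
def sq : Fin (2 * 2) → Fin 4 := ![0, 1, 2, 3]

/-- the polygon of the cells (0,0), (1,0), (0,1), (0,2), (1,2) -/
def cs : Fin (2 * 6) → Fin 4 := ![0, 0, 1, 2, 1, 0, 1, 2, 2, 3, 3, 3]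

theorem sq_sap : sq ∈ SAP 2 := by
  unfold SAP
  rw [mem_filter]
  exact ⟨mem_univ _, by decide +kernel, by decide +kernel⟩

theorem cs_sap : cs ∈ SAP 6 := by
  unfold SAP
  rw [mem_filter]
  exact ⟨mem_univ _, by decide +kernel, by decide +kernel⟩

/-- `ColConvex k n` is not empty (perimeter 4) -/
theorem sq_mem (k : ℕ) (hk : 1 ≤ k) : sq ∈ ColConvex k 2 := by
  classical
  unfold ColConvex
  refine mem_filter.2 ⟨sq_sap, fun h => ?_⟩
  have h2 : vcross 2 sq h ≤ 2 := by
    by_cases h0 : h = 0
    · subst h0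
      decide +kernel
    · have hx : ∀ i ∈ Finset.range (2 * 2), (pos 2 sq i).1 = 0 ∨ (pos 2 sq i).1 = 1 := by
        decide +kernel
      have hx' : ∀ i ∈ Finset.range (2 * 2), (pos 2 sq (i + 1)).1 = 0 ∨ (pos 2 sq (i + 1)).1 = 1 := by
        decide +kernel
      have : (Finset.range (2 * 2)).filter (fun i =>
          ((pos 2 sq i).1 = h ∧ (pos 2 sq (i + 1)).1 = h + 1) ∨
            ((pos 2 sq i).1 = h + 1 ∧ (pos 2 sq (i + 1)).1 = h)) = ∅ := by
        rw [Finset.filter_eq_empty_iff]
        intro i hi hc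
        have a1 := hx i hi
        have a2 := hx' i hi
        omega
      unfold vcross
      rw [this]
      simp
  omega

/-- column convexity is a real condition: a self-avoiding polygon that is not column-convex -/
theorem cs_not : cs ∈ SAP 6 ∧ cs ∉ ColConvex 1 6 := by
  classical
  refine ⟨cs_sap, fun hc => ?_⟩
  unfold ColConvex at hc
  replace hc := (mem_filter.1 hc)
  have h4 : vcross 6 cs 1 = 4 := by decide +kernel
  have := hc.2 1
  omega

/-- the mean area is positive (no division by zero): the area of the unit square is `1` -/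
theorem sq_area : area 2 sq = 1 := by
  have h : (∑ k ∈ Finset.range (2 * 2), ((pos 2 sq k).1 * (pos 2 sq (k + 1)).2 -
    (pos 2 sq (k + 1)).1 * (pos 2 sq k).2)) = 2 := by decide +kernel
  unfold area
  rw [h]
  norm_num

theorem om1 : airyOm 1 = 1 / 2 := by
  have h0 : airyOm 0 = -1 := by rw [airyOm]
  have h : airyOm (0 + 1) = 1 / 2 := by
    rw [airyOm, Fin.sum_univ_zero, h0]
    norm_num
  exact h

theorem om2 : airyOm 2 = 5 / 4 := by
  have h : airyOm (1 + 1) = 5 / 4 := by
    rw [airyOm, Fin.sum_univ_one]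
    have h1 := om1
    simp only [Fin.val_zero, Nat.sub_zero]
    rw [h1]
    norm_num
  exact h

theorem m1 : airyMoment 1 = 1 := by
  unfold airyMoment
  rw [om1]
  have h1 : ((3 * ((1 : ℕ) : ℝ) - 1) / 2) = 1 := by norm_num
  have h2 : Real.pi ^ (((1 : ℕ) : ℝ) / 2) = Real.sqrt Real.pi := by
    rw [Real.sqrt_eq_rpow]
    norm_num
  have h3 : Real.sqrt Real.pi ≠ 0 := (Real.sqrt_pos.2 Real.pi_pos).ne'
  rw [h1, h2, Real.Gamma_one]
  field_simp

theorem m2 : airyMoment 2 = 10 / (3 * Real.pi) := by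
  unfold airyMoment
  rw [om2]
  have h1 : ((3 * ((2 : ℕ) : ℝ) - 1) / 2) = 1 / 2 + 1 + 1 := by norm_num
  have h2 : Real.pi ^ (((2 : ℕ) : ℝ) / 2) = Real.pi := by norm_num
  have h3 : Real.sqrt Real.pi ≠ 0 := (Real.sqrt_pos.2 Real.pi_pos).ne'
  have h4 : Real.pi ≠ 0 := Real.pi_ne_zero
  rw [h1, h2, Real.Gamma_add_one (by norm_num), Real.Gamma_add_one (by norm_num), Real.Gamma_one_half_eq]
  field_simp
  norm_num

/-- the second moment of the limit law (mean one) is larger than one: it is not a point mass -/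
theorem not_dirac : 1 < airyMoment 2 := by
  rw [m2, lt_div_iff₀ (by positivity)]
  have := Real.pi_lt_d2
  linarith

end Pool.Agent.VAC2.MPf6626dMoments
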