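import Pool.Agent.OC.FinalDefs
import Pool.Agent.Lib_helper89.FL.FinalDefs

/-!
Certificate that the statement of `MP_f6626d_co/AreaLawConvexEnergy` is neither vacuous nor trivial
(helper file, not a hand-in): the law `ν` is determined by clause (1); for every `c` and every `J` in
clause (2) there are admissible weights `b` (with all values positive if those of `c` are); sequences
`c` of positive weights which tend to the uniform weight exist; the random polygons in (2)-(5) are not
all staircase polygons.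
-/

set_option autoImplicit false

namespace Pool.Agent.VAC2.ConvexEnergy

open Filter Topology MeasureTheory Pool.Agent.AreaLaw

lemma atoms (μ : Measure ℝ) [IsProbabilityMeasure μ] : {x : ℝ | 0 < μ {x}}.Countable :=
  Measure.countable_meas_pos_of_disjoint_iUnion (fun x => measurableSet_singleton x)
    (fun x y hxy => by simpa [Function.onFun] using hxy)

lemma right_cont (μ : Measure ℝ) [IsProbabilityMeasure μ] {u : ℕ → ℝ} {a : ℝ} (hu : Antitone u)
    (ha : ∀ n, a ≤ u n) (hl : Tendsto u atTop (𝓝 a)) :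
    Tendsto (fun n => μ (Set.Iic (u n))) atTop (𝓝 (μ (Set.Iic a))) := by
  have h := tendsto_measure_iInter_atTop (μ := μ) (s := fun n => Set.Iic (u n))
    (fun n => measurableSet_Iic.nullMeasurableSet)
    (fun m n hmn => Set.Iic_subset_Iic.2 (hu hmn)) ⟨0, measure_ne_top _ _⟩
  have e : ⋂ n, Set.Iic (u n) = Set.Iic a := by
    ext x
    rw [Set.mem_iInter]
    constructor
    · intro hx
      exact ge_of_tendsto' hl hx
    · intro hx n
      exact le_trans hx (ha n)
  rwa [e] at h

/-- Clause (1) determines the law `ν`: it cannot be chosen to suit the other clauses. -/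
theorem nu_unique (ν ν' : Measure ℝ) [IsProbabilityMeasure ν] [IsProbabilityMeasure ν']
    (F : ℕ → ℝ → ℝ)
    (h : ∀ x : ℝ, ν {x} = 0 → Tendsto (fun n => F n x) atTop (𝓝 (ν (Set.Iic x)).toReal))
    (h' : ∀ x : ℝ, ν' {x} = 0 → Tendsto (fun n => F n x) atTop (𝓝 (ν' (Set.Iic x)).toReal)) :
    ν = ν' := by
  have hc := (atoms ν).union (atoms ν')
  have hd : Dense ({x : ℝ | 0 < ν {x}} ∪ {x : ℝ | 0 < ν' {x}})ᶜ := hc.dense_compl ℝ
  have key : ∀ x ∈ ({x : ℝ | 0 < ν {x}} ∪ {x : ℝ | 0 < ν' {x}})ᶜ,
      ν (Set.Iic x) = ν' (Set.Iic x) := by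
    intro x hx
    rw [Set.mem_compl_iff, Set.mem_union, not_or] at hx
    have h1 : ν {x} = 0 := by simpa using hx.1
    have h2 : ν' {x} = 0 := by simpa using hx.2
    have h3 := tendsto_nhds_unique (h x h1) (h' x h2)
    exact (ENNReal.toReal_eq_toReal_iff' (measure_ne_top _ _) (measure_ne_top _ _)).1 h3
  apply Measure.ext_of_Iic
  intro a
  obtain ⟨u, hu1, hu2, hu3⟩ := hd.exists_seq_strictAnti_tendsto a
  have h1 := right_cont ν hu1.antitone (fun n => (hu2 n).1.le) hu3
  have h2 := right_cont ν' hu1.antitone (fun n => (hu2 n).1.le) hu3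
  have h3 : (fun n => ν (Set.Iic (u n))) = fun n => ν' (Set.Iic (u n)) :=
    funext fun n => key _ (hu2 n).2
  rw [h3] at h1
  exact tendsto_nhds_unique h1 h2

/-- For every `c` and every `J` there are admissible weights in clause (2). -/
theorem class_nonempty (c : ℕ → ℕ → ℝ) (hc : ∀ j, OccWeight (c j) ∧ ∃ v, 2 ≤ v ∧ c j v < 1)
    (J : ℕ → ℕ) : ∃ b : ℕ → ℕ → ℝ, (∀ n v, 0 < c (J n) v → 0 < b n v) ∧
      ∀ n, OccWeight (b n) ∧ (∀ v, 3 ≤ v → b n v ≤ c (J n) v) ∧ (b n 1)⁻¹ ≤ J n + 1 := by
  refine ⟨fun n v => if v = 1 then 1 else c (J n) v, ?_, ?_⟩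
  · intro n v hv
    dsimp only
    split_ifs
    · exact one_pos
    · exact hv
  · intro n
    have h := (hc (J n)).1
    refine ⟨⟨?_, ?_, ?_, ?_, ?_, ?_⟩, ?_, ?_⟩
    · simpa using h.zero
    · simp
    · simpa using h.two
    · intro v
      dsimp only
      split_ifs
      · exact zero_le_one
      · exact h.nonneg v
    · intro v hv
      dsimp only
      rw [if_neg (by omega), if_neg (by omega)]
      exact h.anti v hv
    · intro v hv
      dsimp only
      rw [if_neg (by omega), if_neg (by omega), if_neg (by omega)]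
      exact h.lc v hv
    · intro v hv
      dsimp only
      rw [if_neg (by omega)]
    · simp

/-- There are sequences of positive weights as in clause (2) which tend to the uniform weight. -/
theorem weights : ∃ c : ℕ → ℕ → ℝ, (∀ j, OccWeight (c j) ∧ ∃ v, 2 ≤ v ∧ c j v < 1) ∧
    (∀ j v, 0 < c j v) ∧ ∀ v, Tendsto (fun j => c j v) atTop (𝓝 1) := by
  refine ⟨fun j v => Real.exp (-(((v - 2 : ℕ) : ℝ) / (j + 1))), ?_, ?_, ?_⟩
  · intro j
    refine ⟨⟨by simp, Real.exp_pos _, by simp, fun v => (Real.exp_pos _).le, ?_, ?_⟩, 3, by norm_num,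
      ?_⟩
    · intro v hv
      apply Real.exp_le_exp.2
      apply neg_le_neg
      apply div_le_div_of_nonneg_right _ (by positivity)
      exact_mod_cast (by omega : v - 2 ≤ v + 1 - 2)
    · intro v hv
      dsimp only
      rw [← Real.exp_add, ← Real.exp_nat_mul]
      apply Real.exp_le_exp.2
      have e1 : v + 2 - 2 = v := by omega
      have e2 : v + 1 - 2 = (v - 2) + 1 := by omega
      have e3 : ((v : ℕ) : ℝ) = ((v - 2 : ℕ) : ℝ) + 2 := by
        exact_mod_cast (by omega : v = v - 2 + 2)
      rw [e1, e2, e3]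
      push_cast
      apply le_of_eq
      ring
    · rw [Real.exp_lt_one_iff]
      have : (0 : ℝ) < ((3 - 2 : ℕ) : ℝ) / ((j : ℝ) + 1) := by positivity
      linarith
  · intro j v
    exact Real.exp_pos _
  · intro v
    have h : Tendsto (fun j : ℕ => -(((v - 2 : ℕ) : ℝ) / ((j : ℝ) + 1))) atTop (𝓝 (-0)) := by
      apply Tendsto.neg
      exact tendsto_const_nhds.div_atTop (tendsto_natCast_atTop_atTop.atTop_add tendsto_const_nhds)
    rw [neg_zero] at h
    have := (Real.continuous_exp.tendsto 0).comp h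
    rwa [Real.exp_zero] at this

/-- The boundary of the L-tromino. -/
def trom : Fin (2 * 4) → Fin 4 := ![0, 0, 1, 2, 1, 2, 3, 3]

/-- A self-avoiding polygon which is not a staircase polygon, with three vertices on a diagonal. -/
theorem trom_mem : trom ∈ SAP 4 ∧ trom ∉ Staircase 4 ∧ diag 4 trom 2 = 3 := by
  refine ⟨?_, ?_, ?_⟩
  · unfold SAP
    rw [Finset.mem_filter]
    refine ⟨Finset.mem_univ _, ?_⟩
    decide
  · unfold Staircase
    rw [Finset.mem_filter]
    rintro ⟨-, -, m, -, h⟩
    have h3 := h 3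
    have h4 := h 4
    rcases lt_or_ge 3 m with h5 | h5
    · have := h3.1 h5
      revert this
      decide
    · have := h4.2 (by show m ≤ 4; omega)
      revert this
      decide
  · decide

/-- All self-avoiding polygons have positive weight for positive weights. -/
theorem occW_pos {b : ℕ → ℝ} (hb : ∀ v, 0 < b v) (n : ℕ) (s : Fin (2 * n) → Fin 4) :
    0 < occW b n s := Finset.prod_pos fun _ _ => hb _

end Pool.Agent.VAC2.ConvexEnergy
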