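import Pool.Agent.Lib_helper89.FL.FinalDefs

/-!
Certificate that the statement of `MP_f6626d_co/AreaLawEverySpan` is not vacuous (helper file, not a
hand-in): every `h n = ⌊v n⌋`, `0 < v < 1`, is admissible for every sequence `e` tending to `0`, and
the statement implies that the families of polygons in it are nonempty for large `n`, for every
admissible `h` (so no value `areaCdf` is the junk value `0 / 0` in the limit).
-/

set_option autoImplicit false

namespace Pool.Agent.VAC2.EverySpan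

open Finset Filter Topology MeasureTheory Pool.Agent.AreaLaw

/-- `h n = ⌊v n⌋` is admissible. -/
theorem admissible (v : ℝ) (h0 : 0 < v) (h1 : v < 1) (e : ℕ → ℝ) (he : Tendsto e atTop (𝓝 0)) :
    ∀ᶠ n : ℕ in atTop, e n * n ≤ ((⌊v * n⌋₊ : ℕ) : ℝ) ∧
      ((⌊v * n⌋₊ : ℕ) : ℝ) ≤ (1 - e n) * n := by
  have h2 : ∀ᶠ n : ℕ in atTop, e n < min (v / 2) (1 - v) :=
    he.eventually (gt_mem_nhds (lt_min (by linarith) (by linarith)))
  have h3 : ∀ᶠ n : ℕ in atTop, 2 / v ≤ (n : ℝ) :=
    tendsto_natCast_atTop_atTop.eventually_ge_atTop (2 / v)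
  filter_upwards [h2, h3] with n hn hn2
  have hn0 : (0 : ℝ) ≤ n := n.cast_nonneg
  have h5 : e n ≤ v / 2 := (hn.le).trans (min_le_left _ _)
  have h6 : e n ≤ 1 - v := (hn.le).trans (min_le_right _ _)
  have h7 : v * n < (⌊v * n⌋₊ : ℕ) + 1 := Nat.lt_floor_add_one _
  have h8 : ((⌊v * n⌋₊ : ℕ) : ℝ) ≤ v * n := Nat.floor_le (by positivity)
  have h9 : 2 ≤ v * n := by
    rw [div_le_iff₀ h0] at hn2
    linarith
  constructor
  · nlinarith
  · nlinarith

/-- Convergence of distribution functions forces nonempty families. -/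
theorem nonempty_of_tendsto (μ : Measure ℝ) [IsProbabilityMeasure μ]
    (F : ∀ n : ℕ, Finset (Fin (2 * n) → Fin 4))
    (h : ∀ x : ℝ, μ {x} = 0 →
      Tendsto (fun n : ℕ => areaCdf n (F n) x) atTop (𝓝 (μ (Set.Iic x)).toReal)) :
    ∀ᶠ n : ℕ in atTop, (F n).Nonempty := by
  have h1 : Tendsto (fun x : ℝ => μ (Set.Iic x)) atTop (𝓝 (μ Set.univ)) := by
    have := tendsto_measure_iUnion_atTop (μ := μ) (s := fun x : ℝ => Set.Iic x)
      (fun a b hab => Set.Iic_subset_Iic.2 hab)
    rwa [Set.iUnion_Iic] at this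
  rw [measure_univ] at h1
  obtain ⟨N, hN⟩ := (h1.eventually (lt_mem_nhds (show (1 / 2 : ENNReal) < 1 by
    exact ENNReal.half_lt_self one_ne_zero ENNReal.one_ne_top))).exists_forall_of_atTop
  have hc : {x : ℝ | 0 < μ {x}}.Countable :=
    Measure.countable_meas_pos_of_disjoint_iUnion (fun x => measurableSet_singleton x)
      (fun x y hxy => by simpa [Function.onFun] using hxy)
  obtain ⟨x, hxN, hx0⟩ : ∃ x, x ∈ Set.Ici N ∧ μ {x} = 0 := by
    by_contra hcon
    push Not at hcon
    have : (Set.Ici N).Countable := hc.mono fun x hx => pos_iff_ne_zero.2 (hcon x hx)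
    have h5 := Cardinal.le_aleph0_iff_set_countable.2 this
    rw [Cardinal.mk_Ici_real] at h5
    exact Cardinal.aleph0_lt_continuum.not_ge h5
  have h2 := h x hx0
  have h3 : 0 < (μ (Set.Iic x)).toReal :=
    ENNReal.toReal_pos ((lt_of_le_of_lt zero_le (hN x hxN)).ne') (measure_ne_top _ _)
  filter_upwards [h2.eventually (lt_mem_nhds h3)] with n hn
  by_contra hcon
  rw [Finset.not_nonempty_iff_eq_empty] at hcon
  rw [hcon] at hn
  simp [areaCdf] at hn

end Pool.Agent.VAC2.EverySpan
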