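import Pool.Agent.Lib_helper41.SapR.FinalDefs
import Pool.Agent.VAC2.MP_f6626d_co_AreaLawConvexEnergy
import Pool.Agent.VAC2.MP_f6626d_co_AreaLawEverySpan

/-!
Certificate that the statement of `MP_f6626d_co/AreaLawShortRuns` is neither vacuous nor trivial
(helper file, not a hand-in): clause (i) determines the law `μ`; the families in (i) and (ii) are
nonempty for large `n` for every admissible `r` (no junk value `0 / 0`); the classes `Short r n`
increase with `r` and exhaust all self-avoiding polygons; they are really larger than the class of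
staircase polygons and really depend on `r` (the L-tromino lies in `Short 5 4`, not in `Short 4 4`).
-/

set_option autoImplicit false

namespace Pool.Agent.VAC2.ShortRuns

open Filter Topology MeasureTheory Pool.Agent.AreaLaw

/-- Clause (i) determines `μ`. -/
theorem mu_unique (μ μ' : Measure ℝ) [IsProbabilityMeasure μ] [IsProbabilityMeasure μ']
    (h : ∀ x : ℝ, μ {x} = 0 →
      Tendsto (fun n : ℕ => areaCdf n (Staircase n) x) atTop (𝓝 (μ (Set.Iic x)).toReal))
    (h' : ∀ x : ℝ, μ' {x} = 0 →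
      Tendsto (fun n : ℕ => areaCdf n (Staircase n) x) atTop (𝓝 (μ' (Set.Iic x)).toReal)) :
    μ = μ' :=
  ConvexEnergy.nu_unique μ μ' (fun n x => areaCdf n (Staircase n) x) h h'

/-- The families in clause (ii) are nonempty for large `n`, for every admissible `r`. -/
theorem short_nonempty (μ : Measure ℝ) [IsProbabilityMeasure μ] (R : ℕ → ℕ)
    (h : ∀ r : ℕ → ℕ, (∀ᶠ n in atTop, 1 ≤ r n ∧ r n ≤ R n) → ∀ x : ℝ, μ {x} = 0 →
      Tendsto (fun n : ℕ => areaCdf n (Short (r n) n) x) atTop (𝓝 (μ (Set.Iic x)).toReal))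
    (r : ℕ → ℕ) (hr : ∀ᶠ n in atTop, 1 ≤ r n ∧ r n ≤ R n) :
    ∀ᶠ n : ℕ in atTop, (Short (r n) n).Nonempty :=
  EverySpan.nonempty_of_tendsto μ (fun n => Short (r n) n) (h r hr)

/-- Every constant `r ≥ 1` is admissible when `R` tends to infinity, and so is `R` itself. -/
theorem admissible (R : ℕ → ℕ) (hR : Tendsto R atTop atTop) (r : ℕ) (hr : 1 ≤ r) :
    (∀ᶠ n in atTop, 1 ≤ (fun _ : ℕ => r) n ∧ (fun _ : ℕ => r) n ≤ R n) ∧
      ∀ᶠ n in atTop, 1 ≤ R n ∧ R n ≤ R n := by
  constructor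
  · filter_upwards [hR.eventually_ge_atTop r] with n hn
    exact ⟨hr, hn⟩
  · filter_upwards [hR.eventually_ge_atTop 1] with n hn
    exact ⟨hn, le_refl _⟩

lemma mem_short (r n : ℕ) (s : Fin (2 * n) → Fin 4) : s ∈ Short r n ↔ s ∈ SAP n ∧
    ∀ a b : ℤ, (∀ h : ℤ, a ≤ h → h ≤ b → ¬ IsCut n s h) → onDiag n s a b ≤ r := by
  classical
  unfold Short
  simp only [Finset.mem_filter]

/-- The classes increase with `r`. -/
theorem short_mono {r r' : ℕ} (h : r ≤ r') (n : ℕ) : Short r n ⊆ Short r' n := by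
  intro s hs
  rw [mem_short] at hs ⊢
  exact ⟨hs.1, fun a b hab => (hs.2 a b hab).trans h⟩

/-- The class with `r = 2n` is the class of all self-avoiding polygons. -/
theorem short_all (n : ℕ) : Short (2 * n) n = SAP n := by
  ext s
  rw [mem_short]
  refine ⟨fun h => h.1, fun h => ⟨h, ?_⟩⟩
  intro a b _
  unfold onDiag
  exact (Finset.card_le_univ _).trans (by simp)

/-- The number of vertices of the tromino on the diagonal `h`. -/
lemma trom_diag (h : ℤ) : onDiag 4 ConvexEnergy.trom h h =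
    if h = 0 then 1 else if h = 1 then 2 else if h = 2 then 3 else if h = 3 then 2 else 0 := by
  have hval : ∀ k : Fin (2 * 4), (pos 4 ConvexEnergy.trom k).1 + (pos 4 ConvexEnergy.trom k).2 =
      ![0, 1, 2, 3, 2, 3, 2, 1] k := by decide
  unfold onDiag
  simp only [hval]
  by_cases h0 : h = 0
  · subst h0
    decide
  by_cases h1 : h = 1
  · subst h1
    decide
  by_cases h2 : h = 2
  · subst h2
    decide
  by_cases h3 : h = 3
  · subst h3
    decide
  · rw [if_neg h0, if_neg h1, if_neg h2, if_neg h3, Finset.card_eq_zero,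
      Finset.filter_eq_empty_iff]
    intro k _ hk
    have hk2 : ((![0, 1, 2, 3, 2, 3, 2, 1] : Fin (2 * 4) → ℤ) k) = h := by
      exact le_antisymm hk.2 hk.1
    have : ∀ k : Fin (2 * 4), ((![0, 1, 2, 3, 2, 3, 2, 1] : Fin (2 * 4) → ℤ) k) = 0 ∨
        ((![0, 1, 2, 3, 2, 3, 2, 1] : Fin (2 * 4) → ℤ) k) = 1 ∨
        ((![0, 1, 2, 3, 2, 3, 2, 1] : Fin (2 * 4) → ℤ) k) = 2 ∨
        ((![0, 1, 2, 3, 2, 3, 2, 1] : Fin (2 * 4) → ℤ) k) = 3 := by decide
    rcases this k with h | h | h | h <;> rw [hk2] at h <;> contradiction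

/-- The L-tromino lies in `Short 5 4`, but neither in `Short 4 4` nor in `Staircase 4`. -/
theorem trom_short : ConvexEnergy.trom ∈ Short 5 4 ∧ ConvexEnergy.trom ∉ Short 4 4 ∧
    ConvexEnergy.trom ∉ Staircase 4 := by
  have hval : ∀ k : Fin (2 * 4), (pos 4 ConvexEnergy.trom k).1 + (pos 4 ConvexEnergy.trom k).2 =
      ![0, 1, 2, 3, 2, 3, 2, 1] k := by decide
  refine ⟨?_, ?_, ConvexEnergy.trom_mem.2.1⟩
  · rw [mem_short]
    refine ⟨ConvexEnergy.trom_mem.1, ?_⟩
    intro a b hab
    have hcut : IsCut 4 ConvexEnergy.trom 1 := by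
      refine ⟨?_, ?_, ?_⟩
      · rw [trom_diag]; decide
      · rw [trom_diag]; decide
      · rw [trom_diag]; decide
    have h1 : ¬ (a ≤ 1 ∧ 1 ≤ b) := fun h => hab 1 h.1 h.2 hcut
    unfold onDiag
    simp only [hval]
    rcases not_and_or.1 h1 with h | h
    · have hsub : (Finset.univ.filter (fun k : Fin (2 * 4) =>
          a ≤ (![0, 1, 2, 3, 2, 3, 2, 1] : Fin (2 * 4) → ℤ) k ∧
          (![0, 1, 2, 3, 2, 3, 2, 1] : Fin (2 * 4) → ℤ) k ≤ b)) ⊆
          Finset.univ.filter (fun k : Fin (2 * 4) =>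
            2 ≤ (![0, 1, 2, 3, 2, 3, 2, 1] : Fin (2 * 4) → ℤ) k) := by
        intro k hk
        rw [Finset.mem_filter] at hk ⊢
        exact ⟨hk.1, by linarith [hk.2.1, not_le.1 h]⟩
      exact (Finset.card_le_card hsub).trans (by decide)
    · have hsub : (Finset.univ.filter (fun k : Fin (2 * 4) =>
          a ≤ (![0, 1, 2, 3, 2, 3, 2, 1] : Fin (2 * 4) → ℤ) k ∧
          (![0, 1, 2, 3, 2, 3, 2, 1] : Fin (2 * 4) → ℤ) k ≤ b)) ⊆
          Finset.univ.filter (fun k : Fin (2 * 4) =>
            (![0, 1, 2, 3, 2, 3, 2, 1] : Fin (2 * 4) → ℤ) k ≤ 0) := by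
        intro k hk
        rw [Finset.mem_filter] at hk ⊢
        exact ⟨hk.1, by linarith [hk.2.2, not_le.1 h]⟩
      exact (Finset.card_le_card hsub).trans (by decide)
  · rw [mem_short]
    rintro ⟨-, h⟩
    have h2 := h 2 3 (by
      intro g hg1 hg2 hcut
      have h3 : g = 2 ∨ g = 3 := by omega
      rcases h3 with rfl | rfl
      · have := hcut.1
        rw [trom_diag] at this
        revert this
        decide
      · have := hcut.2.2
        rw [trom_diag] at this
        revert this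
        decide)
    have h4 : onDiag 4 ConvexEnergy.trom 2 3 = 5 := by
      unfold onDiag
      simp only [hval]
      decide
    rw [h4] at h2
    omega

end Pool.Agent.VAC2.ShortRuns
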