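import Pool.Agent.RMT.DefsU

/-!
# MP_fa3f7f_ag: certificate of the vacuity audit (helper file, not a hand-in)

The canonical divisor of the projective line is not nef in the sense of `MMCX.Nef`: the definitions
of divisorial valuations, orders of forms, curves and degrees do not degenerate.
-/

set_option autoImplicit false

open MldX MMCI MMCX RMX

namespace Pool.Agent.VAC2.PL

noncomputable section

abbrev K : Type := RatFunc ℂ

/-! ### the derivation `d/dX` -/

theorem exists_der : ∃ D : Derivation ℂ K K, D RatFunc.X = 1 := by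
  let S := Polynomial ℂ
  let M := nonZeroDivisors S
  have hloc : IsLocalizedModule M (KaehlerDifferential.map ℂ ℂ S K) := inferInstance
  let f : Ω[S⁄ℂ] →ₗ[S] K := (Algebra.linearMap S K) ∘ₗ
    (KaehlerDifferential.polynomialEquiv ℂ).toLinearMap
  let g : Ω[K⁄ℂ] →ₗ[S] K := IsLocalizedModule.lift M (KaehlerDifferential.map ℂ ℂ S K) f
    (fun x => IsLocalizedModule.map_units (Algebra.linearMap S K) x)
  let g' : Ω[K⁄ℂ] →ₗ[K] K := g.extendScalarsOfIsLocalization M K
  refine ⟨g'.compDer (KaehlerDifferential.D ℂ K), ?_⟩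
  have h1 : g (KaehlerDifferential.map ℂ ℂ S K (KaehlerDifferential.D ℂ S Polynomial.X)) =
      f (KaehlerDifferential.D ℂ S Polynomial.X) := IsLocalizedModule.lift_apply _ _ _ _ _
  rw [KaehlerDifferential.map_D, RatFunc.algebraMap_X] at h1
  show g (KaehlerDifferential.D ℂ K RatFunc.X) = 1
  rw [h1]
  show algebraMap S K (KaehlerDifferential.polynomialEquiv ℂ (KaehlerDifferential.D ℂ S
    Polynomial.X)) = 1
  rw [KaehlerDifferential.polynomialEquiv_D, Polynomial.derivative_X, map_one]

/-! ### valuations -/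

/-- nonnegative order -/
def Ge0 (v : DivVal 1 K) (a : K) : Prop := a = 0 ∨ 0 ≤ v.ord a

theorem Ge0.add {v : DivVal 1 K} {a b : K} (ha : Ge0 v a) (hb : Ge0 v b) : Ge0 v (a + b) := by
  by_cases h : a + b = 0
  · exact Or.inl h
  rcases ha with rfl | ha
  · rw [zero_add]; exact hb
  rcases hb with rfl | hb
  · rw [add_zero]; exact Or.inr ha
  by_cases ha0 : a = 0
  · rw [ha0, zero_add]; exact Or.inr hb
  by_cases hb0 : b = 0
  · rw [hb0, add_zero]; exact Or.inr ha
  exact Or.inr ((le_min ha hb).trans (v.ord_add a b ha0 hb0 h))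

theorem Ge0.mul {v : DivVal 1 K} {a b : K} (ha : Ge0 v a) (hb : Ge0 v b) : Ge0 v (a * b) := by
  by_cases ha0 : a = 0
  · exact Or.inl (by rw [ha0, zero_mul])
  by_cases hb0 : b = 0
  · exact Or.inl (by rw [hb0, mul_zero])
  refine Or.inr ?_
  rw [v.ord_mul a b ha0 hb0]
  have h1 := ha.resolve_left ha0
  have h2 := hb.resolve_left hb0
  omega

theorem ge0_const (v : DivVal 1 K) (c : ℂ) : Ge0 v (algebraMap ℂ K c) :=
  Or.inr (v.ord_const c).ge

theorem ord_neg' (v : DivVal 1 K) (a : K) : v.ord (-a) = v.ord a := by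
  by_cases ha : a = 0
  · rw [ha, neg_zero]
  have h1 : (-a) = algebraMap ℂ K (-1) * a := by rw [map_neg, map_one]; ring
  have h2 : algebraMap ℂ K (-1) ≠ 0 := by rw [map_neg, map_one]; exact neg_ne_zero.2 one_ne_zero
  rw [h1, v.ord_mul _ _ h2 ha, v.ord_const, zero_add]

theorem Ge0.neg {v : DivVal 1 K} {a : K} (ha : Ge0 v a) : Ge0 v (-a) := by
  rcases ha with rfl | ha
  · exact Or.inl neg_zero
  · exact Or.inr (by rw [ord_neg']; exact ha)

theorem ge0_poly {v : DivVal 1 K} {z : K} (hz : Ge0 v z) (p : Polynomial ℂ) :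
    Ge0 v (Polynomial.aeval z p) := by
  induction p using Polynomial.induction_on with
  | C a => rw [Polynomial.aeval_C]; exact ge0_const v a
  | add p q hp hq => rw [map_add]; exact hp.add hq
  | monomial n a h =>
    rw [pow_succ, ← mul_assoc, map_mul, Polynomial.aeval_X]
    exact h.mul hz

/-- the order of a sum of a nonzero constant and a function of positive order is zero -/
theorem ord_const_add (v : DivVal 1 K) (c : ℂ) (hc : c ≠ 0) (a : K) (ha : a = 0 ∨ 0 < v.ord a) :
    algebraMap ℂ K c + a ≠ 0 ∧ v.ord (algebraMap ℂ K c + a) = 0 := by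
  have hc' : algebraMap ℂ K c ≠ 0 := by
    rw [Ne, map_eq_zero]; exact hc
  rcases ha with rfl | ha
  · rw [add_zero]; exact ⟨hc', v.ord_const c⟩
  have ha0 : a ≠ 0 := by
    rintro rfl
    rw [v.ord_zero] at ha
    omega
  have h0 : algebraMap ℂ K c + a ≠ 0 := by
    intro h
    have h1 : algebraMap ℂ K c = -a := by linear_combination h
    have h2 := v.ord_const c
    rw [h1, ord_neg'] at h2
    omega
  refine ⟨h0, le_antisymm ?_ ?_⟩
  · by_contra h
    push Not at h
    have e : algebraMap ℂ K c = (algebraMap ℂ K c + a) + (-a) := by ring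
    have h3 := v.ord_add (algebraMap ℂ K c + a) (-a) h0 (neg_ne_zero.2 ha0) (by rw [← e]; exact hc')
    rw [← e, v.ord_const, ord_neg'] at h3
    have := (lt_min h ha).trans_le h3
    omega
  · have h3 := v.ord_add _ _ hc' ha0 h0
    rw [v.ord_const] at h3
    have := (le_min le_rfl ha.le).trans h3
    exact this

/-- `z` generates `K`, and `D = d/dz`. -/
structure Coord (z : K) (D : Derivation ℂ K K) : Prop where
  ne : ∀ p : Polynomial ℂ, p ≠ 0 → Polynomial.aeval z p ≠ 0
  frac : ∀ a : K, ∃ p q : Polynomial ℂ, q ≠ 0 ∧ a * Polynomial.aeval z q = Polynomial.aeval z p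
  one : D z = 1

theorem Coord.der {z : K} {D : Derivation ℂ K K} (h : Coord z D) (p : Polynomial ℂ) :
    D (Polynomial.aeval z p) = Polynomial.aeval z (Polynomial.derivative p) := by
  rw [Derivation.map_aeval, h.one, smul_eq_mul, mul_one]

/-- There is a point `c` at which `z - c` has positive order. -/
theorem Coord.point {z : K} {D : Derivation ℂ K K} (h : Coord z D) (v : DivVal 1 K)
    (hz : Ge0 v z) : ∃ c : ℂ, 0 < v.ord (z - algebraMap ℂ K c) := by
  have key : ∀ (n : ℕ) (p : Polynomial ℂ), p.natDegree = n → p ≠ 0 →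
      0 < v.ord (Polynomial.aeval z p) → ∃ c : ℂ, 0 < v.ord (z - algebraMap ℂ K c) := by
    intro n
    induction n with
    | zero =>
      intro p hp _ h2
      rw [Polynomial.eq_C_of_natDegree_eq_zero hp, Polynomial.aeval_C, v.ord_const] at h2
      omega
    | succ n ih =>
      intro p hp hp0 h2
      obtain ⟨c, hc⟩ := IsAlgClosed.exists_root p (by
        intro hd
        rw [Polynomial.degree_eq_natDegree hp0, hp] at hd
        exact absurd hd (by exact_mod_cast Nat.succ_ne_zero n))
      obtain ⟨q, rfl⟩ := Polynomial.dvd_iff_isRoot.2 hc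
      have hq : q ≠ 0 := right_ne_zero_of_mul hp0
      have hn : q.natDegree = n := by
        rw [Polynomial.natDegree_mul (Polynomial.X_sub_C_ne_zero c) hq,
          Polynomial.natDegree_X_sub_C] at hp
        omega
      rw [map_mul, v.ord_mul _ _ (h.ne _ (Polynomial.X_sub_C_ne_zero c)) (h.ne _ hq), map_sub,
        Polynomial.aeval_X, Polynomial.aeval_C] at h2
      by_cases h3 : 0 < v.ord (z - algebraMap ℂ K c)
      · exact ⟨c, h3⟩
      · exact ih q hn hq (by omega)
  obtain ⟨t, ht, ht1⟩ := v.unif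
  obtain ⟨p, q, hq, hpq⟩ := h.frac t
  have hp : p ≠ 0 := by
    rintro rfl
    rw [map_zero] at hpq
    rcases mul_eq_zero.1 hpq with h1 | h1
    · exact ht h1
    · exact h.ne q hq h1
  refine key _ p rfl hp ?_
  rw [← hpq, v.ord_mul _ _ ht (h.ne q hq), ht1]
  have := (ge0_poly hz q).resolve_left (h.ne q hq)
  omega

/-- the polynomials which do not vanish at `c` are units at `c` -/
theorem Coord.unit {z : K} {D : Derivation ℂ K K} (h : Coord z D) (v : DivVal 1 K)
    (hz : Ge0 v z) (c : ℂ) (hc : 0 < v.ord (z - algebraMap ℂ K c)) (q : Polynomial ℂ) :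
    (Polynomial.aeval z (q - Polynomial.C (q.eval c)) = 0 ∨
      0 < v.ord (Polynomial.aeval z (q - Polynomial.C (q.eval c)))) ∧
    (q.eval c ≠ 0 → v.ord (Polynomial.aeval z q) = 0) := by
  have h1 : Polynomial.aeval z (q - Polynomial.C (q.eval c)) = 0 ∨
      0 < v.ord (Polynomial.aeval z (q - Polynomial.C (q.eval c))) := by
    obtain ⟨r, hr⟩ := Polynomial.X_sub_C_dvd_sub_C_eval (p := q) (a := c)
    rw [hr]
    by_cases h0 : r = 0
    · left; rw [h0, mul_zero, map_zero]
    right
    rw [map_mul, v.ord_mul _ _ (h.ne _ (Polynomial.X_sub_C_ne_zero c)) (h.ne _ h0), map_sub,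
      Polynomial.aeval_X, Polynomial.aeval_C]
    have := (ge0_poly hz r).resolve_left (h.ne r h0)
    omega
  refine ⟨h1, fun hq => ?_⟩
  have := (ord_const_add v _ hq _ h1).2
  rwa [map_sub, Polynomial.aeval_C, add_sub_cancel] at this

/-- `d/dz` preserves the valuation ring. -/
theorem Coord.preserve {z : K} {D : Derivation ℂ K K} (h : Coord z D) (v : DivVal 1 K)
    (hz : Ge0 v z) (a : K) (ha : Ge0 v a) : Ge0 v (D a) := by
  obtain ⟨c, hc⟩ := h.point v hz
  have key : ∀ (n : ℕ) (p q : Polynomial ℂ), q.natDegree = n → q ≠ 0 →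
      a * Polynomial.aeval z q = Polynomial.aeval z p →
      ∃ p q : Polynomial ℂ, q.eval c ≠ 0 ∧ a * Polynomial.aeval z q = Polynomial.aeval z p := by
    intro n
    induction n using Nat.strong_induction_on with
    | _ n ih =>
      intro p q hn hq hpq
      by_cases h1 : q.eval c = 0
      · obtain ⟨q1, rfl⟩ := Polynomial.dvd_iff_isRoot.2 h1
        have hq1 : q1 ≠ 0 := right_ne_zero_of_mul hq
        have hX := h.ne _ (Polynomial.X_sub_C_ne_zero c)
        have hp : p.eval c = 0 := by
          by_contra hp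
          have h2 := (h.unit v hz c hc p).2 hp
          have hp0 : Polynomial.aeval z p ≠ 0 := h.ne p (by rintro rfl; simp at hp)
          have ha0 : a ≠ 0 := by
            rintro rfl
            rw [zero_mul] at hpq
            exact hp0 hpq.symm
          rw [← hpq, v.ord_mul _ _ ha0 (h.ne _ hq), map_mul, v.ord_mul _ _ hX (h.ne _ hq1),
            map_sub, Polynomial.aeval_X, Polynomial.aeval_C] at h2
          have h3 := ha.resolve_left ha0
          have h4 := (ge0_poly hz q1).resolve_left (h.ne _ hq1)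
          omega
        obtain ⟨p1, rfl⟩ := Polynomial.dvd_iff_isRoot.2 hp
        refine ih q1.natDegree ?_ p1 q1 rfl hq1 ?_
        · rw [← hn, Polynomial.natDegree_mul (Polynomial.X_sub_C_ne_zero c) hq1,
            Polynomial.natDegree_X_sub_C]
          omega
        · rw [map_mul, map_mul] at hpq
          refine mul_left_cancel₀ hX ?_
          linear_combination hpq
      · exact ⟨p, q, h1, hpq⟩
  obtain ⟨p0, q0, hq0, hpq0⟩ := h.frac a
  obtain ⟨p, q, hq, hpq⟩ := key _ p0 q0 rfl hq0 hpq0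
  have hq' : q ≠ 0 := by rintro rfl; simp at hq
  have hqo := (h.unit v hz c hc q).2 hq
  have hqn := h.ne q hq'
  -- `q (D a) = D p - a D q`
  have h1 : Polynomial.aeval z q * D a = Polynomial.aeval z (Polynomial.derivative p) +
      -(a * Polynomial.aeval z (Polynomial.derivative q)) := by
    have := congrArg D hpq
    rw [Derivation.leibniz, h.der, h.der, smul_eq_mul, smul_eq_mul] at this
    linear_combination this
  have h2 : Ge0 v (Polynomial.aeval z q * D a) := by
    rw [h1]
    exact (ge0_poly hz _).add (ha.mul (ge0_poly hz _)).neg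
  by_cases h3 : D a = 0
  · exact Or.inl h3
  refine Or.inr ?_
  have h4 := h2.resolve_left (mul_ne_zero hqn h3)
  rw [v.ord_mul _ _ hqn h3, hqo, zero_add] at h4
  exact h4

/-- The order of the form `g dz` is the order of `g`. -/
theorem Coord.formOrd {z : K} {D : Derivation ℂ K K} (h : Coord z D) (v : DivVal 1 K)
    (hz : Ge0 v z) (ω : Forms 1 K) (g : K) (hg : g ≠ 0) (hω : ∀ E, ω E = g * E 0 z) :
    v.formOrd ω = v.ord g := by
  have hz0 : z ≠ 0 := by
    have := h.ne Polynomial.X Polynomial.X_ne_zero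
    rwa [Polynomial.aeval_X] at this
  refine IsGreatest.csSup_eq ⟨⟨g, hg, rfl, dform 1 (fun _ => z), ?_, fun E => ?_⟩, ?_⟩
  · exact AddSubgroup.subset_closure ⟨1, fun _ => z, by
      have := v.ord_const 1
      rw [map_one] at this
      exact this.ge, fun _ => hz.resolve_left hz0, rfl⟩
  · rw [hω, dform]
    simp [Matrix.det_unique]
  · rintro k ⟨g', hg', rfl, η, hη, h1⟩
    have h2 : Ge0 v (η fun _ => D) := by
      refine AddSubgroup.closure_induction (p := fun η _ => Ge0 v (η fun _ => D)) ?_ ?_ ?_ ?_ hη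
      · rintro _ ⟨g1, a, hg1, ha, rfl⟩
        rw [dform]
        simp only [Matrix.det_unique]
        exact Ge0.mul (Or.inr hg1) (h.preserve v hz _ (Or.inr (ha _)))
      · exact Or.inl rfl
      · intro x y _ _ hx hy
        exact hx.add hy
      · intro x _ hx
        exact hx.neg
    have h3 := h1 fun _ => D
    rw [hω, h.one, mul_one] at h3
    have h4 : η (fun _ => D) ≠ 0 := by
      intro h5
      rw [h5, mul_zero] at h3
      exact hg h3
    rw [h3, v.ord_mul _ _ hg' h4]
    have := h2.resolve_left h4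
    omega

/-! ### the coordinates `X` and `1/X` -/

theorem aeval_X_eq (p : Polynomial ℂ) :
    Polynomial.aeval (RatFunc.X : K) p = algebraMap (Polynomial ℂ) K p := by
  rw [← RatFunc.algebraMap_X, Polynomial.aeval_algebraMap_apply, Polynomial.aeval_X_left_apply]

theorem coordX (D : Derivation ℂ K K) (hD : D RatFunc.X = 1) : Coord RatFunc.X D where
  ne p hp := by
    rw [aeval_X_eq]
    exact RatFunc.algebraMap_ne_zero hp
  frac a := by
    obtain ⟨p, q, hq, h⟩ := IsFractionRing.div_surjective (A := Polynomial ℂ) a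
    have hq' : q ≠ 0 := nonZeroDivisors.ne_zero hq
    refine ⟨p, q, hq', ?_⟩
    rw [aeval_X_eq, aeval_X_eq, ← h, div_mul_cancel₀ _ (RatFunc.algebraMap_ne_zero hq')]
  one := hD

theorem clear (P : Polynomial ℂ) : ∃ (n : ℕ) (r : Polynomial ℂ),
    Polynomial.aeval (RatFunc.X : K) P * (RatFunc.X⁻¹) ^ n =
      Polynomial.aeval (RatFunc.X⁻¹ : K) r := by
  induction P using Polynomial.induction_on with
  | C a => exact ⟨0, Polynomial.C a, by rw [pow_zero, mul_one, Polynomial.aeval_C,
      Polynomial.aeval_C]⟩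
  | add p q hp hq =>
    obtain ⟨n, r, h1⟩ := hp
    obtain ⟨m, s, h2⟩ := hq
    refine ⟨n + m, r * Polynomial.X ^ m + s * Polynomial.X ^ n, ?_⟩
    rw [map_add, map_add, map_mul, map_mul, map_pow, map_pow, Polynomial.aeval_X, ← h1, ← h2]
    ring
  | monomial n a h =>
    obtain ⟨m, r, h1⟩ := h
    refine ⟨m + 1, r, ?_⟩
    have hX := RatFunc.X_ne_zero (K := ℂ)
    have e : Polynomial.aeval (RatFunc.X : K) (Polynomial.C a * Polynomial.X ^ (n + 1)) =
        Polynomial.aeval (RatFunc.X : K) (Polynomial.C a * Polynomial.X ^ n) * RatFunc.X := by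
      rw [pow_succ, ← mul_assoc, map_mul, Polynomial.aeval_X]
    rw [← h1, e, pow_succ]
    linear_combination (Polynomial.aeval (RatFunc.X : K) (Polynomial.C a * Polynomial.X ^ n) *
      (RatFunc.X⁻¹ : K) ^ m) * mul_inv_cancel₀ hX

theorem coordInv (D : Derivation ℂ K K) (hD : D RatFunc.X = 1) :
    Coord (RatFunc.X⁻¹) (-(RatFunc.X ^ 2 : K) • D) where
  ne p hp h := by
    have h1 : IsAlgebraic ℂ (RatFunc.X⁻¹ : K) := ⟨p, hp, h⟩
    have h2 := h1.inv
    rw [inv_inv] at h2
    exact RatFunc.transcendental_X h2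
  frac a := by
    obtain ⟨p, q, hq, h⟩ := (coordX D hD).frac a
    obtain ⟨n, r, h1⟩ := clear p
    obtain ⟨m, s, h2⟩ := clear q
    have hX := RatFunc.X_ne_zero (K := ℂ)
    refine ⟨r * Polynomial.X ^ m, s * Polynomial.X ^ n, ?_, ?_⟩
    · intro h3
      have h4 := congrArg (Polynomial.aeval (RatFunc.X⁻¹ : K)) h3
      rw [map_zero, map_mul, map_pow, Polynomial.aeval_X, ← h2] at h4
      have h5 := (coordX D hD).ne q hq
      have h6 : (RatFunc.X⁻¹ : K) ≠ 0 := inv_ne_zero hX
      exact mul_ne_zero (mul_ne_zero h5 (pow_ne_zero m h6)) (pow_ne_zero n h6) h4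
    · rw [map_mul, map_mul, map_pow, map_pow, Polynomial.aeval_X, ← h1, ← h2]
      linear_combination (RatFunc.X⁻¹ : K) ^ n * (RatFunc.X⁻¹ : K) ^ m * h
  one := by
    have hX := RatFunc.X_ne_zero (K := ℂ)
    rw [Derivation.smul_apply, Derivation.leibniz_inv, hD]
    simp only [smul_eq_mul]
    field_simp

/-! ### the projective line -/

/-- the projective line -/
def P1 : ProjModel K where
  N := 1
  s := ![1, RatFunc.X]
  ne := by
    intro i
    fin_cases i
    · exact one_ne_zero
    · exact RatFunc.X_ne_zero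
  gen := by
    rw [eq_top_iff, ← RatFunc.adjoin_X]
    refine IntermediateField.adjoin.mono _ _ _ ?_
    rintro _ rfl
    exact ⟨1, div_one _⟩

/-- the coordinate of the chart -/
def zc (j : Fin 2) : K := if j = 0 then RatFunc.X else RatFunc.X⁻¹

theorem zc_mem (j : Fin (P1.N + 1)) : zc j ∈ P1.ring j := by
  match j with
  | 0 =>
    refine Algebra.subset_adjoin ⟨1, ?_⟩
    show (RatFunc.X : K) / 1 = _
    rw [div_one]; rfl
  | 1 =>
    refine Algebra.subset_adjoin ⟨0, ?_⟩
    show (1 : K) / RatFunc.X = _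
    rw [one_div]; rfl

theorem ring_poly (j : Fin (P1.N + 1)) (a : K) (ha : a ∈ P1.ring j) :
    ∃ p : Polynomial ℂ, a = Polynomial.aeval (zc j) p := by
  have h1 : P1.ring j ≤ (Polynomial.aeval (zc j) : Polynomial ℂ →ₐ[ℂ] K).range := by
    refine Algebra.adjoin_le ?_
    rintro _ ⟨i, rfl⟩
    have hX := RatFunc.X_ne_zero (K := ℂ)
    match j, i with
    | 0, 0 => exact ⟨1, by rw [map_one]; exact (div_one _).symm⟩
    | 0, 1 => exact ⟨Polynomial.X, (Polynomial.aeval_X _).trans (div_one _).symm⟩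
    | 1, 0 => exact ⟨Polynomial.X, (Polynomial.aeval_X _).trans (one_div _).symm⟩
    | 1, 1 => exact ⟨1, by rw [map_one]; exact (div_self hX).symm⟩
  obtain ⟨p, hp⟩ := h1 ha
  exact ⟨p, hp.symm⟩

theorem poly_mem (j : Fin (P1.N + 1)) (p : Polynomial ℂ) :
    Polynomial.aeval (zc j) p ∈ P1.ring j := by
  have := (Polynomial.aeval (⟨zc j, zc_mem j⟩ : P1.ring j) p).2
  rwa [← Subalgebra.aeval_coe] at this

theorem coordC (D : Derivation ℂ K K) (hD : D RatFunc.X = 1) (j : Fin (P1.N + 1)) :
    ∃ E, Coord (zc j) E := by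
  match j with
  | 0 => exact ⟨D, coordX D hD⟩
  | 1 => exact ⟨_, coordInv D hD⟩

/-- the identity of the projective line, as a curve -/
def idc : CurveMap P1 where
  L := K
  fieldL := inferInstance
  algL := inferInstance
  trdeg := by
    have h1 : Algebra.trdeg ℂ (Polynomial ℂ) = 1 := Polynomial.trdeg_of_isDomain
    have h2 := trdeg_add_eq (R := ℂ) (S := Polynomial ℂ) (A := RatFunc ℂ)
    have : Algebra.IsAlgebraic (Polynomial ℂ) (RatFunc ℂ) :=
      IsLocalization.isAlgebraic _ (nonZeroDivisors (Polynomial ℂ))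
    have h3 : Algebra.trdeg (Polynomial ℂ) (RatFunc ℂ) = 0 := trdeg_eq_zero
    rw [h1, h3, add_zero] at h2
    exact h2.symm
  fg := ⟨{RatFunc.X}, by rw [Finset.coe_singleton]; exact RatFunc.adjoin_X⟩
  i := 0
  φ := (P1.ring 0).val
  nonconst := by
    refine ⟨⟨zc 0, zc_mem 0⟩, ?_⟩
    rintro ⟨c, hc⟩
    refine RatFunc.transcendental_X (K := ℂ) ?_
    have h1 : algebraMap ℂ K c = RatFunc.X := hc
    rw [← h1]
    exact isAlgebraic_algebraMap c

theorem restr (z : K) : idc.Restr z z := by
  obtain ⟨D, hD⟩ := exists_der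
  obtain ⟨p, q, hq, h⟩ := (coordX D hD).frac z
  refine ⟨⟨_, poly_mem 0 p⟩, ⟨_, poly_mem 0 q⟩, ?_, ?_, ?_⟩
  · exact (coordX D hD).ne q hq
  · exact h
  · exact h

/-- the maximal ideal of a valuation -/
def ctr (j : Fin (P1.N + 1)) (w : DivVal 1 K) (hw : Ge0 w (zc j)) : Ideal (P1.ring j) where
  carrier := {a | (a : K) = 0 ∨ 0 < w.ord a}
  zero_mem' := Or.inl rfl
  add_mem' := by
    rintro a b ha hb
    by_cases h : ((a + b : P1.ring j) : K) = 0
    · exact Or.inl h
    by_cases ha0 : (a : K) = 0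
    · have : ((a + b : P1.ring j) : K) = b := by
        show (a : K) + (b : K) = b
        rw [ha0, zero_add]
      show ((a + b : P1.ring j) : K) = 0 ∨ 0 < w.ord ((a + b : P1.ring j) : K)
      rw [this]; exact hb
    by_cases hb0 : (b : K) = 0
    · have : ((a + b : P1.ring j) : K) = a := by
        show (a : K) + (b : K) = a
        rw [hb0, add_zero]
      show ((a + b : P1.ring j) : K) = 0 ∨ 0 < w.ord ((a + b : P1.ring j) : K)
      rw [this]; exact ha
    refine Or.inr ?_
    have h1 := w.ord_add (a : K) (b : K) ha0 hb0 h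
    exact (lt_min (ha.resolve_left ha0) (hb.resolve_left hb0)).trans_le h1
  smul_mem' := by
    rintro c a ha
    show ((c * a : P1.ring j) : K) = 0 ∨ 0 < w.ord ((c * a : P1.ring j) : K)
    by_cases hc : (c : K) = 0
    · left
      show (c : K) * (a : K) = 0
      rw [hc, zero_mul]
    by_cases ha0 : (a : K) = 0
    · left
      show (c : K) * (a : K) = 0
      rw [ha0, mul_zero]
    right
    show 0 < w.ord ((c : K) * (a : K))
    rw [w.ord_mul _ _ hc ha0]
    obtain ⟨p, hp⟩ := ring_poly j c c.2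
    have h1 := (ge0_poly hw p)
    rw [← hp] at h1
    have h2 := h1.resolve_left hc
    have h3 := ha.resolve_left ha0
    omega

theorem ctr_max (j : Fin (P1.N + 1)) (w : DivVal 1 K) (hw : Ge0 w (zc j)) :
    (ctr j w hw).IsMaximal := by
  obtain ⟨D, hD⟩ := exists_der
  obtain ⟨E, hE⟩ := coordC D hD j
  obtain ⟨c, hc⟩ := hE.point w hw
  refine Ideal.isMaximal_def.2 ⟨?_, fun J hJ => ?_⟩
  · intro h
    have h1 : (1 : P1.ring j) ∈ ctr j w hw := by rw [h]; trivial
    rcases h1 with h2 | h2
    · exact one_ne_zero h2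
    · have := w.ord_const 1
      rw [map_one] at this
      have h3 : 0 < w.ord (1 : K) := h2
      omega
  · obtain ⟨hle, a, haJ, ha⟩ := SetLike.lt_iff_le_and_exists.1 hJ
    obtain ⟨p, hp⟩ := ring_poly j a a.2
    have h1 := (hE.unit w hw c hc p).1
    have hp0 : p.eval c ≠ 0 := by
      intro h0
      rw [h0, Polynomial.C_0, sub_zero, ← hp] at h1
      exact ha h1
    have h2 : a - algebraMap ℂ (P1.ring j) (p.eval c) ∈ ctr j w hw := by
      have e : ((a - algebraMap ℂ (P1.ring j) (p.eval c) : P1.ring j) : K) =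
          Polynomial.aeval (zc j) (p - Polynomial.C (p.eval c)) := by
        rw [map_sub, Polynomial.aeval_C, ← hp]
        rfl
      show ((a - algebraMap ℂ (P1.ring j) (p.eval c) : P1.ring j) : K) = 0 ∨ 0 < w.ord _
      rw [e]
      exact h1
    have h3 : algebraMap ℂ (P1.ring j) (p.eval c) ∈ J := by
      have := J.sub_mem haJ (hle h2)
      rwa [sub_sub_cancel] at this
    refine Ideal.eq_top_of_isUnit_mem _ h3 ?_
    exact (IsUnit.mk0 _ hp0).map (algebraMap ℂ (P1.ring j))

theorem mapsTo (j : Fin (P1.N + 1)) (w : DivVal 1 K) (hw : Ge0 w (zc j)) :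
    MapsTo idc w j (ctr j w hw) := by
  refine ⟨ctr_max j w hw, fun a => ⟨(a : K), restr _, ?_, Iff.rfl⟩⟩
  obtain ⟨p, hp⟩ := ring_poly j a a.2
  rw [hp]
  exact ge0_poly hw p

/-- the form `dX` -/
def om : Forms 1 K := dform 1 fun _ => RatFunc.X

theorem om_apply (E : Fin 1 → Derivation ℂ K K) : om E = E 0 RatFunc.X := by
  simp [om, dform, Matrix.det_unique]

theorem om_form : IsForm om := by
  refine ⟨?_, 1, fun _ => RatFunc.X, rfl⟩
  intro h
  obtain ⟨D, hD⟩ := exists_der
  have h1 := congrFun h fun _ => D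
  rw [om_apply, hD] at h1
  exact one_ne_zero h1

/-- the equation of the canonical divisor in the chart `j` -/
def eqn (j : Fin (P1.N + 1)) : K := if j = 0 then 1 else RatFunc.X ^ 2

theorem isEquation (j : Fin (P1.N + 1)) (m : Ideal (P1.ring j)) :
    IsEquation (P1.ring j) om 1 m (eqn j) := by
  intro v P hP _
  obtain ⟨D, hD⟩ := exists_der
  have hX := RatFunc.X_ne_zero (K := ℂ)
  have hz : Ge0 v (zc j) := Or.inr (hP.1.2.1 ⟨zc j, zc_mem j⟩)
  rw [Nat.cast_one, one_mul]
  match j with
  | 0 =>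
    rw [(coordX D hD).formOrd v hz om 1 one_ne_zero fun E => by rw [om_apply, one_mul]]
    rfl
  | 1 =>
    rw [(coordInv D hD).formOrd v hz om (-(RatFunc.X ^ 2)) (neg_ne_zero.2 (pow_ne_zero 2 hX))
      fun E => ?_]
    · rw [ord_neg']
      rfl
    · rw [om_apply, Derivation.leibniz_inv, smul_eq_mul]
      field_simp

/-- the order at infinity -/
def winf : DivVal 1 K where
  ord a := -a.intDegree
  ord_zero := by rw [RatFunc.intDegree_zero, neg_zero]
  ord_mul a b ha hb := by rw [RatFunc.intDegree_mul ha hb, neg_add]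
  ord_add a b ha hb hab := by
    have := RatFunc.intDegree_add_le hb hab
    omega
  ord_const c := by
    have : algebraMap ℂ K c = RatFunc.C c := rfl
    rw [this, RatFunc.intDegree_C, neg_zero]
  unif := ⟨RatFunc.X⁻¹, inv_ne_zero RatFunc.X_ne_zero, by
    rw [RatFunc.intDegree_inv, RatFunc.intDegree_X, neg_neg]⟩
  res := by
    refine ⟨fun i => i.elim0, fun p hp => ?_⟩
    haveI : IsEmpty (Fin (1 - 1)) := inferInstanceAs (IsEmpty (Fin 0))
    obtain ⟨c, rfl⟩ := MvPolynomial.C_surjective (Fin (1 - 1)) p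
    have hc : c ≠ 0 := by rintro rfl; simp at hp
    rw [MvPolynomial.aeval_C]
    have : algebraMap ℂ K c = RatFunc.C c := rfl
    rw [this, RatFunc.intDegree_C, neg_zero]
    exact ⟨by rw [Ne, map_eq_zero]; exact hc, rfl⟩

/-- The canonical divisor of the projective line is not nef. -/
theorem P1_not_nef : ¬ Nef 1 P1 := by
  classical
  intro h
  have hX := RatFunc.X_ne_zero (K := ℂ)
  let ch : DivVal 1 K → Fin (P1.N + 1) := fun w => if 0 ≤ w.ord RatFunc.X then 0 else 1
  have hch : ∀ w : DivVal 1 K, Ge0 w (zc (ch w)) := by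
    intro w
    by_cases hw : 0 ≤ w.ord RatFunc.X
    · have : ch w = 0 := if_pos hw
      rw [this]
      exact Or.inr hw
    · have : ch w = 1 := if_neg hw
      rw [this]
      refine Or.inr ?_
      show 0 ≤ w.ord (RatFunc.X⁻¹)
      have h1 := w.ord_mul RatFunc.X RatFunc.X⁻¹ hX (inv_ne_zero hX)
      rw [mul_inv_cancel₀ hX] at h1
      have h2 := w.ord_const 1
      rw [map_one] at h2
      omega
  have h1 := h om om_form idc 1 1 (fun w => eqn (ch w)) (fun w => eqn (ch w)) one_pos
    { h_ne := one_ne_zero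
      u_ne := fun w => by
        show eqn (ch w) ≠ 0
        unfold eqn
        split_ifs
        · exact one_ne_zero
        · exact pow_ne_zero 2 hX
      restr := fun w => by
        rw [div_one]
        exact restr _
      eqn := fun w => ⟨ch w, ctr (ch w) w (hch w), mapsTo _ w (hch w), isEquation _ _⟩ }
  obtain ⟨hfin, hsum⟩ := h1
  have hneg : ∀ w : DivVal 1 K, w.ord (eqn (ch w)) ≤ 0 := by
    intro w
    by_cases hw : 0 ≤ w.ord RatFunc.X
    · have : ch w = 0 := if_pos hw
      rw [this]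
      have h2 := w.ord_const 1
      rw [map_one] at h2
      exact h2.le
    · have : ch w = 1 := if_neg hw
      rw [this]
      show w.ord (RatFunc.X ^ 2) ≤ 0
      rw [sq, w.ord_mul _ _ hX hX]
      omega
  have hw : winf.ord (eqn (ch winf)) < 0 := by
    have h0 : winf.ord RatFunc.X = -1 := by
      show -RatFunc.intDegree RatFunc.X = -1
      rw [RatFunc.intDegree_X]
    have : ch winf = 1 := if_neg (by omega)
    rw [this]
    show winf.ord (RatFunc.X ^ 2) < 0
    rw [sq, winf.ord_mul _ _ hX hX]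
    omega
  have hfin' : {w : DivVal 1 K | w.ord (eqn (ch w)) ≠ 0}.Finite := hfin
  have hsum' : ∑ᶠ w : DivVal 1 K, w.ord (eqn (ch w)) < 0 := by
    rw [finsum_eq_sum_of_support_subset (s := hfin'.toFinset) _ (by
      intro w hw
      exact (Set.Finite.mem_toFinset hfin').2 hw)]
    refine Finset.sum_neg' (fun w _ => hneg w) ⟨winf, ?_, hw⟩
    exact (Set.Finite.mem_toFinset hfin').2 hw.ne
  exact absurd hsum (not_le.2 hsum')

end

end Pool.Agent.VAC2.PL
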