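import Pool.Agent.RMT.DefsU

/-!
# MP_fa3f7f_ag RelativeMinimalModels: certificate of the vacuity audit (helper file, not a hand-in)
-/

set_option autoImplicit false

open MldX MMCI MMCX RMX

namespace Pool.Agent.VAC2.RMMC

noncomputable section

/-- the point -/
def pt : ProjModel ℂ where
  N := 0
  s := fun _ => 1
  ne := fun _ => one_ne_zero
  gen := by
    refine eq_top_iff.2 fun x _ => ?_
    exact IntermediateField.algebraMap_mem _ x

theorem no_val (n : ℕ) (v : DivVal n ℂ) : False := by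
  obtain ⟨t, _, h⟩ := v.unif
  have := v.ord_const t
  have e : algebraMap ℂ ℂ t = t := rfl
  rw [e, h] at this
  omega

theorem pt_terminal : Terminal 0 pt := by
  intro i
  refine ⟨fun a _ => ?_, fun ω _ m _ => ⟨1, 1, one_pos, one_ne_zero, ?_, ?_⟩⟩
  · exact Subalgebra.algebraMap_mem _ a
  · intro v; exact (no_val _ v).elim
  · intro v; exact (no_val _ v).elim

theorem no_curve (γ : CurveMap pt) : False := by
  obtain ⟨a, h⟩ := γ.nonconst
  apply h
  refine ⟨(a : ℂ), ?_⟩
  rw [← γ.φ.commutes]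
  congr 1

/-- the exponents of `1 + x + y` -/
def S3 : Finset (Fin 2 → ℤ) := {0, ![1, 0], ![0, 1]}

/-- the sum of the monomials with exponents in `T` -/
def sm (R : Type) [CommRing R] (T : Finset (Fin 2 → ℤ)) : LaurentR R 2 :=
  ∑ a ∈ T, AddMonoidAlgebra.single a 1

theorem sm_coeff (R : Type) [CommRing R] (T : Finset (Fin 2 → ℤ)) (a : Fin 2 → ℤ) :
    (sm R T).coeff a = if a ∈ T then 1 else 0 := by
  simp [sm, Finsupp.finset_sum_apply, Finsupp.single_apply]

theorem init_sm (R : Type) [CommRing R] (T : Finset (Fin 2 → ℤ)) (ν : Fin 2 → ℤ) :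
    initFormR (sm R T) ν = sm R (T.filter fun m => pair ν m = minOnR (sm R T) ν) := by
  ext a
  rw [sm_coeff]
  simp only [initFormR, Finsupp.filter_apply, sm_coeff, Finset.mem_filter,
    AddMonoidAlgebra.coeff_ofCoeff]
  split_ifs <;> simp_all

theorem derR_coeff {R : Type} [CommRing R] (k : Fin 2) (h : LaurentR R 2) (a : Fin 2 → ℤ) :
    (derR k h).coeff a = (a k : R) * h.coeff a := by
  unfold derR
  rw [AddMonoidAlgebra.coeff_finsuppSum, Finsupp.sum, Finsupp.finset_sum_apply]
  simp only [AddMonoidAlgebra.coeff_single, Finsupp.single_apply]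
  rw [Finset.sum_ite_eq' h.coeff.support a fun m => (m k : R) * h.coeff m]
  by_cases ha : h.coeff a = 0
  · simp [ha]
  · rw [if_pos (Finsupp.mem_support_iff.2 ha)]

/-- If `T` contains an exponent which is not zero then a derivative is a monomial. -/
theorem der_sm (R : Type) [CommRing R] (T : Finset (Fin 2 → ℤ)) (hT : T ⊆ S3) (hne : T.Nonempty) :
    (∃ k, ∃ a, derR k (sm R T) = AddMonoidAlgebra.single a 1) ∨ sm R T = 1 := by
  by_cases h1 : ![1, 0] ∈ T
  · refine Or.inl ⟨0, ![1, 0], ?_⟩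
    ext a
    rw [derR_coeff, sm_coeff, AddMonoidAlgebra.coeff_single, Finsupp.single_apply]
    by_cases ha : a ∈ T
    · have := hT ha
      rw [if_pos ha]
      simp only [S3, Finset.mem_insert, Finset.mem_singleton] at this
      rcases this with rfl | rfl | rfl
      · rw [if_neg (by decide)]; simp
      · simp
      · rw [if_neg (by decide)]; simp
    · rw [if_neg ha, if_neg (fun h => ha (by rw [← h]; exact h1)), mul_zero]
  by_cases h2 : ![0, 1] ∈ T
  · refine Or.inl ⟨1, ![0, 1], ?_⟩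
    ext a
    rw [derR_coeff, sm_coeff, AddMonoidAlgebra.coeff_single, Finsupp.single_apply]
    by_cases ha : a ∈ T
    · have := hT ha
      rw [if_pos ha]
      simp only [S3, Finset.mem_insert, Finset.mem_singleton] at this
      rcases this with rfl | rfl | rfl
      · rw [if_neg (by decide)]; simp
      · rw [if_neg (by decide)]; simp
      · simp
    · rw [if_neg ha, if_neg (fun h => ha (by rw [← h]; exact h2)), mul_zero]
  · right
    have hT0 : T = {0} := by
      refine Finset.eq_singleton_iff_nonempty_unique_mem.2 ⟨hne, fun a ha => ?_⟩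
      have := hT ha
      simp only [S3, Finset.mem_insert, Finset.mem_singleton] at this
      rcases this with rfl | rfl | rfl
      · rfl
      · exact absurd ha h1
      · exact absurd ha h2
    rw [hT0, sm, Finset.sum_singleton]
    rfl

theorem unit_single {R : Type} [CommRing R] (a : Fin 2 → ℤ) :
    IsUnit (AddMonoidAlgebra.single a 1 : LaurentR R 2) := by
  refine IsUnit.of_mul_eq_one (AddMonoidAlgebra.single (-a) 1) ?_
  rw [AddMonoidAlgebra.single_mul_single, add_neg_cancel, one_mul]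
  rfl

theorem regular {R : Type} [CommRing R] [Algebra ℂ R] (b : ℕ) (m : Ideal R)
    (T : Finset (Fin 2 → ℤ)) (hT : T ⊆ S3) (hne : T.Nonempty) :
    RegularOver b (fun _ : Fin 1 => sm R T) m := by
  intro M hM _ hg
  right
  intro t ht
  rcases der_sm R T hT hne with ⟨k, a, h⟩ | h
  · have h1 := ht k
    simp only [Finset.univ_unique, Finset.sum_singleton, h] at h1
    funext i
    have hi : i = default := Subsingleton.elim _ _
    by_contra hti
    rw [hi] at hti
    apply hM.ne_top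
    have h2 : (algebraMap ℂ (LaurentR R 2) (t default)⁻¹) *
        (t default • (AddMonoidAlgebra.single a 1 : LaurentR R 2)) ∈ M := M.mul_mem_left _ h1
    rw [Algebra.smul_def, ← mul_assoc, ← map_mul, inv_mul_cancel₀ hti, map_one, one_mul] at h2
    exact Ideal.eq_top_of_isUnit_mem _ h2 (unit_single a)
  · exfalso
    apply hM.ne_top
    have := hg 0
    rw [h] at this
    exact (Ideal.eq_top_iff_one _).2 this

theorem min_mem (R : Type) [CommRing R] [Nontrivial R] (ν : Fin 2 → ℤ) :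
    (S3.filter fun m => pair ν m = minOnR (sm R S3) ν).Nonempty := by
  have hs : ((sm R S3).coeff.support : Set (Fin 2 → ℤ)) = S3 := by
    ext a
    simp [sm_coeff]
  have h1 : minOnR (sm R S3) ν ∈ (fun m => pair ν m) '' ((sm R S3).coeff.support : Set _) := by
    refine Int.csInf_mem ?_ ?_
    · rw [hs]; exact ⟨_, 0, by simp [S3], rfl⟩
    · exact (Set.Finite.image _ (Finset.finite_toSet _)).bddBelow
  obtain ⟨a, ha, h⟩ := h1
  rw [hs] at ha
  exact ⟨a, Finset.mem_filter.2 ⟨ha, h⟩⟩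

/-- the line `1 + x + y = 0` in the torus -/
def fl (_ : Fin 1) : LaurentR ℂ 2 := sm ℂ S3

/-- its generic point -/
def xl : Fin 2 → RatFunc ℂ := ![RatFunc.X, -1 - RatFunc.X]

/-- the trivial torus bundle over the point -/
def tl (_ : Fin (pt.N + 1)) (_ : Fin 2) : ℂ := 1

theorem polyT_one (h : LaurentR ℂ 2) : polyT (fun _ : Fin 2 => (1 : ℂ)) h = h := by
  unfold polyT
  have h1 : ∀ a, mon (fun _ : Fin 2 => (1 : ℂ)) a = 1 := by
    intro a; simp [mon]
  simp only [h1, mul_one]
  ext a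
  rw [AddMonoidAlgebra.coeff_finsuppSum, Finsupp.sum, Finsupp.finset_sum_apply]
  simp only [AddMonoidAlgebra.coeff_single, Finsupp.single_apply]
  rw [Finset.sum_ite_eq' h.coeff.support a fun m => h.coeff m]
  by_cases ha : h.coeff a = 0
  · simp [ha]
  · rw [if_pos (Finsupp.mem_support_iff.2 ha)]

theorem loc (j : Fin (pt.N + 1)) (m : Ideal (pt.ring j)) (hm : m.IsMaximal) :
    IsLocEq (fun i => polyT (tl j) (fl i)) m fun _ => sm (pt.ring j) S3 := by
  intro i
  refine ⟨⟨1, one_ne_zero, fun a => ?_⟩, 0, ?_⟩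
  · show (polyT (fun _ : Fin 2 => (1 : ℂ)) (sm ℂ S3)).coeff a = _
    rw [polyT_one, sm_coeff, sm_coeff]
    split_ifs <;> simp
  · rw [sm_coeff, if_pos (by decide)]
    exact fun h => hm.ne_top ((Ideal.eq_top_iff_one _).2 h)

theorem nondeg (ν : Fin 2 → ℤ) (j : Fin (pt.N + 1)) (m : Ideal (pt.ring j)) (hm : m.IsMaximal) :
    NondegenerateR 0 pt (fun i => polyT (tl j) (fl i)) ν j m := by
  refine ⟨_, loc j m hm, ?_⟩
  have h := init_sm (pt.ring j) S3 ν
  have h2 : (fun i : Fin 1 => initFormR ((fun _ : Fin 1 => sm (pt.ring j) S3) i) ν) =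
      fun _ => sm (pt.ring j) (S3.filter fun m => pair ν m = minOnR (sm (pt.ring j) S3) ν) := by
    funext i
    exact h
  rw [h2]
  exact regular 0 m _ (Finset.filter_subset _ _) (min_mem _ ν)

theorem zero_l (i : Fin 1) : evR xl (fl i) = 0 := by
  have h1 : (fl i).coeff.support = S3 := by
    ext a
    simp [fl, sm_coeff]
  unfold evR
  rw [Finsupp.sum, h1]
  have h2 : ∀ a ∈ S3, algebraMap ℂ (RatFunc ℂ) ((fl i).coeff a) * mon xl a = mon xl a := by
    intro a ha
    rw [fl, sm_coeff, if_pos ha, map_one, one_mul]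
  rw [Finset.sum_congr rfl h2]
  have e1 : (0 : Fin 2 → ℤ) ∉ ({![1, 0], ![0, 1]} : Finset (Fin 2 → ℤ)) := by decide
  have e2 : (![1, 0] : Fin 2 → ℤ) ∉ ({![0, 1]} : Finset (Fin 2 → ℤ)) := by decide
  rw [S3, Finset.sum_insert e1, Finset.sum_insert e2, Finset.sum_singleton]
  simp [mon, xl, Fin.prod_univ_two]

theorem trdeg_rat : Algebra.trdeg ℂ (RatFunc ℂ) = 1 := by
  have h1 : Algebra.trdeg ℂ (Polynomial ℂ) = 1 := Polynomial.trdeg_of_isDomain
  have h2 := trdeg_add_eq (R := ℂ) (S := Polynomial ℂ) (A := RatFunc ℂ)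
  have : Algebra.IsAlgebraic (Polynomial ℂ) (RatFunc ℂ) :=
    IsLocalization.isAlgebraic _ (nonZeroDivisors (Polynomial ℂ))
  have h3 : Algebra.trdeg (Polynomial ℂ) (RatFunc ℂ) = 0 := trdeg_eq_zero
  rw [h1, h3, add_zero] at h2
  exact h2.symm

/-- THE HYPOTHESES ARE SATISFIED by the line `1 + x + y = 0` in `(ℂ^*)²`. -/
theorem family : IsFamilyT 0 1 pt tl fl xl where
  bundle := by
    intro j j' k
    refine ⟨one_ne_zero, ?_, ?_⟩ <;>
    · show (1 : ℂ) / 1 ∈ _
      rw [div_one]
      exact one_mem _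
  dim_eq := rfl
  pos := by norm_num
  f_ne := by
    intro i h
    have := congrArg (fun g : LaurentR ℂ 2 => g.coeff 0) h
    simp [fl, sm_coeff, S3] at this
  ne := by
    intro j
    fin_cases j
    · exact RatFunc.X_ne_zero
    · show (-1 - RatFunc.X : RatFunc ℂ) ≠ 0
      intro h
      have h2 : (RatFunc.X : RatFunc ℂ) = RatFunc.C (-1) := by
        rw [map_neg, map_one]
        linear_combination -h
      have h3 : algebraMap (Polynomial ℂ) (RatFunc ℂ) Polynomial.X =
          algebraMap (Polynomial ℂ) (RatFunc ℂ) (Polynomial.C (-1)) := by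
        rw [RatFunc.algebraMap_X, RatFunc.algebraMap_C]
        exact h2
      have h4 := RatFunc.algebraMap_injective ℂ h3
      have h5 := congrArg Polynomial.natDegree h4
      simp at h5
  gen := by
    rw [eq_top_iff, ← RatFunc.adjoin_X]
    exact IntermediateField.adjoin.mono _ _ _ (by
      rintro _ rfl
      exact ⟨0, rfl⟩)
  dim_base := by
    rw [Nat.cast_zero]
    exact trdeg_eq_zero
  terminal := pt_terminal
  dim := by
    rw [trdeg_rat]; simp
  zero := zero_l
  loc := fun j m hm => ⟨_, loc j m hm⟩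
  nondeg := fun ν _ j m hm => nondeg ν j m hm
  inner := fun j => Or.inl fun m hm => nondeg 0 j m hm

theorem baseNef : BaseNef 0 pt tl fl :=
  ⟨fun _ _ γ => (no_curve γ).elim, Or.inr (Or.inl fun _ _ γ => (no_curve γ).elim)⟩

/-! ### the conclusion is a condition -/

/-- The Fine interior of the triangle is empty, so the theorem says that the line has a model which
is a Mori fibre space or has a nef canonical divisor. -/
theorem fineEmpty : FineEmptyR fl := by
  rintro ⟨m, h⟩
  have hs : ((fl 0).coeff.support : Set (Fin 2 → ℤ)) = S3 := by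
    ext a
    simp [fl, sm_coeff]
  have hmin : ∀ ν : Fin 2 → ℤ, ∀ c : ℤ, (∀ a ∈ S3, c ≤ pair ν a) → c ≤ minOnR (fl 0) ν := by
    intro ν c hc
    refine le_csInf ⟨_, 0, ?_, rfl⟩ ?_
    · rw [hs]; simp [S3]
    · rintro _ ⟨a, ha, rfl⟩
      rw [hs] at ha
      exact hc a ha
  have h1 := h ![1, 0] (by decide)
  have h2 := h ![0, 1] (by decide)
  have h3 := h ![-1, -1] (by decide)
  have m1 := hmin ![1, 0] 0 (by decide)
  have m2 := hmin ![0, 1] 0 (by decide)
  have m3 := hmin ![-1, -1] (-1) (by decide)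
  simp only [Finset.univ_unique, Finset.sum_singleton, Fin.sum_univ_two, Matrix.cons_val_zero,
    Matrix.cons_val_one] at h1 h2 h3
  have m1' : (0 : ℝ) ≤ (minOnR (fl 0) ![1, 0] : ℝ) := by exact_mod_cast m1
  have m2' : (0 : ℝ) ≤ (minOnR (fl 0) ![0, 1] : ℝ) := by exact_mod_cast m2
  have m3' : (-1 : ℝ) ≤ (minOnR (fl 0) ![-1, -1] : ℝ) := by exact_mod_cast m3
  have e : (default : Fin 1) = 0 := rfl
  rw [e] at h1 h2 h3
  push_cast at h1 h2 h3
  linarith

/-- the cuspidal cubic with the function field `ℂ(X)` -/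
def cusp : ProjModel (RatFunc ℂ) where
  N := 2
  s := ![1, RatFunc.X ^ 2, RatFunc.X ^ 3]
  ne := by
    intro i
    fin_cases i
    · exact one_ne_zero
    · exact pow_ne_zero 2 RatFunc.X_ne_zero
    · exact pow_ne_zero 3 RatFunc.X_ne_zero
  gen := by
    rw [eq_top_iff, ← RatFunc.adjoin_X]
    refine IntermediateField.adjoin_le_iff.2 ?_
    rintro _ rfl
    have h2 : (RatFunc.X ^ 2 : RatFunc ℂ) / 1 ∈ IntermediateField.adjoin ℂ
        (Set.range fun j : Fin 3 => (![1, RatFunc.X ^ 2, RatFunc.X ^ 3] : Fin 3 → RatFunc ℂ) j /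
          (![1, RatFunc.X ^ 2, RatFunc.X ^ 3] : Fin 3 → RatFunc ℂ) 0) :=
      IntermediateField.subset_adjoin _ _ ⟨1, rfl⟩
    have h3 : (RatFunc.X ^ 3 : RatFunc ℂ) / 1 ∈ IntermediateField.adjoin ℂ
        (Set.range fun j : Fin 3 => (![1, RatFunc.X ^ 2, RatFunc.X ^ 3] : Fin 3 → RatFunc ℂ) j /
          (![1, RatFunc.X ^ 2, RatFunc.X ^ 3] : Fin 3 → RatFunc ℂ) 0) :=
      IntermediateField.subset_adjoin _ _ ⟨2, rfl⟩
    have h4 := div_mem h3 h2
    have e : (RatFunc.X ^ 3 : RatFunc ℂ) / 1 / (RatFunc.X ^ 2 / 1) = RatFunc.X := by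
      have := RatFunc.X_ne_zero (K := ℂ)
      field_simp
    rw [e] at h4
    exact h4

/-- Not every projective model is terminal. -/
theorem cusp_not_terminal : ¬ Terminal 1 cusp := by
  intro h
  have h1 := (h 0).1 RatFunc.X
  have hX2 : (RatFunc.X ^ 2 : RatFunc ℂ) ∈ cusp.ring 0 := by
    refine Algebra.subset_adjoin ⟨1, ?_⟩
    show (RatFunc.X ^ 2 : RatFunc ℂ) / 1 = _
    rw [div_one]
  have hint : IsIntegral (cusp.ring 0) (RatFunc.X : RatFunc ℂ) := by
    refine ⟨Polynomial.X ^ 2 - Polynomial.C ⟨_, hX2⟩, ?_, ?_⟩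
    · exact Polynomial.monic_X_pow_sub_C _ two_ne_zero
    · rw [Polynomial.eval₂_sub, Polynomial.eval₂_pow, Polynomial.eval₂_X, Polynomial.eval₂_C]
      show (RatFunc.X ^ 2 : RatFunc ℂ) - RatFunc.X ^ 2 = 0
      rw [sub_self]
  have h2 := h1 hint
  -- the elements of the ring are polynomials without linear term
  have h3 : ∀ z ∈ cusp.ring 0, ∃ p : Polynomial ℂ, p.coeff 1 = 0 ∧
      z = algebraMap (Polynomial ℂ) (RatFunc ℂ) p := by
    intro z hz
    refine Algebra.adjoin_induction (p := fun z _ => ∃ p : Polynomial ℂ, p.coeff 1 = 0 ∧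
      z = algebraMap (Polynomial ℂ) (RatFunc ℂ) p) ?_ ?_ ?_ ?_ hz
    · rintro _ ⟨j, rfl⟩
      fin_cases j
      · exact ⟨1, by simp [Polynomial.coeff_one], by
          show (1 : RatFunc ℂ) / 1 = _
          rw [map_one, div_one]⟩
      · exact ⟨Polynomial.X ^ 2, by simp [Polynomial.coeff_X_pow], by
          show (RatFunc.X ^ 2 : RatFunc ℂ) / 1 = _
          rw [map_pow, RatFunc.algebraMap_X, div_one]⟩
      · exact ⟨Polynomial.X ^ 3, by simp [Polynomial.coeff_X_pow], by
          show (RatFunc.X ^ 3 : RatFunc ℂ) / 1 = _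
          rw [map_pow, RatFunc.algebraMap_X, div_one]⟩
    · intro c
      exact ⟨Polynomial.C c, by simp [Polynomial.coeff_C], by
        rw [← Polynomial.algebraMap_eq, ← IsScalarTower.algebraMap_apply]⟩
    · rintro a b - - ⟨p, hp, rfl⟩ ⟨q, hq, rfl⟩
      exact ⟨p + q, by simp [hp, hq], by rw [map_add]⟩
    · rintro a b - - ⟨p, hp, rfl⟩ ⟨q, hq, rfl⟩
      refine ⟨p * q, ?_, by rw [map_mul]⟩
      rw [Polynomial.coeff_mul, Finset.Nat.sum_antidiagonal_eq_sum_range_succ_mk]
      simp [Finset.sum_range_succ, hp, hq]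
  obtain ⟨p, hp, hX⟩ := h3 _ h2
  rw [← RatFunc.algebraMap_X] at hX
  have h4 := RatFunc.algebraMap_injective ℂ hX
  rw [← h4] at hp
  simp at hp

end

end Pool.Agent.VAC2.RMMC
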