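import Pool.Agent.Results.MP_fa3f7f_ag.Semicontinuity
import Pool.Agent.MldX.Bridge2
import Pool.Agent.MldX.QuotBridge
import Pool.Agent.MldGeo.EXA
import Pool.Agent.MldGeo.Closed5

/-!
# Certificate: the theorem `Semicontinuity` is not vacuous

* `linear`: for every `n ≥ 1` and every finite group `G` of linear maps of `ℂⁿ` the hypotheses of the
  theorem hold for `X = ℂⁿ` (no boundary, no ideals), the group `G` and `Y = ℂⁿ / G` with the crepant
  boundary; the minimal log discrepancy of the quotient is at least `n / |G| > 0`;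
* `honest`: if the minimal log discrepancy along `P` is not zero then it is an honest infimum: there
  are divisors whose centre is the subvariety of `P`, and their log discrepancies are bounded below.
  By the theorem this holds for all closed points near the image of the origin (`near`).
-/

set_option autoImplicit false

set_option maxHeartbeats 4000000
set_option synthInstance.maxHeartbeats 400000

namespace Pool.Agent.VAC2.SC

open MldGeo MvPolynomial

noncomputable section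

variable {n : ℕ}

/-! ### the crepant triple on the quotient (definitions of `MldGeo`) -/

section Quot

variable {X Y : MldGeo.Germ n} {G : Subgroup (X.K ≃ₐ[ℂ] X.K)} {π : Y.K →ₐ[ℂ] X.K}

open UNC.EXQ_aux in
/-- the norms are functions on the quotient -/
theorem exists_nm [Fintype G] (hQ : MldGeo.IsQuot X Y G π) (a : X.K) : ∃ b, π b = nm G a :=
  (hQ.inv _).2 fun g hg => nm_fixed G a g hg

theorem over_comp (hQ : MldGeo.IsQuot X Y G π) {w : MldGeo.DivVal n X.K} {v : MldGeo.DivVal n Y.K}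
    {e : ℕ} (h : MldGeo.Over π w v e) {g : X.K ≃ₐ[ℂ] X.K} (hg : g ∈ G) :
    MldGeo.Over π (TEX.comp w g) v e := by
  refine ⟨h.1, fun b => ?_⟩
  have h1 : g (π b) = π b := (hQ.inv (π b)).1 ⟨b, rfl⟩ g hg
  show w.ord (g (π b)) = e * v.ord b
  rw [h1, h.2]

open UNC.EXQ_aux in
theorem sum_comp [Fintype G] (w : MldGeo.DivVal n X.K) (a : X.K) (ha : a ≠ 0) :
    ∑ g : G, (TEX.comp w (g : X.K ≃ₐ[ℂ] X.K)).ord a = w.ord (nm G a) := by
  unfold nm
  rw [MldGeo.DivVal.ord_prod]
  · rfl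
  · intro g _
    exact (map_ne_zero_iff _ (g : X.K ≃ₐ[ℂ] X.K).injective).2 ha

open UNC.EXQ_aux in
/-- A triple without ideals whose log discrepancies are invariant under the group is the crepant
pullback of a triple on the quotient. -/
theorem exists_crepant (hn : 0 < n) (hQ : MldGeo.IsQuot X Y G π) (T : MldGeo.Triple X)
    (hJ : IsEmpty T.J)
    (hinv : ∀ g ∈ G, ∀ w : MldGeo.DivVal n X.K, T.logDisc (TEX.comp w g) = T.logDisc w) :
    ∃ T' : MldGeo.Triple Y, MldGeo.Crepant π T T' ∧ IsEmpty T'.J ∧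
      ∀ (w : MldGeo.DivVal n X.K) (v : MldGeo.DivVal n Y.K) (e : ℕ), MldGeo.Over π w v e →
        T.logDisc w = e * T'.logDisc v := by
  classical
  have := hQ.finite
  have : Fintype G := Fintype.ofFinite G
  obtain ⟨y, hy⟩ := PULQ.exists_basis Y.trdeg
  have hπy : AlgebraicIndependent ℂ fun i => π (y i) := hy.map' (f := π) π.injective
  obtain ⟨h, hh, hω⟩ := PULQ.exists_dlogs t_TBAS X.trdeg _ hπy T.ω T.ω_ne
  have hD : dlogs (fun i => π (y i)) ≠ 0 := PULQ.dlogs_ne t_TBAS X.trdeg _ hπy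
  have hD' : dlogs y ≠ 0 := PULQ.dlogs_ne t_TBAS Y.trdeg _ hy
  obtain ⟨Nh, hNh⟩ := exists_nm hQ h
  choose Nf hNf using fun i => exists_nm hQ (T.f i)
  have hNh0 : Nh ≠ 0 := fun h0 => nm_ne G h hh (by rw [← hNh, h0, map_zero])
  have hNf0 : ∀ i, Nf i ≠ 0 := fun i h0 => nm_ne G (T.f i) (T.f_ne i) (by
    rw [← hNf, h0, map_zero])
  have hc0 : (0 : ℝ) < Fintype.card G := by exact_mod_cast Fintype.card_pos
  let T' : MldGeo.Triple Y :=
    { ω := dlogs y
      ω_ne := hD'
      I := Option T.I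
      finI := inferInstance
      f := fun o => o.elim Nh Nf
      f_ne := fun o => by cases o with
        | none => exact hNh0
        | some i => exact hNf0 i
      c := fun o => o.elim (1 / (Fintype.card G : ℝ)) fun i => T.c i / Fintype.card G
      J := Empty
      finJ := inferInstance
      a := fun j => j.elim
      a_ne := fun j => j.elim
      r := fun j => j.elim
      r_nonneg := fun j => j.elim }
  have hT' : ∀ v, T'.logDisc v = v.logOrd (dlogs y) + (1 / (Fintype.card G : ℝ) * v.ord Nh +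
      ∑ i, T.c i / Fintype.card G * v.ord (Nf i)) := by
    intro v
    rw [PULQ.logDisc_eq LSCM.c_TXT hn]
    congr 1
    rw [Fintype.sum_option]
    rfl
  have key : ∀ (w : MldGeo.DivVal n X.K) (v : MldGeo.DivVal n Y.K) (e : ℕ), MldGeo.Over π w v e →
      T.logDisc w = e * v.logOrd (dlogs y) + (w.ord h + ∑ i, T.c i * w.ord (T.f i)) := by
    intro w v e hov
    have h1 := ((LSQ.inp.QGAL X Y G π hn hQ).2.2.2 w v e hov 1 y one_ne_zero
      (fun i => hy.ne_zero i) hD').2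
    rw [map_one, one_smul, one_smul] at h1
    rw [PULQ.logDisc_eq LSCM.c_TXT hn, hω, LSCM.c_FSM X.trdeg w h _ hn hh hD, h1]
    push_cast
    ring
  have main : ∀ (w : MldGeo.DivVal n X.K) (v : MldGeo.DivVal n Y.K) (e : ℕ),
      MldGeo.Over π w v e → T.logDisc w = e * T'.logDisc v := by
    intro w v e hov
    have h1 : ∑ g : G, T.logDisc (TEX.comp w (g : X.K ≃ₐ[ℂ] X.K)) =
        ∑ _g : G, T.logDisc w := Finset.sum_congr rfl fun g _ => hinv g g.2 w
    rw [Finset.sum_const, Finset.card_univ, nsmul_eq_mul] at h1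
    have h2 : ∑ g : G, T.logDisc (TEX.comp w (g : X.K ≃ₐ[ℂ] X.K)) =
        ∑ g : G, (e * v.logOrd (dlogs y) + ((TEX.comp w (g : X.K ≃ₐ[ℂ] X.K)).ord h +
          ∑ i, T.c i * (TEX.comp w (g : X.K ≃ₐ[ℂ] X.K)).ord (T.f i)) : ℝ) :=
      Finset.sum_congr rfl fun g _ => key _ v e (over_comp hQ hov g.2)
    have h3 : ∑ g : G, ((TEX.comp w (g : X.K ≃ₐ[ℂ] X.K)).ord h : ℝ) = e * v.ord Nh := by
      have h4 := sum_comp (G := G) w h hh
      rw [← hNh, hov.2] at h4
      exact_mod_cast h4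
    have h5 : ∀ i, ∑ g : G, ((TEX.comp w (g : X.K ≃ₐ[ℂ] X.K)).ord (T.f i) : ℝ) =
        e * v.ord (Nf i) := by
      intro i
      have h4 := sum_comp (G := G) w (T.f i) (T.f_ne i)
      rw [← hNf, hov.2] at h4
      exact_mod_cast h4
    rw [Finset.sum_add_distrib, Finset.sum_add_distrib, Finset.sum_comm, h3, Finset.sum_const,
      Finset.card_univ, nsmul_eq_mul] at h2
    have h6 : ∑ i, ∑ g : G, T.c i * ((TEX.comp w (g : X.K ≃ₐ[ℂ] X.K)).ord (T.f i) : ℝ) =
        ∑ i, T.c i * (e * v.ord (Nf i)) := Finset.sum_congr rfl fun i _ => by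
      rw [← Finset.mul_sum, h5]
    rw [h6, h1] at h2
    have h7 : T.logDisc w = (Fintype.card G : ℝ)⁻¹ * (Fintype.card G * T.logDisc w) := by
      field_simp
    rw [h7, h2, hT', mul_add, mul_add, mul_add, mul_add, Finset.mul_sum, Finset.mul_sum]
    congr 1
    · field_simp
    · congr 1
      · field_simp
      · refine Finset.sum_congr rfl fun i _ => ?_
        field_simp
  refine ⟨T', ⟨fun w v e Q _ _ hov => main w v e hov, fun w v e _ _ => ?_⟩,
    inferInstanceAs (IsEmpty Empty), main⟩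
  have e1 : ∑ j, T.r j * (MldGeo.idealOrd w (T.a j) : ℝ) = 0 :=
    Finset.sum_eq_zero fun j _ => hJ.elim j
  have e2 : ∑ j, T'.r j * (MldGeo.idealOrd v (T'.a j) : ℝ) = 0 :=
    Finset.sum_eq_zero fun j _ => Empty.elim j
  rw [e1, e2, mul_zero]

/-- The ramification index is at most the exponent of the group. -/
theorem ram_le (hn : 0 < n) (hQ : MldGeo.IsQuot X Y G π) (w : MldGeo.DivVal n X.K)
    (v : MldGeo.DivVal n Y.K) (e : ℕ) (hov : MldGeo.Over π w v e) : e ≤ Nat.card G := by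
  have := hQ.finite
  obtain ⟨g, hg, hgw, hge⟩ := (LSQ.inp.QGAL X Y G π hn hQ).2.2.1 w v e hov
  obtain ⟨t, ht, ht1⟩ := w.unif
  set ζ : ℂ := Complex.exp (2 * Real.pi * Complex.I * ((1 : ℤ) : ℂ) / e) with hζ
  have hg1 := hge t ht
  rw [ht1] at hg1
  have he0 : (e : ℂ) ≠ 0 := by exact_mod_cast hov.1.ne'
  have hprim : IsPrimitiveRoot ζ e := by
    have := Complex.isPrimitiveRoot_exp e hov.1.ne'
    rw [hζ]
    simpa using this
  have hzne : ζ ≠ 0 := Complex.exp_ne_zero _
  have hord : ∀ k : ℕ, w.Ge 2 ((g ^ k) t - algebraMap ℂ X.K (ζ ^ k) * t) := by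
    intro k
    induction k with
    | zero =>
      simp only [pow_zero, map_one, one_mul]
      rw [AlgEquiv.one_apply, sub_self]
      exact Or.inl rfl
    | succ k ih =>
      have h1 : (g ^ (k + 1)) t - algebraMap ℂ X.K (ζ ^ (k + 1)) * t =
          g ((g ^ k) t - algebraMap ℂ X.K (ζ ^ k) * t) +
            algebraMap ℂ X.K (ζ ^ k) * (g t - algebraMap ℂ X.K ζ * t) := by
        rw [map_sub, map_mul, AlgEquiv.commutes, pow_succ', pow_succ, map_mul, AlgEquiv.mul_apply]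
        ring
      rw [h1]
      have h2 : w.Ge 2 (g ((g ^ k) t - algebraMap ℂ X.K (ζ ^ k) * t)) := by
        rcases ih with h3 | h3
        · left; rw [h3, map_zero]
        · right; rw [hgw]; exact h3
      have h4 : w.Ge 2 (algebraMap ℂ X.K (ζ ^ k) * (g t - algebraMap ℂ X.K ζ * t)) := by
        rcases hg1 with h3 | h3
        · left; rw [h3, mul_zero]
        · by_cases h5 : g t - algebraMap ℂ X.K ζ * t = 0
          · left; rw [h5, mul_zero]
          · right
            rw [w.ord_mul _ _ (by simpa using fun h => absurd h hzne) h5, w.ord_const, zero_add]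
            exact h3
      exact h2.add h4
  have hk := hord (Nat.card G)
  have hgk : g ^ Nat.card G = 1 := by
    have h1 : (⟨g, hg⟩ : G) ^ Nat.card G = 1 := pow_card_eq_one'
    exact congrArg Subtype.val h1
  rw [hgk, AlgEquiv.one_apply] at hk
  have hz : ζ ^ Nat.card G = 1 := by
    by_contra hne
    have h1 : t - algebraMap ℂ X.K (ζ ^ Nat.card G) * t =
        algebraMap ℂ X.K (1 - ζ ^ Nat.card G) * t := by
      rw [map_sub, map_one]; ring
    rw [h1] at hk
    have h2 : algebraMap ℂ X.K (1 - ζ ^ Nat.card G) ≠ 0 := by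
      rw [ne_eq, map_eq_zero]
      exact sub_ne_zero.2 (Ne.symm hne)
    rcases hk with h3 | h3
    · exact mul_ne_zero h2 ht h3
    · rw [w.ord_mul _ _ h2 ht, w.ord_const, zero_add, ht1] at h3
      omega
  exact Nat.le_of_dvd Nat.card_pos ((hprim.pow_eq_one_iff_dvd _).1 hz)

end Quot

/-! ### linear groups -/

/-- the automorphism of the field of rational functions -/
def aut (g : GL (Fin n) ℂ) : Rat n ≃ₐ[ℂ] Rat n := IsFractionRing.algEquivOfAlgEquiv (CHG.lequiv g)

theorem aut_pol (g : GL (Fin n) ℂ) (p : MvPolynomial (Fin n) ℂ) :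
    aut g (pol p) = pol (linSubst g p) :=
  IsFractionRing.algEquivOfAlgEquiv_algebraMap (CHG.lequiv g) p

theorem rat_ext {σ τ : Rat n ≃ₐ[ℂ] Rat n} (h : ∀ p, σ (pol p) = τ (pol p)) : σ = τ := by
  ext a
  obtain ⟨⟨x, y⟩, hxy⟩ := IsLocalization.surj (nonZeroDivisors (MvPolynomial (Fin n) ℂ)) a
  have hy : pol (y : MvPolynomial (Fin n) ℂ) ≠ 0 :=
    EXA.pol_ne (nonZeroDivisors.coe_ne_zero y)
  have h1 : a * pol (y : MvPolynomial (Fin n) ℂ) = pol x := hxy
  have h2 := congrArg σ h1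
  have h3 := congrArg τ h1
  rw [map_mul, h] at h2
  rw [map_mul, ← h x, ← h2] at h3
  have h4 : τ (pol (y : MvPolynomial (Fin n) ℂ)) ≠ 0 := (map_ne_zero_iff _ τ.injective).2 hy
  exact (mul_right_cancel₀ h4 h3).symm

/-- the action of the linear group on the field of rational functions -/
def rho (n : ℕ) : GL (Fin n) ℂ →* (Rat n ≃ₐ[ℂ] Rat n) where
  toFun g := aut g⁻¹
  map_one' := rat_ext fun p => by
    rw [aut_pol, inv_one, CHG.linSubst_one]
    rfl
  map_mul' g h := rat_ext fun p => by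
    rw [AlgEquiv.mul_apply, aut_pol, aut_pol, aut_pol, CHG.linSubst_comp, mul_inv_rev]

theorem rho_pol (g : GL (Fin n) ℂ) (p : MvPolynomial (Fin n) ℂ) :
    rho n g (pol p) = pol (linSubst g⁻¹ p) := aut_pol g⁻¹ p

theorem pol_inj {p q : MvPolynomial (Fin n) ℂ} (h : pol p = pol q) : p = q := EXA.emb_inj n h

theorem rho_inj : Function.Injective (rho n) := by
  refine (injective_iff_map_eq_one _).2 fun g hg => ?_
  have h1 : ∀ i, linSubst g⁻¹ (X i) = X i := by
    intro i
    apply pol_inj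
    rw [← rho_pol, hg]
    rfl
  have h2 : g⁻¹ = 1 := by
    apply Units.ext
    ext i j
    have h3 := congrArg (coeff (Finsupp.single j 1)) (h1 i)
    rw [CHG.linSubst_X, coeff_sum] at h3
    simp only [coeff_C_mul, coeff_X, Finsupp.single_left_inj one_ne_zero] at h3
    simpa [Matrix.one_apply, eq_comm] using h3
  exact inv_eq_one.1 h2

/-- affine space at the origin -/
abbrev Xo (n : ℕ) : MldGeo.Germ n := EXA.germ n (CHG.trd n)

/-- no boundary, no ideals -/
abbrev To (n : ℕ) : MldGeo.Triple (Xo n) := EXA.triple (fun _ => 1) (CHG.trd n) (CHG.indep n)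

theorem To_logDisc (hn : 0 < n) (v : MldGeo.DivVal n (Rat n)) :
    (To n).logDisc v = v.logOrd (stdForm n) := by
  have h1 := EXA.logDisc_eq LSCM.c_TXT (fun _ : Fin n => 1) hn (CHG.trd n) (CHG.indep n) v
  rw [show (To n).logDisc v = _ from h1]
  simp

theorem acts (g : GL (Fin n) ℂ) (a : Rat n) (ha : a ∈ (EXA.emb n).range) :
    aut g a ∈ (EXA.emb n).range := by
  obtain ⟨p, rfl⟩ := ha
  exact ⟨linSubst g p, (aut_pol g p).symm⟩

theorem acts_iff (g : GL (Fin n) ℂ) (a : Rat n) :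
    a ∈ (EXA.emb n).range ↔ aut g a ∈ (EXA.emb n).range := by
  refine ⟨acts g a, fun h => ?_⟩
  have h1 := acts g⁻¹ _ h
  have h2 : aut g⁻¹ (aut g a) = a := by
    have h3 : (aut g⁻¹ * aut g : Rat n ≃ₐ[ℂ] Rat n) = 1 := rat_ext fun p => by
      rw [AlgEquiv.mul_apply, aut_pol, aut_pol, CHG.linSubst_comp, mul_inv_cancel,
        CHG.linSubst_one]
      rfl
    exact DFunLike.congr_fun h3 a
  rwa [h2] at h1

theorem mem_m_iff (a : (EXA.emb n).range) : a ∈ (Xo n).m ↔ EXA.cc n a = 0 := Iff.rfl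

theorem fixes (g : GL (Fin n) ℂ) (a b : (EXA.emb n).range) (h : (b : Rat n) = aut g a) :
    b ∈ (Xo n).m ↔ a ∈ (Xo n).m := by
  obtain ⟨p, rfl⟩ := EXA.exists_iso a
  obtain ⟨q, rfl⟩ := EXA.exists_iso b
  rw [EXA.coe_iso, EXA.coe_iso, aut_pol] at h
  rw [mem_m_iff, mem_m_iff, EXA.cc_iso, EXA.cc_iso, pol_inj h, CHG.const]

theorem isQuot_aut (g : GL (Fin n) ℂ) :
    MldGeo.IsQuot (Xo n) (Xo n) ⊥ (aut g : Rat n →ₐ[ℂ] Rat n) := by
  refine ⟨inferInstance, ?_, ?_, ?_, fun b => acts_iff g b, fun b a h => ?_⟩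
  · intro h hh a ha
    rw [Subgroup.mem_bot.1 hh]
    exact ha
  · intro h hh a b hab ha
    rw [Subgroup.mem_bot.1 hh] at hab
    have h1 : b = a := Subtype.ext hab
    rwa [h1]
  · intro a
    refine ⟨fun _ h hh => ?_, fun _ => ⟨(aut g).symm a, (aut g).apply_symm_apply a⟩⟩
    rw [Subgroup.mem_bot.1 hh]
    rfl
  · exact (fixes g b a h).symm

/-- The log discrepancies are invariant under linear maps. -/
theorem inv_logDisc (hn : 0 < n) (g : GL (Fin n) ℂ) (w : MldGeo.DivVal n (Rat n)) :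
    (To n).logDisc (TEX.comp w (aut g)) = (To n).logDisc w := by
  refine (To_logDisc hn (TEX.comp w (aut g))).trans (Eq.trans ?_ (To_logDisc hn w).symm)
  have hx0 : ∀ i : Fin n, pol (X i : MvPolynomial (Fin n) ℂ) ≠ 0 :=
    fun i => EXA.pol_ne (X_ne_zero i)
  have hp0 : ∏ i : Fin n, pol (X i : MvPolynomial (Fin n) ℂ) ≠ 0 :=
    Finset.prod_ne_zero_iff.2 fun i _ => hx0 i
  have h0 : stdForm n = (∏ i, pol (X i)) • dlogs fun i => pol (X i) := EXA.dforms_eq _ hx0
  have hd : dlogs (fun i : Fin n => pol (X i)) ≠ 0 :=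
    PULQ.dlogs_ne t_TBAS (CHG.trd n) _ (CHG.indep n)
  have h1 := ((LSQ.inp.QGAL (Xo n) (Xo n) ⊥ (aut g : Rat n →ₐ[ℂ] Rat n) hn (isQuot_aut g)).2.2.2 w
    (TEX.comp w (aut g)) 1 ⟨one_pos, fun b => by rw [Nat.cast_one, one_mul]; rfl⟩
    (∏ i, pol (X i)) (fun i => pol (X i)) hp0 hx0 hd).2
  have h1 : w.logOrd ((aut g : Rat n →ₐ[ℂ] Rat n) (∏ i, pol (X i)) •
      dlogs (fun i => (aut g : Rat n →ₐ[ℂ] Rat n) (pol (X i)))) =
        ((1 : ℕ) : ℤ) * (TEX.comp w (aut g)).logOrd (stdForm n) := by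
    rw [h0]
    exact h1
  have hy0 : ∀ i : Fin n, (aut g : Rat n →ₐ[ℂ] Rat n) (pol (X i)) ≠ 0 := fun i =>
    (map_ne_zero_iff _ (aut g).injective).2 (hx0 i)
  have h2 : (aut g : Rat n →ₐ[ℂ] Rat n) (∏ i, pol (X i)) •
      dlogs (fun i => (aut g : Rat n →ₐ[ℂ] Rat n) (pol (X i))) =
        dforms fun i : Fin n => pol (linSubst g (X i)) := by
    rw [map_prod, ← EXA.dforms_eq _ hy0]
    congr 1
    funext i
    exact aut_pol g (X i)
  obtain ⟨-, -, -, c, hc, h3⟩ := t_CHG t_TBAS g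
  have hc' : algebraMap ℂ (Rat n) c ≠ 0 := by
    rwa [ne_eq, map_eq_zero]
  have hstd : stdForm n ≠ 0 := EXA.std_ne n (CHG.trd n) (CHG.indep n)
  rw [h2, h3, LSCM.c_FSM (CHG.trd n) w _ _ hn hc' hstd, w.ord_const, zero_add, Nat.cast_one,
    one_mul] at h1
  rw [h1]

theorem noBoundary (hn : 0 < n) (P : Ideal (Xo n).R) (b : ℝ) (h : (To n).Coeff P b) : b = 0 := by
  rcases EXA.key c_ORQ LSCM.c_TXT t_UNI (fun _ => 1) hn (CHG.trd n) (CHG.indep n) P b h with
    h | ⟨i, h, -⟩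
  · exact h
  · rw [h]
    norm_num

theorem logOrd_std_nonneg (hn : 0 < n) (v : MldGeo.DivVal n (Rat n))
    (hv : ∀ i : Fin n, 0 ≤ v.ord (pol (X i))) : 0 ≤ v.logOrd (stdForm n) := by
  have hx0 : ∀ i : Fin n, pol (X i : MvPolynomial (Fin n) ℂ) ≠ 0 :=
    fun i => EXA.pol_ne (X_ne_zero i)
  have h9 : stdForm n = (∏ i, pol (X i)) • dlogs fun i => pol (X i) := EXA.dforms_eq _ hx0
  have h10 : dlogs (fun i : Fin n => pol (X i)) ≠ 0 :=
    PULQ.dlogs_ne t_TBAS (CHG.trd n) _ (CHG.indep n)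
  have h12 := LSCM.c_FDL (CHG.trd n) v _ hn hx0 h10
  have h11 : v.logOrd (stdForm n) = ∑ i, v.ord (pol (X i)) +
      v.logOrd (dlogs fun i => pol (X i)) := by
    rw [h9, LSCM.c_FSM (CHG.trd n) v _ _ hn (Finset.prod_ne_zero_iff.2 fun i _ => hx0 i) h10,
      MldGeo.DivVal.ord_prod v _ _ fun i _ => hx0 i]
  rw [h11]
  exact add_nonneg (Finset.sum_nonneg fun i _ => hv i) h12

theorem lc (hn : 0 < n) : (To n).LC := by
  intro v hv
  have h1 : (To n).disc v = (To n).logDisc v :=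
    EXA.disc_eq (fun _ => 1) (CHG.trd n) (CHG.indep n) v
  rw [h1]
  refine le_of_le_of_eq ?_ (To_logDisc hn v).symm
  have h2 := logOrd_std_nonneg hn v fun i => hv.1 (EXA.iso n (X i))
  exact_mod_cast h2

theorem lower (hn : 0 < n) (v : MldGeo.DivVal n (Rat n)) (hv : (Xo n).At v) :
    (n : ℝ) ≤ (To n).logDisc v := by
  rw [To_logDisc hn]
  have h := EXA.lower LSCM.c_FSM LSCM.c_FDL (fun _ : Fin n => 1) hn (CHG.trd n) (CHG.indep n) v hv
  simpa using h

theorem exists_at (hn : 0 < n) : ∃ v : MldGeo.DivVal n (Rat n), (Xo n).At v := by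
  obtain ⟨v, hv, -, -⟩ := c_MON (1 : GL (Fin n) ℂ) (fun _ => 1) hn (fun _ => one_pos)
    ⟨Pi.single ⟨0, hn⟩ 1, by simp [Pi.single_apply]⟩
  refine ⟨v, ⟨fun a => ?_, fun a ha ha0 => ?_⟩⟩
  · obtain ⟨p, rfl⟩ := EXA.exists_iso a
    rw [EXA.coe_iso]
    exact hv.1 p
  · obtain ⟨p, rfl⟩ := EXA.exists_iso a
    rw [EXA.coe_iso]
    refine hv.2 p (fun h => ha0 (by rw [h, map_zero]; rfl)) ?_
    have h8 : EXA.cc n (EXA.iso n p) = 0 := ha
    rwa [EXA.cc_iso] at h8

/-! ### the tori -/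

/-- polynomials in the coordinates `P x` -/
def isoP (P : GL (Fin n) ℂ) : MvPolynomial (Fin n) ℂ ≃ₐ[ℂ] (EXA.emb n).range :=
  (CHG.lequiv P).trans (EXA.iso n)

theorem isoP_apply (P : GL (Fin n) ℂ) (p : MvPolynomial (Fin n) ℂ) :
    isoP P p = EXA.iso n (linSubst P p) := rfl

/-- the grading -/
def grP (P : GL (Fin n) ℂ) (u : Fin n → ℤ) : Submodule ℂ (EXA.emb n).range :=
  (weightedHomogeneousSubmodule ℂ (EXA.w n) u).map (isoP P).toLinearMap

theorem mem_grP {P : GL (Fin n) ℂ} {u : Fin n → ℤ} {a : (EXA.emb n).range} :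
    a ∈ grP P u ↔ ∃ p, IsWeightedHomogeneous (EXA.w n) p u ∧ a = isoP P p := by
  constructor
  · rintro ⟨p, hp, rfl⟩
    exact ⟨p, hp, rfl⟩
  · rintro ⟨p, hp, rfl⟩
    exact ⟨p, hp, rfl⟩

theorem grP_internal (P : GL (Fin n) ℂ) : DirectSum.IsInternal (grP P) := by
  have h0 : DirectSum.IsInternal (weightedHomogeneousSubmodule ℂ (EXA.w n)) := by
    let _ := weightedGradedAlgebra ℂ (EXA.w n)
    exact DirectSum.Decomposition.isInternal _
  have h1 : grP P = fun u => Submodule.orderIsoMapComap (isoP P).toLinearEquiv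
      (weightedHomogeneousSubmodule ℂ (EXA.w n) u) := rfl
  refine DirectSum.isInternal_submodule_of_iSupIndep_of_iSup_eq_top ?_ ?_
  · rw [h1]
    exact h0.submodule_iSupIndep.map_orderIso _
  · rw [h1, ← OrderIso.map_iSup, h0.submodule_iSup_eq_top]
    exact OrderIso.map_top _

theorem grP_mono (P : GL (Fin n) ℂ) : SetLike.GradedMonoid (grP P) where
  one_mem := mem_grP.2 ⟨1, isWeightedHomogeneous_one ℂ _, (map_one _).symm⟩
  mul_mem := by
    intro u u' a b ha hb
    obtain ⟨p, hp, rfl⟩ := mem_grP.1 ha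
    obtain ⟨q, hq, rfl⟩ := mem_grP.1 hb
    exact mem_grP.2 ⟨p * q, hp.mul hq, (map_mul _ _ _).symm⟩

/-- the torus which is diagonal in the coordinates `P x` -/
def torus (P : GL (Fin n) ℂ) : MldX.TorusAction (MldX.Germ.ofOld (Xo n)) n where
  gr := grP P
  graded :=
    { toDecomposition := (grP_internal P).chooseDecomposition
      toGradedMonoid := grP_mono P }
  effective := by
    rw [eq_top_iff]
    intro u _
    have h1 : u = ∑ i, u i • EXA.w n i := by
      funext j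
      rw [Finset.sum_apply, Finset.sum_eq_single j]
      · simp [EXA.w]
      · intro i _ hij
        simp [EXA.w, hij.symm]
      · intro h
        exact absurd (Finset.mem_univ j) h
    rw [h1]
    refine sum_mem fun i _ => AddSubgroup.zsmul_mem _ (AddSubgroup.subset_closure ?_) _
    intro h2
    have h3 : isoP P (X i) ∈ grP P (EXA.w n i) :=
      mem_grP.2 ⟨X i, isWeightedHomogeneous_X ℂ _ i, rfl⟩
    have h4 : isoP P (X i) ∈ (⊥ : Submodule ℂ (EXA.emb n).range) := by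
      have h5 : grP P (EXA.w n i) = ⊥ := h2
      rwa [h5] at h3
    have h6 : isoP P (X i) = 0 := (Submodule.mem_bot ℂ).1 h4
    exact X_ne_zero (R := ℂ) i ((isoP P).injective (h6.trans (map_zero _).symm))

/-- scaling of the coordinates -/
def scal (l : Fin n → ℂ) : MvPolynomial (Fin n) ℂ →ₐ[ℂ] MvPolynomial (Fin n) ℂ :=
  aeval fun i => C (l i) * X i

theorem scal_homogeneous (l : Fin n → ℂ) {p : MvPolynomial (Fin n) ℂ} {u : Fin n → ℤ}
    (hp : IsWeightedHomogeneous (EXA.w n) p u) : IsWeightedHomogeneous (EXA.w n) (scal l p) u := by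
  have h1 : scal l p = ∑ d ∈ p.support, C (coeff d p * ∏ i, l i ^ d i) * monomial d 1 := by
    conv_lhs => rw [p.as_sum, map_sum]
    refine Finset.sum_congr rfl fun d _ => ?_
    unfold scal
    rw [aeval_monomial, Finsupp.prod_fintype _ _ fun i => by rw [pow_zero]]
    simp only [mul_pow, Finset.prod_mul_distrib]
    rw [monomial_eq (s := d) (a := (1 : ℂ)), Finsupp.prod_fintype _ _ fun i => by rw [pow_zero],
      C_1, one_mul, C_mul, ← mul_assoc]
    congr 1
    rw [map_prod]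
    simp only [map_pow]
    rfl
  rw [h1]
  refine (weightedHomogeneousSubmodule ℂ (EXA.w n) u).sum_mem fun d hd => ?_
  have h2 : Finsupp.weight (EXA.w n) d = u := hp (mem_support_iff.1 hd)
  have h3 : C (coeff d p * ∏ i, l i ^ d i) * monomial d (1 : ℂ) =
      monomial d (coeff d p * ∏ i, l i ^ d i) := by
    rw [C_mul_monomial, mul_one]
  rw [h3]
  exact isWeightedHomogeneous_monomial _ _ _ h2

theorem exists_torus (g : GL (Fin n) ℂ) (hg : IsOfFinOrder g) :
    ∃ A : MldX.TorusAction (MldX.Germ.ofOld (Xo n)) n, ∀ u, A.MapsTo (rho n g) u u := by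
  obtain ⟨P, l, hP, -, -⟩ := t_DIA g⁻¹ hg.inv
  refine ⟨torus P, fun u a ha => ?_⟩
  obtain ⟨b, hb, rfl⟩ := ha
  obtain ⟨p, hp, rfl⟩ := mem_grP.1 hb
  have h1 : (linSubst g⁻¹).comp (linSubst P) = (linSubst P).comp (scal l) := by
    apply MvPolynomial.algHom_ext
    intro i
    rw [AlgHom.comp_apply, AlgHom.comp_apply, hP i]
    unfold scal
    rw [aeval_X, map_mul]
    congr 1
    exact ((linSubst P).commutes (l i)).symm
  refine ⟨isoP P (scal l p), mem_grP.2 ⟨_, scal_homogeneous l hp, rfl⟩, ?_⟩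
  have h2 : linSubst g⁻¹ (linSubst P p) = linSubst P (scal l p) := DFunLike.congr_fun h1 p
  show pol (linSubst P (scal l p)) = rho n g (pol (linSubst P p))
  rw [rho_pol, h2]

/-! ### comparison of the definitions -/

theorem isQuot_new {X Y : MldX.Germ n} {G : Subgroup X.Aut} {π : MldX.Map X Y}
    (h : MldGeo.IsQuot X.old Y.old G π) : MldX.IsQuot G π := by
  refine ⟨h.finite, h.map_R, ?_, h.inv, h.mem_R, ?_⟩
  · rintro g hg a ⟨b, hb, rfl⟩
    exact ⟨⟨g (b : X.K), h.map_R g hg _ b.2⟩, h.map_m g hg b _ rfl hb, rfl⟩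
  · intro b
    constructor
    · rintro ⟨c, hc, rfl⟩
      exact ⟨⟨π (c : Y.K), (h.mem_R _).1 c.2⟩, (h.mem_m c _ rfl).1 hc, rfl⟩
    · rintro ⟨c, hc, hcb⟩
      have h1 : b ∈ Y.R := (h.mem_R b).2 (by rw [← hcb]; exact c.2)
      exact ⟨⟨b, h1⟩, (h.mem_m ⟨b, h1⟩ c hcb).2 hc, rfl⟩

/-- a nonzero minimal log discrepancy along a subvariety is an honest infimum -/
theorem honest {X : MldX.Germ n} (T : MldX.Triple X) (P : Ideal X.R) (h : T.mldAlong P ≠ 0) :
    (∃ v, X.HasCentre v P) ∧ BddBelow {a : ℝ | ∃ v, X.HasCentre v P ∧ T.disc v = a} := by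
  constructor
  · by_contra hv
    refine h ?_
    have h1 : {a : ℝ | ∃ v, X.HasCentre v P ∧ T.disc v = a} = ∅ := by
      ext a
      constructor
      · rintro ⟨v, hv', -⟩
        exact absurd ⟨v, hv'⟩ hv
      · intro h2
        exact absurd h2 (Set.notMem_empty a)
    unfold MldX.Triple.mldAlong
    rw [h1, Real.sInf_empty]
  · by_contra hb
    exact h (Real.sInf_of_not_bddBelow hb)

/-- The hypotheses of the theorem hold for every finite group of linear maps. -/
theorem linear (hn : 0 < n) (G : Subgroup (GL (Fin n) ℂ)) [Finite G] :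
    ∃ (X Y : MldX.Germ n) (H : Subgroup X.Aut) (π : MldX.Map X Y) (T : MldX.Triple X)
      (T' : MldX.Triple Y), Nonempty (G ≃* H) ∧ MldX.IsQuot H π ∧ MldX.Crepant π T T' ∧ T.LC ∧
      T.Effective ∧ (∀ g ∈ H, ∃ (m : ℕ) (A : MldX.TorusAction X m), n ≤ m + 1 ∧
        (∀ u, A.MapsTo g u u) ∧ A.InvTriple T) ∧ (n : ℝ) / Nat.card G ≤ T'.mld := by
  have eqv : G ≃* G.map (rho n) := G.equivMapOfInjective (rho n) rho_inj
  have hfin : Finite (G.map (rho n)) := Finite.of_equiv G eqv.toEquiv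
  have hcard : Nat.card (G.map (rho n)) = Nat.card G := (Nat.card_congr eqv.toEquiv).symm
  obtain ⟨Y, π, hQ⟩ := LSQ.inp.EXQ LSQ.inp.FGI (Xo n) (G.map (rho n)) hfin
    (by
      rintro - ⟨g, -, rfl⟩ a ha
      exact acts g⁻¹ a ha)
    (by
      rintro - ⟨g, -, rfl⟩ a b h ha
      exact (fixes g⁻¹ a b h).2 ha)
  obtain ⟨T', hC, hJ', hdisc⟩ := exists_crepant hn hQ (To n) (inferInstanceAs (IsEmpty Empty)) (by
    rintro - ⟨g, -, rfl⟩ w
    exact inv_logDisc hn g⁻¹ w)
  have hNB : ∀ P b, (MldX.Triple.ofOld (X := MldX.Germ.ofOld (Xo n)) (To n)).Coeff P b → b = 0 := by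
    intro P b h
    exact noBoundary hn P b ((MldX.Triple.ofOld_coeff (X := MldX.Germ.ofOld (Xo n)) (To n) P b).1 h)
  refine ⟨MldX.Germ.ofOld (Xo n), MldX.Germ.ofOld Y, G.map (rho n), π,
    MldX.Triple.ofOld (X := MldX.Germ.ofOld (Xo n)) (To n),
    MldX.Triple.ofOld (X := MldX.Germ.ofOld Y) T', ⟨eqv⟩, isQuot_new hQ, ⟨?_, ?_⟩, ?_, ?_, ?_, ?_⟩
  · intro w v e hov _
    rw [MldX.Triple.ofOld_logDisc (X := MldX.Germ.ofOld (Xo n)),
      MldX.Triple.ofOld_logDisc (X := MldX.Germ.ofOld Y)]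
    exact hdisc w.old v.old e hov
  · intro w v e _ _
    have e1 : (MldX.Triple.ofOld (X := MldX.Germ.ofOld (Xo n)) (To n)).idealPart w = 0 :=
      Finset.sum_eq_zero fun j _ => Empty.elim j
    have e2 : (MldX.Triple.ofOld (X := MldX.Germ.ofOld Y) T').idealPart v = 0 :=
      Finset.sum_eq_zero fun j _ => hJ'.elim j
    rw [e1, e2, mul_zero]
  · exact (MldX.Triple.ofOld_lc (X := MldX.Germ.ofOld (Xo n)) (To n)).2 (lc hn)
  · intro P b h
    exact (hNB P b h).ge
  · rintro - ⟨g, hg, rfl⟩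
    have hfo : IsOfFinOrder g := by
      have h1 : IsOfFinOrder (⟨g, hg⟩ : G) := isOfFinOrder_of_finite _
      exact G.subtype.isOfFinOrder h1
    obtain ⟨A, hA⟩ := exists_torus g hfo
    exact ⟨n, A, by omega, hA, fun P b hP hb => absurd (hNB P b hP) hb, fun j => Empty.elim j⟩
  · rw [MldX.Triple.ofOld_mld (X := MldX.Germ.ofOld Y)]
    have hdT : ∀ v : MldGeo.DivVal n Y.K, T'.disc v = T'.logDisc v := by
      intro v
      unfold MldGeo.Triple.disc
      have e2 : ∑ j, T'.r j * (MldGeo.idealOrd v (T'.a j) : ℝ) = 0 :=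
        Finset.sum_eq_zero fun j _ => hJ'.elim j
      rw [e2, sub_zero]
    refine le_csInf ?_ ?_
    · obtain ⟨w, hw⟩ := exists_at hn
      obtain ⟨v, e, hov⟩ := (LSQ.inp.QGAL (Xo n) Y _ π hn hQ).1 w
      exact ⟨_, v, (LSQ.inp.QAT (Xo n) Y _ π hQ w v e hov).1 hw, rfl⟩
    · rintro a ⟨v, hv, rfl⟩
      obtain ⟨w, e, hov⟩ := (LSQ.inp.QGAL (Xo n) Y _ π hn hQ).2.1 v
      have hw := (LSQ.inp.QAT (Xo n) Y _ π hQ w v e hov).2 hv
      have h1 := lower hn w hw
      rw [hdisc w v e hov] at h1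
      have he : e ≤ Nat.card G := (ram_le hn hQ w v e hov).trans hcard.le
      rw [hdT]
      have he0 : (0 : ℝ) < e := by exact_mod_cast hov.1
      have hG0 : (0 : ℝ) < Nat.card G := by exact_mod_cast Nat.card_pos
      have he' : (e : ℝ) ≤ Nat.card G := by exact_mod_cast he
      have h2 : 0 < T'.logDisc v := by
        by_contra h3
        have h4 : (e : ℝ) * T'.logDisc v ≤ 0 := mul_nonpos_of_nonneg_of_nonpos he0.le (not_lt.1 h3)
        have h5 : (0 : ℝ) < n := by exact_mod_cast hn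
        linarith
      rw [div_le_iff₀ hG0, mul_comm]
      exact h1.trans (mul_le_mul_of_nonneg_right he' h2.le)

/-- Near the image of the origin all closed points of the quotient of `ℂⁿ` by a finite linear group
are centres of divisors, and the minimal log discrepancies at these points are honest infima and not
smaller than the one at the image of the origin. -/
theorem near (hn : 0 < n) (G : Subgroup (GL (Fin n) ℂ)) [Finite G] :
    ∃ (X Y : MldX.Germ n) (H : Subgroup X.Aut) (π : MldX.Map X Y) (T' : MldX.Triple Y),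
      Nonempty (G ≃* H) ∧ MldX.IsQuot H π ∧ ∃ f : Y.R, Y.Meets f Y.m ∧
      ∀ P : Ideal Y.R, Y.Meets f P → P.IsMaximal → (∃ v, Y.HasCentre v P) ∧
        BddBelow {a : ℝ | ∃ v, Y.HasCentre v P ∧ T'.disc v = a} ∧
        (n : ℝ) / Nat.card G ≤ T'.mldAlong P := by
  obtain ⟨X, Y, H, π, T, T', h1, h2, h3, h4, h5, h6, h7⟩ := linear hn G
  obtain ⟨-, -, f, hf, h8⟩ :=
    Pool.Agent.Results.MP_fa3f7f_ag.Semicontinuity.result X Y H π T T' h2 h3 h4 h5 h6
  refine ⟨X, Y, H, π, T', h1, h2, f, hf, fun P hP hM => ?_⟩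
  have h9 := (h8 P hP).1 hM
  have h10 : (0 : ℝ) < (n : ℝ) / Nat.card G := by
    have : (0 : ℝ) < n := by exact_mod_cast hn
    have : (0 : ℝ) < Nat.card G := by exact_mod_cast Nat.card_pos
    positivity
  have h11 : T'.mldAlong P ≠ 0 := by linarith
  exact ⟨(honest T' P h11).1, (honest T' P h11).2, h7.trans h9⟩

end

end Pool.Agent.VAC2.SC
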