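import Pool.Agent.MldX.SGBridge

/-!
# Certificate: the sets of minimal log discrepancies in `SharpGaps` are not vacuous

* every sum `∑ 1 / mᵢ` (`mᵢ ≥ 1`) is in `toricMlds n 1`, so these sets are infinite, and they
  contain both ends of the gap below every integer level `1 ≤ l ≤ n`;
* every finite linear group gives an element of `quotientMlds n`, the trivial group the number `n`;
* a nonzero minimal log discrepancy is an honest infimum of a nonempty set which is bounded below;
* the group in the isolated examples is not trivial.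
-/

set_option autoImplicit false

namespace Pool.Agent.VAC2.SharpGaps

open MldGap MldX

/-- A nonzero minimal log discrepancy is not a junk value: there are divisors with centre `x`, and
their log discrepancies are bounded below. -/
theorem honest {n : ℕ} {X : Germ n} (T : Triple X) (h : T.mld ≠ 0) :
    (∃ v, X.At v) ∧ BddBelow {a : ℝ | ∃ v, X.At v ∧ T.disc v = a} := by
  constructor
  · by_contra hv
    refine h ?_
    have h1 : {a : ℝ | ∃ v, X.At v ∧ T.disc v = a} = ∅ := by
      ext a
      constructor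
      · rintro ⟨v, hv', -⟩
        exact absurd ⟨v, hv'⟩ hv
      · intro h2
        exact absurd h2 (Set.notMem_empty a)
    unfold Triple.mld
    rw [h1, Real.sInf_empty]
  · by_contra hb
    exact h (Real.sInf_of_not_bddBelow hb)

/-- Affine space with the boundary `∑ (1 - 1/mᵢ) Hᵢ`. -/
theorem sum_mem {n : ℕ} (hn : 0 < n) (m : Fin n → ℕ) (hm : ∀ i, 0 < m i) :
    (∑ i, 1 / (m i : ℝ)) ∈ toricMlds n 1 := by
  rw [toricMlds_eq]
  obtain ⟨X, A, T, hJ, hA, hT, h⟩ := MldGeo.c_EXA m hn hm
  exact ⟨X, MldG.ofGeo A, T, hJ, hA, hT, h⟩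

/-- The set of minimal log discrepancies is infinite. -/
theorem toric_infinite {n : ℕ} (hn : 0 < n) : (toricMlds n 1).Infinite := by
  have h0 : (0 : ℝ) < n := by exact_mod_cast hn
  refine Set.infinite_of_injective_forall_mem (f := fun k : ℕ => (n : ℝ) * (1 / ((k + 1 : ℕ) : ℝ)))
    (fun a b hab => ?_) fun k => ?_
  · have h1 := mul_left_cancel₀ h0.ne' hab
    rw [one_div, one_div, inv_inj] at h1
    have h2 : a + 1 = b + 1 := by exact_mod_cast h1
    omega
  · have h1 := sum_mem hn (fun _ => k + 1) fun _ => Nat.succ_pos k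
    rw [Finset.sum_const, Finset.card_univ, Fintype.card_fin, nsmul_eq_mul] at h1
    exact h1

/-- The integers `1, …, n` are minimal log discrepancies. -/
theorem int_mem {n l : ℕ} (hl : 1 ≤ l) (hln : l ≤ n) : (l : ℝ) ∈ toricMlds n 1 := by
  obtain ⟨a, rfl⟩ : ∃ a, l = a + 1 := ⟨l - 1, by omega⟩
  obtain ⟨b, rfl⟩ : ∃ b, n = a + (b + 1) := ⟨n - a - 1, by omega⟩
  have h1 := sum_mem (n := a + (b + 1)) (by omega)
    (Fin.addCases (fun _ => 1) fun _ => b + 1) (by
      intro i
      refine Fin.addCases (fun j => ?_) (fun j => ?_) i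
      · rw [Fin.addCases_left]
        exact one_pos
      · rw [Fin.addCases_right]
        exact Nat.succ_pos b)
  rw [Fin.sum_univ_add] at h1
  simp only [Fin.addCases_left, Fin.addCases_right, Finset.sum_const, Finset.card_univ,
    Fintype.card_fin, nsmul_eq_mul] at h1
  have hb : ((b + 1 : ℕ) : ℝ) ≠ 0 := by positivity
  rw [mul_one_div_cancel hb] at h1
  simpa using h1

/-- The gap is real: both ends are minimal log discrepancies of toric pairs with standard
coefficients, and there is nothing in between. -/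
theorem gap {n l : ℕ} (hl : 1 ≤ l) (hln : l ≤ n) :
    (l : ℝ) - 1 / ((sylvester (n - l + 1) : ℝ) - 1) ∈ toricMlds n 1 ∧ (l : ℝ) ∈ toricMlds n 1 ∧
      (l : ℝ) - 1 / ((sylvester (n - l + 1) : ℝ) - 1) < l ∧
      ∀ μ ∈ toricMlds n 1, (l : ℝ) - 1 / ((sylvester (n - l + 1) : ℝ) - 1) < μ → (l : ℝ) ≤ μ := by
  have h := MldG.toric_greatest hl hln
  rw [← toricMlds_eq] at h
  refine ⟨h.1.1, int_mem hl hln, h.1.2, fun μ hμ h1 => ?_⟩
  by_contra h2
  exact absurd (h.2 ⟨hμ, not_le.1 h2⟩) (not_le.2 h1)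

/-- Every finite linear group gives a minimal log discrepancy. -/
theorem quot_mem {n : ℕ} (hn : 0 < n) (G : Subgroup (GL (Fin n) ℂ)) [Finite G] :
    mldQuot G ∈ quotientMlds n := by
  rw [quotientMlds_eq]
  obtain ⟨X, hX⟩ := MldGeo.c_GEX G
  obtain ⟨T, hT⟩ := MldGeo.c_TEX G X hn hX
  exact ⟨G, X, T, inferInstance, hT, MldGeo.c_MLQ G T hn hT⟩

/-- The trivial group: affine space. -/
theorem mldQuot_bot (n : ℕ) : mldQuot (⊥ : Subgroup (GL (Fin n) ℂ)) = n := by
  have h : {a : ℝ | ∃ g ∈ (⊥ : Subgroup (GL (Fin n) ℂ)), logAge g = a} = {(n : ℝ)} := by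
    ext a
    constructor
    · rintro ⟨g, hg, rfl⟩
      rw [Subgroup.mem_bot] at hg
      subst hg
      rw [logAge_eq, eig_one', Multiset.map_replicate, th_one, Multiset.sum_replicate]
      simp
    · rintro rfl
      refine ⟨1, one_mem _, ?_⟩
      rw [logAge_eq, eig_one', Multiset.map_replicate, th_one, Multiset.sum_replicate]
      simp
  unfold mldQuot
  rw [h, csInf_singleton]

theorem dim_mem {n : ℕ} (hn : 0 < n) : (n : ℝ) ∈ quotientMlds n := by
  have := quot_mem hn (⊥ : Subgroup (GL (Fin n) ℂ))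
  rwa [mldQuot_bot] at this

/-- The group of an isolated quotient singularity with minimal log discrepancy smaller than `n` is
not trivial; in particular this holds for the examples of the theorem. -/
theorem nontrivial {n : ℕ} (hn : 2 ≤ n) {G : Subgroup (GL (Fin n) ℂ)} [Finite G] {X : Germ n}
    {T : Triple X} (hf : ActsFreely G) (hX : X.IsQuotient G) (hJ : IsEmpty T.J)
    (hB : T.NoBoundary) (hm : T.mld < n) : G ≠ ⊥ := by
  rintro rfl
  have h1 : T.old.IsLogQuotient (⊥ : Subgroup (GL (Fin n) ℂ)) :=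
    (MldGeo.c_FRE _ T.old hn hf (isQuotient_iff.2 hX) hJ).1 (T.old_noBoundary.2 hB)
  have h2 := MldGeo.c_MLQ _ T.old (by omega) h1
  rw [mldQuot_bot, T.old_mld] at h2
  exact absurd h2 hm.ne

theorem example_lt {n : ℕ} (hn : 2 ≤ n) :
    1 - 4 / ((sylvester (n - 1) : ℝ) ^ 2 + 3) < n ∧
      1 - 4 / ((sylvester (n - 1) : ℝ) ^ 2 + 3) ≠ 0 := by
  have h1 := sylvester_real (n - 1)
  have h2 : (0 : ℝ) < (sylvester (n - 1) : ℝ) ^ 2 + 3 := by positivity
  have h3 : 0 < 4 / ((sylvester (n - 1) : ℝ) ^ 2 + 3) := by positivity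
  have h4 : (2 : ℝ) ≤ n := by exact_mod_cast hn
  have h5 : 4 / ((sylvester (n - 1) : ℝ) ^ 2 + 3) < 1 := by
    rw [div_lt_one h2]
    nlinarith
  constructor
  · linarith
  · linarith

end Pool.Agent.VAC2.SharpGaps
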