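import Pool.Agent.TKN.St7

/-!
# Certificates: every function has programs of the kind considered, with accepting runs of length `N`

For every function of `N` bits there are programs with one stack and fork programs that compute it, test one
bit at a time, have accepting runs with `N` tests, and have at most `2 ^ N (N + 1) + 2` nodes. So the hypotheses of
the lower bounds are satisfiable for all functions, and `2 ^ N` is the trivial upper bound.
-/

set_option autoImplicit false

open Finset

namespace Pool.Agent.VAC2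

open Pool.Agent.Lib_helper20.SRO (Agrees)
open Pool.Agent.CFT (Der)
open Pool.Agent.TKN (TimeS TimeF TimeSR TimeFR Out)

variable {N : ℕ}

/-- the nodes -/
abbrev Nd (N : ℕ) : Type := Option (Option ((Fin N → Bool) × Fin (N + 1)))

/-- the edges: guess an input with value `1`, compare the bits one by one -/
def Ed (f : (Fin N → Bool) → Bool) (u : Nd N) (t : List (Fin N × Bool)) (v : Nd N) : Prop :=
  (∃ x, f x = true ∧ u = none ∧ t = [] ∧ v = some (some (x, 0))) ∨
  (∃ (x : Fin N → Bool) (i : Fin N), u = some (some (x, i.castSucc)) ∧ t = [(i, x i)] ∧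
    v = some (some (x, i.succ))) ∨
  ∃ x : Fin N → Bool, u = some (some (x, Fin.last N)) ∧ t = [] ∧ v = some none

/-- the tests of the word `x` -/
def tests (x : Fin N → Bool) : List (Fin N × Bool) := (List.finRange N).map fun j => (j, x j)

/-- the tests that follow after the node `u` (for the nodes of a word) -/
def After (f : (Fin N → Bool) → Bool) (u : Nd N) (l : List (Fin N × Bool)) : Prop :=
  (u = some none → l = []) ∧
  (∀ x i, u = some (some (x, i)) → l = (tests x).drop i.val) ∧
  (u = none → ∃ x, f x = true ∧ l = tests x)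

lemma tests_length (x : Fin N → Bool) : (tests x).length = N := by simp [tests]

lemma drop_castSucc (x : Fin N → Bool) (i : Fin N) :
    (tests x).drop i.castSucc.val = (i, x i) :: (tests x).drop i.succ.val := by
  have hi : i.val < (tests x).length := by rw [tests_length]; exact i.isLt
  have h := List.drop_eq_getElem_cons hi
  have h2 : (tests x)[i.val] = (i, x i) := by simp [tests]
  rw [h2] at h
  exact h

lemma agrees_tests (b x : Fin N → Bool) : Agrees b (tests x) ↔ b = x := by
  constructor
  · intro h
    funext j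
    exact h (j, x j) (by simp [tests])
  · rintro rfl p hp
    simp only [tests, List.mem_map, List.mem_finRange, true_and] at hp
    obtain ⟨j, rfl⟩ := hp
    rfl

lemma after_step {f : (Fin N → Bool) → Bool} {u v : Nd N} {t l : List (Fin N × Bool)}
    (h : Ed f u t v) (hl : After f v l) : After f u (t ++ l) := by
  obtain ⟨h1, h2, h3⟩ := hl
  rcases h with ⟨x, hx, rfl, rfl, rfl⟩ | ⟨x, i, rfl, rfl, rfl⟩ | ⟨x, rfl, rfl, rfl⟩
  · refine ⟨fun h => by simp at h, fun _ _ h => by simp at h, fun _ => ⟨x, hx, ?_⟩⟩
    rw [List.nil_append, h2 x 0 rfl]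
    simp
  · refine ⟨fun h => by simp at h, fun y j h => ?_, fun h => by simp at h⟩
    simp only [Option.some.injEq, Prod.mk.injEq] at h
    obtain ⟨rfl, rfl⟩ := h
    rw [h2 x i.succ rfl, drop_castSucc]
    rfl
  · refine ⟨fun h => by simp at h, fun y j h => ?_, fun h => by simp at h⟩
    simp only [Option.some.injEq, Prod.mk.injEq] at h
    obtain ⟨rfl, rfl⟩ := h
    rw [h1 rfl, List.append_nil, Fin.val_last, List.drop_eq_nil_of_le (by rw [tests_length])]

/-! ## Programs with one stack -/

/-- the program with one stack; the stack is not used -/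
def prS (f : (Fin N → Bool) → Bool) : STK.Prog (Fin N) 1 Unit (Nd N) where
  source := none
  sink := some none
  test := Ed f
  push := fun _ _ _ _ => False
  pop := fun _ _ _ _ => False

lemma run_after {f : (Fin N → Bool) → Bool} {u v : Nd N} {s s' : Fin 1 → List Unit}
    {l : List (Fin N × Bool)} (h : STK.Run (prS f) u s v s' l) : v = some none → After f u l := by
  induction h with
  | nil u s =>
    rintro rfl
    exact ⟨fun _ => rfl, fun _ _ h => by simp at h, fun h => by simp at h⟩
  | test ht _ ih => exact fun hv => after_step ht (ih hv)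
  | push i a hp _ _ => exact hp.elim
  | pop i a r hp _ _ _ => exact hp.elim

lemma run_of (f : (Fin N → Bool) → Bool) (x : Fin N → Bool) (s : Fin 1 → List Unit) :
    ∀ i : Fin (N + 1), STK.Run (prS f) (some (some (x, i))) s (some none) s
      ((tests x).drop i.val) := by
  intro i
  induction i using Fin.reverseInduction with
  | last =>
    rw [Fin.val_last, List.drop_eq_nil_of_le (by rw [tests_length])]
    exact STK.Run.test (t := []) (Or.inr (Or.inr ⟨x, rfl, rfl, rfl⟩)) (STK.Run.nil _ _)
  | cast i ih =>
    rw [drop_castSucc]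
    exact STK.Run.test (t := [(i, x i)]) (Or.inr (Or.inl ⟨x, i, rfl, rfl, rfl⟩)) ih

lemma full_iff (f : (Fin N → Bool) → Bool) (l : List (Fin N × Bool)) :
    (prS f).Full l ↔ ∃ x, f x = true ∧ l = tests x := by
  constructor
  · rintro ⟨s, hs⟩
    exact (run_after hs rfl).2.2 rfl
  · rintro ⟨x, hx, rfl⟩
    refine ⟨fun _ => [], STK.Run.test (t := []) (Or.inl ⟨x, hx, rfl, rfl, rfl⟩) ?_⟩
    exact run_of f x _ 0

/-! ## Fork programs -/

/-- the fork program; the forks are not used -/
def prF (f : (Fin N → Bool) → Bool) : CFT.FP (Fin N) (Nd N) where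
  source := none
  edge := Ed f
  fork := fun _ _ _ => False
  fin := fun u => u = some none

lemma der_after {f : (Fin N → Bool) → Bool} {u : Nd N} {l : List (Fin N × Bool)}
    (h : Der (prF f) u l) : After f u l := by
  induction h with
  | fin hv =>
    have hv' := hv
    dsimp only [prF] at hv'
    subst hv'
    exact ⟨fun _ => rfl, fun _ _ h => by simp at h, fun h => by simp at h⟩
  | edge ht _ ih => exact after_step ht ih
  | fork hf _ _ _ _ => exact hf.elim

lemma der_of (f : (Fin N → Bool) → Bool) (x : Fin N → Bool) :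
    ∀ i : Fin (N + 1), Der (prF f) (some (some (x, i))) ((tests x).drop i.val) := by
  intro i
  induction i using Fin.reverseInduction with
  | last =>
    rw [Fin.val_last, List.drop_eq_nil_of_le (by rw [tests_length])]
    exact Der.edge (t := []) (Or.inr (Or.inr ⟨x, rfl, rfl, rfl⟩)) (Der.fin rfl)
  | cast i ih =>
    rw [drop_castSucc]
    exact Der.edge (t := [(i, x i)]) (Or.inr (Or.inl ⟨x, i, rfl, rfl, rfl⟩)) ih

lemma der_iff (f : (Fin N → Bool) → Bool) (l : List (Fin N × Bool)) :
    Der (prF f) (prF f).source l ↔ ∃ x, f x = true ∧ l = tests x := by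
  constructor
  · intro h
    exact (der_after h).2.2 rfl
  · rintro ⟨x, hx, rfl⟩
    exact Der.edge (t := []) (Or.inl ⟨x, hx, rfl, rfl, rfl⟩) (der_of f x 0)

/-! ## Result -/

lemma card_Nd (N : ℕ) : Fintype.card (Nd N) = 2 ^ N * (N + 1) + 2 := by
  simp [Nd, Fintype.card_option, Fintype.card_prod]

lemma out_empty {V : Type} (l : List (V × Bool)) : Out (∅ : Finset V) l = l.length := by
  classical
  simp [Out]

/-- Every function of `N` bits is computed by a program with one stack that tests one bit at a time,
whose full runs are the words with value `1`, read from left to right. -/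
theorem nonvac_stack (N : ℕ) (f : (Fin N → Bool) → Bool) :
    ∃ (Q : Type) (_ : Fintype Q) (G : STK.Prog (Fin N) 1 Unit Q),
      G.Blocks 1 ∧ G.Computes f ∧ TimeS G (1 * N) ∧ TimeSR G 0 (1 * N) ∧ G.ReadOnce ∧
        Fintype.card Q = 2 ^ N * (N + 1) + 2 := by
  have key : ∀ b, (prS f).Accepts b ↔ f b = true := by
    intro b
    constructor
    · rintro ⟨l, hl, hb⟩
      obtain ⟨x, hx, rfl⟩ := (full_iff f l).1 hl
      rw [(agrees_tests b x).1 hb]
      exact hx
    · intro hb
      exact ⟨tests b, (full_iff f _).2 ⟨b, hb, rfl⟩, (agrees_tests b b).2 rfl⟩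
  have hrun : ∀ b, (prS f).Accepts b → (prS f).Full (tests b) ∧ Agrees b (tests b) := fun b hb =>
    ⟨(full_iff f _).2 ⟨b, (key b).1 hb, rfl⟩, (agrees_tests b b).2 rfl⟩
  refine ⟨Nd N, inferInstance, prS f, ?_, key, ?_, ?_, ?_, card_Nd N⟩
  · rintro u t v (⟨x, _, _, rfl, _⟩ | ⟨x, i, _, rfl, _⟩ | ⟨x, _, rfl, _⟩)
    · exact Nat.zero_le _
    · exact le_rfl
    · exact Nat.zero_le _
  · intro b hb
    exact ⟨tests b, (hrun b hb).1, (hrun b hb).2, by rw [tests_length, one_mul]⟩
  · intro b hb
    refine ⟨tests b, (hrun b hb).1, (hrun b hb).2, ∅, by simp, ?_⟩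
    rw [out_empty, tests_length, one_mul]
  · intro l hl
    obtain ⟨x, _, rfl⟩ := (full_iff f l).1 hl
    rw [tests, List.map_map]
    have : (Prod.fst ∘ fun j : Fin N => (j, x j)) = id := rfl
    rw [this, List.map_id]
    exact List.nodup_finRange N

/-- The same for fork programs. -/
theorem nonvac_fork (N : ℕ) (f : (Fin N → Bool) → Bool) :
    ∃ (Q : Type) (_ : Fintype Q) (G : CFT.FP (Fin N) Q),
      G.Block 1 ∧ G.Computes f ∧ TimeF G (1 * N) ∧ TimeFR G 0 (1 * N) ∧
        Fintype.card Q = 2 ^ N * (N + 1) + 2 := by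
  have key : ∀ b, (prF f).Accepts b ↔ f b = true := by
    intro b
    constructor
    · rintro ⟨l, hl, hb⟩
      obtain ⟨x, hx, rfl⟩ := (der_iff f l).1 hl
      rw [(agrees_tests b x).1 hb]
      exact hx
    · intro hb
      exact ⟨tests b, (der_iff f _).2 ⟨b, hb, rfl⟩, (agrees_tests b b).2 rfl⟩
  have hrun : ∀ b, (prF f).Accepts b → Der (prF f) (prF f).source (tests b) ∧
      Agrees b (tests b) := fun b hb =>
    ⟨(der_iff f _).2 ⟨b, (key b).1 hb, rfl⟩, (agrees_tests b b).2 rfl⟩
  refine ⟨Nd N, inferInstance, prF f, ?_, key, ?_, ?_, card_Nd N⟩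
  · rintro u t v (⟨x, _, _, rfl, _⟩ | ⟨x, i, _, rfl, _⟩ | ⟨x, _, rfl, _⟩)
    · exact Nat.zero_le _
    · exact le_rfl
    · exact Nat.zero_le _
  · intro b hb
    exact ⟨tests b, (hrun b hb).1, (hrun b hb).2, by rw [tests_length, one_mul]⟩
  · intro b hb
    refine ⟨tests b, (hrun b hb).1, (hrun b hb).2, ∅, by simp, ?_⟩
    rw [out_empty, tests_length, one_mul]

end Pool.Agent.VAC2
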