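import Pool.Agent.STK.Defs
import Pool.Agent.CFT.Defs

/-!
# Certificate for `MP_a77cad_lc/OneStack` and `MP_153864_lc/OneStackGuesses` (vacuity audit)

`tree`: every Boolean function of finitely many variables is computed by a program of the model, with
any number of stacks over any alphabet, with single tests, in which every variable is tested exactly
once on every full run; so the hypotheses of the lower bounds (blocks of at most `r` tests, few
rereads, at most `N + r` tests) hold for some program, already with `r = 1`. `treeFP`: the same for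
the AND/OR circuits (`CFT.FP`) of the second part of (2).
-/

set_option autoImplicit false

namespace Pool.Agent.VAC2.OneStackEx

open Finset
open Pool.Agent.STK
open Pool.Agent.Lib_helper20.SRO (Agrees)

/-- guess the input, check it bit by bit -/
def guess {V : Type} {m : ℕ} (e : Fin m → V) (f : (V → Bool) → Bool) (k : ℕ) (Γ : Type) :
    Prog V k Γ (Option (Option ((V → Bool) × Fin (m + 1)))) where
  source := none
  sink := some none
  test u l v :=
    (u = none ∧ l = [] ∧ ∃ w, f w = true ∧ v = some (some (w, 0))) ∨
    (∃ (w : V → Bool) (i : Fin m), u = some (some (w, i.castSucc)) ∧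
      v = some (some (w, i.succ)) ∧ l = [(e i, w (e i))]) ∨
    (∃ w : V → Bool, u = some (some (w, Fin.last m)) ∧ l = [] ∧ v = some none)
  push _ _ _ _ := False
  pop _ _ _ _ := False

/-- the tests of the guess `w` from the step `t` on -/
def tests {V : Type} {m : ℕ} (e : Fin m → V) (w : V → Bool) (t : ℕ) : List (V × Bool) :=
  ((List.finRange m).drop t).map (fun i => (e i, w (e i)))

theorem tests_last {V : Type} {m : ℕ} (e : Fin m → V) (w : V → Bool) : tests e w m = [] := by
  unfold tests
  rw [List.drop_of_length_le (by simp)]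
  rfl

theorem tests_step {V : Type} {m : ℕ} (e : Fin m → V) (w : V → Bool) (i : Fin m) :
    tests e w i.1 = (e i, w (e i)) :: tests e w (i.1 + 1) := by
  unfold tests
  rw [List.drop_eq_getElem_cons (by simp), List.map_cons]
  simp

theorem run_tests {V : Type} {m : ℕ} (e : Fin m → V) (f : (V → Bool) → Bool) (k : ℕ) (Γ : Type)
    {u v : Option (Option ((V → Bool) × Fin (m + 1)))} {s s' : Fin k → List Γ}
    {l : List (V × Bool)} (h : Run (guess e f k Γ) u s v s' l) : v = some none →
    (u = some none → l = []) ∧ (∀ w t, u = some (some (w, t)) → l = tests e w t.1) ∧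
    (u = none → ∃ w, f w = true ∧ l = tests e w 0) := by
  induction h with
  | nil u s =>
    intro hv
    subst hv
    refine ⟨fun _ => rfl, fun w t h => ?_, fun h => ?_⟩
    · simp at h
    · simp at h
  | @test u u' v s s' t l h1 _ ih =>
    intro hv
    obtain ⟨i1, i2, i3⟩ := ih hv
    rcases h1 with ⟨a, b, w, hw, c⟩ | ⟨w, i, a, c, b⟩ | ⟨w, a, b, c⟩
    · subst a
      subst b
      refine ⟨fun h => by simp at h, fun w' t' h => by simp at h, fun _ => ⟨w, hw, ?_⟩⟩
      have := i2 w 0 c
      simpa using this
    · subst a
      subst b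
      refine ⟨fun h => by simp at h, fun w' t' h => ?_, fun h => by simp at h⟩
      have h3 := i2 w i.succ c
      have h4 : w = w' ∧ i.castSucc = t' := by simpa using h
      rw [h3, ← h4.1, ← h4.2]
      have := tests_step e w i
      simpa using this.symm
    · subst a
      subst b
      refine ⟨fun h => by simp at h, fun w' t' h => ?_, fun h => by simp at h⟩
      have h3 := i1 c
      have h4 : w = w' ∧ Fin.last m = t' := by simpa using h
      rw [h3, ← h4.1, ← h4.2]
      have := tests_last e w
      simpa using this.symm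
  | push _ _ h1 => exact h1.elim
  | pop _ _ _ h1 => exact h1.elim

theorem run_exists {V : Type} {m : ℕ} (e : Fin m → V) (f : (V → Bool) → Bool) (k : ℕ) (Γ : Type)
    (w : V → Bool) (s : Fin k → List Γ) (j : ℕ) : ∀ t : Fin (m + 1), m - t.1 = j →
    Run (guess e f k Γ) (some (some (w, t))) s (some none) s (tests e w t.1) := by
  induction j with
  | zero =>
    intro t ht
    have : t = Fin.last m := by
      apply Fin.ext
      have := t.2
      simp
      omega
    subst this
    have h1 : Run (guess e f k Γ) (some (some (w, Fin.last m))) s (some none) s ([] ++ []) :=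
      Run.test (Or.inr (Or.inr ⟨w, rfl, rfl, rfl⟩)) (Run.nil _ _)
    have h2 := tests_last e w
    simpa [h2] using h1
  | succ j ih =>
    intro t ht
    have hlt : t.1 < m := by omega
    obtain ⟨i, hi⟩ : ∃ i : Fin m, i.castSucc = t := ⟨⟨t.1, hlt⟩, Fin.ext rfl⟩
    subst hi
    have h1 := ih i.succ (by simp at ht ⊢; omega)
    have h2 : Run (guess e f k Γ) (some (some (w, i.castSucc))) s (some none) s
        ([(e i, w (e i))] ++ tests e w i.succ.1) :=
      Run.test (Or.inr (Or.inl ⟨w, i, rfl, rfl, rfl⟩)) h1
    have h3 := tests_step e w i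
    simpa [h3] using h2

/-- a program without stack operations as a graph with proof trees (no forks) -/
def toFP {V N Γ : Type} {k : ℕ} (G : Prog V k Γ N) : Pool.Agent.CFT.FP V N where
  source := G.source
  edge := G.test
  fork _ _ _ := False
  fin v := v = G.sink

theorem run_of_der {V N Γ : Type} {k : ℕ} (G : Prog V k Γ N) (s : Fin k → List Γ) {v : N}
    {l : List (V × Bool)} (h : Pool.Agent.CFT.Der (toFP G) v l) : Run G v s G.sink s l := by
  induction h with
  | fin h => rw [show _ = G.sink from h]; exact Run.nil _ _
  | edge h _ ih => exact Run.test h ih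
  | fork h _ _ _ _ => exact h.elim

theorem der_of_run {V : Type} {m : ℕ} (e : Fin m → V) (f : (V → Bool) → Bool) (k : ℕ) (Γ : Type)
    {u v : Option (Option ((V → Bool) × Fin (m + 1)))} {s s' : Fin k → List Γ}
    {l : List (V × Bool)} (h : Run (guess e f k Γ) u s v s' l) : v = some none →
    Pool.Agent.CFT.Der (toFP (guess e f k Γ)) u l := by
  induction h with
  | nil u s => exact fun h => Pool.Agent.CFT.Der.fin h
  | test h _ ih => exact fun hv => Pool.Agent.CFT.Der.edge h (ih hv)
  | push _ _ h1 => exact h1.elim
  | pop _ _ _ h1 => exact h1.elim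

theorem tree (V : Type) [Fintype V] [DecidableEq V] (f : (V → Bool) → Bool) (k : ℕ) (Γ : Type) :
    ∃ (Q : Type) (_ : Fintype Q) (G : Prog V k Γ Q), G.Blocks 1 ∧ G.ReadOnce ∧ G.FewRereads 0 ∧
      G.Short 0 ∧ G.Computes f := by
  classical
  let e : Fin (Fintype.card V) ≃ V := (Fintype.equivFin V).symm
  let G := guess (fun i => e i) f k Γ
  have hfull : ∀ l, G.Full l → ∃ w, f w = true ∧ l = tests (fun i => e i) w 0 := by
    rintro l ⟨s, hs⟩
    exact (run_tests _ f k Γ hs rfl).2.2 rfl
  have hnd : ∀ w, ((tests (fun i => e i) w 0).map Prod.fst).Nodup := by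
    intro w
    have : (tests (fun i => e i) w 0).map Prod.fst = (List.finRange _).map (fun i => e i) := by
      simp [tests, Function.comp_def]
    rw [this]
    exact (List.nodup_finRange _).map e.injective
  have hlen : ∀ w, (tests (fun i => e i) w 0).length = Fintype.card V := by
    intro w
    simp [tests]
  have hagree : ∀ b w, Agrees b (tests (fun i => e i) w 0) → b = w := by
    intro b w h
    funext x
    have := h (e (e.symm x), w (e (e.symm x))) (by
      simp only [tests, List.drop_zero, List.mem_map]
      exact ⟨e.symm x, List.mem_finRange _, rfl⟩)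
    simpa using this
  have hacc : ∀ b, f b = true → G.Full (tests (fun i => e i) b 0) := by
    intro b hb
    refine ⟨fun _ => [], ?_⟩
    have h1 := run_exists (fun i => e i) f k Γ b (fun _ => []) (Fintype.card V) 0 (by simp)
    have h2 : Run G none (fun _ => []) (some none) (fun _ => [])
        ([] ++ tests (fun i => e i) b (0 : Fin (Fintype.card V + 1)).1) :=
      Run.test (Or.inl ⟨rfl, rfl, b, hb, rfl⟩) h1
    exact h2
  have hself : ∀ b, Agrees b (tests (fun i => e i) b 0) := by
    intro b p hp
    simp only [tests, List.drop_zero, List.mem_map] at hp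
    obtain ⟨i, _, rfl⟩ := hp
    rfl
  have hcomp : G.Computes f := by
    intro b
    constructor
    · rintro ⟨l, hl, ha⟩
      obtain ⟨w, hw, rfl⟩ := hfull l hl
      rw [hagree b w ha]
      exact hw
    · intro hb
      exact ⟨_, hacc b hb, hself b⟩
  refine ⟨_, inferInstance, G, ?_, ?_, ?_, ?_, hcomp⟩
  · intro u t v h
    rcases h with ⟨_, b, _⟩ | ⟨w, i, _, _, b⟩ | ⟨w, _, b, _⟩ <;> simp [b]
  · intro l hl
    obtain ⟨w, _, rfl⟩ := hfull l hl
    exact hnd w
  · intro b hb
    have hb' := (hcomp b).1 hb
    refine ⟨_, hacc b hb', hself b, ?_⟩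
    rw [Nat.le_zero, Finset.card_eq_zero, Finset.filter_eq_empty_iff]
    intro x _ hx
    have := List.nodup_iff_count_le_one.1 (hnd b) x
    omega
  · intro b hb
    have hb' := (hcomp b).1 hb
    exact ⟨_, hacc b hb', hself b, by rw [hlen]; omega⟩

theorem treeFP (V : Type) [Fintype V] [DecidableEq V] (f : (V → Bool) → Bool) :
    ∃ (Q : Type) (_ : Fintype Q) (G : Pool.Agent.CFT.FP V Q), G.Block 1 ∧ G.FewRereads 0 ∧
      G.Short 0 ∧ G.Computes f := by
  classical
  let e : Fin (Fintype.card V) ≃ V := (Fintype.equivFin V).symm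
  let G := guess (fun i => e i) f 0 Empty
  have hD : ∀ l, Pool.Agent.CFT.Der (toFP G) G.source l ↔ G.Full l := by
    intro l
    constructor
    · intro h
      exact ⟨_, run_of_der G (fun _ => []) h⟩
    · rintro ⟨s, h⟩
      exact der_of_run _ f 0 Empty h rfl
  have hfull : ∀ l, G.Full l → ∃ w, f w = true ∧ l = tests (fun i => e i) w 0 := by
    rintro l ⟨s, hs⟩
    exact (run_tests _ f 0 Empty hs rfl).2.2 rfl
  have hnd : ∀ w, ((tests (fun i => e i) w 0).map Prod.fst).Nodup := by
    intro w
    have : (tests (fun i => e i) w 0).map Prod.fst = (List.finRange _).map (fun i => e i) := by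
      simp [tests, Function.comp_def]
    rw [this]
    exact (List.nodup_finRange _).map e.injective
  have hlen : ∀ w, (tests (fun i => e i) w 0).length = Fintype.card V := by
    intro w
    simp [tests]
  have hagree : ∀ b w, Agrees b (tests (fun i => e i) w 0) → b = w := by
    intro b w h
    funext x
    have := h (e (e.symm x), w (e (e.symm x))) (by
      simp only [tests, List.drop_zero, List.mem_map]
      exact ⟨e.symm x, List.mem_finRange _, rfl⟩)
    simpa using this
  have hself : ∀ b, Agrees b (tests (fun i => e i) b 0) := by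
    intro b p hp
    simp only [tests, List.drop_zero, List.mem_map] at hp
    obtain ⟨i, _, rfl⟩ := hp
    rfl
  have hacc : ∀ b, f b = true → Pool.Agent.CFT.Der (toFP G) G.source (tests (fun i => e i) b 0) := by
    intro b hb
    rw [hD]
    refine ⟨fun _ => [], ?_⟩
    have h1 := run_exists (fun i => e i) f 0 Empty b (fun _ => []) (Fintype.card V) 0 (by simp)
    have h2 : Run G none (fun _ => []) (some none) (fun _ => [])
        ([] ++ tests (fun i => e i) b (0 : Fin (Fintype.card V + 1)).1) :=
      Run.test (Or.inl ⟨rfl, rfl, b, hb, rfl⟩) h1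
    exact h2
  have hcomp : (toFP G).Computes f := by
    intro b
    constructor
    · rintro ⟨l, hl, ha⟩
      obtain ⟨w, hw, rfl⟩ := hfull l ((hD l).1 hl)
      rw [hagree b w ha]
      exact hw
    · intro hb
      exact ⟨_, hacc b hb, hself b⟩
  refine ⟨_, inferInstance, toFP G, ?_, ?_, ?_, hcomp⟩
  · intro u t v h
    rcases h with ⟨_, b, _⟩ | ⟨w, i, _, _, b⟩ | ⟨w, _, b, _⟩ <;> simp [b]
  · intro b hb
    have hb' := (hcomp b).1 hb
    refine ⟨_, hacc b hb', hself b, ?_⟩
    rw [Nat.le_zero, Finset.card_eq_zero, Finset.filter_eq_empty_iff]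
    intro x _ hx
    have := List.nodup_iff_count_le_one.1 (hnd b) x
    omega
  · intro b hb
    have hb' := (hcomp b).1 hb
    exact ⟨_, hacc b hb', hself b, by rw [hlen]; omega⟩

end Pool.Agent.VAC2.OneStackEx
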