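import Pool.Agent.WL.Defs

/-!
# The cohomology of a point, part A: complexes concentrated in one degree (certificate for
MP_cb388a_ag / AlmostAllAbelianVarieties, helper91)
-/

set_option autoImplicit false

open TensorProduct Polynomial

noncomputable section

namespace Pool.Agent.VAC2.Pt

open WL

/-! ### Groups concentrated in one degree -/

/-- `A` if `P`, and `0` otherwise -/
def sub (R A : Type) [CommRing R] [AddCommGroup A] [Module R A] (P : Prop) : Submodule R A where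
  carrier := {x | ¬ P → x = 0}
  add_mem' := by
    intro a b ha hb h
    rw [ha h, hb h, add_zero]
  zero_mem' := fun _ => rfl
  smul_mem' := by
    intro c x hx h
    rw [hx h, smul_zero]

section

variable {R A B : Type} [CommRing R] [AddCommGroup A] [Module R A] [AddCommGroup B] [Module R B]
  {P Q : Prop}

theorem sub_zero_of (h : ¬ P) (x : sub R A P) : x = 0 := Subtype.ext (x.2 h)

/-- an element -/
def el (h : P) (a : A) : sub R A P := ⟨a, fun h' => absurd h h'⟩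

/-- the map induced by a linear map -/
def smap (h : P → Q) (f : A →ₗ[R] B) : sub R A P →ₗ[R] sub R B Q where
  toFun x := ⟨f x.1, fun hQ => by rw [x.2 (mt h hQ), map_zero]⟩
  map_add' x y := Subtype.ext (map_add f x.1 y.1)
  map_smul' c x := Subtype.ext (map_smul f c x.1)

end

/-- the map induced by an additive map -/
def cmap {R S A B : Type} [CommRing R] [CommRing S] [AddCommGroup A] [Module S A]
    [AddCommGroup B] [Module R B] {P Q : Prop} (h : P → Q) (f : A →+ B) :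
    sub S A P →+ sub R B Q where
  toFun x := ⟨f x.1, fun hQ => by rw [x.2 (mt h hQ), map_zero]⟩
  map_zero' := Subtype.ext (map_zero f)
  map_add' x y := Subtype.ext (map_add f x.1 y.1)

/-- Data of a complex concentrated in one degree -/
structure Dat (R : Type) [CommRing R] where
  A : Type
  B : Type
  D : Type
  [a : AddCommGroup A]
  [b : AddCommGroup B]
  [d : AddCommGroup D]
  [ma : Module R A]
  [mb : Module R B]
  [md : Module R D]
  f : A →ₗ[R] A
  r : B →ₗ[R] A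
  s : A →ₗ[R] D
  s_ker : ∀ x, s x = 0 ↔ ∃ y, x = f y - y
  s_surj : Function.Surjective s
  r_inj : ∀ x, r x = 0 → x = 0
  r_fix : ∀ x, (∃ h, r h = x) ↔ f x = x

attribute [instance] Dat.a Dat.b Dat.d Dat.ma Dat.mb Dat.md

section

variable {R : Type} [CommRing R] (X : Dat R) (j : ℤ)

/-- the complex -/
abbrev Dat.C (i : ℤ) : Type := sub R X.A (i = j)

/-- the cohomology -/
abbrev Dat.H (i : ℤ) : Type := sub R X.B (i = j) × sub R X.D (i = j + 1)

/-- Frobenius -/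
def Dat.F (i : ℤ) : X.C j i →ₗ[R] X.C j i := smap id X.f

/-- inclusion -/
def Dat.inc (i : ℤ) : X.C j i →ₗ[R] X.H j (i + 1) :=
  (LinearMap.inr R _ _).comp (smap (fun h => by rw [h]) X.s)

/-- restriction -/
def Dat.res (i : ℤ) : X.H j i →ₗ[R] X.C j i :=
  (smap id X.r).comp (LinearMap.fst R _ _)

theorem Dat.exact (i : ℤ) : KerIsImage (X.inc j i) (X.F j i) ∧
    IsExact (X.inc j i) (X.res j (i + 1)) ∧ ImageIsFixed (X.res j i) (X.F j i) := by
  refine ⟨fun x => ⟨fun h => ?_, ?_⟩, fun x => ⟨fun h => ?_, ?_⟩, fun x => ⟨?_, fun h => ?_⟩⟩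
  · have h1 : X.s x.1 = 0 := congrArg (fun z => z.2.1) h
    by_cases hi : i = j
    · obtain ⟨y, hy⟩ := (X.s_ker _).1 h1
      exact ⟨el hi y, Subtype.ext hy⟩
    · exact ⟨0, by rw [sub_zero_of hi x]; simp⟩
  · rintro ⟨y, rfl⟩
    refine Prod.ext rfl (Subtype.ext ?_)
    exact (X.s_ker _).2 ⟨y.1, rfl⟩
  · have h1 : X.r x.1.1 = 0 := congrArg Subtype.val h
    have h2 : x.1 = 0 := Subtype.ext (X.r_inj _ h1)
    by_cases hi : i = j
    · obtain ⟨y, hy⟩ := X.s_surj x.2.1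
      exact ⟨el hi y, Prod.ext h2.symm (Subtype.ext hy)⟩
    · have h3 : x.2 = 0 := sub_zero_of (fun h' => hi (by omega)) x.2
      exact ⟨0, by rw [map_zero]; exact Prod.ext h2.symm h3.symm⟩
  · rintro ⟨y, rfl⟩
    refine Subtype.ext ?_
    exact map_zero X.r
  · rintro ⟨y, rfl⟩
    refine Subtype.ext ?_
    exact (X.r_fix _).1 ⟨y.1.1, rfl⟩
  · have h1 : X.f x.1 = x.1 := congrArg Subtype.val h
    by_cases hi : i = j
    · obtain ⟨b, hb⟩ := (X.r_fix _).2 h1
      exact ⟨(el hi b, 0), Subtype.ext hb⟩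
    · exact ⟨0, by rw [sub_zero_of hi x, map_zero]⟩

end

/-- Weil-etale cohomology -/
def weil (X : Dat ℤ) (j : ℤ) (orb : ∀ x : X.A, ∃ k : ℕ, 0 < k ∧ (X.f)^[k] x = x) : Weil where
  C i := ⟨X.C j i⟩
  H i := ⟨X.H j i⟩
  F i := X.F j i
  inc i := X.inc j i
  res i := X.res j i
  add i := ⟨map_add (X.F j i), map_add (X.inc j i), map_add (X.res j i)⟩
  exact i := X.exact j i
  orbit i x := by
    obtain ⟨k, hk, h⟩ := orb x.1
    refine ⟨k, hk, Subtype.ext ?_⟩
    have h1 : ∀ m : ℕ, (((X.F j i)^[m]) x).1 = (X.f)^[m] x.1 := by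
      intro m
      induction m with
      | zero => rfl
      | succ m ih =>
        rw [Function.iterate_succ_apply', Function.iterate_succ_apply', ← ih]
        rfl
    rw [← h]
    exact h1 k

/-- `ℓ`-adic cohomology -/
def adic (ℓ : ℕ) [Fact ℓ.Prime] (X : Dat ℤ_[ℓ]) (j : ℤ) [Module.Finite ℤ_[ℓ] X.B]
    [Module.Finite ℤ_[ℓ] X.D] : Adic ℓ where
  C i := ⟨X.C j i⟩
  H i := ⟨X.H j i⟩
  F i := X.F j i
  inc i := X.inc j i
  res i := X.res j i
  lin i := ⟨(X.F j i).isLinear, (X.inc j i).isLinear, (X.res j i).isLinear⟩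
  exact i := X.exact j i
  finite i := (inferInstance : Module.Finite ℤ_[ℓ] (sub ℤ_[ℓ] X.B (i = j) × sub ℤ_[ℓ] X.D (i = j + 1)))

/-! ### Cones -/

/-- kernel and cokernel of `g` are uniquely `l`-divisible -/
structure Dv (l : ℕ) {X Y : Type} [AddCommGroup X] [AddCommGroup Y] (g : X →+ Y) : Prop where
  c1 : ∀ y, ∃ y' x, y = (l : ℤ) • y' + g x
  c2 : ∀ y x, (l : ℤ) • y = g x → ∃ x', y = g x'
  k1 : ∀ x, g x = 0 → ∃ x', g x' = 0 ∧ (l : ℤ) • x' = x
  k2 : ∀ x, g x = 0 → (l : ℤ) • x = 0 → x = 0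

section

variable {l : ℕ} {X Y : Type} [AddCommGroup X] [AddCommGroup Y] {g : X →+ Y}

theorem Dv.coker (h : Dv l g) :
    Function.Bijective (fun y : Y ⧸ g.range => (l : ℤ) • y) := by
  constructor
  · intro a b hab
    obtain ⟨a, rfl⟩ := QuotientAddGroup.mk_surjective a
    obtain ⟨b, rfl⟩ := QuotientAddGroup.mk_surjective b
    have h1 : (l : ℤ) • (QuotientAddGroup.mk a - QuotientAddGroup.mk b : Y ⧸ g.range) = 0 := by
      rw [smul_sub]
      exact sub_eq_zero.2 hab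
    have h2 : (QuotientAddGroup.mk ((l : ℤ) • (a - b)) : Y ⧸ g.range) = 0 := by
      rw [← h1]
      rfl
    rw [QuotientAddGroup.eq_zero_iff] at h2
    obtain ⟨x, hx⟩ := h2
    obtain ⟨x', hx'⟩ := h.c2 _ _ hx.symm
    rw [← sub_eq_zero]
    have h3 : (QuotientAddGroup.mk (a - b) : Y ⧸ g.range) = 0 := by
      rw [QuotientAddGroup.eq_zero_iff]
      exact ⟨x', hx'.symm⟩
    exact h3
  · intro b
    obtain ⟨b, rfl⟩ := QuotientAddGroup.mk_surjective b
    obtain ⟨y', x, h1⟩ := h.c1 b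
    refine ⟨QuotientAddGroup.mk y', ?_⟩
    show (QuotientAddGroup.mk ((l : ℤ) • y') : Y ⧸ g.range) = QuotientAddGroup.mk b
    rw [QuotientAddGroup.eq]
    exact ⟨x, by rw [h1]; abel⟩

theorem Dv.ker (h : Dv l g) : Function.Bijective (fun x : g.ker => (l : ℤ) • x) := by
  constructor
  · intro a b hab
    rw [← sub_eq_zero]
    apply Subtype.ext
    refine h.k2 _ (a - b).2 ?_
    have h1 : (l : ℤ) • (a - b) = 0 := by
      rw [smul_sub]
      exact sub_eq_zero.2 hab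
    exact congrArg Subtype.val h1
  · rintro ⟨b, hb⟩
    obtain ⟨x', h1, h2⟩ := h.k1 b hb
    exact ⟨⟨x', h1⟩, Subtype.ext h2⟩

end

theorem Dv.prod {l : ℕ} {X Y X' Y' : Type} [AddCommGroup X] [AddCommGroup Y] [AddCommGroup X']
    [AddCommGroup Y'] {g : X →+ Y} {g' : X' →+ Y'} (h : Dv l g) (h' : Dv l g') :
    Dv l (g.prodMap g') := by
  refine ⟨?_, ?_, ?_, ?_⟩
  · rintro ⟨y, z⟩
    obtain ⟨y', x, h1⟩ := h.c1 y
    obtain ⟨z', w, h2⟩ := h'.c1 z
    exact ⟨(y', z'), (x, w), Prod.ext h1 h2⟩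
  · rintro ⟨y, z⟩ ⟨x, w⟩ e
    obtain ⟨x', h1⟩ := h.c2 y x (congrArg Prod.fst e)
    obtain ⟨w', h2⟩ := h'.c2 z w (congrArg Prod.snd e)
    exact ⟨(x', w'), Prod.ext h1 h2⟩
  · rintro ⟨x, w⟩ e
    obtain ⟨x', h1, h2⟩ := h.k1 x (congrArg Prod.fst e)
    obtain ⟨w', h3, h4⟩ := h'.k1 w (congrArg Prod.snd e)
    exact ⟨(x', w'), Prod.ext h1 h3, Prod.ext h2 h4⟩
  · rintro ⟨x, w⟩ e e'
    exact Prod.ext (h.k2 x (congrArg Prod.fst e) (congrArg Prod.fst e'))
      (h'.k2 w (congrArg Prod.snd e) (congrArg Prod.snd e'))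

theorem Dv.triv {l : ℕ} {X Y : Type} [AddCommGroup X] [AddCommGroup Y] (g : X →+ Y)
    (hX : ∀ x : X, x = 0) (hY : ∀ y : Y, y = 0) : Dv l g := by
  refine ⟨fun y => ⟨0, 0, ?_⟩, fun y x _ => ⟨0, ?_⟩, fun x _ => ⟨0, map_zero g, ?_⟩,
    fun x _ _ => hX x⟩
  · rw [hY y, smul_zero, map_zero, add_zero]
  · rw [hY y, map_zero]
  · rw [hX x, smul_zero]

theorem Dv.cmap {l : ℕ} {R S A B : Type} [CommRing R] [CommRing S] [AddCommGroup A] [Module S A]
    [AddCommGroup B] [Module R B] {f : A →+ B} (h : Dv l f) {P Q : Prop} (e : P → Q) (e' : Q → P) :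
    Dv l (cmap (R := R) (S := S) e f) := by
  by_cases hP : P
  · have hQ := e hP
    refine ⟨?_, ?_, ?_, ?_⟩
    · rintro ⟨y, hy⟩
      obtain ⟨y', x, h1⟩ := h.c1 y
      exact ⟨el hQ y', el hP x, Subtype.ext h1⟩
    · rintro ⟨y, hy⟩ ⟨x, hx⟩ h1
      obtain ⟨x', h2⟩ := h.c2 y x (congrArg Subtype.val h1)
      exact ⟨el hP x', Subtype.ext h2⟩
    · rintro ⟨x, hx⟩ h1
      obtain ⟨x', h2, h3⟩ := h.k1 x (congrArg Subtype.val h1)
      exact ⟨el hP x', Subtype.ext h2, Subtype.ext h3⟩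
    · rintro ⟨x, hx⟩ h1 h2
      exact Subtype.ext (h.k2 x (congrArg Subtype.val h1) (congrArg Subtype.val h2))
  · exact Dv.triv _ (fun x => sub_zero_of hP x) (fun y => sub_zero_of (mt e' hP) y)

/-- the comparison with the split cone -/
def cone {ℓ : ℕ} [Fact ℓ.Prime] (W : Weil) (E : Adic ℓ) (cC : ∀ i, (W.C i).T →+ (E.C i).T)
    (cH : ∀ i, (W.H i).T →+ (E.H i).T)
    (h1 : ∀ i x, cH (i + 1) (W.inc i x) = E.inc i (cC i x))
    (h2 : ∀ i x, E.res i (cH i x) = cC i (W.res i x))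
    (h3 : ∀ i, Dv ℓ (cH i)) : Comparison W E where
  cC i := cC i
  cH i := cH i
  comm := h1
  comm' := h2
  Q i := ⟨((E.H i).T ⧸ (cH i).range) × (cH (i + 1)).ker⟩
  q i x := (QuotientAddGroup.mk x, 0)
  δ i x := x.2.1
  add i := by
    refine ⟨map_add _, map_add _, fun x y => ?_, fun x y => ?_⟩
    · exact Prod.ext rfl (by simp)
    · rfl
  exact i := by
    refine ⟨fun x => ?_, fun x => ?_, fun x => ?_⟩
    · constructor
      · intro h
        have h4 := congrArg Prod.fst h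
        exact (QuotientAddGroup.eq_zero_iff x).1 h4
      · intro h
        exact Prod.ext ((QuotientAddGroup.eq_zero_iff x).2 h) rfl
    · obtain ⟨a, b⟩ := x
      constructor
      · intro h
        obtain ⟨e, he⟩ := QuotientAddGroup.mk_surjective a
        exact ⟨e, Prod.ext he (Subtype.ext (Eq.symm h))⟩
      · rintro ⟨e, he⟩
        exact (congrArg (fun z => z.2.1) he).symm
    · constructor
      · intro h
        exact ⟨(0, ⟨x, h⟩), rfl⟩
      · rintro ⟨⟨a, b⟩, rfl⟩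
        exact b.2
  divisible i := by
    obtain ⟨a1, a2⟩ := (h3 i).coker
    obtain ⟨b1, b2⟩ := (h3 (i + 1)).ker
    constructor
    · intro x y h
      exact Prod.ext (a1 (congrArg Prod.fst h)) (b1 (congrArg Prod.snd h))
    · rintro ⟨x, y⟩
      obtain ⟨x', hx⟩ := a2 x
      obtain ⟨y', hy⟩ := b2 y
      exact ⟨(x', y'), Prod.ext hx hy⟩

end Pool.Agent.VAC2.Pt
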