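import Pool.Agent.VAC2.PtA

/-!
# The cohomology of a point, part B: the data (certificate for
MP_cb388a_ag / AlmostAllAbelianVarieties, helper91)
-/

set_option autoImplicit false

open TensorProduct Polynomial

noncomputable section

namespace Pool.Agent.VAC2.Pt

open WL

/-- weight `0` -/
def X0 (R : Type) [CommRing R] : Dat R where
  A := R
  B := R
  D := R
  f := LinearMap.id
  r := LinearMap.id
  s := LinearMap.id
  s_ker x := by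
    constructor
    · intro h
      exact ⟨0, by simpa using h⟩
    · rintro ⟨y, rfl⟩
      simp
  s_surj x := ⟨x, rfl⟩
  r_inj x h := h
  r_fix x := ⟨fun _ => rfl, fun _ => ⟨x, rfl⟩⟩

/-! ### The group `ℚ / ℤ[1/p]` -/

/-- the group `ℤ[1/p]` -/
def Zp (p : ℕ) : AddSubgroup ℚ where
  carrier := {x | ∃ (k : ℕ) (m : ℤ), x * (p : ℚ) ^ k = m}
  zero_mem' := ⟨0, 0, by simp⟩
  add_mem' := by
    rintro x y ⟨k, m, hx⟩ ⟨l, n, hy⟩
    refine ⟨k + l, m * p ^ l + n * p ^ k, ?_⟩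
    push_cast
    rw [← hx, ← hy]
    ring
  neg_mem' := by
    rintro x ⟨k, m, hx⟩
    exact ⟨k, -m, by push_cast; rw [← hx]; ring⟩

theorem int_mem (p : ℕ) (z : ℤ) : (z : ℚ) ∈ Zp p := ⟨0, z, by simp⟩

/-- the group `ℚ / ℤ[1/p]` -/
abbrev DD (p : ℕ) : Type := ℚ ⧸ Zp p

theorem mk_zero {p : ℕ} {x : ℚ} (h : x ∈ Zp p) : (QuotientAddGroup.mk x : DD p) = 0 :=
  (QuotientAddGroup.eq_zero_iff x).2 h

section

variable (p : ℕ) [hp : Fact p.Prime] (m : ℕ)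

/-- the map `ℤ / (m - 1) → ℚ / ℤ[1/p]` -/
def rD : ZMod (m - 1) →+ DD p :=
  ZMod.lift (m - 1) ⟨(QuotientAddGroup.mk' (Zp p)).comp
    ((AddMonoidHom.mulRight (((m - 1 : ℕ) : ℚ)⁻¹)).comp (Int.castAddHom ℚ)), by
      change (QuotientAddGroup.mk ((((m - 1 : ℕ) : ℤ) : ℚ) * (((m - 1 : ℕ) : ℚ)⁻¹)) : DD p) = 0
      apply mk_zero
      by_cases h : ((m - 1 : ℕ) : ℚ) = 0
      · rw [h, inv_zero, mul_zero]
        exact (Zp p).zero_mem
      · have h1 : (((m - 1 : ℕ) : ℤ) : ℚ) = ((m - 1 : ℕ) : ℚ) := by push_cast; rfl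
        rw [h1, mul_inv_cancel₀ h]
        exact ⟨0, 1, by simp⟩⟩

theorem rD_coe (z : ℤ) : rD p m (z : ZMod (m - 1)) =
    QuotientAddGroup.mk ((z : ℚ) * (((m - 1 : ℕ) : ℚ)⁻¹)) :=
  ZMod.lift_coe _ _ _

variable {p m}

theorem cop (hm : ∃ e, 1 ≤ e ∧ m = p ^ e) (k : ℕ) :
    IsCoprime ((p : ℤ) ^ k) ((m - 1 : ℕ) : ℤ) := by
  obtain ⟨e, he, rfl⟩ := hm
  have h0 : 1 ≤ p ^ e := Nat.one_le_pow _ _ hp.out.pos
  apply IsCoprime.pow_left
  have h1 : (p : ℤ) ∣ (p : ℤ) ^ e := dvd_pow_self _ (by omega)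
  obtain ⟨t, ht⟩ := h1
  refine ⟨t, -1, ?_⟩
  push_cast [h0]
  rw [ht]
  ring

theorem one_lt_m (hm : ∃ e, 1 ≤ e ∧ m = p ^ e) : 2 ≤ m := by
  obtain ⟨e, he, rfl⟩ := hm
  calc 2 ≤ p := hp.out.two_le
    _ = p ^ 1 := (pow_one p).symm
    _ ≤ p ^ e := Nat.pow_le_pow_right hp.out.pos he

theorem N_ne (hm : ∃ e, 1 ≤ e ∧ m = p ^ e) : ((m - 1 : ℕ) : ℚ) ≠ 0 := by
  have := one_lt_m hm
  exact_mod_cast (by omega : m - 1 ≠ 0)

theorem rD_inj (hm : ∃ e, 1 ≤ e ∧ m = p ^ e) (x : ZMod (m - 1)) (h : rD p m x = 0) : x = 0 := by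
  obtain ⟨z, rfl⟩ := ZMod.intCast_surjective x
  rw [rD_coe, QuotientAddGroup.eq_zero_iff] at h
  obtain ⟨k, t, ht⟩ := h
  have hN := N_ne hm
  have h1 : (z : ℚ) * (p : ℚ) ^ k = t * ((m - 1 : ℕ) : ℚ) := by
    rw [← ht]
    field_simp
  have h2 : z * (p : ℤ) ^ k = t * ((m - 1 : ℕ) : ℤ) := by exact_mod_cast h1
  have h3 : (((m - 1 : ℕ) : ℤ)) ∣ (p : ℤ) ^ k * z := ⟨t, by rw [mul_comm, h2, mul_comm]⟩
  have h4 : (((m - 1 : ℕ) : ℤ)) ∣ z := (cop hm k).symm.dvd_of_dvd_mul_left h3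
  exact (ZMod.intCast_zmod_eq_zero_iff_dvd z (m - 1)).2 h4

theorem mk_smul (c : ℤ) (x : ℚ) : c • (QuotientAddGroup.mk x : DD p) =
    QuotientAddGroup.mk ((c : ℚ) * x) := by
  have h : (QuotientAddGroup.mk (c • x) : DD p) = c • QuotientAddGroup.mk x := rfl
  rw [← h, zsmul_eq_mul]

theorem rD_fix (hm : ∃ e, 1 ≤ e ∧ m = p ^ e) (x : DD p) :
    (∃ h, rD p m h = x) ↔ (m : ℤ) • x = x := by
  have hN := N_ne hm
  have h2m := one_lt_m hm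
  have hNm : ((m - 1 : ℕ) : ℚ) = (m : ℚ) - 1 := by
    rw [Nat.cast_sub (by omega)]
    simp
  constructor
  · rintro ⟨h, rfl⟩
    obtain ⟨z, rfl⟩ := ZMod.intCast_surjective h
    rw [rD_coe, ← sub_eq_zero]
    have h1 : (m : ℤ) • (QuotientAddGroup.mk ((z : ℚ) * (((m - 1 : ℕ) : ℚ)⁻¹)) : DD p) -
        QuotientAddGroup.mk ((z : ℚ) * (((m - 1 : ℕ) : ℚ)⁻¹)) = QuotientAddGroup.mk (z : ℚ) := by
      rw [mk_smul, ← QuotientAddGroup.mk_sub]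
      congr 1
      rw [hNm] at hN ⊢
      push_cast
      field_simp
    rw [h1]
    exact mk_zero (int_mem p z)
  · obtain ⟨y, rfl⟩ := QuotientAddGroup.mk_surjective x
    intro h
    rw [mk_smul, ← sub_eq_zero, ← QuotientAddGroup.mk_sub, QuotientAddGroup.eq_zero_iff] at h
    obtain ⟨k, t, ht⟩ := h
    obtain ⟨u, v, huv⟩ := cop hm k
    refine ⟨((t * u : ℤ) : ZMod (m - 1)), ?_⟩
    rw [rD_coe, ← sub_eq_zero, ← QuotientAddGroup.mk_sub]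
    apply mk_zero
    refine ⟨k, -(t * v), ?_⟩
    have h3 : (u : ℚ) * (p : ℚ) ^ k + v * ((m - 1 : ℕ) : ℚ) = 1 := by exact_mod_cast huv
    have h4 : ((m - 1 : ℕ) : ℚ) * y * (p : ℚ) ^ k = t := by
      rw [← ht, hNm]
      push_cast
      ring
    have h5 : y * (p : ℚ) ^ k = t * (((m - 1 : ℕ) : ℚ)⁻¹) := by
      rw [← h4]
      field_simp
    rw [sub_mul, h5]
    have h6 : (u : ℚ) * (p : ℚ) ^ k = 1 - v * ((m - 1 : ℕ) : ℚ) := by linarith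
    calc ((t * u : ℤ) : ℚ) * (((m - 1 : ℕ) : ℚ)⁻¹) * (p : ℚ) ^ k - t * (((m - 1 : ℕ) : ℚ)⁻¹)
        = t * (((m - 1 : ℕ) : ℚ)⁻¹) * ((u : ℚ) * (p : ℚ) ^ k - 1) := by push_cast; ring
      _ = ((-(t * v) : ℤ) : ℚ) := by
        rw [h6]
        push_cast
        field_simp
        ring

theorem D_div (hm : ∃ e, 1 ≤ e ∧ m = p ^ e) (x : DD p) : ∃ y : DD p, x = (m : ℤ) • y - y := by
  have hN := N_ne hm
  have h2m := one_lt_m hm
  have hNm : ((m - 1 : ℕ) : ℚ) = (m : ℚ) - 1 := by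
    rw [Nat.cast_sub (by omega)]
    simp
  obtain ⟨y, rfl⟩ := QuotientAddGroup.mk_surjective x
  refine ⟨QuotientAddGroup.mk (y * (((m - 1 : ℕ) : ℚ)⁻¹)), ?_⟩
  rw [mk_smul, ← QuotientAddGroup.mk_sub]
  congr 1
  rw [hNm] at hN ⊢
  push_cast
  field_simp

/-- every element of `ℚ / ℤ[1/p]` has a finite orbit -/
theorem D_orb (hm : ∃ e, 1 ≤ e ∧ m = p ^ e) (x : DD p) :
    ∃ k : ℕ, 0 < k ∧ ((m : ℤ) ^ k) • x = x := by
  obtain ⟨y, rfl⟩ := QuotientAddGroup.mk_surjective x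
  obtain ⟨j, b, hb, hj⟩ := Nat.exists_eq_pow_mul_and_not_dvd y.den_nz p hp.out.ne_one
  have hbp : Nat.Coprime p b := (Nat.Prime.coprime_iff_not_dvd hp.out).2 hb
  have hmb : Nat.Coprime m b := by
    obtain ⟨e, _, rfl⟩ := hm
    exact Nat.Coprime.pow_left e hbp
  have hb0 : b ≠ 0 := by
    rintro rfl
    exact hb (dvd_zero p)
  refine ⟨b.totient, Nat.totient_pos.2 (Nat.pos_of_ne_zero hb0), ?_⟩
  have h1 : (b : ℤ) ∣ (m : ℤ) ^ b.totient - 1 := by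
    have h2 := Nat.ModEq.pow_totient hmb
    have h3 := (Nat.modEq_iff_dvd.1 h2.symm)
    push_cast at h3
    exact h3
  obtain ⟨t, ht⟩ := h1
  rw [mk_smul, ← sub_eq_zero, ← QuotientAddGroup.mk_sub]
  apply mk_zero
  refine ⟨j, t * y.num, ?_⟩
  have h4 : y * y.den = y.num := Rat.mul_den_eq_num y
  have h5 : ((m : ℚ) ^ b.totient - 1) = b * t := by exact_mod_cast ht
  rw [hj] at h4
  push_cast at h4 ⊢
  calc ((m : ℚ) ^ b.totient * y - y) * (p : ℚ) ^ j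
      = ((m : ℚ) ^ b.totient - 1) * (y * (p : ℚ) ^ j) := by ring
    _ = t * (y * ((p : ℚ) ^ j * b)) := by rw [h5]; ring
    _ = t * y.num := by rw [h4]

variable (p m)

/-- weight `≥ 1`, `m = q ^ n` -/
def XD (hm : ∃ e, 1 ≤ e ∧ m = p ^ e) : Dat ℤ where
  A := DD p
  B := ZMod (m - 1)
  D := PUnit
  f := (m : ℤ) • LinearMap.id
  r := (rD p m).toIntLinearMap
  s := 0
  s_ker x := ⟨fun _ => D_div hm x, fun _ => rfl⟩
  s_surj x := ⟨0, rfl⟩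
  r_inj x h := rD_inj hm x h
  r_fix x := by
    rw [LinearMap.smul_apply, LinearMap.id_apply]
    exact rD_fix hm x

theorem XD_orb (hm : ∃ e, 1 ≤ e ∧ m = p ^ e) (x : (XD p m hm).A) :
    ∃ k : ℕ, 0 < k ∧ ((XD p m hm).f)^[k] x = x := by
  obtain ⟨k, hk, h⟩ := D_orb hm x
  refine ⟨k, hk, ?_⟩
  have h1 : ∀ j : ℕ, ((XD p m hm).f)^[j] x = ((m : ℤ) ^ j) • x := by
    intro j
    induction j with
    | zero => simp
    | succ j ih =>
      rw [Function.iterate_succ_apply', ih, pow_succ', mul_smul]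
      rfl
  rw [h1]
  exact h

end

end Pool.Agent.VAC2.Pt
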