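import Pool.Agent.VAC2.PtB

/-!
# The cohomology of a point, part C: `l`-adic cohomology and the comparison (certificate for
MP_cb388a_ag / AlmostAllAbelianVarieties, helper91)
-/

set_option autoImplicit false

open TensorProduct Polynomial

noncomputable section

namespace Pool.Agent.VAC2.Pt

open WL

section

variable (ℓ : ℕ) [hl : Fact ℓ.Prime] (m : ℕ)

/-- the ideal generated by `m - 1` -/
def JJ : Ideal ℤ_[ℓ] := Ideal.span {((m - 1 : ℕ) : ℤ_[ℓ])}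

/-- the inverse of `m`, or `0` -/
def uu : ℤ_[ℓ] := Ring.inverse (m : ℤ_[ℓ])

variable {ℓ m}

theorem cast_sub_one (hm : 2 ≤ m) : ((m - 1 : ℕ) : ℤ_[ℓ]) = (m : ℤ_[ℓ]) - 1 := by
  rw [Nat.cast_sub (by omega)]
  simp

theorem JJ_mem (hm : 2 ≤ m) (x : ℤ_[ℓ]) : x ∈ JJ ℓ m ↔ ∃ y, x = uu ℓ m * y - y := by
  unfold JJ uu
  rw [Ideal.mem_span_singleton, cast_sub_one hm]
  by_cases hu : IsUnit (m : ℤ_[ℓ])
  · have h1 : Ring.inverse (m : ℤ_[ℓ]) * m = 1 := Ring.inverse_mul_cancel _ hu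
    constructor
    · rintro ⟨c, rfl⟩
      refine ⟨-(m * c), ?_⟩
      linear_combination c * h1
    · rintro ⟨y, rfl⟩
      refine ⟨-(Ring.inverse (m : ℤ_[ℓ]) * y), ?_⟩
      linear_combination y * h1
  · rw [Ring.inverse_non_unit _ hu]
    have h2 : IsUnit ((m : ℤ_[ℓ]) - 1) := by
      have h3 : IsUnit (1 - (m : ℤ_[ℓ])) := by
        rcases IsLocalRing.isUnit_or_isUnit_one_sub_self (m : ℤ_[ℓ]) with h | h
        · exact absurd h hu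
        · exact h
      have h4 := h3.neg
      rwa [neg_sub] at h4
    constructor
    · intro _
      exact ⟨-x, by ring⟩
    · intro _
      exact h2.dvd

theorem uu_ne_one (hm : 2 ≤ m) : uu ℓ m ≠ 1 := by
  unfold uu
  intro h
  by_cases hu : IsUnit (m : ℤ_[ℓ])
  · have h1 : Ring.inverse (m : ℤ_[ℓ]) * m = 1 := Ring.inverse_mul_cancel _ hu
    rw [h, one_mul] at h1
    have h2 : m = 1 := by exact_mod_cast h1
    omega
  · rw [Ring.inverse_non_unit _ hu] at h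
    exact zero_ne_one h

variable (ℓ m)

/-- weight `≥ 1`, `m = q ^ n` -/
def XE (hm : 2 ≤ m) : Dat ℤ_[ℓ] where
  A := ℤ_[ℓ]
  B := PUnit
  D := ℤ_[ℓ] ⧸ JJ ℓ m
  f := uu ℓ m • LinearMap.id
  r := 0
  s := (JJ ℓ m).mkQ
  s_ker x := by
    rw [Submodule.mkQ_apply, Submodule.Quotient.mk_eq_zero]
    exact JJ_mem hm x
  s_surj := Submodule.mkQ_surjective _
  r_inj x _ := rfl
  r_fix x := by
    constructor
    · rintro ⟨h, rfl⟩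
      exact map_zero _
    · intro h
      refine ⟨0, ?_⟩
      have h1 : uu ℓ m * x = x := h
      have h2 : (uu ℓ m - 1) * x = 0 := by linear_combination h1
      rcases mul_eq_zero.1 h2 with h3 | h3
      · exact absurd (sub_eq_zero.1 h3) (uu_ne_one hm)
      · exact h3.symm

instance : Module.Finite ℤ_[ℓ] (X0 ℤ_[ℓ]).B := (inferInstance : Module.Finite ℤ_[ℓ] ℤ_[ℓ])

instance : Module.Finite ℤ_[ℓ] (X0 ℤ_[ℓ]).D := (inferInstance : Module.Finite ℤ_[ℓ] ℤ_[ℓ])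

instance (hm : 2 ≤ m) : Module.Finite ℤ_[ℓ] (XE ℓ m hm).B :=
  (inferInstance : Module.Finite ℤ_[ℓ] PUnit)

instance (hm : 2 ≤ m) : Module.Finite ℤ_[ℓ] (XE ℓ m hm).D :=
  (inferInstance : Module.Finite ℤ_[ℓ] (ℤ_[ℓ] ⧸ JJ ℓ m))

/-! ### The comparison maps -/

theorem approx (k : ℕ) (y : ℤ_[ℓ]) : ∃ (n : ℕ) (z : ℤ_[ℓ]), y = (ℓ : ℤ_[ℓ]) ^ k * z + n := by
  have h := PadicInt.appr_spec k y
  rw [Ideal.mem_span_singleton] at h
  obtain ⟨z, hz⟩ := h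
  exact ⟨_, z, by rw [← hz]; ring⟩

theorem Dv_cast : Dv ℓ (Int.castAddHom ℤ_[ℓ]) := by
  have hl0 : (ℓ : ℤ_[ℓ]) ≠ 0 := by exact_mod_cast hl.out.ne_zero
  refine ⟨fun y => ?_, fun y x h => ?_, fun x h => ⟨0, ?_, ?_⟩, fun x h _ => ?_⟩
  · obtain ⟨n, z, h⟩ := approx ℓ 1 y
    refine ⟨z, n, ?_⟩
    rw [h, zsmul_eq_mul, pow_one]
    simp
  · have h1 : (ℓ : ℤ_[ℓ]) * y = (x : ℤ_[ℓ]) := by
      have h2 : (ℓ : ℤ) • y = (x : ℤ_[ℓ]) := h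
      rw [zsmul_eq_mul] at h2
      exact_mod_cast h2
    have h3 : (ℓ : ℤ_[ℓ]) ^ 1 ∣ (x : ℤ_[ℓ]) := ⟨y, by rw [pow_one, h1]⟩
    rw [PadicInt.pow_p_dvd_int_iff, pow_one] at h3
    obtain ⟨t, rfl⟩ := h3
    refine ⟨t, ?_⟩
    apply mul_left_cancel₀ hl0
    rw [h1]
    push_cast
    rfl
  · rfl
  · have h1 : x = 0 := by exact_mod_cast (show (x : ℤ_[ℓ]) = 0 from h)
    rw [h1, smul_zero]
  · exact_mod_cast (show (x : ℤ_[ℓ]) = 0 from h)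

/-- the map `ℤ / (m - 1) → ℤ_ℓ / (m - 1)` -/
def gg : ZMod (m - 1) →+ ℤ_[ℓ] ⧸ JJ ℓ m :=
  ZMod.lift (m - 1) ⟨((JJ ℓ m).mkQ.toAddMonoidHom).comp (Int.castAddHom ℤ_[ℓ]), by
    change (JJ ℓ m).mkQ (((m - 1 : ℕ) : ℤ) : ℤ_[ℓ]) = 0
    rw [Submodule.mkQ_apply, Submodule.Quotient.mk_eq_zero]
    have h : (((m - 1 : ℕ) : ℤ) : ℤ_[ℓ]) = ((m - 1 : ℕ) : ℤ_[ℓ]) := by push_cast; rfl
    rw [h]
    exact Ideal.subset_span rfl⟩

theorem gg_coe (z : ℤ) : gg ℓ m (z : ZMod (m - 1)) = (JJ ℓ m).mkQ (z : ℤ_[ℓ]) :=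
  ZMod.lift_coe _ _ _

theorem Dv_gg (hm : 2 ≤ m) : Dv ℓ (gg ℓ m) := by
  obtain ⟨v, M, hM, hv⟩ := Nat.exists_eq_pow_mul_and_not_dvd (by omega : m - 1 ≠ 0) ℓ
    hl.out.ne_one
  have hMu : IsUnit (M : ℤ_[ℓ]) := by
    rw [PadicInt.isUnit_iff, PadicInt.norm_natCast_eq_one_iff]
    exact (Nat.Prime.coprime_iff_not_dvd hl.out).2 hM
  have hcast : ((m - 1 : ℕ) : ℤ_[ℓ]) = (ℓ : ℤ_[ℓ]) ^ v * M := by
    rw [hv]
    push_cast
    rfl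
  have hJ : ∀ x : ℤ_[ℓ], x ∈ JJ ℓ m ↔ (ℓ : ℤ_[ℓ]) ^ v ∣ x := by
    intro x
    unfold JJ
    rw [Ideal.mem_span_singleton, hcast]
    exact hMu.mul_right_dvd
  have surj : Function.Surjective (gg ℓ m) := by
    intro y
    obtain ⟨y, rfl⟩ := Submodule.mkQ_surjective _ y
    obtain ⟨n, z, h⟩ := approx ℓ v y
    refine ⟨((n : ℤ) : ZMod (m - 1)), ?_⟩
    rw [gg_coe, ← sub_eq_zero, ← map_sub, Submodule.mkQ_apply, Submodule.Quotient.mk_eq_zero, hJ]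
    refine ⟨-z, ?_⟩
    rw [h]
    push_cast
    ring
  have kill : ∀ x, gg ℓ m x = 0 → (M : ℤ) • x = 0 := by
    intro x hx
    obtain ⟨z, rfl⟩ := ZMod.intCast_surjective x
    rw [gg_coe, Submodule.mkQ_apply, Submodule.Quotient.mk_eq_zero, hJ,
      PadicInt.pow_p_dvd_int_iff] at hx
    obtain ⟨t, rfl⟩ := hx
    rw [zsmul_eq_mul, ← Int.cast_mul, ZMod.intCast_zmod_eq_zero_iff_dvd]
    refine ⟨t, ?_⟩
    rw [hv]
    push_cast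
    ring
  obtain ⟨s, t, hst⟩ : IsCoprime (ℓ : ℤ) (M : ℤ) :=
    Nat.isCoprime_iff_coprime.2 ((Nat.Prime.coprime_iff_not_dvd hl.out).2 hM)
  refine ⟨fun y => ?_, fun y x _ => ?_, fun x h => ⟨s • x, ?_, ?_⟩, fun x h h' => ?_⟩
  · obtain ⟨x, rfl⟩ := surj y
    exact ⟨0, x, by rw [smul_zero, zero_add]⟩
  · obtain ⟨x, rfl⟩ := surj y
    exact ⟨x, rfl⟩
  · rw [map_zsmul, h, smul_zero]
  · have h1 := kill x h
    calc (ℓ : ℤ) • s • x = (s * (ℓ : ℤ)) • x := by rw [smul_smul, mul_comm]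
      _ = (s * (ℓ : ℤ) + t * M) • x - t • ((M : ℤ) • x) := by
        rw [add_smul, mul_smul t]
        abel
      _ = x := by rw [hst, h1, smul_zero, one_smul, sub_zero]
  · have h1 := kill x h
    calc x = (s * (ℓ : ℤ) + t * M) • x := by rw [hst, one_smul]
      _ = s • ((ℓ : ℤ) • x) + t • ((M : ℤ) • x) := by rw [add_smul, mul_smul, mul_smul]
      _ = 0 := by rw [h1, h', smul_zero, smul_zero, add_zero]

end

theorem Dv.flip {l : ℕ} {X Y P S : Type} [AddCommGroup X] [AddCommGroup Y] [AddCommGroup P]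
    [AddCommGroup S] {g : X →+ Y} (h : Dv l g) (hP : ∀ x : P, x = 0) (hS : ∀ x : S, x = 0) :
    Dv l ((AddMonoidHom.inr S Y).comp (g.comp (AddMonoidHom.fst X P))) := by
  refine ⟨?_, ?_, ?_, ?_⟩
  · rintro ⟨y, z⟩
    obtain ⟨z', x, h1⟩ := h.c1 z
    exact ⟨(0, z'), (x, 0), Prod.ext ((hS _).trans (hS _).symm) h1⟩
  · rintro ⟨y, z⟩ ⟨x, w⟩ e
    obtain ⟨x', h1⟩ := h.c2 z x (congrArg Prod.snd e)
    exact ⟨(x', 0), Prod.ext ((hS _).trans (hS _).symm) h1⟩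
  · rintro ⟨x, w⟩ e
    obtain ⟨x', h1, h2⟩ := h.k1 x (congrArg Prod.snd e)
    exact ⟨(x', 0), Prod.ext rfl h1, Prod.ext h2 ((hP _).trans (hP _).symm)⟩
  · rintro ⟨x, w⟩ e e'
    exact Prod.ext (h.k2 x (congrArg Prod.snd e) (congrArg Prod.fst e')) (hP w)

section

variable (ℓ : ℕ) [hl : Fact ℓ.Prime]

/-- weight `0` -/
def W0 : Weil := weil (X0 ℤ) 0 (fun _ => ⟨1, one_pos, rfl⟩)

/-- weight `0` -/
def E0 : Adic ℓ := adic ℓ (X0 ℤ_[ℓ]) 0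

/-- weight `0` -/
def c0 : Comparison W0 (E0 ℓ) :=
  cone W0 (E0 ℓ)
    (fun i => cmap (R := ℤ_[ℓ]) (S := ℤ) (P := i = 0) id (Int.castAddHom ℤ_[ℓ]))
    (fun i => (cmap (R := ℤ_[ℓ]) (S := ℤ) (P := i = 0) id (Int.castAddHom ℤ_[ℓ])).prodMap
      (cmap (R := ℤ_[ℓ]) (S := ℤ) (P := i = 0 + 1) id (Int.castAddHom ℤ_[ℓ])))
    (fun i x => Prod.ext (Subtype.ext (Int.cast_zero (R := ℤ_[ℓ]))) rfl)
    (fun i x => rfl)
    (fun i => ((Dv_cast ℓ).cmap id id).prod ((Dv_cast ℓ).cmap id id))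

variable (p : ℕ) [hp : Fact p.Prime] (m : ℕ) (hm : ∃ e, 1 ≤ e ∧ m = p ^ e)

/-- weight `≥ 1`, `m = q ^ n` -/
def W1 : Weil := weil (XD p m hm) 1 (XD_orb p m hm)

/-- weight `≥ 1`, `m = q ^ n` -/
def E1 : Adic ℓ := adic ℓ (XE ℓ m (one_lt_m hm)) 0

/-- weight `≥ 1`, `m = q ^ n` -/
def c1 : Comparison (W1 p m hm) (E1 ℓ p m hm) :=
  cone (W1 p m hm) (E1 ℓ p m hm) (fun i => 0)
    (fun i => (AddMonoidHom.inr (sub ℤ_[ℓ] PUnit (i = 0)) (sub ℤ_[ℓ] (ℤ_[ℓ] ⧸ JJ ℓ m) (i = 0 + 1))).comp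
      ((cmap (R := ℤ_[ℓ]) (S := ℤ) (P := i = 1) (Q := i = 0 + 1) (fun h => by omega) (gg ℓ m)).comp
        (AddMonoidHom.fst (sub ℤ (ZMod (m - 1)) (i = 1)) (sub ℤ PUnit (i = 1 + 1)))))
    (fun i x => by
      refine Prod.ext rfl (Subtype.ext ?_)
      exact (map_zero (gg ℓ m)).trans (map_zero (JJ ℓ m).mkQ).symm)
    (fun i x => rfl)
    (fun i => ((Dv_gg ℓ m (one_lt_m hm)).cmap (fun h => by omega) (fun h => by omega)).flip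
      (fun x => Subtype.ext rfl) (fun x => Subtype.ext rfl))

end

end Pool.Agent.VAC2.Pt
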