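import Pool.Agent.VAC2.PtC

/-!
# The cohomology of a point, part D: `Coh` (certificate for
MP_cb388a_ag / AlmostAllAbelianVarieties, helper91)
-/

set_option autoImplicit false

open TensorProduct Polynomial

noncomputable section

namespace Pool.Agent.VAC2.Pt

open WL

section

variable (p : ℕ) [hp : Fact p.Prime] (q : ℕ) (hq : ∃ a, 1 ≤ a ∧ q = p ^ a)

include hq in
theorem hpow (n : ℕ) : ∃ e, 1 ≤ e ∧ q ^ (n + 1) = p ^ e := by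
  obtain ⟨a, ha, rfl⟩ := hq
  exact ⟨a * (n + 1), Nat.mul_pos ha (Nat.succ_pos n), by rw [pow_mul]⟩

/-- Weil-etale cohomology of `Spec F_q` -/
def WW : ℕ → Weil
  | 0 => W0
  | n + 1 => W1 p (q ^ (n + 1)) (hpow p q hq n)

/-- `ℓ`-adic cohomology of `Spec F_q` -/
def EE (ℓ : ℕ) [Fact ℓ.Prime] : ℕ → Adic ℓ
  | 0 => E0 ℓ
  | n + 1 => E1 ℓ p (q ^ (n + 1)) (hpow p q hq n)

/-- the comparison -/
def cc (ℓ : ℕ) [Fact ℓ.Prime] : ∀ n, Comparison (WW p q hq n) (EE p q hq ℓ n)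
  | 0 => c0 ℓ
  | n + 1 => c1 ℓ p (q ^ (n + 1)) (hpow p q hq n)

/-- the cohomology groups of `Spec F_q` -/
def groups : Groups where
  p := p
  d := 0
  W := WW p q hq
  E ℓ := EE p q hq ℓ
  c ℓ := cc p q hq ℓ

/-- the characteristic polynomials -/
def PP (n : ℕ) (i : ℤ) : ℚ[X] :=
  if i = 0 then X - C (((q : ℚ) ^ n)⁻¹) else 1

end

/-! ### characteristic polynomials -/

section

variable {ℓ : ℕ} [hl : Fact ℓ.Prime]

theorem subFin (P : Prop) : Module.Finite ℤ_[ℓ] (sub ℤ_[ℓ] ℤ_[ℓ] P) := inferInstance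

theorem charpoly_zero {M : Type} [AddCommGroup M] [Module ℤ_[ℓ] M] [Module.Finite ℤ_[ℓ] M]
    (hM : ∀ x : M, x = 0)
    (f : M →ₗ[ℤ_[ℓ]] M) : (f.baseChange ℚ_[ℓ]).charpoly = 1 := by
  have : Subsingleton M := ⟨fun x y => (hM x).trans (hM y).symm⟩
  rw [LinearMap.charpoly_baseChange]
  have h1 : f.charpoly = 1 := by
    rw [← LinearMap.charpoly_toMatrix f (Module.Basis.empty M : Module.Basis (Fin 0) ℤ_[ℓ] M)]
    exact Matrix.charpoly_isEmpty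
  rw [h1, Polynomial.map_one]

theorem charpoly_one {M : Type} [AddCommGroup M] [Module ℤ_[ℓ] M] [Module.Finite ℤ_[ℓ] M]
    (e : M ≃ₗ[ℤ_[ℓ]] ℤ_[ℓ])
    (f : M →ₗ[ℤ_[ℓ]] M) (c : ℤ_[ℓ]) (hf : ∀ x, f x = c • x) :
    (f.baseChange ℚ_[ℓ]).charpoly = X - C (c : ℚ_[ℓ]) := by
  have : Module.Free ℤ_[ℓ] M := Module.Free.of_equiv e.symm
  rw [LinearMap.charpoly_baseChange]
  have h1 : f.charpoly = X - C c := by
    rw [← LinearMap.charpoly_toMatrix f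
      ((Module.Basis.singleton Unit ℤ_[ℓ]).map e.symm)]
    unfold Matrix.charpoly
    rw [Matrix.det_unique, Matrix.charmatrix_apply_eq, LinearMap.toMatrix_apply, hf,
      LinearEquiv.map_smul, Module.Basis.repr_self]
    simp
  rw [h1, Polynomial.map_sub, Polynomial.map_X, Polynomial.map_C]
  rfl

/-- `sub` of a true proposition -/
def eqv {R A : Type} [CommRing R] [AddCommGroup A] [Module R A] {P : Prop} (h : P) :
    sub R A P ≃ₗ[R] A where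
  toFun x := x.1
  map_add' _ _ := rfl
  map_smul' _ _ := rfl
  invFun x := el h x
  left_inv _ := rfl
  right_inv _ := rfl

theorem inv_unit {m : ℕ} (h : ¬ ℓ ∣ m) : ((uu ℓ m : ℤ_[ℓ]) : ℚ_[ℓ]) = ((m : ℚ_[ℓ]))⁻¹ := by
  have hu : IsUnit (m : ℤ_[ℓ]) := by
    rw [PadicInt.isUnit_iff, PadicInt.norm_natCast_eq_one_iff]
    exact (Nat.Prime.coprime_iff_not_dvd hl.out).2 h
  have h1 : Ring.inverse (m : ℤ_[ℓ]) * m = 1 := Ring.inverse_mul_cancel _ hu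
  have h2 : ((Ring.inverse (m : ℤ_[ℓ]) * m : ℤ_[ℓ]) : ℚ_[ℓ]) = 1 := by rw [h1]; rfl
  rw [PadicInt.coe_mul] at h2
  have h3 : (((m : ℤ_[ℓ])) : ℚ_[ℓ]) = (m : ℚ_[ℓ]) := PadicInt.coe_natCast m
  rw [h3] at h2
  exact eq_inv_of_mul_eq_one_left h2

end

section

variable (p : ℕ) [hp : Fact p.Prime] (q : ℕ) (hq : ∃ a, 1 ≤ a ∧ q = p ^ a)

include hq in
theorem not_dvd (ℓ : ℕ) [hl : Fact ℓ.Prime] (h : ℓ ≠ p) (n : ℕ) : ¬ ℓ ∣ q ^ n := by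
  obtain ⟨a, _, rfl⟩ := hq
  intro h1
  have h2 := hl.out.dvd_of_dvd_pow (hl.out.dvd_of_dvd_pow h1)
  exact h ((Nat.prime_dvd_prime_iff_eq hl.out hp.out).1 h2)

include hq in
theorem two_le : 2 ≤ q := one_lt_m hq

theorem charpoly_EE (ℓ : ℕ) [hl : Fact ℓ.Prime] (h : ℓ ≠ p) (n : ℕ) (i : ℤ) :
    HasCharpoly ℓ ((EE p q hq ℓ n).F i) (PP q n i) := by
  intro f _ hf
  unfold PP
  cases n with
  | zero =>
    by_cases hi : i = 0
    · rw [if_pos hi]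
      have h1 := charpoly_one (M := sub ℤ_[ℓ] ℤ_[ℓ] (i = 0)) (eqv hi) f 1 (fun x => by
        rw [one_smul]
        exact hf x)
      refine h1.trans ?_
      simp
    · rw [if_neg hi, Polynomial.map_one]
      let f' : sub ℤ_[ℓ] ℤ_[ℓ] (i = 0) →ₗ[ℤ_[ℓ]] sub ℤ_[ℓ] ℤ_[ℓ] (i = 0) := f
      have h3 := charpoly_zero (fun x => sub_zero_of hi x) f'
      exact h3
  | succ n =>
    by_cases hi : i = 0
    · rw [if_pos hi]
      have h1 := charpoly_one (M := sub ℤ_[ℓ] ℤ_[ℓ] (i = 0)) (eqv hi) f (uu ℓ (q ^ (n + 1)))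
        (fun x => hf x)
      refine h1.trans ?_
      rw [inv_unit (not_dvd p q hq ℓ h (n + 1))]
      simp
    · rw [if_neg hi, Polynomial.map_one]
      let f' : sub ℤ_[ℓ] ℤ_[ℓ] (i = 0) →ₗ[ℤ_[ℓ]] sub ℤ_[ℓ] ℤ_[ℓ] (i = 0) := f
      have h3 := charpoly_zero (fun x => sub_zero_of hi x) f'
      exact h3

theorem tors_zero {A : Type} [AddCommGroup A] {x : A} (h : x = 0) : Tors x :=
  ⟨1, one_ne_zero, by rw [h, smul_zero]⟩

theorem adic_torsion_free (ℓ : ℕ) [hl : Fact ℓ.Prime] (P : Prop) (x : sub ℤ_[ℓ] ℤ_[ℓ] P)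
    (h : Tors x) : x = 0 := by
  obtain ⟨N, hN, hx⟩ := h
  apply Subtype.ext
  have h1 : N • x.1 = 0 := congrArg Subtype.val hx
  rw [zsmul_eq_mul] at h1
  rcases mul_eq_zero.1 h1 with h2 | h2
  · exact absurd (by exact_mod_cast h2) hN
  · exact h2

theorem finrank_le_one (ℓ : ℕ) [hl : Fact ℓ.Prime] (i : ℤ) :
    Module.finrank ℤ_[ℓ] (sub ℤ_[ℓ] ℤ_[ℓ] (i = 0) × sub ℤ_[ℓ] ℤ_[ℓ] (i = 0 + 1)) ≤ 1 := by
  have h1 : Module.finrank ℤ_[ℓ] ℤ_[ℓ] = 1 := Module.finrank_self _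
  rw [← h1]
  refine LinearMap.finrank_le_finrank_of_injective
    (f := ((sub ℤ_[ℓ] ℤ_[ℓ] (i = 0)).subtype.coprod (sub ℤ_[ℓ] ℤ_[ℓ] (i = 0 + 1)).subtype)) ?_
  intro x y h
  have h2 : x.1.1 + x.2.1 = y.1.1 + y.2.1 := h
  by_cases hi : i = 0
  · have h3 : ¬ i = 0 + 1 := by omega
    have hx : x.2.1 = 0 := x.2.2 h3
    have hy : y.2.1 = 0 := y.2.2 h3
    have h4 : x.1.1 = y.1.1 := by linear_combination h2 - hx + hy
    exact Prod.ext (Subtype.ext h4) ((sub_zero_of h3 _).trans (sub_zero_of h3 _).symm)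
  · have hx : x.1.1 = 0 := x.1.2 hi
    have hy : y.1.1 = 0 := y.1.2 hi
    have h4 : x.2.1 = y.2.1 := by linear_combination h2 - hx + hy
    exact Prod.ext ((sub_zero_of hi _).trans (sub_zero_of hi _).symm) (Subtype.ext h4)

theorem quo_torsion (ℓ : ℕ) [hl : Fact ℓ.Prime] (m : ℕ) (i : ℤ)
    (x : sub ℤ_[ℓ] PUnit (i = 0) × sub ℤ_[ℓ] (ℤ_[ℓ] ⧸ JJ ℓ m) (i = 0 + 1)) :
    ((m - 1 : ℕ) : ℤ) • x = 0 := by
  refine Prod.ext (Subtype.ext rfl) (Subtype.ext ?_)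
  obtain ⟨y, hy⟩ := Submodule.mkQ_surjective _ x.2.1
  change ((m - 1 : ℕ) : ℤ) • x.2.1 = 0
  rw [← hy, ← map_zsmul, Submodule.mkQ_apply, Submodule.Quotient.mk_eq_zero, zsmul_eq_mul]
  unfold JJ
  refine Ideal.mul_mem_right _ _ ?_
  have h : (((m - 1 : ℕ) : ℤ) : ℤ_[ℓ]) = ((m - 1 : ℕ) : ℤ_[ℓ]) := by push_cast; rfl
  rw [h]
  exact Ideal.subset_span rfl

theorem deg0 (ℓ : ℕ) [hl : Fact ℓ.Prime]
    (e : sub ℤ_[ℓ] ℤ_[ℓ] ((0 : ℤ) = 0) × sub ℤ_[ℓ] ℤ_[ℓ] ((0 : ℤ) = 0 + 1)) :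
    e = e.1.1 • ((cmap (R := ℤ_[ℓ]) (S := ℤ) (P := (0 : ℤ) = 0) id
      (Int.castAddHom ℤ_[ℓ])).prodMap (cmap (R := ℤ_[ℓ]) (S := ℤ) (P := (0 : ℤ) = 0 + 1) id
      (Int.castAddHom ℤ_[ℓ]))) (el rfl (1 : ℤ), 0) := by
  have h2 : ¬ (0 : ℤ) = 0 + 1 := by omega
  refine Prod.ext (Subtype.ext ?_) ((sub_zero_of h2 _).trans (sub_zero_of h2 _).symm)
  change e.1.1 = e.1.1 * (((1 : ℤ)) : ℤ_[ℓ])
  rw [Int.cast_one, mul_one]

/-- the weights -/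
def wts : Weights (groups p q hq) where
  P := PP q
  charpoly ℓ _ h n i := charpoly_EE p q hq ℓ h n i
  P_one n i h := by
    unfold PP
    by_cases hi : i = 0
    · rw [if_pos hi, eval_sub, eval_X, eval_C]
      have hn : n ≠ 0 := by
        rintro rfl
        exact h (by rw [hi]; simp)
      have h2 := two_le p q hq
      intro h3
      have h4 : ((q : ℚ) ^ n)⁻¹ = 1 := by linarith
      have h5 : (q : ℚ) ^ n = 1 := inv_eq_one.1 h4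
      have h6 : q ^ n = 1 := by exact_mod_cast h5
      have h7 : q = 1 := by
        rcases Nat.pow_eq_one.1 h6 with h | h
        · exact h
        · exact absurd h hn
      omega
    · rw [if_neg hi, eval_one]
      exact one_ne_zero
  P_big n h := by
    have h1 : 0 < n := h
    unfold PP
    rw [if_neg (by omega), eval_one]
    exact one_ne_zero
  finite ℓ _ h n i := by
    cases n with
    | zero => exact (inferInstance : Module.Finite ℤ_[ℓ] (sub ℤ_[ℓ] ℤ_[ℓ] (i = 0)))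
    | succ n => exact (inferInstance : Module.Finite ℤ_[ℓ] (sub ℤ_[ℓ] ℤ_[ℓ] (i = 0)))
  gabber n i := by
    refine ⟨0, fun ℓ _ _ x hx => ?_⟩
    cases n with
    | zero => exact adic_torsion_free ℓ (i = 0) x hx
    | succ n => exact adic_torsion_free ℓ (i = 0) x hx
  tors_p n i h h' := by
    cases n with
    | zero =>
      have h1 : ¬ i = 0 := fun e => h (by rw [e]; simp)
      have h2 : ¬ i = 0 + 1 := fun e => h' (by rw [e]; simp)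
      intro x
      refine tors_zero ?_
      exact Prod.ext (sub_zero_of h1 x.1) (sub_zero_of h2 x.2)
    | succ n =>
      intro x
      have h1 := one_lt_m (hpow p q hq n)
      exact ⟨((q ^ (n + 1) - 1 : ℕ) : ℤ), by exact_mod_cast (by omega : q ^ (n + 1) - 1 ≠ 0),
        quo_torsion p (q ^ (n + 1)) i x⟩
  rank_p n i h := by
    cases n with
    | zero =>
      refine (finrank_le_one p i).trans ?_
      have h1 : PP q 0 (2 * ((0 : ℕ) : ℤ)) = X - C 1 := by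
        unfold PP
        rw [if_pos (by simp)]
        simp
      rw [h1, Polynomial.rootMultiplicity_X_sub_C_self]
    | succ n =>
      have h1 : ¬ i = 0 := by
        push_cast at h
        omega
      have h2 : ¬ i = 0 + 1 := by
        push_cast at h
        omega
      have : Subsingleton (((groups p q hq).E p (n + 1)).H i).T :=
        ⟨fun x y => Prod.ext ((sub_zero_of h1 x.1).trans (sub_zero_of h1 y.1).symm)
          ((sub_zero_of h2 x.2).trans (sub_zero_of h2 y.2).symm)⟩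
      have h3 := Module.finrank_zero_of_subsingleton (R := ℤ_[p])
        (M := (((groups p q hq).E p (n + 1)).H i).T)
      exact h3.le.trans (Nat.zero_le _)
  deg_zero ℓ _ := by
    intro e
    refine ⟨1, one_ne_zero, ?_⟩
    rw [one_smul]
    have h1 := deg0 ℓ e
    have h2 : ((groups p q hq).c ℓ 0).cH 0 ((el rfl (1 : ℤ) : sub ℤ ℤ ((0 : ℤ) = 0)),
        (0 : sub ℤ ℤ ((0 : ℤ) = 0 + 1))) ∈
        Submodule.span ℤ_[ℓ] (Set.range (((groups p q hq).c ℓ 0).cH 0)) :=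
      Submodule.subset_span ⟨_, rfl⟩
    exact (congrArg (fun z => z ∈ Submodule.span ℤ_[ℓ]
      (Set.range (((groups p q hq).c ℓ 0).cH 0))) h1).mpr (Submodule.smul_mem _ _ h2)

theorem idx0 : 2 * ((0 : ℕ) : ℤ) = 0 := by simp

theorem idx1 : 2 * ((0 : ℕ) : ℤ) + 1 = 0 + 1 := by simp

/-- the pairing -/
def prZ {i j : ℤ} (x : sub ℤ ℤ (i = 0) × sub ℤ ℤ (i = 0 + 1))
    (y : sub ℤ ℤ (j = 0) × sub ℤ ℤ (j = 0 + 1)) : ℤ := x.2.1 * y.1.1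

/-- the pairing -/
def prE {ℓ : ℕ} [Fact ℓ.Prime] {i j : ℤ} (x : sub ℤ_[ℓ] ℤ_[ℓ] (i = 0) × sub ℤ_[ℓ] ℤ_[ℓ] (i = 0 + 1))
    (y : sub ℤ_[ℓ] ℤ_[ℓ] (j = 0) × sub ℤ_[ℓ] ℤ_[ℓ] (j = 0 + 1)) : ℤ_[ℓ] := x.2.1 * y.1.1

theorem prZ_add {i j : ℤ} (x x' : sub ℤ ℤ (i = 0) × sub ℤ ℤ (i = 0 + 1))
    (y : sub ℤ ℤ (j = 0) × sub ℤ ℤ (j = 0 + 1)) : prZ (x + x') y = prZ x y + prZ x' y :=
  add_mul x.2.1 x'.2.1 y.1.1

theorem prZ_add' {i j : ℤ} (x : sub ℤ ℤ (i = 0) × sub ℤ ℤ (i = 0 + 1))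
    (y y' : sub ℤ ℤ (j = 0) × sub ℤ ℤ (j = 0 + 1)) : prZ x (y + y') = prZ x y + prZ x y' :=
  mul_add x.2.1 y.1.1 y'.1.1

theorem prE_add {ℓ : ℕ} [Fact ℓ.Prime] {i j : ℤ}
    (x x' : sub ℤ_[ℓ] ℤ_[ℓ] (i = 0) × sub ℤ_[ℓ] ℤ_[ℓ] (i = 0 + 1))
    (y : sub ℤ_[ℓ] ℤ_[ℓ] (j = 0) × sub ℤ_[ℓ] ℤ_[ℓ] (j = 0 + 1)) :
    prE (x + x') y = prE x y + prE x' y := add_mul x.2.1 x'.2.1 y.1.1

theorem prE_smul {ℓ : ℕ} [Fact ℓ.Prime] {i j : ℤ} (c : ℤ_[ℓ])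
    (x : sub ℤ_[ℓ] ℤ_[ℓ] (i = 0) × sub ℤ_[ℓ] ℤ_[ℓ] (i = 0 + 1))
    (y : sub ℤ_[ℓ] ℤ_[ℓ] (j = 0) × sub ℤ_[ℓ] ℤ_[ℓ] (j = 0 + 1)) :
    prE (c • x) y = c • prE x y := mul_assoc c x.2.1 y.1.1

theorem prE_add' {ℓ : ℕ} [Fact ℓ.Prime] {i j : ℤ}
    (x : sub ℤ_[ℓ] ℤ_[ℓ] (i = 0) × sub ℤ_[ℓ] ℤ_[ℓ] (i = 0 + 1))
    (y y' : sub ℤ_[ℓ] ℤ_[ℓ] (j = 0) × sub ℤ_[ℓ] ℤ_[ℓ] (j = 0 + 1)) :
    prE x (y + y') = prE x y + prE x y' := mul_add x.2.1 y.1.1 y'.1.1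

theorem prE_smul' {ℓ : ℕ} [Fact ℓ.Prime] {i j : ℤ} (c : ℤ_[ℓ])
    (x : sub ℤ_[ℓ] ℤ_[ℓ] (i = 0) × sub ℤ_[ℓ] ℤ_[ℓ] (i = 0 + 1))
    (y : sub ℤ_[ℓ] ℤ_[ℓ] (j = 0) × sub ℤ_[ℓ] ℤ_[ℓ] (j = 0 + 1)) :
    prE x (c • y) = c • prE x y := mul_left_comm x.2.1 c y.1.1

theorem prE_ker {ℓ : ℕ} [Fact ℓ.Prime]
    (x : sub ℤ_[ℓ] ℤ_[ℓ] (2 * ((0 : ℕ) : ℤ) + 1 = 0) ×
      sub ℤ_[ℓ] ℤ_[ℓ] (2 * ((0 : ℕ) : ℤ) + 1 = 0 + 1))
    (h : ∀ y : sub ℤ_[ℓ] ℤ_[ℓ] (2 * ((0 : ℕ) : ℤ) = 0) ×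
      sub ℤ_[ℓ] ℤ_[ℓ] (2 * ((0 : ℕ) : ℤ) = 0 + 1), prE x y = 0) : x = 0 := by
  have h1 := h (el idx0 1, 0)
  have h2 : x.2.1 * 1 = 0 := h1
  rw [mul_one] at h2
  have h3 : ¬ 2 * ((0 : ℕ) : ℤ) + 1 = 0 := by simp
  exact Prod.ext (sub_zero_of h3 x.1) (Subtype.ext h2)

/-- duality -/
def duality0 : Duality (groups p q hq) 0 0 where
  pair x y := prZ (i := 2 * ((0 : ℕ) : ℤ) + 1) (j := 2 * ((0 : ℕ) : ℤ)) x y
  add y x x' := prZ_add x x' y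
  add' x y y' := prZ_add' x y y'
  pairE ℓ _ x y := prE (ℓ := ℓ) (i := 2 * ((0 : ℕ) : ℤ) + 1) (j := 2 * ((0 : ℕ) : ℤ)) x y
  lin ℓ _ y := ⟨fun x x' => prE_add (ℓ := ℓ) x x' y, fun c x => prE_smul (ℓ := ℓ) c x y⟩
  lin' ℓ _ x := ⟨fun y y' => prE_add' (ℓ := ℓ) x y y', fun c y => prE_smul' (ℓ := ℓ) c x y⟩
  comm ℓ _ x y := (Int.cast_mul (α := ℤ_[ℓ]) _ _).symm
  ker ℓ _ h x hx := tors_zero (prE_ker (ℓ := ℓ) x hx)

/-- duality -/
def duality (n m : ℕ) (h : n + m = 0) : Duality (groups p q hq) n m := by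
  have h1 : n = 0 := by omega
  have h2 : m = 0 := by omega
  subst h1
  subst h2
  exact duality0 p q hq

/-- Lefschetz -/
def lefschetz0 : Lefschetz (groups p q hq) 0 0 where
  lef x := x
  add x y := rfl
  lefE ℓ _ x := x
  lin ℓ _ := ⟨fun _ _ => rfl, fun _ _ => rfl⟩
  comm ℓ _ x := rfl
  coker ℓ _ h y := ⟨1, one_ne_zero, y, by
    change y = (1 : ℤ) • y
    rw [one_smul]⟩

/-- Lefschetz -/
def lefschetz (n m : ℕ) (h : n + m = 0) : Lefschetz (groups p q hq) n m := by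
  have h1 : n = 0 := by omega
  have h2 : m = 0 := by omega
  subst h1
  subst h2
  exact lefschetz0 p q hq

/-- the cohomology of the point -/
def ptCoh : Coh where
  toGroups := groups p q hq
  weights := wts p q hq
  duality n m h := duality p q hq n m h
  lefschetz n m h _ := lefschetz p q hq n m h

/-- All groups `H^i_W(Spec F_q, ℤ(n))` are finitely generated. -/
theorem ptCoh_L (n : ℕ) : (ptCoh p q hq).L n := by
  intro i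
  have key : ∀ (A : Type) [AddCommGroup A] (P : Prop), AddGroup.FG A → AddGroup.FG (sub ℤ A P) := by
    intro A _ P hA
    have : Module.Finite ℤ A := Module.Finite.iff_addGroup_fg.2 hA
    exact Module.Finite.iff_addGroup_fg.1 inferInstance
  cases n with
  | zero =>
    have : Module.Finite ℤ (sub ℤ ℤ (i = 0) × sub ℤ ℤ (i = 0 + 1)) := inferInstance
    exact Module.Finite.iff_addGroup_fg.1 this
  | succ n =>
    have : NeZero (q ^ (n + 1) - 1) := ⟨by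
      have h1 := one_lt_m (hpow p q hq n)
      omega⟩
    have : Finite (sub ℤ (ZMod (q ^ (n + 1) - 1)) (i = 1) × sub ℤ PUnit (i = 1 + 1)) :=
      inferInstance
    have : Module.Finite ℤ (sub ℤ (ZMod (q ^ (n + 1) - 1)) (i = 1) × sub ℤ PUnit (i = 1 + 1)) :=
      Module.Finite.of_finite
    exact Module.Finite.iff_addGroup_fg.1 this

end

end Pool.Agent.VAC2.Pt
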