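import Pool.Agent.WL.Classes
import Pool.Agent.VAC2.PtD

/-!
# The cohomology of a point, part E: objects isomorphic to the point in a Chow theory (certificate for
MP_cb388a_ag / AlmostAllAbelianVarieties, helper91)
-/

set_option autoImplicit false

open CategoryTheory MonoidalCategory CartesianMonoidalCategory Limits TensorProduct

noncomputable section

namespace Pool.Agent.VAC2.Pt

open CHS

variable {V : Type} [Category.{0} V] [CartesianMonoidalCategory V] (T : ChowTheory.{0, 0, 0} V)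

/-- `X` is a point -/
def IsPt (X : V) : Prop := Nonempty (X ≅ 𝟙_ V)

variable {T}

theorem IsPt.unit : IsPt (𝟙_ V) := ⟨Iso.refl _⟩

theorem IsPt.prod {X Y : V} (h : IsPt X) (h' : IsPt Y) : IsPt (X ⊗ Y) := by
  obtain ⟨e⟩ := h
  obtain ⟨e'⟩ := h'
  exact ⟨(e ⊗ᵢ e') ≪≫ λ_ _⟩

theorem pull_one {X Y : V} (f : X ⟶ Y) : T.pull f 1 = 1 := by
  have h := T.pull_rat f 1
  rwa [map_one, map_one] at h

theorem pull_zero {X Y : V} (f : X ⟶ Y) : T.pull f 0 = 0 := by
  have h := T.pull_rat f 0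
  rwa [map_zero, map_zero] at h

theorem pull_push_iso {X Y : V} (e : X ≅ Y) (a : T.CH X) : T.pull e.hom (T.push e.hom a) = a := by
  have hp : IsPullback (𝟙 X) (𝟙 X) e.hom e.hom := IsPullback.of_horiz_isIso ⟨rfl⟩
  have hpr : IsProjection e.hom := ⟨𝟙_ V, e ≪≫ (ρ_ Y).symm, by
    rw [Iso.trans_hom, Iso.symm_hom, Category.assoc, rightUnitor_inv_fst, Category.comp_id]⟩
  have h := T.base_change (𝟙 X) (𝟙 X) e.hom e.hom hp hpr a
  rw [h, T.pull_id, T.push_id]

theorem push_one_iso {X Y : V} (e : X ≅ Y) : T.push e.hom 1 = 1 := by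
  have h1 := pull_push_iso (T := T) e 1
  have h2 : T.pull e.inv (T.pull e.hom (T.push e.hom 1)) = T.push e.hom 1 := by
    rw [← T.pull_comp, e.inv_hom_id, T.pull_id]
  rw [← h2, h1, pull_one]

/-- every cycle on the point is rational -/
theorem rat_unit (a : T.CH (𝟙_ V)) : a = algebraMap ℚ (T.CH (𝟙_ V)) (T.deg a) := by
  have h := T.push_unit a
  have h1 : toUnit (𝟙_ V) = 𝟙 (𝟙_ V) := toUnit_unique _ _
  rw [h1, T.push_id] at h
  exact h

theorem rat_inj_unit {r : ℚ} (h : algebraMap ℚ (T.CH (𝟙_ V)) r = 0) : r = 0 := by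
  by_contra hr
  apply T.point
  have h1 : algebraMap ℚ (T.CH (𝟙_ V)) (r⁻¹ * r) = 0 := by rw [map_mul, h, mul_zero]
  rwa [inv_mul_cancel₀ hr, map_one] at h1

theorem push_rat {X : V} (e : X ≅ 𝟙_ V) (r : ℚ) :
    T.push e.hom (algebraMap ℚ (T.CH X) r) = algebraMap ℚ (T.CH (𝟙_ V)) r := by
  rw [Algebra.algebraMap_eq_smul_one, T.push_smul, push_one_iso, ← Algebra.algebraMap_eq_smul_one]

theorem deg_rat {X : V} (h : IsPt X) (r : ℚ) : T.deg (algebraMap ℚ (T.CH X) r) = r := by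
  obtain ⟨e⟩ := h
  have h1 := T.push_unit (algebraMap ℚ (T.CH X) r)
  have h2 : toUnit X = e.hom := toUnit_unique _ _
  rw [h2, push_rat] at h1
  have h3 : algebraMap ℚ (T.CH (𝟙_ V)) (r - T.deg (algebraMap ℚ (T.CH X) r)) = 0 := by
    rw [map_sub, ← h1, sub_self]
  exact (sub_eq_zero.1 (rat_inj_unit h3)).symm

/-- every cycle on a point is rational -/
theorem rat {X : V} (h : IsPt X) (a : T.CH X) : a = algebraMap ℚ (T.CH X) (T.deg a) := by
  obtain ⟨e⟩ := h
  have h1 : a = T.pull e.hom (T.pull e.inv a) := by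
    rw [← T.pull_comp, e.hom_inv_id, T.pull_id]
  have h2 : a = algebraMap ℚ (T.CH X) (T.deg (T.pull e.inv a)) := by
    rw [rat_unit (T.pull e.inv a), T.pull_rat] at h1
    exact h1
  have h3 : T.deg a = T.deg (T.pull e.inv a) := by
    have h4 := congrArg T.deg h2
    rw [deg_rat ⟨e⟩] at h4
    exact h4
  rw [h3]
  exact h2

theorem rat_inj {X : V} (h : IsPt X) {r : ℚ} (hr : algebraMap ℚ (T.CH X) r = 0) : r = 0 := by
  have h1 := deg_rat (T := T) h r
  rw [hr] at h1
  have h2 := deg_rat (T := T) h 0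
  rw [map_zero] at h2
  rw [← h1, h2]

theorem deg_add {X : V} (h : IsPt X) (a b : T.CH X) : T.deg (a + b) = T.deg a + T.deg b := by
  conv_lhs => rw [rat h a, rat h b]
  rw [← map_add, deg_rat h]

theorem deg_mul {X : V} (h : IsPt X) (a b : T.CH X) : T.deg (a * b) = T.deg a * T.deg b := by
  conv_lhs => rw [rat h a, rat h b]
  rw [← map_mul, deg_rat h]

theorem deg_one {X : V} (h : IsPt X) : T.deg (1 : T.CH X) = 1 := by
  have h1 := deg_rat (T := T) h 1
  rwa [map_one] at h1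

theorem deg_zero {X : V} (h : IsPt X) : T.deg (0 : T.CH X) = 0 := by
  have h1 := deg_rat (T := T) h 0
  rwa [map_zero] at h1

theorem deg_pull {X Y : V} (h : IsPt X) (h' : IsPt Y) (f : X ⟶ Y) (a : T.CH Y) :
    T.deg (T.pull f a) = T.deg a := by
  conv_lhs => rw [rat h' a]
  rw [T.pull_rat, deg_rat h]

theorem deg_push {X Y : V} (h : IsPt X) (h' : IsPt Y) (f : X ⟶ Y) (a : T.CH X) :
    T.deg (T.push f a) = T.deg a := by
  obtain ⟨e⟩ := h
  obtain ⟨e'⟩ := h'
  have h1 := T.push_unit (T.push f a)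
  rw [← T.push_comp] at h1
  have h2 : f ≫ toUnit Y = toUnit X := toUnit_unique _ _
  rw [h2, T.push_unit] at h1
  have h3 : algebraMap ℚ (T.CH (𝟙_ V)) (T.deg a - T.deg (T.push f a)) = 0 := by
    rw [map_sub, h1, sub_self]
  exact (sub_eq_zero.1 (rat_inj_unit h3)).symm

theorem deg_cp {X : V} (h : IsPt X) (a b : T.CH (X ⊗ X)) :
    T.deg (T.cp a b) = T.deg b * T.deg a := by
  have h2 := h.prod h
  have h3 := h2.prod h
  unfold ChowTheory.cp
  rw [deg_push h3 h2, deg_mul h3, deg_pull h3 h2, deg_pull h3 h2, mul_comm]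

theorem deg_graph {X : V} (h : IsPt X) (φ : X ⟶ X) : T.deg (T.graph φ) = 1 := by
  unfold ChowTheory.graph
  rw [deg_push h (h.prod h), deg_one h]

theorem deg_ext {X : V} (h : IsPt X) (a b : T.CH X) :
    T.deg (WL.ext T a b) = T.deg b * T.deg a := by
  unfold WL.ext
  rw [deg_mul (h.prod h), deg_pull (h.prod h) h, deg_pull (h.prod h) h]

theorem eq_zero_of_deg {X : V} (h : IsPt X) {a : T.CH X} (ha : T.deg a = 0) : a = 0 := by
  rw [rat h a, ha, map_zero]

theorem gr_disj (X : V) {i j : ℤ} (hij : i ≠ j) {a : T.CH X} (h : a ∈ T.gr X i)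
    (h' : a ∈ T.gr X j) : a = 0 := by
  classical
  obtain ⟨G⟩ := T.graded X
  have h1 := DirectSum.decompose_of_mem_same (T.gr X) h
  have h2 := DirectSum.decompose_of_mem_ne (T.gr X) h' hij.symm
  rw [← h1]
  exact h2

theorem mem_zero {X : V} (h : IsPt X) (a : T.CH X) : a ∈ T.gr X 0 := by
  obtain ⟨G⟩ := T.graded X
  rw [rat h a]
  exact SetLike.algebraMap_mem_graded (T.gr X) _

theorem dim_pt {X : V} (h : IsPt X) : T.dim X = 0 := by
  obtain ⟨e⟩ := h
  have h1 := T.push_mem e.hom 0 1 (mem_zero ⟨e⟩ 1)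
  rw [push_one_iso, T.dim_unit] at h1
  by_contra hd
  apply T.point
  exact gr_disj (𝟙_ V) (by omega : (0 + 0 - T.dim X) ≠ 0) h1 (mem_zero IsPt.unit 1)

theorem cyc_pos {X : V} (h : IsPt X) {n : ℤ} (hn : n ≠ 0) {a : T.CH X} (ha : a ∈ T.cyc X n) :
    a = 0 := gr_disj X hn ha (mem_zero h a)

theorem numTrivial_zero {X : V} (h : IsPt X) {a : T.CH X} (ha : T.deg a = 0) :
    T.NumTrivial a := by
  intro b
  rw [eq_zero_of_deg h ha, zero_mul, deg_zero h]

universe x

theorem finrank_pt (K : Cohomology.{0, 0, 0, x} T) {X : V} (h : IsPt X) :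
    1 ≤ Module.finrank ℂ (K.H X) := by
  haveI := K.fin X
  by_contra hcon
  have h0 : Module.finrank ℂ (K.H X) = 0 := by omega
  have h1 : Subsingleton (K.H X) := Module.finrank_zero_iff.1 h0
  have h2 := K.trace_formula X (T.graph (𝟙 X)) (by
    have := mem_zero (T := T) (h.prod h) (T.graph (𝟙 X))
    rw [← dim_pt (T := T) h] at this
    exact this)
  rw [deg_pull h (h.prod h), deg_graph h] at h2
  have h3 : (K.sgn X ∘ₗ K.act (T.graph (𝟙 X))) = 0 := by
    apply LinearMap.ext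
    intro x
    exact Subsingleton.elim _ _
  rw [h3, map_zero] at h2
  norm_num at h2

end Pool.Agent.VAC2.Pt
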